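import Pool.Agent.SLE.Exchange

/-!
# Two left descents: the rank two lemma
-/

namespace Pool.Agent.SLE

open CoxeterSystem List

variable {B W : Type*} [Group W] {M : CoxeterMatrix B} (cs : CoxeterSystem M W)

/-- The word `i j i j ...` of length `k` (starting with `i`). -/
def alt (i j : B) : ℕ → List B
  | 0 => []
  | k + 1 => i :: alt j i k

@[simp] theorem alt_zero (i j : B) : alt i j 0 = [] := rfl

theorem alt_succ (i j : B) (k : ℕ) : alt i j (k + 1) = i :: alt j i k := rfl

@[simp] theorem length_alt (i j : B) (k : ℕ) : (alt i j k).length = k := by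
  induction k generalizing i j with
  | zero => rfl
  | succ k ih => simp [alt_succ, ih]

/-- `alt i j k * (alt j i k)⁻¹ = (s_i s_j)^k`. -/
theorem wordProd_alt_mul_inv (i j : B) (k : ℕ) :
    cs.wordProd (alt i j k) = (cs.simple i * cs.simple j) ^ k * cs.wordProd (alt j i k) := by
  induction k generalizing i j with
  | zero => simp
  | succ k ih =>
    rw [alt_succ, alt_succ, wordProd_cons, wordProd_cons, ih j i]
    have : cs.simple i * (cs.simple j * cs.simple i) ^ k =
        (cs.simple i * cs.simple j) ^ k * cs.simple i := by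
      clear ih
      induction k with
      | zero => simp
      | succ k ih => rw [pow_succ', ← mul_assoc, pow_succ' (cs.simple i * cs.simple j), mul_assoc
          (cs.simple i * cs.simple j), ← ih]; simp [mul_assoc]
    rw [← mul_assoc, this, pow_succ]
    simp [mul_assoc]

theorem wordProd_alt_comm (i j : B) :
    cs.wordProd (alt i j (M i j)) = cs.wordProd (alt j i (M i j)) := by
  rw [wordProd_alt_mul_inv, simple_mul_simple_pow, one_mul]

theorem pow_eq_one_of_alt {i j : B} {k : ℕ}
    (h : cs.wordProd (alt i j k) = cs.wordProd (alt j i k)) :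
    (cs.simple i * cs.simple j) ^ k = 1 := by
  rw [wordProd_alt_mul_inv] at h
  simpa using h

/-- A reduced word in two letters starting with `i` is alternating. -/
theorem eq_alt_of_isReduced {i j : B} (u : List B) (hu : ∀ x ∈ u, x = i ∨ x = j)
    (hr : cs.IsReduced (i :: u)) : i :: u = alt i j (u.length + 1) := by
  induction u generalizing i j with
  | nil => rfl
  | cons x u ih =>
    have hx : x = j := by
      rcases hu x (by simp) with h | h
      · exfalso
        subst h
        have h1 := hr.eq
        have h2 : cs.wordProd (x :: x :: u) = cs.wordProd u := by simp [wordProd_cons]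
        rw [h2] at h1
        have h3 := cs.length_wordProd_le u
        simp at h1
        omega
      · exact h
    subst hx
    have hr' : cs.IsReduced (x :: u) := by simpa using hr.drop 1
    have := ih (i := x) (j := i) (fun y hy => (hu y (by simp [hy])).symm) hr'
    rw [this, length_alt, alt_succ i x]

theorem not_isReduced_alt {i j : B} (hM : M i j ≠ 0) {k : ℕ} (hk : M i j < k) :
    ¬ cs.IsReduced (alt i j k) := by
  intro hr
  have h1 : cs.IsReduced (alt i j (M i j + 1)) := by
    have h2 := hr.take (M i j + 1)
    have h3 : ∀ (i j : B) (k l : ℕ), l ≤ k → (alt i j k).take l = alt i j l := by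
      intro i j k l
      induction l generalizing i j k with
      | zero => simp
      | succ l ih =>
        intro h
        obtain ⟨k', rfl⟩ : ∃ k', k = k' + 1 := ⟨k - 1, by omega⟩
        rw [alt_succ, alt_succ, List.take_succ_cons, ih j i k' (by omega)]
    rwa [h3 _ _ _ _ (by omega)] at h2
  obtain ⟨r, hr'⟩ : ∃ r, M i j = r + 1 := ⟨M i j - 1, by omega⟩
  have h4 : cs.wordProd (alt i j (M i j + 1)) = cs.wordProd (alt j i r) := by
    have h5 : M j i = M i j := M.symmetric j i
    rw [alt_succ, wordProd_cons, ← h5, wordProd_alt_comm, h5, hr', alt_succ, wordProd_cons]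
    simp
  have h6 := h1.eq
  rw [h4, length_alt] at h6
  have := cs.length_wordProd_le (alt j i r)
  rw [length_alt] at this
  omega

/-- **Rank two lemma.** If `i` and `j` are both left descents of `w` then `w` has a reduced word
starting with the full alternating word `i j i ...` of length `M i j`. -/
theorem two_descents {i j : B} (hM : M i j ≠ 0)
    (hexact : ∀ k : ℕ, (cs.simple i * cs.simple j) ^ k = 1 → M i j ∣ k)
    {w : W} (hi : cs.IsLeftDescent w i) (hj : cs.IsLeftDescent w j) :
    ∃ Y : List B, cs.wordProd (alt i j (M i j) ++ Y) = w ∧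
      cs.IsReduced (alt i j (M i j) ++ Y) := by
  classical
  -- choose a decomposition with `Y` shortest, then `u` shortest
  let P : ℕ → Prop := fun n => ∃ u Y : List B, (∀ x ∈ u, x = i ∨ x = j) ∧
    cs.wordProd (u ++ Y) = w ∧ Y.length = n
  have hP : ∃ n, P n := by
    obtain ⟨ω, hω⟩ := cs.wordProd_surjective w
    exact ⟨ω.length, [], ω, by simp, by simpa using hω, rfl⟩
  set n0 := Nat.find hP with hn0
  let Q : ℕ → Prop := fun k => ∃ u Y : List B, (∀ x ∈ u, x = i ∨ x = j) ∧
    cs.wordProd (u ++ Y) = w ∧ Y.length = n0 ∧ u.length = k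
  have hQ : ∃ k, Q k := by
    obtain ⟨u, Y, h1, h2, h3⟩ := Nat.find_spec hP
    exact ⟨u.length, u, Y, h1, h2, h3, rfl⟩
  obtain ⟨u, Y, hu, hw, hY, huk⟩ := Nat.find_spec hQ
  have hmin1 : ∀ u' Y' : List B, (∀ x ∈ u', x = i ∨ x = j) → cs.wordProd (u' ++ Y') = w →
      n0 ≤ Y'.length := fun u' Y' h1 h2 => Nat.find_min' hP ⟨u', Y', h1, h2, rfl⟩
  have hmin2 : ∀ u' Y' : List B, (∀ x ∈ u', x = i ∨ x = j) → cs.wordProd (u' ++ Y') = w →
      Y'.length = n0 → u.length ≤ u'.length := by
    intro u' Y' h1 h2 h3
    rw [huk]
    exact Nat.find_min' hQ ⟨u', Y', h1, h2, h3, rfl⟩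
  have hred : cs.IsReduced (u ++ Y) := by
    obtain ⟨ω, hs, hr, hp⟩ := exists_reduced_sublist cs (u ++ Y)
    obtain ⟨u', Y', rfl, hu', hY'⟩ := List.sublist_append_iff.1 hs
    have h1 : ∀ x ∈ u', x = i ∨ x = j := fun x hx => hu x (hu'.subset hx)
    have h2 : cs.wordProd (u' ++ Y') = w := by rw [hp, hw]
    have h3 := hmin1 u' Y' h1 h2
    have h4 : Y' = Y := hY'.eq_of_length (le_antisymm hY'.length_le (by omega))
    subst h4
    have h5 := hmin2 u' Y' h1 h2 hY
    have h6 : u' = u := hu'.eq_of_length (le_antisymm hu'.length_le h5)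
    subst h6
    exact hr
  -- for `x ∈ {i,j}` descent, `π u = π (x :: u')` with `x :: u'` reduced of the same length
  have key : ∀ x : B, (x = i ∨ x = j) → cs.IsLeftDescent w x →
      ∃ p < u.length, cs.wordProd u = cs.wordProd (x :: u.eraseIdx p) := by
    intro x hx hdx
    rw [← hw] at hdx
    obtain ⟨p, hp, hp2⟩ := exchange_left cs (u ++ Y) x hdx
    by_cases hpu : p < u.length
    · refine ⟨p, hpu, ?_⟩
      rw [List.eraseIdx_append_of_lt_length hpu, wordProd_append, wordProd_append,
        ← mul_assoc] at hp2
      have := mul_right_cancel hp2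
      rw [wordProd_cons, this]; simp
    · exfalso
      rw [List.eraseIdx_append_of_length_le (by omega), wordProd_append, wordProd_append] at hp2
      have h1 : cs.wordProd ((x :: u) ++ Y.eraseIdx (p - u.length)) = w := by
        rw [List.cons_append, wordProd_cons, wordProd_append, hp2, ← hw, wordProd_append]
        simp
      have h2 := hmin1 _ _ (by
        intro y hy
        rcases List.mem_cons.1 hy with h | h
        · rw [h]; exact hx
        · exact hu y h) h1
      rw [List.length_append] at hp
      rw [List.length_eraseIdx_of_lt (by omega)] at h2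
      omega
  have hredu : cs.IsReduced u := by simpa using hred.take u.length
  obtain ⟨p, hp, hpi⟩ := key i (Or.inl rfl) hi
  obtain ⟨q, hq, hqj⟩ := key j (Or.inr rfl) hj
  have hk1 : (u.eraseIdx p).length + 1 = u.length := by
    rw [List.length_eraseIdx_of_lt hp]; omega
  have hk2 : (u.eraseIdx q).length + 1 = u.length := by
    rw [List.length_eraseIdx_of_lt hq]; omega
  have hri : cs.IsReduced (i :: u.eraseIdx p) := by
    rw [CoxeterSystem.IsReduced, ← hpi, List.length_cons, hk1, hredu.eq]
  have hrj : cs.IsReduced (j :: u.eraseIdx q) := by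
    rw [CoxeterSystem.IsReduced, ← hqj, List.length_cons, hk2, hredu.eq]
  have hai := eq_alt_of_isReduced cs (u.eraseIdx p)
    (fun x hx => hu x ((List.eraseIdx_sublist _ _).subset hx)) hri
  have haj := eq_alt_of_isReduced cs (u.eraseIdx q) (i := j) (j := i)
    (fun x hx => (hu x ((List.eraseIdx_sublist _ _).subset hx)).symm) hrj
  rw [hk1] at hai
  rw [hk2] at haj
  have heq : cs.wordProd (alt i j u.length) = cs.wordProd (alt j i u.length) := by
    rw [← hai, ← haj, ← hpi, ← hqj]
  have hdvd := hexact _ (pow_eq_one_of_alt cs heq)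
  have hle : u.length ≤ M i j := by
    by_contra hcon
    exact not_isReduced_alt cs hM (not_le.1 hcon) (hai ▸ hri)
  have hpos : 0 < u.length := by omega
  have hkM : u.length = M i j := le_antisymm hle (Nat.le_of_dvd hpos hdvd)
  refine ⟨Y, ?_, ?_⟩
  · rw [← hkM, wordProd_append, ← hai, ← hpi, ← wordProd_append, hw]
  · rw [CoxeterSystem.IsReduced, ← hkM, wordProd_append, ← hai, ← hpi, ← wordProd_append,
      hred.eq]
    simp only [List.length_append, List.length_cons]
    omega

end Pool.Agent.SLE
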