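import Pool.Agent.SLE.FaceVal

/-!
# Attaching faces

Faces are attached along paths of the boundary: the face `i` has `fper (y i)` edges, its first
`r i` edges are the old path `f i 0, …, f i (r i)`, the other ones are new.
-/

namespace Pool.Agent.SLE

open List G3

/-- The letter before `y` around a face. -/
def prv (y : Letter) : Letter := nxt y

theorem nxt_prv (y : Letter) : nxt (prv y) = y := by
  obtain ⟨i, b⟩ := y
  fin_cases i <;> cases b <;> rfl

theorem nxt_ne_flip (y : Letter) : nxt y ≠ flip y := by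
  obtain ⟨i, b⟩ := y
  fin_cases i <;> cases b <;> simp [nxt, flip]

theorem flip_inj {y y' : Letter} (h : flip y = flip y') : y = y' := by
  rw [← flip_flip y, h, flip_flip]

/-- The last letter around a face. -/
theorem nxt_iter_last {l m n : ℕ} {y : Letter} {t : ℕ} (h : t + 1 = fper l m n y) :
    nxt^[t] y = prv y := by
  apply DSys.nxt_inj
  rw [nxt_prv, ← Function.iterate_succ_apply' nxt, Nat.succ_eq_add_one, h, DSys.nxt_iter_fper]

/-- Data for attaching faces. -/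
structure Att {X : Type*} (S : DSys X) (l m n : ℕ) (ι : Type*) where
  y : ι → Letter
  r : ι → ℕ
  f : ι → ℕ → X
  r_pos : ∀ i, 1 ≤ r i
  r_lt : ∀ i, r i < fper l m n (y i)
  path : ∀ i, ∀ t < r i, S.Adj (f i t) (nxt^[t] (y i)) (f i (t + 1))
  free_top : ∀ i x', ¬ S.Adj (f i (r i)) (nxt^[r i] (y i)) x'
  free_bot : ∀ i x', ¬ S.Adj (f i 0) (flip (prv (y i))) x'
  inj_top : ∀ i i', f i (r i) = f i' (r i') → nxt^[r i] (y i) = nxt^[r i'] (y i') → i = i'
  inj_bot : ∀ i i', f i 0 = f i' 0 → y i = y i' → i = i'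
  disj : ∀ i i', f i (r i) = f i' 0 → nxt^[r i] (y i) ≠ flip (prv (y i'))

namespace Att

variable {X : Type*} {S : DSys X} {l m n : ℕ} {ι : Type*} (A : Att S l m n ι)

open Classical in
/-- The boundary of the attached face; the vertices `(i, t)` with `r i < t < fper (y i)` are new. -/
noncomputable def path' (i : ι) (t : ℕ) : X ⊕ (ι × ℕ) :=
  if t ≤ A.r i then Sum.inl (A.f i t)
  else if t < fper l m n (A.y i) then Sum.inr (i, t) else Sum.inl (A.f i 0)

theorem path'_old {i : ι} {t : ℕ} (h : t ≤ A.r i) : A.path' i t = Sum.inl (A.f i t) := by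
  simp [path', h]

theorem path'_new {i : ι} {t : ℕ} (h : A.r i < t) (h2 : t < fper l m n (A.y i)) :
    A.path' i t = Sum.inr (i, t) := by
  simp [path', h2, not_le.2 h]

theorem path'_last {i : ι} {t : ℕ} (h : t = fper l m n (A.y i)) :
    A.path' i t = Sum.inl (A.f i 0) := by
  have h1 := A.r_lt i
  simp [path', h, not_le.2 h1]

/-- The edges of the new system. -/
inductive Adj : X ⊕ (ι × ℕ) → Letter → X ⊕ (ι × ℕ) → Prop
  | old {x y x'} (h : S.Adj x y x') : Adj (Sum.inl x) y (Sum.inl x')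
  | fwd (i t) (h1 : A.r i ≤ t) (h2 : t < fper l m n (A.y i)) :
      Adj (A.path' i t) (nxt^[t] (A.y i)) (A.path' i (t + 1))
  | bwd (i t) (h1 : A.r i ≤ t) (h2 : t < fper l m n (A.y i)) :
      Adj (A.path' i (t + 1)) (flip (nxt^[t] (A.y i))) (A.path' i t)

theorem adj_iff {x : X ⊕ (ι × ℕ)} {y : Letter} {x' : X ⊕ (ι × ℕ)} : A.Adj x y x' ↔
    (∃ a a', x = Sum.inl a ∧ x' = Sum.inl a' ∧ S.Adj a y a') ∨
    (∃ i t, A.r i ≤ t ∧ t < fper l m n (A.y i) ∧ x = A.path' i t ∧ y = nxt^[t] (A.y i) ∧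
      x' = A.path' i (t + 1)) ∨
    (∃ i t, A.r i ≤ t ∧ t < fper l m n (A.y i) ∧ x = A.path' i (t + 1) ∧
      y = flip (nxt^[t] (A.y i)) ∧ x' = A.path' i t) := by
  constructor
  · intro h
    cases h with
    | old h => exact Or.inl ⟨_, _, rfl, rfl, h⟩
    | fwd i t h1 h2 => exact Or.inr (Or.inl ⟨i, t, h1, h2, rfl, rfl, rfl⟩)
    | bwd i t h1 h2 => exact Or.inr (Or.inr ⟨i, t, h1, h2, rfl, rfl, rfl⟩)
  · rintro (⟨a, a', rfl, rfl, h⟩ | ⟨i, t, h1, h2, rfl, rfl, rfl⟩ | ⟨i, t, h1, h2, rfl, rfl, rfl⟩)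
    · exact Adj.old h
    · exact Adj.fwd i t h1 h2
    · exact Adj.bwd i t h1 h2

/-- The starting points of the new darts. -/
theorem fwd_src {i : ι} {t : ℕ} (h1 : A.r i ≤ t) (h2 : t < fper l m n (A.y i)) :
    (t = A.r i ∧ A.path' i t = Sum.inl (A.f i (A.r i))) ∨
    (A.r i < t ∧ A.path' i t = Sum.inr (i, t)) := by
  rcases h1.eq_or_lt with h | h
  · exact Or.inl ⟨h.symm, by rw [← h, A.path'_old le_rfl]⟩
  · exact Or.inr ⟨h, A.path'_new h h2⟩

theorem bwd_src {i : ι} {t : ℕ} (h1 : A.r i ≤ t) (h2 : t < fper l m n (A.y i)) :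
    (t + 1 = fper l m n (A.y i) ∧ A.path' i (t + 1) = Sum.inl (A.f i 0)) ∨
    (t + 1 < fper l m n (A.y i) ∧ A.path' i (t + 1) = Sum.inr (i, t + 1)) := by
  rcases (Nat.succ_le_of_lt h2).eq_or_lt with h | h
  · exact Or.inl ⟨h, A.path'_last h⟩
  · exact Or.inr ⟨h, A.path'_new (Nat.lt_succ_of_le h1) h⟩

theorem not_old_fwd {i : ι} {t : ℕ} (h1 : A.r i ≤ t) (h2 : t < fper l m n (A.y i)) {a a' : X}
    (ha : Sum.inl a = A.path' i t) (h : S.Adj a (nxt^[t] (A.y i)) a') : False := by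
  rcases A.fwd_src h1 h2 with ⟨h3, h4⟩ | ⟨h3, h4⟩
  · rw [h4, Sum.inl.injEq] at ha
    subst ha
    rw [h3] at h
    exact A.free_top i a' h
  · rw [h4] at ha
    cases ha

theorem not_old_bwd {i : ι} {t : ℕ} (h1 : A.r i ≤ t) (h2 : t < fper l m n (A.y i)) {a a' : X}
    (ha : Sum.inl a = A.path' i (t + 1)) (h : S.Adj a (flip (nxt^[t] (A.y i))) a') : False := by
  rcases A.bwd_src h1 h2 with ⟨h3, h4⟩ | ⟨h3, h4⟩
  · rw [h4, Sum.inl.injEq] at ha
    subst ha
    rw [nxt_iter_last h3] at h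
    exact A.free_bot i a' h
  · rw [h4] at ha
    cases ha

theorem fwd_fwd {i i' : ι} {t t' : ℕ} (h1 : A.r i ≤ t) (h2 : t < fper l m n (A.y i))
    (h1' : A.r i' ≤ t') (h2' : t' < fper l m n (A.y i')) (h : A.path' i t = A.path' i' t')
    (hy : nxt^[t] (A.y i) = nxt^[t'] (A.y i')) : i = i' ∧ t = t' := by
  rcases A.fwd_src h1 h2 with ⟨h3, h4⟩ | ⟨h3, h4⟩ <;>
    rcases A.fwd_src h1' h2' with ⟨h3', h4'⟩ | ⟨h3', h4'⟩
  · rw [h4, h4', Sum.inl.injEq] at h
    rw [h3, h3'] at hy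
    have := A.inj_top i i' h hy
    subst this
    exact ⟨rfl, h3.trans h3'.symm⟩
  · rw [h4, h4'] at h
    cases h
  · rw [h4, h4'] at h
    cases h
  · rw [h4, h4', Sum.inr.injEq, Prod.mk.injEq] at h
    exact h

theorem bwd_bwd {i i' : ι} {t t' : ℕ} (h1 : A.r i ≤ t) (h2 : t < fper l m n (A.y i))
    (h1' : A.r i' ≤ t') (h2' : t' < fper l m n (A.y i'))
    (h : A.path' i (t + 1) = A.path' i' (t' + 1))
    (hy : flip (nxt^[t] (A.y i)) = flip (nxt^[t'] (A.y i'))) : i = i' ∧ t = t' := by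
  rcases A.bwd_src h1 h2 with ⟨h3, h4⟩ | ⟨h3, h4⟩ <;>
    rcases A.bwd_src h1' h2' with ⟨h3', h4'⟩ | ⟨h3', h4'⟩
  · rw [h4, h4', Sum.inl.injEq] at h
    rw [nxt_iter_last h3, nxt_iter_last h3'] at hy
    have h5 : A.y i = A.y i' := DSys.nxt_inj (flip_inj hy)
    have := A.inj_bot i i' h h5
    subst this
    exact ⟨rfl, by omega⟩
  · rw [h4, h4'] at h
    cases h
  · rw [h4, h4'] at h
    cases h
  · rw [h4, h4', Sum.inr.injEq, Prod.mk.injEq] at h
    exact ⟨h.1, by omega⟩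

theorem fwd_bwd {i i' : ι} {t t' : ℕ} (h1 : A.r i ≤ t) (h2 : t < fper l m n (A.y i))
    (h1' : A.r i' ≤ t') (h2' : t' < fper l m n (A.y i'))
    (h : A.path' i t = A.path' i' (t' + 1))
    (hy : nxt^[t] (A.y i) = flip (nxt^[t'] (A.y i'))) : False := by
  rcases A.fwd_src h1 h2 with ⟨h3, h4⟩ | ⟨h3, h4⟩ <;>
    rcases A.bwd_src h1' h2' with ⟨h3', h4'⟩ | ⟨h3', h4'⟩
  · rw [h4, h4', Sum.inl.injEq] at h
    rw [h3, nxt_iter_last h3'] at hy
    exact A.disj i i' h hy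
  · rw [h4, h4'] at h
    cases h
  · rw [h4, h4'] at h
    cases h
  · rw [h4, h4', Sum.inr.injEq, Prod.mk.injEq] at h
    obtain ⟨h5, h6⟩ := h
    subst h5
    rw [h6, Function.iterate_succ_apply'] at hy
    exact nxt_ne_flip _ hy

theorem det {x y x1 x2} (h1 : A.Adj x y x1) (h2 : A.Adj x y x2) : x1 = x2 := by
  rw [A.adj_iff] at h1 h2
  rcases h1 with ⟨a, a', rfl, rfl, h⟩ | ⟨i, t, b1, b2, rfl, rfl, rfl⟩ |
    ⟨i, t, b1, b2, rfl, rfl, rfl⟩
  · rcases h2 with ⟨c, c', h3, rfl, h4⟩ | ⟨i', t', c1, c2, h3, rfl, rfl⟩ |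
      ⟨i', t', c1, c2, h3, rfl, rfl⟩
    · rw [Sum.inl.injEq] at h3
      subst h3
      rw [S.det h h4]
    · exact (A.not_old_fwd c1 c2 h3 h).elim
    · exact (A.not_old_bwd c1 c2 h3 h).elim
  · rcases h2 with ⟨c, c', h3, rfl, h4⟩ | ⟨i', t', c1, c2, h3, h4, rfl⟩ |
      ⟨i', t', c1, c2, h3, h4, rfl⟩
    · exact (A.not_old_fwd b1 b2 h3.symm h4).elim
    · obtain ⟨rfl, rfl⟩ := A.fwd_fwd b1 b2 c1 c2 h3 h4
      rfl
    · exact (A.fwd_bwd b1 b2 c1 c2 h3 h4).elim
  · rcases h2 with ⟨c, c', h3, rfl, h4⟩ | ⟨i', t', c1, c2, h3, h4, rfl⟩ |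
      ⟨i', t', c1, c2, h3, h4, rfl⟩
    · exact (A.not_old_bwd b1 b2 h3.symm h4).elim
    · exact (A.fwd_bwd c1 c2 b1 b2 h3.symm h4.symm).elim
    · obtain ⟨rfl, rfl⟩ := A.bwd_bwd b1 b2 c1 c2 h3 h4
      rfl

/-- The new system. -/
noncomputable def sys : DSys (X ⊕ (ι × ℕ)) where
  Adj := A.Adj
  symm := by
    intro x y x' h
    cases h with
    | old h => exact Adj.old (S.symm h)
    | fwd i t h1 h2 => exact Adj.bwd i t h1 h2
    | bwd i t h1 h2 => rw [flip_flip]; exact Adj.fwd i t h1 h2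
  det := A.det

theorem inner_old {x : X} {y : Letter} (h : S.Inner l m n x y) :
    A.sys.Inner l m n (Sum.inl x) y := by
  obtain ⟨y0, s, t, hs, ht, rfl, rfl⟩ := h
  refine ⟨y0, fun t => Sum.inl (s t), t, ⟨fun j hj => Adj.old (hs.1 j hj), ?_⟩, ht, rfl, rfl⟩
  change Sum.inl (s (fper l m n y0)) = Sum.inl (s 0)
  rw [hs.2]

theorem face (i : ι) : A.sys.Face l m n (A.y i) (A.path' i) := by
  constructor
  · intro t ht
    change A.Adj _ _ _
    by_cases h : t < A.r i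
    · rw [A.path'_old h.le, A.path'_old (Nat.succ_le_of_lt h)]
      exact Adj.old (A.path i t h)
    · exact Adj.fwd i t (not_lt.1 h) ht
  · rw [A.path'_last rfl, A.path'_old (Nat.zero_le _)]

/-- The section over the new vertices. -/
noncomputable def nval (val : X → E l m n) : X ⊕ (ι × ℕ) → E l m n
  | Sum.inl x => val x
  | Sum.inr (i, t) =>
    val (A.f i (A.r i)) * eval l m n (fw (nxt^[A.r i] (A.y i)) (t - A.r i))

theorem nval_path' (val : X → E l m n) {i : ι} {t : ℕ} (h1 : A.r i ≤ t)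
    (h2 : t < fper l m n (A.y i)) : A.nval val (A.path' i t) =
      val (A.f i (A.r i)) * eval l m n (fw (nxt^[A.r i] (A.y i)) (t - A.r i)) := by
  rcases A.fwd_src h1 h2 with ⟨h3, h4⟩ | ⟨h3, h4⟩
  · rw [h4, h3, Nat.sub_self]
    change val _ = val _ * eval l m n []
    rw [eval_nil, mul_one]
  · rw [h4]
    rfl

theorem eval_step (l m n : ℕ) (y : Letter) {r t : ℕ} (h : r ≤ t) :
    eval l m n (fw (nxt^[r] y) (t - r)) * eval l m n [nxt^[t] y] =
      eval l m n (fw (nxt^[r] y) (t + 1 - r)) := by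
  rw [show t + 1 - r = (t - r) + 1 by omega, fw_add, eval_append,
    ← Function.iterate_add_apply, show t - r + r = t by omega]
  rfl

theorem rev_step {l m n : ℕ} {g g' : E l m n} {y : Letter} {k : ℤ}
    (h : g * eval l m n [y] = g' * (genB l m n ^ n) ^ k) :
    g' * eval l m n [flip y] = g * (genB l m n ^ n) ^ (-k) := by
  have h1 : g = g' * (genB l m n ^ n) ^ k * (eval l m n [y])⁻¹ := by rw [← h]; simp
  rw [h1, eval_flip, mul_assoc (_ * _), ← zpow_comm (eval l m n [y])⁻¹ (-k), mul_assoc g',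
    ← mul_assoc (_ ^ k), ← zpow_add, add_neg_cancel, zpow_zero, one_mul]

/-- The steps along the new edges. -/
theorem nval_mid (val : X → E l m n) {i : ι} {t : ℕ} (h1 : A.r i ≤ t)
    (h2 : t + 1 < fper l m n (A.y i)) :
    A.nval val (A.path' i t) * eval l m n [nxt^[t] (A.y i)] =
      A.nval val (A.path' i (t + 1)) * (genB l m n ^ n) ^ (0 : ℤ) := by
  rw [A.nval_path' val h1 (by omega), A.nval_path' val (t := t + 1) (by omega) h2, zpow_zero,
    mul_one, mul_assoc, eval_step l m n _ h1]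

theorem nval_last {val : X → E l m n} {κ : X → Letter → ℤ}
    (hv : ∀ x y x', S.Adj x y x' → val x * eval l m n [y] = val x' * (genB l m n ^ n) ^ κ x y)
    {i : ι} {t : ℕ} (h2 : t + 1 = fper l m n (A.y i)) :
    A.nval val (A.path' i t) * eval l m n [nxt^[t] (A.y i)] =
      A.nval val (A.path' i (t + 1)) *
        (genB l m n ^ n) ^ (fht (A.y i) - kap S.mv κ (A.f i 0) (fw (A.y i) (A.r i))) := by
  have hr := A.r_lt i
  have V := DSys.vval hv
  have h3 := V.mul_eval (DSys.run_path (A.path i))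
  rw [A.nval_path' val (t := t) (by omega) (by omega), A.path'_last h2, mul_assoc,
    eval_step l m n _ (by omega), h2]
  change _ = val (A.f i 0) * _
  have h4 : fper l m n (A.y i) = A.r i + (fper l m n (A.y i) - A.r i) := by omega
  have h5 := eval_face l m n (A.y i)
  rw [h4, fw_add, eval_append] at h5
  set K := kap S.mv κ (A.f i 0) (fw (A.y i) (A.r i)) with hK
  have h6 : val (A.f i (A.r i)) =
      val (A.f i 0) * eval l m n (fw (A.y i) (A.r i)) * (genB l m n ^ n) ^ (-K) := by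
    rw [h3, mul_assoc, ← zpow_add, add_neg_cancel, zpow_zero, mul_one]
  rw [h6, mul_assoc, zpow_comm, ← mul_assoc, mul_assoc (val (A.f i 0)), h5, mul_assoc,
    ← zpow_add, sub_eq_add_neg]

/-- The sections extend; the new edges have height `0`, except the last one. -/
theorem exists_val (hl : 2 ≤ l) (hm : 2 ≤ m) (hn : 2 ≤ n)
    (hyp : (1 / l + 1 / m + 1 / n : ℚ) < 1) (val : X → E l m n) (κ : X → Letter → ℤ)
    (hv : ∀ x y x', S.Adj x y x' → val x * eval l m n [y] = val x' * (genB l m n ^ n) ^ κ x y) :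
    ∃ (val' : X ⊕ (ι × ℕ) → E l m n) (κ' : X ⊕ (ι × ℕ) → Letter → ℤ),
      (∀ x y x', A.Adj x y x' → val' x * eval l m n [y] = val' x' * (genB l m n ^ n) ^ κ' x y) ∧
      (∀ x, val' (Sum.inl x) = val x) ∧
      (∀ x y x', S.Adj x y x' → κ' (Sum.inl x) y = κ x y) ∧
      (∀ i t, A.r i ≤ t → t + 1 < fper l m n (A.y i) →
        κ' (A.path' i t) (nxt^[t] (A.y i)) = 0 ∧
        κ' (A.path' i (t + 1)) (flip (nxt^[t] (A.y i))) = 0) ∧
      (∀ i t, t + 1 = fper l m n (A.y i) →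
        κ' (A.path' i t) (nxt^[t] (A.y i)) =
          fht (A.y i) - kap S.mv κ (A.f i 0) (fw (A.y i) (A.r i)) ∧
        κ' (A.path' i (t + 1)) (flip (nxt^[t] (A.y i))) =
          kap S.mv κ (A.f i 0) (fw (A.y i) (A.r i)) - fht (A.y i)) := by
  classical
  -- every dart has a height
  have hex : ∀ x y x', A.Adj x y x' → ∃ k : ℤ,
      A.nval val x * eval l m n [y] = A.nval val x' * (genB l m n ^ n) ^ k := by
    intro x y x' h
    cases h with
    | old h => exact ⟨_, hv _ _ _ h⟩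
    | fwd i t h1 h2 =>
      rcases (Nat.succ_le_of_lt h2).eq_or_lt with h3 | h3
      · exact ⟨_, A.nval_last hv h3⟩
      · exact ⟨_, A.nval_mid val h1 h3⟩
    | bwd i t h1 h2 =>
      rcases (Nat.succ_le_of_lt h2).eq_or_lt with h3 | h3
      · exact ⟨_, rev_step (A.nval_last hv h3)⟩
      · exact ⟨_, rev_step (A.nval_mid val h1 h3)⟩
  have hex2 : ∀ x y, ∃ k : ℤ, ∀ x', A.Adj x y x' →
      A.nval val x * eval l m n [y] = A.nval val x' * (genB l m n ^ n) ^ k := by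
    intro x y
    by_cases h : ∃ x', A.Adj x y x'
    · obtain ⟨x', h'⟩ := h
      obtain ⟨k, hk⟩ := hex x y x' h'
      exact ⟨k, fun x2 h2 => by rw [A.det h2 h']; exact hk⟩
    · exact ⟨0, fun x' h' => absurd ⟨x', h'⟩ h⟩
  choose κ' hκ' using hex2
  have huniq : ∀ x y x' (k : ℤ), A.Adj x y x' →
      A.nval val x * eval l m n [y] = A.nval val x' * (genB l m n ^ n) ^ k → κ' x y = k := by
    intro x y x' k h h2
    have h3 := hκ' x y x' h
    rw [h3] at h2
    exact z_zpow_inj hl hm hn hyp (mul_left_cancel h2)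
  refine ⟨A.nval val, κ', fun x y x' h => hκ' x y x' h, fun x => rfl,
    fun x y x' h => huniq _ _ _ _ (Adj.old h) (hv _ _ _ h), fun i t h1 h2 => ⟨?_, ?_⟩,
    fun i t h1 => ⟨?_, ?_⟩⟩
  · exact huniq _ _ _ _ (Adj.fwd i t h1 (by omega)) (A.nval_mid val h1 h2)
  · have := rev_step (A.nval_mid val h1 h2)
    rw [neg_zero] at this
    exact huniq _ _ _ _ (Adj.bwd i t h1 (by omega)) this
  · have hr := A.r_lt i
    exact huniq _ _ _ _ (Adj.fwd i t (by omega) (by omega)) (A.nval_last hv h1)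
  · have hr := A.r_lt i
    have := rev_step (A.nval_last hv h1)
    rw [neg_sub] at this
    exact huniq _ _ _ _ (Adj.bwd i t (by omega) (by omega)) this

end Att

end Pool.Agent.SLE
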