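import Pool.Agent.SLE.Defs

/-!
# The finite difference property and the automorphism inverting both generators
-/

namespace Pool.Agent.SLE

theorem filterMap_fst_zipWithAll {α β : Type*} (u : List α) (v : List β) :
    (List.zipWithAll Prod.mk u v).filterMap Prod.fst = u := by
  induction u generalizing v with
  | nil => simp
  | cons a u ih => cases v with
    | nil => simp
    | cons b v => simp [ih]

theorem filterMap_snd_zipWithAll {α β : Type*} (u : List α) (v : List β) :
    (List.zipWithAll Prod.mk u v).filterMap Prod.snd = v := by
  induction u generalizing v with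
  | nil => simp
  | cons a u ih => cases v with
    | nil => simp
    | cons b v => simp [ih]

theorem take_zipWithAll {α β γ : Type*} (f : Option α → Option β → γ) (u : List α) (v : List β)
    (i : ℕ) : (List.zipWithAll f u v).take i = List.zipWithAll f (u.take i) (v.take i) := by
  induction i generalizing u v with
  | zero => simp
  | succ i ih => cases u with
    | nil => cases v with
      | nil => simp
      | cons b v => simp
    | cons a u => cases v with
      | nil => simp
      | cons b v => simp [ih]

theorem eval_nil (l m n : ℕ) : eval l m n [] = 1 := rfl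

theorem eval_append (l m n : ℕ) (u v : List Letter) :
    eval l m n (u ++ v) = eval l m n u * eval l m n v := by
  unfold eval
  rw [← map_mul, FreeGroup.mul_mk]

theorem finiteDiff_of_shortlexAutomatic (l m n : ℕ) (lt : Letter → Letter → Prop)
    (h : ShortlexAutomatic l m n lt) : FiniteDiff l m n lt := by
  classical
  have h2 := h.2
  choose σ hσ M hM using h2
  let suf : ∀ x : Option Letter, σ x → List (Option Letter × Option Letter) := fun x q =>
    if hq : ∃ s, (M x).evalFrom q s ∈ (M x).accept then hq.choose else []
  let d : (Σ x : Option Letter, σ x) → E l m n := fun z =>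
    eval l m n ((suf z.1 z.2).filterMap Prod.fst) * eval l m n z.1.toList *
      (eval l m n ((suf z.1 z.2).filterMap Prod.snd))⁻¹
  refine ⟨Set.range d, ?_, ?_⟩
  · have : ∀ x, Finite (σ x) := fun x => @Finite.of_fintype _ (hσ x)
    exact Set.finite_range d
  · intro x u v hu hv huv i
    set p := List.zipWithAll Prod.mk u v with hp
    have hpm : p ∈ multiplier l m n lt x := ⟨u, hu, v, hv, huv, rfl⟩
    rw [← hM x] at hpm
    set q := (M x).eval (p.take i) with hq
    have hlive : ∃ s, (M x).evalFrom q s ∈ (M x).accept := by
      refine ⟨p.drop i, ?_⟩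
      rw [hq, DFA.eval, ← DFA.evalFrom_of_append, List.take_append_drop]
      exact hpm
    have hsuf : (M x).evalFrom q (suf x q) ∈ (M x).accept := by
      simp only [suf, dif_pos hlive]
      exact hlive.choose_spec
    have hacc : p.take i ++ suf x q ∈ (M x).accepts := by
      rw [DFA.mem_accepts, DFA.eval, DFA.evalFrom_of_append]
      exact hsuf
    rw [hM x] at hacc
    obtain ⟨u1, -, v1, -, huv1, hp1⟩ := hacc
    have e1 : u.take i ++ (suf x q).filterMap Prod.fst = u1 := by
      rw [← filterMap_fst_zipWithAll u1 v1, ← hp1, List.filterMap_append, hp, take_zipWithAll,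
        filterMap_fst_zipWithAll]
    have e2 : v.take i ++ (suf x q).filterMap Prod.snd = v1 := by
      rw [← filterMap_snd_zipWithAll u1 v1, ← hp1, List.filterMap_append, hp, take_zipWithAll,
        filterMap_snd_zipWithAll]
    refine ⟨⟨x, q⟩, ?_⟩
    rw [← e1, ← e2, eval_append, eval_append, eval_append] at huv1
    simp only [d]
    rw [mul_inv_eq_iff_eq_mul, ← mul_right_inj (eval l m n (u.take i)), ← mul_assoc, huv1]
    group

theorem exists_normalForm (l m n : ℕ) (lt : Letter → Letter → Prop) [IsStrictTotalOrder Letter lt]
    (w : List Letter) : ∃ v ∈ normalForms l m n lt, eval l m n v = eval l m n w := by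
  have hwf : WellFounded lt := Finite.wellFounded_of_trans_of_irrefl lt
  have hwf' := List.Shortlex.wf hwf
  set s : Set (List Letter) := {v | eval l m n v = eval l m n w} with hs
  have hne : s.Nonempty := ⟨w, rfl⟩
  refine ⟨hwf'.min s hne, ?_, hwf'.min_mem s hne⟩
  intro v hv
  have hvs : v ∈ s := hv.trans (hwf'.min_mem s hne)
  have hnot := hwf'.not_lt_min s hvs
  by_cases h : List.Shortlex lt (hwf'.min s hne) v
  · exact Or.inr h
  · exact Or.inl (Std.Trichotomous.trichotomous (r := List.Shortlex lt) _ _ hnot h)

/-- an (involutive) automorphism `a ↦ a⁻¹`, `b ↦ b⁻¹` of `E(l,m,n)`. -/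
noncomputable def flipHom (l m n : ℕ) : E l m n →* E l m n :=
  PresentedGroup.toGroup (f := fun i => (PresentedGroup.of i : E l m n)⁻¹) (by
    intro r hr
    have hab : (PresentedGroup.of 0 * PresentedGroup.of 1 : E l m n) ^ m =
        (PresentedGroup.of 1 : E l m n) ^ n := by
      rw [← mul_inv_eq_one]
      have := PresentedGroup.one_of_mem (rels := rels l m n)
        (x := (FreeGroup.of 0 * FreeGroup.of 1) ^ m * (FreeGroup.of 1 ^ n)⁻¹) (by simp [rels])
      simpa [PresentedGroup.of] using this
    have ha : (PresentedGroup.of 0 : E l m n) ^ l = 1 := by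
      have := PresentedGroup.one_of_mem (rels := rels l m n)
        (x := FreeGroup.of 0 ^ l) (by simp [rels])
      simpa [PresentedGroup.of] using this
    rcases hr with rfl | rfl
    · rw [map_pow, FreeGroup.lift_apply_of, inv_pow, ha, inv_one]
    · rw [map_mul, map_pow, map_mul, map_inv, map_pow, FreeGroup.lift_apply_of,
        FreeGroup.lift_apply_of, ← mul_inv_rev, inv_pow, inv_pow, inv_inv]
      have h1 : (PresentedGroup.of 1 * PresentedGroup.of 0 : E l m n) ^ m =
          (PresentedGroup.of 1 : E l m n) ^ n := by
        have h2 : (PresentedGroup.of 1 * PresentedGroup.of 0 : E l m n) =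
            PresentedGroup.of 1 * (PresentedGroup.of 0 * PresentedGroup.of 1) *
              (PresentedGroup.of 1)⁻¹ := by group
        rw [h2, conj_pow, hab]
        group
      rw [h1, inv_mul_cancel])

theorem flipHom_of (l m n : ℕ) (i : Fin 2) :
    flipHom l m n (PresentedGroup.of i) = (PresentedGroup.of i)⁻¹ := by
  unfold flipHom
  rw [PresentedGroup.toGroup.of]

theorem flipHom_flipHom (l m n : ℕ) (g : E l m n) : flipHom l m n (flipHom l m n g) = g := by
  have : (flipHom l m n).comp (flipHom l m n) = MonoidHom.id _ := by
    refine PresentedGroup.ext fun i => ?_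
    rw [MonoidHom.comp_apply, flipHom_of, map_inv, flipHom_of, inv_inv]
    rfl
  exact DFunLike.congr_fun this g

theorem eval_singleton (l m n : ℕ) (y : Letter) :
    eval l m n [y] = if y.2 then PresentedGroup.of y.1 else (PresentedGroup.of y.1)⁻¹ := by
  obtain ⟨i, b⟩ := y
  cases b
  · simp only [eval, Bool.false_eq_true, if_false]
    have : (FreeGroup.mk [(i, false)] : FreeGroup (Fin 2)) = (FreeGroup.of i)⁻¹ := by
      rw [FreeGroup.of, FreeGroup.inv_mk]; rfl
    rw [this, map_inv]
    rfl
  · simp only [eval, if_true]
    rfl

theorem eval_cons (l m n : ℕ) (y : Letter) (w : List Letter) :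
    eval l m n (y :: w) = eval l m n [y] * eval l m n w :=
  eval_append l m n [y] w

theorem eval_map_flip (l m n : ℕ) (w : List Letter) :
    eval l m n (w.map flip) = flipHom l m n (eval l m n w) := by
  induction w with
  | nil => rw [List.map_nil, eval_nil, map_one]
  | cons y w ih =>
    rw [List.map_cons, eval_cons, eval_cons l m n y w, map_mul, ih]
    congr 1
    obtain ⟨i, b⟩ := y
    cases b
    · simp [eval_singleton, flip, flipHom_of]
    · simp [eval_singleton, flip, flipHom_of]

theorem flip_flip (y : Letter) : flip (flip y) = y := by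
  simp [flip]

theorem map_flip_flip (w : List Letter) : (w.map flip).map flip = w := by
  rw [List.map_map]
  have : flip ∘ flip = id := by funext y; simp [flip_flip]
  rw [this, List.map_id]

theorem lex_flip (lt : Letter → Letter → Prop) (w v : List Letter) :
    List.Lex (flipLt lt) w v ↔ List.Lex lt (w.map flip) (v.map flip) := by
  induction w generalizing v with
  | nil => cases v with
    | nil => simp
    | cons b v => simp
  | cons a w ih => cases v with
    | nil => simp
    | cons b v =>
      have hinj : flip a = flip b ↔ a = b :=
        ⟨fun h => by rw [← flip_flip a, h, flip_flip], fun h => by rw [h]⟩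
      rw [List.map_cons, List.map_cons, List.cons_lex_cons_iff, List.cons_lex_cons_iff, ih, hinj]
      rfl

theorem shortlex_flip (lt : Letter → Letter → Prop) (w v : List Letter) :
    List.Shortlex (flipLt lt) w v ↔ List.Shortlex lt (w.map flip) (v.map flip) := by
  rw [List.shortlex_def, List.shortlex_def, List.length_map, List.length_map, lex_flip]

theorem mem_normalForms_flip (l m n : ℕ) (lt : Letter → Letter → Prop) (w : List Letter) :
    w ∈ normalForms l m n (flipLt lt) ↔ w.map flip ∈ normalForms l m n lt := by
  constructor
  · intro h v hv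
    have h1 : eval l m n (v.map flip) = eval l m n w := by
      rw [eval_map_flip, hv, eval_map_flip, flipHom_flipHom]
    rcases h _ h1 with h2 | h2
    · left; rw [← h2, map_flip_flip]
    · right
      rw [shortlex_flip, map_flip_flip] at h2
      exact h2
  · intro h v hv
    have h1 : eval l m n (v.map flip) = eval l m n (w.map flip) := by
      rw [eval_map_flip, hv, eval_map_flip]
    rcases h _ h1 with h2 | h2
    · left; rw [← map_flip_flip v, h2, map_flip_flip]
    · right
      rw [shortlex_flip]
      exact h2

theorem finiteDiff_flip (l m n : ℕ) (lt : Letter → Letter → Prop)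
    (h : FiniteDiff l m n lt) : FiniteDiff l m n (flipLt lt) := by
  obtain ⟨S, hS, hd⟩ := h
  refine ⟨flipHom l m n '' S, hS.image _, fun x u v hu hv huv i => ?_⟩
  have h1 := hd (x.map flip) (u.map flip) (v.map flip)
    ((mem_normalForms_flip l m n lt u).mp hu) ((mem_normalForms_flip l m n lt v).mp hv) (by
      have : (x.map flip).toList = x.toList.map flip := by cases x <;> rfl
      rw [this, ← List.map_append, eval_map_flip, huv, eval_map_flip]) i
  refine ⟨_, h1, ?_⟩
  rw [← List.map_take, ← List.map_take, eval_map_flip, eval_map_flip, map_mul, map_inv,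
    flipHom_flipHom, flipHom_flipHom]

end Pool.Agent.SLE
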