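import Pool.Agent.SLE.LocRun

/-!
# Cubic ladders

Let one of the generators, `τ`, have the exponent `3`, and the other one, `ε`, the exponent `2`. The
complex of the triangle group is the truncation of the tiling by `m`-gons, three at each vertex.
A cubic ladder is a ladder of `m`-gons; its truncation is a system with the vertices
`((σ, i), d)`: the corner of the vertex `i` of the line `σ` (`true`: the right one) in the direction
`d = 0` (down), `1` (up), `2` (the third direction, which is the rung, or outwards).
-/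

namespace Pool.Agent.SLE

open List G3

/-- The other generator. -/
def otg (τ : Fin 2) : Fin 2 := if τ = 0 then 1 else 0

theorem otg_ne (τ : Fin 2) : otg τ ≠ τ := by
  revert τ
  decide

/-- A ladder of `m`-gons. -/
structure CLad (m : ℕ) where
  len : ℕ → Bool → ℕ
  two : ∀ k σ, 2 ≤ len k σ
  tot : ∀ k, len k true + len k false + 2 = m

namespace CLad

variable {m : ℕ} (V : CLad m)

/-- The position of the rung `k` on the line `σ`. -/
def pos (σ : Bool) : ℕ → ℕ
  | 0 => 0
  | k + 1 => pos σ k + V.len k σ

theorem pos_zero (σ : Bool) : V.pos σ 0 = 0 := rfl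

theorem pos_succ (σ : Bool) (k : ℕ) : V.pos σ (k + 1) = V.pos σ k + V.len k σ := rfl

/-- The vertex `i` of the line `σ` is the end of a rung. -/
def isRung (σ : Bool) (i : ℕ) : Prop := ∃ k, V.pos σ k = i

theorem pos_lt (σ : Bool) {k k' : ℕ} (h : k < k') : V.pos σ k + 2 ≤ V.pos σ k' := by
  induction h with
  | refl =>
    rw [pos_succ]
    have := V.two k σ
    omega
  | @step k' h ih =>
    rw [pos_succ]
    omega

theorem pos_inj (σ : Bool) {k k' : ℕ} (h : V.pos σ k = V.pos σ k') : k = k' := by
  rcases Nat.lt_trichotomy k k' with h1 | h1 | h1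
  · have := V.pos_lt σ h1
    omega
  · exact h1
  · have := V.pos_lt σ h1
    omega

theorem pos_mono (σ : Bool) {k k' : ℕ} (h : k ≤ k') : V.pos σ k ≤ V.pos σ k' := by
  rcases h.lt_or_eq with h1 | h1
  · have := V.pos_lt σ h1
    omega
  · rw [h1]

theorem le_pos (σ : Bool) (k : ℕ) : k ≤ V.pos σ k := by
  induction k with
  | zero => exact Nat.zero_le _
  | succ k ih =>
    rw [pos_succ]
    have := V.two k σ
    omega

theorem exists_cell (σ : Bool) (i : ℕ) : ∃ k j, j < V.len k σ ∧ i = V.pos σ k + j := by
  induction i with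
  | zero => exact ⟨0, 0, by have := V.two 0 σ; omega, rfl⟩
  | succ i ih =>
    obtain ⟨k, j, hj, hi⟩ := ih
    by_cases h : j + 1 < V.len k σ
    · exact ⟨k, j + 1, h, by omega⟩
    · exact ⟨k + 1, 0, by have := V.two (k + 1) σ; omega, by rw [pos_succ]; omega⟩

theorem not_isRung {σ : Bool} {k j : ℕ} (h0 : 0 < j) (hj : j < V.len k σ) :
    ¬ V.isRung σ (V.pos σ k + j) := by
  rintro ⟨k', h⟩
  rcases Nat.lt_trichotomy k k' with h1 | h1 | h1
  · have := V.pos_mono σ (show k + 1 ≤ k' from h1)
    rw [pos_succ] at this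
    omega
  · subst h1
    omega
  · have := V.pos_lt σ h1
    omega

theorem isRung_pos (σ : Bool) (k : ℕ) : V.isRung σ (V.pos σ k) := ⟨k, rfl⟩

theorem isRung_zero (σ : Bool) : V.isRung σ 0 := ⟨0, rfl⟩

/-- Two consecutive vertices are not both ends of rungs. -/
theorem not_isRung_succ {σ : Bool} {i : ℕ} (h : V.isRung σ i) : ¬ V.isRung σ (i + 1) := by
  obtain ⟨k, rfl⟩ := h
  exact V.not_isRung (by omega) (by have := V.two k σ; omega)

/-- The third direction is on the left of the direction upwards. -/
def leftT (σ : Bool) (i : ℕ) : Prop := σ = true ↔ V.isRung σ i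

theorem leftT_true {i : ℕ} : V.leftT true i ↔ V.isRung true i := by
  unfold leftT
  simp

theorem leftT_false {i : ℕ} : V.leftT false i ↔ ¬ V.isRung false i := by
  unfold leftT
  simp

open Classical in
/-- The next corner of the triangle, counterclockwise. -/
noncomputable def rot (σ : Bool) (i : ℕ) (d : Fin 3) : Fin 3 :=
  if V.leftT σ i then (if d = 1 then 2 else if d = 2 then 0 else 1)
  else (if d = 1 then 0 else if d = 0 then 2 else 1)

open Classical in
/-- The next corner of the triangle, clockwise. -/
noncomputable def irot (σ : Bool) (i : ℕ) (d : Fin 3) : Fin 3 :=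
  if V.leftT σ i then (if d = 2 then 1 else if d = 0 then 2 else 0)
  else (if d = 0 then 1 else if d = 2 then 0 else 2)

theorem rot_irot (σ : Bool) (i : ℕ) (d : Fin 3) : V.rot σ i (V.irot σ i d) = d := by
  unfold rot irot
  by_cases h : V.leftT σ i
  · simp only [h, if_true]
    revert d
    decide
  · simp only [h, if_false]
    revert d
    decide

theorem irot_rot (σ : Bool) (i : ℕ) (d : Fin 3) : V.irot σ i (V.rot σ i d) = d := by
  unfold rot irot
  by_cases h : V.leftT σ i
  · simp only [h, if_true]
    revert d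
    decide
  · simp only [h, if_false]
    revert d
    decide

theorem rot3 (σ : Bool) (i : ℕ) (d : Fin 3) :
    V.rot σ i (V.rot σ i (V.rot σ i d)) = d := by
  unfold rot
  by_cases h : V.leftT σ i
  · simp only [h, if_true]
    revert d
    decide
  · simp only [h, if_false]
    revert d
    decide

/-- The vertices. -/
abbrev CX : Type := (Bool × ℕ) × Fin 3

/-- The darts. -/
inductive Adj (τ : Fin 2) : CX → Letter → CX → Prop
  | tri (σ : Bool) (i : ℕ) (d : Fin 3) : Adj τ ((σ, i), d) (τ, true) ((σ, i), V.rot σ i d)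
  | tri' (σ : Bool) (i : ℕ) (d : Fin 3) : Adj τ ((σ, i), V.rot σ i d) (τ, false) ((σ, i), d)
  | up (σ : Bool) (i : ℕ) (b : Bool) : Adj τ ((σ, i), 1) (otg τ, b) ((σ, i + 1), 0)
  | down (σ : Bool) (i : ℕ) (b : Bool) : Adj τ ((σ, i + 1), 0) (otg τ, b) ((σ, i), 1)
  | lr (k : ℕ) (b : Bool) :
      Adj τ ((false, V.pos false k), 2) (otg τ, b) ((true, V.pos true k), 2)
  | rl (k : ℕ) (b : Bool) :
      Adj τ ((true, V.pos true k), 2) (otg τ, b) ((false, V.pos false k), 2)

variable {V} in
theorem adj_tau {τ : Fin 2} {σ : Bool} {i : ℕ} {d : Fin 3} {x' : CX} :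
    V.Adj τ ((σ, i), d) (τ, true) x' ↔ x' = ((σ, i), V.rot σ i d) := by
  constructor
  · intro h
    generalize hx : ((σ, i), d) = x at h
    generalize hy : ((τ, true) : Letter) = y at h
    have h0 := otg_ne τ
    cases h with
    | tri σ' i' d' => cases hx; rfl
    | tri' σ' i' d' => cases hy
    | up σ' i' b => exact absurd (congrArg Prod.fst hy).symm h0
    | down σ' i' b => exact absurd (congrArg Prod.fst hy).symm h0
    | lr k b => exact absurd (congrArg Prod.fst hy).symm h0
    | rl k b => exact absurd (congrArg Prod.fst hy).symm h0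
  · rintro rfl
    exact Adj.tri _ _ _

variable {V} in
theorem adj_tau' {τ : Fin 2} {σ : Bool} {i : ℕ} {d : Fin 3} {x' : CX} :
    V.Adj τ ((σ, i), d) (τ, false) x' ↔ x' = ((σ, i), V.irot σ i d) := by
  constructor
  · intro h
    generalize hx : ((σ, i), d) = x at h
    generalize hy : ((τ, false) : Letter) = y at h
    have h0 := otg_ne τ
    cases h with
    | tri σ' i' d' => cases hy
    | tri' σ' i' d' =>
      obtain ⟨h1, h2⟩ := Prod.mk.inj hx
      obtain ⟨rfl, rfl⟩ := Prod.mk.inj h1
      rw [h2, V.irot_rot]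
    | up σ' i' b => exact absurd (congrArg Prod.fst hy).symm h0
    | down σ' i' b => exact absurd (congrArg Prod.fst hy).symm h0
    | lr k b => exact absurd (congrArg Prod.fst hy).symm h0
    | rl k b => exact absurd (congrArg Prod.fst hy).symm h0
  · rintro rfl
    have := Adj.tri' (V := V) (τ := τ) σ i (V.irot σ i d)
    rwa [V.rot_irot] at this

variable {V} in
theorem adj_eps {τ : Fin 2} {σ : Bool} {i : ℕ} {d : Fin 3} {b : Bool} {x' : CX} :
    V.Adj τ ((σ, i), d) (otg τ, b) x' ↔
      (d = 1 ∧ x' = ((σ, i + 1), 0)) ∨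
      (∃ j, i = j + 1 ∧ d = 0 ∧ x' = ((σ, j), 1)) ∨
      (∃ k, V.pos σ k = i ∧ d = 2 ∧ x' = ((!σ, V.pos (!σ) k), 2)) := by
  constructor
  · intro h
    generalize hx : ((σ, i), d) = x at h
    generalize hy : ((otg τ, b) : Letter) = y at h
    have h0 := otg_ne τ
    cases h with
    | tri σ' i' d' => exact absurd (congrArg Prod.fst hy) h0
    | tri' σ' i' d' => exact absurd (congrArg Prod.fst hy) h0
    | up σ' i' b => cases hx; exact Or.inl ⟨rfl, rfl⟩
    | down σ' i' b => cases hx; exact Or.inr (Or.inl ⟨i', rfl, rfl, rfl⟩)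
    | lr k b => cases hx; exact Or.inr (Or.inr ⟨k, rfl, rfl, rfl⟩)
    | rl k b => cases hx; exact Or.inr (Or.inr ⟨k, rfl, rfl, rfl⟩)
  · rintro (⟨rfl, rfl⟩ | ⟨j, rfl, rfl, rfl⟩ | ⟨k, rfl, rfl, rfl⟩)
    · exact Adj.up _ _ _
    · exact Adj.down _ _ _
    · cases σ
      · exact Adj.lr k b
      · exact Adj.rl k b

theorem letter_cases (τ : Fin 2) (y : Letter) :
    y = (τ, true) ∨ y = (τ, false) ∨ ∃ b, y = (otg τ, b) := by
  revert τ y
  decide

theorem adj_det {τ : Fin 2} {x y x1 x2} (h1 : V.Adj τ x y x1) (h2 : V.Adj τ x y x2) :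
    x1 = x2 := by
  obtain ⟨⟨σ, i⟩, d⟩ := x
  rcases letter_cases τ y with rfl | rfl | ⟨b, rfl⟩
  · rw [adj_tau] at h1 h2
    rw [h1, h2]
  · rw [adj_tau'] at h1 h2
    rw [h1, h2]
  · rw [adj_eps] at h1 h2
    rcases h1 with ⟨h1, h1'⟩ | ⟨j, h1, h1', h1''⟩ | ⟨k, h1, h1', h1''⟩ <;>
      rcases h2 with ⟨h2, h2'⟩ | ⟨j2, h2, h2', h2''⟩ | ⟨k2, h2, h2', h2''⟩
    · rw [h1', h2']
    · rw [h1] at h2'; exact absurd h2' (by decide)
    · rw [h1] at h2'; exact absurd h2' (by decide)
    · rw [h2] at h1'; exact absurd h1' (by decide)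
    · rw [h1'', h2'']
      have : j = j2 := by omega
      rw [this]
    · rw [h1'] at h2'; exact absurd h2' (by decide)
    · rw [h2] at h1'; exact absurd h1' (by decide)
    · rw [h1'] at h2'; exact absurd h2' (by decide)
    · have := V.pos_inj σ (h1.trans h2.symm)
      rw [h1'', h2'', this]

/-- The system. -/
def sys (τ : Fin 2) : DSys CX where
  Adj := V.Adj τ
  symm := by
    intro x y x' h
    cases h with
    | tri σ i d => exact Adj.tri' σ i d
    | tri' σ i d => exact Adj.tri σ i d
    | up σ i b => exact Adj.down σ i (!b)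
    | down σ i b => exact Adj.up σ i (!b)
    | lr k b => exact Adj.rl k (!b)
    | rl k b => exact Adj.lr k (!b)
  det := V.adj_det

/-- The exponents: `τ` has the exponent `3` and the other generator the exponent `2`. -/
def Exps (l n : ℕ) (τ : Fin 2) : Prop := (τ = 0 ∧ l = 3 ∧ n = 2) ∨ (τ = 1 ∧ l = 2 ∧ n = 3)

theorem Exps.fper_tau {l n : ℕ} {τ : Fin 2} (hE : Exps l n τ) : fper l m n (τ, true) = 3 := by
  rcases hE with ⟨rfl, rfl, rfl⟩ | ⟨rfl, rfl, rfl⟩ <;> rfl

theorem Exps.fper_eps {l n : ℕ} {τ : Fin 2} (hE : Exps l n τ) :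
    fper l m n (otg τ, true) = 2 := by
  rcases hE with ⟨rfl, rfl, rfl⟩ | ⟨rfl, rfl, rfl⟩ <;> rfl

theorem fper_neg {l n : ℕ} {y : Letter} (h : y.2 = false) : fper l m n y = 2 * m := by
  obtain ⟨i, b⟩ := y
  simp only at h
  subst h
  fin_cases i <;> rfl

theorem fhalf_neg {l n : ℕ} {y : Letter} (h : y.2 = false) : fhalf l m n y = m := by
  unfold fhalf
  rw [fper_neg h]
  omega

theorem nxt_eps' (τ : Fin 2) : nxt (otg τ, false) = (τ, false) := by
  revert τ
  decide

theorem nxt_tau' (τ : Fin 2) : nxt (τ, false) = (otg τ, false) := by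
  revert τ
  decide

theorem nxt_iter_neg (τ : Fin 2) (t : ℕ) :
    nxt^[2 * t] (otg τ, false) = (otg τ, false) ∧
      nxt^[2 * t + 1] (otg τ, false) = (τ, false) := by
  have h : nxt^[2 * t] (otg τ, false) = (otg τ, false) := by
    induction t with
    | zero => rfl
    | succ t ih =>
      rw [show 2 * (t + 1) = 2 * t + 1 + 1 by ring, Function.iterate_succ_apply',
        Function.iterate_succ_apply', ih, nxt_eps', nxt_tau']
  exact ⟨h, by rw [Function.iterate_succ_apply', h, nxt_eps']⟩

/-! ### The corners -/

theorem irot_rung_true {i : ℕ} (h : V.isRung true i) (d : Fin 3) :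
    V.irot true i d = if d = 2 then 1 else if d = 0 then 2 else 0 := by
  unfold irot
  rw [if_pos (V.leftT_true.2 h)]

theorem irot_out_true {i : ℕ} (h : ¬ V.isRung true i) (d : Fin 3) :
    V.irot true i d = if d = 0 then 1 else if d = 2 then 0 else 2 := by
  unfold irot
  rw [if_neg (fun h' => h (V.leftT_true.1 h'))]

theorem irot_rung_false {i : ℕ} (h : V.isRung false i) (d : Fin 3) :
    V.irot false i d = if d = 0 then 1 else if d = 2 then 0 else 2 := by
  unfold irot
  rw [if_neg (fun h' => (V.leftT_false.1 h') h)]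

theorem irot_out_false {i : ℕ} (h : ¬ V.isRung false i) (d : Fin 3) :
    V.irot false i d = if d = 2 then 1 else if d = 0 then 2 else 0 := by
  unfold irot
  rw [if_pos (V.leftT_false.2 h)]

/-! ### The faces -/

/-- The boundary of the cell `k`, from the left end of the rung `k`. -/
def face (k : ℕ) (t : ℕ) : CX :=
  if t = 0 then ((false, V.pos false k), 2)
  else if t ≤ 1 then ((true, V.pos true k), 2)
  else if t ≤ 2 * V.len k true + 1 then
    (if t % 2 = 0 then ((true, V.pos true k + (t / 2 - 1)), 1)
      else ((true, V.pos true k + (t / 2)), 0))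
  else if t ≤ 2 * V.len k true + 2 then ((true, V.pos true (k + 1)), 2)
  else if t ≤ 2 * V.len k true + 3 then ((false, V.pos false (k + 1)), 2)
  else if t < 2 * (V.len k true + V.len k false + 2) then
    (if t % 2 = 0 then
      ((false, V.pos false (k + 1) - (t - (2 * V.len k true + 4)) / 2), 0)
    else ((false, V.pos false (k + 1) - ((t - (2 * V.len k true + 4)) / 2 + 1)), 1))
  else ((false, V.pos false k), 2)

theorem face0 (k : ℕ) : V.face k 0 = ((false, V.pos false k), 2) := rfl

theorem face1 (k : ℕ) : V.face k 1 = ((true, V.pos true k), 2) := rfl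

theorem faceRU {k j : ℕ} (h : j < V.len k true) :
    V.face k (2 * j + 2) = ((true, V.pos true k + j), 1) := by
  unfold face
  rw [if_neg (by omega), if_neg (by omega), if_pos (by omega), if_pos (by omega)]
  congr 3
  omega

theorem faceRD {k j : ℕ} (h : j < V.len k true) :
    V.face k (2 * j + 3) = ((true, V.pos true k + j + 1), 0) := by
  unfold face
  rw [if_neg (by omega), if_neg (by omega), if_pos (by omega), if_neg (by omega)]
  congr 2
  omega

theorem faceRT (k : ℕ) : V.face k (2 * V.len k true + 2) = ((true, V.pos true (k + 1)), 2) := by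
  unfold face
  rw [if_neg (by omega), if_neg (by omega), if_neg (by omega), if_pos (by omega)]

theorem faceLT (k : ℕ) :
    V.face k (2 * V.len k true + 3) = ((false, V.pos false (k + 1)), 2) := by
  unfold face
  rw [if_neg (by omega), if_neg (by omega), if_neg (by omega), if_neg (by omega),
    if_pos (by omega)]

theorem faceLD {k j : ℕ} (h : j < V.len k false) :
    V.face k (2 * V.len k true + 4 + 2 * j) = ((false, V.pos false (k + 1) - j), 0) := by
  unfold face
  rw [if_neg (by omega), if_neg (by omega), if_neg (by omega), if_neg (by omega),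
    if_neg (by omega), if_pos (by omega), if_pos (by omega)]
  congr 3
  omega

theorem faceLU {k j : ℕ} (h : j < V.len k false) :
    V.face k (2 * V.len k true + 5 + 2 * j) = ((false, V.pos false (k + 1) - (j + 1)), 1) := by
  unfold face
  rw [if_neg (by omega), if_neg (by omega), if_neg (by omega), if_neg (by omega),
    if_neg (by omega), if_pos (by omega), if_neg (by omega)]
  congr 3
  omega

theorem face_end (k : ℕ) : V.face k (2 * m) = ((false, V.pos false k), 2) := by
  have := V.tot k
  unfold face
  rw [if_neg (by omega), if_neg (by omega), if_neg (by omega), if_neg (by omega),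
    if_neg (by omega), if_neg (by omega)]

theorem face_spec {l n : ℕ} (τ : Fin 2) (k : ℕ) :
    (V.sys τ).Face l m n (otg τ, false) (V.face k) := by
  have htot := V.tot k
  have h2t := V.two k true
  have h2f := V.two k false
  have hper : fper l m n (otg τ, false) = 2 * m := fper_neg rfl
  refine ⟨?_, by rw [hper, V.face_end]; rfl⟩
  rw [hper]
  intro t ht
  change V.Adj τ _ _ _
  have hn := nxt_iter_neg τ
  -- the cases
  rcases Nat.lt_or_ge t 2 with h | h
  · rcases (show t = 0 ∨ t = 1 by omega) with rfl | rfl
    · rw [face0, face1]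
      exact Adj.lr k false
    · rw [face1, show 1 + 1 = 2 * 0 + 2 by rfl, V.faceRU (by omega), Nat.add_zero,
        show (1 : ℕ) = 2 * 0 + 1 by rfl, (hn 0).2, adj_tau',
        V.irot_rung_true (V.isRung_pos true k)]
      rfl
  rcases Nat.lt_or_ge t (2 * V.len k true + 2) with h3 | h3
  · obtain ⟨j, hj | hj⟩ : ∃ j, t = 2 * j + 2 ∨ t = 2 * j + 3 :=
      ⟨(t - 2) / 2, by omega⟩
    · subst hj
      rw [V.faceRU (by omega), show 2 * j + 2 + 1 = 2 * j + 3 by ring, V.faceRD (by omega),
        show 2 * j + 2 = 2 * (j + 1) by ring, (hn _).1]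
      exact Adj.up true _ false
    · subst hj
      rw [V.faceRD (by omega), show 2 * j + 3 = 2 * (j + 1) + 1 by ring, (hn _).2, adj_tau']
      by_cases hl : j + 1 < V.len k true
      · rw [show 2 * (j + 1) + 1 + 1 = 2 * (j + 1) + 2 by ring, V.faceRU hl, ← Nat.add_assoc,
          V.irot_out_true (by rw [Nat.add_assoc]; exact V.not_isRung (by omega) hl)]
        rfl
      · have : j + 1 = V.len k true := by omega
        rw [show 2 * (j + 1) + 1 + 1 = 2 * V.len k true + 2 by omega, V.faceRT, pos_succ,
          show V.pos true k + j + 1 = V.pos true k + V.len k true by omega, ← V.pos_succ,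
          V.irot_rung_true (V.isRung_pos true (k + 1))]
        rfl
  rcases Nat.lt_or_ge t (2 * V.len k true + 4) with h4 | h4
  · rcases (show t = 2 * V.len k true + 2 ∨ t = 2 * V.len k true + 3 by omega) with rfl | rfl
    · rw [V.faceRT, show 2 * V.len k true + 2 + 1 = 2 * V.len k true + 3 by ring, V.faceLT,
        show 2 * V.len k true + 2 = 2 * (V.len k true + 1) by ring, (hn _).1]
      exact Adj.rl (k + 1) false
    · rw [V.faceLT, show 2 * V.len k true + 3 + 1 = 2 * V.len k true + 4 + 2 * 0 by ring,
        V.faceLD (by omega), show 2 * V.len k true + 3 = 2 * (V.len k true + 1) + 1 by ring,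
        (hn _).2, adj_tau', V.irot_rung_false (V.isRung_pos false (k + 1)), Nat.sub_zero]
      rfl
  · have hps := V.pos_succ false k
    obtain ⟨j, hj | hj⟩ : ∃ j, t = 2 * V.len k true + 4 + 2 * j ∨
        t = 2 * V.len k true + 5 + 2 * j := ⟨(t - (2 * V.len k true + 4)) / 2, by omega⟩
    · subst hj
      rw [V.faceLD (by omega),
        show 2 * V.len k true + 4 + 2 * j + 1 = 2 * V.len k true + 5 + 2 * j by ring,
        V.faceLU (by omega),
        show 2 * V.len k true + 4 + 2 * j = 2 * (V.len k true + 2 + j) by ring, (hn _).1,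
        show V.pos false (k + 1) - j = V.pos false (k + 1) - (j + 1) + 1 by omega]
      exact Adj.down false _ false
    · subst hj
      rw [V.faceLU (by omega),
        show 2 * V.len k true + 5 + 2 * j = 2 * (V.len k true + 2 + j) + 1 by ring, (hn _).2,
        adj_tau']
      by_cases hl : j + 1 < V.len k false
      · rw [show 2 * (V.len k true + 2 + j) + 1 + 1 = 2 * V.len k true + 4 + 2 * (j + 1) by ring,
          V.faceLD hl,
          show V.pos false (k + 1) - (j + 1) = V.pos false k + (V.len k false - (j + 1)) by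
            omega, V.irot_out_false (V.not_isRung (by omega) (by omega))]
        rfl
      · have : j + 1 = V.len k false := by omega
        rw [show 2 * (V.len k true + 2 + j) + 1 + 1 = 2 * m by omega, V.face_end,
          show V.pos false (k + 1) - (j + 1) = V.pos false k by omega,
          V.irot_rung_false (V.isRung_pos false k)]
        rfl

theorem inner_of_face {l n : ℕ} (τ : Fin 2) (k t : ℕ) (ht : t < 2 * m) {x : CX} {y : Letter}
    (hx : x = V.face k t) (hy : y = nxt^[t] (otg τ, false)) : (V.sys τ).Inner l m n x y :=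
  ⟨(otg τ, false), V.face k, t, V.face_spec τ k, by rw [fper_neg rfl]; exact ht, hx, hy⟩

/-- The triangles. -/
theorem inner_tri {l n : ℕ} {τ : Fin 2} (hE : Exps l n τ) (σ : Bool) (i : ℕ) (d : Fin 3) :
    (V.sys τ).Inner l m n ((σ, i), d) (τ, true) := by
  have hn : ∀ t, nxt^[t] (τ, true) = (τ, true) := by
    intro t
    induction t with
    | zero => rfl
    | succ t ih => rw [Function.iterate_succ_apply', ih, DSys.nxt_pos rfl]
  refine ⟨(τ, true), fun t => ((σ, i), (V.rot σ i)^[t] d), 0, ⟨?_, ?_⟩, ?_, rfl, rfl⟩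
  · intro t _
    rw [hn]
    change V.Adj τ ((σ, i), (V.rot σ i)^[t] d) _ ((σ, i), (V.rot σ i)^[t + 1] d)
    rw [Function.iterate_succ_apply']
    exact Adj.tri σ i _
  · rw [hE.fper_tau]
    exact congrArg (Prod.mk (σ, i)) (V.rot3 σ i d)
  · rw [hE.fper_tau]
    omega

/-- The bigons. -/
theorem inner_eps {l n : ℕ} {τ : Fin 2} (hE : Exps l n τ) {x x' : CX}
    (h1 : V.Adj τ x (otg τ, true) x') (h2 : V.Adj τ x' (otg τ, true) x) :
    (V.sys τ).Inner l m n x (otg τ, true) := by
  have hn : ∀ t, nxt^[t] (otg τ, true) = (otg τ, true) := by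
    intro t
    induction t with
    | zero => rfl
    | succ t ih => rw [Function.iterate_succ_apply', ih, DSys.nxt_pos rfl]
  refine ⟨(otg τ, true), fun t => if t % 2 = 0 then x else x', 0, ⟨?_, ?_⟩, ?_, rfl, rfl⟩
  · intro t _
    rw [hn]
    change V.Adj τ (if t % 2 = 0 then x else x') _ (if (t + 1) % 2 = 0 then x else x')
    rcases Nat.mod_two_eq_zero_or_one t with h | h
    · rw [if_pos h, if_neg (by omega)]
      exact h1
    · rw [if_neg (by omega), if_pos (by omega)]
      exact h2
  · rw [hE.fper_eps]
  · rw [hE.fper_eps]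
    omega

/-! ### Darts with an incomplete face -/

/-- The darts with the outer face on the left, and a bound for the number of edges of the run. -/
inductive Out (τ : Fin 2) : ℕ → CX → Letter → Prop
  | rA (i : ℕ) (h : ¬ V.isRung true i) : Out τ 5 ((true, i), 2) (τ, false)
  | rB (i : ℕ) (h : ¬ V.isRung true i) : Out τ 2 ((true, i + 1), 0) (otg τ, false)
  | rB' (i : ℕ) (h : V.isRung true i) : Out τ 4 ((true, i + 1), 0) (otg τ, false)
  | rC (i : ℕ) (h : ¬ V.isRung true i) : Out τ 1 ((true, i), 1) (τ, false)
  | rC' (i : ℕ) (h : V.isRung true i) : Out τ 3 ((true, i), 1) (τ, false)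
  | bA : Out τ 3 ((true, 0), 0) (τ, false)
  | bB : Out τ 2 ((true, 0), 2) (otg τ, false)
  | bC : Out τ 1 ((false, 0), 2) (τ, false)
  | lA (i : ℕ) (h : ¬ V.isRung false i) : Out τ 5 ((false, i), 2) (τ, false)
  | lB (i : ℕ) (h : ¬ V.isRung false (i + 1)) : Out τ 2 ((false, i), 1) (otg τ, false)
  | lB' (i : ℕ) (h : V.isRung false (i + 1)) : Out τ 4 ((false, i), 1) (otg τ, false)
  | lC (i : ℕ) (h : ¬ V.isRung false i) : Out τ 1 ((false, i), 0) (τ, false)
  | lC' (i : ℕ) (h : V.isRung false i) : Out τ 3 ((false, i), 0) (τ, false)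

variable {V} in
theorem Out.next {τ : Fin 2} {N : ℕ} {x x' x'' : CX} {y : Letter} (h : V.Out τ N x y)
    (h1 : V.Adj τ x y x') (h2 : V.Adj τ x' (nxt y) x'') :
    ∃ N', N' < N ∧ V.Out τ N' x' (nxt y) := by
  cases h with
  | rA i h =>
    rw [adj_tau', V.irot_out_true h] at h1
    change x' = ((true, i), 0) at h1
    subst h1
    rw [nxt_tau'] at h2 ⊢
    rw [adj_eps] at h2
    rcases h2 with ⟨h3, -⟩ | ⟨j, rfl, h3, -⟩ | ⟨k, h3, h4, -⟩
    · exact absurd h3 (by decide)
    · by_cases hr : V.isRung true j
      · exact ⟨4, by omega, Out.rB' j hr⟩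
      · exact ⟨2, by omega, Out.rB j hr⟩
    · exact absurd h4 (by decide)
  | rB i h =>
    rw [adj_eps] at h1
    rcases h1 with ⟨h3, -⟩ | ⟨j, hj, h3, rfl⟩ | ⟨k, h3, h4, -⟩
    · exact absurd h3 (by decide)
    · obtain rfl : i = j := by omega
      rw [nxt_eps']
      exact ⟨1, by omega, Out.rC i h⟩
    · exact absurd h4 (by decide)
  | rB' i h =>
    rw [adj_eps] at h1
    rcases h1 with ⟨h3, -⟩ | ⟨j, hj, h3, rfl⟩ | ⟨k, h3, h4, -⟩
    · exact absurd h3 (by decide)
    · obtain rfl : i = j := by omega
      rw [nxt_eps']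
      exact ⟨3, by omega, Out.rC' i h⟩
    · exact absurd h4 (by decide)
  | rC i h =>
    rw [adj_tau', V.irot_out_true h] at h1
    change x' = ((true, i), 2) at h1
    subst h1
    rw [nxt_tau', adj_eps] at h2
    rcases h2 with ⟨h3, -⟩ | ⟨j, rfl, h3, -⟩ | ⟨k, h3, h4, -⟩
    · exact absurd h3 (by decide)
    · exact absurd h3 (by decide)
    · exact absurd ⟨k, h3⟩ h
  | rC' i h =>
    rw [adj_tau', V.irot_rung_true h] at h1
    change x' = ((true, i), 0) at h1
    subst h1
    rw [nxt_tau'] at h2 ⊢
    rw [adj_eps] at h2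
    rcases h2 with ⟨h3, -⟩ | ⟨j, rfl, h3, -⟩ | ⟨k, h3, h4, -⟩
    · exact absurd h3 (by decide)
    · exact ⟨2, by omega, Out.rB j fun hr => V.not_isRung_succ hr h⟩
    · exact absurd h4 (by decide)
  | bA =>
    rw [adj_tau', V.irot_rung_true (V.isRung_zero true)] at h1
    change x' = ((true, 0), 2) at h1
    subst h1
    rw [nxt_tau']
    exact ⟨2, by omega, Out.bB⟩
  | bB =>
    rw [adj_eps] at h1
    rcases h1 with ⟨h3, -⟩ | ⟨j, hj, h3, -⟩ | ⟨k, h3, h4, rfl⟩
    · exact absurd h3 (by decide)
    · exact absurd h3 (by decide)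
    · have hk : k = 0 := V.pos_inj true (h3.trans (V.pos_zero true).symm)
      subst hk
      rw [nxt_eps']
      exact ⟨1, by omega, Out.bC⟩
  | bC =>
    rw [adj_tau', V.irot_rung_false (V.isRung_zero false)] at h1
    change x' = ((false, 0), 0) at h1
    subst h1
    rw [nxt_tau', adj_eps] at h2
    rcases h2 with ⟨h3, -⟩ | ⟨j, h3, -⟩ | ⟨k, h3, h4, -⟩
    · exact absurd h3 (by decide)
    · omega
    · exact absurd h4 (by decide)
  | lA i h =>
    rw [adj_tau', V.irot_out_false h] at h1
    change x' = ((false, i), 1) at h1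
    subst h1
    rw [nxt_tau']
    by_cases hr : V.isRung false (i + 1)
    · exact ⟨4, by omega, Out.lB' i hr⟩
    · exact ⟨2, by omega, Out.lB i hr⟩
  | lB i h =>
    rw [adj_eps] at h1
    rcases h1 with ⟨-, rfl⟩ | ⟨j, hj, h3, -⟩ | ⟨k, h3, h4, -⟩
    · rw [nxt_eps']
      exact ⟨1, by omega, Out.lC _ h⟩
    · exact absurd h3 (by decide)
    · exact absurd h4 (by decide)
  | lB' i h =>
    rw [adj_eps] at h1
    rcases h1 with ⟨-, rfl⟩ | ⟨j, hj, h3, -⟩ | ⟨k, h3, h4, -⟩
    · rw [nxt_eps']
      exact ⟨3, by omega, Out.lC' _ h⟩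
    · exact absurd h3 (by decide)
    · exact absurd h4 (by decide)
  | lC i h =>
    rw [adj_tau', V.irot_out_false h] at h1
    change x' = ((false, i), 2) at h1
    subst h1
    rw [nxt_tau', adj_eps] at h2
    rcases h2 with ⟨h3, -⟩ | ⟨j, rfl, h3, -⟩ | ⟨k, h3, h4, -⟩
    · exact absurd h3 (by decide)
    · exact absurd h3 (by decide)
    · exact absurd ⟨k, h3⟩ h
  | lC' i h =>
    rw [adj_tau', V.irot_rung_false h] at h1
    change x' = ((false, i), 1) at h1
    subst h1
    rw [nxt_tau']
    exact ⟨2, by omega, Out.lB i (V.not_isRung_succ h)⟩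

theorem Out.pos {τ : Fin 2} {N : ℕ} {x : CX} {y : Letter} (h : V.Out τ N x y) : 0 < N ∧ N ≤ 5 := by
  cases h <;> omega

variable {V} in
theorem Out.run_none {τ : Fin 2} {N : ℕ} {x : CX} {y : Letter} (h : V.Out τ N x y) (M : ℕ)
    (hM : N < M) : run (V.sys τ).mv x (fw y M) = none := by
  induction N using Nat.strong_induction_on generalizing x y M with
  | _ N ih =>
    rw [Option.eq_none_iff_forall_ne_some]
    intro e he
    have h0 := h.pos
    obtain ⟨M, rfl⟩ : ∃ M', M = M' + 1 + 1 := ⟨M - 2, by omega⟩
    rw [fw, (V.sys τ).run_cons_iff] at he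
    obtain ⟨x', h1, h2⟩ := he
    have h2' := h2
    rw [fw, (V.sys τ).run_cons_iff] at h2
    obtain ⟨x'', h3, -⟩ := h2
    obtain ⟨N', hN, hO⟩ := h.next h1 h3
    have := ih N' hN hO (M + 1) (by omega)
    rw [h2'] at this
    cases this

theorem closed {l n : ℕ} {τ : Fin 2} (hE : Exps l n τ) (hm : 6 ≤ m) :
    (V.sys τ).Closed l m n := by
  have out : ∀ {N : ℕ} {x : CX} {y : Letter}, y.2 = false → V.Out τ N x y →
      run (V.sys τ).mv x (fw y (fhalf l m n y)) = none := by
    intro N x y hy h
    rw [fhalf_neg hy]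
    exact h.run_none m (by have := h.pos; omega)
  have hn := nxt_iter_neg τ
  intro x y x' h
  have h' : V.Adj τ x y x' := h
  cases h' with
  | tri σ i d => exact Or.inl (V.inner_tri hE σ i d)
  | tri' σ i d =>
    by_cases hr : V.isRung σ i
    · obtain ⟨k, rfl⟩ := hr
      have hr := V.isRung_pos σ k
      cases σ
      · -- the left end of a rung
        have e1 : V.rot false (V.pos false k) d = if d = 1 then 0 else if d = 0 then 2 else 1 := by
          unfold rot
          rw [if_neg (fun h' => (V.leftT_false.1 h') hr)]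
        rw [e1]
        fin_cases d
        · -- `T → D`
          change (V.sys τ).Inner l m n ((false, V.pos false k), 2) _ ∨
            run _ ((false, V.pos false k), 2) _ = none
          cases k with
          | zero => exact Or.inr (out rfl (Out.bC))
          | succ k =>
            refine Or.inl (V.inner_of_face τ k (2 * V.len k true + 3) ?_ (V.faceLT k).symm ?_)
            · have := V.tot k; have := V.two k false; omega
            · rw [show 2 * V.len k true + 3 = 2 * (V.len k true + 1) + 1 by ring, (hn _).2]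
        · -- `D → U`
          exact Or.inr (out rfl (Out.lC' _ hr))
        · -- `U → T`
          change (V.sys τ).Inner l m n ((false, V.pos false k), 1) _ ∨ _
          have htot := V.tot k
          have h2 := V.two k false
          have hps := V.pos_succ false k
          refine Or.inl (V.inner_of_face τ k
            (2 * V.len k true + 5 + 2 * (V.len k false - 1)) (by omega) ?_ ?_)
          · rw [V.faceLU (by omega),
              show V.pos false (k + 1) - (V.len k false - 1 + 1) = V.pos false k by omega]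
          · rw [show 2 * V.len k true + 5 + 2 * (V.len k false - 1) =
              2 * (V.len k true + 2 + (V.len k false - 1)) + 1 by ring, (hn _).2]
      · -- the right end of a rung
        have e1 : V.rot true (V.pos true k) d = if d = 1 then 2 else if d = 2 then 0 else 1 := by
          unfold rot
          rw [if_pos (V.leftT_true.2 hr)]
        rw [e1]
        fin_cases d
        · -- `U → D`
          exact Or.inr (out rfl (Out.rC' _ hr))
        · -- `T → U`
          change (V.sys τ).Inner l m n ((true, V.pos true k), 2) _ ∨ _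
          refine Or.inl (V.inner_of_face τ k 1 (by omega) (V.face1 k).symm ?_)
          exact ((hn 0).2).symm
        · -- `D → T`
          change (V.sys τ).Inner l m n ((true, V.pos true k), 0) _ ∨
            run _ ((true, V.pos true k), 0) _ = none
          cases k with
          | zero => exact Or.inr (out rfl (Out.bA))
          | succ k =>
            have htot := V.tot k
            have h2 := V.two k true
            refine Or.inl (V.inner_of_face τ k (2 * (V.len k true - 1) + 3) (by omega) ?_ ?_)
            · rw [V.faceRD (by omega), V.pos_succ,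
                show V.pos true k + (V.len k true - 1) + 1 = V.pos true k + V.len k true by omega]
            · rw [show 2 * (V.len k true - 1) + 3 = 2 * (V.len k true - 1 + 1) + 1 by ring,
                (hn _).2]
    · cases σ
      · -- the left line, not the end of a rung
        have e1 : V.rot false i d = if d = 1 then 2 else if d = 2 then 0 else 1 := by
          unfold rot
          rw [if_pos (V.leftT_false.2 hr)]
        rw [e1]
        fin_cases d
        · -- `U → D`
          change (V.sys τ).Inner l m n ((false, i), 1) _ ∨ _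
          obtain ⟨k, j, hj, rfl⟩ := V.exists_cell false i
          have hj0 : 0 < j := by
            rcases Nat.eq_zero_or_pos j with h0 | h0
            · subst h0
              exact absurd (V.isRung_pos false k) hr
            · exact h0
          have htot := V.tot k
          have hps := V.pos_succ false k
          refine Or.inl (V.inner_of_face τ k
            (2 * V.len k true + 5 + 2 * (V.len k false - j - 1)) (by omega) ?_ ?_)
          · rw [V.faceLU (by omega),
              show V.pos false (k + 1) - (V.len k false - j - 1 + 1) = V.pos false k + j by omega]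
          · rw [show 2 * V.len k true + 5 + 2 * (V.len k false - j - 1) =
              2 * (V.len k true + 2 + (V.len k false - j - 1)) + 1 by ring, (hn _).2]
        · -- `T → U`
          exact Or.inr (out rfl (Out.lA _ hr))
        · -- `D → T`
          exact Or.inr (out rfl (Out.lC _ hr))
      · -- the right line, not the end of a rung
        have e1 : V.rot true i d = if d = 1 then 0 else if d = 0 then 2 else 1 := by
          unfold rot
          rw [if_neg (fun h' => hr (V.leftT_true.1 h'))]
        rw [e1]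
        fin_cases d
        · -- `T → D`
          exact Or.inr (out rfl (Out.rA _ hr))
        · -- `D → U`
          change (V.sys τ).Inner l m n ((true, i), 0) _ ∨ _
          obtain ⟨k, j, hj, rfl⟩ := V.exists_cell true i
          have hj0 : 0 < j := by
            rcases Nat.eq_zero_or_pos j with h0 | h0
            · subst h0
              exact absurd (V.isRung_pos true k) hr
            · exact h0
          have htot := V.tot k
          refine Or.inl (V.inner_of_face τ k (2 * (j - 1) + 3) (by omega) ?_ ?_)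
          · rw [V.faceRD (by omega),
              show V.pos true k + (j - 1) + 1 = V.pos true k + j by omega]
          · rw [show 2 * (j - 1) + 3 = 2 * (j - 1 + 1) + 1 by ring, (hn _).2]
        · -- `U → T`
          exact Or.inr (out rfl (Out.rC _ hr))
  | up σ i b =>
    cases b
    · cases σ
      · by_cases hr : V.isRung false (i + 1)
        · exact Or.inr (out rfl (Out.lB' _ hr))
        · exact Or.inr (out rfl (Out.lB _ hr))
      · obtain ⟨k, j, hj, rfl⟩ := V.exists_cell true i
        have htot := V.tot k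
        refine Or.inl (V.inner_of_face τ k (2 * j + 2) (by omega) (V.faceRU hj).symm ?_)
        rw [show 2 * j + 2 = 2 * (j + 1) by ring, (hn _).1]
    · exact Or.inl (V.inner_eps hE (Adj.up σ i true) (Adj.down σ i true))
  | down σ i b =>
    cases b
    · cases σ
      · obtain ⟨k, j, hj, rfl⟩ := V.exists_cell false i
        have htot := V.tot k
        have hps := V.pos_succ false k
        refine Or.inl (V.inner_of_face τ k
          (2 * V.len k true + 4 + 2 * (V.len k false - j - 1)) (by omega) ?_ ?_)
        · rw [V.faceLD (by omega), show V.pos false (k + 1) - (V.len k false - j - 1) =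
            V.pos false k + j + 1 by omega]
        · rw [show 2 * V.len k true + 4 + 2 * (V.len k false - j - 1) =
            2 * (V.len k true + 2 + (V.len k false - j - 1)) by ring, (hn _).1]
      · by_cases hr : V.isRung true i
        · exact Or.inr (out rfl (Out.rB' _ hr))
        · exact Or.inr (out rfl (Out.rB _ hr))
    · exact Or.inl (V.inner_eps hE (Adj.down σ i true) (Adj.up σ i true))
  | lr k b =>
    cases b
    · exact Or.inl (V.inner_of_face τ k 0 (by omega) (V.face0 k).symm rfl)
    · exact Or.inl (V.inner_eps hE (Adj.lr k true) (Adj.rl k true))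
  | rl k b =>
    cases b
    · cases k with
      | zero => exact Or.inr (out rfl (Out.bB))
      | succ k =>
        have htot := V.tot k
        refine Or.inl (V.inner_of_face τ k (2 * V.len k true + 2) (by omega) (V.faceRT k).symm ?_)
        rw [show 2 * V.len k true + 2 = 2 * (V.len k true + 1) by ring, (hn _).1]
    · exact Or.inl (V.inner_eps hE (Adj.rl k true) (Adj.lr k true))

/-- The offset at the rung `k`. -/
def off (o0 : ℤ) (k : ℕ) : ℤ := V.pos false k + o0 - V.pos true k

open Classical in
/-- The potential. -/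
noncomputable def cF (o0 : ℤ) (x : CX) : ℤ :=
  2 * x.1.2 + (if x.1.1 then 0 else 2 * o0) +
    (if x.2 = 0 then 0 else if x.2 = 1 then 1 else
      if ∃ k, V.pos x.1.1 k = x.1.2 ∧ V.off o0 k = (if x.1.1 then 1 else -1) then 1 else 0)

theorem cF_corner (o0 : ℤ) (σ : Bool) (i : ℕ) (d : Fin 3) :
    2 * (i : ℤ) + (if σ then 0 else 2 * o0) ≤ V.cF o0 ((σ, i), d) ∧
      V.cF o0 ((σ, i), d) ≤ 2 * (i : ℤ) + (if σ then 0 else 2 * o0) + 1 := by
  unfold cF
  simp only
  generalize (if σ then 0 else 2 * o0 : ℤ) = c
  generalize (∃ k, V.pos σ k = i ∧ V.off o0 k = if σ = true then 1 else -1) = P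
  by_cases hP : P
  · rw [if_pos hP]
    split_ifs <;> constructor <;> linarith
  · rw [if_neg hP]
    split_ifs <;> constructor <;> linarith

theorem cF_down (o0 : ℤ) (σ : Bool) (i : ℕ) :
    V.cF o0 ((σ, i), 0) = 2 * (i : ℤ) + (if σ then 0 else 2 * o0) := by
  unfold cF
  simp

theorem cF_up (o0 : ℤ) (σ : Bool) (i : ℕ) :
    V.cF o0 ((σ, i), 1) = 2 * (i : ℤ) + (if σ then 0 else 2 * o0) + 1 := by
  unfold cF
  simp

open Classical in
theorem cF_rung (o0 : ℤ) (σ : Bool) (k : ℕ) :
    V.cF o0 ((σ, V.pos σ k), 2) = 2 * (V.pos σ k : ℤ) + (if σ then 0 else 2 * o0) +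
      if V.off o0 k = (if σ then 1 else -1) then 1 else 0 := by
  unfold cF
  simp only
  rw [if_neg (show ¬ (2 : Fin 3) = 0 by decide), if_neg (show ¬ (2 : Fin 3) = 1 by decide)]
  have : (∃ k', V.pos σ k' = V.pos σ k ∧ V.off o0 k' = (if σ then 1 else -1)) ↔
      V.off o0 k = (if σ then 1 else -1) := by
    constructor
    · rintro ⟨k', h1, h2⟩
      rwa [V.pos_inj σ h1] at h2
    · intro h
      exact ⟨k, rfl, h⟩
  simp only [this]

theorem cF_lip {τ : Fin 2} {o0 : ℤ} (ho : ∀ k, |V.off o0 k| ≤ 1) (x : CX) (y : Letter) (x' : CX)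
    (h : (V.sys τ).Adj x y x') : V.cF o0 x' ≤ V.cF o0 x + 1 := by
  have h' : V.Adj τ x y x' := h
  cases h' with
  | tri σ i d =>
    have h1 := V.cF_corner o0 σ i d
    have h2 := V.cF_corner o0 σ i (V.rot σ i d)
    omega
  | tri' σ i d =>
    have h1 := V.cF_corner o0 σ i d
    have h2 := V.cF_corner o0 σ i (V.rot σ i d)
    omega
  | up σ i b =>
    rw [cF_down, cF_up]
    push_cast
    omega
  | down σ i b =>
    rw [cF_down, cF_up]
    push_cast
    omega
  | lr k b =>
    have hk := ho k
    rw [abs_le] at hk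
    rw [V.cF_rung o0 false k, V.cF_rung o0 true k]
    have e : V.off o0 k = V.pos false k + o0 - V.pos true k := rfl
    simp only [if_true, Bool.false_eq_true, if_false]
    split_ifs <;> omega
  | rl k b =>
    have hk := ho k
    rw [abs_le] at hk
    rw [V.cF_rung o0 false k, V.cF_rung o0 true k]
    have e : V.off o0 k = V.pos false k + o0 - V.pos true k := rfl
    simp only [if_true, Bool.false_eq_true, if_false]
    split_ifs <;> omega

open Classical in
/-- The letter of the turn from the direction down to the direction up. -/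
noncomputable def turn (τ : Fin 2) (σ : Bool) (i : ℕ) : Letter := (τ, decide (V.leftT σ i))

/-- The height of the rung `k`. -/
def chgt (τ : Fin 2) (k : ℕ) : ℤ := k * (1 - 2 * fht (τ, true) - fht (otg τ, true))

end CLad

end Pool.Agent.SLE
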