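import Pool.Agent.SLE.CLad

/-!
# The section and the heights on cubic ladders
-/

namespace Pool.Agent.SLE

open List G3

namespace CLad

section grp

variable {G : Type*} [Group G]

/-- The step along one cell. -/
theorem cell_step {z s t : G} (hz : ∀ (k : ℤ) (g : G), z ^ k * g = g * z ^ k) {a c : ℤ}
    (ht : t⁻¹ * t⁻¹ = t * z ^ (-a)) (hs : s⁻¹ * s⁻¹ = z ^ (-c)) {m q r : ℕ}
    (hm : r + q + 2 = m) (hr : 1 ≤ r) (hq : 1 ≤ q) (hst : (s * t) ^ m = z) {V W : G} {h : ℤ}
    (hyp : W * t * s⁻¹ = V * t⁻¹ * z ^ h) :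
    (W * t⁻¹ * s * (t * s) ^ (q - 1)) * t * s⁻¹ =
      (V * t * s⁻¹ * (t⁻¹ * s⁻¹) ^ (r - 1)) * t⁻¹ * z ^ (h + (1 - 2 * a - c)) := by
  have hW : W = V * t⁻¹ * s * t⁻¹ * z ^ h := by
    have h1 : W = V * t⁻¹ * z ^ h * (s * t⁻¹) := by
      rw [← hyp]; group
    rw [h1, mul_assoc (V * t⁻¹), hz]
    simp only [mul_assoc]
  have h1 : s * (t * s) ^ (q - 1) * t = (s * t) ^ q := by
    obtain ⟨q, rfl⟩ : ∃ q', q = q' + 1 := ⟨q - 1, by omega⟩
    rw [Nat.add_sub_cancel]
    have h2 : ∀ j : ℕ, s * (t * s) ^ j * t = (s * t) ^ (j + 1) := by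
      intro j
      induction j with
      | zero => simp
      | succ j ih =>
        rw [pow_succ (s * t) (j + 1), ← ih, pow_succ (t * s) j]
        simp only [mul_assoc]
    exact h2 q
  have h2 : (t⁻¹ * s⁻¹) ^ (r - 1) = ((s * t) ^ (r - 1))⁻¹ := by
    rw [← mul_inv_rev, inv_pow]
  have h3 : (s * t) ^ (q + 1) = z ^ (1 : ℤ) * ((s * t) ^ (r + 1))⁻¹ := by
    rw [eq_mul_inv_iff_mul_eq, ← pow_add, zpow_one, ← hst]
    congr 1
    omega
  have h4 : ((s * t) ^ (r + 1))⁻¹ = (s * t)⁻¹ * ((s * t) ^ (r - 1))⁻¹ * (s * t)⁻¹ := by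
    rw [← mul_inv_rev, ← mul_inv_rev, ← pow_succ, ← pow_succ']
    congr 2
    omega
  have e1 : (W * t⁻¹ * s * (t * s) ^ (q - 1)) * t * s⁻¹ =
      W * (t⁻¹ * (s * (t * s) ^ (q - 1) * t)) * s⁻¹ := by
    simp only [mul_assoc]
  rw [e1, h1, hW, h2]
  have e2 : V * t⁻¹ * s * t⁻¹ * z ^ h * (t⁻¹ * (s * t) ^ q) * s⁻¹ =
      V * t⁻¹ * (s * (t⁻¹ * t⁻¹) * (s * t) ^ q) * s⁻¹ * z ^ h := by
    rw [mul_assoc (V * t⁻¹ * s * t⁻¹), hz, ← mul_assoc (V * t⁻¹ * s * t⁻¹), mul_assoc _ (z ^ h),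
      hz]
    simp only [mul_assoc]
  rw [e2, ht]
  have e3 : V * t⁻¹ * (s * (t * z ^ (-a)) * (s * t) ^ q) * s⁻¹ * z ^ h =
      V * t⁻¹ * (s * t) ^ (q + 1) * s⁻¹ * (z ^ (-a) * z ^ h) := by
    rw [pow_succ']
    have : s * (t * z ^ (-a)) * (s * t) ^ q = (s * t) * (s * t) ^ q * z ^ (-a) := by
      rw [← mul_assoc s t, mul_assoc (s * t), hz, ← mul_assoc]
    rw [this]
    have : V * t⁻¹ * (s * t * (s * t) ^ q * z ^ (-a)) * s⁻¹ =
        V * t⁻¹ * (s * t * (s * t) ^ q) * s⁻¹ * z ^ (-a) := by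
      rw [← mul_assoc (V * t⁻¹), mul_assoc _ (z ^ (-a)), hz]
      simp only [mul_assoc]
    rw [this]
    simp only [mul_assoc]
  rw [e3, h3, h4]
  have e4 : V * t⁻¹ * (z ^ (1 : ℤ) * ((s * t)⁻¹ * ((s * t) ^ (r - 1))⁻¹ * (s * t)⁻¹)) * s⁻¹ =
      V * (t⁻¹ * t⁻¹) * s⁻¹ * ((s * t) ^ (r - 1))⁻¹ * t⁻¹ * (s⁻¹ * s⁻¹) * z ^ (1 : ℤ) := by
    rw [hz, ← mul_assoc (V * t⁻¹), mul_assoc _ (z ^ (1 : ℤ)), hz]
    simp only [mul_assoc, mul_inv_rev]
  rw [e4, ht, hs]
  have e5 : V * (t * z ^ (-a)) * s⁻¹ * ((s * t) ^ (r - 1))⁻¹ * t⁻¹ * z ^ (-c) * z ^ (1 : ℤ) =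
      V * t * s⁻¹ * ((s * t) ^ (r - 1))⁻¹ * t⁻¹ * (z ^ (-a) * z ^ (-c) * z ^ (1 : ℤ)) := by
    have : V * (t * z ^ (-a)) * s⁻¹ * ((s * t) ^ (r - 1))⁻¹ * t⁻¹ =
        V * t * (z ^ (-a) * (s⁻¹ * ((s * t) ^ (r - 1))⁻¹ * t⁻¹)) := by
      simp only [mul_assoc]
    rw [this, hz]
    simp only [mul_assoc]
  rw [e5]
  have e6 : z ^ (-a) * z ^ (-c) * z ^ (1 : ℤ) * (z ^ (-a) * z ^ h) =
      z ^ (h + (1 - 2 * a - c)) := by
    rw [← zpow_add, ← zpow_add, ← zpow_add, ← zpow_add]
    congr 1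
    ring
  rw [mul_assoc _ (z ^ (-a) * z ^ (-c) * z ^ (1 : ℤ)), e6]

end grp

variable {m : ℕ} (V : CLad m)

/-- The elements of the corners in the direction down. -/
noncomputable def vD (l n : ℕ) (τ : Fin 2) (σ : Bool) : ℕ → E l m n
  | 0 => if σ then 1 else
      eval l m n [flip (V.turn τ true 0)] * eval l m n [(otg τ, true)] *
        eval l m n [V.turn τ false 0]
  | i + 1 => vD l n τ σ i * eval l m n [V.turn τ σ i] * eval l m n [(otg τ, !σ)]

/-- The section. -/
noncomputable def vl (l n : ℕ) (τ : Fin 2) (x : CX) : E l m n :=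
  V.vD l n τ x.1.1 x.1.2 * (if x.2 = 0 then 1 else if x.2 = 1 then
    eval l m n [V.turn τ x.1.1 x.1.2] else eval l m n [flip (V.turn τ x.1.1 x.1.2)])

/-- The heights of the edges of the triangles. -/
def κt (a : ℤ) (d : Fin 3) (L b : Bool) : ℤ :=
  if d = 0 then 0 else if d = 1 then (if b = L then (if L then a else -a) else 0)
    else (if b = L then 0 else (if L then -a else a))

/-- The heights of the other edges. -/
def κe (c h : ℤ) (d : Fin 3) (σ b : Bool) : ℤ :=
  if d = 0 then (if σ then (if b then 0 else -c) else (if b then c else 0))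
  else if d = 1 then (if σ then (if b then c else 0) else (if b then 0 else -c))
  else (if σ then -h - (if b then 0 else c) else h + (if b then c else 0))

open Classical in
/-- The heights. -/
noncomputable def kp (τ : Fin 2) (x : CX) (y : Letter) : ℤ :=
  if y.1 = τ then κt (fht (τ, true)) x.2 (decide (V.leftT x.1.1 x.1.2)) y.2
  else κe (fht (otg τ, true))
    (if h : ∃ k, V.pos x.1.1 k = x.1.2 then chgt τ h.choose else 0) x.2 x.1.1 y.2

theorem otg_ne (τ : Fin 2) : otg τ ≠ τ := by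
  revert τ
  decide

theorem kp_rung (τ : Fin 2) (σ : Bool) (k : ℕ) (d : Fin 3) (b : Bool) :
    V.kp τ ((σ, V.pos σ k), d) (otg τ, b) = κe (fht (otg τ, true)) (chgt τ k) d σ b := by
  unfold kp
  rw [if_neg (otg_ne τ)]
  have h : ∃ k', V.pos σ k' = V.pos σ k := ⟨k, rfl⟩
  have h2 : V.pos ((σ, V.pos σ k), d).1.1 h.choose = V.pos σ k := h.choose_spec
  have h3 := V.pos_inj σ h2
  rw [dif_pos h]
  rw [h3]

theorem kp_up (τ : Fin 2) (σ : Bool) (i : ℕ) (b : Bool) :
    V.kp τ ((σ, i), 1) (otg τ, b) = κe (fht (otg τ, true)) 0 1 σ b := by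
  unfold kp
  rw [if_neg (otg_ne τ)]
  rfl

theorem kp_down (τ : Fin 2) (σ : Bool) (i : ℕ) (b : Bool) :
    V.kp τ ((σ, i), 0) (otg τ, b) = κe (fht (otg τ, true)) 0 0 σ b := by
  unfold kp
  rw [if_neg (otg_ne τ)]
  rfl

section

variable {l n : ℕ} {τ : Fin 2}

theorem tau_rel (hE : Exps l n τ) :
    (eval l m n [(τ, true)])⁻¹ * (eval l m n [(τ, true)])⁻¹ =
      eval l m n [(τ, true)] * (genB l m n ^ n) ^ (-fht (τ, true)) := by
  have h : eval l m n [(τ, true)] ^ 3 = (genB l m n ^ n) ^ fht (τ, true) := by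
    rcases hE with ⟨rfl, rfl, rfl⟩ | ⟨rfl, rfl, rfl⟩
    · have := eval_face 3 m 2 (0, true)
      rw [show fper 3 m 2 (0, true) = 3 from rfl, show ((0, true) : Letter) = lA from rfl, fw_a,
        eval_replicate] at this
      exact this
    · have := eval_face 2 m 3 (1, true)
      rw [show fper 2 m 3 (1, true) = 3 from rfl, show ((1, true) : Letter) = lB from rfl, fw_b,
        eval_replicate] at this
      exact this
  rw [zpow_neg, ← h]
  group

theorem e_rel (hE : Exps l n τ) :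
    (eval l m n [(otg τ, true)])⁻¹ * (eval l m n [(otg τ, true)])⁻¹ =
      (genB l m n ^ n) ^ (-fht (otg τ, true)) := by
  have h : eval l m n [(otg τ, true)] ^ 2 = (genB l m n ^ n) ^ fht (otg τ, true) := by
    rcases hE with ⟨rfl, rfl, rfl⟩ | ⟨rfl, rfl, rfl⟩
    · have := eval_face 3 m 2 (1, true)
      rw [show fper 3 m 2 (1, true) = 2 from rfl, show ((1, true) : Letter) = lB from rfl, fw_b,
        eval_replicate] at this
      exact this
    · have := eval_face 2 m 3 (0, true)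
      rw [show fper 2 m 3 (0, true) = 2 from rfl, show ((0, true) : Letter) = lA from rfl, fw_a,
        eval_replicate] at this
      exact this
  rw [zpow_neg, ← h]
  group

theorem p_rel (hE : Exps l n τ) :
    (eval l m n [(otg τ, true)] * eval l m n [(τ, true)]) ^ m = genB l m n ^ n := by
  have h1 : ∀ y y' : Letter, alt (flip y) (flip y') (2 * m) = fw (flip y) (2 * m) →
      eval l m n (fw (flip y) (2 * m)) = (genB l m n ^ n) ^ (-1 : ℤ) →
      (eval l m n [y'] * eval l m n [y]) ^ m = genB l m n ^ n := by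
    intro y y' h2 h3
    rw [← h2, eval_alt_two, eval_flip, eval_flip, ← mul_inv_rev, inv_pow, zpow_neg, zpow_one] at h3
    exact inv_injective h3
  rcases hE with ⟨rfl, rfl, rfl⟩ | ⟨rfl, rfl, rfl⟩
  · exact h1 (0, true) (1, true) (fw_p _).1.symm (eval_face 3 m 2 (0, false))
  · exact h1 (1, true) (0, true) (fw_p _).2.symm (eval_face 2 m 3 (1, false))

theorem leftT_right {i : ℕ} : V.leftT true i ↔ V.isRung true i := by
  unfold leftT
  simp

theorem leftT_left {i : ℕ} : V.leftT false i ↔ ¬ V.isRung false i := by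
  unfold leftT
  simp

theorem pos_le (σ : Bool) {k k' : ℕ} (h : k ≤ k') : V.pos σ k ≤ V.pos σ k' := by
  rcases Nat.eq_or_lt_of_le h with rfl | h
  · exact le_rfl
  · have := V.pos_lt σ h
    omega

theorem not_rung {σ : Bool} {k j : ℕ} (h1 : 0 < j) (h2 : j < V.len k σ) :
    ¬ V.isRung σ (V.pos σ k + j) := by
  rintro ⟨k', hk'⟩
  rcases Nat.lt_or_ge k k' with h | h
  · have h3 := V.pos_le σ (show k + 1 ≤ k' from h)
    rw [pos] at h3
    omega
  · have h3 := V.pos_le σ h
    omega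

theorem turn_pos {σ : Bool} {i : ℕ} (h : V.leftT σ i) : V.turn τ σ i = (τ, true) := by
  unfold turn
  simp [h]

theorem turn_neg {σ : Bool} {i : ℕ} (h : ¬ V.leftT σ i) : V.turn τ σ i = (τ, false) := by
  unfold turn
  simp [h]

theorem turn_right_rung (k : ℕ) : V.turn τ true (V.pos true k) = (τ, true) :=
  V.turn_pos (V.leftT_right.2 ⟨k, rfl⟩)

theorem turn_left_rung (k : ℕ) : V.turn τ false (V.pos false k) = (τ, false) :=
  V.turn_neg (fun h => V.leftT_left.1 h ⟨k, rfl⟩)

theorem turn_right {k j : ℕ} (h1 : 0 < j) (h2 : j < V.len k true) :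
    V.turn τ true (V.pos true k + j) = (τ, false) :=
  V.turn_neg (fun h => V.not_rung h1 h2 (V.leftT_right.1 h))

theorem turn_left {k j : ℕ} (h1 : 0 < j) (h2 : j < V.len k false) :
    V.turn τ false (V.pos false k + j) = (τ, true) :=
  V.turn_pos (V.leftT_left.2 (V.not_rung h1 h2))

theorem eval_neg (i : Fin 2) : eval l m n [(i, false)] = (eval l m n [(i, true)])⁻¹ :=
  eval_flip l m n (i, true)

theorem vD_right (k j : ℕ) (h : j + 1 ≤ V.len k true) :
    V.vD l n τ true (V.pos true k + (j + 1)) = V.vD l n τ true (V.pos true k) *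
      eval l m n [(τ, true)] * (eval l m n [(otg τ, true)])⁻¹ *
      ((eval l m n [(τ, true)])⁻¹ * (eval l m n [(otg τ, true)])⁻¹) ^ j := by
  induction j with
  | zero =>
    rw [pow_zero, mul_one, ← Nat.add_assoc, Nat.add_zero, vD, turn_right_rung]
    rw [← eval_neg]
    rfl
  | succ j ih =>
    rw [← Nat.add_assoc, vD, ih (by omega), V.turn_right (Nat.succ_pos j) (by omega), pow_succ,
      ← eval_neg, ← eval_neg]
    simp only [mul_assoc]
    rfl

theorem vD_left (k j : ℕ) (h : j + 1 ≤ V.len k false) :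
    V.vD l n τ false (V.pos false k + (j + 1)) = V.vD l n τ false (V.pos false k) *
      (eval l m n [(τ, true)])⁻¹ * eval l m n [(otg τ, true)] *
      (eval l m n [(τ, true)] * eval l m n [(otg τ, true)]) ^ j := by
  induction j with
  | zero =>
    rw [pow_zero, mul_one, ← Nat.add_assoc, Nat.add_zero, vD, turn_left_rung]
    rw [← eval_neg]
    rfl
  | succ j ih =>
    rw [← Nat.add_assoc, vD, ih (by omega), V.turn_left (Nat.succ_pos j) (by omega), pow_succ]
    simp only [mul_assoc]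
    rfl

/-- The relation at the rungs. -/
theorem rung_rel (hE : Exps l n τ) (k : ℕ) :
    V.vD l n τ false (V.pos false k) * eval l m n [(τ, true)] *
      (eval l m n [(otg τ, true)])⁻¹ = V.vD l n τ true (V.pos true k) *
      (eval l m n [(τ, true)])⁻¹ * (genB l m n ^ n) ^ chgt τ k := by
  induction k with
  | zero =>
    have h1 := V.turn_right_rung (τ := τ) 0
    have h2 := V.turn_left_rung (τ := τ) 0
    change V.turn τ true 0 = _ at h1
    change V.turn τ false 0 = _ at h2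
    change (if false = true then 1 else
      eval l m n [flip (V.turn τ true 0)] * eval l m n [(otg τ, true)] *
        eval l m n [V.turn τ false 0]) * _ * _ = (if true = true then 1 else _) * _ * _
    rw [if_neg (by decide), if_pos rfl, h1, h2, eval_flip, eval_neg, chgt]
    simp
  | succ k ih =>
    have h1 := V.two k true
    have h2 := V.two k false
    have h3 := cell_step (fun k g => zpow_comm g k) (tau_rel hE) (e_rel hE)
      (r := V.len k true) (q := V.len k false) (V.tot k) (by omega) (by omega) (p_rel hE) ih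
    have h4 := V.vD_right (l := l) (n := n) (τ := τ) k (V.len k true - 1) (by omega)
    have h5 := V.vD_left (l := l) (n := n) (τ := τ) k (V.len k false - 1) (by omega)
    rw [Nat.sub_add_cancel (by omega)] at h4 h5
    change V.vD l n τ true (V.pos true (k + 1)) = _ at h4
    change V.vD l n τ false (V.pos false (k + 1)) = _ at h5
    rw [← h4, ← h5] at h3
    rw [h3]
    congr 2
    unfold chgt
    push_cast
    ring

theorem vl_zero (σ : Bool) (i : ℕ) : V.vl l n τ ((σ, i), 0) = V.vD l n τ σ i := by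
  unfold vl
  rw [if_pos rfl, mul_one]

theorem vl_one (σ : Bool) (i : ℕ) :
    V.vl l n τ ((σ, i), 1) = V.vD l n τ σ i * eval l m n [V.turn τ σ i] := rfl

theorem vl_two (σ : Bool) (i : ℕ) :
    V.vl l n τ ((σ, i), 2) = V.vD l n τ σ i * eval l m n [flip (V.turn τ σ i)] := rfl

theorem kp_tau_pos {σ : Bool} {i : ℕ} (h : V.leftT σ i) (d : Fin 3) (b : Bool) :
    V.kp τ ((σ, i), d) (τ, b) = κt (fht (τ, true)) d true b := by
  unfold kp
  rw [if_pos rfl]
  simp [h]

theorem kp_tau_neg {σ : Bool} {i : ℕ} (h : ¬ V.leftT σ i) (d : Fin 3) (b : Bool) :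
    V.kp τ ((σ, i), d) (τ, b) = κt (fht (τ, true)) d false b := by
  unfold kp
  rw [if_pos rfl]
  simp [h]

theorem tau_rel' (hE : Exps l n τ) :
    eval l m n [(τ, true)] * eval l m n [(τ, true)] =
      (eval l m n [(τ, true)])⁻¹ * (genB l m n ^ n) ^ fht (τ, true) := by
  have h := congrArg (·⁻¹) (tau_rel (m := m) hE)
  simp only [mul_inv_rev, inv_inv, zpow_neg] at h
  rw [h, zpow_comm]

theorem e_rel' (hE : Exps l n τ) :
    eval l m n [(otg τ, true)] * eval l m n [(otg τ, true)] =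
      (genB l m n ^ n) ^ fht (otg τ, true) := by
  have h := congrArg (·⁻¹) (e_rel (m := m) hE)
  simp only [mul_inv_rev, inv_inv, zpow_neg] at h
  exact h

theorem rot_pos {σ : Bool} {i : ℕ} (h : V.leftT σ i) (d : Fin 3) :
    V.rot σ i d = (if d = 1 then 2 else if d = 2 then 0 else 1) := by
  unfold rot
  rw [if_pos h]

theorem rot_neg {σ : Bool} {i : ℕ} (h : ¬ V.leftT σ i) (d : Fin 3) :
    V.rot σ i d = (if d = 1 then 0 else if d = 0 then 2 else 1) := by
  unfold rot
  rw [if_neg h]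

theorem flip_tt (i : Fin 2) : flip (i, true) = (i, false) := rfl
theorem flip_ff (i : Fin 2) : flip (i, false) = (i, true) := rfl

theorem val_tri (hE : Exps l n τ) (σ : Bool) (i : ℕ) (d : Fin 3) :
    V.vl l n τ ((σ, i), d) * eval l m n [(τ, true)] =
      V.vl l n τ ((σ, i), V.rot σ i d) *
        (genB l m n ^ n) ^ V.kp τ ((σ, i), d) (τ, true) := by
  have ht2 := tau_rel' (m := m) hE
  by_cases h : V.leftT σ i
  · rw [V.kp_tau_pos h, V.rot_pos h]
    fin_cases d
    · change V.vl l n τ ((σ, i), 0) * _ = V.vl l n τ ((σ, i), 1) * _ ^ (0 : ℤ)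
      rw [vl_zero, vl_one, V.turn_pos h, zpow_zero, mul_one]
    · change V.vl l n τ ((σ, i), 1) * _ = V.vl l n τ ((σ, i), 2) * _ ^ (fht (τ, true))
      rw [vl_one, vl_two, V.turn_pos h, flip_tt, eval_neg, mul_assoc, ht2, mul_assoc]
    · change V.vl l n τ ((σ, i), 2) * _ = V.vl l n τ ((σ, i), 0) * _ ^ (0 : ℤ)
      rw [vl_zero, vl_two, V.turn_pos h, flip_tt, eval_neg, zpow_zero, mul_one,
        inv_mul_cancel_right]
  · rw [V.kp_tau_neg h, V.rot_neg h]
    fin_cases d
    · change V.vl l n τ ((σ, i), 0) * _ = V.vl l n τ ((σ, i), 2) * _ ^ (0 : ℤ)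
      rw [vl_zero, vl_two, V.turn_neg h, flip_ff, zpow_zero, mul_one]
    · change V.vl l n τ ((σ, i), 1) * _ = V.vl l n τ ((σ, i), 0) * _ ^ (0 : ℤ)
      rw [vl_zero, vl_one, V.turn_neg h, eval_neg, zpow_zero, mul_one, inv_mul_cancel_right]
    · change V.vl l n τ ((σ, i), 2) * _ = V.vl l n τ ((σ, i), 1) * _ ^ (fht (τ, true))
      rw [vl_one, vl_two, V.turn_neg h, flip_ff, eval_neg, mul_assoc, ht2, mul_assoc]

theorem kp_tri (σ : Bool) (i : ℕ) (d : Fin 3) :
    V.kp τ ((σ, i), V.rot σ i d) (τ, false) = - V.kp τ ((σ, i), d) (τ, true) := by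
  by_cases h : V.leftT σ i
  · rw [V.kp_tau_pos h, V.kp_tau_pos h, V.rot_pos h]
    fin_cases d <;> simp [κt]
  · rw [V.kp_tau_neg h, V.kp_tau_neg h, V.rot_neg h]
    fin_cases d <;> simp [κt]

/-- The inverse dart. -/
theorem val_inv {x x' : E l m n} {y : Letter} {k : ℤ}
    (h : x * eval l m n [y] = x' * (genB l m n ^ n) ^ k) :
    x' * eval l m n [flip y] = x * (genB l m n ^ n) ^ (-k) := by
  rw [eval_flip, mul_inv_eq_iff_eq_mul, mul_assoc, zpow_comm, ← mul_assoc, h, mul_assoc,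
    ← zpow_add, add_neg_cancel, zpow_zero, mul_one]

theorem val_up (hE : Exps l n τ) (σ : Bool) (i : ℕ) (b : Bool) :
    V.vl l n τ ((σ, i), 1) * eval l m n [(otg τ, b)] =
      V.vl l n τ ((σ, i + 1), 0) *
        (genB l m n ^ n) ^ κe (fht (otg τ, true)) 0 1 σ b := by
  have hs := e_rel (m := m) hE
  have hs2 := e_rel' (m := m) hE
  rw [vl_one, vl_zero, vD]
  cases σ <;> cases b
  · change _ * _ = _ * _ * eval l m n [(otg τ, true)] * _ ^ (-fht (otg τ, true))
    rw [eval_neg, ← hs]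
    group
  · change _ * _ = _ * _ * eval l m n [(otg τ, true)] * _ ^ (0 : ℤ)
    rw [zpow_zero, mul_one]
  · change _ * _ = _ * _ * eval l m n [(otg τ, false)] * _ ^ (0 : ℤ)
    rw [zpow_zero, mul_one]
  · change _ * _ = _ * _ * eval l m n [(otg τ, false)] * _ ^ (fht (otg τ, true))
    rw [eval_neg, ← hs2]
    group

theorem κe_inv (c : ℤ) (σ b : Bool) : κe c 0 0 σ (!b) = - κe c 0 1 σ b := by
  cases σ <;> cases b <;> simp [κe]

theorem κe_inv2 (c h : ℤ) (b : Bool) : κe c h 2 true (!b) = - κe c h 2 false b := by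
  cases b <;> simp [κe]
  ring

theorem val_lr (hE : Exps l n τ) (k : ℕ) (b : Bool) :
    V.vl l n τ ((false, V.pos false k), 2) * eval l m n [(otg τ, b)] =
      V.vl l n τ ((true, V.pos true k), 2) *
        (genB l m n ^ n) ^ κe (fht (otg τ, true)) (chgt τ k) 2 false b := by
  have h := V.rung_rel hE k
  have hs2 := e_rel' (m := m) hE
  rw [vl_two, vl_two, V.turn_right_rung, V.turn_left_rung, flip_ff, flip_tt, eval_neg]
  cases b
  · change _ = _ * _ ^ (chgt τ k + 0)
    rw [add_zero, eval_neg]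
    exact h
  · change _ = _ * _ ^ (chgt τ k + fht (otg τ, true))
    rw [zpow_add, ← mul_assoc, ← h, ← hs2]
    group

end

open Classical in
/-- **The section and the heights.** -/
theorem exists_val {l n : ℕ} {τ : Fin 2} (hE : Exps l n τ) (hm : 6 ≤ m) :
    ∃ (val : CX → E l m n) (κ : CX → Letter → ℤ), VVal l m n (V.sys τ).mv val κ ∧
      -- the turns on the lines
      (∀ σ i, κ ((σ, i), 0) (V.turn τ σ i) = 0) ∧
      -- from down to the third corner
      (∀ σ i, κ ((σ, i), 0) (flip (V.turn τ σ i)) = 0) ∧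
      -- from the third corner to up
      (∀ σ i, κ ((σ, i), 2) (flip (V.turn τ σ i)) =
        if V.leftT σ i then - fht (τ, true) else fht (τ, true)) ∧
      -- the edges of the lines, upwards
      (∀ i b, κ ((true, i), 1) (otg τ, b) = if b then fht (otg τ, true) else 0) ∧
      (∀ i b, κ ((false, i), 1) (otg τ, b) = if b then 0 else - fht (otg τ, true)) ∧
      -- the rungs
      (∀ k b, κ ((false, V.pos false k), 2) (otg τ, b) =
        chgt τ k + if b then fht (otg τ, true) else 0) ∧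
      (∀ k b, κ ((true, V.pos true k), 2) (otg τ, b) =
        - chgt τ k - if b then 0 else fht (otg τ, true)) := by
  have _ := hm
  refine ⟨V.vl l n τ, V.kp τ, DSys.vval ?_, ?_, ?_, ?_, ?_, ?_, ?_, ?_⟩
  · intro x y x' h
    change V.Adj τ x y x' at h
    cases h with
    | tri σ i d => exact V.val_tri hE σ i d
    | tri' σ i d =>
      rw [V.kp_tri]
      exact val_inv (V.val_tri hE σ i d)
    | up σ i b =>
      rw [V.kp_up]
      exact V.val_up hE σ i b
    | down σ i b =>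
      rw [V.kp_down]
      have h := val_inv (V.val_up hE σ i (!b))
      rw [← κe_inv, Bool.not_not, flip, Bool.not_not] at h
      exact h
    | lr k b =>
      rw [V.kp_rung]
      exact V.val_lr hE k b
    | rl k b =>
      rw [V.kp_rung]
      have h := val_inv (V.val_lr hE k (!b))
      rw [← κe_inv2, Bool.not_not, flip, Bool.not_not] at h
      exact h
  · intro σ i
    by_cases h : V.leftT σ i
    · rw [V.turn_pos h, V.kp_tau_pos h]
      rfl
    · rw [V.turn_neg h, V.kp_tau_neg h]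
      rfl
  · intro σ i
    by_cases h : V.leftT σ i
    · rw [V.turn_pos h, flip_tt, V.kp_tau_pos h]
      rfl
    · rw [V.turn_neg h, flip_ff, V.kp_tau_neg h]
      rfl
  · intro σ i
    by_cases h : V.leftT σ i
    · rw [V.turn_pos h, flip_tt, V.kp_tau_pos h, if_pos h]
      rfl
    · rw [V.turn_neg h, flip_ff, V.kp_tau_neg h, if_neg h]
      rfl
  · intro i b
    rw [V.kp_up]
    rfl
  · intro i b
    rw [V.kp_up]
    rfl
  · intro k b
    rw [V.kp_rung]
    rfl
  · intro k b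
    rw [V.kp_rung]
    rfl

end CLad

end Pool.Agent.SLE
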