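import Pool.Agent.SLE.CLad

/-!
# Cubic ladders of `l`-gons for `(l, 2, 3)`

The Cayley complex of the triangle group `(l, 2, 3)` has the vertices `(v, f)`, where `f` is a face
of the tiling by `l`-gons, three at each vertex, and `v` is a vertex of `f`. The letter `a` leads
to the next vertex of `f`, the letter `b` to the next face at `v` (counterclockwise). The system of a
ladder of `l`-gons has the vertices `((σ, i), c)`: the corner `c` of the vertex `i` of the line `σ`,
`c = 0`: between down and up, `c = 1`: between up and the third direction, `c = 2`: between down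
and the third direction.
-/

namespace Pool.Agent.SLE

open List G3

namespace CLad

variable {l : ℕ} (V : CLad l)

open Classical in
/-- The next corner, counterclockwise. -/
noncomputable def rotc (σ : Bool) (i : ℕ) (c : Fin 3) : Fin 3 :=
  if V.leftT σ i then (if c = 1 then 2 else if c = 2 then 0 else 1)
  else (if c = 1 then 0 else if c = 0 then 2 else 1)

open Classical in
/-- The corner on the left of the direction up. -/
noncomputable def lU (σ : Bool) (i : ℕ) : Fin 3 := if V.leftT σ i then 1 else 0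

open Classical in
/-- The corner at the down direction, on the left side of a path upwards. -/
noncomputable def lD (σ : Bool) (i : ℕ) : Fin 3 := if V.leftT σ i then 2 else 0

open Classical in
/-- The corner on the right of the direction up. -/
noncomputable def rU (σ : Bool) (i : ℕ) : Fin 3 := if V.leftT σ i then 0 else 1

open Classical in
/-- The corner at the down direction, on the right side of a path upwards. -/
noncomputable def rD (σ : Bool) (i : ℕ) : Fin 3 := if V.leftT σ i then 0 else 2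

/-- The darts. -/
inductive AdjQ : CX → Letter → CX → Prop
  | tri (σ : Bool) (i : ℕ) (c : Fin 3) : AdjQ ((σ, i), c) lB ((σ, i), V.rotc σ i c)
  | tri' (σ : Bool) (i : ℕ) (c : Fin 3) : AdjQ ((σ, i), V.rotc σ i c) lB' ((σ, i), c)
  | up (σ : Bool) (i : ℕ) : AdjQ ((σ, i), V.lU σ i) lA ((σ, i + 1), V.lD σ (i + 1))
  | up' (σ : Bool) (i : ℕ) : AdjQ ((σ, i + 1), V.lD σ (i + 1)) lA' ((σ, i), V.lU σ i)
  | down (σ : Bool) (i : ℕ) : AdjQ ((σ, i + 1), V.rD σ (i + 1)) lA ((σ, i), V.rU σ i)
  | down' (σ : Bool) (i : ℕ) : AdjQ ((σ, i), V.rU σ i) lA' ((σ, i + 1), V.rD σ (i + 1))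
  | lr (k : ℕ) : AdjQ ((false, V.pos false k), 1) lA ((true, V.pos true k), 1)
  | lr' (k : ℕ) : AdjQ ((true, V.pos true k), 1) lA' ((false, V.pos false k), 1)
  | rl (k : ℕ) : AdjQ ((true, V.pos true k), 2) lA ((false, V.pos false k), 2)
  | rl' (k : ℕ) : AdjQ ((false, V.pos false k), 2) lA' ((true, V.pos true k), 2)

/-! ### The corners -/

theorem qleftT_true {i : ℕ} : V.leftT true i ↔ V.isRung true i := by simp [leftT]

theorem qleftT_false {i : ℕ} : V.leftT false i ↔ ¬ V.isRung false i := by simp [leftT]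

theorem qisRung_pos (σ : Bool) (k : ℕ) : V.isRung σ (V.pos σ k) := ⟨k, rfl⟩

theorem qleftT_pos_true (k : ℕ) : V.leftT true (V.pos true k) :=
  V.qleftT_true.2 (V.qisRung_pos _ _)

theorem qnot_leftT_pos_false (k : ℕ) : ¬ V.leftT false (V.pos false k) := fun h =>
  V.qleftT_false.1 h (V.qisRung_pos _ _)

theorem rotc_l {σ : Bool} {i : ℕ} (h : V.leftT σ i) :
    V.rotc σ i 0 = 1 ∧ V.rotc σ i 1 = 2 ∧ V.rotc σ i 2 = 0 ∧ V.lU σ i = 1 ∧ V.lD σ i = 2 ∧
      V.rU σ i = 0 ∧ V.rD σ i = 0 := by
  simp [rotc, lU, lD, rU, rD, h]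

theorem rotc_r {σ : Bool} {i : ℕ} (h : ¬ V.leftT σ i) :
    V.rotc σ i 0 = 2 ∧ V.rotc σ i 1 = 0 ∧ V.rotc σ i 2 = 1 ∧ V.lU σ i = 0 ∧ V.lD σ i = 0 ∧
      V.rU σ i = 1 ∧ V.rD σ i = 2 := by
  simp [rotc, lU, lD, rU, rD, h]

theorem rotc_inj {σ : Bool} {i : ℕ} {c c' : Fin 3} (h : V.rotc σ i c = V.rotc σ i c') :
    c = c' := by
  by_cases hl : V.leftT σ i
  · obtain ⟨h0, h1, h2, -⟩ := V.rotc_l hl
    fin_cases c <;> fin_cases c' <;> simp_all
  · obtain ⟨h0, h1, h2, -⟩ := V.rotc_r hl
    fin_cases c <;> fin_cases c' <;> simp_all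

theorem rotc_three (σ : Bool) (i : ℕ) (c : Fin 3) :
    V.rotc σ i (V.rotc σ i (V.rotc σ i c)) = c := by
  by_cases hl : V.leftT σ i
  · obtain ⟨h0, h1, h2, -⟩ := V.rotc_l hl
    fin_cases c <;> simp [h0, h1, h2]
  · obtain ⟨h0, h1, h2, -⟩ := V.rotc_r hl
    fin_cases c <;> simp [h0, h1, h2]

theorem lU_ne_rD (σ : Bool) (i : ℕ) : V.lU σ i ≠ V.rD σ i := by
  by_cases hl : V.leftT σ i
  · obtain ⟨-, -, -, h1, h2, h3, h4⟩ := V.rotc_l hl
    rw [h1, h4]; decide
  · obtain ⟨-, -, -, h1, h2, h3, h4⟩ := V.rotc_r hl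
    rw [h1, h4]; decide

theorem lD_ne_rU (σ : Bool) (i : ℕ) : V.lD σ i ≠ V.rU σ i := by
  by_cases hl : V.leftT σ i
  · obtain ⟨-, -, -, h1, h2, h3, h4⟩ := V.rotc_l hl
    rw [h2, h3]; decide
  · obtain ⟨-, -, -, h1, h2, h3, h4⟩ := V.rotc_r hl
    rw [h2, h3]; decide

theorem qcorners_true (k : ℕ) : V.lU true (V.pos true k) = 1 ∧ V.lD true (V.pos true k) = 2 ∧
    V.rU true (V.pos true k) = 0 ∧ V.rD true (V.pos true k) = 0 :=
  (V.rotc_l (V.qleftT_pos_true k)).2.2.2

theorem qcorners_false (k : ℕ) : V.lU false (V.pos false k) = 0 ∧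
    V.lD false (V.pos false k) = 0 ∧
    V.rU false (V.pos false k) = 1 ∧ V.rD false (V.pos false k) = 2 :=
  (V.rotc_r (V.qnot_leftT_pos_false k)).2.2.2

/-- The turn from the corner on the right of the direction up to the one on the left. -/
theorem rotc_rU (σ : Bool) (i : ℕ) : V.rotc σ i (V.rU σ i) = V.lU σ i := by
  by_cases hl : V.leftT σ i
  · obtain ⟨h0, h1, h2, e1, e2, e3, e4⟩ := V.rotc_l hl
    rw [e3, e1, h0]
  · obtain ⟨h0, h1, h2, e1, e2, e3, e4⟩ := V.rotc_r hl
    rw [e3, e1, h1]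

theorem rotc_lD (σ : Bool) (i : ℕ) : V.rotc σ i (V.lD σ i) = V.rD σ i := by
  by_cases hl : V.leftT σ i
  · obtain ⟨h0, h1, h2, e1, e2, e3, e4⟩ := V.rotc_l hl
    rw [e2, e4, h2]
  · obtain ⟨h0, h1, h2, e1, e2, e3, e4⟩ := V.rotc_r hl
    rw [e2, e4, h0]

/-! ### The darts -/

variable {V}

theorem adjQ_symm {x x' : CX} {y : Letter} (h : V.AdjQ x y x') : V.AdjQ x' (flip y) x := by
  cases h with
  | tri σ i c => exact AdjQ.tri' σ i c
  | tri' σ i c => exact AdjQ.tri σ i c
  | up σ i => exact AdjQ.up' σ i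
  | up' σ i => exact AdjQ.up σ i
  | down σ i => exact AdjQ.down' σ i
  | down' σ i => exact AdjQ.down σ i
  | lr k => exact AdjQ.lr' k
  | lr' k => exact AdjQ.lr k
  | rl k => exact AdjQ.rl' k
  | rl' k => exact AdjQ.rl k

/-- The darts with the letter `a`. -/
theorem adjQ_a {x x' : CX} (h : V.AdjQ x lA x') :
    (∃ σ i, x = ((σ, i), V.lU σ i) ∧ x' = ((σ, i + 1), V.lD σ (i + 1))) ∨
    (∃ σ i, x = ((σ, i + 1), V.rD σ (i + 1)) ∧ x' = ((σ, i), V.rU σ i)) ∨
    (∃ k, x = ((false, V.pos false k), 1) ∧ x' = ((true, V.pos true k), 1)) ∨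
    (∃ k, x = ((true, V.pos true k), 2) ∧ x' = ((false, V.pos false k), 2)) := by
  generalize hy : lA = y at h
  cases h with
  | tri σ i c => cases hy
  | tri' σ i c => cases hy
  | up σ i => exact Or.inl ⟨σ, i, rfl, rfl⟩
  | up' σ i => cases hy
  | down σ i => exact Or.inr (Or.inl ⟨σ, i, rfl, rfl⟩)
  | down' σ i => cases hy
  | lr k => exact Or.inr (Or.inr (Or.inl ⟨k, rfl, rfl⟩))
  | lr' k => cases hy
  | rl k => exact Or.inr (Or.inr (Or.inr ⟨k, rfl, rfl⟩))
  | rl' k => cases hy

theorem adjQ_b {x x' : CX} (h : V.AdjQ x lB x') :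
    ∃ σ i c, x = ((σ, i), c) ∧ x' = ((σ, i), V.rotc σ i c) := by
  generalize hy : lB = y at h
  cases h with
  | tri σ i c => exact ⟨σ, i, c, rfl, rfl⟩
  | tri' σ i c => cases hy
  | up σ i => cases hy
  | up' σ i => cases hy
  | down σ i => cases hy
  | down' σ i => cases hy
  | lr k => cases hy
  | lr' k => cases hy
  | rl k => cases hy
  | rl' k => cases hy

theorem adjQ_a_det {x x1 x2 : CX} (h1 : V.AdjQ x lA x1) (h2 : V.AdjQ x lA x2) : x1 = x2 := by
  rcases adjQ_a h1 with ⟨σ, i, rfl, rfl⟩ | ⟨σ, i, rfl, rfl⟩ | ⟨k, rfl, rfl⟩ | ⟨k, rfl, rfl⟩ <;>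
  rcases adjQ_a h2 with ⟨σ', i', h, rfl⟩ | ⟨σ', i', h, rfl⟩ | ⟨k', h, rfl⟩ | ⟨k', h, rfl⟩ <;>
  simp only [Prod.mk.injEq] at h <;> obtain ⟨⟨ha, hb⟩, hc⟩ := h
  · subst ha; subst hb; rfl
  · subst ha; subst hb; exact absurd hc (V.lU_ne_rD _ _)
  · subst ha; subst hb; rw [(V.qcorners_false k').1] at hc; cases hc
  · subst ha; subst hb; rw [(V.qcorners_true k').1] at hc; cases hc
  · subst ha; subst hb; exact absurd hc.symm (V.lU_ne_rD _ _)
  · subst ha
    have : i = i' := by omega
    subst this; rfl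
  · subst ha; rw [hb, (V.qcorners_false k').2.2.2] at hc; cases hc
  · subst ha; rw [hb, (V.qcorners_true k').2.2.2] at hc; cases hc
  · subst ha; subst hb; rw [(V.qcorners_false k).1] at hc; cases hc
  · subst ha; rw [← hb, (V.qcorners_false k).2.2.2] at hc; cases hc
  · have := V.pos_inj _ hb; subst this; rfl
  · cases ha
  · subst ha; subst hb; rw [(V.qcorners_true k).1] at hc; cases hc
  · subst ha; rw [← hb, (V.qcorners_true k).2.2.2] at hc; cases hc
  · cases ha
  · have := V.pos_inj _ hb; subst this; rfl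

theorem adjQ_a_inj {x x1 x2 : CX} (h1 : V.AdjQ x1 lA x) (h2 : V.AdjQ x2 lA x) : x1 = x2 := by
  rcases adjQ_a h1 with ⟨σ, i, rfl, rfl⟩ | ⟨σ, i, rfl, rfl⟩ | ⟨k, rfl, rfl⟩ | ⟨k, rfl, rfl⟩ <;>
  rcases adjQ_a h2 with ⟨σ', i', rfl, h⟩ | ⟨σ', i', rfl, h⟩ | ⟨k', rfl, h⟩ | ⟨k', rfl, h⟩ <;>
  simp only [Prod.mk.injEq] at h <;> obtain ⟨⟨ha, hb⟩, hc⟩ := h
  · subst ha
    have : i = i' := by omega
    subst this; rfl
  · subst ha; subst hb; exact absurd hc (V.lD_ne_rU _ _)
  · subst ha; rw [hb, (V.qcorners_true k').2.1] at hc; cases hc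
  · subst ha; rw [hb, (V.qcorners_false k').2.1] at hc; cases hc
  · subst ha; subst hb; exact absurd hc.symm (V.lD_ne_rU _ _)
  · subst ha; subst hb; rfl
  · subst ha; subst hb; rw [(V.qcorners_true k').2.2.1] at hc; cases hc
  · subst ha; subst hb; rw [(V.qcorners_false k').2.2.1] at hc; cases hc
  · subst ha; rw [← hb, (V.qcorners_true k).2.1] at hc; cases hc
  · subst ha; subst hb; rw [(V.qcorners_true k).2.2.1] at hc; cases hc
  · have := V.pos_inj _ hb; subst this; rfl
  · cases ha
  · subst ha; rw [← hb, (V.qcorners_false k).2.1] at hc; cases hc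
  · subst ha; subst hb; rw [(V.qcorners_false k).2.2.1] at hc; cases hc
  · cases ha
  · have := V.pos_inj _ hb; subst this; rfl

theorem adjQ_det {x x1 x2 : CX} {y : Letter} (h1 : V.AdjQ x y x1) (h2 : V.AdjQ x y x2) :
    x1 = x2 := by
  have hy : y = lA ∨ y = lA' ∨ y = lB ∨ y = lB' := by
    obtain ⟨i, b⟩ := y
    fin_cases i <;> cases b <;> simp
  rcases hy with rfl | rfl | rfl | rfl
  · exact adjQ_a_det h1 h2
  · exact adjQ_a_inj (adjQ_symm h1) (adjQ_symm h2)
  · obtain ⟨σ, i, c, rfl, rfl⟩ := adjQ_b h1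
    obtain ⟨σ', i', c', h, rfl⟩ := adjQ_b h2
    simp only [Prod.mk.injEq] at h
    obtain ⟨⟨rfl, rfl⟩, rfl⟩ := h
    rfl
  · obtain ⟨σ, i, c, rfl, rfl⟩ := adjQ_b (adjQ_symm h1)
    obtain ⟨σ', i', c', rfl, h⟩ := adjQ_b (adjQ_symm h2)
    simp only [Prod.mk.injEq] at h
    obtain ⟨⟨rfl, rfl⟩, h⟩ := h
    rw [V.rotc_inj h]

variable (V)

/-- The system. -/
def qsys : DSys CX where
  Adj := V.AdjQ
  symm := adjQ_symm
  det := adjQ_det

/-! ### The faces -/

/-- The square through a dart with the letter `a⁻¹`. -/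
theorem qsquare {x1 x2 x3 x4 : CX} (h1 : V.AdjQ x1 lA' x2) (h2 : V.AdjQ x2 lB' x3)
    (h3 : V.AdjQ x3 lA' x4) (h4 : V.AdjQ x4 lB' x1) :
    V.qsys.Inner l 2 3 x1 lA' ∧ V.qsys.Inner l 2 3 x4 lB' := by
  have hf : V.qsys.Face l 2 3 lA' (fun t => if t = 0 then x1 else if t = 1 then x2 else
      if t = 2 then x3 else if t = 3 then x4 else x1) := by
    constructor
    · intro t ht
      change t < 4 at ht
      have : t = 0 ∨ t = 1 ∨ t = 2 ∨ t = 3 := by omega
      rcases this with rfl | rfl | rfl | rfl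
      · exact h1
      · exact h2
      · exact h3
      · exact h4
    · rfl
  refine ⟨⟨lA', _, 0, hf, ?_, rfl, rfl⟩, ⟨lA', _, 3, hf, ?_, rfl, rfl⟩⟩
  · change 0 < 4; omega
  · change 3 < 4; omega

theorem qinner_a' {x x' : CX} (h : V.AdjQ x lA' x') : V.qsys.Inner l 2 3 x lA' ∧
    ∀ x0, V.AdjQ x0 lB' x → V.qsys.Inner l 2 3 x0 lB' := by
  obtain ⟨x3, x4, h2, h3, h4⟩ : ∃ x3 x4, V.AdjQ x' lB' x3 ∧ V.AdjQ x3 lA' x4 ∧
      V.AdjQ x4 lB' x := by
    rcases adjQ_a (adjQ_symm h) with ⟨σ, i, rfl, rfl⟩ | ⟨σ, i, rfl, rfl⟩ | ⟨k, rfl, rfl⟩ |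
      ⟨k, rfl, rfl⟩
    · refine ⟨((σ, i), V.rU σ i), ((σ, i + 1), V.rD σ (i + 1)), ?_, AdjQ.down' σ i, ?_⟩
      · have := AdjQ.tri' (V := V) σ i (V.rU σ i)
        rwa [V.rotc_rU] at this
      · have := AdjQ.tri' (V := V) σ (i + 1) (V.lD σ (i + 1))
        rwa [V.rotc_lD] at this
    · refine ⟨((σ, i + 1), V.lD σ (i + 1)), ((σ, i), V.lU σ i), ?_, AdjQ.up' σ i, ?_⟩
      · have := AdjQ.tri' (V := V) σ (i + 1) (V.lD σ (i + 1))
        rwa [V.rotc_lD] at this
      · have := AdjQ.tri' (V := V) σ i (V.rU σ i)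
        rwa [V.rotc_rU] at this
    · refine ⟨((false, V.pos false k), 2), ((true, V.pos true k), 2), ?_, AdjQ.rl' k, ?_⟩
      · have := AdjQ.tri' (V := V) false (V.pos false k) 2
        rwa [(V.rotc_r (V.qnot_leftT_pos_false k)).2.2.1] at this
      · have := AdjQ.tri' (V := V) true (V.pos true k) 1
        rwa [(V.rotc_l (V.qleftT_pos_true k)).2.1] at this
    · refine ⟨((true, V.pos true k), 1), ((false, V.pos false k), 1), ?_, AdjQ.lr' k, ?_⟩
      · have := AdjQ.tri' (V := V) true (V.pos true k) 1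
        rwa [(V.rotc_l (V.qleftT_pos_true k)).2.1] at this
      · have := AdjQ.tri' (V := V) false (V.pos false k) 2
        rwa [(V.rotc_r (V.qnot_leftT_pos_false k)).2.2.1] at this
  obtain ⟨h5, h6⟩ := V.qsquare h h2 h3 h4
  refine ⟨h5, fun x0 h0 => ?_⟩
  have h7 := adjQ_det (adjQ_symm h0) (adjQ_symm h4)
  rw [h7]
  exact h6

theorem qinner_b (σ : Bool) (i : ℕ) (c : Fin 3) : V.qsys.Inner l 2 3 ((σ, i), c) lB := by
  refine ⟨lB, fun t => if t = 0 then ((σ, i), c) else if t = 1 then ((σ, i), V.rotc σ i c) else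
    if t = 2 then ((σ, i), V.rotc σ i (V.rotc σ i c)) else ((σ, i), c), 0, ⟨?_, rfl⟩, ?_, rfl, rfl⟩
  · intro t ht
    change t < 3 at ht
    have : t = 0 ∨ t = 1 ∨ t = 2 := by omega
    rcases this with rfl | rfl | rfl
    · exact AdjQ.tri σ i c
    · exact AdjQ.tri σ i _
    · have := AdjQ.tri (V := V) σ i (V.rotc σ i (V.rotc σ i c))
      rw [V.rotc_three] at this
      exact this
  · change 0 < 3; omega

theorem qpos_succ (σ : Bool) (k : ℕ) : V.pos σ (k + 1) = V.pos σ k + V.len k σ := rfl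

/-- Between two rungs there is no rung. -/
theorem qnot_isRung {σ : Bool} {k i : ℕ} (h1 : V.pos σ k < i) (h2 : i < V.pos σ (k + 1)) :
    ¬ V.isRung σ i := by
  rintro ⟨k', rfl⟩
  rcases lt_trichotomy k' k with h | h | h
  · have := V.pos_lt σ h; omega
  · subst h; omega
  · rcases Nat.lt_or_ge (k + 1) k' with h' | h'
    · have := V.pos_lt σ h'; omega
    · have : k' = k + 1 := by omega
      subst this; omega

theorem qnot_isRung_succ {σ : Bool} {i : ℕ} (h : V.isRung σ i) : ¬ V.isRung σ (i + 1) := by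
  obtain ⟨k, rfl⟩ := h
  have := V.pos_lt σ (Nat.lt_add_one k)
  exact V.qnot_isRung (k := k) (by omega) (by omega)

/-- The cells. -/
theorem qexists_cell (σ : Bool) (i : ℕ) : ∃ k, V.pos σ k ≤ i ∧ i < V.pos σ (k + 1) := by
  induction i with
  | zero =>
    refine ⟨0, le_rfl, ?_⟩
    have := V.pos_lt σ (Nat.lt_add_one 0)
    omega
  | succ i ih =>
    obtain ⟨k, h1, h2⟩ := ih
    rcases Nat.lt_or_ge (i + 1) (V.pos σ (k + 1)) with h | h
    · exact ⟨k, by omega, h⟩
    · refine ⟨k + 1, h, ?_⟩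
      have := V.pos_lt σ (Nat.lt_add_one (k + 1))
      omega

/-- The vertices of the cell `k`. -/
noncomputable def qcellS (k t : ℕ) : CX :=
  if t = 0 then ((false, V.pos false k), 1)
  else if t ≤ V.len k true then ((true, V.pos true k + (t - 1)), V.lU true (V.pos true k + (t - 1)))
  else if t = V.len k true + 1 then ((true, V.pos true (k + 1)), 2)
  else if t < l then ((false, V.pos false k + (l - t)), V.rD false (V.pos false k + (l - t)))
  else ((false, V.pos false k), 1)

theorem qcell_face (k : ℕ) : V.qsys.Face l 2 3 lA (V.qcellS k) := by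
  have hR := V.two k true
  have hL := V.two k false
  have htot := V.tot k
  have hpR := V.qpos_succ true k
  have hpL := V.qpos_succ false k
  constructor
  · intro t ht
    change t < l at ht
    rw [nxt_iter_a]
    change V.AdjQ _ _ _
    by_cases t0 : t = 0
    · subst t0
      have e1 : V.qcellS k 0 = ((false, V.pos false k), 1) := by simp [qcellS]
      have e2 : V.qcellS k (0 + 1) = ((true, V.pos true k), 1) := by
        rw [qcellS, if_neg (by omega), if_pos (by omega)]
        simp [(V.qcorners_true k).1]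
      rw [e1, e2]
      exact AdjQ.lr k
    by_cases t1 : t ≤ V.len k true
    · have e1 : V.qcellS k t = ((true, V.pos true k + (t - 1)),
          V.lU true (V.pos true k + (t - 1))) := by
        rw [qcellS, if_neg t0, if_pos t1]
      have e2 : V.qcellS k (t + 1) = ((true, V.pos true k + (t - 1) + 1),
          V.lD true (V.pos true k + (t - 1) + 1)) := by
        by_cases t2 : t + 1 ≤ V.len k true
        · rw [qcellS, if_neg (by omega), if_pos t2]
          have hn : ¬ V.isRung true (V.pos true k + (t - 1) + 1) :=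
            V.qnot_isRung (k := k) (by omega) (by omega)
          have hn' : ¬ V.leftT true (V.pos true k + (t - 1) + 1) := by rwa [V.qleftT_true]
          have : V.pos true k + (t + 1 - 1) = V.pos true k + (t - 1) + 1 := by omega
          rw [this, (V.rotc_r hn').2.2.2.1, (V.rotc_r hn').2.2.2.2.1]
        · have t3 : t = V.len k true := by omega
          rw [qcellS, if_neg (by omega), if_neg (by omega), if_pos (by omega)]
          have : V.pos true k + (t - 1) + 1 = V.pos true (k + 1) := by omega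
          rw [this, (V.qcorners_true (k + 1)).2.1]
      rw [e1, e2]
      exact AdjQ.up true _
    by_cases t2 : t = V.len k true + 1
    · have e1 : V.qcellS k t = ((true, V.pos true (k + 1)), 2) := by
        rw [qcellS, if_neg t0, if_neg t1, if_pos t2]
      have e2 : V.qcellS k (t + 1) = ((false, V.pos false (k + 1)), 2) := by
        rw [qcellS, if_neg (by omega), if_neg (by omega), if_neg (by omega), if_pos (by omega)]
        have : V.pos false k + (l - (t + 1)) = V.pos false (k + 1) := by omega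
        rw [this, (V.qcorners_false (k + 1)).2.2.2]
      rw [e1, e2]
      exact AdjQ.rl (k + 1)
    · have e1 : V.qcellS k t = ((false, V.pos false k + (l - t - 1) + 1),
          V.rD false (V.pos false k + (l - t - 1) + 1)) := by
        rw [qcellS, if_neg t0, if_neg t1, if_neg t2, if_pos ht]
        have : V.pos false k + (l - t) = V.pos false k + (l - t - 1) + 1 := by omega
        rw [this]
      have e2 : V.qcellS k (t + 1) = ((false, V.pos false k + (l - t - 1)),
          V.rU false (V.pos false k + (l - t - 1))) := by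
        by_cases t3 : t + 1 < l
        · rw [qcellS, if_neg (by omega), if_neg (by omega), if_neg (by omega), if_pos t3]
          have hn : ¬ V.isRung false (V.pos false k + (l - t - 1)) :=
            V.qnot_isRung (k := k) (by omega) (by omega)
          have hn' : V.leftT false (V.pos false k + (l - t - 1)) := by rwa [V.qleftT_false]
          have : V.pos false k + (l - (t + 1)) = V.pos false k + (l - t - 1) := by omega
          rw [this, (V.rotc_l hn').2.2.2.2.2.1, (V.rotc_l hn').2.2.2.2.2.2]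
        · rw [qcellS, if_neg (by omega), if_neg (by omega), if_neg (by omega), if_neg t3]
          have : V.pos false k + (l - t - 1) = V.pos false k := by omega
          rw [this, (V.qcorners_false k).2.2.1]
      rw [e1, e2]
      exact AdjQ.down false _
  · change V.qcellS k l = V.qcellS k 0
    rw [qcellS, if_neg (by omega), if_neg (by omega), if_neg (by omega), if_neg (by omega)]
    simp [qcellS]

theorem qinner_cell (k t : ℕ) (ht : t < l) : V.qsys.Inner l 2 3 (V.qcellS k t) lA :=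
  ⟨lA, V.qcellS k, t, V.qcell_face k, ht, rfl, (nxt_iter_a t).symm⟩

theorem qinner_up_true (i : ℕ) : V.qsys.Inner l 2 3 ((true, i), V.lU true i) lA := by
  obtain ⟨k, h1, h2⟩ := V.qexists_cell true i
  have htot := V.tot k
  have hpR := V.qpos_succ true k
  have h := V.qinner_cell k (i - V.pos true k + 1) (by omega)
  rw [qcellS, if_neg (by omega), if_pos (by omega)] at h
  have : V.pos true k + (i - V.pos true k + 1 - 1) = i := by omega
  rwa [this] at h

theorem qinner_down_false (i : ℕ) :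
    V.qsys.Inner l 2 3 ((false, i + 1), V.rD false (i + 1)) lA := by
  obtain ⟨k, h1, h2⟩ := V.qexists_cell false i
  have htot := V.tot k
  have hR := V.two k true
  have hpL := V.qpos_succ false k
  have h := V.qinner_cell k (l - (i + 1 - V.pos false k)) (by omega)
  rw [qcellS, if_neg (by omega), if_neg (by omega), if_neg (by omega), if_pos (by omega)] at h
  have : V.pos false k + (l - (l - (i + 1 - V.pos false k))) = i + 1 := by omega
  rwa [this] at h

theorem qinner_lr (k : ℕ) : V.qsys.Inner l 2 3 ((false, V.pos false k), 1) lA := by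
  have htot := V.tot k
  have h := V.qinner_cell k 0 (by omega)
  rwa [qcellS, if_pos rfl] at h

theorem qinner_rl (k : ℕ) : V.qsys.Inner l 2 3 ((true, V.pos true (k + 1)), 2) lA := by
  have htot := V.tot k
  have h := V.qinner_cell k (V.len k true + 1) (by omega)
  rwa [qcellS, if_neg (by omega), if_neg (by omega), if_pos rfl] at h

/-- No dart with the letter `a` starts at an outer corner which is not on an outer line. -/
theorem qno_a {x : CX} (h1 : ∀ σ i, x ≠ ((σ, i), V.lU σ i))
    (h2 : ∀ σ i, x ≠ ((σ, i + 1), V.rD σ (i + 1)))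
    (h3 : ∀ k, x ≠ ((false, V.pos false k), 1)) (h4 : ∀ k, x ≠ ((true, V.pos true k), 2))
    (w : List Letter) : run V.qsys.mv x (lA :: w) = none := by
  rw [Option.eq_none_iff_forall_ne_some]
  intro e he
  rw [V.qsys.run_cons_iff] at he
  obtain ⟨x', h, -⟩ := he
  rcases adjQ_a h with ⟨σ, i, h, -⟩ | ⟨σ, i, h, -⟩ | ⟨k, h, -⟩ | ⟨k, h, -⟩
  · exact h1 σ i h
  · exact h2 σ i h
  · exact h3 k h
  · exact h4 k h

/-- The upper end of the outer corner at a vertex of the right line without rung. -/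
theorem qno_a_right {i : ℕ} (hi : ¬ V.isRung true i) (w : List Letter) :
    run V.qsys.mv ((true, i), V.rU true i) (lA :: w) = none := by
  have hl : ¬ V.leftT true i := by rwa [V.qleftT_true]
  rw [(V.rotc_r hl).2.2.2.2.2.1]
  apply V.qno_a
  · rintro σ i' h
    simp only [Prod.mk.injEq] at h
    obtain ⟨⟨rfl, rfl⟩, h⟩ := h
    rw [(V.rotc_r hl).2.2.2.1] at h
    cases h
  · rintro σ i' h
    simp only [Prod.mk.injEq] at h
    obtain ⟨⟨rfl, rfl⟩, h⟩ := h
    rw [(V.rotc_r hl).2.2.2.2.2.2] at h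
    cases h
  · intro k h; cases h
  · intro k h
    simp only [Prod.mk.injEq] at h
    exact absurd h.2 (by decide)

theorem qno_a_left {i : ℕ} (hi : ¬ V.isRung false i) (w : List Letter) :
    run V.qsys.mv ((false, i), V.lD false i) (lA :: w) = none := by
  have hl : V.leftT false i := by rwa [V.qleftT_false]
  rw [(V.rotc_l hl).2.2.2.2.1]
  apply V.qno_a
  · rintro σ i' h
    simp only [Prod.mk.injEq] at h
    obtain ⟨⟨rfl, rfl⟩, h⟩ := h
    rw [(V.rotc_l hl).2.2.2.1] at h
    cases h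
  · rintro σ i' h
    simp only [Prod.mk.injEq] at h
    obtain ⟨⟨rfl, rfl⟩, h⟩ := h
    rw [(V.rotc_l hl).2.2.2.2.2.2] at h
    cases h
  · intro k h
    simp only [Prod.mk.injEq] at h
    exact absurd h.2 (by decide)
  · intro k h
    simp only [Prod.mk.injEq] at h
    exact absurd h.1.1 (by decide)

/-- A step at the beginning of a run without continuation. -/
theorem qrun_cons_none {x x' : CX} {y : Letter} {w : List Letter} (h : V.AdjQ x y x')
    (h2 : run V.qsys.mv x' w = none) : run V.qsys.mv x (y :: w) = none := by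
  rw [Option.eq_none_iff_forall_ne_some]
  intro e he
  rw [V.qsys.run_cons_iff] at he
  obtain ⟨x'', h3, h4⟩ := he
  rw [V.qsys.det h3 h] at h4
  rw [h2] at h4
  cases h4

theorem qdown_true_none (i : ℕ) :
    run V.qsys.mv ((true, i + 1), V.rD true (i + 1)) [lA, lA, lA] = none := by
  apply V.qrun_cons_none (AdjQ.down true i)
  by_cases hi : V.isRung true i
  · cases i with
    | zero =>
      apply V.qno_a
      · intro σ i h
        simp only [Prod.mk.injEq] at h
        obtain ⟨⟨rfl, rfl⟩, h⟩ := h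
        have := (V.qcorners_true 0)
        change _ ∧ _ ∧ V.rU true 0 = 0 ∧ _ at this
        rw [this.2.2.1] at h
        change 0 = V.lU true 0 at h
        have h' := (V.qcorners_true 0).1
        change V.lU true 0 = 1 at h'
        rw [h'] at h
        cases h
      · intro σ i h
        simp only [Prod.mk.injEq] at h
        omega
      · intro k h; cases h
      · intro k h
        simp only [Prod.mk.injEq] at h
        have h' := (V.qcorners_true 0).2.2.1
        change V.rU true 0 = 0 at h'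
        rw [h'] at h
        exact absurd h.2 (by decide)
    | succ j =>
      have e : V.rU true (j + 1) = V.rD true (j + 1) := by
        have hl := V.qleftT_true.2 hi
        rw [(V.rotc_l hl).2.2.2.2.2.1, (V.rotc_l hl).2.2.2.2.2.2]
      rw [e]
      apply V.qrun_cons_none (AdjQ.down true j)
      exact V.qno_a_right (fun h => V.qnot_isRung_succ h hi) []
  · exact V.qno_a_right hi [lA]

theorem qup_false_none (i : ℕ) :
    run V.qsys.mv ((false, i), V.lU false i) [lA, lA, lA] = none := by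
  apply V.qrun_cons_none (AdjQ.up false i)
  by_cases hi : V.isRung false (i + 1)
  · have e : V.lD false (i + 1) = V.lU false (i + 1) := by
      have hl : ¬ V.leftT false (i + 1) := by rw [V.qleftT_false]; exact not_not.2 hi
      rw [(V.rotc_r hl).2.2.2.2.1, (V.rotc_r hl).2.2.2.1]
    rw [e]
    apply V.qrun_cons_none (AdjQ.up false (i + 1))
    exact V.qno_a_left (V.qnot_isRung_succ hi) []
  · exact V.qno_a_left hi [lA]

theorem qrl_zero_none :
    run V.qsys.mv ((true, V.pos true 0), 2) [lA, lA, lA] = none := by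
  apply V.qrun_cons_none (AdjQ.rl 0)
  apply V.qno_a
  · intro σ i h
    simp only [Prod.mk.injEq] at h
    obtain ⟨⟨rfl, rfl⟩, h⟩ := h
    rw [(V.qcorners_false 0).1] at h
    cases h
  · intro σ i h
    simp only [Prod.mk.injEq] at h
    obtain ⟨⟨_, h⟩, _⟩ := h
    change 0 = i + 1 at h
    omega
  · intro k h
    simp only [Prod.mk.injEq] at h
    exact absurd h.2 (by decide)
  · intro k h
    simp only [Prod.mk.injEq] at h
    exact absurd h.1.1 (by decide)

theorem qrun_none_mono {x : CX} {w : List Letter} (w' : List Letter)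
    (h : run V.qsys.mv x w = none) : run V.qsys.mv x (w ++ w') = none := by
  rw [Option.eq_none_iff_forall_ne_some]
  intro e he
  rw [run_append_some] at he
  obtain ⟨d, hd, -⟩ := he
  rw [h] at hd
  cases hd

theorem qclosed (hl : 7 ≤ l) : V.qsys.Closed l 2 3 := by
  intro x y x' h
  have hy : y = lA ∨ y = lA' ∨ y = lB ∨ y = lB' := by
    obtain ⟨i, b⟩ := y
    fin_cases i <;> cases b <;> simp
  rcases hy with rfl | rfl | rfl | rfl
  · have key : ∀ z : CX, run V.qsys.mv z [lA, lA, lA] = none →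
        run V.qsys.mv z (fw lA (fhalf l 2 3 lA)) = none := by
      intro z hz
      rw [fw_a]
      have : fhalf l 2 3 lA = 3 + (l / 2 - 3) := by
        change l / 2 = _
        omega
      rw [this, replicate_add]
      exact V.qrun_none_mono _ hz
    rcases adjQ_a h with ⟨σ, i, rfl, rfl⟩ | ⟨σ, i, rfl, rfl⟩ | ⟨k, rfl, rfl⟩ | ⟨k, rfl, rfl⟩
    · cases σ
      · exact Or.inr (key _ (V.qup_false_none i))
      · exact Or.inl (V.qinner_up_true i)
    · cases σ
      · exact Or.inl (V.qinner_down_false i)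
      · exact Or.inr (key _ (V.qdown_true_none i))
    · exact Or.inl (V.qinner_lr k)
    · cases k with
      | zero => exact Or.inr (key _ V.qrl_zero_none)
      | succ k => exact Or.inl (V.qinner_rl k)
  · exact Or.inl (V.qinner_a' h).1
  · obtain ⟨σ, i, c, rfl, rfl⟩ := adjQ_b h
    exact Or.inl (V.qinner_b σ i c)
  · by_cases h2 : ∃ x'', V.AdjQ x' lA' x''
    · obtain ⟨x'', h2⟩ := h2
      exact Or.inl ((V.qinner_a' h2).2 x h)
    · right
      have e : fhalf l 2 3 lB' = 2 := by simp [fhalf, fper]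
      rw [e]
      change run V.qsys.mv x [lB', lA'] = none
      apply V.qrun_cons_none h
      rw [Option.eq_none_iff_forall_ne_some]
      intro e he
      rw [V.qsys.run_cons_iff] at he
      obtain ⟨x'', h3, -⟩ := he
      exact h2 ⟨x'', h3⟩

/-- The cell of the vertex `i`: the number of the last rung at a position at most `i`. -/
def cellOf (σ : Bool) : ℕ → ℕ
  | 0 => 0
  | i + 1 => if V.pos σ (cellOf σ i + 1) = i + 1 then cellOf σ i + 1 else cellOf σ i

theorem cellOf_spec (σ : Bool) (i : ℕ) :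
    V.pos σ (V.cellOf σ i) ≤ i ∧ i < V.pos σ (V.cellOf σ i + 1) := by
  induction i with
  | zero =>
    refine ⟨le_rfl, ?_⟩
    have := V.pos_lt σ (Nat.lt_add_one 0)
    change 0 < V.pos σ (0 + 1)
    omega
  | succ i ih =>
    obtain ⟨h1, h2⟩ := ih
    rw [cellOf]
    split_ifs with h
    · have := V.pos_lt σ (Nat.lt_add_one (V.cellOf σ i + 1))
      exact ⟨h.le, by omega⟩
    · exact ⟨by omega, by omega⟩

theorem cellOf_unique {σ : Bool} {i k : ℕ} (h1 : V.pos σ k ≤ i) (h2 : i < V.pos σ (k + 1)) :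
    V.cellOf σ i = k := by
  obtain ⟨h3, h4⟩ := V.cellOf_spec σ i
  by_contra hne
  rcases Nat.lt_or_gt_of_ne hne with h | h
  · rcases Nat.lt_or_ge (V.cellOf σ i + 1) k with h' | h'
    · have := V.pos_lt σ h'; omega
    · have : V.cellOf σ i + 1 = k := by omega
      rw [this] at h4; omega
  · rcases Nat.lt_or_ge (k + 1) (V.cellOf σ i) with h' | h'
    · have := V.pos_lt σ h'; omega
    · have : V.cellOf σ i = k + 1 := by omega
      rw [this] at h3; omega

theorem cellOf_pos (σ : Bool) (k : ℕ) : V.cellOf σ (V.pos σ k) = k := by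
  have := V.pos_lt σ (Nat.lt_add_one k)
  exact V.cellOf_unique le_rfl (by omega)

theorem cellOf_succ_rung {σ : Bool} {i : ℕ} (h : V.isRung σ (i + 1)) :
    V.cellOf σ (i + 1) = V.cellOf σ i + 1 := by
  obtain ⟨k, hk⟩ := h
  obtain ⟨h1, h2⟩ := V.cellOf_spec σ i
  rw [← hk, V.cellOf_pos]
  rcases Nat.lt_trichotomy k (V.cellOf σ i + 1) with h | h | h
  · exfalso
    have : k = V.cellOf σ i ∨ k < V.cellOf σ i := by omega
    rcases this with h' | h'
    · rw [h'] at hk; omega
    · have := V.pos_lt σ h'; omega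
  · exact h
  · have := V.pos_lt σ h; omega

theorem cellOf_succ_not {σ : Bool} {i : ℕ} (h : ¬ V.isRung σ (i + 1)) :
    V.cellOf σ (i + 1) = V.cellOf σ i := by
  rw [cellOf, if_neg]
  intro h'
  exact h ⟨_, h'⟩

open Classical in
/-- The potential. -/
noncomputable def qF (o0 : ℤ) (x : CX) : ℤ :=
  x.1.2 + V.cellOf x.1.1 x.1.2 + (if x.1.1 then 0 else o0) -
    (if x.2 = 2 then 1 else if x.2 = 0 ∧ V.isRung x.1.1 x.1.2 then 1 else 0)

open Classical in
theorem qF_mk (o0 : ℤ) (σ : Bool) (i : ℕ) (c : Fin 3) : V.qF o0 ((σ, i), c) =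
    i + V.cellOf σ i + (if σ then 0 else o0) -
      (if c = 2 then 1 else if c = 0 ∧ V.isRung σ i then 1 else 0) := rfl

theorem qF_tri (o0 : ℤ) (σ : Bool) (i : ℕ) (c c' : Fin 3) :
    V.qF o0 ((σ, i), c') ≤ V.qF o0 ((σ, i), c) + 1 := by
  classical
  rw [qF_mk, qF_mk]
  split_ifs <;> omega

theorem qF_up (o0 : ℤ) (σ : Bool) (i : ℕ) :
    V.qF o0 ((σ, i + 1), V.lD σ (i + 1)) ≤ V.qF o0 ((σ, i), V.lU σ i) + 1 ∧
      V.qF o0 ((σ, i), V.lU σ i) ≤ V.qF o0 ((σ, i + 1), V.lD σ (i + 1)) + 1 := by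
  classical
  have hns : V.isRung σ i → ¬ V.isRung σ (i + 1) := V.qnot_isRung_succ
  have hc : V.cellOf σ (i + 1) = V.cellOf σ i + (if V.isRung σ (i + 1) then 1 else 0) := by
    by_cases h : V.isRung σ (i + 1)
    · rw [if_pos h, V.cellOf_succ_rung h]
    · rw [if_neg h, V.cellOf_succ_not h, add_zero]
  rw [qF_mk, qF_mk, hc]
  cases σ
  · by_cases h1 : V.isRung false i <;> by_cases h2 : V.isRung false (i + 1)
    · exact absurd h2 (hns h1)
    · have e1 := V.rotc_r (σ := false) (i := i) (by rw [V.qleftT_false]; exact not_not.2 h1)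
      have e2 := V.rotc_l (σ := false) (i := i + 1) (by rw [V.qleftT_false]; exact h2)
      rw [e1.2.2.2.1, e2.2.2.2.2.1]
      simp [h1, h2]
      omega
    · have e1 := V.rotc_l (σ := false) (i := i) (by rw [V.qleftT_false]; exact h1)
      have e2 := V.rotc_r (σ := false) (i := i + 1) (by rw [V.qleftT_false]; exact not_not.2 h2)
      rw [e1.2.2.2.1, e2.2.2.2.2.1]
      simp [h1, h2]
      omega
    · have e1 := V.rotc_l (σ := false) (i := i) (by rw [V.qleftT_false]; exact h1)
      have e2 := V.rotc_l (σ := false) (i := i + 1) (by rw [V.qleftT_false]; exact h2)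
      rw [e1.2.2.2.1, e2.2.2.2.2.1]
      simp [h1, h2]
      omega
  · by_cases h1 : V.isRung true i <;> by_cases h2 : V.isRung true (i + 1)
    · exact absurd h2 (hns h1)
    · have e1 := V.rotc_l (σ := true) (i := i) (V.qleftT_true.2 h1)
      have e2 := V.rotc_r (σ := true) (i := i + 1) (by rw [V.qleftT_true]; exact h2)
      rw [e1.2.2.2.1, e2.2.2.2.2.1]
      simp [h1, h2]
      omega
    · have e1 := V.rotc_r (σ := true) (i := i) (by rw [V.qleftT_true]; exact h1)
      have e2 := V.rotc_l (σ := true) (i := i + 1) (V.qleftT_true.2 h2)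
      rw [e1.2.2.2.1, e2.2.2.2.2.1]
      simp [h1, h2]
      omega
    · have e1 := V.rotc_r (σ := true) (i := i) (by rw [V.qleftT_true]; exact h1)
      have e2 := V.rotc_r (σ := true) (i := i + 1) (by rw [V.qleftT_true]; exact h2)
      rw [e1.2.2.2.1, e2.2.2.2.2.1]
      simp [h1, h2]
      omega

theorem qF_down (o0 : ℤ) (σ : Bool) (i : ℕ) :
    V.qF o0 ((σ, i + 1), V.rD σ (i + 1)) ≤ V.qF o0 ((σ, i), V.rU σ i) + 1 ∧
      V.qF o0 ((σ, i), V.rU σ i) ≤ V.qF o0 ((σ, i + 1), V.rD σ (i + 1)) + 1 := by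
  classical
  have hns : V.isRung σ i → ¬ V.isRung σ (i + 1) := V.qnot_isRung_succ
  have hc : V.cellOf σ (i + 1) = V.cellOf σ i + (if V.isRung σ (i + 1) then 1 else 0) := by
    by_cases h : V.isRung σ (i + 1)
    · rw [if_pos h, V.cellOf_succ_rung h]
    · rw [if_neg h, V.cellOf_succ_not h, add_zero]
  rw [qF_mk, qF_mk, hc]
  cases σ
  · by_cases h1 : V.isRung false i <;> by_cases h2 : V.isRung false (i + 1)
    · exact absurd h2 (hns h1)
    · have e1 := V.rotc_r (σ := false) (i := i) (by rw [V.qleftT_false]; exact not_not.2 h1)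
      have e2 := V.rotc_l (σ := false) (i := i + 1) (by rw [V.qleftT_false]; exact h2)
      rw [e1.2.2.2.2.2.1, e2.2.2.2.2.2.2]
      simp [h1, h2]
      omega
    · have e1 := V.rotc_l (σ := false) (i := i) (by rw [V.qleftT_false]; exact h1)
      have e2 := V.rotc_r (σ := false) (i := i + 1) (by rw [V.qleftT_false]; exact not_not.2 h2)
      rw [e1.2.2.2.2.2.1, e2.2.2.2.2.2.2]
      simp [h1, h2]
      omega
    · have e1 := V.rotc_l (σ := false) (i := i) (by rw [V.qleftT_false]; exact h1)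
      have e2 := V.rotc_l (σ := false) (i := i + 1) (by rw [V.qleftT_false]; exact h2)
      rw [e1.2.2.2.2.2.1, e2.2.2.2.2.2.2]
      simp [h1, h2]
      omega
  · by_cases h1 : V.isRung true i <;> by_cases h2 : V.isRung true (i + 1)
    · exact absurd h2 (hns h1)
    · have e1 := V.rotc_l (σ := true) (i := i) (V.qleftT_true.2 h1)
      have e2 := V.rotc_r (σ := true) (i := i + 1) (by rw [V.qleftT_true]; exact h2)
      rw [e1.2.2.2.2.2.1, e2.2.2.2.2.2.2]
      simp [h1, h2]
      omega
    · have e1 := V.rotc_r (σ := true) (i := i) (by rw [V.qleftT_true]; exact h1)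
      have e2 := V.rotc_l (σ := true) (i := i + 1) (V.qleftT_true.2 h2)
      rw [e1.2.2.2.2.2.1, e2.2.2.2.2.2.2]
      simp [h1, h2]
      omega
    · have e1 := V.rotc_r (σ := true) (i := i) (by rw [V.qleftT_true]; exact h1)
      have e2 := V.rotc_r (σ := true) (i := i + 1) (by rw [V.qleftT_true]; exact h2)
      rw [e1.2.2.2.2.2.1, e2.2.2.2.2.2.2]
      simp [h1, h2]
      omega

theorem qF_lip {o0 : ℤ} (ho : ∀ k, |V.off o0 k| ≤ 1) (x : CX) (y : Letter) (x' : CX)
    (h : V.qsys.Adj x y x') : V.qF o0 x' ≤ V.qF o0 x + 1 := by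
  classical
  change V.AdjQ x y x' at h
  have hrung : ∀ (k : ℕ) (c : Fin 3), (c = 1 ∨ c = 2) →
      V.qF o0 ((true, V.pos true k), c) ≤ V.qF o0 ((false, V.pos false k), c) + 1 ∧
      V.qF o0 ((false, V.pos false k), c) ≤ V.qF o0 ((true, V.pos true k), c) + 1 := by
    intro k c hc
    have h1 := ho k
    rw [abs_le, off] at h1
    rw [qF_mk, qF_mk, V.cellOf_pos, V.cellOf_pos]
    rcases hc with rfl | rfl
    · simp only [if_true, Bool.false_eq_true, if_false]
      constructor <;> simp <;> omega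
    · simp only [if_true, Bool.false_eq_true, if_false]
      constructor <;> omega
  cases h with
  | tri σ i c => exact V.qF_tri o0 σ i _ _
  | tri' σ i c => exact V.qF_tri o0 σ i _ _
  | up σ i => exact (V.qF_up o0 σ i).1
  | up' σ i => exact (V.qF_up o0 σ i).2
  | down σ i => exact (V.qF_down o0 σ i).2
  | down' σ i => exact (V.qF_down o0 σ i).1
  | lr k => exact (hrung k 1 (Or.inl rfl)).1
  | lr' k => exact (hrung k 1 (Or.inl rfl)).2
  | rl k => exact (hrung k 2 (Or.inr rfl)).2
  | rl' k => exact (hrung k 2 (Or.inr rfl)).1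

end CLad

end Pool.Agent.SLE
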