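import Pool.Agent.SLE.CQ

/-!
# The section over a cubic ladder of `l`-gons and the heights
-/

namespace Pool.Agent.SLE

open List G3

namespace CLad

variable {l : ℕ} (V : CLad l)

section

variable (l)

/-- `B A B A = Z`. -/
theorem q_baba : genB l 2 3 * genA l 2 3 * (genB l 2 3 * genA l 2 3) = genB l 2 3 ^ 3 := by
  have h : genA l 2 3 * genB l 2 3 * (genA l 2 3 * genB l 2 3) = genB l 2 3 ^ 3 := by
    rw [← pow_two]; exact genAB_pow l 2 3
  have hc := z_comm l 2 3 (genA l 2 3)
  calc genB l 2 3 * genA l 2 3 * (genB l 2 3 * genA l 2 3)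
      = (genA l 2 3)⁻¹ * (genA l 2 3 * genB l 2 3 * (genA l 2 3 * genB l 2 3)) * genA l 2 3 := by
        group
    _ = (genA l 2 3)⁻¹ * (genB l 2 3 ^ 3 * genA l 2 3) := by rw [h, mul_assoc]
    _ = genB l 2 3 ^ 3 := by rw [hc, inv_mul_cancel_left]

/-- `B A = A⁻¹ B⁻¹ Z`. -/
theorem q_ba : genB l 2 3 * genA l 2 3 =
    (genA l 2 3)⁻¹ * (genB l 2 3)⁻¹ * genB l 2 3 ^ 3 := by
  rw [← q_baba]; group

/-- `A B A = B²`. -/
theorem q_aba : genA l 2 3 * genB l 2 3 * genA l 2 3 = genB l 2 3 ^ 2 := by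
  have h := q_baba l
  calc genA l 2 3 * genB l 2 3 * genA l 2 3
      = (genB l 2 3)⁻¹ * (genB l 2 3 * genA l 2 3 * (genB l 2 3 * genA l 2 3)) := by group
    _ = genB l 2 3 ^ 2 := by rw [h]; group

/-- `B A = A⁻¹ B²`. -/
theorem q_ba' : genB l 2 3 * genA l 2 3 = (genA l 2 3)⁻¹ * genB l 2 3 ^ 2 := by
  rw [← q_aba]; group

end

open Classical in
/-- The values on the right line. -/
noncomputable def qgR : ℕ → E l 2 3
  | 0 => genA l 2 3
  | i + 1 => if V.isRung true (i + 1) then qgR i * genA l 2 3 * (genB l 2 3)⁻¹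
      else qgR i * genA l 2 3

open Classical in
/-- The values on the left line. -/
noncomputable def qgL : ℕ → E l 2 3
  | 0 => 1
  | i + 1 => if V.isRung false (i + 1) then qgL i * (genA l 2 3)⁻¹ * genB l 2 3
      else qgL i * (genA l 2 3)⁻¹

open Classical in
/-- The section. -/
noncomputable def qval (x : CX) : E l 2 3 :=
  if x.1.1 then
    (if V.isRung true x.1.2 then
      V.qgR x.1.2 * (if x.2 = 1 then 1 else if x.2 = 2 then genB l 2 3 else genB l 2 3 ^ 2)
    else
      V.qgR x.1.2 * (if x.2 = 0 then 1 else if x.2 = 2 then genB l 2 3 else (genB l 2 3)⁻¹))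
  else
    (if V.isRung false x.1.2 then
      V.qgL x.1.2 * (if x.2 = 1 then 1 else if x.2 = 2 then (genB l 2 3)⁻¹ else
        (genB l 2 3 ^ 2)⁻¹)
    else
      V.qgL x.1.2 * (if x.2 = 0 then 1 else if x.2 = 1 then genB l 2 3 else (genB l 2 3)⁻¹))

theorem qval_tr {i : ℕ} (h : V.isRung true i) : V.qval ((true, i), 1) = V.qgR i ∧
    V.qval ((true, i), 2) = V.qgR i * genB l 2 3 ∧
    V.qval ((true, i), 0) = V.qgR i * genB l 2 3 ^ 2 := by
  simp [qval, h]

theorem qval_tn {i : ℕ} (h : ¬ V.isRung true i) : V.qval ((true, i), 0) = V.qgR i ∧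
    V.qval ((true, i), 2) = V.qgR i * genB l 2 3 ∧
    V.qval ((true, i), 1) = V.qgR i * (genB l 2 3)⁻¹ := by
  simp [qval, h]

theorem qval_fr {i : ℕ} (h : V.isRung false i) : V.qval ((false, i), 1) = V.qgL i ∧
    V.qval ((false, i), 2) = V.qgL i * (genB l 2 3)⁻¹ ∧
    V.qval ((false, i), 0) = V.qgL i * (genB l 2 3 ^ 2)⁻¹ := by
  simp [qval, h]

theorem qval_fn {i : ℕ} (h : ¬ V.isRung false i) : V.qval ((false, i), 0) = V.qgL i ∧
    V.qval ((false, i), 1) = V.qgL i * genB l 2 3 ∧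
    V.qval ((false, i), 2) = V.qgL i * (genB l 2 3)⁻¹ := by
  simp [qval, h]

theorem qgR_succ_rung {i : ℕ} (h : V.isRung true (i + 1)) :
    V.qgR (i + 1) = V.qgR i * genA l 2 3 * (genB l 2 3)⁻¹ := by rw [qgR, if_pos h]

theorem qgR_succ_not {i : ℕ} (h : ¬ V.isRung true (i + 1)) :
    V.qgR (i + 1) = V.qgR i * genA l 2 3 := by rw [qgR, if_neg h]

theorem qgL_succ_rung {i : ℕ} (h : V.isRung false (i + 1)) :
    V.qgL (i + 1) = V.qgL i * (genA l 2 3)⁻¹ * genB l 2 3 := by rw [qgL, if_pos h]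

theorem qgL_succ_not {i : ℕ} (h : ¬ V.isRung false (i + 1)) :
    V.qgL (i + 1) = V.qgL i * (genA l 2 3)⁻¹ := by rw [qgL, if_neg h]

theorem qgR_add (k : ℕ) {j : ℕ} (hj : j < V.len k true) :
    V.qgR (V.pos true k + j) = V.qgR (V.pos true k) * genA l 2 3 ^ j := by
  induction j with
  | zero => simp
  | succ j ih =>
    have hp := V.qpos_succ true k
    rw [← add_assoc, V.qgR_succ_not (V.qnot_isRung (k := k) (by omega) (by omega)),
      ih (by omega), pow_succ, mul_assoc]

theorem qgL_add (k : ℕ) {j : ℕ} (hj : j < V.len k false) :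
    V.qgL (V.pos false k + j) = V.qgL (V.pos false k) * (genA l 2 3 ^ j)⁻¹ := by
  induction j with
  | zero => simp
  | succ j ih =>
    have hp := V.qpos_succ false k
    rw [← add_assoc, V.qgL_succ_not (V.qnot_isRung (k := k) (by omega) (by omega)),
      ih (by omega), pow_succ', mul_inv_rev, mul_assoc]

theorem qgR_next (k : ℕ) : V.qgR (V.pos true (k + 1)) =
    V.qgR (V.pos true k) * genA l 2 3 ^ V.len k true * (genB l 2 3)⁻¹ := by
  have h2 := V.two k true
  have hp := V.qpos_succ true k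
  have e : V.pos true (k + 1) = V.pos true k + (V.len k true - 1) + 1 := by omega
  have hr : V.isRung true (V.pos true k + (V.len k true - 1) + 1) := by
    rw [← e]; exact V.qisRung_pos _ _
  rw [e, V.qgR_succ_rung hr, V.qgR_add k (by omega), mul_assoc (V.qgR _), ← pow_succ,
    show V.len k true - 1 + 1 = V.len k true by omega]

theorem qgL_next (k : ℕ) : V.qgL (V.pos false (k + 1)) =
    V.qgL (V.pos false k) * (genA l 2 3 ^ V.len k false)⁻¹ * genB l 2 3 := by
  have h2 := V.two k false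
  have hp := V.qpos_succ false k
  have e : V.pos false (k + 1) = V.pos false k + (V.len k false - 1) + 1 := by omega
  have hr : V.isRung false (V.pos false k + (V.len k false - 1) + 1) := by
    rw [← e]; exact V.qisRung_pos _ _
  rw [e, V.qgL_succ_rung hr, V.qgL_add k (by omega), mul_assoc (V.qgL _), ← mul_inv_rev,
    ← pow_succ', show V.len k false - 1 + 1 = V.len k false by omega]

/-- The rungs. -/
theorem qg_rung (k : ℕ) : V.qgL (V.pos false k) * genA l 2 3 =
    V.qgR (V.pos true k) * (genB l 2 3 ^ 3) ^ (k : ℤ) := by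
  induction k with
  | zero =>
    change V.qgL 0 * _ = V.qgR 0 * _
    simp [qgL, qgR]
  | succ k ih =>
    have htot := V.tot k
    have hA : (genA l 2 3) * (genA l 2 3 ^ V.len k true) =
        (genA l 2 3 ^ V.len k false)⁻¹ * (genA l 2 3)⁻¹ := by
      have h1 : genA l 2 3 ^ (V.len k true + V.len k false + 2) = 1 := by
        rw [htot]; exact genA_pow l 2 3
      rw [← mul_inv_rev, eq_inv_iff_mul_eq_one, ← h1]
      rw [← pow_succ', ← pow_succ', ← pow_add]
      congr 1
      omega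
    have e3 : V.qgR (V.pos true k) * (genB l 2 3 ^ 3) ^ (k : ℤ) *
        genA l 2 3 ^ V.len k true * (genB l 2 3)⁻¹ * genB l 2 3 ^ 3 =
        V.qgL (V.pos false k) * (genA l 2 3 ^ V.len k false)⁻¹ * genB l 2 3 * genA l 2 3 := by
      rw [← ih, mul_assoc (V.qgL _) (genA l 2 3), hA, mul_assoc _ (genB l 2 3) (genA l 2 3), q_ba]
      simp only [mul_assoc]
    rw [V.qgL_next, V.qgR_next, ← e3]
    push_cast
    rw [zpow_add, zpow_one]
    have hc := fun g : E l 2 3 => zpow_comm (l := l) (m := 2) (n := 3) g (k : ℤ)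
    rw [mul_assoc (V.qgR (V.pos true k)) ((genB l 2 3 ^ 3) ^ (k : ℤ)), hc]
    simp only [mul_assoc]
    congr 2
    rw [← mul_assoc, ← mul_assoc, hc, mul_assoc]

open Classical in
/-- The heights of the darts with the letter `b`. -/
noncomputable def qkB (x : CX) : ℤ :=
  if V.isRung x.1.1 x.1.2 then (if x.2 = (if x.1.1 then 0 else 1) then 1 else 0)
  else (if x.2 = (if x.1.1 then 2 else 1) then 1 else 0)

open Classical in
/-- The heights of the darts with the letter `a`. -/
noncomputable def qkA (x : CX) : ℤ :=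
  if x.2 = V.lU x.1.1 x.1.2 then (if x.1.1 = true ∨ V.isRung x.1.1 x.1.2 then 0 else 1)
  else if x.2 = V.rD x.1.1 x.1.2 then
    (if x.1.1 = false ∨ V.isRung x.1.1 (x.1.2 - 1) then 0 else 1)
  else if h : ∃ k, V.pos x.1.1 k = x.1.2 then
    (if x.1.1 then 1 - (h.choose : ℤ) else (h.choose : ℤ))
  else 0

/-- The heights. -/
noncomputable def qkQ (x : CX) (y : Letter) : ℤ :=
  if y.2 then (if y.1 = 0 then V.qkA x else V.qkB x)
  else match V.qsys.mv x y with
    | some x' => - (if y.1 = 0 then V.qkA x' else V.qkB x')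
    | none => 0

theorem qkA_up (σ : Bool) (i : ℕ) [Decidable (σ = true ∨ V.isRung σ i)] :
    V.qkA ((σ, i), V.lU σ i) = if σ = true ∨ V.isRung σ i then 0 else 1 := by
  rw [qkA, if_pos rfl]
  congr

theorem qkA_down (σ : Bool) (i : ℕ) [Decidable (σ = false ∨ V.isRung σ i)] :
    V.qkA ((σ, i + 1), V.rD σ (i + 1)) = if σ = false ∨ V.isRung σ i then 0 else 1 := by
  rw [qkA, if_neg (V.lU_ne_rD σ (i + 1)).symm, if_pos rfl]
  simp only [Nat.add_sub_cancel]

theorem qkA_lr (k : ℕ) : V.qkA ((false, V.pos false k), 1) = k := by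
  have hc := V.qcorners_false k
  have hex : ∃ k', V.pos false k' = V.pos false k := ⟨k, rfl⟩
  rw [qkA, if_neg (by simp [hc.1]), if_neg (by simp [hc.2.2.2]), dif_pos hex]
  have := V.pos_inj _ hex.choose_spec
  simp only [Bool.false_eq_true, if_false]
  exact_mod_cast this

theorem qkA_rl (k : ℕ) : V.qkA ((true, V.pos true k), 2) = 1 - k := by
  have hc := V.qcorners_true k
  have hex : ∃ k', V.pos true k' = V.pos true k := ⟨k, rfl⟩
  rw [qkA, if_neg (by simp [hc.1]), if_neg (by simp [hc.2.2.2]), dif_pos hex]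
  have := V.pos_inj _ hex.choose_spec
  simp only [if_true]
  congr 1
  exact_mod_cast this

theorem qevA : eval l 2 3 [lA] = genA l 2 3 := by
  rw [eval_singleton]; rfl

theorem qevB : eval l 2 3 [lB] = genB l 2 3 := by
  rw [eval_singleton]; rfl

theorem qstep_b {x x' : CX} (h : V.AdjQ x lB x') :
    V.qval x * genB l 2 3 = V.qval x' * (genB l 2 3 ^ 3) ^ V.qkB x := by
  classical
  obtain ⟨σ, i, c, rfl, rfl⟩ := adjQ_b h
  cases σ
  · by_cases hr : V.isRung false i
    · obtain ⟨v1, v2, v0⟩ := V.qval_fr hr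
      obtain ⟨r0, r1, r2, -⟩ := V.rotc_r (σ := false) (i := i)
        (by rw [V.qleftT_false]; exact not_not.2 hr)
      fin_cases c
      · simp only [Fin.zero_eta, r0, v0, v2, qkB, hr, if_true]
        simp
        group
      · simp only [Fin.mk_one, r1, v1, v0, qkB, hr, if_true]
        simp
        group
      · simp only [Fin.reduceFinMk, r2, v2, v1, qkB, hr, if_true]
        simp
    · obtain ⟨v0, v1, v2⟩ := V.qval_fn hr
      obtain ⟨r0, r1, r2, -⟩ := V.rotc_l (σ := false) (i := i) (by rw [V.qleftT_false]; exact hr)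
      fin_cases c
      · simp only [Fin.zero_eta, r0, v0, v1, qkB, hr, if_false]
        simp
      · simp only [Fin.mk_one, r1, v1, v2, qkB, hr, if_false]
        simp
        group
        rw [zpow_two, mul_assoc]
      · simp only [Fin.reduceFinMk, r2, v2, v0, qkB, hr, if_false]
        simp
  · by_cases hr : V.isRung true i
    · obtain ⟨v1, v2, v0⟩ := V.qval_tr hr
      obtain ⟨r0, r1, r2, -⟩ := V.rotc_l (σ := true) (i := i) (V.qleftT_true.2 hr)
      fin_cases c
      · simp only [Fin.zero_eta, r0, v0, v1, qkB, hr, if_true]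
        simp
        group
      · simp only [Fin.mk_one, r1, v1, v2, qkB, hr, if_true]
        simp
      · simp only [Fin.reduceFinMk, r2, v2, v0, qkB, hr, if_true]
        simp
        rw [pow_two, mul_assoc]
    · obtain ⟨v0, v2, v1⟩ := V.qval_tn hr
      obtain ⟨r0, r1, r2, -⟩ := V.rotc_r (σ := true) (i := i) (by rw [V.qleftT_true]; exact hr)
      fin_cases c
      · simp only [Fin.zero_eta, r0, v0, v2, qkB, hr, if_false]
        simp
      · simp only [Fin.mk_one, r1, v1, v0, qkB, hr, if_false]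
        simp
      · simp only [Fin.reduceFinMk, r2, v2, v1, qkB, hr, if_false]
        simp
        group
        rw [zpow_two, mul_assoc]

theorem qval_rU_true (i : ℕ) : V.qval ((true, i), V.lU true i) = V.qgR i := by
  by_cases hr : V.isRung true i
  · rw [(V.rotc_l (V.qleftT_true.2 hr)).2.2.2.1]; exact (V.qval_tr hr).1
  · rw [(V.rotc_r (by rw [V.qleftT_true]; exact hr)).2.2.2.1]; exact (V.qval_tn hr).1

theorem qval_rU_false (i : ℕ) : V.qval ((false, i), V.rU false i) = V.qgL i := by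
  by_cases hr : V.isRung false i
  · rw [(V.rotc_r (by rw [V.qleftT_false]; exact not_not.2 hr)).2.2.2.2.2.1]
    exact (V.qval_fr hr).1
  · rw [(V.rotc_l (by rw [V.qleftT_false]; exact hr)).2.2.2.2.2.1]; exact (V.qval_fn hr).1

theorem qval_lD_true (i : ℕ) :
    V.qval ((true, i + 1), V.lD true (i + 1)) = V.qgR i * genA l 2 3 := by
  by_cases hr : V.isRung true (i + 1)
  · rw [(V.rotc_l (V.qleftT_true.2 hr)).2.2.2.2.1, (V.qval_tr hr).2.1, V.qgR_succ_rung hr]
    group
  · rw [(V.rotc_r (by rw [V.qleftT_true]; exact hr)).2.2.2.2.1, (V.qval_tn hr).1,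
      V.qgR_succ_not hr]

theorem qval_rD_true (i : ℕ) : V.qval ((true, i + 1), V.rD true (i + 1)) =
    V.qgR i * genA l 2 3 * genB l 2 3 := by
  by_cases hr : V.isRung true (i + 1)
  · rw [(V.rotc_l (V.qleftT_true.2 hr)).2.2.2.2.2.2, (V.qval_tr hr).2.2, V.qgR_succ_rung hr]
    group
  · rw [(V.rotc_r (by rw [V.qleftT_true]; exact hr)).2.2.2.2.2.2, (V.qval_tn hr).2.1,
      V.qgR_succ_not hr]

theorem qval_rD_false (i : ℕ) :
    V.qval ((false, i + 1), V.rD false (i + 1)) = V.qgL i * (genA l 2 3)⁻¹ := by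
  by_cases hr : V.isRung false (i + 1)
  · rw [(V.rotc_r (by rw [V.qleftT_false]; exact not_not.2 hr)).2.2.2.2.2.2, (V.qval_fr hr).2.1,
      V.qgL_succ_rung hr]
    group
  · rw [(V.rotc_l (by rw [V.qleftT_false]; exact hr)).2.2.2.2.2.2, (V.qval_fn hr).1,
      V.qgL_succ_not hr]

theorem qval_lD_false (i : ℕ) : V.qval ((false, i + 1), V.lD false (i + 1)) =
    V.qgL i * (genA l 2 3)⁻¹ * (genB l 2 3)⁻¹ := by
  by_cases hr : V.isRung false (i + 1)
  · rw [(V.rotc_r (by rw [V.qleftT_false]; exact not_not.2 hr)).2.2.2.2.1, (V.qval_fr hr).2.2,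
      V.qgL_succ_rung hr]
    group
  · rw [(V.rotc_l (by rw [V.qleftT_false]; exact hr)).2.2.2.2.1, (V.qval_fn hr).2.2,
      V.qgL_succ_not hr]

theorem qstep_a {x x' : CX} (h : V.AdjQ x lA x') :
    V.qval x * genA l 2 3 = V.qval x' * (genB l 2 3 ^ 3) ^ V.qkA x := by
  classical
  rcases adjQ_a h with ⟨σ, i, rfl, rfl⟩ | ⟨σ, i, rfl, rfl⟩ | ⟨k, rfl, rfl⟩ | ⟨k, rfl, rfl⟩
  · rw [V.qkA_up]
    cases σ
    · rw [V.qval_lD_false]
      by_cases hr : V.isRung false i
      · rw [(V.rotc_r (by rw [V.qleftT_false]; exact not_not.2 hr)).2.2.2.1, (V.qval_fr hr).2.2,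
          if_pos (Or.inr hr), zpow_zero, mul_one]
        have h := q_ba' l
        have h2 : genA l 2 3 = (genB l 2 3)⁻¹ * ((genA l 2 3)⁻¹ * genB l 2 3 ^ 2) := by
          rw [← h]; group
        have h3 : (genB l 2 3 ^ 2)⁻¹ * genA l 2 3 = (genA l 2 3)⁻¹ * (genB l 2 3)⁻¹ := by
          have h4 := q_ba l
          have h5 := z_comm l 2 3 ((genA l 2 3)⁻¹ * (genB l 2 3)⁻¹)
          rw [← h5] at h4
          calc (genB l 2 3 ^ 2)⁻¹ * genA l 2 3
              = (genB l 2 3 ^ 3)⁻¹ * (genB l 2 3 * genA l 2 3) := by group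
            _ = _ := by rw [h4, inv_mul_cancel_left]
        rw [mul_assoc, h3, mul_assoc]
      · rw [(V.rotc_l (by rw [V.qleftT_false]; exact hr)).2.2.2.1, (V.qval_fn hr).2.1,
          if_neg (by simp [hr]), zpow_one, mul_assoc, q_ba]
        simp only [mul_assoc]
    · rw [V.qval_rU_true, V.qval_lD_true, if_pos (Or.inl rfl), zpow_zero, mul_one]
  · rw [V.qkA_down]
    cases σ
    · rw [V.qval_rD_false, V.qval_rU_false, if_pos (Or.inl rfl), zpow_zero, mul_one,
        inv_mul_cancel_right]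
    · rw [V.qval_rD_true]
      by_cases hr : V.isRung true i
      · rw [(V.rotc_l (V.qleftT_true.2 hr)).2.2.2.2.2.1, (V.qval_tr hr).2.2,
          if_pos (Or.inr hr), zpow_zero, mul_one, ← q_aba]
        simp only [mul_assoc]
      · rw [(V.rotc_r (by rw [V.qleftT_true]; exact hr)).2.2.2.2.2.1, (V.qval_tn hr).2.2,
          if_neg (by simp [hr]), zpow_one]
        have h := q_aba l
        calc V.qgR i * genA l 2 3 * genB l 2 3 * genA l 2 3
            = V.qgR i * (genA l 2 3 * genB l 2 3 * genA l 2 3) := by simp only [mul_assoc]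
          _ = _ := by rw [h]; group
  · rw [V.qkA_lr, (V.qval_fr (V.qisRung_pos _ _)).1, (V.qval_tr (V.qisRung_pos _ _)).1]
    exact V.qg_rung k
  · rw [V.qkA_rl, (V.qval_fr (V.qisRung_pos _ _)).2.1, (V.qval_tr (V.qisRung_pos _ _)).2.1]
    have h1 := V.qg_rung k
    have h2 : V.qgL (V.pos false k) = V.qgR (V.pos true k) * (genB l 2 3 ^ 3) ^ (k : ℤ) *
        (genA l 2 3)⁻¹ := by rw [← h1, mul_inv_cancel_right]
    have hc := fun g : E l 2 3 => zpow_comm (l := l) (m := 2) (n := 3) g (k : ℤ)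
    have h3 : (genB l 2 3 ^ 3) ^ (k : ℤ) * (genA l 2 3)⁻¹ * (genB l 2 3)⁻¹ *
        (genB l 2 3 ^ 3) ^ (1 - (k : ℤ)) = (genA l 2 3)⁻¹ * (genB l 2 3)⁻¹ * genB l 2 3 ^ 3 := by
      rw [mul_assoc ((genB l 2 3 ^ 3) ^ (k : ℤ)), hc, mul_assoc, ← zpow_add,
        show (k : ℤ) + (1 - k) = 1 by ring, zpow_one]
    calc V.qgR (V.pos true k) * genB l 2 3 * genA l 2 3
        = V.qgR (V.pos true k) * ((genA l 2 3)⁻¹ * (genB l 2 3)⁻¹ * genB l 2 3 ^ 3) := by
          rw [mul_assoc, q_ba]
      _ = _ := by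
          rw [← h3, h2]
          simp only [mul_assoc]

open Classical in
/-- **The section and the heights.** -/
theorem exists_qval (hl : 7 ≤ l) :
    ∃ (val : CX → E l 2 3) (κ : CX → Letter → ℤ), VVal l 2 3 V.qsys.mv val κ ∧
      -- the letter `b`
      (∀ σ i c, κ ((σ, i), c) lB =
        if V.isRung σ i then (if c = (if σ then 0 else 1) then 1 else 0)
        else (if c = (if σ then 2 else 1) then 1 else 0)) ∧
      -- the letter `a` on the left side of the lines (inside for the right line)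
      (∀ σ i, κ ((σ, i), V.lU σ i) lA = if σ = true ∨ V.isRung σ i then 0 else 1) ∧
      -- the letter `a` on the right side of the lines (inside for the left line)
      (∀ σ i, κ ((σ, i + 1), V.rD σ (i + 1)) lA = if σ = false ∨ V.isRung σ i then 0 else 1) ∧
      -- the rungs
      (∀ k : ℕ, κ ((false, V.pos false k), 1) lA = k) ∧
      (∀ k : ℕ, κ ((true, V.pos true k), 2) lA = 1 - k) := by
  have hpos : ∀ (x x' : CX) (i : Fin 2), V.AdjQ x (i, true) x' →
      V.qval x * eval l 2 3 [(i, true)] =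
        V.qval x' * (genB l 2 3 ^ 3) ^ (if i = 0 then V.qkA x else V.qkB x) := by
    intro x x' i h
    fin_cases i
    · change V.qval x * eval l 2 3 [lA] = V.qval x' * (genB l 2 3 ^ 3) ^ V.qkA x
      rw [qevA]
      exact V.qstep_a h
    · change V.qval x * eval l 2 3 [lB] = V.qval x' * (genB l 2 3 ^ 3) ^ V.qkB x
      rw [qevB]
      exact V.qstep_b h
  refine ⟨V.qval, V.qkQ, DSys.vval ?_, ?_, ?_, ?_, ?_, ?_⟩
  · rintro x ⟨i, b⟩ x' h
    cases b
    · have h1 : V.AdjQ x' (i, true) x := adjQ_symm h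
      have h2 := hpos _ _ _ h1
      have h3 : V.qsys.mv x (i, false) = some x' := V.qsys.mv_iff.2 h
      have h4 : V.qkQ x (i, false) = - (if i = 0 then V.qkA x' else V.qkB x') := by
        simp only [qkQ, Bool.false_eq_true, if_false, h3]
      rw [h4]
      have h5 : eval l 2 3 [(i, false)] = (eval l 2 3 [(i, true)])⁻¹ :=
        eval_flip l 2 3 (i, true)
      rw [h5, zpow_neg]
      generalize (if i = 0 then V.qkA x' else V.qkB x') = k at h2 ⊢
      generalize eval l 2 3 [(i, true)] = g at h2 ⊢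
      have hc' := zpow_comm (l := l) (m := 2) (n := 3) g⁻¹ k
      rw [eq_mul_inv_iff_mul_eq, mul_assoc, ← hc', ← mul_assoc, ← h2, mul_inv_cancel_right]
    · have h4 : V.qkQ x (i, true) = if i = 0 then V.qkA x else V.qkB x := by
        simp only [qkQ, if_true]
      rw [h4]
      exact hpos _ _ _ h
  · intro σ i c
    rfl
  · intro σ i
    change V.qkA _ = _
    rw [V.qkA_up]
  · intro σ i
    change V.qkA _ = _
    rw [V.qkA_down]
  · intro k
    exact V.qkA_lr k
  · intro k
    exact V.qkA_rl k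

end CLad

end Pool.Agent.SLE
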