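import Pool.Agent.SLE.CLad

/-!
# Tight darts of cubic ladders
-/

namespace Pool.Agent.SLE

open List G3

namespace CLad

variable {m : ℕ} (V : CLad m) {τ : Fin 2}

theorem rot_left {σ : Bool} {i : ℕ} (h : V.leftT σ i) (d : Fin 3) : V.rot σ i d = d + 1 := by
  unfold rot
  rw [if_pos h]
  revert d
  decide

theorem rot_right {σ : Bool} {i : ℕ} (h : ¬ V.leftT σ i) (d : Fin 3) :
    V.rot σ i d = d + 2 := by
  unfold rot
  rw [if_neg h]
  revert d
  decide

theorem turn_of {σ : Bool} {i : ℕ} (h : V.leftT σ i) : V.turn τ σ i = (τ, true) := by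
  unfold turn
  simp [h]

theorem turn_of_not {σ : Bool} {i : ℕ} (h : ¬ V.leftT σ i) : V.turn τ σ i = (τ, false) := by
  unfold turn
  simp [h]

theorem fin3_12 (d : Fin 3) : d + 1 + 2 = d := by
  revert d
  decide

theorem fin3_21 (d : Fin 3) : d + 2 + 1 = d := by
  revert d
  decide

theorem adj_turn (σ : Bool) (i : ℕ) (d : Fin 3) :
    V.Adj τ ((σ, i), d) (V.turn τ σ i) ((σ, i), d + 1) := by
  by_cases h : V.leftT σ i
  · rw [V.turn_of h]
    have h1 := Adj.tri (V := V) (τ := τ) σ i d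
    rwa [V.rot_left h] at h1
  · rw [V.turn_of_not h]
    have h1 := Adj.tri' (V := V) (τ := τ) σ i (d + 1)
    rwa [V.rot_right h, fin3_12] at h1

theorem adj_flip_turn (σ : Bool) (i : ℕ) (d : Fin 3) :
    V.Adj τ ((σ, i), d) (flip (V.turn τ σ i)) ((σ, i), d + 2) := by
  have h1 := (V.sys τ).symm (V.adj_turn (τ := τ) σ i (d + 2))
  rwa [fin3_21] at h1

/-- The darts at a vertex. -/
theorem adj_inv {x x' : CX} {y : Letter} (h : V.Adj τ x y x') :
    (y = V.turn τ x.1.1 x.1.2 ∧ x' = (x.1, x.2 + 1)) ∨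
    (y = flip (V.turn τ x.1.1 x.1.2) ∧ x' = (x.1, x.2 + 2)) ∨
    (x.2 = 1 ∧ y.1 = otg τ ∧ x' = ((x.1.1, x.1.2 + 1), 0)) ∨
    (x.2 = 0 ∧ ∃ i, x.1.2 = i + 1 ∧ y.1 = otg τ ∧ x' = ((x.1.1, i), 1)) ∨
    (x.2 = 2 ∧ ∃ k, V.pos x.1.1 k = x.1.2 ∧ y.1 = otg τ ∧
      x' = ((!x.1.1, V.pos (!x.1.1) k), 2)) := by
  cases h with
  | tri σ i d =>
    by_cases h : V.leftT σ i
    · left
      exact ⟨(V.turn_of h).symm, by rw [V.rot_left h]⟩
    · right; left
      refine ⟨?_, by rw [V.rot_right h]⟩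
      change _ = flip (V.turn τ σ i)
      rw [V.turn_of_not h]
      rfl
  | tri' σ i d =>
    by_cases h : V.leftT σ i
    · right; left
      refine ⟨?_, ?_⟩
      · change _ = flip (V.turn τ σ i)
        rw [V.turn_of h]
        rfl
      · rw [V.rot_left h]
        change _ = ((σ, i), d + 1 + 2)
        rw [fin3_12]
    · left
      refine ⟨(V.turn_of_not h).symm, ?_⟩
      rw [V.rot_right h]
      change _ = ((σ, i), d + 2 + 1)
      rw [fin3_21]
  | up σ i b => exact Or.inr (Or.inr (Or.inl ⟨rfl, rfl, rfl⟩))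
  | down σ i b => exact Or.inr (Or.inr (Or.inr (Or.inl ⟨rfl, i, rfl, rfl, rfl⟩)))
  | lr k b => exact Or.inr (Or.inr (Or.inr (Or.inr ⟨rfl, k, rfl, rfl, rfl⟩)))
  | rl k b => exact Or.inr (Or.inr (Or.inr (Or.inr ⟨rfl, k, rfl, rfl, rfl⟩)))

theorem turn_ne_flip (τ : Fin 2) (σ : Bool) (i : ℕ) : V.turn τ σ i ≠ flip (V.turn τ σ i) := by
  have key : ∀ y : Letter, y ≠ flip y := by decide
  exact key _

/-- One can cross from the line `σ` at its vertex `i`. -/
def Cr (o0 : ℤ) (σ : Bool) (i : ℕ) : Prop :=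
  ∃ k, V.pos σ k = i ∧ V.off o0 k = (if σ then 1 else -1)

theorem cF_zero (o0 : ℤ) (σ : Bool) (i : ℕ) :
    V.cF o0 ((σ, i), 0) = 2 * i + (if σ then 0 else 2 * o0) := by
  unfold cF
  simp

theorem cF_one (o0 : ℤ) (σ : Bool) (i : ℕ) :
    V.cF o0 ((σ, i), 1) = 2 * i + (if σ then 0 else 2 * o0) + 1 := by
  unfold cF
  simp

theorem cF_two_of {o0 : ℤ} {σ : Bool} {i : ℕ} (h : V.Cr o0 σ i) :
    V.cF o0 ((σ, i), 2) = 2 * i + (if σ then 0 else 2 * o0) + 1 := by
  unfold Cr at h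
  unfold cF
  dsimp only
  rw [if_neg (show ¬ (2 : Fin 3) = 0 by decide), if_neg (show ¬ (2 : Fin 3) = 1 by decide),
    if_pos h]

theorem cF_two_of_not {o0 : ℤ} {σ : Bool} {i : ℕ} (h : ¬ V.Cr o0 σ i) :
    V.cF o0 ((σ, i), 2) = 2 * i + (if σ then 0 else 2 * o0) := by
  unfold Cr at h
  unfold cF
  dsimp only
  rw [if_neg (show ¬ (2 : Fin 3) = 0 by decide), if_neg (show ¬ (2 : Fin 3) = 1 by decide),
    if_neg h, add_zero]

theorem cr_pos {o0 : ℤ} {σ : Bool} {k : ℕ} :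
    V.Cr o0 σ (V.pos σ k) ↔ V.off o0 k = (if σ then 1 else -1) := by
  constructor
  · rintro ⟨k', h1, h2⟩
    rw [← V.pos_inj σ h1]
    exact h2
  · intro h
    exact ⟨k, rfl, h⟩

/-- The tight darts at a lower corner. -/
theorem tight_D {o0 : ℤ} {σ : Bool} {i : ℕ} {y : Letter} {x' : CX}
    (h : V.Adj τ ((σ, i), 0) y x') (ht : V.cF o0 x' = V.cF o0 ((σ, i), 0) + 1) :
    (y = V.turn τ σ i ∧ x' = ((σ, i), 1)) ∨
    (y = flip (V.turn τ σ i) ∧ x' = ((σ, i), 2) ∧ V.Cr o0 σ i) := by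
  rcases V.adj_inv h with ⟨h1, h2⟩ | ⟨h1, h2⟩ | ⟨h1, -⟩ | ⟨-, j, h1, -, h2⟩ | ⟨h1, -⟩
  · exact Or.inl ⟨h1, h2⟩
  · right
    have h3 : x' = ((σ, i), 2) := h2
    refine ⟨h1, h3, ?_⟩
    by_contra hcon
    rw [h3, V.cF_two_of_not hcon, cF_zero] at ht
    omega
  · exact absurd h1 (by change (0 : Fin 3) ≠ 1; decide)
  · exfalso
    have h3 : i = j + 1 := h1
    rw [h2, cF_zero, cF_one] at ht
    subst h3
    push_cast at ht
    change 2 * (j : ℤ) + (if σ = true then 0 else 2 * o0) + 1 = _ at ht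
    omega
  · exact absurd h1 (by change (0 : Fin 3) ≠ 2; decide)

/-- The tight darts at an upper corner. -/
theorem tight_U {o0 : ℤ} {σ : Bool} {i : ℕ} {y : Letter} {x' : CX}
    (h : V.Adj τ ((σ, i), 1) y x') (ht : V.cF o0 x' = V.cF o0 ((σ, i), 1) + 1) :
    y.1 = otg τ ∧ x' = ((σ, i + 1), 0) := by
  rcases V.adj_inv h with ⟨h1, h2⟩ | ⟨h1, h2⟩ | ⟨-, h1, h2⟩ | ⟨h1, -⟩ | ⟨h1, -⟩
  · exfalso
    have h3 : x' = ((σ, i), 2) := h2
    by_cases hc : V.Cr o0 σ i
    · rw [h3, V.cF_two_of hc, cF_one] at ht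
      omega
    · rw [h3, V.cF_two_of_not hc, cF_one] at ht
      omega
  · exfalso
    have h3 : x' = ((σ, i), 0) := h2
    rw [h3, cF_zero, cF_one] at ht
    omega
  · exact ⟨h1, h2⟩
  · exact absurd h1 (by change (1 : Fin 3) ≠ 0; decide)
  · exact absurd h1 (by change (1 : Fin 3) ≠ 2; decide)

/-- The tight darts at a third corner. -/
theorem tight_T {o0 : ℤ} (ho : ∀ k, |V.off o0 k| ≤ 1) {σ : Bool} {i : ℕ} {y : Letter} {x' : CX}
    (h : V.Adj τ ((σ, i), 2) y x') (ht : V.cF o0 x' = V.cF o0 ((σ, i), 2) + 1) :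
    (y = flip (V.turn τ σ i) ∧ x' = ((σ, i), 1) ∧ ¬ V.Cr o0 σ i) ∨
    (∃ k, V.pos σ k = i ∧ y.1 = otg τ ∧ x' = ((!σ, V.pos (!σ) k), 2) ∧
      V.off o0 k = (if σ then 1 else -1)) := by
  rcases V.adj_inv h with ⟨h1, h2⟩ | ⟨h1, h2⟩ | ⟨h1, -⟩ | ⟨h1, -⟩ | ⟨-, k, h1, h2, h3⟩
  · exfalso
    have h3 : x' = ((σ, i), 0) := h2
    by_cases hc : V.Cr o0 σ i
    · rw [h3, V.cF_two_of hc, cF_zero] at ht
      omega
    · rw [h3, V.cF_two_of_not hc, cF_zero] at ht
      omega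
  · left
    have h3 : x' = ((σ, i), 1) := h2
    refine ⟨h1, h3, ?_⟩
    intro hc
    rw [h3, V.cF_two_of hc, cF_one] at ht
    omega
  · exact absurd h1 (by change (2 : Fin 3) ≠ 1; decide)
  · exact absurd h1 (by change (2 : Fin 3) ≠ 0; decide)
  · right
    have h4 : V.pos σ k = i := h1
    have h5 : x' = ((!σ, V.pos (!σ) k), 2) := h3
    refine ⟨k, h4, h2, h5, ?_⟩
    have h6 := abs_le.1 (ho k)
    have h7 : V.off o0 k = V.pos false k + o0 - V.pos true k := rfl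
    subst h4
    rw [h5] at ht
    by_cases hc : V.Cr o0 σ (V.pos σ k)
    · exact V.cr_pos.1 hc
    · exfalso
      rw [V.cF_two_of_not hc] at ht
      have hc1 : V.off o0 k ≠ (if σ then 1 else -1) := fun h => hc (V.cr_pos.2 h)
      by_cases hc' : V.Cr o0 (!σ) (V.pos (!σ) k)
      · rw [V.cF_two_of hc'] at ht
        have hc2 := V.cr_pos.1 hc'
        cases σ
        · simp only [Bool.not_false, if_true, Bool.false_eq_true, if_false] at ht hc1 hc2
          omega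
        · simp only [Bool.not_true, if_true, Bool.false_eq_true, if_false] at ht hc1 hc2
          omega
      · rw [V.cF_two_of_not hc'] at ht
        cases σ
        · simp only [Bool.not_false, if_true, Bool.false_eq_true, if_false] at ht hc1
          omega
        · simp only [Bool.not_true, if_true, Bool.false_eq_true, if_false] at ht hc1
          omega

/-! ### Words -/

/-- The word along the line `σ`, from the vertex `i`, with `d` edges. -/
noncomputable def lw (V : CLad m) (τ : Fin 2) (b : Bool) (σ : Bool) : ℕ → ℕ → List Letter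
  | _, 0 => []
  | i, d + 1 => V.turn τ σ i :: (otg τ, b) :: lw V τ b σ (i + 1) d

theorem mv_turn (σ : Bool) (i : ℕ) (d : Fin 3) :
    (V.sys τ).mv ((σ, i), d) (V.turn τ σ i) = some ((σ, i), d + 1) :=
  (V.sys τ).mv_iff.2 (V.adj_turn σ i d)

theorem mv_flip_turn (σ : Bool) (i : ℕ) (d : Fin 3) :
    (V.sys τ).mv ((σ, i), d) (flip (V.turn τ σ i)) = some ((σ, i), d + 2) :=
  (V.sys τ).mv_iff.2 (V.adj_flip_turn σ i d)

theorem mv_up (σ : Bool) (i : ℕ) (b : Bool) :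
    (V.sys τ).mv ((σ, i), 1) (otg τ, b) = some ((σ, i + 1), 0) :=
  (V.sys τ).mv_iff.2 (Adj.up σ i b)

theorem mv_lr (k : ℕ) (b : Bool) :
    (V.sys τ).mv ((false, V.pos false k), 2) (otg τ, b) = some ((true, V.pos true k), 2) :=
  (V.sys τ).mv_iff.2 (Adj.lr k b)

theorem mv_rl (k : ℕ) (b : Bool) :
    (V.sys τ).mv ((true, V.pos true k), 2) (otg τ, b) = some ((false, V.pos false k), 2) :=
  (V.sys τ).mv_iff.2 (Adj.rl k b)

theorem tight_lw (o0 : ℤ) (b σ : Bool) (i d : ℕ) :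
    TightRun (V.sys τ).mv (V.cF o0) ((σ, i), 0) (V.lw τ b σ i d) ((σ, i + d), 0) := by
  induction d generalizing i with
  | zero => rfl
  | succ d ih =>
    refine ⟨_, V.mv_turn σ i 0, ?_, _, V.mv_up σ i b, ?_, ?_⟩
    · change V.cF o0 ((σ, i), 1) = _
      rw [cF_one, cF_zero]
    · change _ = V.cF o0 ((σ, i), 1) + 1
      rw [cF_one, cF_zero]
      push_cast
      ring
    · have h := ih (i + 1)
      rwa [show i + 1 + d = i + (d + 1) by ring] at h

/-- The word for crossing at a rung and going up one edge. -/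
noncomputable def xw (V : CLad m) (τ : Fin 2) (b b' : Bool) (σ : Bool) (k : ℕ) : List Letter :=
  [flip (V.turn τ σ (V.pos σ k)), (otg τ, b), flip (V.turn τ (!σ) (V.pos (!σ) k)), (otg τ, b')]

theorem tight_xw (o0 : ℤ) (b b' σ : Bool) (k : ℕ) (h : V.off o0 k = (if σ then 1 else -1)) :
    TightRun (V.sys τ).mv (V.cF o0) ((σ, V.pos σ k), 0) (V.xw τ b b' σ k)
      ((!σ, V.pos (!σ) k + 1), 0) := by
  have h1 : V.Cr o0 σ (V.pos σ k) := V.cr_pos.2 h
  have h2 : ¬ V.Cr o0 (!σ) (V.pos (!σ) k) := by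
    rw [V.cr_pos, h]
    cases σ <;> simp
  have h3 : V.off o0 k = V.pos false k + o0 - V.pos true k := rfl
  have hmv : (V.sys τ).mv ((σ, V.pos σ k), 2) (otg τ, b) = some ((!σ, V.pos (!σ) k), 2) := by
    cases σ
    · exact V.mv_lr k b
    · exact V.mv_rl k b
  refine ⟨_, V.mv_flip_turn σ _ 0, ?_, _, hmv, ?_, _, V.mv_flip_turn (!σ) _ 2, ?_, _,
    V.mv_up (!σ) _ b', ?_, rfl⟩
  · change V.cF o0 ((σ, V.pos σ k), 2) = _
    rw [V.cF_two_of h1, cF_zero]
  · change _ = V.cF o0 ((σ, V.pos σ k), 2) + 1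
    rw [V.cF_two_of h1, V.cF_two_of_not h2]
    cases σ
    · simp only [Bool.not_false, if_true, Bool.false_eq_true, if_false] at h ⊢
      omega
    · simp only [Bool.not_true, if_true, Bool.false_eq_true, if_false] at h ⊢
      omega
  · change V.cF o0 ((!σ, V.pos (!σ) k), 1) = _
    rw [V.cF_two_of_not h2, cF_one]
  · change _ = V.cF o0 ((!σ, V.pos (!σ) k), 1) + 1
    rw [cF_one, cF_zero]
    push_cast
    ring

end CLad

/-- The height of the inverse dart. -/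
theorem VVal.flip_eq {l m n : ℕ} (hl : 2 ≤ l) (hm : 2 ≤ m) (hn : 2 ≤ n)
    (hyp : (1 / l + 1 / m + 1 / n : ℚ) < 1) {X : Type*} {mv : X → Letter → Option X}
    {val : X → E l m n} {κ : X → Letter → ℤ} (H : VVal l m n mv val κ) {x x' : X} {y : Letter}
    (h : mv x y = some x') (h' : mv x' (flip y) = some x) : κ x' (flip y) = -κ x y := by
  have h1 := H.step _ _ _ h
  have h2 := H.step _ _ _ h'
  rw [eval_flip] at h2
  have h3 : val x' = val x * (genB l m n ^ n) ^ κ x' (flip y) * eval l m n [y] := by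
    rw [← h2, mul_assoc, inv_mul_cancel, mul_one]
  rw [h3, mul_assoc (val x), zpow_comm, ← mul_assoc, mul_assoc (val x * eval l m n [y]),
    ← zpow_add] at h1
  have h4 : (genB l m n ^ n) ^ (κ x' (flip y) + κ x y) = (genB l m n ^ n) ^ (0 : ℤ) := by
    rw [zpow_zero]
    exact mul_left_cancel (h1.symm.trans (mul_one _).symm)
  have h5 := z_zpow_inj hl hm hn hyp h4
  omega

end Pool.Agent.SLE
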