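import Pool.Agent.SLE.Capped

/-!
# Ladders with caps are closed
-/

namespace Pool.Agent.SLE

open List G3

namespace VLad

variable {l m n : ℕ} (V : VLad l m n)

/-- The edge `i` of the line `σ` is covered by a cap. -/
def cov (σ : Bool) (i : ℕ) : Prop := 0 < V.capR σ i ∨ ∃ i', i = i' + 1 ∧ V.capR σ i' = 2

/-- A path along a `2m`-gon on the outer side may pass the vertex `i + 1` of the line `σ`. -/
def pass (σ : Bool) (i : ℕ) : Prop :=
  (¬ V.isP σ i ∧ V.isP σ (i + 1) ∧ V.cov σ (i + 1)) ∨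
  (V.isP σ i ∧ ¬ V.isP σ (i + 1) ∧ V.cov σ i) ∨
  (V.isP σ i ∧ V.isP σ (i + 1) ∧ V.u σ (i + 1) ≠ V.u σ i ∧ V.cov σ i ∧ V.cov σ (i + 1))

/-- There is one edge only on the outer side of the edge `i`. -/
def single (σ : Bool) (i : ℕ) : Prop := ¬ V.isP σ i ∨ psz l n (V.u σ i) = 2

/-- No `m` consecutive edges of a `2m`-gon on the outer side. -/
def PShort : Prop := ∀ σ i,
  ¬ ((∀ t < m - 1, V.pass σ (i + t)) ∧ (∀ t, 1 ≤ t → t + 2 ≤ m → V.single σ (i + t)))

/-- Conditions for closed ladders with caps. -/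
structure Tame : Prop extends V.Good where
  hm : 2 ≤ m
  short : V.PShort
  four : ∀ σ i, V.isP σ i → V.u σ (i + 1) = V.u σ i → V.u σ (i + 2) = V.u σ i →
    V.u σ (i + 3) ≠ V.u σ i
  bot : ∀ σ, V.len 0 σ = 0 → V.capR σ 0 = 0
  bot' : (V.c 0).2 = true ∨ 4 ≤ psz l n (V.c 0)

/-! ### The caps at a vertex -/

theorem isP_congr {σ : Bool} {i j : ℕ} (h : V.u σ i = V.u σ j) (hj : V.isP σ j) : V.isP σ i := by
  unfold isP at hj ⊢
  rw [h]
  exact hj

theorem cap_top_spec (hG : V.Good) {σ : Bool} {i j : ℕ} (h : 0 < V.capR σ j)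
    (hw : i + 1 = j + V.capR σ j) :
    V.isP σ i ∧ V.cov σ i ∧ V.u σ j = V.u σ i ∧ V.u σ (i + 1) ≠ V.u σ i := by
  have hP := V.isP_of_cap h
  rcases V.capR_cases h with ⟨h1, -, h2⟩ | ⟨h1, -, h2, -, h3⟩
  · have : i = j := by omega
    subst this
    exact ⟨hP, Or.inl h, rfl, hG.g1 σ i hP h2⟩
  · have : i = j + 1 := by omega
    subst this
    refine ⟨V.isP_congr h2 hP, Or.inr ⟨j, rfl, h1⟩, h2.symm, ?_⟩
    rw [h2]
    exact hG.g2 σ j hP (by omega) h2

theorem cap_bot_spec (hG : V.Good) {σ : Bool} {i : ℕ} (h : 0 < V.capR σ (i + 1)) :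
    V.isP σ (i + 1) ∧ V.cov σ (i + 1) ∧ V.u σ (i + 1) ≠ V.u σ i := by
  have hP := V.isP_of_cap h
  refine ⟨hP, Or.inl h, fun hu => ?_⟩
  have hPi : V.isP σ i := V.isP_congr hu.symm hP
  rcases V.capR_cases h with ⟨-, -, h2⟩ | ⟨-, -, h2, -, h3⟩
  · rw [hu] at h2
    exact hG.g1 σ i hPi h2 hu
  · rw [hu] at h3 h2
    exact hG.g2 σ i hPi (by omega) hu h2

/-- The darts at a vertex of a line. -/
theorem cadj_inl (hG : V.Good) {σ : Bool} {w : ℕ} {z : Letter} {x' : V.CX}
    (h : (V.csys hG).Adj (Sum.inl (σ, w)) z x') :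
    (z = V.u σ w ∧ x' = Sum.inl (σ, w + 1)) ∨
    (∃ j, w = j + 1 ∧ z = flip (V.u σ j) ∧ x' = Sum.inl (σ, j)) ∨
    (∃ k, V.pos σ k = w ∧ z = V.rg σ k) ∨
    (∃ j, ∃ h : 0 < V.capR σ j, w = j + V.capR σ j ∧ z = V.u σ j ∧
      (σ = true → ∃ t, t + 1 = psz l n (V.u σ j) ∧ x' = (V.att hG).path' ⟨(σ, j), h⟩ t)) ∨
    (∃ h : 0 < V.capR σ w, z = flip (V.u σ w) ∧
      (σ = false → ∃ t, t + 1 = psz l n (V.u σ w) ∧ x' = (V.att hG).path' ⟨(σ, w), h⟩ t)) := by
  change (V.att hG).Adj _ _ _ at h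
  rw [(V.att hG).adj_iff] at h
  rcases h with ⟨a, a', ha, rfl, h⟩ | ⟨⟨⟨σ', j⟩, hp⟩, t, h1, h2, h3, h4, h5⟩ |
    ⟨⟨⟨σ', j⟩, hp⟩, t, h1, h2, h3, h4, h5⟩
  · rw [Sum.inl.injEq] at ha
    subst ha
    change V.Adj _ _ _ at h
    rw [adj_iff] at h
    rcases h with ⟨h1, rfl⟩ | ⟨j, h1, h2, rfl⟩ | ⟨k, h1, h2, -⟩
    · exact Or.inl ⟨h1, rfl⟩
    · exact Or.inr (Or.inl ⟨j, h1, h2, rfl⟩)
    · exact Or.inr (Or.inr (Or.inl ⟨k, h1, h2⟩))
  · -- forward: from `f r`
    have hh : 0 < V.capR σ' j := hp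
    have hP := V.isP_of_cap hh
    rcases (V.att hG).fwd_src h1 h2 with ⟨h6, h7⟩ | ⟨h6, h7⟩
    · rw [h7, Sum.inl.injEq] at h3
      change z = nxt^[t] (plt (V.u σ' j)) at h4
      rw [nxt_iter_plt] at h4
      cases σ'
      · change (σ, w) = (false, j + V.capR false j) at h3
        cases h3
        right; right; right; left
        refine ⟨j, hh, rfl, ?_, fun h => by cases h⟩
        rw [h4, V.plt_left hP]
      · change (σ, w) = (true, j + V.capR true j - V.capR true j) at h3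
        rw [Nat.add_sub_cancel] at h3
        cases h3
        right; right; right; right
        refine ⟨hh, ?_, fun h => by cases h⟩
        rw [h4, V.plt_right hP]
    · rw [h7] at h3
      cases h3
  · -- backward: from `f 0`
    have hh : 0 < V.capR σ' j := hp
    have hP := V.isP_of_cap hh
    rcases (V.att hG).bwd_src h1 h2 with ⟨h6, h7⟩ | ⟨h6, h7⟩
    · rw [h7, Sum.inl.injEq] at h3
      rw [V.fper_att hG] at h6
      change z = flip (nxt^[t] (plt (V.u σ' j))) at h4
      rw [nxt_iter_plt] at h4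
      cases σ'
      · change (σ, w) = (false, j + 0) at h3
        rw [Nat.add_zero] at h3
        cases h3
        right; right; right; right
        refine ⟨hh, ?_, fun _ => ⟨t, h6, h5⟩⟩
        rw [h4, V.plt_left hP]
      · change (σ, w) = (true, j + V.capR true j - 0) at h3
        rw [Nat.sub_zero] at h3
        cases h3
        right; right; right; left
        refine ⟨j, hh, rfl, ?_, fun _ => ⟨t, h6, h5⟩⟩
        rw [h4, V.plt_right hP, flip_flip]
    · rw [h7] at h3
      cases h3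

/-- The darts at a new vertex. -/
theorem cadj_inr (hG : V.Good) {p : V.Cap} {s : ℕ} {z : Letter} {x' : V.CX}
    (h : (V.csys hG).Adj (Sum.inr (p, s)) z x') : z.1 = (V.u p.1.1 p.1.2).1 := by
  change (V.att hG).Adj _ _ _ at h
  rw [(V.att hG).adj_iff] at h
  rcases h with ⟨a, a', ha, rfl, h⟩ | ⟨q, t, h1, h2, h3, h4, h5⟩ | ⟨q, t, h1, h2, h3, h4, h5⟩
  · cases ha
  · rcases (V.att hG).fwd_src h1 h2 with ⟨h6, h7⟩ | ⟨h6, h7⟩
    · rw [h7] at h3
      cases h3
    · rw [h7, Sum.inr.injEq, Prod.mk.injEq] at h3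
      rw [h3.1, h4]
      change (nxt^[t] (plt (V.u q.1.1 q.1.2))).1 = _
      rw [nxt_iter_plt]
      rfl
  · rcases (V.att hG).bwd_src h1 h2 with ⟨h6, h7⟩ | ⟨h6, h7⟩
    · rw [h7] at h3
      cases h3
    · rw [h7, Sum.inr.injEq, Prod.mk.injEq] at h3
      rw [h3.1, h4]
      change (flip (nxt^[t] (plt (V.u q.1.1 q.1.2)))).1 = _
      rw [nxt_iter_plt]
      rfl

/-! ### Going up along the left line -/

/-- Arrival at the vertex `i + 1` of the left line on the outer side, with the letter `y`. -/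
def ArrL (i : ℕ) (y : Letter) : Prop :=
  (¬ V.isP false i ∧ y = V.u false i) ∨
  (∃ j, 0 < V.capR false j ∧ i + 1 = j + V.capR false j ∧ y = flip (V.u false i))

/-- Arrival at the vertex `i` of the right line on the outer side, with the letter `y`. -/
def ArrR (i : ℕ) (y : Letter) : Prop :=
  (¬ V.isP true i ∧ y = flip (V.u true i)) ∨ (0 < V.capR true i ∧ y = V.u true i)

theorem isP_left {i : ℕ} : V.isP false i ↔ (V.u false i).2 = true := Iff.rfl

theorem isP_right {i : ℕ} : V.isP true i ↔ (V.u true i).2 = false := Iff.rfl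

theorem not_isP_left {i : ℕ} : ¬ V.isP false i ↔ (V.u false i).2 = false := by
  rw [isP_left, Bool.not_eq_true]

theorem not_isP_right {i : ℕ} : ¬ V.isP true i ↔ (V.u true i).2 = true := by
  rw [isP_right, Bool.not_eq_false]

theorem ArrL.neg {i : ℕ} {y : Letter} (hG : V.Good) (h : V.ArrL i y) : y.2 = false := by
  rcases h with ⟨h1, rfl⟩ | ⟨j, h1, h2, rfl⟩
  · exact V.not_isP_left.1 h1
  · have := (V.cap_top_spec hG h1 h2).1
    rw [isP_left] at this
    rw [flip_snd, this]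
    rfl

theorem ArrR.neg {i : ℕ} {y : Letter} (h : V.ArrR i y) : y.2 = false := by
  rcases h with ⟨h1, rfl⟩ | ⟨h1, rfl⟩
  · rw [flip_snd, V.not_isP_right.1 h1]
    rfl
  · exact V.isP_of_cap h1

theorem stepL (hG : V.Good) {i : ℕ} {y : Letter} {x' : V.CX} (hA : V.ArrL i y)
    (h : (V.csys hG).Adj (Sum.inl (false, i + 1)) (nxt y) x') :
    V.pass false i ∧
    ((¬ V.isP false (i + 1) ∧ nxt y = V.u false (i + 1) ∧ x' = Sum.inl (false, i + 2)) ∨
      (∃ h : 0 < V.capR false (i + 1), nxt y = flip (V.u false (i + 1)) ∧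
        ∃ t, t + 1 = psz l n (V.u false (i + 1)) ∧
          x' = (V.att hG).path' ⟨(false, i + 1), h⟩ t)) := by
  have hy := ArrL.neg V hG hA
  have hcov : V.isP false i → V.cov false i ∧ y = flip (V.u false i) ∧
      V.u false (i + 1) ≠ V.u false i := by
    intro hP
    rcases hA with ⟨h1, -⟩ | ⟨j, h1, h2, h3⟩
    · exact absurd hP h1
    · have := V.cap_top_spec hG h1 h2
      exact ⟨this.2.1, h3, this.2.2.2⟩
  have hy2 : ¬ V.isP false i → y = V.u false i := by
    intro hP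
    rcases hA with ⟨-, h1⟩ | ⟨j, h1, h2, h3⟩
    · exact h1
    · exact absurd (V.cap_top_spec hG h1 h2).1 hP
  have hd := V.cadj_inl hG h
  -- the darts which are not on the outer side
  have key : (nxt y = V.u false (i + 1) ∧ x' = Sum.inl (false, i + 1 + 1)) ∨
      (∃ k, V.pos false k = i + 1 ∧ nxt y = V.c k) ∨
      (∃ h : 0 < V.capR false (i + 1), nxt y = flip (V.u false (i + 1)) ∧
        ∃ t, t + 1 = psz l n (V.u false (i + 1)) ∧
          x' = (V.att hG).path' ⟨(false, i + 1), h⟩ t) := by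
    rcases hd with h1 | ⟨j, h1, h2, -⟩ | ⟨k, h1, h2⟩ | ⟨j, h1, h2, h3, -⟩ | ⟨h1, h2, h3⟩
    · exact Or.inl h1
    · exfalso
      obtain rfl : i = j := by omega
      by_cases hP : V.isP false i
      · have h3 := (hcov hP).2.1
        rw [← h3] at h2
        have h4 : ∀ y : Letter, y.2 = false → nxt y ≠ y := by decide
        exact h4 y hy h2
      · rw [← hy2 hP] at h2
        have h4 : ∀ y : Letter, nxt y ≠ flip y := by decide
        exact h4 y h2
    · exact Or.inr (Or.inl ⟨k, h1, h2⟩)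
    · exfalso
      have h4 := V.cap_top_spec hG h1 h2
      rw [h4.2.2.1, ← flip_flip (V.u false i), ← (hcov h4.1).2.1] at h3
      have h5 : ∀ y : Letter, nxt y ≠ flip y := by decide
      exact h5 y h3
    · exact Or.inr (Or.inr ⟨h1, h2, h3 rfl⟩)
  rcases V.vertex_cases hG.hP false i with ⟨c1, c2, c3, c4⟩ | ⟨c1, c2, k, c3, c4, c5, c6, c7⟩ |
    ⟨c1, c2, k, c3, c4, c5, c6, c7⟩ | ⟨c1, c2, c3, c4⟩ | ⟨c1, c2, c3, -⟩
  · -- type 1
    exfalso
    rcases key with ⟨h1, -⟩ | ⟨k, h1, -⟩ | ⟨h1, -⟩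
    · rw [c3, ← hy2 c1] at h1
      have h4 : ∀ y : Letter, y.2 = false → nxt y ≠ y := by decide
      exact h4 y hy h1
    · exact c4 k h1
    · exact c2 (V.isP_of_cap h1)
  · -- type 2
    rcases key with ⟨h1, -⟩ | ⟨k', h1, h2⟩ | ⟨h1, h2⟩
    · exfalso
      have h3 := V.isP_left.1 c2
      rw [← h1, nxt_snd, hy] at h3
      cases h3
    · exfalso
      rw [c5 k' h1] at h2
      simp only [Bool.false_eq_true, if_false] at c6
      rw [← c6, ← hy2 c1] at h2
      have h4 : ∀ y : Letter, y.2 = false → nxt y ≠ y := by decide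
      exact h4 y hy h2
    · exact ⟨Or.inl ⟨c1, c2, Or.inl h1⟩, Or.inr ⟨h1, h2⟩⟩
  · -- type 3
    rcases key with ⟨h1, h2⟩ | ⟨k', h1, h2⟩ | ⟨h1, h2⟩
    · exact ⟨Or.inr (Or.inl ⟨c1, c2, (hcov c1).1⟩), Or.inl ⟨c2, h1, h2⟩⟩
    · exfalso
      rw [c5 k' h1] at h2
      rw [← h2, nxt_snd, hy] at c4
      cases c4
    · exact absurd (V.isP_of_cap h1) c2
  · -- type 4
    rcases key with ⟨h1, -⟩ | ⟨k', h1, h2⟩ | ⟨h1, h2⟩
    · exfalso
      have h3 := V.isP_left.1 c2
      rw [← h1, nxt_snd, hy] at h3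
      cases h3
    · exact absurd h1 (c4 k')
    · exact ⟨Or.inr (Or.inr ⟨c1, c2, (hcov c1).2.2, (hcov c1).1, Or.inl h1⟩),
        Or.inr ⟨h1, h2⟩⟩
  · exact absurd c3 (hcov c1).2.2

theorem stepR (hG : V.Good) {i : ℕ} {y : Letter} {x' : V.CX} (hA : V.ArrR (i + 1) y)
    (h : (V.csys hG).Adj (Sum.inl (true, i + 1)) (nxt y) x') :
    V.pass true i ∧
    ((¬ V.isP true i ∧ nxt y = flip (V.u true i) ∧ x' = Sum.inl (true, i)) ∨
      (∃ j, ∃ h : 0 < V.capR true j, i + 1 = j + V.capR true j ∧ nxt y = V.u true j ∧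
        ∃ t, t + 1 = psz l n (V.u true j) ∧ x' = (V.att hG).path' ⟨(true, j), h⟩ t)) := by
  have hy := ArrR.neg V hA
  have hcov : V.isP true (i + 1) → 0 < V.capR true (i + 1) ∧ y = V.u true (i + 1) ∧
      V.u true (i + 1) ≠ V.u true i := by
    intro hP
    rcases hA with ⟨h1, -⟩ | ⟨h1, h2⟩
    · exact absurd hP h1
    · exact ⟨h1, h2, (V.cap_bot_spec hG h1).2.2⟩
  have hy2 : ¬ V.isP true (i + 1) → y = flip (V.u true (i + 1)) := by
    intro hP
    rcases hA with ⟨-, h1⟩ | ⟨h1, -⟩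
    · exact h1
    · exact absurd (V.isP_of_cap h1) hP
  have hd := V.cadj_inl hG h
  have key : (nxt y = flip (V.u true i) ∧ x' = Sum.inl (true, i)) ∨
      (∃ k, V.pos true k = i + 1 ∧ nxt y = flip (V.c k)) ∨
      (∃ j, ∃ h : 0 < V.capR true j, i + 1 = j + V.capR true j ∧ nxt y = V.u true j ∧
        ∃ t, t + 1 = psz l n (V.u true j) ∧ x' = (V.att hG).path' ⟨(true, j), h⟩ t) := by
    rcases hd with ⟨h1, -⟩ | ⟨j, h1, h2, h3⟩ | ⟨k, h1, h2⟩ | ⟨j, h1, h2, h3, h4⟩ | ⟨h1, h2, -⟩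
    · exfalso
      by_cases hP : V.isP true (i + 1)
      · rw [← (hcov hP).2.1] at h1
        have h4 : ∀ y : Letter, y.2 = false → nxt y ≠ y := by decide
        exact h4 y hy h1
      · rw [← flip_flip (V.u true (i + 1)), ← hy2 hP] at h1
        have h4 : ∀ y : Letter, nxt y ≠ flip y := by decide
        exact h4 y h1
    · obtain rfl : i = j := by omega
      exact Or.inl ⟨h2, h3⟩
    · exact Or.inr (Or.inl ⟨k, h1, h2⟩)
    · exact Or.inr (Or.inr ⟨j, h1, h2, h3, h4 rfl⟩)
    · exfalso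
      have h3 := V.isP_of_cap h1
      rw [← (hcov h3).2.1] at h2
      have h4 : ∀ y : Letter, nxt y ≠ flip y := by decide
      exact h4 y h2
  rcases V.vertex_cases hG.hP true i with ⟨c1, c2, c3, c4⟩ | ⟨c1, c2, k, c3, c4, c5, c6, c7⟩ |
    ⟨c1, c2, k, c3, c4, c5, c6, c7⟩ | ⟨c1, c2, c3, c4⟩ | ⟨c1, c2, c3, -⟩
  · -- type 1
    exfalso
    rcases key with ⟨h1, -⟩ | ⟨k, h1, -⟩ | ⟨j, h1, h2, -⟩
    · rw [← c3, ← hy2 c2] at h1
      have h4 : ∀ y : Letter, y.2 = false → nxt y ≠ y := by decide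
      exact h4 y hy h1
    · exact c4 k h1
    · exact c1 (V.cap_top_spec hG h1 h2).1
  · -- type 2
    rcases key with ⟨h1, h2⟩ | ⟨k', h1, h2⟩ | ⟨j, h1, h2, -⟩
    · exact ⟨Or.inl ⟨c1, c2, Or.inl (hcov c2).1⟩, Or.inl ⟨c1, h1, h2⟩⟩
    · exfalso
      rw [c5 k' h1] at h2
      have h3 := congrArg Prod.snd h2
      rw [nxt_snd, hy, flip_snd, c4] at h3
      cases h3
    · exact absurd (V.cap_top_spec hG h1 h2).1 c1
  · -- type 3
    rcases key with ⟨h1, -⟩ | ⟨k', h1, h2⟩ | ⟨j, h1, h2, h3⟩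
    · exfalso
      have h3 := congrArg Prod.snd h1
      rw [nxt_snd, hy, flip_snd, V.isP_right.1 c1] at h3
      cases h3
    · exfalso
      rw [c5 k' h1] at h2
      simp only [if_true] at c7
      rw [← c7, ← hy2 c2] at h2
      have h4 : ∀ y : Letter, y.2 = false → nxt y ≠ y := by decide
      exact h4 y hy h2
    · exact ⟨Or.inr (Or.inl ⟨c1, c2, (V.cap_top_spec hG h1 h2).2.1⟩), Or.inr ⟨j, h1, h2, h3⟩⟩
  · -- type 4
    rcases key with ⟨h1, -⟩ | ⟨k', h1, h2⟩ | ⟨j, h1, h2, h3⟩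
    · exfalso
      have h3 := congrArg Prod.snd h1
      rw [nxt_snd, hy, flip_snd, V.isP_right.1 c1] at h3
      cases h3
    · exact absurd h1 (c4 k')
    · exact ⟨Or.inr (Or.inr ⟨c1, c2, (hcov c2).2.2, (V.cap_top_spec hG h1 h2).2.1,
        Or.inl (hcov c2).1⟩), Or.inr ⟨j, h1, h2, h3⟩⟩
  · exact absurd c3 (hcov c2).2.2

/-- The lowest vertex of the right line. -/
theorem stepR_zero (hG : V.Good) (hb : ∀ σ, V.len 0 σ = 0 → V.capR σ 0 = 0) {y : Letter}
    {x' : V.CX} (hA : V.ArrR 0 y) : ¬ (V.csys hG).Adj (Sum.inl (true, 0)) (nxt y) x' := by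
  intro h
  have hy := ArrR.neg V hA
  have h4 : ∀ y : Letter, y.2 = false → nxt y ≠ y := by decide
  have h4' : ∀ y : Letter, nxt y ≠ flip y := by decide
  have hd := V.cadj_inl hG h
  rcases hd with ⟨h1, -⟩ | ⟨j, h1, h2, h3⟩ | ⟨k, h1, h2⟩ | ⟨j, h1, h2, h3⟩ | ⟨h1, h2, -⟩
  · rcases hA with ⟨-, h5⟩ | ⟨-, h5⟩
    · rw [← flip_flip (V.u true 0), ← h5] at h1
      exact h4' y h1
    · rw [← h5] at h1
      exact h4 y hy h1
  · omega
  · rcases V.bottom_cases hG.hP true with ⟨b1, b2, b3⟩ | ⟨b1, b2, b3, b4, b5⟩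
    · have := b3 k h1
      subst this
      simp only [if_true] at b2
      change nxt y = flip (V.c 0) at h2
      have h6 : ∀ y c u : Letter, u = nxt c → nxt y = flip c → (u.2 = true → y = flip u) →
          (u.2 = false → y = u) → y.2 = false → False := by decide
      refine h6 y (V.c 0) (V.u true 0) b2 h2 (fun h7 => ?_) (fun h7 => ?_) hy
      · rcases hA with ⟨-, h5⟩ | ⟨h5, -⟩
        · exact h5
        · have := V.isP_right.1 (V.isP_of_cap h5)
          rw [h7] at this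
          cases this
      · rcases hA with ⟨h5, -⟩ | ⟨-, h5⟩
        · exact absurd (V.isP_right.2 h7) h5
        · exact h5
    · have h6 := hb true b1
      rcases hA with ⟨h7, -⟩ | ⟨h7, -⟩
      · apply h7
        rw [isP_right, b4]
        simp only [if_true]
        rw [flip_snd]
        change (!(V.c 0).2) = false
        rw [b2]
        rfl
      · omega
  · omega
  · have := V.isP_of_cap h1
    rcases hA with ⟨h5, -⟩ | ⟨-, h5⟩
    · exact h5 this
    · rw [← h5] at h2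
      exact h4' y h2

/-! ### Runs along a `2m`-gon -/

/-- The last new vertex of a cap: the end of the cap if there is one new edge only. -/
theorem path'_two (hG : V.Good) {σ : Bool} {j t : ℕ} (h : 0 < V.capR σ j)
    (ht : t + 1 = psz l n (V.u σ j)) :
    (V.capR σ j = 1 ∧ psz l n (V.u σ j) = 2 ∧
      (V.att hG).path' ⟨(σ, j), h⟩ t = Sum.inl (σ, if σ then j else j + 1)) ∨
    (V.att hG).path' ⟨(σ, j), h⟩ t = Sum.inr (⟨(σ, j), h⟩, t) := by
  have h2 := V.two_mul_capR_le hG h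
  by_cases h3 : t ≤ V.capR σ j
  · left
    have h4 : V.capR σ j = 1 := by omega
    have h5 : t = 1 := by omega
    refine ⟨h4, by omega, ?_⟩
    rw [(V.att hG).path'_old (i := ⟨(σ, j), h⟩) (t := t) h3]
    cases σ
    · change Sum.inl (false, j + t) = Sum.inl (false, j + 1)
      rw [h5]
    · change Sum.inl (true, j + V.capR true j - t) = Sum.inl (true, j)
      rw [h4, h5, Nat.add_sub_cancel]
  · right
    refine (V.att hG).path'_new (i := ⟨(σ, j), h⟩) (t := t) (not_le.1 h3) ?_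
    rw [V.fper_att hG]
    change t < psz l n (V.u σ j)
    omega

/-- A run along a `2m`-gon stops at the new vertices. -/
theorem run_inr (hG : V.Good) {p : V.Cap} {s N : ℕ} {y : Letter} {e : V.CX}
    (hy : y.2 = false) (hp : y.1 = (V.u p.1.1 p.1.2).1)
    (h : run (V.csys hG).mv (Sum.inr (p, s)) (fw (nxt y) N) = some e) : N = 0 := by
  cases N with
  | zero => rfl
  | succ N =>
    exfalso
    rw [fw, (V.csys hG).run_cons_iff] at h
    obtain ⟨x', h1, -⟩ := h
    have h2 := V.cadj_inr hG h1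
    rw [← hp] at h2
    have h3 : ∀ y : Letter, y.2 = false → (nxt y).1 ≠ y.1 := by decide
    exact h3 y hy h2

theorem runL (hG : V.Good) {e : V.CX} : ∀ (N i : ℕ) (y : Letter), V.ArrL i y →
    run (V.csys hG).mv (Sum.inl (false, i + 1)) (fw (nxt y) N) = some e →
    (∀ t < N, V.pass false (i + t)) ∧ (∀ t, 1 ≤ t → t < N → V.single false (i + t)) := by
  intro N
  induction N with
  | zero =>
    intro i y _ _
    exact ⟨fun t ht => by omega, fun t _ ht => by omega⟩
  | succ N ih =>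
    intro i y hA h
    rw [fw, (V.csys hG).run_cons_iff] at h
    obtain ⟨x', h1, h2⟩ := h
    obtain ⟨hp, hs⟩ := V.stepL hG hA h1
    -- the next arrival
    have key : (N = 0) ∨ (x' = Sum.inl (false, i + 1 + 1) ∧ V.ArrL (i + 1) (nxt y) ∧
        V.single false (i + 1)) := by
      rcases hs with ⟨h3, h4, h5⟩ | ⟨h3, h4, t, h5, h6⟩
      · exact Or.inr ⟨h5, Or.inl ⟨h3, h4⟩, Or.inl h3⟩
      · rcases V.path'_two hG h3 h5 with ⟨h7, h8, h9⟩ | h7
        · right
          rw [h9] at h6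
          exact ⟨h6, Or.inr ⟨i + 1, h3, by rw [h7], h4⟩, Or.inr h8⟩
        · left
          rw [h7] at h6
          subst h6
          refine V.run_inr hG ?_ ?_ h2
          · rw [nxt_snd]
            exact ArrL.neg V hG hA
          · rw [h4]
            rfl
    rcases key with rfl | ⟨rfl, h4, h5⟩
    · refine ⟨fun t ht => ?_, fun t _ ht => by omega⟩
      obtain rfl : t = 0 := by omega
      exact hp
    · obtain ⟨h6, h7⟩ := ih (i + 1) (nxt y) h4 h2
      constructor
      · intro t ht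
        cases t with
        | zero => exact hp
        | succ t =>
          have := h6 t (by omega)
          rwa [Nat.add_right_comm, Nat.add_assoc] at this
      · intro t ht1 ht
        cases t with
        | zero => omega
        | succ t =>
          rcases Nat.eq_zero_or_pos t with rfl | ht0
          · exact h5
          · have := h7 t ht0 (by omega)
            rwa [Nat.add_right_comm, Nat.add_assoc] at this

theorem runR (hG : V.Good) (hb : ∀ σ, V.len 0 σ = 0 → V.capR σ 0 = 0) {e : V.CX} :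
    ∀ (N i : ℕ) (y : Letter), V.ArrR i y →
    run (V.csys hG).mv (Sum.inl (true, i)) (fw (nxt y) N) = some e →
    N ≤ i ∧ (∀ t < N, V.pass true (i - N + t)) ∧
      (∀ t, 1 ≤ t → t < N → V.single true (i - N + t)) := by
  intro N
  induction N with
  | zero =>
    intro i y _ _
    exact ⟨Nat.zero_le _, fun t ht => by omega, fun t _ ht => by omega⟩
  | succ N ih =>
    intro i y hA h
    rw [fw, (V.csys hG).run_cons_iff] at h
    obtain ⟨x', h1, h2⟩ := h
    cases i with
    | zero => exact absurd h1 (V.stepR_zero hG hb hA)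
    | succ i =>
      obtain ⟨hp, hs⟩ := V.stepR hG hA h1
      have key : (N = 0) ∨ (x' = Sum.inl (true, i) ∧ V.ArrR i (nxt y) ∧
          V.single true i) := by
        rcases hs with ⟨h3, h4, h5⟩ | ⟨j, h3, h4, h5, t, h6, h7⟩
        · exact Or.inr ⟨h5, Or.inl ⟨h3, h4⟩, Or.inl h3⟩
        · rcases V.path'_two hG h3 h6 with ⟨h8, h9, h10⟩ | h8
          · right
            obtain rfl : j = i := by omega
            rw [h10] at h7
            exact ⟨h7, Or.inr ⟨h3, h5⟩, Or.inr h9⟩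
          · left
            rw [h8] at h7
            subst h7
            refine V.run_inr hG ?_ ?_ h2
            · rw [nxt_snd]
              exact ArrR.neg V hA
            · rw [h5]
      rcases key with rfl | ⟨rfl, h4, h5⟩
      · refine ⟨by omega, fun t ht => ?_, fun t _ ht => by omega⟩
        obtain rfl : t = 0 := by omega
        exact hp
      · obtain ⟨h6, h7, h8⟩ := ih i (nxt y) h4 h2
        have e1 : i + 1 - (N + 1) = i - N := by omega
        rw [e1]
        refine ⟨by omega, ?_, ?_⟩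
        · intro t ht
          rcases Nat.lt_or_ge t N with h9 | h9
          · exact h7 t h9
          · rw [show i - N + t = i by omega]
            exact hp
        · intro t ht1 ht
          rcases Nat.lt_or_ge t N with h9 | h9
          · exact h8 t ht1 h9
          · rw [show i - N + t = i by omega]
            exact h5

theorem fhalf_neg {y : Letter} (h : y.2 = false) : fhalf l m n y = m := by
  obtain ⟨i, b⟩ := y
  simp only at h
  subst h
  fin_cases i <;> simp [fhalf, fper]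

theorem fhalf_pos {y : Letter} (h : y.2 = true) : fhalf l m n y = psz l n y / 2 := by
  obtain ⟨i, b⟩ := y
  simp only at h
  subst h
  fin_cases i <;> rfl

theorem none_of_ne {α : Type*} {o : Option α} (h : ∀ e, o ≠ some e) : o = none := by
  cases o with
  | none => rfl
  | some e => exact absurd rfl (h e)

/-- A `2m`-gon on the outer side of the left line. -/
theorem shortL (hT : V.Tame) {x : V.CX} {y : Letter} {i : ℕ}
    (h : (V.csys hT.toGood).Adj x y (Sum.inl (false, i + 1))) (hA : V.ArrL i y) :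
    run (V.csys hT.toGood).mv x (fw y (fhalf l m n y)) = none := by
  refine none_of_ne fun e he => ?_
  have hm := hT.hm
  have hf := fhalf_neg (l := l) (m := m) (n := n) (ArrL.neg V hT.toGood hA)
  obtain ⟨N, hN⟩ : ∃ N, fhalf l m n y = N + 1 := ⟨m - 1, by omega⟩
  rw [hN, fw, (V.csys hT.toGood).run_cons_iff] at he
  obtain ⟨x', h1, h2⟩ := he
  rw [(V.csys hT.toGood).det h1 h] at h2
  obtain ⟨h3, h4⟩ := V.runL hT.toGood _ _ _ hA h2
  exact hT.short false i ⟨fun t ht => h3 t (by omega), fun t h5 h6 => h4 t h5 (by omega)⟩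

theorem shortR (hT : V.Tame) {x : V.CX} {y : Letter} {i : ℕ}
    (h : (V.csys hT.toGood).Adj x y (Sum.inl (true, i))) (hA : V.ArrR i y) :
    run (V.csys hT.toGood).mv x (fw y (fhalf l m n y)) = none := by
  refine none_of_ne fun e he => ?_
  have hm := hT.hm
  have hf := fhalf_neg (l := l) (m := m) (n := n) (ArrR.neg V hA)
  obtain ⟨N, hN⟩ : ∃ N, fhalf l m n y = N + 1 := ⟨m - 1, by omega⟩
  rw [hN, fw, (V.csys hT.toGood).run_cons_iff] at he
  obtain ⟨x', h1, h2⟩ := he
  rw [(V.csys hT.toGood).det h1 h] at h2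
  obtain ⟨-, h3, h4⟩ := V.runR hT.toGood hT.bot _ _ _ hA h2
  exact hT.short true (i - N) ⟨fun t ht => h3 t (by omega), fun t h5 h6 => h4 t h5 (by omega)⟩

/-! ### The `a`- and `b`-faces -/

/-- Continuing along a positive face on the outer side of the left line. -/
theorem stepLA (hG : V.Good) {i : ℕ} {x' : V.CX} (hP : V.isP false i)
    (hc : ∀ j, 0 < V.capR false j → i + 1 ≠ j + V.capR false j)
    (h : (V.csys hG).Adj (Sum.inl (false, i + 1)) (V.u false i) x') :
    V.u false (i + 1) = V.u false i ∧ x' = Sum.inl (false, i + 2) := by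
  have hy := V.isP_left.1 hP
  rcases V.cadj_inl hG h with ⟨h1, h2⟩ | ⟨j, h1, h2, -⟩ | ⟨k, h1, h2⟩ | ⟨j, h1, h2, -⟩ |
    ⟨h1, h2, -⟩
  · exact ⟨h1.symm, h2⟩
  · exfalso
    obtain rfl : i = j := by omega
    have h4 : ∀ y : Letter, y ≠ flip y := by decide
    exact h4 _ h2
  · exact absurd h2 (V.rung_high hP h1)
  · exact absurd h2 (hc j h1)
  · exfalso
    have h3 := congrArg Prod.snd h2
    rw [flip_snd, hy, V.isP_left.1 (V.isP_of_cap h1)] at h3
    cases h3

theorem stepRA (hG : V.Good) {i : ℕ} {x' : V.CX} (hP : V.isP true i) (hc : V.capR true i = 0)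
    (h : (V.csys hG).Adj (Sum.inl (true, i)) (flip (V.u true i)) x') :
    ∃ j, i = j + 1 ∧ V.u true j = V.u true i ∧ x' = Sum.inl (true, j) := by
  have hy := V.isP_right.1 hP
  rcases V.cadj_inl hG h with ⟨h1, h2⟩ | ⟨j, h1, h2, h3⟩ | ⟨k, h1, h2⟩ | ⟨j, h1, h2, h3, -⟩ |
    ⟨h1, h2, -⟩
  · exfalso
    have h4 : ∀ y : Letter, flip y ≠ y := by decide
    exact h4 _ h1
  · exact ⟨j, h1, (flip_inj h2).symm, h3⟩
  · exact absurd h2 (V.rung_low hP h1)
  · exfalso
    have h4 := congrArg Prod.snd h3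
    rw [flip_snd, hy, V.isP_right.1 (V.isP_of_cap h1)] at h4
    cases h4
  · omega

theorem psz_of_capR_zero {σ : Bool} {i : ℕ} (hP : V.isP σ i) (h : V.capR σ i = 0) :
    4 ≤ psz l n (V.u σ i) ∧
      (V.u σ (i + 1) = V.u σ i → 6 ≤ psz l n (V.u σ i)) := by
  unfold capR at h
  split_ifs at h with h1 h2
  constructor
  · by_contra hcon
    exact h1 ⟨hP, by omega⟩
  · intro hu
    by_contra hcon
    exact h2 ⟨hP, hu, by omega⟩

theorem capR_of_psz {σ : Bool} {i : ℕ} (h : 6 ≤ psz l n (V.u σ i)) : V.capR σ i = 0 := by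
  by_contra hcon
  rcases V.capR_cases (Nat.pos_of_ne_zero hcon) with h1 | h1
  · omega
  · omega

theorem run_pos_step (hG : V.Good) {y : Letter} (hy : y.2 = true) {x x1 e : V.CX} {N : ℕ}
    (hN : 1 ≤ N) (hr : run (V.csys hG).mv x (fw y N) = some e)
    (h : (V.csys hG).Adj x y x1) : run (V.csys hG).mv x1 (fw y (N - 1)) = some e := by
  obtain ⟨N, rfl⟩ : ∃ N', N = N' + 1 := ⟨N - 1, by omega⟩
  rw [fw, (V.csys hG).run_cons_iff, DSys.nxt_pos hy] at hr
  obtain ⟨x', h1, h2⟩ := hr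
  rw [(V.csys hG).det h1 h] at h2
  exact h2

theorem run_pos_next (hG : V.Good) {y : Letter} {x e : V.CX} {N : ℕ}
    (hN : 1 ≤ N) (hr : run (V.csys hG).mv x (fw y N) = some e) :
    ∃ x', (V.csys hG).Adj x y x' := by
  obtain ⟨N, rfl⟩ : ∃ N', N = N' + 1 := ⟨N - 1, by omega⟩
  rw [fw, (V.csys hG).run_cons_iff] at hr
  obtain ⟨x', h1, -⟩ := hr
  exact ⟨x', h1⟩

theorem shortLA (hT : V.Tame) {i : ℕ} (hP : V.isP false i) (hc : ¬ V.cov false i) :
    run (V.csys hT.toGood).mv (Sum.inl (false, i))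
      (fw (V.u false i) (fhalf l m n (V.u false i))) = none := by
  have hG := hT.toGood
  have hy : (V.u false i).2 = true := V.isP_left.1 hP
  refine none_of_ne fun e he => ?_
  rw [fhalf_pos hy] at he
  have hc0 : V.capR false i = 0 := by
    by_contra h
    exact hc (Or.inl (Nat.pos_of_ne_zero h))
  obtain ⟨hs4, hs6⟩ := V.psz_of_capR_zero hP hc0
  have up : ∀ i, (V.csys hG).Adj (Sum.inl (false, i)) (V.u false i) (Sum.inl (false, i + 1)) :=
    fun i => Att.Adj.old (Adj.up false i)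
  -- the second edge
  have r1 := V.run_pos_step hG hy (by omega) he (up i)
  obtain ⟨x2, h2⟩ := V.run_pos_next hG (by omega) r1
  have t1 : ∀ j, 0 < V.capR false j → i + 1 ≠ j + V.capR false j := by
    intro j hj hji
    rcases V.capR_cases hj with ⟨h1, -⟩ | ⟨h1, -⟩
    · obtain rfl : j = i := by omega
      omega
    · exact hc (Or.inr ⟨j, by omega, h1⟩)
  obtain ⟨e1, rfl⟩ := V.stepLA hG hP t1 h2
  have h6 := hs6 e1
  have hP1 : V.isP false (i + 1) := V.isP_congr e1 hP
  have hc1 : V.capR false (i + 1) = 0 := V.capR_of_psz (by rw [e1]; exact h6)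
  have r2 := V.run_pos_step hG hy (by omega) r1 h2
  obtain ⟨x3, h3⟩ := V.run_pos_next hG (by omega) r2
  rw [← e1] at h3
  have t2 : ∀ j, 0 < V.capR false j → i + 1 + 1 ≠ j + V.capR false j := by
    intro j hj hji
    rcases V.capR_cases hj with ⟨h1, -⟩ | ⟨h1, -⟩
    · obtain rfl : j = i + 1 := by omega
      omega
    · obtain rfl : j = i := by omega
      omega
  obtain ⟨e2, rfl⟩ := V.stepLA hG hP1 t2 h3
  rw [e1] at e2 h3
  have h8 : 8 ≤ psz l n (V.u false i) := by
    by_contra hcon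
    exact hG.g2 false i hP (by omega) e1 e2
  have hP2 : V.isP false (i + 2) := V.isP_congr e2 hP
  have hc2 : V.capR false (i + 2) = 0 := V.capR_of_psz (by rw [e2]; exact h6)
  have r3 := V.run_pos_step hG hy (by omega) r2 h3
  obtain ⟨x4, h4⟩ := V.run_pos_next hG (by omega) r3
  rw [← e2] at h4
  have t3 : ∀ j, 0 < V.capR false j → i + 2 + 1 ≠ j + V.capR false j := by
    intro j hj hji
    rcases V.capR_cases hj with ⟨h1, -⟩ | ⟨h1, -⟩
    · obtain rfl : j = i + 2 := by omega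
      omega
    · obtain rfl : j = i + 1 := by omega
      omega
  obtain ⟨e3, rfl⟩ := V.stepLA hG hP2 t3 h4
  exact hT.four false i hP e1 e2 (e3.trans e2)

theorem shortRA (hT : V.Tame) {i : ℕ} (hP : V.isP true i) (hc : ¬ V.cov true i) :
    run (V.csys hT.toGood).mv (Sum.inl (true, i + 1))
      (fw (flip (V.u true i)) (fhalf l m n (flip (V.u true i)))) = none := by
  have hG := hT.toGood
  have hy : (flip (V.u true i)).2 = true := by
    rw [flip_snd, V.isP_right.1 hP]
    rfl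
  refine none_of_ne fun e he => ?_
  rw [fhalf_pos hy] at he
  change run _ _ (fw _ (psz l n (V.u true i) / 2)) = _ at he
  have hc0 : V.capR true i = 0 := by
    by_contra h
    exact hc (Or.inl (Nat.pos_of_ne_zero h))
  have hs4 := (V.psz_of_capR_zero hP hc0).1
  have down : ∀ i, (V.csys hG).Adj (Sum.inl (true, i + 1)) (flip (V.u true i))
      (Sum.inl (true, i)) := fun i => Att.Adj.old (Adj.down true i)
  have r1 := V.run_pos_step hG hy (by omega) he (down i)
  obtain ⟨x2, h2⟩ := V.run_pos_next hG (by omega) r1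
  obtain ⟨j, rfl, e1, rfl⟩ := V.stepRA hG hP hc0 h2
  have hP1 : V.isP true j := V.isP_congr e1 hP
  have hc1 : V.capR true j = 0 := by
    by_contra h
    rcases V.capR_cases (Nat.pos_of_ne_zero h) with ⟨h5, -, h6⟩ | ⟨h5, -⟩
    · rw [e1] at h6
      omega
    · exact hc (Or.inr ⟨j, rfl, h5⟩)
  have h6 := (V.psz_of_capR_zero hP1 hc1).2 e1.symm
  rw [e1] at h6
  have r2 := V.run_pos_step hG hy (by omega) r1 h2
  obtain ⟨x3, h3⟩ := V.run_pos_next hG (by omega) r2
  rw [← e1] at h3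
  obtain ⟨j, rfl, e2, rfl⟩ := V.stepRA hG hP1 hc1 h3
  have hP2 : V.isP true j := V.isP_congr e2 hP1
  have hc2 : V.capR true j = 0 := V.capR_of_psz (by rw [e2, e1]; exact h6)
  have h8 : 8 ≤ psz l n (V.u true (j + 1 + 1)) := by
    by_contra hcon
    refine hG.g2 true j hP2 ?_ e2.symm ?_
    · rw [e2, e1]
      omega
    · rw [e2, e1]
  rw [e1] at h3
  have r3 := V.run_pos_step hG hy (by omega) r2 h3
  obtain ⟨x4, h4⟩ := V.run_pos_next hG (by omega) r3
  rw [← e1, ← e2] at h4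
  obtain ⟨j, rfl, e3, rfl⟩ := V.stepRA hG hP2 hc2 h4
  have hP3 : V.isP true j := V.isP_congr e3 hP2
  exact hT.four true j hP3 e3.symm (by rw [e3, e2]) (by rw [e3, e2, e1])

/-- The lowest vertex of the left line, coming from the rung `0`. -/
theorem step_bot (hT : V.Tame) {x' : V.CX} :
    ¬ (V.csys hT.toGood).Adj (Sum.inl (false, 0)) (nxt (flip (V.c 0))) x' := by
  intro h
  have hd := V.cadj_inl hT.toGood h
  rcases V.bottom_cases hT.hP false with ⟨b1, b2, b3⟩ | ⟨b1, b2, b3, b4, b5⟩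
  · simp only [Bool.false_eq_true, if_false] at b2
    have hc : ∀ c u : Letter, u = flip (nxt c) → nxt (flip c) ≠ u ∨ c.2 = false := by decide
    rcases hd with ⟨h1, -⟩ | ⟨j, h1, h2, h3⟩ | ⟨k, h1, h2⟩ | ⟨j, h1, h2, h3⟩ | ⟨h1, h2, -⟩
    · have h6 : ∀ c : Letter, nxt (flip c) ≠ flip (nxt c) := by decide
      exact h6 _ (h1.trans b2)
    · omega
    · have := b3 k h1
      subst this
      have h6 : ∀ c : Letter, nxt (flip c) ≠ c := by decide
      exact h6 _ h2
    · omega
    · have h3 := V.isP_left.1 (V.isP_of_cap h1)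
      rw [b2] at h2 h3
      have h6 : ∀ c : Letter, (flip (nxt c)).2 = true → nxt (flip c) ≠ flip (flip (nxt c)) := by
        decide
      exact h6 _ h3 h2
  · simp only [Bool.false_eq_true, if_false] at b4
    rcases hd with ⟨h1, -⟩ | ⟨j, h1, h2, h3⟩ | ⟨k, h1, h2⟩ | ⟨j, h1, h2, h3⟩ | ⟨h1, h2, -⟩
    · have h6 : ∀ c : Letter, nxt (flip c) ≠ oth c := by decide
      exact h6 _ (h1.trans b4)
    · omega
    · rcases b5 k h1 with rfl | rfl
      · have h6 : ∀ c : Letter, nxt (flip c) ≠ c := by decide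
        exact h6 _ h2
      · have h6 : ∀ c : Letter, c.2 = true → nxt (flip c) ≠ flip c := by decide
        exact h6 _ b2 (h2.trans b3)
    · omega
    · have := hT.bot false b1
      omega

/-! ### Covered edges -/

theorem inner_covL (hG : V.Good) {i : ℕ} (hc : V.cov false i) :
    (V.csys hG).Inner l m n (Sum.inl (false, i)) (V.u false i) := by
  rcases hc with h | ⟨j, rfl, h⟩
  · refine ⟨(V.att hG).y ⟨(false, i), h⟩, (V.att hG).path' ⟨(false, i), h⟩, 0,
      (V.att hG).face _, ?_, ?_, ?_⟩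
    · exact lt_of_lt_of_le ((V.att hG).r_pos _) ((V.att hG).r_lt _).le
    · rw [(V.att hG).path'_old (Nat.zero_le _)]
      rfl
    · exact (V.plt_left (V.isP_of_cap h)).symm
  · have h0 : 0 < V.capR false j := by omega
    have hu := V.u_top h0 (t := 1) (by omega)
    refine ⟨(V.att hG).y ⟨(false, j), h0⟩, (V.att hG).path' ⟨(false, j), h0⟩, 1,
      (V.att hG).face _, ?_, ?_, ?_⟩
    · have h1 := (V.att hG).r_lt ⟨(false, j), h0⟩
      change V.capR false j < _ at h1
      omega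
    · rw [(V.att hG).path'_old (i := ⟨(false, j), h0⟩) (t := 1)
        (show 1 ≤ V.capR false j by omega)]
      rfl
    · rw [hu]
      change _ = nxt^[1] (plt (V.u false j))
      rw [nxt_iter_plt]
      exact (V.plt_left (V.isP_of_cap h0)).symm

theorem inner_covR (hG : V.Good) {i : ℕ} (hc : V.cov true i) :
    (V.csys hG).Inner l m n (Sum.inl (true, i + 1)) (flip (V.u true i)) := by
  -- the cap `j` and the position of the edge
  have key : ∃ j, ∃ h : 0 < V.capR true j, ∃ t, t < V.capR true j ∧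
      j + V.capR true j - t = i + 1 ∧ V.u true i = V.u true j := by
    rcases hc with h | ⟨j, rfl, h⟩
    · refine ⟨i, h, V.capR true i - 1, by omega, by omega, rfl⟩
    · have h0 : 0 < V.capR true j := by omega
      exact ⟨j, h0, 0, h0, by omega, V.u_top h0 (t := 1) (by omega)⟩
  obtain ⟨j, h, t, ht, hjt, hu⟩ := key
  refine ⟨(V.att hG).y ⟨(true, j), h⟩, (V.att hG).path' ⟨(true, j), h⟩, t,
      (V.att hG).face _, ?_, ?_, ?_⟩
  · have h1 := (V.att hG).r_lt ⟨(true, j), h⟩
    change V.capR true j < _ at h1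
    omega
  · rw [(V.att hG).path'_old (i := ⟨(true, j), h⟩) (t := t) (show t ≤ V.capR true j by omega)]
    change Sum.inl (true, i + 1) = Sum.inl (true, j + V.capR true j - t)
    rw [hjt]
  · rw [hu]
    change _ = nxt^[t] (plt (V.u true j))
    rw [nxt_iter_plt]
    exact (V.plt_right (V.isP_of_cap h)).symm

theorem Tame.closed (hT : V.Tame) : (V.csys hT.toGood).Closed l m n := by
  have hG := hT.toGood
  have hm := hT.hm
  intro x y x' h
  have h' : (V.att hG).Adj x y x' := h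
  cases h' with
  | old h1 =>
    cases h1 with
    | up σ i =>
      cases σ
      · by_cases hP : V.isP false i
        · by_cases hc : V.cov false i
          · exact Or.inl (V.inner_covL hG hc)
          · exact Or.inr (V.shortLA hT hP hc)
        · exact Or.inr (V.shortL hT h (Or.inl ⟨hP, rfl⟩))
      · exact Or.inl ((V.att hG).inner_old (V.inner_up i))
    | down σ i =>
      cases σ
      · exact Or.inl ((V.att hG).inner_old (V.inner_down i))
      · by_cases hP : V.isP true i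
        · by_cases hc : V.cov true i
          · exact Or.inl (V.inner_covR hG hc)
          · exact Or.inr (V.shortRA hT hP hc)
        · exact Or.inr (V.shortR hT h (Or.inl ⟨hP, rfl⟩))
    | lr k => exact Or.inl ((V.att hG).inner_old (V.inner_lr k))
    | rl k =>
      cases k with
      | succ k => exact Or.inl ((V.att hG).inner_old (V.inner_rl k))
      | zero =>
        right
        refine none_of_ne fun e he => ?_
        have hf : 2 ≤ fhalf l m n (flip (V.c 0)) := by
          cases hc : (V.c 0).2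
          · rw [fhalf_pos (by rw [flip_snd, hc]; rfl)]
            rcases hT.bot' with h2 | h2
            · rw [hc] at h2
              cases h2
            · change 2 ≤ psz l n (V.c 0) / 2
              omega
          · rw [fhalf_neg (by rw [flip_snd, hc]; rfl)]
            exact hm
        obtain ⟨N, hN⟩ : ∃ N, fhalf l m n (flip (V.c 0)) = N + 1 + 1 :=
          ⟨fhalf l m n (flip (V.c 0)) - 2, by omega⟩
        rw [hN, fw, (V.csys hG).run_cons_iff] at he
        obtain ⟨x1, h1, h2⟩ := he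
        rw [(V.csys hG).det h1 h, fw, (V.csys hG).run_cons_iff] at h2
        obtain ⟨x2, h3, -⟩ := h2
        exact V.step_bot hT h3
  | fwd p t h1 h2 =>
    exact Or.inl ⟨_, (V.att hG).path' p, t, (V.att hG).face p, h2, rfl, rfl⟩
  | bwd p t h1 h2 =>
    right
    obtain ⟨⟨σ, j⟩, hp⟩ := p
    have hh : 0 < V.capR σ j := hp
    have hP := V.isP_of_cap hh
    have hy : flip (nxt^[t] ((V.att hG).y ⟨(σ, j), hp⟩)) = flip (plt (V.u σ j)) := by
      change flip (nxt^[t] (plt (V.u σ j))) = _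
      rw [nxt_iter_plt]
    rw [hy] at h ⊢
    rcases (V.att hG).fwd_src h1 h2 with ⟨h6, h7⟩ | ⟨h6, h7⟩
    · rw [h7] at h
      have htop := V.u_top hh (t := V.capR σ j - 1) (by omega)
      cases σ
      · have h8 : (V.att hG).f ⟨(false, j), hp⟩ ((V.att hG).r ⟨(false, j), hp⟩) =
            (false, j + (V.capR false j - 1) + 1) := by
          change (false, j + V.capR false j) = _
          congr 1
          omega
        rw [h8] at h
        refine V.shortL hT h (Or.inr ⟨j, hh, by omega, ?_⟩)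
        rw [htop, V.plt_left hP]
      · have h8 : (V.att hG).f ⟨(true, j), hp⟩ ((V.att hG).r ⟨(true, j), hp⟩) = (true, j) := by
          change (true, j + V.capR true j - V.capR true j) = _
          rw [Nat.add_sub_cancel]
        rw [h8] at h
        refine V.shortR hT h (Or.inr ⟨hh, ?_⟩)
        rw [V.plt_right hP, flip_flip]
    · rw [h7] at h
      refine none_of_ne fun e he => ?_
      have hf := fhalf_neg (l := l) (m := m) (n := n) (y := flip (plt (V.u σ j))) rfl
      obtain ⟨N, hN⟩ : ∃ N, fhalf l m n (flip (plt (V.u σ j))) = N + 1 := ⟨m - 1, by omega⟩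
      rw [hN, fw, (V.csys hG).run_cons_iff] at he
      obtain ⟨x1, h8, h9⟩ := he
      rw [(V.csys hG).det h8 h] at h9
      have := V.run_inr hG (y := flip (plt (V.u σ j))) rfl rfl h9
      omega

/-! ### Long sides -/

/-- The first edges of a P-cell. -/
theorem side_of_three (hP : ∀ k σ, (V.c k).2 = false → 3 ≤ V.len k σ) {σ : Bool} {i : ℕ}
    (h1 : ¬ V.isP σ i) (h2 : V.isP σ (i + 1)) :
    V.isP σ (i + 2) ∧ V.isP σ (i + 3) ∧ V.u σ (i + 2) ≠ V.u σ (i + 1) ∧
      V.u σ (i + 3) ≠ V.u σ (i + 2) := by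
  obtain ⟨K, j, hj, hi⟩ := V.exists_cell σ (i + 1)
  have hc : (V.c K).2 = false := by
    rw [hi] at h2
    exact (V.isP_iff hj).1 h2
  have hj0 : j = 0 := by
    by_contra h0
    obtain ⟨j, rfl⟩ : ∃ j', j = j' + 1 := ⟨j - 1, by omega⟩
    have h3 : i = V.pos σ K + j := by omega
    apply h1
    rw [h3]
    exact (V.isP_iff (by omega)).2 hc
  subst hj0
  have hlen := hP K σ hc
  have e1 : i + 1 = V.pos σ K + 0 := hi
  have e2 : i + 2 = V.pos σ K + 1 := by omega
  have e3 : i + 3 = V.pos σ K + 2 := by omega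
  have hne : ∀ z : Letter, z.2 = false → nxt z ≠ z ∧ flip (nxt z) ≠ flip z := by decide
  have hul : ∀ j, V.ul K σ (j + 1) ≠ V.ul K σ j := by
    intro j
    unfold ul
    have hz : (nxt^[j + 1] (V.c K)).2 = false := by rw [nxt_iter_snd, hc]
    rw [Function.iterate_succ_apply' nxt (j + 1)]
    cases σ
    · exact (hne _ hz).2
    · exact (hne _ hz).1
  refine ⟨?_, ?_, ?_, ?_⟩
  · rw [e2]
    exact (V.isP_iff (by omega)).2 hc
  · rw [e3]
    exact (V.isP_iff (by omega)).2 hc
  · rw [e2, e1, V.u_eq (by omega), V.u_eq (by omega)]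
    exact hul 0
  · rw [e3, e2, V.u_eq (by omega), V.u_eq (by omega)]
    exact hul 1

/-- If the edge `i + 1` is covered and its neighbours have other letters, then its outer face has
at most three edges. -/
theorem psz_of_cov {σ : Bool} {i : ℕ} (hc : V.cov σ (i + 1)) (h1 : V.u σ i ≠ V.u σ (i + 1))
    (h2 : V.u σ (i + 2) ≠ V.u σ (i + 1)) : psz l n (V.u σ (i + 1)) ≤ 3 := by
  rcases hc with h | ⟨j, h, h'⟩
  · rcases V.capR_cases h with ⟨-, -, h3⟩ | ⟨-, -, h3, -⟩
    · exact h3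
    · exact absurd h3 h2
  · obtain rfl : i = j := by omega
    exfalso
    rcases V.capR_cases (show 0 < V.capR σ i by omega) with ⟨h3, -⟩ | ⟨-, -, h3, -⟩
    · omega
    · exact h1 h3.symm

theorem ne_of_isP {σ : Bool} {i j : ℕ} (h1 : V.isP σ i) (h2 : ¬ V.isP σ j) :
    V.u σ i ≠ V.u σ j := fun h => h2 (V.isP_congr h.symm h1)

theorem pass_ne {σ : Bool} {i : ℕ} (h : V.pass σ i) : V.u σ (i + 1) ≠ V.u σ i := by
  rcases h with ⟨h1, h2, -⟩ | ⟨h1, h2, -⟩ | ⟨-, -, h1, -⟩
  · exact V.ne_of_isP h2 h1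
  · exact (V.ne_of_isP h1 h2).symm
  · exact h1

theorem pass_cov {σ : Bool} {i : ℕ} (h : V.pass σ i) :
    (V.isP σ i → V.cov σ i) ∧ (V.isP σ (i + 1) → V.cov σ (i + 1)) ∧
      (V.isP σ i ∨ V.isP σ (i + 1)) := by
  rcases h with ⟨h1, h2, h3⟩ | ⟨h1, h2, h3⟩ | ⟨h0, h1, h2, h3, h4⟩
  · exact ⟨fun h => absurd h h1, fun _ => h3, Or.inr h2⟩
  · exact ⟨fun _ => h3, fun h => absurd h h2, Or.inl h1⟩
  · exact ⟨fun _ => h3, fun _ => h4, Or.inl h0⟩

theorem letters_of_ne {σ : Bool} {i j : ℕ} (h1 : V.isP σ i) (h2 : V.isP σ j)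
    (h : V.u σ i ≠ V.u σ j) (h3 : psz l n (V.u σ i) ≤ 3) (h4 : psz l n (V.u σ j) ≤ 3) :
    l ≤ 3 ∧ n ≤ 3 := by
  unfold isP at h1 h2
  unfold psz at h3 h4
  have h5 : (V.u σ i).1 ≠ (V.u σ j).1 := fun h5 => h (Prod.ext h5 (h1.trans h2.symm))
  have h6 : ∀ a b : Fin 2, a ≠ b → (a = 0 ∧ b ≠ 0) ∨ (a ≠ 0 ∧ b = 0) := by decide
  rcases h6 _ _ h5 with ⟨h7, h8⟩ | ⟨h7, h8⟩
  · rw [if_pos h7] at h3
    rw [if_neg h8] at h4
    exact ⟨h3, h4⟩
  · rw [if_neg h7] at h3
    rw [if_pos h8] at h4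
    exact ⟨h4, h3⟩

/-- If the sides of the P-cells have at least three edges, at most three consecutive vertices can
be passed. -/
theorem pshort_of_five (hG : V.Good) (hm : 5 ≤ m)
    (hP : ∀ k σ, (V.c k).2 = false → 3 ≤ V.len k σ) (h23 : 4 ≤ l ∨ 4 ≤ n) : V.PShort := by
  rintro σ i ⟨h, -⟩
  have p0 := h 0 (by omega)
  have p1 := h 1 (by omega)
  have p2 := h 2 (by omega)
  have p3 := h 3 (by omega)
  rw [Nat.add_zero] at p0
  have n0 := V.pass_ne p0
  have n1 := V.pass_ne p1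
  have n2 := V.pass_ne p2
  have n3 := V.pass_ne p3
  have c0 := V.pass_cov p0
  have c1 := V.pass_cov p1
  have c2 := V.pass_cov p2
  have c3 := V.pass_cov p3
  -- the edges passed at both ends
  have s1 : V.isP σ (i + 1) → psz l n (V.u σ (i + 1)) ≤ 3 := fun hp =>
    V.psz_of_cov (c1.1 hp) n0.symm n1
  have s2 : V.isP σ (i + 2) → psz l n (V.u σ (i + 2)) ≤ 3 := fun hp =>
    V.psz_of_cov (i := i + 1) (c2.1 hp) n1.symm n2
  have s3 : V.isP σ (i + 3) → psz l n (V.u σ (i + 3)) ≤ 3 := fun hp =>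
    V.psz_of_cov (i := i + 2) (c3.1 hp) n2.symm n3
  have fin : ∀ a b, V.isP σ a → V.isP σ b → V.u σ a ≠ V.u σ b → psz l n (V.u σ a) ≤ 3 →
      psz l n (V.u σ b) ≤ 3 → False := by
    intro a b ha hb hab h1 h2
    have := V.letters_of_ne ha hb hab h1 h2
    omega
  by_cases q2 : V.isP σ (i + 2)
  · by_cases q1 : V.isP σ (i + 1)
    · exact fin _ _ q1 q2 n1.symm (s1 q1) (s2 q2)
    · have q3 := (V.side_of_three hP q1 q2).1
      exact fin _ _ q2 q3 n2.symm (s2 q2) (s3 q3)
  · have q3 : V.isP σ (i + 3) := c2.2.2.resolve_left q2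
    obtain ⟨q4, q5, n3', n4⟩ := V.side_of_three hP (i := i + 2) q2 q3
    refine fin (i + 3) (i + 4) q3 q4 n3.symm (s3 q3) ?_
    exact V.psz_of_cov (i := i + 3) (c3.2.1 q4) n3.symm n4

end VLad

end Pool.Agent.SLE
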