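import Pool.Agent.SLE.Capped

/-!
# The tight darts of ladders with caps
-/

namespace Pool.Agent.SLE

open List G3

namespace VLad

variable {l m n : ℕ} (V : VLad l m n)

theorem tl_isP {σ : Bool} {i : ℕ} (h : 0 < V.capR σ i) : V.isP σ i := by
  unfold capR at h
  split_ifs at h with h1 h2
  · exact h1.1
  · exact h2.1
  · exact absurd h (lt_irrefl _)

theorem tl_capR_cases (σ : Bool) (i : ℕ) : V.capR σ i = 0 ∨ V.capR σ i = 1 ∨ V.capR σ i = 2 := by
  unfold capR
  split_ifs
  · exact Or.inr (Or.inl rfl)
  · exact Or.inr (Or.inr rfl)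
  · exact Or.inl rfl

variable (hG : V.Good)

/-- The new vertices of the caps are on the boundary of their cap only. -/
theorem tl_path_le {p : V.Cap} {t : ℕ} (h : t ≤ V.capR p.1.1 p.1.2) :
    (V.att hG).path' p t = Sum.inl (if p.1.1 then (true, p.1.2 + V.capR p.1.1 p.1.2 - t)
      else (false, p.1.2 + t)) := by
  unfold Att.path'
  rw [if_pos (show t ≤ (V.att hG).r p from h)]
  rfl

theorem tl_path_mid {p : V.Cap} {t : ℕ} (h : V.capR p.1.1 p.1.2 < t)
    (h2 : t < psz l n (V.u p.1.1 p.1.2)) :
    (V.att hG).path' p t = Sum.inr (p, t) := by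
  unfold Att.path'
  rw [if_neg (show ¬ t ≤ (V.att hG).r p from not_le.mpr h),
    if_pos (show t < fper l m n ((V.att hG).y p) from by
      change t < fper l m n (plt (V.u p.1.1 p.1.2))
      rw [fper_plt]
      exact h2)]

theorem tl_path_ge {p : V.Cap} {t : ℕ} (h : V.capR p.1.1 p.1.2 < t)
    (h2 : psz l n (V.u p.1.1 p.1.2) ≤ t) :
    (V.att hG).path' p t = Sum.inl (if p.1.1 then (true, p.1.2 + V.capR p.1.1 p.1.2)
      else (false, p.1.2)) := by
  unfold Att.path'
  rw [if_neg (show ¬ t ≤ (V.att hG).r p from not_le.mpr h),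
    if_neg (show ¬ t < fper l m n ((V.att hG).y p) from by
      change ¬ t < fper l m n (plt (V.u p.1.1 p.1.2))
      rw [fper_plt]
      exact not_lt.mpr h2)]
  rfl

include hG in
theorem tl_capR_lt (p : V.Cap) : V.capR p.1.1 p.1.2 < psz l n (V.u p.1.1 p.1.2) := by
  have h := (V.att hG).r_lt p
  change V.capR p.1.1 p.1.2 < fper l m n (plt (V.u p.1.1 p.1.2)) at h
  rwa [fper_plt] at h

/-- The darts of the ladder with caps. -/
theorem tl_adj_cases {x : V.CX} {y : Letter} {x' : V.CX} (h : (V.csys hG).Adj x y x') :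
    (∃ z z', V.Adj z y z' ∧ x = Sum.inl z ∧ x' = Sum.inl z') ∨
    (∃ (p : V.Cap) (t : ℕ), V.capR p.1.1 p.1.2 ≤ t ∧ t < psz l n (V.u p.1.1 p.1.2) ∧
      x = (V.att hG).path' p t ∧ y = plt (V.u p.1.1 p.1.2) ∧ x' = (V.att hG).path' p (t + 1)) ∨
    (∃ (p : V.Cap) (t : ℕ), V.capR p.1.1 p.1.2 ≤ t ∧ t < psz l n (V.u p.1.1 p.1.2) ∧
      x = (V.att hG).path' p (t + 1) ∧ y = flip (plt (V.u p.1.1 p.1.2)) ∧
      x' = (V.att hG).path' p t) := by
  have h' : (V.att hG).Adj x y x' := h
  cases h' with
  | old hh => exact Or.inl ⟨_, _, hh, rfl, rfl⟩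
  | fwd p t h1 h2 =>
    refine Or.inr (Or.inl ⟨p, t, h1, ?_, rfl, nxt_iter_plt t _, rfl⟩)
    have h3 : t < fper l m n (plt (V.u p.1.1 p.1.2)) := h2
    rwa [fper_plt] at h3
  | bwd p t h1 h2 =>
    refine Or.inr (Or.inr ⟨p, t, h1, ?_, rfl, ?_, rfl⟩)
    · have h3 : t < fper l m n (plt (V.u p.1.1 p.1.2)) := h2
      rwa [fper_plt] at h3
    · exact congrArg flip (nxt_iter_plt t _)

/-- **The tight darts** at a vertex of a line. -/
theorem tight_line (o0 : ℤ) (σ : Bool) (i : ℕ) (y : Letter) (x' : V.CX)
    (h : (V.csys hG).Adj (Sum.inl (σ, i)) y x')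
    (ht : V.cF o0 x' = V.cF o0 (Sum.inl (σ, i)) + 1) :
    (y = V.u σ i ∧ x' = Sum.inl (σ, i + 1)) ∨
    (V.Even σ i ∧ y = flip (V.u σ i) ∧ V.evenTop σ i x') ∨
    (∃ k, V.pos σ k = i ∧ V.off o0 k = (if σ then 1 else -1) ∧
      y = (if σ then flip (V.c k) else V.c k) ∧ x' = Sum.inl (!σ, V.pos (!σ) k)) := by
  rcases V.tl_adj_cases hG h with ⟨z, z', hz, h1, h2⟩ | ⟨p, t, h1, h2, h3, h4, h5⟩ |
    ⟨p, t, h1, h2, h3, h4, h5⟩
  · subst h2
    have h1' := Sum.inl.inj h1
    subst h1'
    cases hz with
    | up _ _ => exact Or.inl ⟨rfl, rfl⟩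
    | down _ i =>
      exfalso
      simp only [cF] at ht
      push_cast at ht
      omega
    | lr k =>
      refine Or.inr (Or.inr ⟨k, rfl, ?_, by simp, rfl⟩)
      simp only [cF, if_true, Bool.false_eq_true, if_false] at ht
      simp only [off, Bool.false_eq_true, if_false]
      omega
    | rl k =>
      refine Or.inr (Or.inr ⟨k, rfl, ?_, by simp, rfl⟩)
      simp only [cF, if_true, Bool.false_eq_true, if_false] at ht
      simp only [off, if_true]
      omega
  · obtain ⟨⟨τ, j⟩, h0⟩ := p
    simp only at h1 h2 h4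
    have hlt := V.tl_capR_lt hG ⟨(τ, j), h0⟩
    simp only at hlt h0
    have hP := V.tl_isP h0
    rcases Nat.lt_or_ge (V.capR τ j) t with h6 | h6
    · rw [V.tl_path_mid hG (p := ⟨(τ, j), h0⟩) h6 h2] at h3
      cases h3
    · have h7 : t = V.capR τ j := le_antisymm h6 h1
      subst h7
      rw [V.tl_path_le hG (p := ⟨(τ, j), h0⟩) le_rfl] at h3
      have h3' := Sum.inl.inj h3
      cases τ with
      | false =>
        exfalso
        simp only [Bool.false_eq_true, if_false, Prod.mk.injEq] at h3'
        obtain ⟨rfl, rfl⟩ := h3'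
        rcases Nat.lt_or_ge (V.capR false j + 1) (psz l n (V.u false j)) with h8 | h8
        · rw [V.tl_path_mid hG (p := ⟨(false, j), h0⟩) (Nat.lt_succ_self _) h8] at h5
          subst h5
          simp only [cF, Bool.false_eq_true, if_false] at ht
          push_cast at ht
          omega
        · rw [V.tl_path_ge hG (p := ⟨(false, j), h0⟩) (Nat.lt_succ_self _) h8] at h5
          subst h5
          simp only [cF, Bool.false_eq_true, if_false] at ht
          push_cast at ht
          omega
      | true =>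
        simp only [if_true, Prod.mk.injEq] at h3'
        obtain ⟨rfl, h9⟩ := h3'
        have h10 : i = j := by omega
        subst h10
        have hy : y = flip (V.u true i) := by
          rw [h4, plt_neg]
          exact hP
        rcases Nat.lt_or_ge (V.capR true i + 1) (psz l n (V.u true i)) with h8 | h8
        · rw [V.tl_path_mid hG (p := ⟨(true, i), h0⟩) (Nat.lt_succ_self _) h8] at h5
          subst h5
          simp only [cF, if_true] at ht
          push_cast at ht
          have h11 : 2 * V.capR true i = psz l n (V.u true i) := by omega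
          refine Or.inr (Or.inl ⟨⟨h0, h11⟩, hy, ?_⟩)
          right
          have h12 : V.capR true i = 2 := by
            rcases V.tl_capR_cases true i with h | h | h <;> omega
          refine ⟨h12, h0, ?_⟩
          rw [h12]
        · rw [V.tl_path_ge hG (p := ⟨(true, i), h0⟩) (Nat.lt_succ_self _) h8] at h5
          subst h5
          simp only [cF, if_true] at ht
          push_cast at ht
          have h12 : V.capR true i = 1 := by omega
          refine Or.inr (Or.inl ⟨⟨h0, by omega⟩, hy, ?_⟩)
          left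
          refine ⟨h12, ?_⟩
          simp only [if_true, h12]
  · obtain ⟨⟨τ, j⟩, h0⟩ := p
    simp only at h1 h2 h4
    have hlt := V.tl_capR_lt hG ⟨(τ, j), h0⟩
    simp only at hlt h0
    have hP := V.tl_isP h0
    rcases Nat.lt_or_ge (t + 1) (psz l n (V.u τ j)) with h6 | h6
    · rw [V.tl_path_mid hG (p := ⟨(τ, j), h0⟩) (t := t + 1) (by simp only; omega) h6] at h3
      cases h3
    · rw [V.tl_path_ge hG (p := ⟨(τ, j), h0⟩) (t := t + 1) (by simp only; omega) h6] at h3
      have h3' := Sum.inl.inj h3
      have h7 : t + 1 = psz l n (V.u τ j) := by omega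
      cases τ with
      | true =>
        exfalso
        simp only [if_true, Prod.mk.injEq] at h3'
        obtain ⟨rfl, rfl⟩ := h3'
        rcases Nat.lt_or_ge (V.capR true j) t with h8 | h8
        · rw [V.tl_path_mid hG (p := ⟨(true, j), h0⟩) h8 h2] at h5
          subst h5
          simp only [cF, if_true] at ht
          push_cast at ht
          omega
        · rw [V.tl_path_le hG (p := ⟨(true, j), h0⟩) h8] at h5
          subst h5
          simp only [cF, if_true] at ht
          push_cast at ht
          omega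
      | false =>
        simp only [Bool.false_eq_true, if_false, Prod.mk.injEq] at h3'
        obtain ⟨rfl, rfl⟩ := h3'
        have hy : y = flip (V.u false i) := by
          rw [h4, plt_pos]
          exact hP
        rcases Nat.lt_or_ge (V.capR false i) t with h8 | h8
        · rw [V.tl_path_mid hG (p := ⟨(false, i), h0⟩) h8 h2] at h5
          subst h5
          simp only [cF, Bool.false_eq_true, if_false] at ht
          have h11 : 2 * V.capR false i = psz l n (V.u false i) := by omega
          refine Or.inr (Or.inl ⟨⟨h0, h11⟩, hy, ?_⟩)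
          right
          have h12 : V.capR false i = 2 := by
            rcases V.tl_capR_cases false i with h | h | h <;> omega
          refine ⟨h12, h0, ?_⟩
          rw [show t = 3 by omega]
        · rw [V.tl_path_le hG (p := ⟨(false, i), h0⟩) h8] at h5
          subst h5
          simp only [cF, Bool.false_eq_true, if_false] at ht
          push_cast at ht
          have h13 : t = 1 := by omega
          have h12 : V.capR false i = 1 := by omega
          refine Or.inr (Or.inl ⟨⟨h0, by omega⟩, hy, ?_⟩)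
          left
          refine ⟨h12, ?_⟩
          simp only [Bool.false_eq_true, if_false, h13]

/-- The tight darts in the middle of an even cap. -/
theorem tight_mid (o0 : ℤ) (σ : Bool) (i : ℕ) (h0 : 0 < V.capR σ i) (hE : V.Even σ i)
    (hr : V.capR σ i = 2) (y : Letter) (x' : V.CX)
    (h : (V.csys hG).Adj (Sum.inr (⟨(σ, i), h0⟩, 3)) y x')
    (ht : V.cF o0 x' = V.cF o0 (Sum.inr (⟨(σ, i), h0⟩, 3)) + 1) :
    y = flip (V.u σ i) ∧ x' = Sum.inl (σ, i + 2) := by
  have hp : psz l n (V.u σ i) = 4 := by rw [← hE.2, hr]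
  have hP := V.tl_isP h0
  have key : ∀ (p : V.Cap) (t : ℕ), V.capR p.1.1 p.1.2 ≤ t → t ≤ psz l n (V.u p.1.1 p.1.2) →
      Sum.inr (⟨(σ, i), h0⟩, 3) = (V.att hG).path' p t → p = ⟨(σ, i), h0⟩ ∧ t = 3 := by
    intro p t h1 h2 h3
    rcases Nat.lt_or_ge (V.capR p.1.1 p.1.2) t with h4 | h4
    · rcases Nat.lt_or_ge t (psz l n (V.u p.1.1 p.1.2)) with h5 | h5
      · rw [V.tl_path_mid hG h4 h5] at h3
        have h6 := Sum.inr.inj h3
        have h7 := Prod.mk.inj h6
        exact ⟨h7.1.symm, h7.2.symm⟩
      · rw [V.tl_path_ge hG h4 h5] at h3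
        cases h3
    · rw [V.tl_path_le hG h4] at h3
      cases h3
  rcases V.tl_adj_cases hG h with ⟨z, z', hz, h1, h2⟩ | ⟨p, t, h1, h2, h3, h4, h5⟩ |
    ⟨p, t, h1, h2, h3, h4, h5⟩
  · cases h1
  · obtain ⟨rfl, rfl⟩ := key p t h1 h2.le h3
    simp only at h4
    rw [V.tl_path_ge hG (p := ⟨(σ, i), h0⟩) (t := 3 + 1) (by simp only; omega)
      (by simp only; omega)] at h5
    subst h5
    cases σ with
    | true =>
      refine ⟨?_, ?_⟩
      · rw [h4, plt_neg]
        exact hP
      · simp only [if_true, hr]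
    | false =>
      exfalso
      simp only [cF, Bool.false_eq_true, if_false, hp, hr] at ht
      omega
  · obtain ⟨rfl, h6⟩ := key p (t + 1) (by omega) (by omega) h3
    have h7 : t = 2 := by omega
    subst h7
    simp only at h4
    rw [V.tl_path_le hG (p := ⟨(σ, i), h0⟩) (t := 2) (by simp only; omega)] at h5
    subst h5
    cases σ with
    | false =>
      refine ⟨?_, ?_⟩
      · rw [h4, plt_pos]
        exact hP
      · simp only [Bool.false_eq_true, if_false]
    | true =>
      exfalso
      simp only [cF, if_true, hp, hr] at ht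
      omega

end VLad

end Pool.Agent.SLE
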