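import Pool.Agent.SLE.Capped

/-!
# Sections and heights on ladders with caps
-/

namespace Pool.Agent.SLE

open List G3

namespace VLad

variable {l m n : ℕ} (V : VLad l m n) (hG : V.Good)

/-- Conditions on a height potential `H` on the lines, `ε = ± 1` (or `0`). -/
structure HCond (o0 ε : ℤ) (H : Bool → ℕ → ℤ) : Prop where
  line : ∀ σ i, H σ (i + 1) ≤ H σ i
  even : ∀ σ i, V.Even σ i → H σ (i + V.capR σ i) - H σ i ≤
    (if σ then ε else -ε) * fht (plt (V.u σ i))
  rl : ∀ k, V.off o0 k = 1 → H false (V.pos false k) - H true (V.pos true k) ≤ -(ε * V.hgt k)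
  lr : ∀ k, V.off o0 k = -1 → H true (V.pos true k) - H false (V.pos false k) ≤ ε * V.hgt k

theorem fper_plt (l m n : ℕ) (y : Letter) : fper l m n (plt y) = psz l n y := by
  obtain ⟨i, b⟩ := y
  fin_cases i <;> rfl

theorem nxt_iter_plt (y : Letter) (t : ℕ) : nxt^[t] (plt y) = plt y := by
  obtain ⟨i, b⟩ := y
  fin_cases i
  · exact nxt_iter_a t
  · exact nxt_iter_b t

theorem capR_spec (hG : V.Good) {σ : Bool} {i : ℕ} (h : 0 < V.capR σ i) : V.isP σ i ∧
    (∀ t < V.capR σ i, V.u σ (i + t) = V.u σ i) ∧ 2 * V.capR σ i ≤ psz l n (V.u σ i) := by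
  have h2 : 2 ≤ psz l n (V.u σ i) := by
    unfold psz
    split_ifs
    · exact hG.hl
    · exact hG.hn
  unfold capR at h ⊢
  split_ifs at h ⊢ with h3 h4
  · refine ⟨h3.1, ?_, by omega⟩
    intro t ht
    have : t = 0 := by omega
    rw [this, add_zero]
  · refine ⟨h4.1, ?_, ?_⟩
    · intro t ht
      have : t = 0 ∨ t = 1 := by omega
      rcases this with rfl | rfl
      · rw [add_zero]
      · exact h4.2.1
    · have : ¬ psz l n (V.u σ i) ≤ 3 := fun h5 => h3 ⟨h4.1, h5⟩
      omega
  · omega

theorem plt_of_isP_false {i : ℕ} (h : V.isP false i) : plt (V.u false i) = V.u false i := by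
  have h1 : (V.u false i).2 = true := h
  rw [plt, ← h1]

theorem plt_of_isP_true {i : ℕ} (h : V.isP true i) : plt (V.u true i) = flip (V.u true i) := by
  have h1 : (V.u true i).2 = false := h
  rw [plt, flip, h1]
  rfl

theorem kap_path_zero {X : Type*} {S : DSys X} {κ : X → Letter → ℤ} {y : Letter}
    (hy : nxt y = y) (r : ℕ) (f : ℕ → X) (h : ∀ t < r, S.Adj (f t) y (f (t + 1)))
    (hκ : ∀ t < r, κ (f t) y = 0) : kap S.mv κ (f 0) (fw y r) = 0 := by
  induction r generalizing f with
  | zero => rfl
  | succ r ih =>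
    rw [fw, kap_cons (S.mv_iff.2 (h 0 (Nat.succ_pos r))), hκ 0 (Nat.succ_pos r), zero_add, hy]
    exact ih (fun t => f (t + 1)) (fun t ht => h (t + 1) (by omega))
      (fun t ht => hκ (t + 1) (by omega))

/-- The height of the old edges of a cap is zero. -/
theorem kap_cap (p : V.Cap) :
    kap V.sys.mv V.κ ((V.att hG).f p 0) (fw ((V.att hG).y p) ((V.att hG).r p)) = 0 := by
  obtain ⟨⟨σ, i⟩, hp⟩ := p
  obtain ⟨hP, hu, -⟩ := V.capR_spec hG hp
  have hpath := (V.att hG).path ⟨(σ, i), hp⟩
  refine kap_path_zero (nxt_iter_plt (V.u σ i) 1) _ _ ?_ ?_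
  · intro t ht
    have h1 := hpath t ht
    have h2 : nxt^[t] ((V.att hG).y ⟨(σ, i), hp⟩) = (V.att hG).y ⟨(σ, i), hp⟩ :=
      nxt_iter_plt (V.u σ i) t
    rw [h2] at h1
    exact h1
  · intro t ht
    have ht' : t < V.capR σ i := ht
    cases σ with
    | false =>
      change V.κ (false, i + t) (plt (V.u false i)) = 0
      rw [V.plt_of_isP_false hP, ← hu t ht']
      exact V.κ_up false (i + t)
    | true =>
      change V.κ (true, i + V.capR true i - t) (plt (V.u true i)) = 0
      have ht2 : t < V.capR true i := ht'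
      have h3 : i + V.capR true i - t = i + (V.capR true i - t - 1) + 1 := by omega
      have h4 : V.capR true i - t - 1 < V.capR true i := by omega
      rw [V.plt_of_isP_true hP, h3, ← hu (V.capR true i - t - 1) h4]
      exact V.κ_down true (i + (V.capR true i - t - 1))

theorem path'_r (p : V.Cap) : (V.att hG).path' p (V.capR p.1.1 p.1.2) =
    Sum.inl (p.1.1, if p.1.1 then p.1.2 else p.1.2 + V.capR p.1.1 p.1.2) := by
  obtain ⟨⟨σ, i⟩, hp⟩ := p
  have h1 : (V.att hG).path' ⟨(σ, i), hp⟩ (V.capR σ i) =
      Sum.inl ((V.att hG).f ⟨(σ, i), hp⟩ (V.capR σ i)) :=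
    (V.att hG).path'_old (i := ⟨(σ, i), hp⟩) (le_refl _)
  change (V.att hG).path' ⟨(σ, i), hp⟩ (V.capR σ i) = _
  rw [h1]
  cases σ with
  | false => rfl
  | true =>
    change (Sum.inl (true, i + V.capR true i - V.capR true i) : V.CX) = Sum.inl (true, i)
    rw [Nat.add_sub_cancel]

theorem path'_P (p : V.Cap) : (V.att hG).path' p (psz l n (V.u p.1.1 p.1.2)) =
    Sum.inl (p.1.1, if p.1.1 then p.1.2 + V.capR p.1.1 p.1.2 else p.1.2) := by
  obtain ⟨⟨σ, i⟩, hp⟩ := p
  have h1 : (V.att hG).path' ⟨(σ, i), hp⟩ (psz l n (V.u σ i)) =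
      Sum.inl ((V.att hG).f ⟨(σ, i), hp⟩ 0) :=
    (V.att hG).path'_last (i := ⟨(σ, i), hp⟩) (fper_plt l m n (V.u σ i)).symm
  change (V.att hG).path' ⟨(σ, i), hp⟩ (psz l n (V.u σ i)) = _
  rw [h1]
  cases σ <;> rfl

theorem path'_mid (p : V.Cap) {t : ℕ} (h1 : V.capR p.1.1 p.1.2 < t)
    (h2 : t < psz l n (V.u p.1.1 p.1.2)) : (V.att hG).path' p t = Sum.inr (p, t) :=
  (V.att hG).path'_new (i := p) h1 (lt_of_lt_of_eq h2 (fper_plt l m n (V.u p.1.1 p.1.2)).symm)

theorem cF_cpath (o0 : ℤ) (p : V.Cap) {t : ℕ} (h1 : V.capR p.1.1 p.1.2 ≤ t)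
    (h2 : t ≤ psz l n (V.u p.1.1 p.1.2)) : V.cF o0 ((V.att hG).path' p t) =
      p.1.2 + (if p.1.1 then 0 else o0) +
      (if p.1.1 then (t : ℤ) - psz l n (V.u p.1.1 p.1.2) + V.capR p.1.1 p.1.2
        else 2 * V.capR p.1.1 p.1.2 - t) ⊔ 0 := by
  obtain ⟨-, -, h3⟩ := V.capR_spec hG p.2
  have hp := p.2
  rcases Nat.lt_or_ge (V.capR p.1.1 p.1.2) t with h4 | h4
  · rcases Nat.lt_or_ge t (psz l n (V.u p.1.1 p.1.2)) with h5 | h5
    · rw [V.path'_mid hG p h4 h5]
      rfl
    · have h6 : t = psz l n (V.u p.1.1 p.1.2) := le_antisymm h2 h5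
      rw [h6, V.path'_P hG p]
      unfold cF
      cases hσ : p.1.1 <;> simp only [hσ, if_true, if_false, Bool.false_eq_true] at h3 ⊢ <;>
        push_cast <;> omega
  · have h6 : t = V.capR p.1.1 p.1.2 := le_antisymm h4 h1
    rw [h6, V.path'_r hG p]
    unfold cF
    cases hσ : p.1.1 <;> simp only [hσ, if_true, if_false, Bool.false_eq_true] at h3 hp ⊢ <;>
      push_cast <;> omega

/-- The sections and the heights on the ladder with caps. -/
theorem exists_cval (hm : 2 ≤ m) (hyp : (1 / l + 1 / m + 1 / n : ℚ) < 1) :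
    ∃ (val : V.CX → E l m n) (κ : V.CX → Letter → ℤ),
      VVal l m n (V.csys hG).mv val κ ∧
      (∀ x, val (Sum.inl x) = V.val x) ∧
      (∀ σ i, κ (Sum.inl (σ, i)) (V.u σ i) = 0) ∧
      (∀ k, κ (Sum.inl (false, V.pos false k)) (V.c k) = V.hgt k) ∧
      (∀ k, κ (Sum.inl (true, V.pos true k)) (flip (V.c k)) = -V.hgt k) ∧
      -- the edges of the even caps, read upwards
      (∀ i, V.Even false i → κ (Sum.inl (false, i)) (flip (V.u false i)) =
        -fht (plt (V.u false i))) ∧
      (∀ i (h0 : 0 < V.capR false i), V.Even false i → V.capR false i = 2 →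
        κ (Sum.inr (⟨(false, i), h0⟩, 3)) (flip (V.u false i)) = 0) ∧
      (∀ i, V.Even true i → V.capR true i = 1 → κ (Sum.inl (true, i)) (flip (V.u true i)) =
        fht (plt (V.u true i))) ∧
      (∀ i (h0 : 0 < V.capR true i), V.Even true i → V.capR true i = 2 →
        κ (Sum.inl (true, i)) (flip (V.u true i)) = 0 ∧
        κ (Sum.inr (⟨(true, i), h0⟩, 3)) (flip (V.u true i)) = fht (plt (V.u true i))) ∧
      -- height potentials
      (∀ (o0 ε : ℤ) (H : Bool → ℕ → ℤ), |ε| ≤ 1 → V.HCond o0 ε H → ∀ x y x',
        (V.csys hG).Adj x y x' → V.cF o0 x' = V.cF o0 x + 1 →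
          V.cH H x' - V.cH H x ≤ ε * κ x y) := by
  obtain ⟨val, κ, h1, h2, h3, h4, h5⟩ := (V.att hG).exists_val hG.hl hm hG.hn hyp V.val V.κ
    (fun x y x' h => V.vval x y x' h)
  have h4' : ∀ (p : V.Cap) t, V.capR p.1.1 p.1.2 ≤ t → t + 1 < psz l n (V.u p.1.1 p.1.2) →
      κ ((V.att hG).path' p t) (plt (V.u p.1.1 p.1.2)) = 0 ∧
      κ ((V.att hG).path' p (t + 1)) (flip (plt (V.u p.1.1 p.1.2))) = 0 := by
    intro p t ha hb
    have := h4 p t ha (lt_of_lt_of_eq hb (fper_plt l m n (V.u p.1.1 p.1.2)).symm)
    have h6 : nxt^[t] ((V.att hG).y p) = plt (V.u p.1.1 p.1.2) := nxt_iter_plt _ t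
    rw [h6] at this
    exact this
  have h5' : ∀ (p : V.Cap) t, t + 1 = psz l n (V.u p.1.1 p.1.2) →
      κ ((V.att hG).path' p t) (plt (V.u p.1.1 p.1.2)) = fht (plt (V.u p.1.1 p.1.2)) ∧
      κ ((V.att hG).path' p (t + 1)) (flip (plt (V.u p.1.1 p.1.2))) =
        -fht (plt (V.u p.1.1 p.1.2)) := by
    intro p t ha
    have := h5 p t (ha.trans (fper_plt l m n (V.u p.1.1 p.1.2)).symm)
    have h6 : nxt^[t] ((V.att hG).y p) = plt (V.u p.1.1 p.1.2) := nxt_iter_plt _ t
    rw [h6, V.kap_cap hG p, sub_zero, zero_sub] at this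
    exact this
  clear h4 h5
  refine ⟨val, κ, DSys.vval h1, h2, ?_, ?_, ?_, ?_, ?_, ?_, ?_, ?_⟩
  · intro σ i
    rw [h3 (σ, i) (V.u σ i) (σ, i + 1) (Adj.up σ i)]
    exact V.κ_up σ i
  · intro k
    rw [h3 _ _ _ (Adj.lr k)]
    exact V.κ_lr k
  · intro k
    rw [h3 _ _ _ (Adj.rl k)]
    exact V.κ_rl k
  · intro i hE
    obtain ⟨hP, -, h6⟩ := V.capR_spec hG hE.1
    have hp := hE.1
    have h7 := (h5' ⟨(false, i), hE.1⟩ (psz l n (V.u false i) - 1)
      (Nat.sub_add_cancel (by omega))).2
    rw [Nat.sub_add_cancel (by omega : 1 ≤ psz l n (V.u false i))] at h7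
    have h8 := V.path'_P hG ⟨(false, i), hE.1⟩
    simp only [if_false, Bool.false_eq_true] at h8 h7
    rw [h8] at h7
    rw [V.plt_of_isP_false hP] at h7 ⊢
    exact h7
  · intro i h0 hE h6
    obtain ⟨hP, -, -⟩ := V.capR_spec hG hE.1
    have hE2 := hE.2
    have h7 := (h4' ⟨(false, i), h0⟩ 2 (by simp only []; omega) (by simp only []; omega)).2
    have h8 := V.path'_mid hG ⟨(false, i), h0⟩ (t := 3) (by simp only []; omega)
      (by simp only []; omega)
    simp only [] at h7 h8
    rw [show 2 + 1 = 3 from rfl, h8, V.plt_of_isP_false hP] at h7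
    exact h7
  · intro i hE h6
    obtain ⟨hP, -, -⟩ := V.capR_spec hG hE.1
    have hE2 := hE.2
    have h7 := (h5' ⟨(true, i), hE.1⟩ 1 (by simp only []; omega)).1
    have h8 := V.path'_r hG ⟨(true, i), hE.1⟩
    simp only [if_true, h6] at h7 h8
    rw [h8, V.plt_of_isP_true hP] at h7
    rw [h7, V.plt_of_isP_true hP]
  · intro i h0 hE h6
    obtain ⟨hP, -, -⟩ := V.capR_spec hG hE.1
    have hE2 := hE.2
    constructor
    · have h7 := (h4' ⟨(true, i), h0⟩ 2 (by simp only []; omega) (by simp only []; omega)).1
      have h8 := V.path'_r hG ⟨(true, i), h0⟩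
      simp only [if_true, h6] at h7 h8
      rw [h8, V.plt_of_isP_true hP] at h7
      exact h7
    · have h7 := (h5' ⟨(true, i), h0⟩ 3 (by simp only []; omega)).1
      have h8 := V.path'_mid hG ⟨(true, i), h0⟩ (t := 3) (by simp only []; omega)
        (by simp only []; omega)
      simp only [] at h7 h8
      rw [h8, V.plt_of_isP_true hP] at h7
      rw [h7, V.plt_of_isP_true hP]
  · intro o0 ε H hε hH x y x' hadj hF
    have hfht : ∀ y, |fht y| ≤ 1 := by
      intro y
      obtain ⟨i, b⟩ := y
      fin_cases i <;> cases b <;> simp [fht]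
    have hprod : ∀ y, -1 ≤ ε * fht y ∧ ε * fht y ≤ 1 := by
      intro y
      have h6 : |ε * fht y| ≤ 1 := by
        rw [abs_mul]
        have h7 := abs_nonneg ε
        have h8 := abs_nonneg (fht y)
        nlinarith [hfht y]
      exact abs_le.1 h6
    cases hadj with
    | old h =>
      rw [h3 _ _ _ h]
      cases h with
      | up σ i =>
        rw [V.κ_up, mul_zero]
        have := hH.line σ i
        change H σ (i + 1) - H σ i ≤ 0
        omega
      | down σ i =>
        exfalso
        simp only [cF] at hF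
        push_cast at hF
        omega
      | lr k =>
        rw [V.κ_lr]
        refine hH.lr k ?_
        simp only [cF, if_true, if_false, Bool.false_eq_true] at hF
        unfold off
        omega
      | rl k =>
        rw [V.κ_rl, mul_neg]
        refine hH.rl k ?_
        simp only [cF, if_true, if_false, Bool.false_eq_true] at hF
        unfold off
        omega
    | fwd p t ht1 ht2 =>
      have hy : nxt^[t] ((V.att hG).y p) = plt (V.u p.1.1 p.1.2) := nxt_iter_plt _ t
      have ht1' : V.capR p.1.1 p.1.2 ≤ t := ht1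
      have ht2' : t < psz l n (V.u p.1.1 p.1.2) :=
        lt_of_lt_of_eq ht2 (fper_plt l m n (V.u p.1.1 p.1.2))
      obtain ⟨-, -, h6⟩ := V.capR_spec hG p.2
      rw [V.cF_cpath hG o0 p (by omega) (by omega), V.cF_cpath hG o0 p ht1' ht2'.le] at hF
      rw [hy]
      obtain ⟨⟨σ, i⟩, hp⟩ := p
      simp only [] at ht1' ht2' h6 hF ⊢
      cases σ with
      | false =>
        exfalso
        simp only [if_false, Bool.false_eq_true] at hF
        push_cast at hF
        omega
      | true =>
        simp only [if_true] at hF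
        push_cast at hF
        have h7 : psz l n (V.u true i) ≤ t + V.capR true i := by omega
        rcases Nat.lt_or_ge (t + 1) (psz l n (V.u true i)) with h8 | h8
        · -- not the last edge
          have h9 := (h4' ⟨(true, i), hp⟩ t ht1' h8).1
          simp only [] at h9
          rw [h9, mul_zero]
          have h10 := V.path'_mid hG ⟨(true, i), hp⟩ (t := t + 1) (by simp only []; omega) h8
          rw [h10]
          rcases Nat.lt_or_ge (V.capR true i) t with h11 | h11
          · have h12 := V.path'_mid hG ⟨(true, i), hp⟩ (t := t) h11 (by simp only []; omega)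
            rw [h12]
            simp only [cH]
            omega
          · have h12 : t = V.capR true i := le_antisymm h11 ht1'
            have h13 := V.path'_r hG ⟨(true, i), hp⟩
            simp only [if_true] at h13
            rw [h12, h13]
            simp only [cH, if_true]
            rw [if_pos (by omega)]
            omega
        · -- the last edge
          have h9 : t + 1 = psz l n (V.u true i) := by omega
          have h10 := (h5' ⟨(true, i), hp⟩ t h9).1
          simp only [] at h10
          rw [h10]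
          have h11 := V.path'_P hG ⟨(true, i), hp⟩
          simp only [if_true] at h11
          rw [← h9] at h11
          rw [h11]
          rcases Nat.lt_or_ge (V.capR true i) t with h12 | h12
          · have h13 := V.path'_mid hG ⟨(true, i), hp⟩ (t := t) h12 (by simp only []; omega)
            rw [h13]
            simp only [cH, if_true]
            split_ifs with h14
            · have h15 := hH.even true i ⟨hp, h14⟩
              simpa using h15
            · have := (hprod (plt (V.u true i))).1
              omega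
          · have h13 : t = V.capR true i := le_antisymm h12 ht1'
            have h14 := V.path'_r hG ⟨(true, i), hp⟩
            simp only [if_true] at h14
            rw [h13, h14]
            simp only [cH]
            have h15 := hH.even true i ⟨hp, by omega⟩
            simpa using h15
    | bwd p t ht1 ht2 =>
      have hy : nxt^[t] ((V.att hG).y p) = plt (V.u p.1.1 p.1.2) := nxt_iter_plt _ t
      have ht1' : V.capR p.1.1 p.1.2 ≤ t := ht1
      have ht2' : t < psz l n (V.u p.1.1 p.1.2) :=
        lt_of_lt_of_eq ht2 (fper_plt l m n (V.u p.1.1 p.1.2))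
      obtain ⟨-, -, h6⟩ := V.capR_spec hG p.2
      rw [V.cF_cpath hG o0 p (t := t + 1) (by omega) (by omega),
        V.cF_cpath hG o0 p ht1' ht2'.le] at hF
      rw [hy]
      obtain ⟨⟨σ, i⟩, hp⟩ := p
      simp only [] at ht1' ht2' h6 hF ⊢
      cases σ with
      | true =>
        exfalso
        simp only [if_true] at hF
        push_cast at hF
        omega
      | false =>
        simp only [if_false, Bool.false_eq_true] at hF
        push_cast at hF
        have h7 : t + 1 ≤ 2 * V.capR false i := by omega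
        rcases Nat.lt_or_ge (t + 1) (psz l n (V.u false i)) with h8 | h8
        · have h9 := (h4' ⟨(false, i), hp⟩ t ht1' h8).2
          simp only [] at h9
          rw [h9, mul_zero]
          have h10 := V.path'_mid hG ⟨(false, i), hp⟩ (t := t + 1) (by simp only []; omega) h8
          rw [h10]
          rcases Nat.lt_or_ge (V.capR false i) t with h11 | h11
          · have h12 := V.path'_mid hG ⟨(false, i), hp⟩ (t := t) h11 (by simp only []; omega)
            rw [h12]
            simp only [cH]
            omega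
          · have h12 : t = V.capR false i := le_antisymm h11 ht1'
            have h13 := V.path'_r hG ⟨(false, i), hp⟩
            simp only [if_false, Bool.false_eq_true] at h13
            rw [h12, h13]
            simp only [cH, if_false, Bool.false_eq_true]
            split_ifs
            · omega
            · omega
        · have h9 : t + 1 = psz l n (V.u false i) := by omega
          have h10 := (h5' ⟨(false, i), hp⟩ t h9).2
          simp only [] at h10
          rw [h10]
          have h11 := V.path'_P hG ⟨(false, i), hp⟩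
          simp only [if_false, Bool.false_eq_true] at h11
          rw [← h9] at h11
          rw [h11]
          have hE : 2 * V.capR false i = psz l n (V.u false i) := by omega
          have h15 := hH.even false i ⟨hp, hE⟩
          simp only [if_false, Bool.false_eq_true] at h15
          rcases Nat.lt_or_ge (V.capR false i) t with h12 | h12
          · have h13 := V.path'_mid hG ⟨(false, i), hp⟩ (t := t) h12 (by simp only []; omega)
            rw [h13]
            simp only [cH, if_false, Bool.false_eq_true]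
            rw [if_pos hE, mul_neg, ← neg_mul]
            exact h15
          · have h13 : t = V.capR false i := le_antisymm h12 ht1'
            have h14 := V.path'_r hG ⟨(false, i), hp⟩
            simp only [if_false, Bool.false_eq_true] at h14
            rw [h13, h14]
            simp only [cH]
            rw [mul_neg, ← neg_mul]
            exact h15

end VLad

end Pool.Agent.SLE
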