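import Pool.Agent.SLE.VLad
import Pool.Agent.SLE.Attach

/-!
# Ladders with caps

On the outer side of the lines of a ladder, faces, the caps, are attached along the short faces: along
the edges of P-cells whose outer face has at most `3` edges, and along the two equal edges at a
double rung if their outer face has `4` or `5` edges.
-/

namespace Pool.Agent.SLE

open List G3

/-- The number of edges of the outer face of an edge of a P-cell with the letter `y^{±1}`. -/
def psz (l n : ℕ) (y : Letter) : ℕ := if y.1 = 0 then l else n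

/-- The positive letter. -/
def plt (y : Letter) : Letter := (y.1, true)

theorem fper_plt (l m n : ℕ) (y : Letter) : fper l m n (plt y) = psz l n y := by
  obtain ⟨i, b⟩ := y
  fin_cases i <;> rfl

theorem plt_pos {y : Letter} (h : y.2 = true) : plt y = y := by
  obtain ⟨i, b⟩ := y
  simp only at h
  subst h
  rfl

theorem plt_neg {y : Letter} (h : y.2 = false) : plt y = flip y := by
  obtain ⟨i, b⟩ := y
  simp only at h
  subst h
  rfl

theorem nxt_iter_plt (a : ℕ) (y : Letter) : nxt^[a] (plt y) = plt y := VLad.nxt_iter_pos rfl a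

theorem prv_plt (y : Letter) : prv (plt y) = plt y := DSys.nxt_pos rfl

theorem psz_congr {l n : ℕ} {y y' : Letter} (h : y.1 = y'.1) : psz l n y = psz l n y' := by
  unfold psz
  rw [h]

namespace VLad

variable {l m n : ℕ} (V : VLad l m n)

/-- The number of edges of the cap starting at `(σ, i)` (its lowest vertex), `0` if there is none. -/
def capR (σ : Bool) (i : ℕ) : ℕ :=
  if V.isP σ i ∧ psz l n (V.u σ i) ≤ 3 then 1
  else if V.isP σ i ∧ V.u σ (i + 1) = V.u σ i ∧ psz l n (V.u σ i) ≤ 5 then 2 else 0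

/-- Conditions for attaching the caps. -/
structure Good : Prop where
  hl : 2 ≤ l
  hn : 2 ≤ n
  hP : ∀ k σ, (V.c k).2 = false → 0 < V.len k σ
  g1 : ∀ σ i, V.isP σ i → psz l n (V.u σ i) ≤ 3 → V.u σ (i + 1) ≠ V.u σ i
  g2 : ∀ σ i, V.isP σ i → psz l n (V.u σ i) ≤ 7 → V.u σ (i + 1) = V.u σ i →
    V.u σ (i + 2) ≠ V.u σ i

/-- The indices of the caps. -/
abbrev Cap : Type := {p : Bool × ℕ // 0 < V.capR p.1 p.2}

theorem capR_cases {σ : Bool} {i : ℕ} (h : 0 < V.capR σ i) :
    (V.capR σ i = 1 ∧ V.isP σ i ∧ psz l n (V.u σ i) ≤ 3) ∨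
    (V.capR σ i = 2 ∧ V.isP σ i ∧ V.u σ (i + 1) = V.u σ i ∧ 4 ≤ psz l n (V.u σ i) ∧
      psz l n (V.u σ i) ≤ 5) := by
  unfold capR at h ⊢
  split_ifs at h ⊢ with h1 h2
  · exact Or.inl ⟨rfl, h1⟩
  · refine Or.inr ⟨rfl, h2.1, h2.2.1, ?_, h2.2.2⟩
    by_contra hcon
    exact h1 ⟨h2.1, by omega⟩
  · exact absurd h (lt_irrefl 0)

theorem isP_of_cap {σ : Bool} {i : ℕ} (h : 0 < V.capR σ i) : V.isP σ i := by
  rcases V.capR_cases h with h | h
  · exact h.2.1
  · exact h.2.1

theorem two_le_psz (hG : V.Good) (y : Letter) : 2 ≤ psz l n y := by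
  unfold psz
  split_ifs
  · exact hG.hl
  · exact hG.hn

theorem two_mul_capR_le (hG : V.Good) {σ : Bool} {i : ℕ} (h : 0 < V.capR σ i) :
    2 * V.capR σ i ≤ psz l n (V.u σ i) := by
  have h2 := V.two_le_psz hG (V.u σ i)
  rcases V.capR_cases h with h | h <;> omega

theorem rung_low {σ : Bool} {i k : ℕ} (hP : V.isP σ i) (h : V.pos σ k = i) :
    flip (V.u σ i) ≠ V.rg σ k := by
  obtain ⟨K, j, hj, rfl⟩ := V.exists_cell σ i
  have hc := (V.isP_iff hj).1 hP
  rw [V.u_eq hj]
  obtain ⟨rfl, rfl | ⟨rfl, h0⟩⟩ := V.cell_above hj h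
  · unfold ul rg
    generalize V.c K = y at hc
    revert y
    cases σ <;> decide
  · intro h2
    have h3 := congrArg Prod.snd h2
    rw [flip_snd, ul_snd, rg_snd, hc] at h3
    have h4 := V.alternate k
    rw [hc] at h4
    have h5 : (V.c k).2 = true := by
      cases h6 : (V.c k).2
      · rw [h6] at h4; cases h4
      · rfl
    rw [h5] at h3
    cases σ <;> cases h3

theorem rung_high {σ : Bool} {i k : ℕ} (hP : V.isP σ i) (h : V.pos σ k = i + 1) :
    V.u σ i ≠ V.rg σ k := by
  obtain ⟨K, j, hj, rfl⟩ := V.exists_cell σ i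
  have hc := (V.isP_iff hj).1 hP
  rw [V.u_eq hj]
  obtain ⟨h1, rfl | ⟨rfl, h0⟩⟩ := V.cell_below hj h
  · have hst := V.stepσ σ K
    rw [← h1, Function.iterate_succ_apply' nxt (j + 1)] at hst
    unfold ul rg
    rw [hst]
    have hz : (nxt^[j + 1] (V.c K)).2 = false := by rw [nxt_iter_snd, hc]
    generalize nxt^[j + 1] (V.c K) = y at hz
    revert y
    cases σ <;> decide
  · intro h2
    have h3 := congrArg Prod.snd h2
    rw [ul_snd, rg_snd, show K + 2 = K + 1 + 1 from rfl, V.alternate, V.alternate, hc] at h3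
    cases σ <;> cases h3

/-- no dart along the cap at its lowest vertex -/
theorem low_free (hG : V.Good) {σ : Bool} {i : ℕ} (h : 0 < V.capR σ i) (x' : Bool × ℕ) :
    ¬ V.Adj (σ, i) (flip (V.u σ i)) x' := by
  have hP := V.isP_of_cap h
  intro ha
  rw [adj_iff] at ha
  rcases ha with ⟨h1, -⟩ | ⟨j, rfl, h1, -⟩ | ⟨k, h1, h2, -⟩
  · have h3 := congrArg Prod.snd h1
    rw [flip_snd] at h3
    cases h4 : (V.u σ i).2 <;> rw [h4] at h3 <;> cases h3
  · have h2 := flip_inj h1
    have hPj : V.isP σ j := by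
      unfold isP at hP ⊢
      rw [← h2]
      exact hP
    rcases V.capR_cases h with ⟨-, -, h3⟩ | ⟨-, -, h3, -, h4⟩
    · rw [h2] at h3
      exact hG.g1 σ j hPj h3 h2
    · rw [h2] at h4 h3
      exact hG.g2 σ j hPj (by omega) h2 h3
  · exact V.rung_low hP h1 h2

theorem u_top {σ : Bool} {i : ℕ} (h : 0 < V.capR σ i) {t : ℕ} (ht : t < V.capR σ i) :
    V.u σ (i + t) = V.u σ i := by
  rcases V.capR_cases h with h1 | ⟨h1, -, h2, -⟩
  · have : t = 0 := by omega
    rw [this]
    rfl
  · rcases (show t = 0 ∨ t = 1 by omega) with rfl | rfl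
    · rfl
    · exact h2

/-- no dart along the cap at its highest vertex -/
theorem high_free (hG : V.Good) {σ : Bool} {i : ℕ} (h : 0 < V.capR σ i) (x' : Bool × ℕ) :
    ¬ V.Adj (σ, i + V.capR σ i) (V.u σ i) x' := by
  have hP := V.isP_of_cap h
  have htop := V.u_top h (t := V.capR σ i - 1) (by omega)
  intro ha
  rw [adj_iff] at ha
  rcases ha with ⟨h1, -⟩ | ⟨j, h0, h1, -⟩ | ⟨k, h1, h2, -⟩
  · rcases V.capR_cases h with ⟨h2, -, h3⟩ | ⟨h2, -, h3, -, h4⟩
    · rw [h2] at h1
      exact hG.g1 σ i hP h3 h1.symm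
    · rw [h2] at h1
      exact hG.g2 σ i hP (by omega) h3 h1.symm
  · have h2 : j = i + (V.capR σ i - 1) := by omega
    rw [h2, htop] at h1
    have h3 := congrArg Prod.snd h1
    rw [flip_snd] at h3
    cases h4 : (V.u σ i).2 <;> rw [h4] at h3 <;> cases h3
  · have h3 : V.isP σ (i + (V.capR σ i - 1)) := by
      unfold isP at hP ⊢
      rw [htop]
      exact hP
    rw [← htop] at h2
    exact V.rung_high h3 (by rw [h1]; omega) h2

theorem plt_right {i : ℕ} (hP : V.isP true i) : plt (V.u true i) = flip (V.u true i) :=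
  plt_neg hP

theorem plt_left {i : ℕ} (hP : V.isP false i) : plt (V.u false i) = V.u false i :=
  plt_pos hP

theorem capR_congr {σ : Bool} {i i' : ℕ} (h : 0 < V.capR σ i) (h' : 0 < V.capR σ i')
    (hu : (V.u σ i).1 = (V.u σ i').1) : V.capR σ i = V.capR σ i' := by
  have h1 := psz_congr (l := l) (n := n) hu
  rcases V.capR_cases h with h2 | h2 <;> rcases V.capR_cases h' with h3 | h3 <;> omega

/-- The caps. -/
def att (hG : V.Good) : Att V.sys l m n V.Cap where
  y p := plt (V.u p.1.1 p.1.2)
  r p := V.capR p.1.1 p.1.2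
  f p t := if p.1.1 then (true, p.1.2 + V.capR p.1.1 p.1.2 - t) else (false, p.1.2 + t)
  r_pos p := p.2
  r_lt := by
    rintro ⟨⟨σ, i⟩, h⟩
    have h2 : 0 < V.capR σ i := h
    have h1 := V.two_mul_capR_le hG h2
    change V.capR σ i < fper l m n (plt (V.u σ i))
    rw [fper_plt]
    omega
  path := by
    rintro ⟨⟨σ, i⟩, h⟩ t ht
    have hh : 0 < V.capR σ i := h
    have hP := V.isP_of_cap hh
    change t < V.capR σ i at ht
    change V.Adj _ (nxt^[t] (plt (V.u σ i))) _
    rw [nxt_iter_plt]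
    cases σ
    · change V.Adj (false, i + t) _ (false, i + (t + 1))
      rw [V.plt_left hP, ← V.u_top hh ht]
      exact Adj.up false (i + t)
    · change V.Adj (true, i + V.capR true i - t) _ (true, i + V.capR true i - (t + 1))
      rw [V.plt_right hP, ← V.u_top hh (t := V.capR true i - 1 - t) (by omega),
        show i + V.capR true i - t = i + (V.capR true i - 1 - t) + 1 by omega,
        show i + V.capR true i - (t + 1) = i + (V.capR true i - 1 - t) by omega]
      exact Adj.down true _
  free_top := by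
    rintro ⟨⟨σ, i⟩, h⟩ x' hx
    have hP := V.isP_of_cap h
    change V.Adj _ (nxt^[V.capR σ i] (plt (V.u σ i))) _ at hx
    rw [nxt_iter_plt] at hx
    cases σ
    · change V.Adj (false, i + V.capR false i) _ _ at hx
      rw [V.plt_left hP] at hx
      exact V.high_free hG h x' hx
    · change V.Adj (true, i + V.capR true i - V.capR true i) _ _ at hx
      rw [V.plt_right hP, Nat.add_sub_cancel] at hx
      exact V.low_free hG h x' hx
  free_bot := by
    rintro ⟨⟨σ, i⟩, h⟩ x' hx
    have hP := V.isP_of_cap h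
    change V.Adj _ (flip (prv (plt (V.u σ i)))) _ at hx
    rw [prv_plt] at hx
    cases σ
    · change V.Adj (false, i + 0) _ _ at hx
      rw [V.plt_left hP] at hx
      exact V.low_free hG h x' hx
    · change V.Adj (true, i + V.capR true i - 0) _ _ at hx
      rw [V.plt_right hP, flip_flip, Nat.sub_zero] at hx
      exact V.high_free hG h x' hx
  inj_top := by
    rintro ⟨⟨σ, i⟩, h⟩ ⟨⟨σ', i'⟩, h'⟩ h1 h2
    change nxt^[V.capR σ i] (plt (V.u σ i)) = nxt^[V.capR σ' i'] (plt (V.u σ' i')) at h2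
    rw [nxt_iter_plt, nxt_iter_plt] at h2
    have h3 := congrArg Prod.fst h2
    change (V.u σ i).1 = (V.u σ' i').1 at h3
    have hh : 0 < V.capR σ i := h
    have hh' : 0 < V.capR σ' i' := h'
    apply Subtype.ext
    change ((σ, i) : Bool × ℕ) = (σ', i')
    cases σ <;> cases σ'
    · change (false, i + V.capR false i) = (false, i' + V.capR false i') at h1
      have h4 := congrArg Prod.snd h1
      have h5 := V.capR_congr hh hh' h3
      simp only at h4
      have h6 : i = i' := by omega
      exact Prod.ext rfl h6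
    · cases congrArg Prod.fst h1
    · cases congrArg Prod.fst h1
    · change (true, i + V.capR true i - V.capR true i) =
        (true, i' + V.capR true i' - V.capR true i') at h1
      have h4 := congrArg Prod.snd h1
      simp only at h4
      have h6 : i = i' := by omega
      exact Prod.ext rfl h6
  inj_bot := by
    rintro ⟨⟨σ, i⟩, h⟩ ⟨⟨σ', i'⟩, h'⟩ h1 h2
    have h3 := congrArg Prod.fst h2
    change (V.u σ i).1 = (V.u σ' i').1 at h3
    have hh : 0 < V.capR σ i := h
    have hh' : 0 < V.capR σ' i' := h'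
    apply Subtype.ext
    change ((σ, i) : Bool × ℕ) = (σ', i')
    cases σ <;> cases σ'
    · change (false, i + 0) = (false, i' + 0) at h1
      have h4 := congrArg Prod.snd h1
      simp only at h4
      have h6 : i = i' := by omega
      exact Prod.ext rfl h6
    · cases congrArg Prod.fst h1
    · cases congrArg Prod.fst h1
    · change (true, i + V.capR true i - 0) = (true, i' + V.capR true i' - 0) at h1
      have h4 := congrArg Prod.snd h1
      have h5 := V.capR_congr hh hh' h3
      simp only at h4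
      have h6 : i = i' := by omega
      exact Prod.ext rfl h6
  disj := by
    rintro ⟨⟨σ, i⟩, h⟩ ⟨⟨σ', i'⟩, h'⟩ - h2
    change nxt^[V.capR σ i] (plt (V.u σ i)) = flip (prv (plt (V.u σ' i'))) at h2
    rw [nxt_iter_plt, prv_plt] at h2
    have h3 := congrArg Prod.snd h2
    cases h3

variable (hG : V.Good)

/-- The vertices of the ladder with caps. -/
abbrev CX : Type := (Bool × ℕ) ⊕ (V.Cap × ℕ)

/-- The ladder with caps. -/
noncomputable def csys : DSys V.CX := (V.att hG).sys

/-- The offset at the rung `k`. -/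
def off (o0 : ℤ) (k : ℕ) : ℤ := V.pos false k + o0 - V.pos true k

/-- The potential: both lines are tight. The vertex `(p, t)` of a cap with `q = fper - r` new edges
is `q - (t - r)` edges above the lowest vertex on the left line, and `t - r` edges above it on the
right line; the potential is constant first, and then increases. -/
def cF (o0 : ℤ) : V.CX → ℤ
  | Sum.inl (σ, i) => i + (if σ then 0 else o0)
  | Sum.inr (p, t) => p.1.2 + (if p.1.1 then 0 else o0) +
      (if p.1.1 then (t : ℤ) - psz l n (V.u p.1.1 p.1.2) + V.capR p.1.1 p.1.2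
        else 2 * V.capR p.1.1 p.1.2 - t) ⊔ 0

/-- The extension of potentials on the lines, for the heights. -/
def cH (H : Bool → ℕ → ℤ) : V.CX → ℤ
  | Sum.inl (σ, i) => H σ i
  | Sum.inr (p, _) =>
      if 2 * V.capR p.1.1 p.1.2 = psz l n (V.u p.1.1 p.1.2) then
        (if p.1.1 then H true p.1.2 else H false (p.1.2 + V.capR p.1.1 p.1.2))
      else H p.1.1 (p.1.2 + V.capR p.1.1 p.1.2) + 1

theorem fper_att (p : V.Cap) :
    fper l m n ((V.att hG).y p) = psz l n (V.u p.1.1 p.1.2) := fper_plt l m n _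

theorem cF_path' (o0 : ℤ) (p : V.Cap) {t : ℕ} (h1 : V.capR p.1.1 p.1.2 ≤ t)
    (h2 : t ≤ psz l n (V.u p.1.1 p.1.2)) :
    V.cF o0 ((V.att hG).path' p t) = p.1.2 + (if p.1.1 then 0 else o0) +
      (if p.1.1 then (t : ℤ) - psz l n (V.u p.1.1 p.1.2) + V.capR p.1.1 p.1.2
        else 2 * V.capR p.1.1 p.1.2 - t) ⊔ 0 := by
  obtain ⟨⟨σ, i⟩, h⟩ := p
  have hpos : 0 < V.capR σ i := h
  have h3 := V.two_mul_capR_le hG hpos
  simp only at h1 h2 ⊢
  rcases h1.eq_or_lt with h4 | h4
  · rw [(V.att hG).path'_old (i := ⟨(σ, i), h⟩) (t := t) (by rw [← h4]; exact le_rfl)]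
    cases σ
    · change ((i + t : ℕ) : ℤ) + o0 = _
      simp only [Bool.false_eq_true, if_false]
      rw [← h4, max_eq_left (by omega)]
      push_cast
      ring
    · change ((i + V.capR true i - t : ℕ) : ℤ) + 0 = _
      simp only [if_true]
      rw [← h4, max_eq_right (by omega)]
      omega
  · rcases h2.eq_or_lt with h5 | h5
    · rw [(V.att hG).path'_last (i := ⟨(σ, i), h⟩) (t := t) (by rw [V.fper_att hG, h5])]
      cases σ
      · change ((i + 0 : ℕ) : ℤ) + o0 = _
        simp only [Bool.false_eq_true, if_false]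
        rw [max_eq_right (by omega)]
        push_cast
        ring
      · change ((i + V.capR true i - 0 : ℕ) : ℤ) + 0 = _
        simp only [if_true]
        rw [h5, max_eq_left (by omega)]
        omega
    · rw [(V.att hG).path'_new (i := ⟨(σ, i), h⟩) (t := t) h4 (by rw [V.fper_att hG]; exact h5)]
      rfl

theorem cF_lip (o0 : ℤ) (ho : ∀ k, |V.off o0 k| ≤ 1) (x : V.CX) (y : Letter) (x' : V.CX)
    (h : (V.csys hG).Adj x y x') : V.cF o0 x' ≤ V.cF o0 x + 1 := by
  change (V.att hG).Adj x y x' at h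
  cases h with
  | old h =>
    cases h with
    | up σ i =>
      change ((i + 1 : ℕ) : ℤ) + _ ≤ (i : ℤ) + _ + 1
      push_cast
      omega
    | down σ i =>
      change (i : ℤ) + _ ≤ ((i + 1 : ℕ) : ℤ) + _ + 1
      push_cast
      omega
    | lr k =>
      have h1 := abs_le.1 (ho k)
      unfold off at h1
      change (V.pos true k : ℤ) + 0 ≤ (V.pos false k : ℤ) + o0 + 1
      omega
    | rl k =>
      have h1 := abs_le.1 (ho k)
      unfold off at h1
      change (V.pos false k : ℤ) + o0 ≤ (V.pos true k : ℤ) + 0 + 1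
      omega
  | fwd p t h1 h2 =>
    rw [V.fper_att hG] at h2
    change V.capR p.1.1 p.1.2 ≤ t at h1
    rw [V.cF_path' hG o0 p h1 h2.le, V.cF_path' hG o0 p (t := t + 1) (by omega) h2]
    split_ifs <;> push_cast <;> omega
  | bwd p t h1 h2 =>
    rw [V.fper_att hG] at h2
    change V.capR p.1.1 p.1.2 ≤ t at h1
    rw [V.cF_path' hG o0 p h1 h2.le, V.cF_path' hG o0 p (t := t + 1) (by omega) h2]
    split_ifs <;> push_cast <;> omega

/-- There is an even cap at `(σ, i)`. -/
def Even (σ : Bool) (i : ℕ) : Prop :=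
  0 < V.capR σ i ∧ 2 * V.capR σ i = psz l n (V.u σ i)

/-- The vertex in the middle of an even cap with `4` edges, the top of a cap with `2` edges. -/
def evenTop (σ : Bool) (i : ℕ) : V.CX → Prop := fun x =>
  (V.capR σ i = 1 ∧ x = Sum.inl (σ, i + 1)) ∨
    (V.capR σ i = 2 ∧ ∃ h : 0 < V.capR σ i, x = Sum.inr (⟨(σ, i), h⟩, 3))

/-- The edges of the even caps, read upwards. -/
theorem even_edge (σ : Bool) (i : ℕ) (hE : V.Even σ i) :
    (V.capR σ i = 1 → (V.csys hG).Adj (Sum.inl (σ, i)) (flip (V.u σ i)) (Sum.inl (σ, i + 1))) ∧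
    (∀ h0 : 0 < V.capR σ i, V.capR σ i = 2 →
      (V.csys hG).Adj (Sum.inl (σ, i)) (flip (V.u σ i)) (Sum.inr (⟨(σ, i), h0⟩, 3)) ∧
      (V.csys hG).Adj (Sum.inr (⟨(σ, i), h0⟩, 3)) (flip (V.u σ i)) (Sum.inl (σ, i + 2))) := by
  obtain ⟨hpos, hev⟩ := hE
  have hP := V.isP_of_cap hpos
  constructor
  · intro h1
    rw [h1] at hev
    change (V.att hG).Adj _ _ _
    set p : V.Cap := ⟨(σ, i), hpos⟩ with hp
    have hr : (V.att hG).r p = 1 := h1
    have hf : fper l m n ((V.att hG).y p) = 2 := by rw [V.fper_att hG, hp, ← hev]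
    have hy : nxt^[1] ((V.att hG).y p) = plt (V.u σ i) := nxt_iter_plt 1 _
    have e1 : (V.att hG).path' p 1 = Sum.inl ((V.att hG).f p 1) :=
      (V.att hG).path'_old (by rw [hr])
    have e2 : (V.att hG).path' p (1 + 1) = Sum.inl ((V.att hG).f p 0) :=
      (V.att hG).path'_last (by rw [hf])
    cases σ
    · have h2 := Att.Adj.bwd (A := V.att hG) p 1 (by rw [hr]) (by rw [hf]; decide)
      rw [e1, e2, hy, V.plt_left hP] at h2
      exact h2
    · have h2 := Att.Adj.fwd (A := V.att hG) p 1 (by rw [hr]) (by rw [hf]; decide)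
      rw [e1, e2, hy, V.plt_right hP] at h2
      have h3 : (V.att hG).f p 1 = (true, i) := by
        change (true, i + V.capR true i - 1) = (true, i)
        rw [h1, Nat.add_sub_cancel]
      have h4 : (V.att hG).f p 0 = (true, i + 1) := by
        change (true, i + V.capR true i - 0) = (true, i + 1)
        rw [h1, Nat.sub_zero]
      rw [h3, h4] at h2
      exact h2
  · intro h0 h1
    rw [h1] at hev
    change (V.att hG).Adj _ _ _ ∧ (V.att hG).Adj _ _ _
    set p : V.Cap := ⟨(σ, i), h0⟩ with hp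
    have hr : (V.att hG).r p = 2 := h1
    have hf : fper l m n ((V.att hG).y p) = 4 := by rw [V.fper_att hG, hp, ← hev]
    have hy2 : nxt^[2] ((V.att hG).y p) = plt (V.u σ i) := nxt_iter_plt 2 _
    have hy3 : nxt^[3] ((V.att hG).y p) = plt (V.u σ i) := nxt_iter_plt 3 _
    have e2 : (V.att hG).path' p 2 = Sum.inl ((V.att hG).f p 2) :=
      (V.att hG).path'_old (by rw [hr])
    have e3 : (V.att hG).path' p 3 = Sum.inr (p, 3) :=
      (V.att hG).path'_new (by rw [hr]; decide) (by rw [hf]; decide)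
    have e4 : (V.att hG).path' p (3 + 1) = Sum.inl ((V.att hG).f p 0) :=
      (V.att hG).path'_last (by rw [hf])
    cases σ
    · have h2 := Att.Adj.bwd (A := V.att hG) p 3 (by rw [hr]; decide) (by rw [hf]; decide)
      have h3 := Att.Adj.bwd (A := V.att hG) p 2 (by rw [hr]) (by rw [hf]; decide)
      rw [e3, e4, hy3, V.plt_left hP] at h2
      rw [show 2 + 1 = 3 from rfl, e3, e2, hy2, V.plt_left hP] at h3
      exact ⟨h2, h3⟩
    · have h2 := Att.Adj.fwd (A := V.att hG) p 2 (by rw [hr]) (by rw [hf]; decide)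
      have h3 := Att.Adj.fwd (A := V.att hG) p 3 (by rw [hr]; decide) (by rw [hf]; decide)
      rw [show 2 + 1 = 3 from rfl, e3, e2, hy2, V.plt_right hP] at h2
      rw [e3, e4, hy3, V.plt_right hP] at h3
      have h4 : (V.att hG).f p 2 = (true, i) := by
        change (true, i + V.capR true i - 2) = (true, i)
        rw [h1, Nat.add_sub_cancel]
      have h5 : (V.att hG).f p 0 = (true, i + 2) := by
        change (true, i + V.capR true i - 0) = (true, i + 2)
        rw [h1, Nat.sub_zero]
      rw [h4] at h2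
      rw [h5] at h3
      exact ⟨h2, h3⟩

end VLad

end Pool.Agent.SLE
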