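import Pool.Agent.SLE.Group

/-!
# The central element `z = b ^ n` of `E(l,m,n)` has infinite order (hyperbolic case)

The proof maps `E(l,m,n)` to a quotient of `G × ℤ`, where `G` is the centraliser of the
translation by `π` in the homeomorphism group of the line; the images of the generators are
lifts of real linear maps `z ↦ P z + Q conj z` of the complex plane to the line of angles.
-/

namespace Pool.Agent.SLE

open Complex

open scoped ComplexConjugate

/-- `f` is a lift to angles of the real linear map `z ↦ P z + Q conj z`. -/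
def IsLift (P Q : ℂ) (f : ℝ → ℝ) : Prop :=
  ∀ x : ℝ, ∃ r : ℝ, 0 < r ∧
    P * exp ((x : ℂ) * I) + Q * exp (-((x : ℂ) * I)) = (r : ℂ) * exp ((f x : ℂ) * I)

lemma conj_exp_ofReal_mul_I (x : ℝ) : conj (exp ((x : ℂ) * I)) = exp (-((x : ℂ) * I)) := by
  rw [← exp_conj]; simp

lemma conj_exp_neg_ofReal_mul_I (x : ℝ) : conj (exp (-((x : ℂ) * I))) = exp ((x : ℂ) * I) := by
  rw [← exp_conj]; simp

lemma isLift_rot (t : ℝ) : IsLift (exp ((t : ℂ) * I)) 0 (fun x => x + t) := by
  intro x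
  refine ⟨1, one_pos, ?_⟩
  push_cast
  rw [zero_mul, add_zero, one_mul, ← exp_add]
  ring_nf

lemma IsLift.comp {P Q P' Q' : ℂ} {f g : ℝ → ℝ} (hf : IsLift P Q f) (hg : IsLift P' Q' g) :
    IsLift (P * P' + Q * conj Q') (P * Q' + Q * conj P') (fun x => f (g x)) := by
  intro x
  obtain ⟨r, hr, h1⟩ := hg x
  obtain ⟨s, hs, h2⟩ := hf (g x)
  refine ⟨r * s, mul_pos hr hs, ?_⟩
  have h3 : conj (P' * exp ((x : ℂ) * I) + Q' * exp (-((x : ℂ) * I))) =
      (r : ℂ) * exp (-((g x : ℂ) * I)) := by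
    rw [h1, map_mul, conj_ofReal, conj_exp_ofReal_mul_I]
  rw [map_add, map_mul, map_mul, conj_exp_ofReal_mul_I, conj_exp_neg_ofReal_mul_I] at h3
  have h4 : (P * P' + Q * conj Q') * exp ((x : ℂ) * I) +
      (P * Q' + Q * conj P') * exp (-((x : ℂ) * I)) =
      P * (P' * exp ((x : ℂ) * I) + Q' * exp (-((x : ℂ) * I))) +
      Q * (conj P' * exp (-((x : ℂ) * I)) + conj Q' * exp ((x : ℂ) * I)) := by ring
  rw [h4, h1, h3]
  have h5 : P * ((r : ℂ) * exp ((g x : ℂ) * I)) + Q * ((r : ℂ) * exp (-((g x : ℂ) * I))) =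
      (r : ℂ) * (P * exp ((g x : ℂ) * I) + Q * exp (-((g x : ℂ) * I))) := by ring
  rw [h5, h2]
  push_cast
  ring

lemma IsLift.sub_mem {P Q : ℂ} {f g : ℝ → ℝ} (hf : IsLift P Q f) (hg : IsLift P Q g) (x : ℝ) :
    ∃ k : ℤ, f x = g x + 2 * Real.pi * k := by
  obtain ⟨r, hr, h1⟩ := hf x
  obtain ⟨s, hs, h2⟩ := hg x
  rw [h1] at h2
  have hrs : r = s := by
    have := congrArg norm h2
    rwa [norm_mul, norm_mul, norm_exp_ofReal_mul_I, norm_exp_ofReal_mul_I, norm_real, norm_real,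
      Real.norm_of_nonneg hr.le, Real.norm_of_nonneg hs.le, mul_one, mul_one] at this
  subst hrs
  have h3 : exp ((f x : ℂ) * I) = exp ((g x : ℂ) * I) :=
    mul_left_cancel₀ (by exact_mod_cast hr.ne') h2
  obtain ⟨k, hk⟩ := exp_eq_exp_iff_exists_int.1 h3
  refine ⟨k, ?_⟩
  have h4 : ((f x : ℂ) - (g x + 2 * Real.pi * k)) * I = 0 := by
    rw [sub_mul, hk]; ring
  have h5 : ((f x : ℂ) - (g x + 2 * Real.pi * k)) = 0 := by
    rcases mul_eq_zero.1 h4 with h | h
    · exact h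
    · exact absurd h I_ne_zero
  have h6 : ((f x - (g x + 2 * Real.pi * k) : ℝ) : ℂ) = 0 := by push_cast; exact h5
  have h7 := ofReal_eq_zero.1 h6
  linarith

/-- Two continuous lifts of the same map differ by a constant in `2 π ℤ`. -/
lemma IsLift.unique {P Q : ℂ} {f g : ℝ → ℝ} (hf : IsLift P Q f) (hg : IsLift P Q g)
    (hfc : Continuous f) (hgc : Continuous g) : ∃ k : ℤ, ∀ x, f x = g x + 2 * Real.pi * k := by
  have h2pi : (0 : ℝ) < 2 * Real.pi := by positivity
  have key : ∀ x, ∃ k : ℤ, (f x - g x) / (2 * Real.pi) = k := by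
    intro x
    obtain ⟨k, hk⟩ := hf.sub_mem hg x
    refine ⟨k, ?_⟩
    rw [hk]; field_simp; ring
  choose k hk using key
  have hkc : Continuous k := by
    have h1 : Continuous (fun x => ((k x : ℤ) : ℝ)) := by
      have : (fun x => ((k x : ℤ) : ℝ)) = fun x => (f x - g x) / (2 * Real.pi) := by
        funext x; exact (hk x).symm
      rw [this]; fun_prop
    exact (Int.isClosedEmbedding_coe_real.isEmbedding.continuous_iff).2 h1
  refine ⟨k 0, fun x => ?_⟩
  have h2 : k x = k 0 := (PreconnectedSpace.constant inferInstance hkc)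
  have h3 := hk x
  rw [h2] at h3
  field_simp at h3
  linarith

/-- The lift of the positive map `z ↦ p z + q conj z`, `|q| < p`. -/
noncomputable def sh (p : ℝ) (q : ℂ) (x : ℝ) : ℝ := x + arg ((p : ℂ) + q * exp (-(2 * (x : ℂ) * I)))

lemma sh_re_pos {p : ℝ} {q : ℂ} (h : ‖q‖ < p) (x : ℝ) :
    0 < ((p : ℂ) + q * exp (-(2 * (x : ℂ) * I))).re := by
  have h1 : ‖q * exp (-(2 * (x : ℂ) * I))‖ = ‖q‖ := by
    rw [norm_mul]
    have : exp (-(2 * (x : ℂ) * I)) = exp (((-(2 * x) : ℝ) : ℂ) * I) := by push_cast; ring_nf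
    rw [this, norm_exp_ofReal_mul_I, mul_one]
  have h2 := abs_re_le_norm (q * exp (-(2 * (x : ℂ) * I)))
  rw [h1] at h2
  have h3 := (abs_le.1 h2).1
  rw [add_re, ofReal_re]
  linarith

lemma continuous_sh {p : ℝ} {q : ℂ} (h : ‖q‖ < p) : Continuous (sh p q) := by
  refine continuous_id.add ?_
  rw [continuous_iff_continuousAt]
  intro x
  refine ContinuousAt.comp (f := fun x : ℝ => (p : ℂ) + q * exp (-(2 * (x : ℂ) * I)))
    (g := arg) ?_ ?_
  · apply continuousAt_arg
    left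
    exact sh_re_pos h x
  · fun_prop

lemma abs_sh_sub_lt {p : ℝ} {q : ℂ} (h : ‖q‖ < p) (x : ℝ) : |sh p q x - x| < Real.pi := by
  unfold sh
  rw [add_sub_cancel_left]
  have h1 : |arg ((p : ℂ) + q * exp (-(2 * (x : ℂ) * I)))| < Real.pi / 2 :=
    abs_arg_lt_pi_div_two_iff.2 (Or.inl (sh_re_pos h x))
  linarith [Real.pi_pos]

lemma isLift_sh {p : ℝ} {q : ℂ} (h : ‖q‖ < p) : IsLift p q (sh p q) := by
  intro x
  set w : ℂ := (p : ℂ) + q * exp (-(2 * (x : ℂ) * I)) with hw
  have hwpos := sh_re_pos h x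
  rw [← hw] at hwpos
  have hw0 : w ≠ 0 := by
    intro h0; rw [h0] at hwpos; simp at hwpos
  refine ⟨‖w‖, norm_pos_iff.2 hw0, ?_⟩
  have h1 : (‖w‖ : ℂ) * exp (arg w * I) = w := norm_mul_exp_arg_mul_I w
  have h2 : sh p q x = x + arg w := rfl
  rw [h2]
  push_cast
  rw [add_mul, exp_add]
  have h3 : (‖w‖ : ℂ) * (exp ((x : ℂ) * I) * exp (arg w * I)) = w * exp ((x : ℂ) * I) := by
    have : (‖w‖ : ℂ) * (exp ((x : ℂ) * I) * exp (arg w * I)) =
      ((‖w‖ : ℂ) * exp (arg w * I)) * exp ((x : ℂ) * I) := by ring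
    rw [this, h1]
  rw [h3, hw, add_mul, mul_assoc, ← exp_add]
  ring_nf

lemma sh_add_pi (p : ℝ) (q : ℂ) (x : ℝ) : sh p q (x + Real.pi) = sh p q x + Real.pi := by
  unfold sh
  have h1 : exp (-(2 * ((x + Real.pi : ℝ) : ℂ) * I)) = exp (-(2 * (x : ℂ) * I)) := by
    have : -(2 * ((x + Real.pi : ℝ) : ℂ) * I) = -(2 * (x : ℂ) * I) - 2 * Real.pi * I := by
      push_cast; ring
    rw [this, exp_sub, exp_two_pi_mul_I, div_one]
  rw [h1]; ring

lemma sh_neg_sh {p : ℝ} {q : ℂ} (hp : 0 < p) (h : p ^ 2 - ‖q‖ ^ 2 = 1) (x : ℝ) :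
    sh p (-q) (sh p q x) = x := by
  have hq : ‖q‖ < p := by
    have := norm_nonneg q
    nlinarith
  have hq' : ‖-q‖ < p := by rwa [norm_neg]
  have h1 := (isLift_sh hq').comp (isLift_sh hq)
  have e1 : (p : ℂ) * p + -q * conj q = exp (((0 : ℝ) : ℂ) * I) := by
    have : q * conj q = (‖q‖ ^ 2 : ℝ) := by rw [mul_conj, normSq_eq_norm_sq]
    rw [neg_mul, this]
    simp only [ofReal_zero, zero_mul, exp_zero]
    have h2 : ((p ^ 2 - ‖q‖ ^ 2 : ℝ) : ℂ) = 1 := by rw [h]; simp
    rw [← h2]; push_cast; ring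
  have e2 : (p : ℂ) * q + -q * conj (p : ℂ) = 0 := by
    rw [conj_ofReal]; ring
  rw [e1, e2] at h1
  obtain ⟨k, hk⟩ := h1.sub_mem (isLift_rot 0) x
  have h3 : |sh p (-q) (sh p q x) - x| < 2 * Real.pi := by
    have a1 := abs_sh_sub_lt hq' (sh p q x)
    have a2 := abs_sh_sub_lt hq x
    have a3 : sh p (-q) (sh p q x) - x = (sh p (-q) (sh p q x) - sh p q x) + (sh p q x - x) := by
      ring
    rw [a3]
    exact lt_of_le_of_lt (abs_add_le _ _) (by linarith)
  simp only [add_zero] at hk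
  rw [hk] at h3 ⊢
  have h4 : x + 2 * Real.pi * k - x = 2 * Real.pi * k := by ring
  rw [h4, abs_mul, abs_of_pos (by positivity : (0 : ℝ) < 2 * Real.pi)] at h3
  have h5 : |(k : ℝ)| < 1 := by
    have h2pi : (0 : ℝ) < 2 * Real.pi := by positivity
    by_contra hcon
    push Not at hcon
    nlinarith
  have h6 : k = 0 := by
    have : |k| < 1 := by exact_mod_cast h5
    exact Int.abs_lt_one_iff.1 this
  rw [h6]; simp

/-- The translation by `t`. -/
noncomputable def tr (t : ℝ) : ℝ ≃ₜ ℝ := Homeomorph.addRight t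

lemma tr_apply (t x : ℝ) : tr t x = x + t := rfl

lemma tr_mul (s t : ℝ) : tr s * tr t = tr (s + t) := by
  ext x
  change tr s (tr t x) = _
  rw [tr_apply, tr_apply, tr_apply]; ring

lemma tr_zero : tr 0 = 1 := by
  ext x
  change x + 0 = x
  simp

lemma tr_pow (s : ℝ) (n : ℕ) : tr s ^ n = tr (n * s) := by
  induction n with
  | zero => simp [tr_zero]
  | succ n ih => rw [pow_succ, ih, tr_mul]; congr 1; push_cast; ring

lemma tr_zpow (s : ℝ) (n : ℤ) : tr s ^ n = tr (n * s) := by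
  cases n with
  | ofNat n => simpa using tr_pow s n
  | negSucc n =>
    rw [zpow_negSucc, tr_pow, inv_eq_iff_mul_eq_one, tr_mul]
    rw [← tr_zero]; congr 1; push_cast; ring

lemma tr_injective {s t : ℝ} (h : tr s = tr t) : s = t := by
  have := congrArg (fun e : ℝ ≃ₜ ℝ => e 0) h
  simpa [tr_apply] using this

/-- The lift `sh` as a homeomorphism. -/
noncomputable def shH (p : ℝ) (q : ℂ) (hp : 0 < p) (h : p ^ 2 - ‖q‖ ^ 2 = 1) : ℝ ≃ₜ ℝ where
  toFun := sh p q
  invFun := sh p (-q)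
  left_inv := sh_neg_sh hp h
  right_inv := by
    intro x
    have := sh_neg_sh (q := -q) hp (by rw [norm_neg]; exact h) x
    rwa [neg_neg] at this
  continuous_toFun := continuous_sh (by have := norm_nonneg q; nlinarith)
  continuous_invFun := continuous_sh (by rw [norm_neg]; have := norm_nonneg q; nlinarith)

lemma shH_comm_tr (p : ℝ) (q : ℂ) (hp : 0 < p) (h : p ^ 2 - ‖q‖ ^ 2 = 1) :
    tr Real.pi * shH p q hp h = shH p q hp h * tr Real.pi := by
  ext x
  change sh p q x + Real.pi = sh p q (x + Real.pi)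
  rw [sh_add_pi]

/-- Conjugate of a rotation by the positive map `(p, q)`. -/
lemma isLift_conj (p : ℝ) (q : ℂ) (hp : 0 < p) (h : p ^ 2 - ‖q‖ ^ 2 = 1) (t : ℝ) :
    IsLift ((p : ℂ) ^ 2 * exp ((t : ℂ) * I) - (‖q‖ ^ 2 : ℝ) * exp (-((t : ℂ) * I)))
      ((p : ℂ) * q * (exp (-((t : ℂ) * I)) - exp ((t : ℂ) * I)))
      (shH p q hp h * tr t * (shH p q hp h)⁻¹ : ℝ ≃ₜ ℝ) := by
  have hq : ‖q‖ < p := by
    have := norm_nonneg q
    nlinarith
  have hq' : ‖-q‖ < p := by rwa [norm_neg]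
  have h1 := ((isLift_sh hq).comp (isLift_rot t)).comp (isLift_sh hq')
  have e : (q * conj q) = (‖q‖ ^ 2 : ℝ) := by rw [mul_conj, normSq_eq_norm_sq]
  convert h1 using 1
  · rw [map_zero, mul_zero, add_zero, map_neg, conj_exp_ofReal_mul_I, ← e]
    ring
  · rw [map_zero, mul_zero, add_zero, conj_exp_ofReal_mul_I, conj_ofReal]
    ring
  · rfl

/-- Elliptic elements are conjugate to rotations (up to `2π`). -/
lemma exists_pow_eq {P Q : ℂ} {φ : ℝ} {F : ℝ ≃ₜ ℝ} (hF : IsLift P Q F) (hdet : ‖P‖ ^ 2 - ‖Q‖ ^ 2 = 1)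
    (hre : P.re = Real.cos φ) (him : 0 < P.im) (hφ : 0 < φ) (hφ' : φ < Real.pi) (m : ℕ) (c : ℤ)
    (hm : (m : ℝ) * φ = c * Real.pi) : ∃ k : ℤ, F ^ m = tr Real.pi ^ (c + 2 * k * m) := by
  have hs : 0 < Real.sin φ := Real.sin_pos_of_pos_of_lt_pi hφ hφ'
  set C : ℝ := P.im / Real.sin φ with hC
  have hPim : P.im = C * Real.sin φ := by rw [hC]; field_simp
  have hC0 : 0 < C := div_pos him hs
  have hPn : ‖P‖ ^ 2 = Real.cos φ ^ 2 + (C * Real.sin φ) ^ 2 := by
    rw [← normSq_eq_norm_sq, normSq_apply, hre, hPim]; ring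
  have hQn : ‖Q‖ ^ 2 = (C ^ 2 - 1) * Real.sin φ ^ 2 := by
    have := Real.sin_sq_add_cos_sq φ
    nlinarith
  have hC1 : 1 ≤ C := by
    by_contra hcon
    push Not at hcon
    have h1 : 0 ≤ (C ^ 2 - 1) * Real.sin φ ^ 2 := hQn ▸ sq_nonneg _
    have h2 : (C ^ 2 - 1) < 0 := by nlinarith
    have h3 : 0 < Real.sin φ ^ 2 := by positivity
    nlinarith
  set p : ℝ := Real.sqrt ((C + 1) / 2) with hp
  have hp2 : p ^ 2 = (C + 1) / 2 := Real.sq_sqrt (by positivity)
  have hp0 : 0 < p := Real.sqrt_pos.2 (by positivity)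
  set q : ℂ := I * Q / ((2 * p * Real.sin φ : ℝ) : ℂ) with hq
  have hqn : ‖q‖ ^ 2 = (C - 1) / 2 := by
    rw [hq, norm_div, norm_mul, norm_I, one_mul, div_pow, hQn, norm_real, Real.norm_eq_abs, sq_abs,
      mul_pow, mul_pow, hp2]
    field_simp
    ring
  have hpq : p ^ 2 - ‖q‖ ^ 2 = 1 := by rw [hp2, hqn]; ring
  have h1 := isLift_conj p q hp0 hpq φ
  have ecos : exp ((φ : ℂ) * I) = Real.cos φ + Real.sin φ * I := by
    rw [exp_mul_I]; push_cast; ring
  have ecos' : exp (-((φ : ℂ) * I)) = Real.cos φ - Real.sin φ * I := by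
    have : -((φ : ℂ) * I) = (-(φ : ℂ)) * I := by ring
    rw [this, exp_mul_I, cos_neg, sin_neg]; push_cast; ring
  have e1 : ((p : ℂ) ^ 2 * exp ((φ : ℂ) * I) - (‖q‖ ^ 2 : ℝ) * exp (-((φ : ℂ) * I))) = P := by
    have : (p : ℂ) ^ 2 = ((C + 1) / 2 : ℝ) := by rw [← hp2]; push_cast; ring
    rw [this, hqn, ecos, ecos']
    apply Complex.ext
    · simp [hre, -ofReal_cos, -ofReal_sin]; ring
    · simp [hPim, -ofReal_cos, -ofReal_sin]; ring
  have e2 : ((p : ℂ) * q * (exp (-((φ : ℂ) * I)) - exp ((φ : ℂ) * I))) = Q := by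
    rw [ecos, ecos', hq]
    have hp0' : (p : ℂ) ≠ 0 := by exact_mod_cast hp0.ne'
    have hs' : (Real.sin φ : ℂ) ≠ 0 := by exact_mod_cast hs.ne'
    push_cast at hs' ⊢
    field_simp
    ring_nf
    rw [I_sq]; ring
  rw [e1, e2] at h1
  obtain ⟨k, hk⟩ := hF.unique h1 F.continuous (Homeomorph.continuous _)
  refine ⟨k, ?_⟩
  set g := shH p q hp0 hpq with hg
  have hcomm : Commute (tr Real.pi) g := shH_comm_tr p q hp0 hpq
  have hFe : F = tr (2 * Real.pi * k) * (g * tr φ * g⁻¹) := by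
    ext x
    exact hk x
  have h2pik : tr (2 * Real.pi * k) = tr Real.pi ^ (2 * k) := by
    rw [tr_zpow]; congr 1; push_cast; ring
  have hcc : Commute (tr (2 * Real.pi * k)) (g * tr φ * g⁻¹) := by
    rw [h2pik]
    apply Commute.zpow_left
    apply Commute.mul_right
    apply Commute.mul_right hcomm
    · change tr Real.pi * tr φ = tr φ * tr Real.pi
      rw [tr_mul, tr_mul, add_comm]
    · exact hcomm.inv_right
  rw [hFe, hcc.mul_pow, conj_pow, tr_pow φ, hm]
  have h3 : tr ((c : ℝ) * Real.pi) = tr Real.pi ^ c := by rw [tr_zpow]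
  rw [h3, ((hcomm.symm.zpow_right c).eq), mul_inv_cancel_right, h2pik, ← zpow_natCast,
    ← zpow_mul, ← zpow_add]
  congr 1
  ring

/-- The elements of the group of homeomorphisms of the line. -/
theorem exists_lifts {l m n : ℕ} (hl : 2 ≤ l) (hm : 2 ≤ m) (hn : 2 ≤ n)
    (h : (1 : ℝ) / l + 1 / m + 1 / n < 1) :
    ∃ (A B : ℝ ≃ₜ ℝ) (k : ℤ), Commute (tr Real.pi) A ∧ Commute (tr Real.pi) B ∧
      A ^ l = tr Real.pi ∧ B ^ n = tr Real.pi ∧
      (A * B) ^ m = tr Real.pi ^ ((m : ℤ) - 1 + 2 * k * m) := by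
  have hl0 : (0 : ℝ) < l := by exact_mod_cast (by omega : 0 < l)
  have hm0 : (0 : ℝ) < m := by exact_mod_cast (by omega : 0 < m)
  have hn0 : (0 : ℝ) < n := by exact_mod_cast (by omega : 0 < n)
  have hl2 : (2 : ℝ) ≤ l := by exact_mod_cast hl
  have hm2 : (2 : ℝ) ≤ m := by exact_mod_cast hm
  have hn2 : (2 : ℝ) ≤ n := by exact_mod_cast hn
  have hpi := Real.pi_pos
  set α : ℝ := Real.pi / l with hα
  set β : ℝ := Real.pi / n with hβ
  set γ : ℝ := Real.pi / m with hγ
  have hα0 : 0 < α := by positivity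
  have hβ0 : 0 < β := by positivity
  have hγ0 : 0 < γ := by positivity
  have hα2 : α ≤ Real.pi / 2 := div_le_div_of_nonneg_left hpi.le two_pos hl2
  have hβ2 : β ≤ Real.pi / 2 := div_le_div_of_nonneg_left hpi.le two_pos hn2
  have hγ2 : γ ≤ Real.pi / 2 := div_le_div_of_nonneg_left hpi.le two_pos hm2
  have hsum : α + β + γ < Real.pi := by
    have e : α + β + γ = Real.pi * ((1 : ℝ) / l + 1 / m + 1 / n) := by
      rw [hα, hβ, hγ]; ring
    rw [e]
    nlinarith
  have hsα : 0 < Real.sin α := Real.sin_pos_of_pos_of_lt_pi hα0 (by linarith)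
  have hsβ : 0 < Real.sin β := Real.sin_pos_of_pos_of_lt_pi hβ0 (by linarith)
  have hcα : 0 ≤ Real.cos α := Real.cos_nonneg_of_neg_pi_div_two_le_of_le (by linarith) hα2
  have hcβ : 0 ≤ Real.cos β := Real.cos_nonneg_of_neg_pi_div_two_le_of_le (by linarith) hβ2
  set C : ℝ := (Real.cos α * Real.cos β + Real.cos γ) / (Real.sin α * Real.sin β) with hC
  have hss : 0 < Real.sin α * Real.sin β := mul_pos hsα hsβ
  have hC1 : 1 ≤ C := by
    rw [hC, le_div_iff₀ hss, one_mul]
    have h1 : Real.cos γ ≥ Real.cos (Real.pi - (α + β)) :=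
      Real.cos_le_cos_of_nonneg_of_le_pi hγ0.le (by linarith) (by linarith)
    rw [Real.cos_pi_sub, Real.cos_add] at h1
    linarith
  have hC0 : 0 < C := by linarith
  have hCs : C * (Real.sin α * Real.sin β) = Real.cos α * Real.cos β + Real.cos γ := by
    rw [hC]; field_simp
  set p : ℝ := Real.sqrt ((C + 1) / 2) with hp
  have hp2 : p ^ 2 = (C + 1) / 2 := Real.sq_sqrt (by positivity)
  have hp0 : 0 < p := Real.sqrt_pos.2 (by positivity)
  obtain ⟨q, hqn⟩ : ∃ q : ℂ, ‖q‖ ^ 2 = (C - 1) / 2 := by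
    refine ⟨((Real.sqrt ((C - 1) / 2) : ℝ) : ℂ), ?_⟩
    rw [norm_real, Real.norm_eq_abs, sq_abs]
    exact Real.sq_sqrt (by linarith)
  have hpq : p ^ 2 - ‖q‖ ^ 2 = 1 := by rw [hp2, hqn]; ring
  set g := shH p q hp0 hpq with hg
  have hcomm : Commute (tr Real.pi) g := shH_comm_tr p q hp0 hpq
  have htrc : ∀ t, Commute (tr Real.pi) (tr t) := by
    intro t
    change tr Real.pi * tr t = tr t * tr Real.pi
    rw [tr_mul, tr_mul, add_comm]
  have hA1 := isLift_conj p q hp0 hpq α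
  rw [← hg] at hA1
  have hB1 := isLift_rot β
  have hAB := hA1.comp hB1
  rw [map_zero, mul_zero, add_zero, mul_zero, zero_add] at hAB
  have ecos : ∀ t : ℝ, exp ((t : ℂ) * I) = Real.cos t + Real.sin t * I := by
    intro t
    rw [exp_mul_I]; push_cast; ring
  have ecos' : ∀ t : ℝ, exp (-((t : ℂ) * I)) = Real.cos t - Real.sin t * I := by
    intro t
    have : -((t : ℂ) * I) = (-(t : ℂ)) * I := by ring
    rw [this, exp_mul_I, cos_neg, sin_neg]; push_cast; ring
  have eP : ((p : ℂ) ^ 2 * exp ((α : ℂ) * I) - (‖q‖ ^ 2 : ℝ) * exp (-((α : ℂ) * I))) =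
      (Real.cos α : ℂ) + (C * Real.sin α : ℝ) * I := by
    have : (p : ℂ) ^ 2 = ((C + 1) / 2 : ℝ) := by rw [← hp2]; push_cast; ring
    rw [this, hqn, ecos, ecos']
    apply Complex.ext
    · simp [-ofReal_cos, -ofReal_sin]; ring
    · simp [-ofReal_cos, -ofReal_sin]; ring
  have eQ : ‖((p : ℂ) * q * (exp (-((α : ℂ) * I)) - exp ((α : ℂ) * I)))‖ ^ 2 =
      (C ^ 2 - 1) * Real.sin α ^ 2 := by
    rw [ecos, ecos']
    have : ((Real.cos α : ℂ) - Real.sin α * I - (Real.cos α + Real.sin α * I)) =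
      ((-2 * Real.sin α : ℝ) : ℂ) * I := by push_cast; ring
    rw [this, norm_mul, norm_mul, norm_mul, norm_I, mul_one, norm_real, norm_real, mul_pow,
      mul_pow, Real.norm_eq_abs, Real.norm_eq_abs, sq_abs, sq_abs, hp2, hqn]
    ring
  have hAB' : IsLift _ _ (g * tr α * g⁻¹ * tr β : ℝ ≃ₜ ℝ) := hAB
  have hfin := exists_pow_eq (F := g * tr α * g⁻¹ * tr β) (φ := Real.pi - γ) hAB' ?_ ?_ ?_ ?_ ?_
    m ((m : ℤ) - 1) ?_
  · obtain ⟨k, hk⟩ := hfin
    refine ⟨g * tr α * g⁻¹, tr β, k, ?_, htrc _, ?_, ?_, hk⟩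
    · exact ((hcomm.mul_right (htrc _)).mul_right hcomm.inv_right)
    · rw [conj_pow, tr_pow]
      have : (l : ℝ) * α = Real.pi := by rw [hα]; field_simp
      rw [this, hcomm.symm.eq, mul_inv_cancel_right]
    · rw [tr_pow]
      have : (n : ℝ) * β = Real.pi := by rw [hβ]; field_simp
      rw [this]
  · rw [norm_mul, norm_mul, norm_exp_ofReal_mul_I, mul_one, eP]
    have e3 : ‖conj (exp ((β : ℂ) * I))‖ = 1 := by
      rw [norm_conj, norm_exp_ofReal_mul_I]
    rw [e3, mul_one, eQ, ← normSq_eq_norm_sq, normSq_apply]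
    have := Real.sin_sq_add_cos_sq α
    simp [-ofReal_cos, -ofReal_sin]
    nlinarith
  · rw [eP, ecos, Real.cos_pi_sub]
    simp [-ofReal_cos, -ofReal_sin]
    have : Real.cos α * Real.cos β - C * Real.sin α * Real.sin β =
      Real.cos α * Real.cos β - C * (Real.sin α * Real.sin β) := by ring
    rw [this, hCs]; ring
  · rw [eP, ecos]
    simp [-ofReal_cos, -ofReal_sin]
    rcases hcα.lt_or_eq with h1 | h1
    · have := mul_pos h1 hsβ
      have := mul_nonneg (mul_nonneg hC0.le hsα.le) hcβ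
      linarith
    · rcases hcβ.lt_or_eq with h2 | h2
      · have := mul_nonneg hcα hsβ.le
        have := mul_pos (mul_pos hC0 hsα) h2
        linarith
      · exfalso
        have hα3 : α = Real.pi / 2 := by
          by_contra hne
          have : 0 < Real.cos α := Real.cos_pos_of_mem_Ioo
            ⟨by linarith, lt_of_le_of_ne hα2 hne⟩
          linarith
        have hβ3 : β = Real.pi / 2 := by
          by_contra hne
          have : 0 < Real.cos β := Real.cos_pos_of_mem_Ioo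
            ⟨by linarith, lt_of_le_of_ne hβ2 hne⟩
          linarith
        linarith
  · linarith
  · linarith
  · rw [hγ]; push_cast; field_simp

/-- The central element `z = b ^ n` has infinite order in `E(l,m,n)` in the hyperbolic case. -/
theorem z_zpow_eq_one {l m n : ℕ} (hl : 0 < l) (hm : 0 < m) (hn : 0 < n)
    (h : (1 : ℚ) / l + 1 / m + 1 / n < 1) (k : ℤ) (hk : (genB l m n ^ n) ^ k = 1) : k = 0 := by
  have hlQ : (0 : ℚ) < l := by exact_mod_cast hl
  have hmQ : (0 : ℚ) < m := by exact_mod_cast hm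
  have hnQ : (0 : ℚ) < n := by exact_mod_cast hn
  have hl1 : (0 : ℚ) < 1 / l := by positivity
  have hm1 : (0 : ℚ) < 1 / m := by positivity
  have hn1 : (0 : ℚ) < 1 / n := by positivity
  have two_le : ∀ a : ℕ, 0 < a → (1 : ℚ) / a < 1 → 2 ≤ a := by
    intro a ha h1
    by_contra hcon
    have h2 : a = 1 := by omega
    rw [h2] at h1
    norm_num at h1
  have hl2 : 2 ≤ l := two_le l hl (by linarith)
  have hm2 : 2 ≤ m := two_le m hm (by linarith)
  have hn2 : 2 ≤ n := two_le n hn (by linarith)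
  have hR : (1 : ℝ) / l + 1 / m + 1 / n < 1 := by
    have h1 : (((1 : ℚ) / l + 1 / m + 1 / n : ℚ) : ℝ) < ((1 : ℚ) : ℝ) := Rat.cast_lt.2 h
    push_cast at h1
    exact h1
  -- the integer form of the hyperbolicity inequality
  have hZ : (m : ℤ) * n + l * n + l * m < l * m * n := by
    have h1 : ((m : ℚ) * n + l * n + l * m) < l * m * n := by
      have e : ((m : ℚ) * n + l * n + l * m) = ((1 : ℚ) / l + 1 / m + 1 / n) * (l * m * n) := by
        field_simp
      rw [e]
      have : (0 : ℚ) < l * m * n := by positivity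
      nlinarith
    exact_mod_cast h1
  obtain ⟨A, B, c, hA, hB, hAl, hBn, hAB⟩ := exists_lifts hl2 hm2 hn2 hR
  set j : ℤ := (m : ℤ) - 1 + 2 * c * m with hj
  -- the group
  let T : ℝ ≃ₜ ℝ := tr Real.pi
  let C : Subgroup (ℝ ≃ₜ ℝ) := Subgroup.centralizer {T}
  have memC : ∀ X : ℝ ≃ₜ ℝ, Commute T X → X ∈ C := by
    intro X hX
    rw [Subgroup.mem_centralizer_singleton_iff]
    exact hX.symm
  let TC : C := ⟨T, memC T (Commute.refl _)⟩
  let AC : C := ⟨A, memC A hA⟩
  let BC : C := ⟨B, memC B hB⟩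
  have hTC : ∀ X : C, X * TC = TC * X := by
    intro X
    apply Subtype.ext
    exact Subgroup.mem_centralizer_singleton_iff.1 X.2
  let r : ℤ := (l : ℤ) * (n - m)
  let x : ℤ := (m : ℤ) - n
  let y : ℤ := (l : ℤ) * (j - 1) - m
  let W : C × Multiplicative ℤ := (TC, Multiplicative.ofAdd (-r))
  let Λ : Subgroup (C × Multiplicative ℤ) := Subgroup.zpowers W
  have hΛ : Λ.Normal := by
    refine ⟨fun w hw g => ?_⟩
    obtain ⟨i, rfl⟩ := Subgroup.mem_zpowers_iff.1 hw
    have hcm : Commute g W := by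
      change g * W = W * g
      ext1
      · exact hTC g.1
      · exact mul_comm _ _
    rw [(hcm.zpow_right i).eq, mul_inv_cancel_right]
    exact hw
  let π : (C × Multiplicative ℤ) →* (C × Multiplicative ℤ) ⧸ Λ := QuotientGroup.mk' Λ
  let gA : C × Multiplicative ℤ := (AC, Multiplicative.ofAdd x)
  let gB : C × Multiplicative ℤ := (BC, Multiplicative.ofAdd y)
  have hAC : AC ^ l = TC := Subtype.ext hAl
  have hBC : BC ^ n = TC := Subtype.ext hBn
  have hABC : (AC * BC) ^ m = TC ^ j := by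
    apply Subtype.ext
    change (A * B) ^ m = _
    rw [hAB]
    rfl
  have hWz : ∀ i : ℤ, W ^ i = (TC ^ i, Multiplicative.ofAdd (-(i * r))) := by
    intro i
    ext1
    · rfl
    · change (Multiplicative.ofAdd (-r)) ^ i = _
      rw [← ofAdd_zsmul, smul_eq_mul, mul_neg]
  have hgA : gA ^ l = W := by
    ext1
    · exact hAC
    · change (Multiplicative.ofAdd x) ^ l = Multiplicative.ofAdd (-r)
      rw [← ofAdd_nsmul, nsmul_eq_mul]
      congr 1
      change (l : ℤ) * ((m : ℤ) - n) = -((l : ℤ) * (n - m))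
      ring
  have hgB : gB ^ n = (TC, Multiplicative.ofAdd ((n : ℤ) * y)) := by
    ext1
    · exact hBC
    · change (Multiplicative.ofAdd y) ^ n = _
      rw [← ofAdd_nsmul, nsmul_eq_mul]
  have hgAB : (gA * gB) ^ m = W ^ (j - 1) * gB ^ n := by
    rw [hWz, hgB]
    ext1
    · change (AC * BC) ^ m = TC ^ (j - 1) * TC
      rw [hABC, zpow_sub_one, inv_mul_cancel_right]
    · change (Multiplicative.ofAdd x * Multiplicative.ofAdd y) ^ m = Multiplicative.ofAdd _ *
        Multiplicative.ofAdd _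
      rw [← ofAdd_add, ← ofAdd_add, ← ofAdd_nsmul, nsmul_eq_mul]
      congr 1
      change (m : ℤ) * (((m : ℤ) - n) + ((l : ℤ) * (j - 1) - m)) =
        -((j - 1) * ((l : ℤ) * (n - m))) + (n : ℤ) * ((l : ℤ) * (j - 1) - m)
      ring
  have hrel : ∀ w ∈ rels l m n, FreeGroup.lift (fun i : Fin 2 => π (if i = 0 then gA else gB)) w
      = 1 := by
    intro w hw
    rcases hw with rfl | hw
    · rw [map_pow, FreeGroup.lift_apply_of]
      simp only [if_true]
      rw [← map_pow, hgA]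
      exact (QuotientGroup.eq_one_iff W).2 (Subgroup.mem_zpowers W)
    · rw [Set.mem_singleton_iff] at hw
      subst hw
      rw [map_mul, map_pow, map_mul, map_inv, map_pow, FreeGroup.lift_apply_of,
        FreeGroup.lift_apply_of]
      simp only [if_true, one_ne_zero, if_false]
      rw [← map_mul, ← map_pow, ← map_pow, hgAB, map_mul, mul_inv_cancel_right]
      exact (QuotientGroup.eq_one_iff _).2 (Subgroup.zpow_mem _ (Subgroup.mem_zpowers W) _)
  let f : E l m n →* (C × Multiplicative ℤ) ⧸ Λ := PresentedGroup.toGroup hrel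
  have hf : f (genB l m n) = π gB := by
    change f (PresentedGroup.of 1) = _
    rw [PresentedGroup.toGroup.of]
    simp
  have h2 := congrArg f hk
  rw [map_zpow, map_pow, hf, map_one, ← map_pow, ← map_zpow] at h2
  have h3 : (gB ^ n) ^ k ∈ Λ := (QuotientGroup.eq_one_iff _).1 h2
  obtain ⟨i, hi⟩ := Subgroup.mem_zpowers_iff.1 h3
  rw [hWz, hgB] at hi
  have hi1 : TC ^ i = TC ^ k := congrArg Prod.fst hi
  have hi2 : Multiplicative.ofAdd (-(i * r)) = (Multiplicative.ofAdd ((n : ℤ) * y)) ^ k :=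
    congrArg Prod.snd hi
  have hik : i = k := by
    have h4 : T ^ i = T ^ k := congrArg Subtype.val hi1
    change tr Real.pi ^ i = tr Real.pi ^ k at h4
    rw [tr_zpow, tr_zpow] at h4
    have h5 := tr_injective h4
    have h6 := mul_right_cancel₀ Real.pi_ne_zero h5
    exact_mod_cast h6
  rw [hik, ← ofAdd_zsmul, smul_eq_mul] at hi2
  have h7 : -(k * r) = k * ((n : ℤ) * y) := Multiplicative.ofAdd.injective hi2
  have h8 : k * ((n : ℤ) * y + r) = 0 := by linarith
  have hne : (n : ℤ) * y + r ≠ 0 := by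
    have e : (n : ℤ) * y + r = (n : ℤ) * l * j - n * m - l * m := by
      change (n : ℤ) * ((l : ℤ) * (j - 1) - m) + (l : ℤ) * (n - m) = _
      ring
    rw [e]
    have hl' : (0 : ℤ) < l := by exact_mod_cast hl
    have hm' : (2 : ℤ) ≤ m := by exact_mod_cast hm2
    have hn' : (0 : ℤ) < n := by exact_mod_cast hn
    have hnl : (0 : ℤ) < n * l := by positivity
    rcases le_or_gt 0 c with hc | hc
    · have hj1 : (m : ℤ) - 1 ≤ j := by
        rw [hj]; nlinarith
      have : (n : ℤ) * l * (m - 1) ≤ n * l * j := mul_le_mul_of_nonneg_left hj1 hnl.le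
      have h9 : (n : ℤ) * l * (m - 1) = l * m * n - l * n := by ring
      have h10 : (n : ℤ) * m = m * n := by ring
      intro h11
      linarith
    · have hj1 : j < 0 := by
        rw [hj]
        have : 2 * c * m ≤ 2 * (-1) * m := by nlinarith
        linarith
      have : (n : ℤ) * l * j < 0 := mul_neg_of_pos_of_neg hnl hj1
      have : (0 : ℤ) < n * m := by positivity
      have : (0 : ℤ) < l * m := by positivity
      intro h11
      linarith
  rcases mul_eq_zero.1 h8 with h9 | h9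
  · exact h9
  · exact absurd h9 hne

end Pool.Agent.SLE
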