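import Pool.Agent.SLE.Order
import Pool.Agent.SLE.ZInfinite

/-!
# The circle method for `E(l,m,n)`

Normal forms and the criterion for the failure of the finite difference property, the action on the
circle, potentials (cocycles) over it, and fundamental domains.
-/

namespace Pool.Agent.SLE

open Real

/-! ## normal forms -/

theorem length_le_of_normalForm {l m n : ℕ} {lt : Letter → Letter → Prop}
    [IsStrictTotalOrder Letter lt] {u w : List Letter} (hu : u ∈ normalForms l m n lt)
    (h : eval l m n u = eval l m n w) : u.length ≤ w.length := by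
  rcases hu w h.symm with rfl | h1
  · exact le_rfl
  · rcases List.shortlex_def.1 h1 with h2 | h2
    · exact h2.le
    · exact h2.1.le

/-- A normal form is lexicographically not larger than a word of the same length. -/
theorem lex_of_normalForm {l m n : ℕ} {lt : Letter → Letter → Prop}
    [IsStrictTotalOrder Letter lt] {u w : List Letter} (hu : u ∈ normalForms l m n lt)
    (h : eval l m n u = eval l m n w) (hl : w.length = u.length) : u = w ∨ List.Lex lt u w := by
  rcases hu w h.symm with rfl | h1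
  · exact Or.inl rfl
  · exact Or.inr ((List.shortlex_iff_lex hl.symm).1 h1)

open scoped Pointwise in
/-- **Criterion.** -/
theorem not_finiteDiff_of_words {l m n : ℕ} (lt : Letter → Letter → Prop)
    [IsStrictTotalOrder Letter lt] (C : ℕ)
    (H : ∀ D : Set (E l m n), D.Finite → ∃ (w1 w2 c : List Letter) (i : ℕ), c.length ≤ C ∧
      eval l m n (w1 ++ c) = eval l m n w2 ∧
      ∀ u v, u ∈ normalForms l m n lt → eval l m n u = eval l m n w1 →
        v ∈ normalForms l m n lt → eval l m n v = eval l m n w2 →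
        (eval l m n (u.take i))⁻¹ * eval l m n (v.take i) ∉ D) : ¬ FiniteDiff l m n lt := by
  rintro ⟨S, hS, hd⟩
  set S' : Set (E l m n) := insert 1 S with hS'
  have hfin : S'.Finite := hS.insert 1
  have hpow : ∀ k : ℕ, (S' ^ k).Finite := by
    intro k
    induction k with
    | zero => rw [pow_zero]; exact Set.finite_singleton 1
    | succ k ih => rw [pow_succ]; exact ih.mul hfin
  obtain ⟨w1, w2, c, i, hc, he, h⟩ := H (S' ^ (C + 1)) (hpow _)
  have key : ∀ (c w1 : List Letter) (u v : List Letter), u ∈ normalForms l m n lt →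
      eval l m n u = eval l m n w1 → v ∈ normalForms l m n lt →
      eval l m n v = eval l m n (w1 ++ c) →
      (eval l m n (u.take i))⁻¹ * eval l m n (v.take i) ∈ S' ^ (c.length + 1) := by
    intro c
    induction c with
    | nil =>
      intro w1 u v hu e1 hv e2
      rw [List.length_nil, zero_add, pow_one]
      refine Set.mem_insert_of_mem _ (hd none u v hu hv ?_ i)
      rw [Option.toList_none, List.append_nil, e1, e2, List.append_nil]
    | cons y c ih =>
      intro w1 u v hu e1 hv e2
      obtain ⟨u', hu', e3⟩ := exists_normalForm l m n lt (w1 ++ [y])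
      have h1 : (eval l m n (u.take i))⁻¹ * eval l m n (u'.take i) ∈ S' := by
        refine Set.mem_insert_of_mem _ (hd (some y) u u' hu hu' ?_ i)
        rw [Option.toList_some, eval_append, e1, ← eval_append, e3]
      have h2 := ih (w1 ++ [y]) u' v hu' e3 hv (by
        rw [e2, List.append_assoc]
        rfl)
      rw [List.length_cons, pow_succ']
      refine Set.mem_mul.2 ⟨_, h1, _, h2, ?_⟩
      group
  obtain ⟨u, hu, e1⟩ := exists_normalForm l m n lt w1
  obtain ⟨v, hv, e2⟩ := exists_normalForm l m n lt w2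
  refine h u v hu e1 hv e2 ?_
  have h1 := key c w1 u v hu e1 hv (e2.trans he.symm)
  exact Set.pow_subset_pow_right (Set.mem_insert _ _) (by omega) h1

/-! ## the circle action -/

/-- Lifts of `a`, `b`, `(ab)⁻¹` to the line; translation by `π` is the lift of the identity. -/
structure CircleAct (l m n : ℕ) where
  f : ℝ ≃o ℝ
  g : ℝ ≃o ℝ
  r : ℝ ≃o ℝ
  f_add : ∀ x, f (x + π) = f x + π
  g_add : ∀ x, g (x + π) = g x + π
  r_add : ∀ x, r (x + π) = r x + π
  f_iter : ∀ x, f^[l] x = x + π
  g_iter : ∀ x, g^[n] x = x + π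
  r_iter : ∀ x, r^[m] x = x + π
  fgr : ∀ x, f (g (r x)) = x + π

theorem commute_tr {A : ℝ ≃ₜ ℝ} (h : Commute (tr π) A) (x : ℝ) : A (x + π) = A x + π := by
  have := DFunLike.congr_fun h x
  exact this.symm

theorem homeo_pow_apply (A : ℝ ≃ₜ ℝ) (k : ℕ) (x : ℝ) : (A ^ k) x = A^[k] x := by
  induction k generalizing x with
  | zero => rfl
  | succ k ih => rw [pow_succ, Function.iterate_succ_apply, ← ih]; rfl

/-- A homeomorphism of the line which commutes with the translation by `π` is increasing. -/
theorem strictMono_of_commute {A : ℝ ≃ₜ ℝ} (h : ∀ x, A (x + π) = A x + π) : StrictMono A := by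
  rcases A.continuous.strictMono_of_inj A.injective with h1 | h1
  · exact h1
  · have h2 := h1 (show (0 : ℝ) < 0 + π by linarith [pi_pos])
    rw [h] at h2
    linarith [pi_pos]

/-- The order isomorphism of a homeomorphism commuting with the translation by `π`. -/
noncomputable def toIso (A : ℝ ≃ₜ ℝ) (h : ∀ x, A (x + π) = A x + π) : ℝ ≃o ℝ :=
  (strictMono_of_commute h).orderIsoOfSurjective A A.surjective

theorem toIso_apply (A : ℝ ≃ₜ ℝ) (h : ∀ x, A (x + π) = A x + π) (x : ℝ) : toIso A h x = A x := rfl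

/-- `x < F x < x + π` if `F` is increasing and `F^[k]` is the translation by `π`, `k ≥ 2`. -/
theorem lt_of_iter {F : ℝ → ℝ} (hF : StrictMono F) {k : ℕ} (h2 : ∀ x, F^[k] x = x + π) (x : ℝ) :
    x < F x := by
  by_contra hx
  rw [not_lt] at hx
  have : ∀ j : ℕ, F^[j] x ≤ x := by
    intro j
    induction j with
    | zero => exact le_rfl
    | succ j ih =>
      rw [Function.iterate_succ_apply']
      exact (hF.monotone ih).trans hx
  have h3 := this k
  rw [h2] at h3
  linarith [pi_pos]

theorem lt_add_of_iter {F : ℝ → ℝ} (hF : StrictMono F) (h1 : ∀ x, F (x + π) = F x + π) {k : ℕ}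
    (hk : 2 ≤ k) (h2 : ∀ x, F^[k] x = x + π) (x : ℝ) : F x < x + π := by
  by_contra hx
  rw [not_lt] at hx
  have : ∀ j : ℕ, x + j * π ≤ F^[j] x := by
    intro j
    induction j with
    | zero => simp
    | succ j ih =>
      rw [Function.iterate_succ_apply]
      have h3 : ∀ i : ℕ, F^[i] (x + π) = F^[i] x + π := by
        intro i
        induction i with
        | zero => rfl
        | succ i ih => rw [Function.iterate_succ_apply', Function.iterate_succ_apply', ih, h1]
      have h4 := hF.monotone.iterate j hx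
      rw [h3] at h4
      push_cast
      linarith
  have h3 := this k
  rw [h2] at h3
  have h4 : (2 : ℝ) ≤ k := by exact_mod_cast hk
  nlinarith [pi_pos]

theorem exists_circleAct {l m n : ℕ} (hl : 2 ≤ l) (hm : 2 ≤ m) (hn : 2 ≤ n)
    (h : (1 / l + 1 / m + 1 / n : ℚ) < 1) : Nonempty (CircleAct l m n) := by
  have hR : (1 : ℝ) / l + 1 / m + 1 / n < 1 := by
    have : (((1 / l + 1 / m + 1 / n : ℚ) : ℚ) : ℝ) < ((1 : ℚ) : ℝ) := Rat.cast_lt.2 h
    push_cast at this
    exact this
  obtain ⟨A, B, k, hA, hB, hAl, hBn, hAB⟩ := exists_lifts hl hm hn hR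
  have hA1 := commute_tr hA
  have hB1 := commute_tr hB
  have hA2 : ∀ x, A^[l] x = x + π := fun x => by
    rw [← homeo_pow_apply, hAl]
    rfl
  have hB2 : ∀ x, B^[n] x = x + π := fun x => by
    rw [← homeo_pow_apply, hBn]
    rfl
  have hAm := strictMono_of_commute hA1
  have hBm := strictMono_of_commute hB1
  have hA3 := lt_of_iter hAm hA2
  have hA4 := lt_add_of_iter hAm hA1 hl hA2
  have hB3 := lt_of_iter hBm hB2
  have hB4 := lt_add_of_iter hBm hB1 hn hB2
  have hx1 : ∀ j : ℕ, (0 : ℝ) + j * π ≤ ((A * B) ^ j) 0 + j * π := by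
    intro j
    have : ∀ j : ℕ, (0 : ℝ) ≤ ((A * B) ^ j) 0 := by
      intro j
      induction j with
      | zero => exact le_rfl
      | succ j ih =>
        rw [pow_succ']
        change (0 : ℝ) ≤ A (B (((A * B) ^ j) 0))
        linarith [hA3 (B (((A * B) ^ j) 0)), hB3 (((A * B) ^ j) 0)]
    linarith [this j]
  have hx2 : ∀ j : ℕ, 1 ≤ j → ((A * B) ^ j) 0 < 2 * j * π := by
    intro j hj
    induction j, hj using Nat.le_induction with
    | base =>
      rw [pow_one]
      change A (B 0) < _
      push_cast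
      linarith [hA4 (B 0), hB4 0]
    | succ j hj ih =>
      rw [pow_succ']
      change A (B (((A * B) ^ j) 0)) < _
      push_cast
      linarith [hA4 (B (((A * B) ^ j) 0)), hB4 (((A * B) ^ j) 0)]
  have hx0 := hx2 m (by omega)
  have hx3 : (0 : ℝ) < ((A * B) ^ m) 0 := by
    have : ∀ j : ℕ, 1 ≤ j → (0 : ℝ) < ((A * B) ^ j) 0 := by
      intro j hj
      induction j, hj using Nat.le_induction with
      | base =>
        rw [pow_one]
        change (0 : ℝ) < A (B 0)
        linarith [hA3 (B 0), hB3 0]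
      | succ j hj ih =>
        rw [pow_succ']
        change (0 : ℝ) < A (B (((A * B) ^ j) 0))
        linarith [hA3 (B (((A * B) ^ j) 0)), hB3 (((A * B) ^ j) 0)]
    exact this m (by omega)
  rw [hAB, tr_zpow, tr_apply, zero_add] at hx0 hx3
  have hpi := pi_pos
  have h5 : (0 : ℤ) < (m : ℤ) - 1 + 2 * k * m := by
    have : (0 : ℝ) < (((m : ℤ) - 1 + 2 * k * m : ℤ) : ℝ) := by
      by_contra h6
      rw [not_lt] at h6
      nlinarith
    exact_mod_cast this
  have h6 : (m : ℤ) - 1 + 2 * k * m < 2 * m := by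
    have : (((m : ℤ) - 1 + 2 * k * m : ℤ) : ℝ) < ((2 * m : ℤ) : ℝ) := by
      by_contra h7
      rw [not_lt] at h7
      push_cast at h7 hx0
      nlinarith
    exact_mod_cast this
  have hk : k = 0 := by
    have hm' : (2 : ℤ) ≤ m := by exact_mod_cast hm
    rcases lt_trichotomy k 0 with h7 | h7 | h7
    · nlinarith
    · exact h7
    · nlinarith
  subst hk
  set R : ℝ ≃ₜ ℝ := tr π * (A * B)⁻¹ with hR'
  have hcR : Commute (tr π) (A * B)⁻¹ := (hA.mul_right hB).inv_right
  have hRc : Commute (tr π) R := (Commute.refl _).mul_right hcR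
  have hRm : R ^ m = tr π := by
    rw [hR', hcR.mul_pow, inv_pow, hAB]
    have : (m : ℤ) - 1 + 2 * 0 * m = m - 1 := by ring
    rw [this, ← zpow_natCast, ← zpow_neg, ← zpow_add]
    have : (m : ℤ) + -((m : ℤ) - 1) = 1 := by ring
    rw [this, zpow_one]
  have hR1 := commute_tr hRc
  have hAI : ∀ x, toIso A hA1 x = A x := fun _ => rfl
  refine ⟨⟨toIso A hA1, toIso B hB1, toIso R hR1, hA1, hB1, hR1, hA2, hB2, ?_, ?_⟩⟩
  · intro x
    change (⇑R)^[m] x = _
    rw [← homeo_pow_apply, hRm]
    rfl
  · intro x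
    change (A * B) (R x) = x + π
    rw [hR', hcR.eq]
    change (A * B) ((A * B)⁻¹ (x + π)) = x + π
    exact (A * B).apply_symm_apply _

/-! ## right actions of `E(l,m,n)` -/

/-- One letter of a right action in which `a` acts as `A` and `b` acts as `B`. -/
def stepP {Y : Type*} (A B : Equiv.Perm Y) (y : Y) : Letter → Y
  | (0, true) => A y
  | (0, false) => A.symm y
  | (1, true) => B y
  | (1, false) => B.symm y

/-- The right action of `E(l,m,n)` defined by two permutations. -/
noncomputable def actHom {Y : Type*} (l m n : ℕ) (A B : Equiv.Perm Y) (hA : A ^ l = 1)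
    (hAB : (B * A) ^ m = B ^ n) : E l m n →* (Equiv.Perm Y)ᵐᵒᵖ :=
  PresentedGroup.toGroup (f := ![MulOpposite.op A, MulOpposite.op B]) (by
    intro r hr
    rcases hr with rfl | rfl
    · rw [map_pow, FreeGroup.lift_apply_of]
      change MulOpposite.op A ^ l = 1
      rw [← MulOpposite.op_pow, hA, MulOpposite.op_one]
    · rw [map_mul, map_pow, map_mul, map_inv, map_pow, FreeGroup.lift_apply_of,
        FreeGroup.lift_apply_of]
      change (MulOpposite.op A * MulOpposite.op B) ^ m * (MulOpposite.op B ^ n)⁻¹ = 1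
      rw [← MulOpposite.op_mul, ← MulOpposite.op_pow, ← MulOpposite.op_pow, hAB, mul_inv_cancel])

theorem actHom_eval {Y : Type*} {l m n : ℕ} {A B : Equiv.Perm Y} (hA : A ^ l = 1)
    (hAB : (B * A) ^ m = B ^ n) (w : List Letter) (y : Y) :
    (actHom l m n A B hA hAB (eval l m n w)).unop y = w.foldl (stepP A B) y := by
  induction w generalizing y with
  | nil => rw [eval_nil, map_one]; rfl
  | cons s w ih =>
    rw [eval_cons, map_mul, MulOpposite.unop_mul, Equiv.Perm.mul_apply, ih, List.foldl_cons]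
    congr 1
    rw [eval_singleton]
    obtain ⟨i, b⟩ := s
    fin_cases i <;> cases b
    · change (actHom l m n A B hA hAB (PresentedGroup.of 0)⁻¹).unop y = A.symm y
      rw [map_inv, actHom, PresentedGroup.toGroup.of]
      rfl
    · change (actHom l m n A B hA hAB (PresentedGroup.of 0)).unop y = A y
      rw [actHom, PresentedGroup.toGroup.of]
      rfl
    · change (actHom l m n A B hA hAB (PresentedGroup.of 1)⁻¹).unop y = B.symm y
      rw [map_inv, actHom, PresentedGroup.toGroup.of]
      rfl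
    · change (actHom l m n A B hA hAB (PresentedGroup.of 1)).unop y = B y
      rw [actHom, PresentedGroup.toGroup.of]
      rfl

/-- Words with the same value act in the same way. -/
theorem foldl_eq_of_eval {Y : Type*} {l m n : ℕ} {A B : Equiv.Perm Y} (hA : A ^ l = 1)
    (hAB : (B * A) ^ m = B ^ n) {w w' : List Letter} (h : eval l m n w = eval l m n w') (y : Y) :
    w.foldl (stepP A B) y = w'.foldl (stepP A B) y := by
  rw [← actHom_eval hA hAB, ← actHom_eval hA hAB, h]

/-! ## the circle -/

/-- Congruence modulo `π`. -/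
def cong : Setoid ℝ where
  r x y := ∃ k : ℤ, y = x + k * π
  iseqv :=
    { refl := fun x => ⟨0, by simp⟩
      symm := by
        rintro x y ⟨k, rfl⟩
        exact ⟨-k, by push_cast; ring⟩
      trans := by
        rintro x y z ⟨k, rfl⟩ ⟨j, rfl⟩
        exact ⟨k + j, by push_cast; ring⟩ }

/-- The circle. -/
abbrev Circ : Type := Quotient cong

theorem add_int_mul {F : ℝ → ℝ} (h : ∀ x, F (x + π) = F x + π) (x : ℝ) (k : ℤ) :
    F (x + k * π) = F x + k * π := by
  have h1 : ∀ (j : ℕ) (x : ℝ), F (x + j * π) = F x + j * π := by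
    intro j
    induction j with
    | zero => intro x; simp
    | succ j ih =>
      intro x
      have : x + ((j + 1 : ℕ) : ℝ) * π = (x + j * π) + π := by push_cast; ring
      rw [this, h, ih]
      push_cast
      ring
  obtain ⟨j, rfl | rfl⟩ := k.eq_nat_or_neg
  · exact_mod_cast h1 j x
  · have h2 := h1 j (x + ((-(j : ℤ) : ℤ) : ℝ) * π)
    have : x + ((-(j : ℤ) : ℤ) : ℝ) * π + j * π = x := by push_cast; ring
    rw [this] at h2
    push_cast at h2 ⊢
    linarith

theorem symm_add {F : ℝ ≃o ℝ} (h : ∀ x, F (x + π) = F x + π) (x : ℝ) :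
    F.symm (x + π) = F.symm x + π := by
  rw [OrderIso.symm_apply_eq, h, F.apply_symm_apply]

/-- The permutation of the circle of an order isomorphism commuting with the translation. -/
def circPerm (F : ℝ ≃o ℝ) (h : ∀ x, F (x + π) = F x + π) : Equiv.Perm Circ where
  toFun := Quotient.map F (by
    rintro x y ⟨k, rfl⟩
    exact ⟨k, add_int_mul h x k⟩)
  invFun := Quotient.map F.symm (by
    rintro x y ⟨k, rfl⟩
    exact ⟨k, add_int_mul (symm_add h) x k⟩)
  left_inv := by
    rintro ⟨x⟩
    exact congrArg (Quotient.mk cong) (F.symm_apply_apply x)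
  right_inv := by
    rintro ⟨x⟩
    exact congrArg (Quotient.mk cong) (F.apply_symm_apply x)

theorem circPerm_mk (F : ℝ ≃o ℝ) (h : ∀ x, F (x + π) = F x + π) (x : ℝ) :
    circPerm F h (Quotient.mk cong x) = Quotient.mk cong (F x) := rfl

theorem circPerm_symm_mk (F : ℝ ≃o ℝ) (h : ∀ x, F (x + π) = F x + π) (x : ℝ) :
    (circPerm F h).symm (Quotient.mk cong x) = Quotient.mk cong (F.symm x) := rfl

/-- The permutation of `Circ × ℤ` in which the integer changes by `e` of the old point. -/
def cocPerm (P : Equiv.Perm Circ) (e : Circ → ℤ) : Equiv.Perm (Circ × ℤ) where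
  toFun y := (P y.1, y.2 + e y.1)
  invFun y := (P.symm y.1, y.2 - e (P.symm y.1))
  left_inv y := by simp
  right_inv y := by simp

theorem cocPerm_mul (P Q : Equiv.Perm Circ) (e d : Circ → ℤ) :
    cocPerm P e * cocPerm Q d = cocPerm (P * Q) (fun q => d q + e (Q q)) := by
  ext1 y
  simp [cocPerm, Equiv.Perm.mul_apply, add_assoc]

theorem cocPerm_pow (P : Equiv.Perm Circ) (e : Circ → ℤ) (k : ℕ) :
    cocPerm P e ^ k = cocPerm (P ^ k) (fun q => ∑ i ∈ Finset.range k, e ((P ^ i) q)) := by
  induction k with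
  | zero =>
    ext1 y
    simp [cocPerm]
  | succ k ih =>
    rw [pow_succ', ih, cocPerm_mul, ← pow_succ']
    congr 1
    ext1 q
    rw [Finset.sum_range_succ]

theorem circPerm_pow_mk (F : ℝ ≃o ℝ) (h : ∀ x, F (x + π) = F x + π) (k : ℕ) (x : ℝ) :
    (circPerm F h ^ k) (Quotient.mk cong x) = Quotient.mk cong (F^[k] x) := by
  induction k with
  | zero => rfl
  | succ k ih =>
    rw [pow_succ', Equiv.Perm.mul_apply, ih, circPerm_mk, Function.iterate_succ_apply']

theorem circPerm_pow_eq_one {F : ℝ ≃o ℝ} (h : ∀ x, F (x + π) = F x + π) {k : ℕ}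
    (hk : ∀ x, F^[k] x = x + π) : circPerm F h ^ k = 1 := by
  ext1 q
  induction q using Quotient.inductionOn with
  | h x =>
    rw [circPerm_pow_mk, hk]
    exact Quotient.sound ⟨-1, by push_cast; ring⟩

namespace CircleAct

variable {l m n : ℕ} (C : CircleAct l m n)

/-- The state after a letter. -/
def step (x : ℝ) : Letter → ℝ
  | (0, true) => C.f.symm x
  | (0, false) => C.f x
  | (1, true) => C.g.symm x
  | (1, false) => C.g x

/-- The state after a word. -/
def run (x : ℝ) (w : List Letter) : ℝ := w.foldl C.step x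

/-- The increment of the potential along a letter. -/
def inc (e : ℝ → ℤ) (x : ℝ) : Letter → ℤ
  | (0, true) => e x
  | (0, false) => - e (C.f x)
  | (1, true) => 1
  | (1, false) => -1

/-- The increment of the potential along a word. -/
def pot (e : ℝ → ℤ) : ℝ → List Letter → ℤ
  | _, [] => 0
  | x, s :: w => C.inc e x s + pot e (C.step x s) w

/-- The cocycle conditions. -/
structure IsPot (e : ℝ → ℤ) : Prop where
  per : ∀ x, e (x + π) = e x
  suml : ∀ x, ∑ i ∈ Finset.range l, e (C.f^[i] x) = 0
  sumr : ∀ x, ∑ j ∈ Finset.range m, (e (C.r^[j] x) + 1) = n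

variable {C} {e : ℝ → ℤ}

variable (C) in
/-- The action of `a` on the circle. -/
def permA : Equiv.Perm Circ := (circPerm C.f C.f_add)⁻¹

variable (C) in
/-- The action of `b` on the circle. -/
def permB : Equiv.Perm Circ := (circPerm C.g C.g_add)⁻¹

theorem permA_pow : C.permA ^ l = 1 := by
  rw [permA, inv_pow, circPerm_pow_eq_one C.f_add C.f_iter, inv_one]

theorem permB_pow : C.permB ^ n = 1 := by
  rw [permB, inv_pow, circPerm_pow_eq_one C.g_add C.g_iter, inv_one]

theorem permB_mul_permA : C.permB * C.permA = circPerm C.r C.r_add := by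
  rw [permA, permB, ← mul_inv_rev, inv_eq_iff_mul_eq_one]
  ext1 q
  induction q using Quotient.inductionOn with
  | h x =>
    rw [Equiv.Perm.mul_apply, Equiv.Perm.mul_apply, circPerm_mk, circPerm_mk, circPerm_mk, C.fgr]
    exact Quotient.sound ⟨-1, by push_cast; ring⟩

theorem permBA_pow : (C.permB * C.permA) ^ m = 1 := by
  rw [permB_mul_permA, circPerm_pow_eq_one C.r_add C.r_iter]

theorem run_cons (x : ℝ) (s : Letter) (w : List Letter) :
    C.run x (s :: w) = C.run (C.step x s) w := rfl

theorem run_append (x : ℝ) (w w' : List Letter) :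
    C.run x (w ++ w') = C.run (C.run x w) w' := List.foldl_append

theorem mk_step (x : ℝ) (s : Letter) :
    stepP C.permA C.permB (Quotient.mk cong x) s = Quotient.mk cong (C.step x s) := by
  obtain ⟨i, b⟩ := s
  fin_cases i <;> cases b <;> rfl

theorem mk_run (x : ℝ) (w : List Letter) :
    w.foldl (stepP C.permA C.permB) (Quotient.mk cong x) = Quotient.mk cong (C.run x w) := by
  induction w generalizing x with
  | nil => rfl
  | cons s w ih => rw [List.foldl_cons, mk_step, ih, run_cons]

theorem run_eq_of_eval {w w' : List Letter} (h : eval l m n w = eval l m n w') (x : ℝ) :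
    ∃ k : ℤ, C.run x w' = C.run x w + k * π := by
  have h1 := foldl_eq_of_eval (A := C.permA) (B := C.permB) permA_pow
    (permBA_pow.trans permB_pow.symm) h (Quotient.mk cong x)
  rw [mk_run, mk_run] at h1
  exact Quotient.exact h1

/-- The potential on the circle. -/
def IsPot.lift (he : C.IsPot e) : Circ → ℤ :=
  Quotient.lift e (by
    rintro x y ⟨k, rfl⟩
    have : Function.Periodic e π := he.per
    exact (this.int_mul k x).symm)

theorem IsPot.lift_mk (he : C.IsPot e) (x : ℝ) : he.lift (Quotient.mk cong x) = e x := rfl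

theorem IsPot.cocA_pow (he : C.IsPot e) : cocPerm C.permA he.lift ^ l = 1 := by
  rw [cocPerm_pow, permA_pow]
  have : (fun q => ∑ i ∈ Finset.range l, he.lift ((C.permA ^ i) q)) = fun _ => 0 := by
    ext1 q
    induction q using Quotient.inductionOn with
    | h x =>
      rw [← he.suml (C.f x), ← Finset.sum_range_reflect]
      refine Finset.sum_congr rfl fun i hi => ?_
      have hi' : i < l := Finset.mem_range.1 hi
      have h1 : C.permA ^ (l - 1 - i) = circPerm C.f C.f_add ^ (i + 1) := by
        rw [permA, inv_pow, inv_eq_iff_mul_eq_one, ← pow_add,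
          show l - 1 - i + (i + 1) = l by omega, circPerm_pow_eq_one C.f_add C.f_iter]
      rw [h1, circPerm_pow_mk, he.lift_mk, Function.iterate_succ_apply]
  rw [this]
  ext1 y
  simp [cocPerm]

theorem IsPot.cocBA_pow (he : C.IsPot e) :
    (cocPerm C.permB (fun _ => 1) * cocPerm C.permA he.lift) ^ m =
      cocPerm C.permB (fun _ => 1) ^ n := by
  rw [cocPerm_mul, cocPerm_pow, permBA_pow, cocPerm_pow, permB_pow]
  have : (fun q => ∑ i ∈ Finset.range m, (he.lift (((C.permB * C.permA) ^ i) q) + 1)) =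
      fun _ => (n : ℤ) := by
    ext1 q
    induction q using Quotient.inductionOn with
    | h x =>
      rw [← he.sumr x]
      refine Finset.sum_congr rfl fun i hi => ?_
      rw [permB_mul_permA, circPerm_pow_mk, he.lift_mk]
  rw [this]
  simp

theorem IsPot.mk_step (he : C.IsPot e) (x : ℝ) (t : ℤ) (s : Letter) :
    stepP (cocPerm C.permA he.lift) (cocPerm C.permB (fun _ => 1)) (Quotient.mk cong x, t) s =
      (Quotient.mk cong (C.step x s), t + C.inc e x s) := by
  obtain ⟨i, b⟩ := s
  fin_cases i <;> cases b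
  · change (Quotient.mk cong (C.f x), t - he.lift (Quotient.mk cong (C.f x))) =
      (Quotient.mk cong (C.f x), t + - e (C.f x))
    rw [he.lift_mk, sub_eq_add_neg]
  · rfl
  · rfl
  · rfl

theorem IsPot.mk_run (he : C.IsPot e) (x : ℝ) (t : ℤ) (w : List Letter) :
    w.foldl (stepP (cocPerm C.permA he.lift) (cocPerm C.permB (fun _ => 1)))
      (Quotient.mk cong x, t) = (Quotient.mk cong (C.run x w), t + C.pot e x w) := by
  induction w generalizing x t with
  | nil =>
    rw [List.foldl_nil, pot, add_zero]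
    rfl
  | cons s w ih => rw [List.foldl_cons, he.mk_step, ih, run_cons, pot, add_assoc]

theorem IsPot.pot_eq_of_eval (he : C.IsPot e) {w w' : List Letter}
    (h : eval l m n w = eval l m n w') (x : ℝ) : C.pot e x w = C.pot e x w' := by
  have h1 := foldl_eq_of_eval he.cocA_pow he.cocBA_pow h (Quotient.mk cong x, 0)
  rw [he.mk_run, he.mk_run] at h1
  simpa using congrArg Prod.snd h1

theorem step_add_int (x : ℝ) (k : ℤ) (s : Letter) :
    C.step (x + k * π) s = C.step x s + k * π := by
  obtain ⟨i, b⟩ := s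
  fin_cases i <;> cases b
  · exact add_int_mul C.f_add x k
  · exact add_int_mul (symm_add C.f_add) x k
  · exact add_int_mul C.g_add x k
  · exact add_int_mul (symm_add C.g_add) x k

theorem IsPot.inc_add_int (he : C.IsPot e) (x : ℝ) (k : ℤ) (s : Letter) :
    C.inc e (x + k * π) s = C.inc e x s := by
  have hp : Function.Periodic e π := he.per
  obtain ⟨i, b⟩ := s
  fin_cases i <;> cases b
  · change - e (C.f (x + k * π)) = - e (C.f x)
    rw [add_int_mul C.f_add, hp.int_mul k]
  · exact hp.int_mul k x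
  · rfl
  · rfl

theorem IsPot.pot_add_int (he : C.IsPot e) (x : ℝ) (k : ℤ) (w : List Letter) :
    C.pot e (x + k * π) w = C.pot e x w := by
  induction w generalizing x with
  | nil => rfl
  | cons s w ih => rw [pot, pot, step_add_int, ih, he.inc_add_int]

theorem pot_append (x : ℝ) (w w' : List Letter) :
    C.pot e x (w ++ w') = C.pot e x w + C.pot e (C.run x w) w' := by
  induction w generalizing x with
  | nil =>
    rw [List.nil_append, pot, zero_add]
    rfl
  | cons s w ih => rw [List.cons_append, pot, pot, ih, run_cons, add_assoc]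

variable (C) (e) in
/-- A word is tight from `x` if every letter increases the potential by one. -/
def Tight : ℝ → List Letter → Prop
  | _, [] => True
  | x, s :: w => C.inc e x s = 1 ∧ Tight (C.step x s) w

theorem Tight.append_iff {x : ℝ} {w w' : List Letter} :
    C.Tight e x (w ++ w') ↔ C.Tight e x w ∧ C.Tight e (C.run x w) w' := by
  induction w generalizing x with
  | nil =>
    rw [List.nil_append, Tight, true_and]
    rfl
  | cons s w ih => rw [List.cons_append, Tight, Tight, ih, run_cons, and_assoc]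

theorem Tight.pot_eq {x : ℝ} {w : List Letter} (h : C.Tight e x w) : C.pot e x w = w.length := by
  induction w generalizing x with
  | nil => rfl
  | cons s w ih =>
    rw [pot, h.1, ih h.2, List.length_cons]
    push_cast
    ring

theorem IsPot.tight_add_int (he : C.IsPot e) {x : ℝ} {w : List Letter} (k : ℤ) :
    C.Tight e (x + k * π) w ↔ C.Tight e x w := by
  induction w generalizing x with
  | nil => exact Iff.rfl
  | cons s w ih => rw [Tight, Tight, step_add_int, ih, he.inc_add_int]

theorem abs_inc_le {B : ℤ} (hB : ∀ x, |e x| ≤ B) (hB1 : 1 ≤ B) (x : ℝ) (s : Letter) :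
    |C.inc e x s| ≤ B := by
  obtain ⟨i, b⟩ := s
  fin_cases i <;> cases b
  · change |- e (C.f x)| ≤ B
    rw [abs_neg]
    exact hB _
  · exact hB x
  · exact hB1
  · exact hB1

theorem abs_pot_le {B : ℤ} (hB : ∀ x, |e x| ≤ B) (hB1 : 1 ≤ B) (x : ℝ) (w : List Letter) :
    |C.pot e x w| ≤ B * w.length := by
  induction w generalizing x with
  | nil => simp [pot]
  | cons s w ih =>
    rw [pot, List.length_cons]
    refine (abs_add_le _ _).trans ?_
    have h1 := abs_inc_le (C := C) hB hB1 x s
    have h2 := ih (C.step x s)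
    push_cast
    linarith

theorem tight_of_pot (hb : ∀ x, |e x| ≤ 1) {w : List Letter} {x : ℝ}
    (h : (w.length : ℤ) ≤ C.pot e x w) : C.Tight e x w := by
  induction w generalizing x with
  | nil => exact trivial
  | cons s w ih =>
    rw [pot, List.length_cons] at h
    push_cast at h
    have h1 := (abs_le.1 (abs_inc_le (C := C) hb le_rfl x s)).2
    have h2 := (abs_le.1 (abs_pot_le (C := C) hb le_rfl (C.step x s) w)).2
    rw [one_mul] at h2
    exact ⟨by linarith, ih (by linarith)⟩

/-- **Classification of geodesics.** -/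
theorem IsPot.tight_of_eval (he : C.IsPot e) (hb : ∀ x, |e x| ≤ 1) {w w' : List Letter} {x : ℝ}
    (hw : C.Tight e x w) (h : eval l m n w' = eval l m n w) (hl : w'.length ≤ w.length) :
    C.Tight e x w' ∧ w'.length = w.length := by
  have h1 := he.pot_eq_of_eval h x
  rw [hw.pot_eq] at h1
  have h2 := (abs_le.1 (abs_pot_le (C := C) hb le_rfl x w')).2
  rw [one_mul, h1] at h2
  have h3 : w.length ≤ w'.length := by exact_mod_cast h2
  have h4 : w'.length = w.length := le_antisymm hl h3
  exact ⟨tight_of_pot hb (by rw [h1, h4]), h4⟩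

theorem eval_surj (d : E l m n) : ∃ w : List Letter, eval l m n w = d := by
  obtain ⟨x, rfl⟩ := PresentedGroup.mk_surjective (rels l m n) d
  exact ⟨x.toWord, by rw [eval, FreeGroup.mk_toWord]⟩

/-- **Divergence.** `N` bounds the variation of a (bounded) potential on a finite set. -/
theorem IsPot.bounded_on_finite (he : C.IsPot e) (B : ℤ) (hB : ∀ x, |e x| ≤ B)
    (D : Set (E l m n)) (hD : D.Finite) (x : ℝ) : ∃ N : ℤ, ∀ u v : List Letter,
      (eval l m n u)⁻¹ * eval l m n v ∈ D → |C.pot e x v - C.pot e x u| ≤ N := by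
  choose W hW using eval_surj (l := l) (m := m) (n := n)
  obtain ⟨M, hM⟩ := (hD.image fun d => (W d).length).bddAbove
  refine ⟨max B 1 * M, fun u v huv => ?_⟩
  have h1 := hM (Set.mem_image_of_mem _ huv)
  set d := (eval l m n u)⁻¹ * eval l m n v with hd
  have h2 : eval l m n v = eval l m n (u ++ W d) := by
    rw [eval_append, hW, hd, mul_inv_cancel_left]
  rw [he.pot_eq_of_eval h2 x, pot_append, add_sub_cancel_left]
  refine (abs_pot_le (B := max B 1) (fun y => (hB y).trans (le_max_left _ _))
    (le_max_right _ _) _ _).trans ?_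
  refine mul_le_mul_of_nonneg_left ?_ (by positivity)
  exact_mod_cast h1

/-- Criterion with two potentials: `e₁` and `e₂` are bounded (by any constant). -/
theorem not_finiteDiff_of_pot (lt : Letter → Letter → Prop) [IsStrictTotalOrder Letter lt]
    {e₁ e₂ : ℝ → ℤ} (h1 : C.IsPot e₁) (h2 : C.IsPot e₂) (B : ℤ) (hB1 : ∀ x, |e₁ x| ≤ B)
    (hB2 : ∀ x, |e₂ x| ≤ B) (x : ℝ) (c0 : ℕ)
    (H : ∀ N : ℤ, ∃ (w1 w2 c : List Letter) (i : ℕ), c.length ≤ c0 ∧
      eval l m n (w1 ++ c) = eval l m n w2 ∧
      ∀ u v, u ∈ normalForms l m n lt → eval l m n u = eval l m n w1 →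
        v ∈ normalForms l m n lt → eval l m n v = eval l m n w2 →
        N < (C.pot e₁ x (v.take i) - C.pot e₂ x (v.take i)) -
          (C.pot e₁ x (u.take i) - C.pot e₂ x (u.take i))) : ¬ FiniteDiff l m n lt := by
  refine not_finiteDiff_of_words lt c0 fun D hD => ?_
  obtain ⟨N1, hN1⟩ := h1.bounded_on_finite B hB1 D hD x
  obtain ⟨N2, hN2⟩ := h2.bounded_on_finite B hB2 D hD x
  obtain ⟨w1, w2, c, i, hc, he, h⟩ := H (N1 + N2)
  refine ⟨w1, w2, c, i, hc, he, fun u v hu hu1 hv hv1 hD' => ?_⟩
  have h3 := h u v hu hu1 hv hv1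
  have h4 := (abs_le.1 (hN1 _ _ hD')).2
  have h5 := (abs_le.1 (hN2 _ _ hD')).1
  linarith

end CircleAct

/-! ## fundamental domains -/

open Classical in
/-- Indicator of the arc `[p, q)` of the circle. -/
noncomputable def arc (p q x : ℝ) : ℤ := if ∃ k : ℤ, p ≤ x + k * π ∧ x + k * π < q then 1 else 0

open Classical in
/-- Indicator of the arc `(p, q]` of the circle. -/
noncomputable def arc' (p q x : ℝ) : ℤ := if ∃ k : ℤ, p < x + k * π ∧ x + k * π ≤ q then 1 else 0

theorem iso_pow_apply (F : ℝ ≃o ℝ) (k : ℕ) (x : ℝ) : (F ^ k) x = F^[k] x := by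
  induction k generalizing x with
  | zero => rfl
  | succ k ih => rw [pow_succ, Function.iterate_succ_apply, ← ih]; rfl

theorem iso_zpow_mul {F : ℝ ≃o ℝ} {k : ℕ} (h2 : ∀ x, F^[k] x = x + π) (j : ℤ) (x : ℝ) :
    (F ^ ((k : ℤ) * j)) x = x + j * π := by
  have h3 : ∀ x, (F ^ k) x = x + π := fun x => by rw [iso_pow_apply, h2]
  have h4 : ∀ (i : ℕ) (x : ℝ), ((F ^ k) ^ i) x = x + i * π := by
    intro i
    induction i with
    | zero => intro x; simp
    | succ i ih =>
      intro x
      rw [pow_succ']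
      change (F ^ k) (((F ^ k) ^ i) x) = _
      rw [ih, h3]
      push_cast
      ring
  obtain ⟨i, rfl | rfl⟩ := j.eq_nat_or_neg
  · rw [zpow_mul, zpow_natCast, zpow_natCast, h4]
    push_cast
    ring
  · rw [zpow_mul, zpow_natCast, zpow_neg, zpow_natCast]
    change ((F ^ k) ^ i).symm x = _
    rw [OrderIso.symm_apply_eq, h4]
    push_cast
    ring

open Classical in
/-- A fundamental domain meets every orbit exactly once. -/
theorem sum_dom {F : ℝ ≃o ℝ} {k : ℕ} (hk : 1 ≤ k) (h2 : ∀ x, F^[k] x = x + π) (Q : ℝ → Prop)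
    (hQ : ∀ x y, x ≤ y → Q x → Q y) (hQ1 : ∃ y, Q y) (hQ2 : ∃ y, ¬ Q y) (x : ℝ) :
    ∑ i ∈ Finset.range k, (if ∃ j : ℤ, Q (F^[i] x + j * π) ∧ ¬ Q (F.symm (F^[i] x + j * π))
      then 1 else 0 : ℤ) = 1 := by
  have hF : ∀ y, y < F y := lt_of_iter F.strictMono h2
  set X : ℤ → ℝ := fun N => (F ^ N) x with hX
  have hX1 : ∀ N, X (N + 1) = F (X N) := fun N => by
    simp only [hX]
    rw [add_comm, zpow_one_add]
    rfl
  have hX2 : ∀ N, F.symm (X N) = X (N - 1) := fun N => by
    rw [OrderIso.symm_apply_eq, ← hX1, sub_add_cancel]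
  have hmono : StrictMono X := strictMono_int_of_lt_succ fun N => by
    rw [hX1]
    exact hF _
  have hX3 : ∀ (i : ℕ) (j : ℤ), X (i + k * j) = F^[i] x + j * π := fun i j => by
    simp only [hX]
    rw [add_comm, zpow_add, zpow_natCast]
    change (F ^ ((k : ℤ) * j)) ((F ^ i) x) = _
    rw [iso_zpow_mul h2, iso_pow_apply]
  have hpi := pi_pos
  have hex : ∃ N, Q (X N) := by
    obtain ⟨y, hy⟩ := hQ1
    refine ⟨((0 : ℕ) : ℤ) + k * ⌈(y - x) / π⌉, hQ _ _ ?_ hy⟩
    rw [hX3]
    have h3 := Int.le_ceil ((y - x) / π)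
    rw [div_le_iff₀ hpi] at h3
    simp only [Function.iterate_zero, id_eq]
    linarith
  have hbd : ∃ b, ∀ N, Q (X N) → b ≤ N := by
    obtain ⟨y, hy⟩ := hQ2
    refine ⟨((0 : ℕ) : ℤ) + k * ⌊(y - x) / π⌋, fun N hN => ?_⟩
    by_contra h3
    rw [not_le] at h3
    refine hy (hQ _ _ ((hmono h3).le.trans ?_) hN)
    rw [hX3]
    have h4 := Int.floor_le ((y - x) / π)
    rw [le_div_iff₀ hpi] at h4
    simp only [Function.iterate_zero, id_eq]
    linarith
  obtain ⟨b, hb⟩ := hbd
  obtain ⟨N, hN, hN'⟩ := Int.exists_least_of_bdd (P := fun N => Q (X N)) ⟨b, hb⟩ hex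
  have hN1 : ¬ Q (X (N - 1)) := fun h => by
    have := hN' _ h
    omega
  have huniq : ∀ M, Q (X M) → ¬ Q (X (M - 1)) → M = N := by
    intro M h3 h4
    have h5 := hN' _ h3
    by_contra h6
    exact h4 (hQ _ _ (hmono.monotone (by omega)) hN)
  have hk' : (0 : ℤ) < k := by omega
  have hi0 := Int.emod_nonneg N hk'.ne'
  have hi1 := Int.emod_lt_of_pos N hk'
  obtain ⟨i0, hi0'⟩ := Int.eq_ofNat_of_zero_le hi0
  have hNd : N = (i0 : ℤ) + k * (N / k) := by
    have := Int.emod_add_mul_ediv N k
    rw [hi0'] at this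
    exact this.symm
  rw [Finset.sum_eq_single i0]
  · rw [if_pos]
    refine ⟨N / k, ?_⟩
    rw [← hX3, ← hNd, hX2]
    exact ⟨hN, hN1⟩
  · intro i hi hne
    rw [if_neg]
    rintro ⟨j, h3, h4⟩
    rw [← hX3] at h3 h4
    rw [hX2] at h4
    have h5 := huniq _ h3 h4
    have h6 : ((i : ℤ) + k * j) % k = i := by
      rw [Int.add_mul_emod_self_left]
      exact Int.emod_eq_of_lt (by omega) (by exact_mod_cast Finset.mem_range.1 hi)
    rw [h5, hi0'] at h6
    exact hne (by exact_mod_cast h6.symm)
  · intro h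
    refine absurd (Finset.mem_range.2 ?_) h
    rw [hi0'] at hi1
    exact_mod_cast hi1

theorem sum_arc {F : ℝ ≃o ℝ} (h1 : ∀ x, F (x + π) = F x + π) {k : ℕ} (hk : 1 ≤ k)
    (h2 : ∀ x, F^[k] x = x + π) (p x : ℝ) :
    ∑ i ∈ Finset.range k, arc p (F p) (F^[i] x) = 1 := by
  rw [← sum_dom hk h2 (fun y => p ≤ y) (fun x y hxy hx => hx.trans hxy) ⟨p, le_rfl⟩
    ⟨p - 1, by simp⟩ x]
  refine Finset.sum_congr rfl fun i _ => ?_
  unfold arc
  congr 1
  simp only [not_le, OrderIso.symm_apply_lt]

theorem sum_arc' {F : ℝ ≃o ℝ} (h1 : ∀ x, F (x + π) = F x + π) {k : ℕ} (hk : 1 ≤ k)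
    (h2 : ∀ x, F^[k] x = x + π) (p x : ℝ) :
    ∑ i ∈ Finset.range k, arc' p (F p) (F^[i] x) = 1 := by
  rw [← sum_dom hk h2 (fun y => p < y) (fun x y hxy hx => hx.trans_le hxy) ⟨p + 1, by simp⟩
    ⟨p, by simp⟩ x]
  refine Finset.sum_congr rfl fun i _ => ?_
  unfold arc'
  congr 1
  simp only [not_lt, OrderIso.symm_apply_le]

end Pool.Agent.SLE
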