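import Pool.Agent.SLE.Engine

/-!
# Closed residues of chamber systems
-/

namespace Pool.Agent.SLE

open List

variable {B C : Type*}

theorem alt_add (s t : B) (p q : ℕ) :
    alt s t (p + q) = alt s t p ++ (if p % 2 = 0 then alt s t q else alt t s q) := by
  induction p generalizing s t with
  | zero => simp
  | succ p ih =>
    rw [show p + 1 + q = (p + q) + 1 by omega, alt_succ, alt_succ, ih, List.cons_append]
    rcases Nat.mod_two_eq_zero_or_one p with h | h
    · rw [if_pos h, if_neg (by omega)]
    · rw [if_neg (by omega), if_pos (by omega)]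

theorem alt_reverse (s t : B) (p : ℕ) :
    (alt s t p).reverse = if p % 2 = 0 then alt t s p else alt s t p := by
  induction p generalizing s t with
  | zero => simp
  | succ p ih =>
    have h0 : (alt s t (p + 1)).reverse = (alt t s p).reverse ++ [s] := by
      rw [alt_succ, List.reverse_cons]
    have h1 := alt_add t s p 1
    have h2 := alt_add s t p 1
    rw [h0, ih]
    rcases Nat.mod_two_eq_zero_or_one p with h | h
    · rw [if_pos h, if_neg (by omega)]
      rw [if_pos h] at h2
      rw [h2]
      rfl
    · rw [if_neg (by omega), if_pos (by omega)]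
      rw [if_neg (by omega)] at h1
      rw [h1]
      rfl

/-- The full alternating word as a union of two opposite arcs. -/
theorem alt_split (s t : B) (p q : ℕ) (h : (p + q) % 2 = 0) :
    alt s t (p + q) = alt s t p ++ (alt t s q).reverse := by
  rw [alt_add, alt_reverse]
  rcases Nat.mod_two_eq_zero_or_one p with h1 | h1
  · rw [if_pos h1, if_pos (by omega)]
  · rw [if_neg (by omega), if_neg (by omega)]

variable {f : C → B → Option C}

theorem run_reverse (hf : ∀ c s d, f c s = some d → f d s = some c) {V : List B} {c d : C}
    (h : run f c V = some d) : run f d V.reverse = some c := by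
  induction V generalizing c with
  | nil => simp at h; simp [h]
  | cons s V ih =>
    rw [run_cons_some] at h
    obtain ⟨e, he, he2⟩ := h
    rw [List.reverse_cons, run_append_some]
    refine ⟨e, ih he2, ?_⟩
    rw [run_cons_some]
    exact ⟨c, hf _ _ _ he, rfl⟩

/-- The residue of `c` of type `{s, t}` is a closed cycle of length `2 M s t`. -/
def Full (M : CoxeterMatrix B) (f : C → B → Option C) (c : C) (s t : B) : Prop :=
  run f c (alt s t (2 * M s t)) = some c

variable {M : CoxeterMatrix B}

theorem Full.of_arcs (hf : ∀ c s d, f c s = some d → f d s = some c) {c d : C} {s t : B}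
    {p q : ℕ} (h1 : run f c (alt s t p) = some d) (h2 : run f c (alt t s q) = some d)
    (h : p + q = 2 * M s t) : Full M f c s t := by
  rw [Full, ← h, alt_split _ _ _ _ (by omega), run_append_some]
  exact ⟨d, h1, run_reverse hf h2⟩

theorem Full.flip (hf : ∀ c s d, f c s = some d → f d s = some c) {c : C} {s t : B}
    (h : Full M f c s t) : Full M f c t s := by
  have h1 := run_reverse hf h
  rw [alt_reverse, if_pos (by omega)] at h1
  rw [Full, M.symmetric t s]
  exact h1

theorem Full.step (hf : ∀ c s d, f c s = some d → f d s = some c) {c d : C} {s t : B}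
    (h : Full M f c s t) (hd : f c s = some d) : Full M f d s t := by
  by_cases hM : M s t = 0
  · rw [Full, hM] at h ⊢
    simp
  · have h1 : run f d (alt t s (2 * M s t)) = some d := by
      rw [Full] at h
      obtain ⟨k, hk⟩ : ∃ k, 2 * M s t = k + 1 := ⟨2 * M s t - 1, by omega⟩
      rw [hk, alt_succ, run_cons_some] at h
      obtain ⟨d', hd', h2⟩ := h
      rw [hd] at hd'
      cases hd'
      rw [hk, alt_add, run_append_some]
      refine ⟨c, h2, ?_⟩
      rw [if_neg (by omega), alt_succ, run_cons_some]
      exact ⟨d, hd, rfl⟩
    have h2 : Full M f d t s := by rw [Full, M.symmetric t s]; exact h1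
    exact h2.flip hf

theorem Full.step' (hf : ∀ c s d, f c s = some d → f d s = some c) {c d : C} {s t : B}
    (h : Full M f c s t) (hd : f c t = some d) : Full M f d s t :=
  ((h.flip hf).step hf hd).flip hf

theorem Full.braid (hf : ∀ c s d, f c s = some d → f d s = some c) {c d : C} {s t : B}
    (h : Full M f c s t) (hd : run f c (alt s t (M s t)) = some d) :
    run f c (alt t s (M s t)) = some d := by
  rw [Full, two_mul, alt_split _ _ _ _ (by omega), run_append_some] at h
  obtain ⟨e, he, h2⟩ := h
  rw [hd] at he
  cases he
  have := run_reverse hf h2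
  simpa using this

theorem Full.exists_left {c : C} {s t : B} (hM : M s t ≠ 0) (h : Full M f c s t) :
    ∃ d, f c s = some d := by
  rw [Full] at h
  obtain ⟨k, hk⟩ : ∃ k, 2 * M s t = k + 1 := ⟨2 * M s t - 1, by omega⟩
  rw [hk, alt_succ, run_cons_some] at h
  obtain ⟨d, hd, -⟩ := h
  exact ⟨d, hd⟩

end Pool.Agent.SLE
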