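import Pool.Agent.SLE.VHeight

/-!
# Systems given by darts

A `DSys` is a partial action given by the relation `Adj x y x'` (there is an edge from `x` to `x'`
with the letter `y`). The face on the left of a dart is complete if one can go around it.
-/

namespace Pool.Agent.SLE

open List G3

/-- A partial action given by its darts. -/
structure DSys (X : Type*) where
  Adj : X → Letter → X → Prop
  symm : ∀ {x y x'}, Adj x y x' → Adj x' (flip y) x
  det : ∀ {x y x1 x2}, Adj x y x1 → Adj x y x2 → x1 = x2

namespace DSys

variable {X : Type*} (S : DSys X)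

open Classical in
/-- The partial action. -/
noncomputable def mv (x : X) (y : Letter) : Option X :=
  if h : ∃ x', S.Adj x y x' then some h.choose else none

theorem mv_iff {x : X} {y : Letter} {x' : X} : S.mv x y = some x' ↔ S.Adj x y x' := by
  unfold mv
  split_ifs with h
  · rw [Option.some.injEq]
    constructor
    · rintro rfl; exact h.choose_spec
    · intro h2; exact S.det h.choose_spec h2
  · constructor
    · intro h2; cases h2
    · intro h2; exact absurd ⟨x', h2⟩ h

theorem mv_none {x : X} {y : Letter} : S.mv x y = none ↔ ∀ x', ¬ S.Adj x y x' := by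
  rw [Option.eq_none_iff_forall_ne_some]
  exact forall_congr' fun x' => not_congr S.mv_iff

theorem run_cons_iff {x e : X} {y : Letter} {w : List Letter} :
    run S.mv x (y :: w) = some e ↔ ∃ x', S.Adj x y x' ∧ run S.mv x' w = some e := by
  rw [run_cons_some]
  exact exists_congr fun x' => and_congr_left fun _ => S.mv_iff

/-- A complete face, on the left of its darts. -/
def Face (l m n : ℕ) (y : Letter) (s : ℕ → X) : Prop :=
  (∀ t < fper l m n y, S.Adj (s t) (nxt^[t] y) (s (t + 1))) ∧ s (fper l m n y) = s 0

/-- The face on the left of the dart `(x, y)` is complete. -/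
def Inner (l m n : ℕ) (x : X) (y : Letter) : Prop :=
  ∃ y0 s t, S.Face l m n y0 s ∧ t < fper l m n y0 ∧ x = s t ∧ y = nxt^[t] y0

variable {S}

theorem fper_nxt (l m n : ℕ) (y : Letter) : fper l m n (nxt y) = fper l m n y := by
  obtain ⟨i, b⟩ := y
  fin_cases i <;> cases b <;> rfl

theorem fper_iter (l m n : ℕ) (t : ℕ) (y : Letter) :
    fper l m n (nxt^[t] y) = fper l m n y := by
  induction t with
  | zero => rfl
  | succ t ih => rw [Function.iterate_succ_apply', fper_nxt, ih]

theorem nxt_nxt_p {y : Letter} (h : y.2 = false) : nxt (nxt y) = y := by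
  obtain ⟨i, b⟩ := y
  simp only at h
  subst h
  fin_cases i <;> rfl

theorem nxt_pos {y : Letter} (h : y.2 = true) : nxt y = y := by
  obtain ⟨i, b⟩ := y
  simp only at h
  subst h
  fin_cases i <;> rfl

theorem nxt_inj {y y' : Letter} (h : nxt y = nxt y') : y = y' := by
  obtain ⟨i, b⟩ := y
  obtain ⟨i', b'⟩ := y'
  revert h
  fin_cases i <;> fin_cases i' <;> cases b <;> cases b' <;> simp [nxt]

theorem nxt_iter_fper (l m n : ℕ) (y : Letter) : nxt^[fper l m n y] y = y := by
  obtain ⟨i, b⟩ := y
  fin_cases i <;> cases b
  · change nxt^[2 * m] lA' = lA'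
    rw [(nxt_iter_p (2 * m)).1, if_pos (by omega)]
  · exact nxt_iter_a _
  · change nxt^[2 * m] lB' = lB'
    rw [(nxt_iter_p (2 * m)).2, if_pos (by omega)]
  · exact nxt_iter_b _

/-- Running along a path given by a function. -/
theorem run_path {s : ℕ → X} {y : Letter} {k : ℕ}
    (h : ∀ t < k, S.Adj (s t) (nxt^[t] y) (s (t + 1))) : run S.mv (s 0) (fw y k) = some (s k) := by
  induction k generalizing s y with
  | zero => rfl
  | succ k ih =>
    rw [fw, S.run_cons_iff]
    refine ⟨s 1, h 0 (Nat.succ_pos _), ?_⟩
    exact ih (s := fun t => s (t + 1)) (fun t ht => by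
      have := h (t + 1) (by omega)
      rwa [Function.iterate_succ_apply] at this)

theorem Face.run {l m n : ℕ} {y : Letter} {s : ℕ → X} (h : S.Face l m n y s) :
    run S.mv (s 0) (fw y (fper l m n y)) = some (s 0) := by
  have := run_path h.1
  rwa [h.2] at this

/-- The face seen from another dart. -/
theorem Face.shift {l m n : ℕ} {y : Letter} {s : ℕ → X} (h : S.Face l m n y s) {t : ℕ}
    (ht : t < fper l m n y) : S.Face l m n (nxt^[t] y)
      (fun j => if t + j < fper l m n y then s (t + j) else s (t + j - fper l m n y)) := by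
  set p := fper l m n y with hp
  have hper : nxt^[p] y = y := nxt_iter_fper l m n y
  constructor
  · rw [fper_iter, ← hp]
    intro j hj
    rw [← Function.iterate_add_apply]
    by_cases h1 : t + j + 1 < p
    · simp only [show t + j < p by omega, show t + (j + 1) < p by omega, if_true]
      have := h.1 (t + j) (by omega)
      rw [Nat.add_comm j t]
      exact this
    · by_cases h2 : t + j < p
      · have h3 : t + j + 1 = p := by omega
        simp only [h2, show ¬ t + (j + 1) < p by omega, if_true, if_false]
        have h4 := h.1 (t + j) (by omega)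
        rw [h3] at h4
        rw [show t + (j + 1) - p = 0 by omega, Nat.add_comm j t]
        have h5 := h.2
        rw [← hp] at h5
        rw [← h5]
        exact h4
      · simp only [h2, show ¬ t + (j + 1) < p by omega, if_false]
        have h4 := h.1 (t + j - p) (by omega)
        rw [show t + (j + 1) - p = t + j - p + 1 by omega]
        have h5 : nxt^[j + t] y = nxt^[t + j - p] y := by
          rw [show j + t = (t + j - p) + p by omega, Function.iterate_add_apply, hper]
        rw [h5]
        exact h4
  · rw [fper_iter, ← hp]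
    have h1 : ¬ t + p < p := by omega
    simp only [h1, if_false, Nat.add_zero, ht, if_true]
    congr 1
    omega

theorem Inner.exists_face {l m n : ℕ} {x : X} {y : Letter} (h : S.Inner l m n x y) :
    ∃ s, S.Face l m n y s ∧ s 0 = x := by
  obtain ⟨y0, s, t, hs, ht, rfl, rfl⟩ := h
  exact ⟨_, hs.shift ht, by simp [ht]⟩

theorem Inner.cyc {l m n : ℕ} {x : X} {y : Letter} (h : S.Inner l m n x y) :
    run S.mv x (fw y (fper l m n y)) = some x := by
  obtain ⟨s, hs, rfl⟩ := h.exists_face
  exact hs.run

/-- **Closed systems.** Every dart is on the boundary of a complete face, or the run along the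
face on its left has fewer than half of the edges. -/
def Closed (S : DSys X) (l m n : ℕ) : Prop :=
  ∀ x y x', S.Adj x y x' → S.Inner l m n x y ∨ run S.mv x (fw y (fhalf l m n y)) = none

theorem Closed.inner_of_run {l m n : ℕ} (H : S.Closed l m n) {x e : X} {y : Letter} {k : ℕ}
    (hk : 1 ≤ k) (hk2 : fhalf l m n y ≤ k) (hr : run S.mv x (fw y k) = some e) :
    S.Inner l m n x y := by
  obtain ⟨k', rfl⟩ : ∃ k', k = k' + 1 := ⟨k - 1, by omega⟩
  have hr' := hr
  rw [fw, S.run_cons_iff] at hr'
  obtain ⟨x', h1, -⟩ := hr'
  rcases H x y x' h1 with h | h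
  · exact h
  · exfalso
    rw [← Nat.add_sub_cancel' hk2, fw_add, run_append_some] at hr
    obtain ⟨d, hd, -⟩ := hr
    rw [h] at hd
    cases hd

theorem Closed.split {l m n : ℕ} (H : S.Closed l m n) {x e : X} {y : Letter} {k j : ℕ}
    (hk : 1 ≤ k) (hk2 : fhalf l m n y ≤ k) (hkj : k + j = fper l m n y)
    (hr : run S.mv x (fw y k) = some e) : run S.mv e (fw (nxt^[k] y) j) = some x := by
  have h1 := (H.inner_of_run hk hk2 hr).cyc
  rw [← hkj, fw_add, run_append_some] at h1
  obtain ⟨d, hd, h2⟩ := h1
  rw [hr] at hd
  cases hd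
  exact h2

theorem Closed.vsys {l m n : ℕ} (H : S.Closed l m n) (hl : 2 ≤ l) (hm : 1 ≤ m) (hn : 2 ≤ n) :
    VSys l m n S.mv := by
  have hsymm : ∀ x y x', S.mv x y = some x' → S.mv x' (flip y) = some x := by
    intro x y x' h
    rw [S.mv_iff] at h ⊢
    exact S.symm h
  have inv := @run_winv X S.mv hsymm
  -- `a`
  have qa : ∀ (k j : ℕ), 1 ≤ k → l / 2 ≤ k → k + j = l → ∀ x e,
      run S.mv x (replicate k lA) = some e → run S.mv x (replicate j lA') = some e := by
    intro k j hk hk2 hkj x e h
    have h1 := H.split (y := lA) hk hk2 hkj (by rw [fw_a]; exact h)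
    rw [nxt_iter_a, fw_a] at h1
    have h2 := inv h1
    rwa [winv_replicate] at h2
  have qa' : ∀ (k j : ℕ), 1 ≤ k → l / 2 ≤ k → k + j = l → ∀ x e,
      run S.mv x (replicate k lA') = some e → run S.mv x (replicate j lA) = some e := by
    intro k j hk hk2 hkj x e h
    have h1 := inv h
    rw [winv_replicate] at h1
    have h2 := H.split (y := lA) hk hk2 hkj (by rw [fw_a]; exact h1)
    rwa [nxt_iter_a, fw_a] at h2
  have qb : ∀ (k j : ℕ), 1 ≤ k → n / 2 ≤ k → k + j = n → ∀ x e,
      run S.mv x (replicate k lB) = some e → run S.mv x (replicate j lB') = some e := by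
    intro k j hk hk2 hkj x e h
    have h1 := H.split (y := lB) hk hk2 hkj (by rw [fw_b]; exact h)
    rw [nxt_iter_b, fw_b] at h1
    have h2 := inv h1
    rwa [winv_replicate] at h2
  have qb' : ∀ (k j : ℕ), 1 ≤ k → n / 2 ≤ k → k + j = n → ∀ x e,
      run S.mv x (replicate k lB') = some e → run S.mv x (replicate j lB) = some e := by
    intro k j hk hk2 hkj x e h
    have h1 := inv h
    rw [winv_replicate] at h1
    have h2 := H.split (y := lB) hk hk2 hkj (by rw [fw_b]; exact h1)
    rwa [nxt_iter_b, fw_b] at h2
  have hper : fhalf l m n lA' = m ∧ fhalf l m n lB' = m := by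
    constructor <;> simp [fhalf, fper]
  -- `P`, positive to negative
  have pp : ∀ x e, (run S.mv x (alt lA' lB' m) = some e → run S.mv x (alt lB lA m) = some e) ∧
      (run S.mv x (alt lB' lA' m) = some e → run S.mv x (alt lA lB m) = some e) := by
    intro x e
    constructor
    · intro h
      have h1 := H.split (y := lA') (k := m) (j := m) hm hper.1.le (by simp [fper]; omega)
        (by rw [(fw_p m).1]; exact h)
      rw [(nxt_iter_p m).1] at h1
      split_ifs at h1 with h2
      · rw [(fw_p m).1] at h1
        have h3 := inv h1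
        rw [winv_alt, if_pos h2] at h3
        exact h3
      · rw [(fw_p m).2] at h1
        have h3 := inv h1
        rw [winv_alt, if_neg h2] at h3
        exact h3
    · intro h
      have h1 := H.split (y := lB') (k := m) (j := m) hm hper.2.le (by simp [fper]; omega)
        (by rw [(fw_p m).2]; exact h)
      rw [(nxt_iter_p m).2] at h1
      split_ifs at h1 with h2
      · rw [(fw_p m).2] at h1
        have h3 := inv h1
        rw [winv_alt, if_pos h2] at h3
        exact h3
      · rw [(fw_p m).1] at h1
        have h3 := inv h1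
        rw [winv_alt, if_neg h2] at h3
        exact h3
  have pn : ∀ x e, (run S.mv x (alt lA lB m) = some e → run S.mv x (alt lB' lA' m) = some e) ∧
      (run S.mv x (alt lB lA m) = some e → run S.mv x (alt lA' lB' m) = some e) := by
    intro x e
    constructor
    · intro h
      have h1 := inv h
      rw [winv_alt] at h1
      split_ifs at h1 with h2
      · have h3 := H.split (y := lB') (k := m) (j := m) hm hper.2.le (by simp [fper]; omega)
          (by rw [(fw_p m).2]; exact h1)
        rw [(nxt_iter_p m).2, if_pos h2, (fw_p m).2] at h3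
        exact h3
      · have h3 := H.split (y := lA') (k := m) (j := m) hm hper.1.le (by simp [fper]; omega)
          (by rw [(fw_p m).1]; exact h1)
        rw [(nxt_iter_p m).1, if_neg h2, (fw_p m).2] at h3
        exact h3
    · intro h
      have h1 := inv h
      rw [winv_alt] at h1
      split_ifs at h1 with h2
      · have h3 := H.split (y := lA') (k := m) (j := m) hm hper.1.le (by simp [fper]; omega)
          (by rw [(fw_p m).1]; exact h1)
        rw [(nxt_iter_p m).1, if_pos h2, (fw_p m).1] at h3
        exact h3
      · have h3 := H.split (y := lB') (k := m) (j := m) hm hper.2.le (by simp [fper]; omega)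
          (by rw [(fw_p m).2]; exact h1)
        rw [(nxt_iter_p m).2, if_neg h2, (fw_p m).1] at h3
        exact h3
  refine ⟨hsymm, ?_, ?_, ?_, ?_, ?_, ?_⟩
  · exact fun x e => ⟨qa _ _ (by omega) (by omega) (by omega) x e,
      qa' _ _ (by omega) (by omega) (by omega) x e⟩
  · exact fun x e => ⟨qa' _ _ (by omega) (by omega) (by omega) x e,
      qa _ _ (by omega) (by omega) (by omega) x e⟩
  · exact fun x e => ⟨qb _ _ (by omega) (by omega) (by omega) x e,
      qb' _ _ (by omega) (by omega) (by omega) x e⟩
  · exact fun x e => ⟨qb' _ _ (by omega) (by omega) (by omega) x e,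
      qb _ _ (by omega) (by omega) (by omega) x e⟩
  · exact fun x e => ⟨(pn x e).1, (pp x e).2⟩
  · exact fun x e => ⟨(pn x e).2, (pp x e).1⟩

/-- Sections with heights, in terms of darts. -/
theorem vval {l m n : ℕ} {val : X → E l m n} {κ : X → Letter → ℤ}
    (h : ∀ x y x', S.Adj x y x' → val x * eval l m n [y] = val x' * (genB l m n ^ n) ^ κ x y) :
    VVal l m n S.mv val κ :=
  ⟨fun x y x' h1 => h x y x' (S.mv_iff.1 h1)⟩

end DSys

end Pool.Agent.SLE
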