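import Pool.Agent.SLE.Group

/-!
# Shortlex automaticity of `E(l,m,n)`: definitions
-/

namespace Pool.Agent.SLE

/-- The alphabet of four formal symbols: `(0, true)` is `a`, `(0, false)` is `a⁻¹`,
`(1, true)` is `b` and `(1, false)` is `b⁻¹`. -/
abbrev Letter : Type := Fin 2 × Bool

/-- The element of `E(l,m,n)` represented by a word over the alphabet. -/
def eval (l m n : ℕ) (w : List Letter) : E l m n :=
  PresentedGroup.mk (rels l m n) (FreeGroup.mk w)

/-- The language of the shortlex-least representatives of the elements of `E(l,m,n)`, for the
shortlex order given by the relation `lt` on the alphabet. -/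
def normalForms (l m n : ℕ) (lt : Letter → Letter → Prop) : Language Letter :=
  {w | ∀ v : List Letter, eval l m n v = eval l m n w → v = w ∨ List.Shortlex lt w v}

/-- The padded pairs `(u, v)` of shortlex-least words with `u x = v` in the group, where `x` is a
letter or (for `x = none`) the empty word. The padding symbol is `none`. -/
def multiplier (l m n : ℕ) (lt : Letter → Letter → Prop) (x : Option Letter) :
    Language (Option Letter × Option Letter) :=
  {p | ∃ u ∈ normalForms l m n lt, ∃ v ∈ normalForms l m n lt,
    eval l m n (u ++ x.toList) = eval l m n v ∧ p = List.zipWithAll Prod.mk u v}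

/-- `E(l,m,n)` is shortlex automatic with respect to the generators `a, b`, their inverses and
the order `lt` of these four letters. -/
def ShortlexAutomatic (l m n : ℕ) (lt : Letter → Letter → Prop) : Prop :=
  (normalForms l m n lt).IsRegular ∧ ∀ x : Option Letter, (multiplier l m n lt x).IsRegular

/-- The finite difference property: synchronous prefixes of neighbouring normal forms have
finitely many differences. -/
def FiniteDiff (l m n : ℕ) (lt : Letter → Letter → Prop) : Prop :=
  ∃ S : Set (E l m n), S.Finite ∧ ∀ (x : Option Letter) (u v : List Letter),
    u ∈ normalForms l m n lt → v ∈ normalForms l m n lt →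
    eval l m n (u ++ x.toList) = eval l m n v →
    ∀ i : ℕ, (eval l m n (u.take i))⁻¹ * eval l m n (v.take i) ∈ S

/-- The letters with `a` and `a⁻¹`, and `b` and `b⁻¹`, exchanged. -/
def flip (y : Letter) : Letter := (y.1, !y.2)

/-- The order with `a` and `a⁻¹`, and `b` and `b⁻¹`, exchanged. -/
def flipLt (lt : Letter → Letter → Prop) (y y' : Letter) : Prop := lt (flip y) (flip y')

end Pool.Agent.SLE
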