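import Pool.Agent.SLE.Engine

/-!
# The Coxeter group of a triangle `(l, m, n)` and the exact orders of the rotations
-/

namespace Pool.Agent.SLE

open CoxeterSystem List

/-- The three letters. -/
inductive G3 : Type
  | s0 | s1 | s2
  deriving DecidableEq

open G3

/-- Orders of the products of two simple reflections: `s0 s1 ↦ l`, `s0 s2 ↦ m`, `s1 s2 ↦ n`. -/
def triFun (l m n : ℕ) : G3 → G3 → ℕ
  | s0, s1 => l
  | s1, s0 => l
  | s0, s2 => m
  | s2, s0 => m
  | s1, s2 => n
  | s2, s1 => n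
  | s0, s0 => 1
  | s1, s1 => 1
  | s2, s2 => 1

/-- The Coxeter matrix of the triangle `(l, m, n)`. -/
def triMat (l m n : ℕ) (hl : 2 ≤ l) (hm : 2 ≤ m) (hn : 2 ≤ n) : CoxeterMatrix G3 where
  M := Matrix.of (triFun l m n)
  isSymm := by
    ext i j
    cases i <;> cases j <;> rfl
  diagonal i := by cases i <;> rfl
  off_diagonal i j h := by
    cases i <;> cases j <;> simp [triFun] at h ⊢ <;> omega

section ring

variable {A : Type*} [Ring A] [Algebra ℝ A]

/-- relations between two anti-involutions with angle `θ`. -/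
structure HalfTurns (p q : A) (θ : ℝ) : Prop where
  hp : p * p = -1
  hq : q * q = -1
  hpq : p * q + q * p = -((2 * Real.cos θ) • (1 : A))

theorem HalfTurns.symm {p q : A} {θ : ℝ} (h : HalfTurns p q θ) : HalfTurns q p θ :=
  ⟨h.hq, h.hp, by rw [add_comm]; exact h.hpq⟩

theorem HalfTurns.sq {p q : A} {θ : ℝ} (h : HalfTurns p q θ) :
    (-(p * q)) * (-(p * q)) = (2 * Real.cos θ) • (-(p * q)) - 1 := by
  have h1 : q * p = -((2 * Real.cos θ) • (1 : A)) - p * q := by
    rw [← h.hpq]; abel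
  calc (-(p * q)) * (-(p * q)) = p * (q * p) * q := by noncomm_ring
    _ = p * (-((2 * Real.cos θ) • (1 : A)) - p * q) * q := by rw [h1]
    _ = -((2 * Real.cos θ) • (p * q)) - (p * p) * (q * q) := by
        simp only [mul_sub, sub_mul, mul_neg, neg_mul, mul_smul_comm, smul_mul_assoc, mul_one,
          mul_assoc]
    _ = _ := by
        rw [h.hp, h.hq]
        simp only [mul_neg, mul_one, neg_neg, smul_neg]

theorem HalfTurns.pow {p q : A} {θ : ℝ} (h : HalfTurns p q θ) (k : ℕ) :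
    (Real.sin θ) • (-(p * q)) ^ k =
      (Real.sin (k * θ)) • (-(p * q)) - (Real.sin ((k - 1 : ℝ) * θ)) • (1 : A) := by
  induction k with
  | zero =>
    simp
  | succ k ih =>
    rw [pow_succ, ← smul_mul_assoc, ih, sub_mul, smul_mul_assoc, h.sq, smul_mul_assoc, one_mul,
      smul_sub, smul_smul]
    have e1 : ((k + 1 : ℕ) - 1 : ℝ) * θ = k * θ := by push_cast; ring
    have e2 : Real.sin (((k + 1 : ℕ) : ℝ) * θ) =
        Real.sin (k * θ) * (2 * Real.cos θ) - Real.sin ((k - 1 : ℝ) * θ) := by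
      have h1 : ((k + 1 : ℕ) : ℝ) * θ = k * θ + θ := by push_cast; ring
      have h2 : (k - 1 : ℝ) * θ = k * θ - θ := by ring
      rw [h1, h2, Real.sin_add, Real.sin_sub]; ring
    rw [e1, e2, sub_smul]
    abel

theorem HalfTurns.pow_eq {p q : A} {θ : ℝ} (h : HalfTurns p q θ) {M : ℕ} (hM : 2 ≤ M)
    (hθ : θ = Real.pi / M) : (p * q) ^ M = 1 ∨ (p * q) ^ M = -1 := by
  have hM0 : (0 : ℝ) < M := by positivity
  have hs : 0 < Real.sin θ := by
    rw [hθ]
    refine Real.sin_pos_of_pos_of_lt_pi (by positivity) ?_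
    rw [div_lt_iff₀ hM0]
    have : (2 : ℝ) ≤ M := by exact_mod_cast hM
    nlinarith [Real.pi_pos]
  have h1 := h.pow M
  have e1 : (M : ℝ) * θ = Real.pi := by rw [hθ]; field_simp
  have e2 : ((M : ℝ) - 1) * θ = Real.pi - θ := by rw [sub_mul, e1]; ring
  rw [e1, e2, Real.sin_pi, Real.sin_pi_sub, zero_smul, zero_sub, ← smul_neg] at h1
  have h2 : (-(p * q)) ^ M = -1 := by
    have := congrArg (fun x => (Real.sin θ)⁻¹ • x) h1
    simpa [smul_smul, inv_mul_cancel₀ hs.ne'] using this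
  rcases Nat.even_or_odd M with he | ho
  · right; rw [he.neg_pow] at h2; exact h2
  · left; rw [ho.neg_pow] at h2; exact neg_injective h2

theorem HalfTurns.dvd [Nontrivial A] {p q : A} {θ : ℝ} (h : HalfTurns p q θ) {M : ℕ} (hM : 2 ≤ M)
    (hθ : θ = Real.pi / M) {k : ℕ} (hk : (p * q) ^ k * p = p * (p * q) ^ k) : M ∣ k := by
  have hM0 : (0 : ℝ) < M := by positivity
  have hs : 0 < Real.sin θ := by
    rw [hθ]
    refine Real.sin_pos_of_pos_of_lt_pi (by positivity) ?_
    rw [div_lt_iff₀ hM0]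
    have : (2 : ℝ) ≤ M := by exact_mod_cast hM
    nlinarith [Real.pi_pos]
  have hk' : (-(p * q)) ^ k * p = p * (-(p * q)) ^ k := by
    rcases Nat.even_or_odd k with he | ho
    · rw [he.neg_pow]; exact hk
    · rw [ho.neg_pow, neg_mul, hk, mul_neg]
  have h1 : (Real.sin (k * θ)) • ((-(p * q)) * p - p * (-(p * q))) = 0 := by
    have h2 : ((Real.sin θ) • (-(p * q)) ^ k) * p = p * ((Real.sin θ) • (-(p * q)) ^ k) := by
      rw [smul_mul_assoc, hk', mul_smul_comm]
    rw [h.pow k, sub_mul, mul_sub, smul_mul_assoc, smul_mul_assoc, mul_smul_comm,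
      mul_smul_comm, one_mul, mul_one] at h2
    rw [smul_sub]
    have := congrArg (fun x => x + (Real.sin ((k - 1 : ℝ) * θ)) • p) h2
    simp only [sub_add_cancel] at this
    rw [this, sub_self]
  have h3 : (-(p * q)) * p - p * (-(p * q)) = (2 : ℝ) • ((Real.cos θ) • p - q) := by
    have h4 : q * p = -((2 * Real.cos θ) • (1 : A)) - p * q := by
      rw [← h.hpq]; abel
    calc (-(p * q)) * p - p * (-(p * q)) = -(p * (q * p)) + (p * p) * q := by noncomm_ring
      _ = -(p * (-((2 * Real.cos θ) • (1 : A)) - p * q)) + (p * p) * q := by rw [h4]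
      _ = (2 * Real.cos θ) • p + (p * p) * q + (p * p) * q := by
          simp only [mul_sub, mul_neg, mul_smul_comm, mul_one, mul_assoc]
          abel
      _ = _ := by
          rw [h.hp, smul_sub, smul_smul, two_smul]
          simp only [neg_mul, one_mul]
          abel
  have h5 : Real.sin (k * θ) = 0 := by
    by_contra hne
    rw [h3, smul_smul] at h1
    have h6 : (Real.cos θ) • p - q = 0 := by
      have := congrArg (fun x => (Real.sin (k * θ) * 2)⁻¹ • x) h1
      simpa [smul_smul, hne] using this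
    have h7 : q = (Real.cos θ) • p := (sub_eq_zero.1 h6).symm
    have h8 := h.hq
    rw [h7, smul_mul_smul_comm, h.hp] at h8
    have h9 : ((1 - Real.cos θ * Real.cos θ)) • (1 : A) = 0 := by
      rw [sub_smul, one_smul]
      rw [smul_neg, neg_inj] at h8
      rw [h8, sub_self]
    have h10 : 1 - Real.cos θ * Real.cos θ = 0 := by
      by_contra h11
      have := congrArg (fun x => (1 - Real.cos θ * Real.cos θ)⁻¹ • x) h9
      simp only [smul_smul, inv_mul_cancel₀ h11, one_smul, smul_zero] at this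
      exact one_ne_zero this
    have := Real.sin_sq_add_cos_sq θ
    nlinarith [hs]
  rw [Real.sin_eq_zero_iff] at h5
  obtain ⟨j, hj⟩ := h5
  rw [hθ] at hj
  have h12 : (j : ℝ) * M = k := by
    have := Real.pi_pos
    field_simp at hj
    linarith
  have h13 : j * M = k := by exact_mod_cast h12
  have h14 : (M : ℤ) ∣ (k : ℤ) := ⟨j, by rw [← h13]; ring⟩
  exact_mod_cast h14

end ring

/-- Three half turns with prescribed angles exist in `M₂(ℂ)`. -/
theorem exists_halfTurns (α β γ : ℝ) (hα : Real.sin α ≠ 0) :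
    ∃ P0 P1 P2 : Matrix (Fin 2) (Fin 2) ℂ,
      HalfTurns P0 P1 α ∧ HalfTurns P0 P2 β ∧ HalfTurns P1 P2 γ := by
  obtain ⟨ca, hca⟩ : ∃ x : ℂ, x = ((Real.cos α : ℝ) : ℂ) := ⟨_, rfl⟩
  obtain ⟨cb, hcb⟩ : ∃ x : ℂ, x = ((Real.cos β : ℝ) : ℂ) := ⟨_, rfl⟩
  obtain ⟨cg, hcg⟩ : ∃ x : ℂ, x = ((Real.cos γ : ℝ) : ℂ) := ⟨_, rfl⟩
  obtain ⟨e, he⟩ : ∃ x : ℂ, x = ((Real.sin α : ℝ) : ℂ) := ⟨_, rfl⟩
  have he0 : e ≠ 0 := by rw [he]; exact_mod_cast hα
  obtain ⟨s, hs⟩ : ∃ s : ℂ, s * e = 2 * (cg - ca * cb) :=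
    ⟨2 * (cg - ca * cb) / e, by field_simp⟩
  obtain ⟨r, hr⟩ := IsAlgClosed.exists_pow_nat_eq (s ^ 2 - 4 * (1 - cb ^ 2))
    (n := 2) (by norm_num)
  obtain ⟨d, hd⟩ : ∃ d : ℂ, d = (s + r) / 2 := ⟨_, rfl⟩
  have hquad : cb ^ 2 + d * (s - d) = 1 := by
    rw [hd]; linear_combination (-1 / 4 : ℂ) * hr
  have hcs : ca ^ 2 + e ^ 2 = 1 := by
    rw [he, hca]
    have := Real.sin_sq_add_cos_sq α
    exact_mod_cast (by linarith : (Real.cos α) ^ 2 + (Real.sin α) ^ 2 = 1)
  have hI := Complex.I_sq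
  have smul_one : ∀ x : ℝ, (x • (1 : Matrix (Fin 2) (Fin 2) ℂ)) = !![(x : ℂ), 0; 0, (x : ℂ)] := by
    intro x
    ext i j
    fin_cases i <;> fin_cases j <;> simp
  have h2a : (((2 * Real.cos α : ℝ)) : ℂ) = 2 * ca := by rw [hca]; push_cast; ring
  have h2b : (((2 * Real.cos β : ℝ)) : ℂ) = 2 * cb := by rw [hcb]; push_cast; ring
  have h2g : (((2 * Real.cos γ : ℝ)) : ℂ) = 2 * cg := by rw [hcg]; push_cast; ring
  refine ⟨!![Complex.I, 0; 0, -Complex.I],
    !![Complex.I * ca, e; -e, -(Complex.I * ca)],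
    !![Complex.I * cb, d; -(s - d), -(Complex.I * cb)],
    ⟨?_, ?_, ?_⟩, ⟨?_, ?_, ?_⟩, ⟨?_, ?_, ?_⟩⟩
  all_goals
    try rw [smul_one]
    try rw [h2a]
    try rw [h2b]
    try rw [h2g]
    ext i j
    fin_cases i <;> fin_cases j <;>
      simp [Matrix.mul_apply, Fin.sum_univ_two]
  all_goals try ring_nf
  all_goals try rw [Complex.I_sq]
  all_goals try ring_nf
  all_goals first
    | linear_combination -hcs
    | linear_combination -hquad
    | linear_combination -hs

/-- A matrix squaring to `-1`, as a unit. -/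
noncomputable def halfUnit {A : Type*} [Ring A] (P : A) (h : P * P = -1) : Aˣ where
  val := P
  inv := -P
  val_inv := by rw [mul_neg, h, neg_neg]
  inv_val := by rw [neg_mul, h, neg_neg]

/-- The triangle Coxeter group has the exact orders. -/
theorem triMat_exact (l m n : ℕ) (hl : 2 ≤ l) (hm : 2 ≤ m) (hn : 2 ≤ n) {W : Type*} [Group W]
    (cs : CoxeterSystem (triMat l m n hl hm hn) W) : ExactOrders cs := by
  have hsin : Real.sin (Real.pi / l) ≠ 0 := by
    have hl0 : (0 : ℝ) < l := by positivity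
    have : 0 < Real.sin (Real.pi / l) := by
      refine Real.sin_pos_of_pos_of_lt_pi (by positivity) ?_
      rw [div_lt_iff₀ hl0]
      have : (2 : ℝ) ≤ l := by exact_mod_cast hl
      nlinarith [Real.pi_pos]
    exact this.ne'
  obtain ⟨P0, P1, P2, h01, h02, h12⟩ := exists_halfTurns (Real.pi / l) (Real.pi / m)
    (Real.pi / n) hsin
  let Pu : G3 → (Matrix (Fin 2) (Fin 2) ℂ)ˣ
    | s0 => halfUnit P0 h01.hp
    | s1 => halfUnit P1 h01.hq
    | s2 => halfUnit P2 h02.hq
  have hsq : ∀ i, ((Pu i * Pu i : (Matrix (Fin 2) (Fin 2) ℂ)ˣ) : Matrix (Fin 2) (Fin 2) ℂ) = -1 := by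
    intro i
    cases i
    · exact h01.hp
    · exact h01.hq
    · exact h02.hq
  have hht : ∀ i j : G3, i ≠ j → ∃ M : ℕ, M = triFun l m n i j ∧ 2 ≤ M ∧
      HalfTurns (Pu i : Matrix (Fin 2) (Fin 2) ℂ) (Pu j) (Real.pi / M) := by
    intro i j hij
    cases i <;> cases j
    · exact absurd rfl hij
    · exact ⟨l, rfl, hl, h01⟩
    · exact ⟨m, rfl, hm, h02⟩
    · exact ⟨l, rfl, hl, h01.symm⟩
    · exact absurd rfl hij
    · exact ⟨n, rfl, hn, h12⟩
    · exact ⟨m, rfl, hm, h02.symm⟩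
    · exact ⟨n, rfl, hn, h12.symm⟩
    · exact absurd rfl hij
  have hconj : ∀ u : (Matrix (Fin 2) (Fin 2) ℂ)ˣ,
      ((u : Matrix (Fin 2) (Fin 2) ℂ) = 1 ∨ (u : Matrix (Fin 2) (Fin 2) ℂ) = -1) →
      MulAut.conj u = 1 := by
    intro u hu
    ext v
    rcases hu with hu | hu
    · have : u = 1 := Units.ext hu
      rw [this]; simp
    · have : u = -1 := Units.ext (by rw [hu]; simp)
      rw [this]; simp
  have hlift : (triMat l m n hl hm hn).IsLiftable (fun i => MulAut.conj (Pu i)) := by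
    intro i j
    rw [← map_mul, ← map_pow]
    apply hconj
    by_cases hij : i = j
    · subst hij
      have : (triMat l m n hl hm hn) i i = 1 := (triMat l m n hl hm hn).diagonal i
      rw [this, pow_one]
      right; exact hsq i
    · obtain ⟨M, hM, hM2, hh⟩ := hht i j hij
      have hMM : (triMat l m n hl hm hn) i j = M := by rw [hM]; rfl
      rw [hMM]
      have := hh.pow_eq hM2 rfl
      simpa using this
  refine ⟨?_, ?_⟩
  · intro i j
    by_cases hij : i = j
    · subst hij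
      have : (triMat l m n hl hm hn) i i = 1 := (triMat l m n hl hm hn).diagonal i
      rw [this]; exact one_ne_zero
    · obtain ⟨M, hM, hM2, -⟩ := hht i j hij
      have hMM : (triMat l m n hl hm hn) i j = M := by rw [hM]; rfl
      rw [hMM]; omega
  · intro i j k hk
    by_cases hij : i = j
    · subst hij
      have : (triMat l m n hl hm hn) i i = 1 := (triMat l m n hl hm hn).diagonal i
      rw [this]; exact one_dvd _
    · obtain ⟨M, hM, hM2, hh⟩ := hht i j hij
      have hMM : (triMat l m n hl hm hn) i j = M := by rw [hM]; rfl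
      rw [hMM]
      refine hh.dvd hM2 rfl ?_
      have h1 := congrArg (cs.lift ⟨_, hlift⟩) hk
      rw [map_pow, map_mul, lift_apply_simple, lift_apply_simple, map_one, ← map_mul,
        ← map_pow] at h1
      have h2 := congrArg (fun φ : MulAut (Matrix (Fin 2) (Fin 2) ℂ)ˣ => φ (Pu i)) h1
      simp only [MulAut.conj_apply, MulAut.one_apply] at h2
      have h3 : (Pu i * Pu j) ^ k * Pu i = Pu i * (Pu i * Pu j) ^ k := by
        rw [mul_inv_eq_iff_eq_mul] at h2
        exact h2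
      have h4 := congrArg (fun u : (Matrix (Fin 2) (Fin 2) ℂ)ˣ =>
        (u : Matrix (Fin 2) (Fin 2) ℂ)) h3
      simpa using h4

end Pool.Agent.SLE
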