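import Pool.Agent.SLE.Defs
import Pool.Agent.SLE.TriOrders
import Pool.Agent.SLE.ZInfinite
import Pool.Agent.SLE.Auto

/-!
# The extended group `E(l,m,n) ⋊ {±1}`, reflection words and the quotient to the Coxeter group
-/

namespace Pool.Agent.SLE

open CoxeterSystem List G3

/-- The letter obtained by crossing an edge of type `i` from a chamber of parity `p`
(`true` for even); the value at `s1` is junk. -/
def crossLetter : G3 → Bool → Letter
  | s0, p => (0, p)
  | s2, p => (1, !p)
  | s1, _ => (0, true)

/-- The word over `{a, a⁻¹, b, b⁻¹}` of a word in the reflections, started at parity `p`. -/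
def dec : Bool → List G3 → List Letter
  | _, [] => []
  | p, s1 :: V => dec (!p) V
  | p, s0 :: V => crossLetter s0 p :: dec (!p) V
  | p, s2 :: V => crossLetter s2 p :: dec (!p) V

/-- The edge type of a letter. -/
def letterEdge (y : Letter) : G3 := if y.1 = 0 then s0 else s2

/-- The parity from which a letter crosses its edge. -/
def letterPar (y : Letter) : Bool := if y.1 = 0 then y.2 else !y.2

/-- The reflection word of a word over `{a, a⁻¹, b, b⁻¹}`, started at parity `p`, with `s1 s1`
cancelled. -/
def enc : Bool → List Letter → List G3
  | _, [] => []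
  | p, y :: w => if p = letterPar y then letterEdge y :: enc (!p) w
      else s1 :: letterEdge y :: enc p w

theorem letterEdge_ne (y : Letter) : letterEdge y ≠ s1 := by
  unfold letterEdge
  split_ifs <;> decide

theorem crossLetter_letterEdge (y : Letter) : crossLetter (letterEdge y) (letterPar y) = y := by
  obtain ⟨i, b⟩ := y
  fin_cases i <;> cases b <;> rfl

theorem dec_letterEdge (p : Bool) (y : Letter) (V : List G3) :
    dec p (letterEdge y :: V) = crossLetter (letterEdge y) p :: dec (!p) V := by
  obtain ⟨i, b⟩ := y
  fin_cases i <;> rfl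

theorem dec_enc (p : Bool) (w : List Letter) : dec p (enc p w) = w := by
  induction w generalizing p with
  | nil => rfl
  | cons y w ih =>
    unfold enc
    split_ifs with h
    · rw [dec_letterEdge, ih]
      rw [h, crossLetter_letterEdge]
    · have h' : (!p) = letterPar y := by
        revert h
        cases p <;> cases letterPar y <;> simp
      change dec (!p) (letterEdge y :: enc p w) = y :: w
      rw [dec_letterEdge, Bool.not_not, ih, h', crossLetter_letterEdge]

theorem enc_append_chain (p : Bool) (w : List Letter) :
    (enc p w ++ [s1]).IsChain (fun a b => ¬ (a = s1 ∧ b = s1)) := by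
  induction w generalizing p with
  | nil => exact List.isChain_singleton _
  | cons y w ih =>
    have hne := letterEdge_ne y
    have key : ∀ q, (letterEdge y :: (enc q w ++ [s1])).IsChain
        (fun a b => ¬ (a = s1 ∧ b = s1)) := by
      intro q
      rw [List.isChain_cons]
      exact ⟨fun _ _ h => hne h.1, ih q⟩
    unfold enc
    split_ifs with h
    · exact key _
    · change (s1 :: (letterEdge y :: (enc p w ++ [s1]))).IsChain _
      rw [List.isChain_cons_cons]
      exact ⟨fun h => hne h.2, key _⟩

theorem enc_chain (p : Bool) (w : List Letter) :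
    (enc p w).IsChain (fun a b => ¬ (a = s1 ∧ b = s1)) :=
  (enc_append_chain p w).left_of_append

theorem length_dec (p : Bool) (V : List G3) : (dec p V).length = cost s1 V := by
  induction V generalizing p with
  | nil => rfl
  | cons s V ih =>
    cases s
    · rw [dec, cost_cons_ne (o := s1) (show s0 ≠ s1 by decide), List.length_cons, ih]
    · rw [dec, cost_cons_self, ih]
    · rw [dec, cost_cons_ne (o := s1) (show s2 ≠ s1 by decide), List.length_cons, ih]

theorem cost_enc (p : Bool) (w : List Letter) : cost s1 (enc p w) = w.length := by
  rw [← length_dec p, dec_enc]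

/-- the parity after a word. -/
def parAfter (p : Bool) (V : List G3) : Bool := V.foldl (fun q _ => !q) p

theorem parAfter_cons (p : Bool) (s : G3) (V : List G3) :
    parAfter p (s :: V) = parAfter (!p) V := rfl

theorem dec_append (p : Bool) (V V' : List G3) :
    dec p (V ++ V') = dec p V ++ dec (parAfter p V) V' := by
  induction V generalizing p with
  | nil => rfl
  | cons s V ih =>
    rw [List.cons_append, parAfter_cons]
    cases s <;> simp only [dec, List.cons_append, ih]

section ext

variable (l m n : ℕ)

theorem genA_pow : genA l m n ^ l = 1 := by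
  have := PresentedGroup.one_of_mem (rels := rels l m n)
    (x := FreeGroup.of 0 ^ l) (by simp [rels])
  simpa [genA, PresentedGroup.of] using this

theorem genAB_pow : (genA l m n * genB l m n) ^ m = genB l m n ^ n := by
  rw [← mul_inv_eq_one]
  have := PresentedGroup.one_of_mem (rels := rels l m n)
    (x := (FreeGroup.of 0 * FreeGroup.of 1) ^ m * (FreeGroup.of 1 ^ n)⁻¹) (by simp [rels])
  simpa [genA, genB, PresentedGroup.of] using this

theorem z_comm (g : E l m n) : genB l m n ^ n * g = g * genB l m n ^ n := by
  have hb : Commute (genB l m n ^ n) (genB l m n) := (Commute.refl _).pow_left n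
  have hab : Commute (genB l m n ^ n) (genA l m n * genB l m n) := by
    rw [← genAB_pow]; exact (Commute.refl _).pow_left m
  have ha : Commute (genB l m n ^ n) (genA l m n) := by
    have := hab.mul_right hb.inv_right
    rwa [mul_inv_cancel_right] at this
  have key : ∀ g : E l m n, g ∈ Subgroup.centralizer {genB l m n ^ n} := by
    have htop : (Subgroup.centralizer {genB l m n ^ n} : Subgroup (E l m n)) = ⊤ := by
      rw [eq_top_iff, ← PresentedGroup.closure_range_of, Subgroup.closure_le]
      rintro _ ⟨i, rfl⟩
      rw [SetLike.mem_coe, Subgroup.mem_centralizer_singleton_iff]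
      fin_cases i
      · exact ha.eq.symm
      · exact hb.eq.symm
    intro g
    rw [htop]; trivial
  exact ((Subgroup.mem_centralizer_singleton_iff).1 (key g)).symm

/-- The automorphism inverting both generators. -/
noncomputable def flipAut (l m n : ℕ) : MulAut (E l m n) where
  toFun := flipHom l m n
  invFun := flipHom l m n
  left_inv := flipHom_flipHom l m n
  right_inv := flipHom_flipHom l m n
  map_mul' := map_mul (flipHom l m n)

theorem flipAut_apply (g : E l m n) : flipAut l m n g = flipHom l m n g := rfl

/-- The action of `±1` on `E(l,m,n)`, where `-1` inverts both generators. -/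
noncomputable def signAct (l m n : ℕ) : ℤˣ →* MulAut (E l m n) where
  toFun u := if u = 1 then 1 else flipAut l m n
  map_one' := if_pos rfl
  map_mul' u v := by
    have h : flipAut l m n * flipAut l m n = 1 := by
      ext g
      exact flipHom_flipHom l m n g
    rcases Int.units_eq_one_or u with rfl | rfl <;> rcases Int.units_eq_one_or v with rfl | rfl
    · simp
    · rw [one_mul, if_neg (by decide : (-1 : ℤˣ) ≠ 1), if_pos rfl, one_mul]
    · rw [mul_one, if_neg (by decide : (-1 : ℤˣ) ≠ 1), if_pos rfl, mul_one]
    · rw [if_neg (by decide : (-1 : ℤˣ) ≠ 1), h, if_pos (by decide)]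

theorem signAct_neg_one : signAct l m n (-1) = flipAut l m n := by
  change (if (-1 : ℤˣ) = 1 then 1 else flipAut l m n) = flipAut l m n
  exact if_neg (by decide)

/-- The extended group `E(l,m,n) ⋊ {±1}`. -/
abbrev ExtE (l m n : ℕ) : Type := E l m n ⋊[signAct l m n] ℤˣ

/-- The lifts of the three reflections. -/
noncomputable def refl (l m n : ℕ) : G3 → ExtE l m n
  | s0 => SemidirectProduct.inl (genA l m n) * SemidirectProduct.inr (-1)
  | s1 => SemidirectProduct.inr (-1)
  | s2 => SemidirectProduct.inr (-1) * SemidirectProduct.inl (genB l m n)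

/-- The central element `z = b^n` in the extended group. -/
noncomputable def zE (l m n : ℕ) : ExtE l m n := SemidirectProduct.inl (genB l m n ^ n)

/-- the reflection `σ` inverts the generators. -/
theorem sigma_mul_inl (g : E l m n) :
    (SemidirectProduct.inr (-1) : ExtE l m n) * SemidirectProduct.inl g =
      SemidirectProduct.inl (flipHom l m n g) * SemidirectProduct.inr (-1) := by
  have h := SemidirectProduct.inl_aut (φ := signAct l m n) (-1) g
  rw [signAct_neg_one, flipAut_apply, map_inv] at h
  rw [h, inv_mul_cancel_right]

theorem sigma_mul_self :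
    (SemidirectProduct.inr (-1) : ExtE l m n) * SemidirectProduct.inr (-1) = 1 := by
  rw [← map_mul]
  simp

theorem flipHom_genA : flipHom l m n (genA l m n) = (genA l m n)⁻¹ := flipHom_of l m n 0

theorem flipHom_genB : flipHom l m n (genB l m n) = (genB l m n)⁻¹ := flipHom_of l m n 1

theorem sigma_mul_genA :
    (SemidirectProduct.inr (-1) : ExtE l m n) * SemidirectProduct.inl (genA l m n) =
      SemidirectProduct.inl (genA l m n)⁻¹ * SemidirectProduct.inr (-1) := by
  rw [sigma_mul_inl, flipHom_genA]

theorem sigma_mul_genB :
    (SemidirectProduct.inr (-1) : ExtE l m n) * SemidirectProduct.inl (genB l m n) =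
      SemidirectProduct.inl (genB l m n)⁻¹ * SemidirectProduct.inr (-1) := by
  rw [sigma_mul_inl, flipHom_genB]

theorem refl_mul_self (i : G3) : refl l m n i * refl l m n i = 1 := by
  have hs := sigma_mul_self l m n
  cases i
  · calc refl l m n s0 * refl l m n s0
        = SemidirectProduct.inl (genA l m n) * (SemidirectProduct.inr (-1) *
            SemidirectProduct.inl (genA l m n)) * SemidirectProduct.inr (-1) := by
          simp only [refl, mul_assoc]
      _ = 1 := by
          rw [sigma_mul_genA, ← mul_assoc, ← map_mul, mul_inv_cancel, map_one,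
            one_mul, hs]
  · exact hs
  · have hb := sigma_mul_genB l m n
    calc refl l m n s2 * refl l m n s2
        = (SemidirectProduct.inr (-1) * SemidirectProduct.inl (genB l m n)) *
            (SemidirectProduct.inr (-1) * SemidirectProduct.inl (genB l m n)) := rfl
      _ = (SemidirectProduct.inl (genB l m n)⁻¹ * SemidirectProduct.inr (-1)) *
            (SemidirectProduct.inr (-1) * SemidirectProduct.inl (genB l m n)) := by
          nth_rewrite 1 [hb]; rfl
      _ = SemidirectProduct.inl (genB l m n)⁻¹ * (SemidirectProduct.inr (-1) *
            SemidirectProduct.inr (-1)) * SemidirectProduct.inl (genB l m n) := by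
          simp only [mul_assoc]
      _ = 1 := by rw [hs, mul_one, ← map_mul, inv_mul_cancel, map_one]

theorem zE_zpow (k : ℤ) :
    zE l m n ^ k = SemidirectProduct.inl ((genB l m n ^ n) ^ k) := by
  unfold zE
  rw [map_zpow]

theorem sigma_mul_zE (k : ℤ) :
    (SemidirectProduct.inr (-1) : ExtE l m n) * zE l m n ^ k =
      zE l m n ^ (-k) * SemidirectProduct.inr (-1) := by
  rw [zE_zpow, zE_zpow, sigma_mul_inl, map_zpow, map_pow, flipHom_genB, inv_pow, inv_zpow, zpow_neg]

theorem inl_mul_zE (g : E l m n) (k : ℤ) :
    (SemidirectProduct.inl g : ExtE l m n) * zE l m n ^ k =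
      zE l m n ^ k * SemidirectProduct.inl g := by
  have h : Commute g (genB l m n ^ n) := (z_comm l m n g).symm
  rw [zE_zpow, ← map_mul, ← map_mul, (h.zpow_right k).eq]

theorem refl_mul_zE (i : G3) (k : ℤ) :
    refl l m n i * zE l m n ^ k = zE l m n ^ (-k) * refl l m n i := by
  cases i
  · change SemidirectProduct.inl _ * SemidirectProduct.inr (-1) * _ = _
    rw [mul_assoc, sigma_mul_zE, ← mul_assoc, inl_mul_zE, mul_assoc]
    rfl
  · exact sigma_mul_zE l m n k
  · change SemidirectProduct.inr (-1) * SemidirectProduct.inl _ * _ = _
    rw [mul_assoc, inl_mul_zE, ← mul_assoc, sigma_mul_zE, mul_assoc]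
    rfl

theorem refl_s0_mul_s1 : refl l m n s0 * refl l m n s1 = SemidirectProduct.inl (genA l m n) := by
  change SemidirectProduct.inl _ * SemidirectProduct.inr (-1) * SemidirectProduct.inr (-1) = _
  rw [mul_assoc, sigma_mul_self, mul_one]

theorem refl_s1_mul_s2 : refl l m n s1 * refl l m n s2 = SemidirectProduct.inl (genB l m n) := by
  change SemidirectProduct.inr (-1) * (SemidirectProduct.inr (-1) * SemidirectProduct.inl _) = _
  rw [← mul_assoc, sigma_mul_self, one_mul]

theorem refl_s0_mul_s2 : refl l m n s0 * refl l m n s2 =
    SemidirectProduct.inl (genA l m n * genB l m n) := by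
  rw [map_mul, ← refl_s0_mul_s1, ← refl_s1_mul_s2, mul_assoc, ← mul_assoc (refl l m n s1),
    refl_mul_self, one_mul]

theorem refl_rel01 : (refl l m n s0 * refl l m n s1) ^ l = 1 := by
  rw [refl_s0_mul_s1, ← map_pow, genA_pow, map_one]

theorem refl_rel12 : (refl l m n s1 * refl l m n s2) ^ n = zE l m n := by
  rw [refl_s1_mul_s2, ← map_pow]
  rfl

theorem refl_rel02 : (refl l m n s0 * refl l m n s2) ^ m = zE l m n := by
  rw [refl_s0_mul_s2, ← map_pow, genAB_pow]
  rfl

/-- Product in the extended group of a word in the reflections. -/
noncomputable def extProd (V : List G3) : ExtE l m n := (V.map (refl l m n)).prod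

theorem extProd_cons (s : G3) (V : List G3) :
    extProd l m n (s :: V) = refl l m n s * extProd l m n V := by
  simp [extProd]

/-- the sign of a parity. -/
def parSign (p : Bool) : ℤˣ := if p then 1 else -1

theorem parSign_not (p : Bool) : parSign (!p) = parSign p * (-1) := by
  cases p <;> simp [parSign]

theorem parSign_cross0 (p : Bool) :
    (SemidirectProduct.inr (parSign p) : ExtE l m n) * refl l m n s0 =
      SemidirectProduct.inl (eval l m n [crossLetter s0 p]) *
        SemidirectProduct.inr (parSign (!p)) := by
  change SemidirectProduct.inr (parSign p) * (SemidirectProduct.inl _ *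
    SemidirectProduct.inr (-1)) = _
  cases p
  · change SemidirectProduct.inr (-1) * _ = _ * SemidirectProduct.inr 1
    rw [← mul_assoc, sigma_mul_genA, mul_assoc, sigma_mul_self, mul_one, map_one, mul_one]
    rfl
  · change SemidirectProduct.inr 1 * _ = _ * SemidirectProduct.inr (-1)
    rw [map_one, one_mul]
    rfl

theorem parSign_cross1 (p : Bool) :
    (SemidirectProduct.inr (parSign p) : ExtE l m n) * refl l m n s1 =
        SemidirectProduct.inr (parSign (!p)) := by
  change SemidirectProduct.inr (parSign p) * SemidirectProduct.inr (-1) = _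
  rw [parSign_not, map_mul]

theorem parSign_cross2 (p : Bool) :
    (SemidirectProduct.inr (parSign p) : ExtE l m n) * refl l m n s2 =
      SemidirectProduct.inl (eval l m n [crossLetter s2 p]) *
        SemidirectProduct.inr (parSign (!p)) := by
  change SemidirectProduct.inr (parSign p) * (SemidirectProduct.inr (-1) *
    SemidirectProduct.inl _) = _
  cases p
  · change SemidirectProduct.inr (-1) * _ = _ * SemidirectProduct.inr 1
    rw [← mul_assoc, sigma_mul_self, one_mul, map_one, mul_one]
    rfl
  · change SemidirectProduct.inr 1 * _ = _ * SemidirectProduct.inr (-1)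
    rw [map_one, one_mul, sigma_mul_genB]
    rfl

theorem extProd_eq_par (p : Bool) (V : List G3) :
    SemidirectProduct.inr (parSign p) * extProd l m n V =
      SemidirectProduct.inl (eval l m n (dec p V)) *
      SemidirectProduct.inr (parSign p * (-1) ^ V.length) := by
  induction V generalizing p with
  | nil =>
    simp only [extProd, List.map_nil, List.prod_nil, mul_one, dec, List.length_nil, pow_zero]
    rw [eval_nil, map_one, one_mul]
  | cons s V ih =>
    have hpow : parSign (!p) * (-1) ^ V.length = parSign p * (-1) ^ (s :: V).length := by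
      rw [parSign_not, List.length_cons, pow_succ', mul_assoc]
    rw [extProd_cons, ← mul_assoc, ← hpow]
    cases s
    · rw [parSign_cross0, mul_assoc, ih, ← mul_assoc, ← map_mul, ← eval_cons]
      rfl
    · rw [parSign_cross1, ih]
      rfl
    · rw [parSign_cross2, mul_assoc, ih, ← mul_assoc, ← map_mul, ← eval_cons]
      rfl

theorem extProd_eq (V : List G3) :
    extProd l m n V = SemidirectProduct.inl (eval l m n (dec true V)) *
      SemidirectProduct.inr ((-1) ^ V.length) := by
  have := extProd_eq_par l m n true V
  change SemidirectProduct.inr 1 * _ = _ * SemidirectProduct.inr (1 * _) at this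
  rwa [map_one, one_mul, one_mul] at this

theorem zE_zpow_eq_one (hl : 0 < l) (hm : 0 < m) (hn : 0 < n)
    (h : (1 / l + 1 / m + 1 / n : ℚ) < 1) (k : ℤ) (hk : zE l m n ^ k = 1) : k = 0 := by
  rw [zE_zpow, ← map_one (SemidirectProduct.inl : E l m n →* ExtE l m n)] at hk
  exact z_zpow_eq_one hl hm hn h k (SemidirectProduct.inl_injective hk)

end ext

section cox

variable (l m n : ℕ)

/-- The quotient map to the Coxeter group. -/
noncomputable def toCox (hl : 2 ≤ l) (hm : 2 ≤ m) (hn : 2 ≤ n) :
    E l m n →* (triMat l m n hl hm hn).Group :=
  PresentedGroup.toGroup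
    (f := ![(triMat l m n hl hm hn).toCoxeterSystem.simple s0 *
        (triMat l m n hl hm hn).toCoxeterSystem.simple s1,
      (triMat l m n hl hm hn).toCoxeterSystem.simple s1 *
        (triMat l m n hl hm hn).toCoxeterSystem.simple s2]) (by
    have h01 := (triMat l m n hl hm hn).toCoxeterSystem.simple_mul_simple_pow s0 s1
    have h12 := (triMat l m n hl hm hn).toCoxeterSystem.simple_mul_simple_pow s1 s2
    have h02 := (triMat l m n hl hm hn).toCoxeterSystem.simple_mul_simple_pow s0 s2
    intro r hr
    rcases hr with rfl | rfl
    · rw [map_pow, FreeGroup.lift_apply_of]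
      exact h01
    · rw [map_mul, map_pow, map_mul, map_inv, map_pow, FreeGroup.lift_apply_of,
        FreeGroup.lift_apply_of]
      change ((triMat l m n hl hm hn).toCoxeterSystem.simple s0 *
        (triMat l m n hl hm hn).toCoxeterSystem.simple s1 *
        ((triMat l m n hl hm hn).toCoxeterSystem.simple s1 *
        (triMat l m n hl hm hn).toCoxeterSystem.simple s2)) ^ m *
        (((triMat l m n hl hm hn).toCoxeterSystem.simple s1 *
        (triMat l m n hl hm hn).toCoxeterSystem.simple s2) ^ n)⁻¹ = 1
      have e : (triMat l m n hl hm hn).toCoxeterSystem.simple s0 *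
        (triMat l m n hl hm hn).toCoxeterSystem.simple s1 *
        ((triMat l m n hl hm hn).toCoxeterSystem.simple s1 *
        (triMat l m n hl hm hn).toCoxeterSystem.simple s2) =
        (triMat l m n hl hm hn).toCoxeterSystem.simple s0 *
        (triMat l m n hl hm hn).toCoxeterSystem.simple s2 := by
        rw [mul_assoc, CoxeterSystem.simple_mul_simple_cancel_left]
      rw [e]
      change ((triMat l m n hl hm hn).toCoxeterSystem.simple s0 *
        (triMat l m n hl hm hn).toCoxeterSystem.simple s2) ^ m = 1 at h02
      change ((triMat l m n hl hm hn).toCoxeterSystem.simple s1 *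
        (triMat l m n hl hm hn).toCoxeterSystem.simple s2) ^ n = 1 at h12
      rw [h02, h12, inv_one, mul_one])

variable (hl : 2 ≤ l) (hm : 2 ≤ m) (hn : 2 ≤ n)

theorem toCox_genA : toCox l m n hl hm hn (genA l m n) =
    (triMat l m n hl hm hn).toCoxeterSystem.simple s0 *
      (triMat l m n hl hm hn).toCoxeterSystem.simple s1 := by
  unfold toCox genA
  rw [PresentedGroup.toGroup.of]
  rfl

theorem toCox_genB : toCox l m n hl hm hn (genB l m n) =
    (triMat l m n hl hm hn).toCoxeterSystem.simple s1 *
      (triMat l m n hl hm hn).toCoxeterSystem.simple s2 := by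
  unfold toCox genB
  rw [PresentedGroup.toGroup.of]
  rfl

/-- `s₁` or `1`, according to the parity. -/
def parCox (p : Bool) : (triMat l m n hl hm hn).Group :=
  if p then 1 else (triMat l m n hl hm hn).toCoxeterSystem.simple s1

theorem parCox_not (p : Bool) : parCox l m n hl hm hn (!p) =
    parCox l m n hl hm hn p * (triMat l m n hl hm hn).toCoxeterSystem.simple s1 := by
  cases p
  · simp only [parCox, Bool.not_false, if_true, Bool.false_eq_true, if_false]
    rw [CoxeterSystem.simple_mul_simple_self]
  · simp only [parCox, Bool.not_true, if_true, Bool.false_eq_true, if_false, one_mul]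

theorem wordProd_eq_par (p : Bool) (V : List G3) :
    parCox l m n hl hm hn p * (triMat l m n hl hm hn).toCoxeterSystem.wordProd V =
      toCox l m n hl hm hn (eval l m n (dec p V)) *
        (parCox l m n hl hm hn p *
          (triMat l m n hl hm hn).toCoxeterSystem.simple s1 ^ V.length) := by
  induction V generalizing p with
  | nil =>
    simp only [CoxeterSystem.wordProd_nil, mul_one, dec, List.length_nil, pow_zero]
    rw [eval_nil, map_one, one_mul]
  | cons s V ih =>
    have hpow : parCox l m n hl hm hn (!p) *
          (triMat l m n hl hm hn).toCoxeterSystem.simple s1 ^ V.length =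
        parCox l m n hl hm hn p *
          (triMat l m n hl hm hn).toCoxeterSystem.simple s1 ^ (s :: V).length := by
      rw [parCox_not, List.length_cons, pow_succ', mul_assoc]
    rw [CoxeterSystem.wordProd_cons, ← hpow]
    cases s
    · have h : parCox l m n hl hm hn p * (triMat l m n hl hm hn).toCoxeterSystem.simple s0 =
          toCox l m n hl hm hn (eval l m n [crossLetter s0 p]) * parCox l m n hl hm hn (!p) := by
        cases p
        · change (triMat l m n hl hm hn).toCoxeterSystem.simple s1 * _ =
            toCox l m n hl hm hn (genA l m n)⁻¹ * 1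
          rw [map_inv, toCox_genA, mul_inv_rev, CoxeterSystem.inv_simple,
            CoxeterSystem.inv_simple, mul_one]
        · change 1 * _ = toCox l m n hl hm hn (genA l m n) *
            (triMat l m n hl hm hn).toCoxeterSystem.simple s1
          rw [toCox_genA, one_mul, CoxeterSystem.simple_mul_simple_cancel_right]
      rw [← mul_assoc, h, mul_assoc, ih, ← mul_assoc, ← map_mul, ← eval_cons]
      rfl
    · rw [← mul_assoc, ← parCox_not, ih]
      rfl
    · have h : parCox l m n hl hm hn p * (triMat l m n hl hm hn).toCoxeterSystem.simple s2 =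
          toCox l m n hl hm hn (eval l m n [crossLetter s2 p]) * parCox l m n hl hm hn (!p) := by
        cases p
        · change (triMat l m n hl hm hn).toCoxeterSystem.simple s1 * _ =
            toCox l m n hl hm hn (genB l m n) * 1
          rw [toCox_genB, mul_one]
        · change 1 * _ = toCox l m n hl hm hn (genB l m n)⁻¹ *
            (triMat l m n hl hm hn).toCoxeterSystem.simple s1
          rw [map_inv, toCox_genB, mul_inv_rev, CoxeterSystem.inv_simple,
            CoxeterSystem.inv_simple, one_mul, CoxeterSystem.simple_mul_simple_cancel_right]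
      rw [← mul_assoc, h, mul_assoc, ih, ← mul_assoc, ← map_mul, ← eval_cons]
      rfl

theorem wordProd_eq_toCox (V : List G3) :
    (triMat l m n hl hm hn).toCoxeterSystem.wordProd V =
      toCox l m n hl hm hn (eval l m n (dec true V)) *
        (triMat l m n hl hm hn).toCoxeterSystem.simple s1 ^ V.length := by
  have := wordProd_eq_par l m n hl hm hn true V
  simp only [parCox, if_true, one_mul] at this
  exact this

end cox

end Pool.Agent.SLE
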