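import Pool.Agent.SLE.FaceVal

/-!
# Divergence, and trapped tight words
-/

namespace Pool.Agent.SLE

open List G3

/-- The words `w1` and `w2` differ by a word of length at most `C`, and at some time the normal
forms of their values differ by an element of `G0` times a power of `z` with an exponent larger
than `N`. -/
def Diverge (l m n : ℕ) (lt : Letter → Letter → Prop) (C : ℕ) (G0 : Set (E l m n)) (N : ℕ) :
    Prop :=
  ∃ (w1 w2 c : List Letter) (i : ℕ), c.length ≤ C ∧
    eval l m n (w1 ++ c) = eval l m n w2 ∧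
    ∀ u v, u ∈ normalForms l m n lt → eval l m n u = eval l m n w1 →
      v ∈ normalForms l m n lt → eval l m n v = eval l m n w2 →
      ∃ g ∈ G0, ∃ h : ℤ, (N : ℤ) < |h| ∧
        (eval l m n (u.take i))⁻¹ * eval l m n (v.take i) = g * (genB l m n ^ n) ^ h

/-- The products `y y'⁻¹`. -/
def pairSet (l m n : ℕ) : Set (E l m n) :=
  Set.range fun p : Letter × Letter => eval l m n [p.1] * (eval l m n [p.2])⁻¹

theorem pairSet_finite (l m n : ℕ) : (pairSet l m n).Finite := Set.finite_range _

theorem mem_pairSet {l m n : ℕ} (y y' : Letter) :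
    eval l m n [y] * (eval l m n [y'])⁻¹ ∈ pairSet l m n := ⟨(y, y'), rfl⟩

theorem one_mem_pairSet {l m n : ℕ} : (1 : E l m n) ∈ pairSet l m n :=
  ⟨(lA, lA), mul_inv_cancel _⟩

theorem not_finiteDiff_of_diverge {l m n : ℕ} (hl : 2 ≤ l) (hm : 2 ≤ m) (hn : 2 ≤ n)
    (hyp : (1 / l + 1 / m + 1 / n : ℚ) < 1) (lt : Letter → Letter → Prop)
    [IsStrictTotalOrder Letter lt] (C : ℕ)
    (H : ∀ N : ℕ, Diverge l m n lt C (pairSet l m n) N) : ¬ FiniteDiff l m n lt :=
  not_finiteDiff_of_heights hl hm hn hyp lt C _ (pairSet_finite l m n) H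

theorem LocalCert.diverge {l m n : ℕ} (hl : 2 ≤ l) (hm : 2 ≤ m) (hn : 2 ≤ n)
    (hyp : (1 / l + 1 / m + 1 / n : ℚ) < 1) {lt : Letter → Letter → Prop}
    [IsStrictTotalOrder Letter lt] {C : ℕ} {g : E l m n} {h : ℤ} (L : LocalCert l m n lt C g h)
    {G0 : Set (E l m n)} (hg : g ∈ G0) {N : ℕ} (hN : (N : ℤ) < |h|) :
    Diverge l m n lt C G0 N := by
  refine ⟨L.w1, L.w2, L.c, L.i, L.c_len, ?_, fun u v hu hu' hv hv' => ?_⟩
  · have h1 : run L.mv L.x0 (L.w1 ++ L.c) = some L.e2 := by
      rw [run_append_some]; exact ⟨L.e1, L.tight1.spec.1, L.c_run⟩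
    rw [L.vval.eval_eq h1, L.vval.eval_eq L.tight2.spec.1, kap_append L.tight1.spec.1, L.kap12]
  · refine ⟨g, hg, h, hN, ?_⟩
    have e1 := take_eq_of_local L.sys L.vval hl hm hn hyp L.lip L.hH L.tight1 L.kap1 hu hu' L.loc1
    have e2 := take_eq_of_local L.sys L.vval hl hm hn hyp L.lip (Hh := fun _ => 0) (ε := 0)
      (fun x y x' _ _ => by simp) L.tight2 (by simp) hv hv' (i := L.i)
      (fun j hj p hp y p' h1 h2 _ z hz => L.loc2 j hj p hp y p' h1 h2 z hz)
    rw [e1, e2, L.vval.eval_eq L.run1, L.vval.eval_eq L.run2, ← L.diff, zpow_sub]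
    set z := genB l m n ^ n
    have hc : ∀ (g : E l m n) (k : ℤ), z ^ k * g = g * z ^ k := fun g k => zpow_comm g k
    set k1 := kap L.mv L.κ L.x0 (L.w1.take L.i)
    set k2 := kap L.mv L.κ L.x0 (L.w2.take L.i)
    calc ((L.val L.x0)⁻¹ * L.val L.p1 * z ^ k1)⁻¹ * ((L.val L.x0)⁻¹ * L.val L.p2 * z ^ k2)
        = z ^ (-k1) * ((L.val L.p1)⁻¹ * L.val L.p2) * z ^ k2 := by
          rw [zpow_neg]; group
      _ = (L.val L.p1)⁻¹ * L.val L.p2 * (z ^ k2 * (z ^ k1)⁻¹) := by
          rw [hc, zpow_neg, mul_assoc]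
          congr 1
          rw [← zpow_neg, ← zpow_add, ← zpow_add, add_comm]

section

variable {l m n : ℕ} {X : Type*} {mv : X → Letter → Option X}

/-- Tight runs all of whose darts are allowed. -/
def AllowedRun (mv : X → Letter → Option X) (F : X → ℤ) (P : X → Letter → X → Prop) :
    X → List Letter → X → Prop
  | x, [], e => x = e
  | x, y :: w, e => ∃ x', mv x y = some x' ∧ F x' = F x + 1 ∧ P x y x' ∧ AllowedRun mv F P x' w e

/-- A tight run of extreme height is tight for the height potential. -/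
theorem TightRun.allowed {F Hh : X → ℤ} {κ : X → Letter → ℤ} {ε : ℤ}
    (hH : ∀ x y x', mv x y = some x' → F x' = F x + 1 → Hh x' - Hh x ≤ ε * κ x y) {x e : X}
    {w : List Letter} (h : TightRun mv F x w e) (hk : ε * kap mv κ x w = Hh e - Hh x) :
    AllowedRun mv F (fun p y p' => Hh p' - Hh p = ε * κ p y) x w e := by
  induction w generalizing x with
  | nil => exact h
  | cons y w ih =>
    obtain ⟨x', h1, h2, h3⟩ := h
    rw [kap_cons h1] at hk
    have h4 := h3.height_le hH
    have h5 := hH x y x' h1 h2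
    exact ⟨x', h1, h2, by linarith, ih h3 (by linarith)⟩

theorem TightRun.allowed_true {F : X → ℤ} {x e : X} {w : List Letter}
    (h : TightRun mv F x w e) : AllowedRun mv F (fun _ _ _ => True) x w e := by
  induction w generalizing x with
  | nil => exact h
  | cons y w ih =>
    obtain ⟨x', h1, h2, h3⟩ := h
    exact ⟨x', h1, h2, trivial, ih h3⟩

/-- **Trapped words.** If the allowed darts from the region `R` below the level `f` lead to `R`,
with heights given by the differences of `g`, then an allowed word starting in `R` stays there until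
the level `f`. -/
theorem AllowedRun.trap {F : X → ℤ} {κ : X → Letter → ℤ} {P : X → Letter → X → Prop}
    {R : X → Prop} {g : X → ℤ} {f : ℤ}
    (hR : ∀ p, R p → F p < f → ∀ y p', mv p y = some p' → F p' = F p + 1 → P p y p' →
      R p' ∧ κ p y = g p' - g p) {x e : X} {w : List Letter} (h : AllowedRun mv F P x w e)
    (hx : R x) {i : ℕ} (hi : F x + i = f) (hil : i ≤ w.length) :
    ∃ p, run mv x (w.take i) = some p ∧ R p ∧ F p = f ∧ kap mv κ x (w.take i) = g p - g x := by
  induction i generalizing x w with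
  | zero =>
    refine ⟨x, by simp, hx, by simpa using hi, by simp [kap_nil]⟩
  | succ i ih =>
    cases w with
    | nil => simp at hil
    | cons y w =>
      obtain ⟨x', h1, h2, h3, h4⟩ := h
      push_cast at hi
      obtain ⟨h5, h6⟩ := hR x hx (by linarith) y x' h1 h2 h3
      obtain ⟨p, h7, h8, h9, h10⟩ := ih h4 h5 (by linarith) (by simpa using hil)
      refine ⟨p, ?_, h8, h9, ?_⟩
      · rw [List.take_succ_cons, run_cons_some]
        exact ⟨x', h1, h7⟩
      · rw [List.take_succ_cons, kap_cons h1, h10, h6]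
        ring

end

end Pool.Agent.SLE
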