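import Pool.Agent.SLE.Rank2

/-!
# Braid-closed chamber systems and minimal cost words
-/

namespace Pool.Agent.SLE

open CoxeterSystem List

variable {B W : Type*} [Group W] {M : CoxeterMatrix B} (cs : CoxeterSystem M W)

/-- Follow a word in a partial chamber system. -/
def run {B C : Type*} (f : C → B → Option C) : C → List B → Option C
  | c, [] => some c
  | c, s :: ω => (f c s).bind fun d => run f d ω

section run
variable {B C : Type*} (f : C → B → Option C)

@[simp] theorem run_nil (c : C) : run f c [] = some c := rfl

theorem run_cons (c : C) (s : B) (ω : List B) :
    run f c (s :: ω) = (f c s).bind fun d => run f d ω := rfl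

theorem run_cons_some {c : C} {s : B} {ω : List B} {e : C} :
    run f c (s :: ω) = some e ↔ ∃ d, f c s = some d ∧ run f d ω = some e := by
  rw [run_cons, Option.bind_eq_some_iff]

theorem run_append (c : C) (ω ω' : List B) :
    run f c (ω ++ ω') = (run f c ω).bind fun d => run f d ω' := by
  induction ω generalizing c with
  | nil => simp
  | cons s ω ih =>
    rw [List.cons_append, run_cons, run_cons]
    cases h : f c s with
    | none => simp
    | some d => simp [ih]

theorem run_append_some {c : C} {ω ω' : List B} {e : C} :
    run f c (ω ++ ω') = some e ↔ ∃ d, run f c ω = some d ∧ run f d ω' = some e := by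
  rw [run_append, Option.bind_eq_some_iff]

end run

/-- A chamber system is braid-closed for `M` if moves are symmetric and every full alternating
run can be replaced by the opposite one. -/
structure BraidClosed {C : Type*} (M : CoxeterMatrix B) (f : C → B → Option C) : Prop where
  symm : ∀ c s d, f c s = some d → f d s = some c
  braid : ∀ c s t d, s ≠ t → run f c (alt s t (M s t)) = some d →
    run f c (alt t s (M s t)) = some d

/-- The Coxeter system has the exact orders `M i j` (finite for `i ≠ j`). -/
structure ExactOrders : Prop where
  ne_zero : ∀ i j, M i j ≠ 0
  exact : ∀ i j, ∀ k : ℕ, (cs.simple i * cs.simple j) ^ k = 1 → M i j ∣ k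

variable {cs}

theorem exists_reduced_cons {w : W} {s : B} (h : cs.IsLeftDescent w s) :
    ∃ U : List B, cs.IsReduced (s :: U) ∧ cs.IsReduced U ∧ cs.wordProd (s :: U) = w ∧
      cs.wordProd U = cs.simple s * w := by
  obtain ⟨U, hU, hU2⟩ := cs.exists_isReduced (cs.simple s * w)
  have h1 : cs.wordProd (s :: U) = w := by rw [wordProd_cons, ← hU2]; simp
  refine ⟨U, ?_, hU, h1, hU2.symm⟩
  rw [CoxeterSystem.IsReduced, h1, List.length_cons, ← hU.eq, ← hU2]
  exact (cs.isLeftDescent_iff.1 h).symm

theorem isLeftDescent_of_isReduced_cons {s : B} {U : List B} (h : cs.IsReduced (s :: U)) :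
    cs.IsLeftDescent (cs.wordProd (s :: U)) s := by
  rw [IsLeftDescent, h.eq, wordProd_cons]
  simp only [simple_mul_simple_cancel_left, List.length_cons]
  have := cs.length_wordProd_le U
  omega

/-- **Transfer.** If a word can be followed in a braid-closed chamber system from `c` to `e`,
then so can every reduced word for the same element. -/
theorem run_of_reduced (hex : ExactOrders cs) {C : Type*} {f : C → B → Option C}
    (hf : BraidClosed M f) (ω : List B) (c e : C) (hrun : run f c ω = some e) (ω' : List B)
    (hred : cs.IsReduced ω') (heq : cs.wordProd ω' = cs.wordProd ω) : run f c ω' = some e := by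
  induction hn : ω.length using Nat.strong_induction_on generalizing ω c e ω' with
  | _ n ih =>
  cases ω with
  | nil =>
    have h1 : ω'.length = 0 := by rw [← hred.eq, heq]; simp
    rw [List.length_eq_zero_iff] at h1
    subst h1
    exact hrun
  | cons s ω₁ =>
    rw [run_cons_some] at hrun
    obtain ⟨d, hd, hd2⟩ := hrun
    simp only [List.length_cons] at hn
    by_cases hdes : cs.IsLeftDescent (cs.wordProd (s :: ω₁)) s
    · -- `s` is a descent
      cases ω' with
      | nil =>
        exfalso
        rw [← heq] at hdes
        simp [IsLeftDescent] at hdes
      | cons t V =>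
        have hV : cs.IsReduced V := by simpa using hred.drop 1
        by_cases hts : t = s
        · subst hts
          rw [wordProd_cons, wordProd_cons] at heq
          rw [run_cons_some]
          exact ⟨d, hd, ih ω₁.length (by omega) ω₁ d e hd2 V hV (mul_left_cancel heq) rfl⟩
        · have hdt : cs.IsLeftDescent (cs.wordProd (s :: ω₁)) t := by
            rw [← heq]; exact isLeftDescent_of_isReduced_cons hred
          obtain ⟨Y, hY, hYr⟩ := two_descents cs (i := s) (j := t) (hex.ne_zero s t)
            (hex.exact s t) hdes hdt
          obtain ⟨r, hr⟩ : ∃ r, M s t = r + 1 :=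
            ⟨M s t - 1, by have := hex.ne_zero s t; omega⟩
          have hlenle : (alt s t (M s t) ++ Y).length ≤ n := by
            rw [← hYr.eq, hY, ← hn]
            exact cs.length_wordProd_le _
          -- follow the tail in the system
          have h1 : run f d (alt t s r ++ Y) = some e := by
            refine ih ω₁.length (by omega) ω₁ d e hd2 _ ?_ ?_ rfl
            · have := hYr.drop 1
              rw [hr, alt_succ] at this
              simpa using this
            · rw [hr, alt_succ, List.cons_append, wordProd_cons, wordProd_cons] at hY
              exact mul_left_cancel hY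
          have h2 : run f c (alt s t (M s t) ++ Y) = some e := by
            rw [hr, alt_succ, List.cons_append, run_cons_some]
            exact ⟨d, hd, h1⟩
          rw [run_append_some] at h2
          obtain ⟨g, hg, hg2⟩ := h2
          have h3 := hf.braid c s t g (fun h => hts h.symm) hg
          rw [hr, alt_succ, run_cons_some] at h3
          obtain ⟨h, hh, hh2⟩ := h3
          have h4 : run f h (alt s t r ++ Y) = some e := by
            rw [run_append_some]; exact ⟨g, hh2, hg2⟩
          rw [run_cons_some]
          refine ⟨h, hh, ih (alt s t r ++ Y).length ?_ _ h e h4 V hV ?_ rfl⟩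
          · rw [List.length_append, length_alt] at hlenle ⊢
            omega
          · have h5 : cs.wordProd (t :: (alt s t r ++ Y)) = cs.wordProd (s :: ω₁) := by
              rw [← hY, ← List.cons_append, ← alt_succ, ← hr, wordProd_append, wordProd_append,
                wordProd_alt_comm cs s t]
            rw [← heq, wordProd_cons, wordProd_cons] at h5
            exact (mul_left_cancel h5).symm
    · -- `s` is not a descent
      have hw : cs.wordProd (s :: ω') = cs.wordProd ω₁ := by
        rw [wordProd_cons, heq, wordProd_cons]; simp
      have hr : cs.IsReduced (s :: ω') := by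
        have h1 := cs.not_isLeftDescent_iff.1 hdes
        rw [CoxeterSystem.IsReduced, wordProd_cons, heq, h1, List.length_cons, ← heq, hred.eq]
      have h2 := ih ω₁.length (by omega) ω₁ d e hd2 (s :: ω') hr hw rfl
      rw [run_cons_some] at h2
      obtain ⟨c', hc', hc2⟩ := h2
      rw [hf.symm c s d hd] at hc'
      cases hc'
      exact hc2

/-- The number of letters of a word different from the free letter `o`. -/
def cost [DecidableEq B] (o : B) (ω : List B) : ℕ := (ω.filter (· ≠ o)).length

section cost
variable [DecidableEq B] (o : B)

@[simp] theorem cost_nil : cost o [] = 0 := rfl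

theorem cost_cons_self (ω : List B) : cost o (o :: ω) = cost o ω := by simp [cost]

theorem cost_cons_ne {s : B} (h : s ≠ o) (ω : List B) : cost o (s :: ω) = cost o ω + 1 := by
  simp [cost, h]

theorem cost_append (ω ω' : List B) : cost o (ω ++ ω') = cost o ω + cost o ω' := by
  simp [cost]

theorem cost_sublist {ω ω' : List B} (h : ω.Sublist ω') : cost o ω ≤ cost o ω' :=
  (h.filter _).length_le

end cost

/-- A potential for the cost. -/
structure Potential [DecidableEq B] {C : Type*} (o : B) (f : C → B → Option C) (F : C → ℤ) :
    Prop where
  free : ∀ c d, f c o = some d → F d = F c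
  step : ∀ c s d, f c s = some d → F d ≤ F c + 1

theorem Potential.le_cost [DecidableEq B] {C : Type*} {o : B} {f : C → B → Option C} {F : C → ℤ}
    (hF : Potential o f F) (ω : List B) (c e : C) (h : run f c ω = some e) :
    F e ≤ F c + cost o ω := by
  induction ω generalizing c with
  | nil => simp at h; subst h; simp
  | cons s ω ih =>
    rw [run_cons_some] at h
    obtain ⟨d, hd, hd2⟩ := h
    have h1 := ih d hd2
    by_cases hs : s = o
    · subst hs
      rw [cost_cons_self, ← hF.free c d hd]; exact h1
    · rw [cost_cons_ne o hs]
      have := hF.step c s d hd
      push_cast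
      linarith

/-- Lower bound for the cost of any word for the same element. -/
theorem le_cost_of_eq [DecidableEq B] (hex : ExactOrders cs) {C : Type*} {f : C → B → Option C}
    (hf : BraidClosed M f) {o : B} {F : C → ℤ} (hF : Potential o f F) {ω V : List B} {c e : C}
    (hrun : run f c ω = some e) (heq : cs.wordProd V = cs.wordProd ω) :
    F e ≤ F c + cost o V := by
  obtain ⟨V', hs, hr, hp⟩ := exists_reduced_sublist cs V
  have h1 := run_of_reduced hex hf ω c e hrun V' hr (hp.trans heq)
  have h2 := hF.le_cost V' c e h1
  have h3 := cost_sublist o hs
  have : (cost o V' : ℤ) ≤ cost o V := by exact_mod_cast h3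
  linarith

/-- **Classification of minimal cost words.** -/
theorem run_of_min_cost [DecidableEq B] (hex : ExactOrders cs) {C : Type*}
    {f : C → B → Option C} (hf : BraidClosed M f) {o : B} {F : C → ℤ} (hF : Potential o f F)
    (hS : ∀ c t, f c o = none → t ≠ o → run f c (alt t o (M o t - 1)) = none)
    (V : List B) (hV : V.IsChain (fun a b => ¬ (a = o ∧ b = o)))
    {ω : List B} {c e : C} (hrun : run f c ω = some e)
    (heq : cs.wordProd V = cs.wordProd ω) (hcost : F c + cost o V ≤ F e) :
    run f c V = some e := by
  induction V generalizing ω c with
  | nil =>
    exact run_of_reduced hex hf ω c e hrun [] (by simp [CoxeterSystem.IsReduced]) heq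
  | cons s R ih =>
    have hR : R.IsChain (fun a b => ¬ (a = o ∧ b = o)) := hV.tail
    by_cases hs : s = o
    · subst hs
      rw [cost_cons_self] at hcost
      cases hc : f c s with
      | some c' =>
        rw [run_cons, hc, Option.bind_some]
        refine ih hR (ω := s :: ω) (c := c') ?_ ?_ ?_
        · rw [run_cons_some]; exact ⟨c, hf.symm _ _ _ hc, hrun⟩
        · rw [wordProd_cons, ← heq, wordProd_cons]; simp
        · rw [hF.free _ _ hc]; exact hcost
      | none =>
        exfalso
        have hnd : ¬ cs.IsLeftDescent (cs.wordProd ω) s := by
          intro hd
          obtain ⟨U, hU, -, hU2, -⟩ := exists_reduced_cons hd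
          have := run_of_reduced hex hf ω c e hrun _ hU hU2
          rw [run_cons, hc] at this
          simp at this
        cases R with
        | nil =>
          apply hnd
          rw [← heq]
          simp [IsLeftDescent]
        | cons t R2 =>
          have hts : t ≠ s := by
            have := List.isChain_cons_cons.1 hV
            intro h
            exact this.1 ⟨rfl, h⟩
          -- `y = s w = π (t :: R2)`
          have hy : cs.wordProd (t :: R2) = cs.simple s * cs.wordProd ω := by
            rw [← heq, wordProd_cons cs s]; simp
          have hds : cs.IsLeftDescent (cs.wordProd (t :: R2)) s := by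
            rw [hy, cs.isLeftDescent_iff]
            have := cs.not_isLeftDescent_iff.1 hnd
            simp [this]
          have hdt : cs.IsLeftDescent (cs.wordProd (t :: R2)) t := by
            by_contra hcon
            have h1 : cs.IsLeftDescent (cs.wordProd R2) t := by
              rw [cs.isLeftDescent_iff]
              have := cs.not_isLeftDescent_iff.1 hcon
              rw [wordProd_cons] at this
              simp only [simple_mul_simple_cancel_left] at this
              omega
            obtain ⟨p, hp, hp2⟩ := exchange_left cs R2 t h1
            have h2 : cs.wordProd (s :: R2.eraseIdx p) = cs.wordProd ω := by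
              rw [wordProd_cons, hp2, ← wordProd_cons, hy]; simp
            have h3 := le_cost_of_eq hex hf hF hrun h2
            rw [cost_cons_self] at h3
            rw [cost_cons_ne s hts] at hcost
            have h4 : cost s (R2.eraseIdx p) ≤ cost s R2 :=
              cost_sublist s (List.eraseIdx_sublist _ _)
            push_cast at hcost
            have h5 : (cost s (R2.eraseIdx p) : ℤ) ≤ cost s R2 := by exact_mod_cast h4
            linarith
          obtain ⟨Y, hY, hYr⟩ := two_descents cs (i := s) (j := t) (hex.ne_zero s t)
            (hex.exact s t) hds hdt
          obtain ⟨r, hr⟩ : ∃ r, M s t = r + 1 :=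
            ⟨M s t - 1, by have := hex.ne_zero s t; omega⟩
          rw [hr, alt_succ, List.cons_append] at hY hYr
          have hYr' : cs.IsReduced (alt t s r ++ Y) := by simpa using hYr.drop 1
          have hY' : cs.wordProd (alt t s r ++ Y) = cs.wordProd ω := by
            rw [wordProd_cons, hy] at hY
            exact mul_left_cancel hY
          have h6 := run_of_reduced hex hf ω c e hrun _ hYr' hY'
          have h7 := hS c t hc hts
          have h8 : M s t - 1 = r := by omega
          rw [h8] at h7
          rw [run_append, h7] at h6
          simp at h6
    · rw [cost_cons_ne o hs] at hcost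
      by_cases hd : cs.IsLeftDescent (cs.wordProd (s :: R)) s
      · obtain ⟨U, hU, hUr, hU2, hU3⟩ := exists_reduced_cons hd
        have h1 := run_of_reduced hex hf ω c e hrun _ hU (hU2.trans heq)
        rw [run_cons_some] at h1
        obtain ⟨c', hc', hc2⟩ := h1
        rw [run_cons_some]
        refine ⟨c', hc', ih hR hc2 ?_ ?_⟩
        · rw [hU3, wordProd_cons]; simp
        · have := hF.step _ _ _ hc'
          push_cast at hcost
          linarith
      · exfalso
        have h1 : cs.IsLeftDescent (cs.wordProd R) s := by
          rw [cs.isLeftDescent_iff]
          have := cs.not_isLeftDescent_iff.1 hd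
          rw [wordProd_cons] at this
          simp only [simple_mul_simple_cancel_left] at this
          omega
        obtain ⟨p, hp, hp2⟩ := exchange_left cs R s h1
        have h2 : cs.wordProd (R.eraseIdx p) = cs.wordProd ω := by
          rw [hp2, ← wordProd_cons, heq]
        have h3 := le_cost_of_eq hex hf hF hrun h2
        have h4 : cost o (R.eraseIdx p) ≤ cost o R := cost_sublist o (List.eraseIdx_sublist _ _)
        have h5 : (cost o (R.eraseIdx p) : ℤ) ≤ cost o R := by exact_mod_cast h4
        push_cast at hcost
        linarith

end Pool.Agent.SLE
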