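import Mathlib

/-!
# The exchange condition for Coxeter systems, for arbitrary (not necessarily reduced) words
-/

namespace Pool.Agent.SLE

open CoxeterSystem List

variable {B W : Type*} [Group W] {M : CoxeterMatrix B} (cs : CoxeterSystem M W)

/-- The permutation of `W × ZMod 2` attached to a simple reflection. -/
noncomputable def refPerm [DecidableEq W] (i : B) : Equiv.Perm (W × ZMod 2) where
  toFun p := (cs.simple i * p.1 * cs.simple i, p.2 + if p.1 = cs.simple i then 1 else 0)
  invFun p := (cs.simple i * p.1 * cs.simple i, p.2 + if p.1 = cs.simple i then 1 else 0)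
  left_inv p := by
    have h : cs.simple i * p.1 * cs.simple i = cs.simple i ↔ p.1 = cs.simple i := by
      constructor
      · intro h
        have := congrArg (fun x => cs.simple i * x * cs.simple i) h
        simpa [mul_assoc] using this
      · rintro h; simp [h]
    ext
    · simp [mul_assoc]
    · simp only [h]
      by_cases hp : p.1 = cs.simple i
      · simp only [hp, if_true, add_assoc]
        have : (1 : ZMod 2) + 1 = 0 := by decide
        simp [this]
      · simp [hp]
  right_inv p := by
    have h : cs.simple i * p.1 * cs.simple i = cs.simple i ↔ p.1 = cs.simple i := by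
      constructor
      · intro h
        have := congrArg (fun x => cs.simple i * x * cs.simple i) h
        simpa [mul_assoc] using this
      · rintro h; simp [h]
    ext
    · simp [mul_assoc]
    · simp only [h]
      by_cases hp : p.1 = cs.simple i
      · simp only [hp, if_true, add_assoc]
        have : (1 : ZMod 2) + 1 = 0 := by decide
        simp [this]
      · simp [hp]

theorem refPerm_apply [DecidableEq W] (i : B) (t : W) (e : ZMod 2) :
    refPerm cs i (t, e) = (cs.simple i * t * cs.simple i, e + if t = cs.simple i then 1 else 0) :=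
  rfl

theorem prod_refPerm [DecidableEq W] (ω : List B) (t : W) (e : ZMod 2) :
    ((ω.map (refPerm cs)).prod) (t, e) =
      (cs.wordProd ω * t * (cs.wordProd ω)⁻¹, e + ((cs.rightInvSeq ω).count t : ℕ)) := by
  induction ω with
  | nil => simp
  | cons i ω ih =>
    rw [List.map_cons, List.prod_cons, Equiv.Perm.mul_apply, ih, refPerm_apply]
    ext
    · simp [wordProd_cons, mul_assoc]
    · simp only [rightInvSeq, List.count_cons]
      have h : (cs.wordProd ω * t * (cs.wordProd ω)⁻¹ = cs.simple i) ↔
          ((cs.wordProd ω)⁻¹ * cs.simple i * cs.wordProd ω = t) := by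
        constructor
        · intro h; rw [← h]; group
        · intro h; rw [← h]; group
      by_cases hh : (cs.wordProd ω)⁻¹ * cs.simple i * cs.wordProd ω = t
      · simp only [h.2 hh, if_true, hh, beq_self_eq_true]
        push_cast
        ring
      · have h2 : ¬ (cs.wordProd ω * t * (cs.wordProd ω)⁻¹ = cs.simple i) := fun h3 => hh (h.1 h3)
        simp [h2, hh]

/-- The word `(i i')^N`. -/
def pairWord (i i' : B) : ℕ → List B
  | 0 => []
  | N + 1 => i :: i' :: pairWord i i' N

theorem wordProd_pairWord (i i' : B) (N : ℕ) :
    cs.wordProd (pairWord i i' N) = (cs.simple i * cs.simple i') ^ N := by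
  induction N with
  | zero => simp [pairWord]
  | succ N ih => simp [pairWord, wordProd_cons, ih, pow_succ', mul_assoc]

theorem map_prod_pairWord {G : Type*} [Monoid G] (f : B → G) (i i' : B) (N : ℕ) :
    ((pairWord i i' N).map f).prod = (f i * f i') ^ N := by
  induction N with
  | zero => simp [pairWord]
  | succ N ih => simp [pairWord, ih, pow_succ', mul_assoc]

theorem simple_conj_pow (i i' : B) (k : ℕ) :
    cs.simple i' * (cs.simple i * cs.simple i') ^ k =
      ((cs.simple i * cs.simple i') ^ k)⁻¹ * cs.simple i' := by
  induction k with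
  | zero => simp
  | succ k ih =>
    have h1 : cs.simple i' * (cs.simple i * cs.simple i') =
        (cs.simple i * cs.simple i')⁻¹ * cs.simple i' := by simp [mul_assoc]
    rw [pow_succ', ← mul_assoc, h1, mul_assoc, ih, ← mul_assoc, ← pow_succ']
    congr 1
    rw [← mul_inv_rev, ← pow_succ, pow_succ']

theorem ris_pairWord (i i' : B) (N : ℕ) :
    cs.rightInvSeq (pairWord i i' N) =
      (List.range (2 * N)).reverse.map
        (fun k => ((cs.simple i * cs.simple i') ^ k)⁻¹ * cs.simple i') := by
  induction N with
  | zero => simp [pairWord]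
  | succ N ih =>
    have e : 2 * (N + 1) = (2 * N + 1) + 1 := by ring
    rw [pairWord, rightInvSeq, rightInvSeq, ih, e, List.range_succ, List.range_succ]
    simp only [List.reverse_append, List.reverse_cons, List.reverse_nil, List.nil_append,
      List.singleton_append, List.map_cons, wordProd_cons, wordProd_pairWord]
    have key := simple_conj_pow cs i i' N
    set c := cs.simple i * cs.simple i' with hc
    have h2 : (c ^ N)⁻¹ * cs.simple i' * c ^ N = (c ^ (2 * N))⁻¹ * cs.simple i' := by
      rw [mul_assoc, key, ← mul_assoc, ← mul_inv_rev, ← pow_add, two_mul]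
    have h1 : (cs.simple i' * c ^ N)⁻¹ * cs.simple i * (cs.simple i' * c ^ N) =
        (c ^ (2 * N + 1))⁻¹ * cs.simple i' := by
      have h3 : (cs.simple i' * c ^ N)⁻¹ * cs.simple i * (cs.simple i' * c ^ N) =
        (c ^ N)⁻¹ * (cs.simple i' * cs.simple i) * (cs.simple i' * c ^ N) := by
        simp [mul_assoc]
      have h4 : cs.simple i' * cs.simple i = c⁻¹ := by simp [hc]
      rw [h3, h4, key, ← mul_assoc, ← mul_inv_rev, ← pow_succ', ← mul_inv_rev, ← pow_add]
      congr 3
      ring
    rw [h1, h2]

theorem refPerm_liftable [DecidableEq W] : M.IsLiftable (refPerm cs) := by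
  intro i i'
  ext1 ⟨t, e⟩
  rw [← map_prod_pairWord, prod_refPerm, wordProd_pairWord, simple_mul_simple_pow,
    ris_pairWord]
  have : ((List.map (fun k => ((cs.simple i * cs.simple i') ^ k)⁻¹ * cs.simple i')
      (List.range (2 * M i i')).reverse).count t : ZMod 2) = 0 := by
    set f : ℕ → W := fun k => ((cs.simple i * cs.simple i') ^ k)⁻¹ * cs.simple i' with hf
    rw [List.map_reverse, List.count_reverse, two_mul, List.range_add, List.map_append,
      List.map_map, List.count_append]
    have h : (f ∘ fun x => M i i' + x) = f := by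
      funext x
      simp [hf, pow_add]
    rw [h]
    push_cast
    exact CharTwo.add_self_eq_zero _
  rw [this]
  simp

/-- For every word `ω` for `w` and every simple right descent `i` of `w`, one can delete a letter
of `ω` and get a word for `w s_i`. -/
theorem exchange_right (ω : List B) (i : B)
    (h : cs.length (cs.wordProd ω * cs.simple i) < cs.length (cs.wordProd ω)) :
    ∃ j < ω.length, cs.wordProd (ω.eraseIdx j) = cs.wordProd ω * cs.simple i := by
  classical
  obtain ⟨ω₀, hr, hω₀⟩ := cs.exists_isReduced (cs.wordProd ω * cs.simple i)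
  -- the word `ω₀ ++ [i]` is reduced
  have hprod : cs.wordProd (ω₀.concat i) = cs.wordProd ω := by
    rw [wordProd_concat, ← hω₀]; simp
  have hlen : cs.length (cs.wordProd ω) = (ω₀.concat i).length := by
    have h1 : cs.length (cs.wordProd ω * cs.simple i) + 1 = cs.length (cs.wordProd ω) := by
      rcases cs.length_mul_simple (cs.wordProd ω) i with h1 | h1
      · omega
      · exact h1
    rw [← h1, hω₀, hr.eq]; simp
  have hred : cs.IsReduced (ω₀.concat i) := by
    rw [CoxeterSystem.IsReduced, hprod, hlen]
  have hmem : cs.simple i ∈ cs.rightInvSeq (ω₀.concat i) := by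
    rw [rightInvSeq_concat]; simp
  have hcount : (cs.rightInvSeq (ω₀.concat i)).count (cs.simple i) = 1 :=
    List.count_eq_one_of_mem hred.nodup_rightInvSeq hmem
  -- compare the two words
  set Φ := cs.lift ⟨refPerm cs, refPerm_liftable cs⟩ with hΦ
  have hΦw : ∀ v : List B, Φ (cs.wordProd v) = (v.map (refPerm cs)).prod := by
    intro v
    induction v with
    | nil => simp
    | cons j v ih =>
      rw [wordProd_cons, map_mul, ih, List.map_cons, List.prod_cons, hΦ, lift_apply_simple]
  have e1 : Φ (cs.wordProd ω) (cs.simple i, 0) = Φ (cs.wordProd (ω₀.concat i)) (cs.simple i, 0) := by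
    rw [hprod]
  rw [hΦw, hΦw, prod_refPerm, prod_refPerm, hcount] at e1
  have e2 := congrArg Prod.snd e1
  simp only [zero_add, Nat.cast_one] at e2
  have hpos : 0 < (cs.rightInvSeq ω).count (cs.simple i) := by
    rcases Nat.eq_zero_or_pos ((cs.rightInvSeq ω).count (cs.simple i)) with h0 | h0
    · rw [h0] at e2; simp at e2
    · exact h0
  have hmem2 : cs.simple i ∈ cs.rightInvSeq ω := List.count_pos_iff.1 hpos
  obtain ⟨j, hj, hj2⟩ := List.mem_iff_getElem.1 hmem2
  rw [length_rightInvSeq] at hj
  refine ⟨j, hj, ?_⟩
  rw [← wordProd_mul_getD_rightInvSeq, List.getD_eq_getElem _ _ (by simpa using hj), hj2]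

/-- For every word `ω` for `w` and every simple left descent `i` of `w`, one can delete a letter
of `ω` and get a word for `s_i w`. -/
theorem exchange_left (ω : List B) (i : B) (h : cs.IsLeftDescent (cs.wordProd ω) i) :
    ∃ j < ω.length, cs.wordProd (ω.eraseIdx j) = cs.simple i * cs.wordProd ω := by
  have h1 : cs.length (cs.wordProd ω.reverse * cs.simple i) <
      cs.length (cs.wordProd ω.reverse) := by
    have h2 : cs.wordProd ω.reverse * cs.simple i = (cs.simple i * cs.wordProd ω)⁻¹ := by
      simp [wordProd_reverse]
    rw [h2, wordProd_reverse, length_inv, length_inv]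
    exact h
  obtain ⟨j, hj, hj2⟩ := exchange_right cs ω.reverse i h1
  rw [List.length_reverse] at hj
  refine ⟨ω.length - 1 - j, by omega, ?_⟩
  have h3 : (ω.reverse.eraseIdx j) = (ω.eraseIdx (ω.length - 1 - j)).reverse := by
    rw [List.eraseIdx_eq_take_drop_succ, List.eraseIdx_eq_take_drop_succ, List.reverse_append,
      List.take_reverse, List.drop_reverse]
    have e1 : ω.length - 1 - j + 1 = ω.length - j := by omega
    have e2 : ω.length - (j + 1) = ω.length - 1 - j := by omega
    rw [e1, e2]
  rw [h3, wordProd_reverse, wordProd_reverse] at hj2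
  have := congrArg (·⁻¹) hj2
  simpa using this

/-- Every word has a reduced subword for the same element. -/
theorem exists_reduced_sublist (ω : List B) :
    ∃ ω' : List B, ω'.Sublist ω ∧ cs.IsReduced ω' ∧ cs.wordProd ω' = cs.wordProd ω := by
  induction ω with
  | nil => exact ⟨[], List.Sublist.refl _, by simp [CoxeterSystem.IsReduced], rfl⟩
  | cons i ω ih =>
    obtain ⟨ω', hs, hr, hp⟩ := ih
    by_cases hd : cs.IsLeftDescent (cs.wordProd ω') i
    · obtain ⟨j, hj, hj2⟩ := exchange_left cs ω' i hd
      refine ⟨ω'.eraseIdx j, ?_, ?_, ?_⟩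
      · exact ((List.eraseIdx_sublist _ _).trans hs).trans (List.sublist_cons_self _ _)
      · rw [CoxeterSystem.IsReduced, hj2, List.length_eraseIdx_of_lt hj]
        have h1 := cs.isLeftDescent_iff.1 hd
        have h2 := hr.eq
        omega
      · rw [hj2, wordProd_cons, hp]
    · refine ⟨i :: ω', List.Sublist.cons_cons _ hs, ?_, ?_⟩
      · rw [CoxeterSystem.IsReduced, wordProd_cons, List.length_cons, cs.not_isLeftDescent_iff.1 hd, hr.eq]
      · rw [wordProd_cons, wordProd_cons, hp]

end Pool.Agent.SLE
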