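import Pool.Agent.SLE.F6Geo

/-!
# The family `(2, m, 4)`, `m ≥ 5`: words and normal forms
-/

namespace Pool.Agent.SLE

open Real

namespace F6

/-! ### repeated words -/

theorem pw_zero (w : List Letter) : pw w 0 = [] := rfl

theorem pw_succ (w : List Letter) (k : ℕ) : pw w (k + 1) = w ++ pw w k := by
  simp [pw, List.replicate_succ]

theorem pw_succ' (w : List Letter) (k : ℕ) : pw w (k + 1) = pw w k ++ w := by
  simp [pw, List.replicate_succ']

theorem length_pw (w : List Letter) (k : ℕ) : (pw w k).length = k * w.length := by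
  simp [pw]

theorem pw_add (w : List Letter) (j k : ℕ) : pw w (j + k) = pw w j ++ pw w k := by
  rw [pw, List.replicate_add, List.flatten_append]; rfl

theorem eval_pw {l m n : ℕ} (w : List Letter) (k : ℕ) :
    eval l m n (pw w k) = eval l m n w ^ k := by
  induction k with
  | zero => simp [pw_zero, eval_nil]
  | succ k ih => rw [pw_succ', eval_append, ih, pow_succ]

theorem eval_cons {l m n : ℕ} (y : Letter) (w : List Letter) :
    eval l m n (y :: w) = eval l m n [y] * eval l m n w := by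
  rw [← eval_append]; rfl

/-! ### lexicographic order -/

/-- `u = w` or `u` is before `w` in the lexicographic order. -/
def LeL (lt : Letter → Letter → Prop) (u w : List Letter) : Prop := u = w ∨ List.Lex lt u w

theorem LeL.cons_inv {lt : Letter → Letter → Prop} {x y : Letter} {u w : List Letter}
    (h : LeL lt (x :: u) (y :: w)) : lt x y ∨ (x = y ∧ LeL lt u w) := by
  rcases h with h | h
  · simp only [List.cons.injEq] at h
    exact Or.inr ⟨h.1, Or.inl h.2⟩
  · cases h with
    | rel h => exact Or.inl h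
    | cons h => exact Or.inr ⟨rfl, Or.inr h⟩

/-! ### paths in the automaton -/

/-- `Path m s w d s'`: the word `w` leads from `s` to `s'` with increment `d`. -/
inductive Path (m : ℕ) : St6 → List Letter → ℤ → St6 → Prop
  | nil (s : St6) : Path m s [] 0 s
  | cons {s s' s'' : St6} {y : Letter} {w : List Letter} {d : ℤ} (h : next6 m s y = some s')
      (h' : Path m s' w d s'') : Path m s (y :: w) (d6 m s y + d) s''

theorem Path.nil_inv {m : ℕ} {s s' : St6} {d : ℤ} (h : Path m s [] d s') : d = 0 ∧ s = s' := by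
  cases h; exact ⟨rfl, rfl⟩

theorem Path.cons_inv {m : ℕ} {s s'' : St6} {y : Letter} {w : List Letter} {d : ℤ}
    (h : Path m s (y :: w) d s'') : ∃ s' d', next6 m s y = some s' ∧ Path m s' w d' s'' ∧
      d = d6 m s y + d' := by
  cases h with
  | cons h h' => exact ⟨_, _, h, h', rfl⟩

theorem Path.append {m : ℕ} {s s' s'' : St6} {w w' : List Letter} {d d' : ℤ}
    (h : Path m s w d s') (h' : Path m s' w' d' s'') : Path m s (w ++ w') (d + d') s'' := by
  induction h with
  | nil s => simpa using h'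
  | cons h1 h2 ih =>
    rw [List.cons_append, add_assoc]
    exact Path.cons h1 (ih h')

theorem Path.split {m : ℕ} {w w' : List Letter} {s s'' : St6} {d : ℤ}
    (h : Path m s (w ++ w') d s'') : ∃ s' d1 d2, Path m s w d1 s' ∧ Path m s' w' d2 s'' ∧
      d = d1 + d2 := by
  induction w generalizing s d with
  | nil => exact ⟨s, 0, d, Path.nil s, h, by ring⟩
  | cons y w ih =>
    obtain ⟨s1, d', h1, h2, rfl⟩ := Path.cons_inv h
    obtain ⟨s', e1, e2, g1, g2, rfl⟩ := ih h2
    exact ⟨s', _, _, Path.cons h1 g1, g2, by ring⟩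

theorem ok_next {m : ℕ} (hm : 5 ≤ m) {s s' : St6} {y : Letter} (hs : s.ok m)
    (h : next6 m s y = some s') : s'.ok m := by
  obtain ⟨i, t⟩ := y
  rcases s with _ | _ | _ | _ | j | j | j | j <;> fin_cases i <;> cases t <;>
    simp only [next6, Option.some.injEq, reduceCtorEq, Fin.zero_eta, Fin.mk_one] at h <;>
    first
    | (subst h; exact True.intro)
    | (subst h; simp only [St6.ok] at hs ⊢; omega)
    | (simp only [St6.ok] at hs
       split_ifs at h <;>
         (simp only [Option.some.injEq] at h; subst h; simp only [St6.ok]; omega))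

/-- The states on the right. -/
def Rt : St6 → Prop
  | .rho _ => True
  | .s1 _ => True
  | .s2 _ => True
  | .s3 _ => True
  | _ => False

theorem rt_next {m : ℕ} {s s' : St6} {y : Letter} (hs : Rt s)
    (h : next6 m s y = some s') : Rt s' := by
  obtain ⟨i, t⟩ := y
  rcases s with _ | _ | _ | _ | j | j | j | j <;> fin_cases i <;> cases t <;>
    simp only [next6, Option.some.injEq, reduceCtorEq, Fin.zero_eta, Fin.mk_one, Rt] at h hs <;>
    first
    | (subst h; simp only [Rt])
    | (split_ifs at h <;> (simp only [Option.some.injEq] at h; subst h; simp only [Rt]))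

theorem Path.ok {m : ℕ} (hm : 5 ≤ m) {s s' : St6} {w : List Letter} {d : ℤ}
    (h : Path m s w d s') (hs : s.ok m) : s'.ok m := by
  induction h with
  | nil s => exact hs
  | cons h1 h2 ih => exact ih (ok_next hm hs h1)

theorem Path.rt {m : ℕ} {s s' : St6} {w : List Letter} {d : ℤ}
    (h : Path m s w d s') (hs : Rt s) : Rt s' := by
  induction h with
  | nil s => exact hs
  | cons h1 h2 ih => exact ih (rt_next hs h1)

/-- Position on the right cycle. -/
def tau (m : ℕ) : St6 → ℤ
  | .rho j => if j + 3 = m then 0 else 4 * j - 1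
  | .s1 j => 4 * j
  | .s2 j => 4 * j + 1
  | .s3 j => 4 * j + 2
  | _ => 0

theorem tau_next {m : ℕ} (hm : 5 ≤ m) {s s' : St6} {y : Letter} (hs : s.ok m) (hr : Rt s)
    (h : next6 m s y = some s') :
    (4 * m - 13) * d6 m s y + 2 * tau m s' ≤ 2 + 2 * tau m s := by
  obtain ⟨i, t⟩ := y
  rcases s with _ | _ | _ | _ | j | j | j | j <;> fin_cases i <;> cases t <;>
    simp only [next6, Option.some.injEq, reduceCtorEq, Fin.zero_eta, Fin.mk_one, Rt] at h hr
  · split_ifs at h with c1 c2
    · simp only [Option.some.injEq] at h; subst h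
      simp only [d6, tau]
      split_ifs <;> push_cast <;> omega
    · simp only [Option.some.injEq] at h; subst h
      simp only [d6, tau]
      split_ifs <;> push_cast <;> omega
    · simp only [Option.some.injEq] at h; subst h
      simp only [d6, tau]
      split_ifs <;> push_cast <;> omega
  · subst h; simp only [d6, tau]; push_cast; omega
  · subst h; simp only [d6, tau]; push_cast; omega
  · subst h
    change (4 * (m : ℤ) - 13) * (if j + 4 = m then 2 else 0) + 2 * tau m (St6.rho (j + 1)) ≤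
      2 + 2 * tau m (St6.s3 j)
    simp only [tau, St6.ok] at hs ⊢
    by_cases c : j + 4 = m
    · rw [if_pos c, if_pos (by omega)]; omega
    · rw [if_neg c, if_neg (by omega)]; push_cast; omega
  · subst h
    change (4 * (m : ℤ) - 13) * (if j + 4 = m then 2 else 0) + 2 * tau m (St6.rho (j + 1)) ≤
      2 + 2 * tau m (St6.s3 j)
    simp only [tau, St6.ok] at hs ⊢
    by_cases c : j + 4 = m
    · rw [if_pos c, if_pos (by omega)]; omega
    · rw [if_neg c, if_neg (by omega)]; push_cast; omega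
  · subst h; simp only [d6, tau, St6.ok] at hs ⊢
    rw [if_neg (by omega)]; omega

theorem tau_bd {m : ℕ} (hm : 5 ≤ m) {s : St6} (hs : s.ok m) :
    -1 ≤ tau m s ∧ tau m s ≤ 4 * m := by
  rcases s with _ | _ | _ | _ | j | j | j | j <;> simp only [tau, St6.ok] at hs ⊢
  all_goals (constructor <;> omega)

theorem Path.tau_le {m : ℕ} (hm : 5 ≤ m) {s s' : St6} {w : List Letter} {d : ℤ}
    (h : Path m s w d s') (hs : s.ok m) (hr : Rt s) :
    (4 * m - 13) * d + 2 * tau m s' ≤ 2 * w.length + 2 * tau m s := by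
  induction w generalizing s d with
  | nil =>
    obtain ⟨rfl, rfl⟩ := Path.nil_inv h
    simp
  | cons y w ih =>
    obtain ⟨s1, d', h1, h2, rfl⟩ := Path.cons_inv h
    have g1 := tau_next hm hs hr h1
    have g2 := ih h2 (ok_next hm hs h1) (rt_next hr h1)
    simp only [List.length_cons]
    push_cast
    linarith [mul_add ((4 : ℤ) * m - 13) (d6 m s y) d']

/-- No state on the right has the same future as `mu1`. -/
theorem Path.not_rt {m : ℕ} (hm : 5 ≤ m) {s s' : St6} {d : ℤ}
    (h : Path m s [Lb, La, Lb, Lb, La, Lb, Lb, La] d s') (hr : Rt s) : False := by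
  obtain ⟨t1, _, h1, h, _⟩ := Path.cons_inv h
  obtain ⟨t2, _, h2, h, _⟩ := Path.cons_inv h
  obtain ⟨t3, _, h3, h, _⟩ := Path.cons_inv h
  obtain ⟨t4, _, h4, h, _⟩ := Path.cons_inv h
  obtain ⟨t5, _, h5, h, _⟩ := Path.cons_inv h
  obtain ⟨t6, _, h6, h, _⟩ := Path.cons_inv h
  obtain ⟨t7, _, h7, h, _⟩ := Path.cons_inv h
  obtain ⟨t8, _, h8, _, _⟩ := Path.cons_inv h
  rcases s with _ | _ | _ | _ | j | j | j | j <;> simp only [Rt] at hr
  · simp only [next6] at h1
    split_ifs at h1 with c1 c2 <;> simp only [Option.some.injEq] at h1 <;> subst h1 <;>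
      simp only [next6, reduceCtorEq] at h2
  · simp only [next6, Option.some.injEq] at h1; subst h1
    simp only [next6, reduceCtorEq] at h2
  · simp only [next6, Option.some.injEq] at h1; subst h1
    simp only [next6, Option.some.injEq] at h2; subst h2
    simp only [next6, Nat.add_eq_zero_iff, one_ne_zero, and_false, if_false] at h3
    split_ifs at h3 with c3
    · simp only [Option.some.injEq] at h3; subst h3
      simp only [next6, Option.some.injEq] at h4; subst h4
      simp only [next6, Option.some.injEq] at h5; subst h5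
      simp only [next6, Nat.zero_add, one_ne_zero, if_false] at h6
      rw [if_neg (by omega)] at h6
      simp only [Option.some.injEq] at h6; subst h6
      simp only [next6, Option.some.injEq] at h7; subst h7
      simp only [next6, reduceCtorEq] at h8
    · simp only [Option.some.injEq] at h3; subst h3
      simp only [next6, Option.some.injEq] at h4; subst h4
      simp only [next6, reduceCtorEq] at h5
  · simp only [next6, Option.some.injEq] at h1; subst h1
    simp only [next6, reduceCtorEq] at h2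

/-! ### the geometric data -/

/-- The part of `exists_F6` about the automaton. -/
structure Geo {m : ℕ} (C : CircleAct 2 m 4) (e e₁ e₂ : ℝ → ℤ) (pt : St6 → ℝ) : Prop where
  he : C.IsPot e
  hb : ∀ x, |e x| ≤ 1
  he1 : C.IsPot e₁
  he2 : C.IsPot e₂
  tight : ∀ s : St6, s.ok m → ∀ y, C.inc e (pt s) y = 1 ↔ (next6 m s y).isSome = true
  step : ∀ s : St6, s.ok m → ∀ y s', next6 m s y = some s' →
        (∃ k : ℤ, C.step (pt s) y = pt s' + k * π) ∧
        C.inc e₁ (pt s) y - C.inc e₂ (pt s) y = d6 m s y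

theorem Geo.path_of_tight {m : ℕ} (hm : 5 ≤ m) {C : CircleAct 2 m 4} {e e₁ e₂ : ℝ → ℤ}
    {pt : St6 → ℝ} (G : Geo C e e₁ e₂ pt) {w : List Letter} {s : St6} (hs : s.ok m)
    (h : C.Tight e (pt s) w) : ∃ d s', Path m s w d s' := by
  induction w generalizing s with
  | nil => exact ⟨0, s, Path.nil s⟩
  | cons y w ih =>
    obtain ⟨h1, h2⟩ := h
    rw [G.tight s hs] at h1
    obtain ⟨s1, hs1⟩ := Option.isSome_iff_exists.1 h1
    obtain ⟨⟨k, hk⟩, _⟩ := G.step s hs y s1 hs1
    rw [hk, G.he.tight_add_int] at h2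
    obtain ⟨d, s', hp⟩ := ih (ok_next hm hs hs1) h2
    exact ⟨_, s', Path.cons hs1 hp⟩

theorem Geo.tight_of_path {m : ℕ} (hm : 5 ≤ m) {C : CircleAct 2 m 4} {e e₁ e₂ : ℝ → ℤ}
    {pt : St6 → ℝ} (G : Geo C e e₁ e₂ pt) {w : List Letter} {s s' : St6} {d : ℤ} (hs : s.ok m)
    (h : Path m s w d s') : C.Tight e (pt s) w ∧ C.pot e₁ (pt s) w - C.pot e₂ (pt s) w = d := by
  induction w generalizing s d with
  | nil =>
    obtain ⟨rfl, rfl⟩ := Path.nil_inv h
    exact ⟨True.intro, by simp [CircleAct.pot]⟩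
  | cons y w ih =>
    obtain ⟨s1, d', h1, h2, rfl⟩ := Path.cons_inv h
    obtain ⟨⟨k, hk⟩, hd⟩ := G.step s hs y s1 h1
    obtain ⟨g1, g2⟩ := ih (ok_next hm hs h1) h2
    refine ⟨⟨(G.tight s hs y).2 (by rw [h1]; rfl), ?_⟩, ?_⟩
    · rw [hk, G.he.tight_add_int]; exact g1
    · simp only [CircleAct.pot]
      rw [hk, G.he1.pot_add_int, G.he2.pot_add_int]
      linarith

/-! ### identities in the group -/

theorem grpz {G : Type*} [Group G] {x b : G} {m : ℕ} (h : (x * b) ^ m = b ^ 4) :
    Commute (b ^ 4) x ∧ Commute (b ^ 4) b ∧ Commute (b ^ 4) (x * b) := by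
  have h1 : Commute (b ^ 4) b := Commute.pow_self b 4
  have h2 : Commute (b ^ 4) (x * b) := by rw [← h]; exact Commute.pow_self _ m
  refine ⟨?_, h1, h2⟩
  have : x = x * b * b⁻¹ := by group
  rw [this]
  exact h2.mul_right h1.inv_right

theorem grpR {G : Type*} [Group G] {x b : G} {m : ℕ} (hm : 4 ≤ m) (hx : x * x = 1)
    (h : (x * b) ^ m = b ^ 4) :
    b * b * x * (b * b * b * x) ^ (m - 4) =
      (x * b)⁻¹ * (b * x * b) * (x * b) * (b ^ 4) ^ (m - 4) := by
  obtain ⟨zx, zb, zy⟩ := grpz h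
  have e1 : b * b * b * x = (x * b)⁻¹ * b ^ 4 := by
    rw [eq_inv_mul_iff_mul_eq]
    calc x * b * (b * b * b * x) = x * (b ^ 4 * x) := by simp only [pow_succ, pow_zero, one_mul, mul_assoc]
      _ = x * (x * b ^ 4) := by rw [zx.eq]
      _ = b ^ 4 := by rw [← mul_assoc, hx, one_mul]
  have e2 : (x * b) * (b * b * x) * (x * b) ^ 3 = (b * x * b) * b ^ 4 := by
    calc (x * b) * (b * b * x) * (x * b) ^ 3
        = x * b * b * b * (x * x) * b * (x * b) ^ 2 := by
          simp only [pow_succ, pow_zero, one_mul, mul_assoc]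
      _ = x * b ^ 4 * (x * b) ^ 2 := by
          rw [hx]; simp only [pow_succ, pow_zero, one_mul, mul_one, mul_assoc]
      _ = b ^ 4 * (x * x) * b * (x * b) := by
          rw [← zx.eq]; simp only [pow_succ, pow_zero, one_mul, mul_assoc]
      _ = b ^ 4 * (b * x * b) := by rw [hx, mul_one]; simp only [mul_assoc]
      _ = (b * x * b) * b ^ 4 := ((zb.mul_right zx).mul_right zb).eq
  have e3 : (x * b) * (b * b * x) = (b * x * b) * (x * b) * (x * b) ^ (m - 4) := by
    have : (x * b) ^ m = (x * b) * (x * b) ^ (m - 4) * (x * b) ^ 3 := by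
      rw [← pow_succ', ← pow_add]; congr 1; omega
    rw [← h, this] at e2
    have h3 := mul_right_cancel (b := (x * b) ^ 3)
      (a := (x * b) * (b * b * x)) (c := (b * x * b) * ((x * b) * (x * b) ^ (m - 4)))
      (by rw [e2]; simp only [mul_assoc])
    rw [h3]; simp only [mul_assoc]
  have e4 : ((x * b)⁻¹ * b ^ 4) ^ (m - 4) = ((x * b) ^ (m - 4))⁻¹ * (b ^ 4) ^ (m - 4) := by
    rw [(zy.inv_right.symm).mul_pow, inv_pow]
  rw [e1, e4]
  have e5 : b * b * x = (x * b)⁻¹ * ((b * x * b) * (x * b) * (x * b) ^ (m - 4)) := by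
    rw [← e3]; group
  rw [e5]
  simp only [mul_assoc, mul_inv_cancel_left]

theorem grpRK {G : Type*} [Group G] {x b : G} {m : ℕ} (hm : 4 ≤ m) (hx : x * x = 1)
    (h : (x * b) ^ m = b ^ 4) (K : ℕ) :
    (b * b * x * (b * b * b * x) ^ (m - 4)) ^ K =
      (x * b)⁻¹ * (b * x * b) ^ K * (x * b) * (b ^ 4) ^ ((m - 4) * K) := by
  obtain ⟨zx, zb, zy⟩ := grpz h
  rw [grpR hm hx h]
  have c1 : Commute ((x * b)⁻¹ * (b * x * b) * (x * b)) ((b ^ 4) ^ (m - 4)) := by
    have : Commute (b ^ 4) ((x * b)⁻¹ * (b * x * b) * (x * b)) :=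
      (zy.inv_right.mul_right ((zb.mul_right zx).mul_right zb)).mul_right zy
    exact (this.pow_left _).symm
  rw [c1.mul_pow, ← pow_mul]
  congr 1
  induction K with
  | zero => simp
  | succ K ih => rw [pow_succ, ih, pow_succ]; simp only [mul_assoc, mul_inv_cancel_left]

theorem grp1 {G : Type*} [Group G] {x b : G} {m : ℕ} (hm : 4 ≤ m) (hx : x * x = 1)
    (h : (x * b) ^ m = b ^ 4) (K : ℕ) :
    (b * b * x) ^ K * b * b ^ (4 * ((m - 4) * K)) * (x * b) =
      b * x * b * (b * b * x * (b * b * b * x) ^ (m - 4)) ^ K := by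
  obtain ⟨zx, zb, zy⟩ := grpz h
  rw [grpRK hm hx h, pow_mul]
  have e1 : (b * b * x) ^ K * b = b * (b * x * b) ^ K := by
    induction K with
    | zero => simp
    | succ K ih =>
      rw [pow_succ', mul_assoc, ih, pow_succ']
      simp only [mul_assoc]
  have e2 : (b ^ 4) ^ ((m - 4) * K) * (x * b) = (x * b) * (b ^ 4) ^ ((m - 4) * K) :=
    (zy.pow_left _).eq
  rw [e1, mul_assoc, e2]
  simp only [mul_assoc]
  congr 1
  rw [← mul_assoc x b, ← mul_assoc x b, mul_inv_cancel_left]

theorem grp2 {G : Type*} [Group G] {x b : G} {m : ℕ} (hm : 4 ≤ m) (hx : x * x = 1)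
    (h : (x * b) ^ m = b ^ 4) (K j : ℕ) (hj : j + 1 = (m - 4) * (K + 1)) :
    b ^ (4 * j) * (b * b * b * x * b) * (x * b * b) ^ K * (x * b) * (x * b) =
      (b * b * x * (b * b * b * x) ^ (m - 4)) ^ (K + 1) := by
  obtain ⟨zx, zb, zy⟩ := grpz h
  rw [grpRK hm hx h, pow_mul, ← hj]
  have e1 : (b * x * b) ^ (K + 1) = b * (x * b * b) ^ K * (x * b) := by
    clear hj
    induction K with
    | zero => simp only [pow_succ, pow_zero, one_mul, mul_assoc, mul_one]
    | succ K ih =>
      rw [pow_succ', ih, pow_succ' (x * b * b)]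
      simp only [mul_assoc]
  have e2 : (x * b)⁻¹ * (b ^ 4 * b) = b * b * b * x * b := by
    rw [inv_mul_eq_iff_eq_mul]
    calc b ^ 4 * b = (x * x) * b ^ 4 * b := by rw [hx, one_mul]
      _ = x * (x * b ^ 4) * b := by simp only [mul_assoc]
      _ = x * (b ^ 4 * x) * b := by rw [zx.eq]
      _ = x * b * (b * b * b * x * b) := by simp only [pow_succ, pow_zero, one_mul, mul_assoc]
  have e3 : Commute (b ^ 4) ((x * b)⁻¹ * (b * (x * b * b) ^ K * (x * b)) * (x * b)) := by
    refine (zy.inv_right.mul_right ((zb.mul_right ?_).mul_right zy)).mul_right zy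
    exact (zy.mul_right zb).pow_right K
  have e4 : Commute (b ^ 4) ((x * b)⁻¹) := zy.inv_right
  rw [e1, ← (e3.pow_left (j + 1)).eq, ← e2, pow_succ (b ^ 4) j]
  generalize (b ^ 4) = z at *
  have e5 : z * ((x * b)⁻¹ * (b * (x * b * b) ^ K * (x * b)) * (x * b)) =
      (x * b)⁻¹ * (z * b) * (x * b * b) ^ K * (x * b) * (x * b) := by
    simp only [← mul_assoc]
    rw [e4.eq]
  rw [mul_assoc (z ^ j) z, e5]
  simp only [mul_assoc]

theorem exists_gens {m : ℕ} (t : Bool) : ∃ x b : E 2 m 4, x * x = 1 ∧ (x * b) ^ m = b ^ 4 ∧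
    eval 2 m 4 [(0, t)] = x ∧ eval 2 m 4 [Lb] = b := by
  have h1 : genA 2 m 4 ^ 2 = 1 := PresentedGroup.one_of_mem (rels := rels 2 m 4)
    (x := FreeGroup.of 0 ^ 2) (by simp [rels])
  have h2 : (genA 2 m 4 * genB 2 m 4) ^ m * (genB 2 m 4 ^ 4)⁻¹ = 1 :=
    PresentedGroup.one_of_mem (rels := rels 2 m 4)
      (x := (FreeGroup.of 0 * FreeGroup.of 1) ^ m * (FreeGroup.of 1 ^ 4)⁻¹) (by simp [rels])
  have h2' : (genA 2 m 4 * genB 2 m 4) ^ m = genB 2 m 4 ^ 4 := by
    rw [mul_inv_eq_one] at h2; exact h2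
  rw [pow_two] at h1
  have hb : eval 2 m 4 [Lb] = genB 2 m 4 := rfl
  cases t with
  | true => exact ⟨genA 2 m 4, genB 2 m 4, h1, h2', rfl, hb⟩
  | false =>
    have h3 : (genA 2 m 4)⁻¹ = genA 2 m 4 := inv_eq_of_mul_eq_one_left h1
    refine ⟨genA 2 m 4, genB 2 m 4, h1, h2', ?_, hb⟩
    rw [← h3]
    rfl

/-- the right period -/
def RR (m : ℕ) (t : Bool) : List Letter := [Lb, Lb, (0, t)] ++ pw [Lb, Lb, Lb, (0, t)] (m - 4)

theorem eval_RR {m : ℕ} (t : Bool) {x b : E 2 m 4} (hx : eval 2 m 4 [(0, t)] = x)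
    (hb : eval 2 m 4 [Lb] = b) : eval 2 m 4 (RR m t) = b * b * x * (b * b * b * x) ^ (m - 4) := by
  rw [RR, eval_append, eval_pw, eval_cons Lb [Lb, Lb, (0, t)], eval_cons Lb [Lb, (0, t)],
    eval_cons Lb [(0, t)], hx, hb]
  simp only [mul_assoc]

theorem eval_words1 {m : ℕ} (hm : 4 ≤ m) (t : Bool) (K : ℕ) :
    eval 2 m 4 ((pw [Lb, Lb, (0, t)] K ++ [Lb] ++ pw [Lb] (4 * ((m - 4) * K))) ++ [(0, t), Lb]) =
      eval 2 m 4 ([Lb, (0, t), Lb] ++ pw (RR m t) K) := by
  obtain ⟨x, b, h1, h2, hx, hb⟩ := exists_gens (m := m) t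
  have := grp1 hm h1 h2 K
  rw [eval_append, eval_append, eval_append, eval_append, eval_pw, eval_pw, eval_pw,
    eval_RR t hx hb, eval_cons Lb [Lb, (0, t)], eval_cons Lb [(0, t)], eval_cons (0, t) [Lb],
    eval_cons Lb [(0, t), Lb], eval_cons (0, t) [Lb], hx, hb]
  simp only [← mul_assoc] at this ⊢
  exact this

theorem eval_words2 {m : ℕ} (hm : 4 ≤ m) (t : Bool) (K j : ℕ) (hj : j + 1 = (m - 4) * (K + 1)) :
    eval 2 m 4 ((pw [Lb] (4 * j) ++ [Lb, Lb, Lb, (0, t), Lb] ++ pw [(0, t), Lb, Lb] K ++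
      [(0, t), Lb]) ++ [(0, t), Lb]) = eval 2 m 4 (pw (RR m t) (K + 1)) := by
  obtain ⟨x, b, h1, h2, hx, hb⟩ := exists_gens (m := m) t
  have := grp2 hm h1 h2 K j hj
  rw [eval_append, eval_append, eval_append, eval_append, eval_pw, eval_pw, eval_pw,
    eval_RR t hx hb, eval_cons Lb [Lb, Lb, (0, t), Lb], eval_cons Lb [Lb, (0, t), Lb],
    eval_cons Lb [(0, t), Lb], eval_cons (0, t) [Lb], eval_cons (0, t) [Lb, Lb],
    eval_cons Lb [Lb], hx, hb]
  simp only [← mul_assoc] at this ⊢
  exact this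

/-! ### paths of the words -/

theorem path_block {m : ℕ} (t : Bool) {j : ℕ} (h1 : 1 ≤ j) (h2 : j + 4 ≤ m) :
    Path m (.rho j) [Lb, Lb, Lb, (0, t)] (if j + 4 = m then 2 else 0) (.rho (j + 1)) := by
  have e1 : next6 m (.rho j) Lb = some (.s1 j) := by
    simp only [next6]
    rw [if_neg (by omega), if_neg (by omega)]
  have := Path.cons e1 (Path.cons (m := m) (s := .s1 j) (y := Lb) rfl
    (Path.cons (m := m) (s := .s2 j) (y := Lb) rfl
      (Path.cons (m := m) (s := .s3 j) (y := (0, t)) rfl (Path.nil _))))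
  simp only [d6, zero_add, add_zero] at this
  exact this

theorem path_first {m : ℕ} (hm : 5 ≤ m) (t : Bool) :
    Path m (.rho (m - 3)) [Lb, Lb, (0, t)] 0 (.rho 1) := by
  have e1 : next6 m (.rho (m - 3)) Lb = some (.s2 0) := by
    simp only [next6]
    rw [if_neg (by omega), if_pos (by omega)]
  have := Path.cons e1 (Path.cons (m := m) (s := .s2 0) (y := Lb) rfl
      (Path.cons (m := m) (s := .s3 0) (y := (0, t)) rfl (Path.nil _)))
  simp only [d6, zero_add, add_zero] at this
  rw [if_neg (by omega)] at this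
  exact this

theorem path_blocks {m : ℕ} (hm : 5 ≤ m) (t : Bool) (i : ℕ) (hi : i ≤ m - 4) :
    Path m (.rho 1) (pw [Lb, Lb, Lb, (0, t)] i) (if i + 4 = m then 2 else 0) (.rho (i + 1)) := by
  induction i with
  | zero => rw [if_neg (by omega)]; exact Path.nil _
  | succ i ih =>
    have h1 := ih (by omega)
    rw [if_neg (by omega)] at h1
    have h2 := path_block t (m := m) (j := i + 1) (by omega) (by omega)
    rw [pw_succ']
    have := h1.append h2
    rw [zero_add] at this
    exact this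

theorem path_RR {m : ℕ} (hm : 5 ≤ m) (t : Bool) :
    Path m (.rho (m - 3)) (RR m t) 2 (.rho (m - 3)) := by
  have h1 := path_blocks hm t (m - 4) le_rfl
  rw [if_pos (by omega), show m - 4 + 1 = m - 3 by omega] at h1
  have := (path_first hm t).append h1
  rw [zero_add] at this
  exact this

theorem path_RRs {m : ℕ} (hm : 5 ≤ m) (t : Bool) (K : ℕ) :
    Path m (.rho (m - 3)) (pw (RR m t) K) (2 * K) (.rho (m - 3)) := by
  induction K with
  | zero =>
    rw [pw_zero, Nat.cast_zero, mul_zero]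
    exact Path.nil (m := m) (.rho (m - 3))
  | succ K ih =>
    rw [pw_succ']
    have := ih.append (path_RR hm t)
    push_cast
    rw [mul_add, mul_one]
    exact this

theorem path_lefts {m : ℕ} (t : Bool) (K : ℕ) :
    Path m .eta (pw [Lb, Lb, (0, t)] K) (2 * K) .eta := by
  induction K with
  | zero =>
    rw [pw_zero, Nat.cast_zero, mul_zero]
    exact Path.nil (m := m) .eta
  | succ K ih =>
    rw [pw_succ']
    have h1 := Path.cons (m := m) (s := .eta) (y := Lb) rfl
      (Path.cons (m := m) (s := .mu1) (y := Lb) rfl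
        (Path.cons (m := m) (s := .xi) (y := (0, t)) rfl (Path.nil _)))
    simp only [d6, zero_add, add_zero] at h1
    have := ih.append h1
    push_cast
    rw [mul_add, mul_one]
    exact this

theorem path_loops {m : ℕ} (n : ℕ) : Path m .mu1 (pw [Lb] (4 * n)) 0 .mu1 := by
  induction n with
  | zero => exact Path.nil _
  | succ n ih =>
    have e : pw [Lb] (4 * (n + 1)) = [Lb, Lb, Lb, Lb] ++ pw [Lb] (4 * n) := by
      rw [show 4 * (n + 1) = 4 * n + 1 + 1 + 1 + 1 by ring, pw_succ, pw_succ, pw_succ, pw_succ]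
      rfl
    rw [e]
    have h1 := Path.cons (m := m) (s := .mu1) (y := Lb) rfl
      (Path.cons (m := m) (s := .xi) (y := Lb) rfl
        (Path.cons (m := m) (s := .mu3) (y := Lb) rfl
          (Path.cons (m := m) (s := .eta) (y := Lb) rfl (Path.nil _))))
    simp only [d6, zero_add, add_zero] at h1
    have := h1.append ih
    rw [zero_add] at this
    exact this

/-! ### translation by multiples of `π` -/

theorem iso_add_int (F : ℝ ≃o ℝ) (h : ∀ x, F (x + π) = F x + π) (k : ℤ) (x : ℝ) :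
    F (x + k * π) = F x + k * π := by
  induction k using Int.induction_on with
  | zero => simp
  | succ i ih =>
    have : x + ((i : ℤ) + 1 : ℤ) * π = (x + ((i : ℤ) : ℝ) * π) + π := by push_cast; ring
    rw [this, h, ih]; push_cast; ring
  | pred i ih =>
    have e : x + ((-(i : ℤ) : ℤ) : ℝ) * π = (x + ((-(i : ℤ) - 1 : ℤ) : ℝ) * π) + π := by
      push_cast; ring
    rw [e, h] at ih
    have : F (x + ((-(i : ℤ) - 1 : ℤ) : ℝ) * π) = F x + ((-(i : ℤ) : ℤ) : ℝ) * π - π := by
      linarith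
    rw [this]; push_cast; ring

theorem iso_symm_add_int (F : ℝ ≃o ℝ) (h : ∀ x, F (x + π) = F x + π) (k : ℤ) (x : ℝ) :
    F.symm (x + k * π) = F.symm x + k * π := by
  apply F.injective
  rw [iso_add_int F h, F.apply_symm_apply, F.apply_symm_apply]

theorem step_add_int' {l m n : ℕ} (C : CircleAct l m n) (x : ℝ) (k : ℤ) (y : Letter) :
    C.step (x + k * π) y = C.step x y + k * π := by
  obtain ⟨i, t⟩ := y
  fin_cases i <;> cases t
  · exact iso_add_int C.f C.f_add k x
  · exact iso_symm_add_int C.f C.f_add k x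
  · exact iso_add_int C.g C.g_add k x
  · exact iso_symm_add_int C.g C.g_add k x

theorem run_cons' {l m n : ℕ} (C : CircleAct l m n) (x : ℝ) (y : Letter) (w : List Letter) :
    C.run x (y :: w) = C.run (C.step x y) w := rfl

theorem run_add_int' {l m n : ℕ} (C : CircleAct l m n) (x : ℝ) (k : ℤ) (w : List Letter) :
    C.run (x + k * π) w = C.run x w + k * π := by
  induction w generalizing x with
  | nil => rfl
  | cons y w ih => rw [run_cons', run_cons', step_add_int', ih]

theorem Geo.run_of_path {m : ℕ} (hm : 5 ≤ m) {C : CircleAct 2 m 4} {e e₁ e₂ : ℝ → ℤ}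
    {pt : St6 → ℝ} (G : Geo C e e₁ e₂ pt) {w : List Letter} {s s' : St6} {d : ℤ} (hs : s.ok m)
    (h : Path m s w d s') : ∃ k : ℤ, C.run (pt s) w = pt s' + k * π := by
  induction w generalizing s d with
  | nil =>
    obtain ⟨rfl, rfl⟩ := Path.nil_inv h
    exact ⟨0, by simp [CircleAct.run]⟩
  | cons y w ih =>
    obtain ⟨s1, d', h1, h2, rfl⟩ := Path.cons_inv h
    obtain ⟨⟨k, hk⟩, hd⟩ := G.step s hs y s1 h1
    obtain ⟨k', hk'⟩ := ih (ok_next hm hs h1) h2
    refine ⟨k' + k, ?_⟩
    rw [run_cons', hk, run_add_int', hk']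
    push_cast
    ring

/-! ### case 1 -/

theorem eta_inv {m : ℕ} {y : Letter} {s' : St6} (h : next6 m .eta y = some s') :
    y = Lb ∧ s' = .mu1 := by
  obtain ⟨i, t⟩ := y
  fin_cases i <;> cases t <;> simp only [next6, Option.some.injEq, reduceCtorEq, Fin.zero_eta,
    Fin.mk_one] at h
  exact ⟨rfl, h.symm⟩

theorem mu1_inv {m : ℕ} {y : Letter} {s' : St6} (h : next6 m .mu1 y = some s') :
    (y = Lb ∧ s' = .xi) ∨ ((∃ t, y = (0, t)) ∧ s' = .rho 0) := by
  obtain ⟨i, t⟩ := y
  fin_cases i <;> cases t <;> simp only [next6, Option.some.injEq, reduceCtorEq, Fin.zero_eta,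
    Fin.mk_one] at h
  · exact Or.inr ⟨⟨false, rfl⟩, h.symm⟩
  · exact Or.inr ⟨⟨true, rfl⟩, h.symm⟩
  · exact Or.inl ⟨rfl, h.symm⟩

theorem xi_inv {m : ℕ} {y : Letter} {s' : St6} (h : next6 m .xi y = some s') :
    (y = Lb ∧ s' = .mu3) ∨ ((∃ t, y = (0, t)) ∧ s' = .eta) := by
  obtain ⟨i, t⟩ := y
  fin_cases i <;> cases t <;> simp only [next6, Option.some.injEq, reduceCtorEq, Fin.zero_eta,
    Fin.mk_one] at h
  · exact Or.inr ⟨⟨false, rfl⟩, h.symm⟩
  · exact Or.inr ⟨⟨true, rfl⟩, h.symm⟩
  · exact Or.inl ⟨rfl, h.symm⟩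

theorem take_left {m : ℕ} {lt : Letter → Letter → Prop} [IsStrictTotalOrder Letter lt] {t : Bool}
    (h1 : lt (0, t) Lb) (h2 : ∀ t', ¬ lt (0, t') (0, t)) (K : ℕ) {u r : List Letter} {d : ℤ}
    {s' : St6} (hp : Path m .eta u d s') (hs' : ¬ Rt s') (hu : LeL lt u (pw [Lb, Lb, (0, t)] K ++ r))
    (hl : 3 * K ≤ u.length) : u.take (3 * K) = pw [Lb, Lb, (0, t)] K := by
  induction K generalizing u d with
  | zero => simp [pw_zero]
  | succ K ih =>
    match u, hl with
    | x0 :: x1 :: x2 :: u', hl =>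
      obtain ⟨t1, _, n1, hp1, _⟩ := Path.cons_inv hp
      obtain ⟨t2, _, n2, hp2, _⟩ := Path.cons_inv hp1
      obtain ⟨t3, _, n3, hp3, _⟩ := Path.cons_inv hp2
      obtain ⟨rfl, rfl⟩ := eta_inv n1
      have c2 : x1 = Lb ∧ t2 = .xi := by
        rcases mu1_inv n2 with c | ⟨_, rfl⟩
        · exact c
        · exact absurd (Path.rt hp2 True.intro) hs'
      obtain ⟨rfl, rfl⟩ := c2
      rw [pw_succ, List.append_assoc] at hu
      have hu1 := LeL.cons_inv hu
      rcases hu1 with hu1 | ⟨_, hu1⟩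
      · exact absurd hu1 (irrefl_of lt _)
      rcases LeL.cons_inv hu1 with hu2 | ⟨_, hu2⟩
      · exact absurd hu2 (irrefl_of lt _)
      have hu3 := LeL.cons_inv hu2
      have hx2 : x2 = (0, t) := by
        rcases hu3 with hu3 | ⟨c, _⟩
        · exfalso
          rcases xi_inv n3 with ⟨rfl, _⟩ | ⟨⟨t', rfl⟩, _⟩
          · exact irrefl_of lt _ (trans_of lt h1 hu3)
          · exact h2 t' hu3
        · exact c
      subst hx2
      have hu4 : LeL lt u' (pw [Lb, Lb, (0, t)] K ++ r) := by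
        rcases hu3 with hu3 | ⟨_, hu3⟩
        · exact absurd hu3 (irrefl_of lt _)
        · exact hu3
      have ht3 : t3 = .eta := by
        rcases xi_inv n3 with ⟨c, _⟩ | ⟨_, c⟩
        · exact absurd c (by simp)
        · exact c
      subst ht3
      have := ih hp3 hu4 (by simp only [List.length_cons] at hl; omega)
      rw [show 3 * (K + 1) = 3 * K + 1 + 1 + 1 by ring, pw_succ]
      simp only [List.take_succ_cons, this]
      rfl
    | [], hl => simp at hl
    | [_], hl => simp at hl; omega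
    | [_, _], hl => simp at hl; omega

theorem case1 {m : ℕ} (hm : 5 ≤ m) (C : CircleAct 2 m 4) (lt : Letter → Letter → Prop)
    [IsStrictTotalOrder Letter lt] {t : Bool} (h1 : lt (0, t) Lb) (h2 : ∀ t', ¬ lt (0, t') (0, t)) :
    ¬ FiniteDiff 2 m 4 lt := by
  obtain ⟨e, e₁, e₂, pt, he, hb, he1, hb1, he2, hb2, htight, hstep, -⟩ := exists_F6 hm C
  have G : Geo C e e₁ e₂ pt := ⟨he, hb, he1, he2, htight, hstep⟩
  refine CircleAct.not_finiteDiff_of_pot lt he2 he1 1 hb2 hb1 (pt .eta) 2 (fun N => ?_)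
  set K := N.toNat + 1 with hK
  have hNK : N < K := by have := Int.self_le_toNat N; omega
  refine ⟨pw [Lb, Lb, (0, t)] K ++ [Lb] ++ pw [Lb] (4 * ((m - 4) * K)),
    [Lb, (0, t), Lb] ++ pw (RR m t) K, [(0, t), Lb], 3 * K, le_rfl,
    eval_words1 (by omega) t K, fun u v hu hue hv hve => ?_⟩
  have okeq : ∀ s : St6, s = .eta ∨ s = .mu1 → s.ok m := by
    rintro s (rfl | rfl) <;> exact True.intro
  have ok0 : St6.ok m .eta := True.intro
  -- the paths of the two words
  have p2 : Path m .eta ([Lb, (0, t), Lb] ++ pw (RR m t) K) (0 + 2 * K) (.rho (m - 3)) := by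
    have e1 : next6 m (.rho 0) Lb = some (.rho (m - 3)) := by
      simp only [next6]; rw [if_pos trivial]
    have := Path.cons (m := m) (s := .eta) (y := Lb) rfl
      (Path.cons (m := m) (s := .mu1) (y := (0, t)) rfl (Path.cons e1 (Path.nil _)))
    simp only [d6, add_zero] at this
    exact this.append (path_RRs hm t K)
  have p1 : Path m .eta (pw [Lb, Lb, (0, t)] K ++ [Lb] ++ pw [Lb] (4 * ((m - 4) * K)))
      (2 * K) .mu1 := by
    have := ((path_lefts (m := m) t K).append (Path.cons (m := m) (s := .eta) (y := Lb) rfl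
      (Path.nil _))).append (path_loops ((m - 4) * K))
    simp only [d6, add_zero] at this
    exact this
  have T2 := (G.tight_of_path hm ok0 p2).1
  have T1 := (G.tight_of_path hm ok0 p1).1
  -- the normal form `v` of the second word
  obtain ⟨Tv, lv⟩ := he.tight_of_eval hb T2 hve (length_le_of_normalForm hv hve)
  obtain ⟨dv, sv, pv⟩ := G.path_of_tight hm ok0 Tv
  have lexv := lex_of_normalForm hv hve lv.symm
  -- the normal form `u` of the first word
  obtain ⟨Tu, lu⟩ := he.tight_of_eval hb T1 hue (length_le_of_normalForm hu hue)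
  obtain ⟨du, su, pu⟩ := G.path_of_tight hm ok0 Tu
  have lexu := lex_of_normalForm hu hue lu.symm
  have hsu : ¬ Rt su := by
    intro hr
    obtain ⟨k1, hk1⟩ := G.run_of_path hm ok0 pu
    obtain ⟨k2, hk2⟩ := G.run_of_path hm ok0 p1
    obtain ⟨k3, hk3⟩ := CircleAct.run_eq_of_eval hue (C := C) (pt .eta)
    have e1 : pt su = pt .mu1 + ((k2 - k1 - k3 : ℤ) : ℝ) * π := by
      rw [hk1, hk2] at hk3
      push_cast
      linarith
    have Tm : C.Tight e (pt .mu1) [Lb, La, Lb, Lb, La, Lb, Lb, La] := by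
      have := Path.cons (m := m) (s := .mu1) (y := Lb) rfl
        (Path.cons (m := m) (s := .xi) (y := La) rfl
        (Path.cons (m := m) (s := .eta) (y := Lb) rfl
        (Path.cons (m := m) (s := .mu1) (y := Lb) rfl
        (Path.cons (m := m) (s := .xi) (y := La) rfl
        (Path.cons (m := m) (s := .eta) (y := Lb) rfl
        (Path.cons (m := m) (s := .mu1) (y := Lb) rfl
        (Path.cons (m := m) (s := .xi) (y := La) rfl (Path.nil _))))))))
      exact (G.tight_of_path hm (okeq _ (Or.inr rfl)) this).1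
    rw [← he.tight_add_int (k2 - k1 - k3), ← e1] at Tm
    obtain ⟨d, s'', hp⟩ := G.path_of_tight hm (pu.ok hm ok0) Tm
    exact hp.not_rt hm hr
  -- the prefix of `u`
  have hlen : 3 * K ≤ u.length := by
    rw [lu]
    simp only [List.length_append, length_pw, List.length_cons, List.length_nil]
    omega
  have tu : u.take (3 * K) = pw [Lb, Lb, (0, t)] K := by
    refine take_left h1 h2 K (r := [Lb] ++ pw [Lb] (4 * ((m - 4) * K))) pu hsu ?_ hlen
    rw [← List.append_assoc]
    exact lexu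
  have Du : C.pot e₁ (pt .eta) (u.take (3 * K)) - C.pot e₂ (pt .eta) (u.take (3 * K)) = 2 * K := by
    rw [tu]
    exact (G.tight_of_path hm ok0 (path_lefts (m := m) t K)).2
  -- the prefix of `v`
  have Dv : C.pot e₁ (pt .eta) (v.take (3 * K)) - C.pot e₂ (pt .eta) (v.take (3 * K)) ≤ K := by
    match v, pv, lexv with
    | [], pv, lexv => simp [CircleAct.pot]
    | [x0], pv, lexv =>
      rcases lexv with h | h
      · simp at h
      · obtain ⟨t1, _, n1, hp1, _⟩ := Path.cons_inv pv
        obtain ⟨rfl, rfl⟩ := eta_inv n1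
        rw [show 3 * K = (3 * K - 1) + 1 by omega]
        simp [CircleAct.pot, CircleAct.inc]
    | x0 :: x1 :: v', pv, lexv =>
      obtain ⟨t1, _, n1, hp1, _⟩ := Path.cons_inv pv
      obtain ⟨t2, _, n2, hp2, _⟩ := Path.cons_inv hp1
      obtain ⟨rfl, rfl⟩ := eta_inv n1
      have lv1 : LeL lt (Lb :: x1 :: v') (Lb :: (0, t) :: Lb :: pw (RR m t) K) := lexv
      have c : (∃ t', x1 = (0, t')) ∧ t2 = .rho 0 := by
        rcases mu1_inv n2 with ⟨rfl, _⟩ | c
        · exfalso
          rcases LeL.cons_inv lv1 with h | ⟨_, h⟩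
          · exact irrefl_of lt _ h
          rcases LeL.cons_inv h with h | ⟨h, _⟩
          · exact irrefl_of lt _ (trans_of lt h1 h)
          · simp at h
        · exact c
      obtain ⟨⟨t', rfl⟩, rfl⟩ := c
      have e3 : (Lb :: (0, t') :: v').take (3 * K) = Lb :: (0, t') :: v'.take (3 * K - 2) := by
        rw [show 3 * K = (3 * K - 2) + 1 + 1 by omega]
        simp only [List.take_succ_cons]
        rfl
      rw [e3]
      have hp3 := hp2
      rw [← List.take_append_drop (3 * K - 2) v'] at hp3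
      obtain ⟨s1, d1, d2, g1, _, _⟩ := hp3.split
      have ok1 : St6.ok m (.rho 0) := by simp only [St6.ok]; omega
      have g2 := g1.tau_le hm ok1 True.intro
      have g3 := (tau_bd hm (g1.ok hm ok1)).1
      have g4 : Path m .eta (Lb :: (0, t') :: v'.take (3 * K - 2)) d1 s1 := by
        have := Path.cons (m := m) (s := .eta) (y := Lb) rfl
          (Path.cons (m := m) (s := .mu1) (y := (0, t')) rfl g1)
        simp only [d6, zero_add] at this
        exact this
      rw [(G.tight_of_path hm ok0 g4).2]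
      have g5 : (v'.take (3 * K - 2)).length ≤ 3 * K - 2 := List.length_take_le _ _
      have g6 : tau m (.rho 0) = -1 := by
        simp only [tau]
        rw [if_neg (by omega)]; simp
      rw [g6] at g2
      have hm' : (5 : ℤ) ≤ m := by exact_mod_cast hm
      have g7 : ((v'.take (3 * K - 2)).length : ℤ) ≤ 3 * K - 2 := by omega
      by_contra hcon
      push Not at hcon
      have g8 : (7 : ℤ) * d1 ≤ (4 * m - 13) * d1 := by
        apply mul_le_mul_of_nonneg_right (by linarith) (by omega)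
      nlinarith
  have : (2 : ℤ) * K - K = K := by ring
  linarith

/-! ### case 2 -/

theorem take_b {lt : Letter → Letter → Prop} [IsStrictTotalOrder Letter lt]
    (h : ∀ y, y ≠ Lb → lt Lb y) (n : ℕ) {u r : List Letter} (hu : LeL lt u (pw [Lb] n ++ r))
    (hl : n ≤ u.length) : u.take n = pw [Lb] n := by
  induction n generalizing u with
  | zero => simp [pw_zero]
  | succ n ih =>
    match u, hl with
    | [], hl => simp at hl
    | x :: u', hl =>
      rw [pw_succ, List.append_assoc] at hu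
      have hu1 : LeL lt (x :: u') (Lb :: (pw [Lb] n ++ r)) := hu
      have hx : x = Lb := by
        rcases LeL.cons_inv hu1 with c | ⟨c, _⟩
        · by_contra hne
          exact irrefl_of lt _ (trans_of lt c (h x hne))
        · exact c
      subst hx
      rcases LeL.cons_inv hu1 with c | ⟨_, c⟩
      · exact absurd c (irrefl_of lt _)
      rw [pw_succ, List.take_succ_cons, ih c (by simpa using hl)]
      rfl

theorem pot_pw_b {l m n : ℕ} (C : CircleAct l m n) (e : ℝ → ℤ) (x : ℝ) (k : ℕ) :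
    C.pot e x (pw [Lb] k) = k := by
  induction k generalizing x with
  | zero => rfl
  | succ k ih =>
    rw [pw_succ]
    change 1 + C.pot e _ (pw [Lb] k) = _
    rw [ih]; push_cast; ring

theorem case2 {m : ℕ} (hm : 5 ≤ m) (C : CircleAct 2 m 4) (lt : Letter → Letter → Prop)
    [IsStrictTotalOrder Letter lt] (h : ∀ y, y ≠ Lb → lt Lb y) : ¬ FiniteDiff 2 m 4 lt := by
  obtain ⟨e, e₁, e₂, pt, he, hb, he1, hb1, he2, hb2, htight, hstep, e', he', hb', hT'⟩ :=
    exists_F6 hm C
  have G : Geo C e e₁ e₂ pt := ⟨he, hb, he1, he2, htight, hstep⟩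
  refine CircleAct.not_finiteDiff_of_pot lt he1 he2 1 hb1 hb2 (pt (.rho (m - 3))) 2 (fun N => ?_)
  obtain ⟨j, hj⟩ : ∃ j, j + 1 = (m - 4) * (N.toNat + 9 + 1) := by
    refine ⟨(m - 4) * (N.toNat + 9 + 1) - 1, ?_⟩
    have : 1 ≤ (m - 4) * (N.toNat + 9 + 1) := Nat.mul_pos (by omega) (by omega)
    omega
  set K := N.toNat + 9 with hK
  have hNK : N + 9 ≤ K := by have := Int.self_le_toNat N; omega
  refine ⟨pw [Lb] (4 * j) ++ [Lb, Lb, Lb, La, Lb] ++ pw [La, Lb, Lb] K ++ [La, Lb],
    pw (RR m true) (K + 1), [La, Lb], 4 * j, le_rfl, eval_words2 (by omega) true K j hj,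
    fun u v hu hue hv hve => ?_⟩
  have ok0 : St6.ok m (.rho (m - 3)) := by simp only [St6.ok]; omega
  have p2 := path_RRs hm true (K + 1)
  have T2 := (G.tight_of_path hm ok0 p2).1
  have T1 : C.Tight e' (pt (.rho (m - 3)))
      (pw [Lb] (4 * j) ++ [Lb, Lb, Lb, La, Lb] ++ pw [La, Lb, Lb] K ++ [La, Lb]) := by
    have := hT' j (K + 1)
    rw [pw_succ', show ([La, Lb, Lb] : List Letter) = [La, Lb] ++ [Lb] from rfl,
      ← List.append_assoc (pw _ K), ← List.append_assoc, CircleAct.Tight.append_iff,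
      ← List.append_assoc] at this
    exact this.1
  -- the normal form `v` of the second word
  obtain ⟨Tv, lv⟩ := he.tight_of_eval hb T2 hve (length_le_of_normalForm hv hve)
  obtain ⟨dv, sv, pv⟩ := G.path_of_tight hm ok0 Tv
  -- the normal form `u` of the first word
  obtain ⟨Tu, lu⟩ := he'.tight_of_eval hb' T1 hue (length_le_of_normalForm hu hue)
  have lexu := lex_of_normalForm hu hue lu.symm
  have tu : u.take (4 * j) = pw [Lb] (4 * j) := by
    refine take_b h (4 * j) (r := [Lb, Lb, Lb, La, Lb] ++ (pw [La, Lb, Lb] K ++ [La, Lb])) ?_ ?_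
    · rw [← List.append_assoc, ← List.append_assoc]; exact lexu
    · rw [lu]
      simp only [List.length_append, length_pw, List.length_cons, List.length_nil]
      omega
  rw [tu, pot_pw_b, pot_pw_b, sub_self, sub_zero]
  -- the potential of `v`
  have hdv : dv = 2 * ((K + 1 : ℕ) : ℤ) := by
    have a1 := (G.tight_of_path hm ok0 pv).2
    have a2 := (G.tight_of_path hm ok0 p2).2
    rw [he1.pot_eq_of_eval hve, he2.pot_eq_of_eval hve] at a1
    rw [← a1, a2]
  have hlv : v.length = (4 * (m - 4) + 3) * (K + 1) := by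
    rw [lv, length_pw, RR, List.length_append, length_pw]
    simp only [List.length_cons, List.length_nil]
    ring
  rw [← List.take_append_drop (4 * j) v] at pv
  obtain ⟨s1, d1, d2, g1, g2, g3⟩ := pv.split
  rw [(G.tight_of_path hm ok0 g1).2]
  have ok1 := g1.ok hm ok0
  have r1 : Rt s1 := g1.rt True.intro
  have a1 := g2.tau_le hm ok1 r1
  have a2 := tau_bd hm ok1
  have a3 := tau_bd hm (g2.ok hm ok1)
  rw [List.length_drop, hlv] at a1
  have hm' : (5 : ℤ) ≤ m := by exact_mod_cast hm
  obtain ⟨q, rfl⟩ : ∃ q, m = q + 5 := ⟨m - 5, by omega⟩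
  have b1 : q + 5 - 4 = q + 1 := by omega
  rw [b1] at hj a1
  have b2 : 4 * j ≤ (4 * (q + 1) + 3) * (K + 1) := by nlinarith
  rw [Nat.cast_sub b2] at a1
  have hj' : (j : ℤ) + 1 = (q + 1) * (K + 1) := by exact_mod_cast hj
  push_cast at a1 a2 a3 hdv
  have b3 : d1 = 2 * (K + 1) - d2 := by linarith
  by_contra hcon
  push Not at hcon
  have b4 : d1 ≤ K - 9 := by linarith
  have b5 : (4 * ((q : ℤ) + 5) - 13) * d1 ≤ (4 * ((q : ℤ) + 5) - 13) * (K - 9) := by
    apply mul_le_mul_of_nonneg_left b4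
    have : (0 : ℤ) ≤ q := Int.natCast_nonneg q
    linarith
  have hq : (0 : ℤ) ≤ q := Int.natCast_nonneg q
  have hK0 : (0 : ℤ) ≤ K := Int.natCast_nonneg K
  have hqK : (0 : ℤ) ≤ q * K := mul_nonneg hq hK0
  rw [b3] at b5
  nlinarith

end F6

open F6 in
theorem not_finiteDiff_F6 {m : ℕ} (hm : 5 ≤ m) (lt : Letter → Letter → Prop)
    [IsStrictTotalOrder Letter lt] : ¬ FiniteDiff 2 m 4 lt := by
  obtain ⟨C⟩ := exists_circleAct (l := 2) (m := m) (n := 4) le_rfl (by omega) (by omega) (by
    have h1 : (0 : ℚ) < m := by exact_mod_cast (show 0 < m by omega)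
    have h2 : (1 / m : ℚ) ≤ 1 / 5 := by
      apply one_div_le_one_div_of_le (by norm_num)
      exact_mod_cast hm
    push_cast
    linarith)
  -- trichotomy
  have tri : ∀ (lt : Letter → Letter → Prop) [IsStrictTotalOrder Letter lt] (a b : Letter),
      a ≠ b → lt a b ∨ lt b a := by
    intro lt _ a b hab
    by_contra hcon
    push Not at hcon
    exact hab (Std.Trichotomous.trichotomous (r := lt) _ _ hcon.1 hcon.2)
  -- case 1
  have key1 : ∀ (lt : Letter → Letter → Prop) [IsStrictTotalOrder Letter lt],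
      (∃ t, lt (0, t) Lb) → ¬ FiniteDiff 2 m 4 lt := by
    intro lt _ ⟨t, ht⟩
    by_cases c : lt (0, !t) (0, t)
    · refine case1 hm C lt (t := !t) (trans_of lt c ht) (fun t' ht' => ?_)
      rcases Bool.eq_or_eq_not t' t with rfl | rfl
      · exact irrefl_of lt _ (trans_of lt c ht')
      · exact irrefl_of lt _ ht'
    · refine case1 hm C lt (t := t) ht (fun t' ht' => ?_)
      rcases Bool.eq_or_eq_not t' t with rfl | rfl
      · exact irrefl_of lt _ ht'
      · exact c ht'
  by_cases c1 : ∃ t, lt (0, t) Lb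
  · exact key1 lt c1
  by_cases c2 : ∃ t, lt (0, t) LB
  · obtain ⟨t, ht⟩ := c2
    intro hf
    refine key1 (flipLt lt) ⟨!t, ?_⟩ (finiteDiff_flip 2 m 4 lt hf)
    simpa [flipLt, flip] using ht
  · push Not at c1 c2
    have d1 : ∀ t, lt Lb (0, t) := fun t => (tri lt _ _ (by simp)).resolve_right (c1 t)
    have d2 : ∀ t, lt LB (0, t) := fun t => (tri lt _ _ (by simp)).resolve_right (c2 t)
    rcases tri lt Lb LB (by simp) with c3 | c3
    · refine case2 hm C lt ?_
      rintro ⟨i, t⟩ hy
      fin_cases i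
      · exact d1 t
      · cases t
        · exact c3
        · exact absurd rfl hy
    · intro hf
      refine case2 hm C (flipLt lt) ?_ (finiteDiff_flip 2 m 4 lt hf)
      rintro ⟨i, t⟩ hy
      fin_cases i
      · simpa [flipLt, flip] using d2 (!t)
      · cases t
        · simpa [flipLt, flip] using c3
        · exact absurd rfl hy

end Pool.Agent.SLE
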