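import Pool.Agent.SLE.Order

/-!
# F6 and F7 (MP_d768aa): common definitions (verbatim from the spec)
-/

namespace Pool.Agent.SLE

/-- `s` repeated. -/
def pw (w : List Letter) (k : ℕ) : List Letter := (List.replicate k w).flatten

abbrev La : Letter := (0, true)
abbrev LA : Letter := (0, false)
abbrev Lb : Letter := (1, true)
abbrev LB : Letter := (1, false)

/-- States; `rho j, sig j, om j, kap j, sig' j, om' j` for `j + 3 ≤ m`. -/
inductive St7
  | eta | mu | xi
  | rho (j : ℕ) | sig (j : ℕ) | om (j : ℕ)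
  | kap (j : ℕ) | sig' (j : ℕ) | om' (j : ℕ)

open St7 in
/-- The automaton of tight letters (Type I). -/
def next7 (m : ℕ) : St7 → Letter → Option St7
  | eta, (1, true) => some mu
  | mu, (1, true) => some xi
  | mu, (0, false) => some (rho 0)
  | xi, (1, true) => some eta
  | xi, (0, true) => some eta
  | rho j, (1, true) => some (sig j)
  | sig j, (1, true) => some (om j)
  | sig j, (0, false) => if j + 3 = m then some (kap 0) else none
  | om j, (1, true) => some (rho j)
  | om j, (0, false) => if j + 4 ≤ m then some (rho (j + 1)) else none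
  | om j, (0, true) => if j + 3 = m then some (rho 0) else none
  | kap j, (1, true) => some (sig' j)
  | sig' j, (1, true) => some (om' j)
  | om' j, (1, true) => some (kap j)
  | om' j, (0, false) => if j + 4 ≤ m then some (kap (j + 1)) else none
  | _, _ => none

def St7.ok (m : ℕ) : St7 → Prop
  | .rho j => j + 3 ≤ m
  | .sig j => j + 3 ≤ m
  | .om j => j + 3 ≤ m
  | .kap j => j + 3 ≤ m
  | .sig' j => j + 3 ≤ m
  | .om' j => j + 3 ≤ m
  | _ => True

/-- The increments of `D`. -/
def d7 (m : ℕ) : St7 → Letter → ℤ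
  | .xi, (0, true) => 3
  | .om j, (0, true) => if j + 3 = m then 3 else 0
  | _, _ => 0

/-- States: `rho j` for `j + 3 ≤ m`, `s1 j` for `1 ≤ j`, `j + 4 ≤ m`, `s2 j, s3 j` for `j + 4 ≤ m`.
(`g⁻¹ (rho 0)` is the point `rho (m - 3)`.) -/
inductive St6
  | eta | mu1 | xi | mu3
  | rho (j : ℕ) | s1 (j : ℕ) | s2 (j : ℕ) | s3 (j : ℕ)

open St6 in
/-- The automaton of tight letters (arc `(p, f p]`). -/
def next6 (m : ℕ) : St6 → Letter → Option St6
  | eta, (1, true) => some mu1
  | mu1, (1, true) => some xi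
  | mu1, (0, _) => some (rho 0)
  | xi, (1, true) => some mu3
  | xi, (0, _) => some eta
  | mu3, (1, true) => some eta
  | rho j, (1, true) =>
    if j = 0 then some (rho (m - 3)) else if j + 3 = m then some (s2 0) else some (s1 j)
  | s1 j, (1, true) => some (s2 j)
  | s2 j, (1, true) => some (s3 j)
  | s3 j, (1, true) => some (rho j)
  | s3 j, (0, _) => some (rho (j + 1))
  | _, _ => none

def St6.ok (m : ℕ) : St6 → Prop
  | .rho j => j + 3 ≤ m
  | .s1 j => 1 ≤ j ∧ j + 4 ≤ m
  | .s2 j => j + 4 ≤ m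
  | .s3 j => j + 4 ≤ m
  | _ => True

/-- The increments of `D`. -/
def d6 (m : ℕ) : St6 → Letter → ℤ
  | .xi, (0, _) => 2
  | .s3 j, (0, _) => if j + 4 = m then 2 else 0
  | _, _ => 0

end Pool.Agent.SLE
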