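import Pool.Agent.SLE.Circle
import Pool.Agent.SLE.F67Defs

/-!
# Geometry of the family F6 = (2, m, 4), m ≥ 5 (MP_d768aa)
-/

namespace Pool.Agent.SLE

open Real

namespace F6Geo

/-! ## arcs -/

theorem arc'_one {p q x : ℝ} (k : ℤ) (h1 : p < x + k * π) (h2 : x + k * π ≤ q) :
    arc' p q x = 1 := by
  unfold arc'
  rw [if_pos ⟨k, h1, h2⟩]

theorem arc'_zero {p q x : ℝ} (k : ℤ) (h1 : q < x + k * π) (h2 : x + k * π ≤ p + π) :
    arc' p q x = 0 := by
  unfold arc'
  rw [if_neg]
  rintro ⟨k', h3, h4⟩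
  rcases le_or_gt k k' with h | h
  · have : (k : ℝ) ≤ k' := by exact_mod_cast h
    nlinarith [Real.pi_pos]
  · have : (k' : ℝ) + 1 ≤ k := by exact_mod_cast h
    nlinarith [Real.pi_pos]

theorem arc_one {p q x : ℝ} (k : ℤ) (h1 : p ≤ x + k * π) (h2 : x + k * π < q) :
    arc p q x = 1 := by
  unfold arc
  rw [if_pos ⟨k, h1, h2⟩]

theorem arc'_add_pi (p q x : ℝ) : arc' p q (x + π) = arc' p q x := by
  unfold arc'
  congr 1
  apply propext
  constructor
  · rintro ⟨k, h1, h2⟩
    refine ⟨k + 1, ?_, ?_⟩ <;> push_cast <;> linarith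
  · rintro ⟨k, h1, h2⟩
    refine ⟨k - 1, ?_, ?_⟩ <;> push_cast <;> linarith

theorem arc_add_pi (p q x : ℝ) : arc p q (x + π) = arc p q x := by
  unfold arc
  congr 1
  apply propext
  constructor
  · rintro ⟨k, h1, h2⟩
    refine ⟨k + 1, ?_, ?_⟩ <;> push_cast <;> linarith
  · rintro ⟨k, h1, h2⟩
    refine ⟨k - 1, ?_, ?_⟩ <;> push_cast <;> linarith

theorem arc'_nonneg (p q x : ℝ) : 0 ≤ arc' p q x ∧ arc' p q x ≤ 1 := by
  unfold arc'; split_ifs <;> simp

theorem arc_nonneg (p q x : ℝ) : 0 ≤ arc p q x ∧ arc p q x ≤ 1 := by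
  unfold arc; split_ifs <;> simp

/-- Additivity of arcs. -/
theorem arc'_split {a b c : ℝ} (h1 : a ≤ b) (h2 : b ≤ c) (h3 : c ≤ a + π) (x : ℝ) :
    arc' a c x = arc' a b x + arc' b c x := by
  by_cases hA : ∃ k : ℤ, a < x + k * π ∧ x + k * π ≤ b
  · obtain ⟨k, hk1, hk2⟩ := hA
    rw [arc'_one k hk1 hk2, arc'_one k hk1 (hk2.trans h2)]
    have : arc' b c x = 0 := by
      refine arc'_zero (k + 1) ?_ ?_ <;> push_cast <;> linarith
    rw [this]; rfl
  · have h0 : arc' a b x = 0 := by unfold arc'; rw [if_neg hA]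
    rw [h0, zero_add]
    unfold arc'
    congr 1
    apply propext
    constructor
    · rintro ⟨k, hk1, hk2⟩
      refine ⟨k, ?_, hk2⟩
      by_contra hcon
      exact hA ⟨k, hk1, not_lt.1 hcon⟩
    · rintro ⟨k, hk1, hk2⟩
      exact ⟨k, lt_of_le_of_lt h1 hk1, hk2⟩

theorem arc_split {a b c : ℝ} (h1 : a ≤ b) (h2 : b ≤ c) (h3 : c ≤ a + π) (x : ℝ) :
    arc a c x = arc a b x + arc b c x := by
  by_cases hA : ∃ k : ℤ, a ≤ x + k * π ∧ x + k * π < b
  · obtain ⟨k, hk1, hk2⟩ := hA
    rw [arc_one k hk1 hk2, arc_one k hk1 (lt_of_lt_of_le hk2 h2)]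
    have : arc b c x = 0 := by
      unfold arc
      rw [if_neg]
      rintro ⟨k', h3, h4⟩
      rcases le_or_gt k' k with h | h
      · have : (k' : ℝ) ≤ k := by exact_mod_cast h
        nlinarith [Real.pi_pos]
      · have : (k : ℝ) + 1 ≤ k' := by exact_mod_cast h
        nlinarith [Real.pi_pos]
    rw [this]; rfl
  · have h0 : arc a b x = 0 := by unfold arc; rw [if_neg hA]
    rw [h0, zero_add]
    unfold arc
    congr 1
    apply propext
    constructor
    · rintro ⟨k, hk1, hk2⟩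
      refine ⟨k, ?_, hk2⟩
      by_contra hcon
      exact hA ⟨k, hk1, not_le.1 hcon⟩
    · rintro ⟨k, hk1, hk2⟩
      exact ⟨k, h1.trans hk1, hk2⟩

/-! ## the maps -/

theorem lt_map {F : ℝ ≃o ℝ} {k : ℕ} (h : ∀ x, F^[k] x = x + π) (x : ℝ) : x < F x := by
  by_contra hcon
  have h1 : F x ≤ x := not_lt.1 hcon
  have h2 : ∀ j : ℕ, F^[j] x ≤ x := by
    intro j
    induction j with
    | zero => simp
    | succ j ih =>
      rw [Function.iterate_succ_apply']
      exact (F.monotone ih).trans h1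
  have := h2 k
  rw [h x] at this
  linarith [Real.pi_pos]

variable {m : ℕ} (C : CircleAct 2 m 4)

theorem ff (x : ℝ) : C.f (C.f x) = x + π := C.f_iter x

theorem gggg (x : ℝ) : C.g (C.g (C.g (C.g x))) = x + π := C.g_iter x

theorem gr (x : ℝ) : C.g (C.r x) = C.f x := by
  apply C.f.injective
  rw [C.fgr, ff]

theorem gsymm_f (x : ℝ) : C.g.symm (C.f x) = C.r x := by
  rw [← gr, C.g.symm_apply_apply]

theorem fsymm (x : ℝ) : C.f.symm x = C.f x - π := by
  apply C.f.injective
  rw [C.f.apply_symm_apply]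
  have h := C.f_add (C.f x - π)
  rw [sub_add_cancel, ff] at h
  linarith

theorem r_sub (x : ℝ) : C.r (x - π) = C.r x - π := by
  have h := C.r_add (x - π)
  rw [sub_add_cancel] at h
  linarith

theorem f_sub (x : ℝ) : C.f (x - π) = C.f x - π := by
  have h := C.f_add (x - π)
  rw [sub_add_cancel] at h
  linarith

theorem gsymm (x : ℝ) : C.g.symm x = C.r (C.f x) - π := by
  have h := gsymm_f C (C.f.symm x)
  rw [C.f.apply_symm_apply, fsymm, r_sub] at h
  exact h

theorem gsymm_add (x : ℝ) : C.g.symm (x + π) = C.g.symm x + π := by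
  rw [gsymm, gsymm, C.f_add, C.r_add]; ring

theorem gsymm_sub (x : ℝ) : C.g.symm (x - π) = C.g.symm x - π := by
  have h := gsymm_add C (x - π)
  rw [sub_add_cancel] at h
  linarith

theorem gsymm4 (x : ℝ) : C.g.symm (C.g.symm (C.g.symm (C.g.symm x))) = x - π := by
  have h := gggg C (x - π)
  rw [sub_add_cancel] at h
  have h2 : C.g.symm (C.g.symm (C.g.symm (C.g.symm (C.g (C.g (C.g (C.g (x - π)))))))) =
      x - π := by simp
  rwa [h] at h2

theorem gsymm3 (x : ℝ) : C.g.symm (C.g.symm (C.g.symm x)) = C.g x - π := by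
  have h := gsymm4 C (C.g x)
  rwa [C.g.symm_apply_apply] at h

theorem g_eq (x : ℝ) : C.g x = C.f (C.r.symm x) := by
  rw [← gr, C.r.apply_symm_apply]

theorem x_lt_f (x : ℝ) : x < C.f x := lt_map C.f_iter x

theorem x_lt_r (x : ℝ) : x < C.r x := lt_map C.r_iter x

theorem f_lt (x : ℝ) : C.f x < x + π := by
  rw [← ff]; exact x_lt_f C _

theorem r_iter_lt {x : ℝ} {i j : ℕ} (h : i < j) : C.r^[i] x < C.r^[j] x := by
  have hs : StrictMono (fun k : ℕ => C.r^[k] x) := by
    refine strictMono_nat_of_lt_succ ?_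
    intro k
    simp only [Function.iterate_succ_apply']
    exact x_lt_r C _
  exact hs h

theorem r_iter_le {x : ℝ} {i j : ℕ} (h : i ≤ j) : C.r^[i] x ≤ C.r^[j] x := by
  rcases h.lt_or_eq with h | h
  · exact (r_iter_lt C h).le
  · rw [h]

/-- Existence of a point with `f p = r² p`. -/
theorem exists_p (hm : 5 ≤ m) : ∃ p, C.f p = C.r (C.r p) := by
  by_contra hcon
  push Not at hcon
  have hc1 : Continuous (fun x => C.f x - C.r (C.r x)) :=
    C.f.continuous.sub (C.r.continuous.comp C.r.continuous)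
  have key : (∀ x, C.f x < C.r (C.r x)) ∨ (∀ x, C.r (C.r x) < C.f x) := by
    by_contra hk
    push Not at hk
    obtain ⟨⟨a, ha⟩, ⟨b, hb⟩⟩ := hk
    have h0 : (0 : ℝ) ∈ Set.range (fun x => C.f x - C.r (C.r x)) := by
      apply mem_range_of_exists_le_of_exists_ge hc1
      · exact ⟨b, by linarith⟩
      · exact ⟨a, by linarith⟩
    obtain ⟨x, hx⟩ := h0
    exact hcon x (by simpa [sub_eq_zero] using hx)
  rcases key with h | h
  · have h1 : C.f (C.f 0) < C.r (C.r (C.r (C.r 0))) :=
      (h _).trans (C.r.strictMono (C.r.strictMono (h 0)))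
    rw [ff] at h1
    have h2 : C.r^[4] 0 < C.r^[m] 0 := r_iter_lt C (by omega)
    rw [C.r_iter] at h2
    have h3 : C.r^[4] 0 = C.r (C.r (C.r (C.r 0))) := rfl
    rw [h3] at h2
    linarith
  · have hgg : ∀ x, C.f x < C.g (C.g x) := by
      intro x
      rw [g_eq, g_eq]
      apply C.f.strictMono
      rw [← C.r.lt_iff_lt, C.r.apply_symm_apply]
      have := h (C.r.symm x)
      rwa [C.r.apply_symm_apply] at this
    have h1 : C.f (C.f 0) < C.g (C.g (C.g (C.g 0))) :=
      (C.f.strictMono (hgg 0)).trans (hgg _)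
    rw [ff, gggg] at h1
    exact lt_irrefl _ h1

section

variable {C} {p : ℝ} (hp : C.f p = C.r (C.r p))
include hp

theorem f_rp : C.f (C.r p) = C.g (C.f p) := by
  rw [hp, gr]

/-- `q = r⁻¹ f r p` is again such a point. -/
theorem hq : C.f (C.r.symm (C.f (C.r p))) = C.r (C.f (C.r p)) := by
  have h1 : C.g (C.g (C.g (C.r p))) = C.f (C.r.symm (C.f (C.r p))) := by
    rw [gr, ← f_rp hp, g_eq]
  have h2 : C.g (C.g (C.g (C.r p))) = C.r (C.f (C.r p)) := by
    have h3 := gggg C (C.r p)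
    have h4 : C.g (C.g (C.g (C.r p))) = C.g.symm (C.r p + π) := by
      rw [← h3, C.g.symm_apply_apply]
    rw [h4, gsymm_add, gsymm]; ring
  rw [← h1, h2]

end

/-- Existence of a good point. -/
theorem exists_good (hm : 5 ≤ m) :
    ∃ p, C.f p = C.r (C.r p) ∧ C.f (C.r p) < C.r (C.r (C.r p)) := by
  obtain ⟨p, hp⟩ := exists_p C hm
  by_cases h : C.f (C.r p) < C.r (C.r (C.r p))
  · exact ⟨p, hp, h⟩
  have h' : C.r (C.r (C.r p)) ≤ C.f (C.r p) := not_lt.1 h
  have hq' := hq hp
  set q := C.r.symm (C.f (C.r p)) with hqdef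
  have hrq : C.r q = C.f (C.r p) := by rw [hqdef, C.r.apply_symm_apply]
  have hfq : C.f q = C.r (C.r q) := by rw [hq', hrq]
  refine ⟨q, hfq, ?_⟩
  have hpq : C.f p ≤ q := by
    rw [hp, ← C.r.le_iff_le, hrq]; exact h'
  have e1 : C.f (C.r q) = C.r p + π := by rw [hrq, ff]
  have e2 : C.r p + π ≤ C.r (C.r (C.r q)) := by
    rw [← hfq, ← C.r_add, ← ff C p]
    exact C.r.monotone (C.f.monotone hpq)
  rw [e1]
  refine lt_of_le_of_ne e2 ?_
  intro hE
  rw [← hfq, ← C.r_add, ← ff C p] at hE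
  have hE1 : C.f p = q := C.f.injective (C.r.injective hE)
  have h1 : p + π = C.r (C.r (C.r (C.r p))) := by
    rw [← ff C p, hE1, hfq, ← hE1, hp]
  have h2 : C.r^[4] p < C.r^[m] p := r_iter_lt C (by omega)
  rw [C.r_iter] at h2
  have h3 : C.r^[4] p = C.r (C.r (C.r (C.r p))) := rfl
  rw [h3] at h2
  linarith

/-! ## potentials -/

theorem isPot' (hm : 5 ≤ m) {p : ℝ} (hp : C.f p = C.r (C.r p)) :
    C.IsPot (fun x => 2 * arc' p (C.f p) x - 1) := by
  have hle : C.f p ≤ p + π := (f_lt C p).le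
  refine ⟨?_, ?_, ?_⟩
  · intro x
    simp only [arc'_add_pi]
  · intro x
    have h := sum_arc' (F := C.f) C.f_add (k := 2) (by norm_num) C.f_iter p x
    rw [Finset.sum_sub_distrib, ← Finset.mul_sum, h]
    simp
  · intro x
    have h1 := sum_arc' (F := C.r) C.r_add (k := m) (by omega) C.r_iter p x
    have h2 := sum_arc' (F := C.r) C.r_add (k := m) (by omega) C.r_iter (C.r p) x
    have h3 : ∀ y, arc' p (C.f p) y = arc' p (C.r p) y + arc' (C.r p) (C.r (C.r p)) y := by
      intro y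
      rw [hp] at hle ⊢
      exact arc'_split (x_lt_r C p).le (x_lt_r C _).le hle y
    have h4 : ∀ j ∈ Finset.range m, (2 * arc' p (C.f p) (C.r^[j] x) - 1 + 1) =
        2 * (arc' p (C.r p) (C.r^[j] x) + arc' (C.r p) (C.r (C.r p)) (C.r^[j] x)) := by
      intro j _
      rw [h3]; ring
    rw [Finset.sum_congr rfl h4, ← Finset.mul_sum, Finset.sum_add_distrib, h1, h2]
    norm_num

theorem isPot (hm : 5 ≤ m) {p : ℝ} (hp : C.f p = C.r (C.r p)) :
    C.IsPot (fun x => 2 * arc p (C.f p) x - 1) := by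
  have hle : C.f p ≤ p + π := (f_lt C p).le
  refine ⟨?_, ?_, ?_⟩
  · intro x
    simp only [arc_add_pi]
  · intro x
    have h := sum_arc (F := C.f) C.f_add (k := 2) (by norm_num) C.f_iter p x
    rw [Finset.sum_sub_distrib, ← Finset.mul_sum, h]
    simp
  · intro x
    have h1 := sum_arc (F := C.r) C.r_add (k := m) (by omega) C.r_iter p x
    have h2 := sum_arc (F := C.r) C.r_add (k := m) (by omega) C.r_iter (C.r p) x
    have h3 : ∀ y, arc p (C.f p) y = arc p (C.r p) y + arc (C.r p) (C.r (C.r p)) y := by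
      intro y
      rw [hp] at hle ⊢
      exact arc_split (x_lt_r C p).le (x_lt_r C _).le hle y
    have h4 : ∀ j ∈ Finset.range m, (2 * arc p (C.f p) (C.r^[j] x) - 1 + 1) =
        2 * (arc p (C.r p) (C.r^[j] x) + arc (C.r p) (C.r (C.r p)) (C.r^[j] x)) := by
      intro j _
      rw [h3]; ring
    rw [Finset.sum_congr rfl h4, ← Finset.mul_sum, Finset.sum_add_distrib, h1, h2]
    norm_num

theorem abs_le' (p q x : ℝ) : |2 * arc' p q x - 1| ≤ 1 := by
  have := arc'_nonneg p q x
  rw [abs_le]; constructor <;> linarith [this.1, this.2]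

theorem abs_le (p q x : ℝ) : |2 * arc p q x - 1| ≤ 1 := by
  have := arc_nonneg p q x
  rw [_root_.abs_le]; constructor <;> linarith [this.1, this.2]

/-! ## the points -/

/-- The points of the automaton. -/
noncomputable def pt6 (p : ℝ) : St6 → ℝ
  | .eta => C.f (C.r p)
  | .mu1 => C.f p
  | .xi => C.r p
  | .mu3 => C.r (C.f (C.r p))
  | .rho j => C.r.symm^[j] p
  | .s1 j => C.g.symm (C.r.symm^[j] p)
  | .s2 j => C.g.symm (C.g.symm (C.r.symm^[j] p))
  | .s3 j => C.g.symm (C.g.symm (C.g.symm (C.r.symm^[j] p)))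

theorem rho_succ (p : ℝ) (j : ℕ) : C.r (C.r.symm^[j + 1] p) = C.r.symm^[j] p := by
  rw [Function.iterate_succ_apply', C.r.apply_symm_apply]

theorem r_iter_rho (p : ℝ) (j : ℕ) : C.r^[j] (C.r.symm^[j] p) = p := by
  induction j with
  | zero => rfl
  | succ j ih => rw [Function.iterate_succ_apply, rho_succ, ih]

/-- `ρ_j + π = r^{m-j} p`. -/
theorem rho_add (p : ℝ) {j : ℕ} (hj : j ≤ m) : C.r.symm^[j] p + π = C.r^[m - j] p := by
  have h := r_iter_rho C p j
  conv_rhs => rw [← h]
  rw [← Function.iterate_add_apply, Nat.sub_add_cancel hj, C.r_iter]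

/-- `g ρ_j = f ρ_{j+1}`. -/
theorem g_rho (p : ℝ) (j : ℕ) : C.g (C.r.symm^[j] p) = C.f (C.r.symm^[j + 1] p) := by
  rw [g_eq, Function.iterate_succ_apply']

/-- `f ρ_j` lies between `r p` and `f p`, for `1 ≤ j ≤ m - 3`. -/
theorem f_rho_bounds {p : ℝ} (_hp : C.f p = C.r (C.r p))
    (hlt : C.f (C.r p) < C.r (C.r (C.r p))) {j : ℕ} (h1 : 1 ≤ j) (h2 : j + 3 ≤ m) :
    C.r p < C.f (C.r.symm^[j] p) ∧ C.f (C.r.symm^[j] p) < C.f p := by
  have hadd := rho_add C p (j := j) (by omega)
  constructor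
  · have h3 : C.f (C.r p) < C.r.symm^[j] p + π := by
      rw [hadd]
      have : C.r (C.r (C.r p)) ≤ C.r^[m - j] p := by
        have h4 : C.r (C.r (C.r p)) = C.r^[3] p := rfl
        rw [h4]; exact r_iter_le C (by omega)
      exact lt_of_lt_of_le hlt this
    have h4 := C.f.strictMono h3
    rw [ff, C.f_add] at h4
    linarith
  · apply C.f.strictMono
    have h3 : C.r^[m - j] p < C.r^[m] p := r_iter_lt C (by omega)
    rw [← hadd, C.r_iter] at h3
    linarith

section

variable {C} {p : ℝ} (hp : C.f p = C.r (C.r p))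

theorem T_add (p x : ℝ) : arc' p (C.f p) x + arc' p (C.f p) (C.f x) = 1 := by
  have h := sum_arc' (F := C.f) C.f_add (k := 2) (by norm_num) C.f_iter p x
  rw [Finset.sum_range_succ, Finset.sum_range_one] at h
  exact h

theorem T_sub (p x : ℝ) : arc' p (C.f p) (x - π) = arc' p (C.f p) x := by
  have h := arc'_add_pi p (C.f p) (x - π)
  rw [sub_add_cancel] at h
  exact h.symm

include hp in
theorem T_xi : arc' p (C.f p) (C.r p) = 1 := by
  refine arc'_one 0 ?_ ?_
  · simpa using x_lt_r C p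
  · rw [hp]; simpa using (x_lt_r C (C.r p)).le

include hp in
theorem T_eta : arc' p (C.f p) (C.f (C.r p)) = 0 := by
  have h1 := T_add (C := C) p (C.r p)
  rw [T_xi hp] at h1
  omega

theorem T_mu1 : arc' p (C.f p) (C.f p) = 1 := by
  refine arc'_one 0 ?_ ?_
  · simpa using x_lt_f C p
  · simp

/-- The position of `q`. -/
theorem q_bounds (hp : C.f p = C.r (C.r p)) (hlt : C.f (C.r p) < C.r (C.r (C.r p))) :
    C.r p < C.r.symm (C.f (C.r p)) ∧ C.r.symm (C.f (C.r p)) < C.f p := by
  constructor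
  · rw [← C.r.lt_iff_lt, C.r.apply_symm_apply, ← hp]
    exact C.f.strictMono (x_lt_r C p)
  · rw [← C.r.lt_iff_lt, C.r.apply_symm_apply, hp]
    exact hlt

theorem T_mu3 (hp : C.f p = C.r (C.r p)) (hlt : C.f (C.r p) < C.r (C.r (C.r p))) :
    arc' p (C.f p) (C.r (C.f (C.r p))) = 0 := by
  have hb := q_bounds hp hlt
  have h1 := T_add (C := C) p (C.r.symm (C.f (C.r p)))
  rw [hq hp] at h1
  have h2 : arc' p (C.f p) (C.r.symm (C.f (C.r p))) = 1 := by
    refine arc'_one 0 ?_ ?_
    · simpa using (x_lt_r C p).trans hb.1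
    · simpa using hb.2.le
  omega

theorem T_rho (hp : C.f p = C.r (C.r p)) {j : ℕ} (hj : j + 3 ≤ m) :
    arc' p (C.f p) (C.r.symm^[j] p) = 0 := by
  have hadd := rho_add C p (j := j) (by omega)
  refine arc'_zero 1 ?_ ?_
  · rw [Int.cast_one, one_mul, hadd, hp]
    have h4 : C.r (C.r p) = C.r^[2] p := rfl
    rw [h4]; exact r_iter_lt C (by omega)
  · rw [Int.cast_one, one_mul, hadd, ← C.r_iter]
    exact r_iter_le C (by omega)

theorem T_f_rho (hp : C.f p = C.r (C.r p)) (hlt : C.f (C.r p) < C.r (C.r (C.r p)))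
    {j : ℕ} (h1 : 1 ≤ j) (h2 : j + 3 ≤ m) : arc' p (C.f p) (C.f (C.r.symm^[j] p)) = 1 := by
  have hb := f_rho_bounds C hp hlt h1 h2
  refine arc'_one 0 ?_ ?_
  · simpa using (x_lt_r C p).trans hb.1
  · simpa using hb.2.le

theorem T_s3 (hp : C.f p = C.r (C.r p)) (hlt : C.f (C.r p) < C.r (C.r (C.r p)))
    {j : ℕ} (h2 : j + 4 ≤ m) :
    arc' p (C.f p) (C.g.symm (C.g.symm (C.g.symm (C.r.symm^[j] p)))) = 1 := by
  rw [gsymm3, T_sub, g_rho]
  exact T_f_rho hp hlt (by omega) (by omega)

theorem T_s1 (hp : C.f p = C.r (C.r p)) (hlt : C.f (C.r p) < C.r (C.r (C.r p)))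
    {j : ℕ} (h1 : 1 ≤ j) (h2 : j + 3 ≤ m) :
    arc' p (C.f p) (C.g.symm (C.r.symm^[j] p)) = 0 := by
  have hb := f_rho_bounds C hp hlt h1 h2
  rw [gsymm, T_sub]
  refine arc'_zero 0 ?_ ?_
  · rw [Int.cast_zero, zero_mul, add_zero, hp]
    exact C.r.strictMono hb.1
  · rw [Int.cast_zero, zero_mul, add_zero, ← C.r_iter]
    have h3 : C.r (C.f (C.r.symm^[j] p)) < C.r (C.r (C.r p)) := by
      rw [← hp]; exact C.r.strictMono hb.2
    have h4 : C.r (C.r (C.r p)) = C.r^[3] p := rfl
    rw [h4] at h3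
    exact (h3.trans_le (r_iter_le C (by omega))).le

theorem T_s2 (hp : C.f p = C.r (C.r p)) (hlt : C.f (C.r p) < C.r (C.r (C.r p)))
    {j : ℕ} (h2 : j + 4 ≤ m) :
    arc' p (C.f p) (C.g.symm (C.g.symm (C.r.symm^[j] p))) = 0 := by
  have hb := f_rho_bounds C hp hlt (j := j + 1) (by omega) (by omega)
  -- `g⁻² x = g² x - π`
  have h3 : C.g.symm (C.g.symm (C.r.symm^[j] p)) = C.g (C.g (C.r.symm^[j] p)) - π := by
    have h4 := gsymm3 C (C.g (C.r.symm^[j] p))
    rw [C.g.symm_apply_apply] at h4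
    exact h4
  rw [h3, T_sub, g_rho, g_eq]
  have h5 := T_add (C := C) p (C.r.symm (C.f (C.r.symm^[j + 1] p)))
  have h6 : arc' p (C.f p) (C.r.symm (C.f (C.r.symm^[j + 1] p))) = 1 := by
    refine arc'_one 0 ?_ ?_
    · rw [Int.cast_zero, zero_mul, add_zero, ← C.r.lt_iff_lt, C.r.apply_symm_apply]
      exact hb.1
    · rw [Int.cast_zero, zero_mul, add_zero, ← C.r.le_iff_le, C.r.apply_symm_apply]
      exact (hb.2.trans (x_lt_r C _)).le
  omega

/-! ### the second arc -/

theorem Tq_mu1 {q : ℝ} (h1 : q < C.f p) (h2 : p < q) : arc' q (C.f q) (C.f p) = 1 := by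
  refine arc'_one 0 ?_ ?_
  · simpa using h1
  · simpa using (C.f.strictMono h2).le

theorem Tq_xi {q : ℝ} (h1 : C.r p < q) (h2 : q < C.f p) : arc' q (C.f q) (C.r p) = 0 := by
  refine arc'_zero 1 ?_ ?_
  · rw [Int.cast_one, one_mul]
    have h3 := C.f.strictMono h2
    rw [ff] at h3
    have h4 := x_lt_r C p
    linarith
  · rw [Int.cast_one, one_mul]; linarith

theorem Tq_f_rho (hp : C.f p = C.r (C.r p)) (hlt : C.f (C.r p) < C.r (C.r (C.r p)))
    {j : ℕ} (h1 : 1 ≤ j) (h2 : j + 3 ≤ m) :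
    arc' (C.r.symm (C.f (C.r p))) (C.f (C.r.symm (C.f (C.r p)))) (C.f (C.r.symm^[j] p)) =
      if j + 3 = m then 0 else 1 := by
  have hb := q_bounds hp hlt
  have hq' := hq hp
  set q := C.r.symm (C.f (C.r p)) with hqdef
  have hrq : C.r q = C.f (C.r p) := by rw [hqdef, C.r.apply_symm_apply]
  have hfq : C.f q = C.r (C.r q) := by rw [hq', hrq]
  have hadd := rho_add C p (j := j) (by omega)
  have hT := T_add (C := C) q (C.r.symm^[j] p)
  split_ifs with hj
  · have h3 : arc' q (C.f q) (C.r.symm^[j] p) = 1 := by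
      refine arc'_one 1 ?_ ?_
      · rw [Int.cast_one, one_mul, hadd, show m - j = 3 by omega]
        refine hb.2.trans ?_
        rw [hp]
        have h4 : C.r (C.r p) = C.r^[2] p := rfl
        rw [h4]; exact r_iter_lt C (by omega)
      · rw [Int.cast_one, one_mul, hadd, show m - j = 3 by omega, hfq]
        have h4 : C.r^[3] p = C.r (C.r (C.r p)) := rfl
        rw [h4]
        exact (C.r.strictMono (C.r.strictMono hb.1)).le
    omega
  · have h3 : arc' q (C.f q) (C.r.symm^[j] p) = 0 := by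
      refine arc'_zero 1 ?_ ?_
      · rw [Int.cast_one, one_mul, hadd, hfq]
        have h4 : C.r (C.r (C.r (C.r p))) = C.r^[4] p := rfl
        have h5 : C.r (C.r q) < C.r (C.r (C.r (C.r p))) := by
          rw [← hp]; exact C.r.strictMono (C.r.strictMono hb.2)
        rw [h4] at h5
        exact h5.trans_le (r_iter_le C (by omega))
      · rw [Int.cast_one, one_mul, hadd]
        have h4 : C.r^[m - j] p ≤ C.r^[m] p := r_iter_le C (by omega)
        rw [C.r_iter] at h4
        have := x_lt_r C p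
        linarith [hb.1]
    omega

/-! ### increments -/

theorem inc_a (p x : ℝ) (b : Bool) :
    C.inc (fun x => 2 * arc' p (C.f p) x - 1) x (0, b) = 2 * arc' p (C.f p) x - 1 := by
  cases b with
  | true => rfl
  | false =>
    have h := T_add (C := C) p x
    show -(2 * arc' p (C.f p) (C.f x) - 1) = _
    omega

/-- The values of the first arc at the states. -/
def v6 : St6 → ℤ
  | .mu1 => 1
  | .xi => 1
  | .s3 _ => 1
  | _ => 0

theorem T_pt (hp : C.f p = C.r (C.r p)) (hlt : C.f (C.r p) < C.r (C.r (C.r p)))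
    (s : St6) (hs : s.ok m) : arc' p (C.f p) (pt6 C p s) = v6 s := by
  cases s with
  | eta => exact T_eta hp
  | mu1 => exact T_mu1
  | xi => exact T_xi hp
  | mu3 => exact T_mu3 hp hlt
  | rho j => exact T_rho hp hs
  | s1 j => exact T_s1 hp hlt hs.1 (by have := hs.2; omega)
  | s2 j => exact T_s2 hp hlt hs
  | s3 j => exact T_s3 hp hlt hs

theorem tight_iff (hp : C.f p = C.r (C.r p)) (hlt : C.f (C.r p) < C.r (C.r (C.r p)))
    (s : St6) (hs : s.ok m) (y : Letter) :
    C.inc (fun x => 2 * arc' p (C.f p) x - 1) (pt6 C p s) y = 1 ↔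
      (next6 m s y).isSome = true := by
  have hT := T_pt hp hlt s hs
  obtain ⟨i, b⟩ := y
  fin_cases i
  · show C.inc (fun x => 2 * arc' p (C.f p) x - 1) (pt6 C p s) (0, b) = 1 ↔ _
    rw [inc_a, hT]
    cases s <;> cases b <;> simp [v6, next6]
  · cases b with
    | true =>
      show (1 : ℤ) = 1 ↔ _
      cases s <;> simp [next6]
      rename_i j
      split_ifs <;> simp
    | false =>
      show (-1 : ℤ) = 1 ↔ _
      cases s <;> simp [next6]

/-! ### transitions -/

theorem gsymm_p (hm : 5 ≤ m) (hp : C.f p = C.r (C.r p)) :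
    C.g.symm p = C.r.symm^[m - 3] p := by
  have h1 := rho_add C p (j := m - 3) (by omega)
  have h2 : C.r^[m - (m - 3)] p = C.r (C.r (C.r p)) := by
    rw [show m - (m - 3) = 3 by omega]; rfl
  rw [h2] at h1
  rw [gsymm, hp]
  linarith

theorem gsymm_mu3 (hp : C.f p = C.r (C.r p)) :
    C.g.symm (C.r (C.f (C.r p))) = C.f (C.r p) := by
  have h := gsymm4 C (C.f (C.r p))
  rw [gsymm_f, ← hp, gsymm_f, gsymm C (C.r p), gsymm_sub] at h
  linarith

theorem step_eq (hm : 5 ≤ m) (hp : C.f p = C.r (C.r p))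
    (s : St6) (hs : s.ok m) (y : Letter) (s' : St6) (h : next6 m s y = some s') :
    ∃ k : ℤ, C.step (pt6 C p s) y = pt6 C p s' + k * π := by
  obtain ⟨i, b⟩ := y
  fin_cases i
  · -- the letters `a` and `a⁻¹`
    replace h : next6 m s (0, b) = some s' := h
    show ∃ k : ℤ, C.step (pt6 C p s) (0, b) = pt6 C p s' + k * π
    cases s with
    | mu1 =>
      have h' : s' = .rho 0 := by simpa [next6] using h.symm
      subst h'
      cases b with
      | true =>
        refine ⟨0, ?_⟩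
        show C.f.symm (C.f p) = p + _
        rw [C.f.symm_apply_apply]; simp
      | false =>
        refine ⟨1, ?_⟩
        show C.f (C.f p) = p + _
        rw [ff]; simp
    | xi =>
      have h' : s' = .eta := by simpa [next6] using h.symm
      subst h'
      cases b with
      | true =>
        refine ⟨-1, ?_⟩
        show C.f.symm (C.r p) = C.f (C.r p) + _
        rw [fsymm]; push_cast; ring
      | false =>
        refine ⟨0, ?_⟩
        show C.f (C.r p) = C.f (C.r p) + _
        simp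
    | s3 j =>
      have h' : s' = .rho (j + 1) := by simpa [next6] using h.symm
      subst h'
      have e1 : C.g.symm (C.g.symm (C.g.symm (C.r.symm^[j] p))) =
          C.f (C.r.symm^[j + 1] p) - π := by rw [gsymm3, g_rho]
      cases b with
      | true =>
        refine ⟨-1, ?_⟩
        show C.f.symm (C.g.symm (C.g.symm (C.g.symm (C.r.symm^[j] p)))) =
          C.r.symm^[j + 1] p + _
        rw [e1, fsymm, f_sub, ff]; push_cast; ring
      | false =>
        refine ⟨0, ?_⟩
        show C.f (C.g.symm (C.g.symm (C.g.symm (C.r.symm^[j] p)))) =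
          C.r.symm^[j + 1] p + _
        rw [e1, f_sub, ff]; push_cast; ring
    | eta => simp [next6] at h
    | mu3 => simp [next6] at h
    | rho j => simp [next6] at h
    | s1 j => simp [next6] at h
    | s2 j => simp [next6] at h
  · replace h : next6 m s (1, b) = some s' := h
    show ∃ k : ℤ, C.step (pt6 C p s) (1, b) = pt6 C p s' + k * π
    cases b with
    | false => cases s <;> simp [next6] at h
    | true =>
      show ∃ k : ℤ, C.g.symm (pt6 C p s) = pt6 C p s' + k * π
      cases s with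
      | eta =>
        have h' : s' = .mu1 := by simpa [next6] using h.symm
        subst h'
        refine ⟨0, ?_⟩
        show C.g.symm (C.f (C.r p)) = C.f p + _
        rw [gsymm_f, ← hp]; simp
      | mu1 =>
        have h' : s' = .xi := by simpa [next6] using h.symm
        subst h'
        refine ⟨0, ?_⟩
        show C.g.symm (C.f p) = C.r p + _
        rw [gsymm_f]; simp
      | xi =>
        have h' : s' = .mu3 := by simpa [next6] using h.symm
        subst h'
        refine ⟨-1, ?_⟩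
        show C.g.symm (C.r p) = C.r (C.f (C.r p)) + _
        rw [gsymm]; push_cast; ring
      | mu3 =>
        have h' : s' = .eta := by simpa [next6] using h.symm
        subst h'
        refine ⟨0, ?_⟩
        show C.g.symm (C.r (C.f (C.r p))) = C.f (C.r p) + _
        rw [gsymm_mu3 hp]; simp
      | rho j =>
        by_cases h0 : j = 0
        · subst h0
          have h' : s' = .rho (m - 3) := by simpa [next6] using h.symm
          subst h'
          refine ⟨0, ?_⟩
          show C.g.symm p = C.r.symm^[m - 3] p + _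
          rw [gsymm_p hm hp]; simp
        · by_cases h3 : j + 3 = m
          · have h' : s' = .s2 0 := by simpa [next6, h0, h3] using h.symm
            subst h'
            refine ⟨0, ?_⟩
            show C.g.symm (C.r.symm^[j] p) = C.g.symm (C.g.symm p) + _
            rw [gsymm_p hm hp, show m - 3 = j by omega]; simp
          · have h' : s' = .s1 j := by simpa [next6, h0, h3] using h.symm
            subst h'
            exact ⟨0, by simp [pt6]⟩
      | s1 j =>
        have h' : s' = .s2 j := by simpa [next6] using h.symm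
        subst h'
        exact ⟨0, by simp [pt6]⟩
      | s2 j =>
        have h' : s' = .s3 j := by simpa [next6] using h.symm
        subst h'
        exact ⟨0, by simp [pt6]⟩
      | s3 j =>
        have h' : s' = .rho j := by simpa [next6] using h.symm
        subst h'
        refine ⟨-1, ?_⟩
        show C.g.symm (C.g.symm (C.g.symm (C.g.symm (C.r.symm^[j] p)))) = C.r.symm^[j] p + _
        rw [gsymm4]; push_cast; ring

theorem inc_eq (hp : C.f p = C.r (C.r p)) (hlt : C.f (C.r p) < C.r (C.r (C.r p)))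
    (s : St6) (hs : s.ok m) (y : Letter) (s' : St6) (h : next6 m s y = some s') :
    C.inc (fun x => 2 * arc' p (C.f p) x - 1) (pt6 C p s) y -
      C.inc (fun x => 2 * arc' (C.r.symm (C.f (C.r p))) (C.f (C.r.symm (C.f (C.r p)))) x - 1)
        (pt6 C p s) y = d6 m s y := by
  have hT := T_pt hp hlt s hs
  have hb := q_bounds hp hlt
  obtain ⟨i, b⟩ := y
  fin_cases i
  · replace h : next6 m s (0, b) = some s' := h
    show C.inc _ (pt6 C p s) (0, b) - C.inc _ (pt6 C p s) (0, b) = d6 m s (0, b)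
    rw [inc_a, inc_a, hT]
    cases s with
    | mu1 =>
      have h2 : arc' (C.r.symm (C.f (C.r p))) (C.f (C.r.symm (C.f (C.r p))))
          (pt6 C p .mu1) = 1 := Tq_mu1 hb.2 ((x_lt_r C p).trans hb.1)
      rw [h2]; simp [v6, d6]
    | xi =>
      have h2 : arc' (C.r.symm (C.f (C.r p))) (C.f (C.r.symm (C.f (C.r p))))
          (pt6 C p .xi) = 0 := Tq_xi hb.1 hb.2
      rw [h2]; simp [v6, d6]
    | s3 j =>
      have hj : j + 4 ≤ m := hs
      have h2 : arc' (C.r.symm (C.f (C.r p))) (C.f (C.r.symm (C.f (C.r p))))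
          (pt6 C p (.s3 j)) = if j + 4 = m then 0 else 1 := by
        show arc' _ _ (C.g.symm (C.g.symm (C.g.symm (C.r.symm^[j] p)))) = _
        rw [gsymm3, T_sub, g_rho, Tq_f_rho hp hlt (by omega) (by omega)]
      rw [h2]
      show 2 * (1 : ℤ) - 1 - _ = if j + 4 = m then 2 else 0
      split_ifs <;> norm_num
    | eta => simp [next6] at h
    | mu3 => simp [next6] at h
    | rho j => simp [next6] at h
    | s1 j => simp [next6] at h
    | s2 j => simp [next6] at h
  · replace h : next6 m s (1, b) = some s' := h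
    cases b with
    | false => cases s <;> simp [next6] at h
    | true =>
      show (1 : ℤ) - 1 = d6 m s (1, true)
      cases s <;> simp [d6]

/-! ### the second certificate -/

theorem T'_p : arc p (C.f p) p = 1 := by
  refine arc_one 0 ?_ ?_
  · simp
  · simpa using x_lt_f C p

theorem T'_xi (hp : C.f p = C.r (C.r p)) : arc p (C.f p) (C.r p) = 1 := by
  refine arc_one 0 ?_ ?_
  · simpa using (x_lt_r C p).le
  · rw [hp]; simpa using x_lt_r C (C.r p)

theorem step_add_int (x : ℝ) (k : ℤ) (y : Letter) :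
    C.step (x + k * π) y = C.step x y + k * π := by
  have key : ∀ F : ℝ ≃o ℝ, (∀ x, F (x + π) = F x + π) → ∀ (k : ℤ) (x : ℝ),
      F (x + k * π) = F x + k * π := by
    intro F hF k
    induction k using Int.induction_on with
    | zero => intro x; simp
    | succ i ih =>
      intro x
      have h1 : x + ((i : ℤ) + 1 : ℤ) * π = (x + (i : ℤ) * π) + π := by push_cast; ring
      rw [h1, hF, ih]; push_cast; ring
    | pred i ih =>
      intro x
      have h1 : x + ((-(i : ℤ) - 1 : ℤ) : ℝ) * π + π = x + ((-(i : ℤ) : ℤ) : ℝ) * π := by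
        push_cast; ring
      have h2 := hF (x + ((-(i : ℤ) - 1 : ℤ) : ℝ) * π)
      rw [h1, ih] at h2
      have h3 : F (x + ((-(i : ℤ) - 1 : ℤ) : ℝ) * π) = F x + ((-(i : ℤ) : ℤ) : ℝ) * π - π := by
        linarith
      rw [h3]; push_cast; ring
  have symm_key : ∀ F : ℝ ≃o ℝ, (∀ x, F (x + π) = F x + π) →
      ∀ x, F.symm (x + π) = F.symm x + π := by
    intro F hF x
    apply F.injective
    rw [F.apply_symm_apply, hF, F.apply_symm_apply]
  obtain ⟨i, b⟩ := y
  fin_cases i <;> cases b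
  · exact key C.f C.f_add k x
  · exact key C.f.symm (symm_key _ C.f_add) k x
  · exact key C.g C.g_add k x
  · exact key C.g.symm (symm_key _ C.g_add) k x

end

theorem pw_succ (w : List Letter) (k : ℕ) : pw w (k + 1) = w ++ pw w k := by
  simp [pw, List.replicate_succ]

/-- The word of the second certificate is tight. -/
theorem tight_second (hm : 5 ≤ m) {p : ℝ} (hp : C.f p = C.r (C.r p)) (j K : ℕ) :
    C.Tight (fun x => 2 * arc p (C.f p) x - 1) (pt6 C p (.rho (m - 3)))
      (pw [Lb] (4 * j) ++ [Lb, Lb, Lb, La, Lb] ++ pw [La, Lb, Lb] K) := by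
  have hpot := isPot C hm hp
  -- the loops
  have e0 : pt6 C p (.rho (m - 3)) = C.g.symm p := (gsymm_p hm hp).symm
  have loop : ∀ x : ℝ, ∀ w : List Letter,
      C.Tight (fun x => 2 * arc p (C.f p) x - 1) x w →
      C.Tight (fun x => 2 * arc p (C.f p) x - 1) x (pw [Lb] (4 * j) ++ w) := by
    intro x w hw
    induction j with
    | zero => simpa [pw] using hw
    | succ j ih =>
      rw [show 4 * (j + 1) = 4 * j + 1 + 1 + 1 + 1 by ring, pw_succ, pw_succ, pw_succ, pw_succ]
      refine ⟨rfl, rfl, rfl, rfl, ?_⟩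
      show C.Tight _ (C.g.symm (C.g.symm (C.g.symm (C.g.symm x)))) _
      rw [gsymm4]
      have h1 := (hpot.tight_add_int (x := x) (w := pw [Lb] (4 * j) ++ w) (-1)).2 ih
      have h2 : x + ((-1 : ℤ) : ℝ) * π = x - π := by push_cast; ring
      rw [h2] at h1
      exact h1
  -- the left path
  have left : ∀ K : ℕ, C.Tight (fun x => 2 * arc p (C.f p) x - 1) (C.r p)
      (pw [La, Lb, Lb] K) := by
    intro K
    induction K with
    | zero => trivial
    | succ K ih =>
      rw [pw_succ]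
      refine ⟨?_, rfl, rfl, ?_⟩
      · show 2 * arc p (C.f p) (C.r p) - 1 = 1
        rw [T'_xi hp]; norm_num
      · show C.Tight _ (C.g.symm (C.g.symm (C.f.symm (C.r p)))) _
        have h1 : C.g.symm (C.g.symm (C.f.symm (C.r p))) = C.r p + ((-1 : ℤ) : ℝ) * π := by
          rw [fsymm, gsymm_sub, gsymm_f, gsymm_sub, ← hp, gsymm_f]; push_cast; ring
        rw [h1]
        exact (hpot.tight_add_int (-1)).2 ih
  rw [List.append_assoc]
  apply loop
  rw [e0]
  refine ⟨rfl, rfl, rfl, ?_, rfl, ?_⟩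
  · show 2 * arc p (C.f p) (C.g.symm (C.g.symm (C.g.symm (C.g.symm p)))) - 1 = 1
    rw [gsymm4]
    have h2 := arc_add_pi p (C.f p) (p - π)
    rw [sub_add_cancel, T'_p] at h2
    have h3 : arc p (C.f p) (p - π) = 1 := h2.symm
    rw [h3]; norm_num
  · show C.Tight _ (C.g.symm (C.f.symm (C.g.symm (C.g.symm (C.g.symm (C.g.symm p)))))) _
    have h1 : C.g.symm (C.f.symm (C.g.symm (C.g.symm (C.g.symm (C.g.symm p))))) =
        C.r p + ((-2 : ℤ) : ℝ) * π := by
      rw [gsymm4, fsymm, f_sub, gsymm_sub, gsymm_sub, gsymm_f]; push_cast; ring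
    rw [h1]
    exact (hpot.tight_add_int (-2)).2 (left K)

end F6Geo

open F6Geo in
/-- **Geometry of F6** (blueprint 2 (a)-(e)). -/
theorem exists_F6 {m : ℕ} (hm : 5 ≤ m) (C : CircleAct 2 m 4) :
    ∃ (e e₁ e₂ : ℝ → ℤ) (pt : St6 → ℝ),
      C.IsPot e ∧ (∀ x, |e x| ≤ 1) ∧ C.IsPot e₁ ∧ (∀ x, |e₁ x| ≤ 1) ∧ C.IsPot e₂ ∧
      (∀ x, |e₂ x| ≤ 1) ∧
      (∀ s : St6, s.ok m → ∀ y, C.inc e (pt s) y = 1 ↔ (next6 m s y).isSome = true) ∧
      (∀ s : St6, s.ok m → ∀ y s', next6 m s y = some s' →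
        (∃ k : ℤ, C.step (pt s) y = pt s' + k * π) ∧
        C.inc e₁ (pt s) y - C.inc e₂ (pt s) y = d6 m s y) ∧
      ∃ e' : ℝ → ℤ, C.IsPot e' ∧ (∀ x, |e' x| ≤ 1) ∧
        ∀ j K : ℕ, C.Tight e' (pt (.rho (m - 3)))
          (pw [Lb] (4 * j) ++ [Lb, Lb, Lb, La, Lb] ++ pw [La, Lb, Lb] K) := by
  obtain ⟨p, hp, hlt⟩ := exists_good C hm
  have hq' := hq hp
  have hfq : C.f (C.r.symm (C.f (C.r p))) = C.r (C.r (C.r.symm (C.f (C.r p)))) := by
    rw [hq', C.r.apply_symm_apply]
  exact ⟨fun x => 2 * arc' p (C.f p) x - 1, fun x => 2 * arc' p (C.f p) x - 1,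
    fun x => 2 * arc' (C.r.symm (C.f (C.r p))) (C.f (C.r.symm (C.f (C.r p)))) x - 1,
    pt6 C p, isPot' C hm hp, fun x => abs_le' _ _ x, isPot' C hm hp, fun x => abs_le' _ _ x,
    isPot' C hm hfq, fun x => abs_le' _ _ x,
    fun s hs y => tight_iff hp hlt s hs y,
    fun s hs y s' h => ⟨step_eq hm hp s hs y s' h, inc_eq hp hlt s hs y s' h⟩,
    fun x => 2 * arc p (C.f p) x - 1, isPot C hm hp, fun x => abs_le _ _ x,
    fun j K => tight_second C hm hp j K⟩

end Pool.Agent.SLE
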