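import Pool.Agent.SLE.F7Geo
import Pool.Agent.SLE.Delta

/-!
# The family F7 = (3, m, 3): words and normal forms
-/

namespace Pool.Agent.SLE

open Real

namespace F7

/-! ### Words -/

theorem pw_zero (w : List Letter) : pw w 0 = [] := rfl

theorem pw_succ (w : List Letter) (k : ℕ) : pw w (k + 1) = w ++ pw w k := by
  simp [pw, List.replicate_succ]

theorem pw_add (w : List Letter) (i j : ℕ) : pw w (i + j) = pw w i ++ pw w j := by
  rw [pw, pw, pw, List.replicate_add, List.flatten_append]

theorem length_pw (w : List Letter) (k : ℕ) : (pw w k).length = k * w.length := by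
  induction k with
  | zero => simp [pw_zero]
  | succ k ih => rw [pw_succ, List.length_append, ih]; ring

theorem eval_pw (l m n : ℕ) (w : List Letter) (k : ℕ) :
    eval l m n (pw w k) = eval l m n w ^ k := by
  induction k with
  | zero => rw [pw_zero, pow_zero, eval_nil]
  | succ k ih => rw [pw_succ, eval_append, ih, pow_succ']

theorem take_pw (n i : ℕ) (h : i ≤ n) (w : List Letter) :
    (pw [Lb] n ++ w).take i = pw [Lb] i := by
  obtain ⟨d, rfl⟩ := Nat.exists_eq_add_of_le h
  rw [pw_add, List.append_assoc]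
  exact List.take_left' (by rw [length_pw]; simp)

/-- The right period. -/
def R7 (m : ℕ) : List Letter := pw [Lb, Lb, LA] (m - 3) ++ [Lb, Lb, La]

theorem length_R7 {m : ℕ} (hm : 4 ≤ m) : (R7 m).length = 3 * (m - 2) := by
  rw [R7, List.length_append, length_pw]; simp; omega

theorem eval_La (l m n : ℕ) : eval l m n [La] = genA l m n := by
  rw [eval_singleton]; rfl

theorem eval_LA (l m n : ℕ) : eval l m n [LA] = (genA l m n)⁻¹ := by
  rw [eval_singleton]; rfl

theorem eval_Lb (l m n : ℕ) : eval l m n [Lb] = genB l m n := by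
  rw [eval_singleton]; rfl

theorem eval_LB (l m n : ℕ) : eval l m n [LB] = (genB l m n)⁻¹ := by
  rw [eval_singleton]; rfl

theorem eval_R7 {m : ℕ} (hm : 4 ≤ m) : eval 3 m 3 (R7 m) =
    (genB 3 m 3 ^ 3) ^ (m - 3) * (genA 3 m 3 * (genB 3 m 3 * genA 3 m 3 * genB 3 m 3) *
      (genA 3 m 3)⁻¹) := by
  rw [R7, eval_append, eval_pw, eval_cons, eval_cons _ _ _ Lb [LA], eval_cons _ _ _ Lb [Lb, La],
    eval_cons _ _ _ Lb [La], eval_La, eval_LA, eval_Lb]
  have hz : ∀ g : E 3 m 3, genB 3 m 3 ^ 3 * g = g * genB 3 m 3 ^ 3 := z_comm 3 m 3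
  have ha : genA 3 m 3 ^ 3 = 1 := genA_pow 3 m 3
  have hab : (genA 3 m 3 * genB 3 m 3) ^ m = genB 3 m 3 ^ 3 := genAB_pow 3 m 3
  generalize genA 3 m 3 = a at *
  generalize genB 3 m 3 = b at *
  have hb3 : b ^ 3 = b * b * b := by simp [pow_succ]
  have h1 : b * (b * a⁻¹) = b ^ 3 * (a * b)⁻¹ := by rw [hb3]; group
  have h2 : Commute (b ^ 3) (a * b)⁻¹ := hz _
  rw [h1, h2.mul_pow]
  have h3 : ((a * b)⁻¹) ^ (m - 3) = (a * b) ^ 3 * (b ^ 3)⁻¹ := by
    have : (a * b) ^ (m - 3) * (a * b) ^ 3 = b ^ 3 := by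
      rw [← pow_add, ← hab]; congr 1; omega
    rw [inv_pow, inv_eq_iff_eq_inv, mul_inv_rev, inv_inv, eq_comm, mul_inv_eq_iff_eq_mul, this]
  rw [h3, mul_assoc, mul_assoc]
  congr 1
  have h4 : a⁻¹ = a * a := by
    rw [inv_eq_iff_mul_eq_one, ← ha]; simp [pow_succ, mul_assoc]
  have h5 : (a * b) ^ 3 = a * b * (a * b) * (a * b) := by simp [pow_succ]
  rw [h5, hb3]
  conv_rhs => rw [h4]
  group

theorem eval_R7_pow {m : ℕ} (hm : 4 ≤ m) (K : ℕ) : eval 3 m 3 (pw (R7 m) K) =
    (genB 3 m 3 ^ 3) ^ ((m - 3) * K) * (genA 3 m 3 * (genB 3 m 3 * genA 3 m 3 * genB 3 m 3) ^ K *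
      (genA 3 m 3)⁻¹) := by
  rw [eval_pw, eval_R7 hm]
  have hz : ∀ g : E 3 m 3, Commute (genB 3 m 3 ^ 3) g := z_comm 3 m 3
  rw [((hz _).pow_left _).mul_pow, conj_pow, ← pow_mul]

/-- The first pair of words has the right values. -/
theorem eval_case1 {m : ℕ} (hm : 4 ≤ m) (K : ℕ) :
    eval 3 m 3 ((pw [Lb, Lb, La] K ++ pw [Lb] (3 * ((m - 3) * K) + 1)) ++ [LA]) =
      eval 3 m 3 ([Lb, LA] ++ pw (R7 m) K) := by
  rw [eval_append, eval_append, eval_pw, eval_pw, eval_append, eval_R7_pow hm, eval_cons _ _ _ Lb,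
    eval_cons _ _ _ Lb [LA], eval_cons _ _ _ Lb [La], eval_La, eval_LA, eval_Lb]
  have hz : ∀ g : E 3 m 3, Commute (genB 3 m 3 ^ 3) g := z_comm 3 m 3
  generalize genA 3 m 3 = a at *
  generalize genB 3 m 3 = b at *
  have h1 : (b * (b * a)) ^ K * b = b * (b * a * b) ^ K := by
    have : SemiconjBy b (b * a * b) (b * (b * a)) := by
      unfold SemiconjBy; group
    exact (this.pow_right K).symm
  have h2 : Commute (b ^ 3) a := hz a
  have h2' := h2.pow_left ((m - 3) * K)
  have h3 : Commute ((b ^ 3) ^ ((m - 3) * K)) ((b * a * b) ^ K) := (hz _).pow_left _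
  rw [pow_succ', pow_mul]
  calc (b * (b * a)) ^ K * (b * (b ^ 3) ^ ((m - 3) * K)) * a⁻¹
      = ((b * (b * a)) ^ K * b) * (b ^ 3) ^ ((m - 3) * K) * a⁻¹ := by group
    _ = b * (a⁻¹ * a) * ((b * a * b) ^ K * (b ^ 3) ^ ((m - 3) * K)) * a⁻¹ := by rw [h1]; group
    _ = b * a⁻¹ * (a * (b ^ 3) ^ ((m - 3) * K)) * (b * a * b) ^ K * a⁻¹ := by
      rw [← h3.eq]; group
    _ = b * a⁻¹ * ((b ^ 3) ^ ((m - 3) * K) * (a * (b * a * b) ^ K * a⁻¹)) := by
      rw [← h2'.eq]; group

/-- The second pair of words has the right values. -/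
theorem eval_case2 {m : ℕ} (hm : 4 ≤ m) (K : ℕ) :
    eval 3 m 3 ((pw [Lb] (3 * ((m - 3) * K)) ++ [Lb, Lb, LA, Lb] ++ pw [La, Lb, Lb] K) ++
      [LB, LA]) = eval 3 m 3 ([Lb, Lb, La] ++ pw (R7 m) K) := by
  rw [eval_append, eval_append, eval_append, eval_append, eval_pw, eval_pw, eval_R7_pow hm]
  simp only [eval_cons _ _ _ _ [_, _, _], eval_cons _ _ _ _ [_, _], eval_cons _ _ _ _ [_],
    eval_La, eval_LA, eval_Lb, eval_LB]
  have hz : ∀ g : E 3 m 3, Commute (genB 3 m 3 ^ 3) g := z_comm 3 m 3
  have ha : genA 3 m 3 ^ 3 = 1 := genA_pow 3 m 3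
  generalize genA 3 m 3 = a at *
  generalize genB 3 m 3 = b at *
  have h1 : b * (a * (b * b)) ^ K * b⁻¹ = (b * a * b) ^ K := by
    rw [← conj_pow]; congr 1; group
  have h4 : a⁻¹ = a * a := by
    rw [inv_eq_iff_mul_eq_one, ← ha]; simp [pow_succ, mul_assoc]
  have h3 : Commute ((b ^ 3) ^ ((m - 3) * K)) (b * (b * a)) := (hz _).pow_left _
  rw [pow_mul]
  calc (b ^ 3) ^ ((m - 3) * K) * (b * (b * (a⁻¹ * b))) * (a * (b * b)) ^ K * (b⁻¹ * a⁻¹)
      = (b ^ 3) ^ ((m - 3) * K) * (b * (b * a⁻¹)) * (b * (a * (b * b)) ^ K * b⁻¹) * a⁻¹ := by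
        group
    _ = (b ^ 3) ^ ((m - 3) * K) * (b * (b * a)) * a * (b * a * b) ^ K * a⁻¹ := by
        rw [h1]; congr 2; rw [h4]; group
    _ = b * (b * a) * ((b ^ 3) ^ ((m - 3) * K) * (a * (b * a * b) ^ K * a⁻¹)) := by
      rw [h3.eq]; group

/-! ### Paths in the automaton -/

/-- Paths of tight letters with the increment of `D`. -/
inductive Path (m : ℕ) : St7 → List Letter → St7 → ℤ → Prop
  | nil (s : St7) : Path m s [] s 0
  | cons {s s' s'' : St7} {y : Letter} {w : List Letter} {k : ℤ} (h : next7 m s y = some s')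
      (hp : Path m s' w s'' k) : Path m s (y :: w) s'' (d7 m s y + k)

variable {m : ℕ}

theorem Path.append {s s' s'' : St7} {u v : List Letter} {k k' : ℤ} (h : Path m s u s' k)
    (h' : Path m s' v s'' k') : Path m s (u ++ v) s'' (k + k') := by
  induction h with
  | nil s => simpa using h'
  | cons hn hp ih => rw [add_assoc]; exact Path.cons hn (ih h')

theorem Path.split {s s'' : St7} {u v : List Letter} {k : ℤ} (h : Path m s (u ++ v) s'' k) :
    ∃ s' k1 k2, Path m s u s' k1 ∧ Path m s' v s'' k2 ∧ k = k1 + k2 := by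
  induction u generalizing s k with
  | nil => exact ⟨s, 0, k, .nil s, h, by ring⟩
  | cons y u ih =>
    cases h with
    | cons hn hp =>
      obtain ⟨s', k1, k2, h1, h2, rfl⟩ := ih hp
      exact ⟨s', _, k2, .cons hn h1, h2, by ring⟩

theorem Path.unique {s s1 s2 : St7} {w : List Letter} {k1 k2 : ℤ} (h1 : Path m s w s1 k1)
    (h2 : Path m s w s2 k2) : s1 = s2 ∧ k1 = k2 := by
  induction h1 generalizing s2 k2 with
  | nil s => cases h2; exact ⟨rfl, rfl⟩
  | cons hn hp ih =>
    cases h2 with
    | cons hn' hp' =>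
      rw [hn] at hn'
      cases hn'
      obtain ⟨h3, h4⟩ := ih hp'
      exact ⟨h3, by rw [h4]⟩

theorem ok_next {s s' : St7} {y : Letter} (hs : s.ok m) (h : next7 m s y = some s') (hm : 4 ≤ m) :
    s'.ok m := by
  obtain ⟨i, c⟩ := y
  fin_cases i <;> cases c <;> cases s <;> simp [next7] at h <;>
    first
      | (subst h; simp_all [St7.ok]; done)
      | (subst h; simp_all [St7.ok]; omega)
      | (obtain ⟨h1, rfl⟩ := h; simp only [St7.ok] at hs ⊢; omega)

theorem Path.ok {s s' : St7} {w : List Letter} {k : ℤ} (h : Path m s w s' k) (hs : s.ok m)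
    (hm : 4 ≤ m) : s'.ok m := by
  induction h with
  | nil s => exact hs
  | cons hn hp ih => exact ih (ok_next hs hn hm)

/-! ### The three parts of the automaton -/

/-- The right cycle. -/
def isR : St7 → Bool
  | .rho _ => true
  | .sig _ => true
  | .om _ => true
  | _ => false

/-- The states after an exit. -/
def isK : St7 → Bool
  | .kap _ => true
  | .sig' _ => true
  | .om' _ => true
  | _ => false

/-- The left cycle. -/
def isL : St7 → Bool
  | .eta => true
  | .mu => true
  | .xi => true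
  | _ => false

theorem isK_next {s s' : St7} {y : Letter} (h : next7 m s y = some s') (hs : isK s = true) :
    isK s' = true ∧ y ≠ La := by
  obtain ⟨i, c⟩ := y
  fin_cases i <;> cases c <;> cases s <;> simp [next7, isK] at h hs <;>
    first
      | (subst h; simp [isK])
      | (obtain ⟨h1, rfl⟩ := h; simp [isK])

theorem isR_next {s s' : St7} {y : Letter} (h : next7 m s y = some s') (hs : isR s = true) :
    isR s' = true ∨ isK s' = true := by
  obtain ⟨i, c⟩ := y
  fin_cases i <;> cases c <;> cases s <;> simp [next7, isR] at h hs <;>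
    first
      | (subst h; simp [isR, isK])
      | (obtain ⟨h1, rfl⟩ := h; simp [isR, isK])

theorem isK_path {s s' : St7} {w : List Letter} {k : ℤ} (h : Path m s w s' k)
    (hs : isK s = true) : isK s' = true ∧ La ∉ w := by
  induction h with
  | nil s => exact ⟨hs, by simp⟩
  | cons hn hp ih =>
    obtain ⟨h1, h2⟩ := isK_next hn hs
    obtain ⟨h3, h4⟩ := ih h1
    exact ⟨h3, by simp [h4, Ne.symm h2]⟩

theorem isR_path {s s' : St7} {w : List Letter} {k : ℤ} (h : Path m s w s' k)
    (hs : isR s = true) : isR s' = true ∨ isK s' = true := by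
  induction h with
  | nil s => exact Or.inl hs
  | cons hn hp ih =>
    rcases isR_next hn hs with h1 | h1
    · exact ih h1
    · exact Or.inr (isK_path hp h1).1

theorem isL_iff (s : St7) : isL s = true ↔ ¬ (isR s = true ∨ isK s = true) := by
  cases s <;> simp [isL, isR, isK]

theorem isRK {s : St7} (h : isL s ≠ true) : isR s = true ∨ isK s = true := by
  by_contra h1
  exact h ((isL_iff s).2 h1)

theorem isRK_path {s s' : St7} {w : List Letter} {k : ℤ} (h : Path m s w s' k)
    (hs : isR s = true ∨ isK s = true) : isR s' = true ∨ isK s' = true := by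
  rcases hs with hs | hs
  · exact isR_path h hs
  · exact Or.inr (isK_path h hs).1

/-- A path which ends on the left was on the left. -/
theorem isL_of_path {s s' : St7} {w : List Letter} {k : ℤ} (h : Path m s w s' k)
    (hs : isL s' = true) : isL s = true := by
  by_contra h1
  exact (isL_iff s').1 hs (isRK_path h (isRK h1))

theorem left_letters {s s' : St7} {w : List Letter} {k : ℤ} (h : Path m s w s' k)
    (hs : isL s' = true) : ∀ y ∈ w, y = La ∨ y = Lb := by
  induction h with
  | nil s => simp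
  | @cons s s' s'' y w k hn hp ih =>
    have h1 := isL_of_path hp hs
    intro y' hy'
    rcases List.mem_cons.1 hy' with rfl | hy'
    · obtain ⟨i, c⟩ := y'
      fin_cases i <;> cases c <;> cases s <;> simp [next7] at hn ⊢ <;>
        first
          | (subst hn; simp [isL] at h1)
          | (obtain ⟨h2, rfl⟩ := hn; simp [isL] at h1)
    · exact ih hs y' hy'

/-! ### Heights -/

/-- The position in the right cycle. -/
def ht : St7 → ℤ
  | .rho j => 3 * j
  | .sig j => 3 * j + 1
  | .om j => 3 * j + 2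
  | _ => 0

/-- The letter without a loop. -/
def nl (m : ℕ) : St7 → Letter
  | .om j => if j + 3 = m then La else LA
  | _ => Lb

theorem ht_next {s s' : St7} {y : Letter} (hs : s.ok m) (h : next7 m s y = some s')
    (hR : isR s = true) (hR' : isR s' = true) :
    (y = nl m s ∧ ht s' - ht s + (m - 2) * d7 m s y = 1) ∨
      ht s' - ht s + (m - 2) * d7 m s y < 1 := by
  obtain ⟨i, c⟩ := y
  fin_cases i <;> cases c <;> cases s <;> simp [next7, isR] at h hR <;>
    first
      | (subst h; simp [ht, nl, d7, isR] at hR' ⊢)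
      | (obtain ⟨h1, rfl⟩ := h; left; simp [ht, nl, d7, h1] at hR' ⊢; subst h1; push_cast; ring)
      | (obtain ⟨h1, rfl⟩ := h; left; simp [ht, nl, d7]; constructor; omega; ring)
      | (obtain ⟨h1, rfl⟩ := h; simp [isR] at hR')

theorem ht_path {s s' : St7} {w : List Letter} {k : ℤ} (h : Path m s w s' k) (hs : s.ok m)
    (hm : 4 ≤ m) (hR : isR s = true) (hR' : isR s' = true) :
    ht s' - ht s + (m - 2) * k ≤ w.length := by
  induction h with
  | nil s => simp
  | @cons s s' s'' y w k hn hp ih =>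
    have h1 : isR s' = true := by
      rcases isR_next hn hR with h1 | h1
      · exact h1
      · have := (isK_path hp h1).1
        cases s'' <;> simp [isR, isK] at hR' this
    have h2 := ih (ok_next hs hn hm) h1 hR'
    have h3 : ht s' - ht s + (m - 2) * d7 m s y ≤ 1 := by
      rcases ht_next hs hn hR h1 with ⟨-, h⟩ | h
      · exact h.le
      · exact h.le
    rw [List.length_cons]
    push_cast
    linarith

/-- Paths of minimal length on the right are determined by their length. -/
theorem path_unique {s s1 s2 : St7} {w1 w2 : List Letter} {k1 k2 : ℤ} (h1 : Path m s w1 s1 k1)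
    (h2 : Path m s w2 s2 k2) (hs : s.ok m) (hm : 4 ≤ m) (hR : isR s = true)
    (hR1 : isR s1 = true) (hR2 : isR s2 = true) (hl : w1.length = w2.length)
    (he1 : ht s1 - ht s + (m - 2) * k1 = w1.length)
    (he2 : ht s2 - ht s + (m - 2) * k2 = w2.length) : w1 = w2 := by
  induction h1 generalizing w2 k2 with
  | nil s => exact (List.length_eq_zero_iff.1 hl.symm).symm
  | @cons s s' s'' y w k hn hp ih =>
    cases h2 with
    | nil => simp at hl
    | @cons _ t' _ y' w' k' hn' hp' =>
      have a1 : isR s' = true := by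
        rcases isR_next hn hR with h1 | h1
        · exact h1
        · have := (isK_path hp h1).1
          cases s'' <;> simp [isR, isK] at hR1 this
      have a2 : isR t' = true := by
        rcases isR_next hn' hR with h1 | h1
        · exact h1
        · have := (isK_path hp' h1).1
          cases s2 <;> simp [isR, isK] at hR2 this
      have b1 := ht_path hp (ok_next hs hn hm) hm a1 hR1
      have b2 := ht_path hp' (ok_next hs hn' hm) hm a2 hR2
      rw [List.length_cons] at he1 he2
      push_cast at he1 he2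
      rcases ht_next hs hn hR a1 with ⟨c1, d1⟩ | d1
      · rcases ht_next hs hn' hR a2 with ⟨c2, d2⟩ | d2
        · have hyy : y = y' := by rw [c1, c2]
          subst hyy
          rw [hn] at hn'
          cases hn'
          congr 1
          refine ih hp' (ok_next hs hn hm) a1 hR1 (by simpa using hl) (by linarith) (by linarith)
        · exfalso; linarith
      · exfalso; linarith

/-! ### The right period -/

theorem path_bbA (j i : ℕ) (h : j + i + 3 ≤ m) :
    Path m (.rho j) (pw [Lb, Lb, LA] i) (.rho (j + i)) 0 := by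
  induction i generalizing j with
  | zero => exact .nil _
  | succ i ih =>
    rw [pw_succ]
    have h1 : Path m (.rho j) [Lb, Lb, LA] (.rho (j + 1)) 0 := by
      refine .cons (s' := .sig j) (k := 0) (by simp [next7]) (.cons (s' := .om j) (k := 0)
        (by simp [next7]) (.cons (s' := .rho (j + 1)) (k := 0) ?_ (.nil _)))
      simp only [next7]
      rw [if_pos (by omega)]
    have h2 := h1.append (ih (j + 1) (by omega))
    rw [show j + (i + 1) = j + 1 + i by ring]
    exact h2

theorem path_R7 (hm : 4 ≤ m) : Path m (.rho 0) (R7 m) (.rho 0) 3 := by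
  have h1 := path_bbA (m := m) 0 (m - 3) (by omega)
  have h2 : Path m (.rho (0 + (m - 3))) [Lb, Lb, La] (.rho 0) 3 := by
    have h3 : Path m (.om (0 + (m - 3))) [La] (.rho 0) 3 := by
      have h4 : d7 m (.om (0 + (m - 3))) La = 3 := by
        simp only [d7]; rw [if_pos (by omega)]
      have := Path.cons (m := m) (s := .om (0 + (m - 3))) (y := La) (s' := .rho 0)
        (by simp only [next7]; rw [if_pos (by omega)]) (.nil _)
      rwa [h4] at this
    exact .cons (s' := .sig (0 + (m - 3))) (k := 3) (by simp [next7])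
      (.cons (s' := .om (0 + (m - 3))) (k := 3) (by simp [next7]) h3)
  have := h1.append h2
  rw [R7]
  simpa using this

theorem path_R7_pow (hm : 4 ≤ m) (K : ℕ) : Path m (.rho 0) (pw (R7 m) K) (.rho 0) (3 * K) := by
  induction K with
  | zero => exact .nil _
  | succ K ih =>
    rw [pw_succ]
    have := (path_R7 hm).append ih
    push_cast
    rw [show (3 : ℤ) * (K + 1) = 3 + 3 * K by ring]
    exact this

theorem path_w2 (hm : 4 ≤ m) (K : ℕ) :
    Path m (.rho (m - 3)) ([Lb, Lb, La] ++ pw (R7 m) K) (.rho 0) (3 * K + 3) := by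
  have h2 : Path m (.rho (m - 3)) [Lb, Lb, La] (.rho 0) 3 := by
    have h3 : Path m (.om (m - 3)) [La] (.rho 0) 3 := by
      have h4 : d7 m (.om (m - 3)) La = 3 := by
        simp only [d7]; rw [if_pos (by omega)]
      have := Path.cons (m := m) (s := .om (m - 3)) (y := La) (s' := .rho 0)
        (by simp only [next7]; rw [if_pos (by omega)]) (.nil _)
      rwa [h4] at this
    exact .cons (s' := .sig (m - 3)) (k := 3) (by simp [next7])
      (.cons (s' := .om (m - 3)) (k := 3) (by simp [next7]) h3)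
  rw [add_comm]
  exact h2.append (path_R7_pow hm K)

theorem not_K_R7 {s s' : St7} {k : ℤ} {u : List Letter} (hs : isK s = true)
    (h : Path m s (u ++ [Lb, Lb, La]) s' k) : False := by
  have := (isK_path h hs).2
  simp at this

theorem next_b {s s' : St7} (h : next7 m s Lb = some s') (hR : isR s = true) :
    (∀ j, s = .rho j → s' = .sig j) ∧ (∀ j, s = .sig j → s' = .om j) ∧
      (∀ j, s = .om j → s' = .rho j) := by
  cases s <;> simp [next7, isR] at h hR <;> subst h <;> simp

/-- From the right cycle the right period is tight only at `rho 0`. -/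
theorem only_R7 (hm : 4 ≤ m) {s s' : St7} {k : ℤ} (hs : s.ok m)
    (hR : isR s = true ∨ isK s = true) (h : Path m s (R7 m) s' k) : s = .rho 0 := by
  rcases hR with hR | hK
  swap
  · exact (not_K_R7 hK h).elim
  have key : ∀ (i j : ℕ) (s' : St7) (k : ℤ), Path m (.rho j) (pw [Lb, Lb, LA] i) s' k →
      s' = .rho (j + i) := by
    intro i
    induction i with
    | zero =>
      intro j s' k h
      cases h
      rfl
    | succ i ih =>
      intro j s' k h
      rw [pw_succ] at h
      cases h with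
      | cons h1 h =>
        simp [next7] at h1; subst h1
        cases h with
        | cons h1 h =>
          simp [next7] at h1; subst h1
          cases h with
          | cons h1 h =>
            simp [next7] at h1
            obtain ⟨-, rfl⟩ := h1
            rw [ih _ _ _ h]
            congr 1; ring
  obtain ⟨d, rfl⟩ := Nat.exists_eq_add_of_le hm
  cases s with
  | rho j =>
    obtain ⟨s1, k1, k2, h1, h2, -⟩ := h.split
    have h3 := key _ _ _ _ h1
    have h4 := h1.ok hs hm
    rw [h3] at h4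
    simp only [St7.ok] at h4
    have : j = 0 := by omega
    rw [this]
  | sig j =>
    exfalso
    rw [R7, show 4 + d - 3 = d + 1 by omega, pw_succ] at h
    cases h with
    | cons h1 h =>
      simp [next7] at h1; subst h1
      cases h with
      | cons h1 h =>
        simp [next7] at h1; subst h1
        cases h with
        | cons h1 h => simp [next7] at h1
  | om j =>
    exfalso
    rw [R7, show 4 + d - 3 = d + 1 by omega, pw_succ] at h
    cases h with
    | cons h1 h =>
      simp [next7] at h1; subst h1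
      cases h with
      | cons h1 h =>
        simp [next7] at h1; subst h1
        cases h with
        | cons h1 h =>
          simp [next7] at h1
          obtain ⟨-, rfl⟩ := h1
          exact not_K_R7 (by simp [isK]) h
  | _ => simp [isR] at hR

/-- The word `b a b b a` is not tight on the right. -/
theorem not_babba (hm : 4 ≤ m) {s s' : St7} {k : ℤ} (hR : isR s = true ∨ isK s = true)
    (h : Path m s [Lb, La, Lb, Lb, La] s' k) : False := by
  rcases hR with hR | hK
  swap
  · have := (isK_path h hK).2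
    simp at this
  cases h with
  | cons h1 h =>
    cases h with
    | cons h2 h =>
      cases h with
      | cons h3 h =>
        cases h with
        | cons h4 h =>
          cases h with
          | cons h5 h =>
            cases s <;> simp [isR] at hR <;> simp [next7] at h1 <;> subst h1 <;>
              simp [next7] at h2
            obtain ⟨-, rfl⟩ := h2
            simp [next7] at h3; subst h3
            simp [next7] at h4; subst h4
            simp [next7] at h5
            omega

/-! ### The left cycle -/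

theorem path_bba (K : ℕ) : Path m .eta (pw [Lb, Lb, La] K) .eta (3 * K) := by
  induction K with
  | zero => exact .nil _
  | succ K ih =>
    rw [pw_succ]
    have h1 : Path m .eta [Lb, Lb, La] .eta 3 :=
      .cons (s' := .mu) (k := 3) (by simp [next7]) (.cons (s' := .xi) (k := 3) (by simp [next7])
        (.cons (s' := .eta) (k := 0) (by simp [next7]) (.nil _)))
    have := h1.append ih
    push_cast
    rw [show (3 : ℤ) * (K + 1) = 3 + 3 * K by ring]
    exact this

theorem path_b3 (i : ℕ) : Path m .eta (pw [Lb] (3 * i)) .eta 0 := by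
  induction i with
  | zero => exact .nil _
  | succ i ih =>
    rw [show 3 * (i + 1) = 1 + (1 + (1 + 3 * i)) by ring, pw_add, pw_add, pw_add]
    have h1 : Path m .eta [Lb, Lb, Lb] .eta 0 :=
      .cons (s' := .mu) (k := 0) (by simp [next7]) (.cons (s' := .xi) (k := 0) (by simp [next7])
        (.cons (s' := .eta) (k := 0) (by simp [next7]) (.nil _)))
    exact h1.append ih

theorem path_w1 (K i : ℕ) :
    Path m .eta (pw [Lb, Lb, La] K ++ pw [Lb] (3 * i + 1)) .mu (3 * K) := by
  rw [pw_add]
  have h1 : Path m .eta (pw [Lb] 1) .mu 0 := .cons (s' := .mu) (k := 0) (by simp [next7]) (.nil _)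
  simpa using (path_bba K).append ((path_b3 i).append h1)

theorem path_babba : Path m .mu [Lb, La, Lb, Lb, La] .eta 6 :=
  .cons (s' := .xi) (k := 6) (by simp [next7]) (.cons (s' := .eta) (k := 3) (by simp [next7])
    (.cons (s' := .mu) (k := 3) (by simp [next7]) (.cons (s' := .xi) (k := 3) (by simp [next7])
      (.cons (s' := .eta) (k := 0) (by simp [next7]) (.nil _)))))

theorem d7_nonneg (s : St7) (y : Letter) : 0 ≤ d7 m s y := by
  obtain ⟨i, c⟩ := y
  fin_cases i <;> cases c <;> cases s <;> simp [d7]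
  split_ifs <;> simp

theorem path_nonneg {s s' : St7} {w : List Letter} {k : ℤ} (h : Path m s w s' k) : 0 ≤ k := by
  induction h with
  | nil s => exact le_rfl
  | cons hn hp ih => exact add_nonneg (d7_nonneg _ _) ih

/-- Without increment of `D` a path on the left consists of letters `b`. -/
theorem left_b {s s' : St7} {w : List Letter} {k : ℤ} (h : Path m s w s' k) (hk : k = 0)
    (hs : isL s' = true) : w = pw [Lb] w.length := by
  induction h with
  | nil s => rfl
  | @cons s s' s'' y w k hn hp ih =>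
    have h1 := isL_of_path hp hs
    have h2 := path_nonneg hp
    have h3 := d7_nonneg (m := m) s y
    have h4 := ih (by linarith) hs
    rw [List.length_cons, pw_succ, ← h4]
    have h5 : d7 m s y = 0 := by linarith
    have hy : y = Lb := by
      obtain ⟨i, c⟩ := y
      fin_cases i <;> cases c <;> cases s <;> simp [next7] at hn <;>
        first
          | (simp [d7] at h5; done)
          | (subst hn; simp [isL] at h1; done)
          | (obtain ⟨h2, rfl⟩ := hn; simp [isL] at h1; done)
          | rfl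
    rw [hy]; rfl

theorem lex_cons_self {lt : Letter → Letter → Prop} [IsStrictTotalOrder Letter lt] {y : Letter}
    {u v : List Letter} (h : List.Lex lt (y :: u) (y :: v)) : List.Lex lt u v := by
  cases h with
  | rel h => exact (irrefl_of lt _ h).elim
  | cons h => exact h

theorem le_cons_self {lt : Letter → Letter → Prop} [IsStrictTotalOrder Letter lt] {y : Letter}
    {u v : List Letter} (h : y :: u = y :: v ∨ List.Lex lt (y :: u) (y :: v)) :
    u = v ∨ List.Lex lt u v := by
  rcases h with h | h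
  · left; simpa using h
  · right; exact lex_cons_self h

theorem le_cons {lt : Letter → Letter → Prop} [IsStrictTotalOrder Letter lt] {y y' : Letter}
    {u v : List Letter} (h : y :: u = y' :: v ∨ List.Lex lt (y :: u) (y' :: v)) :
    (y = y' ∧ (u = v ∨ List.Lex lt u v)) ∨ lt y y' := by
  rcases h with h | h
  · left
    simp only [List.cons.injEq] at h
    exact ⟨h.1, Or.inl h.2⟩
  · cases h with
    | rel h => exact Or.inr h
    | cons h => exact Or.inl ⟨rfl, Or.inr h⟩

/-- If `a < b` the letters `a` come as early as possible. -/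
theorem left_lex (lt : Letter → Letter → Prop) [IsStrictTotalOrder Letter lt] (hab : lt La Lb)
    (n K : ℕ) {u : List Letter} {s' : St7} {k : ℤ} (h : Path m .eta u s' k) (hk : k = 3 * K)
    (hs : isL s' = true) (hl : u.length = (pw [Lb, Lb, La] K ++ pw [Lb] n).length)
    (hlex : u = pw [Lb, Lb, La] K ++ pw [Lb] n ∨ List.Lex lt u (pw [Lb, Lb, La] K ++ pw [Lb] n)) :
    u = pw [Lb, Lb, La] K ++ pw [Lb] n := by
  induction K generalizing u k with
  | zero =>
    have h1 := left_b h (by simp [hk]) hs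
    rw [pw_zero, List.nil_append] at hl ⊢
    rw [h1, hl, length_pw]
    simp
  | succ K ih =>
    rw [pw_succ, List.append_assoc] at hl hlex ⊢
    set W := pw [Lb, Lb, La] K ++ pw [Lb] n with hW
    cases h with
    | nil => simp at hl
    | @cons _ s1 _ y1 u k1 h1 h =>
      have hL1 := isL_of_path h hs
      cases h with
      | nil => simp at hl
      | @cons _ s2 _ y2 u k2 h2 h =>
        have hL2 := isL_of_path h hs
        cases h with
        | nil => simp at hl
        | @cons _ s3 _ y3 u k3 h3 h =>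
          have hL3 := isL_of_path h hs
          have e1 : y1 = Lb ∧ s1 = .mu := by
            obtain ⟨i, c⟩ := y1
            fin_cases i <;> cases c <;> simp [next7] at h1
            exact ⟨rfl, h1.symm⟩
          obtain ⟨rfl, rfl⟩ := e1
          have e2 : y2 = Lb ∧ s2 = .xi := by
            obtain ⟨i, c⟩ := y2
            fin_cases i <;> cases c <;> simp [next7] at h2
            · subst h2; simp [isL] at hL2
            · exact ⟨rfl, h2.symm⟩
          obtain ⟨rfl, rfl⟩ := e2
          simp only [List.cons_append, List.nil_append] at hl hlex ⊢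
          have h4 := le_cons_self (le_cons_self hlex)
          have e3 : (y3 = La ∨ y3 = Lb) ∧ s3 = .eta := by
            obtain ⟨i, c⟩ := y3
            fin_cases i <;> cases c <;> simp [next7] at h3 <;> exact ⟨by simp, h3.symm⟩
          obtain ⟨e3, rfl⟩ := e3
          have hy3 : y3 = La := by
            rcases e3 with e3 | e3
            · exact e3
            · rcases le_cons h4 with ⟨h5, -⟩ | h5
              · exact h5
              · rw [e3] at h5
                exact (asymm_of lt hab h5).elim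
          subst hy3
          have h5 := le_cons_self h4
          have h6 := ih h (by
            simp [d7] at hk
            linarith) (by simpa using hl) h5
          rw [← h6]

/-- If no letter of `u` is smaller than `b`, `u` starts with the letters `b`. -/
theorem b_first (lt : Letter → Letter → Prop) [IsStrictTotalOrder Letter lt] (n : ℕ)
    {u W : List Letter} (hb : ∀ y ∈ u, ¬ lt y Lb) (hl : u.length = (pw [Lb] n ++ W).length)
    (hlex : u = pw [Lb] n ++ W ∨ List.Lex lt u (pw [Lb] n ++ W)) : ∃ u', u = pw [Lb] n ++ u' := by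
  induction n generalizing u with
  | zero => exact ⟨u, rfl⟩
  | succ n ih =>
    rw [pw_succ, List.append_assoc] at hl hlex
    cases u with
    | nil => simp at hl
    | cons y u =>
      have h1 := hb y (by simp)
      rcases le_cons hlex with ⟨h2, h3⟩ | h2
      · subst h2
        obtain ⟨u', rfl⟩ := ih (fun y hy => hb y (by simp [hy])) (by simpa using hl) h3
        exact ⟨u', by rw [pw_succ, List.append_assoc]; rfl⟩
      · exact (h1 h2).elim

/-! ### Geometry -/

theorem map_add_int (F : ℝ ≃o ℝ) (h : ∀ x, F (x + π) = F x + π) (x : ℝ) (k : ℤ) :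
    F (x + k * π) = F x + k * π := by
  induction k using Int.induction_on with
  | zero => simp
  | succ i ih =>
    rw [show x + ((i : ℤ) + 1 : ℤ) * π = (x + (i : ℤ) * π) + π by push_cast; ring, h, ih]
    push_cast; ring
  | pred i ih =>
    have h1 := h (x + ((-(i : ℤ) - 1 : ℤ) : ℝ) * π)
    rw [show x + ((-(i : ℤ) - 1 : ℤ) : ℝ) * π + π = x + ((-(i : ℤ) : ℤ) : ℝ) * π by
      push_cast; ring, ih] at h1
    push_cast at h1 ⊢
    linarith

theorem symm_add_int (F : ℝ ≃o ℝ) (h : ∀ x, F (x + π) = F x + π) (x : ℝ) (k : ℤ) :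
    F.symm (x + k * π) = F.symm x + k * π := by
  rw [OrderIso.symm_apply_eq, map_add_int F h, OrderIso.apply_symm_apply]

theorem step_add_int {l n : ℕ} (C : CircleAct l m n) (x : ℝ) (k : ℤ) (y : Letter) :
    C.step (x + k * π) y = C.step x y + k * π := by
  obtain ⟨i, c⟩ := y
  fin_cases i <;> cases c
  · exact map_add_int C.f C.f_add x k
  · exact symm_add_int C.f C.f_add x k
  · exact map_add_int C.g C.g_add x k
  · exact symm_add_int C.g C.g_add x k

theorem run_add_int {l n : ℕ} (C : CircleAct l m n) (x : ℝ) (k : ℤ) (w : List Letter) :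
    C.run (x + k * π) w = C.run x w + k * π := by
  induction w generalizing x with
  | nil => rfl
  | cons y w ih =>
    change C.run (C.step (x + k * π) y) w = C.run (C.step x y) w + k * π
    rw [step_add_int, ih]

theorem pot_b {l n : ℕ} (C : CircleAct l m n) (e : ℝ → ℤ) (x : ℝ) (k : ℕ) :
    C.pot e x (pw [Lb] k) = k := by
  induction k generalizing x with
  | zero => rfl
  | succ k ih =>
    rw [pw_succ]
    change C.inc e x Lb + C.pot e (C.step x Lb) (pw [Lb] k) = _
    rw [ih]
    change (1 : ℤ) + k = _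
    push_cast; ring

/-- The data of `exists_F7`. -/
structure Geo (C : CircleAct 3 m 3) (e e₁ e₂ : ℝ → ℤ) (pt : St7 → ℝ) : Prop where
  hm : 4 ≤ m
  pot : C.IsPot e
  bd : ∀ x, |e x| ≤ 1
  pot1 : C.IsPot e₁
  pot2 : C.IsPot e₂
  tight : ∀ s : St7, s.ok m → ∀ y, C.inc e (pt s) y = 1 ↔ (next7 m s y).isSome = true
  next : ∀ s : St7, s.ok m → ∀ y s', next7 m s y = some s' →
    (∃ k : ℤ, C.step (pt s) y = pt s' + k * π) ∧
      C.inc e₁ (pt s) y - C.inc e₂ (pt s) y = d7 m s y

variable {C : CircleAct 3 m 3} {e e₁ e₂ : ℝ → ℤ} {pt : St7 → ℝ}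

theorem Geo.tight_iff (G : Geo C e e₁ e₂ pt) {s : St7} (hs : s.ok m) (w : List Letter) :
    C.Tight e (pt s) w ↔ ∃ s' k, Path m s w s' k := by
  induction w generalizing s with
  | nil => exact ⟨fun _ => ⟨s, 0, .nil s⟩, fun _ => trivial⟩
  | cons y w ih =>
    have h1 := G.tight s hs y
    constructor
    · rintro ⟨h2, h3⟩
      obtain ⟨s', hs'⟩ := Option.isSome_iff_exists.1 (h1.1 h2)
      obtain ⟨⟨k, hk⟩, -⟩ := G.next s hs y s' hs'
      rw [hk, G.pot.tight_add_int, ih (ok_next hs hs' G.hm)] at h3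
      obtain ⟨s'', k', h4⟩ := h3
      exact ⟨s'', _, .cons hs' h4⟩
    · rintro ⟨s'', k', h4⟩
      cases h4 with
      | @cons _ s' _ _ _ k'' hn hp =>
        obtain ⟨⟨k, hk⟩, -⟩ := G.next s hs y s' hn
        refine ⟨h1.2 (by rw [hn]; rfl), ?_⟩
        rw [hk, G.pot.tight_add_int, ih (ok_next hs hn G.hm)]
        exact ⟨_, _, hp⟩

theorem Geo.run (G : Geo C e e₁ e₂ pt) {s s' : St7} {w : List Letter} {k : ℤ} (hs : s.ok m)
    (h : Path m s w s' k) : ∃ j : ℤ, C.run (pt s) w = pt s' + j * π := by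
  induction h with
  | nil s => exact ⟨0, by simp [CircleAct.run]⟩
  | @cons s s' s'' y w k hn hp ih =>
    obtain ⟨⟨k, hk⟩, -⟩ := G.next s hs y s' hn
    obtain ⟨j, hj⟩ := ih (ok_next hs hn G.hm)
    refine ⟨k + j, ?_⟩
    change C.run (C.step (pt s) y) w = _
    rw [hk, run_add_int, hj]
    push_cast; ring

theorem Geo.pot_sub (G : Geo C e e₁ e₂ pt) {s s' : St7} {w : List Letter} {k : ℤ} (hs : s.ok m)
    (h : Path m s w s' k) : C.pot e₁ (pt s) w - C.pot e₂ (pt s) w = k := by
  induction h with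
  | nil s => simp [CircleAct.pot]
  | @cons s s' s'' y w k hn hp ih =>
    obtain ⟨⟨j, hj⟩, hd⟩ := G.next s hs y s' hn
    have h1 := ih (ok_next hs hn G.hm)
    change (C.inc e₁ (pt s) y + C.pot e₁ (C.step (pt s) y) w) -
      (C.inc e₂ (pt s) y + C.pot e₂ (C.step (pt s) y) w) = _
    rw [hj, G.pot1.pot_add_int, G.pot2.pot_add_int]
    linarith

/-- Two tight words with the same value have the same increment and continue in the same way. -/
theorem Geo.same (G : Geo C e e₁ e₂ pt) {s s1 s2 : St7} {w w' : List Letter} {k1 k2 : ℤ}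
    (hs : s.ok m) (h1 : Path m s w s1 k1) (h2 : Path m s w' s2 k2)
    (he : eval 3 m 3 w = eval 3 m 3 w') :
    k1 = k2 ∧ ∀ u t j, Path m s1 u t j → ∃ t' j', Path m s2 u t' j' := by
  refine ⟨?_, fun u t j hu => ?_⟩
  · rw [← G.pot_sub hs h1, ← G.pot_sub hs h2, G.pot1.pot_eq_of_eval he, G.pot2.pot_eq_of_eval he]
  · obtain ⟨a, ha⟩ := G.run hs h1
    obtain ⟨b, hb⟩ := G.run hs h2
    obtain ⟨c, hc⟩ := CircleAct.run_eq_of_eval (C := C) he (pt s)
    have h3 : pt s2 = pt s1 + ((a + c - b : ℤ) : ℝ) * π := by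
      rw [ha, hb] at hc
      push_cast
      linarith
    have h4 := (G.tight_iff (h1.ok hs G.hm) u).2 ⟨t, j, hu⟩
    rw [← G.tight_iff (h2.ok hs G.hm), h3, G.pot.tight_add_int]
    exact h4

/-- Normal forms of values of tight words. -/
theorem Geo.normal (G : Geo C e e₁ e₂ pt) {lt : Letter → Letter → Prop}
    [IsStrictTotalOrder Letter lt] {s s1 : St7} {w u : List Letter} {k1 : ℤ}
    (hs : s.ok m) (h1 : Path m s w s1 k1) (hu : u ∈ normalForms 3 m 3 lt)
    (he : eval 3 m 3 u = eval 3 m 3 w) : (∃ s2, Path m s u s2 k1 ∧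
      ∀ v t j, Path m s1 v t j → ∃ t' j', Path m s2 v t' j') ∧ u.length = w.length ∧
      (u = w ∨ List.Lex lt u w) := by
  have h2 := (G.tight_iff hs w).2 ⟨_, _, h1⟩
  obtain ⟨h3, h4⟩ := G.pot.tight_of_eval G.bd h2 he (length_le_of_normalForm hu he)
  obtain ⟨s2, k2, h5⟩ := (G.tight_iff hs u).1 h3
  obtain ⟨h6, h7⟩ := G.same hs h1 h5 he.symm
  subst h6
  exact ⟨⟨s2, h5, h7⟩, h4, lex_of_normalForm hu he h4.symm⟩

/-- The second word of case 1 is the normal form. -/
theorem Geo.second1 (G : Geo C e e₁ e₂ pt) {lt : Letter → Letter → Prop}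
    [IsStrictTotalOrder Letter lt] (hAb : lt LA Lb) (K : ℕ) {v : List Letter}
    (hv : v ∈ normalForms 3 m 3 lt)
    (he : eval 3 m 3 v = eval 3 m 3 ([Lb, LA] ++ pw (R7 m) K)) : v = [Lb, LA] ++ pw (R7 m) K := by
  have hm := G.hm
  have hp : Path m .mu (LA :: pw (R7 m) K) (.rho 0) (3 * K) := by
    have := Path.cons (m := m) (s := .mu) (y := LA) (s' := .rho 0) (by simp [next7])
      (path_R7_pow hm K)
    simpa [d7] using this
  have hw : Path m .eta ([Lb, LA] ++ pw (R7 m) K) (.rho 0) (3 * K) := by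
    have := Path.cons (m := m) (s := .eta) (y := Lb) (s' := .mu) (by simp [next7]) hp
    simpa [d7] using this
  obtain ⟨⟨s2, h1, h2⟩, h3, h4⟩ := G.normal (s := .eta) (by simp [St7.ok]) hw hv he
  generalize hk : (3 * K : ℤ) = k at h1
  cases h1 with
  | nil => simp at h3
  | @cons _ t1 _ y1 v k1 n1 h1 =>
    cases h1 with
    | nil => simp at h3
    | @cons _ t2 _ y2 v k2 n2 h1 =>
      have e1 : y1 = Lb ∧ t1 = .mu := by
        obtain ⟨i, c⟩ := y1
        fin_cases i <;> cases c <;> simp [next7] at n1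
        exact ⟨rfl, n1.symm⟩
      obtain ⟨rfl, rfl⟩ := e1
      simp only [List.cons_append, List.nil_append] at h3 h4 ⊢
      have h5 := le_cons_self h4
      have e2 : y2 = LA ∧ t2 = .rho 0 := by
        obtain ⟨i, c⟩ := y2
        fin_cases i <;> cases c <;> simp [next7] at n2
        · exact ⟨rfl, n2.symm⟩
        · exfalso
          rcases le_cons h5 with ⟨h6, -⟩ | h6
          · simp at h6
          · exact asymm_of lt hAb h6
      obtain ⟨rfl, rfl⟩ := e2
      congr 2
      obtain ⟨t', j', h7⟩ := h2 _ _ _ (path_R7 hm)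
      have hok : St7.ok m (.rho 0) := by simp only [St7.ok]; omega
      have h8 := only_R7 hm (h1.ok hok hm) (isR_path h1 rfl) h7
      subst h8
      simp only [d7] at hk
      refine path_unique h1 (path_R7_pow hm K) hok hm rfl rfl rfl (by simpa using h3) ?_ ?_
      · simp only [List.length_cons, length_pw, length_R7 hm] at h3
        have h9 : (v.length : ℤ) = K * (3 * (m - 2)) := by
          have : v.length = K * (3 * (m - 2)) := by omega
          rw [this]; push_cast [Nat.cast_sub (show 2 ≤ m by omega)]; ring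
        rw [h9, show k2 = 3 * K by linarith]
        ring
      · rw [length_pw, length_R7 hm]
        push_cast [Nat.cast_sub (show 2 ≤ m by omega)]; ring

/-- The second word of case 2 is the normal form. -/
theorem Geo.second2 (G : Geo C e e₁ e₂ pt) {lt : Letter → Letter → Prop}
    [IsStrictTotalOrder Letter lt] (K : ℕ) {v : List Letter} (hv : v ∈ normalForms 3 m 3 lt)
    (he : eval 3 m 3 v = eval 3 m 3 ([Lb, Lb, La] ++ pw (R7 m) K)) :
    v = [Lb, Lb, La] ++ pw (R7 m) K := by
  have hm := G.hm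
  have hok : St7.ok m (.rho (m - 3)) := by simp only [St7.ok]; omega
  have hw := path_w2 hm K
  obtain ⟨⟨s2, h1, h2⟩, h3, h4⟩ := G.normal (s := .rho (m - 3)) hok hw hv he
  obtain ⟨t', j', h7⟩ := h2 _ _ _ (path_R7 hm)
  have h8 := only_R7 hm (h1.ok hok hm) (isR_path h1 rfl) h7
  subst h8
  have h9 : ((v.length : ℕ) : ℤ) = 3 + K * (3 * (m - 2)) := by
    rw [h3, List.length_append, length_pw, length_R7 hm]
    push_cast [Nat.cast_sub (show 2 ≤ m by omega)]; simp
  refine path_unique h1 hw hok hm rfl rfl rfl h3 ?_ ?_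
  · rw [h9]; simp only [ht]; push_cast [Nat.cast_sub (show 3 ≤ m by omega)]; ring
  · rw [← h3, h9]; simp only [ht]; push_cast [Nat.cast_sub (show 3 ≤ m by omega)]; ring

/-- The first word of case 1: its normal form stays on the left. -/
theorem Geo.first1 (G : Geo C e e₁ e₂ pt) {lt : Letter → Letter → Prop}
    [IsStrictTotalOrder Letter lt] {K : ℤ} {w u : List Letter} (hw : Path m .eta w .mu K)
    (hu : u ∈ normalForms 3 m 3 lt) (he : eval 3 m 3 u = eval 3 m 3 w) :
    (∃ s2, Path m .eta u s2 K ∧ isL s2 = true) ∧ u.length = w.length ∧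
      (u = w ∨ List.Lex lt u w) := by
  obtain ⟨⟨s2, h1, h2⟩, h3, h4⟩ := G.normal (s := .eta) (by simp [St7.ok]) hw hu he
  refine ⟨⟨s2, h1, ?_⟩, h3, h4⟩
  obtain ⟨t', j', h5⟩ := h2 _ _ _ path_babba
  by_contra h6
  exact not_babba G.hm (isRK h6) h5

theorem take_w2 {m : ℕ} (hm : 4 ≤ m) (w : List Letter) (j K : ℕ) (h : j ≤ K) :
    (w ++ pw (R7 m) K).take (w.length + j * (3 * (m - 2))) = w ++ pw (R7 m) j := by
  obtain ⟨d, rfl⟩ := Nat.exists_eq_add_of_le h
  rw [pw_add, ← List.append_assoc]
  exact List.take_left' (by rw [List.length_append, length_pw, length_R7 hm])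

theorem path_v1 (hm : 4 ≤ m) (K : ℕ) :
    Path m .eta ([Lb, LA] ++ pw (R7 m) K) (.rho 0) (3 * K) := by
  have hp : Path m .mu (LA :: pw (R7 m) K) (.rho 0) (3 * K) := by
    have := Path.cons (m := m) (s := .mu) (y := LA) (s' := .rho 0) (by simp [next7])
      (path_R7_pow hm K)
    simpa [d7] using this
  have := Path.cons (m := m) (s := .eta) (y := Lb) (s' := .mu) (by simp [next7]) hp
  simpa [d7] using this

theorem Geo.case1a (G : Geo C e e₁ e₂ pt) (lt : Letter → Letter → Prop)
    [IsStrictTotalOrder Letter lt] (hAb : lt LA Lb) (hab : lt La Lb) (B : ℤ)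
    (hB1 : ∀ x, |e₁ x| ≤ B) (hB2 : ∀ x, |e₂ x| ≤ B) : ¬ FiniteDiff 3 m 3 lt := by
  have hm := G.hm
  refine CircleAct.not_finiteDiff_of_pot (C := C) lt G.pot2 G.pot1 B hB2 hB1 (pt .eta) 1
    fun N => ?_
  set j := N.toNat + 1 with hj
  set K := (m - 2) * j + 1 with hK
  refine ⟨pw [Lb, Lb, La] K ++ pw [Lb] (3 * ((m - 3) * K) + 1), [Lb, LA] ++ pw (R7 m) K, [LA],
    2 + j * (3 * (m - 2)), by simp, eval_case1 hm K, fun u v hu heu hv hev => ?_⟩
  have hv1 := G.second1 hAb K hv hev
  obtain ⟨⟨s2, h1, h2⟩, h3, h4⟩ := G.first1 (path_w1 K ((m - 3) * K)) hu heu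
  have hu1 := left_lex lt hab (3 * ((m - 3) * K) + 1) K h1 rfl h2 h3 h4
  have hjK : j ≤ K := by
    have : 1 * j ≤ (m - 2) * j := Nat.mul_le_mul_right _ (by omega)
    omega
  have hv2 : v.take (2 + j * (3 * (m - 2))) = [Lb, LA] ++ pw (R7 m) j := by
    rw [hv1]; exact take_w2 hm [Lb, LA] j K hjK
  have hu2 : u.take (2 + j * (3 * (m - 2))) = pw [Lb, Lb, La] ((m - 2) * j) ++ [Lb, Lb] := by
    rw [hu1, hK, pw_add]
    have : pw [Lb, Lb, La] ((m - 2) * j) ++ pw [Lb, Lb, La] 1 ++
        pw [Lb] (3 * ((m - 3) * K) + 1) = (pw [Lb, Lb, La] ((m - 2) * j) ++ [Lb, Lb]) ++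
        ([La] ++ pw [Lb] (3 * ((m - 3) * K) + 1)) := by
      rw [show pw [Lb, Lb, La] 1 = [Lb, Lb, La] from rfl]; simp
    rw [← hK, this]
    refine List.take_left' ?_
    rw [List.length_append, length_pw]
    simp only [List.length_cons, List.length_nil]
    ring
  have pu : Path m .eta (pw [Lb, Lb, La] ((m - 2) * j) ++ [Lb, Lb]) .xi
      (3 * (((m - 2) * j : ℕ) : ℤ) + 0) :=
    (path_bba _).append (.cons (s' := .mu) (k := 0) (by simp [next7])
      (.cons (s' := .xi) (k := 0) (by simp [next7]) (.nil _)))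
  have a1 := G.pot_sub (by simp [St7.ok]) pu
  have a2 := G.pot_sub (by simp [St7.ok]) (path_v1 hm j)
  rw [hv2, hu2]
  have a3 : (2 : ℤ) * j ≤ (((m - 2) * j : ℕ) : ℤ) := by
    have : 2 * j ≤ (m - 2) * j := Nat.mul_le_mul_right _ (by omega)
    exact_mod_cast this
  have a4 : N < j := by omega
  linarith

theorem eval_swap (i : ℕ) (w : List Letter) :
    eval 3 m 3 (pw [Lb] (3 * i) ++ w) = eval 3 m 3 (w ++ pw [Lb] (3 * i)) := by
  rw [eval_append, eval_append, eval_pw, eval_Lb, pow_mul]
  have hz : ∀ g : E 3 m 3, Commute (genB 3 m 3 ^ 3) g := z_comm 3 m 3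
  exact (hz _).pow_left _

theorem Geo.case1b (G : Geo C e e₁ e₂ pt) (lt : Letter → Letter → Prop)
    [IsStrictTotalOrder Letter lt] (hAb : lt LA Lb) (hba : lt Lb La) (B : ℤ)
    (hB1 : ∀ x, |e₁ x| ≤ B) (hB2 : ∀ x, |e₂ x| ≤ B) : ¬ FiniteDiff 3 m 3 lt := by
  have hm := G.hm
  refine CircleAct.not_finiteDiff_of_pot (C := C) lt G.pot1 G.pot2 B hB1 hB2 (pt .eta) 1
    fun N => ?_
  set j := N.toNat + 1 with hj
  set K := 2 * j + 2 with hK
  have hev : eval 3 m 3 ((pw [Lb] (3 * ((m - 3) * K)) ++ (pw [Lb, Lb, La] K ++ pw [Lb] 1)) ++ [LA])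
      = eval 3 m 3 ([Lb, LA] ++ pw (R7 m) K) := by
    rw [← eval_case1 hm K, eval_append, eval_swap, ← eval_append,
      add_comm (3 * ((m - 3) * K)) 1, pw_add [Lb] 1 (3 * ((m - 3) * K))]
    simp only [List.append_assoc]
  refine ⟨pw [Lb] (3 * ((m - 3) * K)) ++ (pw [Lb, Lb, La] K ++ pw [Lb] 1),
    [Lb, LA] ++ pw (R7 m) K, [LA], 2 + j * (3 * (m - 2)), by simp, hev,
    fun u v hu heu hv hev => ?_⟩
  have hv1 := G.second1 hAb K hv hev
  have hw : Path m .eta (pw [Lb] (3 * ((m - 3) * K)) ++ (pw [Lb, Lb, La] K ++ pw [Lb] 1)) .mu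
      (0 + (3 * K + 0)) :=
    (path_b3 _).append ((path_bba K).append (.cons (s' := .mu) (k := 0) (by simp [next7])
      (.nil _)))
  obtain ⟨⟨s2, h1, h2⟩, h3, h4⟩ := G.first1 hw hu heu
  obtain ⟨u', hu1⟩ := b_first lt (3 * ((m - 3) * K)) (u := u) (W := pw [Lb, Lb, La] K ++ pw [Lb] 1)
    (fun y hy => by
      rcases left_letters h1 h2 y hy with rfl | rfl
      · exact asymm_of lt hba
      · exact irrefl_of lt _) h3 h4
  have hi : 2 + j * (3 * (m - 2)) ≤ 3 * ((m - 3) * K) := by
    obtain ⟨d, rfl⟩ := Nat.exists_eq_add_of_le hm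
    rw [hK, show 4 + d - 2 = d + 2 by omega, show 4 + d - 3 = d + 1 by omega]
    nlinarith
  have hv2 : v.take (2 + j * (3 * (m - 2))) = [Lb, LA] ++ pw (R7 m) j := by
    rw [hv1]; exact take_w2 hm [Lb, LA] j K (by omega)
  have hu2 : u.take (2 + j * (3 * (m - 2))) = pw [Lb] (2 + j * (3 * (m - 2))) := by
    rw [hu1]; exact take_pw _ _ hi _
  have a2 := G.pot_sub (by simp [St7.ok]) (path_v1 hm j)
  rw [hv2, hu2, pot_b, pot_b, a2]
  omega

theorem Geo.case2 (G : Geo C e e₁ e₂ pt) (lt : Letter → Letter → Prop)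
    [IsStrictTotalOrder Letter lt] (hb : ∀ y, ¬ lt y Lb) (B : ℤ)
    (hB1 : ∀ x, |e₁ x| ≤ B) (hB2 : ∀ x, |e₂ x| ≤ B) {e' : ℝ → ℤ} {x' : ℝ} (he' : C.IsPot e')
    (hb' : ∀ x, |e' x| ≤ 1) (ht' : ∀ j K : ℕ,
      C.Tight e' x' (pw [Lb] (3 * j) ++ [Lb, Lb, LA, Lb] ++ pw [La, Lb, Lb] K)) :
    ¬ FiniteDiff 3 m 3 lt := by
  have hm := G.hm
  refine CircleAct.not_finiteDiff_of_pot (C := C) lt G.pot1 G.pot2 B hB1 hB2
    (pt (.rho (m - 3))) 2 fun N => ?_
  set j := N.toNat + 1 with hj
  set K := 2 * j + 2 with hK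
  refine ⟨pw [Lb] (3 * ((m - 3) * K)) ++ [Lb, Lb, LA, Lb] ++ pw [La, Lb, Lb] K,
    [Lb, Lb, La] ++ pw (R7 m) K, [LB, LA], 3 + j * (3 * (m - 2)), by simp, eval_case2 hm K,
    fun u v hu heu hv hev => ?_⟩
  have hv1 := G.second2 K hv hev
  obtain ⟨-, h3⟩ := he'.tight_of_eval hb' (ht' ((m - 3) * K) K) heu (length_le_of_normalForm hu heu)
  have h4 := lex_of_normalForm hu heu h3.symm
  rw [List.append_assoc] at h3 h4
  obtain ⟨u', hu1⟩ := b_first lt (3 * ((m - 3) * K)) (fun y _ => hb y) h3 h4
  have hi : 3 + j * (3 * (m - 2)) ≤ 3 * ((m - 3) * K) := by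
    obtain ⟨d, rfl⟩ := Nat.exists_eq_add_of_le hm
    rw [hK, show 4 + d - 2 = d + 2 by omega, show 4 + d - 3 = d + 1 by omega]
    nlinarith
  have hv2 : v.take (3 + j * (3 * (m - 2))) = [Lb, Lb, La] ++ pw (R7 m) j := by
    rw [hv1]; exact take_w2 hm [Lb, Lb, La] j K (by omega)
  have hu2 : u.take (3 + j * (3 * (m - 2))) = pw [Lb] (3 + j * (3 * (m - 2))) := by
    rw [hu1]; exact take_pw _ _ hi _
  have a2 := G.pot_sub (by simp only [St7.ok]; omega) (path_w2 hm j)
  rw [hv2, hu2, pot_b, pot_b, a2]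
  omega

end F7

theorem not_finiteDiff_F7 {m : ℕ} (hm : 4 ≤ m) (lt : Letter → Letter → Prop)
    [IsStrictTotalOrder Letter lt] : ¬ FiniteDiff 3 m 3 lt := by
  have hq : (1 / (3 : ℕ) + 1 / m + 1 / (3 : ℕ) : ℚ) < 1 := by
    have h1 : (4 : ℚ) ≤ m := by exact_mod_cast hm
    have h2 : (1 : ℚ) / m ≤ 1 / 4 := one_div_le_one_div_of_le (by norm_num) h1
    push_cast
    linarith
  obtain ⟨C⟩ := exists_circleAct (l := 3) (m := m) (n := 3) (by omega) (by omega) (by omega) hq
  obtain ⟨e, e₁, e₂, pt, h1, h2, h3, h4, h5, h6, h7, h8, e', x', h9, h10, h11⟩ := exists_F7 hm C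
  have G : F7.Geo C e e₁ e₂ pt := ⟨hm, h1, h2, h3, h5, h7, h8⟩
  -- case 1
  have key1 : ∀ (lt : Letter → Letter → Prop) [IsStrictTotalOrder Letter lt], lt LA Lb →
      ¬ FiniteDiff 3 m 3 lt := by
    intro lt _ hAb
    by_cases hab : lt La Lb
    · exact G.case1a lt hAb hab 2 h4 h6
    · have hba : lt Lb La := by
        by_contra hba
        have := Std.Trichotomous.trichotomous (r := lt) _ _ hab hba
        simp at this
      exact G.case1b lt hAb hba 2 h4 h6
  -- case 2
  have key2 : ∀ (lt : Letter → Letter → Prop) [IsStrictTotalOrder Letter lt], ¬ lt LA Lb →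
      ¬ lt La LB → lt Lb LB → ¬ FiniteDiff 3 m 3 lt := by
    intro lt _ h12 h13 h14
    refine G.case2 lt ?_ 2 h4 h6 h9 h10 h11
    rintro ⟨i, c⟩
    fin_cases i <;> cases c
    · exact h12
    · intro h15
      exact h13 (trans_of lt h15 h14)
    · exact asymm_of lt h14
    · exact irrefl_of lt _
  by_cases h12 : lt LA Lb
  · exact key1 lt h12
  by_cases h13 : lt La LB
  · intro hf
    exact key1 (flipLt lt) h13 (finiteDiff_flip 3 m 3 lt hf)
  by_cases h14 : lt Lb LB
  · exact key2 lt h12 h13 h14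
  · have h15 : lt LB Lb := by
      by_contra h15
      have := Std.Trichotomous.trichotomous (r := lt) _ _ h14 h15
      simp at this
    intro hf
    exact key2 (flipLt lt) h13 h12 h15 (finiteDiff_flip 3 m 3 lt hf)

end Pool.Agent.SLE
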