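import Pool.Agent.SLE.Circle
import Pool.Agent.SLE.F67Defs

/-!
# Geometry of the family F7 = (3, m, 3), m ≥ 4
-/

set_option linter.unusedSectionVars false

namespace Pool.Agent.SLE

open Real

namespace F7

/-! ## arcs -/

theorem arc_eq_one {p q x : ℝ} (k : ℤ) (h1 : p ≤ x + k * π) (h2 : x + k * π < q) :
    arc p q x = 1 := if_pos ⟨k, h1, h2⟩

theorem arc_eq_zero {p q x : ℝ} (k : ℤ) (h1 : q ≤ x + k * π) (h2 : x + k * π < p + π) :
    arc p q x = 0 := by
  rw [arc, if_neg]
  rintro ⟨k', h3, h4⟩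
  have hπ := pi_pos
  have h5 : (k' : ℝ) * π < k * π := by linarith
  have h6 : (k' : ℝ) < k := lt_of_mul_lt_mul_right h5 hπ.le
  have h7 : k' + 1 ≤ k := by exact_mod_cast h6
  have h8 : (k' : ℝ) + 1 ≤ k := by exact_mod_cast h7
  have h9 : ((k' : ℝ) + 1) * π ≤ k * π := mul_le_mul_of_nonneg_right h8 hπ.le
  linarith

theorem arc_add_pi (p q x : ℝ) : arc p q (x + π) = arc p q x := by
  unfold arc
  have : (∃ k : ℤ, p ≤ x + π + k * π ∧ x + π + k * π < q) ↔
      (∃ k : ℤ, p ≤ x + k * π ∧ x + k * π < q) := by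
    constructor
    · rintro ⟨k, h1, h2⟩
      refine ⟨k + 1, ?_, ?_⟩ <;> push_cast <;> linarith
    · rintro ⟨k, h1, h2⟩
      refine ⟨k - 1, ?_, ?_⟩ <;> push_cast <;> linarith
  by_cases h : ∃ k : ℤ, p ≤ x + k * π ∧ x + k * π < q
  · rw [if_pos (this.2 h), if_pos h]
  · rw [if_neg (fun h' => h (this.1 h')), if_neg h]

theorem arc_nonneg (p q x : ℝ) : 0 ≤ arc p q x := by
  unfold arc
  split_ifs <;> norm_num

theorem arc_le_one (p q x : ℝ) : arc p q x ≤ 1 := by
  unfold arc
  split_ifs <;> norm_num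

/-! ## order isomorphisms commuting with the translation -/

theorem map_sub_pi {F : ℝ ≃o ℝ} (h : ∀ x, F (x + π) = F x + π) (x : ℝ) :
    F (x - π) = F x - π := by
  have := h (x - π)
  rw [sub_add_cancel] at this
  linarith

theorem map_add_two_pi {F : ℝ ≃o ℝ} (h : ∀ x, F (x + π) = F x + π) (x : ℝ) :
    F (x + 2 * π) = F x + 2 * π := by
  have h1 := h x
  have h2 := h (x + π)
  have e : x + 2 * π = x + π + π := by ring
  rw [e, h2, h1]; ring

theorem map_sub_two_pi {F : ℝ ≃o ℝ} (h : ∀ x, F (x + π) = F x + π) (x : ℝ) :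
    F (x - 2 * π) = F x - 2 * π := by
  have := map_add_two_pi h (x - 2 * π)
  rw [sub_add_cancel] at this
  linarith

theorem iter_split {F : ℝ → ℝ} {k : ℕ} (hk : 2 ≤ k) (x : ℝ) :
    F^[k] x = F (F (F^[k - 2] x)) := by
  obtain ⟨j, rfl⟩ := Nat.exists_eq_add_of_le' hk
  rw [Nat.add_sub_cancel, Function.iterate_succ_apply', Function.iterate_succ_apply']

variable {m : ℕ} (C : CircleAct 3 m 3)

theorem f3 (x : ℝ) : C.f (C.f (C.f x)) = x + π := C.f_iter x

theorem g3 (x : ℝ) : C.g (C.g (C.g x)) = x + π := C.g_iter x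

theorem gr (x : ℝ) : C.g (C.r x) = C.f (C.f x) := C.f.injective (by rw [C.fgr, f3])

theorem lt_f (x : ℝ) : x < C.f x := by
  by_contra h
  push Not at h
  have h1 : C.f (C.f x) ≤ C.f x := C.f.monotone h
  have h2 : C.f (C.f (C.f x)) ≤ C.f (C.f x) := C.f.monotone h1
  rw [f3] at h2
  have := pi_pos
  linarith

theorem lt_r (x : ℝ) : x < C.r x := by
  by_contra h
  push Not at h
  have h1 : ∀ k : ℕ, C.r^[k] x ≤ x := by
    intro k
    induction k with
    | zero => simp
    | succ k ih =>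
      rw [Function.iterate_succ_apply']
      exact (C.r.monotone ih).trans h
  have h2 := h1 m
  rw [C.r_iter] at h2
  have := pi_pos
  linarith

theorem iter_mono {j k : ℕ} (h : j ≤ k) (x : ℝ) : C.r^[j] x ≤ C.r^[k] x := by
  induction h with
  | refl => exact le_rfl
  | step h ih =>
    rw [Function.iterate_succ_apply']
    exact ih.trans (lt_r C _).le

theorem iter_lt {k : ℕ} (hk : k < m) (x : ℝ) : C.r^[k] x < x + π := by
  have h1 := iter_mono C (show k + 1 ≤ m by omega) x
  rw [C.r_iter, Function.iterate_succ_apply'] at h1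
  exact (lt_r C _).trans_le h1

theorem iter_lt_iter {x y : ℝ} (h : x < y) (k : ℕ) : C.r^[k] x < C.r^[k] y := by
  induction k with
  | zero => simpa using h
  | succ k ih =>
    rw [Function.iterate_succ_apply', Function.iterate_succ_apply']
    exact C.r.strictMono ih

theorem gsymm (x : ℝ) : C.g.symm x = C.r (C.f x) - π := by
  rw [OrderIso.symm_apply_eq, map_sub_pi C.g_add, gr, f3]; ring

theorem gsymm2 (x : ℝ) : C.g.symm (C.g.symm x) = C.f.symm (C.r.symm x) := by
  rw [OrderIso.symm_apply_eq, OrderIso.symm_apply_eq]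
  have h1 : C.f.symm (C.r.symm x) = C.f (C.f (C.r.symm x)) - π := by
    rw [OrderIso.symm_apply_eq, map_sub_pi C.f_add, f3]; ring
  rw [h1, ← gr, C.r.apply_symm_apply, map_sub_pi C.g_add, map_sub_pi C.g_add, g3]; ring

theorem gsymm3 (x : ℝ) : C.g.symm (C.g.symm (C.g.symm x)) = x - π := by
  rw [OrderIso.symm_apply_eq, OrderIso.symm_apply_eq, OrderIso.symm_apply_eq,
    map_sub_pi C.g_add, map_sub_pi C.g_add, map_sub_pi C.g_add, g3]; ring

theorem rf3 (x : ℝ) : C.r (C.f (C.r (C.f (C.r (C.f x))))) = x + 2 * π := by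
  have h := gsymm3 C x
  simp only [gsymm, map_sub_pi C.f_add, map_sub_pi C.r_add] at h
  linarith

theorem fr3 (x : ℝ) : C.f (C.r (C.f (C.r (C.f (C.r x))))) = x + 2 * π := by
  obtain ⟨y, rfl⟩ := C.f.surjective x
  rw [rf3, map_add_two_pi C.f_add]

theorem not_all_le (hm : 4 ≤ m) (x : ℝ) : ¬ (C.f x ≤ C.r x ∧ C.f (C.f x) ≤ C.r (C.f x) ∧
    C.f (C.f (C.f x)) ≤ C.r (C.f (C.f x))) := by
  rintro ⟨h0, h1, h2⟩
  rw [f3] at h2
  have h3 : C.r (C.f (C.f x)) ≤ C.r (C.r (C.r x)) := by
    apply C.r.monotone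
    exact h1.trans (C.r.monotone h0)
  have h4 := iter_lt C (show 3 < m by omega) x
  have h5 : C.r^[3] x = C.r (C.r (C.r x)) := rfl
  rw [h5] at h4
  linarith

theorem not_all_ge (hm : 4 ≤ m) (x : ℝ) : ¬ (C.r x ≤ C.f x ∧ C.r (C.f x) ≤ C.f (C.f x) ∧
    C.r (C.f (C.f x)) ≤ C.f (C.f (C.f x))) := by
  rintro ⟨h0, h1, h2⟩
  have k1 : C.f (C.f x) ≤ C.g (C.f x) := by
    rw [← gr]; exact C.g.monotone h0
  have k2 : x + π ≤ C.g (C.f (C.f x)) := by
    rw [← f3, ← gr]; exact C.g.monotone h1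
  have k3 : C.f x ≤ C.g x := by
    have := C.g.monotone h2
    rw [gr, f3, f3, C.g_add] at this
    linarith
  have a1 : C.g (C.g (C.f x)) ≤ C.g (C.g (C.g x)) := C.g.monotone (C.g.monotone k3)
  have a2 : C.g (C.f (C.f x)) ≤ C.g (C.g (C.f x)) := C.g.monotone k1
  rw [g3] at a1
  have b2 : C.g (C.f (C.f x)) = x + π := le_antisymm (a2.trans a1) k2
  have b1 : C.g (C.f x) = C.f (C.f x) :=
    C.g.injective (le_antisymm (by rw [b2]; exact a1) a2)
  have b0 : C.g x = C.f x := by
    apply C.g.injective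
    apply C.g.injective
    rw [g3, b1, b2]
  have c0 : C.f x = C.r x := C.g.injective (by rw [gr, b1])
  have c1 : C.f (C.f x) = C.r (C.f x) := C.g.injective (by rw [gr, b2, f3])
  have c2 : C.f (C.f (C.f x)) = C.r (C.f (C.f x)) := C.g.injective (by
    rw [gr, f3, C.g_add, C.f_add, b0])
  have h4 := iter_lt C (show 3 < m by omega) x
  have h5 : C.r^[3] x = C.r (C.r (C.r x)) := rfl
  rw [h5, ← c0, ← c1, ← c2, f3] at h4
  exact lt_irrefl _ h4

/-- Opposite signs. -/
theorem signs (hm : 4 ≤ m) {x : ℝ} (h : C.f x = C.r x) :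
    (C.f (C.f x) < C.r (C.f x) ∧ C.r (C.f (C.f x)) < C.f (C.f (C.f x))) ∨
    (C.r (C.f x) < C.f (C.f x) ∧ C.f (C.f (C.f x)) < C.r (C.f (C.f x))) := by
  have h1 := not_all_le C hm x
  have h2 := not_all_ge C hm x
  rcases lt_trichotomy (C.f (C.f x)) (C.r (C.f x)) with a | a | a
  · left
    refine ⟨a, ?_⟩
    by_contra hc
    push Not at hc
    exact h1 ⟨h.le, a.le, hc⟩
  · exfalso
    rcases le_total (C.f (C.f (C.f x))) (C.r (C.f (C.f x))) with b | b
    · exact h1 ⟨h.le, a.le, b⟩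
    · exact h2 ⟨h.ge, a.ge, b⟩
  · right
    refine ⟨a, ?_⟩
    by_contra hc
    push Not at hc
    exact h2 ⟨h.ge, a.le, hc⟩

theorem continuous_sub : Continuous (fun x => C.f x - C.r x) :=
  C.f.continuous.sub C.r.continuous

theorem exists_p (hm : 4 ≤ m) : ∃ p, C.f p = C.r p := by
  have h1 := not_all_le C hm 0
  have h2 := not_all_ge C hm 0
  have a : ∃ x, C.r x < C.f x := by
    by_contra hc
    push Not at hc
    exact h1 ⟨hc _, hc _, hc _⟩
  have b : ∃ x, C.f x < C.r x := by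
    by_contra hc
    push Not at hc
    exact h2 ⟨hc _, hc _, hc _⟩
  obtain ⟨x, hx⟩ := a
  obtain ⟨y, hy⟩ := b
  obtain ⟨z, hz⟩ := mem_range_of_exists_le_of_exists_ge (c := (0 : ℝ)) (continuous_sub C)
    ⟨y, by linarith⟩ ⟨x, by linarith⟩
  exact ⟨z, by linarith⟩

/-- A pair of coincidence points. -/
structure Pair (p q : ℝ) : Prop where
  hp : C.f p = C.r p
  hq : C.f q = C.r q
  h1 : C.f p < q
  h2 : q < C.f (C.f p)

theorem exists_pair (hm : 4 ≤ m) : ∃ p q, Pair C p q := by
  obtain ⟨p, hp⟩ := exists_p C hm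
  have hle : C.f p ≤ C.f (C.f p) := (lt_f C _).le
  rcases signs C hm hp with ⟨a, b⟩ | ⟨a, b⟩
  · have := intermediate_value_Ioo hle (continuous_sub C).continuousOn
    obtain ⟨q, ⟨h1, h2⟩, h3⟩ := this (show (0 : ℝ) ∈ Set.Ioo _ _ from ⟨by linarith, by linarith⟩)
    exact ⟨p, q, hp, by linarith, h1, h2⟩
  · have := intermediate_value_Ioo' hle (continuous_sub C).continuousOn
    obtain ⟨q, ⟨h1, h2⟩, h3⟩ := this (show (0 : ℝ) ∈ Set.Ioo _ _ from ⟨by linarith, by linarith⟩)
    exact ⟨p, q, hp, by linarith, h1, h2⟩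

variable {C}

section pair

variable {p q : ℝ} (H : Pair C p q)

include H

theorem Pair.lt1 : C.f (C.f p) < C.f q := C.f.strictMono H.h1

theorem Pair.lt2 : C.f q < p + π := by
  rw [← f3 C p]; exact C.f.strictMono H.h2

theorem Pair.x1 : p < C.f.symm q := by
  rw [← C.f.lt_iff_lt, C.f.apply_symm_apply]; exact H.h1

theorem Pair.x2 : C.f.symm q < C.f p := by
  rw [← C.f.lt_iff_lt, C.f.apply_symm_apply]; exact H.h2

theorem Pair.next : Pair C q (p + π) where
  hp := H.hq
  hq := by rw [C.f_add, C.r_add, H.hp]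
  h1 := H.lt2
  h2 := by rw [← f3 C p]; exact C.f.strictMono H.lt1

/-- `r (f M) = X + π`. -/
theorem Pair.rfM : C.r (C.f (C.r (C.f.symm q))) = C.f.symm q + π := by
  obtain ⟨X, rfl⟩ := C.f.surjective q
  rw [C.f.symm_apply_apply]
  have h := fr3 C X
  have h1 : C.f (C.f (C.f X) + π) = X + 2 * π := by rw [C.f_add, f3]; ring
  rw [← h1] at h
  have h2 := C.f.injective h
  rw [H.hq, ← C.r_add] at h2
  have h3 := C.r.injective h2
  rw [← C.f_add] at h3
  exact C.f.injective h3

theorem Pair.ne (hm : 4 ≤ m) : C.r (C.f.symm q) ≠ q := by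
  intro h
  have h1 : C.f.symm q = C.f (C.f q) - π := by
    rw [OrderIso.symm_apply_eq, map_sub_pi C.f_add, f3]; ring
  rw [h1, map_sub_pi C.r_add] at h
  have h2 := f3 C q
  rcases signs C hm H.hq with ⟨_, b⟩ | ⟨_, b⟩ <;> linarith

/-- `f M = r^(m-2) M`. -/
theorem Pair.fM (hm : 4 ≤ m) : C.r^[m - 2] (C.r (C.f.symm q)) = C.f (C.r (C.f.symm q)) := by
  apply C.r.injective
  rw [H.rfM]
  apply C.r.injective
  rw [C.r_add, ← iter_split (F := C.r) (show 2 ≤ m by omega), C.r_iter]

theorem Pair.alpha_typeI (hm : 4 ≤ m) (ha : C.f (C.f p) < C.r (C.f p)) :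
    q < C.r (C.f.symm q) := by
  by_contra hc
  push Not at hc
  have hlt : C.r (C.f.symm q) < q := lt_of_le_of_ne hc (H.ne hm)
  have h1 : C.r^[2] (C.r (C.f.symm q)) ≤ C.f (C.r (C.f.symm q)) := by
    rw [← H.fM hm]
    exact iter_mono C (by omega) _
  have h2 : C.f (C.r (C.f.symm q)) < C.r q := by
    rw [← H.hq]; exact C.f.strictMono hlt
  have h3 : C.r^[2] (C.r (C.f.symm q)) = C.r (C.r (C.r (C.f.symm q))) := rfl
  rw [h3] at h1
  have h4 : C.r (C.r (C.f.symm q)) < q := C.r.lt_iff_lt.1 (h1.trans_lt h2)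
  have h5 : C.f p < C.r (C.f.symm q) := by
    rw [H.hp]; exact C.r.strictMono H.x1
  have h6 := C.r.strictMono h5
  have h7 := H.h2
  linarith

end pair

/-! ## Type I -/

section typeI

variable {p q : ℝ} (hm : 4 ≤ m) (H : Pair C p q) (hI : q < C.r (C.f.symm q))

include hm H

theorem M_lt : C.r (C.f.symm q) < C.f (C.f p) := by
  by_contra hc
  push Not at hc
  have h1 : p + π ≤ C.f (C.r (C.f.symm q)) := by
    rw [← f3 C p]; exact C.f.monotone hc
  have h2 := C.r.monotone h1
  rw [H.rfM, C.r_add] at h2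
  have h3 := H.x2
  rw [H.hp] at h3
  linarith

include hI

theorem fM_gt : C.f q < C.f (C.r (C.f.symm q)) := C.f.strictMono hI

theorem fM_lt : C.f (C.r (C.f.symm q)) < p + π := by
  rw [← f3 C p]; exact C.f.strictMono (M_lt hm H)

theorem rho_gt {k : ℕ} (hk : 1 ≤ k) : C.f q < C.r^[k] (C.r (C.f.symm q)) := by
  refine lt_of_lt_of_le ?_ (iter_mono C hk _)
  rw [H.hq]
  exact C.r.strictMono hI

theorem rho_lt {k : ℕ} (hk : k ≤ m - 2) : C.r^[k] (C.r (C.f.symm q)) < p + π := by
  refine lt_of_le_of_lt (iter_mono C hk _) ?_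
  rw [H.fM hm]
  exact fM_lt hm H hI

theorem gen1 {x : ℝ} (h1 : C.f q < x) (h2 : x < p + π) :
    p + π < C.f x ∧ C.f x < C.f p + π ∧ C.f.symm q + π < C.f x := by
  have h3 : C.f (C.f q) < C.f x := C.f.strictMono h1
  refine ⟨?_, ?_, ?_⟩
  · refine lt_trans ?_ h3
    rw [← f3 C p]
    exact C.f.strictMono H.lt1
  · rw [← C.f_add]; exact C.f.strictMono h2
  · rw [← f3 C (C.f.symm q), C.f.apply_symm_apply]; exact h3

theorem gen2 {x : ℝ} (h1 : C.f q < x) (h2 : x < p + π) :
    C.r (C.f.symm q) < C.r (C.f x) - π ∧ C.r (C.f x) - π < C.f q := by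
  obtain ⟨_, a, b⟩ := gen1 hm H hI h1 h2
  have a' := C.r.strictMono a
  have b' := C.r.strictMono b
  rw [C.r_add] at a' b'
  have c := C.r.strictMono H.h1
  rw [H.hq]
  constructor <;> linarith

theorem gen3 {x : ℝ} (h1 : C.f q < x) (h2 : x < p + π) :
    C.f q < C.f (C.r (C.f x) - π) ∧ C.f (C.r (C.f x) - π) < C.f p + π := by
  obtain ⟨a, b⟩ := gen2 hm H hI h1 h2
  refine ⟨C.f.strictMono (hI.trans a), ?_⟩
  refine (C.f.strictMono b).trans ?_
  rw [← f3 C (C.f p)]
  exact C.f.strictMono (C.f.strictMono H.h2)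

/-- `f` of the second point, for the rows above the last one. -/
theorem f_sig_gt {x : ℝ} (hx : C.r (C.r (C.r (C.f.symm q))) ≤ x) :
    p + π < C.f (C.r (C.f x) - π) := by
  have h1 : C.r (C.r q) < x := (C.r.strictMono (C.r.strictMono hI)).trans_le hx
  have h2 : C.f (C.r (C.f (C.r (C.r q)))) < C.f (C.r (C.f x)) :=
    C.f.strictMono (C.r.strictMono (C.f.strictMono h1))
  have h3 : C.f (C.r (C.f (C.r (C.r q)))) = C.r.symm q + 2 * π := by
    rw [← H.hq]
    have := fr3 C (C.r.symm q)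
    rwa [C.r.apply_symm_apply] at this
  have h4 : p < C.r.symm q := by
    rw [← C.r.lt_iff_lt, C.r.apply_symm_apply, ← H.hp]; exact H.h1
  rw [map_sub_pi C.f_add]
  linarith

/-- The second base point. -/
theorem S_facts : C.r (C.f.symm q) < C.r (C.f (C.f (C.r (C.f.symm q)))) - π ∧
    C.f (C.f p) < C.r (C.f (C.f (C.r (C.f.symm q)))) - π ∧
    C.r (C.f (C.f (C.r (C.f.symm q)))) - π < C.f q := by
  have h1 := fM_gt hm H hI
  have h2 := fM_lt hm H hI
  obtain ⟨g1, g2⟩ := gen2 hm H hI h1 h2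
  refine ⟨g1, ?_, g2⟩
  have h3 : C.r (C.r (C.r (C.f.symm q))) ≤ C.f (C.r (C.f.symm q)) := by
    rw [← H.fM hm]
    exact iter_mono C (show 2 ≤ m - 2 by omega) (C.r (C.f.symm q))
  have h4 := f_sig_gt hm H hI h3
  rw [← f3 C p] at h4
  exact C.f.lt_iff_lt.1 h4

theorem kap_top : C.r (C.r^[m - 2] (C.r (C.f (C.f (C.r (C.f.symm q)))) - π)) =
    C.f (C.f (C.r (C.f.symm q))) := by
  apply C.r.injective
  rw [← iter_split (F := C.r) (show 2 ≤ m by omega), C.r_iter]
  ring

theorem kap_lt {k : ℕ} (hk : k ≤ m - 2) :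
    C.r^[k] (C.r (C.f (C.f (C.r (C.f.symm q)))) - π) < p + π := by
  refine lt_of_le_of_lt (iter_mono C hk _) ?_
  rw [← C.r.lt_iff_lt, kap_top hm H hI, C.r_add, ← H.hp, ← C.f_add, ← f3 C p]
  exact C.f.strictMono (C.f.strictMono (M_lt hm H))

theorem kap_gt {k : ℕ} (hk : 1 ≤ k) :
    C.f q < C.r^[k] (C.r (C.f (C.f (C.r (C.f.symm q)))) - π) := by
  refine lt_of_lt_of_le ?_ (iter_mono C hk _)
  rw [H.hq]
  exact C.r.strictMono (hI.trans (S_facts hm H hI).1)

theorem exit_eq : C.f (C.r (C.f (C.r (C.r (C.f.symm q)))) - π) =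
    C.r^[m - 2] (C.r (C.f (C.f (C.r (C.f.symm q)))) - π) := by
  apply C.r.injective
  rw [kap_top hm H hI]
  obtain ⟨y, hy⟩ := C.f.surjective (C.r (C.f.symm q))
  rw [← hy, f3, map_sub_pi C.f_add, map_sub_pi C.r_add, rf3]
  ring

/-- `f` of the second point of the second row. -/
theorem f_sig'_gt {x : ℝ} (hx : C.r (C.r (C.f (C.f (C.r (C.f.symm q)))) - π) ≤ x) :
    p + π < C.f (C.r (C.f x) - π) := by
  have h1 : C.r (C.f (C.f p)) < x := (C.r.strictMono (S_facts hm H hI).2.1).trans_le hx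
  have h2 := C.f.strictMono (C.r.strictMono (C.f.strictMono h1))
  have h3 : C.f (C.r (C.f (C.r (C.f (C.f p))))) = p + 2 * π := by
    have := fr3 C p
    rwa [← H.hp] at this
  rw [map_sub_pi C.f_add]
  linarith

end typeI


/-! ## values of the potentials -/

/-- The values of the two arcs at a point. -/
def Val (C : CircleAct 3 m 3) (p q x : ℝ) (a b : ℤ) : Prop :=
  arc p (C.f p) x = a ∧ arc q (C.f q) x = b

section val

variable {p q : ℝ} (H : Pair C p q)

include H

theorem val1 {x : ℝ} (k : ℤ) (h1 : p ≤ x + k * π) (h2 : x + k * π < C.f p) :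
    Val C p q x 1 0 := by
  refine ⟨arc_eq_one k h1 h2, arc_eq_zero (k + 1) ?_ ?_⟩
  · have := H.lt2
    push_cast; linarith
  · have := H.h1
    push_cast; linarith

theorem val2 {x : ℝ} (k : ℤ) (h1 : C.f p ≤ x + k * π) (h2 : x + k * π < q) :
    Val C p q x 0 0 := by
  have a1 := H.lt2
  have a2 := lt_f C q
  have a3 := lt_f C p
  refine ⟨arc_eq_zero k h1 (by linarith), arc_eq_zero (k + 1) ?_ ?_⟩
  · push_cast; linarith
  · push_cast; linarith

theorem val3 {x : ℝ} (k : ℤ) (h1 : q ≤ x + k * π) (h2 : x + k * π < C.f q) :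
    Val C p q x 0 1 := by
  have a1 := H.lt2
  have a2 := H.h1
  exact ⟨arc_eq_zero k (by linarith) (by linarith), arc_eq_one k h1 h2⟩

theorem val4 {x : ℝ} (k : ℤ) (h1 : C.f q ≤ x + k * π) (h2 : x + k * π < p + π) :
    Val C p q x 0 0 := by
  have a1 := lt_f C q
  have a2 := H.h1
  have a3 := lt_f C p
  exact ⟨arc_eq_zero k (by linarith) (by linarith), arc_eq_zero k h1 (by linarith)⟩

end val

/-- The main potential. -/
noncomputable def pe (C : CircleAct 3 m 3) (p q x : ℝ) : ℤ :=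
  2 * arc p (C.f p) x + arc q (C.f q) x - 1

/-- The auxiliary potentials. -/
noncomputable def qe (C : CircleAct 3 m 3) (p x : ℝ) : ℤ := 3 * arc p (C.f p) x - 1

theorem isPot_qe (hm : 1 ≤ m) {p : ℝ} (hp : C.f p = C.r p) : C.IsPot (qe C p) where
  per x := by simp only [qe, arc_add_pi]
  suml x := by
    have := sum_arc (F := C.f) C.f_add (show 1 ≤ 3 by norm_num) C.f_iter p x
    simp only [qe, Finset.sum_sub_distrib, ← Finset.mul_sum, this]
    norm_num
  sumr x := by
    have := sum_arc (F := C.r) C.r_add hm C.r_iter p x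
    rw [← hp] at this
    simp only [qe, sub_add_cancel, ← Finset.mul_sum, this]
    norm_num

theorem isPot_pe (hm : 1 ≤ m) {p q : ℝ} (hp : C.f p = C.r p) (hq : C.f q = C.r q) :
    C.IsPot (pe C p q) where
  per x := by simp only [pe, arc_add_pi]
  suml x := by
    have h1 := sum_arc (F := C.f) C.f_add (show 1 ≤ 3 by norm_num) C.f_iter p x
    have h2 := sum_arc (F := C.f) C.f_add (show 1 ≤ 3 by norm_num) C.f_iter q x
    simp only [pe, Finset.sum_sub_distrib, Finset.sum_add_distrib, ← Finset.mul_sum, h1, h2]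
    norm_num
  sumr x := by
    have h1 := sum_arc (F := C.r) C.r_add hm C.r_iter p x
    have h2 := sum_arc (F := C.r) C.r_add hm C.r_iter q x
    rw [← hp] at h1
    rw [← hq] at h2
    simp only [pe, sub_add_cancel, Finset.sum_add_distrib, ← Finset.mul_sum, h1, h2]
    norm_num

theorem abs_qe_le (p x : ℝ) : |qe C p x| ≤ 2 := by
  have h1 := arc_nonneg p (C.f p) x
  have h2 := arc_le_one p (C.f p) x
  unfold qe
  rw [abs_le]
  constructor <;> linarith

theorem abs_pe_le {p q : ℝ} (H : Pair C p q) (x : ℝ) : |pe C p q x| ≤ 1 := by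
  have h1 := arc_nonneg p (C.f p) x
  have h2 := arc_le_one p (C.f p) x
  have h3 := arc_nonneg q (C.f q) x
  have h4 := arc_le_one q (C.f q) x
  have h5 : arc p (C.f p) x = 0 ∨ arc q (C.f q) x = 0 := by
    by_cases h : ∃ k : ℤ, p ≤ x + k * π ∧ x + k * π < C.f p
    · obtain ⟨k, ha, hb⟩ := h
      exact Or.inr (val1 H k ha hb).2
    · left
      rw [arc, if_neg h]
  unfold pe
  rw [abs_le]
  constructor <;> rcases h5 with h5 | h5 <;> rw [h5] at * <;> omega

/-! ## the states of Type I -/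

/-- The points of the states. -/
noncomputable def pt (C : CircleAct 3 m 3) (q : ℝ) : St7 → ℝ
  | .eta => C.f q
  | .mu => C.r (C.f.symm q)
  | .xi => C.f.symm q
  | .rho j => C.r^[m - 2 - j] (C.r (C.f.symm q))
  | .sig j => C.g.symm (C.r^[m - 2 - j] (C.r (C.f.symm q)))
  | .om j => C.g.symm (C.g.symm (C.r^[m - 2 - j] (C.r (C.f.symm q))))
  | .kap j => C.r^[m - 2 - j] (C.r (C.f (C.f (C.r (C.f.symm q)))) - π)
  | .sig' j => C.g.symm (C.r^[m - 2 - j] (C.r (C.f (C.f (C.r (C.f.symm q)))) - π))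
  | .om' j => C.g.symm (C.g.symm (C.r^[m - 2 - j] (C.r (C.f (C.f (C.r (C.f.symm q)))) - π)))

/-- The values of the arcs at the point of a state. -/
def va (m : ℕ) : St7 → ℤ × ℤ
  | .eta => (0, 0)
  | .mu => (0, 1)
  | .xi => (1, 0)
  | .rho _ => (0, 0)
  | .sig _ => (0, 1)
  | .om j => if j + 3 = m then (1, 0) else (0, 1)
  | .kap _ => (0, 0)
  | .sig' _ => (0, 1)
  | .om' j => if j + 3 = m then (0, 0) else (0, 1)

/-- The values of the arcs at the image under `f` of the point of a state. -/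
def vf (m : ℕ) : St7 → ℤ × ℤ
  | .eta => (1, 0)
  | .mu => (0, 0)
  | .xi => (0, 1)
  | .rho _ => (1, 0)
  | .sig j => if j + 3 = m then (0, 0) else (1, 0)
  | .om j => if j + 3 = m then (0, 1) else (0, 0)
  | .kap _ => (1, 0)
  | .sig' _ => (1, 0)
  | .om' j => if j + 3 = m then (0, 1) else (0, 0)

section typeI

variable {p q : ℝ} (hm : 4 ≤ m) (H : Pair C p q) (hI : q < C.r (C.f.symm q))

include hm H hI

theorem gen_val {x : ℝ} (h1 : C.f q < x) (h2 : x < p + π) :
    Val C p q x 0 0 ∧ Val C p q (C.f x) 1 0 ∧ Val C p q (C.g.symm x) 0 1 := by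
  obtain ⟨a1, a2, _⟩ := gen1 hm H hI h1 h2
  obtain ⟨b1, b2⟩ := gen2 hm H hI h1 h2
  refine ⟨val4 H 0 ?_ ?_, val1 H (-1) ?_ ?_, val3 H 0 ?_ ?_⟩
  · simpa using h1.le
  · simpa using h2
  · push_cast; linarith
  · push_cast; linarith
  · rw [gsymm]; push_cast; linarith
  · rw [gsymm]; push_cast; linarith

/-- The third point, when the next point of the row is of the same kind. -/
theorem gen_om {x : ℝ} (h1 : C.f q < C.r.symm x) (h2 : C.r.symm x < p + π) :
    Val C p q (C.g.symm (C.g.symm x)) 0 1 ∧ Val C p q (C.f (C.g.symm (C.g.symm x))) 0 0 := by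
  rw [gsymm2, C.f.apply_symm_apply]
  have e : C.f.symm (C.r.symm x) + π = C.f (C.f (C.r.symm x)) := by
    rw [← f3 C (C.f.symm (C.r.symm x)), C.f.apply_symm_apply]
  refine ⟨val3 H 0 ?_ ?_, (gen_val hm H hI h1 h2).1⟩
  · have h3 := C.f.strictMono (C.f.strictMono h1)
    rw [f3] at h3
    push_cast
    linarith
  · have h3 := C.f.strictMono (C.f.strictMono h2)
    rw [C.f_add, C.f_add] at h3
    have h4 := H.lt1
    push_cast
    linarith

theorem row_symm {Z : ℝ} {j : ℕ} (hj : j + 3 ≤ m) :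
    C.r.symm (C.r^[m - 2 - j] Z) = C.r^[m - 2 - (j + 1)] Z := by
  rw [OrderIso.symm_apply_eq, ← Function.iterate_succ_apply' C.r]
  congr 1
  omega

theorem row_last {Z : ℝ} {j : ℕ} (hj : j + 3 = m) : C.r^[m - 2 - j] Z = C.r Z := by
  have : m - 2 - j = 1 := by omega
  rw [this, Function.iterate_one]

theorem vals (s : St7) (hs : s.ok m) :
    Val C p q (pt C q s) (va m s).1 (va m s).2 ∧
    Val C p q (C.f (pt C q s)) (vf m s).1 (vf m s).2 := by
  have hπ := pi_pos
  have hlt2 := H.lt2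
  obtain ⟨S1, S2, S3⟩ := S_facts hm H hI
  have M1 := M_lt hm H
  have hlt1 := H.lt1
  have hX1 := H.x1
  have hX2 := H.x2
  have hH1 := H.h1
  rcases s with _ | _ | _ | j | j | j | j | j | j
  · -- eta
    refine ⟨val4 H 0 ?_ ?_, val1 H (-1) ?_ ?_⟩
    · simp [pt]
    · simpa [pt] using hlt2
    · have : C.f (C.f (C.f p)) < C.f (C.f q) := C.f.strictMono hlt1
      rw [f3] at this
      simp only [pt]
      push_cast
      linarith
    · have : C.f (C.f q) < C.f (C.f (C.f (C.f p))) := C.f.strictMono (C.f.strictMono H.h2)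
      rw [f3] at this
      simp only [pt]
      push_cast
      linarith
  · -- mu
    refine ⟨val3 H 0 ?_ ?_, val4 H 0 ?_ ?_⟩
    · simpa [pt] using hI.le
    · simpa [pt] using M1.trans hlt1
    · simpa [pt] using hI.le
    · simpa [pt] using fM_lt hm H hI
  · -- xi
    refine ⟨val1 H 0 ?_ ?_, val3 H 0 ?_ ?_⟩
    · simpa [pt] using hX1.le
    · simpa [pt] using hX2
    · simp [pt]
    · simpa [pt] using lt_f C q
  · -- rho
    have hj : j + 3 ≤ m := hs
    have a := gen_val hm H hI (rho_gt hm H hI (show 1 ≤ m - 2 - j by omega))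
      (rho_lt hm H hI (show m - 2 - j ≤ m - 2 by omega))
    exact ⟨a.1, a.2.1⟩
  · -- sig
    have hj : j + 3 ≤ m := hs
    have b1 := rho_gt hm H hI (show 1 ≤ m - 2 - j by omega)
    have b2 := rho_lt hm H hI (show m - 2 - j ≤ m - 2 by omega)
    have a := gen_val hm H hI b1 b2
    refine ⟨a.2.2, ?_⟩
    have g := gen3 hm H hI b1 b2
    simp only [pt, vf]
    rw [gsymm]
    split_ifs with hjm
    · refine val4 H 0 (by simpa using g.1.le) ?_
      rw [row_last hm H hI hjm, exit_eq hm H hI]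
      simpa using kap_lt hm H hI le_rfl
    · refine val1 H (-1) ?_ ?_
      · have h3 : C.r (C.r (C.r (C.f.symm q))) ≤ C.r^[m - 2 - j] (C.r (C.f.symm q)) :=
          iter_mono C (show 2 ≤ m - 2 - j by omega) (C.r (C.f.symm q))
        have := f_sig_gt hm H hI h3
        push_cast
        linarith
      · have := g.2
        push_cast
        linarith
  · -- om
    have hj : j + 3 ≤ m := hs
    simp only [pt, va, vf]
    split_ifs with hjm
    · rw [row_last hm H hI hjm, gsymm2, C.r.symm_apply_apply, C.f.apply_symm_apply]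
      refine ⟨val1 H 0 ?_ ?_, val3 H 0 (by simpa using hI.le) (by simpa using M1.trans hlt1)⟩
      · have : C.f.symm q < C.f.symm (C.r (C.f.symm q)) := C.f.symm.strictMono hI
        push_cast
        linarith
      · have : C.f.symm (C.r (C.f.symm q)) < C.f.symm (C.f (C.f p)) := C.f.symm.strictMono M1
        rw [C.f.symm_apply_apply] at this
        push_cast
        linarith
    · apply gen_om hm H hI
      · rw [row_symm hm H hI hj]
        exact rho_gt hm H hI (by omega)
      · rw [row_symm hm H hI hj]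
        exact rho_lt hm H hI (by omega)
  · -- kap
    have hj : j + 3 ≤ m := hs
    have a := gen_val hm H hI (kap_gt hm H hI (show 1 ≤ m - 2 - j by omega))
      (kap_lt hm H hI (show m - 2 - j ≤ m - 2 by omega))
    exact ⟨a.1, a.2.1⟩
  · -- sig'
    have hj : j + 3 ≤ m := hs
    have b1 := kap_gt hm H hI (show 1 ≤ m - 2 - j by omega)
    have b2 := kap_lt hm H hI (show m - 2 - j ≤ m - 2 by omega)
    have a := gen_val hm H hI b1 b2
    refine ⟨a.2.2, ?_⟩
    have g := gen3 hm H hI b1 b2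
    simp only [pt, vf]
    rw [gsymm]
    refine val1 H (-1) ?_ ?_
    · have h3 : C.r (C.r (C.f (C.f (C.r (C.f.symm q)))) - π) ≤
          C.r^[m - 2 - j] (C.r (C.f (C.f (C.r (C.f.symm q)))) - π) :=
        iter_mono C (show 1 ≤ m - 2 - j by omega) _
      have := f_sig'_gt hm H hI h3
      push_cast
      linarith
    · have := g.2
      push_cast
      linarith
  · -- om'
    have hj : j + 3 ≤ m := hs
    simp only [pt, va, vf]
    split_ifs with hjm
    · rw [row_last hm H hI hjm, gsymm2, C.r.symm_apply_apply, C.f.apply_symm_apply]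
      refine ⟨val2 H 0 ?_ ?_, val3 H 0 (by simpa using (hI.trans S1).le) (by simpa using S3)⟩
      · have : C.f.symm (C.f (C.f p)) < C.f.symm (C.r (C.f (C.f (C.r (C.f.symm q)))) - π) :=
          C.f.symm.strictMono S2
        rw [C.f.symm_apply_apply] at this
        push_cast
        linarith
      · have : C.f.symm (C.r (C.f (C.f (C.r (C.f.symm q)))) - π) < C.f.symm (C.f q) :=
          C.f.symm.strictMono S3
        rw [C.f.symm_apply_apply] at this
        push_cast
        linarith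
    · apply gen_om hm H hI
      · rw [row_symm hm H hI hj]
        exact kap_gt hm H hI (by omega)
      · rw [row_symm hm H hI hj]
        exact kap_lt hm H hI (by omega)

theorem inc_iff (s : St7) (hs : s.ok m) (y : Letter) :
    C.inc (pe C p q) (pt C q s) y = 1 ↔ (next7 m s y).isSome = true := by
  obtain ⟨⟨a1, a2⟩, ⟨b1, b2⟩⟩ := vals hm H hI s hs
  obtain ⟨i, b⟩ := y
  have hi : i = 0 ∨ i = 1 := by omega
  rcases hi with rfl | rfl
  · cases b
    · change -(pe C p q (C.f (pt C q s))) = 1 ↔ _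
      rw [pe, b1, b2]
      cases s <;> simp only [vf, next7] <;> (try split_ifs) <;>
        simp only [St7.ok] at hs <;> simp <;> omega
    · change pe C p q (pt C q s) = 1 ↔ _
      rw [pe, a1, a2]
      cases s <;> simp only [va, next7] <;> (try split_ifs) <;>
        simp only [St7.ok] at hs <;> simp
  · cases b
    · change (-1 : ℤ) = 1 ↔ _
      cases s <;> simp [next7]
    · change (1 : ℤ) = 1 ↔ _
      cases s <;> simp [next7]

theorem gsymm_M : C.g.symm (C.r (C.f.symm q)) = C.f.symm q := by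
  rw [gsymm, H.rfM]; ring

theorem gsymm_X : C.g.symm (C.f.symm q) = C.f q - π := by
  rw [gsymm, C.f.apply_symm_apply, ← H.hq]

theorem gsymm_eta : C.g.symm (C.f q) = C.r (C.f.symm q) := by
  rw [OrderIso.symm_apply_eq, gr, C.f.apply_symm_apply]

theorem fsymm_X : C.f.symm (C.f.symm q) = C.f q - π := by
  rw [OrderIso.symm_apply_eq, map_sub_pi C.f_add]
  have := f3 C (C.f.symm q)
  rw [C.f.apply_symm_apply] at this
  linarith

theorem fsymm2 (x : ℝ) : C.f.symm (C.f.symm x) = C.f x - π := by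
  rw [OrderIso.symm_apply_eq, OrderIso.symm_apply_eq, map_sub_pi C.f_add, map_sub_pi C.f_add, f3]
  ring

theorem step_eq (s : St7) (hs : s.ok m) (y : Letter) (s' : St7) (h : next7 m s y = some s') :
    ∃ k : ℤ, C.step (pt C q s) y = pt C q s' + k * π := by
  have e0 : ∀ x : ℝ, x = x + (0 : ℤ) * π := fun x => by simp
  have e1 : ∀ x : ℝ, x - π = x + (-1 : ℤ) * π := fun x => by push_cast; ring
  obtain ⟨i, b⟩ := y
  have hi : i = 0 ∨ i = 1 := by omega
  rcases hi with rfl | rfl
  · cases b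
    · -- A
      change ∃ k : ℤ, C.f (pt C q s) = pt C q s' + k * π
      rcases s with _ | _ | _ | j | j | j | j | j | j <;> simp only [next7] at h
      case mu =>
        obtain rfl := Option.some.inj h
        refine ⟨0, ?_⟩
        rw [← e0]
        exact (H.fM hm).symm
      case sig =>
        split_ifs at h with hjm
        obtain rfl := Option.some.inj h
        refine ⟨0, ?_⟩
        rw [← e0]
        simp only [pt]
        rw [row_last hm H hI hjm, gsymm, exit_eq hm H hI, Nat.sub_zero]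
      case om =>
        split_ifs at h with hjm
        obtain rfl := Option.some.inj h
        refine ⟨0, ?_⟩
        rw [← e0]
        simp only [pt]
        rw [gsymm2, C.f.apply_symm_apply, row_symm hm H hI hs]
      case om' =>
        split_ifs at h with hjm
        obtain rfl := Option.some.inj h
        refine ⟨0, ?_⟩
        rw [← e0]
        simp only [pt]
        rw [gsymm2, C.f.apply_symm_apply, row_symm hm H hI hs]
      all_goals exact absurd h (by simp)
    · -- a
      change ∃ k : ℤ, C.f.symm (pt C q s) = pt C q s' + k * π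
      rcases s with _ | _ | _ | j | j | j | j | j | j <;> simp only [next7] at h
      case xi =>
        obtain rfl := Option.some.inj h
        refine ⟨-1, ?_⟩
        rw [← e1]
        exact fsymm_X hm H hI
      case om =>
        split_ifs at h with hjm
        obtain rfl := Option.some.inj h
        refine ⟨-1, ?_⟩
        rw [← e1]
        simp only [pt]
        rw [row_last hm H hI hjm, gsymm2, C.r.symm_apply_apply, fsymm2 hm H hI, Nat.sub_zero,
          H.fM hm]
      all_goals exact absurd h (by simp)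
  · cases b
    · cases s <;> simp [next7] at h
    · change ∃ k : ℤ, C.g.symm (pt C q s) = pt C q s' + k * π
      rcases s with _ | _ | _ | j | j | j | j | j | j <;> simp only [next7] at h <;>
        obtain rfl := Option.some.inj h
      · exact ⟨0, by rw [← e0]; exact gsymm_eta hm H hI⟩
      · exact ⟨0, by rw [← e0]; exact gsymm_M hm H hI⟩
      · exact ⟨-1, by rw [← e1]; exact gsymm_X hm H hI⟩
      · exact ⟨0, by rw [← e0]; rfl⟩
      · exact ⟨0, by rw [← e0]; rfl⟩
      · exact ⟨-1, by rw [← e1]; exact gsymm3 C _⟩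
      · exact ⟨0, by rw [← e0]; rfl⟩
      · exact ⟨0, by rw [← e0]; rfl⟩
      · exact ⟨-1, by rw [← e1]; exact gsymm3 C _⟩

theorem inc_d (s : St7) (hs : s.ok m) (y : Letter) (s' : St7) (h : next7 m s y = some s') :
    C.inc (qe C p) (pt C q s) y - C.inc (qe C q) (pt C q s) y = d7 m s y := by
  obtain ⟨⟨a1, a2⟩, ⟨b1, b2⟩⟩ := vals hm H hI s hs
  obtain ⟨i, b⟩ := y
  have hi : i = 0 ∨ i = 1 := by omega
  rcases hi with rfl | rfl
  · cases b
    · change -(qe C p (C.f (pt C q s))) - -(qe C q (C.f (pt C q s))) = _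
      rw [qe, qe, b1, b2]
      cases s <;> simp only [next7] at h <;> (try split_ifs at h with hjm) <;>
        first
        | (cases h; done)
        | (simp only [vf, d7]; (try rw [if_pos hjm]); norm_num; done)
        | (simp only [vf, d7]; rw [if_neg (by omega)]; norm_num)
    · change qe C p (pt C q s) - qe C q (pt C q s) = _
      rw [qe, qe, a1, a2]
      cases s <;> simp only [next7] at h <;> (try split_ifs at h with hjm) <;>
        first
        | (cases h; done)
        | (simp only [va, d7]; (try rw [if_pos hjm, if_pos hjm]); norm_num)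
  · cases b
    · cases s <;> simp [next7] at h
    · change (1 : ℤ) - 1 = _
      cases s <;> simp [d7]

end typeI

/-! ## Type II -/

section typeII

variable {p q : ℝ} (H : Pair C p q) (hII : C.r (C.f.symm q) < q)

include H hII

theorem tight_period (he : C.IsPot (pe C p q)) (K : ℕ) :
    C.Tight (pe C p q) (C.f.symm q) (pw [La, Lb, Lb] K) := by
  induction K with
  | zero => trivial
  | succ K ih =>
    have e : pw [La, Lb, Lb] (K + 1) = La :: Lb :: Lb :: pw [La, Lb, Lb] K := by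
      simp [pw, List.replicate_succ]
    rw [e]
    refine ⟨?_, rfl, rfl, ?_⟩
    · change pe C p q (C.f.symm q) = 1
      obtain ⟨a1, a2⟩ := val1 H (x := C.f.symm q) 0 (by simpa using H.x1.le) (by simpa using H.x2)
      rw [pe, a1, a2]; norm_num
    · change C.Tight (pe C p q) (C.g.symm (C.g.symm (C.f.symm (C.f.symm q)))) _
      have h1 : C.f.symm (C.f.symm q) = C.f q - π := by
        rw [OrderIso.symm_apply_eq, map_sub_pi C.f_add]
        have := f3 C (C.f.symm q)
        rw [C.f.apply_symm_apply] at this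
        linarith
      have h2 : C.g.symm (C.f q - π) = C.r (C.f.symm q) - π := by
        rw [OrderIso.symm_apply_eq, map_sub_pi C.g_add, gr, C.f.apply_symm_apply]
      have h3 : C.g.symm (C.r (C.f.symm q) - π) = C.f.symm q - π := by
        rw [gsymm, map_sub_pi C.f_add, map_sub_pi C.r_add, H.rfM]; ring
      rw [h1, h2, h3]
      have h4 : C.f.symm q - π = C.f.symm q + (-1 : ℤ) * π := by push_cast; ring
      rw [h4, he.tight_add_int]
      exact ih

theorem tight_cross (he : C.IsPot (pe C p q)) (K : ℕ) :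
    C.Tight (pe C p q) (C.g (C.g (C.f (C.f (C.r (C.f.symm q))))))
      ([Lb, Lb, LA, Lb] ++ pw [La, Lb, Lb] K) := by
  refine ⟨rfl, rfl, ?_, rfl, ?_⟩
  · change -(pe C p q (C.f (C.g.symm (C.g.symm (C.g (C.g (C.f (C.f (C.r (C.f.symm q)))))))))) = 1
    rw [C.g.symm_apply_apply, C.g.symm_apply_apply, f3]
    obtain ⟨a1, a2⟩ := val2 H (x := C.r (C.f.symm q) + π) (-1)
      (by have := C.r.strictMono H.x1
          rw [← H.hp] at this
          push_cast; linarith)
      (by push_cast; linarith)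
    rw [pe, a1, a2]; norm_num
  · change C.Tight (pe C p q)
      (C.g.symm (C.f (C.g.symm (C.g.symm (C.g (C.g (C.f (C.f (C.r (C.f.symm q)))))))))) _
    have h3 : C.g.symm (C.r (C.f.symm q)) = C.f.symm q := by
      rw [gsymm, H.rfM]; ring
    have h5 : C.g.symm (C.r (C.f.symm q) + π) = C.f.symm q + (1 : ℤ) * π := by
      rw [OrderIso.symm_apply_eq, Int.cast_one, one_mul, C.g_add,
        ← (OrderIso.symm_apply_eq _).1 h3]
    rw [C.g.symm_apply_apply, C.g.symm_apply_apply, f3, h5, he.tight_add_int]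
    exact tight_period H hII he K

theorem tight_typeII (he : C.IsPot (pe C p q)) (j K : ℕ) :
    C.Tight (pe C p q) (C.g (C.g (C.f (C.f (C.r (C.f.symm q))))))
      (pw [Lb] (3 * j) ++ [Lb, Lb, LA, Lb] ++ pw [La, Lb, Lb] K) := by
  induction j with
  | zero => simpa [pw] using tight_cross H hII he K
  | succ j ih =>
    have e : pw [Lb] (3 * (j + 1)) = Lb :: Lb :: Lb :: pw [Lb] (3 * j) := by
      have : 3 * (j + 1) = 3 * j + 1 + 1 + 1 := by ring
      rw [this]
      simp [pw, List.replicate_succ]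
    rw [e]
    refine ⟨rfl, rfl, rfl, ?_⟩
    change C.Tight (pe C p q) (C.g.symm (C.g.symm (C.g.symm
      (C.g (C.g (C.f (C.f (C.r (C.f.symm q))))))))) _
    rw [gsymm3]
    have h4 : ∀ x : ℝ, x - π = x + (-1 : ℤ) * π := fun x => by push_cast; ring
    rw [h4, he.tight_add_int]
    exact ih

end typeII

/-- There are pairs of both types. -/
theorem exists_types (C : CircleAct 3 m 3) (hm : 4 ≤ m) :
    ∃ p q p' q', Pair C p q ∧ q < C.r (C.f.symm q) ∧ Pair C p' q' ∧ C.r (C.f.symm q') < q' := by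
  obtain ⟨p, q, H⟩ := exists_pair C hm
  have e : C.f.symm (p + π) = C.f (C.f p) := by
    rw [OrderIso.symm_apply_eq, f3]
  rcases signs C hm H.hp with ⟨a, b⟩ | ⟨a, b⟩
  · refine ⟨p, q, q, p + π, H, H.alpha_typeI hm a, H.next, ?_⟩
    rw [e]
    rwa [f3] at b
  · refine ⟨q, p + π, p, q, H.next, ?_, H, ?_⟩
    · rw [e]
      rwa [f3] at b
    · -- Type I would give `f (f p) < r (f p)`
      by_contra hc
      push Not at hc
      have hI : q < C.r (C.f.symm q) := lt_of_le_of_ne hc (H.ne hm).symm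
      have h1 := (S_facts hm H hI).2.1
      have h2 : C.f (C.f (C.r (C.f.symm q))) < C.f p + π := by
        rw [← C.f_add]
        exact C.f.strictMono (fM_lt hm H hI)
      have h3 := C.r.strictMono h2
      rw [C.r_add] at h3
      linarith

end F7

/-- **Geometry of F7** (blueprint 3 (a)-(e), (g), (h)). -/
theorem exists_F7 {m : ℕ} (hm : 4 ≤ m) (C : CircleAct 3 m 3) :
    ∃ (e e₁ e₂ : ℝ → ℤ) (pt : St7 → ℝ),
      C.IsPot e ∧ (∀ x, |e x| ≤ 1) ∧ C.IsPot e₁ ∧ (∀ x, |e₁ x| ≤ 2) ∧ C.IsPot e₂ ∧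
      (∀ x, |e₂ x| ≤ 2) ∧
      (∀ s : St7, s.ok m → ∀ y, C.inc e (pt s) y = 1 ↔ (next7 m s y).isSome = true) ∧
      (∀ s : St7, s.ok m → ∀ y s', next7 m s y = some s' →
        (∃ k : ℤ, C.step (pt s) y = pt s' + k * π) ∧
        C.inc e₁ (pt s) y - C.inc e₂ (pt s) y = d7 m s y) ∧
      ∃ (e' : ℝ → ℤ) (x' : ℝ), C.IsPot e' ∧ (∀ x, |e' x| ≤ 1) ∧
        ∀ j K : ℕ, C.Tight e' x' (pw [Lb] (3 * j) ++ [Lb, Lb, LA, Lb] ++ pw [La, Lb, Lb] K) := by
  obtain ⟨p, q, p', q', H, hI, H', hII⟩ := F7.exists_types C hm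
  have hm1 : 1 ≤ m := by omega
  have he' := F7.isPot_pe (C := C) hm1 H'.hp H'.hq
  exact ⟨F7.pe C p q, F7.qe C p, F7.qe C q, F7.pt C q, F7.isPot_pe hm1 H.hp H.hq,
    F7.abs_pe_le H, F7.isPot_qe hm1 H.hp, F7.abs_qe_le p, F7.isPot_qe hm1 H.hq, F7.abs_qe_le q,
    F7.inc_iff hm H hI,
    fun s hs y s' h => ⟨F7.step_eq hm H hI s hs y s' h, F7.inc_d hm H hI s hs y s' h⟩,
    F7.pe C p' q', _, he', F7.abs_pe_le H', F7.tight_typeII H' hII he'⟩

end Pool.Agent.SLE
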