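import Pool.Agent.SLE.Local

/-!
# The value of the word around a face
-/

namespace Pool.Agent.SLE

open List G3

/-- The height of a face: the value of the word around it is `z ^ fht y`. -/
def fht : Letter → ℤ
  | (0, true) => 0
  | (1, true) => 1
  | _ => -1

theorem eval_flip (l m n : ℕ) (y : Letter) : eval l m n [flip y] = (eval l m n [y])⁻¹ := by
  obtain ⟨i, b⟩ := y
  cases b <;> simp [eval_singleton, flip]

theorem eval_replicate (l m n : ℕ) (y : Letter) (k : ℕ) :
    eval l m n (replicate k y) = eval l m n [y] ^ k := by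
  induction k with
  | zero => rw [pow_zero]; rfl
  | succ k ih => rw [replicate_succ, eval_cons, ih, pow_succ']

theorem eval_alt_two (l m n : ℕ) (y y' : Letter) (k : ℕ) :
    eval l m n (alt y y' (2 * k)) = (eval l m n [y] * eval l m n [y']) ^ k := by
  induction k with
  | zero => rw [pow_zero]; rfl
  | succ k ih =>
    rw [show 2 * (k + 1) = 2 * k + 1 + 1 by ring, alt_succ, alt_succ, eval_cons,
      eval_cons l m n y', ih, pow_succ', mul_assoc]

/-- The value of the word around a face. -/
theorem eval_face (l m n : ℕ) (y : Letter) :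
    eval l m n (fw y (fper l m n y)) = (genB l m n ^ n) ^ fht y := by
  obtain ⟨i, b⟩ := y
  fin_cases i <;> cases b
  · change eval l m n (fw lA' (2 * m)) = (genB l m n ^ n) ^ (-1 : ℤ)
    rw [(fw_p _).1, eval_alt_two]
    have h : eval l m n [lA'] * eval l m n [lB'] =
        genB l m n * (genA l m n * genB l m n)⁻¹ * (genB l m n)⁻¹ := by
      simp only [eval_singleton]
      simp [genA, genB]
    rw [h, conj_pow, inv_pow, genAB_pow, zpow_neg, zpow_one]
    have h2 : Commute (genB l m n) (genB l m n ^ n) := (Commute.refl _).pow_right n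
    rw [h2.inv_right.eq, mul_inv_cancel_right]
  · change eval l m n (fw lA l) = (genB l m n ^ n) ^ (0 : ℤ)
    rw [fw_a, eval_replicate, zpow_zero, eval_singleton]
    exact genA_pow l m n
  · change eval l m n (fw lB' (2 * m)) = (genB l m n ^ n) ^ (-1 : ℤ)
    rw [(fw_p _).2, eval_alt_two]
    have h : eval l m n [lB'] * eval l m n [lA'] = (genA l m n * genB l m n)⁻¹ := by
      simp only [eval_singleton]
      simp [genA, genB]
    rw [h, inv_pow, genAB_pow, zpow_neg, zpow_one]
  · change eval l m n (fw lB n) = (genB l m n ^ n) ^ (1 : ℤ)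
    rw [fw_b, eval_replicate, zpow_one, eval_singleton]
    rfl

end Pool.Agent.SLE
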