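import Pool.Agent.SLE.Pattern

/-!
# The families of scenario A
-/

namespace Pool.Agent.SLE

open List G3

theorem psz_flip (l n : ℕ) (y : Letter) : psz l n (flip y) = psz l n y := rfl

theorem psz_side (l n : ℕ) (σ : Bool) (y : Letter) :
    psz l n (if σ then flip y else y) = psz l n y := by
  cases σ <;> rfl

namespace VLad

theorem oth_ne (y : Letter) : oth y ≠ y := by
  revert y
  decide

theorem oth_ne' (y : Letter) : y ≠ oth y := fun h => oth_ne y h.symm

variable {l m n : ℕ} (V : VLad l m n)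

/-- Two equal letters at an edge of a P-cell: a double rung. -/
theorem double_rung (hP : ∀ k σ, (V.c k).2 = false → 0 < V.len k σ) {σ : Bool} {i : ℕ}
    (h1 : V.isP σ i) (h2 : V.u σ (i + 1) = V.u σ i) :
    ∃ k, V.pos σ k = i + 1 ∧ V.pos σ (k + 1) = i + 1 ∧ V.len k σ = 0 ∧ (V.c k).2 = true ∧
      psz l n (V.u σ i) = psz l n (oth (V.c k)) ∧ (V.u σ i).1 = (oth (V.c k)).1 ∧
      V.isP σ (i + 1) ∧ ∀ k', V.pos σ k' = i + 1 → k' = k ∨ k' = k + 1 := by
  have h3 : V.isP σ (i + 1) := by
    unfold isP at h1 ⊢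
    rw [h2, h1]
  rcases V.vertex_cases hP σ i with h | h | h | h | h
  · exact absurd h1 h.1
  · exact absurd h1 h.1
  · exact absurd h3 h.2.1
  · exact absurd (h.2.2.1.symm.trans h2) (oth_ne _)
  · obtain ⟨-, -, -, k, hk, hk1, hc, -, hu, huniq⟩ := h
    refine ⟨k, hk, hk1, ?_, hc, ?_, ?_, h3, huniq⟩
    · have h4 := V.pos_succ σ k
      omega
    · rw [hu, psz_side]
    · rw [hu]
      cases σ <;> rfl

/-- Three equal letters. -/
theorem triple_rung (hP : ∀ k σ, (V.c k).2 = false → 0 < V.len k σ) {σ : Bool} {i : ℕ}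
    (h1 : V.isP σ i) (h2 : V.u σ (i + 1) = V.u σ i) (h3 : V.u σ (i + 2) = V.u σ (i + 1)) :
    ∃ k, V.pos σ k = i + 1 ∧ V.len k σ = 0 ∧ V.len (k + 1) σ = 1 ∧ V.len (k + 2) σ = 0 ∧
      V.pos σ (k + 2) = i + 2 ∧
      (V.c k).2 = true ∧ psz l n (V.u σ i) = psz l n (oth (V.c k)) ∧
      ∀ k', V.pos σ k' = i + 2 → k' = k + 2 ∨ k' = k + 3 := by
  obtain ⟨k, hk, hk1, hl0, hc, hu, -, h4, huniq⟩ := V.double_rung hP h1 h2
  obtain ⟨k2, hk2, hk21, hl2, hc2, hu2, -, h5, huniq2⟩ := V.double_rung hP h4 h3
  have h6 : V.pos σ k2 = i + 2 := hk2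
  have h7 : k + 2 ≤ k2 := by
    by_contra hcon
    have h8 : V.pos σ k2 ≤ V.pos σ (k + 1) := V.pos_mono σ (by omega)
    omega
  have h8 : V.pos σ (k + 2) = i + 2 := by
    have h9 := V.pos_mono σ h7
    have h10 : V.pos σ (k + 1) ≤ V.pos σ (k + 2) := V.pos_mono σ (by omega)
    have h11 : V.pos σ (k + 2) ≠ i + 1 := by
      intro h
      rcases huniq _ h with h12 | h12 <;> omega
    omega
  have h9 : k2 = k + 2 := by
    rcases huniq2 (k + 2) h8 with h12 | h12 <;> omega
  subst h9
  refine ⟨k, hk, hl0, ?_, hl2, h8, hc, hu, huniq2⟩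
  have h10 := V.pos_succ σ (k + 1)
  have h11 : V.pos σ (k + 1 + 1) = V.pos σ (k + 2) := rfl
  omega

/-- A side with one edge between two P-cells. -/
theorem one_side (hP : ∀ k σ, (V.c k).2 = false → 0 < V.len k σ) {σ : Bool} {i : ℕ}
    (h1 : V.isP σ i) (h2 : ¬ V.isP σ (i + 1)) (h3 : V.isP σ (i + 2)) :
    ∃ k, V.len k σ = 1 ∧ (V.c k).2 = true ∧ psz l n (V.u σ i) = psz l n (oth (V.c k)) := by
  rcases V.vertex_cases hP σ i with h | h | h | h | h
  · exact absurd h1 h.1
  · exact absurd h1 h.1
  · obtain ⟨-, -, k, hk, hc, huniq, hu, -⟩ := h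
    rcases V.vertex_cases hP σ (i + 1) with h' | h' | h' | h' | h'
    · exact absurd h3 h'.2.1
    · obtain ⟨-, -, k2, hk2, hc2, huniq2, -⟩ := h'
      refine ⟨k, ?_, hc, by rw [hu, psz_side]⟩
      have h4 : k + 1 ≤ k2 := by
        by_contra hcon
        have h8 : V.pos σ k2 ≤ V.pos σ k := V.pos_mono σ (by omega)
        omega
      have h5 := V.pos_mono σ h4
      have h6 := V.pos_succ σ k
      have h7 : V.pos σ (k + 1) ≠ i + 1 := by
        intro h
        have := huniq _ h
        omega
      omega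
    · exact absurd h'.1 h2
    · exact absurd h'.1 h2
    · exact absurd h'.1 h2
  · exact absurd h.2.1 h2
  · exact absurd h.2.1 h2

/-- Criterion for attaching caps. -/
theorem good_of (hl : 2 ≤ l) (hn : 2 ≤ n) (hP : ∀ k σ, (V.c k).2 = false → 0 < V.len k σ)
    (hZ : ∀ k σ, (V.c k).2 = true → V.len k σ = 0 → 4 ≤ psz l n (oth (V.c k)))
    (hZ2 : ∀ k σ, (V.c k).2 = true → V.len k σ = 0 → V.len (k + 1) σ = 1 →
      V.len (k + 2) σ = 0 → 8 ≤ psz l n (oth (V.c k))) : V.Good where
  hl := hl
  hn := hn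
  hP := hP
  g1 := by
    intro σ i h1 h2 h3
    obtain ⟨k, -, -, hl0, hc, hu, -⟩ := V.double_rung hP h1 h3
    have := hZ k σ hc hl0
    omega
  g2 := by
    intro σ i h1 h2 h3 h4
    obtain ⟨k, hk, hl0, hl1, hl2, hk2, hc, hu, -⟩ := V.triple_rung hP h1 h3 (by rw [h4, h3])
    have := hZ2 k σ hc hl0 hl1 hl2
    omega

/-- Criterion for closed ladders. -/
theorem tame_of (hG : V.Good) (hm : 2 ≤ m) (short : V.PShort)
    (h4 : ∀ k σ, (V.c k).2 = true → V.len k σ = 0 → V.len (k + 1) σ = 1 →
      V.len (k + 2) σ = 0 → V.len (k + 3) σ = 1 → V.len (k + 4) σ ≠ 0)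
    (hc0 : (V.c 0).2 = true)
    (hb : ∀ σ, V.len 0 σ = 0 → 6 ≤ psz l n (oth (V.c 0)) ∨
      (4 ≤ psz l n (oth (V.c 0)) ∧ 2 ≤ V.len 1 σ)) : V.Tame where
  toGood := hG
  hm := hm
  short := short
  four := by
    intro σ i h1 h2 h3 h5
    obtain ⟨k, hk, hl0, hl1, hl2, hk2, hc, hu, huniq⟩ :=
      V.triple_rung hG.hP h1 h2 (by rw [h3, h2])
    have h6 : V.isP σ (i + 1) := by
      unfold isP at h1 ⊢
      rw [h2, h1]
    obtain ⟨k2, hk2', hl0', hl1', hl2', hk2'', hc', hu', huniq'⟩ :=
      V.triple_rung (i := i + 1) hG.hP h6 (by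
        change V.u σ (i + 2) = _
        rw [h3, h2]) (by
        change V.u σ (i + 3) = V.u σ (i + 2)
        rw [h5, h3])
    have h7 : k2 = k + 2 := by
      rcases huniq k2 hk2' with h | h
      · exact h
      · exfalso
        subst h
        have h8 := V.alternate (k + 2)
        have h9 : (V.c (k + 2)).2 = true := by
          have h10 := V.alternate k
          have h11 := V.alternate (k + 1)
          have h12 : V.c (k + 1 + 1) = V.c (k + 2) := rfl
          rw [h12] at h11
          rw [h11, h10, hc]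
          rfl
        have h10 : V.c (k + 2 + 1) = V.c (k + 3) := rfl
        rw [h10, hc', h9] at h8
        exact absurd h8 (by decide)
    subst h7
    exact h4 k σ hc hl0 hl1 hl2 hl1' hl2'
  bot := by
    intro σ h0
    rcases V.bottom_cases hG.hP σ with h | h
    · omega
    · obtain ⟨-, -, -, hu, hk0⟩ := h
      have hpsz : psz l n (V.u σ 0) = psz l n (oth (V.c 0)) := by rw [hu, psz_side]
      unfold capR
      rcases hb σ h0 with h1 | ⟨h1, h2⟩
      · rw [if_neg (by rw [hpsz]; omega), if_neg (by rw [hpsz]; omega)]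
      · rw [if_neg (by rw [hpsz]; omega), if_neg]
        rintro ⟨h3, h5, -⟩
        obtain ⟨k, hk, hk1, hl0, hc, -⟩ := V.double_rung hG.hP h3 h5
        have h6 : V.pos σ 0 = 0 := rfl
        have h7 : V.pos σ (0 + 1) = V.pos σ 0 + V.len 0 σ := V.pos_succ σ 0
        have h8 : V.pos σ (1 + 1) = V.pos σ 1 + V.len 1 σ := V.pos_succ σ 1
        have h9 : V.pos σ (0 + 1) = V.pos σ 1 := rfl
        by_cases h10 : k ≤ 1
        · have := V.pos_mono σ h10
          omega
        · have := V.pos_mono σ (show 1 + 1 ≤ k by omega)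
          omega
  bot' := Or.inl hc0

theorem not_isP_bottom (hP : ∀ k σ, (V.c k).2 = false → 0 < V.len k σ) (hc0 : (V.c 0).2 = true)
    (h0 : 0 < V.len 0 true) : ¬ V.isP true 0 ∧ V.u true 0 = V.c 0 := by
  rcases V.bottom_cases hP true with h | h
  · have h1 : V.u true 0 = V.c 0 := by
      rw [h.2.1, if_pos rfl, DSys.nxt_pos hc0]
    refine ⟨?_, h1⟩
    unfold isP
    rw [h1, hc0]
    decide
  · omega

/-- No caps. -/
theorem capR_eq_zero (hP : ∀ k σ, (V.c k).2 = false → 0 < V.len k σ)
    (h1 : ∀ σ i, V.isP σ i → 4 ≤ psz l n (V.u σ i))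
    (h2 : ∀ k σ, (V.c k).2 = true → V.len k σ = 0 → 6 ≤ psz l n (oth (V.c k))) (σ : Bool)
    (i : ℕ) : V.capR σ i = 0 := by
  unfold capR
  rw [if_neg, if_neg]
  · rintro ⟨h3, h4, h5⟩
    obtain ⟨k, -, -, hl0, hc, hu, -⟩ := V.double_rung hP h3 h4
    have := h2 k σ hc hl0
    omega
  · rintro ⟨h3, h4⟩
    have := h1 σ i h3
    omega

theorem pshort_of_capR (hm : 2 ≤ m) (h : ∀ σ i, V.capR σ i = 0) : V.PShort := by
  rintro σ i ⟨h1, -⟩
  have h2 := h1 0 (by omega)
  have h3 : ∀ i, ¬ V.cov σ i := by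
    rintro i (h4 | ⟨i', -, h4⟩)
    · rw [h] at h4
      omega
    · rw [h] at h4
      omega
  rcases h2 with h4 | h4 | h4
  · exact h3 _ h4.2.2
  · exact h3 _ h4.2.2
  · exact h3 _ h4.2.2.2.1

theorem single_iff (hl : 3 ≤ l) (hn : 3 ≤ n) {σ : Bool} {i : ℕ} (h : V.single σ i) :
    ¬ V.isP σ i := by
  rcases h with h | h
  · exact h
  · exfalso
    unfold psz at h
    split_ifs at h <;> omega

theorem pshort_of_four (hm : 4 ≤ m) (hl : 3 ≤ l) (hn : 3 ≤ n) : V.PShort := by
  rintro σ i ⟨h1, h2⟩
  have h3 := V.single_iff hl hn (h2 1 le_rfl (by omega))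
  have h4 := V.single_iff hl hn (h2 2 (by omega) (by omega))
  have h5 := h1 1 (by omega)
  have h6 : i + 1 + 1 = i + 2 := rfl
  rcases h5 with h | h | h
  · exact h4 h.2.1
  · exact h3 h.1
  · exact h3 h.1

/-- An edge is not covered if its outer face has at least `6` edges. -/
theorem not_cov {σ : Bool} {i : ℕ} (h6 : 6 ≤ psz l n (V.u σ i)) : ¬ V.cov σ i := by
  rintro (h | ⟨i', rfl, h⟩)
  · unfold capR at h
    rw [if_neg (by omega), if_neg (by omega)] at h
    omega
  · unfold capR at h
    split_ifs at h with h1 h2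
    · omega
    · rw [h2.2.1] at h6
      omega

theorem pshort_three (hP : ∀ k σ, (V.c k).2 = false → 0 < V.len k σ) (hm : m = 3) (hl : 3 ≤ l)
    (hn : 3 ≤ n)
    (h6 : ∀ k σ, (V.c k).2 = true → V.len k σ = 1 → 6 ≤ psz l n (oth (V.c k))) :
    V.PShort := by
  rintro σ i ⟨h1, h2⟩
  have h3 := V.single_iff hl hn (h2 1 le_rfl (by omega))
  have h4 := h1 0 (by omega)
  have h5 := h1 1 (by omega)
  rw [Nat.add_zero] at h4
  have h7 : V.isP σ i ∧ V.cov σ i := by
    rcases h4 with h | h | h
    · exact absurd h.2.1 h3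
    · exact ⟨h.1, h.2.2⟩
    · exact absurd h.2.1 h3
  have h8 : V.isP σ (i + 2) := by
    rcases h5 with h | h | h
    · exact h.2.1
    · exact absurd h.1 h3
    · exact absurd h.1 h3
  obtain ⟨k, hk, hc, hu⟩ := V.one_side hP h7.1 h3 h8
  exact V.not_cov (by rw [hu]; exact h6 k σ hc hk) h7.2

/-- A side of a P-cell with one edge. -/
theorem one_side' (hP : ∀ k σ, (V.c k).2 = false → 0 < V.len k σ) {σ : Bool} {i : ℕ}
    (h1 : ¬ V.isP σ i) (h2 : V.isP σ (i + 1)) (h3 : ¬ V.isP σ (i + 2)) :
    ∃ k, V.len k σ = 1 ∧ (V.c k).2 = false := by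
  rcases V.vertex_cases hP σ i with h | h | h | h | h
  · exact absurd h2 h.2.1
  · obtain ⟨-, -, k, hk, hc, huniq, hu, -⟩ := h
    rcases V.vertex_cases hP σ (i + 1) with h' | h' | h' | h' | h'
    · exact absurd h2 h'.1
    · exact absurd h2 h'.1
    · obtain ⟨-, -, k2, hk2, hc2, huniq2, -⟩ := h'
      refine ⟨k, ?_, hc⟩
      have h4 : k + 1 ≤ k2 := by
        by_contra hcon
        have h8 : V.pos σ k2 ≤ V.pos σ k := V.pos_mono σ (by omega)
        omega
      have h5 := V.pos_mono σ h4
      have h6 := V.pos_succ σ k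
      have h7 : V.pos σ (k + 1) ≠ i + 1 := by
        intro h
        have := huniq _ h
        omega
      omega
    · exact absurd h'.2.1 h3
    · exact absurd h'.2.1 h3
  · exact absurd h.1 h1
  · exact absurd h.1 h1
  · exact absurd h.1 h1

/-- The case `(2, 3, n)`. -/
theorem pshort_b4 (hP : ∀ k σ, (V.c k).2 = false → 2 ≤ V.len k σ) (hm : m = 3)
    (hn : 7 ≤ n) (h6 : ∀ k σ, (V.c k).2 = true → V.len k σ ≠ 1) : V.PShort := by
  have hP' : ∀ k σ, (V.c k).2 = false → 0 < V.len k σ := fun k σ h => by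
    have := hP k σ h
    omega
  have hpsz : ∀ y : Letter, psz l n y = 2 → psz l n (oth y) = n := by
    intro y hy
    unfold psz oth at *
    simp only at hy ⊢
    split_ifs at hy with h1
    · simp [h1]
    · omega
  have hpsz' : ∀ y : Letter, psz l n (oth y) = 2 → psz l n y = n := by
    intro y hy
    unfold psz oth at *
    simp only at hy ⊢
    by_cases h1 : y.1 = 0
    · rw [if_pos h1] at hy
      rw [if_neg (by decide)] at hy
      omega
    · rw [if_neg h1]
  rintro σ i ⟨h1, h2⟩
  have h3 := h2 1 le_rfl (by omega)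
  have h4 := h1 0 (by omega)
  have h5 := h1 1 (by omega)
  rw [Nat.add_zero] at h4
  by_cases h7 : V.isP σ (i + 1)
  · have h8 : psz l n (V.u σ (i + 1)) = 2 := by
      rcases h3 with h | h
      · exact absurd h7 h
      · exact h
    have h9 : ¬ V.isP σ i := by
      intro h10
      rcases h4 with h | h | h
      · exact h.1 h10
      · exact h.2.1 h7
      · rcases V.vertex_cases hP' σ i with h' | h' | h' | h' | h'
        · exact h'.1 h10
        · exact h'.1 h10
        · exact h'.2.1 h7
        · rw [h'.2.2.1] at h8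
          exact V.not_cov (by rw [hpsz' _ h8]; omega) h.2.2.2.1
        · exact h.2.2.1 h'.2.2.1
    have h10 : ¬ V.isP σ (i + 2) := by
      intro h10
      rcases h5 with h | h | h
      · exact h.1 h7
      · exact h.2.1 h10
      · rcases V.vertex_cases hP' σ (i + 1) with h' | h' | h' | h' | h'
        · exact h'.1 h7
        · exact h'.1 h7
        · exact h'.2.1 h10
        · have h11 := hpsz _ h8
          rw [← h'.2.2.1] at h11
          exact V.not_cov (by rw [h11]; omega) h.2.2.2.2
        · exact h.2.2.1 h'.2.2.1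
    obtain ⟨k, hk, hc⟩ := V.one_side' hP' h9 h7 h10
    have := hP k σ hc
    omega
  · have h8 : V.isP σ i := by
      rcases h4 with h | h | h
      · exact absurd h.2.1 h7
      · exact h.1
      · exact absurd h.2.1 h7
    have h9 : V.isP σ (i + 2) := by
      rcases h5 with h | h | h
      · exact h.2.1
      · exact absurd h.1 h7
      · exact absurd h.1 h7
    obtain ⟨k, hk, hc, -⟩ := V.one_side hP' h8 h7 h9
    exact h6 k σ hc hk

/-- The edges of P-cells with one edge. -/
theorem psz_of_one (h : ∀ k σ, (V.c k).2 = false → V.len k σ = 1) {σ : Bool} {i : ℕ}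
    (hi : V.isP σ i) : ∃ k, (V.c k).2 = false ∧ psz l n (V.u σ i) = psz l n (oth (V.c k)) := by
  obtain ⟨k, j, hj, rfl⟩ := V.exists_cell σ i
  have hc := (V.isP_iff hj).1 hi
  refine ⟨k, hc, ?_⟩
  have h1 := h k σ hc
  have h2 : j = 0 := by omega
  subst h2
  rw [V.u_eq hj]
  change psz l n (if σ then nxt^[0 + 1] (V.c k) else flip (nxt^[0 + 1] (V.c k))) = _
  have h3 : ∀ z : Letter, z.2 = false → nxt^[0 + 1] z = oth z := by decide
  rw [h3 _ hc, ← psz_side l n (!σ) (oth (V.c k))]
  cases σ <;> rfl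

end VLad

section Pat

open VLad

variable {l m n s t0 : ℕ}

theorem patC_spec (h : PatOK l m n s t0) (k : ℕ) :
    (k % 2 = 0 ∧ patC m s k = lA ∧ patP l m n s k = l ∧ psz l n (oth (patC m s k)) = n) ∨
    (k % 2 = 0 ∧ patC m s k = lB ∧ patP l m n s k = n ∧ psz l n (oth (patC m s k)) = l ∧
      m % 2 = 1 ∧ (k + s) % 4 = 2) ∨
    (k % 2 = 1 ∧ (patC m s k).2 = false) := by
  have hs := h.hs
  unfold patP
  by_cases hm : m % 2 = 0
  · rcases Nat.mod_two_eq_zero_or_one k with hk | hk
    · left
      have h1 : patC m s k = lA := by simp [patC, hm, hk]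
      rw [h1]
      exact ⟨hk, rfl, rfl, rfl⟩
    · right; right
      refine ⟨hk, ?_⟩
      simp [patC, hm, hk]
  · by_cases h0 : (k + s) % 4 = 0
    · left
      have h1 : patC m s k = lA := by simp [patC, hm, h0]
      rw [h1]
      exact ⟨by omega, rfl, rfl, rfl⟩
    · by_cases h1 : (k + s) % 4 = 1
      · right; right
        refine ⟨by omega, ?_⟩
        simp [patC, hm, h1]
      · by_cases h2 : (k + s) % 4 = 2
        · right; left
          have h3 : patC m s k = lB := by simp [patC, hm, h2]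
          rw [h3]
          exact ⟨by omega, rfl, rfl, rfl, by omega, h2⟩
        · right; right
          refine ⟨by omega, ?_⟩
          simp [patC, hm, h0, h1, h2]

theorem patP_K (j : ℕ) : patP l m n s (8 * j + t0) = patP l m n s t0 ∧
    patC m s (8 * j + t0) = patC m s t0 := by
  have h1 : (8 * j + t0) % 2 = t0 % 2 := by omega
  have h2 : (8 * j + t0 + s) % 4 = (t0 + s) % 4 := by omega
  have h3 : patC m s (8 * j + t0) = patC m s t0 := by
    unfold patC
    rw [h1, h2]
  refine ⟨?_, h3⟩
  unfold patP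
  rw [h3]

theorem patP_ge (h : PatOK l m n s t0) (k : ℕ) : 2 ≤ patP l m n s k := by
  have h1 := h.hl
  have h2 := h.hn
  unfold patP psz
  split_ifs <;> omega

theorem patLen_odd' {K k : ℕ} {σ : Bool} (hk : k % 2 = 1) : patLen l m n s K k σ = m - 1 := by
  unfold patLen
  rw [if_pos hk]

theorem patLen_cases (K k : ℕ) (σ : Bool) (hk : k % 2 = 0) :
    (patP l m n s k % 2 = 0 ∧ k ≠ K ∧ patLen l m n s K k σ = (patP l m n s k - 2) / 2) ∨
    (patP l m n s k % 2 = 0 ∧ k = K ∧ σ = true ∧ patLen l m n s K k σ = patP l m n s k / 2) ∨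
    (patP l m n s k % 2 = 0 ∧ k = K ∧ σ = false ∧
      patLen l m n s K k σ = (patP l m n s k - 4) / 2) ∨
    (patP l m n s k % 2 = 1 ∧ (patLen l m n s K k σ = (patP l m n s k - 1) / 2 ∨
      patLen l m n s K k σ = (patP l m n s k - 3) / 2)) := by
  have hk1 : ¬ k % 2 = 1 := by omega
  unfold patLen patD
  simp only [if_neg hk1]
  generalize patP l m n s k = P
  generalize patO l m n s K k = o
  cases σ
  · simp only [Bool.false_eq_true, if_false]
    split_ifs <;> simp_all <;> omega
  · simp only [if_true]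
    split_ifs <;> simp_all <;> omega

/-- The sides without edges. -/
theorem zero_side (h : PatOK l m n s t0) {K k : ℕ} {σ : Bool} (hk : k % 2 = 0)
    (h0 : patLen l m n s K k σ = 0) :
    patP l m n s k = 2 ∨ patP l m n s k = 3 ∨ (patP l m n s k = 4 ∧ k = K) := by
  have h1 := patP_ge h k
  rcases patLen_cases (l := l) (m := m) (n := n) (s := s) K k σ hk with h2 | h2 | h2 | h2 <;>
    omega

/-- The sides with one edge. -/
theorem one_edge (h : PatOK l m n s t0) {j k : ℕ} {σ : Bool} (hk : k % 2 = 0)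
    (h0 : patLen l m n s (8 * j + t0) k σ = 1) :
    patP l m n s k = 3 ∨ patP l m n s k = 4 ∨ patP l m n s k = 5 ∨
      (patP l m n s k = 6 ∧ k = 8 * j + t0) := by
  have h1 := patP_ge h k
  have h3 := h.hK
  have h4 := (patP_K (l := l) (m := m) (n := n) (s := s) (t0 := t0) j).1
  rcases patLen_cases (l := l) (m := m) (n := n) (s := s) (8 * j + t0) k σ hk with
    h2 | h2 | h2 | h2
  · omega
  · obtain ⟨h5, h6, h7, h8⟩ := h2
    rw [← h6] at h4
    omega
  · omega
  · omega

theorem pat_c (h : PatOK l m n s t0) (j k : ℕ) : (pat h j).c k = patC m s k := rfl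

theorem pat_len (h : PatOK l m n s t0) (j k : ℕ) (σ : Bool) :
    (pat h j).len k σ = patLen l m n s (8 * j + t0) k σ := rfl

theorem pat_true (h : PatOK l m n s t0) {k : ℕ} (hc : (patC m s k).2 = true) : k % 2 = 0 := by
  rcases patC_spec h k with h1 | h1 | h1
  · exact h1.1
  · exact h1.1
  · rw [hc] at h1
    exact absurd h1.2 (by decide)

theorem pat_false (h : PatOK l m n s t0) {k : ℕ} (hc : (patC m s k).2 = false) :
    k % 2 = 1 := by
  rcases patC_spec h k with h1 | h1 | h1
  · rw [h1.2.1] at hc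
    exact absurd hc (by decide)
  · rw [h1.2.1] at hc
    exact absurd hc (by decide)
  · exact h1.1

theorem pat_hP (h : PatOK l m n s t0) (j : ℕ) (k : ℕ) (σ : Bool)
    (hc : ((pat h j).c k).2 = false) : 0 < (pat h j).len k σ := by
  rw [pat_len, patLen_odd' (pat_false h hc)]
  have := h.hm
  omega

/-- The sides at rungs like the first one. -/
theorem patLen_pos (hl3 : 3 ≤ patP l m n s 0) {j B : ℕ} (hB8 : B % 8 = 0) (hBj : B < 8 * j)
    (ho : patO l m n s (8 * j + t0) B = 1) : 0 < patLen l m n s (8 * j + t0) B true := by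
  have h1 : patP l m n s B = patP l m n s 0 := by
    have h2 : B = 8 * (B / 8) + 0 := by omega
    rw [h2]
    exact (patP_K (l := l) (m := m) (n := n) (s := s) (t0 := 0) (B / 8)).1
  unfold patLen patD
  rw [ho, h1]
  generalize patP l m n s 0 = P at hl3
  simp only [if_true]
  split_ifs <;> omega

/-- **The conclusion for periodic ladders.** -/
theorem notFD_of_pat {l m n s t0 : ℕ} (h : PatOK l m n s t0)
    (hyp : (1 / l + 1 / m + 1 / n : ℚ) < 1)
    (hT : ∀ j, 2 ≤ j → (pat h j).Tame)
    (hE : ∀ j σ i, (pat h j).Even σ i → ((pat h j).u σ i).1 = 0)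
    (hl3 : 3 ≤ patP l m n s 0)
    (lt : Letter → Letter → Prop) [IsStrictTotalOrder Letter lt] : ¬ FiniteDiff l m n lt := by
  have hc0 : (patC m s 0).2 = true := by
    rcases patC_spec h 0 with h1 | h1 | h1
    · rw [h1.2.1]
    · rw [h1.2.1]
    · omega
  have key : ∀ lt : Letter → Letter → Prop, IsStrictTotalOrder Letter lt →
      lt (flip (patC m s 0)) (patC m s 0) → ¬ FiniteDiff l m n lt := by
    intro lt hlt0 hlt
    apply not_finiteDiff_of_diverge h.hl h.hm h.hn hyp lt 1
    intro N
    obtain ⟨j, K2, k', B, hS, hN, hB8, hBj⟩ := pat_scenA h N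
    have hB0 : B ≠ 0 := by
      rintro rfl
      have h1 : (pat h j).hgt 0 = 0 := rfl
      rw [h1, abs_zero] at hN
      omega
    have hj : 2 ≤ j := by omega
    have hlen0 : 0 < (pat h j).len 0 true := by
      rw [pat_len]
      exact patLen_pos hl3 (by omega) (by omega) rfl
    have hlenB : 0 < (pat h j).len B true := by
      rw [pat_len]
      refine patLen_pos hl3 hB8 hBj ?_
      rw [← pat_off h j B]
      exact hS.offB
    have hPp := pat_hP h j
    have hb := (pat h j).not_isP_bottom hPp hc0 hlen0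
    have hcap : ∀ σ i, (pat h j).capR σ i = 2 →
        (pat h j).isP σ i ∧ (pat h j).u σ (i + 1) = (pat h j).u σ i := by
      intro σ i hc
      unfold capR at hc
      split_ifs at hc with h1 h2
      · omega
      · exact ⟨h2.1, h2.2.1⟩
    refine VLad.ScenA.diverge (pat h j) (hT j hj) h.hm hyp hS (hE j) hlen0 ?_ ?_ ?_ ?_ hN
    · rintro i hi ⟨-, hc⟩
      obtain ⟨h1, h2⟩ := hcap _ _ hc
      obtain ⟨k, hk, hk1, hl0, hck, -, -, -, huniq⟩ := (pat h j).double_rung hPp h1 h2
      have h3 := pat_true h hck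
      rcases huniq B hi.symm with h4 | h4
      · subst h4
        omega
      · omega
    · rintro i hi ⟨hev, hc⟩
      obtain ⟨h1, h2⟩ := hcap _ _ hc
      obtain ⟨k, hk, hk1, hl0, hck, -, hu, -, huniq⟩ := (pat h j).double_rung hPp h1 h2
      have h3 := hE j _ _ hev
      rw [hu] at h3
      have h4 : m % 2 = 1 := by
        rcases patC_spec h k with h5 | h5 | h5
        · exfalso
          change (oth (patC m s k)).1 = 0 at h3
          rw [h5.2.1] at h3
          exact absurd h3 (by decide)
        · exact h5.2.2.2.2.1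
        · exfalso
          change (patC m s k).2 = true at hck
          rw [h5.2] at hck
          exact absurd hck (by decide)
      have h5 := h.hm
      have h6 := pat_true h hck
      have h7 : (pat h j).len (k + 1) false = m - 1 := patLen_odd' (by omega)
      have h8 := (pat h j).pos_succ false (k + 1)
      by_cases h9 : B ≤ k + 1
      · have := (pat h j).pos_mono false h9
        omega
      · have := (pat h j).pos_mono false (show k + 1 + 1 ≤ B by omega)
        omega
    · rw [hb.2]
      exact hlt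
    · intro hev
      exfalso
      apply hb.1
      have h1 := hev.1
      unfold capR at h1
      split_ifs at h1 with h2 h3
      · exact h2.1
      · exact h3.1
      · omega
  rcases trichotomous_of lt (flip (patC m s 0)) (patC m s 0) with h1 | h1 | h1
  · exact key lt inferInstance h1
  · exfalso
    have h2 := congrArg Prod.snd h1
    rw [flip_snd, hc0] at h2
    exact absurd h2 (by decide)
  · intro hF
    refine key (flipLt lt) inferInstance ?_ (finiteDiff_flip l m n lt hF)
    change lt (flip (flip _)) (flip _)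
    rw [flip_flip]
    exact h1

/-- The criterion for the families with sides of P-cells of at least two edges. -/
theorem pat_good (h : PatOK l m n s t0) (hm : 3 ≤ m) {j : ℕ}
    (hZ : ∀ k σ, (patC m s k).2 = true → patLen l m n s (8 * j + t0) k σ = 0 →
      4 ≤ psz l n (oth (patC m s k))) : (pat h j).Good := by
  refine (pat h j).good_of h.hl h.hn (pat_hP h j) hZ ?_
  intro k σ hc h0 h1
  exfalso
  have h2 := pat_true h hc
  rw [pat_len, patLen_odd' (by omega)] at h1
  omega

theorem pat_tame (h : PatOK l m n s t0) (hm : 3 ≤ m) {j : ℕ} (hG : (pat h j).Good)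
    (hs : (pat h j).PShort) (hb : ∀ σ, patLen l m n s (8 * j + t0) 0 σ = 0 →
      4 ≤ psz l n (oth (patC m s 0)) ∧ (m = 3 → 6 ≤ psz l n (oth (patC m s 0)))) :
    (pat h j).Tame := by
  have hc0 : (patC m s 0).2 = true := by
    rcases patC_spec h 0 with h1 | h1 | h1
    · rw [h1.2.1]
    · rw [h1.2.1]
    · omega
  refine (pat h j).tame_of hG h.hm hs ?_ hc0 ?_
  · intro k σ hc h0 h1
    exfalso
    have h2 := pat_true h hc
    rw [pat_len, patLen_odd' (by omega)] at h1
    omega
  · intro σ h0
    have h1 := hb σ h0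
    by_cases h2 : m = 3
    · exact Or.inl (h1.2 h2)
    · right
      refine ⟨h1.1, ?_⟩
      rw [pat_len, patLen_odd' (by omega)]
      omega

theorem even_psz {V : VLad l m n} {σ : Bool} {i : ℕ} (h : V.Even σ i) :
    psz l n (V.u σ i) = 2 ∨ psz l n (V.u σ i) = 4 := by
  obtain ⟨h1, h2⟩ := h
  have h3 : V.capR σ i = 1 ∨ V.capR σ i = 2 := by
    unfold capR at h1 ⊢
    split_ifs at h1 ⊢
    · exact Or.inl rfl
    · exact Or.inr rfl
    · omega
  omega

theorem even_a {V : VLad l m n} (hn2 : n ≠ 2) (hn4 : n ≠ 4) {σ : Bool} {i : ℕ}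
    (h : V.Even σ i) : (V.u σ i).1 = 0 := by
  by_contra hcon
  rcases even_psz h with h1 | h1
  · unfold psz at h1
    rw [if_neg hcon] at h1
    exact hn2 h1
  · unfold psz at h1
    rw [if_neg hcon] at h1
    exact hn4 h1

end Pat

open VLad

theorem inv_le {a b : ℕ} (ha : 0 < a) (h : a ≤ b) : (1 / b : ℚ) ≤ 1 / a := by
  apply one_div_le_one_div_of_le
  · exact_mod_cast ha
  · exact_mod_cast h

/-- `(l, 2, n)` with `l, n ≥ 4`. -/
theorem notFD_c1 {l n : ℕ} (hl : 4 ≤ l) (hn : 4 ≤ n) (h : l = 4 → 6 ≤ n)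
    (lt : Letter → Letter → Prop) [IsStrictTotalOrder Letter lt] : ¬ FiniteDiff l 2 n lt := by
  have hP0 : patP l 2 n 0 0 = l := rfl
  have hOK : PatOK l 2 n 0 0 := ⟨by omega, le_rfl, by omega, Or.inl rfl, Or.inl rfl, by omega⟩
  have hA : ∀ k, k % 2 = 0 → patP l 2 n 0 k = l ∧ psz l n (oth (patC 2 0 k)) = n := by
    intro k hk
    rcases patC_spec hOK k with h1 | h1 | h1
    · exact h1.2.2
    · omega
    · omega
  have hz : ∀ j k σ, k % 2 = 0 → patLen l 2 n 0 (8 * j + 0) k σ = 0 →
      l = 4 ∧ k = 8 * j + 0 := by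
    intro j k σ hk h0
    have h1 := zero_side hOK hk h0
    have h2 := (hA k hk).1
    omega
  have hcap : ∀ j σ i, (pat hOK j).capR σ i = 0 := by
    intro j
    refine (pat hOK j).capR_eq_zero (pat_hP hOK j) ?_ ?_
    · intro σ i _
      unfold psz
      split_ifs <;> omega
    · intro k σ hc h0
      have h1 := hz j k σ (pat_true hOK hc) h0
      have h2 := (hA k (pat_true hOK hc)).2
      have h3 := h h1.1
      rw [pat_c, h2]
      exact h3
  refine notFD_of_pat hOK ?_ ?_ ?_ (by rw [hP0]; omega) lt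
  · by_cases h4 : l = 4
    · have h6 := h h4
      subst h4
      have h1 := inv_le (a := 6) (b := n) (by norm_num) h6
      push_cast at h1 ⊢
      linarith
    · have h1 := inv_le (a := 4) (b := n) (by norm_num) hn
      have h2 := inv_le (a := 5) (b := l) (by norm_num) (by omega)
      push_cast at h1 h2 ⊢
      linarith
  · intro j hj
    have hG : (pat hOK j).Good := by
      refine (pat hOK j).good_of (by omega) (by omega) (pat_hP hOK j) ?_ ?_
      · intro k σ hc h0
        have h1 := hz j k σ (pat_true hOK hc) h0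
        have h2 := (hA k (pat_true hOK hc)).2
        rw [pat_c, h2]
        exact hn
      · intro k σ hc h0 _ h2
        have h3 := pat_true hOK hc
        have h1 := hz j k σ h3 h0
        have h4 := hz j (k + 2) σ (by omega) h2
        omega
    refine (pat hOK j).tame_of hG le_rfl ((pat hOK j).pshort_of_capR le_rfl (hcap j)) ?_ rfl ?_
    · intro k σ hc h0 _ h2
      have h3 := pat_true hOK hc
      have h1 := hz j k σ h3 h0
      have h4 := hz j (k + 2) σ (by omega) h2
      omega
    · intro σ h0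
      have h1 := hz j 0 σ rfl h0
      omega
  · intro j σ i hE
    have h1 := hE.1
    rw [hcap] at h1
    omega

/-- `(3, 2, n)` with `n ≥ 8`. -/
theorem notFD_c2 {n : ℕ} (hn : 8 ≤ n)
    (lt : Letter → Letter → Prop) [IsStrictTotalOrder Letter lt] : ¬ FiniteDiff 3 2 n lt := by
  have hOK : PatOK 3 2 n 0 0 :=
    ⟨by omega, le_rfl, by omega, Or.inl rfl, Or.inl rfl, le_rfl⟩
  have hA : ∀ k, k % 2 = 0 → patP 3 2 n 0 k = 3 ∧ psz 3 n (oth (patC 2 0 k)) = n := by
    intro k hk
    rcases patC_spec hOK k with h1 | h1 | h1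
    · exact h1.2.2
    · omega
    · omega
  have hcap : ∀ j σ i, (pat hOK j).capR σ i = 0 := by
    intro j
    refine (pat hOK j).capR_eq_zero (pat_hP hOK j) ?_ ?_
    · intro σ i hi
      obtain ⟨k, hc, hu⟩ := (pat hOK j).psz_of_one (fun k σ hc => by
        rw [pat_len, patLen_odd' (pat_false hOK hc)]) hi
      rw [hu, pat_c]
      have h1 := pat_false hOK hc
      have h2 : patC 2 0 k = lA' := by
        unfold patC
        rw [if_pos rfl, if_neg (by omega)]
      rw [h2]
      change 4 ≤ n
      omega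
    · intro k σ hc h0
      have h2 := (hA k (pat_true hOK hc)).2
      rw [pat_c, h2]
      omega
  -- the offsets
  have hoff : ∀ j k, (k ≤ 8 * j + 0 → patO 3 2 n 0 (8 * j + 0) k =
      if k % 4 = 0 ∨ k % 4 = 3 then 1 else 0) ∧
      (8 * j + 0 < k → patO 3 2 n 0 (8 * j + 0) k =
      if k % 4 = 0 ∨ k % 4 = 3 then -1 else 0) := by
    intro j k
    induction k with
    | zero => exact ⟨fun _ => rfl, fun h => by omega⟩
    | succ k ih =>
      have h1 : patO 3 2 n 0 (8 * j + 0) (k + 1) = patO 3 2 n 0 (8 * j + 0) k +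
        patD 3 2 n 0 (8 * j + 0) k (patO 3 2 n 0 (8 * j + 0) k) := rfl
      rw [h1]
      generalize patO 3 2 n 0 (8 * j + 0) k = o at ih
      unfold patD
      by_cases hk : k % 2 = 1
      · rw [if_pos hk]
        constructor
        · intro h2
          have h3 := ih.1 (by omega)
          rw [h3]
          split_ifs <;> omega
        · intro h2
          by_cases h4 : k = 8 * j + 0
          · omega
          have h3 := ih.2 (by omega)
          rw [h3]
          split_ifs <;> omega
      · rw [if_neg hk, (hA k (by omega)).1, if_neg (by decide)]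
        constructor
        · intro h2
          have h3 := ih.1 (by omega)
          rw [if_pos (by omega), h3]
          split_ifs <;> omega
        · intro h2
          rw [if_neg (by omega)]
          by_cases h4 : k = 8 * j + 0
          · have h3 := ih.1 (by omega)
            rw [if_pos h4, h3]
            split_ifs <;> omega
          · have h3 := ih.2 (by omega)
            have h5 : (k % 4 = 0 ∧ o = -1) ∨ (k % 4 = 2 ∧ o = 0) := by
              split_ifs at h3 <;> omega
            rw [if_neg h4]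
            rcases h5 with ⟨h5, rfl⟩ | ⟨h5, rfl⟩
            · rw [if_neg (by decide), if_neg (by omega)]
              rfl
            · rw [if_pos rfl, if_pos (by omega)]
              rfl
  have hlen : ∀ j k σ, k % 2 = 0 → (patLen 3 2 n 0 (8 * j + 0) k σ = 0 →
      patO 3 2 n 0 (8 * j + 0) (k + 2) = patO 3 2 n 0 (8 * j + 0) k + if σ then 1 else -1) := by
    intro j k σ hk h0
    have h1 : patO 3 2 n 0 (8 * j + 0) (k + 1) = patO 3 2 n 0 (8 * j + 0) k +
      patD 3 2 n 0 (8 * j + 0) k (patO 3 2 n 0 (8 * j + 0) k) := rfl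
    have h2 : patO 3 2 n 0 (8 * j + 0) (k + 1 + 1) = patO 3 2 n 0 (8 * j + 0) (k + 1) +
      patD 3 2 n 0 (8 * j + 0) (k + 1) (patO 3 2 n 0 (8 * j + 0) (k + 1)) := rfl
    have h3 : patD 3 2 n 0 (8 * j + 0) (k + 1) (patO 3 2 n 0 (8 * j + 0) (k + 1)) = 0 := by
      unfold patD
      rw [if_pos (by omega)]
    have h4 : patD 3 2 n 0 (8 * j + 0) k (patO 3 2 n 0 (8 * j + 0) k) = 1 ∨
        patD 3 2 n 0 (8 * j + 0) k (patO 3 2 n 0 (8 * j + 0) k) = -1 := by
      unfold patD
      rw [if_neg (by omega), (hA k (by omega)).1, if_neg (by decide)]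
      split_ifs <;> simp
    unfold patLen at h0
    rw [if_neg (by omega), (hA k (by omega)).1] at h0
    change patO 3 2 n 0 (8 * j + 0) (k + 1 + 1) = _
    rw [h2, h3, h1]
    cases σ
    · simp only [Bool.false_eq_true, if_false] at h0 ⊢
      omega
    · simp only [if_true] at h0 ⊢
      omega
  refine notFD_of_pat hOK ?_ ?_ ?_ le_rfl lt
  · have h1 := inv_le (a := 8) (b := n) (by norm_num) hn
    push_cast at h1 ⊢
    linarith
  · intro j hj
    have hG : (pat hOK j).Good := by
      refine (pat hOK j).good_of (by omega) (by omega) (pat_hP hOK j) ?_ ?_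
      · intro k σ hc h0
        have h2 := (hA k (pat_true hOK hc)).2
        rw [pat_c, h2]
        omega
      · intro k σ hc h0 _ h2
        have h2 := (hA k (pat_true hOK hc)).2
        rw [pat_c, h2]
        exact hn
    refine (pat hOK j).tame_of hG le_rfl ((pat hOK j).pshort_of_capR le_rfl (hcap j)) ?_ rfl ?_
    · intro k σ hc h0 _ h2 _ h4
      have h3 := pat_true hOK hc
      have e1 := hlen j k σ h3 h0
      have e2 := hlen j (k + 2) σ (by omega) h2
      have e3 := hlen j (k + 4) σ (by omega) h4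
      have h5 : k + 2 + 2 = k + 4 := rfl
      have h6 : k + 4 + 2 = k + 6 := rfl
      rw [h5] at e2
      rw [h6] at e3
      have r1 := hoff j k
      have r2 := hoff j (k + 6)
      have b1 : -1 ≤ patO 3 2 n 0 (8 * j + 0) k ∧ patO 3 2 n 0 (8 * j + 0) k ≤ 1 := by
        by_cases hle : k ≤ 8 * j + 0
        · rw [r1.1 hle]
          split_ifs <;> omega
        · rw [r1.2 (by omega)]
          split_ifs <;> omega
      have b2 : -1 ≤ patO 3 2 n 0 (8 * j + 0) (k + 6) ∧
          patO 3 2 n 0 (8 * j + 0) (k + 6) ≤ 1 := by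
        by_cases hle : k + 6 ≤ 8 * j + 0
        · rw [r2.1 hle]
          split_ifs <;> omega
        · rw [r2.2 (by omega)]
          split_ifs <;> omega
      cases σ
      · simp only [Bool.false_eq_true, if_false] at e1 e2 e3
        omega
      · simp only [if_true] at e1 e2 e3
        omega
    · intro σ h0
      left
      have h2 := (hA 0 rfl).2
      rw [pat_c, h2]
      omega
  · intro j σ i hE
    have h1 := hE.1
    rw [hcap] at h1
    omega

/-- `(3, 4, n)` with `n ≥ 5`. -/
theorem notFD_d1 {n : ℕ} (hn : 5 ≤ n)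
    (lt : Letter → Letter → Prop) [IsStrictTotalOrder Letter lt] : ¬ FiniteDiff 3 4 n lt := by
  have hOK : PatOK 3 4 n 0 0 :=
    ⟨by omega, by omega, by omega, Or.inl rfl, Or.inl rfl, le_rfl⟩
  have hA : ∀ k, k % 2 = 0 → patP 3 4 n 0 k = 3 ∧ psz 3 n (oth (patC 4 0 k)) = n := by
    intro k hk
    rcases patC_spec hOK k with h1 | h1 | h1
    · exact h1.2.2
    · omega
    · omega
  refine notFD_of_pat hOK ?_ ?_ (fun j σ i hE => even_a (by omega) (by omega) hE) le_rfl lt
  · have h1 := inv_le (a := 5) (b := n) (by norm_num) hn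
    push_cast at h1 ⊢
    linarith
  · intro j hj
    have hG : (pat hOK j).Good := by
      refine pat_good hOK (by omega) ?_
      intro k σ hc h0
      rw [(hA k (pat_true hOK hc)).2]
      omega
    refine pat_tame hOK (by omega) hG ((pat hOK j).pshort_of_four le_rfl le_rfl (by omega)) ?_
    intro σ _
    rw [(hA 0 rfl).2]
    omega

/-- `(3, 3, n)` with `n ≥ 6`. -/
theorem notFD_d2 {n : ℕ} (hn : 6 ≤ n)
    (lt : Letter → Letter → Prop) [IsStrictTotalOrder Letter lt] : ¬ FiniteDiff 3 3 n lt := by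
  have hOK : PatOK 3 3 n 0 0 :=
    ⟨by omega, by omega, by omega, Or.inl rfl, Or.inl rfl, le_rfl⟩
  refine notFD_of_pat hOK ?_ ?_ (fun j σ i hE => even_a (by omega) (by omega) hE) le_rfl lt
  · have h1 := inv_le (a := 6) (b := n) (by norm_num) hn
    push_cast at h1 ⊢
    linarith
  · intro j hj
    have hG : (pat hOK j).Good := by
      refine pat_good hOK (by omega) ?_
      intro k σ hc h0
      have hk := pat_true hOK hc
      have h1 := zero_side hOK hk h0
      rcases patC_spec hOK k with h2 | h2 | h2 <;> omega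
    refine pat_tame hOK (by omega) hG
      ((pat hOK j).pshort_three (pat_hP hOK j) rfl le_rfl (by omega) ?_) ?_
    · intro k σ hc h0
      have hk := pat_true hOK hc
      have h1 := one_edge hOK hk h0
      change 6 ≤ psz 3 n (oth (patC 3 0 k))
      rcases patC_spec hOK k with h2 | h2 | h2 <;> omega
    · intro σ h0
      change 4 ≤ n ∧ (3 = 3 → 6 ≤ n)
      omega

/-- `(l, 4, 3)` with `l ≥ 5`. -/
theorem notFD_d3 {l : ℕ} (hl : 5 ≤ l)
    (lt : Letter → Letter → Prop) [IsStrictTotalOrder Letter lt] : ¬ FiniteDiff l 4 3 lt := by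
  have hP0 : patP l 4 3 0 0 = l := rfl
  have hOK : PatOK l 4 3 0 0 :=
    ⟨by omega, by omega, by omega, Or.inl rfl, Or.inl rfl, by omega⟩
  have hz : ∀ j k σ, k % 2 = 0 → patLen l 4 3 0 (8 * j + 0) k σ ≠ 0 := by
    intro j k σ hk h0
    have h1 := zero_side hOK hk h0
    rcases patC_spec hOK k with h2 | h2 | h2 <;> omega
  refine notFD_of_pat hOK ?_ ?_ (fun j σ i hE => even_a (by omega) (by omega) hE)
    (by rw [hP0]; omega) lt
  · have h1 := inv_le (a := 5) (b := l) (by norm_num) hl
    push_cast at h1 ⊢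
    linarith
  · intro j hj
    have hG : (pat hOK j).Good := by
      refine pat_good hOK (by omega) ?_
      intro k σ hc h0
      exact absurd h0 (hz j k σ (pat_true hOK hc))
    refine pat_tame hOK (by omega) hG ((pat hOK j).pshort_of_four le_rfl (by omega) le_rfl) ?_
    intro σ h0
    exact absurd h0 (hz j 0 σ rfl)

/-- `(l, 3, 3)` with `l ≥ 6`; the middle cell has the letter `b` if `l` is even. -/
theorem notFD_d4 {l : ℕ} (hl : 6 ≤ l)
    (lt : Letter → Letter → Prop) [IsStrictTotalOrder Letter lt] : ¬ FiniteDiff l 3 3 lt := by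
  have hP0 : patP l 3 3 0 0 = l := rfl
  obtain ⟨t0, ht0, hOK⟩ : ∃ t0, (t0 = 2 ∨ (t0 = 0 ∧ l % 2 = 1)) ∧ PatOK l 3 3 0 t0 := by
    rcases Nat.mod_two_eq_zero_or_one l with h | h
    · exact ⟨2, Or.inl rfl, by omega, by omega, by omega, Or.inl rfl,
        Or.inr ⟨rfl, rfl, rfl, h⟩, le_rfl⟩
    · exact ⟨0, Or.inr ⟨rfl, h⟩, by omega, by omega, by omega, Or.inl rfl, Or.inl rfl,
        by omega⟩
  refine notFD_of_pat hOK ?_ ?_ (fun j σ i hE => even_a (by omega) (by omega) hE)
    (by rw [hP0]; omega) lt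
  · have h1 := inv_le (a := 6) (b := l) (by norm_num) hl
    push_cast at h1 ⊢
    linarith
  · intro j hj
    have hG : (pat hOK j).Good := by
      refine pat_good hOK (by omega) ?_
      intro k σ hc h0
      have hk := pat_true hOK hc
      have h1 := zero_side hOK hk h0
      rcases patC_spec hOK k with h2 | h2 | h2 <;> omega
    refine pat_tame hOK (by omega) hG
      ((pat hOK j).pshort_three (pat_hP hOK j) rfl (by omega) le_rfl ?_) ?_
    · intro k σ hc h0
      have hk := pat_true hOK hc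
      have h1 := one_edge hOK hk h0
      change 6 ≤ psz l 3 (oth (patC 3 0 k))
      rcases patC_spec hOK k with h2 | h2 | h2
      · exfalso
        have h7 : l = 6 ∧ k = 8 * j + t0 := by omega
        rcases ht0 with h8 | h8
        · subst h8
          have h4 := h2.2.1
          rw [h7.2, (patP_K (l := l) (m := 3) (n := 3) (s := 0) (t0 := 2) j).2] at h4
          exact absurd h4 (by decide)
        · omega
      · omega
      · omega
    · intro σ h0
      have h1 := zero_side hOK (k := 0) rfl h0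
      omega

/-- `(4, m, 3)` with odd `m ≥ 5`. -/
theorem notFD_F5 {m : ℕ} (hm : 5 ≤ m) (ho : m % 2 = 1)
    (lt : Letter → Letter → Prop) [IsStrictTotalOrder Letter lt] : ¬ FiniteDiff 4 m 3 lt := by
  have hc0 : patC m 0 0 = lA := by simp [patC, ho]
  have hc2 : patC m 0 2 = lB := by simp [patC, ho]
  have hOK : PatOK 4 m 3 0 2 :=
    ⟨by omega, by omega, by omega, Or.inl rfl, Or.inr ⟨rfl, ho, rfl, rfl⟩, by
      unfold patP
      rw [hc2]
      exact le_rfl⟩
  have hl3 : 3 ≤ patP 4 m 3 0 0 := by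
    unfold patP
    rw [hc0]
    decide
  refine notFD_of_pat hOK ?_ ?_ (fun j σ i hE => even_a (by omega) (by omega) hE) hl3 lt
  · have h1 := inv_le (a := 5) (b := m) (by norm_num) hm
    push_cast at h1 ⊢
    linarith
  · intro j hj
    have hz : ∀ k σ, k % 2 = 0 → patLen 4 m 3 0 (8 * j + 2) k σ = 0 →
        4 ≤ psz 4 3 (oth (patC m 0 k)) := by
      intro k σ hk h0
      have h1 := zero_side hOK hk h0
      rcases patC_spec hOK k with h2 | h2 | h2
      · exfalso
        obtain ⟨h3, h4, h5, h6⟩ := h2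
        have h7 : k = 8 * j + 2 := by omega
        rw [h7, (patP_K (l := 4) (m := m) (n := 3) (s := 0) (t0 := 2) j).2, hc2] at h4
        exact absurd h4 (by decide)
      · omega
      · omega
    have hG : (pat hOK j).Good := by
      refine pat_good hOK (by omega) ?_
      intro k σ hc h0
      exact hz k σ (pat_true hOK hc) h0
    refine pat_tame hOK (by omega) hG
      ((pat hOK j).pshort_of_four (by omega) (by omega) le_rfl) ?_
    intro σ h0
    have h1 := hz 0 σ rfl h0
    omega

/-- `(2, m, n)` with odd `m ≥ 5` and `n ≥ 5`. -/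
theorem notFD_b3 {m n : ℕ} (hm : 5 ≤ m) (ho : m % 2 = 1) (hn : 5 ≤ n)
    (lt : Letter → Letter → Prop) [IsStrictTotalOrder Letter lt] : ¬ FiniteDiff 2 m n lt := by
  have hc0 : patC m 2 0 = lB := by simp [patC, ho]
  have hP0 : patP 2 m n 2 0 = n := by
    unfold patP
    rw [hc0]
    rfl
  have hOK : PatOK 2 m n 2 0 :=
    ⟨by omega, by omega, by omega, Or.inr ⟨rfl, ho⟩, Or.inl rfl, by rw [hP0]; omega⟩
  refine notFD_of_pat hOK ?_ ?_ (fun j σ i hE => even_a (by omega) (by omega) hE)
    (by rw [hP0]; omega) lt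
  · have h1 := inv_le (a := 5) (b := m) (by norm_num) hm
    have h2 := inv_le (a := 5) (b := n) (by norm_num) hn
    push_cast at h1 h2 ⊢
    linarith
  · intro j hj
    have hz : ∀ k σ, k % 2 = 0 → patLen 2 m n 2 (8 * j + 0) k σ = 0 →
        psz 2 n (oth (patC m 2 k)) = n ∧ k ≠ 0 := by
      intro k σ hk h0
      have h1 := zero_side hOK hk h0
      rcases patC_spec hOK k with h2 | h2 | h2
      · refine ⟨by omega, ?_⟩
        rintro rfl
        omega
      · omega
      · omega
    have hG : (pat hOK j).Good := by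
      refine pat_good hOK (by omega) ?_
      intro k σ hc h0
      have := (hz k σ (pat_true hOK hc) h0).1
      omega
    refine pat_tame hOK (by omega) hG ((pat hOK j).pshort_of_five hG hm ?_ (Or.inr (by omega))) ?_
    · intro k σ hc
      rw [pat_len, patLen_odd' (pat_false hOK hc)]
      omega
    · intro σ h0
      exact absurd rfl (hz 0 σ rfl h0).2

/-- `(2, 3, n)` with `n ≥ 7`. -/
theorem notFD_b4 {n : ℕ} (hn : 7 ≤ n)
    (lt : Letter → Letter → Prop) [IsStrictTotalOrder Letter lt] : ¬ FiniteDiff 2 3 n lt := by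
  have hc0 : patC 3 2 0 = lB := rfl
  have hP0 : patP 2 3 n 2 0 = n := rfl
  have hOK : PatOK 2 3 n 2 0 :=
    ⟨by omega, by omega, by omega, Or.inr ⟨rfl, rfl⟩, Or.inl rfl, by rw [hP0]; omega⟩
  refine notFD_of_pat hOK ?_ ?_ (fun j σ i hE => even_a (by omega) (by omega) hE)
    (by rw [hP0]; omega) lt
  · have h2 := inv_le (a := 7) (b := n) (by norm_num) hn
    push_cast at h2 ⊢
    linarith
  · intro j hj
    have hz : ∀ k σ, k % 2 = 0 → patLen 2 3 n 2 (8 * j + 0) k σ = 0 →
        psz 2 n (oth (patC 3 2 k)) = n ∧ k ≠ 0 := by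
      intro k σ hk h0
      have h1 := zero_side hOK hk h0
      rcases patC_spec hOK k with h2 | h2 | h2
      · refine ⟨by omega, ?_⟩
        rintro rfl
        omega
      · omega
      · omega
    have hG : (pat hOK j).Good := by
      refine pat_good hOK (by omega) ?_
      intro k σ hc h0
      have := (hz k σ (pat_true hOK hc) h0).1
      omega
    refine pat_tame hOK (by omega) hG ((pat hOK j).pshort_b4 ?_ rfl hn ?_) ?_
    · intro k σ hc
      rw [pat_len, patLen_odd' (pat_false hOK hc)]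
    · intro k σ hc h0
      have hk := pat_true hOK hc
      have h1 := one_edge hOK hk h0
      rcases patC_spec hOK k with h2 | h2 | h2 <;> omega
    · intro σ h0
      exact absurd rfl (hz 0 σ rfl h0).2

end Pool.Agent.SLE
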