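import Pool.Agent.SLE.FamB1Lad

/-!
# The family `(2, m, n)` with even `m`: orders with `b < a, A`
-/

namespace Pool.Agent.SLE

open List G3

section FamB1

open VLad

variable {m n : ℕ} (hm : 4 ≤ m) (he : m % 2 = 0) (hn : 5 ≤ n)

include hm he hn

theorem ladB1_len_P (J k : ℕ) (σ : Bool) (hc : ((ladB1 hm he hn J).c k).2 = false) :
    2 ≤ (ladB1 hm he hn J).len k σ := ladB1_P hm he hn J k σ hc

theorem ladB1_psz_Z (J k : ℕ) (σ : Bool) (h0 : (ladB1 hm he hn J).len k σ = 0) :
    psz 2 n (oth ((ladB1 hm he hn J).c k)) = n := by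
  have h := ladB1_Z hm he hn J k σ h0
  rw [ladB1_c, h]
  rfl

theorem ladB1_good (J : ℕ) : (ladB1 hm he hn J).Good := by
  refine (ladB1 hm he hn J).good_of le_rfl (by omega) ?_ ?_ ?_
  · intro k σ hc
    have := ladB1_len_P hm he hn J k σ hc
    omega
  · intro k σ hc h0
    rw [ladB1_psz_Z hm he hn J k σ h0]
    omega
  · intro k σ hc h0 h1 _
    exfalso
    have h2 := (ladB1 hm he hn J).alternate k
    rw [hc] at h2
    have := ladB1_len_P hm he hn J (k + 1) σ h2
    omega

theorem ladB1_tame (J : ℕ) : (ladB1 hm he hn J).Tame := by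
  have hG := ladB1_good hm he hn J
  refine { toGood := hG, hm := by omega, short := ?_, four := ?_, bot := ?_, bot' := ?_ }
  · exact pshort_B _ hm hn (ladB1_len_P hm he hn J)
      (fun k σ _ h1 => ladB1_S hm he hn J k σ h1)
  · intro σ i h1 h2 h3 _
    obtain ⟨k, hk, hl0, hl1, hl2, hk2, hc, hu, huniq⟩ :=
      (ladB1 hm he hn J).triple_rung hG.hP h1 h2 (by rw [h3, h2])
    have h4 := (ladB1 hm he hn J).alternate k
    rw [hc] at h4
    have := ladB1_len_P hm he hn J (k + 1) σ h4
    omega
  · intro σ h0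
    exfalso
    have h1 := ladB1_Z hm he hn J 0 σ h0
    have h2 : bC J 0 = lB' := by
      unfold bC
      rw [if_pos (by omega), if_pos (by omega), if_pos rfl]
    rw [h2] at h1
    exact absurd h1 (by decide)
  · right
    have h2 : bC J 0 = lB' := by
      unfold bC
      rw [if_pos (by omega), if_pos (by omega), if_pos rfl]
    rw [ladB1_c, h2]
    change 4 ≤ n
    omega

theorem ladB1_even (J : ℕ) {σ : Bool} {i : ℕ} (h : (ladB1 hm he hn J).Even σ i) :
    ((ladB1 hm he hn J).u σ i).1 = 0 ∧ (ladB1 hm he hn J).capR σ i = 1 := by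
  have h1 := h.1
  have h2 := h.2
  rcases (ladB1 hm he hn J).capR_cases h1 with h3 | h3
  · refine ⟨?_, h3.1⟩
    by_contra h4
    have h5 : psz 2 n ((ladB1 hm he hn J).u σ i) = n := by
      unfold psz
      rw [if_neg h4]
    omega
  · exfalso
    have h5 : psz 2 n ((ladB1 hm he hn J).u σ i) = 2 ∨
        psz 2 n ((ladB1 hm he hn J).u σ i) = n := by
      unfold psz
      split_ifs
      · left; rfl
      · right; rfl
    omega

theorem ladB1_mid (J : ℕ) (σ : Bool) (i : ℕ) : ¬ (ladB1 hm he hn J).Mid σ i := by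
  rintro ⟨i', -, h1, h2⟩
  have := (ladB1_even hm he hn J h1).2
  omega

/-- The height potential: the number of the rungs `a` below. -/
noncomputable def ladB1_cnt (J i : ℕ) : ℕ :=
  ((Finset.range J).filter fun j => (ladB1 hm he hn J).pos false (6 * j + 6) < i).card

theorem ladB1_cnt_mono (J : ℕ) {i i' : ℕ} (h : i ≤ i') :
    ladB1_cnt hm he hn J i ≤ ladB1_cnt hm he hn J i' := by
  unfold ladB1_cnt
  apply Finset.card_le_card
  intro j hj
  rw [Finset.mem_filter] at hj ⊢
  exact ⟨hj.1, by omega⟩

theorem ladB1_cnt_le (J i : ℕ) : ladB1_cnt hm he hn J i ≤ J := by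
  unfold ladB1_cnt
  refine (Finset.card_filter_le _ _).trans ?_
  rw [Finset.card_range]

theorem ladB1_cnt_pos (J k : ℕ) : ladB1_cnt hm he hn J ((ladB1 hm he hn J).pos false k) =
    min J ((k - 1) / 6) := by
  unfold ladB1_cnt
  have h : (Finset.range J).filter (fun j => (ladB1 hm he hn J).pos false (6 * j + 6) <
      (ladB1 hm he hn J).pos false k) = Finset.range (min J ((k - 1) / 6)) := by
    ext j
    rw [Finset.mem_filter, Finset.mem_range, Finset.mem_range]
    constructor
    · rintro ⟨h1, h2⟩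
      have h3 : 6 * j + 6 < k := by
        by_contra h4
        have := (ladB1 hm he hn J).pos_mono false (show k ≤ 6 * j + 6 by omega)
        omega
      omega
    · intro h1
      refine ⟨by omega, ?_⟩
      have h2 := (ladB1 hm he hn J).pos_mono false (show 6 * j + 7 ≤ k by omega)
      have h3 := (ladB1 hm he hn J).pos_succ false (6 * j + 6)
      have h4 : 2 ≤ (ladB1 hm he hn J).len (6 * j + 6) false := by
        apply ladB1_len_P
        rw [ladB1_c]
        unfold bC
        rw [if_pos (by omega), if_pos (by omega), if_neg (by omega)]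
      rw [h3] at h2
      omega
  rw [h, Finset.card_range]

/-- The height potential. -/
noncomputable def ladB1_H (J : ℕ) (σ : Bool) (i : ℕ) : ℤ :=
  if σ then 0 else -1 - (ladB1_cnt hm he hn J i : ℤ)

theorem ladB1_off_le (J k : ℕ) : |(ladB1 hm he hn J).off 1 k| ≤ 1 := by
  rw [ladB1_off, abs_le]
  split_ifs <;> constructor <;> omega

theorem ladB1_hcond (J : ℕ) : (ladB1 hm he hn J).HCond 1 1 (ladB1_H hm he hn J) where
  line := by
    intro σ i
    unfold ladB1_H
    cases σ
    · simp only [Bool.false_eq_true, if_false]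
      have := ladB1_cnt_mono hm he hn J (show i ≤ i + 1 by omega)
      omega
    · simp
  even := by
    intro σ i h
    obtain ⟨h1, h2⟩ := ladB1_even hm he hn J h
    have h3 : fht (plt ((ladB1 hm he hn J).u σ i)) = 0 := by
      unfold plt
      rw [h1]
      rfl
    rw [h3, mul_zero, h2]
    unfold ladB1_H
    cases σ
    · simp only [Bool.false_eq_true, if_false]
      have := ladB1_cnt_mono hm he hn J (show i ≤ i + 1 by omega)
      omega
    · simp
  rl := by
    intro k hk
    have h1 := ladB1_hgt hm he hn J k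
    have h2 := ladB1_cnt_pos hm he hn J k
    rw [ladB1_off] at hk
    unfold ladB1_H
    simp only [Bool.false_eq_true, if_false, if_true]
    rw [h1, h2]
    split_ifs at hk ⊢ <;> omega
  lr := by
    intro k hk
    have h1 := ladB1_hgt hm he hn J k
    have h2 := ladB1_cnt_pos hm he hn J k
    rw [ladB1_off] at hk
    unfold ladB1_H
    simp only [Bool.false_eq_true, if_false, if_true]
    rw [h1, h2]
    split_ifs at hk ⊢ <;> omega

theorem ladB1_u0 (J : ℕ) : (ladB1 hm he hn J).u true 0 = lA' := by
  have h0 : (ladB1 hm he hn J).c 0 = lB' := by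
    rw [ladB1_c]
    unfold bC
    rw [if_pos (by omega), if_pos (by omega), if_pos rfl]
  have h1 : 0 < (ladB1 hm he hn J).len 0 true := by
    have := ladB1_len_P hm he hn J 0 true (by rw [h0])
    omega
  have h2 := (ladB1 hm he hn J).u_eq h1
  have h3 : (ladB1 hm he hn J).pos true 0 + 0 = 0 := rfl
  rw [h3] at h2
  rw [h2]
  unfold ul
  rw [h0]
  rfl

theorem ladB1_u (J k : ℕ) (hk : k < 6 * J + 1) (ho : (ladB1 hm he hn J).off 1 k = -1) :
    (ladB1 hm he hn J).u false ((ladB1 hm he hn J).pos false k) = lB ∧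
      ((ladB1 hm he hn J).c k = lA ∨ (ladB1 hm he hn J).c k = lA') := by
  have key : ∀ k, 0 < k → k < 6 * J + 5 → k % 6 = 0 →
      (ladB1 hm he hn J).u false ((ladB1 hm he hn J).pos false k) = lB := by
    intro k hk hkJ h6
    have h0 : (ladB1 hm he hn J).c k = lA' := by
      rw [ladB1_c]
      unfold bC
      rw [if_pos hkJ, if_pos h6, if_neg (by omega)]
    have h1 : 0 < (ladB1 hm he hn J).len k false := by
      have := ladB1_len_P hm he hn J k false (by rw [h0])
      omega
    have h2 := (ladB1 hm he hn J).u_eq h1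
    rw [Nat.add_zero] at h2
    rw [h2]
    unfold ul
    rw [h0]
    rfl
  have h5 : k % 6 = 5 ∨ (k % 6 = 0 ∧ 0 < k) := by
    rw [ladB1_off] at ho
    split_ifs at ho <;> omega
  rcases h5 with h5 | ⟨h5, h6⟩
  · have h7 : (ladB1 hm he hn J).len k false = 0 := by
      rw [ladB1_len]
      unfold bL
      rw [if_pos (by omega), if_neg (by omega), if_neg (by omega), if_neg (by omega),
        if_neg (by omega), if_neg (by omega)]
    have h8 := (ladB1 hm he hn J).pos_succ false k
    have h9 : (ladB1 hm he hn J).pos false k = (ladB1 hm he hn J).pos false (k + 1) := by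
      omega
    refine ⟨?_, Or.inl ?_⟩
    · rw [h9]
      exact key (k + 1) (by omega) (by omega) (by omega)
    · rw [ladB1_c]
      unfold bC
      rw [if_pos (by omega), if_neg (by omega), if_pos h5]
  · refine ⟨key k h6 (by omega) h5, Or.inr ?_⟩
    rw [ladB1_c]
    unfold bC
    rw [if_pos (by omega), if_pos h5, if_neg (by omega)]

theorem ladB1_cnt_top (J i : ℕ) (hi : (ladB1 hm he hn J).pos false (6 * J + 1) ≤ i + 1) :
    ladB1_cnt hm he hn J i = J := by
  unfold ladB1_cnt
  rw [Finset.filter_true_of_mem, Finset.card_range]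
  intro j hj
  rw [Finset.mem_range] at hj
  have h2 := (ladB1 hm he hn J).pos_mono false (show 6 * j + 6 ≤ 6 * J by omega)
  have h3 := (ladB1 hm he hn J).pos_succ false (6 * J)
  have h4 : 2 ≤ (ladB1 hm he hn J).len (6 * J) false := by
    apply ladB1_len_P
    rw [ladB1_c]
    unfold bC
    rw [if_pos (by omega), if_pos (by omega), if_neg (by omega)]
  omega

end FamB1

open VLad in
/-- `(2, m, n)` with even `m ≥ 4` and `n ≥ 5`, `b` smaller than `a` and `a⁻¹`. -/
theorem notFD_B1 {m n : ℕ} (hm : 4 ≤ m) (he : m % 2 = 0) (hn : 5 ≤ n)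
    (lt : Letter → Letter → Prop) [IsStrictTotalOrder Letter lt] (h1 : lt lB lA)
    (h2 : lt lB lA') : ¬ FiniteDiff 2 m n lt := by
  have hyp : (1 / (2 : ℕ) + 1 / m + 1 / n : ℚ) < 1 := by
    have e1 := inv_le (a := 4) (b := m) (by norm_num) hm
    have e2 := inv_le (a := 5) (b := n) (by norm_num) hn
    push_cast at e1 e2 ⊢
    linarith
  refine not_finiteDiff_of_diverge2 le_rfl (by omega) (by omega) hyp lt 1 ?_
  intro N
  have hT := ladB1_tame hm he hn N
  obtain ⟨val, κ, hc⟩ := (ladB1 hm he hn N).exists_cval' hT.toGood (by omega) hyp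
  have hoff := ladB1_off hm he hn N
  have hhgt := ladB1_hgt hm he hn N
  have hc0 : (ladB1 hm he hn N).c 0 = lB' := by
    rw [ladB1_c]
    unfold bC
    rw [if_pos (by omega), if_pos (by omega), if_pos rfl]
  have hlen0 : ∀ σ, 2 ≤ (ladB1 hm he hn N).len 0 σ := fun σ =>
    ladB1_len_P hm he hn N 0 σ (by rw [hc0])
  have hcnt := ladB1_cnt_top hm he hn N
  have hlastu := ladB1_u hm he hn N
  have hu0 := ladB1_u0 hm he hn N
  have hmid := ladB1_mid hm he hn N
  have heven := fun (σ : Bool) (i : ℕ) (h : (ladB1 hm he hn N).Even σ i) =>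
    ladB1_even hm he hn N h
  have hH := ladB1_hcond hm he hn N
  have ho := ladB1_off_le hm he hn N
  have hH' : ∀ σ i, ladB1_H hm he hn N σ i =
    if σ then 0 else -1 - (ladB1_cnt hm he hn N i : ℤ) := fun _ _ => rfl
  generalize hV : ladB1 hm he hn N = V at *
  have o0 : V.off 1 0 = 1 := by
    rw [hoff, if_pos (by omega), if_pos rfl, if_pos rfl]
  have oK : V.off 1 (6 * N + 1) = 1 := by
    rw [hoff, if_pos (by omega), if_neg (by omega), if_neg (by omega), if_neg (by omega)]
  have ok' : V.off 1 (6 * N + 5) = -1 := by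
    rw [hoff, if_neg (by omega)]
  have oK2 : V.off 1 (8 * N + 7) = -1 := by
    rw [hoff, if_neg (by omega)]
  have gK : V.hgt (6 * N + 1) = N + 1 := by
    rw [hhgt, if_pos (by omega), if_neg (by omega)]
    omega
  have gk' : V.hgt (6 * N + 5) = N + 1 := by
    rw [hhgt, if_neg (by omega)]
    omega
  have gK2 : V.hgt (8 * N + 7) = 2 * N + 2 := by
    rw [hhgt, if_neg (by omega)]
    omega
  have g0 : V.hgt 0 = 0 := rfl
  have hposK : V.pos false (6 * N + 1) = V.pos true (6 * N + 1) := by
    unfold VLad.off at oK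
    omega
  have hpos1 : 2 ≤ V.pos false (6 * N + 1) := by
    have e1 := V.pos_mono false (show 1 ≤ 6 * N + 1 by omega)
    have e2 : V.pos false 1 = 0 + V.len 0 false := rfl
    have := hlen0 false
    omega
  obtain ⟨i0, hi0⟩ : ∃ i0, V.pos false (6 * N + 1) = i0 + 1 :=
    ⟨V.pos false (6 * N + 1) - 1, by omega⟩
  -- the first word
  have t1 := line_tight hc 1 true 0 (V.pos true (6 * N + 1))
  rw [Nat.zero_add] at t1
  have t2 := cross_rl hc 1 (6 * N + 1) oK
  have t3 := line_tight hc 1 false (V.pos false (6 * N + 1))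
    (V.pos false (8 * N + 7) - V.pos false (6 * N + 1))
  rw [Nat.add_sub_cancel' (V.pos_mono false (by omega))] at t3
  have t4 := cross_lr hc 1 (8 * N + 7) oK2
  -- the second word
  have r1 := cross_rl hc 1 0 o0
  obtain ⟨w, hw1, hw2, hw3⟩ := line_loc hT hc 1 (lt := lt) false 0 i0 (hmid _ _) (hmid _ _) 0
    (fun j hj hj1 => by
      have := (heven _ _ hj).1
      rw [hj1] at this
      exact absurd this (by decide))
    (by
      intro k _ hk hok z hz
      simp only [Bool.false_eq_true, if_false] at hok ⊢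
      have hk' : k < 6 * N + 1 := by
        by_contra hcon
        have := V.pos_mono false (show 6 * N + 1 ≤ k by omega)
        omega
      obtain ⟨e1, e2⟩ := hlastu k hk' hok
      rcases hz with ⟨hz, -⟩ | ⟨-, hz, -⟩
      · rw [hz, e1]
        rcases e2 with e2 | e2
        · rw [e2]; exact h1
        · rw [e2]; exact h2
      · have := (heven _ _ hz).1
        rw [e1] at this
        exact absurd this (by decide))
  rw [Nat.zero_add] at hw2
  have s1 := line_tight hc 1 false i0 (V.pos false (6 * N + 5) - i0)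
  rw [Nat.add_sub_cancel' (by
    have := V.pos_mono false (show 6 * N + 1 ≤ 6 * N + 5 by omega)
    omega)] at s1
  have s2 := cross_lr hc 1 (6 * N + 5) ok'
  have s3 := line_tight hc 1 true (V.pos true (6 * N + 5))
    (V.pos true (8 * N + 7) - V.pos true (6 * N + 5))
  rw [Nat.add_sub_cancel' (V.pos_mono true (by omega))] at s3
  have hloc : LocRun (V.csys hT.toGood).mv (V.cF 1) (fun _ _ _ => True) lt
      (Sum.inl (true, 0)) [flip (V.c 0)] (Sum.inl (false, 0)) := by
    obtain ⟨x', e1, e2, e3⟩ := r1.1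
    have e4 : x' = Sum.inl (false, 0) := e3
    subst e4
    refine LocRun.single e1 e2 ?_
    intro y x'' a1 a2 _
    rw [DSys.mv_iff] at a1
    rcases V.tight_line hT.toGood 1 true 0 y x'' a1 a2 with ⟨a3, -⟩ | ⟨-, a3, -⟩ | ⟨k, a3, -, a4, -⟩
    · right
      rw [a3, hu0, hc0]
      exact h2
    · right
      rw [a3, hu0, hc0]
      exact h1
    · left
      have hk : k = 0 := by
        by_contra hk
        have e1 := V.pos_mono true (show 1 ≤ k by omega)
        have e2 : V.pos true 1 = 0 + V.len 0 true := rfl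
        have := hlen0 true
        omega
      rw [a4, hk]
      rfl
  have kw2 : kap (V.csys hT.toGood).mv κ (Sum.inl (true, 0)) ([flip (V.c 0)] ++ w) = 0 := by
    rw [kap_append hloc.tight.spec.1, hw3]
    have := r1.2
    rw [g0] at this
    change kap _ _ (Sum.inl (true, V.pos true 0)) _ + _ = 0
    rw [this]
    simp
  have kw1 : kap (V.csys hT.toGood).mv κ (Sum.inl (true, 0))
      (V.lword true 0 (V.pos true (6 * N + 1)) ++ ([flip (V.c (6 * N + 1))] ++
        V.lword false (V.pos false (6 * N + 1))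
          (V.pos false (8 * N + 7) - V.pos false (6 * N + 1)))) = -(N + 1) := by
    rw [kap_append t1.1.spec.1, kap_append t2.1.spec.1, t1.2, t2.2, t3.2, gK]
    ring
  refine master hT (by omega) hyp hc ho (Or.inl rfl) hH (lt := lt) (s := (true, 0))
    (s1 := (false, V.pos false (8 * N + 7))) (s2 := (true, V.pos true (8 * N + 7)))
    (τ := false) (K := 6 * N + 1) (i0 := i0) (i1 := i0 + 1) (c := [V.c (8 * N + 7)])
    (w2 := [flip (V.c 0)] ++ w)
    (t1.1.append (t2.1.append t3.1)) ?_ (hloc.append hw2) (s1.1.append (s2.1.append s3.1))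
    t4.1.spec.1 (by simp) ?_ ?_ ?_ (Or.inl ?_) (hmid _ _) (hmid _ _) ?_ ?_
  · rw [kw1, hH', hH', hcnt _ (by
      have := V.pos_mono false (show 6 * N + 1 ≤ 8 * N + 7 by omega)
      omega)]
    simp
    ring
  · rw [kw1, kap_append (hloc.append hw2).tight.spec.1, kw2]
    change _ + kap _ _ (Sum.inl (false, V.pos false (8 * N + 7))) _ =
      0 + kap _ _ (Sum.inl (false, i0)) _
    rw [t4.2, kap_append s1.1.spec.1, kap_append s2.1.spec.1, s1.2, s2.2, s3.2, gK2, gk']
    ring
  · simp only [List.length_append, List.length_cons, List.length_nil, hw1, VLad.lword,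
      List.length_map, List.length_range']
    omega
  · push_cast
    ring
  · omega
  · rw [kw2, hH', hH', gK]
    simp only [Bool.false_eq_true, if_false, if_true]
    rw [lt_abs]
    left
    ring_nf
    omega
  · rw [kw2, hH', hH', gK, hcnt i0 (by omega)]
    simp only [Bool.false_eq_true, if_false, if_true]
    rw [lt_abs]
    left
    ring_nf
    omega

end Pool.Agent.SLE
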