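import Pool.Agent.SLE.Master
import Pool.Agent.SLE.FamA

/-!
# The ladder for the family `(2, m, n)` with even `m`: orders with `b < a, A`
-/

namespace Pool.Agent.SLE

open List G3

namespace VLad

variable {l m n : ℕ} (V : VLad l m n)

/-- Consecutive edges of a side of a P-cell. -/
theorem side_ne {K : ℕ} {σ : Bool} (hc : (V.c K).2 = false) {j : ℕ} (hj : j + 1 < V.len K σ) :
    V.isP σ (V.pos σ K + j) ∧ V.isP σ (V.pos σ K + (j + 1)) ∧
      V.u σ (V.pos σ K + (j + 1)) ≠ V.u σ (V.pos σ K + j) := by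
  refine ⟨(V.isP_iff (by omega)).2 hc, (V.isP_iff (by omega)).2 hc, ?_⟩
  rw [V.u_eq hj, V.u_eq (by omega)]
  have hne : ∀ z : Letter, z.2 = false → nxt z ≠ z ∧ flip (nxt z) ≠ flip z := by decide
  unfold ul
  have hz : (nxt^[j + 1] (V.c K)).2 = false := by rw [nxt_iter_snd, hc]
  rw [Function.iterate_succ_apply' nxt (j + 1)]
  cases σ
  · exact (hne _ hz).2
  · exact (hne _ hz).1

/-- A side of a Q- or N-cell with one edge, with its rungs. -/
theorem one_side_pos (hP : ∀ k σ, (V.c k).2 = false → 0 < V.len k σ) {σ : Bool} {i : ℕ}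
    (h1 : V.isP σ i) (h2 : ¬ V.isP σ (i + 1)) (h3 : V.isP σ (i + 2)) :
    ∃ k, V.len k σ = 1 ∧ (V.c k).2 = true ∧ V.pos σ k = i + 1 ∧ V.pos σ (k + 1) = i + 2 := by
  rcases V.vertex_cases hP σ i with h | h | h | h | h
  · exact absurd h1 h.1
  · exact absurd h1 h.1
  · obtain ⟨-, -, k, hk, hc, huniq, -⟩ := h
    rcases V.vertex_cases hP σ (i + 1) with h' | h' | h' | h' | h'
    · exact absurd h3 h'.2.1
    · obtain ⟨-, -, k2, hk2, hc2, huniq2, -⟩ := h'
      have h4 : k + 1 ≤ k2 := by
        by_contra hcon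
        have h8 : V.pos σ k2 ≤ V.pos σ k := V.pos_mono σ (by omega)
        omega
      have h5 := V.pos_mono σ h4
      have h6 := V.pos_succ σ k
      have h7 : V.pos σ (k + 1) ≠ i + 1 := by
        intro h
        have := huniq _ h
        omega
      exact ⟨k, by omega, hc, hk, by omega⟩
    · exact absurd h'.1 h2
    · exact absurd h'.1 h2
    · exact absurd h'.1 h2
  · exact absurd h.2.1 h2
  · exact absurd h.2.1 h2

/-- No long paths along the outer `2m`-gons, for `l = 2`. -/
theorem pshort_B (hm : 4 ≤ m) (hn : 5 ≤ n)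
    (hP2 : ∀ k σ, (V.c k).2 = false → 2 ≤ V.len k σ)
    (hS : ∀ k σ, (V.c k).2 = true → V.len k σ = 1 → 3 ≤ V.len (k + 1) σ ∧
      ∀ k', k = k' + 1 → 3 ≤ V.len k' σ) : V.PShort := by
  have hP : ∀ k σ, (V.c k).2 = false → 0 < V.len k σ := fun k σ h => by
    have := hP2 k σ h
    omega
  rintro σ i ⟨h1, h2⟩
  have p0 := h1 0 (by omega)
  have p1 := h1 1 (by omega)
  have p2 := h1 2 (by omega)
  have q1 := h2 1 le_rfl (by omega)
  have q2 := h2 2 (by omega) (by omega)
  rw [Nat.add_zero] at p0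
  have two : ∀ j, V.isP σ j → V.single σ j → psz l n (V.u σ j) ≤ 3 := by
    intro j hj hs
    rcases hs with h | h
    · exact absurd hj h
    · omega
  have fin : ∀ a b, V.isP σ a → V.isP σ b → V.u σ a ≠ V.u σ b → psz l n (V.u σ a) ≤ 3 →
      psz l n (V.u σ b) ≤ 3 → False := by
    intro a b ha hb hab h1 h2
    have := V.letters_of_ne ha hb hab h1 h2
    omega
  by_cases w1 : V.isP σ (i + 1)
  · have w2 : ¬ V.isP σ (i + 2) := by
      intro w2
      exact fin _ _ w1 w2 (V.pass_ne p1).symm (two _ w1 q1) (two _ w2 q2)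
    have w3 : V.isP σ (i + 3) := (V.pass_cov p2).2.2.resolve_left w2
    obtain ⟨k, hk1, hkc, hk2, -⟩ := V.one_side_pos hP (i := i + 1) w1 w2 w3
    obtain ⟨k', rfl⟩ : ∃ k', k = k' + 1 := by
      rcases Nat.eq_zero_or_pos k with h | h
      · rw [h] at hk2
        have : V.pos σ 0 = 0 := rfl
        omega
      · exact ⟨k - 1, by omega⟩
    have hlen := (hS _ σ hkc hk1).2 k' rfl
    have hc' : (V.c k').2 = false := by
      have := V.alternate k'
      rw [hkc] at this
      cases h : (V.c k').2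
      · rfl
      · rw [h] at this
        cases this
    have hpos := V.pos_succ σ k'
    obtain ⟨a, ha⟩ : ∃ a, V.len k' σ = a + 3 := ⟨V.len k' σ - 3, by omega⟩
    have e0 : V.pos σ k' + a + 1 = i := by omega
    have e1 : V.pos σ k' + (a + 1) = i := by omega
    have e2 : V.pos σ k' + (a + 1 + 1) = i + 1 := by omega
    obtain ⟨-, -, n1⟩ := V.side_ne hc' (σ := σ) (j := a) (by omega)
    obtain ⟨r1, -, n2⟩ := V.side_ne hc' (σ := σ) (j := a + 1) (by omega)
    rw [e1] at r1 n1 n2
    rw [e2] at n2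
    have hcov := (V.pass_cov p0).1 r1
    rw [← e0] at hcov
    have h3 := V.psz_of_cov hcov (by rw [e0]; exact n1.symm) (by
      rw [show V.pos σ k' + a + 2 = i + 1 by omega, e0]
      exact n2)
    rw [e0] at h3
    exact fin _ _ r1 w1 n2.symm h3 (two _ w1 q1)
  · have w2 : V.isP σ (i + 2) := (V.pass_cov p1).2.2.resolve_left w1
    have w0 : V.isP σ i := (V.pass_cov p0).2.2.resolve_right w1
    obtain ⟨k, hk1, hkc, -, hk2⟩ := V.one_side_pos hP w0 w1 w2
    have hlen := (hS _ σ hkc hk1).1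
    have hc' : (V.c (k + 1)).2 = false := by
      rw [V.alternate, hkc]
      rfl
    have e0 : V.pos σ (k + 1) + 0 = i + 2 := by omega
    have e1 : V.pos σ (k + 1) + (0 + 1) = i + 3 := by omega
    have e2 : V.pos σ (k + 1) + (0 + 1 + 1) = i + 4 := by omega
    obtain ⟨-, r1, n1⟩ := V.side_ne hc' (σ := σ) (j := 0) (by omega)
    obtain ⟨-, -, n2⟩ := V.side_ne hc' (σ := σ) (j := 0 + 1) (by omega)
    rw [e1] at r1
    rw [e1, e0] at n1
    rw [e2, e1] at n2
    have h3 := V.psz_of_cov (i := i + 2) ((V.pass_cov p2).2.1 r1) n1.symm n2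
    exact fin _ _ w2 r1 n1.symm (two _ w2 q2) h3

end VLad

section FamB1

open VLad

/-- The letters of the rungs. -/
def bC (J k : ℕ) : Letter :=
  if k < 6 * J + 5 then
    if k % 6 = 0 then (if k = 0 then lB' else lA')
    else if k % 6 = 5 then lA
    else if k % 2 = 1 then lB else lB'
  else if k % 2 = 1 then lA else lA'

/-- The lengths of the sides. -/
def bL (m n J k : ℕ) (σ : Bool) : ℕ :=
  if k < 6 * J + 5 then
    if k % 6 = 0 then (if k = 0 then m - 1 else if σ then m - 2 else m)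
    else if k % 6 = 1 then (if σ then n - 2 - (n - 2) / 2 else (n - 2) / 2)
    else if k % 6 = 2 then m - 1
    else if k % 6 = 3 then (if σ then (n - 2) / 2 else n - 2 - (n - 2) / 2)
    else if k % 6 = 4 then (if σ then m else m - 2)
    else 0
  else if k % 2 = 1 then 0 else m - 1

theorem b_cases (m n J k : ℕ) :
    (k = 0 ∧ bC J k = lB' ∧ ∀ σ, bL m n J k σ = m - 1) ∨
    (k % 6 = 0 ∧ 0 < k ∧ k < 6 * J + 5 ∧ bC J k = lA' ∧ bL m n J k false = m ∧
      bL m n J k true = m - 2) ∨
    (k % 6 = 1 ∧ k < 6 * J + 5 ∧ bC J k = lB ∧ bL m n J k false = (n - 2) / 2 ∧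
      bL m n J k true = n - 2 - (n - 2) / 2) ∨
    (k % 6 = 2 ∧ k < 6 * J + 5 ∧ bC J k = lB' ∧ bL m n J k false = m - 1 ∧
      bL m n J k true = m - 1) ∨
    (k % 6 = 3 ∧ k < 6 * J + 5 ∧ bC J k = lB ∧ bL m n J k false = n - 2 - (n - 2) / 2 ∧
      bL m n J k true = (n - 2) / 2) ∨
    (k % 6 = 4 ∧ k < 6 * J + 5 ∧ bC J k = lB' ∧ bL m n J k false = m - 2 ∧
      bL m n J k true = m) ∨
    (k % 6 = 5 ∧ k < 6 * J + 5 ∧ bC J k = lA ∧ bL m n J k false = 0 ∧
      bL m n J k true = 0) ∨
    (k % 2 = 1 ∧ 6 * J + 5 ≤ k ∧ bC J k = lA ∧ bL m n J k false = 0 ∧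
      bL m n J k true = 0) ∨
    (k % 2 = 0 ∧ 6 * J + 5 ≤ k ∧ bC J k = lA' ∧ bL m n J k false = m - 1 ∧
      bL m n J k true = m - 1) := by
  unfold bC bL
  by_cases h : k < 6 * J + 5
  · by_cases h0 : k = 0
    · left
      subst h0
      simp
    · have h6 : k % 6 = 0 ∨ k % 6 = 1 ∨ k % 6 = 2 ∨ k % 6 = 3 ∨ k % 6 = 4 ∨ k % 6 = 5 := by omega
      rcases h6 with h6 | h6 | h6 | h6 | h6 | h6
      · simp [h, h0, h6]
        omega
      · have h2 : k % 2 = 1 := by omega
        simp [h, h0, h6, h2]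
      · have h2 : k % 2 = 0 := by omega
        simp [h, h0, h6, h2]
      · have h2 : k % 2 = 1 := by omega
        simp [h, h0, h6, h2]
      · have h2 : k % 2 = 0 := by omega
        simp [h, h0, h6, h2]
      · simp [h, h0, h6]
  · have h0 : k ≠ 0 := by omega
    have h' : 6 * J + 5 ≤ k := by omega
    rcases Nat.mod_two_eq_zero_or_one k with h2 | h2
    · simp [h, h0, h2, h']
    · simp [h, h0, h2, h']

/-- The ladder. -/
def ladB1 {m n : ℕ} (hm : 4 ≤ m) (he : m % 2 = 0) (hn : 5 ≤ n) (J : ℕ) : VLad 2 m n where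
  c := bC J
  len := bL m n J
  cyc := by
    intro k
    have fA : fper 2 m n lA = 2 := rfl
    have fA' : fper 2 m n lA' = 2 * m := rfl
    have fB : fper 2 m n lB = n := rfl
    have fB' : fper 2 m n lB' = 2 * m := rfl
    rcases b_cases m n J k with h | h | h | h | h | h | h | h | h
    · obtain ⟨-, hc, hl⟩ := h
      rw [hc, hl, hl, fB']
      omega
    all_goals
      first
      | (obtain ⟨-, -, -, hc, hl, hr⟩ := h
         rw [hc, hl, hr]
         omega)
      | (obtain ⟨-, -, hc, hl, hr⟩ := h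
         rw [hc, hl, hr]
         omega)
  step := by
    intro k
    rcases b_cases m n J k with h | h | h | h | h | h | h | h | h
    · obtain ⟨rfl, hc, hl⟩ := h
      rw [hc, hl, show m - 1 + 1 = m by omega, nxt_iter_lB', if_pos he]
      unfold bC
      split_ifs <;> first | rfl | contradiction | omega
    · obtain ⟨h6, h0, hk, hc, -, hr⟩ := h
      rw [hc, hr, nxt_iter_lA', if_neg (by omega)]
      unfold bC
      split_ifs <;> first | rfl | contradiction | omega
    · obtain ⟨h6, hk, hc, -, hr⟩ := h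
      rw [hc, VLad.nxt_iter_pos rfl]
      unfold bC
      split_ifs <;> first | rfl | contradiction | omega
    · obtain ⟨h6, hk, hc, -, hr⟩ := h
      rw [hc, hr, nxt_iter_lB', if_pos (by omega)]
      unfold bC
      split_ifs <;> first | rfl | contradiction | omega
    · obtain ⟨h6, hk, hc, -, hr⟩ := h
      rw [hc, VLad.nxt_iter_pos rfl]
      unfold bC
      split_ifs <;> first | rfl | contradiction | omega
    · obtain ⟨h6, hk, hc, -, hr⟩ := h
      rw [hc, hr, nxt_iter_lB', if_neg (by omega)]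
      unfold bC
      split_ifs <;> first | rfl | contradiction | omega
    · obtain ⟨h6, hk, hc, -, hr⟩ := h
      rw [hc, VLad.nxt_iter_pos rfl]
      unfold bC
      split_ifs <;> first | rfl | contradiction | omega
    · obtain ⟨h6, hk, hc, -, hr⟩ := h
      rw [hc, VLad.nxt_iter_pos rfl]
      unfold bC
      split_ifs <;> first | rfl | contradiction | omega
    · obtain ⟨h6, hk, hc, -, hr⟩ := h
      rw [hc, hr, show m - 1 + 1 = m by omega, nxt_iter_lA', if_pos he]
      unfold bC
      split_ifs <;> first | rfl | contradiction | omega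
  nz := by
    intro k σ h0
    unfold bL at h0 ⊢
    cases σ
    · simp only [Bool.false_eq_true, if_false] at h0 ⊢
      split_ifs at h0 ⊢ <;> omega
    · simp only [if_true] at h0 ⊢
      split_ifs at h0 ⊢ <;> omega

variable {m n : ℕ} (hm : 4 ≤ m) (he : m % 2 = 0) (hn : 5 ≤ n)

include hm he hn

theorem ladB1_c (J k : ℕ) : (ladB1 hm he hn J).c k = bC J k := rfl

theorem ladB1_len (J k : ℕ) (σ : Bool) : (ladB1 hm he hn J).len k σ = bL m n J k σ := rfl

/-- Sides of P-cells. -/
theorem ladB1_P (J k : ℕ) (σ : Bool) (hc : (bC J k).2 = false) : 2 ≤ bL m n J k σ := by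
  rcases b_cases m n J k with h | h | h | h | h | h | h | h | h
  · obtain ⟨-, -, hl⟩ := h
    rw [hl]
    omega
  · obtain ⟨-, -, -, -, hl, hr⟩ := h
    cases σ <;> omega
  · obtain ⟨-, -, hc', -⟩ := h
    rw [hc'] at hc
    cases hc
  · obtain ⟨-, -, -, hl, hr⟩ := h
    cases σ <;> omega
  · obtain ⟨-, -, hc', -⟩ := h
    rw [hc'] at hc
    cases hc
  · obtain ⟨-, -, -, hl, hr⟩ := h
    cases σ <;> omega
  · obtain ⟨-, -, hc', -⟩ := h
    rw [hc'] at hc
    cases hc
  · obtain ⟨-, -, hc', -⟩ := h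
    rw [hc'] at hc
    cases hc
  · obtain ⟨-, -, -, hl, hr⟩ := h
    cases σ <;> omega

/-- Cells without edges. -/
theorem ladB1_Z (J k : ℕ) (σ : Bool) (h0 : bL m n J k σ = 0) : bC J k = lA := by
  rcases b_cases m n J k with h | h | h | h | h | h | h | h | h
  · obtain ⟨-, -, hl⟩ := h
    rw [hl] at h0
    omega
  · obtain ⟨-, -, -, -, hl, hr⟩ := h
    cases σ <;> omega
  · obtain ⟨-, -, -, hl, hr⟩ := h
    cases σ <;> omega
  · obtain ⟨-, -, -, hl, hr⟩ := h
    cases σ <;> omega
  · obtain ⟨-, -, -, hl, hr⟩ := h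
    cases σ <;> omega
  · obtain ⟨-, -, -, hl, hr⟩ := h
    cases σ <;> omega
  · exact h.2.2.1
  · exact h.2.2.1
  · obtain ⟨-, -, -, hl, hr⟩ := h
    cases σ <;> omega

/-- Cells with one edge on a side. -/
theorem ladB1_S (J k : ℕ) (σ : Bool) (h1 : bL m n J k σ = 1) :
    3 ≤ bL m n J (k + 1) σ ∧ ∀ k', k = k' + 1 → 3 ≤ bL m n J k' σ := by
  unfold bL at h1 ⊢
  cases σ
  · simp only [Bool.false_eq_true, if_false] at h1 ⊢
    refine ⟨?_, ?_⟩
    · split_ifs at h1 ⊢ <;> omega
    · rintro k' rfl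
      split_ifs at h1 ⊢ <;> omega
  · simp only [if_true] at h1 ⊢
    refine ⟨?_, ?_⟩
    · split_ifs at h1 ⊢ <;> omega
    · rintro k' rfl
      split_ifs at h1 ⊢ <;> omega


/-- The offsets. -/
theorem ladB1_off (J k : ℕ) : (ladB1 hm he hn J).off 1 k =
    if k < 6 * J + 5 then
      if k % 6 = 0 then (if k = 0 then 1 else -1)
      else if k % 6 = 5 then -1
      else if k % 6 = 2 ∨ k % 6 = 3 then
        1 + (((n - 2) / 2 : ℕ) : ℤ) - ((n - 2 - (n - 2) / 2 : ℕ) : ℤ)
      else 1
    else -1 := by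
  induction k with
  | zero =>
    rw [if_pos (by omega), if_pos rfl, if_pos rfl]
    rfl
  | succ k ih =>
    have h1 : (ladB1 hm he hn J).off 1 (k + 1) = (ladB1 hm he hn J).off 1 k +
        ((bL m n J k false : ℕ) - (bL m n J k true : ℕ)) := by
      unfold VLad.off
      rw [VLad.pos_succ, VLad.pos_succ]
      change ((_ + bL m n J k false : ℕ) : ℤ) + 1 - ((_ + bL m n J k true : ℕ) : ℤ) = _
      push_cast
      ring
    rw [h1, ih]
    rcases b_cases m n J k with h | h | h | h | h | h | h | h | h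
    · obtain ⟨rfl, -, hl⟩ := h
      rw [hl, hl, if_pos (by omega), if_pos rfl, if_pos rfl, if_pos (by omega),
        if_neg (by omega), if_neg (by omega), if_neg (by omega)]
      omega
    · obtain ⟨h6, h0, hk, -, hl, hr⟩ := h
      rw [hl, hr, if_pos hk, if_pos h6, if_neg (by omega), if_pos (by omega),
        if_neg (by omega), if_neg (by omega), if_neg (by omega)]
      omega
    · obtain ⟨h6, hk, -, hl, hr⟩ := h
      rw [hl, hr, if_pos hk, if_neg (by omega), if_neg (by omega), if_neg (by omega),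
        if_pos (by omega), if_neg (by omega), if_neg (by omega), if_pos (by omega)]
      omega
    · obtain ⟨h6, hk, -, hl, hr⟩ := h
      rw [hl, hr, if_pos hk, if_neg (by omega), if_neg (by omega), if_pos (by omega),
        if_pos (by omega), if_neg (by omega), if_neg (by omega), if_pos (by omega)]
      omega
    · obtain ⟨h6, hk, -, hl, hr⟩ := h
      rw [hl, hr, if_pos hk, if_neg (by omega), if_neg (by omega), if_pos (by omega),
        if_pos (by omega), if_neg (by omega), if_neg (by omega), if_neg (by omega)]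
      omega
    · obtain ⟨h6, hk, -, hl, hr⟩ := h
      rw [hl, hr, if_pos hk, if_neg (by omega), if_neg (by omega), if_neg (by omega)]
      by_cases h' : k + 1 < 6 * J + 5
      · rw [if_pos h', if_neg (by omega), if_pos (by omega)]
        omega
      · rw [if_neg h']
        omega
    · obtain ⟨h6, hk, -, hl, hr⟩ := h
      rw [hl, hr, if_pos hk, if_neg (by omega), if_pos h6, if_pos (by omega), if_pos (by omega),
        if_neg (by omega)]
      omega
    · obtain ⟨h6, hk, -, hl, hr⟩ := h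
      rw [hl, hr, if_neg (by omega), if_neg (by omega)]
      omega
    · obtain ⟨h6, hk, -, hl, hr⟩ := h
      rw [hl, hr, if_neg (by omega), if_neg (by omega)]
      omega

/-- The heights. -/
theorem ladB1_hgt (J k : ℕ) : (ladB1 hm he hn J).hgt k =
    if k < 6 * J + 5 then ((k / 6 + (if k % 6 = 0 then 0 else k % 2) : ℕ) : ℤ)
    else ((J + 1 + (k - (6 * J + 5)) / 2 : ℕ) : ℤ) := by
  induction k with
  | zero => rfl
  | succ k ih =>
    have h1 : (ladB1 hm he hn J).hgt (k + 1) = (ladB1 hm he hn J).hgt k - fht (bC J k) := rfl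
    have fA : fht lA = 0 := rfl
    have fA' : fht lA' = -1 := rfl
    have fB : fht lB = 1 := rfl
    have fB' : fht lB' = -1 := rfl
    rw [h1, ih]
    rcases b_cases m n J k with h | h | h | h | h | h | h | h | h
    · obtain ⟨rfl, hc, -⟩ := h
      rw [hc, fB', if_pos (by omega), if_pos (by omega), if_pos (by omega), if_neg (by omega)]
      rfl
    · obtain ⟨h6, h0, hk, hc, -⟩ := h
      rw [hc, fA', if_pos hk, if_pos h6, if_pos (by omega), if_neg (by omega)]
      omega
    · obtain ⟨h6, hk, hc, -⟩ := h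
      rw [hc, fB, if_pos hk, if_neg (by omega), if_pos (by omega), if_neg (by omega)]
      omega
    · obtain ⟨h6, hk, hc, -⟩ := h
      rw [hc, fB', if_pos hk, if_neg (by omega), if_pos (by omega), if_neg (by omega)]
      omega
    · obtain ⟨h6, hk, hc, -⟩ := h
      rw [hc, fB, if_pos hk, if_neg (by omega), if_pos (by omega), if_neg (by omega)]
      omega
    · obtain ⟨h6, hk, hc, -⟩ := h
      rw [hc, fB', if_pos hk, if_neg (by omega)]
      by_cases h' : k + 1 < 6 * J + 5
      · rw [if_pos h', if_neg (by omega)]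
        omega
      · rw [if_neg h']
        omega
    · obtain ⟨h6, hk, hc, -⟩ := h
      rw [hc, fA, if_pos hk, if_neg (by omega), if_pos (by omega), if_pos (by omega)]
      omega
    · obtain ⟨h6, hk, hc, -⟩ := h
      rw [hc, fA, if_neg (by omega), if_neg (by omega)]
      omega
    · obtain ⟨h6, hk, hc, -⟩ := h
      rw [hc, fA', if_neg (by omega), if_neg (by omega)]
      omega

end FamB1

end Pool.Agent.SLE
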