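import Pool.Agent.SLE.FamA

/-!
# The ladders for the family `(2, m, n)` with even `m`
-/

namespace Pool.Agent.SLE

open List G3

namespace B2

/-- The period `p` of the ladder is `4` for even `n`, and `6` for odd `n`. -/
structure OK (p m n : ℕ) : Prop where
  hm : 4 ≤ m
  he : m % 2 = 0
  hn : 5 ≤ n
  hp : (p = 4 ∧ n % 2 = 0) ∨ (p = 6 ∧ n % 2 = 1)

/-- The letters of the rungs. -/
def C (p J k : ℕ) : Letter :=
  if k < p * J + (p - 2) then
    (if k % p = p - 2 then lA else if k % p = p - 1 then lA' else if k % 2 = 0 then lB else lB')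
  else if k % 2 = 0 then lA else lA'

/-- The lengths of the sides. -/
def Len (p m n J k : ℕ) (σ : Bool) : ℕ :=
  if k < p * J + (p - 4) then
    (if k % p = p - 3 then (if σ then m else m - 2)
    else if k % p = p - 2 then 0
    else if k % p = p - 1 then (if σ then m - 2 else m)
    else if k % 2 = 1 then m - 1
    else if k % p = p - 4 then (if σ then n / 2 - 1 else n - 1 - n / 2)
    else (if σ then n / 2 else n - 2 - n / 2))
  else if k = p * J + (p - 4) then (if σ then n / 2 else n - 2 - n / 2)
  else if k = p * J + (p - 3) then (if σ then m - 2 else m)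
  else if k % 2 = 0 then 0 else m - 1

/-- The offsets. -/
def O (p J k : ℕ) : ℤ :=
  if k < p * J + (p - 3) then
    (if p - 2 ≤ k % p then -1 else if k % p = 0 ∨ k % p = p - 3 then 1 else 0)
  else if k = p * J + (p - 3) then -1 else 1

/-- The heights. -/
def Ht (p J k : ℕ) : ℤ :=
  if k < p * J + (p - 2) then
    (if k % 2 = 1 ∧ k % p ≠ p - 1 then (k / p : ℕ) - 1 else (k / p : ℕ))
  else J + ((k - p * J - (p - 2)) / 2 : ℕ)

variable {p m n : ℕ}

theorem C_zero (h : OK p m n) (J : ℕ) : C p J 0 = lB := by
  rcases h.hp with ⟨rfl, h2⟩ | ⟨rfl, h2⟩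
  · unfold C
    rw [if_pos (by omega), if_neg (by omega), if_neg (by omega), if_pos (by omega)]
  · unfold C
    rw [if_pos (by omega), if_neg (by omega), if_neg (by omega), if_pos (by omega)]


theorem spec (h : OK p m n) (J k : ℕ) :
    (k % 2 = 0 ∧ C p J k = lB ∧ C p J (k + 1) = lB' ∧
      Len p m n J k true + Len p m n J k false + 2 = n ∧ 1 ≤ Len p m n J k true ∧
      1 ≤ Len p m n J k false) ∨
    (k % 2 = 0 ∧ C p J k = lA ∧ C p J (k + 1) = lA' ∧
      Len p m n J k true = 0 ∧ Len p m n J k false = 0) ∨
    (k % 2 = 1 ∧ C p J k = lB' ∧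
      ((C p J (k + 1) = lB ∧ Len p m n J k true = m - 1 ∧ Len p m n J k false = m - 1) ∨
      (C p J (k + 1) = lA ∧ Len p m n J k true = m ∧ Len p m n J k false = m - 2) ∨
      (C p J (k + 1) = lA ∧ Len p m n J k true = m - 2 ∧ Len p m n J k false = m))) ∨
    (k % 2 = 1 ∧ C p J k = lA' ∧
      ((C p J (k + 1) = lB ∧ Len p m n J k true = m - 2 ∧ Len p m n J k false = m) ∨
      (C p J (k + 1) = lA ∧ Len p m n J k true = m - 1 ∧ Len p m n J k false = m - 1))) := by
  have hn := h.hn
  have hm := h.hm
  rcases h.hp with ⟨rfl, h2⟩ | ⟨rfl, h2⟩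
  · by_cases k1 : k < 4 * J
    · have hr : k % 4 = 0 ∨ k % 4 = 1 ∨ k % 4 = 2 ∨ k % 4 = 3 := by omega
      rcases hr with hr | hr | hr | hr
      · left
        refine ⟨by omega, by unfold C; split_ifs <;> first | rfl | omega, by unfold C; split_ifs <;> first | rfl | omega, ?_, ?_, ?_⟩ <;>
          (unfold Len; simp only [if_true, Bool.false_eq_true, if_false]; split_ifs <;> omega)
      · right; right; left
        refine ⟨by omega, by unfold C; split_ifs <;> first | rfl | omega, Or.inr (Or.inl ⟨by unfold C; split_ifs <;> first | rfl | omega, ?_, ?_⟩)⟩ <;>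
          (unfold Len; simp only [if_true, Bool.false_eq_true, if_false]; split_ifs <;> omega)
      · right; left
        refine ⟨by omega, by unfold C; split_ifs <;> first | rfl | omega, by unfold C; split_ifs <;> first | rfl | omega, ?_, ?_⟩ <;>
          (unfold Len; simp only [if_true, Bool.false_eq_true, if_false]; split_ifs <;> omega)
      · right; right; right
        refine ⟨by omega, by unfold C; split_ifs <;> first | rfl | omega, Or.inl ⟨by unfold C; split_ifs <;> first | rfl | omega, ?_, ?_⟩⟩ <;>
          (unfold Len; simp only [if_true, Bool.false_eq_true, if_false]; split_ifs <;> omega)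
    · by_cases k2 : k = 4 * J
      · left
        refine ⟨by omega, by unfold C; split_ifs <;> first | rfl | omega, by unfold C; split_ifs <;> first | rfl | omega, ?_, ?_, ?_⟩ <;>
          (unfold Len; simp only [if_true, Bool.false_eq_true, if_false]; split_ifs <;> omega)
      · by_cases k3 : k = 4 * J + 1
        · right; right; left
          refine ⟨by omega, by unfold C; split_ifs <;> first | rfl | omega, Or.inr (Or.inr ⟨by unfold C; split_ifs <;> first | rfl | omega, ?_, ?_⟩)⟩ <;>
          (unfold Len; simp only [if_true, Bool.false_eq_true, if_false]; split_ifs <;> omega)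
        · rcases Nat.mod_two_eq_zero_or_one k with k4 | k4
          · right; left
            refine ⟨by omega, by unfold C; split_ifs <;> first | rfl | omega, by unfold C; split_ifs <;> first | rfl | omega, ?_, ?_⟩ <;>
          (unfold Len; simp only [if_true, Bool.false_eq_true, if_false]; split_ifs <;> omega)
          · right; right; right
            refine ⟨by omega, by unfold C; split_ifs <;> first | rfl | omega, Or.inr ⟨by unfold C; split_ifs <;> first | rfl | omega, ?_, ?_⟩⟩ <;>
          (unfold Len; simp only [if_true, Bool.false_eq_true, if_false]; split_ifs <;> omega)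
  · by_cases k1 : k < 6 * J + 2
    · have hr : k % 6 = 0 ∨ k % 6 = 1 ∨ k % 6 = 2 ∨ k % 6 = 3 ∨ k % 6 = 4 ∨ k % 6 = 5 := by omega
      rcases hr with hr | hr | hr | hr | hr | hr
      · left
        refine ⟨by omega, by unfold C; split_ifs <;> first | rfl | omega, by unfold C; split_ifs <;> first | rfl | omega, ?_, ?_, ?_⟩ <;>
          (unfold Len; simp only [if_true, Bool.false_eq_true, if_false]; split_ifs <;> omega)
      · right; right; left
        refine ⟨by omega, by unfold C; split_ifs <;> first | rfl | omega, Or.inl ⟨by unfold C; split_ifs <;> first | rfl | omega, ?_, ?_⟩⟩ <;>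
          (unfold Len; simp only [if_true, Bool.false_eq_true, if_false]; split_ifs <;> omega)
      · left
        refine ⟨by omega, by unfold C; split_ifs <;> first | rfl | omega, by unfold C; split_ifs <;> first | rfl | omega, ?_, ?_, ?_⟩ <;>
          (unfold Len; simp only [if_true, Bool.false_eq_true, if_false]; split_ifs <;> omega)
      · right; right; left
        refine ⟨by omega, by unfold C; split_ifs <;> first | rfl | omega, Or.inr (Or.inl ⟨by unfold C; split_ifs <;> first | rfl | omega, ?_, ?_⟩)⟩ <;>
          (unfold Len; simp only [if_true, Bool.false_eq_true, if_false]; split_ifs <;> omega)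
      · right; left
        refine ⟨by omega, by unfold C; split_ifs <;> first | rfl | omega, by unfold C; split_ifs <;> first | rfl | omega, ?_, ?_⟩ <;>
          (unfold Len; simp only [if_true, Bool.false_eq_true, if_false]; split_ifs <;> omega)
      · right; right; right
        refine ⟨by omega, by unfold C; split_ifs <;> first | rfl | omega, Or.inl ⟨by unfold C; split_ifs <;> first | rfl | omega, ?_, ?_⟩⟩ <;>
          (unfold Len; simp only [if_true, Bool.false_eq_true, if_false]; split_ifs <;> omega)
    · by_cases k2 : k = 6 * J + 2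
      · left
        refine ⟨by omega, by unfold C; split_ifs <;> first | rfl | omega, by unfold C; split_ifs <;> first | rfl | omega, ?_, ?_, ?_⟩ <;>
          (unfold Len; simp only [if_true, Bool.false_eq_true, if_false]; split_ifs <;> omega)
      · by_cases k3 : k = 6 * J + 3
        · right; right; left
          refine ⟨by omega, by unfold C; split_ifs <;> first | rfl | omega, Or.inr (Or.inr ⟨by unfold C; split_ifs <;> first | rfl | omega, ?_, ?_⟩)⟩ <;>
          (unfold Len; simp only [if_true, Bool.false_eq_true, if_false]; split_ifs <;> omega)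
        · rcases Nat.mod_two_eq_zero_or_one k with k4 | k4
          · right; left
            refine ⟨by omega, by unfold C; split_ifs <;> first | rfl | omega, by unfold C; split_ifs <;> first | rfl | omega, ?_, ?_⟩ <;>
          (unfold Len; simp only [if_true, Bool.false_eq_true, if_false]; split_ifs <;> omega)
          · right; right; right
            refine ⟨by omega, by unfold C; split_ifs <;> first | rfl | omega, Or.inr ⟨by unfold C; split_ifs <;> first | rfl | omega, ?_, ?_⟩⟩ <;>
          (unfold Len; simp only [if_true, Bool.false_eq_true, if_false]; split_ifs <;> omega)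

theorem len_odd (h : OK p m n) (J : ℕ) {k : ℕ} (hk : k % 2 = 1) (σ : Bool) :
    2 ≤ Len p m n J k σ := by
  have hm := h.hm
  rcases spec h J k with h1 | h1 | h1 | h1
  · omega
  · omega
  · obtain ⟨-, -, h2 | h2 | h2⟩ := h1 <;> cases σ <;> omega
  · obtain ⟨-, -, h2 | h2⟩ := h1 <;> cases σ <;> omega

theorem len_zero (h : OK p m n) (J : ℕ) {k : ℕ} {σ : Bool} (h0 : Len p m n J k σ = 0) :
    C p J k = lA ∧ k % 2 = 0 := by
  rcases spec h J k with h1 | h1 | h1 | h1
  · cases σ <;> omega
  · exact ⟨h1.2.1, h1.1⟩
  · have := len_odd h J h1.1 σ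
    omega
  · have := len_odd h J h1.1 σ
    omega

/-- The ladder. -/
def lad (h : OK p m n) (J : ℕ) : VLad 2 m n where
  c := C p J
  len := Len p m n J
  cyc := by
    intro k
    have hm := h.hm
    rcases spec h J k with ⟨-, h1, -, h3, -, -⟩ | ⟨-, h1, -, h3, h4⟩ |
      ⟨-, h1, h2 | h2 | h2⟩ | ⟨-, h1, h2 | h2⟩
    · rw [h1]
      change _ = n
      omega
    · rw [h1, h3, h4]
      rfl
    · rw [h1]
      change _ = 2 * m
      omega
    · rw [h1]
      change _ = 2 * m
      omega
    · rw [h1]
      change _ = 2 * m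
      omega
    · rw [h1]
      change _ = 2 * m
      omega
    · rw [h1]
      change _ = 2 * m
      omega
  step := by
    intro k
    have hm := h.hm
    have he := h.he
    rcases spec h J k with ⟨-, h1, h2, -⟩ | ⟨-, h1, h2, -⟩ |
      ⟨-, h1, ⟨h2, h3, -⟩ | ⟨h2, h3, -⟩ | ⟨h2, h3, -⟩⟩ | ⟨-, h1, ⟨h2, h3, -⟩ | ⟨h2, h3, -⟩⟩
    · rw [h1, h2, VLad.nxt_iter_pos rfl]
      rfl
    · rw [h1, h2, VLad.nxt_iter_pos rfl]
      rfl
    · rw [h1, h2, h3, nxt_iter_lB', if_pos (by omega)]
      rfl
    · rw [h1, h2, h3, nxt_iter_lB', if_neg (by omega)]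
      rfl
    · rw [h1, h2, h3, nxt_iter_lB', if_neg (by omega)]
      rfl
    · rw [h1, h2, h3, nxt_iter_lA', if_neg (by omega)]
      rfl
    · rw [h1, h2, h3, nxt_iter_lA', if_pos (by omega)]
      rfl
  nz := by
    intro k σ h0
    have h1 := (len_zero h J h0).2
    have := len_odd h J (k := k + 1) (by omega) σ
    omega

theorem O_succ (h : OK p m n) (J k : ℕ) :
    O p J (k + 1) = O p J k + Len p m n J k false - Len p m n J k true := by
  have hn := h.hn
  have hm := h.hm
  rcases h.hp with ⟨rfl, h2⟩ | ⟨rfl, h2⟩
  · unfold O Len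
    simp only [if_true, Bool.false_eq_true, if_false]
    split_ifs <;> omega
  · unfold O Len
    simp only [if_true, Bool.false_eq_true, if_false]
    split_ifs <;> omega

theorem Ht_succ (h : OK p m n) (J k : ℕ) : Ht p J (k + 1) = Ht p J k - fht (C p J k) := by
  rcases h.hp with ⟨rfl, h2⟩ | ⟨rfl, h2⟩
  · unfold Ht C
    split_ifs <;> simp only [fht] <;> omega
  · unfold Ht C
    split_ifs <;> simp only [fht] <;> omega

theorem off_eq (h : OK p m n) (J k : ℕ) : (lad h J).off 1 k = O p J k := by
  induction k with
  | zero =>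
    unfold VLad.off O
    change ((0 : ℕ) : ℤ) + 1 - ((0 : ℕ) : ℤ) = _
    rcases h.hp with ⟨rfl, h2⟩ | ⟨rfl, h2⟩
    · split_ifs <;> omega
    · split_ifs <;> omega
  | succ k ih =>
    rw [O_succ h, ← ih]
    unfold VLad.off
    rw [VLad.pos_succ, VLad.pos_succ]
    change ((_ + Len p m n J k false : ℕ) : ℤ) + 1 - ((_ + Len p m n J k true : ℕ) : ℤ) = _
    push_cast
    ring

theorem hgt_eq (h : OK p m n) (J k : ℕ) : (lad h J).hgt k = Ht p J k := by
  induction k with
  | zero =>
    change (0 : ℤ) = _
    unfold Ht
    rcases h.hp with ⟨rfl, h2⟩ | ⟨rfl, h2⟩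
    · rw [if_pos (by omega), if_neg (by decide)]
      rfl
    · rw [if_pos (by omega), if_neg (by decide)]
      rfl
  | succ k ih =>
    rw [Ht_succ h, ← ih]
    rfl

/-- The rungs where one can cross from right to left below the level `p J`. -/
theorem O_one (h : OK p m n) {J k : ℕ} (hk : k < p * J) (ho : O p J k = 1) :
    C p J k = lB ∨ (C p J k = lB' ∧ k % 2 = 1) := by
  rcases h.hp with ⟨rfl, h2⟩ | ⟨rfl, h2⟩
  · unfold O at ho
    unfold C
    split_ifs at ho ⊢ <;> first | exact Or.inl rfl | exact Or.inr ⟨rfl, by omega⟩ | omega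
  · unfold O at ho
    unfold C
    split_ifs at ho ⊢ <;> first | exact Or.inl rfl | exact Or.inr ⟨rfl, by omega⟩ | omega

theorem O_abs (h : OK p m n) (J k : ℕ) : |O p J k| ≤ 1 := by
  rcases h.hp with ⟨rfl, h2⟩ | ⟨rfl, h2⟩
  · unfold O
    split_ifs <;> simp
  · unfold O
    split_ifs <;> simp

theorem rl_ineq (h : OK p m n) {J k : ℕ} (ho : O p J k = 1) :
    -1 + ((min J ((k + 2) / p) : ℕ) : ℤ) ≤ Ht p J k := by
  rcases h.hp with ⟨rfl, h2⟩ | ⟨rfl, h2⟩
  · unfold O at ho
    unfold Ht
    split_ifs at ho ⊢ <;> omega
  · unfold O at ho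
    unfold Ht
    split_ifs at ho ⊢ <;> omega

theorem lr_ineq (h : OK p m n) {J k : ℕ} (ho : O p J k = -1) :
    Ht p J k + 1 ≤ ((min J ((k + 2) / p) : ℕ) : ℤ) := by
  rcases h.hp with ⟨rfl, h2⟩ | ⟨rfl, h2⟩
  · unfold O at ho
    unfold Ht
    split_ifs at ho ⊢ <;> omega
  · unfold O at ho
    unfold Ht
    split_ifs at ho ⊢ <;> omega

/-- The rungs of the period `j`. -/
theorem period (h : OK p m n) {J j : ℕ} (hj : j < J) :
    O p J (p * j + (p - 3)) = 1 ∧ O p J (p * j + (p - 3) + 1) = -1 ∧
      Ht p J (p * j + (p - 3)) = j - 1 ∧ Ht p J (p * j + (p - 3) + 1) = j := by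
  rcases h.hp with ⟨rfl, h2⟩ | ⟨rfl, h2⟩
  · unfold O Ht
    refine ⟨?_, ?_, ?_, ?_⟩ <;> split_ifs <;> omega
  · unfold O Ht
    refine ⟨?_, ?_, ?_, ?_⟩ <;> split_ifs <;> omega

/-- The rungs above the periods. -/
theorem top_rungs (h : OK p m n) (J i : ℕ) :
    O p J (p * J) = 1 ∧ Ht p J (p * J) = J ∧ O p J (p * J + (p - 2) + 2 * i) = 1 ∧
      Ht p J (p * J + (p - 2) + 2 * i) = J + i := by
  rcases h.hp with ⟨rfl, h2⟩ | ⟨rfl, h2⟩
  · unfold O Ht
    refine ⟨?_, ?_, ?_, ?_⟩ <;> split_ifs <;> omega
  · unfold O Ht
    refine ⟨?_, ?_, ?_, ?_⟩ <;> split_ifs <;> omega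

/-- The number of the periods below a rung. -/
theorem lt_iff (h : OK p m n) (j k : ℕ) : p * j + (p - 3) < k ↔ j < (k + 2) / p := by
  rcases h.hp with ⟨rfl, h2⟩ | ⟨rfl, h2⟩ <;> omega

theorem q_odd (h : OK p m n) (j : ℕ) : (p * j + (p - 3)) % 2 = 1 := by
  rcases h.hp with ⟨rfl, h2⟩ | ⟨rfl, h2⟩ <;> omega

/-- The sides with one edge and the sides of the neighbouring cells. -/
theorem one_two (h : OK p m n) (hm : m = 4) (J k : ℕ) (σ : Bool) (hc : C p J k = lB)
    (h1 : Len p m n J k σ = 1) : Len p m n J (k + 1) σ ≠ 2 ∧
      ∀ k', k = k' + 1 → Len p m n J k' σ ≠ 2 := by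
  have hn := h.hn
  subst hm
  have hk : k % 2 = 0 ∧ k < p * J + (p - 3) ∧ (k % p ≠ p - 2) := by
    rcases h.hp with ⟨rfl, h2⟩ | ⟨rfl, h2⟩
    · unfold C at hc
      split_ifs at hc <;> first | omega | exact absurd hc (by decide)
    · unfold C at hc
      split_ifs at hc <;> first | omega | exact absurd hc (by decide)
  obtain ⟨hk1, hk2, hk3⟩ := hk
  clear hc
  rcases h.hp with ⟨rfl, h2⟩ | ⟨rfl, h2⟩
  · refine ⟨?_, ?_⟩
    · unfold Len at h1 ⊢
      cases σ
      · simp only [Bool.false_eq_true, if_false] at h1 ⊢
        split_ifs at h1 ⊢ <;> omega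
      · simp only [if_true] at h1 ⊢
        split_ifs at h1 ⊢ <;> omega
    · rintro k' rfl
      unfold Len at h1 ⊢
      cases σ
      · simp only [Bool.false_eq_true, if_false] at h1 ⊢
        split_ifs at h1 ⊢ <;> omega
      · simp only [if_true] at h1 ⊢
        split_ifs at h1 ⊢ <;> omega
  · refine ⟨?_, ?_⟩
    · unfold Len at h1 ⊢
      cases σ
      · simp only [Bool.false_eq_true, if_false] at h1 ⊢
        split_ifs at h1 ⊢ <;> omega
      · simp only [if_true] at h1 ⊢
        split_ifs at h1 ⊢ <;> omega
    · rintro k' rfl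
      unfold Len at h1 ⊢
      cases σ
      · simp only [Bool.false_eq_true, if_false] at h1 ⊢
        split_ifs at h1 ⊢ <;> omega
      · simp only [if_true] at h1 ⊢
        split_ifs at h1 ⊢ <;> omega

end B2

namespace VLad

variable {l m n : ℕ} (V : VLad l m n)

/-- The case `(2, 4, n)`. -/
theorem pshort_two_four (hP : ∀ k σ, (V.c k).2 = false → 2 ≤ V.len k σ) (hm : m = 4) (hn : 5 ≤ n)
    (h1 : ∀ k σ, V.c k = lB → V.len k σ = 1 → V.len (k + 1) σ ≠ 2 ∧
      ∀ k', k = k' + 1 → V.len k' σ ≠ 2) : V.PShort := by
  have hP' : ∀ k σ, (V.c k).2 = false → 0 < V.len k σ := fun k σ h => by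
    have := hP k σ h
    omega
  have hb : ∀ y : Letter, psz l n y = 2 → y.1 = 0 := by
    intro y hy
    unfold psz at hy
    split_ifs at hy with h
    · exact h
    · omega
  have hb' : ∀ y : Letter, y.1 = 1 → psz l n y = n := by
    intro y hy
    unfold psz
    rw [hy, if_neg (by decide)]
  have hoth : ∀ y : Letter, y.1 = 0 → (oth y).1 = 1 := by decide
  rintro σ i ⟨hp, hs⟩
  have p0 := hp 0 (by omega)
  have p1 := hp 1 (by omega)
  have p2 := hp 2 (by omega)
  have s1 := hs 1 le_rfl (by omega)
  have s2 := hs 2 (by omega) (by omega)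
  rw [Nat.add_zero] at p0
  by_cases q1 : V.isP σ (i + 1)
  · have a1 : (V.u σ (i + 1)).1 = 0 := hb _ (s1.resolve_left fun h => h q1)
    by_cases q2 : V.isP σ (i + 2)
    · have a2 : (V.u σ (i + 2)).1 = 0 := hb _ (s2.resolve_left fun h => h q2)
      have ne : V.u σ (i + 2) ≠ V.u σ (i + 1) := by
        rcases p1 with h | h | h
        · exact absurd q1 h.1
        · exact absurd q2 h.2.1
        · exact h.2.2.1
      rcases V.vertex_cases hP' σ (i + 1) with h | h | h | h | h
      · exact h.1 q1
      · exact h.1 q1
      · exact h.2.1 q2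
      · have h3 := h.2.2.1
        have h4 := hoth _ a1
        rw [← h3] at h4
        have h5 : (V.u σ (i + 1 + 1)).1 = 0 := a2
        rw [h5] at h4
        exact absurd h4 (by decide)
      · exact ne h.2.2.1
    · -- a P-side of two edges below, an N-side of one edge
      have q3 : V.isP σ (i + 3) := by
        rcases p2 with h | h | h
        · exact h.2.1
        · exact absurd h.1 q2
        · exact absurd h.1 q2
      rcases V.vertex_cases hP' σ (i + 1) with h | h | h | h | h
      · exact h.1 q1
      · exact h.1 q1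
      · obtain ⟨-, -, k, hk, hc, huniq, hu, -⟩ := h
        have hk' : V.pos σ k = i + 2 := hk
        have hcb : V.c k = lB := by
          have h3 : (oth (V.c k)).1 = 0 := by
            rw [hu] at a1
            cases σ
            · exact a1
            · exact a1
          have h4 : ∀ y : Letter, y.2 = true → (oth y).1 = 0 → y = lB := by decide
          exact h4 _ hc h3
        have hlen : V.len k σ = 1 := by
          rcases V.vertex_cases hP' σ (i + 2) with h | h | h | h | h
          · exact absurd q3 h.2.1
          · obtain ⟨-, -, k2, hk2, hc2, huniq2, -⟩ := h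
            have h4 : k + 1 ≤ k2 := by
              by_contra hcon
              have h8 : V.pos σ k2 ≤ V.pos σ k := V.pos_mono σ (by omega)
              omega
            have h5 := V.pos_mono σ h4
            have h6 := V.pos_succ σ k
            have h7 : V.pos σ (k + 1) ≠ i + 2 := by
              intro h
              have := huniq _ h
              omega
            omega
          · exact absurd h.1 q2
          · exact absurd h.1 q2
          · exact absurd h.1 q2
        obtain ⟨-, hprev⟩ := h1 k σ hcb hlen
        have k0 : k ≠ 0 := by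
          rintro rfl
          have : V.pos σ 0 = 0 := rfl
          omega
        obtain ⟨k', rfl⟩ : ∃ k', k = k' + 1 := ⟨k - 1, by omega⟩
        have hc' : (V.c k').2 = false := by
          have := V.alternate k'
          rw [hc] at this
          cases h : (V.c k').2
          · rfl
          · rw [h] at this
            exact absurd this (by decide)
        have hl2 := hP k' σ hc'
        have hl3 := hprev k' rfl
        have hps := V.pos_succ σ k'
        -- the edge `i` is an inner edge of the side
        have q0 : V.isP σ i := by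
          have := (V.isP_iff (σ := σ) (k := k') (j := V.len k' σ - 2) (by omega)).2 hc'
          rwa [show V.pos σ k' + (V.len k' σ - 2) = i by omega] at this
        have hcov : V.cov σ i ∧ V.u σ (i + 1) ≠ V.u σ i := by
          rcases p0 with h | h | h
          · exact absurd q0 h.1
          · exact absurd q1 h.2.1
          · exact ⟨h.2.2.2.1, h.2.2.1⟩
        have a0 : (V.u σ i).1 = 1 := by
          rcases V.vertex_cases hP' σ i with h | h | h | h | h
          · exact absurd q0 h.1
          · exact absurd q0 h.1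
          · exact absurd q1 h.2.1
          · have h3 := h.2.2.1
            rw [h3] at a1
            have h4 : ∀ y : Letter, (oth y).1 = 0 → y.1 = 1 := by decide
            exact h4 _ a1
          · exact absurd h.2.2.1 hcov.2
        rcases hcov.1 with h | ⟨i', rfl, h⟩
        · rcases V.capR_cases h with ⟨-, -, h3⟩ | ⟨-, -, h3, -⟩
          · rw [hb' _ a0] at h3
            omega
          · exact hcov.2 h3
        · rcases V.capR_cases (σ := σ) (i := i') (by omega) with ⟨h3, -⟩ | ⟨-, h3, h4, -⟩
          · omega
          · obtain ⟨k3, hk3, hk31, -⟩ := V.double_rung hP' h3 h4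
            have h5 : k3 + 1 ≤ k' := by
              by_contra hcon
              have h6 := V.pos_mono σ (show k' ≤ k3 by omega)
              have h7 : k' = k3 := by
                by_contra h8
                have h9 := V.pos_mono σ (show k' + 1 ≤ k3 by omega)
                omega
              subst h7
              omega
            have h6 := V.pos_mono σ h5
            omega
      · exact q2 h.2.1
      · exact q2 h.2.1
  · -- an N-side of one edge, and a P-side of two edges above
    have q2 : V.isP σ (i + 2) := by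
      rcases p1 with h | h | h
      · exact h.2.1
      · exact absurd h.1 q1
      · exact absurd h.1 q1
    have a2 : (V.u σ (i + 2)).1 = 0 := hb _ (s2.resolve_left fun h => h q2)
    have q0 : V.isP σ i := by
      rcases p0 with h | h | h
      · exact absurd h.2.1 q1
      · exact h.1
      · exact absurd h.2.1 q1
    obtain ⟨k, hk, hc, hlen⟩ : ∃ k, V.pos σ k = i + 1 ∧ (V.c k).2 = true ∧
        V.pos σ (k + 1) = i + 2 := by
      rcases V.vertex_cases hP' σ i with h | h | h | h | h
      · exact absurd q0 h.1
      · exact absurd q0 h.1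
      · obtain ⟨-, -, k, hk, hc, huniq, hu, -⟩ := h
        refine ⟨k, hk, hc, ?_⟩
        rcases V.vertex_cases hP' σ (i + 1) with h' | h' | h' | h' | h'
        · exact absurd q2 h'.2.1
        · obtain ⟨-, -, k2, hk2, hc2, huniq2, -⟩ := h'
          have h4 : k + 1 ≤ k2 := by
            by_contra hcon
            have h8 : V.pos σ k2 ≤ V.pos σ k := V.pos_mono σ (by omega)
            omega
          have h5 := V.pos_mono σ h4
          have h6 := V.pos_succ σ k
          have h7 : V.pos σ (k + 1) ≠ i + 1 := by
            intro h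
            have := huniq _ h
            omega
          omega
        · exact absurd h'.1 q1
        · exact absurd h'.1 q1
        · exact absurd h'.1 q1
      · exact absurd h.2.1 q1
      · exact absurd h.2.1 q1
    have hps := V.pos_succ σ k
    have hc1 : (V.c (k + 1)).2 = false := by
      rw [V.alternate, hc]
      rfl
    have hl2 := hP (k + 1) σ hc1
    have hu2 : V.u σ (i + 2) = V.ul (k + 1) σ 0 := by
      rw [← hlen]
      exact V.u_eq (k := k + 1) (j := 0) (by omega)
    have hcb : V.c k = lB := by
      have h3 := V.stepσ σ k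
      rw [nxt_iter_pos hc] at h3
      rw [hu2] at a2
      unfold ul at a2
      rw [h3] at a2
      have h4 : ∀ y : Letter, y.2 = true → ∀ σ : Bool, (if σ then nxt^[0 + 1] (flip y) else
        flip (nxt^[0 + 1] (flip y))).1 = 0 → y = lB := by decide
      exact h4 _ hc σ a2
    obtain ⟨hnext, -⟩ := h1 k σ hcb (by omega)
    have hps1 := V.pos_succ σ (k + 1)
    have q3 : V.isP σ (i + 3) := by
      have := (V.isP_iff (σ := σ) (k := k + 1) (j := 1) (by omega)).2 hc1
      rwa [hlen] at this
    have q4 : V.isP σ (i + 4) := by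
      have := (V.isP_iff (σ := σ) (k := k + 1) (j := 2) (by omega)).2 hc1
      rwa [hlen] at this
    have hcov : V.cov σ (i + 3) ∧ V.u σ (i + 3) ≠ V.u σ (i + 2) := by
      rcases p2 with h | h | h
      · exact absurd q2 h.1
      · exact absurd q3 h.2.1
      · exact ⟨h.2.2.2.2, h.2.2.1⟩
    have a3 : (V.u σ (i + 3)).1 = 1 := by
      rcases V.vertex_cases hP' σ (i + 2) with h | h | h | h | h
      · exact absurd q2 h.1
      · exact absurd q2 h.1
      · exact absurd q3 h.2.1
      · have h3 := h.2.2.1
        have h4 := hoth _ a2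
        rw [← h3] at h4
        exact h4
      · exact absurd h.2.2.1 hcov.2
    rcases hcov.1 with h | ⟨i', h3, h⟩
    · rcases V.capR_cases h with ⟨-, -, h3⟩ | ⟨-, h3, h4, -⟩
      · rw [hb' _ a3] at h3
        omega
      · obtain ⟨k3, hk3, hk31, -⟩ := V.double_rung hP' h3 h4
        have h5 : k + 2 ≤ k3 := by
          by_contra hcon
          have h6 := V.pos_mono σ (show k3 ≤ k + 1 by omega)
          omega
        have h6 := V.pos_mono σ h5
        have h7 : V.pos σ (k + 2) = V.pos σ (k + 1) + V.len (k + 1) σ := hps1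
        omega
    · have h4 : i' = i + 2 := by omega
      subst h4
      rcases V.capR_cases (σ := σ) (i := i + 2) (by omega) with ⟨h5, -⟩ | ⟨-, -, h5, -⟩
      · omega
      · exact hcov.2 h5

end VLad

end Pool.Agent.SLE
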