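import Pool.Agent.SLE.Master
import Pool.Agent.SLE.FamB2Lad

/-!
# The family `(2, m, n)` with even `m`: orders with `a` or `A` smaller than `b < B`
-/

namespace Pool.Agent.SLE

open List G3

namespace B2

variable {p m n : ℕ}

theorem lad_P (h : OK p m n) (J : ℕ) {k : ℕ} (hc : ((lad h J).c k).2 = false) : k % 2 = 1 := by
  rcases spec h J k with h1 | h1 | h1 | h1
  · have h2 : (lad h J).c k = lB := h1.2.1
    rw [h2] at hc
    exact absurd hc (by decide)
  · have h2 : (lad h J).c k = lA := h1.2.1
    rw [h2] at hc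
    exact absurd hc (by decide)
  · exact h1.1
  · exact h1.1

theorem tame (h : OK p m n) (J : ℕ) : (lad h J).Tame := by
  have hm := h.hm
  have hn := h.hn
  have he := h.he
  have hP : ∀ k σ, ((lad h J).c k).2 = false → 2 ≤ (lad h J).len k σ := fun k σ hc =>
    len_odd h J (lad_P h J hc) σ
  have hP' : ∀ k σ, ((lad h J).c k).2 = false → 0 < (lad h J).len k σ := fun k σ hc => by
    have := hP k σ hc
    omega
  have hz : ∀ k σ, (lad h J).len k σ = 0 → (lad h J).c k = lA ∧ k % 2 = 0 := fun k σ h0 =>
    len_zero h J h0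
  have hG : (lad h J).Good := by
    refine (lad h J).good_of le_rfl (by omega) hP' ?_ ?_
    · intro k σ _ h0
      rw [(hz k σ h0).1]
      change 4 ≤ n
      omega
    · intro k σ _ h0 h1
      have h2 := len_odd h J (k := k + 1) (by have := (hz k σ h0).2; omega) σ
      have h3 : (lad h J).len (k + 1) σ = Len p m n J (k + 1) σ := rfl
      omega
  refine (lad h J).tame_of hG (by omega) ?_ ?_ ?_ ?_
  · by_cases h4 : m = 4
    · exact (lad h J).pshort_two_four hP h4 hn (fun k σ hc h1 => one_two h h4 J k σ hc h1)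
    · refine (lad h J).pshort_of_five hG (by omega) ?_ (Or.inr (by omega))
      intro k σ hc
      have h5 := lad_P h J hc
      have h6 : (lad h J).len k σ = Len p m n J k σ := rfl
      rcases spec h J k with h1 | h1 | h1 | h1
      · omega
      · omega
      · obtain ⟨-, -, h2 | h2 | h2⟩ := h1 <;> cases σ <;> omega
      · obtain ⟨-, -, h2 | h2⟩ := h1 <;> cases σ <;> omega
  · intro k σ _ h0 h1
    have h2 := len_odd h J (k := k + 1) (by have := (hz k σ h0).2; omega) σ
    have h3 : (lad h J).len (k + 1) σ = Len p m n J (k + 1) σ := rfl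
    omega
  · have h2 : (lad h J).c 0 = lB := C_zero h J
    rw [h2]
  · intro σ h0
    have h1 : (lad h J).c 0 = lA := (hz 0 σ h0).1
    have h2 : (lad h J).c 0 = lB := C_zero h J
    rw [h1] at h2
    exact absurd h2 (by decide)

/-- The even caps are the bigons on the `a`-edges. -/
theorem even_a (h : OK p m n) (J : ℕ) {σ : Bool} {i : ℕ} (hE : (lad h J).Even σ i) :
    ((lad h J).u σ i).1 = 0 ∧ (lad h J).capR σ i = 1 := by
  obtain ⟨h1, h2⟩ := hE
  have hn := h.hn
  have h3 : (lad h J).capR σ i = 1 ∨ (lad h J).capR σ i = 2 := by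
    rcases (lad h J).capR_cases h1 with h3 | h3
    · exact Or.inl h3.1
    · exact Or.inr h3.1
  unfold psz at h2
  split_ifs at h2 with h4
  · exact ⟨h4, by omega⟩
  · omega

theorem not_mid (h : OK p m n) (J : ℕ) (σ : Bool) (i : ℕ) : ¬ (lad h J).Mid σ i := by
  rintro ⟨i', -, h1, h2⟩
  have := (even_a h J h1).2
  omega

/-- The height potential: minus the number of the periods below the vertex. -/
def HH (h : OK p m n) (J : ℕ) (σ : Bool) (i : ℕ) : ℤ :=
  if σ then -(((Finset.range J).filter fun j =>
    (lad h J).pos true (p * j + (p - 3)) < i).card : ℤ) else -1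

theorem pos_lt (h : OK p m n) (J j k : ℕ) :
    (lad h J).pos true (p * j + (p - 3)) < (lad h J).pos true k ↔ p * j + (p - 3) < k := by
  constructor
  · intro h1
    by_contra h2
    have := (lad h J).pos_mono true (show k ≤ p * j + (p - 3) by omega)
    omega
  · intro h1
    have h2 := (lad h J).pos_mono true (show p * j + (p - 3) + 1 ≤ k from h1)
    rw [VLad.pos_succ] at h2
    have h3 := len_odd h J (q_odd h j) true
    have h4 : (lad h J).len (p * j + (p - 3)) true = Len p m n J (p * j + (p - 3)) true := rfl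
    omega

theorem HH_rung (h : OK p m n) (J k : ℕ) :
    HH h J true ((lad h J).pos true k) = -((min J ((k + 2) / p) : ℕ) : ℤ) := by
  unfold HH
  rw [if_pos rfl]
  congr 2
  have h1 : ((Finset.range J).filter fun j => (lad h J).pos true (p * j + (p - 3)) <
      (lad h J).pos true k) = Finset.range (min J ((k + 2) / p)) := by
    ext j
    rw [Finset.mem_filter, Finset.mem_range, Finset.mem_range, pos_lt, lt_iff h, lt_min_iff]
  rw [h1, Finset.card_range]

theorem HH_zero (h : OK p m n) (J : ℕ) : HH h J true 0 = 0 := by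
  have h1 := HH_rung h J 0
  have h2 : (lad h J).pos true 0 = 0 := rfl
  rw [h2] at h1
  rw [h1]
  have h3 : (0 + 2) / p = 0 := by
    rcases h.hp with ⟨rfl, -⟩ | ⟨rfl, -⟩ <;> rfl
  rw [h3, Nat.min_zero]
  rfl

theorem HH_mono (h : OK p m n) (J : ℕ) (σ : Bool) {i i' : ℕ} (hi : i ≤ i') :
    HH h J σ i' ≤ HH h J σ i := by
  unfold HH
  cases σ
  · exact le_rfl
  · rw [if_pos rfl, if_pos rfl]
    have : ((Finset.range J).filter fun j => (lad h J).pos true (p * j + (p - 3)) < i).card ≤
        ((Finset.range J).filter fun j => (lad h J).pos true (p * j + (p - 3)) < i').card := by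
      refine Finset.card_le_card ?_
      intro j hj
      rw [Finset.mem_filter] at hj ⊢
      exact ⟨hj.1, lt_of_lt_of_le hj.2 hi⟩
    omega

theorem hcond (h : OK p m n) (J : ℕ) : (lad h J).HCond 1 (-1) (HH h J) where
  line := fun σ i => HH_mono h J σ (Nat.le_succ i)
  even := by
    intro σ i hE
    have h1 := (even_a h J hE).1
    have h2 : fht (plt ((lad h J).u σ i)) = 0 := by
      have h3 : ∀ y : Letter, y.1 = 0 → fht (plt y) = 0 := by decide
      exact h3 _ h1
    rw [h2, mul_zero]
    have := HH_mono h J σ (Nat.le_add_right i ((lad h J).capR σ i))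
    omega
  rl := by
    intro k hk
    rw [off_eq] at hk
    have h1 := rl_ineq h hk
    rw [HH_rung, hgt_eq]
    have h2 : HH h J false ((lad h J).pos false k) = -1 := rfl
    rw [h2]
    linarith
  lr := by
    intro k hk
    rw [off_eq] at hk
    have h1 := lr_ineq h hk
    rw [HH_rung, hgt_eq]
    have h2 : HH h J false ((lad h J).pos false k) = -1 := rfl
    rw [h2]
    linarith

theorem choice_lt (h : OK p m n) {J k : ℕ} (lt : Letter → Letter → Prop)
    [IsStrictTotalOrder Letter lt] (h1 : lt lB lB') (h2 : lt lA lB ∨ lt lA' lB)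
    (hk : k < p * J) (ho : O p J k = 1) (z : Letter)
    (hz : (lad h J).IsChoice lt true ((lad h J).pos true k) z) :
    lt z (flip ((lad h J).c k)) := by
  have hm := h.hm
  rcases O_one h hk ho with hc | ⟨hc, hk2⟩
  · have hc' : (lad h J).c k = lB := hc
    have hl : 0 < (lad h J).len k true := by
      rcases Nat.eq_zero_or_pos ((lad h J).len k true) with h3 | h3
      · have h4 := (len_zero h J h3).1
        rw [h4] at hc
        exact absurd hc (by decide)
      · exact h3
    have hu := (lad h J).u_eq hl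
    rw [Nat.add_zero] at hu
    have hu2 : (lad h J).ul k true 0 = lB := by
      unfold VLad.ul
      rw [hc']
      rfl
    rw [hu2] at hu
    rcases hz with ⟨rfl, -⟩ | ⟨-, hE, -⟩
    · rw [hu, hc']
      exact h1
    · have := (even_a h J hE).1
      rw [hu] at this
      exact absurd this (by decide)
  · have hc' : (lad h J).c k = lB' := hc
    have hl := len_odd h J hk2 true
    have hu := (lad h J).u_eq (show 0 < (lad h J).len k true from by
      have h4 : (lad h J).len k true = Len p m n J k true := rfl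
      omega)
    have hP := ((lad h J).isP_iff (show 0 < (lad h J).len k true from by
      have h4 : (lad h J).len k true = Len p m n J k true := rfl
      omega)).2 (by rw [hc'])
    rw [Nat.add_zero] at hu hP
    have hu2 : (lad h J).ul k true 0 = lA' := by
      unfold VLad.ul
      rw [hc']
      rfl
    rw [hu2] at hu
    have hE : (lad h J).Even true ((lad h J).pos true k) := by
      have h5 : psz 2 n ((lad h J).u true ((lad h J).pos true k)) = 2 := by
        rw [hu]
        rfl
      have h6 : (lad h J).capR true ((lad h J).pos true k) = 1 := by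
        unfold VLad.capR
        rw [if_pos ⟨hP, by rw [h5]; omega⟩]
      exact ⟨by omega, by rw [h6, h5]⟩
    have h7 : flip ((lad h J).c k) = lB := by
      rw [hc']
      rfl
    rw [h7]
    rcases hz with ⟨rfl, h3⟩ | ⟨rfl, -, h3⟩
    · have h4 := h3 hE
      rw [hu] at h4 ⊢
      rcases h2 with h2 | h2
      · exact _root_.trans (r := lt) h4 h2
      · exact h2
    · rw [hu] at h3 ⊢
      rcases h2 with h2 | h2
      · exact h2
      · exact _root_.trans (r := lt) h3 h2

end B2

/-- `(2, m, n)` with even `m ≥ 4` and `n ≥ 5`, `b < B` and one of `a`, `a⁻¹` smaller than `b`. -/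
theorem notFD_B2 {m n : ℕ} (hm : 4 ≤ m) (he : m % 2 = 0) (hn : 5 ≤ n)
    (lt : Letter → Letter → Prop) [IsStrictTotalOrder Letter lt] (h1 : lt lB lB')
    (h2 : lt lA lB ∨ lt lA' lB) : ¬ FiniteDiff 2 m n lt := by
  obtain ⟨p, h⟩ : ∃ p, B2.OK p m n := by
    rcases Nat.mod_two_eq_zero_or_one n with h3 | h3
    · exact ⟨4, hm, he, hn, Or.inl ⟨rfl, h3⟩⟩
    · exact ⟨6, hm, he, hn, Or.inr ⟨rfl, h3⟩⟩
  have hyp : (1 / (2 : ℕ) + 1 / m + 1 / n : ℚ) < 1 := by
    have e1 := inv_le (a := 4) (b := m) (by norm_num) hm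
    have e2 := inv_le (a := 5) (b := n) (by norm_num) hn
    push_cast at e1 e2 ⊢
    linarith
  refine not_finiteDiff_of_diverge2 le_rfl (by omega) (by omega) hyp lt 1 fun N => ?_
  set J := N + 1 with hJ
  set V := B2.lad h J with hV
  have hT : V.Tame := B2.tame h J
  obtain ⟨val, κ, hc⟩ := V.exists_cval' hT.toGood (by omega) hyp
  have ho : ∀ k, |V.off 1 k| ≤ 1 := fun k => by
    rw [hV, B2.off_eq]
    exact B2.O_abs h J k
  have hH := B2.hcond h J
  -- the first word
  have key : ∀ j, j ≤ J → ∃ w, TightRun (V.csys hT.toGood).mv (V.cF 1)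
      (Sum.inl (true, 0)) w (Sum.inl (true, V.pos true (p * j))) ∧
      kap (V.csys hT.toGood).mv κ (Sum.inl (true, 0)) w = j := by
    intro j
    induction j with
    | zero =>
      intro _
      exact ⟨[], rfl, rfl⟩
    | succ j ih =>
      intro hj
      obtain ⟨w, hw, kw⟩ := ih (by omega)
      obtain ⟨q1, q2, q3, q4⟩ := B2.period h (show j < J by omega)
      rw [← B2.off_eq h] at q1 q2
      rw [← B2.hgt_eq h] at q3 q4
      set q := p * j + (p - 3) with hq
      have hpq : V.pos true (p * j) ≤ V.pos true q := V.pos_mono true (by omega)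
      have hpq' : V.pos true (q + 1) ≤ V.pos true (p * (j + 1)) := V.pos_mono true (by
        rcases h.hp with ⟨rfl, -⟩ | ⟨rfl, -⟩ <;> omega)
      obtain ⟨r1, r2⟩ := VLad.line_tight hc 1 true (V.pos true (p * j))
        (V.pos true q - V.pos true (p * j))
      rw [show V.pos true (p * j) + (V.pos true q - V.pos true (p * j)) = V.pos true q by omega]
        at r1
      obtain ⟨r3, r4⟩ := VLad.cross_rl hc 1 q q1
      obtain ⟨r5, r6⟩ := VLad.line_tight hc 1 false (V.pos false q) (V.len q false)
      rw [← VLad.pos_succ] at r5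
      obtain ⟨r7, r8⟩ := VLad.cross_lr hc 1 (q + 1) q2
      obtain ⟨r9, r10⟩ := VLad.line_tight hc 1 true (V.pos true (q + 1))
        (V.pos true (p * (j + 1)) - V.pos true (q + 1))
      rw [show V.pos true (q + 1) + (V.pos true (p * (j + 1)) - V.pos true (q + 1)) =
        V.pos true (p * (j + 1)) by omega] at r9
      refine ⟨_, hw.append (r1.append (r3.append (r5.append (r7.append r9)))), ?_⟩
      rw [kap_append hw.spec.1, kap_append r1.spec.1, kap_append r3.spec.1,
        kap_append r5.spec.1, kap_append r7.spec.1, kw, r2, r4, r6, r8, r10, q3, q4]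
      push_cast
      ring
  obtain ⟨w0, hw0, kw0⟩ := key J le_rfl
  obtain ⟨t1, t2, t3, t4⟩ := B2.top_rungs h J 0
  obtain ⟨-, -, t5, t6⟩ := B2.top_rungs h J J
  rw [← B2.off_eq h, ← hV] at t1 t3 t5
  rw [← B2.hgt_eq h, ← hV] at t2 t4 t6
  rw [Nat.mul_zero, Nat.add_zero] at t3 t4
  set K' := p * J + (p - 2) with hK'
  set K2 := K' + 2 * J with hK2
  have hp1 : V.pos true (p * J) ≤ V.pos true K' := V.pos_mono true (by omega)
  have hp2 : V.pos true K' ≤ V.pos true K2 := V.pos_mono true (by omega)
  have hp3 : V.pos false K' ≤ V.pos false K2 := V.pos_mono false (by omega)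
  obtain ⟨a1, a2⟩ := VLad.line_tight hc 1 true (V.pos true (p * J))
    (V.pos true K2 - V.pos true (p * J))
  rw [show V.pos true (p * J) + (V.pos true K2 - V.pos true (p * J)) = V.pos true K2 by omega]
    at a1
  obtain ⟨b1, b2⟩ := VLad.cross_rl hc 1 K2 t5
  -- the second word
  obtain ⟨w2, l2, loc2, k2⟩ := VLad.line_loc hT hc 1 (lt := lt) true 0 (V.pos true (p * J))
    (B2.not_mid h J true 0) (B2.not_mid h J true _) 0
    (fun j hE hj => by
      have := (B2.even_a h J hE).1
      rw [this] at hj
      exact absurd hj (by decide))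
    (fun k _ hk2 hk3 z hz => by
      rw [if_pos rfl] at hk3 ⊢
      rw [hV, B2.off_eq] at hk3
      refine B2.choice_lt h lt h1 h2 ?_ hk3 z hz
      by_contra hcon
      have := V.pos_mono true (show p * J ≤ k by omega)
      omega)
  rw [Nat.zero_add] at loc2 k2
  have k2' : kap (V.csys hT.toGood).mv κ (Sum.inl (true, 0)) w2 = 0 := by
    rw [k2]
    simp
  obtain ⟨c1, c2⟩ := VLad.line_tight hc 1 true (V.pos true (p * J))
    (V.pos true K' - V.pos true (p * J))
  rw [show V.pos true (p * J) + (V.pos true K' - V.pos true (p * J)) = V.pos true K' by omega]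
    at c1
  obtain ⟨d1, d2⟩ := VLad.cross_rl hc 1 K' t3
  obtain ⟨e1, e2⟩ := VLad.line_tight hc 1 false (V.pos false K')
    (V.pos false K2 - V.pos false K')
  rw [show V.pos false K' + (V.pos false K2 - V.pos false K') = V.pos false K2 by omega] at e1
  have hh2 := c1.append (d1.append e1)
  have hoff : ((V.pos true (p * J) - 1 : ℕ) : ℤ) + 1 = V.pos true (p * J) := by
    have e3 := (B2.pos_lt h J 0 (p * J)).2 (by
      rcases h.hp with ⟨rfl, -⟩ | ⟨rfl, -⟩ <;> omega)
    rw [← hV] at e3
    omega
  refine VLad.master hT (by omega) hyp hc ho (Or.inr rfl) hH (lt := lt)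
    (s := (true, 0)) (s1 := (true, V.pos true K2)) (s2 := (false, V.pos false K2))
    (w1 := w0 ++ _) (w2 := w2) (w2' := _) (c := [flip (V.c K2)]) (τ := true) (K := p * J)
    (i0 := V.pos true (p * J) - 1) (i1 := V.pos true (p * J))
    (hw0.append a1) ?_ loc2 hh2 b1.spec.1 le_rfl ?_ ?_ hoff (Or.inl rfl)
    (B2.not_mid h J true _) (B2.not_mid h J false _) ?_ ?_
  · rw [kap_append hw0.spec.1, kw0, a2]
    have e3 : B2.HH h J true (V.pos true K2) = -(J : ℤ) := by
      rw [hV, B2.HH_rung h J]
      congr 2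
      have : J ≤ (K2 + 2) / p := by
        rcases h.hp with ⟨rfl, -⟩ | ⟨rfl, -⟩ <;> omega
      omega
    change -1 * ((J : ℤ) + 0) = B2.HH h J true (V.pos true K2) - B2.HH h J true 0
    rw [e3, B2.HH_zero h J]
    ring
  · rw [kap_append hw0.spec.1, kw0, a2, b2, kap_append loc2.tight.spec.1, k2',
      kap_append c1.spec.1, kap_append d1.spec.1, c2, d2, e2, t4, t6]
    ring
  · have e3 := (hw0.append a1).spec.2
    change ((V.pos true K2 : ℕ) : ℤ) + 0 = ((0 : ℕ) : ℤ) + 0 + _ at e3
    rw [l2]
    push_cast at e3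
    omega
  · rw [k2', if_pos rfl]
    have e3 : B2.HH h J true (V.pos true (p * J)) = -(J : ℤ) := by
      rw [hV, B2.HH_rung h J]
      congr 2
      have : J ≤ (p * J + 2) / p := by
        rcases h.hp with ⟨rfl, -⟩ | ⟨rfl, -⟩ <;> omega
      omega
    change (N : ℤ) < |0 + 0 - -1 * (B2.HH h J true (V.pos true (p * J)) - B2.HH h J true 0)|
    rw [e3, B2.HH_zero h J, lt_abs]
    right
    rw [hJ]
    push_cast
    linarith
  · rw [k2', if_pos rfl, t2]
    have e3 : B2.HH h J false (V.pos true (p * J) - 1) = -1 := rfl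
    change (N : ℤ) < |0 + 0 - (-1 * (B2.HH h J false (V.pos true (p * J) - 1) -
      B2.HH h J true 0) + J)|
    rw [e3, B2.HH_zero h J, lt_abs]
    right
    rw [hJ]
    push_cast
    linarith

end Pool.Agent.SLE
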