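import Pool.Agent.SLE.CTight
import Pool.Agent.SLE.CLadVal
import Pool.Agent.SLE.FamA

/-!
# The family `(2, m, 3)`
-/

namespace Pool.Agent.SLE

open List G3

/-! ### The ladder -/

/-- The offset at the rung `k`. -/
def c1o (m K1 k : ℕ) : ℤ := if m % 2 = 1 ∧ k % 2 = 1 then 0 else if k ≤ K1 then 1 else -1

/-- The numbers of edges on the lines. -/
def c1len (m K1 k : ℕ) (σ : Bool) : ℕ :=
  (((m : ℤ) - 2 + (if σ then -1 else 1) * (c1o m K1 (k + 1) - c1o m K1 k)) / 2).toNat

theorem c1_diff {m : ℕ} (hm : 7 ≤ m) (K1 k : ℕ) :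
    ((m : ℤ) - 2 - (c1o m K1 (k + 1) - c1o m K1 k)) % 2 = 0 ∧
    4 ≤ (m : ℤ) - 2 - (c1o m K1 (k + 1) - c1o m K1 k) ∧
    4 ≤ (m : ℤ) - 2 + (c1o m K1 (k + 1) - c1o m K1 k) := by
  unfold c1o
  split_ifs <;> omega

theorem c1len_eq {m : ℕ} (hm : 7 ≤ m) (K1 k : ℕ) :
    2 * (c1len m K1 k true : ℤ) = (m : ℤ) - 2 - (c1o m K1 (k + 1) - c1o m K1 k) ∧
    2 * (c1len m K1 k false : ℤ) = (m : ℤ) - 2 + (c1o m K1 (k + 1) - c1o m K1 k) := by
  have h := c1_diff hm K1 k
  unfold c1len
  simp only [Bool.false_eq_true, if_false, if_true]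
  omega

/-- The ladder. -/
def c1 (m K1 : ℕ) (hm : 7 ≤ m) : CLad m where
  len := c1len m K1
  two := by
    intro k σ
    have h := c1_diff hm K1 k
    have h2 := c1len_eq hm K1 k
    cases σ <;> omega
  tot := by
    intro k
    have h2 := c1len_eq hm K1 k
    omega

variable {m K1 : ℕ} (hm : 7 ≤ m)

theorem c1_off (k : ℕ) : (c1 m K1 hm).off 1 k = c1o m K1 k := by
  induction k with
  | zero =>
    unfold c1o
    rw [if_neg (by omega), if_pos (by omega)]
    rfl
  | succ k ih =>
    have h2 := c1len_eq hm K1 k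
    have h1 : (c1 m K1 hm).off 1 (k + 1) = (c1 m K1 hm).off 1 k +
        ((c1len m K1 k false : ℤ) - c1len m K1 k true) := by
      unfold CLad.off
      change (((c1 m K1 hm).pos false k + c1len m K1 k false : ℕ) : ℤ) + 1 -
        (((c1 m K1 hm).pos true k + c1len m K1 k true : ℕ) : ℤ) = _
      push_cast
      ring
    rw [h1, ih]
    omega

theorem c1_off_le (k : ℕ) : |(c1 m K1 hm).off 1 k| ≤ 1 := by
  rw [c1_off]
  unfold c1o
  split_ifs <;> decide

/-! ### The heights -/

open Classical in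
/-- The height potential. -/
noncomputable def c1H (V : CLad m) (K1 : ℕ) (x : CLad.CX) : ℤ :=
  if x.1.1 = true then
    (if x.2 = 2 ∧ ¬ ∃ k, V.pos true k = x.1.2 ∧ V.off 1 k ≠ 0 then 1 else 0)
  else if x.2 = 2 ∧ ¬ ∃ k, V.pos false k = x.1.2 ∧ V.off 1 k = -1 then -(K1 : ℤ)
  else -(K1 + 1 : ℤ)

/-- The properties of the sections and heights. -/
structure C1Val (V : CLad m) (val : CLad.CX → E 2 m 3) (κ : CLad.CX → Letter → ℤ) : Prop where
  vval : VVal 2 m 3 (V.sys 1).mv val κ
  turn : ∀ σ i, κ ((σ, i), 0) (V.turn 1 σ i) = 0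
  dt : ∀ σ i, κ ((σ, i), 0) (flip (V.turn 1 σ i)) = 0
  tu : ∀ σ i, V.leftT σ i → κ ((σ, i), 2) (flip (V.turn 1 σ i)) = -1
  tu' : ∀ σ i, ¬ V.leftT σ i → κ ((σ, i), 2) (flip (V.turn 1 σ i)) = 1
  up : ∀ σ i b, κ ((σ, i), 1) (0, b) = 0
  lr : ∀ k b, κ ((false, V.pos false k), 2) (0, b) = -k
  rl : ∀ k b, κ ((true, V.pos true k), 2) (0, b) = k

theorem exists_c1Val (V : CLad m) (hm : 7 ≤ m) : ∃ val κ, C1Val V val κ := by
  obtain ⟨val, κ, h1, h2, h3, h4, h5, h6, h7, h8⟩ :=
    V.exists_val (l := 2) (n := 3) (τ := 1) (Or.inr ⟨rfl, rfl, rfl⟩) (by omega)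
  have hb : fht ((1 : Fin 2), true) = 1 := rfl
  have ha : fht (otg 1, true) = 0 := rfl
  refine ⟨val, κ, h1, h2, h3, ?_, ?_, ?_, ?_, ?_⟩
  · intro σ i h
    rw [h4, if_pos h, hb]
  · intro σ i h
    rw [h4, if_neg h, hb]
  · intro σ i b
    cases σ
    · have := h6 i b
      rw [ha] at this
      rw [show ((0 : Fin 2), b) = (otg 1, b) from rfl, this]
      cases b <;> simp
    · have := h5 i b
      rw [ha] at this
      rw [show ((0 : Fin 2), b) = (otg 1, b) from rfl, this]
      cases b <;> simp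
  · intro k b
    have := h7 k b
    rw [ha] at this
    rw [show ((0 : Fin 2), b) = (otg 1, b) from rfl, this]
    unfold CLad.chgt
    rw [hb, ha]
    cases b <;> simp
  · intro k b
    have := h8 k b
    rw [ha] at this
    rw [show ((0 : Fin 2), b) = (otg 1, b) from rfl, this]
    unfold CLad.chgt
    rw [hb, ha]
    cases b <;> simp

section

variable (V : CLad m)

theorem c1H_R {i : ℕ} {d : Fin 3} (hd : d ≠ 2) : c1H V K1 ((true, i), d) = 0 := by
  unfold c1H
  rw [if_pos rfl, if_neg (fun h => hd h.1)]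

theorem c1H_L {i : ℕ} {d : Fin 3} (hd : d ≠ 2) : c1H V K1 ((false, i), d) = -(K1 + 1 : ℤ) := by
  unfold c1H
  rw [if_neg (fun h => Bool.noConfusion h), if_neg (fun h => hd h.1)]

theorem c1H_RT {i : ℕ} (h : ∃ k, V.pos true k = i ∧ V.off 1 k ≠ 0) :
    c1H V K1 ((true, i), 2) = 0 := by
  unfold c1H
  rw [if_pos rfl, if_neg (fun h' => h'.2 h)]

theorem c1H_RT' {i : ℕ} (h : ¬ ∃ k, V.pos true k = i ∧ V.off 1 k ≠ 0) :
    c1H V K1 ((true, i), 2) = 1 := by
  unfold c1H
  rw [if_pos rfl, if_pos ⟨rfl, h⟩]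

theorem c1H_LT {i : ℕ} (h : ∃ k, V.pos false k = i ∧ V.off 1 k = -1) :
    c1H V K1 ((false, i), 2) = -(K1 + 1 : ℤ) := by
  unfold c1H
  rw [if_neg (fun h => Bool.noConfusion h), if_neg (fun h' => h'.2 h)]

theorem c1H_LT' {i : ℕ} (h : ¬ ∃ k, V.pos false k = i ∧ V.off 1 k = -1) :
    c1H V K1 ((false, i), 2) = -(K1 : ℤ) := by
  unfold c1H
  rw [if_neg (fun h => Bool.noConfusion h), if_pos ⟨rfl, h⟩]

theorem fst_eq {y : Letter} (h : y.1 = otg 1) : ∃ b, y = ((0 : Fin 2), b) := by
  obtain ⟨c, b⟩ := y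
  exact ⟨b, Prod.ext h rfl⟩

theorem c1_hH {val : CLad.CX → E 2 m 3} {κ : CLad.CX → Letter → ℤ} (hv : C1Val V val κ)
    (ho : ∀ k, |V.off 1 k| ≤ 1) (h1 : ∀ k, V.off 1 k = 1 → k ≤ K1)
    (h2 : ∀ k, V.off 1 k = -1 → K1 < k) (x : CLad.CX) (y : Letter) (x' : CLad.CX)
    (h : (V.sys 1).mv x y = some x') (ht : V.cF 1 x' = V.cF 1 x + 1) :
    c1H V K1 x' - c1H V K1 x ≤ -1 * κ x y := by
  have ha := (V.sys 1).mv_iff.1 h
  obtain ⟨⟨σ, i⟩, d⟩ := x
  have hd : ∀ d : Fin 3, d = 0 ∨ d = 1 ∨ d = 2 := by decide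
  rcases hd d with rfl | rfl | rfl
  · rcases V.tight_D ha ht with ⟨rfl, rfl⟩ | ⟨rfl, rfl, k, hk, hok⟩
    · rw [hv.turn]
      cases σ
      · rw [c1H_L V (by decide), c1H_L V (by decide)]
        omega
      · rw [c1H_R V (by decide), c1H_R V (by decide)]
        omega
    · rw [hv.dt]
      cases σ
      · simp only [Bool.false_eq_true, if_false] at hok
        rw [c1H_LT V ⟨k, hk, hok⟩, c1H_L V (by decide)]
        omega
      · simp only [if_true] at hok
        rw [c1H_RT V ⟨k, hk, by omega⟩, c1H_R V (by decide)]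
        omega
  · obtain ⟨h3, rfl⟩ := V.tight_U ha ht
    obtain ⟨b, rfl⟩ := fst_eq h3
    rw [hv.up]
    cases σ
    · rw [c1H_L V (by decide), c1H_L V (by decide)]
      omega
    · rw [c1H_R V (by decide), c1H_R V (by decide)]
      omega
  · rcases V.tight_T ho ha ht with ⟨rfl, rfl, hcr⟩ | ⟨k, hk, h3, rfl, hok⟩
    · cases σ
      · rw [c1H_L V (by decide), c1H_LT' V hcr]
        by_cases hl : V.leftT false i
        · rw [hv.tu _ _ hl]
          omega
        · rw [hv.tu' _ _ hl]
          omega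
      · rw [c1H_R V (by decide)]
        by_cases hl : V.leftT true i
        · rw [hv.tu _ _ hl]
          by_cases h4 : ∃ k, V.pos true k = i ∧ V.off 1 k ≠ 0
          · rw [c1H_RT V h4]
            omega
          · rw [c1H_RT' V h4]
            omega
        · rw [hv.tu' _ _ hl, c1H_RT']
          · omega
          · rintro ⟨k, hk, -⟩
            exact hl ⟨fun _ => ⟨k, hk⟩, fun _ => rfl⟩
    · obtain ⟨b, rfl⟩ := fst_eq h3
      subst hk
      cases σ
      · simp only [Bool.false_eq_true, if_false] at hok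
        have h5 := h2 k hok
        change c1H V K1 ((true, V.pos true k), 2) - _ ≤ _
        rw [hv.lr, c1H_RT V ⟨k, rfl, by omega⟩, c1H_LT V ⟨k, rfl, hok⟩]
        omega
      · simp only [if_true] at hok
        have h5 := h1 k hok
        change c1H V K1 ((false, V.pos false k), 2) - _ ≤ _
        rw [hv.rl, c1H_RT V ⟨k, rfl, by omega⟩, c1H_LT']
        · omega
        · rintro ⟨k', hk', hok'⟩
          rw [V.pos_inj false hk'] at hok'
          omega

/-- Words of extreme height stay on the right line. -/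
theorem c1_u {val : CLad.CX → E 2 m 3} {κ : CLad.CX → Letter → ℤ} (hv : C1Val V val κ)
    (ho : ∀ k, |V.off 1 k| ≤ 1) {B : ℕ} (hB : B < K1) {u : List Letter} {e : CLad.CX}
    (hu : AllowedRun (V.sys 1).mv (V.cF 1)
      (fun p y p' => c1H V K1 p' - c1H V K1 p = -1 * κ p y) ((true, 0), 0) u e)
    (hlen : 2 * V.pos true B ≤ u.length) :
    run (V.sys 1).mv ((true, 0), 0) (u.take (2 * V.pos true B)) =
      some ((true, V.pos true B), 0) ∧
    kap (V.sys 1).mv κ ((true, 0), 0) (u.take (2 * V.pos true B)) = 0 := by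
  obtain ⟨p, h1, h2, h3, h4⟩ := hu.trap (R := fun p => (∃ j, p = ((true, j), 0)) ∨
      (∃ j, p = ((true, j), 1)) ∨ (∃ k, k < K1 ∧ V.off 1 k = 1 ∧ p = ((true, V.pos true k), 2)))
    (κ := κ) (g := fun _ => 0) (f := 2 * V.pos true B) (i := 2 * V.pos true B) (by
      rintro p hp hFp y p' hy hF hP
      have ha := (V.sys 1).mv_iff.1 hy
      rcases hp with ⟨j, rfl⟩ | ⟨j, rfl⟩ | ⟨k, hk, hok, rfl⟩
      · rcases V.tight_D ha hF with ⟨rfl, rfl⟩ | ⟨rfl, rfl, k, hk, hok⟩
        · exact ⟨Or.inr (Or.inl ⟨j, rfl⟩), by rw [hv.turn]; rfl⟩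
        · refine ⟨Or.inr (Or.inr ⟨k, ?_, hok, by rw [hk]⟩), by rw [hv.dt]; rfl⟩
          rw [CLad.cF_zero] at hFp
          simp only [if_true] at hFp
          by_contra hcon
          have h5 : V.pos true B < V.pos true k := by
            have := V.pos_lt true (show B < k by omega)
            omega
          omega
      · obtain ⟨h3, rfl⟩ := V.tight_U ha hF
        obtain ⟨b, rfl⟩ := fst_eq h3
        exact ⟨Or.inl ⟨j + 1, rfl⟩, by rw [hv.up]; rfl⟩
      · exfalso
        rcases V.tight_T ho ha hF with ⟨-, -, hcr⟩ | ⟨k', hk', h3, rfl, hok'⟩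
        · exact hcr ⟨k, rfl, hok⟩
        · have h5 := V.pos_inj true hk'
          subst h5
          obtain ⟨b, rfl⟩ := fst_eq h3
          change c1H V K1 ((false, V.pos false k'), 2) - _ = _ at hP
          rw [hv.rl, c1H_RT V ⟨k', rfl, by omega⟩, c1H_LT'] at hP
          · omega
          · rintro ⟨k, hk2, hok2⟩
            rw [V.pos_inj false hk2] at hok2
            omega)
    (Or.inl ⟨0, rfl⟩) (by
      rw [CLad.cF_zero]
      simp) hlen
  have hp : p = ((true, V.pos true B), 0) := by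
    rcases h2 with ⟨j, rfl⟩ | ⟨j, rfl⟩ | ⟨k, -, hok, rfl⟩
    · rw [CLad.cF_zero] at h3
      simp only [if_true] at h3
      have : j = V.pos true B := by omega
      rw [this]
    · exfalso
      rw [CLad.cF_one] at h3
      simp only [if_true] at h3
      omega
    · exfalso
      rw [CLad.cF_two_of V (V.cr_pos.2 hok)] at h3
      simp only [if_true] at h3
      omega
  rw [hp] at h1
  exact ⟨h1, h4⟩

/-- Words starting with the crossing at the rung `0` stay on the left line. -/
theorem c1_v {val : CLad.CX → E 2 m 3} {κ : CLad.CX → Letter → ℤ} (hv : C1Val V val κ)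
    (ho : ∀ k, |V.off 1 k| ≤ 1) {B : ℕ} (hB : B ≤ K1) (hB1 : 2 ≤ V.pos true B)
    (h0 : V.off 1 0 = 1) (hoB : V.off 1 B = 1) (h2 : ∀ k, V.off 1 k = -1 → K1 < k)
    {v : List Letter} {e : CLad.CX}
    (hv' : TightRun (V.sys 1).mv (V.cF 1) ((true, 0), 2) v e)
    (hlen : 2 * V.pos true B - 1 ≤ v.length) :
    run (V.sys 1).mv ((true, 0), 2) (v.take (2 * V.pos true B - 1)) =
      some ((false, V.pos true B - 1), 0) ∧
    kap (V.sys 1).mv κ ((true, 0), 2) (v.take (2 * V.pos true B - 1)) = 1 := by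
  have hcr0 : V.Cr 1 true 0 := ⟨0, rfl, h0⟩
  have hcrL : ¬ V.Cr 1 false 0 := by
    rintro ⟨k, hk, hok⟩
    have h3 : k = 0 := V.pos_inj false (hk.trans rfl)
    subst h3
    simp only [Bool.false_eq_true, if_false] at hok
    omega
  have hFB : V.pos false B = V.pos true B := by
    unfold CLad.off at hoB
    omega
  obtain ⟨p, h1, h2', h3, h4⟩ := hv'.allowed_true.trap (R := fun p => p = ((true, 0), 2) ∨
      p = ((false, 0), 2) ∨ (∃ j, p = ((false, j), 0)) ∨ (∃ j, p = ((false, j), 1)))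
    (κ := κ) (g := fun p => if p.1.1 = false ∧ p.2 ≠ 2 then 1 else 0) (f := 2 * V.pos true B)
    (i := 2 * V.pos true B - 1) (by
      rintro p hp hFp y p' hy hF -
      have ha := (V.sys 1).mv_iff.1 hy
      rcases hp with rfl | rfl | ⟨j, rfl⟩ | ⟨j, rfl⟩
      · rcases V.tight_T ho ha hF with ⟨-, -, hcr⟩ | ⟨k, hk, h3, rfl, hok⟩
        · exact absurd hcr0 hcr
        · have h5 : k = 0 := V.pos_inj true (hk.trans rfl)
          subst h5
          obtain ⟨b, rfl⟩ := fst_eq h3
          refine ⟨Or.inr (Or.inl rfl), ?_⟩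
          have h6 := hv.rl 0 b
          change κ ((true, 0), 2) (0, b) = _ at h6
          rw [h6]
          simp
      · rcases V.tight_T ho ha hF with ⟨rfl, rfl, -⟩ | ⟨k, hk, h3, rfl, hok⟩
        · refine ⟨Or.inr (Or.inr (Or.inr ⟨0, rfl⟩)), ?_⟩
          rw [hv.tu']
          · simp
          · intro hl
            exact Bool.noConfusion (hl.2 ⟨0, rfl⟩)
        · exact absurd ⟨k, hk, hok⟩ hcrL
      · rcases V.tight_D ha hF with ⟨rfl, rfl⟩ | ⟨rfl, rfl, k, hk, hok⟩
        · exact ⟨Or.inr (Or.inr (Or.inr ⟨j, rfl⟩)), by rw [hv.turn]; simp⟩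
        · exfalso
          simp only [Bool.false_eq_true, if_false] at hok
          rw [CLad.cF_zero] at hFp
          simp only [Bool.false_eq_true, if_false] at hFp
          have h5 := h2 k hok
          have h6 := V.pos_lt false (show B < k by omega)
          omega
      · obtain ⟨h3, rfl⟩ := V.tight_U ha hF
        obtain ⟨b, rfl⟩ := fst_eq h3
        exact ⟨Or.inr (Or.inr (Or.inl ⟨j + 1, rfl⟩)), by rw [hv.up]; simp⟩)
    (Or.inl rfl) (by
      rw [CLad.cF_two_of V hcr0]
      simp only [if_true]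
      omega) hlen
  have hp : p = ((false, V.pos true B - 1), 0) := by
    rcases h2' with rfl | rfl | ⟨j, rfl⟩ | ⟨j, rfl⟩
    · exfalso
      rw [CLad.cF_two_of V hcr0] at h3
      simp only [if_true] at h3
      omega
    · exfalso
      rw [CLad.cF_two_of_not V hcrL] at h3
      simp only [Bool.false_eq_true, if_false] at h3
      omega
    · rw [CLad.cF_zero] at h3
      simp only [Bool.false_eq_true, if_false] at h3
      have : j = V.pos true B - 1 := by omega
      rw [this]
    · exfalso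
      rw [CLad.cF_one] at h3
      simp only [Bool.false_eq_true, if_false] at h3
      omega
  rw [hp] at h1 h4
  refine ⟨h1, ?_⟩
  rw [h4]
  simp

theorem kap_lw {val : CLad.CX → E 2 m 3} {κ : CLad.CX → Letter → ℤ} (hv : C1Val V val κ)
    (b σ : Bool) (i d : ℕ) : kap (V.sys 1).mv κ ((σ, i), 0) (V.lw 1 b σ i d) = 0 := by
  induction d generalizing i with
  | zero => rfl
  | succ d ih =>
    change kap (V.sys 1).mv κ ((σ, i), 0) (V.turn 1 σ i :: (otg 1, b) :: V.lw 1 b σ (i + 1) d) = 0
    rw [kap_cons (V.mv_turn σ i 0), hv.turn]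
    change 0 + kap (V.sys 1).mv κ ((σ, i), 1) ((otg 1, b) :: V.lw 1 b σ (i + 1) d) = 0
    rw [kap_cons (V.mv_up σ i b), ih]
    have := hv.up σ i b
    change 0 + (κ ((σ, i), 1) (0, b) + 0) = 0
    rw [this]
    rfl

theorem kap_xw_rl {val : CLad.CX → E 2 m 3} {κ : CLad.CX → Letter → ℤ} (hv : C1Val V val κ)
    (b b' : Bool) (k : ℕ) :
    kap (V.sys 1).mv κ ((true, V.pos true k), 0) (V.xw 1 b b' true k) = k + 1 := by
  change kap (V.sys 1).mv κ ((true, V.pos true k), 0) [flip (V.turn 1 true (V.pos true k)),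
    (otg 1, b), flip (V.turn 1 false (V.pos false k)), (otg 1, b')] = k + 1
  rw [kap_cons (V.mv_flip_turn true _ 0), hv.dt]
  change 0 + kap (V.sys 1).mv κ ((true, V.pos true k), 2) _ = _
  rw [kap_cons (V.mv_rl k b), kap_cons (V.mv_flip_turn false _ 2), hv.tu']
  · change 0 + (κ ((true, V.pos true k), 2) (0, b) + (1 + kap (V.sys 1).mv κ
      ((false, V.pos false k), 1) _)) = _
    rw [kap_cons (V.mv_up false _ b'), hv.rl, kap_nil]
    change 0 + ((k : ℤ) + (1 + (κ ((false, V.pos false k), 1) (0, b') + 0))) = _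
    rw [hv.up]
    ring
  · intro hl
    exact Bool.noConfusion (hl.2 ⟨k, rfl⟩)

theorem kap_xw_lr {val : CLad.CX → E 2 m 3} {κ : CLad.CX → Letter → ℤ} (hv : C1Val V val κ)
    (b b' : Bool) (k : ℕ) :
    kap (V.sys 1).mv κ ((false, V.pos false k), 0) (V.xw 1 b b' false k) = -k - 1 := by
  change kap (V.sys 1).mv κ ((false, V.pos false k), 0) [flip (V.turn 1 false (V.pos false k)),
    (otg 1, b), flip (V.turn 1 true (V.pos true k)), (otg 1, b')] = -k - 1
  rw [kap_cons (V.mv_flip_turn false _ 0), hv.dt]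
  change 0 + kap (V.sys 1).mv κ ((false, V.pos false k), 2) _ = _
  rw [kap_cons (V.mv_lr k b), kap_cons (V.mv_flip_turn true _ 2), hv.tu]
  · change 0 + (κ ((false, V.pos false k), 2) (0, b) + (-1 + kap (V.sys 1).mv κ
      ((true, V.pos true k), 1) _)) = _
    rw [kap_cons (V.mv_up true _ b'), hv.lr, kap_nil]
    change 0 + (-(k : ℤ) + (-1 + (κ ((true, V.pos true k), 1) (0, b') + 0))) = _
    rw [hv.up]
    ring
  · exact ⟨fun _ => ⟨k, rfl⟩, fun _ => rfl⟩

end

/-- The elements given by words with at most five letters. -/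
def ball5 (l m n : ℕ) : Set (E l m n) :=
  {g | ∃ w : List Letter, w.length ≤ 5 ∧ g = eval l m n w}

theorem ball5_finite (l m n : ℕ) : (ball5 l m n).Finite := by
  refine ((List.finite_length_le Letter 5).image (eval l m n)).subset ?_
  rintro g ⟨w, hw, rfl⟩
  exact ⟨w, hw, rfl⟩

/-- One order. -/
theorem notFD_b5' (hm : 7 ≤ m) (hyp : (1 / (2 : ℕ) + 1 / m + 1 / (3 : ℕ) : ℚ) < 1)
    (lt : Letter → Letter → Prop) [IsStrictTotalOrder Letter lt] (hlt : lt lB' lB) :
    ¬ FiniteDiff 2 m 3 lt := by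
  have hm2 : 2 ≤ m := by omega
  refine not_finiteDiff_of_heights (by omega) hm2 (by omega) hyp lt 3 (ball5 2 m 3)
    (ball5_finite 2 m 3) fun N => ?_
  set B := 2 * (N + 2) with hB
  set K1 := B + 2 with hK1
  set V := c1 m K1 hm with hV
  obtain ⟨val, κ, hv⟩ := exists_c1Val V hm
  have VS : VSys 2 m 3 (V.sys 1).mv :=
    (V.closed (Or.inr ⟨rfl, rfl, rfl⟩) (by omega)).vsys (by omega) (by omega) (by omega)
  have hoff : ∀ k, V.off 1 k = c1o m K1 k := c1_off hm
  have ho : ∀ k, |V.off 1 k| ≤ 1 := c1_off_le hm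
  have hz1 : ∀ k, V.off 1 k = 1 → k ≤ K1 := by
    intro k hk
    rw [hoff] at hk
    unfold c1o at hk
    split_ifs at hk <;> omega
  have hz2 : ∀ k, V.off 1 k = -1 → K1 < k := by
    intro k hk
    rw [hoff] at hk
    unfold c1o at hk
    split_ifs at hk
    omega
  have h0 : V.off 1 0 = 1 := by
    rw [hoff]
    unfold c1o
    rw [if_neg (by omega), if_pos (by omega)]
  have hoB : V.off 1 B = 1 := by
    rw [hoff]
    unfold c1o
    rw [if_neg (by omega), if_pos (by omega)]
  have hoK : V.off 1 K1 = 1 := by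
    rw [hoff]
    unfold c1o
    rw [if_neg (by omega), if_pos (by omega)]
  have hok' : V.off 1 (K1 + 2) = -1 := by
    rw [hoff]
    unfold c1o
    rw [if_neg (by omega), if_neg (by omega)]
  have hlip : ∀ x y x', (V.sys 1).mv x y = some x' → V.cF 1 x' ≤ V.cF 1 x + 1 :=
    fun x y x' h => V.cF_lip ho x y x' ((V.sys 1).mv_iff.1 h)
  have hH := c1_hH V hv ho hz1 hz2
  -- positions
  have hposB : 2 ≤ V.pos true B := by
    have := V.pos_lt true (show 0 < B by omega)
    omega
  have hFB : V.pos false B = V.pos true B := by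
    have h1 : V.off 1 B = V.pos false B + 1 - V.pos true B := rfl
    omega
  obtain ⟨k', hk'⟩ : ∃ k', k' = K1 + 2 := ⟨_, rfl⟩
  obtain ⟨K2, hK2⟩ : ∃ K2, K2 = K1 + 1 + k' := ⟨_, rfl⟩
  rw [← hk'] at hok'
  have q1 := V.pos_lt false (show K1 < K2 by omega)
  have q2 := V.pos_lt false (show 0 < k' by omega)
  have q3 := V.pos_lt true (show k' < K2 by omega)
  have q4 := V.pos_lt true (show B < K1 by omega)
  have q5 := V.pos_lt true (show K1 < k' by omega)
  -- the first word
  have t1a := V.tight_lw (τ := 1) 1 true true 0 (V.pos true K1)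
  rw [Nat.zero_add] at t1a
  have t1b := V.tight_xw (τ := 1) 1 true true true K1 (by rw [hoK]; rfl)
  have t1c := V.tight_lw (τ := 1) 1 true false (V.pos false K1 + 1)
    (V.pos false K2 - (V.pos false K1 + 1))
  rw [Nat.add_sub_cancel' (by omega)] at t1c
  have t1 := (t1a.append t1b).append t1c
  have k1 : kap (V.sys 1).mv κ ((true, 0), 0) ((V.lw 1 true true 0 (V.pos true K1) ++
      V.xw 1 true true true K1) ++ V.lw 1 true false (V.pos false K1 + 1)
        (V.pos false K2 - (V.pos false K1 + 1))) = K1 + 1 := by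
    rw [kap_append (t1a.append t1b).spec.1, kap_append t1a.spec.1, kap_lw V hv, kap_xw_rl V hv]
    change (0 : ℤ) + (K1 + 1) + kap (V.sys 1).mv κ ((false, V.pos false K1 + 1), 0) _ = _
    rw [kap_lw V hv]
    ring
  set w1 := (V.lw 1 true true 0 (V.pos true K1) ++ V.xw 1 true true true K1) ++
    V.lw 1 true false (V.pos false K1 + 1) (V.pos false K2 - (V.pos false K1 + 1)) with hw1
  -- the second word
  have t2a := V.tight_xw (τ := 1) 1 true true true 0 (by rw [h0]; rfl)
  have t2b := V.tight_lw (τ := 1) 1 true false (0 + 1) (V.pos false k' - (0 + 1))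
  rw [Nat.add_sub_cancel' (by omega)] at t2b
  have t2c := V.tight_xw (τ := 1) 1 true true false k' (by rw [hok']; rfl)
  have t2d := V.tight_lw (τ := 1) 1 true true (V.pos true k' + 1)
    (V.pos true K2 - (V.pos true k' + 1))
  rw [Nat.add_sub_cancel' (by omega)] at t2d
  have t2a' : TightRun (V.sys 1).mv (V.cF 1) ((true, 0), 0) (V.xw 1 true true true 0)
      ((false, 0 + 1), 0) := t2a
  have t2 := ((t2a'.append t2b).append t2c).append t2d
  have k2 : kap (V.sys 1).mv κ ((true, 0), 0) (((V.xw 1 true true true 0 ++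
      V.lw 1 true false (0 + 1) (V.pos false k' - (0 + 1))) ++ V.xw 1 true true false k') ++
      V.lw 1 true true (V.pos true k' + 1) (V.pos true K2 - (V.pos true k' + 1))) = -k' := by
    have h1 : kap (V.sys 1).mv κ ((true, 0), 0) (V.xw 1 true true true 0) = ((0 : ℕ) : ℤ) + 1 :=
      kap_xw_rl V hv true true 0
    rw [kap_append ((t2a'.append t2b).append t2c).spec.1, kap_append (t2a'.append t2b).spec.1,
      kap_append t2a'.spec.1, h1, kap_lw V hv, kap_xw_lr V hv]
    change ((0 : ℕ) : ℤ) + 1 + 0 + (-(k' : ℤ) - 1) +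
      kap (V.sys 1).mv κ ((true, V.pos true k' + 1), 0) _ = _
    rw [kap_lw V hv]
    push_cast
    ring
  set w2 := ((V.xw 1 true true true 0 ++
      V.lw 1 true false (0 + 1) (V.pos false k' - (0 + 1))) ++ V.xw 1 true true false k') ++
      V.lw 1 true true (V.pos true k' + 1) (V.pos true K2 - (V.pos true k' + 1)) with hw2
  -- the connecting word
  set c : List Letter := [flip (V.turn 1 false (V.pos false K2)), (0, true),
    V.turn 1 true (V.pos true K2)] with hc
  have c1 : (V.sys 1).mv ((false, V.pos false K2), 0) (flip (V.turn 1 false (V.pos false K2))) =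
      some ((false, V.pos false K2), 2) := V.mv_flip_turn false _ 0
  have c2 : (V.sys 1).mv ((false, V.pos false K2), 2) (0, true) =
      some ((true, V.pos true K2), 2) := V.mv_lr K2 true
  have c3 : (V.sys 1).mv ((true, V.pos true K2), 2) (V.turn 1 true (V.pos true K2)) =
      some ((true, V.pos true K2), 0) := V.mv_turn true _ 2
  have hrunc : run (V.sys 1).mv ((false, V.pos false K2), 0) c =
      some ((true, V.pos true K2), 0) := by
    rw [hc, run_cons_some]
    refine ⟨_, c1, ?_⟩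
    rw [run_cons_some]
    refine ⟨_, c2, ?_⟩
    rw [run_cons_some]
    exact ⟨_, c3, rfl⟩
  have hTD : ∀ σ i, κ ((σ, i), 2) (V.turn 1 σ i) = 0 := by
    intro σ i
    have h1 : (V.sys 1).mv ((σ, i), 0) (flip (V.turn 1 σ i)) = some ((σ, i), 2) :=
      V.mv_flip_turn σ i 0
    have h2 : (V.sys 1).mv ((σ, i), 2) (flip (flip (V.turn 1 σ i))) = some ((σ, i), 0) := by
      rw [flip_flip]
      exact V.mv_turn σ i 2
    have h3 := hv.vval.flip_eq (by omega) hm2 (by omega) hyp h1 h2
    rw [flip_flip, hv.dt] at h3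
    rw [h3]
    rfl
  have kc : kap (V.sys 1).mv κ ((false, V.pos false K2), 0) c = -K2 := by
    rw [hc, kap_cons c1, kap_cons c2, kap_cons c3, hv.dt, hv.lr, hTD, kap_nil]
    ring
  refine ⟨w1, w2, c, 2 * V.pos true B, le_rfl, ?_, fun u v hu hu' hv' hv'' => ?_⟩
  · have h1 : run (V.sys 1).mv ((true, 0), 0) (w1 ++ c) = some ((true, V.pos true K2), 0) := by
      rw [run_append_some]
      exact ⟨_, t1.spec.1, hrunc⟩
    rw [hv.vval.eval_eq h1, hv.vval.eval_eq t2.spec.1, kap_append t1.spec.1, k1, k2]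
    have h2 : kap (V.sys 1).mv κ ((false, V.pos false K2), 0) c = -K2 := kc
    rw [h2]
    congr 2
    rw [hK2]
    push_cast
    ring
  · -- the first normal form
    obtain ⟨tu, lu, -⟩ := VS.normalForm (by omega) hm2 (by omega) hlip t1 hu hu'
    have ku : kap (V.sys 1).mv κ ((true, 0), 0) u = K1 + 1 := by
      rw [← k1]
      exact hv.vval.kap_eq (by omega) hm2 (by omega) hyp tu.spec.1 t1.spec.1 hu'
    have au := tu.allowed (Hh := c1H V K1) (ε := -1) hH (by
      rw [ku, c1H_L V (by decide), c1H_R V (by decide)]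
      ring)
    have hul : 2 * V.pos true B ≤ u.length := by
      have h1 := tu.spec.2
      rw [CLad.cF_zero, CLad.cF_zero] at h1
      simp only [Bool.false_eq_true, if_false, if_true] at h1
      have h2 : V.off 1 K1 = V.pos false K1 + 1 - V.pos true K1 := rfl
      push_cast at h1
      omega
    obtain ⟨ru, kpu⟩ := c1_u V hv ho (B := B) (by omega) au hul
    -- the second normal form
    obtain ⟨tv, lv, hlex⟩ := VS.normalForm (by omega) hm2 (by omega) hlip t2 hv' hv''
    have hl0 : V.leftT true 0 := ⟨fun _ => ⟨0, rfl⟩, fun _ => rfl⟩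
    have hturn : V.turn 1 true 0 = lB := V.turn_of hl0
    obtain ⟨r, hr⟩ : ∃ r, w2 = flip (V.turn 1 true 0) :: r := ⟨_, rfl⟩
    rw [hturn] at hr
    have hlv : 2 * V.pos true B ≤ v.length := by
      have h1 := tv.spec.2
      rw [CLad.cF_zero, CLad.cF_zero] at h1
      simp only [if_true] at h1
      push_cast at h1
      omega
    cases v with
    | nil =>
      simp only [List.length_nil] at hlv
      omega
    | cons y v' =>
      obtain ⟨x', hy, hF, tv'⟩ := tv
      have ha := (V.sys 1).mv_iff.1 hy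
      have hyx : y = lB' ∧ x' = ((true, 0), 2) := by
        rcases V.tight_D ha hF with ⟨h1, -⟩ | ⟨h1, h2, -⟩
        · exfalso
          rw [hturn] at h1
          rw [hr, h1] at hlex
          rcases hlex with h | h
          · simp only [List.cons.injEq] at h
            exact absurd h.1 (by decide)
          · cases h with
            | rel h => exact asymm_of lt h hlt
        · rw [hturn] at h1
          exact ⟨h1, h2⟩
      obtain ⟨rfl, rfl⟩ := hyx
      obtain ⟨rv, kpv⟩ := c1_v V hv ho (B := B) (by omega) hposB h0 hoB hz2 tv' (by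
        simp only [List.length_cons] at hlv
        omega)
      have htake : (lB' :: v').take (2 * V.pos true B) =
          lB' :: v'.take (2 * V.pos true B - 1) := by
        rw [show 2 * V.pos true B = 2 * V.pos true B - 1 + 1 by omega, List.take_succ_cons,
          Nat.add_sub_cancel]
      have rv2 : run (V.sys 1).mv ((true, 0), 0) ((lB' :: v').take (2 * V.pos true B)) =
          some ((false, V.pos true B - 1), 0) := by
        rw [htake, run_cons_some]
        exact ⟨_, hy, rv⟩
      have kv2 : kap (V.sys 1).mv κ ((true, 0), 0) ((lB' :: v').take (2 * V.pos true B)) = 1 := by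
        rw [htake, kap_cons hy, kpv]
        have h1 := hv.dt true 0
        rw [hturn] at h1
        change κ ((true, 0), 0) lB' = 0 at h1
        rw [h1]
        rfl
      -- the difference
      obtain ⟨P, hP⟩ : ∃ P, V.pos true B = P + 1 := ⟨V.pos true B - 1, by omega⟩
      have e1 : (V.sys 1).mv ((true, V.pos true B), 0) (flip (V.turn 1 true (V.pos true B))) =
          some ((true, V.pos true B), 2) := V.mv_flip_turn true _ 0
      have e2 : (V.sys 1).mv ((true, V.pos true B), 2) (0, true) =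
          some ((false, V.pos false B), 2) := V.mv_rl B true
      have e3 : (V.sys 1).mv ((false, V.pos false B), 2) (V.turn 1 false (V.pos false B)) =
          some ((false, P + 1), 0) := by
        have h1 := V.mv_turn (τ := 1) false (V.pos false B) 2
        rw [h1, hFB, hP]
        rfl
      have e4 : (V.sys 1).mv ((false, P + 1), 0) (0, true) = some ((false, P), 1) :=
        (V.sys 1).mv_iff.2 (CLad.Adj.down false P true)
      have e5 : (V.sys 1).mv ((false, P), 1) (flip (V.turn 1 false P)) =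
          some ((false, P), 0) := V.mv_flip_turn false _ 1
      have k4 : κ ((false, P + 1), 0) (0, true) = 0 := by
        have h1 : (V.sys 1).mv ((false, P), 1) (0, false) = some ((false, P + 1), 0) :=
          V.mv_up false P false
        have h3 := hv.vval.flip_eq (y := (0, false)) (by omega) hm2 (by omega) hyp h1 e4
        rw [hv.up] at h3
        change κ ((false, P + 1), 0) (0, true) = -0 at h3
        rw [h3]
        rfl
      have k5 : κ ((false, P), 1) (flip (V.turn 1 false P)) = 0 := by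
        have h1 : (V.sys 1).mv ((false, P), 0) (V.turn 1 false P) = some ((false, P), 1) :=
          V.mv_turn false P 0
        have h3 := hv.vval.flip_eq (by omega) hm2 (by omega) hyp h1 e5
        rw [hv.turn] at h3
        rw [h3]
        rfl
      set w5 : List Letter := [flip (V.turn 1 true (V.pos true B)), (0, true),
        V.turn 1 false (V.pos false B), (0, true), flip (V.turn 1 false P)] with hw5
      have hrun5 : run (V.sys 1).mv ((true, V.pos true B), 0) w5 = some ((false, P), 0) := by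
        rw [run_cons_some]
        refine ⟨_, e1, ?_⟩
        rw [run_cons_some]
        refine ⟨_, e2, ?_⟩
        rw [run_cons_some]
        refine ⟨_, e3, ?_⟩
        rw [run_cons_some]
        refine ⟨_, e4, ?_⟩
        rw [run_cons_some]
        exact ⟨_, e5, rfl⟩
      have kap5 : kap (V.sys 1).mv κ ((true, V.pos true B), 0) w5 = B := by
        rw [hw5, kap_cons e1, kap_cons e2, kap_cons e3, kap_cons e4, kap_cons e5, hv.dt, hv.rl, hTD,
          k4, k5, kap_nil]
        ring
      have hm5 := hv.vval.mul_eval hrun5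
      rw [kap5] at hm5
      refine ⟨eval 2 m 3 w5, ⟨w5, le_rfl, rfl⟩, 1 - (B : ℤ), ?_, ?_⟩
      · rw [abs_of_neg (by omega)]
        omega
      · rw [hv.vval.eval_eq ru, hv.vval.eval_eq rv2, kpu, kv2, hP, Nat.add_sub_cancel]
        rw [hP] at hm5
        have h1 : eval 2 m 3 w5 = (val ((true, P + 1), 0))⁻¹ * val ((false, P), 0) *
            (genB 2 m 3 ^ 3) ^ (B : ℤ) := by
          rw [mul_assoc, ← hm5, inv_mul_cancel_left]
        rw [h1, mul_assoc _ _ ((genB 2 m 3 ^ 3) ^ (1 - (B : ℤ))), ← zpow_add,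
          show (B : ℤ) + (1 - B) = 1 by ring, zpow_zero]
        group

/-- `(2, m, 3)` with `m ≥ 7`. -/
theorem notFD_b5 {m : ℕ} (hm : 7 ≤ m)
    (lt : Letter → Letter → Prop) [IsStrictTotalOrder Letter lt] : ¬ FiniteDiff 2 m 3 lt := by
  have hyp : (1 / (2 : ℕ) + 1 / m + 1 / (3 : ℕ) : ℚ) < 1 := by
    have h1 := inv_le (a := 7) (b := m) (by norm_num) hm
    push_cast at h1 ⊢
    linarith
  rcases trichotomous_of lt lB' lB with h1 | h1 | h1
  · exact notFD_b5' hm hyp lt h1
  · exact absurd h1 (by decide)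
  · intro hF
    exact notFD_b5' hm hyp (flipLt lt) h1 (finiteDiff_flip 2 m 3 lt hF)

end Pool.Agent.SLE
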