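import Pool.Agent.SLE.CLadVal
import Pool.Agent.SLE.Attach

/-!
# The family `(3, m, 2)`
-/

namespace Pool.Agent.SLE

open List G3

namespace CLad

section

variable {m : ℕ} (V : CLad m)

/-- The third corner can be used for crossing. -/
def c2_Crs (o0 : ℤ) (σ : Bool) (i : ℕ) : Prop :=
  ∃ k, V.pos σ k = i ∧ V.off o0 k = (if σ then 1 else -1)

theorem c2_cF_zero (o0 : ℤ) (σ : Bool) (i : ℕ) :
    V.cF o0 ((σ, i), 0) = 2 * i + (if σ then 0 else 2 * o0) := by
  unfold cF
  simp

theorem c2_cF_one (o0 : ℤ) (σ : Bool) (i : ℕ) :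
    V.cF o0 ((σ, i), 1) = 2 * i + (if σ then 0 else 2 * o0) + 1 := by
  unfold cF
  simp

theorem c2_cF_two (o0 : ℤ) {σ : Bool} {i : ℕ} (h : V.c2_Crs o0 σ i) :
    V.cF o0 ((σ, i), 2) = 2 * i + (if σ then 0 else 2 * o0) + 1 := by
  unfold cF
  rw [if_neg (show ¬ (2 : Fin 3) = 0 by decide), if_neg (show ¬ (2 : Fin 3) = 1 by decide)]
  exact congrArg _ (if_pos h)

theorem c2_cF_two' (o0 : ℤ) {σ : Bool} {i : ℕ} (h : ¬ V.c2_Crs o0 σ i) :
    V.cF o0 ((σ, i), 2) = 2 * i + (if σ then 0 else 2 * o0) := by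
  unfold cF
  rw [if_neg (show ¬ (2 : Fin 3) = 0 by decide), if_neg (show ¬ (2 : Fin 3) = 1 by decide)]
  exact (congrArg _ (if_neg h)).trans (add_zero _)

theorem c2_crs_pos (o0 : ℤ) (σ : Bool) (k : ℕ) :
    V.c2_Crs o0 σ (V.pos σ k) ↔ V.off o0 k = (if σ then 1 else -1) := by
  constructor
  · rintro ⟨k', h1, h2⟩
    rw [V.pos_inj σ h1] at h2
    exact h2
  · intro h
    exact ⟨k, rfl, h⟩

theorem c2_adj_turn (τ : Fin 2) (σ : Bool) (i : ℕ) :
    V.Adj τ ((σ, i), 0) (V.turn τ σ i) ((σ, i), 1) := by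
  classical
  unfold turn
  by_cases h : V.leftT σ i
  · have h1 := Adj.tri (V := V) (τ := τ) σ i 0
    rw [decide_eq_true h]
    have h2 : V.rot σ i 0 = 1 := by unfold rot; rw [if_pos h]; simp
    rwa [h2] at h1
  · have h1 := Adj.tri' (V := V) (τ := τ) σ i 1
    rw [decide_eq_false h]
    have h2 : V.rot σ i 1 = 0 := by unfold rot; rw [if_neg h]; simp
    rwa [h2] at h1

theorem c2_adj_side (τ : Fin 2) (σ : Bool) (i : ℕ) :
    V.Adj τ ((σ, i), 0) (flip (V.turn τ σ i)) ((σ, i), 2) := by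
  classical
  unfold turn
  by_cases h : V.leftT σ i
  · have h1 := Adj.tri' (V := V) (τ := τ) σ i 2
    rw [decide_eq_true h]
    have h2 : V.rot σ i 2 = 0 := by unfold rot; rw [if_pos h]; simp
    rwa [h2] at h1
  · have h1 := Adj.tri (V := V) (τ := τ) σ i 0
    rw [decide_eq_false h]
    have h2 : V.rot σ i 0 = 2 := by unfold rot; rw [if_neg h]; simp
    rwa [h2] at h1

theorem c2_adj_back (τ : Fin 2) (σ : Bool) (i : ℕ) :
    V.Adj τ ((σ, i), 2) (V.turn τ σ i) ((σ, i), 0) := by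
  have h := (V.sys τ).symm (V.c2_adj_side τ σ i)
  rwa [flip_flip] at h

theorem c2_adj_side2 (τ : Fin 2) (σ : Bool) (i : ℕ) :
    V.Adj τ ((σ, i), 2) (flip (V.turn τ σ i)) ((σ, i), 1) := by
  classical
  unfold turn
  by_cases h : V.leftT σ i
  · have h1 := Adj.tri' (V := V) (τ := τ) σ i 1
    rw [decide_eq_true h]
    have h2 : V.rot σ i 1 = 2 := by unfold rot; rw [if_pos h]; simp
    rwa [h2] at h1
  · have h1 := Adj.tri (V := V) (τ := τ) σ i 2
    rw [decide_eq_false h]
    have h2 : V.rot σ i 2 = 1 := by unfold rot; rw [if_neg h]; simp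
    rwa [h2] at h1

/-- The darts inside a triangle. -/
theorem c2_tri_cases (τ : Fin 2) (σ : Bool) (i : ℕ) (d d' : Fin 3) (y : Letter)
    (h : (y = (τ, true) ∧ d' = V.rot σ i d) ∨ (y = (τ, false) ∧ d = V.rot σ i d')) :
    (d = 0 ∧ y = V.turn τ σ i ∧ d' = 1) ∨ (d = 0 ∧ y = flip (V.turn τ σ i) ∧ d' = 2) ∨
    (d = 2 ∧ y = flip (V.turn τ σ i) ∧ d' = 1) ∨ d = 1 ∨ d' = 0 := by
  classical
  unfold turn
  by_cases hl : V.leftT σ i
  · rw [decide_eq_true hl]
    have hr : ∀ d, V.rot σ i d = if d = 1 then 2 else if d = 2 then 0 else 1 := by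
      intro d; unfold rot; rw [if_pos hl]
    rw [hr, hr] at h
    rcases h with ⟨rfl, h⟩ | ⟨rfl, h⟩
    · revert h
      fin_cases d <;> fin_cases d' <;> simp
    · revert h
      fin_cases d <;> fin_cases d' <;> simp [flip]
  · rw [decide_eq_false hl]
    have hr : ∀ d, V.rot σ i d = if d = 1 then 0 else if d = 0 then 2 else 1 := by
      intro d; unfold rot; rw [if_neg hl]
    rw [hr, hr] at h
    rcases h with ⟨rfl, h⟩ | ⟨rfl, h⟩
    · revert h
      fin_cases d <;> fin_cases d' <;> simp [flip]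
    · revert h
      fin_cases d <;> fin_cases d' <;> simp

/-- **The tight darts.** -/
theorem c2_tight_cases {τ : Fin 2} {o0 : ℤ} {x x' : CX} {y : Letter} (h : V.Adj τ x y x')
    (hF : V.cF o0 x' = V.cF o0 x + 1) :
    (∃ σ i, x = ((σ, i), 0) ∧ y = V.turn τ σ i ∧ x' = ((σ, i), 1)) ∨
    (∃ σ i, x = ((σ, i), 0) ∧ y = flip (V.turn τ σ i) ∧ x' = ((σ, i), 2) ∧ V.c2_Crs o0 σ i) ∨
    (∃ σ i, x = ((σ, i), 2) ∧ y = flip (V.turn τ σ i) ∧ x' = ((σ, i), 1) ∧ ¬ V.c2_Crs o0 σ i) ∨
    (∃ σ i b, x = ((σ, i), 1) ∧ y = (otg τ, b) ∧ x' = ((σ, i + 1), 0)) ∨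
    (∃ k b, x = ((false, V.pos false k), 2) ∧ y = (otg τ, b) ∧
      x' = ((true, V.pos true k), 2) ∧ V.off o0 k = -1) ∨
    (∃ k b, x = ((true, V.pos true k), 2) ∧ y = (otg τ, b) ∧
      x' = ((false, V.pos false k), 2) ∧ V.off o0 k = 1) := by
  -- the triangles
  have htri : ∀ (σ : Bool) (i : ℕ) (d d' : Fin 3),
      ((y = (τ, true) ∧ d' = V.rot σ i d) ∨ (y = (τ, false) ∧ d = V.rot σ i d')) →
      V.cF o0 ((σ, i), d') = V.cF o0 ((σ, i), d) + 1 →
      (d = 0 ∧ y = V.turn τ σ i ∧ d' = 1) ∨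
      (d = 0 ∧ y = flip (V.turn τ σ i) ∧ d' = 2 ∧ V.c2_Crs o0 σ i) ∨
      (d = 2 ∧ y = flip (V.turn τ σ i) ∧ d' = 1 ∧ ¬ V.c2_Crs o0 σ i) := by
    intro σ i d d' h hF
    have e0 := V.c2_cF_zero o0 σ i
    have e1 := V.c2_cF_one o0 σ i
    have e2 : V.cF o0 ((σ, i), 2) = 2 * i + (if σ then 0 else 2 * o0) + 1 ∧ V.c2_Crs o0 σ i ∨
        V.cF o0 ((σ, i), 2) = 2 * i + (if σ then 0 else 2 * o0) ∧ ¬ V.c2_Crs o0 σ i := by
      by_cases hc : V.c2_Crs o0 σ i
      · exact Or.inl ⟨V.c2_cF_two o0 hc, hc⟩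
      · exact Or.inr ⟨V.c2_cF_two' o0 hc, hc⟩
    rcases V.c2_tri_cases τ σ i d d' y h with h1 | ⟨h1, h2, h3⟩ | ⟨h1, h2, h3⟩ | h1 | h1
    · exact Or.inl h1
    · right; left
      subst h1 h3
      refine ⟨rfl, h2, rfl, ?_⟩
      rcases e2 with ⟨-, e3⟩ | ⟨e3, -⟩
      · exact e3
      · omega
    · right; right
      subst h1 h3
      refine ⟨rfl, h2, rfl, ?_⟩
      rcases e2 with ⟨e3, -⟩ | ⟨-, e3⟩
      · omega
      · exact e3
    · exfalso
      subst h1
      revert hF
      fin_cases d'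
      · simp only [Fin.zero_eta]
        rw [e0, e1]
        omega
      · simp only [Fin.mk_one]
        omega
      · simp only [Fin.reduceFinMk]
        rcases e2 with ⟨e3, -⟩ | ⟨e3, -⟩ <;> rw [e3, e1] <;> omega
    · exfalso
      subst h1
      revert hF
      fin_cases d
      · simp only [Fin.zero_eta]
        omega
      · simp only [Fin.mk_one]
        rw [e0, e1]
        omega
      · simp only [Fin.reduceFinMk]
        rcases e2 with ⟨e3, -⟩ | ⟨e3, -⟩ <;> rw [e3, e0] <;> omega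
  -- the rungs
  have hR : ∀ k, V.cF o0 ((true, V.pos true k), 2) =
      2 * V.pos true k + if V.off o0 k = 1 then 1 else 0 := by
    intro k
    by_cases hc : V.off o0 k = 1
    · rw [if_pos hc, V.c2_cF_two o0 ((V.c2_crs_pos o0 true k).2 (by rw [if_pos rfl]; exact hc))]
      simp
    · rw [if_neg hc, V.c2_cF_two' o0 (fun h => hc (by
        have := (V.c2_crs_pos o0 true k).1 h
        rwa [if_pos rfl] at this))]
      simp
  have hL : ∀ k, V.cF o0 ((false, V.pos false k), 2) =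
      2 * V.pos true k + 2 * V.off o0 k + if V.off o0 k = -1 then 1 else 0 := by
    intro k
    have hoff : V.off o0 k = V.pos false k + o0 - V.pos true k := rfl
    by_cases hc : V.off o0 k = -1
    · rw [if_pos hc, V.c2_cF_two o0 ((V.c2_crs_pos o0 false k).2 (by simpa using hc))]
      simp only [Bool.false_eq_true, if_false]
      omega
    · rw [if_neg hc, V.c2_cF_two' o0 (fun h => hc (by
        have := (V.c2_crs_pos o0 false k).1 h
        simpa using this))]
      simp only [Bool.false_eq_true, if_false]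
      omega
  cases h with
  | tri σ i d =>
    rcases htri σ i d _ (Or.inl ⟨rfl, rfl⟩) hF with ⟨h1, h2, h3⟩ | ⟨h1, h2, h3, h4⟩ |
      ⟨h1, h2, h3, h4⟩
    · exact Or.inl ⟨σ, i, by rw [h1], h2, by rw [h3]⟩
    · exact Or.inr (Or.inl ⟨σ, i, by rw [h1], h2, by rw [h3], h4⟩)
    · exact Or.inr (Or.inr (Or.inl ⟨σ, i, by rw [h1], h2, by rw [h3], h4⟩))
  | tri' σ i d =>
    rcases htri σ i _ d (Or.inr ⟨rfl, rfl⟩) hF with ⟨h1, h2, h3⟩ | ⟨h1, h2, h3, h4⟩ |
      ⟨h1, h2, h3, h4⟩
    · exact Or.inl ⟨σ, i, by rw [h1], h2, by rw [h3]⟩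
    · exact Or.inr (Or.inl ⟨σ, i, by rw [h1], h2, by rw [h3], h4⟩)
    · exact Or.inr (Or.inr (Or.inl ⟨σ, i, by rw [h1], h2, by rw [h3], h4⟩))
  | up σ i b => exact Or.inr (Or.inr (Or.inr (Or.inl ⟨σ, i, b, rfl, rfl, rfl⟩)))
  | down σ i b =>
    exfalso
    rw [V.c2_cF_one, V.c2_cF_zero] at hF
    push_cast at hF
    omega
  | lr k b =>
    refine Or.inr (Or.inr (Or.inr (Or.inr (Or.inl ⟨k, b, rfl, rfl, rfl, ?_⟩))))
    rw [hR, hL] at hF
    split_ifs at hF <;> omega
  | rl k b =>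
    refine Or.inr (Or.inr (Or.inr (Or.inr (Or.inr ⟨k, b, rfl, rfl, rfl, ?_⟩))))
    rw [hR, hL] at hF
    split_ifs at hF <;> omega

/-- The word along a line, from `(σ, i, D)` to `(σ, i + d, D)`, with the letters `(otg τ, b)`. -/
noncomputable def c2_lw (τ : Fin 2) (σ b : Bool) : ℕ → ℕ → List Letter
  | _, 0 => []
  | i, d + 1 => V.turn τ σ i :: (otg τ, b) :: c2_lw τ σ b (i + 1) d

theorem c2_lw_length (τ : Fin 2) (σ b : Bool) (i d : ℕ) : (V.c2_lw τ σ b i d).length = 2 * d := by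
  induction d generalizing i with
  | zero => rfl
  | succ d ih =>
    rw [c2_lw, List.length_cons, List.length_cons, ih]
    omega

theorem c2_lw_tight (τ : Fin 2) (o0 : ℤ) (σ b : Bool) (i d : ℕ) :
    TightRun (V.sys τ).mv (V.cF o0) ((σ, i), 0) (V.c2_lw τ σ b i d) ((σ, i + d), 0) := by
  induction d generalizing i with
  | zero => rfl
  | succ d ih =>
    refine ⟨((σ, i), 1), (V.sys τ).mv_iff.2 (V.c2_adj_turn τ σ i), ?_, ((σ, i + 1), 0),
      (V.sys τ).mv_iff.2 (Adj.up σ i b), ?_, ?_⟩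
    · rw [V.c2_cF_one, V.c2_cF_zero]
    · rw [V.c2_cF_one, V.c2_cF_zero]
      push_cast
      ring
    · have h := ih (i + 1)
      rwa [show i + 1 + d = i + (d + 1) by ring] at h

theorem c2_lw_kap (τ : Fin 2) {κ : CX → Letter → ℤ} (σ b : Bool) (c : ℤ)
    (h1 : ∀ i, κ ((σ, i), 0) (V.turn τ σ i) = 0) (h2 : ∀ i, κ ((σ, i), 1) (otg τ, b) = c)
    (i d : ℕ) : kap (V.sys τ).mv κ ((σ, i), 0) (V.c2_lw τ σ b i d) = d * c := by
  induction d generalizing i with
  | zero => simp [c2_lw, kap_nil]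
  | succ d ih =>
    rw [c2_lw, kap_cons ((V.sys τ).mv_iff.2 (V.c2_adj_turn τ σ i)),
      kap_cons ((V.sys τ).mv_iff.2 (Adj.up σ i b)), ih, h1, h2]
    push_cast
    ring

/-- Along the right line the word is locally minimal as long as one cannot cross. -/
theorem c2_lw_loc (τ : Fin 2) {o0 : ℤ} {P : CX → Letter → CX → Prop}
    {lt : Letter → Letter → Prop} (b : Bool) (i d : ℕ)
    (hc : ∀ j, j < i + d → ¬ V.c2_Crs o0 true j)
    (hb : ∀ j, P ((true, j), 1) (otg τ, !b) ((true, j + 1), 0) → lt (otg τ, b) (otg τ, !b)) :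
    LocRun (V.sys τ).mv (V.cF o0) P lt ((true, i), 0) (V.c2_lw τ true b i d)
      ((true, i + d), 0) := by
  induction d generalizing i with
  | zero => rfl
  | succ d ih =>
    refine ⟨((true, i), 1), (V.sys τ).mv_iff.2 (V.c2_adj_turn τ true i), ?_, ?_,
      ((true, i + 1), 0), (V.sys τ).mv_iff.2 (Adj.up true i b), ?_, ?_, ?_⟩
    · rw [V.c2_cF_one, V.c2_cF_zero]
    · intro y' x'' h1 h2 _
      left
      rcases V.c2_tight_cases ((V.sys τ).mv_iff.1 h1) h2 with ⟨σ, j, h3, h4, -⟩ |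
        ⟨σ, j, h3, h4, -, h5⟩ | ⟨σ, j, h3, -⟩ | ⟨σ, j, b', h3, -⟩ | ⟨k, b', h3, -⟩ |
        ⟨k, b', h3, -⟩
      · cases h3
        exact h4
      · cases h3
        exact absurd h5 (hc i (by omega))
      all_goals cases h3
    · rw [V.c2_cF_one, V.c2_cF_zero]
      push_cast
      ring
    · intro y' x'' h1 h2 h3
      rcases V.c2_tight_cases ((V.sys τ).mv_iff.1 h1) h2 with ⟨σ, j, h4, -⟩ |
        ⟨σ, j, h4, -⟩ | ⟨σ, j, h4, -⟩ | ⟨σ, j, b', h4, h5, h6⟩ | ⟨k, b', h4, -⟩ |
        ⟨k, b', h4, -⟩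
      · cases h4
      · cases h4
      · cases h4
      · cases h4
        by_cases hbb : b' = b
        · left
          rw [h5, hbb]
        · right
          have hb' : b' = !b := by cases b <;> cases b' <;> simp_all
          rw [h5, hb', h6] at h3
          rw [h5, hb']
          exact hb i h3
      · cases h4
      · cases h4
    · have h := ih (i + 1) (fun j hj => hc j (by omega))
      rwa [show i + 1 + d = i + (d + 1) by ring] at h

theorem c2_two_mul_le_pos (σ : Bool) (k k' : ℕ) : V.pos σ k + 2 * k' ≤ V.pos σ (k + k') := by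
  induction k' with
  | zero => exact le_rfl
  | succ k' ih =>
    have := V.two (k + k') σ
    have h2 : V.pos σ (k + (k' + 1)) = V.pos σ (k + k') + V.len (k + k') σ := rfl
    omega

theorem c2_pos_le (σ : Bool) {k k' : ℕ} (h : k ≤ k') : V.pos σ k ≤ V.pos σ k' := by
  rcases h.eq_or_lt with rfl | h
  · exact le_rfl
  · have := V.pos_lt σ h
    omega

theorem c2_off_succ (o0 : ℤ) (k : ℕ) :
    V.off o0 (k + 1) = V.off o0 k + V.len k false - V.len k true := by
  unfold off
  have h1 : V.pos false (k + 1) = V.pos false k + V.len k false := rfl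
  have h2 : V.pos true (k + 1) = V.pos true k + V.len k true := rfl
  rw [h1, h2]
  push_cast
  ring

end

/-! ### The ladder -/

/-- The change of the offset at the cell `k`; the middle cell is `2 J + 1`. -/
def dC2 (m J k : ℕ) : ℤ :=
  if m % 2 = 0 then (if k = 2 * J + 1 then 2 else 0)
  else if k < 2 * J + 1 then (if k % 2 = 0 then 1 else -1)
  else (if k % 2 = 1 then 1 else -1)

theorem dC2_spec (m J k : ℕ) : (m % 2 = 0 ∧ 0 ≤ dC2 m J k ∧ dC2 m J k ≤ 2 ∧
    dC2 m J k % 2 = 0) ∨ (m % 2 = 1 ∧ -1 ≤ dC2 m J k ∧ dC2 m J k ≤ 1 ∧ dC2 m J k % 2 = 1) := by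
  unfold dC2
  split_ifs <;> omega

/-- The ladder. -/
def ladC2 {m : ℕ} (hm : 7 ≤ m) (J : ℕ) : CLad m where
  len k σ := (((m : ℤ) - 2 + (if σ then - dC2 m J k else dC2 m J k)) / 2).toNat
  two k σ := by
    have := dC2_spec m J k
    cases σ
    · simp only [Bool.false_eq_true, if_false]
      omega
    · simp only [if_true]
      omega
  tot k := by
    have := dC2_spec m J k
    simp only [Bool.false_eq_true, if_false, if_true]
    omega

theorem ladC2_off {m : ℕ} (hm : 7 ≤ m) (J k : ℕ) : (ladC2 hm J).off (-1) k =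
    if m % 2 = 0 then (if k ≤ 2 * J + 1 then -1 else 1)
    else if k ≤ 2 * J + 1 then (if k % 2 = 0 then -1 else 0)
    else (if k % 2 = 0 then 1 else 0) := by
  induction k with
  | zero =>
    have h : (ladC2 hm J).off (-1) 0 = -1 := rfl
    rw [h]
    split_ifs <;> omega
  | succ k ih =>
    rw [c2_off_succ, ih]
    have h1 : (((ladC2 hm J).len k false : ℕ) : ℤ) =
        ((((m : ℤ) - 2 + dC2 m J k) / 2).toNat : ℤ) := rfl
    have h2 : (((ladC2 hm J).len k true : ℕ) : ℤ) =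
        ((((m : ℤ) - 2 + - dC2 m J k) / 2).toNat : ℤ) := rfl
    rw [h1, h2]
    have h3 := dC2_spec m J k
    have h4 : ((((m : ℤ) - 2 + dC2 m J k) / 2).toNat : ℤ) -
        ((((m : ℤ) - 2 + - dC2 m J k) / 2).toNat : ℤ) = dC2 m J k := by omega
    have h5 : ∀ a : ℤ, a + ((((m : ℤ) - 2 + dC2 m J k) / 2).toNat : ℤ) -
        ((((m : ℤ) - 2 + - dC2 m J k) / 2).toNat : ℤ) = a + dC2 m J k := by
      intro a
      rw [add_sub_assoc, h4]
    rw [h5]
    unfold dC2
    split_ifs <;> omega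

theorem ladC2_off_le {m : ℕ} (hm : 7 ≤ m) {J k : ℕ} (h : k ≤ 2 * J + 1) :
    (ladC2 hm J).off (-1) k ≤ 0 := by
  rw [ladC2_off]
  split_ifs <;> omega

theorem ladC2_off_gt {m : ℕ} (hm : 7 ≤ m) {J k : ℕ} (h : 2 * J + 1 < k) :
    0 ≤ (ladC2 hm J).off (-1) k := by
  rw [ladC2_off]
  split_ifs <;> omega

theorem ladC2_off_mid {m : ℕ} (hm : 7 ≤ m) (J : ℕ) :
    (ladC2 hm J).off (-1) (2 * J + 2) = 1 := by
  rw [ladC2_off]
  split_ifs <;> omega

theorem ladC2_abs {m : ℕ} (hm : 7 ≤ m) (J k : ℕ) : |(ladC2 hm J).off (-1) k| ≤ 1 := by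
  rw [ladC2_off, abs_le]
  split_ifs <;> omega

end CLad

open CLad

theorem notFD_a4_aux {m : ℕ} (hm : 7 ≤ m)
    (lt : Letter → Letter → Prop) [IsStrictTotalOrder Letter lt] (hlt : lt lB lB') :
    ¬ FiniteDiff 3 m 2 lt := by
  have hmQ : (1 / ((3 : ℕ) : ℚ) + 1 / (m : ℚ) + 1 / ((2 : ℕ) : ℚ) : ℚ) < 1 := by
    have h1 : (7 : ℚ) ≤ m := by exact_mod_cast hm
    have h2 : (1 : ℚ) / m ≤ 1 / 7 := one_div_le_one_div_of_le (by norm_num) h1
    push_cast
    linarith
  have hE : Exps 3 2 0 := Or.inl ⟨rfl, rfl, rfl⟩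
  refine not_finiteDiff_of_diverge (by norm_num) (by omega) le_rfl hmQ lt 3 fun N => ?_
  -- the ladder
  set J := N with hJ
  set V := ladC2 hm J with hV
  set K1 := 2 * J + 1 with hK1
  have hS : VSys 3 m 2 (V.sys 0).mv := (V.closed hE (by omega)).vsys (by norm_num) (by omega) le_rfl
  obtain ⟨val, κ, hval, k1, k2, k3, k4, k5, k6, k7⟩ := V.exists_val hE (by omega : 6 ≤ m)
  have hf0 : fht ((0 : Fin 2), true) = 0 := rfl
  have hf1 : fht (otg 0, true) = 1 := rfl
  have hch : ∀ k, chgt 0 k = 0 := by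
    intro k
    unfold chgt
    rw [hf0, hf1]
    ring
  have k3' : ∀ σ i, κ ((σ, i), 2) (flip (V.turn 0 σ i)) = 0 := by
    intro σ i
    rw [k3, hf0]
    simp
  have k4' : ∀ i b, κ ((true, i), 1) (otg 0, b) = if b then 1 else 0 := by
    intro i b
    rw [k4, hf1]
  have k5' : ∀ i b, κ ((false, i), 1) (otg 0, b) = if b then 0 else -1 := by
    intro i b
    rw [k5, hf1]
  have k6' : ∀ k b, κ ((false, V.pos false k), 2) (otg 0, b) = if b then 1 else 0 := by
    intro k b
    rw [k6, hch, hf1, zero_add]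
  have k7' : ∀ k b, κ ((true, V.pos true k), 2) (otg 0, b) = if b then 0 else -1 := by
    intro k b
    rw [k7, hch, hf1]
    cases b <;> simp
  -- the height of the way back
  have kback : ∀ σ i, κ ((σ, i), 2) (V.turn 0 σ i) = 0 := by
    intro σ i
    have h1 := hval.step _ _ _ ((V.sys 0).mv_iff.2 (V.c2_adj_side 0 σ i))
    have h2 := hval.step _ _ _ ((V.sys 0).mv_iff.2 (V.c2_adj_back 0 σ i))
    have h3 := Att.rev_step h1
    rw [flip_flip, h2, k2] at h3
    have h4 := z_zpow_inj (by norm_num) (by omega) le_rfl hmQ (mul_left_cancel h3)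
    rw [h4]
    rfl
  -- the positions
  set t := V.pos true K1 with ht
  have htN : N < t := by
    have := V.c2_two_mul_le_pos true 0 K1
    rw [zero_add] at this
    omega
  obtain ⟨t', ht'⟩ : ∃ t', t = t' + 1 := ⟨t - 1, by omega⟩
  set K' := K1 + 1 with hK'
  set K2 := K' + t with hK2
  have hoff' : V.off (-1) K' = 1 := ladC2_off_mid hm J
  have hp1 : t ≤ V.pos true K' := V.c2_pos_le true (by omega)
  have hp2 : V.pos true K' ≤ V.pos true K2 := V.c2_pos_le true (by omega)
  have hq2 : V.pos false K' + 2 * t ≤ V.pos false K2 := V.c2_two_mul_le_pos false K' t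
  -- the height potential
  set H : CX → ℤ := fun x => if x.1.1 then 0 else (V.pos false K1 : ℤ) - x.1.2 with hH
  have hHlip : ∀ x y x', (V.sys 0).mv x y = some x' → V.cF (-1) x' = V.cF (-1) x + 1 →
      H x' - H x ≤ 1 * κ x y := by
    intro x y x' h1 h2
    rw [one_mul]
    rcases V.c2_tight_cases ((V.sys 0).mv_iff.1 h1) h2 with ⟨σ, i, rfl, rfl, rfl⟩ |
      ⟨σ, i, rfl, rfl, rfl, -⟩ | ⟨σ, i, rfl, rfl, rfl, -⟩ | ⟨σ, i, b, rfl, rfl, rfl⟩ |
      ⟨k, b, rfl, rfl, rfl, h3⟩ | ⟨k, b, rfl, rfl, rfl, h3⟩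
    · rw [k1]
      exact (sub_self _).le
    · rw [k2]
      exact (sub_self _).le
    · rw [k3']
      exact (sub_self _).le
    · cases σ
      · rw [k5']
        simp only [hH, Bool.false_eq_true, if_false]
        push_cast
        cases b <;> simp
      · rw [k4']
        simp only [hH, if_true]
        cases b <;> simp
    · rw [k6']
      simp only [hH, Bool.false_eq_true, if_false, if_true]
      have h4 : k ≤ K1 := by
        by_contra hcon
        have := ladC2_off_gt hm (J := J) (k := k) (by omega)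
        rw [← hV, h3] at this
        omega
      have h5 := V.c2_pos_le false h4
      have h6 : (V.pos false k : ℤ) ≤ V.pos false K1 := by exact_mod_cast h5
      cases b <;> simp <;> linarith
    · rw [k7']
      simp only [hH, Bool.false_eq_true, if_false, if_true]
      have h4 : K1 < k := by
        by_contra hcon
        have := ladC2_off_le hm (J := J) (k := k) (by omega)
        rw [← hV, h3] at this
        omega
      have h5 := V.pos_lt false h4
      have h6 : (V.pos false K1 : ℤ) + 2 ≤ V.pos false k := by exact_mod_cast h5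
      cases b <;> simp <;> linarith
  -- one cannot cross from the right line before the rung `K1 + 1`
  have hcrs : ∀ j, j < t → ¬ V.c2_Crs (-1) true j := by
    rintro j hj ⟨k, h1, h2⟩
    rw [if_pos rfl] at h2
    have h3 : K1 < k := by
      by_contra hcon
      have := ladC2_off_le hm (J := J) (k := k) (by omega)
      rw [← hV, h2] at this
      omega
    have h5 := V.pos_lt true h3
    omega
  -- the first word
  have L1 := V.c2_lw_loc 0 (o0 := -1) (P := fun p y p' => H p' - H p = 1 * κ p y) (lt := lt)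
    false 0 t (fun j hj => hcrs j (by omega)) (fun j hP => by
      exfalso
      rw [one_mul, Bool.not_false, k4'] at hP
      simp [hH] at hP)
  have T1 := V.c2_lw_tight 0 (-1) true false t (V.pos true K2 - t)
  rw [zero_add] at L1
  rw [show t + (V.pos true K2 - t) = V.pos true K2 by omega] at T1
  have kL1 := V.c2_lw_kap 0 (κ := κ) true false 0 (k1 true) (fun i => by rw [k4']; rfl) 0 t
  have kT1 := V.c2_lw_kap 0 (κ := κ) true false 0 (k1 true) (fun i => by rw [k4']; rfl) t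
    (V.pos true K2 - t)
  -- the second word
  have L2 := V.c2_lw_loc 0 (o0 := -1) (P := fun _ _ _ => True) (lt := lt)
    true 0 t (fun j hj => hcrs j (by omega)) (fun j _ => hlt)
  rw [zero_add] at L2
  have kL2 := V.c2_lw_kap 0 (κ := κ) true true 1 (k1 true) (fun i => by rw [k4']; rfl) 0 t
  have T2a := V.c2_lw_tight 0 (-1) true false t (V.pos true K' - t)
  rw [show t + (V.pos true K' - t) = V.pos true K' by omega] at T2a
  have kT2a := V.c2_lw_kap 0 (κ := κ) true false 0 (k1 true) (fun i => by rw [k4']; rfl) t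
    (V.pos true K' - t)
  -- crossing at the rung `K'`
  have hc1 : V.c2_Crs (-1) true (V.pos true K') := (V.c2_crs_pos _ _ _).2 (by rw [if_pos rfl]; exact hoff')
  have hc2 : ¬ V.c2_Crs (-1) false (V.pos false K') := by
    rw [V.c2_crs_pos, hoff']
    decide
  have hoffd : V.off (-1) K' = V.pos false K' + (-1) - V.pos true K' := rfl
  have a1 := (V.sys 0).mv_iff.2 (V.c2_adj_side 0 true (V.pos true K'))
  have a2 : (V.sys 0).mv ((true, V.pos true K'), 2) (otg 0, true) =
      some ((false, V.pos false K'), 2) := (V.sys 0).mv_iff.2 (Adj.rl K' true)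
  have a3 := (V.sys 0).mv_iff.2 (V.c2_adj_side2 0 false (V.pos false K'))
  have a4 : (V.sys 0).mv ((false, V.pos false K'), 1) (otg 0, false) =
      some ((false, V.pos false K' + 1), 0) := (V.sys 0).mv_iff.2 (Adj.up false _ false)
  have T2b : TightRun (V.sys 0).mv (V.cF (-1)) ((true, V.pos true K'), 0)
      [flip (V.turn 0 true (V.pos true K')), (otg 0, true),
        flip (V.turn 0 false (V.pos false K')), (otg 0, false)]
      ((false, V.pos false K' + 1), 0) := by
    refine ⟨_, a1, ?_, _, a2, ?_, _, a3, ?_, _, a4, ?_, rfl⟩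
    · rw [V.c2_cF_two _ hc1, V.c2_cF_zero]
    · rw [V.c2_cF_two _ hc1, V.c2_cF_two' _ hc2]
      simp only [Bool.false_eq_true, if_false, if_true]
      omega
    · rw [V.c2_cF_two' _ hc2, V.c2_cF_one]
    · rw [V.c2_cF_one, V.c2_cF_zero]
      push_cast
      ring
  have kT2b : kap (V.sys 0).mv κ ((true, V.pos true K'), 0)
      [flip (V.turn 0 true (V.pos true K')), (otg 0, true),
        flip (V.turn 0 false (V.pos false K')), (otg 0, false)] = -1 := by
    rw [kap_cons a1, kap_cons a2, kap_cons a3, kap_cons a4, kap_nil, k2, k7', k3', k5']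
    rfl
  -- the left line
  have T2c := V.c2_lw_tight 0 (-1) false false (V.pos false K' + 1) t'
  have kT2c := V.c2_lw_kap 0 (κ := κ) false false (-1) (k1 false) (fun i => by rw [k5']; rfl)
    (V.pos false K' + 1) t'
  have T2d := V.c2_lw_tight 0 (-1) false true (V.pos false K' + 1 + t')
    (V.pos false K2 - (V.pos false K' + 1 + t'))
  rw [show V.pos false K' + 1 + t' + (V.pos false K2 - (V.pos false K' + 1 + t')) =
    V.pos false K2 by omega] at T2d
  have kT2d := V.c2_lw_kap 0 (κ := κ) false true 0 (k1 false) (fun i => by rw [k5']; rfl)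
    (V.pos false K' + 1 + t') (V.pos false K2 - (V.pos false K' + 1 + t'))
  have T2cd := T2c.append T2d
  have T2bcd := T2b.append T2cd
  have T2 := T2a.append T2bcd
  -- the connecting word
  have b1 := (V.sys 0).mv_iff.2 (V.c2_adj_side 0 true (V.pos true K2))
  have b2 : (V.sys 0).mv ((true, V.pos true K2), 2) (otg 0, true) =
      some ((false, V.pos false K2), 2) := (V.sys 0).mv_iff.2 (Adj.rl K2 true)
  have b3 := (V.sys 0).mv_iff.2 (V.c2_adj_back 0 false (V.pos false K2))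
  have hrun : run (V.sys 0).mv ((true, V.pos true K2), 0)
      [flip (V.turn 0 true (V.pos true K2)), (otg 0, true),
        V.turn 0 false (V.pos false K2)] = some ((false, V.pos false K2), 0) := by
    rw [run_cons_some]
    refine ⟨_, b1, ?_⟩
    rw [run_cons_some]
    refine ⟨_, b2, ?_⟩
    rw [run_cons_some]
    exact ⟨_, b3, rfl⟩
  have kc : kap (V.sys 0).mv κ ((true, V.pos true K2), 0)
      [flip (V.turn 0 true (V.pos true K2)), (otg 0, true),
        V.turn 0 false (V.pos false K2)] = 0 := by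
    rw [kap_cons b1, kap_cons b2, kap_cons b3, kap_nil, k2, k7', kback]
    rfl
  have kw1 : kap (V.sys 0).mv κ ((true, 0), 0)
      (V.c2_lw 0 true false 0 t ++ V.c2_lw 0 true false t (V.pos true K2 - t)) = 0 := by
    rw [kap_append L1.tight.spec.1, kL1, kT1]
    ring
  have kw2 : kap (V.sys 0).mv κ ((true, 0), 0) (V.c2_lw 0 true true 0 t ++
      (V.c2_lw 0 true false t (V.pos true K' - t) ++
        ([flip (V.turn 0 true (V.pos true K')), (otg 0, true),
          flip (V.turn 0 false (V.pos false K')), (otg 0, false)] ++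
          (V.c2_lw 0 false false (V.pos false K' + 1) t' ++
            V.c2_lw 0 false true (V.pos false K' + 1 + t')
              (V.pos false K2 - (V.pos false K' + 1 + t')))))) = 0 := by
    rw [kap_append L2.tight.spec.1, kap_append T2a.spec.1, kap_append T2b.spec.1,
      kap_append T2c.spec.1, kL2, kT2a, kT2b, kT2c, kT2d, ht']
    push_cast
    ring
  refine diverge_of_locRun hS hval (by norm_num) (by omega) le_rfl hmQ
    (V.cF_lip (ladC2_abs hm J) · · · ∘ (V.sys 0).mv_iff.1) hHlip le_rfl L1 T1 ?_ L2 T2 ?_ hrun ?_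
    one_mem_pairSet (h := (t : ℤ)) ?_ ?_
  · rw [kw1]
    simp [hH]
  · rw [V.c2_lw_length, V.c2_lw_length]
  · rw [kw1, kc, kw2]
    rfl
  · rw [abs_of_nonneg (by positivity)]
    exact_mod_cast htN
  · rw [kL1, kL2, inv_mul_cancel]
    congr 2
    ring

/-- `(3, m, 2)` with `m ≥ 7`. -/
theorem notFD_a4 {m : ℕ} (hm : 7 ≤ m)
    (lt : Letter → Letter → Prop) [IsStrictTotalOrder Letter lt] : ¬ FiniteDiff 3 m 2 lt := by
  rcases trichotomous_of lt lB lB' with h1 | h1 | h1
  · exact notFD_a4_aux hm lt h1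
  · exact absurd h1 (by decide)
  · intro hF
    refine notFD_a4_aux hm (flipLt lt) ?_ (finiteDiff_flip 3 m 2 lt hF)
    exact h1

end Pool.Agent.SLE
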