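import Pool.Agent.SLE.Diverge

/-!
# Locally minimal tight runs
-/

namespace Pool.Agent.SLE

open List G3

section

variable {l m n : ℕ} {X : Type*} {mv : X → Letter → Option X}

/-- A tight run, at each vertex of which the letter is the smallest one among the allowed tight
ones. -/
def LocRun (mv : X → Letter → Option X) (F : X → ℤ) (P : X → Letter → X → Prop)
    (lt : Letter → Letter → Prop) : X → List Letter → X → Prop
  | x, [], e => x = e
  | x, y :: w, e => ∃ x', mv x y = some x' ∧ F x' = F x + 1 ∧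
      (∀ y' x'', mv x y' = some x'' → F x'' = F x + 1 → P x y' x'' → y' = y ∨ lt y y') ∧
      LocRun mv F P lt x' w e

theorem LocRun.append_iff {F : X → ℤ} {P : X → Letter → X → Prop}
    {lt : Letter → Letter → Prop} {x e : X} {w w' : List Letter} :
    LocRun mv F P lt x (w ++ w') e ↔
      ∃ d, LocRun mv F P lt x w d ∧ LocRun mv F P lt d w' e := by
  induction w generalizing x with
  | nil => simp [LocRun]
  | cons y w ih =>
    simp only [List.cons_append, LocRun, ih]
    constructor
    · rintro ⟨x', h1, h2, h3, d, h4, h5⟩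
      exact ⟨d, ⟨x', h1, h2, h3, h4⟩, h5⟩
    · rintro ⟨d, ⟨x', h1, h2, h3, h4⟩, h5⟩
      exact ⟨x', h1, h2, h3, d, h4, h5⟩

theorem LocRun.append {F : X → ℤ} {P : X → Letter → X → Prop}
    {lt : Letter → Letter → Prop} {x d e : X} {w w' : List Letter}
    (h : LocRun mv F P lt x w d) (h' : LocRun mv F P lt d w' e) :
    LocRun mv F P lt x (w ++ w') e := LocRun.append_iff.mpr ⟨d, h, h'⟩

theorem TightRun.append {F : X → ℤ} {x d e : X} {w w' : List Letter}
    (h : TightRun mv F x w d) (h' : TightRun mv F d w' e) :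
    TightRun mv F x (w ++ w') e := TightRun.append_iff.mpr ⟨d, h, h'⟩

theorem LocRun.tight {F : X → ℤ} {P : X → Letter → X → Prop}
    {lt : Letter → Letter → Prop} {x e : X} {w : List Letter}
    (h : LocRun mv F P lt x w e) : TightRun mv F x w e := by
  induction w generalizing x with
  | nil => exact h
  | cons y w ih =>
    obtain ⟨x', h1, h2, -, h4⟩ := h
    exact ⟨x', h1, h2, ih h4⟩

/-- A one-letter run. -/
theorem LocRun.single {F : X → ℤ} {P : X → Letter → X → Prop}
    {lt : Letter → Letter → Prop} {x x' : X} {y : Letter}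
    (h1 : mv x y = some x') (h2 : F x' = F x + 1)
    (h3 : ∀ y' x'', mv x y' = some x'' → F x'' = F x + 1 → P x y' x'' → y' = y ∨ lt y y') :
    LocRun mv F P lt x [y] x' := ⟨x', h1, h2, h3, rfl⟩

theorem LocRun.loc {F : X → ℤ} {P : X → Letter → X → Prop}
    {lt : Letter → Letter → Prop} {x e : X} {w w' : List Letter}
    (h : LocRun mv F P lt x w e) :
    ∀ j < w.length, ∀ p, run mv x ((w ++ w').take j) = some p → ∀ y p', mv p y = some p' →
      F p' = F p + 1 → P p y p' → ∀ z, (w ++ w')[j]? = some z → y = z ∨ lt z y := by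
  induction w generalizing x with
  | nil => intro j hj; simp at hj
  | cons y w ih =>
    obtain ⟨x', h1, h2, h3, h4⟩ := h
    intro j hj p hp y1 p' e1 e2 e3 z hz
    cases j with
    | zero =>
      simp only [List.take_zero] at hp
      have hp' : x = p := by simpa using hp
      subst hp'
      simp only [List.cons_append, List.getElem?_cons_zero, Option.some.injEq] at hz
      subst hz
      exact h3 y1 p' e1 e2 e3
    | succ j =>
      rw [List.cons_append, List.take_succ_cons, run_cons_some] at hp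
      obtain ⟨d, hd, hp⟩ := hp
      rw [h1] at hd
      cases hd
      rw [List.cons_append, List.getElem?_cons_succ] at hz
      exact ih h4 j (by simpa using hj) p hp y1 p' e1 e2 e3 z hz

/-- **The beginning of the normal form.** For elements of extreme height. -/
theorem LocRun.take_eq (S : VSys l m n mv) {val : X → E l m n} {κ : X → Letter → ℤ}
    (V : VVal l m n mv val κ) (hl : 2 ≤ l) (hm : 2 ≤ m) (hn : 2 ≤ n)
    (hyp : (1 / l + 1 / m + 1 / n : ℚ) < 1)
    {F Hh : X → ℤ} (hF : ∀ x y x', mv x y = some x' → F x' ≤ F x + 1) {ε : ℤ}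
    (hH : ∀ x y x', mv x y = some x' → F x' = F x + 1 → Hh x' - Hh x ≤ ε * κ x y)
    {lt : Letter → Letter → Prop} [IsStrictTotalOrder Letter lt] {x p e : X}
    {u w w' : List Letter}
    (hw : LocRun mv F (fun p y p' => Hh p' - Hh p = ε * κ p y) lt x w p)
    (hw' : TightRun mv F p w' e)
    (kw : ε * kap mv κ x (w ++ w') = Hh e - Hh x)
    (hu : u ∈ normalForms l m n lt) (heq : eval l m n u = eval l m n (w ++ w')) :
    u.take w.length = w := by
  have h := take_eq_of_local S V hl hm hn hyp hF hH (hw.tight.append hw') kw hu heq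
    (i := w.length) (hw.loc (w' := w'))
  rw [h, List.take_left']
  rfl

/-- **The beginning of the normal form.** For all elements. -/
theorem LocRun.take_eq' (S : VSys l m n mv) {val : X → E l m n} {κ : X → Letter → ℤ}
    (V : VVal l m n mv val κ) (hl : 2 ≤ l) (hm : 2 ≤ m) (hn : 2 ≤ n)
    (hyp : (1 / l + 1 / m + 1 / n : ℚ) < 1)
    {F : X → ℤ} (hF : ∀ x y x', mv x y = some x' → F x' ≤ F x + 1)
    {lt : Letter → Letter → Prop} [IsStrictTotalOrder Letter lt] {x p e : X}
    {u w w' : List Letter}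
    (hw : LocRun mv F (fun _ _ _ => True) lt x w p)
    (hw' : TightRun mv F p w' e)
    (hu : u ∈ normalForms l m n lt) (heq : eval l m n u = eval l m n (w ++ w')) :
    u.take w.length = w := by
  refine LocRun.take_eq S V hl hm hn hyp hF (Hh := fun _ => 0) (ε := 0)
    (fun x y x' _ _ => by simp) (lt := lt) (x := x) (p := p) (e := e) ?_ hw' (by simp) hu heq
  have key : ∀ (w : List Letter) (x : X), LocRun mv F (fun _ _ _ => True) lt x w p →
      LocRun mv F (fun p y p' => (0 : ℤ) - 0 = 0 * κ p y) lt x w p := by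
    intro w
    induction w with
    | nil => intro x h; exact h
    | cons y w ih =>
      rintro x ⟨x', h1, h2, h3, h4⟩
      exact ⟨x', h1, h2, fun y' x'' e1 e2 _ => h3 y' x'' e1 e2 trivial, ih x' h4⟩
  exact key w x hw

/-- **Divergence by locally minimal runs.** The first element has extreme height. -/
theorem diverge_of_locRun (S : VSys l m n mv) {val : X → E l m n} {κ : X → Letter → ℤ}
    (V : VVal l m n mv val κ) (hl : 2 ≤ l) (hm : 2 ≤ m) (hn : 2 ≤ n)
    (hyp : (1 / l + 1 / m + 1 / n : ℚ) < 1)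
    {F Hh : X → ℤ} (hF : ∀ x y x', mv x y = some x' → F x' ≤ F x + 1) {ε : ℤ}
    (hH : ∀ x y x', mv x y = some x' → F x' = F x + 1 → Hh x' - Hh x ≤ ε * κ x y)
    {lt : Letter → Letter → Prop} [IsStrictTotalOrder Letter lt] {x p1 p2 e1 e2 : X}
    {w1 w1' w2 w2' c : List Letter} {C : ℕ} (hc : c.length ≤ C)
    (h1 : LocRun mv F (fun p y p' => Hh p' - Hh p = ε * κ p y) lt x w1 p1)
    (h1' : TightRun mv F p1 w1' e1)
    (kw : ε * kap mv κ x (w1 ++ w1') = Hh e1 - Hh x)
    (h2 : LocRun mv F (fun _ _ _ => True) lt x w2 p2)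
    (h2' : TightRun mv F p2 w2' e2)
    (hlen : w1.length = w2.length)
    (hrun : run mv e1 c = some e2)
    (hk : kap mv κ x (w1 ++ w1') + kap mv κ e1 c = kap mv κ x (w2 ++ w2'))
    {G0 : Set (E l m n)} {N : ℕ} {g : E l m n} (hg : g ∈ G0) {h : ℤ}
    (hN : (N : ℤ) < |h|)
    (hd : (val p1)⁻¹ * val p2 *
      (genB l m n ^ n) ^ (kap mv κ x w2 - kap mv κ x w1) = g * (genB l m n ^ n) ^ h) :
    Diverge l m n lt C G0 N := by
  have r1 := (h1.tight.append h1').spec.1
  have r2 := (h2.tight.append h2').spec.1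
  refine ⟨w1 ++ w1', w2 ++ w2', c, w1.length, hc, ?_, fun u v hu hu' hv hv' => ?_⟩
  · have h3 : run mv x ((w1 ++ w1') ++ c) = some e2 := by
      rw [run_append_some]; exact ⟨e1, r1, hrun⟩
    rw [V.eval_eq h3, V.eval_eq r2, kap_append r1, hk]
  · refine ⟨g, hg, h, hN, ?_⟩
    have a1 := h1.take_eq S V hl hm hn hyp hF hH h1' kw hu hu'
    have a2 := h2.take_eq' S V hl hm hn hyp hF h2' hv hv'
    rw [a1, hlen, a2, V.eval_eq h1.tight.spec.1, V.eval_eq h2.tight.spec.1, ← hd, zpow_sub]
    set z := genB l m n ^ n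
    have hcc : ∀ (g : E l m n) (k : ℤ), z ^ k * g = g * z ^ k := fun g k => zpow_comm g k
    set k1 := kap mv κ x w1
    set k2 := kap mv κ x w2
    calc ((val x)⁻¹ * val p1 * z ^ k1)⁻¹ * ((val x)⁻¹ * val p2 * z ^ k2)
        = z ^ (-k1) * ((val p1)⁻¹ * val p2) * z ^ k2 := by
          rw [zpow_neg]; group
      _ = (val p1)⁻¹ * val p2 * (z ^ k2 * (z ^ k1)⁻¹) := by
          rw [hcc, zpow_neg, mul_assoc]
          congr 1
          rw [← zpow_neg, ← zpow_add, ← zpow_add, add_comm]

end

end Pool.Agent.SLE
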