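import Pool.Agent.SLE.CapClosed
import Pool.Agent.SLE.CapTight
import Pool.Agent.SLE.CapVal
import Pool.Agent.SLE.LocRun

/-!
# Runs along the lines of ladders with caps
-/

namespace Pool.Agent.SLE

open List G3

/-- The elements given by words with at most two letters. -/
def ball2 (l m n : ℕ) : Set (E l m n) :=
  {g | ∃ w : List Letter, w.length ≤ 2 ∧ g = eval l m n w}

theorem ball2_finite (l m n : ℕ) : (ball2 l m n).Finite := by
  have h : ((fun w : List Letter => eval l m n w) '' {w | w.length ≤ 2}).Finite :=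
    (List.finite_length_le Letter 2).image _
  refine h.subset ?_
  rintro g ⟨w, hw, rfl⟩
  exact ⟨w, hw, rfl⟩

theorem not_finiteDiff_of_diverge2 {l m n : ℕ} (hl : 2 ≤ l) (hm : 2 ≤ m) (hn : 2 ≤ n)
    (hyp : (1 / l + 1 / m + 1 / n : ℚ) < 1) (lt : Letter → Letter → Prop)
    [IsStrictTotalOrder Letter lt] (C : ℕ)
    (H : ∀ N : ℕ, Diverge l m n lt C (ball2 l m n) N) : ¬ FiniteDiff l m n lt :=
  not_finiteDiff_of_heights hl hm hn hyp lt C _ (ball2_finite l m n) H

namespace VLad

variable {l m n : ℕ} (V : VLad l m n)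

/-- The properties of the sections and heights of `exists_cval`. -/
structure CVal (hG : V.Good) (val : V.CX → E l m n) (κ : V.CX → Letter → ℤ) : Prop where
  vval : VVal l m n (V.csys hG).mv val κ
  inl : ∀ x, val (Sum.inl x) = V.val x
  up : ∀ σ i, κ (Sum.inl (σ, i)) (V.u σ i) = 0
  lr : ∀ k, κ (Sum.inl (false, V.pos false k)) (V.c k) = V.hgt k
  rl : ∀ k, κ (Sum.inl (true, V.pos true k)) (flip (V.c k)) = -V.hgt k
  evL : ∀ i, V.Even false i → κ (Sum.inl (false, i)) (flip (V.u false i)) =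
        -fht (plt (V.u false i))
  evL' : ∀ i (h0 : 0 < V.capR false i), V.Even false i → V.capR false i = 2 →
        κ (Sum.inr (⟨(false, i), h0⟩, 3)) (flip (V.u false i)) = 0
  evR : ∀ i, V.Even true i → V.capR true i = 1 → κ (Sum.inl (true, i)) (flip (V.u true i)) =
        fht (plt (V.u true i))
  evR' : ∀ i (h0 : 0 < V.capR true i), V.Even true i → V.capR true i = 2 →
        κ (Sum.inl (true, i)) (flip (V.u true i)) = 0 ∧
        κ (Sum.inr (⟨(true, i), h0⟩, 3)) (flip (V.u true i)) = fht (plt (V.u true i))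
  hH : ∀ (o0 ε : ℤ) (H : Bool → ℕ → ℤ), |ε| ≤ 1 → V.HCond o0 ε H → ∀ x y x',
        (V.csys hG).Adj x y x' → V.cF o0 x' = V.cF o0 x + 1 →
          V.cH H x' - V.cH H x ≤ ε * κ x y

theorem exists_cval' (hG : V.Good) (hm : 2 ≤ m) (hyp : (1 / l + 1 / m + 1 / n : ℚ) < 1) :
    ∃ (val : V.CX → E l m n) (κ : V.CX → Letter → ℤ), V.CVal hG val κ := by
  obtain ⟨val, κ, h1, h2, h3, h4, h5, h6, h7, h8, h9, h10⟩ := V.exists_cval hG hm hyp
  exact ⟨val, κ, h1, h2, h3, h4, h5, h6, h7, h8, h9, h10⟩

variable {V} {hG : V.Good} {val : V.CX → E l m n} {κ : V.CX → Letter → ℤ}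

/-- The vertex `i` of the line `σ` is in the middle of the two edges of an even cap. -/
def Mid (V : VLad l m n) (σ : Bool) (i : ℕ) : Prop :=
  ∃ i', i = i' + 1 ∧ V.Even σ i' ∧ V.capR σ i' = 2

/-- The letters of a line. -/
def lword (V : VLad l m n) (σ : Bool) (i d : ℕ) : List Letter :=
  (List.range' i d).map (V.u σ)

/-- The darts of the ladder. -/
theorem lr_old {x x' : Bool × ℕ} {y : Letter} (h : V.Adj x y x') :
    (V.csys hG).mv (Sum.inl x) y = some (Sum.inl x') :=
  (V.csys hG).mv_iff.2 (Att.Adj.old h)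

/-- The potential in the middle of an even cap. -/
theorem lr_cF_mid (o0 : ℤ) {σ : Bool} {j : ℕ} (h : 0 < V.capR σ j) (hE : V.Even σ j)
    (hr : V.capR σ j = 2) :
    V.cF o0 (Sum.inr (⟨(σ, j), h⟩, 3)) = j + 1 + (if σ then 0 else o0) := by
  have h4 := hE.2
  rw [hr] at h4
  change (j : ℤ) + _ + (if σ then (3 : ℤ) - psz l n (V.u σ j) + V.capR σ j
        else 2 * V.capR σ j - 3) ⊔ 0 = _
  rw [hr, ← h4]
  cases σ
  · simp only [Bool.false_eq_true, if_false]
    norm_num
    ring
  · simp only [if_true]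
    norm_num

theorem lr_cF_up (o0 : ℤ) (σ : Bool) (i : ℕ) :
    V.cF o0 (Sum.inl (σ, i + 1)) = V.cF o0 (Sum.inl (σ, i)) + 1 := by
  change ((i + 1 : ℕ) : ℤ) + _ = (i : ℤ) + _ + 1
  push_cast
  ring

/-- **Running along a line.** -/
theorem line_tight (hc : V.CVal hG val κ) (o0 : ℤ) (σ : Bool) (i d : ℕ) :
    TightRun (V.csys hG).mv (V.cF o0) (Sum.inl (σ, i)) (V.lword σ i d) (Sum.inl (σ, i + d)) ∧
      kap (V.csys hG).mv κ (Sum.inl (σ, i)) (V.lword σ i d) = 0 := by
  induction d generalizing i with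
  | zero => exact ⟨rfl, rfl⟩
  | succ d ih =>
    obtain ⟨h1, h2⟩ := ih (i + 1)
    rw [show i + 1 + d = i + (d + 1) by ring] at h1
    have e : V.lword σ i (d + 1) = V.u σ i :: V.lword σ (i + 1) d := by
      unfold lword
      rw [List.range'_succ, List.map_cons]
    have hm := lr_old (hG := hG) (Adj.up (V := V) σ i)
    rw [e]
    refine ⟨⟨_, hm, lr_cF_up o0 σ i, h1⟩, ?_⟩
    rw [kap_cons hm, hc.up, h2, add_zero]

/-- **Crossing from left to right.** -/
theorem cross_lr (hc : V.CVal hG val κ) (o0 : ℤ) (k : ℕ) (ho : V.off o0 k = -1) :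
    TightRun (V.csys hG).mv (V.cF o0) (Sum.inl (false, V.pos false k)) [V.c k]
      (Sum.inl (true, V.pos true k)) ∧
    kap (V.csys hG).mv κ (Sum.inl (false, V.pos false k)) [V.c k] = V.hgt k := by
  have hm := lr_old (hG := hG) (Adj.lr (V := V) k)
  refine ⟨⟨_, hm, ?_, rfl⟩, ?_⟩
  · unfold off at ho
    change (V.pos true k : ℤ) + 0 = (V.pos false k : ℤ) + o0 + 1
    linarith
  · rw [kap_cons hm, hc.lr, kap_nil, add_zero]

/-- **Crossing from right to left.** -/
theorem cross_rl (hc : V.CVal hG val κ) (o0 : ℤ) (k : ℕ) (ho : V.off o0 k = 1) :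
    TightRun (V.csys hG).mv (V.cF o0) (Sum.inl (true, V.pos true k)) [flip (V.c k)]
      (Sum.inl (false, V.pos false k)) ∧
    kap (V.csys hG).mv κ (Sum.inl (true, V.pos true k)) [flip (V.c k)] = -V.hgt k := by
  have hm := lr_old (hG := hG) (Adj.rl (V := V) k)
  refine ⟨⟨_, hm, ?_, rfl⟩, ?_⟩
  · unfold off at ho
    change (V.pos false k : ℤ) + o0 = (V.pos true k : ℤ) + 0 + 1
    linarith
  · rw [kap_cons hm, hc.rl, kap_nil, add_zero]

open Classical in
/-- The number of even caps with the letters `b^{±1}` on the line `σ` which start below `i`. -/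
noncomputable def gad (V : VLad l m n) (σ : Bool) : ℕ → ℕ
  | 0 => 0
  | i + 1 => gad V σ i + if V.Even σ i ∧ (V.u σ i).1 = 1 then 1 else 0

theorem gad_succ_of {σ : Bool} {i : ℕ} (h : V.Even σ i) (h1 : (V.u σ i).1 = 1) :
    V.gad σ (i + 1) = V.gad σ i + 1 := by
  rw [gad, if_pos ⟨h, h1⟩]

theorem gad_succ_not {σ : Bool} {i : ℕ} (h : ¬ (V.Even σ i ∧ (V.u σ i).1 = 1)) :
    V.gad σ (i + 1) = V.gad σ i := by
  rw [gad, if_neg h, Nat.add_zero]

/-- The height of a cap. -/
theorem lr_fht {y : Letter} : fht (plt y) = if y.1 = 1 then 1 else 0 := by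
  obtain ⟨i, b⟩ := y
  fin_cases i <;> rfl

/-- Next to an even cap with two edges. -/
theorem lr_two (hG : V.Good) {σ : Bool} {i : ℕ} (hE : V.Even σ i) (hr : V.capR σ i = 2) :
    V.isP σ i ∧ V.u σ (i + 1) = V.u σ i ∧ V.u σ (i + 2) ≠ V.u σ i ∧ ¬ V.Mid σ i ∧
      V.capR σ (i + 1) = 0 ∧ psz l n (V.u σ i) = 4 := by
  have h4 := hE.2
  rw [hr] at h4
  rcases V.capR_cases hE.1 with ⟨h1, -⟩ | ⟨-, h1, h2, -⟩
  · omega
  · have h3 := hG.g2 σ i h1 (by omega) h2
    refine ⟨h1, h2, h3, ?_, ?_, h4.symm⟩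
    · rintro ⟨i', rfl, hE', hr'⟩
      have h4' := hE'.2
      rw [hr'] at h4'
      rcases V.capR_cases hE'.1 with ⟨h5, -⟩ | ⟨-, h5, h6, -⟩
      · omega
      · exact hG.g2 σ i' h5 (by omega) h6 (by rw [← h6]; exact h2)
    · unfold capR
      rw [if_neg, if_neg]
      · rintro ⟨-, h5, -⟩
        exact h3 (h5.trans h2)
      · rintro ⟨-, h5⟩
        rw [h2] at h5
        omega

theorem lr_gad_two (hG : V.Good) {σ : Bool} {i : ℕ} (hE : V.Even σ i) (hr : V.capR σ i = 2) :
    V.gad σ (i + 2) = V.gad σ i + if (V.u σ i).1 = 1 then 1 else 0 := by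
  obtain ⟨-, -, -, -, h5, -⟩ := lr_two hG hE hr
  have h6 : V.gad σ (i + 1 + 1) = V.gad σ (i + 1) := by
    refine gad_succ_not ?_
    rintro ⟨h6, -⟩
    have := h6.1
    omega
  rw [show i + 2 = i + 1 + 1 from rfl, h6]
  split_ifs with h7
  · exact gad_succ_of hE h7
  · rw [gad_succ_not fun h => h7 h.2]
    rfl

/-- The edge along a cap with one edge. -/
theorem lr_cap1 (hc : V.CVal hG val κ) {σ : Bool} {i : ℕ} (hE : V.Even σ i)
    (hr : V.capR σ i = 1) :
    (V.csys hG).mv (Sum.inl (σ, i)) (flip (V.u σ i)) = some (Sum.inl (σ, i + 1)) ∧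
    κ (Sum.inl (σ, i)) (flip (V.u σ i)) =
      (if σ then 1 else -1) * (if (V.u σ i).1 = 1 then 1 else 0) := by
  refine ⟨(V.csys hG).mv_iff.2 ((V.even_edge hG σ i hE).1 hr), ?_⟩
  cases σ
  · rw [hc.evL i hE, lr_fht]
    simp only [Bool.false_eq_true, if_false, neg_one_mul]
  · rw [hc.evR i hE hr, lr_fht]
    simp

/-- The two edges along a cap with two edges. -/
theorem lr_cap2 (hc : V.CVal hG val κ) {σ : Bool} {i : ℕ} (hE : V.Even σ i)
    (hr : V.capR σ i = 2) :
    (V.csys hG).mv (Sum.inl (σ, i)) (flip (V.u σ i)) = some (Sum.inr (⟨(σ, i), hE.1⟩, 3)) ∧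
    (V.csys hG).mv (Sum.inr (⟨(σ, i), hE.1⟩, 3)) (flip (V.u σ i)) = some (Sum.inl (σ, i + 2)) ∧
    κ (Sum.inl (σ, i)) (flip (V.u σ i)) + κ (Sum.inr (⟨(σ, i), hE.1⟩, 3)) (flip (V.u σ i)) =
      (if σ then 1 else -1) * (if (V.u σ i).1 = 1 then 1 else 0) := by
  have h1 := (V.even_edge hG σ i hE).2 hE.1 hr
  refine ⟨(V.csys hG).mv_iff.2 h1.1, (V.csys hG).mv_iff.2 h1.2, ?_⟩
  cases σ
  · rw [hc.evL i hE, hc.evL' i hE.1 hE hr, lr_fht]
    simp only [Bool.false_eq_true, if_false, neg_one_mul, add_zero]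
  · obtain ⟨h2, h3⟩ := hc.evR' i hE.1 hE hr
    rw [h2, h3, lr_fht]
    simp

/-- **Running along the right line, with all even caps.** -/
theorem line_tight_caps (hc : V.CVal hG val κ) (o0 : ℤ) (j : ℕ) (hj : ¬ V.Mid true j) :
    ∃ w, TightRun (V.csys hG).mv (V.cF o0) (Sum.inl (true, 0)) w (Sum.inl (true, j)) ∧
      kap (V.csys hG).mv κ (Sum.inl (true, 0)) w = V.gad true j := by
  induction j using Nat.strong_induction_on with
  | _ j ih =>
    rcases Nat.eq_zero_or_pos j with rfl | hj0
    · exact ⟨[], rfl, rfl⟩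
    obtain ⟨j, rfl⟩ : ∃ j', j = j' + 1 := ⟨j - 1, by omega⟩
    by_cases hM : V.Mid true j
    · obtain ⟨i, rfl, hE, hr⟩ := hM
      obtain ⟨-, -, -, h4, -, h6⟩ := lr_two hG hE hr
      obtain ⟨w, h1, h2⟩ := ih i (by omega) h4
      obtain ⟨e1, e2, e3⟩ := lr_cap2 hc hE hr
      refine ⟨w ++ [flip (V.u true i), flip (V.u true i)], h1.append
        ⟨_, e1, ?_, _, e2, ?_, rfl⟩, ?_⟩
      · rw [lr_cF_mid o0 _ hE hr]
        change (i : ℤ) + 1 + 0 = (i : ℤ) + 0 + 1
        ring
      · rw [lr_cF_mid o0 _ hE hr]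
        change ((i + 2 : ℕ) : ℤ) + 0 = (i : ℤ) + 1 + 0 + 1
        push_cast
        ring
      · rw [kap_append h1.spec.1, h2, kap_cons e1, kap_cons e2, kap_nil, add_zero, e3,
          show i + 1 + 1 = i + 2 from rfl, lr_gad_two hG hE hr]
        simp only [if_true, one_mul]
        push_cast
        rfl
    · obtain ⟨w, h1, h2⟩ := ih j (by omega) hM
      by_cases hE : V.Even true j
      · have hr : V.capR true j = 1 := by
          rcases V.capR_cases hE.1 with h | h
          · exact h.1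
          · exact absurd ⟨j, rfl, hE, h.1⟩ hj
        obtain ⟨e1, e2⟩ := lr_cap1 hc hE hr
        refine ⟨w ++ [flip (V.u true j)], h1.append ⟨_, e1, lr_cF_up o0 true j, rfl⟩, ?_⟩
        rw [kap_append h1.spec.1, h2, kap_cons e1, kap_nil, add_zero, e2]
        by_cases hb : (V.u true j).1 = 1
        · rw [gad_succ_of hE hb, if_pos hb]
          simp
        · rw [gad_succ_not (fun h => hb h.2), if_neg hb]
          simp
      · have hm := lr_old (hG := hG) (Adj.up (V := V) true j)
        refine ⟨w ++ [V.u true j], h1.append ⟨_, hm, lr_cF_up o0 true j, rfl⟩, ?_⟩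
        rw [kap_append h1.spec.1, h2, kap_cons hm, kap_nil, add_zero, hc.up,
          gad_succ_not (fun h => hE h.1), add_zero]

/-- **Running along the left line, with a given number of even caps** (the even caps with the
letters `b^{±1}` have one edge). -/
theorem line_tight_left (hc : V.CVal hG val κ) (o0 : ℤ)
    (h1 : ∀ i, V.Even false i → (V.u false i).1 = 1 → V.capR false i = 1) (i d t : ℕ)
    (ht : t + V.gad false i ≤ V.gad false (i + d)) :
    ∃ w, TightRun (V.csys hG).mv (V.cF o0) (Sum.inl (false, i)) w (Sum.inl (false, i + d)) ∧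
      kap (V.csys hG).mv κ (Sum.inl (false, i)) w = -t := by
  induction d generalizing t with
  | zero =>
    rw [Nat.add_zero] at ht ⊢
    have h2 : t = 0 := by omega
    subst h2
    exact ⟨[], rfl, by simp [kap_nil]⟩
  | succ d ih =>
    by_cases h2 : t + V.gad false i ≤ V.gad false (i + d)
    · obtain ⟨w, h3, h4⟩ := ih t h2
      have hm := lr_old (hG := hG) (Adj.up (V := V) false (i + d))
      refine ⟨w ++ [V.u false (i + d)], h3.append ⟨_, hm, lr_cF_up o0 false (i + d), rfl⟩, ?_⟩
      rw [kap_append h3.spec.1, h4, kap_cons hm, kap_nil, add_zero, hc.up, add_zero]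
    · rw [← Nat.add_assoc] at ht
      by_cases hE : V.Even false (i + d) ∧ (V.u false (i + d)).1 = 1
      · have h5 := gad_succ_of hE.1 hE.2
        obtain ⟨t', rfl⟩ : ∃ t', t = t' + 1 := ⟨t - 1, by
          have : V.gad false i ≤ V.gad false (i + d) := by
            obtain ⟨w, -, -⟩ : ∃ w : List Letter, w = w ∧ True := ⟨[], rfl, trivial⟩
            clear ih ht h2 h5 hE
            induction d with
            | zero => exact le_rfl
            | succ d ih2 =>
              refine ih2.trans ?_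
              rw [← Nat.add_assoc, gad]
              exact Nat.le_add_right _ _
          omega⟩
        obtain ⟨w, h3, h4⟩ := ih t' (by omega)
        obtain ⟨e1, e2⟩ := lr_cap1 hc hE.1 (h1 _ hE.1 hE.2)
        refine ⟨w ++ [flip (V.u false (i + d))],
          h3.append ⟨_, e1, lr_cF_up o0 false (i + d), rfl⟩, ?_⟩
        rw [kap_append h3.spec.1, h4, kap_cons e1, kap_nil, add_zero, e2, if_pos hE.2]
        push_cast
        simp
        ring
      · rw [gad_succ_not hE] at ht
        exact absurd ht h2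

/-- The choice of the way around the even caps is by the order of the letters. The vertex `i` is
not inside an even cap. `z` is the smallest letter of the line at the vertex `i`. -/
def IsChoice (V : VLad l m n) (lt : Letter → Letter → Prop) (σ : Bool) (i : ℕ) (z : Letter) :
    Prop :=
  (z = V.u σ i ∧ (V.Even σ i → lt (V.u σ i) (flip (V.u σ i)))) ∨
    (z = flip (V.u σ i) ∧ V.Even σ i ∧ lt (flip (V.u σ i)) (V.u σ i))

theorem lr_flip_ne (y : Letter) : flip y ≠ y := by
  intro h
  have h2 := congrArg Prod.snd h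
  rw [flip_snd] at h2
  cases h3 : y.2 <;> rw [h3] at h2 <;> cases h2

/-- The tight darts at a vertex of a line are not smaller than the chosen letter. -/
theorem lr_choice (hG : V.Good) {lt : Letter → Letter → Prop} (o0 : ℤ) (σ : Bool) (i : ℕ)
    {z : Letter} (hz : V.IsChoice lt σ i z)
    (hr : ∀ k, V.pos σ k = i → V.off o0 k = (if σ then 1 else -1) →
      lt z (if σ then flip (V.c k) else V.c k)) :
    ∀ y' x'', (V.csys hG).mv (Sum.inl (σ, i)) y' = some x'' →
      V.cF o0 x'' = V.cF o0 (Sum.inl (σ, i)) + 1 → True → y' = z ∨ lt z y' := by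
  intro y' x'' h1 h2 _
  rw [(V.csys hG).mv_iff] at h1
  rcases V.tight_line hG o0 σ i y' x'' h1 h2 with ⟨h3, -⟩ | ⟨h3, h4, -⟩ | ⟨k, h3, h4, h5, -⟩
  · subst h3
    rcases hz with ⟨h4, -⟩ | ⟨h4, h5, h6⟩
    · exact Or.inl h4.symm
    · rw [h4]
      exact Or.inr h6
  · subst h4
    rcases hz with ⟨h4, h5⟩ | ⟨h4, -, -⟩
    · rw [h4]
      exact Or.inr (h5 h3)
    · exact Or.inl h4.symm
  · rw [h5]
    exact Or.inr (hr k h3 h4)

/-- **Locally minimal runs along a line.** At the rungs where one can cross, the letter of the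
rung is larger. The height is the number of the even caps with letters `b^{±1}` if these are
chosen (`x = 1`), and zero if they are not chosen (`x = 0`). -/
theorem line_loc (hT : V.Tame) (hc : V.CVal hT.toGood val κ) (o0 : ℤ)
    {lt : Letter → Letter → Prop} [IsStrictTotalOrder Letter lt] (σ : Bool) (i d : ℕ)
    (hi : ¬ V.Mid σ i) (hj : ¬ V.Mid σ (i + d)) (x : ℕ)
    (hx : ∀ j, V.Even σ j → (V.u σ j).1 = 1 →
      (x = 1 ∧ lt (flip (V.u σ j)) (V.u σ j)) ∨ (x = 0 ∧ lt (V.u σ j) (flip (V.u σ j))))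
    (hr : ∀ k, i ≤ V.pos σ k → V.pos σ k < i + d → V.off o0 k = (if σ then 1 else -1) →
      ∀ z, V.IsChoice lt σ (V.pos σ k) z → lt z (if σ then flip (V.c k) else V.c k)) :
    ∃ w, w.length = d ∧
      LocRun (V.csys hT.toGood).mv (V.cF o0) (fun _ _ _ => True) lt (Sum.inl (σ, i)) w
        (Sum.inl (σ, i + d)) ∧
      kap (V.csys hT.toGood).mv κ (Sum.inl (σ, i)) w =
        (if σ then 1 else -1) * x * ((V.gad σ (i + d) : ℤ) - V.gad σ i) := by
  induction d using Nat.strong_induction_on with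
  | _ d ih =>
    rcases Nat.eq_zero_or_pos d with rfl | hd0
    · exact ⟨[], rfl, rfl, by simp [kap_nil]⟩
    obtain ⟨d, rfl⟩ : ∃ d', d = d' + 1 := ⟨d - 1, by omega⟩
    by_cases hM : V.Mid σ (i + d)
    · -- around a cap with two edges
      obtain ⟨i', hi', hE, hc2⟩ := hM
      obtain ⟨hP, h2, h3, h4, h5, h6⟩ := lr_two hT.toGood hE hc2
      have hd1 : 0 < d := by
        rcases Nat.eq_zero_or_pos d with rfl | h
        · exact absurd ⟨i', hi', hE, hc2⟩ hi
        · exact h
      obtain ⟨d, rfl⟩ : ∃ d', d = d' + 1 := ⟨d - 1, by omega⟩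
      have hi2 : i' = i + d := by omega
      subst hi2
      obtain ⟨w, w1, w2, w3⟩ := ih d (by omega) h4
        (fun k a1 a2 a3 => hr k a1 (by omega) a3)
      have hgad := lr_gad_two hT.toGood hE hc2
      rcases trichotomous_of lt (V.u σ (i + d)) (flip (V.u σ (i + d))) with hlt | hlt | hlt
      · -- along the line
        have m1 := lr_old (hG := hT.toGood) (Adj.up (V := V) σ (i + d))
        have m2 := lr_old (hG := hT.toGood) (Adj.up (V := V) σ (i + d + 1))
        refine ⟨w ++ [V.u σ (i + d), V.u σ (i + d + 1)], by simp [w1], w2.append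
          ⟨_, m1, lr_cF_up o0 σ (i + d), ?_, _, m2, lr_cF_up o0 σ (i + d + 1), ?_, rfl⟩, ?_⟩
        · refine lr_choice hT.toGood o0 σ (i + d) (Or.inl ⟨rfl, fun _ => hlt⟩) ?_
          intro k a1 a2
          exact hr k (by omega) (by omega) a2 _ (by rw [a1]; exact Or.inl ⟨rfl, fun _ => hlt⟩)
        · have hcho : V.IsChoice lt σ (i + d + 1) (V.u σ (i + d + 1)) := by
            refine Or.inl ⟨rfl, fun h => ?_⟩
            have := h.1
            omega
          refine lr_choice hT.toGood o0 σ (i + d + 1) hcho ?_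
          intro k a1 a2
          exact hr k (by omega) (by omega) a2 _ (by rw [a1]; exact hcho)
        · rw [kap_append w2.tight.spec.1, w3, kap_cons m1, kap_cons m2, kap_nil, hc.up, hc.up]
          rw [show i + (d + 1 + 1) = i + d + 2 by ring, hgad]
          by_cases hb : (V.u σ (i + d)).1 = 1
          · rcases hx _ hE hb with ⟨-, h⟩ | ⟨hx0, -⟩
            · exact absurd hlt (asymm_of lt h)
            · rw [hx0]
              simp
          · rw [if_neg hb]
            simp
      · exact absurd hlt.symm (lr_flip_ne _)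
      · -- along the cap
        obtain ⟨e1, e2, e3⟩ := lr_cap2 hc hE hc2
        refine ⟨w ++ [flip (V.u σ (i + d)), flip (V.u σ (i + d))], by simp [w1], w2.append
          ⟨_, e1, ?_, ?_, _, e2, ?_, ?_, rfl⟩, ?_⟩
        · rw [lr_cF_mid o0 _ hE hc2]
          change ((i + d : ℕ) : ℤ) + 1 + _ = ((i + d : ℕ) : ℤ) + _ + 1
          ring
        · refine lr_choice hT.toGood o0 σ (i + d) (Or.inr ⟨rfl, hE, hlt⟩) ?_
          intro k a1 a2
          exact hr k (by omega) (by omega) a2 _ (by rw [a1]; exact Or.inr ⟨rfl, hE, hlt⟩)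
        · rw [lr_cF_mid o0 _ hE hc2]
          change ((i + d + 2 : ℕ) : ℤ) + _ = ((i + d : ℕ) : ℤ) + 1 + _ + 1
          push_cast
          ring
        · intro y' x'' a1 a2 _
          rw [(V.csys hT.toGood).mv_iff] at a1
          exact Or.inl (V.tight_mid hT.toGood o0 σ (i + d) _ hE hc2 y' x'' a1 a2).1
        · rw [kap_append w2.tight.spec.1, w3, kap_cons e1, kap_cons e2, kap_nil, add_zero, e3]
          rw [show i + (d + 1 + 1) = i + d + 2 by ring, hgad]
          by_cases hb : (V.u σ (i + d)).1 = 1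
          · rcases hx _ hE hb with ⟨hx1, -⟩ | ⟨-, h⟩
            · rw [hx1, if_pos hb, if_pos hb]
              push_cast
              ring
            · exact absurd hlt (asymm_of lt h)
          · rw [if_neg hb, if_neg hb]
            simp
    · obtain ⟨w, w1, w2, w3⟩ := ih d (by omega) hM
        (fun k a1 a2 a3 => hr k a1 (by omega) a3)
      by_cases hE : V.Even σ (i + d)
      · have hc1 : V.capR σ (i + d) = 1 := by
          rcases V.capR_cases hE.1 with h | h
          · exact h.1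
          · exact absurd ⟨i + d, by ring, hE, h.1⟩ hj
        obtain ⟨e1, e2⟩ := lr_cap1 hc hE hc1
        rcases trichotomous_of lt (V.u σ (i + d)) (flip (V.u σ (i + d))) with hlt | hlt | hlt
        · have m1 := lr_old (hG := hT.toGood) (Adj.up (V := V) σ (i + d))
          refine ⟨w ++ [V.u σ (i + d)], by simp [w1], w2.append
            ⟨_, m1, lr_cF_up o0 σ (i + d), ?_, rfl⟩, ?_⟩
          · refine lr_choice hT.toGood o0 σ (i + d) (Or.inl ⟨rfl, fun _ => hlt⟩) ?_
            intro k a1 a2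
            exact hr k (by omega) (by omega) a2 _ (by rw [a1]; exact Or.inl ⟨rfl, fun _ => hlt⟩)
          · rw [kap_append w2.tight.spec.1, w3, kap_cons m1, kap_nil, hc.up]
            rw [← Nat.add_assoc]
            by_cases hb : (V.u σ (i + d)).1 = 1
            · rcases hx _ hE hb with ⟨-, h⟩ | ⟨hx0, -⟩
              · exact absurd hlt (asymm_of lt h)
              · rw [hx0]
                simp
            · rw [gad_succ_not fun h => hb h.2]
              simp
        · exact absurd hlt.symm (lr_flip_ne _)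
        · refine ⟨w ++ [flip (V.u σ (i + d))], by simp [w1], w2.append
            ⟨_, e1, lr_cF_up o0 σ (i + d), ?_, rfl⟩, ?_⟩
          · refine lr_choice hT.toGood o0 σ (i + d) (Or.inr ⟨rfl, hE, hlt⟩) ?_
            intro k a1 a2
            exact hr k (by omega) (by omega) a2 _ (by rw [a1]; exact Or.inr ⟨rfl, hE, hlt⟩)
          · rw [kap_append w2.tight.spec.1, w3, kap_cons e1, kap_nil, e2]
            rw [← Nat.add_assoc]
            by_cases hb : (V.u σ (i + d)).1 = 1
            · rcases hx _ hE hb with ⟨hx1, -⟩ | ⟨-, h⟩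
              · rw [gad_succ_of hE hb, hx1, if_pos hb]
                push_cast
                ring
              · exact absurd hlt (asymm_of lt h)
            · rw [gad_succ_not fun h => hb h.2, if_neg hb]
              simp
      · have hcho : V.IsChoice lt σ (i + d) (V.u σ (i + d)) :=
          Or.inl ⟨rfl, fun h => absurd h hE⟩
        have m1 := lr_old (hG := hT.toGood) (Adj.up (V := V) σ (i + d))
        refine ⟨w ++ [V.u σ (i + d)], by simp [w1], w2.append
          ⟨_, m1, lr_cF_up o0 σ (i + d), ?_, rfl⟩, ?_⟩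
        · refine lr_choice hT.toGood o0 σ (i + d) hcho ?_
          intro k a1 a2
          exact hr k (by omega) (by omega) a2 _ (by rw [a1]; exact hcho)
        · rw [kap_append w2.tight.spec.1, w3, kap_cons m1, kap_nil, hc.up]
          rw [← Nat.add_assoc, gad_succ_not fun h => hE h.1]
          simp

end VLad

end Pool.Agent.SLE
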