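import Pool.Agent.SLE.CQVal
import Pool.Agent.SLE.FamA
import Pool.Agent.SLE.LineRun

/-!
# The family `(l, 2, 3)`
-/

namespace Pool.Agent.SLE

open List G3

/-- The height of the reversed dart. -/
theorem c3_flip {l m n : ℕ} {X : Type*} {mv : X → Letter → Option X} {val : X → E l m n}
    {κ : X → Letter → ℤ} (H : VVal l m n mv val κ) (hl : 2 ≤ l) (hm : 2 ≤ m) (hn : 2 ≤ n)
    (hyp : (1 / l + 1 / m + 1 / n : ℚ) < 1) {x x' : X} {y : Letter} (h : mv x y = some x')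
    (h' : mv x' (flip y) = some x) : κ x' (flip y) = -κ x y := by
  have h1 : run mv x [y, flip y] = some x := by
    rw [run_cons_some]
    refine ⟨x', h, ?_⟩
    rw [run_cons_some]
    exact ⟨x, h', rfl⟩
  have h2 : eval l m n [y, flip y] = eval l m n [] := by
    rw [eval_cons, eval_flip, mul_inv_cancel, eval_nil]
  have h3 := H.kap_eq hl hm hn hyp h1 (w' := []) rfl h2
  rw [kap_cons h, kap_cons h', kap_nil] at h3
  linarith

namespace CLad

variable {l : ℕ} (V : CLad l)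

/-! ### The potential -/

theorem c3_cell_bd (σ : Bool) (i : ℕ) :
    V.pos σ (V.cellOf σ i) ≤ i ∧ i < V.pos σ (V.cellOf σ i + 1) := by
  induction i with
  | zero =>
    refine ⟨le_of_eq rfl, ?_⟩
    have h1 := V.two 0 σ
    have h2 : V.pos σ (V.cellOf σ 0 + 1) = 0 + V.len 0 σ := rfl
    omega
  | succ i ih =>
    obtain ⟨h1, h2⟩ := ih
    by_cases h : V.pos σ (V.cellOf σ i + 1) = i + 1
    · have h3 : V.cellOf σ (i + 1) = V.cellOf σ i + 1 := if_pos h
      rw [h3]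
      have h4 := V.two (V.cellOf σ i + 1) σ
      have h5 := V.pos_succ σ (V.cellOf σ i + 1)
      omega
    · have h3 : V.cellOf σ (i + 1) = V.cellOf σ i := if_neg h
      rw [h3]
      omega

theorem c3_cell_pos (σ : Bool) (k : ℕ) : V.cellOf σ (V.pos σ k) = k := by
  obtain ⟨h1, h2⟩ := V.c3_cell_bd σ (V.pos σ k)
  rcases Nat.lt_trichotomy (V.cellOf σ (V.pos σ k)) k with h | h | h
  · have := V.pos_mono σ (show V.cellOf σ (V.pos σ k) + 1 ≤ k from h)
    omega
  · exact h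
  · have := V.pos_lt σ h
    omega

theorem c3_cell_rung {σ : Bool} {i : ℕ} (h : V.isRung σ (i + 1)) :
    V.cellOf σ (i + 1) = V.cellOf σ i + 1 := by
  obtain ⟨k, hk⟩ := h
  have h1 := V.c3_cell_pos σ k
  rw [hk] at h1
  by_cases h : V.pos σ (V.cellOf σ i + 1) = i + 1
  · exact if_pos h
  · have h3 : V.cellOf σ (i + 1) = V.cellOf σ i := if_neg h
    obtain ⟨h4, h5⟩ := V.c3_cell_bd σ i
    rw [h3] at h1
    rw [h1, hk] at h4
    omega

theorem c3_cell_not {σ : Bool} {i : ℕ} (h : ¬ V.isRung σ (i + 1)) :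
    V.cellOf σ (i + 1) = V.cellOf σ i :=
  if_neg fun h1 => h ⟨_, h1⟩

theorem c3_F (o0 : ℤ) (σ : Bool) (i : ℕ) (c : Fin 3) [Decidable (V.isRung σ i)] :
    V.qF o0 ((σ, i), c) = i + V.cellOf σ i + (if σ then 0 else o0) -
      (if c = 2 then 1 else if c = 0 ∧ V.isRung σ i then 1 else 0) := by
  unfold qF
  congr

/-- The properties of the sections and heights of `exists_qval`. -/
structure C3Val (val : CX → E l 2 3) (κ : CX → Letter → ℤ) : Prop where
  vval : VVal l 2 3 V.qsys.mv val κ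
  b1 : ∀ σ i c, V.isRung σ i → κ ((σ, i), c) lB = if c = (if σ then 0 else 1) then 1 else 0
  b2 : ∀ σ i c, ¬ V.isRung σ i → κ ((σ, i), c) lB = if c = (if σ then 2 else 1) then 1 else 0
  up1 : ∀ σ i, σ = true ∨ V.isRung σ i → κ ((σ, i), V.lU σ i) lA = 0
  up2 : ∀ σ i, ¬ (σ = true ∨ V.isRung σ i) → κ ((σ, i), V.lU σ i) lA = 1
  dn1 : ∀ σ i, σ = false ∨ V.isRung σ i → κ ((σ, i + 1), V.rD σ (i + 1)) lA = 0
  dn2 : ∀ σ i, ¬ (σ = false ∨ V.isRung σ i) → κ ((σ, i + 1), V.rD σ (i + 1)) lA = 1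
  lr : ∀ k : ℕ, κ ((false, V.pos false k), 1) lA = k
  rl : ∀ k : ℕ, κ ((true, V.pos true k), 2) lA = 1 - k
  inv : ∀ {x x' y}, V.AdjQ x y x' → κ x' (flip y) = -κ x y

theorem c3_hyp (hl : 7 ≤ l) : (1 / l + 1 / (2 : ℕ) + 1 / (3 : ℕ) : ℚ) < 1 := by
  have h1 := inv_le (a := 7) (b := l) (by norm_num) hl
  push_cast at h1 ⊢
  linarith

theorem c3_exists (hl : 7 ≤ l) : ∃ (val : CX → E l 2 3) (κ : CX → Letter → ℤ), V.C3Val val κ := by
  obtain ⟨val, κ, h1, h2, h3, h4, h5, h6⟩ := V.exists_qval hl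
  refine ⟨val, κ, h1, ?_, ?_, ?_, ?_, ?_, ?_, h5, h6, ?_⟩
  · intro σ i c h
    rw [h2, if_pos h]
  · intro σ i c h
    rw [h2, if_neg h]
  · intro σ i h
    rw [h3, if_pos h]
  · intro σ i h
    rw [h3, if_neg h]
  · intro σ i h
    rw [h4, if_pos h]
  · intro σ i h
    rw [h4, if_neg h]
  · intro x x' y h
    exact c3_flip h1 (by omega) le_rfl (by omega) (c3_hyp hl) (V.qsys.mv_iff.2 h)
      (V.qsys.mv_iff.2 (V.qsys.symm h))

/-! ### The height potential -/

open Classical in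
/-- The height potential. -/
noncomputable def c3H (K : ℤ) (x : CX) : ℤ :=
  if x.1.1 = true then (if x.2 = 1 ∧ ¬ V.isRung x.1.1 x.1.2 then 1 else 0)
  else -K + (if (x.2 = 2 ∧ ¬ V.isRung x.1.1 x.1.2) ∨ (x.2 = 0 ∧ V.isRung x.1.1 x.1.2) then 1
    else 0)

theorem c3H_tr (K : ℤ) {i : ℕ} (h : V.isRung true i) (c : Fin 3) : V.c3H K ((true, i), c) = 0 := by
  simp [c3H, h]

theorem c3H_tn (K : ℤ) {i : ℕ} (h : ¬ V.isRung true i) (c : Fin 3) :
    V.c3H K ((true, i), c) = if c = 1 then 1 else 0 := by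
  simp [c3H, h]

theorem c3H_fr (K : ℤ) {i : ℕ} (h : V.isRung false i) (c : Fin 3) :
    V.c3H K ((false, i), c) = -K + if c = 0 then 1 else 0 := by
  simp [c3H, h]

theorem c3H_fn (K : ℤ) {i : ℕ} (h : ¬ V.isRung false i) (c : Fin 3) :
    V.c3H K ((false, i), c) = -K + if c = 2 then 1 else 0 := by
  simp [c3H, h]

theorem c3F_r (o0 : ℤ) {σ : Bool} {i : ℕ} (h : V.isRung σ i) (c : Fin 3) :
    V.qF o0 ((σ, i), c) = i + V.cellOf σ i + (if σ then 0 else o0) -
      (if c = 1 then 0 else 1) := by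
  classical
  rw [c3_F]
  fin_cases c <;> simp [h]

theorem c3F_n (o0 : ℤ) {σ : Bool} {i : ℕ} (h : ¬ V.isRung σ i) (c : Fin 3) :
    V.qF o0 ((σ, i), c) = i + V.cellOf σ i + (if σ then 0 else o0) -
      (if c = 2 then 1 else 0) := by
  classical
  rw [c3_F]
  fin_cases c <;> simp [h]

theorem c3_rot_tr {i : ℕ} (h : V.isRung true i) (c : Fin 3) :
    V.rotc true i c = if c = 1 then 2 else if c = 2 then 0 else 1 :=
  if_pos (V.leftT_true.2 h)

theorem c3_rot_tn {i : ℕ} (h : ¬ V.isRung true i) (c : Fin 3) :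
    V.rotc true i c = if c = 1 then 0 else if c = 0 then 2 else 1 :=
  if_neg fun h1 => h (V.leftT_true.1 h1)

theorem c3_rot_fr {i : ℕ} (h : V.isRung false i) (c : Fin 3) :
    V.rotc false i c = if c = 1 then 0 else if c = 0 then 2 else 1 :=
  if_neg fun h1 => (V.leftT_false.1 h1) h

theorem c3_rot_fn {i : ℕ} (h : ¬ V.isRung false i) (c : Fin 3) :
    V.rotc false i c = if c = 1 then 2 else if c = 2 then 0 else 1 :=
  if_pos (V.leftT_false.2 h)

/-- The four corners at the lines, for the four kinds of vertices. -/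
theorem c3_cor_tr {i : ℕ} (h : V.isRung true i) :
    V.lU true i = 1 ∧ V.lD true i = 2 ∧ V.rU true i = 0 ∧ V.rD true i = 0 := by
  have h1 := V.leftT_true.2 h
  exact ⟨if_pos h1, if_pos h1, if_pos h1, if_pos h1⟩

theorem c3_cor_tn {i : ℕ} (h : ¬ V.isRung true i) :
    V.lU true i = 0 ∧ V.lD true i = 0 ∧ V.rU true i = 1 ∧ V.rD true i = 2 := by
  have h1 : ¬ V.leftT true i := fun h1 => h (V.leftT_true.1 h1)
  exact ⟨if_neg h1, if_neg h1, if_neg h1, if_neg h1⟩

theorem c3_cor_fr {i : ℕ} (h : V.isRung false i) :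
    V.lU false i = 0 ∧ V.lD false i = 0 ∧ V.rU false i = 1 ∧ V.rD false i = 2 := by
  have h1 : ¬ V.leftT false i := fun h1 => (V.leftT_false.1 h1) h
  exact ⟨if_neg h1, if_neg h1, if_neg h1, if_neg h1⟩

theorem c3_cor_fn {i : ℕ} (h : ¬ V.isRung false i) :
    V.lU false i = 1 ∧ V.lD false i = 2 ∧ V.rU false i = 0 ∧ V.rD false i = 0 := by
  have h1 := V.leftT_false.2 h
  exact ⟨if_pos h1, if_pos h1, if_pos h1, if_pos h1⟩

variable {V} {val : CX → E l 2 3} {κ : CX → Letter → ℤ}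

/-- The inequalities for a dart and its reversed dart. -/
def C3Ok (V : CLad l) (o0 K : ℤ) (x : CX) (k : ℤ) (x' : CX) : Prop :=
  (V.qF o0 x' = V.qF o0 x + 1 → V.c3H K x' - V.c3H K x ≤ k) ∧
    (V.qF o0 x = V.qF o0 x' + 1 → V.c3H K x - V.c3H K x' ≤ -k)

theorem c3_ok_tri (hc : V.C3Val val κ) (o0 K : ℤ) (σ : Bool) (i : ℕ) (c : Fin 3) :
    C3Ok V o0 K ((σ, i), c) (κ ((σ, i), c) lB) ((σ, i), V.rotc σ i c) := by
  unfold C3Ok
  by_cases h : V.isRung σ i
  · rw [hc.b1 _ _ _ h, V.c3F_r o0 h, V.c3F_r o0 h]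
    cases σ
    · rw [V.c3_rot_fr h, V.c3H_fr K h, V.c3H_fr K h]
      fin_cases c <;> simp
    · rw [V.c3_rot_tr h, V.c3H_tr K h, V.c3H_tr K h]
      fin_cases c <;> simp
      intro h9
      linarith
  · rw [hc.b2 _ _ _ h, V.c3F_n o0 h, V.c3F_n o0 h]
    cases σ
    · rw [V.c3_rot_fn h, V.c3H_fn K h, V.c3H_fn K h]
      fin_cases c <;> simp
      intro h9
      linarith
    · rw [V.c3_rot_tn h, V.c3H_tn K h, V.c3H_tn K h]
      fin_cases c <;> simp

theorem c3_ok_up (hc : V.C3Val val κ) (o0 K : ℤ) (σ : Bool) (i : ℕ) :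
    C3Ok V o0 K ((σ, i), V.lU σ i) (κ ((σ, i), V.lU σ i) lA) ((σ, i + 1), V.lD σ (i + 1)) := by
  unfold C3Ok
  by_cases h : V.isRung σ i
  · have h' := V.not_isRung_succ h
    rw [hc.up1 _ _ (Or.inr h), V.c3F_r o0 h, V.c3F_n o0 h', V.c3_cell_not h']
    cases σ
    · rw [(V.c3_cor_fr h).1, (V.c3_cor_fn h').2.1, V.c3H_fr K h, V.c3H_fn K h']
      push_cast
      simp
    · rw [(V.c3_cor_tr h).1, (V.c3_cor_tn h').2.1, V.c3H_tr K h, V.c3H_tn K h']
      push_cast
      simp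
  · by_cases h' : V.isRung σ (i + 1)
    · rw [V.c3F_n o0 h, V.c3F_r o0 h', V.c3_cell_rung h']
      cases σ
      · rw [hc.up2 _ _ (by simp [h]), (V.c3_cor_fn h).1, (V.c3_cor_fr h').2.1, V.c3H_fn K h,
          V.c3H_fr K h']
        push_cast
        simp
      · rw [hc.up1 _ _ (Or.inl rfl), (V.c3_cor_tn h).1, (V.c3_cor_tr h').2.1, V.c3H_tn K h,
          V.c3H_tr K h']
        push_cast
        simp
    · rw [V.c3F_n o0 h, V.c3F_n o0 h', V.c3_cell_not h']
      cases σ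
      · rw [hc.up2 _ _ (by simp [h]), (V.c3_cor_fn h).1, (V.c3_cor_fn h').2.1, V.c3H_fn K h,
          V.c3H_fn K h']
        push_cast
        simp
      · rw [hc.up1 _ _ (Or.inl rfl), (V.c3_cor_tn h).1, (V.c3_cor_tn h').2.1, V.c3H_tn K h,
          V.c3H_tn K h']
        push_cast
        simp

theorem c3_ok_down (hc : V.C3Val val κ) (o0 K : ℤ) (σ : Bool) (i : ℕ) :
    C3Ok V o0 K ((σ, i + 1), V.rD σ (i + 1)) (κ ((σ, i + 1), V.rD σ (i + 1)) lA)
      ((σ, i), V.rU σ i) := by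
  unfold C3Ok
  by_cases h : V.isRung σ i
  · have h' := V.not_isRung_succ h
    rw [hc.dn1 _ _ (Or.inr h), V.c3F_r o0 h, V.c3F_n o0 h', V.c3_cell_not h']
    cases σ
    · rw [(V.c3_cor_fr h).2.2.1, (V.c3_cor_fn h').2.2.2, V.c3H_fr K h, V.c3H_fn K h']
      push_cast
      simp
    · rw [(V.c3_cor_tr h).2.2.1, (V.c3_cor_tn h').2.2.2, V.c3H_tr K h, V.c3H_tn K h']
      push_cast
      simp
  · by_cases h' : V.isRung σ (i + 1)
    · rw [V.c3F_n o0 h, V.c3F_r o0 h', V.c3_cell_rung h']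
      cases σ
      · rw [hc.dn1 _ _ (Or.inl rfl), (V.c3_cor_fn h).2.2.1, (V.c3_cor_fr h').2.2.2, V.c3H_fn K h,
          V.c3H_fr K h']
        push_cast
        simp
      · rw [hc.dn2 _ _ (by simp [h]), (V.c3_cor_tn h).2.2.1, (V.c3_cor_tr h').2.2.2, V.c3H_tn K h,
          V.c3H_tr K h']
        push_cast
        simp
    · rw [V.c3F_n o0 h, V.c3F_n o0 h', V.c3_cell_not h']
      cases σ
      · rw [hc.dn1 _ _ (Or.inl rfl), (V.c3_cor_fn h).2.2.1, (V.c3_cor_fn h').2.2.2, V.c3H_fn K h,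
          V.c3H_fn K h']
        push_cast
        simp
      · rw [hc.dn2 _ _ (by simp [h]), (V.c3_cor_tn h).2.2.1, (V.c3_cor_tn h').2.2.2, V.c3H_tn K h,
          V.c3H_tn K h']
        push_cast
        simp

/-- The zones: below the rung `K1` the left line is ahead, above it the right line. -/
structure C3Zone (V : CLad l) (K1 : ℕ) : Prop where
  z1 : ∀ k ≤ K1, V.off 1 k = 0 ∨ V.off 1 k = 1
  z2 : ∀ k, K1 < k → V.off 1 k = 0 ∨ V.off 1 k = -1

theorem C3Zone.abs {K1 : ℕ} (hz : V.C3Zone K1) (k : ℕ) : |V.off 1 k| ≤ 1 := by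
  rcases Nat.lt_or_ge K1 k with h | h
  · rcases hz.z2 k h with h1 | h1 <;> rw [h1] <;> simp
  · rcases hz.z1 k h with h1 | h1 <;> rw [h1] <;> simp

theorem c3F_L1 (k : ℕ) : V.qF 1 ((false, V.pos false k), 1) = V.pos false k + k + 1 := by
  rw [V.c3F_r 1 (V.isRung_pos false k), V.c3_cell_pos]
  simp

theorem c3F_L2 (k : ℕ) : V.qF 1 ((false, V.pos false k), 2) = V.pos false k + k := by
  rw [V.c3F_r 1 (V.isRung_pos false k), V.c3_cell_pos]
  simp

theorem c3F_R1 (k : ℕ) : V.qF 1 ((true, V.pos true k), 1) = V.pos true k + k := by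
  rw [V.c3F_r 1 (V.isRung_pos true k), V.c3_cell_pos]
  simp

theorem c3F_R2 (k : ℕ) : V.qF 1 ((true, V.pos true k), 2) = V.pos true k + k - 1 := by
  rw [V.c3F_r 1 (V.isRung_pos true k), V.c3_cell_pos]
  simp

theorem c3_ok_lr (hc : V.C3Val val κ) {K1 : ℕ} (hz : V.C3Zone K1) (k : ℕ) :
    C3Ok V 1 K1 ((false, V.pos false k), 1) (κ ((false, V.pos false k), 1) lA)
      ((true, V.pos true k), 1) := by
  unfold C3Ok
  rw [hc.lr, c3F_L1, c3F_R1, V.c3H_fr _ (V.isRung_pos false k),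
    V.c3H_tr _ (V.isRung_pos true k)]
  have h1 : V.off 1 k = V.pos false k + 1 - V.pos true k := rfl
  constructor
  · intro h2
    have h3 : K1 < k := by
      by_contra h
      rcases hz.z1 k (by omega) with h4 | h4 <;> rw [h4] at h1 <;> linarith
    simp
    omega
  · intro h2
    have h3 : k ≤ K1 := by
      by_contra h
      rcases hz.z2 k (by omega) with h4 | h4 <;> rw [h4] at h1 <;> linarith
    simp
    omega

theorem c3_ok_rl (hc : V.C3Val val κ) {K1 : ℕ} (hz : V.C3Zone K1) (k : ℕ) :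
    C3Ok V 1 K1 ((true, V.pos true k), 2) (κ ((true, V.pos true k), 2) lA)
      ((false, V.pos false k), 2) := by
  unfold C3Ok
  rw [hc.rl, c3F_L2, c3F_R2, V.c3H_fr _ (V.isRung_pos false k),
    V.c3H_tr _ (V.isRung_pos true k)]
  have h1 : V.off 1 k = V.pos false k + 1 - V.pos true k := rfl
  constructor
  · intro h2
    have h3 : k ≤ K1 := by
      by_contra h
      rcases hz.z2 k (by omega) with h4 | h4 <;> rw [h4] at h1 <;> linarith
    simp
    omega
  · intro h2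
    have h3 : K1 < k := by
      by_contra h
      rcases hz.z1 k (by omega) with h4 | h4 <;> rw [h4] at h1 <;> linarith
    simp
    omega

theorem c3_ok_rev {o0 K : ℤ} {x x' : CX} {y : Letter} (hc : V.C3Val val κ)
    (h : V.AdjQ x y x') (h1 : C3Ok V o0 K x (κ x y) x') :
    V.qF o0 x = V.qF o0 x' + 1 → V.c3H K x - V.c3H K x' ≤ κ x' (flip y) := by
  rw [hc.inv h]
  exact h1.2

/-- **The height potential.** -/
theorem c3_hH (hc : V.C3Val val κ) {K1 : ℕ} (hz : V.C3Zone K1) (x : CX) (y : Letter) (x' : CX)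
    (h : V.AdjQ x y x') (hF : V.qF 1 x' = V.qF 1 x + 1) :
    V.c3H K1 x' - V.c3H K1 x ≤ κ x y := by
  cases h with
  | tri σ i c => exact (c3_ok_tri hc 1 K1 σ i c).1 hF
  | tri' σ i c => exact c3_ok_rev hc (AdjQ.tri σ i c) (c3_ok_tri hc 1 K1 σ i c) hF
  | up σ i => exact (c3_ok_up hc 1 K1 σ i).1 hF
  | up' σ i => exact c3_ok_rev hc (AdjQ.up σ i) (c3_ok_up hc 1 K1 σ i) hF
  | down σ i => exact (c3_ok_down hc 1 K1 σ i).1 hF
  | down' σ i => exact c3_ok_rev hc (AdjQ.down σ i) (c3_ok_down hc 1 K1 σ i) hF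
  | lr k => exact (c3_ok_lr hc hz k).1 hF
  | lr' k => exact c3_ok_rev hc (AdjQ.lr k) (c3_ok_lr hc hz k) hF
  | rl k => exact (c3_ok_rl hc hz k).1 hF
  | rl' k => exact c3_ok_rev hc (AdjQ.rl k) (c3_ok_rl hc hz k) hF

/-! ### The inner lines -/

/-- The letter of the edges of the inner line, upwards. -/
def c3u (σ : Bool) : Letter := (0, σ)

/-- The letter of the turn at the rungs. -/
def c3t (σ : Bool) : Letter := (1, !σ)

theorem c3F_le (o0 : ℤ) (σ : Bool) (i : ℕ) (c : Fin 3) :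
    V.qF o0 ((σ, i), c) ≤ i + V.cellOf σ i + (if σ then 0 else o0) := by
  by_cases h : V.isRung σ i
  · rw [V.c3F_r o0 h]
    fin_cases c <;> simp
  · rw [V.c3F_n o0 h]
    fin_cases c <;> simp

theorem c3F_down (o0 : ℤ) (σ : Bool) (i : ℕ) (c c' : Fin 3) :
    V.qF o0 ((σ, i), c) ≤ V.qF o0 ((σ, i + 1), c') := by
  refine (c3F_le o0 σ i c).trans ?_
  by_cases h : V.isRung σ (i + 1)
  · rw [V.c3F_r o0 h, V.c3_cell_rung h]
    push_cast
    split_ifs <;> omega
  · rw [V.c3F_n o0 h, V.c3_cell_not h]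
    push_cast
    split_ifs <;> omega

/-- The tight darts at an inner corner between the rungs. -/
theorem c3_tight0 {o0 : ℤ} {σ : Bool} {i : ℕ} (hr : ¬ V.isRung σ i) {y : Letter} {x x' : CX}
    (hx : x = ((σ, i), 0)) (h : V.AdjQ x y x') (hF : V.qF o0 x' = V.qF o0 x + 1) :
    y = c3u σ := by
  have hmax : ∀ c, V.qF o0 ((σ, i), c) ≤ V.qF o0 ((σ, i), 0) := by
    intro c
    refine (c3F_le o0 σ i c).trans (le_of_eq ?_)
    rw [V.c3F_n o0 hr]
    simp
  cases h with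
  | tri σ' i' c =>
    simp only [Prod.mk.injEq] at hx
    obtain ⟨⟨rfl, rfl⟩, rfl⟩ := hx
    have := hmax (V.rotc σ' i' 0)
    omega
  | tri' σ' i' c =>
    simp only [Prod.mk.injEq] at hx
    obtain ⟨⟨rfl, rfl⟩, h1⟩ := hx
    have := hmax c
    rw [h1] at hF
    omega
  | up σ' i' =>
    simp only [Prod.mk.injEq] at hx
    obtain ⟨⟨rfl, rfl⟩, h1⟩ := hx
    cases σ'
    · rw [(V.c3_cor_fn hr).1] at h1
      exact absurd h1 (by decide)
    · rfl
  | up' σ' i' => exact absurd (c3F_down (V := V) o0 σ' i' (V.lU σ' i') (V.lD σ' (i' + 1))) (by omega)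
  | down σ' i' => exact absurd (c3F_down (V := V) o0 σ' i' (V.rU σ' i') (V.rD σ' (i' + 1))) (by omega)
  | down' σ' i' =>
    simp only [Prod.mk.injEq] at hx
    obtain ⟨⟨rfl, rfl⟩, h1⟩ := hx
    cases σ'
    · rfl
    · rw [(V.c3_cor_tn hr).2.2.1] at h1
      exact absurd h1 (by decide)
  | lr k => exact absurd (congrArg Prod.snd hx) (show ¬ (1 : Fin 3) = 0 by decide)
  | lr' k => exact absurd (congrArg Prod.snd hx) (show ¬ (1 : Fin 3) = 0 by decide)
  | rl k => exact absurd (congrArg Prod.snd hx) (show ¬ (2 : Fin 3) = 0 by decide)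
  | rl' k => exact absurd (congrArg Prod.snd hx) (show ¬ (2 : Fin 3) = 0 by decide)

/-- The tight darts at the upper inner corner of a rung. -/
theorem c3_tight1 {o0 : ℤ} {σ : Bool} {k : ℕ} {y : Letter} {x x' : CX}
    (hx : x = ((σ, V.pos σ k), 1)) (h : V.AdjQ x y x') (hF : V.qF o0 x' = V.qF o0 x + 1) :
    y = c3u σ ∨ (σ = true ∧ V.off o0 k = 1 ∧ y = lA' ∧ x' = ((false, V.pos false k), 1)) ∨
      (σ = false ∧ V.off o0 k = -1 ∧ y = lA ∧ x' = ((true, V.pos true k), 1)) := by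
  have hr := V.isRung_pos σ k
  have hoff : V.off o0 k = V.pos false k + o0 - V.pos true k := rfl
  have hmax : ∀ c, V.qF o0 ((σ, V.pos σ k), c) ≤ V.qF o0 ((σ, V.pos σ k), 1) := by
    intro c
    refine (c3F_le o0 σ _ c).trans (le_of_eq ?_)
    rw [V.c3F_r o0 hr]
    simp
  cases h with
  | tri σ' i' c =>
    simp only [Prod.mk.injEq] at hx
    obtain ⟨⟨rfl, rfl⟩, rfl⟩ := hx
    have := hmax (V.rotc σ' (V.pos σ' k) 1)
    omega
  | tri' σ' i' c =>
    simp only [Prod.mk.injEq] at hx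
    obtain ⟨⟨rfl, rfl⟩, h1⟩ := hx
    have := hmax c
    rw [h1] at hF
    omega
  | up σ' i' =>
    simp only [Prod.mk.injEq] at hx
    obtain ⟨⟨rfl, rfl⟩, h1⟩ := hx
    cases σ'
    · rw [(V.c3_cor_fr hr).1] at h1
      exact absurd h1 (by decide)
    · exact Or.inl rfl
  | up' σ' i' => exact absurd (c3F_down (V := V) o0 σ' i' (V.lU σ' i') (V.lD σ' (i' + 1))) (by omega)
  | down σ' i' => exact absurd (c3F_down (V := V) o0 σ' i' (V.rU σ' i') (V.rD σ' (i' + 1))) (by omega)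
  | down' σ' i' =>
    simp only [Prod.mk.injEq] at hx
    obtain ⟨⟨rfl, rfl⟩, h1⟩ := hx
    cases σ'
    · exact Or.inl rfl
    · rw [(V.c3_cor_tr hr).2.2.1] at h1
      exact absurd h1 (by decide)
  | lr k' =>
    simp only [Prod.mk.injEq] at hx
    obtain ⟨⟨rfl, h1⟩, -⟩ := hx
    obtain rfl := V.pos_inj false h1
    refine Or.inr (Or.inr ⟨rfl, ?_, rfl, rfl⟩)
    rw [V.c3F_r o0 (V.isRung_pos true k'), V.c3F_r o0 hr, V.c3_cell_pos, V.c3_cell_pos] at hF
    simp at hF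
    linarith
  | lr' k' =>
    simp only [Prod.mk.injEq] at hx
    obtain ⟨⟨rfl, h1⟩, -⟩ := hx
    obtain rfl := V.pos_inj true h1
    refine Or.inr (Or.inl ⟨rfl, ?_, rfl, rfl⟩)
    rw [V.c3F_r o0 (V.isRung_pos false k'), V.c3F_r o0 hr, V.c3_cell_pos, V.c3_cell_pos] at hF
    simp at hF
    linarith
  | rl k => exact absurd (congrArg Prod.snd hx) (show ¬ (2 : Fin 3) = 1 by decide)
  | rl' k => exact absurd (congrArg Prod.snd hx) (show ¬ (2 : Fin 3) = 1 by decide)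

theorem c3_lU_ne (σ : Bool) (i : ℕ) : V.lU σ i ≠ 2 ∧ V.rU σ i ≠ 2 := by
  unfold lU rU
  split_ifs <;> decide

/-- The tight darts at the lower inner corner of a rung. -/
theorem c3_tight2 {o0 : ℤ} {σ : Bool} {k : ℕ} {y : Letter} {x x' : CX}
    (hx : x = ((σ, V.pos σ k), 2)) (h : V.AdjQ x y x') (hF : V.qF o0 x' = V.qF o0 x + 1) :
    y = c3t σ ∨ (σ = true ∧ V.off o0 k = 1 ∧ y = lA ∧ x' = ((false, V.pos false k), 2)) ∨
      (σ = false ∧ V.off o0 k = -1 ∧ y = lA' ∧ x' = ((true, V.pos true k), 2)) := by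
  have hr := V.isRung_pos σ k
  have hoff : V.off o0 k = V.pos false k + o0 - V.pos true k := rfl
  have h02 : V.qF o0 ((σ, V.pos σ k), 0) = V.qF o0 ((σ, V.pos σ k), 2) := by
    rw [V.c3F_r o0 hr, V.c3F_r o0 hr]
    simp
  cases h with
  | tri σ' i' c =>
    simp only [Prod.mk.injEq] at hx
    obtain ⟨⟨rfl, rfl⟩, rfl⟩ := hx
    cases σ'
    · exact Or.inl rfl
    · rw [V.c3_rot_tr hr] at hF
      have h1 : (if (2 : Fin 3) = 1 then (2 : Fin 3) else if (2 : Fin 3) = 2 then 0 else 1) = 0 :=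
        by decide
      rw [h1] at hF
      omega
  | tri' σ' i' c =>
    simp only [Prod.mk.injEq] at hx
    obtain ⟨⟨rfl, rfl⟩, h1⟩ := hx
    rw [h1] at hF
    cases σ'
    · rw [V.c3_rot_fr hr] at h1
      have h2 : c = 0 := by
        revert h1
        fin_cases c <;> decide
      rw [h2] at hF
      omega
    · exact Or.inl rfl
  | up σ' i' =>
    simp only [Prod.mk.injEq] at hx
    exact absurd hx.2 (c3_lU_ne σ' i').1
  | up' σ' i' => exact absurd (c3F_down (V := V) o0 σ' i' (V.lU σ' i') (V.lD σ' (i' + 1))) (by omega)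
  | down σ' i' => exact absurd (c3F_down (V := V) o0 σ' i' (V.rU σ' i') (V.rD σ' (i' + 1))) (by omega)
  | down' σ' i' =>
    simp only [Prod.mk.injEq] at hx
    exact absurd hx.2 (c3_lU_ne σ' i').2
  | lr k => exact absurd (congrArg Prod.snd hx) (show ¬ (1 : Fin 3) = 2 by decide)
  | lr' k => exact absurd (congrArg Prod.snd hx) (show ¬ (1 : Fin 3) = 2 by decide)
  | rl k' =>
    simp only [Prod.mk.injEq] at hx
    obtain ⟨⟨rfl, h1⟩, -⟩ := hx
    obtain rfl := V.pos_inj true h1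
    refine Or.inr (Or.inl ⟨rfl, ?_, rfl, rfl⟩)
    rw [V.c3F_r o0 (V.isRung_pos false k'), V.c3F_r o0 hr, V.c3_cell_pos, V.c3_cell_pos] at hF
    simp at hF
    linarith
  | rl' k' =>
    simp only [Prod.mk.injEq] at hx
    obtain ⟨⟨rfl, h1⟩, -⟩ := hx
    obtain rfl := V.pos_inj false h1
    refine Or.inr (Or.inr ⟨rfl, ?_, rfl, rfl⟩)
    rw [V.c3F_r o0 (V.isRung_pos true k'), V.c3F_r o0 hr, V.c3_cell_pos, V.c3_cell_pos] at hF
    simp at hF
    linarith

/-- The turn at a rung. -/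
theorem c3_turn (hc : V.C3Val val κ) (o0 : ℤ) (σ : Bool) (k : ℕ) :
    V.qsys.mv ((σ, V.pos σ k), 2) (c3t σ) = some ((σ, V.pos σ k), 1) ∧
      V.qF o0 ((σ, V.pos σ k), 1) = V.qF o0 ((σ, V.pos σ k), 2) + 1 ∧
      κ ((σ, V.pos σ k), 2) (c3t σ) = 0 := by
  have hr := V.isRung_pos σ k
  refine ⟨?_, ?_, ?_⟩
  · rw [V.qsys.mv_iff]
    change V.AdjQ _ _ _
    cases σ
    · have h := AdjQ.tri (V := V) false (V.pos false k) 2
      rw [V.c3_rot_fr hr] at h
      exact h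
    · have h := AdjQ.tri' (V := V) true (V.pos true k) 1
      rw [V.c3_rot_tr hr] at h
      exact h
  · rw [V.c3F_r o0 hr, V.c3F_r o0 hr]
    simp
  · cases σ
    · have h := hc.b1 false (V.pos false k) 2 hr
      rw [c3t, Bool.not_false, h]
      decide
    · have h := AdjQ.tri (V := V) true (V.pos true k) 1
      have h1 := hc.inv h
      rw [hc.b1 true _ _ hr, V.c3_rot_tr hr] at h1
      exact h1

/-- An edge of the inner line. -/
theorem c3_edge (hc : V.C3Val val κ) (o0 : ℤ) (σ : Bool) (i : ℕ) (c c' : Fin 3)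
    (h : (V.isRung σ i ∧ c = 1) ∨ (¬ V.isRung σ i ∧ c = 0))
    (h' : (V.isRung σ (i + 1) ∧ c' = 2) ∨ (¬ V.isRung σ (i + 1) ∧ c' = 0)) :
    V.qsys.mv ((σ, i), c) (c3u σ) = some ((σ, i + 1), c') ∧
      V.qF o0 ((σ, i + 1), c') = V.qF o0 ((σ, i), c) + 1 ∧
      κ ((σ, i), c) (c3u σ) = 0 := by
  have hF : V.qF o0 ((σ, i), c) = i + V.cellOf σ i + (if σ then 0 else o0) := by
    rcases h with ⟨h, rfl⟩ | ⟨h, rfl⟩
    · rw [V.c3F_r o0 h]
      simp
    · rw [V.c3F_n o0 h]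
      simp
  have hF' : V.qF o0 ((σ, i + 1), c') = i + 1 + V.cellOf σ i + (if σ then 0 else o0) := by
    rcases h' with ⟨h, rfl⟩ | ⟨h, rfl⟩
    · rw [V.c3F_r o0 h, V.c3_cell_rung h, if_neg (show ¬ (2 : Fin 3) = 1 by decide)]
      push_cast
      ring
    · rw [V.c3F_n o0 h, V.c3_cell_not h, if_neg (show ¬ (0 : Fin 3) = 2 by decide)]
      push_cast
      ring
  have key : V.AdjQ ((σ, i), c) (c3u σ) ((σ, i + 1), c') ∧ κ ((σ, i), c) (c3u σ) = 0 := by
    cases σ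
    · have h1 : V.rU false i = c := by
        rcases h with ⟨h, rfl⟩ | ⟨h, rfl⟩
        · exact (V.c3_cor_fr h).2.2.1
        · exact (V.c3_cor_fn h).2.2.1
      have h2 : V.rD false (i + 1) = c' := by
        rcases h' with ⟨h, rfl⟩ | ⟨h, rfl⟩
        · exact (V.c3_cor_fr h).2.2.2
        · exact (V.c3_cor_fn h).2.2.2
      have h3 := AdjQ.down' (V := V) false i
      have h4 := hc.inv (AdjQ.down (V := V) false i)
      rw [hc.dn1 _ _ (Or.inl rfl)] at h4
      rw [h1, h2] at h3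
      rw [h1] at h4
      exact ⟨h3, h4⟩
    · have h1 : V.lU true i = c := by
        rcases h with ⟨h, rfl⟩ | ⟨h, rfl⟩
        · exact (V.c3_cor_tr h).1
        · exact (V.c3_cor_tn h).1
      have h2 : V.lD true (i + 1) = c' := by
        rcases h' with ⟨h, rfl⟩ | ⟨h, rfl⟩
        · exact (V.c3_cor_tr h).2.1
        · exact (V.c3_cor_tn h).2.1
      have h3 := AdjQ.up (V := V) true i
      have h4 := hc.up1 true i (Or.inl rfl)
      rw [h1, h2] at h3
      rw [h1] at h4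
      exact ⟨h3, h4⟩
  refine ⟨V.qsys.mv_iff.2 key.1, ?_, key.2⟩
  rw [hF, hF']
  ring

/-- The letter `y` is the smallest one among the letters of the allowed tight darts at `x`. -/
def C3Min (V : CLad l) (o0 : ℤ) (P : CX → Letter → CX → Prop) (lt : Letter → Letter → Prop)
    (x : CX) (y : Letter) : Prop :=
  ∀ y' x'', V.qsys.mv x y' = some x'' → V.qF o0 x'' = V.qF o0 x + 1 → P x y' x'' →
    y' = y ∨ lt y y'

/-- **Running along the side of a cell.** -/
theorem c3_side (hc : V.C3Val val κ) (o0 : ℤ) (σ : Bool) (k : ℕ)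
    {P : CX → Letter → CX → Prop} {lt : Letter → Letter → Prop}
    (hP : V.C3Min o0 P lt ((σ, V.pos σ k), 1) (c3u σ)) :
    LocRun V.qsys.mv (V.qF o0) P lt ((σ, V.pos σ k), 1) (replicate (V.len k σ) (c3u σ))
      ((σ, V.pos σ (k + 1)), 2) ∧
    kap V.qsys.mv κ ((σ, V.pos σ k), 1) (replicate (V.len k σ) (c3u σ)) = 0 := by
  have h2 := V.two k σ
  -- the inner part of the side
  have key : ∀ d j, 0 < j → j + (d + 1) = V.len k σ →
      LocRun V.qsys.mv (V.qF o0) P lt ((σ, V.pos σ k + j), 0) (replicate (d + 1) (c3u σ))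
        ((σ, V.pos σ (k + 1)), 2) ∧
      kap V.qsys.mv κ ((σ, V.pos σ k + j), 0) (replicate (d + 1) (c3u σ)) = 0 := by
    intro d
    induction d with
    | zero =>
      intro j h0 hj
      have e : V.pos σ k + j + 1 = V.pos σ (k + 1) := by
        rw [V.pos_succ]
        omega
      have hn := V.not_isRung (σ := σ) (k := k) h0 (by omega)
      obtain ⟨a1, a2, a3⟩ := c3_edge hc o0 σ (V.pos σ k + j) 0 2 (Or.inr ⟨hn, rfl⟩)
        (Or.inl ⟨by rw [e]; exact V.isRung_pos σ (k + 1), rfl⟩)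
      rw [e] at a1 a2
      refine ⟨⟨_, a1, a2, ?_, rfl⟩, ?_⟩
      · intro y' x'' b1 b2 _
        exact Or.inl (c3_tight0 hn rfl (V.qsys.mv_iff.1 b1) b2)
      · change kap V.qsys.mv κ _ [c3u σ] = 0
        rw [kap_cons a1, a3, kap_nil]
        rfl
    | succ d ih =>
      intro j h0 hj
      have hn := V.not_isRung (σ := σ) (k := k) h0 (by omega)
      have hn' := V.not_isRung (σ := σ) (k := k) (show 0 < j + 1 by omega) (by omega)
      obtain ⟨a1, a2, a3⟩ := c3_edge hc o0 σ (V.pos σ k + j) 0 0 (Or.inr ⟨hn, rfl⟩)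
        (Or.inr ⟨hn', rfl⟩)
      obtain ⟨i1, i2⟩ := ih (j + 1) (by omega) (by omega)
      rw [replicate_succ]
      refine ⟨⟨_, a1, a2, ?_, i1⟩, ?_⟩
      · intro y' x'' b1 b2 _
        exact Or.inl (c3_tight0 hn rfl (V.qsys.mv_iff.1 b1) b2)
      · rw [kap_cons a1, a3, zero_add]
        exact i2
  obtain ⟨d, hd⟩ : ∃ d, V.len k σ = d + 2 := ⟨V.len k σ - 2, by omega⟩
  have hn' := V.not_isRung (σ := σ) (k := k) (show 0 < 1 by omega) (by omega)
  obtain ⟨a1, a2, a3⟩ := c3_edge hc o0 σ (V.pos σ k) 1 0 (Or.inl ⟨V.isRung_pos σ k, rfl⟩)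
    (Or.inr ⟨hn', rfl⟩)
  obtain ⟨i1, i2⟩ := key d 1 (by omega) (by omega)
  rw [hd, replicate_succ]
  refine ⟨⟨_, a1, a2, hP, i1⟩, ?_⟩
  rw [kap_cons a1, a3, zero_add]
  exact i2

/-- **Running along the inner line.** -/
theorem c3_line (hc : V.C3Val val κ) (o0 : ℤ) (σ : Bool) (k d : ℕ)
    {P : CX → Letter → CX → Prop} {lt : Letter → Letter → Prop}
    (hP : ∀ j, k ≤ j → j < k + d → V.C3Min o0 P lt ((σ, V.pos σ j), 1) (c3u σ))
    (hP' : ∀ j, k < j → j ≤ k + d → V.C3Min o0 P lt ((σ, V.pos σ j), 2) (c3t σ)) :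
    ∃ w, LocRun V.qsys.mv (V.qF o0) P lt ((σ, V.pos σ k), 1) w ((σ, V.pos σ (k + d)), 1) ∧
      kap V.qsys.mv κ ((σ, V.pos σ k), 1) w = 0 ∧
      V.pos σ k + w.length = V.pos σ (k + d) + d := by
  induction d with
  | zero => exact ⟨[], rfl, rfl, rfl⟩
  | succ d ih =>
    obtain ⟨w, w1, w2, w3⟩ := ih (fun j h1 h2 => hP j h1 (by omega))
      (fun j h1 h2 => hP' j h1 (by omega))
    obtain ⟨s1, s2⟩ := c3_side hc o0 σ (k + d) (hP (k + d) (by omega) (by omega))
    obtain ⟨t1, t2, t3⟩ := c3_turn hc o0 σ (k + d + 1)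
    have h1 := w1.append s1
    refine ⟨w ++ replicate (V.len (k + d) σ) (c3u σ) ++ [c3t σ],
      h1.append ⟨_, t1, t2, ?_, rfl⟩, ?_, ?_⟩
    · exact hP' (k + d + 1) (by omega) (by omega)
    · rw [kap_append h1.tight.spec.1, kap_append w1.tight.spec.1, w2, s2, kap_cons t1, t3, kap_nil]
      rfl
    · rw [List.length_append, List.length_append, List.length_replicate, List.length_singleton,
        ← Nat.add_assoc, ← Nat.add_assoc, w3,
        show V.pos σ (k + (d + 1)) = V.pos σ (k + d) + V.len (k + d) σ from rfl]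
      omega

theorem c3_no (o0 : ℤ) (σ : Bool) (k d : ℕ) (hc : V.C3Val val κ) :
    ∃ w, TightRun V.qsys.mv (V.qF o0) ((σ, V.pos σ k), 1) w ((σ, V.pos σ (k + d)), 1) ∧
      kap V.qsys.mv κ ((σ, V.pos σ k), 1) w = 0 := by
  obtain ⟨w, h1, h2, -⟩ := c3_line hc o0 σ k d (P := fun _ _ _ => False)
    (lt := fun _ _ => False) (fun _ _ _ _ _ _ _ h => h.elim) (fun _ _ _ _ _ _ _ h => h.elim)
  exact ⟨w, h1.tight, h2⟩

/-- **Divergence.** -/
theorem c3_diverge (hl : 7 ≤ l) {K1 : ℕ} (hz : V.C3Zone K1) (hK : 1 ≤ K1)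
    (h1 : V.off 1 K1 = 1) (h2 : V.off 1 (K1 + 2) = -1) {N : ℕ}
    (hN : N < K1) {lt : Letter → Letter → Prop} [IsStrictTotalOrder Letter lt]
    (hlt : lt lA' lA) : Diverge l 2 3 lt 1 (ball2 l 2 3) N := by
  obtain ⟨val, κ, hc⟩ := V.c3_exists hl
  have S := (V.qclosed hl).vsys (by omega) (by omega) (by omega)
  have hoff : ∀ k, V.off 1 k = V.pos false k + 1 - V.pos true k := fun _ => rfl
  have hp : V.pos false K1 = V.pos true K1 := by
    have := hoff K1
    omega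
  have hF : ∀ x y x', V.qsys.mv x y = some x' → V.qF 1 x' ≤ V.qF 1 x + 1 := fun x y x' h =>
    V.qF_lip hz.abs x y x' (V.qsys.mv_iff.1 h)
  have hH : ∀ x y x', V.qsys.mv x y = some x' → V.qF 1 x' = V.qF 1 x + 1 →
      V.c3H K1 x' - V.c3H K1 x ≤ 1 * κ x y := fun x y x' h hf => by
    rw [one_mul]
    exact c3_hH hc hz x y x' (V.qsys.mv_iff.1 h) hf
  -- the rungs
  have rRL : ∀ k, V.qsys.mv ((true, V.pos true k), 1) lA' = some ((false, V.pos false k), 1) :=
    fun k => V.qsys.mv_iff.2 (AdjQ.lr' (V := V) k)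
  have kRL : ∀ k : ℕ, κ ((true, V.pos true k), 1) lA' = -k := fun k => by
    have h3 := hc.inv (AdjQ.lr (V := V) k)
    rw [hc.lr] at h3
    exact h3
  have rLR : ∀ k, V.qsys.mv ((false, V.pos false k), 1) lA = some ((true, V.pos true k), 1) :=
    fun k => V.qsys.mv_iff.2 (AdjQ.lr (V := V) k)
  -- the first word
  obtain ⟨w1, a1, a2, a3⟩ := c3_line hc 1 true 0 K1
    (P := fun p y p' => V.c3H K1 p' - V.c3H K1 p = 1 * κ p y) (lt := lt) (by
      intro j _ hj y' x'' b1 b2 b3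
      rcases c3_tight1 rfl (V.qsys.mv_iff.1 b1) b2 with h | ⟨-, -, rfl, rfl⟩ | ⟨h, -⟩
      · exact Or.inl h
      · exfalso
        rw [V.c3H_fr _ (V.isRung_pos false j), V.c3H_tr _ (V.isRung_pos true j), kRL] at b3
        simp at b3
        omega
      · exact absurd h (by decide)) (by
      intro j _ hj y' x'' b1 b2 b3
      rcases c3_tight2 rfl (V.qsys.mv_iff.1 b1) b2 with h | ⟨-, -, rfl, rfl⟩ | ⟨h, -⟩
      · exact Or.inl h
      · exfalso
        rw [V.c3H_fr _ (V.isRung_pos false j), V.c3H_tr _ (V.isRung_pos true j), hc.rl] at b3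
        simp at b3
        omega
      · exact absurd h (by decide))
  rw [Nat.zero_add] at a1 a3
  obtain ⟨w1', c1, c2⟩ := c3_no 1 false K1 (K1 + 2) hc
  have m1 : V.qF 1 ((false, V.pos false K1), 1) = V.qF 1 ((true, V.pos true K1), 1) + 1 := by
    rw [c3F_L1, c3F_R1, hp]
  have t1 : TightRun V.qsys.mv (V.qF 1) ((true, V.pos true K1), 1) (lA' :: w1')
      ((false, V.pos false (K1 + (K1 + 2))), 1) := ⟨_, rRL K1, m1, c1⟩
  have k1 : kap V.qsys.mv κ ((true, V.pos true K1), 1) (lA' :: w1') = -K1 := by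
    rw [kap_cons (rRL K1), kRL, c2, add_zero]
  -- the second word
  have hzero : ∀ j, j ≤ K1 → V.off 1 j = -1 → False := by
    intro j hj h
    rcases hz.z1 j hj with h3 | h3 <;> rw [h3] at h <;> norm_num at h
  have hmin1 : ∀ j, j ≤ K1 → V.C3Min 1 (fun _ _ _ => True) lt ((false, V.pos false j), 1)
      (c3u false) := by
    intro j hj y' x'' b1 b2 _
    rcases c3_tight1 rfl (V.qsys.mv_iff.1 b1) b2 with h | ⟨h, -⟩ | ⟨-, h, -⟩
    · exact Or.inl h
    · exact absurd h (by decide)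
    · exact (hzero j hj h).elim
  have hmin2 : ∀ j, j ≤ K1 → V.C3Min 1 (fun _ _ _ => True) lt ((false, V.pos false j), 2)
      (c3t false) := by
    intro j hj y' x'' b1 b2 _
    rcases c3_tight2 rfl (V.qsys.mv_iff.1 b1) b2 with h | ⟨h, -⟩ | ⟨-, h, -⟩
    · exact Or.inl h
    · exact absurd h (by decide)
    · exact (hzero j hj h).elim
  obtain ⟨K, rfl⟩ : ∃ K, K1 = K + 1 := ⟨K1 - 1, by omega⟩
  obtain ⟨w2, d1, d2, d3⟩ := c3_line hc 1 false 0 K (P := fun _ _ _ => True) (lt := lt)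
    (fun j _ hj => hmin1 j (by omega)) (fun j _ hj => hmin2 j (by omega))
  rw [Nat.zero_add] at d1 d3
  obtain ⟨e1, e2⟩ := c3_side hc 1 false K (hmin1 K (by omega))
  have m0 : V.qF 1 ((false, V.pos false 0), 1) = V.qF 1 ((true, V.pos true 0), 1) + 1 := by
    rw [c3F_L1, c3F_R1]
    rfl
  have f1 : LocRun V.qsys.mv (V.qF 1) (fun _ _ _ => True) lt ((true, V.pos true 0), 1)
      (lA' :: (w2 ++ replicate (V.len K false) (c3u false)))
      ((false, V.pos false (K + 1)), 2) := by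
    refine ⟨_, rRL 0, m0, ?_, d1.append e1⟩
    intro y' x'' b1 b2 _
    rcases c3_tight1 rfl (V.qsys.mv_iff.1 b1) b2 with h | ⟨-, -, h, -⟩ | ⟨h, -⟩
    · right
      rw [h]
      exact hlt
    · exact Or.inl h
    · exact absurd h (by decide)
  have f2 : kap V.qsys.mv κ ((true, V.pos true 0), 1)
      (lA' :: (w2 ++ replicate (V.len K false) (c3u false))) = 0 := by
    rw [kap_cons (rRL 0), kRL, kap_append d1.tight.spec.1, d2, e2]
    rfl
  -- the rest of the second word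
  obtain ⟨g1, g2, g3⟩ := c3_turn hc 1 false (K + 1)
  obtain ⟨w3, i1, i2⟩ := c3_no 1 false (K + 1) 2 hc
  obtain ⟨w4, j1, j2⟩ := c3_no 1 true (K + 1 + 2) (K + 1) hc
  have m3 : V.qF 1 ((true, V.pos true (K + 1 + 2)), 1) =
      V.qF 1 ((false, V.pos false (K + 1 + 2)), 1) + 1 := by
    rw [c3F_L1, c3F_R1]
    have := hoff (K + 1 + 2)
    push_cast
    linarith
  have t2 : TightRun V.qsys.mv (V.qF 1) ((false, V.pos false (K + 1)), 2)
      (c3t false :: (w3 ++ (lA :: w4))) ((true, V.pos true (K + 1 + 2 + (K + 1))), 1) :=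
    ⟨_, g1, g2, i1.append ⟨_, rLR _, m3, j1⟩⟩
  have k2 : kap V.qsys.mv κ ((false, V.pos false (K + 1)), 2)
      (c3t false :: (w3 ++ (lA :: w4))) = (K + 1 + 2 : ℕ) := by
    rw [kap_cons g1, g3, kap_append i1.spec.1, i2, kap_cons (rLR _), hc.lr, j2]
    ring
  have e5 : K + 1 + 2 + (K + 1) = K + 1 + (K + 1 + 2) := by ring
  rw [e5] at t2
  refine diverge_of_locRun S hc.vval (by omega) le_rfl (by omega) (c3_hyp hl) hF hH
    (c := [lA]) (by simp) a1 t1 ?_ f1 t2 ?_ (by rw [run_cons_some]; exact ⟨_, rLR _, rfl⟩) ?_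
    (g := eval l 2 3 [lA', lB']) ⟨[lA', lB'], le_rfl, rfl⟩ (h := ((K + 1 : ℕ) : ℤ)) ?_ ?_
  · rw [kap_append a1.tight.spec.1, a2, k1, V.c3H_fr _ (V.isRung_pos false _),
      V.c3H_tr _ (V.isRung_pos true _)]
    simp
  · have h5 : V.pos true 0 = 0 := rfl
    have h6 : V.pos false 0 = 0 := rfl
    have h7 := V.pos_succ false K
    rw [List.length_cons, List.length_append, List.length_replicate]
    omega
  · rw [kap_append a1.tight.spec.1, a2, k1, kap_append f1.tight.spec.1, f2, k2,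
      kap_cons (rLR _), hc.lr, kap_nil]
    push_cast
    ring
  · rw [abs_of_nonneg (by positivity)]
    exact_mod_cast hN
  · rw [f2, a2, sub_zero, zpow_zero, mul_one]
    have s1 := hc.vval.step _ _ _ (rLR (K + 1))
    have s2 := hc.vval.step _ _ _ g1
    rw [g3, zpow_zero, mul_one] at s2
    rw [hc.lr] at s1
    rw [← s2] at s1
    have s3 : eval l 2 3 [lA', lB'] = (eval l 2 3 [lA])⁻¹ * (eval l 2 3 [lB])⁻¹ := by
      rw [eval_cons, ← eval_flip, ← eval_flip]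
      rfl
    have s4 : eval l 2 3 [c3t false] = eval l 2 3 [lB] := rfl
    rw [s4] at s1
    have s5 : val ((false, V.pos false (K + 1)), 2) = val ((true, V.pos true (K + 1)), 1) *
        (genB l 2 3 ^ 3) ^ ((K + 1 : ℕ) : ℤ) * (eval l 2 3 [lA])⁻¹ * (eval l 2 3 [lB])⁻¹ := by
      rw [← s1]
      group
    have s6 : ∀ g : E l 2 3, (genB l 2 3 ^ 3) ^ ((K + 1 : ℕ) : ℤ) * g =
        g * (genB l 2 3 ^ 3) ^ ((K + 1 : ℕ) : ℤ) := fun g => Pool.Agent.SLE.zpow_comm g _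
    rw [s3, s5, ← s6 ((eval l 2 3 [lA])⁻¹ * (eval l 2 3 [lB])⁻¹)]
    simp only [mul_assoc, inv_mul_cancel_left]

end CLad

/-- The difference of the sides (left minus right). -/
def c3D (l K k : ℕ) : ℤ :=
  if l % 2 = 0 then (if k = K then -2 else 0)
  else if k ≤ K then (if k % 2 = 0 then -1 else 1) else (if k % 2 = 0 then 1 else -1)

/-- The ladder. -/
def c3Lad {l : ℕ} (hl : 7 ≤ l) (K : ℕ) : CLad l where
  len k σ := (((l : ℤ) - 2 + (if σ then -1 else 1) * c3D l K k) / 2).toNat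
  two := by
    intro k σ
    unfold c3D
    split_ifs <;> omega
  tot := by
    intro k
    unfold c3D
    simp only [if_true, Bool.false_eq_true, if_false]
    split_ifs <;> omega

theorem c3_off_succ {l : ℕ} (hl : 7 ≤ l) (K k : ℕ) :
    (c3Lad hl K).off 1 (k + 1) = (c3Lad hl K).off 1 k + c3D l K k := by
  have h1 : ((c3Lad hl K).len k false : ℤ) - (c3Lad hl K).len k true = c3D l K k := by
    change (((((l : ℤ) - 2 + (if false then -1 else 1) * c3D l K k) / 2).toNat : ℕ) : ℤ) -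
      (((((l : ℤ) - 2 + (if true then -1 else 1) * c3D l K k) / 2).toNat : ℕ) : ℤ) = _
    unfold c3D
    simp only [if_true, Bool.false_eq_true, if_false]
    split_ifs <;> omega
  unfold CLad.off
  rw [CLad.pos_succ, CLad.pos_succ, ← h1]
  push_cast
  ring

theorem c3_off {l : ℕ} (hl : 7 ≤ l) {K : ℕ} (hK : K % 2 = 0) (k : ℕ) :
    (c3Lad hl K).off 1 k = if l % 2 = 0 then (if k ≤ K then 1 else -1)
      else if k ≤ K then (if k % 2 = 0 then 1 else 0) else (if k % 2 = 0 then -1 else 0) := by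
  induction k with
  | zero =>
    have h1 : (c3Lad hl K).off 1 0 = 1 := rfl
    rw [h1]
    simp
  | succ k ih =>
    rw [c3_off_succ, ih]
    unfold c3D
    split_ifs <;> omega

/-- `(l, 2, 3)` with `l ≥ 7`. -/
theorem notFD_c3 {l : ℕ} (hl : 7 ≤ l)
    (lt : Letter → Letter → Prop) [IsStrictTotalOrder Letter lt] : ¬ FiniteDiff l 2 3 lt := by
  have key : ∀ lt : Letter → Letter → Prop, IsStrictTotalOrder Letter lt → lt lA' lA →
      ¬ FiniteDiff l 2 3 lt := by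
    intro lt hlt0 hlt
    refine not_finiteDiff_of_diverge2 (by omega) le_rfl (by omega) (CLad.c3_hyp hl) lt 1
      (fun N => ?_)
    obtain ⟨K, hK⟩ : ∃ K, K = 2 * (N + 1) := ⟨_, rfl⟩
    have h := c3_off hl (K := K) (by omega)
    refine CLad.c3_diverge (V := c3Lad hl K) hl (K1 := K) ⟨?_, ?_⟩ (by omega) ?_ ?_
      (by omega) hlt
    · intro k hk
      rw [h]
      split_ifs <;> simp
    · intro k hk
      rw [h]
      rw [if_neg (not_le.2 hk), if_neg (not_le.2 hk)]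
      split_ifs <;> simp
    · rw [h]
      split_ifs <;> omega
    · rw [h]
      split_ifs <;> omega
  rcases trichotomous_of lt lA' lA with h1 | h1 | h1
  · exact key lt inferInstance h1
  · exact absurd h1 (by decide)
  · intro hF
    refine key (flipLt lt) inferInstance ?_ (finiteDiff_flip l 2 3 lt hF)
    exact h1

end Pool.Agent.SLE
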