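import Pool.Agent.SLE.GenLad

/-!
# The families with height gadgets: `n = 2`
-/

namespace Pool.Agent.SLE

open List G3 VLad

/-- The number of Q-cells below the rung `k`. -/
def dQ (m k : ℕ) : ℕ := if m % 2 = 0 then (k + 1) / 2 else (k + 3) / 4

/-- The change of the offset at the Q-cell number `q`. -/
def dS (l J q : ℕ) : ℤ :=
  if l % 2 = 0 then (if q = 2 * J + 1 then 2 else 0)
  else if q ≤ 2 * J then (if q % 2 = 0 then 1 else -1)
  else (if q % 2 = 1 then 1 else -1)

/-- The change of the offset at the cell `k`. -/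
def dD (l m J k : ℕ) : ℤ :=
  if k % 2 = 1 ∨ (m % 2 = 1 ∧ k % 4 = 2) then 0 else dS l J (dQ m k)

/-- The sum of the changes at the first Q-cells. -/
def dO (l J q : ℕ) : ℤ :=
  if l % 2 = 0 then (if q ≤ 2 * J + 1 then 0 else 2)
  else if q ≤ 2 * J + 1 then (if q % 2 = 1 then 1 else 0)
  else (if q % 2 = 0 then 2 else 1)

theorem dO_succ (l J q : ℕ) : dO l J (q + 1) = dO l J q + dS l J q := by
  unfold dO dS
  split_ifs <;> omega

theorem dS_abs (l J q : ℕ) : |dS l J q| ≤ 2 ∧ (l % 2 = 1 → |dS l J q| ≤ 1) ∧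
    ((l : ℤ) + dS l J q) % 2 = 0 := by
  unfold dS
  rw [abs_le, abs_le]
  split_ifs <;> omega

theorem ldata_D {l m : ℕ} (hl : 5 ≤ l) (hm : 3 ≤ m) (J : ℕ) :
    LData l m 2 (patC m 0) (dD l m J) := by
  have hlet : ∀ k, k % 2 = 0 → ((m % 2 = 1 ∧ k % 4 = 2) ∧ patC m 0 k = lB) ∨
      (¬ (m % 2 = 1 ∧ k % 4 = 2) ∧ patC m 0 k = lA) := by
    intro k hk
    by_cases h : m % 2 = 1 ∧ k % 4 = 2
    · left
      refine ⟨h, ?_⟩
      simp [patC, h.1, h.2]
    · right
      refine ⟨h, ?_⟩
      unfold patC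
      split_ifs <;> first | rfl | omega
  refine LData.of_patC (by omega) (Or.inl rfl) ?_ ?_ ?_
  · intro k hk
    unfold dD
    rw [if_pos (Or.inl hk)]
  · intro k hk
    unfold dD
    rcases hlet k hk with ⟨h1, h2⟩ | ⟨h1, h2⟩
    · rw [if_pos (Or.inr h1), h2, abs_zero]
      exact le_rfl
    · rw [if_neg (by omega), h2]
      have h3 := (dS_abs l J (dQ m k)).1
      change _ ≤ (l : ℤ) - 2
      omega
  · intro k hk
    unfold dD
    rcases hlet k hk with ⟨h1, h2⟩ | ⟨h1, h2⟩
    · rw [if_pos (Or.inr h1), h2]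
      change (((2 : ℕ) : ℤ) + 0) % 2 = 0
      omega
    · rw [if_neg (by omega), h2]
      exact (dS_abs l J (dQ m k)).2.2

section Lad

variable {l m : ℕ} (hl : 5 ≤ l) (hm : 3 ≤ m) (J : ℕ)

/-- The ladder. -/
def ladD : VLad l m 2 := gLad (ldata_D hl hm J)

theorem ladD_off (k : ℕ) : (ladD hl hm J).off (-1) k = -1 + dO l J (dQ m k) := by
  induction k with
  | zero =>
    have h1 : dQ m 0 = 0 := by
      unfold dQ
      split_ifs <;> rfl
    have h0 : (ladD hl hm J).off (-1) 0 = -1 := rfl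
    rw [h1, h0]
    unfold dO
    split_ifs <;> first | omega | contradiction
  | succ k ih =>
    have h1 : (ladD hl hm J).off (-1) (k + 1) = (ladD hl hm J).off (-1) k + dD l m J k :=
      gLad_off _ _ _
    rw [h1, ih]
    unfold dD
    by_cases h2 : k % 2 = 1 ∨ (m % 2 = 1 ∧ k % 4 = 2)
    · have h3 : dQ m (k + 1) = dQ m k := by
        unfold dQ
        split_ifs <;> omega
      rw [if_pos h2, h3, add_zero]
    · have h3 : dQ m (k + 1) = dQ m k + 1 := by
        unfold dQ
        split_ifs <;> omega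
      rw [if_neg h2, h3, dO_succ]
      ring

/-- The cells. -/
theorem ladD_cells (k : ℕ) (σ : Bool) :
    (k % 2 = 1 ∧ (ladD hl hm J).len k σ = m - 1 ∧ ((ladD hl hm J).c k = lA' ∨
      ((ladD hl hm J).c k = lB' ∧ m % 2 = 1))) ∨
    (m % 2 = 1 ∧ k % 4 = 2 ∧ (ladD hl hm J).len k σ = 0 ∧ (ladD hl hm J).c k = lB) ∨
    (k % 2 = 0 ∧ ¬ (m % 2 = 1 ∧ k % 4 = 2) ∧ (ladD hl hm J).c k = lA ∧
      1 ≤ (ladD hl hm J).len k σ ∧ (7 ≤ l → 2 ≤ (ladD hl hm J).len k σ)) := by
  have h1 := gLen_true (ldata_D hl hm J) k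
  have h2 := gLen_false (ldata_D hl hm J) k
  change 2 * ((ladD hl hm J).len k true : ℤ) = _ at h1
  change 2 * ((ladD hl hm J).len k false : ℤ) = _ at h2
  change _ ∨ _ ∨ _
  have hc : (ladD hl hm J).c k = patC m 0 k := rfl
  rw [hc]
  by_cases hk : k % 2 = 1
  · left
    have h3 : dD l m J k = 0 := by
      unfold dD
      rw [if_pos (Or.inl hk)]
    have h4 : patC m 0 k = lA' ∨ (patC m 0 k = lB' ∧ m % 2 = 1) := by
      unfold patC
      split_ifs
      · omega
      · exact Or.inl rfl
      · omega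
      · exact Or.inl rfl
      · omega
      · exact Or.inr ⟨rfl, by omega⟩
    have h5 : fper l m 2 (patC m 0 k) = 2 * m := by
      rcases h4 with h | ⟨h, -⟩ <;> rw [h] <;> rfl
    rw [h3, h5] at h1 h2
    refine ⟨hk, ?_, h4⟩
    cases σ
    · push_cast at h2
      omega
    · push_cast at h1
      omega
  · right
    by_cases hk2 : m % 2 = 1 ∧ k % 4 = 2
    · left
      have h3 : dD l m J k = 0 := by
        unfold dD
        rw [if_pos (Or.inr hk2)]
      have h4 : patC m 0 k = lB := by simp [patC, hk2.1, hk2.2]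
      rw [h3, h4] at h1 h2
      refine ⟨hk2.1, hk2.2, ?_, h4⟩
      change _ = ((2 : ℕ) : ℤ) - 2 - 0 at h1
      change _ = ((2 : ℕ) : ℤ) - 2 + 0 at h2
      cases σ <;> omega
    · right
      have h3 : dD l m J k = dS l J (dQ m k) := by
        unfold dD
        rw [if_neg (by omega)]
      have h4 : patC m 0 k = lA := by
        unfold patC
        split_ifs <;> first | rfl | omega
      rw [h3, h4] at h1 h2
      change _ = (l : ℤ) - 2 - _ at h1
      change _ = (l : ℤ) - 2 + _ at h2
      have h5 := dS_abs l J (dQ m k)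
      rw [abs_le, abs_le] at h5
      refine ⟨by omega, hk2, h4, ?_, ?_⟩
      · cases σ <;> omega
      · intro h7
        cases σ <;> omega

theorem ladD_P (k : ℕ) (σ : Bool) (hc : ((ladD hl hm J).c k).2 = false) :
    (ladD hl hm J).len k σ = m - 1 := by
  rcases ladD_cells hl hm J k σ with h | h | h
  · exact h.2.1
  · rw [h.2.2.2] at hc
    exact absurd hc (by decide)
  · rw [h.2.2.1] at hc
    exact absurd hc (by decide)

theorem ladD_zero (k : ℕ) (σ : Bool) (h0 : (ladD hl hm J).len k σ = 0) :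
    m % 2 = 1 ∧ k % 4 = 2 ∧ (ladD hl hm J).c k = lB := by
  rcases ladD_cells hl hm J k σ with h | h | h
  · omega
  · exact ⟨h.1, h.2.1, h.2.2.2⟩
  · omega

theorem ladD_even (k : ℕ) (hc : ((ladD hl hm J).c k).2 = true) : k % 2 = 0 := by
  rcases ladD_cells hl hm J k true with h | h | h
  · rcases h.2.2 with h1 | ⟨h1, -⟩ <;> rw [h1] at hc <;> exact absurd hc (by decide)
  · omega
  · exact h.1

theorem ladD_good : (ladD hl hm J).Good := by
  refine (ladD hl hm J).good_of (by omega) le_rfl ?_ ?_ ?_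
  · intro k σ hc
    rw [ladD_P hl hm J k σ hc]
    omega
  · intro k σ _ h0
    rw [(ladD_zero hl hm J k σ h0).2.2]
    change 4 ≤ l
    omega
  · intro k σ hc h0 h1
    exfalso
    have h2 := ladD_even hl hm J k hc
    have h3 : (ladD hl hm J).len (k + 1) σ = m - 1 := by
      rcases ladD_cells hl hm J (k + 1) σ with h | h | h <;> omega
    omega

theorem ladD_cov (h : m = 4 ∨ (m = 3 ∧ 7 ≤ l)) {σ : Bool} {i : ℕ}
    (hu : psz l 2 ((ladD hl hm J).u σ i) = l) : ¬ (ladD hl hm J).cov σ i := by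
  rcases h with h | ⟨-, h⟩
  · have h2 : ∀ i, (ladD hl hm J).capR σ i ≠ 2 := by
      intro i hc
      unfold capR at hc
      split_ifs at hc with h1 h2
      · omega
      · obtain ⟨k, -, -, hl0, -⟩ := (ladD hl hm J).double_rung (ladD_good hl hm J).hP h2.1 h2.2.1
        have := (ladD_zero hl hm J k σ hl0).1
        omega
    rintro (h3 | ⟨i', -, h3⟩)
    · have h4 := h2 i
      unfold capR at h3 h4
      split_ifs at h3 h4 with h5 h6
      · omega
      · exact h4 rfl
      · omega
    · exact h2 i' h3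
  · exact (ladD hl hm J).not_cov (by omega)

theorem ladD_short (h : 4 ≤ m ∨ (7 ≤ l ∧ m = 3)) : (ladD hl hm J).PShort := by
  by_cases h5 : 5 ≤ m
  · refine (ladD hl hm J).pshort_of_five (ladD_good hl hm J) h5 ?_ (Or.inl (by omega))
    intro k σ hc
    rw [ladD_P hl hm J k σ hc]
    omega
  · refine (ladD hl hm J).pshort_inner ?_ ?_ ?_
    · intro k σ hc
      rw [ladD_P hl hm J k σ hc]
      omega
    · rintro σ i h1 h2 h3 ⟨h4, h6⟩
      have hcov : ∀ i, psz l 2 ((ladD hl hm J).u σ i) = l → ¬ (ladD hl hm J).cov σ i :=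
        fun i => ladD_cov hl hm J (by omega)
      rcases (ladD hl hm J).vertex_cases (ladD_good hl hm J).hP σ i with h7 | h7 | h7 | h7 | h7
      · exact h7.1 h1
      · exact h7.1 h1
      · exact h7.2.1 h2
      · by_cases h8 : ((ladD hl hm J).u σ i).1 = 0
        · exact hcov i (by unfold psz; rw [if_pos h8]) h4
        · refine hcov (i + 1) ?_ h6
          rw [h7.2.2.1]
          unfold oth psz
          simp only [h8, if_false, if_true]
      · exact h3 h7.2.2.1
    · rcases h with h | ⟨h, h6⟩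
      · exact Or.inl h
      · right
        refine ⟨h6, fun k σ hc => ?_⟩
        have h8 := ladD_even hl hm J k hc
        rcases ladD_cells hl hm J k σ with h7 | h7 | h7 <;> omega

theorem ladD_tame (h : 4 ≤ m ∨ (7 ≤ l ∧ m = 3)) : (ladD hl hm J).Tame := by
  refine (ladD hl hm J).tame_of (ladD_good hl hm J) (by omega) (ladD_short hl hm J h) ?_ ?_ ?_
  · intro k σ hc h0 h1
    exfalso
    have h2 := ladD_even hl hm J k hc
    have h3 : (ladD hl hm J).len (k + 1) σ = m - 1 := by
      rcases ladD_cells hl hm J (k + 1) σ with h | h | h <;> omega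
    omega
  · rcases ladD_cells hl hm J 0 true with h7 | h7 | h7
    · omega
    · omega
    · rw [h7.2.2.1]
  · intro σ h0
    have := (ladD_zero hl hm J 0 σ h0).2.1
    omega

theorem ladD_gad (σ : Bool) (k : ℕ) :
    (ladD hl hm J).gad σ ((ladD hl hm J).pos σ k) = m / 2 * (k / 2) := by
  induction k with
  | zero => rfl
  | succ k ih =>
    rw [pos_succ]
    rcases ladD_cells hl hm J k σ with h | h | h
    · have h1 : (k + 1) / 2 = k / 2 + 1 := by omega
      rw [h1, Nat.mul_add, Nat.mul_one, ← ih]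
      rcases h.2.2 with h2 | ⟨h2, h3⟩
      · rw [(ladD hl hm J).gad_lA' rfl σ k h2 le_rfl, h.2.1]
        omega
      · rw [(ladD hl hm J).gad_lB' rfl σ k h2 le_rfl, h.2.1]
        omega
    · rw [(ladD hl hm J).gad_pos σ k (by rw [h.2.2.2]) le_rfl, ih]
      congr 1
      omega
    · rw [(ladD hl hm J).gad_pos σ k (by rw [h.2.2.1]) le_rfl, ih]
      congr 1
      omega

/-- The potential. -/
noncomputable def psiD (k : ℕ) : ℤ :=
  (ladD hl hm J).gad false ((ladD hl hm J).pos false k) - (ladD hl hm J).hgt k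

theorem psiD_succ (k : ℕ) : psiD hl hm J k ≤ psiD hl hm J (k + 1) ∧
    (k % 4 = 2 → m % 2 = 1 → psiD hl hm J k + 1 ≤ psiD hl hm J (k + 1)) ∧
    (k % 2 = 1 → 4 ≤ m → psiD hl hm J k + 1 ≤ psiD hl hm J (k + 1)) := by
  unfold psiD
  rw [ladD_gad, ladD_gad]
  have hh : (ladD hl hm J).hgt (k + 1) = (ladD hl hm J).hgt k - fht ((ladD hl hm J).c k) := rfl
  rw [hh]
  rcases ladD_cells hl hm J k true with h | h | h
  · have h1 : (k + 1) / 2 = k / 2 + 1 := by omega
    have h2 : fht ((ladD hl hm J).c k) = -1 := by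
      rcases h.2.2 with h2 | ⟨h2, -⟩ <;> rw [h2] <;> rfl
    rw [h1, h2, Nat.mul_add, Nat.mul_one]
    generalize m / 2 * (k / 2) = X
    push_cast
    refine ⟨by omega, by omega, by omega⟩
  · have h1 : (k + 1) / 2 = k / 2 := by omega
    have h2 : fht ((ladD hl hm J).c k) = 1 := by rw [h.2.2.2]; rfl
    rw [h1, h2]
    refine ⟨by omega, by omega, by omega⟩
  · have h1 : (k + 1) / 2 = k / 2 := by omega
    have h2 : fht ((ladD hl hm J).c k) = 0 := by rw [h.2.2.1]; rfl
    rw [h1, h2]
    refine ⟨by omega, by omega, by omega⟩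

theorem psiD_mono {k k' : ℕ} (h : k ≤ k') : psiD hl hm J k ≤ psiD hl hm J k' := by
  induction h with
  | refl => exact le_rfl
  | step _ ih => exact ih.trans (psiD_succ hl hm J _).1

theorem ladD_four (k : ℕ) : psiD hl hm J k + 1 ≤ psiD hl hm J (k + 4) ∧
    (ladD hl hm J).hgt k ≤ (ladD hl hm J).hgt (k + 4) := by
  constructor
  · have h0 := psiD_succ hl hm J k
    have h1 := psiD_succ hl hm J (k + 1)
    have h2 := psiD_succ hl hm J (k + 2)
    have h3 := psiD_succ hl hm J (k + 3)
    have e1 : k + 1 + 1 = k + 2 := rfl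
    have e2 : k + 2 + 1 = k + 3 := rfl
    have e3 : k + 3 + 1 = k + 4 := rfl
    rw [e1] at h1
    rw [e2] at h2
    rw [e3] at h3
    rcases (show k % 4 = 0 ∨ k % 4 = 1 ∨ k % 4 = 2 ∨ k % 4 = 3 by omega) with hk | hk | hk | hk
    all_goals rcases Nat.mod_two_eq_zero_or_one m with hm2 | hm2
    all_goals omega
  · rcases Nat.mod_two_eq_zero_or_one m with hm2 | hm2
    · rw [(ladD hl hm J).hgt_patC_even (s := 0) (fun _ => rfl) hm2,
        (ladD hl hm J).hgt_patC_even (s := 0) (fun _ => rfl) hm2]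
      omega
    · rw [(ladD hl hm J).hgt_patC_odd (fun _ => rfl) hm2,
        (ladD hl hm J).hgt_patC_odd (fun _ => rfl) hm2]
      split_ifs <;> omega

theorem ladD_four_mul (k i : ℕ) : psiD hl hm J k + i ≤ psiD hl hm J (k + 4 * i) ∧
    (ladD hl hm J).hgt k ≤ (ladD hl hm J).hgt (k + 4 * i) := by
  induction i with
  | zero => simp
  | succ i ih =>
    have h1 := ladD_four hl hm J (k + 4 * i)
    have e : k + 4 * (i + 1) = k + 4 * i + 4 := by ring
    rw [e]
    push_cast
    constructor <;> linarith [h1.1, h1.2, ih.1, ih.2]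

/-- The middle rung. -/
def midD (m J : ℕ) : ℕ := if m % 2 = 0 then 2 * (2 * J + 1) else 4 * (2 * J + 1)

theorem ladD_off_le {k : ℕ} (h : k ≤ midD m J) :
    (ladD hl hm J).off (-1) k = -1 ∨ (ladD hl hm J).off (-1) k = 0 := by
  rw [ladD_off]
  have h1 : dQ m k ≤ 2 * J + 1 := by
    unfold midD at h
    unfold dQ
    split_ifs at h ⊢ <;> omega
  unfold dO
  split_ifs <;> omega

theorem ladD_off_gt {k : ℕ} (h : midD m J < k) :
    (ladD hl hm J).off (-1) k = 0 ∨ (ladD hl hm J).off (-1) k = 1 := by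
  rw [ladD_off]
  have h1 : 2 * J + 2 ≤ dQ m k := by
    unfold midD at h
    unfold dQ
    split_ifs at h ⊢ <;> omega
  unfold dO
  split_ifs <;> omega

theorem ladD_off_mid : (ladD hl hm J).off (-1) (midD m J + 1) = 1 := by
  rw [ladD_off]
  have h1 : 2 * J + 2 = dQ m (midD m J + 1) := by
    unfold midD dQ
    split_ifs <;> omega
  rw [← h1]
  unfold dO
  split_ifs <;> omega

/-- The height potential. -/
noncomputable def HD (σ : Bool) (i : ℕ) : ℤ :=
  if σ then 0 else psiD hl hm J (midD m J) - (ladD hl hm J).gad false i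

theorem ladD_HCond : (ladD hl hm J).HCond (-1) 1 (HD hl hm J) where
  line := by
    intro σ i
    cases σ
    · have h1 : (ladD hl hm J).gad false i ≤ (ladD hl hm J).gad false (i + 1) :=
        (ladD hl hm J).gad_mono false (Nat.le_succ i)
      simp only [HD, Bool.false_eq_true, if_false]
      omega
    · exact le_rfl
  even := by
    intro σ i hE
    have hf : ∀ y : Letter, (y.1 = 0 → fht (plt y) = 0) ∧ (y.1 = 1 → fht (plt y) = 1) := by
      decide
    have hy : ((ladD hl hm J).u σ i).1 = 0 ∨ ((ladD hl hm J).u σ i).1 = 1 := by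
      generalize (ladD hl hm J).u σ i = y
      revert y
      decide
    cases σ
    · simp only [HD, Bool.false_eq_true, if_false]
      have h1 := (ladD hl hm J).gad_mono false (Nat.le_add_right i ((ladD hl hm J).capR false i))
      rcases hy with h | h
      · rw [(hf _).1 h]
        omega
      · rw [(hf _).2 h]
        have h2 : (ladD hl hm J).gad false (i + 1) = (ladD hl hm J).gad false i + 1 := by
          change (ladD hl hm J).gad false i + _ = _
          rw [if_pos ⟨hE, h⟩]
        have h3 := hE.1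
        have h4 := (ladD hl hm J).gad_mono false
          (show i + 1 ≤ i + (ladD hl hm J).capR false i by omega)
        omega
    · simp only [HD, if_true]
      rcases hy with h | h
      · rw [(hf _).1 h]
        omega
      · rw [(hf _).2 h]
        omega
  rl := by
    intro k hk
    have h1 : midD m J < k := by
      by_contra hcon
      rcases ladD_off_le hl hm J (not_lt.1 hcon) with h | h <;> omega
    have h2 := psiD_mono hl hm J h1.le
    simp only [HD, Bool.false_eq_true, if_false, if_true]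
    unfold psiD at h2 ⊢
    omega
  lr := by
    intro k hk
    have h1 : k ≤ midD m J := by
      by_contra hcon
      rcases ladD_off_gt hl hm J (not_le.1 hcon) with h | h <;> omega
    have h2 := psiD_mono hl hm J h1
    simp only [HD, Bool.false_eq_true, if_false, if_true]
    unfold psiD at h2 ⊢
    omega

theorem ladD_not_mid (σ : Bool) (i : ℕ) : ¬ (ladD hl hm J).Mid σ i := by
  rintro ⟨i', -, hE, hc⟩
  rcases even_psz hE with h | h
  · have := hE.2
    omega
  · unfold psz at h
    split_ifs at h <;> omega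

end Lad

/-- The case `b < B`. -/
theorem notFD_n2_aux {l m : ℕ} (h : (5 ≤ l ∧ 4 ≤ m) ∨ (7 ≤ l ∧ m = 3))
    (lt : Letter → Letter → Prop) [IsStrictTotalOrder Letter lt] (hlt : lt lB lB') :
    ¬ FiniteDiff l m 2 lt := by
  have hl : 5 ≤ l := by omega
  have hm : 3 ≤ m := by omega
  have hyp : (1 / l + 1 / m + 1 / (2 : ℕ) : ℚ) < 1 := by
    rcases h with ⟨h1, h2⟩ | ⟨h1, h2⟩
    · have e1 := inv_le (a := 5) (b := l) (by norm_num) h1
      have e2 := inv_le (a := 4) (b := m) (by norm_num) h2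
      push_cast at e1 e2 ⊢
      linarith
    · have e1 := inv_le (a := 7) (b := l) (by norm_num) h1
      subst h2
      push_cast at e1 ⊢
      linarith
  apply not_finiteDiff_of_diverge2 (by omega) (by omega) le_rfl hyp lt 1
  intro J
  set V := ladD hl hm J with hV
  have hT : V.Tame := ladD_tame hl hm J (by omega)
  obtain ⟨val, κ, hc⟩ := V.exists_cval' hT.toGood (by omega) hyp
  set K1 := midD m J with hK1
  set g := V.gad true (V.pos true K1) with hg
  have hg1 : g = m / 2 * (K1 / 2) := ladD_gad hl hm J true K1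
  have hKJ : 2 * J + 1 ≤ K1 / 2 := by
    rw [hK1]
    unfold midD
    split_ifs <;> omega
  have hm2 : 1 ≤ m / 2 := by omega
  have hgJ : J < g := by
    rw [hg1]
    calc J < 2 * J + 1 := by omega
      _ ≤ K1 / 2 := hKJ
      _ = 1 * (K1 / 2) := (Nat.one_mul _).symm
      _ ≤ m / 2 * (K1 / 2) := Nat.mul_le_mul_right _ hm2
  set K2 := K1 + 1 + 4 * g with hK2
  have hpsi := ladD_four_mul hl hm J (K1 + 1) g
  have hmid := ladD_not_mid hl hm J
  have hoff := ladD_off_mid hl hm J
  rw [← hV, ← hK2] at hpsi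
  rw [← hV] at hmid
  rw [← hV, ← hK1] at hoff
  -- the number of caps on the left line
  obtain ⟨t, ht⟩ : ∃ t : ℕ, (t : ℤ) = g + V.hgt K2 - V.hgt (K1 + 1) :=
    ⟨((g : ℤ) + V.hgt K2 - V.hgt (K1 + 1)).toNat, by
      rw [Int.toNat_of_nonneg]
      linarith [hpsi.2]⟩
  have hpos2 : V.pos false (K1 + 1) ≤ V.pos false K2 := V.pos_mono false (by omega)
  obtain ⟨d, hd⟩ : ∃ d, V.pos false K2 = V.pos false (K1 + 1) + d := ⟨_, (Nat.add_sub_cancel' hpos2).symm⟩
  have htg : t + V.gad false (V.pos false (K1 + 1)) ≤ V.gad false (V.pos false (K1 + 1) + d) := by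
    rw [← hd]
    have h1 := hpsi.1
    unfold psiD at h1
    rw [← hV] at h1
    omega
  -- the words
  obtain ⟨r1, k1⟩ := line_tight hc (-1) true 0 (V.pos true K2)
  obtain ⟨w2, hw2len, hw2, k2⟩ := line_loc (lt := lt) hT hc (-1) true 0 (V.pos true K1) (hmid _ _)
    (hmid _ _) 1 (by
      intro j hj h1
      left
      refine ⟨rfl, ?_⟩
      have h2 : V.isP true j := (V.even_two rfl h1).1 hj
      have h3 : V.u true j = lB' := Prod.ext h1 h2
      rw [h3]
      exact hlt) (by
      intro k _ hk hk2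
      exfalso
      rw [Nat.zero_add] at hk
      have h1 : k ≤ K1 := by
        by_contra hcon
        have := V.pos_mono true (show K1 ≤ k by omega)
        omega
      rw [if_pos rfl] at hk2
      rcases ladD_off_le hl hm J h1 with h2 | h2
      · rw [hV, h2] at hk2
        exact absurd hk2 (by decide)
      · rw [hV, h2] at hk2
        exact absurd hk2 (by decide))
  obtain ⟨r3, k3⟩ := line_tight hc (-1) true (V.pos true K1) (V.len K1 true)
  rw [← pos_succ] at r3
  obtain ⟨r4, k4⟩ := cross_rl hc (-1) (K1 + 1) hoff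
  obtain ⟨w5, r5, k5⟩ := line_tight_left hc (-1) (by
    intro i hi h1
    have h2 := hi.2
    have h3 : psz l 2 (V.u false i) = 2 := by
      unfold psz
      rw [h1, if_neg (by decide)]
    omega) (V.pos false (K1 + 1)) d t htg
  rw [← hd] at r5
  rw [Nat.zero_add] at r1 hw2 k2
  have hadj : (V.csys hT.toGood).mv (Sum.inl (true, V.pos true K2)) (flip (V.c K2)) =
      some (Sum.inl (false, V.pos false K2)) :=
    (V.csys hT.toGood).mv_iff.2 (Att.Adj.old (VLad.Adj.rl K2))
  have hrun : run (V.csys hT.toGood).mv (Sum.inl (true, V.pos true K2)) [flip (V.c K2)] =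
      some (Sum.inl (false, V.pos false K2)) := (run_cons_some _).2 ⟨_, hadj, rfl⟩
  have kc : kap (V.csys hT.toGood).mv κ (Sum.inl (true, V.pos true K2)) [flip (V.c K2)] =
      -V.hgt K2 := by
    rw [kap_cons hadj, hc.rl, kap_nil, add_zero]
  have r45 := r3.append (r4.append r5)
  have k45 := kap_append (κ := κ) (w' := [flip (V.c (K1 + 1))] ++ w5) r3.spec.1
  have k5' := kap_append (κ := κ) (w' := w5) r4.spec.1
  have k2' := kap_append (κ := κ) (w' := V.lword true (V.pos true K1) (V.len K1 true) ++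
    ([flip (V.c (K1 + 1))] ++ w5)) hw2.tight.spec.1
  rw [k5', k3, k4, k5] at k45
  rw [k45, k2] at k2'
  have hg0 : V.gad true 0 = 0 := rfl
  have hlenK : V.pos true K1 ≤ V.pos true K2 := V.pos_mono true (by omega)
  refine master hT (by omega) hyp hc (τ := true) (K := K1) (i1 := V.pos true K1)
    (i0 := V.pos true K1 + 1) (ε := 1) ?_ (Or.inl rfl) (ladD_HCond hl hm J) r1 ?_ hw2 r45 hrun
    le_rfl ?_ ?_ ?_ (Or.inl rfl) (hmid _ _) (hmid _ _) ?_ ?_
  · intro k
    rw [abs_le]
    rcases le_or_gt k K1 with h1 | h1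
    · rcases ladD_off_le hl hm J h1 with h2 | h2 <;> rw [← hV] at h2 <;> rw [h2] <;> norm_num
    · rcases ladD_off_gt hl hm J h1 with h2 | h2 <;> rw [← hV] at h2 <;> rw [h2] <;> norm_num
  · rw [k1]
    simp [HD]
  · rw [k1, kc]
    refine Eq.trans ?_ k2'.symm
    rw [if_pos rfl, ← hg, hg0, ht]
    push_cast
    ring
  · rw [hw2len]
    unfold lword
    rw [List.length_map, List.length_range']
    exact hlenK
  · push_cast
    ring
  · rw [k2, if_pos rfl, if_pos rfl, ← hg, hg0]
    simp only [HD, if_true]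
    rw [abs_of_nonneg (by push_cast; omega)]
    push_cast
    omega
  · rw [k2, if_pos rfl, if_pos rfl, ← hg, hg0]
    simp only [HD, Bool.false_eq_true, if_false, if_true]
    have h1 : V.gad false (V.pos false K1) ≤ V.gad false (V.pos true K1 + 1) := by
      apply V.gad_mono
      rcases ladD_off_le hl hm J (le_refl K1) with h2 | h2 <;> rw [← hV] at h2 <;>
        unfold VLad.off at h2 <;> omega
    have h3 : psiD hl hm J (midD m J) = V.gad false (V.pos false K1) - V.hgt K1 := rfl
    rw [h3, ← hV, abs_of_nonneg (by push_cast; omega)]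
    push_cast
    omega

/-- `(l, m, 2)` with `l ≥ 5`, `m ≥ 4`, or `l ≥ 7`, `m = 3`. -/
theorem notFD_n2 {l m : ℕ} (h : (5 ≤ l ∧ 4 ≤ m) ∨ (7 ≤ l ∧ m = 3))
    (lt : Letter → Letter → Prop) [IsStrictTotalOrder Letter lt] : ¬ FiniteDiff l m 2 lt := by
  rcases trichotomous_of lt lB lB' with h1 | h1 | h1
  · exact notFD_n2_aux h lt h1
  · exact absurd h1 (by decide)
  · intro hF
    refine notFD_n2_aux h (flipLt lt) ?_ (finiteDiff_flip l m 2 lt hF)
    exact h1

end Pool.Agent.SLE
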