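import Pool.Agent.SLE.Master
import Pool.Agent.SLE.FamA

/-!
# The family `(4, m, 2)`
-/

namespace Pool.Agent.SLE

open List G3

/-- The type of the rung `k`: `0, 1, 2, 3` for the letters `a, A, b, B`. -/
def d4P (m J k : ℕ) : ℕ :=
  if m % 2 = 0 then (if k ≤ 4 * J + 1 then k % 2 else k % 2 + 2)
  else (if k ≤ 4 * J + 1 then k % 4 else (k + 2) % 4)

/-- The letter of a type. -/
def d4L (p : ℕ) : Letter :=
  if p = 0 then lA else if p = 1 then lA' else if p = 2 then lB else lB'

/-- The numbers of edges of the cells on the lines. -/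
def d4Len (m J k : ℕ) (σ : Bool) : ℕ :=
  if d4P m J k = 0 then 1 else if d4P m J k = 2 then 0
  else if k = 4 * J + 1 then (if σ then m - 2 else m) else m - 1

theorem d4P_el {m J k : ℕ} (hm : m % 2 = 0) (hk : k ≤ 4 * J + 1) : d4P m J k = k % 2 := by
  unfold d4P
  rw [if_pos hm, if_pos hk]

theorem d4P_eg {m J k : ℕ} (hm : m % 2 = 0) (hk : 4 * J + 1 < k) : d4P m J k = k % 2 + 2 := by
  unfold d4P
  rw [if_pos hm, if_neg (by omega)]

theorem d4P_ol {m J k : ℕ} (hm : m % 2 = 1) (hk : k ≤ 4 * J + 1) : d4P m J k = k % 4 := by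
  unfold d4P
  rw [if_neg (by omega), if_pos hk]

theorem d4P_og {m J k : ℕ} (hm : m % 2 = 1) (hk : 4 * J + 1 < k) :
    d4P m J k = (k + 2) % 4 := by
  unfold d4P
  rw [if_neg (by omega), if_neg (by omega)]

theorem d4P_zero {m J k : ℕ} (h : d4P m J k = 0) : d4P m J (k + 1) = 1 := by
  rcases Nat.mod_two_eq_zero_or_one m with hm | hm
  · rcases Nat.lt_or_ge (4 * J + 1) k with hk | hk
    · rw [d4P_eg hm hk] at h
      omega
    · rw [d4P_el hm hk] at h
      rw [d4P_el hm (by omega)]
      omega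
  · rcases Nat.lt_or_ge (4 * J + 1) k with hk | hk
    · rw [d4P_og hm hk] at h
      rw [d4P_og hm (by omega)]
      omega
    · rw [d4P_ol hm hk] at h
      rw [d4P_ol hm (by omega)]
      omega

theorem d4P_two {m J k : ℕ} (h : d4P m J k = 2) : d4P m J (k + 1) = 3 := by
  rcases Nat.mod_two_eq_zero_or_one m with hm | hm
  · rcases Nat.lt_or_ge (4 * J + 1) k with hk | hk
    · rw [d4P_eg hm hk] at h
      rw [d4P_eg hm (by omega)]
      omega
    · rw [d4P_el hm hk] at h
      omega
  · rcases Nat.lt_or_ge (4 * J + 1) k with hk | hk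
    · rw [d4P_og hm hk] at h
      rw [d4P_og hm (by omega)]
      omega
    · rw [d4P_ol hm hk] at h
      rw [d4P_ol hm (by omega)]
      omega

theorem d4P_one {m J k : ℕ} (h : d4P m J k = 1) (hk : k ≠ 4 * J + 1) :
    d4P m J (k + 1) = 2 * (m % 2) := by
  rcases Nat.mod_two_eq_zero_or_one m with hm | hm
  · rcases Nat.lt_or_ge (4 * J + 1) k with hk | hk
    · rw [d4P_eg hm hk] at h
      omega
    · rw [d4P_el hm hk] at h
      rw [d4P_el hm (by omega)]
      omega
  · rcases Nat.lt_or_ge (4 * J + 1) k with hk | hk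
    · rw [d4P_og hm hk] at h
      rw [d4P_og hm (by omega)]
      omega
    · rw [d4P_ol hm hk] at h
      rw [d4P_ol hm (by omega)]
      omega

theorem d4P_K (m J : ℕ) : d4P m J (4 * J + 1) = 1 ∧
    d4P m J (4 * J + 1 + 1) = 2 - 2 * (m % 2) := by
  rcases Nat.mod_two_eq_zero_or_one m with hm | hm
  · rw [d4P_el hm le_rfl, d4P_eg hm (by omega)]
    omega
  · rw [d4P_ol hm le_rfl, d4P_og hm (by omega)]
    omega

theorem d4P_three {m J k : ℕ} (h : d4P m J k = 3) :
    k ≠ 4 * J + 1 ∧ d4P m J (k + 1) = 2 - 2 * (m % 2) := by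
  rcases Nat.mod_two_eq_zero_or_one m with hm | hm
  · rcases Nat.lt_or_ge (4 * J + 1) k with hk | hk
    · rw [d4P_eg hm hk] at h
      rw [d4P_eg hm (by omega)]
      omega
    · rw [d4P_el hm hk] at h
      omega
  · rcases Nat.lt_or_ge (4 * J + 1) k with hk | hk
    · rw [d4P_og hm hk] at h
      rw [d4P_og hm (by omega)]
      omega
    · rw [d4P_ol hm hk] at h
      rw [d4P_ol hm (by omega)]
      omega

theorem d4P_cases (m J k : ℕ) :
    (d4P m J k = 0 ∧ d4P m J (k + 1) = 1) ∨
    (d4P m J k = 2 ∧ d4P m J (k + 1) = 3) ∨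
    (d4P m J k = 1 ∧ k ≠ 4 * J + 1 ∧ d4P m J (k + 1) = 2 * (m % 2)) ∨
    (d4P m J k = 1 ∧ k = 4 * J + 1 ∧ d4P m J (k + 1) = 2 - 2 * (m % 2)) ∨
    (d4P m J k = 3 ∧ k ≠ 4 * J + 1 ∧ d4P m J (k + 1) = 2 - 2 * (m % 2)) := by
  rcases (show d4P m J k = 0 ∨ d4P m J k = 1 ∨ d4P m J k = 2 ∨ d4P m J k = 3 by
    unfold d4P
    split_ifs <;> omega) with h | h | h | h
  · exact Or.inl ⟨h, d4P_zero h⟩
  · by_cases hk : k = 4 * J + 1
    · subst hk
      exact Or.inr (Or.inr (Or.inr (Or.inl ⟨h, rfl, (d4P_K m J).2⟩)))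
    · exact Or.inr (Or.inr (Or.inl ⟨h, hk, d4P_one h hk⟩))
  · exact Or.inr (Or.inl ⟨h, d4P_two h⟩)
  · exact Or.inr (Or.inr (Or.inr (Or.inr ⟨h, d4P_three h⟩)))

theorem d4P_lt (m J k : ℕ) : d4P m J k < 4 := by
  unfold d4P
  split_ifs <;> omega

theorem d4P_mod (m J k : ℕ) : d4P m J k % 2 = k % 2 := by
  unfold d4P
  split_ifs <;> omega

theorem d4L_fper (m p : ℕ) (hp : p < 4) : fper 4 m 2 (d4L p) =
    if p = 0 then 4 else if p = 2 then 2 else 2 * m := by
  rcases (show p = 0 ∨ p = 1 ∨ p = 2 ∨ p = 3 by omega) with rfl | rfl | rfl | rfl <;> rfl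

/-- The ladder. -/
def d4Lad {m : ℕ} (hm : 5 ≤ m) (J : ℕ) : VLad 4 m 2 where
  c k := d4L (d4P m J k)
  len := d4Len m J
  cyc := by
    intro k
    rw [d4L_fper m _ (d4P_lt m J k)]
    have h := d4P_lt m J k
    unfold d4Len
    simp only [if_true, Bool.false_eq_true, if_false]
    split_ifs <;> omega
  step := by
    intro k
    rcases d4P_cases m J k with h | h | h | h | h
    · rw [h.1, h.2]
      exact congrArg flip (VLad.nxt_iter_pos (y := lA) rfl _).symm
    · rw [h.1, h.2]
      exact congrArg flip (VLad.nxt_iter_pos (y := lB) rfl _).symm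
    · obtain ⟨h1, h2, h4⟩ := h
      have h5 : d4Len m J k true = m - 1 := by simp [d4Len, h1, h2]
      rw [h1, h4, h5]
      change _ = flip (nxt^[_] lA')
      rw [nxt_iter_lA']
      rcases Nat.mod_two_eq_zero_or_one m with hm | hm
      · rw [hm, if_pos (by omega)]
        rfl
      · rw [hm, if_neg (by omega)]
        rfl
    · obtain ⟨h1, h2, h4⟩ := h
      have h5 : d4Len m J k true = m - 2 := by
        unfold d4Len
        rw [h1, if_neg (by omega), if_neg (by omega), if_pos h2, if_pos rfl]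
      rw [h1, h4, h5]
      change _ = flip (nxt^[_] lA')
      rw [nxt_iter_lA']
      rcases Nat.mod_two_eq_zero_or_one m with hm | hm
      · rw [hm, if_neg (by omega)]
        rfl
      · rw [hm, if_pos (by omega)]
        rfl
    · obtain ⟨h1, h2, h4⟩ := h
      have h5 : d4Len m J k true = m - 1 := by simp [d4Len, h1, h2]
      rw [h1, h4, h5]
      change _ = flip (nxt^[_] lB')
      rw [nxt_iter_lB']
      rcases Nat.mod_two_eq_zero_or_one m with hm | hm
      · rw [hm, if_pos (by omega)]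
        rfl
      · rw [hm, if_neg (by omega)]
        rfl
  nz := by
    intro k σ h0
    have h := d4P_cases m J k
    have h3 : d4P m J k = 2 := by
      unfold d4Len at h0
      split_ifs at h0 <;> omega
    unfold d4Len
    split_ifs <;> omega

namespace VLad

theorem d4_gad_mono {l m n : ℕ} (V : VLad l m n) (σ : Bool) {i j : ℕ} (h : i ≤ j) :
    V.gad σ i ≤ V.gad σ j :=
  monotone_nat_of_le_succ (f := V.gad σ) (fun _ => Nat.le_add_right _ _) h

/-- The edges of P-cells with the letters `b^{±1}` have even caps with two edges. -/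
theorem d4_cap_b {l m : ℕ} (V : VLad l m 2) {σ : Bool} {i : ℕ} (h : V.isP σ i)
    (hb : (V.u σ i).1 = 1) : V.capR σ i = 1 ∧ V.Even σ i := by
  have h1 : psz l 2 (V.u σ i) = 2 := by
    unfold psz
    rw [if_neg (by rw [hb]; decide)]
  have h2 : V.capR σ i = 1 := by
    unfold capR
    rw [if_pos ⟨h, by omega⟩]
  exact ⟨h2, by rw [h2]; exact one_pos, by rw [h2, h1]⟩

/-- P-cells with at least two edges on a line have even caps. -/
theorem d4_gad_cell {l m : ℕ} (V : VLad l m 2) {σ : Bool} {k : ℕ} (hc : (V.c k).2 = false)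
    (hl : 2 ≤ V.len k σ) : V.gad σ (V.pos σ k) + 1 ≤ V.gad σ (V.pos σ (k + 1)) := by
  have h0 : ∃ j, j < 2 ∧ (V.ul k σ j).1 = 1 := by
    have h1 : ∀ y : Letter, y.2 = false →
        ((nxt^[0 + 1] y).1 = 1 ∨ (nxt^[1 + 1] y).1 = 1) := by decide
    rcases h1 _ hc with h | h
    · refine ⟨0, by omega, ?_⟩
      unfold ul
      cases σ <;> exact h
    · refine ⟨1, by omega, ?_⟩
      unfold ul
      cases σ <;> exact h
  obtain ⟨j, hj, hu⟩ := h0
  have hu' : V.u σ (V.pos σ k + j) = V.ul k σ j := V.u_eq (by omega)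
  have hP : V.isP σ (V.pos σ k + j) := (V.isP_iff (by omega)).2 hc
  have hE := (V.d4_cap_b hP (by rw [hu', hu])).2
  have h3 : V.gad σ (V.pos σ k + j + 1) = V.gad σ (V.pos σ k + j) + 1 := by
    change V.gad σ (V.pos σ k + j) + _ = _
    rw [if_pos ⟨hE, by rw [hu', hu]⟩]
  have h4 := V.d4_gad_mono σ (show V.pos σ k ≤ V.pos σ k + j by omega)
  have h5 := V.d4_gad_mono σ (show V.pos σ k + j + 1 ≤ V.pos σ (k + 1) by
    rw [pos_succ]
    omega)
  omega

theorem d4_off_succ {l m n : ℕ} (V : VLad l m n) (o0 : ℤ) (k : ℕ) :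
    V.off o0 (k + 1) = V.off o0 k + V.len k false - V.len k true := by
  unfold off
  rw [pos_succ, pos_succ]
  push_cast
  ring

/-- A middle vertex of an even cap is a double rung. -/
theorem d4_mid_rung {l m n : ℕ} (V : VLad l m n)
    (hP : ∀ k σ, (V.c k).2 = false → 0 < V.len k σ) {σ : Bool} {i : ℕ} (h : V.Mid σ i) :
    ∃ k, V.pos σ k = i ∧ V.len k σ = 0 ∧ (V.c k).2 = true ∧
      ∀ k', V.pos σ k' = i → k' = k ∨ k' = k + 1 := by
  obtain ⟨i', rfl, -, hc⟩ := h
  have h1 : V.isP σ i' ∧ V.u σ (i' + 1) = V.u σ i' := by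
    unfold capR at hc
    split_ifs at hc with h1 h2
    · omega
    · exact ⟨h2.1, h2.2.1⟩
  obtain ⟨k, hk, -, hl0, hck, -, -, -, huniq⟩ := V.double_rung hP h1.1 h1.2
  exact ⟨k, hk, hl0, hck, huniq⟩

end VLad

section D4

open VLad

variable {m : ℕ} (hm : 5 ≤ m) (J : ℕ)

theorem d4_c (k : ℕ) : (d4Lad hm J).c k = d4L (d4P m J k) := rfl

theorem d4_len (k : ℕ) (σ : Bool) : (d4Lad hm J).len k σ = d4Len m J k σ := rfl

theorem d4_false {k : ℕ} (h : ((d4Lad hm J).c k).2 = false) :
    d4P m J k = 1 ∨ d4P m J k = 3 := by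
  rw [d4_c] at h
  have h1 := d4P_lt m J k
  generalize d4P m J k = p at h h1
  rcases (show p = 0 ∨ p = 1 ∨ p = 2 ∨ p = 3 by omega) with rfl | rfl | rfl | rfl
  · exact absurd h (by decide)
  · exact Or.inl rfl
  · exact absurd h (by decide)
  · exact Or.inr rfl

theorem d4_true {k : ℕ} (h : ((d4Lad hm J).c k).2 = true) :
    d4P m J k = 0 ∨ d4P m J k = 2 := by
  rw [d4_c] at h
  have h1 := d4P_lt m J k
  generalize d4P m J k = p at h h1
  rcases (show p = 0 ∨ p = 1 ∨ p = 2 ∨ p = 3 by omega) with rfl | rfl | rfl | rfl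
  · exact Or.inl rfl
  · exact absurd h (by decide)
  · exact Or.inr rfl
  · exact absurd h (by decide)

theorem d4_P3 (k : ℕ) (σ : Bool) (h : ((d4Lad hm J).c k).2 = false) :
    3 ≤ (d4Lad hm J).len k σ := by
  have h1 := d4_false hm J h
  rw [d4_len]
  unfold d4Len
  rw [if_neg (by omega), if_neg (by omega)]
  cases σ
  · simp only [Bool.false_eq_true, if_false]
    split_ifs <;> omega
  · simp only [if_true]
    split_ifs <;> omega

theorem d4_hP (k : ℕ) (σ : Bool) (h : ((d4Lad hm J).c k).2 = false) :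
    0 < (d4Lad hm J).len k σ := by
  have := d4_P3 hm J k σ h
  omega

theorem d4_zero {k : ℕ} {σ : Bool} (h : (d4Lad hm J).len k σ = 0) : d4P m J k = 2 := by
  rw [d4_len] at h
  unfold d4Len at h
  cases σ
  · simp only [Bool.false_eq_true, if_false] at h
    split_ifs at h <;> omega
  · simp only [if_true] at h
    split_ifs at h <;> omega

theorem d4_good : (d4Lad hm J).Good := by
  refine (d4Lad hm J).good_of (by omega) le_rfl (d4_hP hm J) ?_ ?_
  · intro k σ _ h0
    rw [d4_c, d4_zero hm J h0]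
    exact le_rfl
  · intro k σ hc h0 h1
    exfalso
    have h2 : ((d4Lad hm J).c (k + 1)).2 = false := by
      rw [(d4Lad hm J).alternate, hc]
      rfl
    have := d4_P3 hm J (k + 1) σ h2
    omega

theorem d4P_at_zero : d4P m J 0 = 0 := by
  rcases Nat.mod_two_eq_zero_or_one m with h | h
  · rw [d4P_el h (by omega)]
  · rw [d4P_ol h (by omega)]

theorem d4_tame : (d4Lad hm J).Tame := by
  have hG := d4_good hm J
  refine (d4Lad hm J).tame_of hG (by omega)
    ((d4Lad hm J).pshort_of_five hG hm (d4_P3 hm J) (Or.inl le_rfl)) ?_ ?_ ?_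
  · intro k σ hc h0 h1
    exfalso
    have h2 : ((d4Lad hm J).c (k + 1)).2 = false := by
      rw [(d4Lad hm J).alternate, hc]
      rfl
    have := d4_P3 hm J (k + 1) σ h2
    omega
  · rw [d4_c, d4P_at_zero]
    rfl
  · intro σ h0
    have := d4_zero hm J h0
    rw [d4P_at_zero] at this
    omega

/-- The difference of the sides. -/
theorem d4_diff (k : ℕ) : ((d4Lad hm J).len k false : ℤ) - (d4Lad hm J).len k true =
    if k = 4 * J + 1 then 2 else 0 := by
  rw [d4_len, d4_len]
  unfold d4Len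
  simp only [Bool.false_eq_true, if_false, if_true]
  by_cases hk : k = 4 * J + 1
  · have h1 := (d4P_K m J).1
    rw [← hk] at h1
    rw [if_neg (by omega), if_neg (by omega), if_pos hk, if_neg (by omega), if_neg (by omega),
      if_pos hk, if_pos hk]
    omega
  · simp only [if_neg hk]
    rw [sub_self]

theorem d4_off_le {k : ℕ} (hk : k ≤ 4 * J + 1) : (d4Lad hm J).off (-1) k = -1 := by
  induction k with
  | zero => rfl
  | succ k ih =>
    have h1 := d4_diff hm J k
    rw [if_neg (by omega)] at h1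
    have h2 := ih (by omega)
    rw [d4_off_succ, h2]
    linarith

theorem d4_off_gt {k : ℕ} (hk : 4 * J + 1 < k) : (d4Lad hm J).off (-1) k = 1 := by
  induction k with
  | zero => omega
  | succ k ih =>
    have h1 := d4_diff hm J k
    by_cases h3 : k = 4 * J + 1
    · rw [if_pos h3] at h1
      have h2 := d4_off_le hm J h3.le
      rw [d4_off_succ, h2]
      linarith
    · rw [if_neg h3] at h1
      have h2 := ih (by omega)
      rw [d4_off_succ, h2]
      linarith

theorem d4_hgt (k : ℕ) : (d4Lad hm J).hgt (k + 1) = (d4Lad hm J).hgt k +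
    if d4P m J k = 0 then 0 else if d4P m J k = 2 then -1 else 1 := by
  change (d4Lad hm J).hgt k - fht (d4L (d4P m J k)) = _
  have h1 := d4P_lt m J k
  generalize d4P m J k = p at h1
  rcases (show p = 0 ∨ p = 1 ∨ p = 2 ∨ p = 3 by omega) with rfl | rfl | rfl | rfl
  · change _ - (0 : ℤ) = _ + (0 : ℤ)
    ring
  · change _ - (-1 : ℤ) = _ + (1 : ℤ)
    ring
  · change _ - (1 : ℤ) = _ + (-1 : ℤ)
    ring
  · change _ - (-1 : ℤ) = _ + (1 : ℤ)
    ring

/-- The number of even caps on the left line, minus the height. -/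
noncomputable def d4psi (k : ℕ) : ℤ :=
  (d4Lad hm J).gad false ((d4Lad hm J).pos false k) - (d4Lad hm J).hgt k

theorem d4psi_step (k : ℕ) : d4psi hm J k + (if d4P m J k = 2 then 1 else 0) ≤
    d4psi hm J (k + 1) := by
  unfold d4psi
  rw [d4_hgt]
  have h0 := (d4Lad hm J).d4_gad_mono false
    ((d4Lad hm J).pos_mono false (show k ≤ k + 1 by omega))
  have h1 := d4P_lt m J k
  rcases (show d4P m J k = 0 ∨ d4P m J k = 2 ∨ (d4P m J k = 1 ∨ d4P m J k = 3) by omega) with
    h | h | h
  · rw [if_neg (by omega), if_pos h]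
    omega
  · rw [if_pos h, if_neg (by omega), if_pos h]
    omega
  · have h2 : ((d4Lad hm J).c k).2 = false := by
      rw [d4_c]
      rcases h with h | h <;> rw [h] <;> rfl
    have h3 := d4_P3 hm J k false h2
    have h4 := (d4Lad hm J).d4_gad_cell h2 (show 2 ≤ (d4Lad hm J).len k false by omega)
    rw [if_neg (by omega), if_neg (by omega), if_neg (by omega)]
    omega

theorem d4psi_mono {k k' : ℕ} (h : k ≤ k') : d4psi hm J k ≤ d4psi hm J k' := by
  refine monotone_nat_of_le_succ (f := d4psi hm J) (fun k => ?_) h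
  have := d4psi_step hm J k
  split_ifs at this <;> omega

/-- Four cells above the middle. -/
theorem d4_four {k : ℕ} (hk : 4 * J + 1 < k) :
    d4psi hm J k + 1 ≤ d4psi hm J (k + 4) ∧
      (d4Lad hm J).hgt k ≤ (d4Lad hm J).hgt (k + 4) := by
  have e : k + 4 = k + 1 + 1 + 1 + 1 := rfl
  have s0 := d4psi_step hm J k
  have s1 := d4psi_step hm J (k + 1)
  have s2 := d4psi_step hm J (k + 1 + 1)
  have s3 := d4psi_step hm J (k + 1 + 1 + 1)
  rw [e, d4_hgt, d4_hgt, d4_hgt, d4_hgt]
  rcases Nat.mod_two_eq_zero_or_one m with h | h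
  · rw [d4P_eg h hk] at s0
    rw [d4P_eg h (show 4 * J + 1 < k + 1 by omega)] at s1
    rw [d4P_eg h (show 4 * J + 1 < k + 1 + 1 by omega)] at s2
    rw [d4P_eg h (show 4 * J + 1 < k + 1 + 1 + 1 by omega)] at s3
    rw [d4P_eg h hk, d4P_eg h (show 4 * J + 1 < k + 1 by omega),
      d4P_eg h (show 4 * J + 1 < k + 1 + 1 by omega),
      d4P_eg h (show 4 * J + 1 < k + 1 + 1 + 1 by omega)]
    rcases Nat.mod_two_eq_zero_or_one k with h2 | h2
    · have e1 : (k + 1) % 2 = 1 := by omega
      have e2 : (k + 1 + 1) % 2 = 0 := by omega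
      have e3 : (k + 1 + 1 + 1) % 2 = 1 := by omega
      rw [h2] at s0 ⊢
      rw [e1] at s1 ⊢
      rw [e2] at s2 ⊢
      rw [e3] at s3 ⊢
      simp only [Nat.reduceAdd, Nat.reduceEqDiff, if_true, if_false] at s0 s1 s2 s3 ⊢
      omega
    · have e1 : (k + 1) % 2 = 0 := by omega
      have e2 : (k + 1 + 1) % 2 = 1 := by omega
      have e3 : (k + 1 + 1 + 1) % 2 = 0 := by omega
      rw [h2] at s0 ⊢
      rw [e1] at s1 ⊢
      rw [e2] at s2 ⊢
      rw [e3] at s3 ⊢
      simp only [Nat.reduceAdd, Nat.reduceEqDiff, if_true, if_false] at s0 s1 s2 s3 ⊢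
      omega
  · rw [d4P_og h hk] at s0
    rw [d4P_og h (show 4 * J + 1 < k + 1 by omega)] at s1
    rw [d4P_og h (show 4 * J + 1 < k + 1 + 1 by omega)] at s2
    rw [d4P_og h (show 4 * J + 1 < k + 1 + 1 + 1 by omega)] at s3
    rw [d4P_og h hk, d4P_og h (show 4 * J + 1 < k + 1 by omega),
      d4P_og h (show 4 * J + 1 < k + 1 + 1 by omega),
      d4P_og h (show 4 * J + 1 < k + 1 + 1 + 1 by omega)]
    rcases (show k % 4 = 0 ∨ k % 4 = 1 ∨ k % 4 = 2 ∨ k % 4 = 3 by omega) with
      h2 | h2 | h2 | h2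
    · have e0 : (k + 2) % 4 = 2 := by omega
      have e1 : (k + 1 + 2) % 4 = 3 := by omega
      have e2 : (k + 1 + 1 + 2) % 4 = 0 := by omega
      have e3 : (k + 1 + 1 + 1 + 2) % 4 = 1 := by omega
      rw [e0] at s0 ⊢
      rw [e1] at s1 ⊢
      rw [e2] at s2 ⊢
      rw [e3] at s3 ⊢
      simp only [Nat.reduceEqDiff, if_true, if_false] at s0 s1 s2 s3 ⊢
      omega
    · have e0 : (k + 2) % 4 = 3 := by omega
      have e1 : (k + 1 + 2) % 4 = 0 := by omega
      have e2 : (k + 1 + 1 + 2) % 4 = 1 := by omega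
      have e3 : (k + 1 + 1 + 1 + 2) % 4 = 2 := by omega
      rw [e0] at s0 ⊢
      rw [e1] at s1 ⊢
      rw [e2] at s2 ⊢
      rw [e3] at s3 ⊢
      simp only [Nat.reduceEqDiff, if_true, if_false] at s0 s1 s2 s3 ⊢
      omega
    · have e0 : (k + 2) % 4 = 0 := by omega
      have e1 : (k + 1 + 2) % 4 = 1 := by omega
      have e2 : (k + 1 + 1 + 2) % 4 = 2 := by omega
      have e3 : (k + 1 + 1 + 1 + 2) % 4 = 3 := by omega
      rw [e0] at s0 ⊢
      rw [e1] at s1 ⊢
      rw [e2] at s2 ⊢
      rw [e3] at s3 ⊢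
      simp only [Nat.reduceEqDiff, if_true, if_false] at s0 s1 s2 s3 ⊢
      omega
    · have e0 : (k + 2) % 4 = 1 := by omega
      have e1 : (k + 1 + 2) % 4 = 2 := by omega
      have e2 : (k + 1 + 1 + 2) % 4 = 3 := by omega
      have e3 : (k + 1 + 1 + 1 + 2) % 4 = 0 := by omega
      rw [e0] at s0 ⊢
      rw [e1] at s1 ⊢
      rw [e2] at s2 ⊢
      rw [e3] at s3 ⊢
      simp only [Nat.reduceEqDiff, if_true, if_false] at s0 s1 s2 s3 ⊢
      omega

theorem d4_far (q : ℕ) : d4psi hm J (4 * J + 2) + q ≤ d4psi hm J (4 * J + 2 + 4 * q) ∧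
    (d4Lad hm J).hgt (4 * J + 2) ≤ (d4Lad hm J).hgt (4 * J + 2 + 4 * q) := by
  induction q with
  | zero => simp
  | succ q ih =>
    have h := d4_four hm J (k := 4 * J + 2 + 4 * q) (by omega)
    rw [show 4 * J + 2 + 4 * (q + 1) = 4 * J + 2 + 4 * q + 4 by ring]
    push_cast
    refine ⟨?_, ?_⟩
    · linarith [h.1, ih.1]
    · linarith [h.2, ih.2]

theorem d4_gad (σ : Bool) (i : ℕ) :
    i ≤ (d4Lad hm J).gad σ ((d4Lad hm J).pos σ (2 * i)) := by
  induction i with
  | zero => exact Nat.zero_le _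
  | succ i ih =>
    have h1 : ((d4Lad hm J).c (2 * i + 1)).2 = false := by
      have h2 := d4P_mod m J (2 * i + 1)
      have h3 := d4P_lt m J (2 * i + 1)
      rw [d4_c]
      rcases (show d4P m J (2 * i + 1) = 1 ∨ d4P m J (2 * i + 1) = 3 by omega) with h | h <;>
        rw [h] <;> rfl
    have h2 := d4_P3 hm J (2 * i + 1) σ h1
    have h3 := (d4Lad hm J).d4_gad_cell h1 (show 2 ≤ (d4Lad hm J).len (2 * i + 1) σ by omega)
    have h4 := (d4Lad hm J).d4_gad_mono σ
      ((d4Lad hm J).pos_mono σ (show 2 * i ≤ 2 * i + 1 by omega))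
    rw [show 2 * (i + 1) = 2 * i + 1 + 1 by ring]
    omega

/-- The height potential. -/
noncomputable def d4H (σ : Bool) (i : ℕ) : ℤ :=
  if σ then 0 else d4psi hm J (4 * J + 1) - (d4Lad hm J).gad false i

theorem d4_HCond : (d4Lad hm J).HCond (-1) 1 (d4H hm J) where
  line := by
    intro σ i
    unfold d4H
    cases σ
    · simp only [Bool.false_eq_true, if_false]
      have := (d4Lad hm J).d4_gad_mono false (show i ≤ i + 1 by omega)
      omega
    · simp
  even := by
    intro σ i hE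
    unfold d4H
    have hP : (d4Lad hm J).isP σ i := (d4Lad hm J).isP_of_cap hE.1
    cases σ
    · simp only [Bool.false_eq_true, if_false]
      by_cases hb : ((d4Lad hm J).u false i).1 = 1
      · have h1 := ((d4Lad hm J).d4_cap_b hP hb).1
        have h2 : (d4Lad hm J).gad false (i + 1) = (d4Lad hm J).gad false i + 1 := by
          change (d4Lad hm J).gad false i + _ = _
          rw [if_pos ⟨hE, hb⟩]
        have h3 : plt ((d4Lad hm J).u false i) = lB := by
          unfold plt
          rw [hb]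
        rw [h1, h2, h3]
        change _ ≤ -1 * (1 : ℤ)
        push_cast
        linarith
      · have h2 := (d4Lad hm J).d4_gad_mono false
          (show i ≤ i + (d4Lad hm J).capR false i by omega)
        have h3 : plt ((d4Lad hm J).u false i) = lA := by
          unfold plt
          have h4 : ∀ x : Fin 2, x ≠ 1 → x = 0 := by decide
          rw [h4 _ hb]
        rw [h3]
        change _ ≤ -1 * (0 : ℤ)
        omega
    · simp only [if_true]
      have h3 : ∀ y : Letter, 0 ≤ fht (plt y) := by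
        intro y
        obtain ⟨x, b⟩ := y
        fin_cases x
        · exact le_rfl
        · exact zero_le_one
      have := h3 ((d4Lad hm J).u true i)
      linarith
  rl := by
    intro k hk
    unfold d4H
    simp only [Bool.false_eq_true, if_false, if_true]
    have h1 : 4 * J + 1 < k := by
      by_contra hcon
      rw [d4_off_le hm J (by omega)] at hk
      exact absurd hk (by decide)
    have h2 := d4psi_mono hm J h1.le
    have h3 : d4psi hm J k =
      (d4Lad hm J).gad false ((d4Lad hm J).pos false k) - (d4Lad hm J).hgt k := rfl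
    linarith
  lr := by
    intro k hk
    unfold d4H
    simp only [Bool.false_eq_true, if_false, if_true]
    have h1 : k ≤ 4 * J + 1 := by
      by_contra hcon
      rw [d4_off_gt hm J (by omega)] at hk
      exact absurd hk (by decide)
    have h2 := d4psi_mono hm J h1
    have h3 : d4psi hm J k =
      (d4Lad hm J).gad false ((d4Lad hm J).pos false k) - (d4Lad hm J).hgt k := rfl
    linarith

include hm in
/-- Divergence for the order with `b < B`. -/
theorem d4_diverge (N : ℕ) (hJ : N < 2 * J) (lt : Letter → Letter → Prop)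
    [IsStrictTotalOrder Letter lt] (hlt : lt lB lB')
    (hyp : (1 / (4 : ℕ) + 1 / m + 1 / (2 : ℕ) : ℚ) < 1) :
    Diverge 4 m 2 lt 1 (ball2 4 m 2) N := by
  obtain ⟨V, hV⟩ : ∃ V, V = d4Lad hm J := ⟨_, rfl⟩
  obtain ⟨K, hKdef⟩ : ∃ K, K = 4 * J + 1 := ⟨_, rfl⟩
  have hT : V.Tame := hV ▸ d4_tame hm J
  obtain ⟨val, κ, hc⟩ := V.exists_cval' hT.toGood (by omega) hyp
  have hoffle : ∀ k, k ≤ K → V.off (-1) k = -1 := fun k hk => by
    rw [hV]
    exact d4_off_le hm J (by omega)
  have hoffgt : ∀ k, K < k → V.off (-1) k = 1 := fun k hk => by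
    rw [hV]
    exact d4_off_gt hm J (by omega)
  -- the numbers of caps
  obtain ⟨g, hg⟩ : ∃ g, g = V.gad true (V.pos true K) := ⟨_, rfl⟩
  have hgN : N < g := by
    have h1 := d4_gad hm J true (2 * J)
    rw [← hV] at h1
    have h2 := V.d4_gad_mono true (V.pos_mono true (show 2 * (2 * J) ≤ K by omega))
    omega
  obtain ⟨K2, hK2⟩ : ∃ K2, K2 = 4 * J + 2 + 4 * g := ⟨_, rfl⟩
  have hfar := d4_far hm J g
  rw [← hK2, ← hV] at hfar
  have hKK : K + 1 = 4 * J + 2 := by omega
  rw [← hKK] at hfar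
  have hps : d4psi hm J (K + 1) + g ≤ d4psi hm J K2 := hfar.1
  have hps1 : ∀ k, d4psi hm J k = V.gad false (V.pos false k) - V.hgt k := by
    intro k
    rw [hV]
    rfl
  rw [hps1, hps1] at hps
  -- the positions
  have hposK : V.pos false K = V.pos true K := by
    have h1 := hoffle K le_rfl
    unfold VLad.off at h1
    omega
  have hH : V.HCond (-1) 1 (d4H hm J) := by
    have := d4_HCond hm J
    rw [← hV] at this
    exact this
  -- the first word
  have hw1 := line_tight hc (-1) true 0 (V.pos true K2)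
  rw [Nat.zero_add] at hw1
  have hcr2 := cross_rl hc (-1) K2 (hoffgt K2 (by omega))
  -- the second word
  have hm0 : ∀ σ, ¬ V.Mid σ 0 := by
    rintro σ ⟨i', h, -⟩
    omega
  have hP := hT.toGood.hP
  have hcK : (V.c K).2 = false := by
    rw [hV, d4_c, hKdef, (d4P_K m J).1]
    rfl
  have hm1 : ¬ V.Mid true (V.pos true K) := by
    intro h
    obtain ⟨k, hk, hl0, hck, huniq⟩ := V.d4_mid_rung hP h
    rcases huniq K rfl with h1 | h1
    · rw [← h1, hcK] at hck
      exact absurd hck (by decide)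
    · have h2 : k = 4 * J := by omega
      subst h2
      rw [hV] at hl0
      have h3 := d4_zero hm J hl0
      have h4 := d4P_mod m J (4 * J)
      rcases Nat.mod_two_eq_zero_or_one m with h | h
      · rw [d4P_el h (by omega)] at h3
        omega
      · rw [d4P_ol h (by omega)] at h3
        omega
  have hlenK : V.len K false = m := by
    rw [hV, d4_len, hKdef]
    unfold d4Len
    rw [(d4P_K m J).1, if_neg (by omega), if_neg (by omega), if_pos rfl,
      if_neg (by decide)]
  have hm0' : ¬ V.Mid false (V.pos true K + 1) := by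
    intro h
    obtain ⟨k, hk, hl0, hck, huniq⟩ := V.d4_mid_rung hP h
    rcases Nat.lt_or_ge K k with h1 | h1
    · have h2 := V.pos_mono false (show K + 1 ≤ k by omega)
      rw [V.pos_succ, hlenK] at h2
      omega
    · have h2 := V.pos_mono false h1
      omega
  obtain ⟨w2, hw2len, hw2run, hw2kap⟩ := line_loc hT hc (-1) (lt := lt) true 0 (V.pos true K)
    (hm0 true) (by rw [Nat.zero_add]; exact hm1) 1 (by
      intro j hE hb
      left
      refine ⟨rfl, ?_⟩
      have h1 : V.isP true j := V.isP_of_cap hE.1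
      unfold VLad.isP at h1
      have h2 : V.u true j = lB' := Prod.ext hb h1
      rw [h2]
      exact hlt) (by
      intro k _ hk hoff
      exfalso
      rw [if_pos rfl, Nat.zero_add] at *
      have h1 : k ≤ K := by
        by_contra hcon
        have := V.pos_mono true (show K ≤ k by omega)
        omega
      rw [hoffle k h1] at hoff
      exact absurd hoff (by decide))
  rw [Nat.zero_add] at hw2run hw2kap
  have hw2kap' : kap (V.csys hT.toGood).mv κ (Sum.inl (true, 0)) w2 = g := by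
    rw [hw2kap, if_pos rfl, ← hg]
    change 1 * ((1 : ℕ) : ℤ) * ((g : ℤ) - ((0 : ℕ) : ℤ)) = g
    push_cast
    ring
  -- the rest of the second word
  have hw3 := line_tight hc (-1) true (V.pos true K) (V.len K true)
  have hpK : V.pos true K + V.len K true = V.pos true (K + 1) := (V.pos_succ true K).symm
  rw [hpK] at hw3
  have hcr := cross_rl hc (-1) (K + 1) (hoffgt (K + 1) (by omega))
  have hpf := V.pos_mono false (show K + 1 ≤ K2 by omega)
  obtain ⟨d, hd⟩ : ∃ d, V.pos false (K + 1) + d = V.pos false K2 :=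
    ⟨V.pos false K2 - V.pos false (K + 1), by omega⟩
  obtain ⟨t, ht⟩ : ∃ t : ℕ, (t : ℤ) = g + V.hgt K2 - V.hgt (K + 1) :=
    ⟨(g + V.hgt K2 - V.hgt (K + 1)).toNat, by
      rw [Int.toNat_of_nonneg]
      linarith [hfar.2]⟩
  obtain ⟨w4, hw4, hw4kap⟩ := line_tight_left hc (-1)
    (fun i hE hb => (V.d4_cap_b (V.isP_of_cap hE.1) hb).1) (V.pos false (K + 1)) d t (by
      rw [hd]
      zify
      rw [ht]
      linarith)
  rw [hd] at hw4
  have hrun2 : TightRun (V.csys hT.toGood).mv (V.cF (-1)) (Sum.inl (true, V.pos true K))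
      (V.lword true (V.pos true K) (V.len K true) ++ ([flip (V.c (K + 1))] ++ w4))
      (Sum.inl (false, V.pos false K2)) :=
    hw3.1.append (hcr.1.append hw4)
  have hkap2 : kap (V.csys hT.toGood).mv κ (Sum.inl (true, V.pos true K))
      (V.lword true (V.pos true K) (V.len K true) ++ ([flip (V.c (K + 1))] ++ w4)) =
      -V.hgt (K + 1) - t := by
    rw [kap_append hw3.1.spec.1, hw3.2, kap_append hcr.1.spec.1, hcr.2, hw4kap]
    ring
  have hi : ((V.pos true K + 1 : ℕ) : ℤ) + (-1) = (V.pos true K : ℕ) := by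
    push_cast
    ring
  refine master hT (by omega) hyp hc (o0 := -1) (ε := 1) ?_ (Or.inl rfl) hH
    (s := (true, 0)) (s1 := (true, V.pos true K2)) (s2 := (false, V.pos false K2))
    (w1 := V.lword true 0 (V.pos true K2)) (w2 := w2)
    (w2' := V.lword true (V.pos true K) (V.len K true) ++ ([flip (V.c (K + 1))] ++ w4))
    (c := [flip (V.c K2)]) (τ := true) (K := K) (i0 := V.pos true K + 1) (i1 := V.pos true K)
    hw1.1 ?_ hw2run hrun2 hcr2.1.spec.1 le_rfl ?_ ?_ hi (Or.inl rfl) hm1 hm0' ?_ ?_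
  · intro k
    rcases Nat.lt_or_ge K k with h | h
    · rw [hoffgt k h]
      decide
    · rw [hoffle k h]
      decide
  · rw [hw1.2]
    simp [d4H]
  · rw [hw1.2, hcr2.2, kap_append hw2run.tight.spec.1, hw2kap']
    rw [hkap2, ht]
    ring
  · rw [hw2len]
    have h1 := V.pos_mono true (show K ≤ K2 by omega)
    simp only [VLad.lword, List.length_map, List.length_range']
    exact h1
  · rw [hw2kap', if_pos rfl]
    simp only [d4H, if_true]
    rw [abs_of_nonneg (by omega)]
    omega
  · rw [hw2kap', if_pos rfl]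
    simp only [d4H, if_true, Bool.false_eq_true, if_false]
    rw [← hKdef, hps1, ← hV]
    have h1 := V.d4_gad_mono false (show V.pos false K ≤ V.pos true K + 1 by omega)
    rw [abs_of_nonneg (by omega)]
    omega

end D4

/-- `(4, m, 2)` with `m ≥ 5`. -/
theorem notFD_42 {m : ℕ} (hm : 5 ≤ m)
    (lt : Letter → Letter → Prop) [IsStrictTotalOrder Letter lt] : ¬ FiniteDiff 4 m 2 lt := by
  have hyp : (1 / (4 : ℕ) + 1 / m + 1 / (2 : ℕ) : ℚ) < 1 := by
    have h1 := inv_le (a := 5) (b := m) (by norm_num) hm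
    push_cast at h1 ⊢
    linarith
  have key : ∀ lt : Letter → Letter → Prop, IsStrictTotalOrder Letter lt → lt lB lB' →
      ¬ FiniteDiff 4 m 2 lt := by
    intro lt hlt0 hlt
    refine not_finiteDiff_of_diverge2 (by omega) (by omega) le_rfl hyp lt 1 (fun N => ?_)
    exact d4_diverge hm (N + 1) N (by omega) lt hlt hyp
  rcases trichotomous_of lt lB lB' with h1 | h1 | h1
  · exact key lt inferInstance h1
  · exact absurd h1 (by decide)
  · intro hF
    refine key (flipLt lt) inferInstance ?_ (finiteDiff_flip 4 m 2 lt hF)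
    exact h1

end Pool.Agent.SLE
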