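import Pool.Agent.SLE.Master
import Pool.Agent.SLE.FamA

/-!
# The family `(3, m, 4)`
-/

namespace Pool.Agent.SLE

open List G3

/-! ### The ladder -/

/-- The number of the Q-cell `k`. -/
def f4q (m k : ℕ) : ℕ := if m % 2 = 0 then k / 2 else k / 4

/-- The Q-cell with the number `q` has no edge on the right line. -/
def f4Z (J q : ℕ) : Prop := (q ≤ 2 * J ∧ q % 2 = 0) ∨ (2 * J < q ∧ q % 2 = 1)

instance (J q : ℕ) : Decidable (f4Z J q) :=
  inferInstanceAs (Decidable ((q ≤ 2 * J ∧ q % 2 = 0) ∨ (2 * J < q ∧ q % 2 = 1)))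

/-- The numbers of edges on the lines. -/
def f4len (m J k : ℕ) (σ : Bool) : ℕ :=
  if k % 2 = 1 then m - 1 else if m % 2 = 1 ∧ k % 4 = 2 then 1
  else if (f4Z J (f4q m k) ↔ σ = true) then 0 else 1

theorem f4_patC (m k : ℕ) :
    (k % 2 = 1 ∧ (patC m 0 k = lA' ∨ patC m 0 k = lB')) ∨
    (m % 2 = 1 ∧ k % 4 = 2 ∧ patC m 0 k = lB) ∨
    (k % 2 = 0 ∧ ¬ (m % 2 = 1 ∧ k % 4 = 2) ∧ patC m 0 k = lA) := by
  rcases Nat.mod_two_eq_zero_or_one k with hk | hk
  · right
    by_cases h : m % 2 = 1 ∧ k % 4 = 2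
    · left
      refine ⟨h.1, h.2, ?_⟩
      unfold patC
      rw [if_neg (by omega), if_neg (by omega), if_neg (by omega), if_pos (by omega)]
    · right
      refine ⟨hk, h, ?_⟩
      unfold patC
      by_cases hm : m % 2 = 0
      · rw [if_pos hm, if_pos hk]
      · rw [if_neg hm, if_pos (by omega)]
  · exact Or.inl ⟨hk, patC_odd rfl hk⟩

theorem f4len_odd {m J k : ℕ} (hk : k % 2 = 1) (σ : Bool) : f4len m J k σ = m - 1 := by
  unfold f4len
  rw [if_pos hk]

theorem f4len_N {m J k : ℕ} (hk : m % 2 = 1 ∧ k % 4 = 2) (σ : Bool) : f4len m J k σ = 1 := by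
  unfold f4len
  rw [if_neg (by omega), if_pos hk]

theorem f4len_Q {m J k : ℕ} (hk : k % 2 = 0) (hk' : ¬ (m % 2 = 1 ∧ k % 4 = 2)) :
    (f4Z J (f4q m k) ∧ f4len m J k true = 0 ∧ f4len m J k false = 1) ∨
    (¬ f4Z J (f4q m k) ∧ f4len m J k true = 1 ∧ f4len m J k false = 0) := by
  have h : ∀ σ, f4len m J k σ = if (f4Z J (f4q m k) ↔ σ = true) then 0 else 1 := by
    intro σ
    unfold f4len
    rw [if_neg (by omega), if_neg hk']
  rw [h, h]
  by_cases h1 : f4Z J (f4q m k)
  · exact Or.inl ⟨h1, if_pos (by simp [h1]), if_neg (by simp [h1])⟩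
  · exact Or.inr ⟨h1, if_neg (by simp [h1]), if_pos (by simp [h1])⟩

/-- The ladder. -/
def f4 (m J : ℕ) (hm : 4 ≤ m) : VLad 3 m 4 where
  c := patC m 0
  len := f4len m J
  cyc := by
    intro k
    rcases f4_patC m k with ⟨hk, h⟩ | ⟨h1, h2, h⟩ | ⟨h1, h2, h⟩
    · rw [f4len_odd hk, f4len_odd hk]
      have h2 : fper 3 m 4 (patC m 0 k) = 2 * m := by
        rcases h with h | h <;> rw [h] <;> rfl
      rw [h2]
      omega
    · rw [f4len_N ⟨h1, h2⟩, f4len_N ⟨h1, h2⟩, h]
      rfl
    · have h3 : fper 3 m 4 (patC m 0 k) = 3 := by rw [h]; rfl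
      rw [h3]
      rcases f4len_Q (J := J) h1 h2 with h4 | h4 <;> omega
  step := by
    intro k
    rcases Nat.mod_two_eq_zero_or_one k with hk | hk
    · have h1 : nxt^[f4len m J k true + 1] (patC m 0 k) = patC m 0 k := by
        apply VLad.nxt_iter_pos
        rcases patC_even (m := m) (s := 0) rfl hk with h3 | h3 <;> rw [h3]
      rw [h1]
      unfold patC
      split_ifs <;> first | rfl | omega
    · rw [f4len_odd hk, show m - 1 + 1 = m by omega]
      by_cases hme : m % 2 = 0
      · have h2 : patC m 0 k = lA' := by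
          unfold patC
          rw [if_pos hme, if_neg (by omega)]
        have h3 : patC m 0 (k + 1) = lA := by
          unfold patC
          rw [if_pos hme, if_pos (by omega)]
        rw [h2, h3, nxt_iter_lA', if_pos hme]
        rfl
      · by_cases h4 : k % 4 = 1
        · have h2 : patC m 0 k = lA' := by
            unfold patC
            rw [if_neg hme, if_neg (by omega), if_pos (by omega)]
          have h3 : patC m 0 (k + 1) = lB := by
            unfold patC
            rw [if_neg hme, if_neg (by omega), if_neg (by omega), if_pos (by omega)]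
          rw [h2, h3, nxt_iter_lA', if_neg hme]
          rfl
        · have h2 : patC m 0 k = lB' := by
            unfold patC
            rw [if_neg hme, if_neg (by omega), if_neg (by omega), if_neg (by omega)]
          have h3 : patC m 0 (k + 1) = lA := by
            unfold patC
            rw [if_neg hme, if_pos (by omega)]
          rw [h2, h3, nxt_iter_lB', if_neg hme]
          rfl
  nz := by
    intro k σ h0
    rcases Nat.mod_two_eq_zero_or_one k with hk | hk
    · rw [f4len_odd (by omega)]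
      omega
    · rw [f4len_odd hk] at h0
      omega

variable {m J : ℕ} (hm : 4 ≤ m)

theorem f4_c (k : ℕ) : (f4 m J hm).c k = patC m 0 k := rfl

theorem f4_len (k : ℕ) (σ : Bool) : (f4 m J hm).len k σ = f4len m J k σ := rfl

theorem f4_true {k : ℕ} (hc : ((f4 m J hm).c k).2 = true) : k % 2 = 0 := by
  rw [f4_c] at hc
  rcases f4_patC m k with ⟨hk, h | h⟩ | ⟨h1, h2, h⟩ | ⟨h1, h2, h⟩
  · rw [h] at hc
    exact absurd hc (by decide)
  · rw [h] at hc
    exact absurd hc (by decide)
  · omega
  · omega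

theorem f4_false {k : ℕ} (hc : ((f4 m J hm).c k).2 = false) : k % 2 = 1 := by
  rw [f4_c] at hc
  rcases f4_patC m k with ⟨hk, h | h⟩ | ⟨h1, h2, h⟩ | ⟨h1, h2, h⟩
  · exact hk
  · exact hk
  · rw [h] at hc
    exact absurd hc (by decide)
  · rw [h] at hc
    exact absurd hc (by decide)

theorem f4_hP (k : ℕ) (σ : Bool) (hc : ((f4 m J hm).c k).2 = false) :
    0 < (f4 m J hm).len k σ := by
  rw [f4_len, f4len_odd (f4_false hm hc)]
  omega

/-- the number of Q-cells below the rung `k` -/
def f4n (m k : ℕ) : ℕ := if m % 2 = 0 then (k + 1) / 2 else (k + 3) / 4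

theorem f4_off (k : ℕ) : (f4 m J hm).off (-1) k =
    if f4n m k % 2 = 1 then 0 else if f4n m k ≤ 2 * J + 1 then -1 else 1 := by
  induction k with
  | zero =>
    have h : f4n m 0 = 0 := by
      unfold f4n
      split_ifs <;> rfl
    rw [h]
    rfl
  | succ k ih =>
    have h1 : (f4 m J hm).off (-1) (k + 1) = (f4 m J hm).off (-1) k +
        ((f4len m J k false : ℤ) - f4len m J k true) := by
      unfold VLad.off
      rw [VLad.pos_succ, VLad.pos_succ, f4_len, f4_len]
      push_cast
      ring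
    rw [h1, ih]
    rcases Nat.mod_two_eq_zero_or_one k with hk | hk
    · by_cases hN : m % 2 = 1 ∧ k % 4 = 2
      · rw [f4len_N hN, f4len_N hN]
        have h2 : f4n m (k + 1) = f4n m k := by
          unfold f4n
          rw [if_neg (by omega), if_neg (by omega)]
          omega
        rw [h2]
        ring
      · have h2 : f4n m (k + 1) = f4n m k + 1 ∧ f4q m k = f4n m k := by
          unfold f4n f4q
          split_ifs <;> omega
        obtain ⟨h2, h3⟩ := h2
        rcases f4len_Q (J := J) hk hN with ⟨h4, h5, h6⟩ | ⟨h4, h5, h6⟩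
        · rw [h5, h6, h2]
          unfold f4Z at h4
          rw [h3] at h4
          generalize f4n m k = x at h4
          split_ifs <;> omega
        · rw [h5, h6, h2]
          unfold f4Z at h4
          rw [h3] at h4
          generalize f4n m k = x at h4
          split_ifs <;> omega
    · rw [f4len_odd hk, f4len_odd hk]
      have h2 : f4n m (k + 1) = f4n m k := by
        unfold f4n
        split_ifs <;> omega
      rw [h2]
      ring

theorem f4_hgt (k : ℕ) : (f4 m J hm).hgt k =
    if m % 2 = 0 then ((k / 2 : ℕ) : ℤ) else ((k / 4 : ℕ) : ℤ) + (if k % 4 = 2 then 1 else 0) := by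
  induction k with
  | zero =>
    have h : (f4 m J hm).hgt 0 = 0 := rfl
    rw [h]
    simp
  | succ k ih =>
    change (f4 m J hm).hgt k - fht (patC m 0 k) = _
    rw [ih]
    unfold patC
    by_cases hme : m % 2 = 0
    · rw [if_pos hme, if_pos hme, if_pos hme]
      by_cases hk : k % 2 = 0
      · rw [if_pos hk]
        change ((k / 2 : ℕ) : ℤ) - 0 = _
        omega
      · rw [if_neg hk]
        change ((k / 2 : ℕ) : ℤ) - (-1) = _
        omega
    · rw [if_neg hme, if_neg hme, if_neg hme, Nat.add_zero]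
      rcases (show k % 4 = 0 ∨ k % 4 = 1 ∨ k % 4 = 2 ∨ k % 4 = 3 by omega) with hk | hk | hk | hk
      · rw [if_pos hk, if_neg (by omega), if_neg (by omega)]
        change _ - (0 : ℤ) = _
        omega
      · rw [if_neg (by omega), if_neg (by omega), if_pos hk, if_pos (by omega)]
        change _ - (-1 : ℤ) = _
        omega
      · rw [if_pos hk, if_neg (by omega), if_neg (by omega), if_pos hk, if_neg (by omega)]
        change _ - (1 : ℤ) = _
        omega
      · rw [if_neg (by omega), if_neg (by omega), if_neg (by omega), if_neg (by omega),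
          if_neg (by omega)]
        change _ - (-1 : ℤ) = _
        omega

theorem f4_good : (f4 m J hm).Good := by
  refine (f4 m J hm).good_of (by omega) (by omega) (f4_hP hm) ?_ ?_
  · intro k σ hc h0
    have h1 := f4_true hm hc
    rw [f4_len] at h0
    by_cases hN : m % 2 = 1 ∧ k % 4 = 2
    · rw [f4len_N hN] at h0
      omega
    · have h2 : (f4 m J hm).c k = lA := by
        rw [f4_c]
        rcases f4_patC m k with ⟨hk, h⟩ | ⟨h1, h2, h⟩ | ⟨h1, h2, h⟩
        · omega
        · exact absurd ⟨h1, h2⟩ hN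
        · exact h
      rw [h2]
      decide
  · intro k σ hc h0 h1
    exfalso
    have h2 := f4_true hm hc
    rw [f4_len, f4len_odd (by omega)] at h1
    omega

theorem f4_tame : (f4 m J hm).Tame := by
  refine (f4 m J hm).tame_of (f4_good hm) (by omega)
    ((f4 m J hm).pshort_of_four hm le_rfl (by omega)) ?_ ?_ ?_
  · intro k σ hc h0 h1
    exfalso
    have h2 := f4_true hm hc
    rw [f4_len, f4len_odd (by omega)] at h1
    omega
  · rw [f4_c]
    rcases f4_patC m 0 with ⟨hk, h⟩ | ⟨h1, h2, h⟩ | ⟨h1, h2, h⟩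
    · omega
    · omega
    · rw [h]
  · intro σ h0
    right
    constructor
    · rw [f4_c]
      rcases f4_patC m 0 with ⟨hk, h⟩ | ⟨h1, h2, h⟩ | ⟨h1, h2, h⟩
      · omega
      · omega
      · rw [h]
        decide
    · rw [f4_len, f4len_odd (by omega)]
      omega

/-! ### The even caps -/

/-- The even caps with the letters `b^{±1}` are at the double rungs. -/
theorem f4_even (σ : Bool) (i : ℕ) :
    ((f4 m J hm).Even σ i ∧ ((f4 m J hm).u σ i).1 = 1) ↔
      ∃ k, (f4 m J hm).pos σ k = i + 1 ∧ f4len m J k σ = 0 := by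
  set V := f4 m J hm with hV
  constructor
  · rintro ⟨hE, hu⟩
    have h1 := hE.1
    have h3 : psz 3 4 (V.u σ i) = 4 := by
      unfold psz
      rw [hu]
      rfl
    rcases V.capR_cases h1 with ⟨h2, -, h4⟩ | ⟨h2, hP, h4, -⟩
    · omega
    · obtain ⟨k, hk, -, hl, -⟩ := V.double_rung (f4_hP hm) hP h4
      exact ⟨k, hk, hl⟩
  · rintro ⟨k, hk, hl⟩
    have hl' : V.len k σ = 0 := hl
    have hk1 : V.pos σ (k + 1) = i + 1 := by
      rw [VLad.pos_succ, hk, hl']
    rcases V.vertex_cases (f4_hP hm) σ i with h | h | h | h | h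
    · exact absurd hk (h.2.2.2 k)
    · obtain ⟨-, -, k2, -, -, h2, -⟩ := h
      have := h2 k hk
      have := h2 (k + 1) hk1
      omega
    · obtain ⟨-, -, k2, -, -, h2, -⟩ := h
      have := h2 k hk
      have := h2 (k + 1) hk1
      omega
    · exact absurd hk (h.2.2.2 k)
    · obtain ⟨hP, -, hu, k2, hk2, hk2', hc2, -, hu2, huniq⟩ := h
      have h3 : k = k2 := by
        have h4 := huniq k hk
        have h5 := huniq (k + 1) hk1
        omega
      subst h3
      have hk := f4_true hm hc2
      have hN : ¬ (m % 2 = 1 ∧ k % 4 = 2) := by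
        intro hN
        rw [f4len_N hN] at hl
        omega
      have h2 : V.c k = lA := by
        rw [hV, f4_c]
        rcases f4_patC m k with ⟨hk, h⟩ | ⟨h1, h2, h⟩ | ⟨h1, h2, h⟩
        · omega
        · exact absurd ⟨h1, h2⟩ hN
        · exact h
      rw [h2] at hu2
      have h5 : (V.u σ i).1 = 1 := by
        rw [hu2]
        cases σ <;> decide
      have h6 : psz 3 4 (V.u σ i) = 4 := by
        unfold psz
        rw [h5]
        rfl
      have h7 : V.capR σ i = 2 := by
        unfold VLad.capR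
        rw [if_neg (by omega), if_pos ⟨hP, hu, by omega⟩]
      exact ⟨⟨by omega, by omega⟩, h5⟩

/-- The vertices in the middle of an even cap. -/
theorem f4_mid {σ : Bool} {i : ℕ} (h : (f4 m J hm).Mid σ i) :
    ∃ k, (f4 m J hm).pos σ k = i ∧ f4len m J k σ = 0 := by
  obtain ⟨i', rfl, hE, hc⟩ := h
  refine (f4_even hm σ i').1 ⟨hE, ?_⟩
  have h1 := hE.2
  rw [hc] at h1
  unfold psz at h1
  by_contra hcon
  have h2 : ∀ x : Fin 2, x ≠ 1 → x = 0 := by decide
  rw [if_pos (h2 _ hcon)] at h1
  omega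

theorem f4_gad_yes {σ : Bool} {i : ℕ}
    (h : (f4 m J hm).Even σ i ∧ ((f4 m J hm).u σ i).1 = 1) :
    (f4 m J hm).gad σ (i + 1) = (f4 m J hm).gad σ i + 1 := by
  rw [VLad.gad, if_pos h]

theorem f4_gad_no {σ : Bool} {i : ℕ}
    (h : ¬ ((f4 m J hm).Even σ i ∧ ((f4 m J hm).u σ i).1 = 1)) :
    (f4 m J hm).gad σ (i + 1) = (f4 m J hm).gad σ i := by
  rw [VLad.gad, if_neg h, Nat.add_zero]

theorem f4_gad_const {σ : Bool} {i d : ℕ}
    (h : ∀ j < d, ¬ ((f4 m J hm).Even σ (i + j) ∧ ((f4 m J hm).u σ (i + j)).1 = 1)) :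
    (f4 m J hm).gad σ (i + d) = (f4 m J hm).gad σ i := by
  induction d with
  | zero => rfl
  | succ d ih =>
    rw [← Nat.add_assoc, f4_gad_no hm (h d (by omega)), ih (fun j hj => h j (by omega))]

/-- The even caps with letters `b^{±1}` at the edges of the cell `k`. -/
theorem f4_even_cell (σ : Bool) {k j : ℕ} (hj : j < f4len m J k σ) :
    ((f4 m J hm).Even σ ((f4 m J hm).pos σ k + j) ∧
      ((f4 m J hm).u σ ((f4 m J hm).pos σ k + j)).1 = 1) ↔
      (j + 1 = f4len m J k σ ∧ f4len m J (k + 1) σ = 0) := by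
  rw [f4_even]
  constructor
  · rintro ⟨k', h1, h2⟩
    obtain ⟨h3, h4 | ⟨h4, h5⟩⟩ := (f4 m J hm).cell_below hj h1
    · exact ⟨h3, by rw [← h4]; exact h2⟩
    · exfalso
      have h6 := (f4 m J hm).nz (k + 1) σ h5
      rw [f4_len, show k + 1 + 1 = k' by omega] at h6
      omega
  · rintro ⟨h1, h2⟩
    refine ⟨k + 1, ?_, h2⟩
    rw [VLad.pos_succ, f4_len]
    omega

theorem f4_gad_succ (k : ℕ) : (f4 m J hm).gad true ((f4 m J hm).pos true (k + 1)) =
    (f4 m J hm).gad true ((f4 m J hm).pos true k) +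
      if f4len m J (k + 1) true = 0 then 1 else 0 := by
  rw [VLad.pos_succ, f4_len]
  by_cases h0 : f4len m J (k + 1) true = 0
  · rw [if_pos h0]
    have hk : k % 2 = 1 := by
      by_contra hk
      rw [f4len_odd (by omega)] at h0
      omega
    obtain ⟨d, hd⟩ : ∃ d, f4len m J k true = d + 1 := by
      rw [f4len_odd hk]
      exact ⟨m - 2, by omega⟩
    rw [hd, ← Nat.add_assoc, f4_gad_yes hm ((f4_even_cell hm true (by omega)).2 ⟨hd.symm, h0⟩),
      f4_gad_const hm (fun j hj => by
        rw [f4_even_cell hm true (by omega)]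
        omega)]
  · rw [if_neg h0, Nat.add_zero]
    exact f4_gad_const hm (fun j hj => by
      rw [f4_even_cell hm true hj]
      exact fun h => h0 h.2)

theorem f4_gad (k : ℕ) : (f4 m J hm).gad true ((f4 m J hm).pos true k) =
    if f4q m k ≤ 2 * J then f4q m k / 2 else (f4q m k + 1) / 2 := by
  induction k with
  | zero =>
    have h : f4q m 0 = 0 := by
      unfold f4q
      split_ifs <;> rfl
    rw [h]
    rfl
  | succ k ih =>
    rw [f4_gad_succ, ih]
    by_cases hk : (k + 1) % 2 = 1
    · have h1 : f4q m (k + 1) = f4q m k := by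
        unfold f4q
        split_ifs <;> omega
      have h2 : f4len m J (k + 1) true ≠ 0 := by
        rw [f4len_odd hk]
        omega
      rw [h1, if_neg h2, Nat.add_zero]
    · by_cases hN : m % 2 = 1 ∧ (k + 1) % 4 = 2
      · have h1 : f4q m (k + 1) = f4q m k := by
          unfold f4q
          rw [if_neg (by omega), if_neg (by omega)]
          omega
        have h2 : f4len m J (k + 1) true ≠ 0 := by
          rw [f4len_N hN]
          omega
        rw [h1, if_neg h2, Nat.add_zero]
      · have h1 : f4q m (k + 1) = f4q m k + 1 := by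
          unfold f4q
          split_ifs <;> omega
        rcases f4len_Q (J := J) (show (k + 1) % 2 = 0 by omega) hN with ⟨h4, h5, -⟩ | ⟨h4, h5, -⟩
        · rw [if_pos h5]
          unfold f4Z at h4
          rw [h1] at h4 ⊢
          generalize f4q m k = x at h4
          split_ifs <;> omega
        · have h6 : f4len m J (k + 1) true ≠ 0 := by omega
          rw [if_neg h6]
          unfold f4Z at h4
          rw [h1] at h4 ⊢
          generalize f4q m k = x at h4
          split_ifs <;> omega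

theorem f4_gad_mono {σ : Bool} {i j : ℕ} (h : i ≤ j) :
    (f4 m J hm).gad σ i ≤ (f4 m J hm).gad σ j := by
  induction h with
  | refl => exact le_rfl
  | step _ ih => exact ih.trans (Nat.le_add_right _ _)

/-! ### The heights -/

/-- The number of cells of a period. -/
def f4p (m : ℕ) : ℕ := if m % 2 = 0 then 2 else 4

/-- The height potential. -/
noncomputable def f4H (m J : ℕ) (hm : 4 ≤ m) (σ : Bool) (i : ℕ) : ℤ :=
  if σ then -((f4 m J hm).gad true i : ℤ)
  else if i < (f4 m J hm).pos false (f4p m * (2 * J + 1)) then 4 * J + 4 else J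

theorem f4_num (m J q k : ℕ) (hk : k = 0 ∨ k = 1) :
    f4q m (f4p m * q + k) = q ∧ f4n m (f4p m * q + k) = q + k ∧
    (∀ hm : 4 ≤ m, (f4 m J hm).hgt (f4p m * q + k) = q) := by
  refine ⟨?_, ?_, fun hm => ?_⟩
  · unfold f4q f4p
    split_ifs <;> omega
  · unfold f4n f4p
    split_ifs <;> omega
  · rw [f4_hgt]
    unfold f4p
    split_ifs <;> omega

theorem f4_hcond : (f4 m J hm).HCond (-1) (-1) (f4H m J hm) where
  line := by
    intro σ i
    cases σ
    · unfold f4H
      simp only [Bool.false_eq_true, if_false]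
      split_ifs <;> omega
    · unfold f4H
      simp only [if_true]
      have := f4_gad_mono hm (J := J) (σ := true) (show i ≤ i + 1 by omega)
      omega
  even := by
    intro σ i hE
    have h1 : psz 3 4 ((f4 m J hm).u σ i) = 4 := by
      have h2 := hE.2
      have h4 : psz 3 4 ((f4 m J hm).u σ i) = 3 ∨ psz 3 4 ((f4 m J hm).u σ i) = 4 := by
        unfold psz
        split_ifs
        · exact Or.inl rfl
        · exact Or.inr rfl
      omega
    have h2 : ((f4 m J hm).u σ i).1 = 1 := by
      by_contra hcon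
      have h2 : ∀ x : Fin 2, x ≠ 1 → x = 0 := by decide
      unfold psz at h1
      rw [if_pos (h2 _ hcon)] at h1
      omega
    have h3 : fht (plt ((f4 m J hm).u σ i)) = 1 := by
      have h4 : plt ((f4 m J hm).u σ i) = (1, true) := Prod.ext h2 rfl
      rw [h4]
      rfl
    rw [h3]
    cases σ
    · unfold f4H
      simp only [Bool.false_eq_true, if_false]
      split_ifs <;> omega
    · unfold f4H
      simp only [if_true]
      have h5 := f4_gad_yes hm ⟨hE, h2⟩
      have h7 : 0 < (f4 m J hm).capR true i := hE.1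
      have h6 := f4_gad_mono hm (J := J) (σ := true)
        (show i + 1 ≤ i + (f4 m J hm).capR true i by omega)
      omega
  rl := by
    intro k hk
    rw [f4_off] at hk
    have h1 : f4n m k % 2 = 0 ∧ 2 * J + 2 ≤ f4n m k := by
      split_ifs at hk <;> omega
    have h2 : f4p m * (2 * J + 1) ≤ k := by
      unfold f4n at h1
      unfold f4p
      split_ifs at h1 ⊢ <;> omega
    have h3 := (f4 m J hm).pos_mono false h2
    unfold f4H
    simp only [Bool.false_eq_true, if_false, if_true]
    rw [if_neg (by omega), f4_gad, f4_hgt]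
    unfold f4n f4q at *
    split_ifs at * <;> omega
  lr := by
    intro k hk
    rw [f4_off] at hk
    have h1 : f4n m k ≤ 2 * J + 1 ∧ f4n m k % 2 = 0 := by
      split_ifs at hk
      omega
    have h2 : k + 1 ≤ f4p m * (2 * J + 1) := by
      unfold f4n at h1
      unfold f4p
      split_ifs at h1 ⊢ <;> omega
    have h3 : (f4 m J hm).pos false k < (f4 m J hm).pos false (f4p m * (2 * J + 1)) := by
      obtain ⟨K, hK⟩ : ∃ K, f4p m * (2 * J + 1) = K + 1 := ⟨f4p m * (2 * J + 1) - 1, by omega⟩
      have h4 : K % 2 = 1 := by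
        unfold f4p at hK
        split_ifs at hK <;> omega
      have h5 := (f4 m J hm).pos_mono false (show k ≤ K by omega)
      rw [hK, VLad.pos_succ, f4_len, f4len_odd h4]
      omega
    have h6 : (f4 m J hm).hgt k ≤ 4 * J + 4 := by
      rw [f4_hgt]
      unfold f4n at h1
      split_ifs at h1 ⊢ <;> omega
    unfold f4H
    simp only [Bool.false_eq_true, if_false, if_true]
    rw [if_pos h3]
    omega

theorem f4_not_mid {σ : Bool} {k0 : ℕ} (h1 : f4len m J k0 σ ≠ 0)
    (h2 : ∀ k, k + 1 = k0 → f4len m J k σ ≠ 0) :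
    ¬ (f4 m J hm).Mid σ ((f4 m J hm).pos σ k0) := by
  intro h
  obtain ⟨k, hk, hl⟩ := f4_mid hm h
  rcases le_total k k0 with h3 | h3
  · rcases (f4 m J hm).pos_eq h3 hk with h4 | ⟨h4, -⟩
    · exact h1 (h4 ▸ hl)
    · exact h2 k h4.symm hl
  · rcases (f4 m J hm).pos_eq h3 hk.symm with h4 | ⟨-, h4⟩
    · exact h1 (h4 ▸ hl)
    · exact h1 h4

/-- One order. -/
theorem notFD_F4' (hm : 4 ≤ m) (hyp : (1 / (3 : ℕ) + 1 / m + 1 / (4 : ℕ) : ℚ) < 1)
    (lt : Letter → Letter → Prop) [IsStrictTotalOrder Letter lt] (hlt : lt lB' lB) :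
    ¬ FiniteDiff 3 m 4 lt := by
  refine not_finiteDiff_of_diverge2 (by omega) (by omega) (by omega) hyp lt 1 fun N => ?_
  set J := N + 2 with hJ
  set V := f4 m J hm with hV
  have hT : V.Tame := f4_tame hm
  obtain ⟨val, κ, hc⟩ := V.exists_cval' hT.toGood (by omega) hyp
  have ho : ∀ k, |V.off (-1) k| ≤ 1 := by
    intro k
    rw [hV, f4_off]
    split_ifs <;> decide
  -- the rungs
  obtain ⟨p, hp⟩ : ∃ p, p = f4p m := ⟨_, rfl⟩
  have hp2 : p = 2 ∨ p = 4 := by
    rw [hp]
    unfold f4p
    split_ifs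
    · exact Or.inl rfl
    · exact Or.inr rfl
  set K1 := p * (2 * J + 1) with hK1
  set K2 := p * (4 * J + 2) with hK2
  set K := p * (2 * J - 1) + 1 with hK
  have nK1 := f4_num m J (2 * J + 1) 1 (Or.inr rfl)
  have nK2 := f4_num m J (4 * J + 2) 0 (Or.inl rfl)
  have nK := f4_num m J (2 * J - 1) 1 (Or.inr rfl)
  have nK0 := f4_num m J (2 * J - 1) 0 (Or.inl rfl)
  rw [← hp] at nK1 nK2 nK nK0
  rw [Nat.add_zero] at nK2 nK0
  rw [← hK1] at nK1
  rw [← hK2] at nK2
  rw [← hK] at nK
  have hKK1 : K + 2 ≤ K1 := by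
    rw [hK, hK1]
    rcases hp2 with h | h <;> rw [h] <;> omega
  have hK12 : K1 + 1 ≤ K2 := by
    rw [hK1, hK2]
    rcases hp2 with h | h <;> rw [h] <;> omega
  have hKodd : K % 2 = 1 := by
    rw [hK]
    rcases hp2 with h | h <;> rw [h] <;> omega
  have hK2ev : K2 % 2 = 0 := by
    rw [hK2]
    rcases hp2 with h | h <;> rw [h] <;> omega
  have hNN : ∀ q, p * q % 2 = 0 ∧ ¬ (m % 2 = 1 ∧ (p * q) % 4 = 2) := by
    intro q
    rw [hp]
    unfold f4p
    split_ifs <;> omega
  have off_eq : ∀ k, V.off (-1) k =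
      if f4n m k % 2 = 1 then 0 else if f4n m k ≤ 2 * J + 1 then -1 else 1 := f4_off hm
  have offK : V.off (-1) K = -1 := by
    rw [off_eq, nK.2.1, if_neg (by omega), if_pos (by omega)]
  have offk' : V.off (-1) (K1 + 1) = 1 := by
    rw [off_eq, nK1.2.1, if_neg (by omega), if_neg (by omega)]
  have posK : V.pos false K = V.pos true K := by
    unfold VLad.off at offK
    omega
  have gK : V.gad true (V.pos true K) = J - 1 := by
    rw [hV, f4_gad, nK.1, if_pos (by omega)]
    omega
  have gK2 : V.gad true (V.pos true K2) = 2 * J + 1 := by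
    rw [hV, f4_gad, nK2.1, if_neg (by omega)]
    omega
  have hgK : V.hgt K = ((2 * J - 1 : ℕ) : ℤ) := nK.2.2 hm
  have hgK2 : V.hgt K2 = ((4 * J + 2 : ℕ) : ℤ) := nK2.2.2 hm
  have hgk' : V.hgt (K1 + 1) = ((2 * J + 1 : ℕ) : ℤ) := nK1.2.2 hm
  have lenK : ∀ σ, f4len m J K σ = m - 1 := f4len_odd hKodd
  -- the vertices are not inside even caps
  have midK : ¬ V.Mid true (V.pos true K) := by
    refine f4_not_mid hm ?_ ?_
    · rw [lenK]
      omega
    · intro k hk
      have h1 : k = p * (2 * J - 1) := by omega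
      rw [h1]
      obtain ⟨h2, h3⟩ := hNN (2 * J - 1)
      rcases f4len_Q (J := J) h2 h3 with ⟨h4, -⟩ | ⟨-, h4, -⟩
      · rw [nK0.1] at h4
        unfold f4Z at h4
        omega
      · omega
  have midK2 : ¬ V.Mid true (V.pos true K2) := by
    refine f4_not_mid hm ?_ ?_
    · obtain ⟨h2, h3⟩ := hNN (4 * J + 2)
      rw [← hK2] at h2 h3
      rcases f4len_Q (J := J) h2 h3 with ⟨h4, -⟩ | ⟨-, h4, -⟩
      · rw [nK2.1] at h4
        unfold f4Z at h4
        omega
      · omega
    · intro k hk
      rw [f4len_odd (by omega)]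
      omega
  have midK0 : ¬ V.Mid false (V.pos true K + 1) := by
    rw [← posK]
    intro h
    obtain ⟨k, hk, -⟩ := f4_mid hm h
    have h1 := V.cell_below (K := K) (j := 0) (σ := false) (k := k) (by
      rw [hV, f4_len, lenK]
      omega) hk
    rw [hV, f4_len, lenK] at h1
    omega
  -- the words
  obtain ⟨w1, t1, kap1⟩ := VLad.line_tight_caps hc (-1) (V.pos true K2) midK2
  obtain ⟨w2, l2, r2, kap2⟩ := VLad.line_loc hT hc (-1) (lt := lt) true 0 (V.pos true K)
    (by rintro ⟨i', h, -⟩; omega) (by rw [Nat.zero_add]; exact midK) 0 (by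
      intro j hj hj2
      right
      refine ⟨rfl, ?_⟩
      have h1 := V.isP_of_cap hj.1
      have h2 : V.u true j = lB' := Prod.ext hj2 h1
      rw [h2]
      exact hlt) (by
      intro k _ hk hok
      exfalso
      rw [Nat.zero_add] at hk
      have h1 : k < K := by
        by_contra hcon
        have := V.pos_mono true (not_lt.1 hcon)
        omega
      simp only [if_true] at hok
      rw [off_eq] at hok
      have h2 : f4n m k ≤ f4n m K := by
        unfold f4n
        split_ifs <;> omega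
      rw [nK.2.1] at h2
      split_ifs at hok
      all_goals omega)
  rw [Nat.zero_add] at r2
  have ta := VLad.line_tight hc (-1) true (V.pos true K) (V.pos true (K1 + 1) - V.pos true K)
  rw [Nat.add_sub_cancel' (V.pos_mono true (by omega))] at ta
  have tb := VLad.cross_rl hc (-1) (K1 + 1) offk'
  have tc := VLad.line_tight hc (-1) false (V.pos false (K1 + 1))
    (V.pos false K2 - V.pos false (K1 + 1))
  rw [Nat.add_sub_cancel' (V.pos_mono false hK12)] at tc
  have hmv : (V.csys hT.toGood).mv (Sum.inl (true, V.pos true K2)) (flip (V.c K2)) =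
      some (Sum.inl (false, V.pos false K2)) := V.cadj hT.toGood (VLad.Adj.rl K2)
  have hlen1 : (w1.length : ℤ) = V.pos true K2 := by
    have h1 := t1.spec.2
    change (V.pos true K2 : ℤ) + 0 = ((0 : ℕ) : ℤ) + 0 + w1.length at h1
    omega
  have hmono := V.pos_mono true (show K ≤ K2 by omega)
  refine VLad.master hT (by omega) hyp hc ho (Or.inr rfl) (f4_hcond hm) (τ := true) (K := K)
    (i0 := V.pos true K + 1) (i1 := V.pos true K) (s := (true, 0)) (s1 := (true, V.pos true K2))
    (s2 := (false, V.pos false K2)) (c := [flip (V.c K2)]) t1 ?_ r2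
    (((ta.1.append tb.1).append tc.1)) ?_ (by simp) ?_ ?_ ?_ (Or.inl rfl) midK midK0 ?_ ?_
  · rw [kap1]
    change -1 * (V.gad true (V.pos true K2) : ℤ) = -(V.gad true (V.pos true K2) : ℤ) - -((0 : ℕ) : ℤ)
    push_cast
    ring
  · rw [run_cons_some]
    exact ⟨_, hmv, rfl⟩
  · rw [kap_append r2.tight.spec.1, kap_append (ta.1.append tb.1).spec.1,
      kap_append ta.1.spec.1, ta.2, tb.2, tc.2, kap2, kap1, kap_cons hmv, kap_nil, hc.rl, gK2,
      hgK2, hgk']
    push_cast
    ring
  · omega
  · push_cast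
    ring
  · rw [kap2]
    simp only [if_true]
    change (N : ℤ) < |1 * ((0 : ℕ) : ℤ) * _ + 0 -
      -1 * (-(V.gad true (V.pos true K) : ℤ) - -((0 : ℕ) : ℤ))|
    rw [gK]
    have h1 : (1 * ((0 : ℕ) : ℤ) * ((V.gad true (0 + V.pos true K) : ℤ) - V.gad true 0) + 0 -
      -1 * (-((J - 1 : ℕ) : ℤ) - -((0 : ℕ) : ℤ))) = -((J - 1 : ℕ) : ℤ) := by
      push_cast
      ring
    rw [h1, abs_neg, abs_of_nonneg (by omega)]
    omega
  · rw [kap2]
    simp only [if_true]
    have h2 : f4H m J hm false (V.pos true K + 1) = 4 * J + 4 := by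
      unfold f4H
      simp only [Bool.false_eq_true, if_false]
      rw [if_pos]
      rw [← hp, ← hK1, ← hV, ← posK]
      have h3 := V.pos_mono false (show K + 1 ≤ K1 by omega)
      rw [VLad.pos_succ, hV, f4_len, lenK] at h3
      rw [hV]
      omega
    have h3 : f4H m J hm true 0 = 0 := rfl
    rw [h2, h3, hgK]
    have h1 : (1 * ((0 : ℕ) : ℤ) * ((V.gad true (0 + V.pos true K) : ℤ) - V.gad true 0) + 0 -
      (-1 * (4 * (J : ℤ) + 4 - 0) + ((2 * J - 1 : ℕ) : ℤ))) =
        4 * J + 4 - ((2 * J - 1 : ℕ) : ℤ) := by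
      push_cast
      ring
    rw [h1, abs_of_nonneg (by omega)]
    omega

/-- `(3, m, 4)` with `m ≥ 4`. -/
theorem notFD_F4 {m : ℕ} (hm : 4 ≤ m)
    (lt : Letter → Letter → Prop) [IsStrictTotalOrder Letter lt] : ¬ FiniteDiff 3 m 4 lt := by
  have hyp : (1 / (3 : ℕ) + 1 / m + 1 / (4 : ℕ) : ℚ) < 1 := by
    have h1 := inv_le (a := 4) (b := m) (by norm_num) hm
    push_cast at h1 ⊢
    linarith
  rcases trichotomous_of lt lB' lB with h1 | h1 | h1
  · exact notFD_F4' hm hyp lt h1
  · exact absurd h1 (by decide)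
  · intro hF
    exact notFD_F4' hm hyp (flipLt lt) h1 (finiteDiff_flip 3 m 4 lt hF)

end Pool.Agent.SLE
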