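import Pool.Agent.SLE.Main

/-!
# Scenarios of unbounded height exclude the finite difference property
-/

namespace Pool.Agent.SLE

open List G3 CoxeterSystem Ladder

variable {l m n : ℕ} {hl : 2 ≤ l} {hm : 2 ≤ m} {hn : 2 ≤ n}

theorem dec_cons_ne (p : Bool) {s : G3} (h : s ≠ s1) (V : List G3) :
    dec p (s :: V) = crossLetter s p :: dec (!p) V := by
  cases s
  · rfl
  · exact absurd rfl h
  · rfl

theorem dec_start (s : G3) (h : s ≠ s1) (V : List G3) :
    dec true (s1 :: s :: V) = crossLetter s false :: dec true V := by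
  change dec (!true) (s :: V) = _
  rw [dec_cons_ne _ h]; rfl

theorem lex_head {α : Type*} {lt : α → α → Prop} {a b : α} {s t : List α}
    (h : List.Lex lt (a :: s) (b :: t)) : lt a b ∨ a = b := by
  cases h with
  | rel h => exact Or.inl h
  | cons h => exact Or.inr rfl

theorem zE_zpow_inj (hyp : (1 / l + 1 / m + 1 / n : ℚ) < 1) (hl : 2 ≤ l) (hm : 2 ≤ m)
    (hn : 2 ≤ n) {a b : ℤ} (h : zE l m n ^ a = zE l m n ^ b) : a = b := by
  have h1 : zE l m n ^ (a - b) = 1 := by rw [zpow_sub, h, mul_inv_cancel]
  have := zE_zpow_eq_one (l := l) (m := m) (n := n) (by omega) (by omega) (by omega) hyp _ h1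
  omega

section

variable {L : Ladder (triMat l m n hl hm hn)} {G : Ch → ℤ} {K1 K2 ks k' B : ℕ}

/-- The normal form of the first element follows the right side. -/
theorem Ladder.Scenario.first_prefix (S : L.Scenario G K1 K2 ks k' B) (hG : L.Pot G)
    (hyp : (1 / l + 1 / m + 1 / n : ℚ) < 1) {U : List G3}
    (hU : Tight L G U c0 (K2, false, 0))
    (hval : extProd l m n U = zE l m n ^ L.hgt ks * extProd l m n (L.word K2 false)) :
    ∃ R, U = L.climb (L.pos' true B - 1) c0 ++ R := by
  have hB := S.B1
  rcases S.right_start hG hU with ⟨N, k, V2, h1, h2, h3, h4⟩ | ⟨V2, h1, h2⟩ | ⟨N, h1, h2⟩ |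
    ⟨h1, h2⟩
  · obtain ⟨N', h5, h6⟩ := S.left_end hG h3 h4
    have h7 := S.extProd_cross h1 h6
    rw [← h5, ← h2, hval] at h7
    have h8 := zE_zpow_inj hyp hl hm hn (mul_right_cancel h7)
    have hk : k ≤ K1 := by
      by_contra hcon
      have := S.zone2 k (by omega)
      linarith
    have hBk := S.only k hk h3 h8.symm
    have h9 := L.rank_iterate S.valid_c0 N
    rw [h1, S.rank_c0] at h9
    simp only [rank, Nat.add_zero] at h9
    have h10 := L.pos'_mono true hBk
    refine ⟨L.climb (N - (L.pos' true B - 1)) (L.up^[L.pos' true B - 1] c0) ++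
      L.r k :: V2, ?_⟩
    rw [h2, ← List.append_assoc, ← climb_add]
    congr 2
    omega
  · exfalso
    obtain ⟨N', h5, h6⟩ := S.left_end hG S.off0 h2
    have h7 : extProd l m n U = zE l m n ^ L.hgt 0 * extProd l m n (L.word K2 false) := by
      rw [h1, extProd_start, h5, extProd_climb' h6]
      simp [hgt]
    rw [hval] at h7
    have h8 := zE_zpow_inj hyp hl hm hn (mul_right_cancel h7)
    have := S.only 0 (Nat.zero_le _) S.off0 h8.symm
    omega
  · exfalso
    have := L.side_iterate c0 N
    rw [← h2] at this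
    simp [c0] at this
  · simp at h2

/-- The normal form of the second element follows the left side. -/
theorem Ladder.Scenario.second_prefix (S : L.Scenario G K1 K2 ks k' B) (hG : L.Pot G)
    {lt : Letter → Letter → Prop} [IsStrictTotalOrder Letter lt]
    (hlt : lt (crossLetter (L.r 0) false) (crossLetter (L.r 0) true)) {U : List G3}
    (hU : Tight L G U c0 (K2, true, 0)) {w : List Letter}
    (hcmp : dec true U = crossLetter (L.r 0) false :: w ∨
      List.Lex lt (dec true U) (crossLetter (L.r 0) false :: w)) :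
    ∃ R, U = s1 :: L.r 0 :: (L.climb (L.pos' false B) (0, false, 0) ++ R) := by
  have hr0 := hG.rung_ne 0
  have hstay : ∀ V, dec true U = crossLetter (L.r 0) true :: V → False := by
    intro V hV
    rw [hV] at hcmp
    rcases hcmp with h | h
    · simp only [List.cons.injEq] at h
      rw [h.1] at hlt
      exact irrefl_of lt _ hlt
    · rcases lex_head h with h | h
      · exact asymm_of lt h hlt
      · rw [h] at hlt; exact irrefl_of lt _ hlt
  have hclimb : ∀ N e V, U = L.climb N c0 ++ V → L.up^[N] c0 = e → e ≠ c0 → False := by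
    intro N e V h1 h2 h3
    cases N with
    | zero => exact h3 (by rw [← h2]; rfl)
    | succ N =>
      rw [climb, List.cons_append] at h1
      have hul : L.ul c0 = L.r 0 := by simp [ul, c0]
      rw [hul] at h1
      refine hstay (dec (!true) (L.climb N (L.up c0) ++ V)) ?_
      rw [h1, dec_cons_ne _ hr0]
  rcases S.right_start hG hU with ⟨N, k, V2, h1, h2, h3, h4⟩ | ⟨V2, h1, h2⟩ | ⟨N, h1, h2⟩ |
    ⟨h1, h2⟩
  · exact (hclimb N _ _ h2 h1 (by simp [c0])).elim
  · have hnd : NoDown L (0, false, 0) V2 := by
      intro c' hc' he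
      obtain ⟨k'', h3, -⟩ := L.up_eq_zero hc' he
      omega
    obtain ⟨N, ⟨h3, h4⟩ | ⟨k2, σ2, V3, h3, h4, h5, h6⟩⟩ :=
      climb_class hG (L.valid_zero _ _) hnd h2
    · exfalso
      have := L.side_iterate (0, false, 0) N
      rw [← h4] at this
      simp at this
    · have hσ : σ2 = false := by
        have := L.side_iterate (0, false, 0) N
        rw [h3] at this; exact this
      subst hσ
      simp only [Bool.not_false] at h5
      have hk2 : K1 < k2 := by
        by_contra hcon
        have := S.zone1 k2 (by omega)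
        linarith
      have hBk : B ≤ k2 := by have := S.Bs; have := S.sK; omega
      have h9 := L.rank_iterate (L.valid_zero 0 false) N
      rw [h3] at h9
      simp only [rank, Nat.add_zero, pos', Nat.zero_add] at h9
      have h10 := L.pos'_mono false hBk
      refine ⟨L.climb (N - L.pos' false B) (L.up^[L.pos' false B] (0, false, 0)) ++
        L.r k2 :: V3, ?_⟩
      rw [h1, h4, ← List.append_assoc, ← climb_add]
      congr 4
      omega
  · exact (hclimb N _ [] (by rw [h1]; simp) h2.symm (by simp [c0])).elim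
  · exfalso
    simp only [Prod.mk.injEq, and_true] at h2
    have := S.Kk; have := S.k2; omega

end

theorem take_of_append {α : Type*} {a b c : List α} (h : a = b ++ c) : a.take b.length = b := by
  rw [h]; simp

/-- **Main criterion.** -/
theorem not_finiteDiff_of_scenarios (hyp : (1 / l + 1 / m + 1 / n : ℚ) < 1)
    (lt : Letter → Letter → Prop) [IsStrictTotalOrder Letter lt] (y : G3)
    (hlt : lt (crossLetter y false) (crossLetter y true))
    (H : ∀ Bd : ℤ, ∃ (L : Ladder (triMat l m n hl hm hn)) (G : Ch → ℤ) (K1 K2 ks k' B : ℕ),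
      L.Convex ∧ L.Straight ∧ L.Pot G ∧ L.Scenario G K1 K2 ks k' B ∧ L.r 0 = y ∧
        Bd < |L.hgt B|) : ¬ FiniteDiff l m n lt := by
  rintro ⟨S0, hfin, hS0⟩
  -- the finite set of possible powers
  let φ : E l m n × Letter × ℤˣ × G3 × ℤˣ → ExtE l m n := fun q =>
    SemidirectProduct.inl (q.1 * eval l m n [q.2.1]) *
      (SemidirectProduct.inr q.2.2.1 * refl l m n q.2.2.2.1 *
        (SemidirectProduct.inr q.2.2.2.2)⁻¹)⁻¹
  have hF : (φ '' (S0 ×ˢ Set.univ)).Finite := (hfin.prod Set.finite_univ).image φ
  have hinj : Function.Injective (fun a : ℤ => zE l m n ^ a) :=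
    fun a b h => zE_zpow_inj hyp hl hm hn h
  have hI : {a : ℤ | zE l m n ^ a ∈ φ '' (S0 ×ˢ Set.univ)}.Finite :=
    hF.preimage hinj.injOn
  obtain ⟨Bd, hBd⟩ : ∃ Bd : ℤ, ∀ a : ℤ, zE l m n ^ a ∈ φ '' (S0 ×ˢ Set.univ) → |a| ≤ Bd := by
    obtain ⟨Bd, hBd⟩ := (hI.image (fun a => |a|)).bddAbove
    exact ⟨Bd, fun a ha => hBd ⟨a, ha, rfl⟩⟩
  obtain ⟨L, G, K1, K2, ks, k', B, hconv, hSt, hG, S, hr0, hB⟩ := H Bd
  subst hr0
  -- the two elements
  have hc1 := S.refV_cost hG
  have hc2 := S.refV'_cost hG
  obtain ⟨u, hu, heu⟩ := exists_normalForm l m n lt (dec true (L.refV ks K2))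
  obtain ⟨v, hv, hev⟩ := exists_normalForm l m n lt (dec true (L.refV' k' K2))
  have hlu : u.length ≤ cost s1 (L.refV ks K2) := by
    rw [← length_dec true]
    rcases hu _ heu.symm with h | h
    · rw [h]
    · rw [List.shortlex_def] at h; omega
  have hlv : v.length ≤ cost s1 (L.refV' k' K2) := by
    rw [← length_dec true]
    rcases hv _ hev.symm with h | h
    · rw [h]
    · rw [List.shortlex_def] at h; omega
  obtain ⟨U, hU1, hU2, hU3⟩ := exists_tight hconv hSt hG _ u _ S.refV_run hc1 heu hlu
  obtain ⟨U', hU1', hU2', hU3'⟩ := exists_tight hconv hSt hG _ v _ S.refV'_run hc2 hev hlv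
  obtain ⟨R, hR⟩ := S.first_prefix hG hyp hU2 (by rw [hU3, S.extProd_refV])
  obtain ⟨R', hR'⟩ : ∃ R, U' = s1 :: L.r 0 :: (L.climb (L.pos' false B) (0, false, 0) ++ R) := by
    refine S.second_prefix hG hlt hU2' (w := dec true (L.climb (L.pos' false k' -
      L.pos' false 0) (0, false, 0) ++ L.r k' ::
      L.climb (L.pos' true K2 - L.pos' true k') (k', true, 0))) ?_
    have h1 : dec true (L.refV' k' K2) = crossLetter (L.r 0) false ::
        dec true (L.climb (L.pos' false k' - L.pos' false 0) (0, false, 0) ++ L.r k' ::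
          L.climb (L.pos' true K2 - L.pos' true k') (k', true, 0)) :=
      dec_start _ (hG.rung_ne 0) _
    rw [← h1, hU1']
    rcases hv _ hev.symm with h | h
    · left; exact h.symm
    · right
      rw [List.shortlex_def] at h
      rcases h with h | h
      · exfalso
        rw [length_dec] at h
        have := tight_length_le hconv hG _ v _ S.refV'_run hc2 hev
        omega
      · exact h.2
  -- the neighbouring property
  set yl := crossLetter (L.r K2) (parAfter true (L.refV ks K2)) with hyl
  have hmul : eval l m n (u ++ [yl]) = eval l m n v := by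
    have h1 : extProd l m n (L.refV ks K2 ++ [L.r K2]) = extProd l m n (L.refV' k' K2) := by
      rw [extProd_append, extProd_singleton, S.extProd_refV, S.extProd_refV', mul_assoc,
        extProd_word_false, ← mul_assoc, ← zpow_add]
      congr 2
      have := S.height
      omega
    rw [extProd_eq, extProd_eq] at h1
    have h2 := (left_of_eq h1).1
    have h3 : dec true (L.refV ks K2 ++ [L.r K2]) = dec true (L.refV ks K2) ++ [yl] := by
      rw [dec_append, dec_cons_ne _ (hG.rung_ne K2)]
      rfl
    rw [h3, eval_append] at h2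
    rw [eval_append, heu, h2, hev]
  have hdiff := hS0 (some yl) u v hu hv hmul
  -- prefixes
  set P := L.climb (L.pos' true B - 1) c0 with hP
  set Q := L.climb (L.pos' false B) (0, false, 0) with hQ
  have hu' : u = dec true P ++ dec (parAfter true P) R := by
    rw [← hU1, hR, dec_append]
  have hv' : v = (crossLetter (L.r 0) false :: dec true Q) ++ dec (parAfter true Q) R' := by
    rw [← hU1', hR', dec_start _ (hG.rung_ne 0), dec_append]
    rfl
  have hlenP : ((dec true P).length : ℤ) = G (B, true, 0) - G c0 := by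
    rw [length_dec]
    have := tight_climb (G := G) S.valid_c0 (S.iterate_c0 S.B1)
      (fun k _ hk => S.tightR1 k (by have := S.Bs; omega))
    rw [this]; ring
  have hlenQ : ((dec true Q).length : ℤ) = G (B, false, 0) - G (0, false, 0) := by
    rw [length_dec]
    have h0 := L.iterate_pos' false (Nat.zero_le B)
    simp only [pos', Nat.sub_zero] at h0
    have := tight_climb (G := G) (L.valid_zero 0 false) h0
      (fun k _ hk => S.tightL k (by
        have := S.Bs; have := S.sK; have := S.Kk; have := S.k2; omega))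
    rw [this]; ring
  have hlenPQ : (crossLetter (L.r 0) false :: dec true Q).length = (dec true P).length + 1 := by
    rw [List.length_cons]
    have h1 := S.offB
    have h2 := S.off0
    have h3 := S.G_c0 hG
    have : ((dec true Q).length : ℤ) = (dec true P).length := by
      rw [hlenP, hlenQ]; linarith
    omega
  have htu : u.take (dec true P).length = dec true P := take_of_append hu'
  obtain ⟨Λ, y', hΛ⟩ : ∃ Λ y', crossLetter (L.r 0) false :: dec true Q = Λ ++ [y'] := by
    have hne : crossLetter (L.r 0) false :: dec true Q ≠ [] := by simp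
    exact ⟨_, _, (List.dropLast_append_getLast hne).symm⟩
  have hlenΛ : Λ.length = (dec true P).length := by
    have := congrArg List.length hΛ
    rw [hlenPQ, List.length_append, List.length_singleton] at this
    omega
  have htv : v.take (dec true P).length = Λ := by
    rw [← hlenΛ]
    apply take_of_append (c := [y'] ++ dec (parAfter true Q) R')
    rw [hv', hΛ, List.append_assoc]
  have hd := hdiff (dec true P).length
  rw [htu, htv] at hd
  -- the value in the extended group
  have hEP : extProd l m n P = SemidirectProduct.inl (eval l m n (dec true P)) *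
      SemidirectProduct.inr ((-1) ^ P.length) := extProd_eq l m n P
  have hEQ : extProd l m n (s1 :: L.r 0 :: Q) =
      SemidirectProduct.inl (eval l m n Λ * eval l m n [y']) *
      SemidirectProduct.inr ((-1) ^ (s1 :: L.r 0 :: Q).length) := by
    rw [extProd_eq, dec_start _ (hG.rung_ne 0), hΛ, eval_append]
  have h1 : extProd l m n P = extProd l m n (L.word B true) :=
    S.extProd_climb (S.iterate_c0 S.B1)
  have h2 : extProd l m n (s1 :: L.r 0 :: Q) = extProd l m n (L.word B false) := by
    rw [extProd_start, hQ]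
    have h0 := L.iterate_pos' false (Nat.zero_le B)
    simp only [pos', Nat.sub_zero] at h0
    exact extProd_climb' h0
  have h3 := L.extProd_word B
  rw [← h1, ← h2, hEP, hEQ] at h3
  have h4 : zE l m n ^ (-L.hgt B) = φ ((eval l m n (dec true P))⁻¹ * eval l m n Λ, y',
      (-1) ^ P.length, L.r B, (-1) ^ (s1 :: L.r 0 :: Q).length) := by
    simp only [φ]
    set gP := eval l m n (dec true P)
    set gΛ := eval l m n Λ
    set gy := eval l m n [y']
    set ι := (SemidirectProduct.inl : E l m n →* ExtE l m n)
    set e1 := (SemidirectProduct.inr ((-1 : ℤˣ) ^ P.length) : ExtE l m n)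
    set e2 := (SemidirectProduct.inr ((-1 : ℤˣ) ^ (s1 :: L.r 0 :: Q).length) : ExtE l m n)
    set ρ := refl l m n (L.r B)
    set z := zE l m n
    -- h3 : ι gP * e1 * ρ = z ^ h * (ι (gΛ * gy) * e2)
    have hcomm : ι gP * z ^ (-L.hgt B) = z ^ (-L.hgt B) * ι gP := inl_mul_zE l m n gP _
    rw [eq_mul_inv_iff_mul_eq, map_mul, map_mul, map_inv]
    rw [map_mul] at h3
    have h5 : z ^ (-L.hgt B) * (ι gP * e1 * ρ) = ι gΛ * ι gy * e2 := by
      rw [h3, ← mul_assoc, ← zpow_add]; simp
    calc z ^ (-L.hgt B) * (e1 * ρ * e2⁻¹)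
        = (ι gP)⁻¹ * (ι gP * z ^ (-L.hgt B)) * e1 * ρ * e2⁻¹ := by group
      _ = (ι gP)⁻¹ * (z ^ (-L.hgt B) * (ι gP * e1 * ρ)) * e2⁻¹ := by rw [hcomm]; group
      _ = (ι gP)⁻¹ * ι gΛ * ι gy := by rw [h5]; group
  have h5 := hBd (-L.hgt B) (by rw [h4]; exact ⟨_, ⟨hd, Set.mem_univ _⟩, rfl⟩)
  rw [abs_neg] at h5
  omega

end Pool.Agent.SLE
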