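import Pool.Agent.SLE.Gen2

/-!
# The concrete ladders: convexity, scenario and the main theorem for large parameters
-/

namespace Pool.Agent.SLE

open List G3 CoxeterSystem Ladder

set_option linter.unusedSimpArgs false

namespace Gen

variable {l m n K p : ℕ}
variable (H : Hyp l m n K p) (hl : 2 ≤ l) (hm : 2 ≤ m) (hn : 2 ≤ n)

include H in
/-- Sides of length one. -/
theorem len_one {k : ℕ} {σ : Bool} (h : len l m n K p k σ = 1) :
    (k = K ∧ σ = false ∧ p = 1) ∨
      (k ≠ K ∧ idx K k % 2 = 0 ∧ q l m n K k = 3 ∧ σ ≠ long l m n K k) := by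
  have h3 := H.pm
  have h4 := H.podd
  have h5 := H.m3
  have h6 := q_ge H k
  by_cases hk : k = K
  · left
    subst hk
    rw [len_K] at h
    cases σ
    · exact ⟨rfl, rfl, by simpa using h⟩
    · simp only [if_true] at h; omega
  · right
    rcases Nat.mod_two_eq_zero_or_one (idx K k) with h1 | h1
    · refine ⟨hk, h1, ?_⟩
      rcases Nat.mod_two_eq_zero_or_one (q l m n K k) with h2 | h2
      · rw [len_even_even _ hk h1 h2] at h; omega
      · rw [len_even_odd _ hk h1 h2] at h
        split_ifs at h with h7
        · omega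
        · exact ⟨by omega, h7⟩
    · rw [len_odd _ hk h1] at h; omega

include H in
theorem long_even {k : ℕ} {σ : Bool} (hk : k ≠ K) (h1 : idx K k % 2 = 0)
    (h : σ = long l m n K k) : 3 ≤ len l m n K p k σ := by
  have h6 := q_ge H k
  have h7 := len_even_parity H σ hk h1
  rcases Nat.mod_two_eq_zero_or_one (q l m n K k) with h2 | h2
  · rw [len_even_even _ hk h1 h2] at h7 ⊢; omega
  · rw [len_even_odd _ hk h1 h2, if_pos h]; omega

include H in
theorem not_two_ones {k : ℕ} {σ : Bool} (h : len l m n K p k σ = 1) :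
    len l m n K p (k + 1) σ ≠ 1 := by
  intro h'
  have hK := H.K8
  rcases len_one H h with ⟨h1, h2, h3⟩ | ⟨h1, h2, h3, h4⟩
  · subst h1
    have h5 : idx k (k + 1) % 2 = 0 := by have := idx_succ_K hK; omega
    have ho : o l m n k (k + 1) = -1 := by simp [o]
    have h6 : σ = long l m n k (k + 1) := by
      rw [h2]; unfold long
      rw [if_neg (by omega), ho]; simp
    have := long_even (l := l) (m := m) (n := n) (p := p) H (by omega) h5 h6
    omega
  · have h5 : idx K (k + 1) % 2 = 1 := by rw [idx_succ hK h1]; omega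
    rcases len_one H h' with ⟨h6, h7, h8⟩ | ⟨h6, h7, h8, h9⟩
    · have h10 := H.p1 h8
      have h11 : r m K k = s0 := by
        unfold r pr
        rw [idx_le (by omega)]
        have : k % 4 < 2 := by omega
        simp [this]
      rcases q_even (l := l) (m := m) (n := n) h2 with ⟨-, h12⟩ | ⟨h12, -⟩
      · omega
      · rw [h11] at h12; cases h12
    · omega

theorem μ_even {k : ℕ} (h : idx K k % 2 = 0) :
    (q l m n K k = l ∧ (ladder H hl hm hn).μ k = n) ∨
      (m % 2 = 1 ∧ q l m n K k = n ∧ (ladder H hl hm hn).μ k = l) := by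
  have h1 : (ladder H hl hm hn).x k = s1 := x_even h
  rcases q_even (l := l) (m := m) (n := n) h with ⟨h2, h3⟩ | ⟨h2, h4, h3⟩
  · left
    refine ⟨h3, ?_⟩
    have h2' : (ladder H hl hm hn).r k = s0 := h2
    unfold μ
    rw [h1, h2']; rfl
  · right
    refine ⟨h4, h3, ?_⟩
    have h2' : (ladder H hl hm hn).r k = s2 := h2
    unfold μ
    rw [h1, h2']; rfl

theorem third_odd {k : ℕ} (h : idx K k % 2 = 1) :
    third ((ladder H hl hm hn).x k) ((ladder H hl hm hn).r k) = s1 := by
  change third (px m (idx K k)) (pr m (idx K k)) = s1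
  rw [px_odd h]
  rcases pr_mem m (idx K k) with h1 | h1 <;> rw [h1] <;> rfl

theorem third_even {k : ℕ} (h : idx K k % 2 = 0) :
    third ((ladder H hl hm hn).x k) ((ladder H hl hm hn).r k) ≠ s1 := by
  have := (ladder H hl hm hn).third_left k
  have h1 : (ladder H hl hm hn).x k = s1 := x_even h
  rwa [h1] at this ⊢

theorem μ_odd {k : ℕ} (h : idx K k % 2 = 1) :
    (ladder H hl hm hn).μ k = n ∨ (m % 2 = 1 ∧ (ladder H hl hm hn).μ k = l) := by
  unfold μ
  rw [third_odd H hl hm hn h]
  change (triMat l m n hl hm hn) (px m (idx K k)) s1 = n ∨ _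
  rw [px_odd h]
  unfold pr
  split_ifs with h1 h2
  · left; rfl
  · left; rfl
  · right; exact ⟨by omega, by
      change (triMat l m n hl hm hn) (px m (idx K k)) s1 = l
      rw [px_odd h]
      unfold pr
      rw [if_neg h1, if_neg h2]; rfl⟩

/-- The type of the boundary vertices on sides of length one. -/
theorem μ_one {k : ℕ} {σ : Bool} (h : len l m n K p k σ = 1) :
    4 ≤ (ladder H hl hm hn).μ k ∧ (k ≠ K → 5 ≤ (ladder H hl hm hn).μ k) := by
  have hK := H.K8
  rcases len_one H h with ⟨h1, h2, h3⟩ | ⟨h1, h2, h3, h4⟩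
  · subst h1
    refine ⟨?_, fun h => absurd rfl h⟩
    have h5 := H.p1 h3
    rcases μ_odd H hl hm hn (k := k) (by rw [idx_K]; omega) with h6 | ⟨-, h6⟩ <;> omega
  · rcases μ_even H hl hm hn h2 with ⟨h5, h6⟩ | ⟨h5, h6, h7⟩
    · have := H.l5 (by omega)
      constructor
      · omega
      · intro _; omega
    · have := H.n5 (by omega) h5
      constructor
      · omega
      · intro _; omega

theorem μ_ge (k : ℕ) : 3 ≤ (ladder H hl hm hn).μ k := by
  have h1 := H.l3
  have h2 := H.n3
  rcases Nat.mod_two_eq_zero_or_one (idx K k) with h | h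
  · rcases μ_even H hl hm hn h with ⟨-, h6⟩ | ⟨-, -, h7⟩ <;> omega
  · rcases μ_odd H hl hm hn h with h6 | ⟨-, h6⟩ <;> omega

include H in
theorem ones_le {k : ℕ} {σ : Bool} {i : ℕ} (h : ∀ j < i, len l m n K p (k + j) σ = 1) :
    i ≤ 1 := by
  by_contra hcon
  exact not_two_ones H (h 0 (by omega)) (h 1 (by omega))

theorem convex : (ladder H hl hm hn).Convex := by
  intro k σ i h
  have h1 := ones_le H h
  have h2 := μ_ge H hl hm hn k
  rcases Nat.eq_zero_or_pos i with h3 | h3
  · omega
  · have := (μ_one H hl hm hn (k := k) (σ := σ) (h 0 h3)).1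
    omega

theorem straight : (ladder H hl hm hn).Straight where
  rung k := r_ne k
  three := by
    intro t ht
    have h1 := H.l3
    have h2 := H.n3
    cases t
    · exact h1
    · exact absurd rfl ht
    · exact h2
  three' := by
    intro s t hst hs ht
    have h1 := H.m3
    cases s <;> cases t <;>
      first
        | exact absurd rfl hst
        | exact absurd rfl hs
        | exact absurd rfl ht
        | exact h1
  two := by
    intro k σ hk
    have hodd : idx K k % 2 = 0 := by
      by_contra hcon
      exact x_ne_odd (m := m) (K := K) (k := k) (by omega) hk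
    have hkK : k ≠ K := by
      intro h
      subst h
      rw [idx_K] at hodd
      have := H.K8; omega
    exact (len_even_parity H σ hkK hodd).2.1
  up := by
    intro k σ i hk h hμ
    have h1 := ones_le H h
    rcases Nat.eq_zero_or_pos i with h3 | h3
    · exact h3
    · exfalso
      have hkK : k ≠ K := by
        intro h4
        subst h4
        exact x_ne_odd (m := m) (K := k) (k := k) (by rw [idx_K]; have := H.K8; omega) hk
      have := (μ_one H hl hm hn (k := k) (σ := σ) (h 0 h3)).2 hkK
      omega
  down := by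
    intro k σ i hk h hμ
    have h1 := ones_le H h
    rcases Nat.eq_zero_or_pos i with h3 | h3
    · exact h3
    · exfalso
      have hi : i = 1 := by omega
      subst hi
      have hkK : k ≠ K := by
        intro h4
        subst h4
        exact third_even H hl hm hn (k := k + 1)
          (by have := idx_succ_K H.K8; have := H.K8; omega) hk
      have := (μ_one H hl hm hn (k := k) (σ := σ) (h 0 h3)).2 hkK
      omega

theorem Hp_mul (m i : ℕ) : Hp m (8 * i) = if m % 2 = 0 then 4 * (i : ℤ) else 2 * i := by
  unfold Hp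
  have h1 : ¬ (8 * i) % 4 = 2 := by omega
  rw [if_neg h1]
  split_ifs <;> omega

theorem scenario {N : ℕ} (hN : 2 ≤ N) (hK : K = 8 * N + 1) :
    (ladder H hl hm hn).Scenario (G l m n K p) K (2 * K) (8 * N) (K + 1) (8 * (N - 1)) where
  x0 := x_even (m := m) (K := K) (k := 0) (by simp [idx])
  len0 := by
    have hr : (ladder H hl hm hn).len 0 true = len l m n K p 0 true := rfl
    rw [hr]
    have h2 : (true : Bool) = long l m n K 0 := by
      unfold long
      rw [if_pos (by omega)]; simp [o]
    have := long_even (l := l) (m := m) (n := n) (K := K) (p := p) H (k := 0) (by omega)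
      (by simp [idx]) h2
    omega
  zone1 := by
    intro k hk
    rw [G_zero H, G_zero H]
    have h1 := offset H k
    rcases (o_range (l := l) (m := m) (n := n) (K := K) k).1 hk with h | h <;> linarith
  zone2 := by
    intro k hk
    rw [G_zero H, G_zero H]
    have h1 := offset H k
    rcases (o_range (l := l) (m := m) (n := n) (K := K) k).2 hk with h | h <;> linarith
  off0 := by rw [G_zero H, G_zero H]; simp [G0]
  offs := by
    rw [G_zero H, G_zero H]
    have h1 := offset H (8 * N)
    rw [o_mul1 H.K8 N (by omega)] at h1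
    linarith
  offk' := by
    rw [G_zero H, G_zero H]
    have h1 := offset H (K + 1)
    have h2 := o_mul2 (l := l) (m := m) (n := n) H.K8 0
    simp only [Nat.mul_zero, Nat.add_zero] at h2
    rw [h2] at h1
    linarith
  tightR1 := by
    intro k hk
    exact tight_normal H hl hm hn (by omega)
  tightL := by
    intro k hk
    exact tight_normal H hl hm hn (by simp)
  tightR2 := by
    intro k hk hk2
    exact tight_normal H hl hm hn (by omega)
  B1 := by omega
  Bs := by omega
  sK := by omega
  Kk := by omega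
  k2 := by omega
  lenK2 := by
    have hr : (ladder H hl hm hn).len (2 * K) false = len l m n K p (2 * K) false := rfl
    rw [hr]
    have h3 := o_mul2 (l := l) (m := m) (n := n) H.K8 N
    rw [show K + 1 + 8 * N = 2 * K by omega] at h3
    have h2 : (false : Bool) = long l m n K (2 * K) := by
      unfold long
      rw [if_neg (by omega), h3]; simp
    have := long_even (l := l) (m := m) (n := n) (K := K) (p := p) H (k := 2 * K) (by omega)
      (by rw [idx_gt (by omega)]; omega) h2
    omega
  height := by
    rw [hgt_eq, hgt_eq, hgt_eq, idx_gt (by omega), idx_gt (by omega), idx_le (by omega),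
      if_neg (by omega), if_neg (by omega), if_pos (by omega)]
    rw [show K + 1 - 2 = 8 * N by omega, show 2 * K - 2 = 8 * (2 * N) by omega, Hp_mul, Hp_mul]
    split_ifs <;> push_cast <;> ring
  only := by
    intro k hk _ hh
    rw [hgt_eq, hgt_eq, idx_le hk, idx_le (by omega), if_pos hk, if_pos (by omega), Hp_mul] at hh
    unfold Hp at hh
    split_ifs at hh <;> omega
  offB := by
    rw [G_zero H, G_zero H]
    have h1 := offset H (8 * (N - 1))
    rw [o_mul1 H.K8 (N - 1) (by omega)] at h1
    linarith

/-- **No finite difference property**, for the orders with `a⁻¹ < a`. -/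
theorem not_finiteDiff_of_lt {l m n : ℕ} (p : ℕ) (hl3 : 3 ≤ l) (hm3 : 3 ≤ m) (hn3 : 3 ≤ n)
    (hp : p + 2 ≤ m) (hodd : p % 2 = 1) (h1 : p = 1 → 4 ≤ l ∧ 4 ≤ n) (h2 : l = 3 → 5 ≤ n)
    (h3 : n = 3 → m % 2 = 1 → 5 ≤ l) (hyp : (1 / l + 1 / m + 1 / n : ℚ) < 1)
    (lt : Letter → Letter → Prop) [IsStrictTotalOrder Letter lt]
    (hlt : lt (0, false) (0, true)) : ¬ FiniteDiff l m n lt := by
  have hl : 2 ≤ l := by omega
  have hm : 2 ≤ m := by omega
  have hn : 2 ≤ n := by omega
  refine not_finiteDiff_of_scenarios (hl := hl) (hm := hm) (hn := hn) hyp lt s0 hlt ?_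
  intro Bd
  have H : Hyp l m n (8 * (Bd.toNat + 2) + 1) p :=
    ⟨hl3, hm3, hn3, hp, hodd, by omega, h1, h2, h3⟩
  refine ⟨ladder H hl hm hn, G l m n (8 * (Bd.toNat + 2) + 1) p, _, _, _, _, _,
    convex H hl hm hn, straight H hl hm hn, pot H hl hm hn,
    scenario H hl hm hn (N := Bd.toNat + 2) (by omega) rfl, ?_, ?_⟩
  · change pr m (idx _ 0) = s0
    simp [idx, pr]
  · rw [hgt_eq, idx_le (by omega), if_pos (by omega), Hp_mul]
    have hb := Int.self_le_toNat Bd
    have e1 : Bd.toNat + 2 - 1 = Bd.toNat + 1 := by omega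
    rw [e1, sub_zero, abs_neg]
    split_ifs
    · rw [abs_of_nonneg (by positivity)]
      push_cast; linarith [Int.natCast_nonneg Bd.toNat]
    · rw [abs_of_nonneg (by positivity)]
      push_cast; linarith [Int.natCast_nonneg Bd.toNat]

end Gen

end Pool.Agent.SLE
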