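import Pool.Agent.SLE.Auto

/-!
# Reduction to orders with `a⁻¹ < a`
-/

namespace Pool.Agent.SLE

instance flipLt_order (lt : Letter → Letter → Prop) [IsStrictTotalOrder Letter lt] :
    IsStrictTotalOrder Letter (flipLt lt) where
  trichotomous a b h1 h2 := by
    have := Std.Trichotomous.trichotomous (r := lt) (flip a) (flip b) h1 h2
    have h3 := congrArg flip this
    rwa [flip_flip, flip_flip] at h3
  irrefl a h := irrefl_of lt _ h
  trans a b c h1 h2 := trans_of lt h1 h2

/-- It is enough to exclude orders with `y⁻¹ < y`. -/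
theorem not_shortlexAutomatic_of (l m n : ℕ) (i : Fin 2)
    (h : ∀ (lt : Letter → Letter → Prop) [IsStrictTotalOrder Letter lt], lt (i, false) (i, true) →
      ¬ FiniteDiff l m n lt)
    (lt : Letter → Letter → Prop) [IsStrictTotalOrder Letter lt] : ¬ ShortlexAutomatic l m n lt := by
  intro hs
  have hf := finiteDiff_of_shortlexAutomatic l m n lt hs
  by_cases h1 : lt (i, false) (i, true)
  · exact h lt h1 hf
  · by_cases h2 : lt (i, true) (i, false)
    · exact h (flipLt lt) h2 (finiteDiff_flip l m n lt hf)
    · have := Std.Trichotomous.trichotomous (r := lt) _ _ h1 h2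
      simp at this

end Pool.Agent.SLE
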