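import Pool.Agent.SLE.Tiles.All
import Pool.Agent.SLE.F6
import Pool.Agent.SLE.F7
import Pool.Agent.SLE.FamA
import Pool.Agent.SLE.FamB1
import Pool.Agent.SLE.FamB2
import Pool.Agent.SLE.FamC1
import Pool.Agent.SLE.FamC2
import Pool.Agent.SLE.FamC3
import Pool.Agent.SLE.FamD
import Pool.Agent.SLE.FamD4
import Pool.Agent.SLE.FamF4
import Pool.Agent.SLE.Gen3
import Pool.Agent.SLE.Order

/-!
# `E(l,m,n)` never has the finite difference property
-/

namespace Pool.Agent.SLE

theorem hyp_of_large {l m n : ℕ} (hl : 3 ≤ l) (hm : 3 ≤ m) (hn : 3 ≤ n)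
    (h : 5 ≤ l ∨ 5 ≤ m ∨ 5 ≤ n ∨ (4 ≤ l ∧ 4 ≤ n)) :
    (1 / l + 1 / m + 1 / n : ℚ) < 1 := by
  have key : ∀ a b : ℕ, 0 < b → b ≤ a → (1 / a : ℚ) ≤ 1 / b := by
    intro a b hb hab
    have h0 : (0 : ℚ) < b := by exact_mod_cast hb
    have h1 : (b : ℚ) ≤ a := by exact_mod_cast hab
    exact one_div_le_one_div_of_le h0 h1
  have l3 := key l 3 (by norm_num) hl
  have m3 := key m 3 (by norm_num) hm
  have n3 := key n 3 (by norm_num) hn
  push_cast at l3 m3 n3
  rcases h with h | h | h | ⟨h, h'⟩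
  · have := key l 5 (by norm_num) h
    push_cast at this
    linarith
  · have := key m 5 (by norm_num) h
    push_cast at this
    linarith
  · have := key n 5 (by norm_num) h
    push_cast at this
    linarith
  · have h1 := key l 4 (by norm_num) h
    have h2 := key n 4 (by norm_num) h'
    push_cast at h1 h2
    linarith

/-- It is enough to exclude orders with `y⁻¹ < y`. -/
theorem notFD_of_lt (l m n : ℕ) (i : Fin 2)
    (h : ∀ (lt : Letter → Letter → Prop) [IsStrictTotalOrder Letter lt], lt (i, false) (i, true) →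
      ¬ FiniteDiff l m n lt)
    (lt : Letter → Letter → Prop) [IsStrictTotalOrder Letter lt] : ¬ FiniteDiff l m n lt := by
  intro hf
  by_cases h1 : lt (i, false) (i, true)
  · exact h lt h1 hf
  · by_cases h2 : lt (i, true) (i, false)
    · exact h (flipLt lt) h2 (finiteDiff_flip l m n lt hf)
    · have := Std.Trichotomous.trichotomous (r := lt) _ _ h1 h2
      simp at this

theorem notFD_large {l m n : ℕ} (hl : 3 ≤ l) (hm : 3 ≤ m) (hn : 3 ≤ n)
    (h : (4 ≤ l ∧ 4 ≤ n) ∨ (5 ≤ m ∧ (l = 3 → 5 ≤ n) ∧ (n = 3 → m % 2 = 1 → 5 ≤ l)))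
    (lt : Letter → Letter → Prop) [IsStrictTotalOrder Letter lt] :
    ¬ FiniteDiff l m n lt := by
  refine notFD_of_lt l m n 0 ?_ lt
  intro lt _ hlt
  rcases h with ⟨h1, h2⟩ | ⟨h1, h2, h3⟩
  · exact Gen.not_finiteDiff_of_lt 1 hl hm hn (by omega) rfl (fun _ => ⟨h1, h2⟩)
      (fun h => by omega) (fun h => by omega)
      (hyp_of_large hl hm hn (Or.inr (Or.inr (Or.inr ⟨h1, h2⟩)))) lt hlt
  · exact Gen.not_finiteDiff_of_lt 3 hl hm hn (by omega) rfl (fun h => by omega)
      h2 h3 (hyp_of_large hl hm hn (Or.inr (Or.inl h1))) lt hlt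

/-- `l = 2` and `m` even. -/
theorem notFD_even {m n : ℕ} (hm : 4 ≤ m) (he : m % 2 = 0) (hn : 5 ≤ n)
    (lt : Letter → Letter → Prop) [IsStrictTotalOrder Letter lt] : ¬ FiniteDiff 2 m n lt := by
  have key : ∀ (lt : Letter → Letter → Prop) [IsStrictTotalOrder Letter lt], lt lB lB' →
      ¬ FiniteDiff 2 m n lt := by
    intro lt _ h
    by_cases h1 : lt lA lB
    · exact notFD_B2 hm he hn lt h (Or.inl h1)
    · by_cases h2 : lt lA' lB
      · exact notFD_B2 hm he hn lt h (Or.inr h2)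
      · refine notFD_B1 hm he hn lt ?_ ?_
        · rcases trichotomous_of lt lA lB with h3 | h3 | h3
          · exact absurd h3 h1
          · exact absurd h3 (by decide)
          · exact h3
        · rcases trichotomous_of lt lA' lB with h3 | h3 | h3
          · exact absurd h3 h2
          · exact absurd h3 (by decide)
          · exact h3
  rcases trichotomous_of lt lB lB' with h1 | h1 | h1
  · exact key lt h1
  · exact absurd h1 (by decide)
  · intro hF
    exact key (flipLt lt) h1 (finiteDiff_flip 2 m n lt hF)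

/-- `m = 2`. -/
theorem notFD_m_two {l n : ℕ} (hl : 2 ≤ l) (hn : 2 ≤ n) (key : 2 * n + l * n + l * 2 < l * 2 * n)
    (lt : Letter → Letter → Prop) [IsStrictTotalOrder Letter lt] : ¬ FiniteDiff l 2 n lt := by
  rcases (show l = 2 ∨ l = 3 ∨ l = 4 ∨ 5 ≤ l by omega) with rfl | rfl | rfl | h
  · omega
  · rcases (show n = 7 ∨ 8 ≤ n by omega) with rfl | h
    · exact notFD_327 lt
    · exact notFD_c2 h lt
  · rcases (show n = 5 ∨ 6 ≤ n by omega) with rfl | h
    · exact notFD_425 lt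
    · exact notFD_c1 le_rfl (by omega) (fun _ => h) lt
  · rcases (show n = 2 ∨ n = 3 ∨ 4 ≤ n by omega) with rfl | rfl | h'
    · omega
    · exact notFD_c3 (by omega) lt
    · exact notFD_c1 (by omega) h' (fun h => by omega) lt

/-- `l = 2`. -/
theorem notFD_l_two {m n : ℕ} (hm : 3 ≤ m) (hn : 2 ≤ n) (key : m * n + 2 * n + 2 * m < 2 * m * n)
    (lt : Letter → Letter → Prop) [IsStrictTotalOrder Letter lt] : ¬ FiniteDiff 2 m n lt := by
  rcases (show n = 2 ∨ n = 3 ∨ n = 4 ∨ 5 ≤ n by omega) with rfl | rfl | rfl | h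
  · omega
  · exact notFD_b5 (by omega) lt
  · exact not_finiteDiff_F6 (by omega) lt
  · rcases Nat.mod_two_eq_zero_or_one m with h2 | h2
    · exact notFD_even (by omega) h2 h lt
    · rcases (show m = 3 ∨ 5 ≤ m by omega) with rfl | h3
      · exact notFD_b4 (by omega) lt
      · exact notFD_b3 h3 h2 h lt

/-- `n = 2`. -/
theorem notFD_n_two {l m : ℕ} (hl : 3 ≤ l) (hm : 3 ≤ m) (key : m * 2 + l * 2 + l * m < l * m * 2)
    (lt : Letter → Letter → Prop) [IsStrictTotalOrder Letter lt] : ¬ FiniteDiff l m 2 lt := by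
  rcases (show l = 3 ∨ l = 4 ∨ 5 ≤ l by omega) with rfl | rfl | h
  · exact notFD_a4 (by omega) lt
  · exact notFD_42 (by omega) lt
  · rcases (show m = 3 ∨ 4 ≤ m by omega) with rfl | h2
    · exact notFD_n2 (Or.inr ⟨by omega, rfl⟩) lt
    · exact notFD_n2 (Or.inl ⟨h, h2⟩) lt

/-- `l = 3` and `m, n ≥ 3`. -/
theorem notFD_l_three {m n : ℕ} (hm : 3 ≤ m) (hn : 3 ≤ n)
    (key : m * n + 3 * n + 3 * m < 3 * m * n)
    (lt : Letter → Letter → Prop) [IsStrictTotalOrder Letter lt] : ¬ FiniteDiff 3 m n lt := by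
  rcases (show n = 3 ∨ n = 4 ∨ n = 5 ∨ 6 ≤ n by omega) with rfl | rfl | rfl | h
  · exact not_finiteDiff_F7 (by omega) lt
  · rcases (show m = 3 ∨ 4 ≤ m by omega) with rfl | h2
    · exact notFD_334 lt
    · exact notFD_F4 h2 lt
  · rcases (show m = 3 ∨ m = 4 ∨ 5 ≤ m by omega) with rfl | rfl | h2
    · exact notFD_335 lt
    · exact notFD_d1 le_rfl lt
    · exact notFD_large le_rfl hm hn (Or.inr ⟨h2, fun _ => le_rfl, fun h => by omega⟩) lt
  · rcases (show m = 3 ∨ m = 4 ∨ 5 ≤ m by omega) with rfl | rfl | h2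
    · exact notFD_d2 h lt
    · exact notFD_d1 (by omega) lt
    · exact notFD_large le_rfl hm hn (Or.inr ⟨h2, fun _ => by omega, fun h => by omega⟩) lt

/-- `n = 3` and `l ≥ 4`, `m ≥ 3`. -/
theorem notFD_n_three {l m : ℕ} (hl : 4 ≤ l) (hm : 3 ≤ m)
    (lt : Letter → Letter → Prop) [IsStrictTotalOrder Letter lt] : ¬ FiniteDiff l m 3 lt := by
  rcases (show l = 4 ∨ l = 5 ∨ 6 ≤ l by omega) with rfl | rfl | h
  · rcases (show m = 3 ∨ m = 4 ∨ 5 ≤ m by omega) with rfl | rfl | h2
    · exact notFD_433 lt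
    · exact notFD_443 lt
    · rcases Nat.mod_two_eq_zero_or_one m with h3 | h3
      · exact notFD_large (by omega) hm le_rfl
          (Or.inr ⟨h2, fun h => by omega, fun _ h => by omega⟩) lt
      · exact notFD_F5 h2 h3 lt
  · rcases (show m = 3 ∨ m = 4 ∨ 5 ≤ m by omega) with rfl | rfl | h2
    · exact notFD_533 lt
    · exact notFD_d3 le_rfl lt
    · exact notFD_large (by omega) hm le_rfl
        (Or.inr ⟨h2, fun h => by omega, fun _ _ => by omega⟩) lt
  · rcases (show m = 3 ∨ m = 4 ∨ 5 ≤ m by omega) with rfl | rfl | h2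
    · exact notFD_d4 h lt
    · exact notFD_d3 (by omega) lt
    · exact notFD_large (by omega) hm le_rfl
        (Or.inr ⟨h2, fun h => by omega, fun _ _ => by omega⟩) lt

/-- The condition on the parameters in integers. -/
theorem hyp_nat {l m n : ℕ} (hl : 0 < l) (hm : 0 < m) (hn : 0 < n)
    (h : (1 / l + 1 / m + 1 / n : ℚ) < 1) : m * n + l * n + l * m < l * m * n := by
  have h1 : (0 : ℚ) < l := by exact_mod_cast hl
  have h2 : (0 : ℚ) < m := by exact_mod_cast hm
  have h3 : (0 : ℚ) < n := by exact_mod_cast hn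
  have h4 : (1 / l + 1 / m + 1 / n : ℚ) * (l * m * n) < 1 * (l * m * n) :=
    mul_lt_mul_of_pos_right h (by positivity)
  have h5 : (1 / l + 1 / m + 1 / n : ℚ) * (l * m * n) = m * n + l * n + l * m := by
    field_simp
  rw [h5, one_mul] at h4
  exact_mod_cast h4

/-- **`E(l,m,n)` never has the finite difference property.** -/
theorem not_finiteDiff_full {l m n : ℕ} (hl : 0 < l) (hm : 0 < m) (hn : 0 < n)
    (h : (1 / l + 1 / m + 1 / n : ℚ) < 1)
    (lt : Letter → Letter → Prop) [IsStrictTotalOrder Letter lt] : ¬ FiniteDiff l m n lt := by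
  have key := hyp_nat hl hm hn h
  have hl2 : 2 ≤ l := by
    rcases (show l = 1 ∨ 2 ≤ l by omega) with rfl | h
    · nlinarith
    · exact h
  have hm2 : 2 ≤ m := by
    rcases (show m = 1 ∨ 2 ≤ m by omega) with rfl | h
    · nlinarith
    · exact h
  have hn2 : 2 ≤ n := by
    rcases (show n = 1 ∨ 2 ≤ n by omega) with rfl | h
    · nlinarith
    · exact h
  rcases (show m = 2 ∨ 3 ≤ m by omega) with rfl | hm3
  · exact notFD_m_two hl2 hn2 key lt
  rcases (show l = 2 ∨ 3 ≤ l by omega) with rfl | hl3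
  · exact notFD_l_two hm3 hn2 key lt
  rcases (show n = 2 ∨ 3 ≤ n by omega) with rfl | hn3
  · exact notFD_n_two hl3 hm3 key lt
  rcases (show l = 3 ∨ 4 ≤ l by omega) with rfl | hl4
  · exact notFD_l_three hm3 hn3 key lt
  rcases (show n = 3 ∨ 4 ≤ n by omega) with rfl | hn4
  · exact notFD_n_three hl4 hm3 lt
  exact notFD_large hl3 hm3 hn3 (Or.inl ⟨hl4, hn4⟩) lt

end Pool.Agent.SLE
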