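import Pool.Agent.SLE.Final

/-!
# The concrete ladders
-/

namespace Pool.Agent.SLE

open List G3 CoxeterSystem Ladder

theorem cost_alt_one {r : G3} (hr : r ≠ s1) (j : ℕ) :
    cost s1 (alt s1 r j) = j / 2 ∧ cost s1 (alt r s1 j) = (j + 1) / 2 := by
  induction j with
  | zero => simp
  | succ j ih =>
    rw [alt_succ, alt_succ, cost_cons_self, cost_cons_ne s1 hr, ih.1, ih.2]
    constructor
    · rfl
    · omega

theorem cost_alt_two {x r : G3} (hx : x ≠ s1) (hr : r ≠ s1) (j : ℕ) :
    cost s1 (alt x r j) = j := by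
  induction j generalizing x r with
  | zero => simp
  | succ j ih => rw [alt_succ, cost_cons_ne s1 hx, ih hr hx]

namespace Gen

/-- Rung letters of the pattern. -/
def pr (m i : ℕ) : G3 := if m % 2 = 0 then s0 else if i % 4 < 2 then s0 else s2

/-- First letters of the pattern. -/
def px (m i : ℕ) : G3 := if i % 2 = 0 then s1 else third (pr m i) s1

theorem pr_mem (m i : ℕ) : pr m i = s0 ∨ pr m i = s2 := by
  unfold pr; split_ifs <;> simp

theorem pr_ne (m i : ℕ) : pr m i ≠ s1 := by
  rcases pr_mem m i with h | h <;> rw [h] <;> simp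

theorem px_even {m i : ℕ} (h : i % 2 = 0) : px m i = s1 := by simp [px, h]

theorem px_odd {m i : ℕ} (h : i % 2 = 1) : px m i = third (pr m i) s1 := by simp [px, h]

theorem third_s1_ne (m i : ℕ) : third (pr m i) s1 ≠ s1 := third_ne_right (pr_ne m i)

theorem px_ne_pr (m i : ℕ) : px m i ≠ pr m i := by
  rcases Nat.mod_two_eq_zero_or_one i with h | h
  · rw [px_even h]; exact (pr_ne m i).symm
  · rw [px_odd h]; exact third_ne_left (pr_ne m i)

theorem pr_succ_even {m i : ℕ} (h : i % 2 = 0) : pr m (i + 1) = pr m i := by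
  unfold pr
  by_cases h1 : i % 4 < 2
  · have h2 : (i + 1) % 4 < 2 := by omega
    simp [h1, h2]
  · have h2 : ¬ (i + 1) % 4 < 2 := by omega
    simp [h1, h2]

theorem pr_succ_odd_even {m i : ℕ} (hm : m % 2 = 0) : pr m (i + 1) = pr m i := by
  simp [pr, hm]

theorem pr_succ_odd_odd {m i : ℕ} (hm : m % 2 = 1) (h : i % 2 = 1) :
    pr m (i + 1) = third (pr m i) s1 := by
  unfold pr
  have hm' : ¬ m % 2 = 0 := by omega
  by_cases h1 : i % 4 < 2
  · have h2 : ¬ (i + 1) % 4 < 2 := by omega
    simp [h1, h2, hm, third]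
  · have h2 : (i + 1) % 4 < 2 := by omega
    simp [h1, h2, hm, third]

theorem px_succ (m i : ℕ) : px m (i + 1) = third (px m i) (pr m i) := by
  rcases Nat.mod_two_eq_zero_or_one i with h | h
  · rw [px_even h, px_odd (by omega), pr_succ_even h]
    rcases pr_mem m i with h1 | h1 <;> rw [h1] <;> rfl
  · rw [px_odd h, px_even (by omega)]
    rcases pr_mem m i with h1 | h1 <;> rw [h1] <;> rfl

section

variable (l m n K p : ℕ)

/-- The pattern index of a cell. -/
def idx (k : ℕ) : ℕ := if k ≤ K then k else k - 2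

/-- Rung letters. -/
def r (k : ℕ) : G3 := pr m (idx K k)

/-- First letters. -/
def x (k : ℕ) : G3 := px m (idx K k)

/-- Half of the number of edges of a cell. -/
def q (k : ℕ) : ℕ := triFun l m n (x m K k) (r m K k)

/-- The cells at which the offset changes. -/
def tog (k : ℕ) : Bool := decide (idx K k % 2 = 0) && decide (q l m n K k % 2 = 1)

/-- Offsets. -/
def o : ℕ → ℤ
  | 0 => 1
  | k + 1 => if k = K then -1
      else if tog l m n K k then (if k < K then 1 - o k else -1 - o k) else o k

/-- The long side of a cell. -/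
def long (k : ℕ) : Bool := if k < K then decide (o l m n K k = 1) else decide (o l m n K k = 0)

/-- Lengths of the sides. -/
def len (k : ℕ) (σ : Bool) : ℕ :=
  if k = K then (if σ then 2 * m - 2 - p else p)
  else if idx K k % 2 = 0 then
    (if q l m n K k % 2 = 0 then q l m n K k - 1
      else if σ = long l m n K k then q l m n K k else q l m n K k - 2)
  else m - 1

end

/-- Hypotheses on the parameters. -/
structure Hyp (l m n K p : ℕ) : Prop where
  l3 : 3 ≤ l
  m3 : 3 ≤ m
  n3 : 3 ≤ n
  pm : p + 2 ≤ m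
  podd : p % 2 = 1
  K8 : K % 8 = 1
  p1 : p = 1 → 4 ≤ l ∧ 4 ≤ n
  l5 : l = 3 → 5 ≤ n
  n5 : n = 3 → m % 2 = 1 → 5 ≤ l

variable {l m n K p : ℕ}

theorem idx_K : idx K K = K := by simp [idx]

theorem idx_le {k : ℕ} (h : k ≤ K) : idx K k = k := by simp [idx, h]

theorem idx_gt {k : ℕ} (h : K < k) : idx K k = k - 2 := by simp [idx]; omega

theorem idx_succ (hK : K % 8 = 1) {k : ℕ} (h : k ≠ K) : idx K (k + 1) = idx K k + 1 := by
  unfold idx
  split_ifs <;> omega

theorem idx_succ_K (hK : K % 8 = 1) : idx K (K + 1) + 1 = K := by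
  unfold idx
  split_ifs <;> omega

theorem q_even {k : ℕ} (h : idx K k % 2 = 0) :
    (r m K k = s0 ∧ q l m n K k = l) ∨ (r m K k = s2 ∧ m % 2 = 1 ∧ q l m n K k = n) := by
  unfold q r x
  rw [px_even h]
  unfold pr
  split_ifs with h1 h2
  · left; exact ⟨rfl, rfl⟩
  · left; exact ⟨rfl, rfl⟩
  · right; exact ⟨rfl, by omega, rfl⟩

theorem q_odd {k : ℕ} (h : idx K k % 2 = 1) : q l m n K k = m := by
  unfold q r x
  rw [px_odd h]
  rcases pr_mem m (idx K k) with h1 | h1 <;> rw [h1] <;> rfl

theorem q_ge (H : Hyp l m n K p) (k : ℕ) : 3 ≤ q l m n K k := by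
  rcases Nat.mod_two_eq_zero_or_one (idx K k) with h | h
  · rcases q_even (l := l) (m := m) (n := n) h with ⟨-, h1⟩ | ⟨-, -, h1⟩
    · rw [h1]; exact H.l3
    · rw [h1]; exact H.n3
  · rw [q_odd h]; exact H.m3

theorem len_K (σ : Bool) : len l m n K p K σ = if σ then 2 * m - 2 - p else p := by
  simp [len]

theorem len_odd {k : ℕ} (σ : Bool) (h : k ≠ K) (h1 : idx K k % 2 = 1) :
    len l m n K p k σ = m - 1 := by
  simp [len, h, h1]

theorem len_even_even {k : ℕ} (σ : Bool) (h : k ≠ K) (h1 : idx K k % 2 = 0)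
    (h2 : q l m n K k % 2 = 0) : len l m n K p k σ = q l m n K k - 1 := by
  simp [len, h, h1, h2]

theorem len_even_odd {k : ℕ} (σ : Bool) (h : k ≠ K) (h1 : idx K k % 2 = 0)
    (h2 : q l m n K k % 2 = 1) : len l m n K p k σ =
      if σ = long l m n K k then q l m n K k else q l m n K k - 2 := by
  simp [len, h, h1, h2]

theorem len_even_parity (H : Hyp l m n K p) {k : ℕ} (σ : Bool) (h : k ≠ K)
    (h1 : idx K k % 2 = 0) : len l m n K p k σ % 2 = 1 ∧ len l m n K p k σ ≠ 2 ∧
      1 ≤ len l m n K p k σ := by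
  have h3 := q_ge H k
  rcases Nat.mod_two_eq_zero_or_one (q l m n K k) with h2 | h2
  · rw [len_even_even σ h h1 h2]; omega
  · rw [len_even_odd σ h h1 h2]; split_ifs <;> omega

/-- The ladder. -/
def ladder (H : Hyp l m n K p) (hl : 2 ≤ l) (hm : 2 ≤ m) (hn : 2 ≤ n) :
    Ladder (triMat l m n hl hm hn) where
  r := r m K
  x := x m K
  len := len l m n K p
  ne k := px_ne_pr m _
  pos k σ := by
    have h3 := H.pm
    have h4 := H.podd
    have h5 := H.m3
    by_cases hk : k = K
    · subst hk
      rw [len_K]; split_ifs <;> omega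
    · rcases Nat.mod_two_eq_zero_or_one (idx K k) with h | h
      · exact (len_even_parity H σ hk h).2.2
      · rw [len_odd σ hk h]; omega
  r_succ k σ := by
    by_cases hk : k = K
    · subst hk
      have h1 : len l m n k p k σ % 2 = 1 := by
        have := H.pm; have := H.podd
        rw [len_K]; split_ifs <;> omega
      rw [if_neg (by omega)]
      have h2 := idx_succ_K H.K8
      have h3 := H.K8
      unfold r
      rw [idx_K]
      have h4 : k = idx k (k + 1) + 1 := h2.symm
      conv_rhs => rw [h4]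
      rw [pr_succ_even (by omega)]
    · have h2 := idx_succ H.K8 hk
      rcases Nat.mod_two_eq_zero_or_one (idx K k) with h | h
      · have h1 := (len_even_parity H σ hk h).1
        rw [if_neg (by omega)]
        unfold r
        rw [h2, pr_succ_even h]
      · rw [len_odd σ hk h]
        have h5 := H.m3
        unfold r x
        rw [h2]
        rcases Nat.mod_two_eq_zero_or_one m with h6 | h6
        · rw [if_neg (by omega), pr_succ_odd_even h6]
        · rw [if_pos (by omega), pr_succ_odd_odd h6 h, px_odd h]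
  x_succ k := by
    by_cases hk : k = K
    · subst hk
      have h2 := idx_succ_K H.K8
      have h3 := H.K8
      unfold x r
      rw [idx_K, px_even (by omega), px_odd (by omega)]
      rcases pr_mem m k with h1 | h1 <;> rw [h1] <;> rfl
    · unfold x r
      rw [idx_succ H.K8 hk, px_succ]
  cyc k σ := by
    have h3 := H.pm
    have h4 := H.podd
    have h5 := H.m3
    have h6 : (triMat l m n hl hm hn) (x m K k) (r m K k) = q l m n K k := rfl
    rw [h6]
    have h7 := q_ge H k
    by_cases hk : k = K
    · subst hk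
      have h8 : q l m n k k = m := q_odd (by rw [idx_K]; have := H.K8; omega)
      rw [len_K, len_K, h8]
      cases σ <;> simp <;> omega
    · rcases Nat.mod_two_eq_zero_or_one (idx K k) with h | h
      · rcases Nat.mod_two_eq_zero_or_one (q l m n K k) with h2 | h2
        · rw [len_even_even _ hk h h2, len_even_even _ hk h h2]; omega
        · rw [len_even_odd _ hk h h2, len_even_odd _ hk h h2]
          cases σ <;> cases long l m n K k <;> simp <;> omega
      · rw [len_odd _ hk h, len_odd _ hk h, q_odd h]; omega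

theorem o_range (k : ℕ) : (k ≤ K → o l m n K k = 0 ∨ o l m n K k = 1) ∧
    (K < k → o l m n K k = 0 ∨ o l m n K k = -1) := by
  induction k with
  | zero => simp [o]
  | succ k ih =>
    constructor
    · intro h
      have h1 := ih.1 (by omega)
      have h2 : k ≠ K := by omega
      have h3 : k < K := by omega
      simp only [o, h2, h3, if_true, if_false]
      rcases h1 with h1 | h1 <;> rw [h1] <;> split_ifs <;> simp
    · intro h
      by_cases h2 : k = K
      · simp [o, h2]
      · have h1 := ih.2 (by omega)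
        have h3 : ¬ k < K := by omega
        simp only [o, h2, h3, if_false]
        rcases h1 with h1 | h1 <;> rw [h1] <;> split_ifs <;> simp

theorem tog_period (hK : K % 8 = 1) {k : ℕ} (h : k + 4 ≤ K ∨ K < k) :
    tog l m n K (k + 4) = tog l m n K k := by
  have h1 : idx K (k + 4) = idx K k + 4 := by
    unfold idx; split_ifs <;> omega
  unfold tog q x r px pr
  rw [h1]
  have h2 : (idx K k + 4) % 2 = idx K k % 2 := by omega
  have h3 : (idx K k + 4) % 4 = idx K k % 4 := by omega
  rw [h2, h3]

theorem o_succ_lt {k : ℕ} (h : k < K) : o l m n K (k + 1) =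
    if tog l m n K k then 1 - o l m n K k else o l m n K k := by
  have h2 : k ≠ K := by omega
  simp only [o, h2, h, if_true, if_false]

theorem o_succ_gt {k : ℕ} (h : K < k) : o l m n K (k + 1) =
    if tog l m n K k then -1 - o l m n K k else o l m n K k := by
  have h2 : k ≠ K := by omega
  have h3 : ¬ k < K := by omega
  simp only [o, h2, h3, if_false]

theorem o_period1 (hK : K % 8 = 1) {k : ℕ} (h : k + 8 ≤ K) :
    o l m n K (k + 8) = o l m n K k := by
  have t0 := tog_period (l := l) (m := m) (n := n) hK (k := k) (Or.inl (by omega))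
  have t1 := tog_period (l := l) (m := m) (n := n) hK (k := k + 1) (Or.inl (by omega))
  have t2 := tog_period (l := l) (m := m) (n := n) hK (k := k + 2) (Or.inl (by omega))
  have t3 := tog_period (l := l) (m := m) (n := n) hK (k := k + 3) (Or.inl (by omega))
  rw [show k + 8 = k + 7 + 1 by omega, o_succ_lt (by omega),
    show k + 7 = k + 6 + 1 by omega, o_succ_lt (by omega),
    show k + 6 = k + 5 + 1 by omega, o_succ_lt (by omega),
    show k + 5 = k + 4 + 1 by omega, o_succ_lt (by omega),
    show k + 4 = k + 3 + 1 by omega, o_succ_lt (by omega),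
    show k + 3 = k + 2 + 1 by omega, o_succ_lt (by omega),
    show k + 2 = k + 1 + 1 by omega, o_succ_lt (by omega), o_succ_lt (by omega)]
  simp only [show k + 1 + 1 = k + 2 by omega, show k + 2 + 1 = k + 3 by omega,
    show k + 3 + 1 = k + 4 by omega, show k + 4 + 1 = k + 1 + 4 by omega,
    show k + 1 + 4 + 1 = k + 2 + 4 by omega, show k + 2 + 4 + 1 = k + 3 + 4 by omega,
    t0, t1, t2, t3]
  cases tog l m n K k <;> cases tog l m n K (k + 1) <;> cases tog l m n K (k + 2) <;>
    cases tog l m n K (k + 3) <;> simp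

theorem o_period2 (hK : K % 8 = 1) {k : ℕ} (h : K < k) :
    o l m n K (k + 8) = o l m n K k := by
  have t0 := tog_period (l := l) (m := m) (n := n) hK (k := k) (Or.inr (by omega))
  have t1 := tog_period (l := l) (m := m) (n := n) hK (k := k + 1) (Or.inr (by omega))
  have t2 := tog_period (l := l) (m := m) (n := n) hK (k := k + 2) (Or.inr (by omega))
  have t3 := tog_period (l := l) (m := m) (n := n) hK (k := k + 3) (Or.inr (by omega))
  rw [show k + 8 = k + 7 + 1 by omega, o_succ_gt (by omega),
    show k + 7 = k + 6 + 1 by omega, o_succ_gt (by omega),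
    show k + 6 = k + 5 + 1 by omega, o_succ_gt (by omega),
    show k + 5 = k + 4 + 1 by omega, o_succ_gt (by omega),
    show k + 4 = k + 3 + 1 by omega, o_succ_gt (by omega),
    show k + 3 = k + 2 + 1 by omega, o_succ_gt (by omega),
    show k + 2 = k + 1 + 1 by omega, o_succ_gt (by omega), o_succ_gt (by omega)]
  simp only [show k + 1 + 1 = k + 2 by omega, show k + 2 + 1 = k + 3 by omega,
    show k + 3 + 1 = k + 4 by omega, show k + 4 + 1 = k + 1 + 4 by omega,
    show k + 1 + 4 + 1 = k + 2 + 4 by omega, show k + 2 + 4 + 1 = k + 3 + 4 by omega,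
    t0, t1, t2, t3]
  cases tog l m n K k <;> cases tog l m n K (k + 1) <;> cases tog l m n K (k + 2) <;>
    cases tog l m n K (k + 3) <;> simp

theorem o_mul1 (hK : K % 8 = 1) (i : ℕ) (h : 8 * i ≤ K) : o l m n K (8 * i) = 1 := by
  induction i with
  | zero => rfl
  | succ i ih =>
    rw [show 8 * (i + 1) = 8 * i + 8 by ring, o_period1 hK (by omega), ih (by omega)]

theorem o_mul2 (hK : K % 8 = 1) (i : ℕ) : o l m n K (K + 1 + 8 * i) = -1 := by
  induction i with
  | zero => simp [o]
  | succ i ih =>
    rw [show K + 1 + 8 * (i + 1) = K + 1 + 8 * i + 8 by ring, o_period2 hK (by omega), ih]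

end Gen

end Pool.Agent.SLE
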