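import Pool.Agent.SLE.Gen

/-!
# The concrete ladders: potential, heights, scenario
-/

namespace Pool.Agent.SLE

open List G3 CoxeterSystem Ladder

set_option linter.unusedSimpArgs false

namespace Gen

section

variable (l m n K p : ℕ)

/-- Potential at the rungs. -/
def G0 : ℕ → Bool → ℤ
  | 0, σ => if σ then 0 else 1
  | k + 1, σ => if k = K ∧ σ = true then G0 k false + p + 1
      else G0 k σ + cost s1 (alt (x m K k) (r m K k) (len l m n K p k σ))

/-- The potential. -/
def G (c : Ch) : ℤ :=
  if c.1 = K ∧ c.2.1 = true then
    max (G0 l m n K p K true) (G0 l m n K p K false + p + 1 - (2 * m - 2 - p : ℕ) + c.2.2)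
  else G0 l m n K p c.1 c.2.1 + cost s1 (alt (x m K c.1) (r m K c.1) c.2.2)

end

variable {l m n K p : ℕ}

theorem x_ne_odd {k : ℕ} (h : idx K k % 2 = 1) : x m K k ≠ s1 := by
  unfold x; rw [px_odd h]; exact third_s1_ne m _

theorem r_ne (k : ℕ) : r m K k ≠ s1 := pr_ne m _

theorem x_even {k : ℕ} (h : idx K k % 2 = 0) : x m K k = s1 := px_even h

theorem offset (H : Hyp l m n K p) (k : ℕ) :
    G0 l m n K p k false - G0 l m n K p k true = o l m n K k := by
  induction k with
  | zero => simp [G0, o]
  | succ k ih =>
    have hm3 := H.m3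
    by_cases hk : k = K
    · subst hk
      have h1 : idx k k % 2 = 1 := by rw [idx_K]; have := H.K8; omega
      have h2 := cost_alt_two (x_ne_odd (m := m) h1) (r_ne (m := m) (K := k) k) (len l m n k p k false)
      rw [len_K] at h2
      simp only [G0, o, if_true, and_true, Bool.false_eq_true, and_false, if_false]
      rw [len_K, h2]
      simp
    · have e1 : ∀ σ, G0 l m n K p (k + 1) σ = G0 l m n K p k σ +
          cost s1 (alt (x m K k) (r m K k) (len l m n K p k σ)) := by
        intro σ
        simp [G0, hk]
      rw [e1, e1]
      rcases Nat.mod_two_eq_zero_or_one (idx K k) with h | h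
      · rw [x_even h, (cost_alt_one (r_ne (m := m) k) _).1, (cost_alt_one (r_ne (m := m) k) _).1]
        have hq := q_ge H k
        have hr := o_range (l := l) (m := m) (n := n) (K := K) k
        rcases Nat.mod_two_eq_zero_or_one (q l m n K k) with h2 | h2
        · rw [len_even_even _ hk h h2, len_even_even _ hk h h2]
          have h3 : tog l m n K k = false := by simp [tog, h2]
          rcases Nat.lt_or_gt_of_ne hk with h4 | h4
          · rw [o_succ_lt h4, h3]; simp only [Bool.false_eq_true, if_false]; linarith
          · rw [o_succ_gt h4, h3]; simp only [Bool.false_eq_true, if_false]; linarith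
        · rw [len_even_odd _ hk h h2, len_even_odd _ hk h h2]
          have h3 : tog l m n K k = true := by simp [tog, h, h2]
          obtain ⟨t, ht⟩ : ∃ t, q l m n K k = 2 * t + 3 := ⟨(q l m n K k - 3) / 2, by omega⟩
          have e2 : (2 * t + 3) / 2 = t + 1 := by omega
          have e3 : (2 * t + 3 - 2) / 2 = t := by omega
          rcases Nat.lt_or_gt_of_ne hk with h4 | h4
          · rw [o_succ_lt h4, h3]
            simp only [long, h4, if_true, ht]
            rcases hr.1 (by omega) with h5 | h5
            · rw [h5] at ih ⊢
              simp only [if_true, if_false, e2, e3, decide_true, decide_false, zero_ne_one, one_ne_zero,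
                reduceCtorEq]; push_cast; omega
            · rw [h5] at ih ⊢
              simp only [if_true, if_false, e2, e3, decide_true, decide_false, zero_ne_one, one_ne_zero,
                reduceCtorEq]; push_cast; omega
          · have h4' : ¬ k < K := by omega
            rw [o_succ_gt h4, h3]
            simp only [long, h4', if_true, if_false, ht]
            rcases hr.2 (by omega) with h5 | h5
            · rw [h5] at ih ⊢
              simp only [if_true, if_false, e2, e3, decide_true, decide_false, zero_ne_one, one_ne_zero,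
                reduceCtorEq]; push_cast; omega
            · rw [h5] at ih ⊢
              simp only [if_true, if_false, e2, e3, decide_true, decide_false, zero_ne_one, one_ne_zero,
                reduceCtorEq]; push_cast; omega
      · have h3 : tog l m n K k = false := by simp [tog, h]
        rw [len_odd _ hk h, len_odd _ hk h]
        rcases Nat.lt_or_gt_of_ne hk with h4 | h4
        · rw [o_succ_lt h4, h3]; simp only [Bool.false_eq_true, if_false]; linarith
        · rw [o_succ_gt h4, h3]; simp only [Bool.false_eq_true, if_false]; linarith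

theorem G_zero (H : Hyp l m n K p) (k : ℕ) (σ : Bool) : G l m n K p (k, σ, 0) = G0 l m n K p k σ := by
  have h1 := offset H K
  have h2 := (o_range (l := l) (m := m) (n := n) (K := K) K).1 (le_refl _)
  have h3 := H.pm
  unfold G
  simp only
  split_ifs with h
  · rw [h.1, h.2]
    rw [max_eq_left]
    push_cast
    rcases h2 with h2 | h2 <;> omega
  · simp

variable (H : Hyp l m n K p) (hl : 2 ≤ l) (hm : 2 ≤ m) (hn : 2 ≤ n)

theorem G_normal {k : ℕ} {σ : Bool} (h : ¬ (k = K ∧ σ = true)) (j : ℕ) :
    G l m n K p (k, σ, j) = G0 l m n K p k σ + cost s1 (alt (x m K k) (r m K k) j) := by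
  unfold G; rw [if_neg h]

theorem G_special (j : ℕ) : G l m n K p (K, true, j) =
    max (G0 l m n K p K true) (G0 l m n K p K false + p + 1 - (2 * m - 2 - p : ℕ) + j) := by
  unfold G; rw [if_pos ⟨rfl, rfl⟩]

theorem tight_normal {k : ℕ} {σ : Bool} (h : ¬ (k = K ∧ σ = true)) :
    (ladder H hl hm hn).TightSide (G l m n K p) k σ := by
  intro j hj
  have hj' : j < len l m n K p k σ := hj
  have h1 : alt (x m K k) (r m K k) (j + 1) =
      alt (x m K k) (r m K k) j ++ [(ladder H hl hm hn).ul (k, σ, j)] := by
    rw [alt_add]
    simp only [ul]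
    split_ifs <;> rfl
  rw [G_normal h]
  by_cases h2 : j + 1 < len l m n K p k σ
  · rw [(ladder H hl hm hn).up_of_lt h2, G_normal h, h1, cost_append]
    push_cast; ring
  · rw [(ladder H hl hm hn).up_of_eq h2, G_zero H]
    have h3 : len l m n K p k σ = j + 1 := by omega
    simp only [G0]
    rw [if_neg h, h3, h1, cost_append]
    push_cast; ring

theorem cost_single_le (s : G3) : (cost s1 [s] : ℤ) ≤ 1 ∧ (0 : ℤ) ≤ cost s1 [s] := by
  constructor
  · by_cases h : s = s1
    · subst h; simp [cost]
    · rw [cost_cons_ne s1 h]; simp
  · positivity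

theorem pot : (ladder H hl hm hn).Pot (G l m n K p) where
  rung_ne k := r_ne k
  up_free := by
    rintro ⟨k, σ, j⟩ hv hul
    by_cases h : k = K ∧ σ = true
    · exfalso
      obtain ⟨rfl, rfl⟩ := h
      have h1 : idx k k % 2 = 1 := by rw [idx_K]; have := H.K8; omega
      have h2 : (ladder H hl hm hn).x k ≠ s1 := x_ne_odd h1
      have h3 : (ladder H hl hm hn).r k ≠ s1 := r_ne k
      rcases (ladder H hl hm hn).ul_mem (k, true, j) with h4 | h4
      · exact h2 (h4.symm.trans hul)
      · exact h3 (h4.symm.trans hul)
    · have := tight_normal H hl hm hn h j hv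
      rw [hul] at this
      simpa [cost] using this
  up_le := by
    rintro ⟨k, σ, j⟩ hv
    by_cases h : k = K ∧ σ = true
    · obtain ⟨rfl, rfl⟩ := h
      have hv' : j < len l m n k p k true := hv
      rw [G_special]
      by_cases h2 : j + 1 < len l m n k p k true
      · rw [(ladder H hl hm hn).up_of_lt h2, G_special]
        push_cast; omega
      · rw [(ladder H hl hm hn).up_of_eq h2, G_zero H]
        rw [len_K] at h2 hv'
        simp only [if_true] at h2 hv'
        simp only [G0, true_and, if_true]
        have h3 : 2 * m - 2 - p = j + 1 := by omega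
        rw [h3]; push_cast; omega
    · have := tight_normal H hl hm hn h j hv
      rw [this]
      have := (cost_single_le ((ladder H hl hm hn).ul (k, σ, j))).1
      linarith
  le_up := by
    rintro ⟨k, σ, j⟩ hv
    by_cases h : k = K ∧ σ = true
    · obtain ⟨rfl, rfl⟩ := h
      have hv' : j < len l m n k p k true := hv
      rw [G_special]
      by_cases h2 : j + 1 < len l m n k p k true
      · rw [(ladder H hl hm hn).up_of_lt h2, G_special]
        push_cast; omega
      · rw [(ladder H hl hm hn).up_of_eq h2, G_zero H]
        rw [len_K] at h2 hv'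
        simp only [if_true] at h2 hv'
        simp only [G0, true_and, if_true]
        have h3 : 2 * m - 2 - p = j + 1 := by omega
        have h4 := offset H k
        have h5 := (o_range (l := l) (m := m) (n := n) (K := k) k).1 (le_refl _)
        rw [h3]; push_cast; omega
    · have := tight_normal H hl hm hn h j hv
      rw [this]
      have := (cost_single_le ((ladder H hl hm hn).ul (k, σ, j))).2
      linarith
  rung_le := by
    intro k σ
    rw [G_zero H, G_zero H]
    have h1 := offset H k
    have h2 := o_range (l := l) (m := m) (n := n) (K := K) k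
    have h3 : o l m n K k = 0 ∨ o l m n K k = 1 ∨ o l m n K k = -1 := by
      rcases Nat.lt_or_ge K k with h | h
      · have := h2.2 h; tauto
      · have := h2.1 h; tauto
    cases σ <;> simp only [Bool.not_true, Bool.not_false] <;>
      rcases h3 with h3 | h3 | h3 <;> linarith

/-- Signs of the pattern. -/
def cs' (m i : ℕ) : ℤ := if m % 2 = 0 then (if i % 2 = 0 then -1 else 1)
  else (if i % 4 = 0 ∨ i % 4 = 3 then -1 else 1)

/-- Heights of the pattern. -/
def Hp (m i : ℕ) : ℤ := if m % 2 = 0 then ((i / 2 : ℕ) : ℤ)
  else ((i / 4 : ℕ) : ℤ) + (if i % 4 = 2 then 1 else 0)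

theorem neg_one_pow_odd {a : ℕ} (h : a % 2 = 1) : ((-1 : ℤ)) ^ a = -1 :=
  Odd.neg_one_pow (Nat.odd_iff.2 h)

theorem neg_one_pow_even {a : ℕ} (h : a % 2 = 0) : ((-1 : ℤ)) ^ a = 1 :=
  Even.neg_one_pow (Nat.even_iff.2 h)

theorem sg_eq (k : ℕ) : (ladder H hl hm hn).sg k = cs' m (idx K k) := by
  induction k with
  | zero =>
    rw [sg_zero, idx_le (Nat.zero_le _)]
    unfold cs'
    simp
  | succ k ih =>
    rw [sg_succ, ih]
    change _ * (-1) ^ (len l m n K p k true) = _
    have hm3 := H.m3
    have hK8 := H.K8
    by_cases hk : k = K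
    · subst hk
      have h1 : len l m n k p k true % 2 = 1 := by
        have := H.pm; have := H.podd
        rw [len_K]; simp only [if_true]; omega
      rw [neg_one_pow_odd h1, idx_K, idx_gt (by omega)]
      unfold cs'
      split_ifs <;> first | rfl | omega
    · rw [idx_succ H.K8 hk]
      rcases Nat.mod_two_eq_zero_or_one (idx K k) with h | h
      · rw [neg_one_pow_odd (len_even_parity H true hk h).1]
        unfold cs'
        split_ifs <;> first | rfl | omega
      · rw [len_odd true hk h]
        rcases Nat.mod_two_eq_zero_or_one m with h6 | h6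
        · rw [neg_one_pow_odd (by omega)]
          unfold cs'
          split_ifs <;> first | rfl | omega
        · rw [neg_one_pow_even (by omega)]
          unfold cs'
          split_ifs <;> first | rfl | omega

/-- One step of the heights of the pattern. -/
theorem Hp_succ (m i : ℕ) :
    cs' m i * zeta (px m i) (pr m i) = Hp m i - Hp m (i + 1) := by
  unfold cs' Hp px pr
  rcases Nat.mod_two_eq_zero_or_one m with hm | hm
  · rcases Nat.mod_two_eq_zero_or_one i with h | h
    · simp only [hm, h, if_true, zeta]
      omega
    · simp only [hm, h, if_true, third, zeta]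
      simp only [one_ne_zero, if_false]
      omega
  · have hm' : ¬ m % 2 = 0 := by omega
    simp only [hm', if_false]
    have h4 : i % 4 = 0 ∨ i % 4 = 1 ∨ i % 4 = 2 ∨ i % 4 = 3 := by omega
    rcases h4 with h4 | h4 | h4 | h4
    · have h2 : i % 2 = 0 := by omega
      have h5 : ¬ (i + 1) % 4 = 2 := by omega
      simp [h4, h2, h5, zeta]; omega
    · have h2 : ¬ i % 2 = 0 := by omega
      have h5 : (i + 1) % 4 = 2 := by omega
      simp [h4, h2, h5, zeta, third]; omega
    · have h2 : i % 2 = 0 := by omega
      have h5 : ¬ (i + 1) % 4 = 2 := by omega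
      simp [h4, h2, h5, zeta]; omega
    · have h2 : ¬ i % 2 = 0 := by omega
      have h5 : ¬ (i + 1) % 4 = 2 := by omega
      simp [h4, h2, h5, zeta, third]; omega

theorem hgt_eq (k : ℕ) : (ladder H hl hm hn).hgt k =
    -Hp m (idx K k) - (if k ≤ K then 0 else 1) := by
  induction k with
  | zero => simp [hgt, idx, Hp]
  | succ k ih =>
    have h0 : (ladder H hl hm hn).hgt (k + 1) = (ladder H hl hm hn).hgt k +
      (ladder H hl hm hn).sg k * zeta (px m (idx K k)) (pr m (idx K k)) := rfl
    rw [h0, ih, sg_eq, Hp_succ]
    have hK8 := H.K8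
    by_cases hk : k = K
    · subst hk
      rw [idx_K, idx_gt (by omega)]
      unfold Hp
      simp only [le_refl, if_true]
      split_ifs <;> omega
    · rw [idx_succ H.K8 hk]
      split_ifs <;> omega

end Gen

end Pool.Agent.SLE
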