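import Pool.Agent.SLE.Master
import Pool.Agent.SLE.FamA

/-!
# Tools for ladders given by their letters and the changes of the offset
-/

namespace Pool.Agent.SLE

open List G3 VLad

/-- Data of a ladder: the letters of the rungs and the changes of the offset. -/
structure LData (l m n : ℕ) (c : ℕ → Letter) (δ : ℕ → ℤ) : Prop where
  bd : ∀ k, |δ k| ≤ (fper l m n (c k) : ℤ) - 2
  par : ∀ k, ((fper l m n (c k) : ℤ) + δ k) % 2 = 0
  step : ∀ k, c (k + 1) = flip (nxt^[(((fper l m n (c k) : ℤ) - δ k) / 2).toNat] (c k))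
  nz : ∀ k, |δ k| = (fper l m n (c k) : ℤ) - 2 →
    |δ (k + 1)| < (fper l m n (c (k + 1)) : ℤ) - 2

section

variable {l m n : ℕ} {c : ℕ → Letter} {δ : ℕ → ℤ}

/-- The number of edges of the sides. -/
def gLen (l m n : ℕ) (c : ℕ → Letter) (δ : ℕ → ℤ) (k : ℕ) (σ : Bool) : ℕ :=
  (((fper l m n (c k) : ℤ) - 2 + (if σ then -1 else 1) * δ k) / 2).toNat

theorem gLen_true (h : LData l m n c δ) (k : ℕ) :
    2 * (gLen l m n c δ k true : ℤ) = (fper l m n (c k) : ℤ) - 2 - δ k := by
  have h1 := h.bd k
  have h2 := h.par k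
  rw [abs_le] at h1
  unfold gLen
  simp only [if_true]
  omega

theorem gLen_false (h : LData l m n c δ) (k : ℕ) :
    2 * (gLen l m n c δ k false : ℤ) = (fper l m n (c k) : ℤ) - 2 + δ k := by
  have h1 := h.bd k
  have h2 := h.par k
  rw [abs_le] at h1
  unfold gLen
  simp only [Bool.false_eq_true, if_false]
  omega

/-- The ladder. -/
def gLad (h : LData l m n c δ) : VLad l m n where
  c := c
  len := gLen l m n c δ
  cyc := by
    intro k
    have h1 := gLen_true h k
    have h2 := gLen_false h k
    omega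
  step := by
    intro k
    have h1 := gLen_true h k
    rw [h.step k]
    congr 3
    omega
  nz := by
    intro k σ h0
    have h1 := gLen_true h k
    have h2 := gLen_false h k
    have h3 := gLen_true h (k + 1)
    have h4 := gLen_false h (k + 1)
    have h5 := h.nz k
    have h6 : |δ k| = (fper l m n (c k) : ℤ) - 2 := by
      have h7 := h.bd k
      refine le_antisymm h7 ?_
      cases σ
      · rw [h0] at h2
        rw [show (fper l m n (c k) : ℤ) - 2 = -δ k by push_cast at h2; linarith]
        exact neg_le_abs _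
      · rw [h0] at h1
        rw [show (fper l m n (c k) : ℤ) - 2 = δ k by push_cast at h1; linarith]
        exact le_abs_self _
    have h7 := h5 h6
    rw [abs_lt] at h7
    cases σ <;> omega

theorem gLad_c (h : LData l m n c δ) (k : ℕ) : (gLad h).c k = c k := rfl

theorem gLad_len (h : LData l m n c δ) (k : ℕ) (σ : Bool) :
    (gLad h).len k σ = gLen l m n c δ k σ := rfl

theorem gLad_off (h : LData l m n c δ) (o0 : ℤ) (k : ℕ) :
    (gLad h).off o0 (k + 1) = (gLad h).off o0 k + δ k := by
  have h1 := gLen_true h k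
  have h2 := gLen_false h k
  have h3 : (gLad h).off o0 (k + 1) = (gLad h).off o0 k +
      (((gLad h).len k false : ℤ) - ((gLad h).len k true : ℤ)) := by
    unfold VLad.off
    rw [VLad.pos_succ, VLad.pos_succ]
    push_cast
    ring
  rw [h3, gLad_len, gLad_len]
  omega

end

/-- Ladders with the letters of the periodic ladders. -/
theorem LData.of_patC {l m n s : ℕ} (hm : 2 ≤ m) (hs : s = 0 ∨ (s = 2 ∧ m % 2 = 1))
    {δ : ℕ → ℤ} (h1 : ∀ k, k % 2 = 1 → δ k = 0)
    (h2 : ∀ k, k % 2 = 0 → |δ k| ≤ (psz l n (patC m s k) : ℤ) - 2)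
    (h3 : ∀ k, k % 2 = 0 → ((psz l n (patC m s k) : ℤ) + δ k) % 2 = 0) :
    LData l m n (patC m s) δ := by
  have hs2 : s % 2 = 0 := by omega
  have he : ∀ k, k % 2 = 0 → fper l m n (patC m s k) = psz l n (patC m s k) := by
    intro k hk
    rcases patC_even (m := m) hs2 hk with h | h <;> rw [h] <;> rfl
  have ho : ∀ k, k % 2 = 1 → fper l m n (patC m s k) = 2 * m := by
    intro k hk
    rcases patC_odd (m := m) hs2 hk with h | h <;> rw [h] <;> rfl
  refine ⟨?_, ?_, ?_, ?_⟩
  · intro k
    rcases Nat.mod_two_eq_zero_or_one k with hk | hk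
    · rw [he k hk]
      exact h2 k hk
    · rw [ho k hk, h1 k hk, abs_zero]
      push_cast
      omega
  · intro k
    rcases Nat.mod_two_eq_zero_or_one k with hk | hk
    · rw [he k hk]
      exact h3 k hk
    · rw [ho k hk, h1 k hk]
      push_cast
      omega
  · intro k
    rcases Nat.mod_two_eq_zero_or_one k with hk | hk
    · have h4 : ∀ a, nxt^[a] (patC m s k) = patC m s k := by
        intro a
        apply VLad.nxt_iter_pos
        rcases patC_even (m := m) hs2 hk with h | h <;> rw [h]
      rw [h4]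
      unfold patC
      split_ifs <;> first | rfl | omega
    · rw [ho k hk, h1 k hk, show (((2 * m : ℕ) : ℤ) - 0) / 2 = m by omega, Int.toNat_natCast]
      by_cases hme : m % 2 = 0
      · have h2 : patC m s k = lA' := by
          unfold patC
          rw [if_pos hme, if_neg (by omega)]
        have h3 : patC m s (k + 1) = lA := by
          unfold patC
          rw [if_pos hme, if_pos (by omega)]
        rw [h2, h3, nxt_iter_lA', if_pos hme]
        rfl
      · by_cases h4 : (k + s) % 4 = 1
        · have h2 : patC m s k = lA' := by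
            unfold patC
            rw [if_neg hme, if_neg (by omega), if_pos h4]
          have h3 : patC m s (k + 1) = lB := by
            unfold patC
            rw [if_neg hme, if_neg (by omega), if_neg (by omega), if_pos (by omega)]
          rw [h2, h3, nxt_iter_lA', if_neg hme]
          rfl
        · have h2 : patC m s k = lB' := by
            unfold patC
            rw [if_neg hme, if_neg (by omega), if_neg (by omega), if_neg (by omega)]
          have h3 : patC m s (k + 1) = lA := by
            unfold patC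
            rw [if_neg hme, if_pos (by omega)]
          rw [h2, h3, nxt_iter_lB', if_neg hme]
          rfl
  · intro k hk2
    rcases Nat.mod_two_eq_zero_or_one k with hk | hk
    · rw [ho (k + 1) (by omega), h1 (k + 1) (by omega), abs_zero]
      push_cast
      omega
    · exfalso
      rw [ho k hk, h1 k hk, abs_zero] at hk2
      push_cast at hk2
      omega

namespace VLad

variable {l m n : ℕ} (V : VLad l m n)

/-- The heights of the ladders with the letters `a, A, a, A, …`. -/
theorem hgt_patC_even {s : ℕ} (hc : ∀ k, V.c k = patC m s k) (hm : m % 2 = 0) (k : ℕ) :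
    V.hgt k = ((k / 2 : ℕ) : ℤ) := by
  induction k with
  | zero => rfl
  | succ k ih =>
    change V.hgt k - fht (V.c k) = _
    rw [ih, hc]
    unfold patC
    rw [if_pos hm]
    by_cases hk : k % 2 = 0
    · rw [if_pos hk]
      change ((k / 2 : ℕ) : ℤ) - 0 = _
      omega
    · rw [if_neg hk]
      change ((k / 2 : ℕ) : ℤ) - (-1) = _
      omega

/-- The heights of the ladders with the letters `a, A, b, B, …`. -/
theorem hgt_patC_odd (hc : ∀ k, V.c k = patC m 0 k) (hm : m % 2 = 1) (k : ℕ) :
    V.hgt k = ((k / 4 : ℕ) : ℤ) + (if k % 4 = 2 then 1 else 0) := by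
  induction k with
  | zero => rfl
  | succ k ih =>
    change V.hgt k - fht (V.c k) = _
    have hm' : ¬ m % 2 = 0 := by omega
    rcases (show k % 4 = 0 ∨ k % 4 = 1 ∨ k % 4 = 2 ∨ k % 4 = 3 by omega) with hk | hk | hk | hk
    · have e : patC m 0 k = lA := by simp [patC, hm', hk]
      rw [ih, hc, e]
      change _ - (0 : ℤ) = _
      split_ifs <;> omega
    · have e : patC m 0 k = lA' := by simp [patC, hm', hk]
      rw [ih, hc, e]
      change _ - (-1 : ℤ) = _
      split_ifs <;> omega
    · have e : patC m 0 k = lB := by simp [patC, hm', hk]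
      rw [ih, hc, e]
      change _ - (1 : ℤ) = _
      split_ifs <;> omega
    · have e : patC m 0 k = lB' := by simp [patC, hm', hk]
      rw [ih, hc, e]
      change _ - (-1 : ℤ) = _
      split_ifs <;> omega

theorem gad_mono (σ : Bool) {i j : ℕ} (h : i ≤ j) : V.gad σ i ≤ V.gad σ j := by
  induction h with
  | refl => exact le_rfl
  | step _ ih => exact ih.trans (Nat.le_add_right _ _)

/-- No caps along the sides of the cells which are not P-cells. -/
theorem gad_pos (σ : Bool) (k : ℕ) (hc : (V.c k).2 = true) {j : ℕ} (hj : j ≤ V.len k σ) :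
    V.gad σ (V.pos σ k + j) = V.gad σ (V.pos σ k) := by
  induction j with
  | zero => rfl
  | succ j ih =>
    have h1 := V.isP_iff (σ := σ) (k := k) (j := j) (by omega)
    rw [← Nat.add_assoc]
    change V.gad σ (V.pos σ k + j) + _ = _
    rw [ih (by omega), if_neg, Nat.add_zero]
    rintro ⟨h2, -⟩
    have h3 : V.isP σ (V.pos σ k + j) := by
      have h4 := h2.1
      unfold capR at h4
      split_ifs at h4 with h5 h6
      · exact h5.1
      · exact h6.1
      · omega
    rw [h1, hc] at h3
    exact absurd h3 (by decide)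

/-- If `n = 2`, the even caps with the letters `b^{±1}` are along all the `b`-edges of the
P-cells. -/
theorem even_two (hn : n = 2) {σ : Bool} {i : ℕ} (h : (V.u σ i).1 = 1) :
    V.Even σ i ↔ V.isP σ i := by
  have h1 : psz l n (V.u σ i) = 2 := by
    unfold psz
    rw [h, if_neg (by decide), hn]
  unfold Even capR
  constructor
  · rintro ⟨h2, -⟩
    split_ifs at h2 with h3 h4
    · exact h3.1
    · exact h4.1
    · omega
  · intro h2
    rw [if_pos ⟨h2, by omega⟩, h1]
    omega

theorem gad_lA' (hn : n = 2) (σ : Bool) (k : ℕ) (hc : V.c k = lA') {j : ℕ}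
    (hj : j ≤ V.len k σ) : V.gad σ (V.pos σ k + j) = V.gad σ (V.pos σ k) + (j + 1) / 2 := by
  induction j with
  | zero => rfl
  | succ j ih =>
    have h1 := V.isP_iff (σ := σ) (k := k) (j := j) (by omega)
    have h2 : V.isP σ (V.pos σ k + j) := h1.2 (by rw [hc])
    rw [← Nat.add_assoc]
    change V.gad σ (V.pos σ k + j) + _ = _
    rw [ih (by omega), Nat.add_assoc]
    congr 1
    have h3 : (V.u σ (V.pos σ k + j)).1 = if j % 2 = 0 then 1 else 0 := by
      rw [V.u_eq (by omega)]
      have h4 : ∀ z : Letter, (if σ then z else flip z).1 = z.1 := by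
        intro z
        cases σ <;> rfl
      change (if σ then nxt^[j + 1] (V.c k) else flip (nxt^[j + 1] (V.c k))).1 = _
      rw [h4, hc, nxt_iter_lA']
      by_cases h5 : j % 2 = 0
      · rw [if_neg (by omega), if_pos h5]
      · rw [if_pos (by omega), if_neg h5]
    by_cases h5 : j % 2 = 0
    · rw [if_pos h5] at h3
      rw [if_pos ⟨(V.even_two hn h3).2 h2, h3⟩]
      omega
    · rw [if_neg h5] at h3
      rw [if_neg (by rw [h3]; simp)]
      omega

theorem gad_lB' (hn : n = 2) (σ : Bool) (k : ℕ) (hc : V.c k = lB') {j : ℕ}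
    (hj : j ≤ V.len k σ) : V.gad σ (V.pos σ k + j) = V.gad σ (V.pos σ k) + j / 2 := by
  induction j with
  | zero => rfl
  | succ j ih =>
    have h1 := V.isP_iff (σ := σ) (k := k) (j := j) (by omega)
    have h2 : V.isP σ (V.pos σ k + j) := h1.2 (by rw [hc])
    rw [← Nat.add_assoc]
    change V.gad σ (V.pos σ k + j) + _ = _
    rw [ih (by omega), Nat.add_assoc]
    congr 1
    have h3 : (V.u σ (V.pos σ k + j)).1 = if j % 2 = 0 then 0 else 1 := by
      rw [V.u_eq (by omega)]
      have h4 : ∀ z : Letter, (if σ then z else flip z).1 = z.1 := by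
        intro z
        cases σ <;> rfl
      change (if σ then nxt^[j + 1] (V.c k) else flip (nxt^[j + 1] (V.c k))).1 = _
      rw [h4, hc, nxt_iter_lB']
      by_cases h5 : j % 2 = 0
      · rw [if_neg (by omega), if_pos h5]
      · rw [if_pos (by omega), if_neg h5]
    by_cases h5 : j % 2 = 0
    · rw [if_pos h5] at h3
      rw [if_neg (by rw [h3]; simp)]
      omega
    · rw [if_neg h5] at h3
      rw [if_pos ⟨(V.even_two hn h3).2 h2, h3⟩]
      omega

/-- `PShort` if the vertices inside the sides of the P-cells cannot be passed. -/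
theorem pshort_inner (hP : ∀ k σ, (V.c k).2 = false → 2 ≤ V.len k σ)
    (hI : ∀ σ i, V.isP σ i → V.isP σ (i + 1) → V.u σ (i + 1) ≠ V.u σ i →
      ¬ (V.cov σ i ∧ V.cov σ (i + 1)))
    (hm : 4 ≤ m ∨ (m = 3 ∧ ∀ k σ, (V.c k).2 = true → V.len k σ ≠ 1)) : V.PShort := by
  have hP' : ∀ k σ, (V.c k).2 = false → 0 < V.len k σ := fun k σ h => by
    have := hP k σ h
    omega
  have hp : ∀ σ i, V.pass σ i → (¬ V.isP σ i ∧ V.isP σ (i + 1)) ∨
      (V.isP σ i ∧ ¬ V.isP σ (i + 1)) := by
    rintro σ i (h | h | h)
    · exact Or.inl ⟨h.1, h.2.1⟩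
    · exact Or.inr ⟨h.1, h.2.1⟩
    · exact absurd ⟨h.2.2.2.1, h.2.2.2.2⟩ (hI σ i h.1 h.2.1 h.2.2.1)
  have hno : ∀ σ i, ¬ (¬ V.isP σ i ∧ V.isP σ (i + 1) ∧ ¬ V.isP σ (i + 2)) := by
    rintro σ i ⟨h1, h2, h3⟩
    obtain ⟨k, hk, hc⟩ := V.one_side' hP' h1 h2 h3
    have := hP k σ hc
    omega
  rintro σ i ⟨h1, -⟩
  rcases hm with hm | ⟨hm, h6⟩
  · have p0 := hp _ _ (h1 0 (by omega))
    have p1 := hp _ _ (h1 1 (by omega))
    have p2 := hp _ _ (h1 2 (by omega))
    have n0 := hno σ i
    have n1 := hno σ (i + 1)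
    have e1 : i + 1 + 1 = i + 2 := rfl
    have e2 : i + 1 + 2 = i + 2 + 1 := rfl
    rw [Nat.add_zero] at p0
    rw [e1] at p1 n1
    rw [e2] at n1
    tauto
  · have p0 := hp _ _ (h1 0 (by omega))
    have p1 := hp _ _ (h1 1 (by omega))
    have n0 := hno σ i
    have e1 : i + 1 + 1 = i + 2 := rfl
    rw [Nat.add_zero] at p0
    rw [e1] at p1
    have h7 : V.isP σ i ∧ ¬ V.isP σ (i + 1) ∧ V.isP σ (i + 2) := by tauto
    obtain ⟨k, hk, hc, -⟩ := V.one_side hP' h7.1 h7.2.1 h7.2.2
    exact h6 k σ hc hk

end VLad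

end Pool.Agent.SLE
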