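import Mathlib

/-!
# The groups `E(l,m,n) = ⟨a, b ∣ a^l = 1, (ab)^m = b^n⟩`
-/

namespace Pool.Agent.SLE

/-- The two relators `a ^ l` and `(a b) ^ m (b ^ n)⁻¹` of `E(l,m,n)`; the generator `0` is `a` and
the generator `1` is `b`. -/
def rels (l m n : ℕ) : Set (FreeGroup (Fin 2)) :=
  {FreeGroup.of 0 ^ l, (FreeGroup.of 0 * FreeGroup.of 1) ^ m * (FreeGroup.of 1 ^ n)⁻¹}

/-- The group `E(l,m,n) = ⟨a, b ∣ a^l = 1, (ab)^m = b^n⟩`. -/
abbrev E (l m n : ℕ) : Type := PresentedGroup (rels l m n)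

/-- The generator `a` of `E(l,m,n)`. -/
def genA (l m n : ℕ) : E l m n := PresentedGroup.of 0

/-- The generator `b` of `E(l,m,n)`. -/
def genB (l m n : ℕ) : E l m n := PresentedGroup.of 1

end Pool.Agent.SLE
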