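import Pool.Agent.SLE.Walls
import Pool.Agent.SLE.TriOrders

/-!
# Ladders: chains of closed residues
-/

namespace Pool.Agent.SLE

open List G3

/-- The third letter. -/
def third : G3 → G3 → G3
  | s0, s1 => s2
  | s1, s0 => s2
  | s0, s2 => s1
  | s2, s0 => s1
  | s1, s2 => s0
  | s2, s1 => s0
  | s0, s0 => s1
  | s1, s1 => s2
  | s2, s2 => s0

theorem third_ne_left {i j : G3} (h : i ≠ j) : third i j ≠ i := by
  cases i <;> cases j <;> simp_all [third]

theorem third_ne_right {i j : G3} (h : i ≠ j) : third i j ≠ j := by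
  cases i <;> cases j <;> simp_all [third]

theorem eq_third {i j k : G3} (h : i ≠ j) (h1 : k ≠ i) (h2 : k ≠ j) : k = third i j := by
  cases i <;> cases j <;> cases k <;> simp_all [third]

theorem third_third {i j : G3} (h : i ≠ j) : third (third i j) j = i := by
  cases i <;> cases j <;> simp_all [third]

/-- A chain of polygons, consecutive ones glued along rungs. The sides of the cell `k` are read
with the letters `x k, r k, x k, …`; the rung `k` has the letter `r k`. -/
structure Ladder (M : CoxeterMatrix G3) where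
  r : ℕ → G3
  x : ℕ → G3
  len : ℕ → Bool → ℕ
  ne : ∀ k, x k ≠ r k
  pos : ∀ k σ, 1 ≤ len k σ
  r_succ : ∀ k σ, r (k + 1) = if len k σ % 2 = 0 then x k else r k
  x_succ : ∀ k, x (k + 1) = third (x k) (r k)
  cyc : ∀ k σ, len k σ + len k (!σ) + 2 = 2 * M (x k) (r k)

/-- Chambers: cell (or rung), side, position. -/
abbrev Ch : Type := ℕ × Bool × ℕ

namespace Ladder

variable {M : CoxeterMatrix G3} (L : Ladder M)

/-- The letter going up from a chamber. -/
def ul (c : Ch) : G3 := if c.2.2 % 2 = 0 then L.x c.1 else L.r c.1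

/-- The next chamber on the same side. -/
def up (c : Ch) : Ch := if c.2.2 + 1 < L.len c.1 c.2.1 then (c.1, c.2.1, c.2.2 + 1)
  else (c.1 + 1, c.2.1, 0)

/-- Valid coordinates. -/
def Valid (c : Ch) : Prop := c.2.2 < L.len c.1 c.2.1

/-- Adjacency. -/
inductive Adj : Ch → G3 → Ch → Prop
  | up (c : Ch) (h : L.Valid c) : Adj c (L.ul c) (L.up c)
  | down (c : Ch) (h : L.Valid c) : Adj (L.up c) (L.ul c) c
  | rung (k : ℕ) (σ : Bool) : Adj (k, σ, 0) (L.r k) (k, !σ, 0)

theorem valid_zero (k : ℕ) (σ : Bool) : L.Valid (k, σ, 0) := L.pos k σ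

theorem up_of_lt {k : ℕ} {σ : Bool} {j : ℕ} (h : j + 1 < L.len k σ) :
    L.up (k, σ, j) = (k, σ, j + 1) := by simp [up, h]

theorem up_of_eq {k : ℕ} {σ : Bool} {j : ℕ} (h : ¬ j + 1 < L.len k σ) :
    L.up (k, σ, j) = (k + 1, σ, 0) := by simp [up, h]

theorem valid_up {c : Ch} : L.Valid (L.up c) := by
  obtain ⟨k, σ, j⟩ := c
  by_cases h : j + 1 < L.len k σ
  · rw [L.up_of_lt h]; exact h
  · rw [L.up_of_eq h]; exact L.valid_zero _ _

theorem adj_symm {c d : Ch} {s : G3} (h : L.Adj c s d) : L.Adj d s c := by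
  cases h with
  | up _ h => exact Adj.down _ h
  | down _ h => exact Adj.up _ h
  | rung k σ =>
    have := Adj.rung (L := L) k (!σ)
    rwa [Bool.not_not] at this

theorem up_inj {c c' : Ch} (h : L.Valid c) (h' : L.Valid c') (e : L.up c = L.up c') :
    c = c' := by
  obtain ⟨k, σ, j⟩ := c
  obtain ⟨k', σ', j'⟩ := c'
  simp only [Valid] at h h'
  by_cases h1 : j + 1 < L.len k σ <;> by_cases h2 : j' + 1 < L.len k' σ'
  · rw [L.up_of_lt h1, L.up_of_lt h2] at e
    simp only [Prod.mk.injEq, Nat.add_right_cancel_iff] at e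
    obtain ⟨rfl, rfl, rfl⟩ := e; rfl
  · rw [L.up_of_lt h1, L.up_of_eq h2] at e; simp at e
  · rw [L.up_of_eq h1, L.up_of_lt h2] at e; simp at e
  · rw [L.up_of_eq h1, L.up_of_eq h2] at e
    simp only [Prod.mk.injEq, Nat.add_right_cancel_iff, and_true] at e
    obtain ⟨rfl, rfl⟩ := e
    have : j = j' := by omega
    rw [this]

theorem third_left (k : ℕ) : third (L.x k) (L.r k) ≠ L.x k := third_ne_left (L.ne k)
theorem third_right (k : ℕ) : third (L.x k) (L.r k) ≠ L.r k := third_ne_right (L.ne k)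

theorem letter_cases (k : ℕ) (s : G3) : s = L.x k ∨ s = L.r k ∨ s = third (L.x k) (L.r k) := by
  by_cases h1 : s = L.x k
  · exact Or.inl h1
  · by_cases h2 : s = L.r k
    · exact Or.inr (Or.inl h2)
    · exact Or.inr (Or.inr (eq_third (L.ne k) h1 h2))

theorem ul_mem (c : Ch) : L.ul c = L.x c.1 ∨ L.ul c = L.r c.1 := by
  unfold ul; split_ifs <;> simp

/-- The letters at a rung reached from below. -/
theorem ul_last {k : ℕ} {σ : Bool} {j : ℕ} (h : j + 1 = L.len k σ) :
    L.ul (k, σ, j) = third (L.x (k + 1)) (L.r (k + 1)) := by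
  have h1 := L.x_succ k
  have h2 := L.r_succ k σ
  apply eq_third (L.ne _)
  · rw [h1]
    rcases L.ul_mem (k, σ, j) with h3 | h3
    · rw [h3]; exact (L.third_left k).symm
    · rw [h3]; exact (L.third_right k).symm
  · rw [h2, ← h]
    unfold ul
    rcases Nat.mod_two_eq_zero_or_one j with h3 | h3
    · rw [if_pos h3, if_neg (by omega)]; exact L.ne k
    · rw [if_neg (by simpa using h3), if_pos (by omega)]; exact (L.ne k).symm

theorem ul_up_ne {c : Ch} (h : L.Valid c) : L.ul (L.up c) ≠ L.ul c := by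
  obtain ⟨k, σ, j⟩ := c
  simp only [Valid] at h
  by_cases h1 : j + 1 < L.len k σ
  · rw [L.up_of_lt h1]
    unfold ul
    rcases Nat.mod_two_eq_zero_or_one j with h3 | h3
    · simp only [h3, if_true]
      rw [if_neg (by omega)]; exact (L.ne k).symm
    · rw [if_pos (by simp; omega), if_neg (by simpa using h3)]; exact L.ne k
  · rw [L.up_of_eq h1, L.ul_last (j := j) (by omega)]
    simp only [ul, Nat.zero_mod, if_true]
    exact (L.third_left _).symm

theorem up_eq_zero {c : Ch} {k : ℕ} {σ : Bool} (h : L.Valid c) (e : L.up c = (k, σ, 0)) :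
    ∃ k', k = k' + 1 ∧ c = (k', σ, L.len k' σ - 1) := by
  obtain ⟨k', σ', j⟩ := c
  simp only [Valid] at h
  by_cases h1 : j + 1 < L.len k' σ'
  · rw [L.up_of_lt h1] at e; simp at e
  · rw [L.up_of_eq h1] at e
    simp only [Prod.mk.injEq, and_true] at e
    obtain ⟨rfl, rfl⟩ := e
    refine ⟨k', rfl, ?_⟩
    have : j = L.len k' σ' - 1 := by omega
    rw [this]

theorem ul_of_up_zero {c : Ch} {k : ℕ} {σ : Bool} (h : L.Valid c) (e : L.up c = (k, σ, 0)) :
    L.ul c = third (L.x k) (L.r k) := by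
  obtain ⟨k', rfl, rfl⟩ := L.up_eq_zero h e
  exact L.ul_last (by have := L.pos k' σ; omega)

theorem up_eq_succ {c : Ch} {k : ℕ} {σ : Bool} {j : ℕ} (h : L.Valid c)
    (e : L.up c = (k, σ, j + 1)) : c = (k, σ, j) := by
  obtain ⟨k', σ', j'⟩ := c
  by_cases h1 : j' + 1 < L.len k' σ'
  · rw [L.up_of_lt h1] at e
    simp only [Prod.mk.injEq, Nat.add_right_cancel_iff] at e
    obtain ⟨rfl, rfl, rfl⟩ := e; rfl
  · rw [L.up_of_eq h1] at e; simp at e

/-- Adjacency at an interior chamber of a side. -/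
theorem adj_interior {k : ℕ} {σ : Bool} {j : ℕ} {s : G3} {d : Ch}
    (h : L.Adj (k, σ, j + 1) s d) :
    (s = L.ul (k, σ, j + 1) ∧ d = L.up (k, σ, j + 1)) ∨ (s = L.ul (k, σ, j) ∧ d = (k, σ, j)) := by
  generalize hc : ((k, σ, j + 1) : Ch) = c at h
  cases h with
  | up _ h => left; exact ⟨rfl, rfl⟩
  | down c' h =>
    right
    have := L.up_eq_succ h hc.symm
    subst this
    exact ⟨rfl, rfl⟩
  | rung k' σ' => simp at hc

/-- Adjacency at a rung chamber. -/
theorem adj_rung {k : ℕ} {σ : Bool} {s : G3} {d : Ch} (h : L.Adj (k, σ, 0) s d) :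
    (s = L.x k ∧ d = L.up (k, σ, 0)) ∨ (s = L.r k ∧ d = (k, !σ, 0)) ∨
      (s = third (L.x k) (L.r k) ∧ ∃ k', k = k' + 1 ∧ d = (k', σ, L.len k' σ - 1)) := by
  generalize hc : ((k, σ, 0) : Ch) = c at h
  cases h with
  | up _ h => left; rw [← hc]; exact ⟨by simp [ul], rfl⟩
  | down c' h =>
    right; right
    obtain ⟨k', hk', hc'⟩ := L.up_eq_zero h hc.symm
    refine ⟨L.ul_of_up_zero h hc.symm, k', hk', hc'⟩
  | rung k' σ' =>
    right; left
    simp only [Prod.mk.injEq, and_true] at hc
    obtain ⟨rfl, rfl⟩ := hc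
    exact ⟨rfl, rfl⟩

theorem adj_unique {c d d' : Ch} {s : G3} (h : L.Adj c s d) (h' : L.Adj c s d') : d = d' := by
  obtain ⟨k, σ, j⟩ := c
  cases j with
  | zero =>
    rcases L.adj_rung h with ⟨h1, h2⟩ | ⟨h1, h2⟩ | ⟨h1, k1, h2, h3⟩ <;>
      rcases L.adj_rung h' with ⟨h1', h2'⟩ | ⟨h1', h2'⟩ | ⟨h1', k1', h2', h3'⟩
    · rw [h2, h2']
    · exact absurd (h1.symm.trans h1') (L.ne k)
    · exact absurd (h1.symm.trans h1').symm (L.third_left k)
    · exact absurd (h1.symm.trans h1').symm (L.ne k)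
    · rw [h2, h2']
    · exact absurd (h1.symm.trans h1').symm (L.third_right k)
    · exact absurd (h1.symm.trans h1') (L.third_left k)
    · exact absurd (h1.symm.trans h1') (L.third_right k)
    · have : k1 = k1' := by omega
      subst this
      rw [h3, h3']
  | succ j =>
    have hv : L.Valid (k, σ, j + 1) := by
      generalize hc : ((k, σ, j + 1) : Ch) = c at h
      cases h with
      | up _ h => exact h
      | down c' h => exact L.valid_up
      | rung k' σ' => simp at hc
    have hne : L.ul (k, σ, j + 1) ≠ L.ul (k, σ, j) := by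
      have h1 : L.up (k, σ, j) = (k, σ, j + 1) := L.up_of_lt hv
      rw [← h1]
      apply L.ul_up_ne
      simp only [Valid] at hv ⊢
      omega
    rcases L.adj_interior h with ⟨h1, h2⟩ | ⟨h1, h2⟩ <;>
      rcases L.adj_interior h' with ⟨h1', h2'⟩ | ⟨h1', h2'⟩
    · rw [h2, h2']
    · exact absurd (h1.symm.trans h1') hne
    · exact absurd (h1.symm.trans h1').symm hne
    · rw [h2, h2']

open Classical in
/-- The chamber system of a ladder. -/
noncomputable def f (c : Ch) (s : G3) : Option Ch :=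
  if h : ∃ d, L.Adj c s d then some (Classical.choose h) else none

theorem f_some {c d : Ch} {s : G3} : L.f c s = some d ↔ L.Adj c s d := by
  unfold f
  constructor
  · intro h
    split_ifs at h with h1
    cases h
    exact Classical.choose_spec h1
  · intro h
    have h1 : ∃ d, L.Adj c s d := ⟨d, h⟩
    rw [dif_pos h1]
    congr 1
    exact L.adj_unique (Classical.choose_spec h1) h

theorem f_symm (c : Ch) (s : G3) (d : Ch) (h : L.f c s = some d) : L.f d s = some c := by
  rw [f_some] at h ⊢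
  exact L.adj_symm h

theorem f_none {c : Ch} {s : G3} : L.f c s = none ↔ ∀ d, ¬ L.Adj c s d := by
  constructor
  · intro h d hd
    rw [← f_some, h] at hd
    cases hd
  · intro h
    cases h1 : L.f c s with
    | none => rfl
    | some d => exact absurd (L.f_some.1 h1) (h d)

/-- The word of `n` steps up. -/
def climb : ℕ → Ch → List G3
  | 0, _ => []
  | n + 1, c => L.ul c :: climb n (L.up c)

theorem run_climb (n : ℕ) {c : Ch} (h : L.Valid c) :
    run L.f c (L.climb n c) = some (L.up^[n] c) := by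
  induction n generalizing c with
  | zero => rfl
  | succ n ih =>
    rw [climb, run_cons_some]
    refine ⟨L.up c, L.f_some.2 (Adj.up c h), ?_⟩
    rw [ih L.valid_up, Function.iterate_succ_apply]

theorem climb_eq_alt (k : ℕ) (σ : Bool) (n j : ℕ) (h : j + n ≤ L.len k σ) :
    L.climb n (k, σ, j) =
      if j % 2 = 0 then alt (L.x k) (L.r k) n else alt (L.r k) (L.x k) n := by
  induction n generalizing j with
  | zero => simp [climb]
  | succ n ih =>
    rw [climb]
    rcases Nat.eq_zero_or_pos n with hn | hn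
    · subst hn
      simp only [climb, ul, alt_succ, alt_zero]
      split_ifs <;> rfl
    · rw [L.up_of_lt (by omega), ih (j + 1) (by omega)]
      simp only [ul, alt_succ]
      rcases Nat.mod_two_eq_zero_or_one j with h3 | h3
      · have h4 : (j + 1) % 2 = 1 := by omega
        simp [h3, h4]
      · have h4 : (j + 1) % 2 = 0 := by omega
        simp [h3, h4]

theorem up_iterate (k : ℕ) (σ : Bool) (n j : ℕ) (hj : j < L.len k σ) (h : j + n ≤ L.len k σ) :
    L.up^[n] (k, σ, j) = if j + n < L.len k σ then (k, σ, j + n) else (k + 1, σ, 0) := by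
  induction n generalizing j with
  | zero => simp [hj]
  | succ n ih =>
    rw [Function.iterate_succ_apply]
    rcases Nat.eq_zero_or_pos n with hn | hn
    · subst hn
      simp only [Function.iterate_zero, id, up, zero_add]
    · rw [L.up_of_lt (by omega), ih (j + 1) (by omega) (by omega)]
      rw [show j + 1 + n = j + (n + 1) by omega]

theorem run_side (k : ℕ) (σ : Bool) :
    run L.f (k, σ, 0) (alt (L.x k) (L.r k) (L.len k σ)) = some (k + 1, σ, 0) := by
  have h1 := L.run_climb (L.len k σ) (L.valid_zero k σ)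
  rw [L.climb_eq_alt k σ _ 0 (by omega), if_pos rfl,
    L.up_iterate k σ _ 0 (L.pos k σ) (by omega), if_neg (by omega)] at h1
  exact h1

theorem cell_full (k : ℕ) (σ : Bool) : Full M L.f (k, σ, 0) (L.x k) (L.r k) := by
  refine Full.of_arcs L.f_symm (d := (k + 1, !σ, 0)) (p := L.len k σ + 1)
    (q := L.len k (!σ) + 1) ?_ ?_ ?_
  · rw [alt_add, run_append_some]
    refine ⟨(k + 1, σ, 0), L.run_side k σ, ?_⟩
    have h2 := L.r_succ k σ
    have h3 : L.f (k + 1, σ, 0) (L.r (k + 1)) = some (k + 1, !σ, 0) := L.f_some.2 (Adj.rung _ _)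
    split_ifs with h4
    · rw [if_pos h4] at h2
      rw [alt_succ, ← h2, run_cons_some]
      exact ⟨_, h3, rfl⟩
    · rw [if_neg h4] at h2
      rw [alt_succ, ← h2, run_cons_some]
      exact ⟨_, h3, rfl⟩
  · rw [alt_succ, run_cons_some]
    exact ⟨(k, !σ, 0), L.f_some.2 (Adj.rung _ _), L.run_side k (!σ)⟩
  · have := L.cyc k σ; omega

theorem cell_full_interior (k : ℕ) (σ : Bool) (j : ℕ) (h : j < L.len k σ) :
    Full M L.f (k, σ, j) (L.x k) (L.r k) := by
  induction j with
  | zero => exact L.cell_full k σ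
  | succ j ih =>
    have h1 := ih (by omega)
    have h2 : L.f (k, σ, j) (L.ul (k, σ, j)) = some (k, σ, j + 1) := by
      rw [f_some, ← L.up_of_lt h]
      exact Adj.up _ (by simp only [Valid]; omega)
    rcases L.ul_mem (k, σ, j) with h3 | h3
    · rw [h3] at h2; exact h1.step L.f_symm h2
    · rw [h3] at h2; exact h1.step' L.f_symm h2

theorem cell_full_last (k : ℕ) (σ : Bool) : Full M L.f (k + 1, σ, 0) (L.x k) (L.r k) := by
  have hp := L.pos k σ
  have h1 := L.cell_full_interior k σ (L.len k σ - 1) (by omega)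
  have h2 : L.f (k, σ, L.len k σ - 1) (L.ul (k, σ, L.len k σ - 1)) = some (k + 1, σ, 0) := by
    rw [f_some, ← L.up_of_eq (j := L.len k σ - 1) (by omega)]
    exact Adj.up _ (by simp only [Valid]; omega)
  rcases L.ul_mem (k, σ, L.len k σ - 1) with h3 | h3
  · rw [h3] at h2; exact h1.step L.f_symm h2
  · rw [h3] at h2; exact h1.step' L.f_symm h2

theorem full_of_mem {c : Ch} {k : ℕ} {s t : G3} (hc : Full M L.f c (L.x k) (L.r k)) (hst : s ≠ t)
    (hs : s ≠ third (L.x k) (L.r k)) (ht : t ≠ third (L.x k) (L.r k)) : Full M L.f c s t := by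
  rcases L.letter_cases k s with rfl | rfl | h
  · rcases L.letter_cases k t with h | rfl | h
    · exact absurd h.symm hst
    · exact hc
    · exact absurd h ht
  · rcases L.letter_cases k t with rfl | h | h
    · exact hc.flip L.f_symm
    · exact absurd h.symm hst
    · exact absurd h ht
  · exact absurd h hs

end Ladder

end Pool.Agent.SLE
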