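import Pool.Agent.SLE.Ladder

/-!
# Ladders are braid closed when their boundary angles are convex
-/

namespace Pool.Agent.SLE

open List G3

namespace Ladder

variable {M : CoxeterMatrix G3} (L : Ladder M)

/-- The type of the boundary vertex at the rung `k`. -/
def μ (k : ℕ) : ℕ := M (L.x k) (third (L.x k) (L.r k))

theorem pair_of_one {k : ℕ} {σ : Bool} (h : L.len k σ = 1) :
    L.r (k + 1) = L.r k ∧ L.x (k + 1) = third (L.x k) (L.r k) ∧
      third (L.x (k + 1)) (L.r (k + 1)) = L.x k := by
  have h1 : L.r (k + 1) = L.r k := by rw [L.r_succ k σ, h]; simp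
  have h2 := L.x_succ k
  refine ⟨h1, h2, ?_⟩
  rw [h1, h2]
  exact third_third (L.ne k)

theorem μ_succ {k : ℕ} {σ : Bool} (h : L.len k σ = 1) : L.μ (k + 1) = L.μ k := by
  obtain ⟨-, h2, h3⟩ := L.pair_of_one h
  rw [μ, h3, h2, M.symmetric]
  rfl

theorem μ_add {k i : ℕ} {σ : Bool} (h : ∀ j < i, L.len (k + j) σ = 1) : L.μ (k + i) = L.μ k := by
  induction i with
  | zero => rfl
  | succ i ih =>
    rw [← Nat.add_assoc, L.μ_succ (h i (by omega)), ih (fun j hj => h j (by omega))]

theorem up_run {k n : ℕ} {σ : Bool} {e : Ch}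
    (h : run L.f (k, σ, 0) (alt (L.x k) (third (L.x k) (L.r k)) n) = some e) :
    (∀ j, j + 1 < n → L.len (k + j) σ = 1) ∧ (1 ≤ n → e = L.up (k + (n - 1), σ, 0)) := by
  induction n generalizing k with
  | zero => exact ⟨fun j hj => by omega, fun h => by omega⟩
  | succ n ih =>
    rw [alt_succ, run_cons_some] at h
    obtain ⟨d, hd, h2⟩ := h
    rw [f_some] at hd
    have hd2 : d = L.up (k, σ, 0) := by
      rcases L.adj_rung hd with ⟨_, h3⟩ | ⟨h3, _⟩ | ⟨h3, _⟩
      · exact h3
      · exact absurd h3 (L.ne k)
      · exact absurd h3 (L.third_left k).symm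
    rcases Nat.eq_zero_or_pos n with hn | hn
    · subst hn
      simp only [alt_zero, run_nil, Option.some.injEq] at h2
      refine ⟨fun j hj => by omega, fun _ => ?_⟩
      rw [← h2, hd2]; simp
    · by_cases hlen : L.len k σ = 1
      · obtain ⟨h4, h5, h6⟩ := L.pair_of_one hlen
        rw [hd2, L.up_of_eq (by omega)] at h2
        rw [← h5] at h2
        rw [← h6] at h2
        obtain ⟨h7, h8⟩ := ih h2
        refine ⟨fun j hj => ?_, fun _ => ?_⟩
        · cases j with
          | zero => exact hlen
          | succ j =>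
            have := h7 j (by omega)
            rwa [show k + (j + 1) = k + 1 + j by omega]
        · rw [h8 (by omega)]
          congr 2
          omega
      · exfalso
        have hl := L.pos k σ
        rw [hd2, L.up_of_lt (by omega)] at h2
        obtain ⟨n', rfl⟩ : ∃ n', n = n' + 1 := ⟨n - 1, by omega⟩
        rw [alt_succ, run_cons_some] at h2
        obtain ⟨d', hd', -⟩ := h2
        rw [f_some] at hd'
        rcases L.adj_interior hd' with ⟨h3, _⟩ | ⟨h3, _⟩
        · rcases L.ul_mem (k, σ, 0 + 1) with h4 | h4
          · exact L.third_left k (h3.trans h4)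
          · exact L.third_right k (h3.trans h4)
        · rcases L.ul_mem (k, σ, 0) with h4 | h4
          · exact L.third_left k (h3.trans h4)
          · exact L.third_right k (h3.trans h4)

theorem down_run {k n : ℕ} {σ : Bool} {e : Ch}
    (h : run L.f (k, σ, 0) (alt (third (L.x k) (L.r k)) (L.x k) n) = some e) :
    n ≤ k ∧ (∀ j, j + 1 < n → L.len (k - (j + 1)) σ = 1) ∧
      (1 ≤ n → e = (k - n, σ, L.len (k - n) σ - 1)) := by
  induction n generalizing k with
  | zero => exact ⟨by omega, fun j hj => by omega, fun h => by omega⟩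
  | succ n ih =>
    rw [alt_succ, run_cons_some] at h
    obtain ⟨d, hd, h2⟩ := h
    rw [f_some] at hd
    obtain ⟨k', rfl, rfl⟩ : ∃ k', k = k' + 1 ∧ d = (k', σ, L.len k' σ - 1) := by
      rcases L.adj_rung hd with ⟨h3, _⟩ | ⟨h3, _⟩ | ⟨_, h3⟩
      · exact absurd h3 (L.third_left k)
      · exact absurd h3 (L.third_right k)
      · exact h3
    rcases Nat.eq_zero_or_pos n with hn | hn
    · subst hn
      simp only [alt_zero, run_nil, Option.some.injEq] at h2
      exact ⟨by omega, fun j hj => by omega, fun _ => by rw [← h2]; simp⟩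
    · by_cases hlen : L.len k' σ = 1
      · obtain ⟨h4, h5, h6⟩ := L.pair_of_one hlen
        rw [hlen] at h2
        rw [h6, h5] at h2
        obtain ⟨h7, h8, h9⟩ := ih h2
        refine ⟨by omega, fun j hj => ?_, fun _ => ?_⟩
        · cases j with
          | zero => simpa using hlen
          | succ j =>
            have := h8 j (by omega)
            rwa [show k' + 1 - (j + 1 + 1) = k' - (j + 1) by omega]
        · rw [h9 (by omega)]
          rw [show k' + 1 - (n + 1) = k' - n by omega]
      · exfalso
        have hl := L.pos k' σ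
        obtain ⟨j, hj⟩ : ∃ j, L.len k' σ - 1 = j + 1 := ⟨L.len k' σ - 2, by omega⟩
        obtain ⟨n', rfl⟩ : ∃ n', n = n' + 1 := ⟨n - 1, by omega⟩
        rw [hj, alt_succ, run_cons_some] at h2
        obtain ⟨d', hd', -⟩ := h2
        rw [f_some] at hd'
        have hx := L.x_succ k'
        rcases L.adj_interior hd' with ⟨h3, _⟩ | ⟨h3, _⟩
        · rcases L.ul_mem (k', σ, j + 1) with h4 | h4
          · exact L.third_left k' (hx.symm.trans (h3.trans h4))
          · exact L.third_right k' (hx.symm.trans (h3.trans h4))
        · rcases L.ul_mem (k', σ, j) with h4 | h4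
          · exact L.third_left k' (hx.symm.trans (h3.trans h4))
          · exact L.third_right k' (hx.symm.trans (h3.trans h4))

/-- The boundary angles are convex. -/
def Convex : Prop := ∀ k σ i, (∀ j < i, L.len (k + j) σ = 1) → i + 2 < L.μ k

theorem full_rung {k : ℕ} {σ : Bool} {s t : G3} (hst : s ≠ t) {d : Ch}
    (hs : s = L.r k) (ht : L.f (k, !σ, 0) t = some d) : Full M L.f (k, σ, 0) s t := by
  rcases L.letter_cases k t with h | h | h
  · exact L.full_of_mem (L.cell_full k σ) hst (by rw [hs]; exact (L.third_right k).symm)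
      (by rw [h]; exact (L.third_left k).symm)
  · exact absurd (hs.trans h.symm) hst
  · rw [f_some] at ht
    obtain ⟨k', rfl, -⟩ : ∃ k', k = k' + 1 ∧ d = (k', !σ, L.len k' (!σ) - 1) := by
      rcases L.adj_rung ht with ⟨h3, _⟩ | ⟨h3, _⟩ | ⟨_, h3⟩
      · rw [h] at h3; exact absurd h3 (L.third_left k)
      · rw [h] at h3; exact absurd h3 (L.third_right k)
      · exact h3
    refine L.full_of_mem (k := k') (L.cell_full_last k' σ) hst ?_ ?_
    · rw [hs, ← L.x_succ k']; exact (L.ne _).symm
    · rw [h, ← L.x_succ k']; exact L.third_left _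

/-- Nonclosed alternating runs are short. -/
theorem full_or_short (hconv : L.Convex) {c : Ch} {s t : G3} {n : ℕ} {e : Ch} (hst : s ≠ t)
    (hn : 2 ≤ n) (h : run L.f c (alt s t n) = some e) : Full M L.f c s t ∨ n < M s t := by
  obtain ⟨n', rfl⟩ : ∃ n', n = n' + 1 := ⟨n - 1, by omega⟩
  obtain ⟨n1, rfl⟩ : ∃ n1, n' = n1 + 1 := ⟨n' - 1, by omega⟩
  have h' := h
  rw [alt_succ, run_cons_some] at h
  obtain ⟨d, hd, h2⟩ := h
  have hd0 := hd
  have h2' := h2
  rw [alt_succ, run_cons_some] at h2'
  obtain ⟨d2, hd2, -⟩ := h2'
  rw [f_some] at hd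
  cases hd with
  | up _ hv =>
    obtain ⟨k, σ, j⟩ := c
    by_cases ht : t = third (L.x k) (L.r k)
    · right
      by_cases h1 : j + 1 < L.len k σ
      · exfalso
        rw [L.up_of_lt h1, f_some] at hd2
        rcases L.adj_interior hd2 with ⟨h3, _⟩ | ⟨h3, _⟩
        · rcases L.ul_mem (k, σ, j + 1) with h4 | h4
          · exact L.third_left k (ht.symm.trans (h3.trans h4))
          · exact L.third_right k (ht.symm.trans (h3.trans h4))
        · rcases L.ul_mem (k, σ, j) with h4 | h4
          · exact L.third_left k (ht.symm.trans (h3.trans h4))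
          · exact L.third_right k (ht.symm.trans (h3.trans h4))
      · simp only [Valid] at hv
        have hx : t = L.x (k + 1) := by rw [ht, L.x_succ]
        have hul := L.ul_last (k := k) (σ := σ) (j := j) (by omega)
        rw [L.up_of_eq h1, hx, hul] at h2
        obtain ⟨h3, -⟩ := L.up_run h2
        have h4 := hconv (k + 1) σ n1 (fun j hj => h3 j (by omega))
        rw [μ, ← hul, ← hx, M.symmetric] at h4
        omega
    · left
      have hs : L.ul (k, σ, j) ≠ third (L.x k) (L.r k) := by
        rcases L.ul_mem (k, σ, j) with h4 | h4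
        · rw [h4]; exact (L.third_left k).symm
        · rw [h4]; exact (L.third_right k).symm
      exact L.full_of_mem (L.cell_full_interior k σ j hv) hst hs ht
  | down _ hv =>
    obtain ⟨k, σ, j⟩ := d
    have hs : L.ul (k, σ, j) ≠ third (L.x k) (L.r k) := by
      rcases L.ul_mem (k, σ, j) with h4 | h4
      · rw [h4]; exact (L.third_left k).symm
      · rw [h4]; exact (L.third_right k).symm
    by_cases ht : t = third (L.x k) (L.r k)
    · right
      cases j with
      | succ j =>
        exfalso
        rw [f_some] at hd2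
        rcases L.adj_interior hd2 with ⟨h3, _⟩ | ⟨h3, _⟩
        · rcases L.ul_mem (k, σ, j + 1) with h4 | h4
          · exact L.third_left k (ht.symm.trans (h3.trans h4))
          · exact L.third_right k (ht.symm.trans (h3.trans h4))
        · rcases L.ul_mem (k, σ, j) with h4 | h4
          · exact L.third_left k (ht.symm.trans (h3.trans h4))
          · exact L.third_right k (ht.symm.trans (h3.trans h4))
      | zero =>
        have hul : L.ul (k, σ, 0) = L.x k := by simp [ul]
        rw [hul] at h2 ⊢
        rw [ht] at h2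
        obtain ⟨h3, h4, -⟩ := L.down_run h2
        -- ones below
        have h5 : ∀ j < n1, L.len (k - n1 + j) σ = 1 := by
          intro j hj
          have := h4 (n1 - 1 - j) (by omega)
          rwa [show k - (n1 - 1 - j + 1) = k - n1 + j by omega] at this
        have h6 := hconv (k - n1) σ n1 h5
        have h7 := L.μ_add h5
        rw [show k - n1 + n1 = k by omega] at h7
        rw [← h7, μ, ← ht] at h6
        omega
    · left
      exact (L.full_of_mem (L.cell_full_interior k σ j hv) hst hs ht).step L.f_symm
        (L.f_symm _ _ _ hd0)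
  | rung k σ =>
    left
    exact L.full_rung hst rfl hd2

theorem braidClosed (hconv : L.Convex) (hM : ∀ s t, M s t ≠ 0) : BraidClosed M L.f where
  symm := L.f_symm
  braid := by
    intro c s t d hst h
    have h2 : 2 ≤ M s t := by
      have h3 := M.off_diagonal s t hst
      have h4 := hM s t
      have h5 : M s t = M.M s t := rfl
      omega
    rcases L.full_or_short hconv hst h2 h with h3 | h3
    · exact h3.braid L.f_symm h
    · omega

end Ladder

end Pool.Agent.SLE
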