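import Pool.Agent.SLE.LadderPot
import Pool.Agent.SLE.Delta

/-!
# Heights of rungs in the extended group
-/

namespace Pool.Agent.SLE

open List G3

section ext

variable (l m n : ℕ)

theorem extProd_append (V V' : List G3) :
    extProd l m n (V ++ V') = extProd l m n V * extProd l m n V' := by
  simp [extProd]

theorem extProd_nil : extProd l m n [] = 1 := rfl

theorem extProd_singleton (s : G3) : extProd l m n [s] = refl l m n s := by
  simp [extProd]

theorem extProd_reverse_mul (V : List G3) :
    extProd l m n V * extProd l m n V.reverse = 1 := by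
  induction V with
  | nil => simp [extProd]
  | cons s V ih =>
    rw [List.reverse_cons, extProd_cons, extProd_append, extProd_singleton]
    calc refl l m n s * extProd l m n V * (extProd l m n V.reverse * refl l m n s)
        = refl l m n s * (extProd l m n V * extProd l m n V.reverse) * refl l m n s := by
          simp only [mul_assoc]
      _ = 1 := by rw [ih, mul_one, refl_mul_self]

theorem extProd_mul_zE (V : List G3) (k : ℤ) :
    extProd l m n V * zE l m n ^ k = zE l m n ^ ((-1) ^ V.length * k) * extProd l m n V := by
  induction V generalizing k with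
  | nil => simp [extProd]
  | cons s V ih =>
    rw [extProd_cons, mul_assoc, ih, ← mul_assoc, refl_mul_zE, mul_assoc, List.length_cons]
    congr 2
    rw [pow_succ]; ring

/-- The exponents of the relations between the reflections. -/
def zeta : G3 → G3 → ℤ
  | s1, s2 => 1
  | s2, s1 => -1
  | s0, s2 => 1
  | s2, s0 => -1
  | _, _ => 0

theorem extProd_alt_two_mul (i j : G3) (k : ℕ) :
    extProd l m n (alt i j (2 * k)) = (refl l m n i * refl l m n j) ^ k := by
  induction k with
  | zero => simp [extProd]
  | succ k ih =>
    rw [show 2 * (k + 1) = 2 * k + 1 + 1 by ring, alt_succ, alt_succ, extProd_cons, extProd_cons,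
      ih, pow_succ', mul_assoc]

theorem refl_rel {i j : G3} (h : i ≠ j) :
    (refl l m n i * refl l m n j) ^ triFun l m n i j = zE l m n ^ zeta i j := by
  have hinv : ∀ (i j : G3) (k : ℕ), (refl l m n i * refl l m n j) ^ k =
      ((refl l m n j * refl l m n i) ^ k)⁻¹ := by
    intro i j k
    rw [← inv_pow, mul_inv_rev]
    congr 2
    · exact (inv_eq_of_mul_eq_one_left (refl_mul_self l m n i)).symm
    · exact (inv_eq_of_mul_eq_one_left (refl_mul_self l m n j)).symm
  cases i <;> cases j <;> simp only [triFun, zeta] <;> try (exact absurd rfl h)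
  · rw [refl_rel01]; simp
  · rw [refl_rel02]; simp
  · rw [hinv, refl_rel01]; simp
  · rw [refl_rel12]; simp
  · rw [hinv, refl_rel02]; simp
  · rw [hinv, refl_rel12]; simp

theorem extProd_arcs {i j : G3} (hij : i ≠ j) {a b : ℕ} (h : a + b = 2 * triFun l m n i j) :
    extProd l m n (alt i j a) = zE l m n ^ zeta i j * extProd l m n (alt j i b) := by
  have h1 := refl_rel l m n hij
  rw [← extProd_alt_two_mul, ← h, alt_split _ _ _ _ (by omega), extProd_append] at h1
  have h2 : extProd l m n (alt j i b).reverse = (extProd l m n (alt j i b))⁻¹ :=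
    (inv_eq_of_mul_eq_one_right (extProd_reverse_mul l m n _)).symm
  rw [h2, mul_inv_eq_iff_eq_mul] at h1
  exact h1

end ext

namespace Ladder

variable {M : CoxeterMatrix G3} (L : Ladder M)

/-- A word for each rung chamber. -/
def word : ℕ → Bool → List G3
  | 0, true => [s1]
  | 0, false => [s1, L.r 0]
  | k + 1, σ => word k σ ++ alt (L.x k) (L.r k) (L.len k σ)

/-- A word for each chamber. -/
def cword (c : Ch) : List G3 := L.word c.1 c.2.1 ++ alt (L.x c.1) (L.r c.1) c.2.2

theorem cword_zero (k : ℕ) (σ : Bool) : L.cword (k, σ, 0) = L.word k σ := by simp [cword]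

theorem cword_up {c : Ch} (h : L.Valid c) : L.cword (L.up c) = L.cword c ++ [L.ul c] := by
  obtain ⟨k, σ, j⟩ := c
  have h1 : alt (L.x k) (L.r k) (j + 1) = alt (L.x k) (L.r k) j ++ [L.ul (k, σ, j)] := by
    rw [alt_add]
    simp only [ul]
    split_ifs <;> rfl
  simp only [Valid] at h
  by_cases h2 : j + 1 < L.len k σ
  · rw [L.up_of_lt h2]
    simp only [cword]
    rw [h1, List.append_assoc]
  · rw [L.up_of_eq h2]
    have h3 : L.len k σ = j + 1 := by omega
    simp only [cword, alt_zero, List.append_nil, word]
    rw [h3, h1, List.append_assoc]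

theorem cword_iterate {c : Ch} (h : L.Valid c) (n : ℕ) :
    L.cword (L.up^[n] c) = L.cword c ++ L.climb n c := by
  induction n generalizing c with
  | zero => simp [climb]
  | succ n ih =>
    rw [Function.iterate_succ_apply, ih L.valid_up, L.cword_up h, climb, List.append_assoc]
    rfl

/-- Position of a rung on a side. -/
def pos' (σ : Bool) : ℕ → ℕ
  | 0 => 0
  | k + 1 => pos' σ k + L.len k σ

/-- Rank of a chamber. -/
def rank (c : Ch) : ℕ := L.pos' c.2.1 c.1 + c.2.2

theorem rank_up {c : Ch} (h : L.Valid c) : L.rank (L.up c) = L.rank c + 1 := by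
  obtain ⟨k, σ, j⟩ := c
  simp only [Valid] at h
  by_cases h2 : j + 1 < L.len k σ
  · rw [L.up_of_lt h2]; simp [rank]; omega
  · rw [L.up_of_eq h2]; simp [rank, pos']; omega

theorem rank_iterate {c : Ch} (h : L.Valid c) (n : ℕ) : L.rank (L.up^[n] c) = L.rank c + n := by
  induction n generalizing c with
  | zero => rfl
  | succ n ih => rw [Function.iterate_succ_apply, ih L.valid_up, L.rank_up h]; omega

theorem side_iterate (c : Ch) (n : ℕ) : (L.up^[n] c).2.1 = c.2.1 := by
  induction n generalizing c with
  | zero => rfl
  | succ n ih =>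
    rw [Function.iterate_succ_apply, ih]
    unfold up; split_ifs <;> rfl

theorem index_iterate (c : Ch) (n : ℕ) : c.1 ≤ (L.up^[n] c).1 := by
  induction n generalizing c with
  | zero => exact le_refl _
  | succ n ih =>
    rw [Function.iterate_succ_apply]
    refine le_trans ?_ (ih _)
    unfold up; split_ifs
    · exact le_refl _
    · exact Nat.le_succ _

theorem iterate_cell (k : ℕ) (σ : Bool) : L.up^[L.len k σ] (k, σ, 0) = (k + 1, σ, 0) := by
  rw [L.up_iterate k σ _ 0 (L.pos k σ) (by omega), if_neg (by omega)]

theorem pos'_mono (σ : Bool) {k k' : ℕ} (h : k ≤ k') : L.pos' σ k ≤ L.pos' σ k' := by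
  induction h with
  | refl => exact le_refl _
  | step _ ih => simp only [pos']; omega

theorem iterate_pos' (σ : Bool) {k k' : ℕ} (h : k ≤ k') :
    L.up^[L.pos' σ k' - L.pos' σ k] (k, σ, 0) = (k', σ, 0) := by
  induction h with
  | refl => simp
  | @step k' h ih =>
    have h1 := L.pos'_mono σ h
    rw [show L.pos' σ (k'.succ) - L.pos' σ k = (L.pos' σ k' - L.pos' σ k) + L.len k' σ by
      simp only [pos']; omega, up_iterate_eq_add, ih, L.iterate_cell]

/-- The sign of the right rung chamber. -/
def sg (k : ℕ) : ℤ := (-1) ^ (L.word k true).length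

theorem sg_zero : L.sg 0 = -1 := by simp [sg, word]

theorem sg_succ (k : ℕ) : L.sg (k + 1) = L.sg k * (-1) ^ (L.len k true) := by
  simp [sg, word, pow_add]

/-- The height of a rung. -/
def hgt : ℕ → ℤ
  | 0 => 0
  | k + 1 => hgt k + L.sg k * zeta (L.x k) (L.r k)

end Ladder

section tri

variable {l m n : ℕ} {hl : 2 ≤ l} {hm : 2 ≤ m} {hn : 2 ≤ n}
variable (L : Ladder (triMat l m n hl hm hn))

namespace Ladder

theorem extProd_word (k : ℕ) :
    extProd l m n (L.word k true) * refl l m n (L.r k) =
      zE l m n ^ L.hgt k * extProd l m n (L.word k false) := by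
  induction k with
  | zero =>
    simp [word, hgt, extProd]
  | succ k ih =>
    have h1 : alt (L.x k) (L.r k) (L.len k true + 1) =
        alt (L.x k) (L.r k) (L.len k true) ++ [L.r (k + 1)] := by
      rw [alt_add, L.r_succ k true]
      split_ifs <;> rfl
    have hcyc : (L.len k true + 1) + (L.len k false + 1) =
        2 * triFun l m n (L.x k) (L.r k) := by
      have := L.cyc k true
      have h2 : (triMat l m n hl hm hn) (L.x k) (L.r k) = triFun l m n (L.x k) (L.r k) := rfl
      rw [h2] at this
      simp only [Bool.not_true] at this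
      omega
    have h3 := extProd_arcs l m n (L.ne k) hcyc
    rw [h1, extProd_append, extProd_singleton, alt_succ, extProd_cons] at h3
    calc extProd l m n (L.word (k + 1) true) * refl l m n (L.r (k + 1))
        = extProd l m n (L.word k true) * (extProd l m n (alt (L.x k) (L.r k) (L.len k true)) *
            refl l m n (L.r (k + 1))) := by
          rw [word, extProd_append, mul_assoc]
      _ = zE l m n ^ (L.sg k * zeta (L.x k) (L.r k)) * (extProd l m n (L.word k true) *
            refl l m n (L.r k)) * extProd l m n (alt (L.x k) (L.r k) (L.len k false)) := by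
          rw [h3, ← mul_assoc, extProd_mul_zE]
          simp only [mul_assoc, sg]
      _ = _ := by
          rw [ih, word, extProd_append, hgt, ← mul_assoc, ← zpow_add, add_comm, mul_assoc]

theorem extProd_word_false (k : ℕ) :
    extProd l m n (L.word k false) * refl l m n (L.r k) =
      zE l m n ^ (-L.hgt k) * extProd l m n (L.word k true) := by
  have h := L.extProd_word k
  have h1 : extProd l m n (L.word k false) =
      zE l m n ^ (-L.hgt k) * (extProd l m n (L.word k true) * refl l m n (L.r k)) := by
    rw [h, ← mul_assoc, ← zpow_add]; simp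
  rw [h1, mul_assoc, mul_assoc, refl_mul_self, mul_one]

end Ladder

end tri

end Pool.Agent.SLE
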