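import Pool.Agent.SLE.LadderWall

/-!
# Potentials on ladders and the shape of tight words
-/

namespace Pool.Agent.SLE

open List G3

namespace Ladder

variable {M : CoxeterMatrix G3} (L : Ladder M)

/-- A monotone potential on a ladder. -/
structure Pot (G : Ch → ℤ) : Prop where
  rung_ne : ∀ k, L.r k ≠ s1
  up_free : ∀ c, L.Valid c → L.ul c = s1 → G (L.up c) = G c
  up_le : ∀ c, L.Valid c → G (L.up c) ≤ G c + 1
  le_up : ∀ c, L.Valid c → G c ≤ G (L.up c)
  rung_le : ∀ k σ, G (k, !σ, 0) ≤ G (k, σ, 0) + 1

variable {L} {G : Ch → ℤ}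

theorem Pot.potential (hG : L.Pot G) : Potential s1 L.f G where
  free := by
    intro c d h
    rw [f_some] at h
    generalize hs : s1 = s at h
    cases h with
    | up _ h => exact hG.up_free _ h hs.symm
    | down _ h => exact (hG.up_free _ h hs.symm).symm
    | rung k σ => exact absurd hs.symm (hG.rung_ne k)
  step := by
    intro c s d h
    rw [f_some] at h
    cases h with
    | up _ h => exact hG.up_le _ h
    | down _ h => have := hG.le_up _ h; linarith
    | rung k σ => exact hG.rung_le k σ

/-- A tight word. -/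
structure Tight (L : Ladder M) (G : Ch → ℤ) (V : List G3) (c e : Ch) : Prop where
  run : run L.f c V = some e
  cost : G c + cost s1 V ≤ G e
  chain : V.IsChain (fun a b => ¬ (a = s1 ∧ b = s1))

theorem Tight.cons (hG : L.Pot G) {s : G3} {V : List G3} {c e : Ch}
    (h : Tight L G (s :: V) c e) :
    ∃ d, L.Adj c s d ∧ Tight L G V d e ∧ (s = s1 → G d = G c) ∧ (s ≠ s1 → G d = G c + 1) := by
  have h1 := h.run
  rw [run_cons_some] at h1
  obtain ⟨d, hd, h2⟩ := h1
  have h3 := hG.potential.le_cost V d e h2
  have h4 := h.cost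
  by_cases hs : s = s1
  · subst hs
    have h5 := hG.potential.free c d hd
    rw [cost_cons_self] at h4
    refine ⟨d, L.f_some.1 hd, ⟨h2, by rw [h5]; exact h4, h.chain.tail⟩, fun _ => h5,
      fun h => absurd rfl h⟩
  · have h5 := hG.potential.step c s d hd
    rw [cost_cons_ne s1 hs] at h4
    push_cast at h4
    refine ⟨d, L.f_some.1 hd, ⟨h2, by linarith, h.chain.tail⟩, fun h => absurd h hs,
      fun _ => by linarith⟩

/-- The word does not start downwards. -/
def NoDown (L : Ladder M) (c : Ch) (V : List G3) : Prop :=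
  ∀ c', L.Valid c' → L.up c' = c → V.head? ≠ some (L.ul c')

theorem up_iterate_eq_add {c : Ch} {n m : ℕ} : L.up^[n + m] c = L.up^[m] (L.up^[n] c) := by
  rw [Nat.add_comm, Function.iterate_add_apply]

theorem climb_add (n m : ℕ) (c : Ch) :
    L.climb (n + m) c = L.climb n c ++ L.climb m (L.up^[n] c) := by
  induction n generalizing c with
  | zero => simp [climb]
  | succ n ih =>
    rw [show n + 1 + m = (n + m) + 1 by omega, climb, ih, climb, Function.iterate_succ_apply]
    rfl

/-- **Shape of a tight word** which does not start downwards. -/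
theorem climb_class (hG : L.Pot G) {V : List G3} {c e : Ch} (hv : L.Valid c)
    (hnd : NoDown L c V) (h : Tight L G V c e) :
    ∃ n, (V = L.climb n c ∧ e = L.up^[n] c) ∨
      ∃ k σ V2, L.up^[n] c = (k, σ, 0) ∧ V = L.climb n c ++ L.r k :: V2 ∧
        G (k, !σ, 0) = G (k, σ, 0) + 1 ∧ Tight L G V2 (k, !σ, 0) e := by
  induction V generalizing c with
  | nil =>
    refine ⟨0, Or.inl ⟨rfl, ?_⟩⟩
    have := h.run
    simp only [run_nil, Option.some.injEq] at this
    exact this.symm
  | cons s V ih =>
    obtain ⟨d, hd, ht, h0, h1⟩ := h.cons hG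
    have hd' := hd
    cases hd with
    | up _ _ =>
      have hnd' : NoDown L (L.up c) V := by
        intro c' hc' he hh
        have : c' = c := L.up_inj hc' hv he
        subst this
        cases V with
        | nil => simp at hh
        | cons t V' =>
          simp only [List.head?_cons, Option.some.injEq] at hh
          subst hh
          by_cases hs : L.ul c' = s1
          · have := List.isChain_cons_cons.1 h.chain
            exact this.1 ⟨hs, hs⟩
          · obtain ⟨d2, hd2, -, -, h2⟩ := ht.cons hG
            have : d2 = c' := L.adj_unique hd2 (L.adj_symm hd')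
            subst this
            have h3 := h1 hs
            have h4 := h2 hs
            linarith
      obtain ⟨n, hn⟩ := ih L.valid_up hnd' ht
      refine ⟨n + 1, ?_⟩
      rw [Function.iterate_succ_apply]
      rcases hn with ⟨h2, h3⟩ | ⟨k, σ, V2, h2, h3, h4, h5⟩
      · left; exact ⟨by rw [h2]; rfl, h3⟩
      · right; exact ⟨k, σ, V2, h2, by rw [h3]; rfl, h4, h5⟩
    | down _ hv' =>
      exact absurd rfl (hnd d hv' rfl)
    | rung k σ =>
      exact ⟨0, Or.inr ⟨k, σ, V, rfl, rfl, h1 (hG.rung_ne k), ht⟩⟩

theorem Pot.mono_iterate (hG : L.Pot G) {c : Ch} (hv : L.Valid c) (n : ℕ) :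
    L.Valid (L.up^[n] c) ∧ G c ≤ G (L.up^[n] c) := by
  induction n with
  | zero => exact ⟨hv, le_refl _⟩
  | succ n ih =>
    rw [Function.iterate_succ_apply']
    exact ⟨L.valid_up, ih.2.trans (hG.le_up _ ih.1)⟩

theorem Pot.mono_rung (hG : L.Pot G) (k : ℕ) (σ : Bool) : G (k, σ, 0) ≤ G (k + 1, σ, 0) := by
  have h := hG.mono_iterate (L.valid_zero k σ) (L.len k σ)
  rw [L.up_iterate k σ _ 0 (L.pos k σ) (by omega), if_neg (by omega)] at h
  exact h.2

/-- After a tight crossing, a tight word does not go down, unless it stops immediately. -/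
theorem after_cross (hG : L.Pot G) {V : List G3} {k : ℕ} {σ : Bool} {e : Ch}
    (hx : G (k, !σ, 0) = G (k, σ, 0) + 1) (h : Tight L G V (k, !σ, 0) e) :
    NoDown L (k, !σ, 0) V ∨ ∃ k', k = k' + 1 ∧ e = (k', !σ, L.len k' (!σ) - 1) := by
  cases V with
  | nil => left; intro c' _ _ hh; simp at hh
  | cons s V =>
    by_cases hs : s = third (L.x k) (L.r k)
    · obtain ⟨d, hd, ht, h0, h1⟩ := h.cons hG
      obtain ⟨k', rfl, rfl⟩ : ∃ k', k = k' + 1 ∧ d = (k', !σ, L.len k' (!σ) - 1) := by
        rcases L.adj_rung hd with ⟨h3, _⟩ | ⟨h3, _⟩ | ⟨_, h3⟩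
        · exact absurd (hs.symm.trans h3) (L.third_left k)
        · exact absurd (hs.symm.trans h3) (L.third_right k)
        · exact h3
      have hpos := L.pos k' (!σ)
      have hvd : L.Valid (k', !σ, L.len k' (!σ) - 1) := by simp only [Valid]; omega
      have hup : L.up (k', !σ, L.len k' (!σ) - 1) = (k' + 1, !σ, 0) := L.up_of_eq (by omega)
      have hle := hG.le_up _ hvd
      rw [hup] at hle
      have hs1 : s = s1 := by
        by_contra hne
        have := h1 hne
        linarith
      cases V with
      | nil =>
        right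
        have := ht.run
        simp only [run_nil, Option.some.injEq] at this
        exact ⟨k', rfl, this.symm⟩
      | cons t V =>
        exfalso
        have ht1 : t ≠ s1 := by
          have := List.isChain_cons_cons.1 h.chain
          intro h2
          exact this.1 ⟨hs1, h2⟩
        obtain ⟨d2, hd2, -, -, h2'⟩ := ht.cons hG
        have h2 := h2' ht1
        have h4 := h0 hs1
        clear h2' h0
        generalize hc : ((k', !σ, L.len k' (!σ) - 1) : Ch) = c at hd2
        rw [hc] at h2 h4 hup hvd
        cases hd2 with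
        | up _ _ =>
          have h3 : L.ul c = third (L.x (k' + 1)) (L.r (k' + 1)) := L.ul_of_up_zero hvd hup
          exact ht1 (h3.trans (hs.symm.trans hs1))
        | down _ hv =>
          have := hG.le_up _ hv
          linarith
        | rung k2 σ2 =>
          simp only [Prod.mk.injEq] at hc
          obtain ⟨rfl, rfl, -⟩ := hc
          rw [Bool.not_not] at h2
          have := hG.mono_rung k' σ
          linarith
    · left
      intro c' hc' he hh
      simp only [List.head?_cons, Option.some.injEq] at hh
      exact hs (hh.trans (L.ul_of_up_zero hc' he))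

end Ladder

end Pool.Agent.SLE
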