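import Pool.Agent.SLE.LadderClosed

/-!
# The wall condition for ladders
-/

namespace Pool.Agent.SLE

open List G3

namespace Ladder

variable {M : CoxeterMatrix G3} (L : Ladder M)

/-- No letter `third` inside a cell. -/
theorem not_adj_third {k : ℕ} {σ : Bool} {j : ℕ} {d : Ch}
    (h : L.Adj (k, σ, j + 1) (third (L.x k) (L.r k)) d) : False := by
  rcases L.adj_interior h with ⟨h3, _⟩ | ⟨h3, _⟩
  · rcases L.ul_mem (k, σ, j + 1) with h4 | h4
    · exact L.third_left k (h3.trans h4)
    · exact L.third_right k (h3.trans h4)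
  · rcases L.ul_mem (k, σ, j) with h4 | h4
    · exact L.third_left k (h3.trans h4)
    · exact L.third_right k (h3.trans h4)

/-- Conditions on straight boundary angles. -/
structure Straight : Prop where
  rung : ∀ k, L.r k ≠ s1
  three : ∀ t, t ≠ s1 → 3 ≤ M t s1
  three' : ∀ s t, s ≠ t → s ≠ s1 → t ≠ s1 → 3 ≤ M s t
  two : ∀ k σ, L.x k = s1 → L.len k σ ≠ 2
  up : ∀ k σ i, L.x k = s1 → (∀ j < i, L.len (k + j) σ = 1) → i + 3 = L.μ k → i = 0
  down : ∀ k σ i, third (L.x (k + i)) (L.r (k + i)) = s1 → (∀ j < i, L.len (k + j) σ = 1) →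
    i + 3 = L.μ k → i = 0

theorem arcs_ok (hconv : L.Convex) (hS : L.Straight) (c : Ch) (t : G3) (c1 : Ch)
    (hc : L.f c s1 = none) (ht : t ≠ s1)
    (hrun : run L.f c (alt t s1 (M t s1 - 1)) = some c1) :
    M t s1 % 2 = 1 ∧ ∀ u, u ≠ t → u ≠ s1 → run L.f c1 (alt u t (M u t - 1)) = none := by
  have hM := hS.three t ht
  obtain ⟨n, hn⟩ : ∃ n, M t s1 = n + 3 := ⟨M t s1 - 3, by omega⟩
  have hnf : ¬ Full M L.f c t s1 := by
    intro h
    obtain ⟨d, hd⟩ := (h.flip L.f_symm).exists_left (by rw [M.symmetric]; omega)
    rw [hc] at hd; cases hd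
  rw [show M t s1 - 1 = n + 1 + 1 by omega, alt_succ, alt_succ, run_cons_some] at hrun
  obtain ⟨d, hd, h2⟩ := hrun
  have h2' := h2
  rw [run_cons_some] at h2'
  obtain ⟨d2, hd2, -⟩ := h2'
  have hd0 := hd
  rw [f_some] at hd
  cases hd with
  | up _ hv =>
    obtain ⟨k, σ, j⟩ := c
    by_cases h1 : s1 = third (L.x k) (L.r k)
    · by_cases hj : j + 1 < L.len k σ
      · exfalso
        rw [L.up_of_lt hj, h1, f_some] at hd2
        exact L.not_adj_third hd2
      · simp only [Valid] at hv
        have hx : s1 = L.x (k + 1) := by rw [h1, L.x_succ]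
        have hul := L.ul_last (k := k) (σ := σ) (j := j) (by omega)
        have hμ : L.μ (k + 1) = n + 3 := by rw [μ, ← hul, ← hx, M.symmetric, hn]
        rw [L.up_of_eq hj, hx, hul, ← alt_succ] at h2
        obtain ⟨h3, h4⟩ := L.up_run h2
        have h5 := hS.up (k + 1) σ n hx.symm (fun j hj => h3 j (by omega)) (by rw [hμ])
        subst h5
        refine ⟨by rw [hn], fun u hu hu1 => ?_⟩
        have h6 := h4 (by omega)
        have hlen1 : L.len (k + 1) σ ≠ 1 := by
          intro h7
          have := hconv (k + 1) σ 1 (fun j hj => by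
            have : j = 0 := by omega
            rw [this]; exact h7)
          omega
        have hlen2 := hS.two (k + 1) σ hx.symm
        have hlen0 := L.pos (k + 1) σ
        have hc1 : c1 = (k + 1, σ, 1) := by
          rw [h6]
          simp only [Nat.zero_add, Nat.sub_self, Nat.add_zero]
          exact L.up_of_lt (by omega)
        obtain ⟨p, hp⟩ : ∃ p, M u (L.ul (k, σ, j)) - 1 = p + 1 + 1 :=
          ⟨M u (L.ul (k, σ, j)) - 3, by
            have := hS.three' u _ hu hu1 ht; omega⟩
        rw [hp, alt_succ, alt_succ, hc1]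
        by_contra hcon
        obtain ⟨e, he⟩ := Option.ne_none_iff_exists'.1 hcon
        rw [run_cons_some] at he
        obtain ⟨e1, he1, he2⟩ := he
        rw [run_cons_some] at he2
        obtain ⟨e2, he3, -⟩ := he2
        rw [f_some] at he1 he3
        rcases L.adj_interior he1 with ⟨h7, h8⟩ | ⟨h7, h8⟩
        · rw [L.up_of_lt (by omega)] at h8
          rw [h8, hul] at he3
          exact L.not_adj_third he3
        · simp only [ul, Nat.zero_mod, if_true] at h7
          exact hu1 (h7.trans hx.symm)
    · exfalso
      have hs : L.ul (k, σ, j) ≠ third (L.x k) (L.r k) := by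
        rcases L.ul_mem (k, σ, j) with h4 | h4
        · rw [h4]; exact (L.third_left k).symm
        · rw [h4]; exact (L.third_right k).symm
      exact hnf (L.full_of_mem (L.cell_full_interior k σ j hv) ht hs h1)
  | down _ hv =>
    obtain ⟨k, σ, j⟩ := d
    have hs : L.ul (k, σ, j) ≠ third (L.x k) (L.r k) := by
      rcases L.ul_mem (k, σ, j) with h4 | h4
      · rw [h4]; exact (L.third_left k).symm
      · rw [h4]; exact (L.third_right k).symm
    by_cases h1 : s1 = third (L.x k) (L.r k)
    · cases j with
      | succ j =>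
        exfalso
        rw [h1, f_some] at hd2
        exact L.not_adj_third hd2
      | zero =>
        have hul : L.ul (k, σ, 0) = L.x k := by simp [ul]
        rw [hul] at h2 hn ht ⊢
        have hμk : L.μ k = n + 3 := by rw [μ, ← h1, hn]
        rw [h1] at h2
        rw [← alt_succ] at h2
        obtain ⟨h3, h4, h5⟩ := L.down_run h2
        have h6 : ∀ j < n, L.len (k - n + j) σ = 1 := by
          intro j hj
          have := h4 (n - 1 - j) (by omega)
          rwa [show k - (n - 1 - j + 1) = k - n + j by omega] at this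
        have h7 := L.μ_add h6
        rw [show k - n + n = k by omega] at h7
        have h8 := hS.down (k - n) σ n (by
          rw [show k - n + n = k by omega]; exact h1.symm) h6 (by omega)
        subst h8
        refine ⟨by rw [hn], fun u hu hu1 => ?_⟩
        have h9 := h5 (by omega)
        obtain ⟨k', rfl⟩ : ∃ k', k = k' + 1 := ⟨k - 1, by omega⟩
        simp only [Nat.zero_add, Nat.add_sub_cancel] at h9
        have hlen1 : L.len k' σ ≠ 1 := by
          intro h7
          have h8 := hconv k' σ 1 (fun j hj => by
            have : j = 0 := by omega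
            rw [this]; exact h7)
          rw [← L.μ_succ h7] at h8
          omega
        have hxk : L.x k' = s1 := by
          have h10 := L.x_succ k'
          rcases L.letter_cases k' s1 with h | h | h
          · exact h.symm
          · exact absurd h.symm (hS.rung k')
          · exact absurd (h10.trans h.symm) ht
        have hlen2 := hS.two k' σ hxk
        have hlen0 := L.pos k' σ
        obtain ⟨j, hj⟩ : ∃ j, L.len k' σ - 1 = j + 1 + 1 := ⟨L.len k' σ - 3, by omega⟩
        obtain ⟨p, hp⟩ : ∃ p, M u (L.x (k' + 1)) - 1 = p + 1 + 1 :=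
          ⟨M u (L.x (k' + 1)) - 3, by
            have := hS.three' u _ hu hu1 ht; omega⟩
        rw [hp, alt_succ, alt_succ, h9, hj]
        by_contra hcon
        obtain ⟨e, he⟩ := Option.ne_none_iff_exists'.1 hcon
        rw [run_cons_some] at he
        obtain ⟨e1, he1, he2⟩ := he
        rw [run_cons_some] at he2
        obtain ⟨e2, he3, -⟩ := he2
        rw [f_some] at he1 he3
        have hul2 := L.ul_last (k := k') (σ := σ) (j := j + 1 + 1) (by omega)
        rcases L.adj_interior he1 with ⟨h7, h8⟩ | ⟨h7, h8⟩
        · rw [hul2, ← h1] at h7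
          exact hu1 h7
        · rw [h8, L.x_succ k'] at he3
          exact L.not_adj_third he3
    · exfalso
      exact hnf ((L.full_of_mem (L.cell_full_interior k σ j hv) ht hs h1).step L.f_symm
        (L.f_symm _ _ _ hd0))
  | rung k σ =>
    exfalso
    exact hnf (L.full_rung ht rfl hd2)

end Ladder

end Pool.Agent.SLE
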