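import Pool.Agent.SLE.DSys

/-!
# The local criterion

If at each vertex of the beginning of a tight word the letter used is the smallest one among the
letters allowed there (tight for the potential `F`, and for the height potential `Hh`), then the
normal form begins with the same letters.
-/

namespace Pool.Agent.SLE

open List G3

section

variable {l m n : ℕ} {X : Type*} {mv : X → Letter → Option X}

theorem kap_nil {κ : X → Letter → ℤ} (x : X) : kap mv κ x [] = 0 := rfl

theorem TightRun.cons_iff {F : X → ℤ} {x e : X} {y : Letter} {w : List Letter} :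
    TightRun mv F x (y :: w) e ↔ ∃ x', mv x y = some x' ∧ F x' = F x + 1 ∧ TightRun mv F x' w e :=
  Iff.rfl

theorem TightRun.nil_iff {F : X → ℤ} {x e : X} : TightRun mv F x [] e ↔ x = e := Iff.rfl

/-- Bound of the height of a tight run by the height potential. -/
theorem TightRun.height_le {F Hh : X → ℤ} {κ : X → Letter → ℤ} {ε : ℤ}
    (hH : ∀ x y x', mv x y = some x' → F x' = F x + 1 → Hh x' - Hh x ≤ ε * κ x y) {x e : X}
    {w : List Letter} (h : TightRun mv F x w e) : Hh e - Hh x ≤ ε * kap mv κ x w := by
  induction w generalizing x with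
  | nil =>
    rw [TightRun.nil_iff] at h
    subst h
    simp [kap_nil]
  | cons y w ih =>
    obtain ⟨x', h1, h2, h3⟩ := h
    rw [kap_cons h1]
    have h4 := ih h3
    have h5 := hH x y x' h1 h2
    linarith

/-- The main induction: a tight run which is not lexicographically larger than a given tight run
of the same height begins in the same way. -/
theorem take_eq_of_local_aux {F Hh : X → ℤ} {κ : X → Letter → ℤ} {ε : ℤ}
    {lt : Letter → Letter → Prop} [IsStrictTotalOrder Letter lt]
    (hH : ∀ x y x', mv x y = some x' → F x' = F x + 1 → Hh x' - Hh x ≤ ε * κ x y) :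
    ∀ (i : ℕ) (x e : X) (w u : List Letter), TightRun mv F x w e → TightRun mv F x u e →
      ε * kap mv κ x w = Hh e - Hh x → ε * kap mv κ x u = Hh e - Hh x →
      (u = w ∨ List.Lex lt u w) →
      (∀ j < i, ∀ p, run mv x (w.take j) = some p → ∀ y p', mv p y = some p' → F p' = F p + 1 →
        Hh p' - Hh p = ε * κ p y → ∀ z, w[j]? = some z → y = z ∨ lt z y) →
      u.take i = w.take i := by
  intro i
  induction i with
  | zero => intros; simp
  | succ i ih =>
    intro x e w u hw hu kw ku hlex hloc
    cases w with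
    | nil =>
      rcases hlex with h | h
      · rw [h]
      · cases h
    | cons z w =>
      cases u with
      | nil =>
        -- the lengths are equal
        exfalso
        have h1 := hw.spec.2
        have h2 := hu.spec.2
        rw [List.length_cons] at h1
        simp only [List.length_nil, Nat.cast_zero, add_zero] at h2
        push_cast at h1
        have : (0 : ℤ) ≤ w.length := Int.natCast_nonneg _
        linarith
      | cons y u =>
        obtain ⟨x1, a1, a2, a3⟩ := hw
        obtain ⟨x2, b1, b2, b3⟩ := hu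
        have ka := a3.height_le hH
        have kb := b3.height_le hH
        rw [kap_cons a1] at kw
        rw [kap_cons b1] at ku
        have ea := hH x z x1 a1 a2
        have eb := hH x y x2 b1 b2
        have ea' : Hh x1 - Hh x = ε * κ x z := by linarith
        have eb' : Hh x2 - Hh x = ε * κ x y := by linarith
        have hyz : y = z := by
          have h1 := hloc 0 (Nat.succ_pos _) x rfl y x2 b1 b2 eb' z rfl
          rcases h1 with h1 | h1
          · exact h1
          · exfalso
            rcases hlex with h | h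
            · simp only [List.cons.injEq] at h
              rw [h.1] at h1
              exact irrefl_of lt _ h1
            · cases h with
              | rel h => exact asymm_of lt h h1
              | cons h => exact irrefl_of lt _ h1
        subst hyz
        rw [a1] at b1
        cases b1
        rw [List.take_succ_cons, List.take_succ_cons]
        congr 1
        refine ih x1 e w u a3 b3 (by linarith) (by linarith) ?_ ?_
        · rcases hlex with h | h
          · simp only [List.cons.injEq, true_and] at h
            exact Or.inl h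
          · cases h with
            | rel h => exact absurd h (irrefl_of lt _)
            | cons h => exact Or.inr h
        · intro j hj p hp y' p' h1 h2 h3 z' hz'
          refine hloc (j + 1) (by omega) p ?_ y' p' h1 h2 h3 z' ?_
          · rw [List.take_succ_cons, run_cons_some]
            exact ⟨x1, a1, hp⟩
          · simpa using hz'

/-- **The local criterion.** With `ε = 0` and `Hh = 0` there is no condition on the heights. -/
theorem take_eq_of_local (S : VSys l m n mv) {val : X → E l m n} {κ : X → Letter → ℤ}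
    (V : VVal l m n mv val κ) (hl : 2 ≤ l) (hm : 2 ≤ m) (hn : 2 ≤ n)
    (hyp : (1 / l + 1 / m + 1 / n : ℚ) < 1)
    {F Hh : X → ℤ} (hF : ∀ x y x', mv x y = some x' → F x' ≤ F x + 1) {ε : ℤ}
    (hH : ∀ x y x', mv x y = some x' → F x' = F x + 1 → Hh x' - Hh x ≤ ε * κ x y)
    {lt : Letter → Letter → Prop} [IsStrictTotalOrder Letter lt] {x e : X} {u w : List Letter}
    (hw : TightRun mv F x w e) (kw : ε * kap mv κ x w = Hh e - Hh x)
    (hu : u ∈ normalForms l m n lt) (heq : eval l m n u = eval l m n w) {i : ℕ}
    (hloc : ∀ j < i, ∀ p, run mv x (w.take j) = some p → ∀ y p', mv p y = some p' →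
      F p' = F p + 1 → Hh p' - Hh p = ε * κ p y → ∀ z, w[j]? = some z → y = z ∨ lt z y) :
    u.take i = w.take i := by
  obtain ⟨h1, -, h2⟩ := S.normalForm hl hm hn hF hw hu heq
  have h3 : kap mv κ x u = kap mv κ x w :=
    V.kap_eq hl hm hn hyp h1.spec.1 hw.spec.1 heq
  exact take_eq_of_local_aux hH i x e w u hw h1 kw (by rw [h3]; exact kw) h2 hloc

end

/-- The data showing that two normal forms diverge by the power `h` of `z`, up to the element `g`.
`w1` has the extreme height among the tight words, `w2` is free. -/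
structure LocalCert (l m n : ℕ) (lt : Letter → Letter → Prop) (C : ℕ) (g : E l m n) (h : ℤ) where
  X : Type
  mv : X → Letter → Option X
  sys : VSys l m n mv
  val : X → E l m n
  κ : X → Letter → ℤ
  vval : VVal l m n mv val κ
  F : X → ℤ
  lip : ∀ x y x', mv x y = some x' → F x' ≤ F x + 1
  Hh : X → ℤ
  ε : ℤ
  hH : ∀ x y x', mv x y = some x' → F x' = F x + 1 → Hh x' - Hh x ≤ ε * κ x y
  x0 : X
  e1 : X
  e2 : X
  w1 : List Letter
  w2 : List Letter
  c : List Letter
  i : ℕ
  tight1 : TightRun mv F x0 w1 e1
  tight2 : TightRun mv F x0 w2 e2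
  kap1 : ε * kap mv κ x0 w1 = Hh e1 - Hh x0
  c_len : c.length ≤ C
  c_run : run mv e1 c = some e2
  kap12 : kap mv κ x0 w1 + kap mv κ e1 c = kap mv κ x0 w2
  loc1 : ∀ j < i, ∀ p, run mv x0 (w1.take j) = some p → ∀ y p', mv p y = some p' →
      F p' = F p + 1 → Hh p' - Hh p = ε * κ p y → ∀ z, w1[j]? = some z → y = z ∨ lt z y
  loc2 : ∀ j < i, ∀ p, run mv x0 (w2.take j) = some p → ∀ y p', mv p y = some p' →
      F p' = F p + 1 → ∀ z, w2[j]? = some z → y = z ∨ lt z y
  p1 : X
  p2 : X
  run1 : run mv x0 (w1.take i) = some p1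
  run2 : run mv x0 (w2.take i) = some p2
  diff : (val p1)⁻¹ * val p2 *
    (genB l m n ^ n) ^ (kap mv κ x0 (w2.take i) - kap mv κ x0 (w1.take i)) =
      g * (genB l m n ^ n) ^ h

/-- **Criterion.** -/
theorem not_finiteDiff_of_localCert {l m n : ℕ} (hl : 2 ≤ l) (hm : 2 ≤ m) (hn : 2 ≤ n)
    (hyp : (1 / l + 1 / m + 1 / n : ℚ) < 1) (lt : Letter → Letter → Prop)
    [IsStrictTotalOrder Letter lt] (C : ℕ) (G0 : Set (E l m n)) (hG0 : G0.Finite)
    (H : ∀ N : ℕ, ∃ g ∈ G0, ∃ h : ℤ, (N : ℤ) < |h| ∧ Nonempty (LocalCert l m n lt C g h)) :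
    ¬ FiniteDiff l m n lt := by
  refine not_finiteDiff_of_heights hl hm hn hyp lt C G0 hG0 fun N => ?_
  obtain ⟨g, hg, h, hh, ⟨L⟩⟩ := H N
  refine ⟨L.w1, L.w2, L.c, L.i, L.c_len, ?_, fun u v hu hu' hv hv' => ?_⟩
  · have h1 : run L.mv L.x0 (L.w1 ++ L.c) = some L.e2 := by
      rw [run_append_some]; exact ⟨L.e1, L.tight1.spec.1, L.c_run⟩
    rw [L.vval.eval_eq h1, L.vval.eval_eq L.tight2.spec.1, kap_append L.tight1.spec.1, L.kap12]
  · refine ⟨g, hg, h, hh, ?_⟩
    have e1 := take_eq_of_local L.sys L.vval hl hm hn hyp L.lip L.hH L.tight1 L.kap1 hu hu' L.loc1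
    have e2 := take_eq_of_local L.sys L.vval hl hm hn hyp L.lip (Hh := fun _ => 0) (ε := 0)
      (fun x y x' _ _ => by simp) L.tight2 (by simp) hv hv' (i := L.i)
      (fun j hj p hp y p' h1 h2 _ z hz => L.loc2 j hj p hp y p' h1 h2 z hz)
    rw [e1, e2, L.vval.eval_eq L.run1, L.vval.eval_eq L.run2, ← L.diff, zpow_sub]
    set z := genB l m n ^ n
    have hc : ∀ (g : E l m n) (k : ℤ), z ^ k * g = g * z ^ k := fun g k => zpow_comm g k
    set k1 := kap L.mv L.κ L.x0 (L.w1.take L.i)
    set k2 := kap L.mv L.κ L.x0 (L.w2.take L.i)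
    calc ((L.val L.x0)⁻¹ * L.val L.p1 * z ^ k1)⁻¹ * ((L.val L.x0)⁻¹ * L.val L.p2 * z ^ k2)
        = z ^ (-k1) * ((L.val L.p1)⁻¹ * L.val L.p2) * z ^ k2 := by
          rw [zpow_neg]; group
      _ = (L.val L.p1)⁻¹ * L.val L.p2 * (z ^ k2 * (z ^ k1)⁻¹) := by
          rw [hc, zpow_neg, mul_assoc]
          congr 1
          rw [← zpow_neg, ← zpow_add, ← zpow_add, add_comm]

end Pool.Agent.SLE
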