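import Pool.Agent.SLE.Scenario

/-!
# The scenario contradicts the finite difference property
-/

namespace Pool.Agent.SLE

open List G3 CoxeterSystem

instance : Finite G3 := by
  refine Finite.of_injective (β := Fin 3) (fun i => match i with | s0 => 0 | s1 => 1 | s2 => 2) ?_
  intro i j h
  cases i <;> cases j <;> simp at h <;> rfl

namespace Ladder

variable {M : CoxeterMatrix G3} {L : Ladder M} {G : Ch → ℤ} {K1 K2 ks k' B : ℕ}

/-- The beginning of a tight word starting at the identity chamber. -/
theorem Scenario.right_start (S : L.Scenario G K1 K2 ks k' B) (hG : L.Pot G) {V : List G3}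
    {e : Ch} (h : Tight L G V c0 e) :
    (∃ n k V2, L.up^[n] c0 = (k, true, 0) ∧ V = L.climb n c0 ++ L.r k :: V2 ∧
      G (k, false, 0) = G (k, true, 0) + 1 ∧ Tight L G V2 (k, false, 0) e) ∨
    (∃ V2, V = s1 :: L.r 0 :: V2 ∧ Tight L G V2 (0, false, 0) e) ∨
    (∃ n, V = L.climb n c0 ∧ e = L.up^[n] c0) ∨ (V = [s1] ∧ e = (0, true, 0)) := by
  by_cases hnd : NoDown L c0 V
  · obtain ⟨n, ⟨h1, h2⟩ | ⟨k, σ, V2, h1, h2, h3, h4⟩⟩ := climb_class hG S.valid_c0 hnd h
    · exact Or.inr (Or.inr (Or.inl ⟨n, h1, h2⟩))
    · left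
      have hσ : σ = true := by
        have := L.side_iterate c0 n
        rw [h1] at this; exact this
      subst hσ
      exact ⟨n, k, V2, h1, h2, h3, h4⟩
  · right
    unfold NoDown at hnd
    push Not at hnd
    obtain ⟨c', hc', he, hh⟩ := hnd
    have hc'' : c' = (0, true, 0) := L.up_inj hc' (L.valid_zero _ _) (he.trans S.c0_eq.symm)
    subst hc''
    have hul : L.ul (0, true, 0) = s1 := by simp [ul, S.x0]
    rw [hul] at hh
    cases V with
    | nil => simp at hh
    | cons s V =>
      simp only [List.head?_cons, Option.some.injEq] at hh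
      subst hh
      obtain ⟨d, hd, ht, -, -⟩ := h.cons hG
      have hadj : L.Adj c0 s1 (0, true, 0) := by
        have := Adj.down (L := L) (0, true, 0) (L.valid_zero _ _)
        rwa [hul, S.c0_eq] at this
      have := L.adj_unique hd hadj
      subst this
      cases V with
      | nil =>
        right; right
        have := ht.run
        simp only [run_nil, Option.some.injEq] at this
        exact ⟨rfl, this.symm⟩
      | cons t V =>
        left
        have ht1 : t ≠ s1 := by
          have := List.isChain_cons_cons.1 h.chain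
          intro h2
          exact this.1 ⟨rfl, h2⟩
        obtain ⟨d2, hd2, ht2, -, -⟩ := ht.cons hG
        rcases L.adj_rung hd2 with ⟨h3, _⟩ | ⟨h3, h4⟩ | ⟨_, k1, h3, _⟩
        · exact absurd (h3.trans S.x0) ht1
        · subst h3
          rw [h4] at ht2
          exact ⟨V, rfl, ht2⟩
        · omega

/-- Reference word with a crossing at the rung `ks`. -/
def refV (L : Ladder M) (ks K2 : ℕ) : List G3 :=
  L.climb (L.pos' true ks - 1) c0 ++ L.r ks ::
    L.climb (L.pos' false K2 - L.pos' false ks) (ks, false, 0)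

/-- Reference word with crossings at `0` and `k'`. -/
def refV' (L : Ladder M) (k' K2 : ℕ) : List G3 :=
  s1 :: L.r 0 :: (L.climb (L.pos' false k' - L.pos' false 0) (0, false, 0) ++ L.r k' ::
    L.climb (L.pos' true K2 - L.pos' true k') (k', true, 0))

theorem Scenario.ks1 (S : L.Scenario G K1 K2 ks k' B) : 1 ≤ ks := le_trans S.B1 S.Bs

theorem Scenario.sK2 (S : L.Scenario G K1 K2 ks k' B) : ks ≤ K2 := by
  have := S.sK; have := S.Kk; have := S.k2; omega

theorem Scenario.refV_run (S : L.Scenario G K1 K2 ks k' B) :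
    run L.f c0 (L.refV ks K2) = some (K2, false, 0) := by
  rw [refV, run_append_some]
  refine ⟨(ks, true, 0), ?_, ?_⟩
  · rw [L.run_climb _ S.valid_c0, S.iterate_c0 S.ks1]
  · rw [run_cons_some]
    refine ⟨(ks, false, 0), L.f_some.2 (Adj.rung ks true), ?_⟩
    rw [L.run_climb _ (L.valid_zero _ _), L.iterate_pos' false S.sK2]

theorem Scenario.refV_cost (S : L.Scenario G K1 K2 ks k' B) (hG : L.Pot G) :
    G (K2, false, 0) = G c0 + cost s1 (L.refV ks K2) := by
  have h1 := tight_climb (G := G) S.valid_c0 (S.iterate_c0 S.ks1)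
    (fun k _ hk => S.tightR1 k hk)
  have h2 := tight_climb (G := G) (L.valid_zero ks false) (L.iterate_pos' false S.sK2)
    (fun k _ hk => S.tightL k hk)
  have h3 := S.offs
  rw [refV, cost_append, cost_cons_ne s1 (hG.rung_ne ks)]
  push_cast
  linarith

theorem Scenario.refV'_run (S : L.Scenario G K1 K2 ks k' B) :
    run L.f c0 (L.refV' k' K2) = some (K2, true, 0) := by
  rw [refV', run_cons_some]
  refine ⟨(0, true, 0), ?_, ?_⟩
  · have := Adj.down (L := L) (0, true, 0) (L.valid_zero _ _)
    rw [S.c0_eq] at this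
    have hul : L.ul (0, true, 0) = s1 := by simp [ul, S.x0]
    rw [hul] at this
    exact L.f_some.2 this
  · rw [run_cons_some]
    refine ⟨(0, false, 0), L.f_some.2 (Adj.rung 0 true), ?_⟩
    rw [run_append_some]
    refine ⟨(k', false, 0), ?_, ?_⟩
    · rw [L.run_climb _ (L.valid_zero _ _), L.iterate_pos' false (Nat.zero_le k')]
    · rw [run_cons_some]
      refine ⟨(k', true, 0), L.f_some.2 (Adj.rung k' false), ?_⟩
      rw [L.run_climb _ (L.valid_zero _ _), L.iterate_pos' true S.k2]

theorem Scenario.refV'_cost (S : L.Scenario G K1 K2 ks k' B) (hG : L.Pot G) :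
    G (K2, true, 0) = G c0 + cost s1 (L.refV' k' K2) := by
  have h1 := tight_climb (G := G) (L.valid_zero 0 false)
    (L.iterate_pos' false (Nat.zero_le k')) (fun k _ hk => S.tightL k (by have := S.k2; omega))
  have h2 := tight_climb (G := G) (L.valid_zero k' true) (L.iterate_pos' true S.k2)
    (fun k hk hk2 => S.tightR2 k hk hk2)
  have h3 := S.off0
  have h4 := S.offk'
  have h5 := S.G_c0 hG
  rw [refV', cost_cons_self, cost_cons_ne s1 (hG.rung_ne 0), cost_append,
    cost_cons_ne s1 (hG.rung_ne k')]
  push_cast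
  linarith

end Ladder

section tri

variable {l m n : ℕ} {hl : 2 ≤ l} {hm : 2 ≤ m} {hn : 2 ≤ n}
variable {L : Ladder (triMat l m n hl hm hn)} {G : Ch → ℤ} {K1 K2 ks k' B : ℕ}

namespace Ladder

theorem Scenario.extProd_climb (S : L.Scenario G K1 K2 ks k' B) {N : ℕ} {k : ℕ}
    (h : L.up^[N] c0 = (k, true, 0)) :
    extProd l m n (L.climb N c0) = extProd l m n (L.word k true) := by
  have h1 := L.cword_iterate S.valid_c0 N
  rw [h, cword_zero] at h1
  rw [h1, extProd_append]
  have h2 : extProd l m n (L.cword c0) = 1 := by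
    simp only [cword, c0, word, S.x0, alt_succ, alt_zero, extProd]
    simp [refl_mul_self]
  rw [h2, one_mul]

theorem extProd_climb' {N : ℕ} {k k2 : ℕ} {σ : Bool} (h : L.up^[N] (k, σ, 0) = (k2, σ, 0)) :
    extProd l m n (L.word k σ) * extProd l m n (L.climb N (k, σ, 0)) =
      extProd l m n (L.word k2 σ) := by
  have h1 := L.cword_iterate (L.valid_zero k σ) N
  rw [h, cword_zero, cword_zero] at h1
  rw [h1, extProd_append]

/-- The value of a path crossing once. -/
theorem Scenario.extProd_cross (S : L.Scenario G K1 K2 ks k' B) {N N' k : ℕ}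
    (h : L.up^[N] c0 = (k, true, 0)) (h' : L.up^[N'] (k, false, 0) = (K2, false, 0)) :
    extProd l m n (L.climb N c0 ++ L.r k :: L.climb N' (k, false, 0)) =
      zE l m n ^ L.hgt k * extProd l m n (L.word K2 false) := by
  rw [extProd_append, extProd_cons, ← mul_assoc, S.extProd_climb h, L.extProd_word, mul_assoc,
    extProd_climb' h']

theorem Scenario.extProd_refV (S : L.Scenario G K1 K2 ks k' B) :
    extProd l m n (L.refV ks K2) = zE l m n ^ L.hgt ks * extProd l m n (L.word K2 false) :=
  S.extProd_cross (S.iterate_c0 S.ks1) (L.iterate_pos' false S.sK2)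

theorem extProd_start (L : Ladder (triMat l m n hl hm hn)) (V : List G3) :
    extProd l m n (s1 :: L.r 0 :: V) = extProd l m n (L.word 0 false) * extProd l m n V := by
  simp [extProd, word, mul_assoc]

theorem Scenario.extProd_refV' (S : L.Scenario G K1 K2 ks k' B) :
    extProd l m n (L.refV' k' K2) =
      zE l m n ^ (-L.hgt k') * extProd l m n (L.word K2 true) := by
  rw [refV', extProd_start, extProd_append, extProd_cons, ← mul_assoc,
    extProd_climb' (L.iterate_pos' false (Nat.zero_le k')), ← mul_assoc, extProd_word_false,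
    mul_assoc, extProd_climb' (L.iterate_pos' true S.k2)]

end Ladder

theorem left_of_eq {g g' : E l m n} {u u' : ℤˣ}
    (h : (SemidirectProduct.inl g : ExtE l m n) * SemidirectProduct.inr u =
      SemidirectProduct.inl g' * SemidirectProduct.inr u') : g = g' ∧ u = u' := by
  have h1 := congrArg SemidirectProduct.left h
  have h2 := congrArg SemidirectProduct.right h
  simp at h1 h2
  exact ⟨h1, h2⟩

open Ladder

theorem dec_append_s1 (p : Bool) (V : List G3) : dec p (V ++ [s1]) = dec p V := by
  rw [dec_append]; simp [dec]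

/-- Words of minimal length for the value of a tight word. -/
theorem exists_tight (hconv : L.Convex) (hS : L.Straight) (hG : L.Pot G)
    (V : List G3) (w : List Letter) (e : Ch) (hrun : run L.f c0 V = some e)
    (hcost : G e = G c0 + cost s1 V)
    (heval : eval l m n w = eval l m n (dec true V)) (hlen : w.length ≤ cost s1 V) :
    ∃ U, dec true U = w ∧ Tight L G U c0 e ∧ extProd l m n U = extProd l m n V := by
  set cs := (triMat l m n hl hm hn).toCoxeterSystem with hcs
  have hex : ExactOrders cs := triMat_exact l m n hl hm hn cs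
  have hM0 : ∀ s t, (triMat l m n hl hm hn) s t ≠ 0 := hex.ne_zero
  have hf := L.braidClosed hconv hM0
  obtain ⟨U, hU, hUchain, hUcost, hUpar⟩ : ∃ U, dec true U = w ∧
      U.IsChain (fun a b => ¬ (a = s1 ∧ b = s1)) ∧ cost s1 U = w.length ∧
      U.length % 2 = V.length % 2 := by
    by_cases hpar : (enc true w).length % 2 = V.length % 2
    · exact ⟨enc true w, dec_enc _ _, enc_chain _ _, cost_enc _ _, hpar⟩
    · refine ⟨enc true w ++ [s1], ?_, enc_append_chain _ _, ?_, ?_⟩
      · rw [dec_append_s1, dec_enc]
      · rw [cost_append, cost_enc]; simp [cost]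
      · rw [List.length_append, List.length_singleton]; omega
  have hpow : ((-1 : ℤˣ)) ^ U.length = (-1) ^ V.length := by
    rcases Nat.mod_two_eq_zero_or_one V.length with h | h
    · rw [Even.neg_one_pow (Nat.even_iff.2 h), Even.neg_one_pow (Nat.even_iff.2 (hUpar.trans h))]
    · rw [Odd.neg_one_pow (Nat.odd_iff.2 h), Odd.neg_one_pow (Nat.odd_iff.2 (hUpar.trans h))]
  have hpow2 : (cs.simple s1) ^ U.length = (cs.simple s1) ^ V.length := by
    have h2 : cs.simple s1 ^ 2 = 1 := by rw [pow_two]; simp
    rw [← Nat.div_add_mod U.length 2, ← Nat.div_add_mod V.length 2, hUpar, pow_add, pow_add,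
      pow_mul, pow_mul, h2, one_pow, one_pow]
  have hword : cs.wordProd U = cs.wordProd V := by
    rw [hcs, wordProd_eq_toCox l m n hl hm hn U, wordProd_eq_toCox l m n hl hm hn V, hU, heval,
      ← hcs, hpow2]
  have hc : G c0 + cost s1 U ≤ G e := by
    rw [hcost, hUcost]
    have : (w.length : ℤ) ≤ cost s1 V := by exact_mod_cast hlen
    linarith
  have hrunU : run L.f c0 U = some e := by
    refine run_of_min_cost_wall hex hf hG.potential (o := s1) ?_ U hUchain hrun hword hc
    intro c d U' h1 _ h3 h4 h5
    exact wall_of_arcs hex hf (fun c t c1 => L.arcs_ok hconv hS c t c1) c d U' h1 h3 h4 h5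
  refine ⟨U, hU, ⟨hrunU, hc, hUchain⟩, ?_⟩
  rw [extProd_eq, extProd_eq, hU, heval, hpow]

/-- Lower bound for the length of words with the value of a tight word. -/
theorem tight_length_le (hconv : L.Convex) (hG : L.Pot G)
    (V : List G3) (w : List Letter) (e : Ch) (hrun : run L.f c0 V = some e)
    (hcost : G e = G c0 + cost s1 V)
    (heval : eval l m n w = eval l m n (dec true V)) : cost s1 V ≤ w.length := by
  set cs := (triMat l m n hl hm hn).toCoxeterSystem with hcs
  have hex : ExactOrders cs := triMat_exact l m n hl hm hn cs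
  have hM0 : ∀ s t, (triMat l m n hl hm hn) s t ≠ 0 := hex.ne_zero
  have hf := L.braidClosed hconv hM0
  obtain ⟨U, hU, hUcost, hUpar⟩ : ∃ U, dec true U = w ∧
      cost s1 U = w.length ∧ U.length % 2 = V.length % 2 := by
    by_cases hpar : (enc true w).length % 2 = V.length % 2
    · exact ⟨enc true w, dec_enc _ _, cost_enc _ _, hpar⟩
    · refine ⟨enc true w ++ [s1], ?_, ?_, ?_⟩
      · rw [dec_append_s1, dec_enc]
      · rw [cost_append, cost_enc]; simp [cost]
      · rw [List.length_append, List.length_singleton]; omega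
  have hpow2 : (cs.simple s1) ^ U.length = (cs.simple s1) ^ V.length := by
    have h2 : cs.simple s1 ^ 2 = 1 := by rw [pow_two]; simp
    rw [← Nat.div_add_mod U.length 2, ← Nat.div_add_mod V.length 2, hUpar, pow_add, pow_add,
      pow_mul, pow_mul, h2, one_pow, one_pow]
  have hword : cs.wordProd U = cs.wordProd V := by
    rw [hcs, wordProd_eq_toCox l m n hl hm hn U, wordProd_eq_toCox l m n hl hm hn V, hU, heval,
      ← hcs, hpow2]
  have h := le_cost_of_eq hex hf hG.potential hrun hword
  rw [hcost, hUcost] at h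
  have : (cost s1 V : ℤ) ≤ w.length := by linarith
  exact_mod_cast this

end tri

end Pool.Agent.SLE
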