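import Pool.Agent.SLE.LineRun

/-!
# Divergence on ladders with caps: the master theorem

The first element has extreme height, and its normal form stays on the lines and on the middles of
the even caps; its height is given by the height potential. The normal form of the second element
is known up to the time of comparison.
-/

namespace Pool.Agent.SLE

open List G3

namespace VLad

variable {l m n : ℕ} {V : VLad l m n} {hG : V.Good} {val : V.CX → E l m n}
  {κ : V.CX → Letter → ℤ}

/-- The vertices of the lines and the middle vertices of the even caps. -/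
def MReg (V : VLad l m n) : V.CX → Prop := fun x =>
  (∃ σ j, x = Sum.inl (σ, j)) ∨ ∃ (σ : Bool) (j : ℕ) (h : 0 < V.capR σ j), V.Even σ j ∧
    V.capR σ j = 2 ∧ x = Sum.inr (⟨(σ, j), h⟩, 3)

theorem MReg_step (hG : V.Good) (o0 : ℤ) {p p' : V.CX} {y : Letter} (hp : V.MReg p)
    (h : (V.csys hG).Adj p y p') (hF : V.cF o0 p' = V.cF o0 p + 1) : V.MReg p' := by
  rcases hp with ⟨σ, j, rfl⟩ | ⟨σ, j, hj, hE, hr, rfl⟩
  · rcases V.tight_line hG o0 σ j y p' h hF with ⟨-, rfl⟩ | ⟨hE, -, ht⟩ | ⟨k, -, -, -, rfl⟩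
    · exact Or.inl ⟨_, _, rfl⟩
    · rcases ht with ⟨-, rfl⟩ | ⟨hc, hc0, rfl⟩
      · exact Or.inl ⟨_, _, rfl⟩
      · exact Or.inr ⟨σ, j, hc0, hE, hc, rfl⟩
    · exact Or.inl ⟨_, _, rfl⟩
  · obtain ⟨-, rfl⟩ := V.tight_mid hG o0 σ j hj hE hr y p' h hF
    exact Or.inl ⟨_, _, rfl⟩

theorem cF_middle (o0 : ℤ) {σ : Bool} {j : ℕ} (h : 0 < V.capR σ j) (hE : V.Even σ j)
    (hr : V.capR σ j = 2) :
    V.cF o0 (Sum.inr (⟨(σ, j), h⟩, 3)) = j + 1 + (if σ then 0 else o0) := by
  have h4 := hE.2
  rw [hr] at h4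
  change (j : ℤ) + _ + (if σ then (3 : ℤ) - psz l n (V.u σ j) + V.capR σ j
        else 2 * V.capR σ j - 3) ⊔ 0 = _
  rw [hr, ← h4]
  cases σ
  · simp only [Bool.false_eq_true, if_false]
    norm_num
    ring
  · simp only [if_true]
    norm_num

/-- The vertices of the region at a level without middle vertices. -/
theorem MReg_level {o0 : ℤ} {i0 i1 : ℕ} (hi : (i0 : ℤ) + o0 = i1) (hm1 : ¬ V.Mid true i1)
    (hm0 : ¬ V.Mid false i0) {p : V.CX} (hp : V.MReg p) (hF : V.cF o0 p = i1) :
    p = Sum.inl (true, i1) ∨ p = Sum.inl (false, i0) := by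
  rcases hp with ⟨σ, j, rfl⟩ | ⟨σ, j, hj, hE, hr, rfl⟩
  · cases σ
    · change (j : ℤ) + o0 = _ at hF
      have : j = i0 := by omega
      rw [this]
      exact Or.inr rfl
    · change (j : ℤ) + 0 = _ at hF
      have : j = i1 := by omega
      rw [this]
      exact Or.inl rfl
  · exfalso
    rw [cF_middle o0 hj hE hr] at hF
    cases σ
    · simp only [Bool.false_eq_true, if_false] at hF
      exact hm0 ⟨j, by omega, hE, hr⟩
    · simp only [if_true] at hF
      exact hm1 ⟨j, by omega, hE, hr⟩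

theorem ball2_one : (1 : E l m n) ∈ ball2 l m n := ⟨[], by simp, (eval_nil l m n).symm⟩

theorem ball2_inv {g : E l m n} (h : g ∈ ball2 l m n) : g⁻¹ ∈ ball2 l m n := by
  obtain ⟨w, hw, rfl⟩ := h
  match w, hw with
  | [], _ => exact ⟨[], by simp, by rw [eval_nil, inv_one]⟩
  | [y], _ => exact ⟨[flip y], by simp, by rw [eval_flip]⟩
  | [y, y'], _ =>
    refine ⟨[flip y', flip y], by simp, ?_⟩
    rw [eval_cons l m n y [y'], eval_cons l m n (flip y') [flip y], eval_flip, eval_flip,
      mul_inv_rev]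
  | _ :: _ :: _ :: _, h => simp at h

/-- The vertices of the two lines at the same level as the rung `K`. -/
theorem rung_diff (hc : V.CVal hG val κ) {o0 : ℤ} (ho : ∀ k, |V.off o0 k| ≤ 1) {K i0 i1 : ℕ}
    (hi : (i0 : ℤ) + o0 = i1) (hK : V.pos true K = i1 ∨ V.pos false K = i0) :
    ∃ g ∈ ball2 l m n, (val (Sum.inl (true, i1)))⁻¹ * val (Sum.inl (false, i0)) =
      g * (genB l m n ^ n) ^ V.hgt K := by
  rw [hc.inl, hc.inl]
  have h1 := V.val_lr K
  have h2 := abs_le.1 (ho K)
  unfold off at h2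
  have hz : ∀ (g : E l m n) (k : ℤ), (genB l m n ^ n) ^ k * g = g * (genB l m n ^ n) ^ k :=
    fun g k => Pool.Agent.SLE.zpow_comm g k
  -- the rung
  have h3 : (V.val (true, V.pos true K))⁻¹ * V.val (false, V.pos false K) =
      eval l m n [flip (V.c K)] * (genB l m n ^ n) ^ V.hgt K := by
    rw [eval_flip, ← hz]
    have h4 : V.val (false, V.pos false K) = V.val (true, V.pos true K) *
        (genB l m n ^ n) ^ V.hgt K * (eval l m n [V.c K])⁻¹ := by
      rw [← h1]
      group
    rw [h4]
    group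
  rcases hK with hK | hK
  · subst hK
    have h4 : V.pos false K = i0 ∨ V.pos false K = i0 + 1 ∨ V.pos false K + 1 = i0 := by omega
    rcases h4 with h4 | h4 | h4
    · rw [← h4, h3]
      exact ⟨_, ⟨[flip (V.c K)], by simp, rfl⟩, rfl⟩
    · have h5 := V.val_down false i0
      rw [← h4] at h5
      refine ⟨eval l m n [flip (V.c K), flip (V.u false i0)], ⟨_, by simp, rfl⟩, ?_⟩
      rw [← h5, ← mul_assoc, h3, mul_assoc, hz, ← mul_assoc,
        eval_cons l m n (flip (V.c K)) [flip (V.u false i0)]]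
    · have h5 := V.val_up false (V.pos false K)
      rw [h4] at h5
      refine ⟨eval l m n [flip (V.c K), V.u false (V.pos false K)], ⟨_, by simp, rfl⟩, ?_⟩
      rw [← h5, ← mul_assoc, h3, mul_assoc, hz, ← mul_assoc,
        eval_cons l m n (flip (V.c K)) [V.u false (V.pos false K)]]
  · subst hK
    have h4 : V.pos true K = i1 ∨ V.pos true K = i1 + 1 ∨ V.pos true K + 1 = i1 := by omega
    rcases h4 with h4 | h4 | h4
    · rw [← h4, h3]
      exact ⟨_, ⟨[flip (V.c K)], by simp, rfl⟩, rfl⟩
    · have h5 := V.val_down true i1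
      rw [← h4] at h5
      refine ⟨eval l m n [V.u true i1, flip (V.c K)], ⟨_, by simp, rfl⟩, ?_⟩
      rw [← h5, mul_inv_rev, mul_assoc, h3, ← mul_assoc, eval_flip l m n (V.u true i1), inv_inv,
        eval_cons l m n (V.u true i1) [flip (V.c K)]]
    · have h5 := V.val_up true (V.pos true K)
      rw [h4] at h5
      refine ⟨eval l m n [flip (V.u true (V.pos true K)), flip (V.c K)], ⟨_, by simp, rfl⟩, ?_⟩
      rw [← h5, mul_inv_rev, mul_assoc, h3, ← mul_assoc, ← eval_flip,
        eval_cons l m n (flip (V.u true (V.pos true K))) [flip (V.c K)]]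

/-- **Master theorem.** The first word has extreme height. `K` is the rung at the time of the
comparison; the second word is known up to this time, and ends on the line `τ`. The numbers `hR`
and `hL` are the differences of the heights if the normal form of the first element is on the
right line or on the left line at this time. -/
theorem master (hT : V.Tame) (hm : 2 ≤ m) (hyp : (1 / l + 1 / m + 1 / n : ℚ) < 1)
    (hc : V.CVal hT.toGood val κ) {o0 ε : ℤ} (ho : ∀ k, |V.off o0 k| ≤ 1)
    (hε : ε = 1 ∨ ε = -1) {H : Bool → ℕ → ℤ} (hH : V.HCond o0 ε H)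
    {lt : Letter → Letter → Prop} [IsStrictTotalOrder Letter lt]
    {s s1 s2 : Bool × ℕ} {w1 w2 w2' c : List Letter} {τ : Bool} {K i0 i1 : ℕ}
    -- the words
    (h1 : TightRun (V.csys hT.toGood).mv (V.cF o0) (Sum.inl s) w1 (Sum.inl s1))
    (k1 : ε * kap (V.csys hT.toGood).mv κ (Sum.inl s) w1 = H s1.1 s1.2 - H s.1 s.2)
    (h2 : LocRun (V.csys hT.toGood).mv (V.cF o0) (fun _ _ _ => True) lt (Sum.inl s) w2
      (Sum.inl (τ, if τ then i1 else i0)))
    (h2' : TightRun (V.csys hT.toGood).mv (V.cF o0) (Sum.inl (τ, if τ then i1 else i0)) w2'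
      (Sum.inl s2))
    (hrun : run (V.csys hT.toGood).mv (Sum.inl s1) c = some (Sum.inl s2))
    (hc1 : c.length ≤ 1)
    (hk : kap (V.csys hT.toGood).mv κ (Sum.inl s) w1 +
      kap (V.csys hT.toGood).mv κ (Sum.inl s1) c =
        kap (V.csys hT.toGood).mv κ (Sum.inl s) (w2 ++ w2'))
    (hlen : w2.length ≤ w1.length)
    -- the rung `K` is at the vertex `i1` of the right line, or at the vertex `i0` of the left line,
    -- and `i0 + o0 = i1`: these are the vertices of the lines at the time of comparison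
    (hi : (i0 : ℤ) + o0 = i1)
    (hK : V.pos true K = i1 ∨ V.pos false K = i0)
    (hm1 : ¬ V.Mid true i1) (hm0 : ¬ V.Mid false i0)
    {N : ℕ}
    -- heights relative to the right line
    (hR : (N : ℤ) < |kap (V.csys hT.toGood).mv κ (Sum.inl s) w2 +
      (if τ then 0 else V.hgt K) - ε * (H true i1 - H s.1 s.2)|)
    (hL : (N : ℤ) < |kap (V.csys hT.toGood).mv κ (Sum.inl s) w2 +
      (if τ then 0 else V.hgt K) - (ε * (H false i0 - H s.1 s.2) + V.hgt K)|) :
    Diverge l m n lt 1 (ball2 l m n) N := by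
  have hl := hT.hl
  have hn := hT.hn
  set hG := hT.toGood with hGdef
  have hV := hc.vval
  have hz : ∀ (g : E l m n) (k : ℤ), (genB l m n ^ n) ^ k * g = g * (genB l m n ^ n) ^ k :=
    fun g k => Pool.Agent.SLE.zpow_comm g k
  have hεε : ε * ε = 1 := by rcases hε with rfl | rfl <;> norm_num
  have hε1 : |ε| ≤ 1 := by rcases hε with rfl | rfl <;> norm_num
  have hlip : ∀ x y x', (V.csys hG).mv x y = some x' → V.cF o0 x' ≤ V.cF o0 x + 1 :=
    fun x y x' h => V.cF_lip hG o0 ho x y x' ((V.csys hG).mv_iff.1 h)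
  have hHd : ∀ x y x', (V.csys hG).mv x y = some x' → V.cF o0 x' = V.cF o0 x + 1 →
      V.cH H x' - V.cH H x ≤ ε * κ x y :=
    fun x y x' h hf => hc.hH o0 ε H hε1 hH x y x' ((V.csys hG).mv_iff.1 h) hf
  have VS : VSys l m n (V.csys hG).mv := hT.closed.vsys hl (by omega) hn
  have r1 := h1.spec.1
  have t2 := h2.tight.append h2'
  have r2 := t2.spec.1
  refine ⟨w1, w2 ++ w2', c, w2.length, hc1, ?_, fun u v hu hu' hv hv' => ?_⟩
  · have h3 : run (V.csys hG).mv (Sum.inl s) (w1 ++ c) = some (Sum.inl s2) := by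
      rw [run_append_some]
      exact ⟨_, r1, hrun⟩
    rw [hV.eval_eq h3, hV.eval_eq r2, kap_append r1, hk]
  · -- the second normal form
    have a2 := h2.take_eq' VS hV hl hm hn hyp hlip h2' hv hv'
    -- the first normal form
    obtain ⟨tu, lu, -⟩ := VS.normalForm hl hm hn hlip h1 hu hu'
    have ku : kap (V.csys hG).mv κ (Sum.inl s) u = kap (V.csys hG).mv κ (Sum.inl s) w1 :=
      hV.kap_eq hl hm hn hyp tu.spec.1 r1 hu'
    have au := tu.allowed hHd (by
      rw [ku, k1]
      rfl)
    have hF2 := h2.tight.spec.2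
    have hp2 : V.cF o0 (Sum.inl (τ, if τ then i1 else i0)) = i1 := by
      cases τ
      · change (i0 : ℤ) + o0 = i1
        exact hi
      · change (i1 : ℤ) + 0 = i1
        ring
    obtain ⟨p, rp, Rp, Fp, kp⟩ := au.trap (R := V.MReg) (κ := κ) (g := fun x => ε * V.cH H x)
      (f := i1) (i := w2.length) (by
        intro p hp hFp y p' hy hF hP
        refine ⟨MReg_step hG o0 hp ((V.csys hG).mv_iff.1 hy) hF, ?_⟩
        have h3 : ε * (V.cH H p' - V.cH H p) = ε * (ε * κ p y) := by rw [hP]
        rw [← mul_assoc, hεε, one_mul] at h3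
        rw [← h3]
        ring)
      (Or.inl ⟨_, _, rfl⟩) (by rw [← hp2, hF2]) (by rw [lu]; exact hlen)
    have hp := MReg_level hi hm1 hm0 Rp Fp
    have key : (eval l m n (u.take w2.length))⁻¹ * eval l m n (v.take w2.length) =
        (val p)⁻¹ * val (Sum.inl (τ, if τ then i1 else i0)) *
          (genB l m n ^ n) ^ (kap (V.csys hG).mv κ (Sum.inl s) w2 -
            ε * (V.cH H p - V.cH H (Sum.inl s))) := by
      rw [a2, hV.eval_eq rp, hV.eval_eq h2.tight.spec.1, kp]
      rw [show ε * V.cH H p - ε * V.cH H (Sum.inl s) =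
        ε * (V.cH H p - V.cH H (Sum.inl s)) by ring]
      generalize ε * (V.cH H p - V.cH H (Sum.inl s)) = e1
      generalize kap (V.csys hG).mv κ (Sum.inl s) w2 = e2
      rw [sub_eq_add_neg, zpow_add, zpow_neg, mul_inv_rev, mul_inv_rev, inv_inv]
      rw [← zpow_neg, hz, mul_assoc ((val p)⁻¹ * val (Sum.inl s)), hz]
      group
    rw [key]
    obtain ⟨g, hg, hgd⟩ := rung_diff hc ho hi hK
    rcases hp with rfl | rfl
    · cases τ
      · refine ⟨g, hg, kap (V.csys hG).mv κ (Sum.inl s) w2 + V.hgt K -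
          ε * (H true i1 - H s.1 s.2), hR, ?_⟩
        simp only [Bool.false_eq_true, if_false]
        rw [hgd, mul_assoc, ← zpow_add]
        congr 2
        change V.hgt K + (_ - ε * (H true i1 - H s.1 s.2)) = _
        ring
      · refine ⟨1, ball2_one, kap (V.csys hG).mv κ (Sum.inl s) w2 + 0 -
          ε * (H true i1 - H s.1 s.2), hR, ?_⟩
        simp only [if_true]
        rw [inv_mul_cancel]
        congr 2
        change _ - ε * (H true i1 - H s.1 s.2) = _
        ring
    · cases τ
      · refine ⟨1, ball2_one, kap (V.csys hG).mv κ (Sum.inl s) w2 + V.hgt K -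
          (ε * (H false i0 - H s.1 s.2) + V.hgt K), hL, ?_⟩
        simp only [Bool.false_eq_true, if_false]
        rw [inv_mul_cancel]
        congr 2
        change _ - ε * (H false i0 - H s.1 s.2) = _
        ring
      · refine ⟨g⁻¹, ball2_inv hg, kap (V.csys hG).mv κ (Sum.inl s) w2 + 0 -
          (ε * (H false i0 - H s.1 s.2) + V.hgt K), hL, ?_⟩
        simp only [if_true]
        have h5 : (val (Sum.inl (false, i0)))⁻¹ * val (Sum.inl (true, i1)) =
            g⁻¹ * (genB l m n ^ n) ^ (-V.hgt K) := by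
          have h6 := congrArg (fun x => x⁻¹) hgd
          simp only [mul_inv_rev, inv_inv] at h6
          rw [h6, ← zpow_neg, hz]
        rw [h5, mul_assoc, ← zpow_add]
        congr 2
        change -V.hgt K + (_ - ε * (H false i0 - H s.1 s.2)) = _
        ring

end VLad

end Pool.Agent.SLE
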