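import Pool.Agent.SLE.TypeA

/-!
# Periodic ladders
-/

namespace Pool.Agent.SLE

open List G3

/-- The letter of the rung `k`: `a, A, a, A, …` for even `m`, and the letters `a, A, b, B`, starting
with `a` (`s = 0`) or with `b` (`s = 2`), for odd `m`. -/
def patC (m s k : ℕ) : Letter :=
  if m % 2 = 0 then (if k % 2 = 0 then lA else lA')
  else if (k + s) % 4 = 0 then lA else if (k + s) % 4 = 1 then lA'
  else if (k + s) % 4 = 2 then lB else lB'

/-- The number of edges of the cell `k`, for even `k`. -/
def patP (l m n s k : ℕ) : ℕ := psz l n (patC m s k)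

/-- The change of the offset at the cell `k`, from the offset `o`. -/
def patD (l m n s K1 k : ℕ) (o : ℤ) : ℤ :=
  if k % 2 = 1 then 0
  else if patP l m n s k % 2 = 0 then (if k = K1 then -2 else 0)
  else if k < K1 then (if o = 1 then -1 else 1)
  else if k = K1 then -1
  else if o = 0 then -1 else 1

/-- The offset at the rung `k`. -/
def patO (l m n s K1 : ℕ) : ℕ → ℤ
  | 0 => 1
  | k + 1 => patO l m n s K1 k + patD l m n s K1 k (patO l m n s K1 k)

/-- The numbers of edges of the cells on the lines. -/
def patLen (l m n s K1 k : ℕ) (σ : Bool) : ℕ :=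
  if k % 2 = 1 then m - 1
  else ((((patP l m n s k : ℤ) - 2 + (if σ then -1 else 1) *
    patD l m n s K1 k (patO l m n s K1 k)) / 2).toNat)

/-- Conditions for the periodic ladder with the middle cell `K1`. -/
structure PatOK (l m n s t0 : ℕ) : Prop where
  hl : 2 ≤ l
  hm : 2 ≤ m
  hn : 2 ≤ n
  hs : s = 0 ∨ (s = 2 ∧ m % 2 = 1)
  ht : t0 = 0 ∨ (t0 = 2 ∧ m % 2 = 1 ∧ s = 0 ∧ l % 2 = 0)
  hK : 3 ≤ patP l m n s t0

theorem patC_add_four (m s k : ℕ) : patC m s (k + 4) = patC m s k := by
  unfold patC
  rw [show (k + 4) % 2 = k % 2 by omega, show (k + 4 + s) % 4 = (k + s) % 4 by omega]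

theorem patP_add_four (l m n s k : ℕ) : patP l m n s (k + 4) = patP l m n s k := by
  unfold patP
  rw [patC_add_four]

theorem patP_add_eight (l m n s t j : ℕ) : patP l m n s (8 * j + t) = patP l m n s t := by
  induction j with
  | zero => rw [Nat.mul_zero, Nat.zero_add]
  | succ j ih =>
    rw [show 8 * (j + 1) + t = 8 * j + t + 4 + 4 by ring, patP_add_four, patP_add_four, ih]

theorem PatOK.two_le {l m n s t0 : ℕ} (h : PatOK l m n s t0) (k : ℕ) :
    2 ≤ patP l m n s k := by
  unfold patP psz
  split_ifs
  · exact h.hl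
  · exact h.hn

/-- the change of the offset is at most the number of edges on the lines -/
theorem PatOK.patD_le {l m n s t0 : ℕ} (h : PatOK l m n s t0) (j k : ℕ) (hk : k % 2 = 0) (o : ℤ) :
    (patD l m n s (8 * j + t0) k o ≤ (patP l m n s k : ℤ) - 2) ∧
    (-patD l m n s (8 * j + t0) k o ≤ (patP l m n s k : ℤ) - 2) ∧
    ((patP l m n s k : ℤ) - 2 + patD l m n s (8 * j + t0) k o) % 2 = 0 := by
  have h2 := h.two_le k
  have h3 : k = 8 * j + t0 → 3 ≤ patP l m n s k := by
    intro h4
    rw [h4, patP_add_eight]
    exact h.hK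
  unfold patD
  rw [if_neg (by omega)]
  split_ifs <;> omega

theorem patC_even {m s k : ℕ} (hs : s % 2 = 0) (hk : k % 2 = 0) :
    patC m s k = lA ∨ patC m s k = lB := by
  unfold patC
  split_ifs
  · exact Or.inl rfl
  · exact Or.inl rfl
  · omega
  · exact Or.inr rfl
  · omega

theorem patC_odd {m s k : ℕ} (hs : s % 2 = 0) (hk : k % 2 = 1) :
    patC m s k = lA' ∨ patC m s k = lB' := by
  unfold patC
  split_ifs
  · omega
  · exact Or.inl rfl
  · omega
  · exact Or.inl rfl
  · omega
  · exact Or.inr rfl

theorem PatOK.s_even {l m n s t0 : ℕ} (h : PatOK l m n s t0) : s % 2 = 0 := by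
  have := h.hs
  omega

theorem PatOK.t0_even {l m n s t0 : ℕ} (h : PatOK l m n s t0) : t0 % 2 = 0 := by
  have := h.ht
  omega

theorem patLen_even {l m n s K1 k : ℕ} (hk : k % 2 = 0) (σ : Bool) :
    patLen l m n s K1 k σ = (((patP l m n s k : ℤ) - 2 + (if σ then -1 else 1) *
      patD l m n s K1 k (patO l m n s K1 k)) / 2).toNat := by
  unfold patLen
  rw [if_neg (by omega)]

theorem patLen_odd {l m n s K1 k : ℕ} (hk : k % 2 = 1) (σ : Bool) :
    patLen l m n s K1 k σ = m - 1 := by
  unfold patLen
  rw [if_pos hk]

theorem nxt_iter_lA' (a : ℕ) : nxt^[a] lA' = if a % 2 = 0 then lA' else lB' := by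
  induction a with
  | zero => rfl
  | succ a ih =>
    rw [Function.iterate_succ_apply', ih]
    by_cases h : a % 2 = 0
    · rw [if_pos h, if_neg (by omega)]
      rfl
    · rw [if_neg h, if_pos (by omega)]
      rfl

theorem nxt_iter_lB' (a : ℕ) : nxt^[a] lB' = if a % 2 = 0 then lB' else lA' := by
  induction a with
  | zero => rfl
  | succ a ih =>
    rw [Function.iterate_succ_apply', ih]
    by_cases h : a % 2 = 0
    · rw [if_pos h, if_neg (by omega)]
      rfl
    · rw [if_neg h, if_pos (by omega)]
      rfl

/-- The periodic ladder, with the middle cell `8 j + t0`. -/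
def pat {l m n s t0 : ℕ} (h : PatOK l m n s t0) (j : ℕ) : VLad l m n where
  c := patC m s
  len := patLen l m n s (8 * j + t0)
  cyc := by
    intro k
    have hm := h.hm
    rcases Nat.mod_two_eq_zero_or_one k with hk | hk
    · have h1 := h.patD_le j k hk (patO l m n s (8 * j + t0) k)
      have h2 : fper l m n (patC m s k) = patP l m n s k := by
        unfold patP
        rcases patC_even (m := m) h.s_even hk with h3 | h3 <;> rw [h3] <;> rfl
      rw [h2, patLen_even hk, patLen_even hk]
      simp only [if_true, Bool.false_eq_true, if_false]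
      omega
    · have h2 : fper l m n (patC m s k) = 2 * m := by
        rcases patC_odd (m := m) h.s_even hk with h3 | h3 <;> rw [h3] <;> rfl
      rw [h2, patLen_odd hk, patLen_odd hk]
      omega
  step := by
    intro k
    have hm := h.hm
    have hs := h.hs
    rcases Nat.mod_two_eq_zero_or_one k with hk | hk
    · have h1 : nxt^[patLen l m n s (8 * j + t0) k true + 1] (patC m s k) = patC m s k := by
        apply VLad.nxt_iter_pos
        rcases patC_even (m := m) h.s_even hk with h3 | h3 <;> rw [h3]
      rw [h1]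
      unfold patC
      split_ifs <;> first | rfl | omega
    · have h1 : patLen l m n s (8 * j + t0) k true = m - 1 := by
        unfold patLen
        rw [if_pos hk]
      rw [h1, show m - 1 + 1 = m by omega]
      by_cases hme : m % 2 = 0
      · have h2 : patC m s k = lA' := by
          unfold patC
          rw [if_pos hme, if_neg (by omega)]
        have h3 : patC m s (k + 1) = lA := by
          unfold patC
          rw [if_pos hme, if_pos (by omega)]
        rw [h2, h3, nxt_iter_lA', if_pos hme]
        rfl
      · by_cases h4 : (k + s) % 4 = 1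
        · have h2 : patC m s k = lA' := by
            unfold patC
            rw [if_neg hme, if_neg (by omega), if_pos h4]
          have h3 : patC m s (k + 1) = lB := by
            unfold patC
            rw [if_neg hme, if_neg (by omega), if_neg (by omega), if_pos (by omega)]
          rw [h2, h3, nxt_iter_lA', if_neg hme]
          rfl
        · have h2 : patC m s k = lB' := by
            unfold patC
            rw [if_neg hme, if_neg (by omega), if_neg (by omega), if_neg (by omega)]
          have h3 : patC m s (k + 1) = lA := by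
            unfold patC
            rw [if_neg hme, if_pos (by omega)]
          rw [h2, h3, nxt_iter_lB', if_neg hme]
          rfl
  nz := by
    intro k σ h0
    have hm := h.hm
    rcases Nat.mod_two_eq_zero_or_one k with hk | hk
    · unfold patLen
      rw [if_pos (by omega)]
      omega
    · exfalso
      unfold patLen at h0
      rw [if_pos hk] at h0
      omega

theorem pat_off {l m n s t0 : ℕ} (h : PatOK l m n s t0) (j k : ℕ) :
    (pat h j).off 1 k = patO l m n s (8 * j + t0) k := by
  induction k with
  | zero => rfl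
  | succ k ih =>
    have h1 : (pat h j).off 1 (k + 1) = (pat h j).off 1 k +
        ((pat h j).len k false - (pat h j).len k true) := by
      unfold VLad.off
      rw [VLad.pos_succ, VLad.pos_succ]
      push_cast
      ring
    rw [h1, ih]
    change _ = patO l m n s (8 * j + t0) k + patD l m n s (8 * j + t0) k
      (patO l m n s (8 * j + t0) k)
    congr 1
    change ((patLen l m n s (8 * j + t0) k false : ℕ) : ℤ) -
      ((patLen l m n s (8 * j + t0) k true : ℕ) : ℤ) = _
    rcases Nat.mod_two_eq_zero_or_one k with hk | hk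
    · have h2 := h.patD_le j k hk (patO l m n s (8 * j + t0) k)
      rw [patLen_even hk, patLen_even hk]
      simp only [if_true, Bool.false_eq_true, if_false]
      omega
    · rw [patLen_odd hk, patLen_odd hk]
      unfold patD
      rw [if_pos hk, sub_self]

/-- the heights, for even `m` -/
theorem pat_hgt_even {l m n s t0 : ℕ} (h : PatOK l m n s t0) (j k : ℕ) (hme : m % 2 = 0) :
    (pat h j).hgt k = ((k / 2 : ℕ) : ℤ) := by
  induction k with
  | zero => rfl
  | succ k ih =>
    change (pat h j).hgt k - fht (patC m s k) = _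
    rw [ih]
    unfold patC
    rw [if_pos hme]
    by_cases hk : k % 2 = 0
    · rw [if_pos hk]
      change ((k / 2 : ℕ) : ℤ) - 0 = _
      omega
    · rw [if_neg hk]
      change ((k / 2 : ℕ) : ℤ) - (-1) = _
      omega

/-- the heights, for odd `m` and `s = 0` -/
theorem pat_hgt_odd_zero {l m n t0 : ℕ} (h : PatOK l m n 0 t0) (j k : ℕ) (hme : ¬ m % 2 = 0) :
    (pat h j).hgt k = ((k / 4 : ℕ) : ℤ) + (if k % 4 = 2 then 1 else 0) := by
  induction k with
  | zero => rfl
  | succ k ih =>
    change (pat h j).hgt k - fht (patC m 0 k) = _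
    rw [ih]
    unfold patC
    rw [if_neg hme, Nat.add_zero]
    rcases (show k % 4 = 0 ∨ k % 4 = 1 ∨ k % 4 = 2 ∨ k % 4 = 3 by omega) with hk | hk | hk | hk
    · rw [if_pos hk, if_neg (by omega), if_neg (by omega)]
      change _ - (0 : ℤ) = _
      omega
    · rw [if_neg (by omega), if_neg (by omega), if_pos hk, if_pos (by omega)]
      change _ - (-1 : ℤ) = _
      omega
    · rw [if_pos hk, if_neg (by omega), if_neg (by omega), if_pos hk, if_neg (by omega)]
      change _ - (1 : ℤ) = _
      omega
    · rw [if_neg (by omega), if_neg (by omega), if_neg (by omega), if_neg (by omega),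
        if_neg (by omega)]
      change _ - (-1 : ℤ) = _
      omega

/-- the heights, for odd `m` and `s = 2` -/
theorem pat_hgt_odd_two {l m n t0 : ℕ} (h : PatOK l m n 2 t0) (j k : ℕ) (hme : ¬ m % 2 = 0) :
    (pat h j).hgt k = ((k / 4 : ℕ) : ℤ) - (if k % 4 = 1 then 1 else 0) := by
  induction k with
  | zero => rfl
  | succ k ih =>
    change (pat h j).hgt k - fht (patC m 2 k) = _
    rw [ih]
    unfold patC
    rw [if_neg hme]
    rcases (show k % 4 = 0 ∨ k % 4 = 1 ∨ k % 4 = 2 ∨ k % 4 = 3 by omega) with hk | hk | hk | hk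
    · rw [if_neg (by omega), if_neg (by omega), if_neg (by omega), if_pos (by omega),
        if_pos (by omega)]
      change _ - (1 : ℤ) = _
      omega
    · rw [if_pos hk, if_neg (by omega), if_neg (by omega), if_neg (by omega), if_neg (by omega)]
      change _ - (-1 : ℤ) = _
      omega
    · rw [if_neg (by omega), if_pos (by omega), if_neg (by omega)]
      change _ - (0 : ℤ) = _
      omega
    · rw [if_neg (by omega), if_neg (by omega), if_pos (by omega), if_neg (by omega)]
      change _ - (-1 : ℤ) = _
      omega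

/-- all the facts about the heights that are needed, at once: the height increases by `v` over
`4 v'` cells -/
theorem pat_hgt {l m n s t0 : ℕ} (h : PatOK l m n s t0) (j : ℕ) :
    ∃ q : ℕ, 1 ≤ q ∧ (q = 2 ∨ q = 4) ∧ (∀ k i, (pat h j).hgt (k + q * i) = (pat h j).hgt k + i) ∧
      (∀ k, -1 ≤ (pat h j).hgt k) ∧ (∀ K k, k ≤ 8 * K → (pat h j).hgt k ≤ (pat h j).hgt (8 * K)) ∧
      (∀ i : ℕ, 2 * (i : ℤ) ≤ (pat h j).hgt (8 * i)) ∧
      (∀ k, k ≤ 8 * j + t0 → (pat h j).hgt k ≤ (pat h j).hgt (8 * j + t0)) ∧
      0 ≤ (pat h j).hgt (8 * j + t0) ∧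
      (∀ i, i < j → (pat h j).hgt (8 * i) < (pat h j).hgt (8 * j + t0)) := by
  have ht := h.ht
  by_cases hme : m % 2 = 0
  · have hh := fun k => pat_hgt_even h j k hme
    refine ⟨2, by omega, Or.inl rfl, ?_, ?_, ?_, ?_, ?_, ?_, ?_⟩
    · intro k i
      rw [hh, hh]
      omega
    · intro k
      rw [hh]
      omega
    · intro K k hk
      rw [hh, hh]
      omega
    · intro i
      rw [hh]
      omega
    · intro k hk
      rw [hh, hh]
      omega
    · rw [hh]
      omega
    · intro i hi
      rw [hh, hh]
      omega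
  · have hs := h.hs
    rcases hs with rfl | ⟨rfl, -⟩
    · have hh := fun k => pat_hgt_odd_zero h j k hme
      refine ⟨4, by omega, Or.inr rfl, ?_, ?_, ?_, ?_, ?_, ?_, ?_⟩
      · intro k i
        rw [hh, hh]
        split_ifs <;> omega
      · intro k
        rw [hh]
        split_ifs <;> omega
      · intro K k hk
        rw [hh, hh]
        split_ifs <;> omega
      · intro i
        rw [hh]
        split_ifs <;> omega
      · intro k hk
        rw [hh, hh]
        split_ifs <;> omega
      · rw [hh]
        split_ifs <;> omega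
      · intro i hi
        rw [hh, hh]
        split_ifs <;> omega
    · have hh := fun k => pat_hgt_odd_two h j k hme
      refine ⟨4, by omega, Or.inr rfl, ?_, ?_, ?_, ?_, ?_, ?_, ?_⟩
      · intro k i
        rw [hh, hh]
        split_ifs <;> omega
      · intro k
        rw [hh]
        split_ifs <;> omega
      · intro K k hk
        rw [hh, hh]
        split_ifs <;> omega
      · intro i
        rw [hh]
        split_ifs <;> omega
      · intro k hk
        rw [hh, hh]
        split_ifs <;> omega
      · rw [hh]
        split_ifs <;> omega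
      · intro i hi
        rw [hh, hh]
        split_ifs <;> omega

section Offsets

variable (l m n s K1 : ℕ)

/-- the offsets in the first zone -/
theorem patO_zone1 (k : ℕ) (hk : k ≤ K1) : patO l m n s K1 k = 0 ∨ patO l m n s K1 k = 1 := by
  induction k with
  | zero => exact Or.inr rfl
  | succ k ih =>
    have ih := ih (by omega)
    change patO l m n s K1 k + patD l m n s K1 k (patO l m n s K1 k) = 0 ∨
      patO l m n s K1 k + patD l m n s K1 k (patO l m n s K1 k) = 1
    unfold patD
    split_ifs <;> omega

/-- two cells in the first zone -/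
theorem patO_two (k : ℕ) (hk : k + 2 ≤ K1) (hk2 : k % 2 = 0) :
    patO l m n s K1 (k + 2) = if patP l m n s k % 2 = 0 then patO l m n s K1 k
      else 1 - patO l m n s K1 k := by
  have h0 := patO_zone1 l m n s K1 k (by omega)
  have h1 : patO l m n s K1 (k + 2) = patO l m n s K1 (k + 1) +
    patD l m n s K1 (k + 1) (patO l m n s K1 (k + 1)) := rfl
  have h2 : patO l m n s K1 (k + 1) = patO l m n s K1 k +
    patD l m n s K1 k (patO l m n s K1 k) := rfl
  have h3 : patD l m n s K1 (k + 1) (patO l m n s K1 (k + 1)) = 0 := by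
    unfold patD
    rw [if_pos (by omega)]
  rw [h1, h3, h2]
  unfold patD
  rw [if_neg (by omega)]
  split_ifs <;> omega

/-- eight cells in the first zone -/
theorem patO_eight (k : ℕ) (hk : k + 8 ≤ K1) (hk2 : k % 2 = 0) :
    patO l m n s K1 (k + 8) = patO l m n s K1 k := by
  have h1 := patO_two l m n s K1 k (by omega) hk2
  have h2 := patO_two l m n s K1 (k + 2) (by omega) (by omega)
  have h3 := patO_two l m n s K1 (k + 4) (by omega) (by omega)
  have h4 := patO_two l m n s K1 (k + 6) (by omega) (by omega)
  rw [patP_add_four] at h3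
  rw [show k + 6 = k + 2 + 4 by ring, patP_add_four] at h4
  rw [show k + 8 = k + 2 + 4 + 2 by ring, h4, show k + 2 + 4 = k + 4 + 2 by ring, h3,
    show k + 4 = k + 2 + 2 by ring, h2, h1]
  split_ifs <;> omega

theorem patO_mul_eight (i : ℕ) (hi : 8 * i ≤ K1) : patO l m n s K1 (8 * i) = 1 := by
  induction i with
  | zero => rfl
  | succ i ih =>
    rw [show 8 * (i + 1) = 8 * i + 8 by ring, patO_eight _ _ _ _ _ _ (by omega) (by omega),
      ih (by omega)]

/-- the offsets in the second zone -/
theorem patO_zone2 (h1 : patO l m n s K1 K1 = 1) (h2 : K1 % 2 = 0) (i : ℕ) :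
    patO l m n s K1 (K1 + 1 + i) = 0 ∨ patO l m n s K1 (K1 + 1 + i) = -1 := by
  induction i with
  | zero =>
    change patO l m n s K1 K1 + patD l m n s K1 K1 (patO l m n s K1 K1) = 0 ∨
      patO l m n s K1 K1 + patD l m n s K1 K1 (patO l m n s K1 K1) = -1
    rw [h1]
    unfold patD
    rw [if_neg (by omega)]
    split_ifs <;> omega
  | succ i ih =>
    change patO l m n s K1 (K1 + 1 + i) + patD l m n s K1 (K1 + 1 + i)
        (patO l m n s K1 (K1 + 1 + i)) = 0 ∨
      patO l m n s K1 (K1 + 1 + i) + patD l m n s K1 (K1 + 1 + i)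
        (patO l m n s K1 (K1 + 1 + i)) = -1
    unfold patD
    split_ifs <;> omega

/-- the offset `-1` occurs in the second zone -/
theorem exists_patO_neg (h1 : patO l m n s K1 K1 = 1) (h2 : K1 % 2 = 0) :
    ∃ k', K1 < k' ∧ patO l m n s K1 k' = -1 := by
  by_contra hcon
  push Not at hcon
  have h0 : ∀ i, patO l m n s K1 (K1 + 1 + i) = 0 := by
    intro i
    rcases patO_zone2 l m n s K1 h1 h2 i with h3 | h3
    · exact h3
    · exact absurd h3 (hcon _ (by omega))
  have h3 : patP l m n s K1 % 2 = 1 := by
    by_contra h4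
    have h5 := h0 0
    change patO l m n s K1 K1 + patD l m n s K1 K1 (patO l m n s K1 K1) = 0 at h5
    rw [h1] at h5
    unfold patD at h5
    rw [if_neg (by omega), if_pos (by omega), if_pos rfl] at h5
    omega
  have h5 := h0 4
  have h6 := h0 3
  change patO l m n s K1 (K1 + 1 + 3) + patD l m n s K1 (K1 + 4)
    (patO l m n s K1 (K1 + 1 + 3)) = 0 at h5
  rw [h6] at h5
  unfold patD at h5
  rw [patP_add_four, if_neg (by omega), if_neg (by omega), if_neg (by omega), if_neg (by omega),
    if_pos rfl] at h5
  omega

end Offsets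

/-- **Scenario A for periodic ladders.** -/
theorem pat_scenA {l m n s t0 : ℕ} (h : PatOK l m n s t0) (N : ℕ) :
    ∃ j K2 k' B, (pat h j).ScenA (8 * j + t0) K2 k' B ∧ (N : ℤ) < |(pat h j).hgt B| ∧
      B % 8 = 0 ∧ B < 8 * j := by
  have ht := h.ht
  have hoff : patO l m n s (8 * (N + 2) + t0) (8 * (N + 2) + t0) = 1 := by
    rcases ht with rfl | ⟨rfl, h1, rfl, h2⟩
    · exact patO_mul_eight _ _ _ _ _ (N + 2) (by omega)
    · rw [patO_two _ _ _ _ _ _ le_rfl (by omega)]
      have h3 : patP l m n 0 (8 * (N + 2)) % 2 = 0 := by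
        have h4 := patP_add_eight l m n 0 0 (N + 2)
        rw [Nat.add_zero] at h4
        rw [h4]
        unfold patP patC
        rw [if_neg (by omega), if_pos (by omega)]
        exact h2
      rw [if_pos h3]
      exact patO_mul_eight _ _ _ _ _ (N + 2) (by omega)
  have hev : (8 * (N + 2) + t0) % 2 = 0 := by
    have := h.t0_even
    omega
  obtain ⟨k', hk', hok'⟩ := exists_patO_neg l m n s _ hoff hev
  obtain ⟨q, hq1, hq2, g1, g2, g3, g4, g5, g6, g7⟩ := pat_hgt h (N + 2)
  obtain ⟨H, hH⟩ := Int.eq_ofNat_of_zero_le g6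
  refine ⟨N + 2, k' + q * H, k', 8 * (N + 1), ?_, ?_, by omega, by omega⟩
  · refine
      { zone1 := ?_, zone2 := ?_, offK1 := ?_, offk' := ?_, offB := ?_, B1 := ?_, BK := ?_,
        Kk := hk', k2 := Nat.le_add_right _ _, h1 := ?_, h1s := ?_, h2 := ?_, height := ?_ }
    · intro k hk
      rw [pat_off]
      exact patO_zone1 _ _ _ _ _ _ hk
    · intro k hk
      rw [pat_off]
      have := patO_zone2 l m n s _ hoff hev (k - (8 * (N + 2) + t0) - 1)
      rw [show 8 * (N + 2) + t0 + 1 + (k - (8 * (N + 2) + t0) - 1) = k by omega] at this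
      exact this
    · rw [pat_off]
      exact hoff
    · rw [pat_off]
      exact hok'
    · rw [pat_off]
      exact patO_mul_eight _ _ _ _ _ _ (by omega)
    · have := (pat h (N + 2)).le_pos_two_mul true (4 * (N + 1))
      rw [show 2 * (4 * (N + 1)) = 8 * (N + 1) by ring] at this
      omega
    · omega
    · intro k hk _
      exact g5 k hk
    · intro k hk _
      have hlt : k < 8 * (N + 1) := by
        by_contra hcon
        have := (pat h (N + 2)).pos_mono true (not_lt.1 hcon)
        omega
      exact lt_of_le_of_lt (g3 (N + 1) k hlt.le) (g7 (N + 1) (by omega))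
    · refine ⟨H + 1, by omega, fun k hk _ => ?_⟩
      have := g2 k
      rw [hH]
      omega
    · rw [g1, hH]
      omega
  · have := g4 (N + 1)
    rw [abs_of_nonneg (by omega)]
    push_cast at this
    omega

end Pool.Agent.SLE
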