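import Pool.Agent.SLE.LadderLift

/-!
# The two-zone scenario
-/

namespace Pool.Agent.SLE

open List G3 CoxeterSystem

namespace Ladder

variable {M : CoxeterMatrix G3} (L : Ladder M) (G : Ch → ℤ)

/-- All steps up along a side of a cell are tight. -/
def TightSide (k : ℕ) (σ : Bool) : Prop :=
  ∀ j < L.len k σ, G (L.up (k, σ, j)) = G (k, σ, j) + cost s1 [L.ul (k, σ, j)]

/-- The data of a scenario. -/
structure Scenario (K1 K2 ks k' B : ℕ) : Prop where
  x0 : L.x 0 = s1
  len0 : 2 ≤ L.len 0 true
  zone1 : ∀ k ≤ K1, G (k, true, 0) ≤ G (k, false, 0)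
  zone2 : ∀ k, K1 < k → G (k, false, 0) ≤ G (k, true, 0)
  off0 : G (0, false, 0) = G (0, true, 0) + 1
  offs : G (ks, false, 0) = G (ks, true, 0) + 1
  offk' : G (k', true, 0) = G (k', false, 0) + 1
  tightR1 : ∀ k < ks, L.TightSide G k true
  tightL : ∀ k < K2, L.TightSide G k false
  tightR2 : ∀ k, k' ≤ k → k < K2 → L.TightSide G k true
  B1 : 1 ≤ B
  Bs : B ≤ ks
  sK : ks ≤ K1
  Kk : K1 < k'
  k2 : k' ≤ K2
  lenK2 : 2 ≤ L.len K2 false
  height : L.hgt k' = L.hgt K2 - L.hgt ks
  only : ∀ k ≤ K1, G (k, false, 0) = G (k, true, 0) + 1 → L.hgt k = L.hgt ks → B ≤ k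
  offB : G (B, false, 0) = G (B, true, 0) + 1

variable {L G}

theorem tight_climb {n : ℕ} {c : Ch} {b : ℕ} {σ : Bool} (hv : L.Valid c)
    (he : L.up^[n] c = (b, σ, 0)) (ht : ∀ k, c.1 ≤ k → k < b → L.TightSide G k σ) :
    G (b, σ, 0) = G c + cost s1 (L.climb n c) := by
  induction n generalizing c with
  | zero => simp only [Function.iterate_zero, id] at he; rw [he]; simp [climb]
  | succ n ih =>
    have hside : c.2.1 = σ := by
      have := L.side_iterate c (n + 1)
      rw [he] at this
      exact this.symm
    have hidx := L.index_iterate c (n + 1)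
    have hrank := L.rank_iterate hv (n + 1)
    rw [he] at hidx hrank
    simp only at hidx
    have hlt : c.1 < b := by
      rcases Nat.lt_or_ge c.1 b with h | h
      · exact h
      · exfalso
        have : c.1 = b := le_antisymm hidx h
        simp only [rank, this, hside] at hrank
        omega
    have h1 : G (L.up c) = G c + cost s1 [L.ul c] := by
      obtain ⟨k, τ, j⟩ := c
      simp only at hside hlt
      subst hside
      exact ht k (le_refl _) hlt j hv
    have h2 := ih L.valid_up (by rw [← Function.iterate_succ_apply]; exact he)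
      (fun k hk hkb => ht k (le_trans (L.index_iterate c 1) hk) hkb)
    rw [h2, h1, climb]
    have : cost s1 (L.ul c :: L.climb n (L.up c)) =
        cost s1 [L.ul c] + cost s1 (L.climb n (L.up c)) := by
      rw [← cost_append]; rfl
    rw [this]; push_cast; ring

variable {K1 K2 ks k' B : ℕ}

/-- The identity chamber. -/
def c0 : Ch := (0, true, 1)

theorem Scenario.valid_c0 (S : L.Scenario G K1 K2 ks k' B) : L.Valid c0 := S.len0

theorem Scenario.c0_eq (S : L.Scenario G K1 K2 ks k' B) : L.up (0, true, 0) = c0 :=
  L.up_of_lt S.len0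

theorem Scenario.G_c0 (S : L.Scenario G K1 K2 ks k' B) (hG : L.Pot G) :
    G c0 = G (0, true, 0) := by
  have := hG.up_free (0, true, 0) (L.valid_zero _ _) (by simp [ul, S.x0])
  rwa [S.c0_eq] at this

theorem Scenario.iterate_c0 (S : L.Scenario G K1 K2 ks k' B) {k : ℕ} (hk : 1 ≤ k) :
    L.up^[L.pos' true k - 1] c0 = (k, true, 0) := by
  have h1 := L.iterate_pos' true (Nat.zero_le k)
  have h2 := L.pos'_mono true hk
  have h3 : L.pos' true 1 = L.len 0 true := by simp [pos']
  have h4 := S.len0
  rw [show L.pos' true k - L.pos' true 0 = (L.pos' true k - 1) + 1 by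
    simp only [pos']; omega, Function.iterate_succ_apply, S.c0_eq] at h1
  exact h1

theorem Scenario.rank_c0 (_ : L.Scenario G K1 K2 ks k' B) : L.rank c0 = 1 := by
  simp [rank, c0, pos']

/-- Left sides are locked after a crossing in the first zone. -/
theorem Scenario.left_end (S : L.Scenario G K1 K2 ks k' B) (hG : L.Pot G) {k : ℕ}
    {V : List G3} (hk : G (k, false, 0) = G (k, true, 0) + 1)
    (h : Tight L G V (k, false, 0) (K2, false, 0)) :
    ∃ n, V = L.climb n (k, false, 0) ∧ L.up^[n] (k, false, 0) = (K2, false, 0) := by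
  rcases after_cross hG (σ := true) hk h with h1 | ⟨k1, -, h2⟩
  · simp only [Bool.not_true] at h1
    obtain ⟨n, ⟨h3, h4⟩ | ⟨k2, σ2, V2, h3, h4, h5, h6⟩⟩ :=
      climb_class hG (L.valid_zero _ _) h1 h
    · exact ⟨n, h3, h4.symm⟩
    · exfalso
      have hσ : σ2 = false := by
        have := L.side_iterate (k, false, 0) n
        rw [h3] at this; exact this
      subst hσ
      simp only [Bool.not_false] at h5 h6
      have hk2 : K1 < k2 := by
        by_contra hcon
        have := S.zone1 k2 (by omega)
        have h5' := h5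
        -- crossing from left to right is impossible in zone 1
        linarith
      rcases after_cross hG (σ := false) h5 h6 with h7 | ⟨k3, -, h8⟩
      · simp only [Bool.not_false] at h7
        obtain ⟨n', ⟨-, h9⟩ | ⟨k4, σ4, V4, h9, -, h10, -⟩⟩ :=
          climb_class hG (L.valid_zero _ _) h7 h6
        · have := L.side_iterate (k2, true, 0) n'
          rw [← h9] at this
          simp at this
        · have hs := L.side_iterate (k2, true, 0) n'
          have hi := L.index_iterate (k2, true, 0) n'
          rw [h9] at hs hi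
          simp only at hs hi
          subst hs
          have := S.zone2 k4 (by omega)
          simp only [Bool.not_true] at h10
          linarith
      · simp at h8
  · exfalso
    simp only [Bool.not_true, Prod.mk.injEq] at h2
    obtain ⟨rfl, -, h3⟩ := h2
    have := S.lenK2
    omega

end Ladder

end Pool.Agent.SLE
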