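import Pool.Agent.SLE.LocRun

/-!
# Periodic systems given by tables

A system consisting of slabs (tiles) `0, 1, 2, …`: the tile `0` has the type `0`, the tiles
`1, …, J` the type `1`, the tiles `J + 1` and `J + 2` the types `2` and `3`, and all further tiles
the type `4`. The tables are finite, and all conditions are decidable.
-/

namespace Pool.Agent.SLE

open List G3

/-- The number of a letter: `a, A, b, B` are `0, 1, 2, 3`. -/
def li : Letter → ℕ
  | (0, true) => 0
  | (0, false) => 1
  | (1, true) => 2
  | (1, false) => 3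

/-- All letters. -/
def allLetters : List Letter := [(0, true), (0, false), (1, true), (1, false)]

/-- A tile: `tab[v][li y] = some (δ, v', κ)` if the letter `y` leads from the vertex `v` of the tile
`k` to the vertex `v'` of the tile `k + δ - 1`, with the height `κ`; `f` is the potential,
`h` the height potential (with slopes `sl`, for the type `4`), `r` the region and `g` the height
potential for the second word. The vertices of a tile form a tree with the root `rt`:
`par[v] = (v', y)` is the parent of the vertex `v` and the letter leading from it to `v`; the parent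
of the root is in the previous tile. `rk` are the depths in the tree. `ded` is the list of darts (of
the tile, `true`, or of the previous tile, `false`) the faces of which give the heights. -/
structure Tile where
  tab : List (List (Option (ℕ × ℕ × ℤ)))
  f : List ℤ
  h : List ℤ
  sl : List ℤ
  r : List Bool
  g : List ℤ
  par : List (ℕ × Letter)
  rk : List ℕ
  rt : ℕ
  ded : List (Bool × ℕ × Letter)
  deriving Inhabited

namespace Tile

/-- The number of vertices. -/
def nv (T : Tile) : ℕ := T.tab.length

/-- The entry of the table. -/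
def look (T : Tile) (v : ℕ) (y : Letter) : Option (ℕ × ℕ × ℤ) :=
  (T.tab.getD v []).getD (li y) none

end Tile

/-- The data of a periodic system. The lists have five entries. `len` are the lengths of the tiles
(increments of the potential), `a` is the increment of the second height potential at the tiles of
type `1`. The starting vertex is `(0, x0)`. `p0, p1, p2, p3` are the words of the first path:
in the tile `0`, in the tiles of type `1`, in the tiles `J + 1`, `J + 2`, and in the tiles of
type `4`; they lead from the vertex `x0` to `r1`, from `r1` to `r1`, from `r1` to `e1`, and from `e1`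
to `e1`. The words of the second path are `q0` (starting with `A`), `q1`, `q2`, `qa` (in the first
tile of type `4`) and `q3`; they lead to `r2`, `r2`, `d2`, `e2`, `e2`. The connecting word `c` leads
from `e1` to `e2`. There are `α J + K0` tiles of type `4` for both paths. -/
structure TileData where
  l : ℕ
  m : ℕ
  n : ℕ
  T : List Tile
  len : List ℤ
  a : ℤ
  x0 : ℕ
  r1 : ℕ
  e1 : ℕ
  r2 : ℕ
  d2 : ℕ
  e2 : ℕ
  p0 : List Letter
  p1 : List Letter
  p2 : List Letter
  p3 : List Letter
  q0 : List Letter
  q1 : List Letter
  q2 : List Letter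
  qa : List Letter
  q3 : List Letter
  c : List Letter
  α : ℕ
  K0 : ℤ

namespace TileData

variable (D : TileData)

/-- The tile of the type `τ`. -/
def tl (τ : ℕ) : Tile := D.T.getD τ default

/-- The length of the tile of the type `τ`. -/
def ln (τ : ℕ) : ℤ := D.len.getD τ 0

/-- The type of the tile `k`. -/
def ty (J k : ℕ) : ℕ := if k = 0 then 0 else if k ≤ J then 1 else if k = J + 1 then 2
  else if k = J + 2 then 3 else 4

/-- The partial action. -/
def step (J : ℕ) (x : ℕ × ℕ) (y : Letter) : Option (ℕ × ℕ) :=
  match (D.tl (ty J x.1)).look x.2 y with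
  | some (δ, v', _) => some (x.1 + δ - 1, v')
  | none => none

/-- The heights. -/
def kp (J : ℕ) (x : ℕ × ℕ) (y : Letter) : ℤ :=
  match (D.tl (ty J x.1)).look x.2 y with
  | some (_, _, κ) => κ
  | none => 0

/-! ### Checks -/

/-- The pairs of types of consecutive tiles. -/
def pairs : List (ℕ × ℕ) := [(0, 1), (1, 1), (1, 2), (2, 3), (3, 4), (4, 4)]

/-- The triples of types of consecutive tiles (the previous type of the tile `0` is irrelevant). -/
def triples : List (ℕ × ℕ × ℕ) :=
  [(0, 0, 1), (0, 1, 1), (0, 1, 2), (1, 1, 1), (1, 1, 2), (1, 2, 3), (2, 3, 4), (3, 4, 4), (4, 4, 4)]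

/-- All darts `(v, y)` of a tile satisfy `P v y δ v' κ`. -/
def allDarts (T : Tile) (P : ℕ → Letter → ℕ → ℕ → ℤ → Bool) : Bool :=
  (List.range T.nv).all fun v => allLetters.all fun y =>
    match T.look v y with
    | some (δ, v', κ) => P v y δ v' κ
    | none => true

/-- The tile at the end of a dart with the displacement `δ`. -/
def tgt (t : ℕ × ℕ × ℕ) (δ : ℕ) : ℕ := if δ = 0 then t.1 else if δ = 1 then t.2.1 else t.2.2

/-- The tables have the right form, and the reversed darts are there with opposite heights; the
tile `0` has no darts to a previous tile. -/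
def checkSymm : Bool :=
  (triples.all fun t => allDarts (D.tl t.2.1) fun v y δ v' κ =>
    decide (δ ≤ 2) && decide (v' < (D.tl (tgt t δ)).nv) &&
      ((D.tl (tgt t δ)).look v' (flip y) == some (2 - δ, v, -κ))) &&
  (allDarts (D.tl 0) fun _ _ δ _ _ => decide (1 ≤ δ)) && decide (D.x0 < (D.tl 0).nv)

/-- A step in a window of three tiles; the position is `(pos, v)`, `pos = 1` for the middle tile.
`none` if there is no dart or the window is left. -/
def wstep (t : ℕ × ℕ × ℕ) (x : ℕ × ℕ) (y : Letter) : Option (ℕ × ℕ) :=
  match (D.tl (tgt t x.1)).look x.2 y with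
  | some (δ, v', _) => if 1 ≤ x.1 + δ ∧ x.1 + δ ≤ 3 then some (x.1 + δ - 1, v') else none
  | none => none

/-- Whether there is no dart. -/
def wnone (t : ℕ × ℕ × ℕ) (x : ℕ × ℕ) (y : Letter) : Bool :=
  ((D.tl (tgt t x.1)).look x.2 y).isNone

/-- The run along the face is complete: it returns to `s` after `k` steps. -/
def complete (t : ℕ × ℕ × ℕ) (s : ℕ × ℕ) : ℕ → ℕ × ℕ → Letter → Bool
  | 0, x, _ => x == s
  | k + 1, x, y => match D.wstep t x y with
    | some x' => complete t s k x' (nxt y)
    | none => false

/-- The run along the face ends before `k` steps. -/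
def short (t : ℕ × ℕ × ℕ) : ℕ → ℕ × ℕ → Letter → Bool
  | 0, _, _ => false
  | k + 1, x, y => D.wnone t x y || match D.wstep t x y with
    | some x' => short t k x' (nxt y)
    | none => false

/-- The system is closed. -/
def checkClosed : Bool :=
  triples.all fun t => allDarts (D.tl t.2.1) fun v y _ _ _ =>
    D.complete t (1, v) (fper D.l D.m D.n y) (1, v) y ||
      D.short t (fhalf D.l D.m D.n y) (1, v) y

/-- The difference of the potential along a dart. -/
def df (t : ℕ × ℕ × ℕ) (v δ v' : ℕ) : ℤ :=
  (D.tl (tgt t δ)).f.getD v' 0 - (D.tl t.2.1).f.getD v 0 +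
    (if δ = 0 then - D.ln t.1 else if δ = 1 then 0 else D.ln t.2.1)

/-- The potential is Lipschitz, and the tiles are the slabs given by the potential; the tight darts
do not lead to the previous tile. -/
def checkLip : Bool :=
  (triples.all fun t => allDarts (D.tl t.2.1) fun v _ δ v' _ =>
    decide (D.df t v δ v' ≤ 1) && (decide (D.df t v δ v' < 1) || decide (1 ≤ δ))) &&
  ((List.range 5).all fun τ => decide (0 < D.ln τ) &&
    ((List.range (D.tl τ).nv).all fun v =>
      decide (0 ≤ (D.tl τ).f.getD v 0) && decide ((D.tl τ).f.getD v 0 < D.ln τ)))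

/-- The first height potential. -/
def checkH : Bool :=
  (triples.all fun t => allDarts (D.tl t.2.1) fun v _ δ v' κ =>
    decide (D.df t v δ v' < 1) ||
      (decide ((D.tl (tgt t δ)).h.getD v' 0 +
          (if t.2.1 = 4 ∧ δ = 2 then (D.tl 4).sl.getD v' 0 else 0) -
        (D.tl t.2.1).h.getD v 0 ≤ κ) &&
      (decide (t.2.1 ≠ 4) || decide ((D.tl 4).sl.getD v' 0 ≤ (D.tl 4).sl.getD v 0))))

/-- The region of the second word: in the tiles `0, …, J`, the tight darts lead to the region, with
heights at least the differences of the second height potential. -/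
def checkR : Bool :=
  triples.all fun t => decide (2 ≤ t.2.1) || allDarts (D.tl t.2.1) fun v _ δ v' κ =>
    !((D.tl t.2.1).r.getD v false) || decide (D.df t v δ v' < 1) ||
      ((D.tl (tgt t δ)).r.getD v' false &&
        decide ((D.tl (tgt t δ)).g.getD v' 0 + (if t.2.1 = 1 ∧ δ = 2 then D.a else 0) -
          (D.tl t.2.1).g.getD v 0 ≤ κ))

/-- The start: the tight darts at the vertex `x0` of the tile `0` have the letters `a` and `A`, and
the second one leads to the region; `0 < a`. -/
def checkStart : Bool :=
  decide (0 < D.a) && decide ((D.tl 0).f.getD D.x0 0 = 0) &&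
  (allLetters.all fun y => match (D.tl 0).look D.x0 y with
    | some (δ, v', _) => decide (D.df (0, 0, 1) D.x0 δ v' < 1) || (y == (0, true)) ||
        (y == (0, false) && decide (δ = 1) && (D.tl 0).r.getD v' false)
    | none => true) &&
  (match D.q0 with
    | y :: _ => y == (0, false)
    | [] => false)

/-- Running in a window, from `(pos, v)`, and the height. -/
def wrun (t : ℕ × ℕ × ℕ) : ℕ × ℕ → List Letter → Option ((ℕ × ℕ) × ℤ)
  | x, [] => some (x, 0)
  | x, y :: w => match D.wstep t x y, (D.tl (tgt t x.1)).look x.2 y with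
    | some x', some (_, _, κ) => match wrun t x' w with
      | some (e, κ') => some (e, κ + κ')
      | none => none
    | _, _ => none

/-- The word `w` leads from the vertex `v` of the middle tile to the vertex `v'` of the next tile,
and it is tight. The height is `κ`. -/
def block (t : ℕ × ℕ × ℕ) (v v' : ℕ) (w : List Letter) (κ : ℤ) : Bool :=
  (D.wrun t (1, v) w == some ((2, v'), κ)) &&
    decide ((D.tl t.2.2).f.getD v' 0 + D.ln t.2.1 = (D.tl t.2.1).f.getD v 0 + w.length)

/-- The height of a word in a window. -/
def ht (t : ℕ × ℕ × ℕ) (v : ℕ) (w : List Letter) : ℤ :=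
  match D.wrun t (1, v) w with
  | some (_, κ) => κ
  | none => 0

/-- The heights of the parts of the first path. -/
def k0 : ℤ := D.ht (0, 0, 1) D.x0 D.p0
def k1 : ℤ := D.ht (1, 1, 1) D.r1 D.p1
def k3 : ℤ := D.ht (4, 4, 4) D.e1 D.p3
/-- The heights of the parts of the second path. -/
def j0 : ℤ := D.ht (0, 0, 1) D.x0 D.q0
def j1 : ℤ := D.ht (1, 1, 1) D.r2 D.q1
def ja : ℤ := D.ht (4, 4, 4) D.d2 D.qa
def j3 : ℤ := D.ht (4, 4, 4) D.e2 D.q3

/-- A word in the tiles `J + 1` and `J + 2`: it is run in the window `(2, 3, 4)` with the middle tile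
`J + 2`, from the position `0`. -/
def mid (v v' : ℕ) (w : List Letter) (κ : ℤ) : Bool :=
  (D.wrun (2, 3, 4) (0, v) w == some ((2, v'), κ)) &&
    decide ((D.tl 4).f.getD v' 0 + D.ln 2 + D.ln 3 = (D.tl 2).f.getD v 0 + w.length)

def htm (v : ℕ) (w : List Letter) : ℤ :=
  match D.wrun (2, 3, 4) (0, v) w with
  | some (_, κ) => κ
  | none => 0

/-- The heights in the middle. -/
def k2 : ℤ := D.htm D.r1 D.p2
def j2 : ℤ := D.htm D.r2 D.q2

/-- The height of the connecting word. -/
def kc : ℤ := D.ht (4, 4, 4) D.e1 D.c

/-- The paths. -/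
def checkPaths : Bool :=
  D.block (0, 0, 1) D.x0 D.r1 D.p0 D.k0 &&
  ([(0, 1, 1), (0, 1, 2), (1, 1, 1), (1, 1, 2)].all fun t =>
    D.block t D.r1 D.r1 D.p1 D.k1 && D.block t D.r2 D.r2 D.q1 D.j1) &&
  D.mid D.r1 D.e1 D.p2 D.k2 &&
  D.block (4, 4, 4) D.e1 D.e1 D.p3 D.k3 && D.block (3, 4, 4) D.e1 D.e1 D.p3 D.k3 &&
  D.block (0, 0, 1) D.x0 D.r2 D.q0 D.j0 &&
  D.mid D.r2 D.d2 D.q2 D.j2 &&
  D.block (3, 4, 4) D.d2 D.e2 D.qa D.ja &&
  D.block (4, 4, 4) D.e2 D.e2 D.q3 D.j3 &&
  (D.wrun (4, 4, 4) (1, D.e1) D.c == some ((1, D.e2), D.kc)) &&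
  -- `J ↦ α J + K0` tiles of the type `4` (at least two), equality of the heights
  decide (2 ≤ D.α + D.K0) && decide (1 ≤ D.α) &&
  decide (D.k1 + D.α * D.k3 = D.j1 + D.α * D.j3) &&
  decide (D.k0 + D.k2 + D.K0 * D.k3 + D.kc = D.j0 + D.j2 + D.ja + (D.K0 - 1) * D.j3) &&
  -- the first path has extreme height
  decide ((D.tl 1).h.getD D.r1 0 - (D.tl 0).h.getD D.x0 0 = D.k0) &&
  decide ((D.tl 2).h.getD D.r1 0 = (D.tl 1).h.getD D.r1 0) && decide (D.k1 = 0) &&
  decide ((D.tl 4).h.getD D.e1 0 - (D.tl 2).h.getD D.r1 0 = D.k2) &&
  decide ((D.tl 4).sl.getD D.e1 0 = D.k3)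

/-- The tree: the parents. -/
def checkPar : Bool :=
  ((List.range 5).all fun τ => decide ((D.tl τ).rt < (D.tl τ).nv) &&
    decide ((D.tl τ).rk.getD (D.tl τ).rt 0 = 0) && (List.range (D.tl τ).nv).all fun v =>
    decide (v = (D.tl τ).rt) || match (D.tl τ).par.getD v (0, (0, true)) with
    | (v', y) => decide (v' < (D.tl τ).nv) &&
      decide ((D.tl τ).rk.getD v 0 = (D.tl τ).rk.getD v' 0 + 1) &&
      (match (D.tl τ).look v' y with
      | some (δ, v'', _) => decide (δ = 1) && decide (v'' = v)
      | none => false)) &&
  (pairs.all fun p => match (D.tl p.2).par.getD (D.tl p.2).rt (0, (0, true)) with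
    | (v', y) => match (D.tl p.1).look v' y with
      | some (δ, v'', _) => decide (δ = 2) && decide (v'' = (D.tl p.2).rt)
      | none => false)

/-- The code of a dart in a window of two tiles (`false`: the previous tile). -/
def code (x : Bool × ℕ) (y : Letter) : ℕ := (2 * x.2 + (if x.1 then 1 else 0)) * 4 + li y

/-- The tile in a window of two tiles. -/
def t2 (p : ℕ × ℕ) (b : Bool) : Tile := D.tl (if b then p.2 else p.1)

/-- A step in a window of two tiles, with the height. -/
def step2 (p : ℕ × ℕ) (x : Bool × ℕ) (y : Letter) : Option ((Bool × ℕ) × ℤ) :=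
  match (D.t2 p x.1).look x.2 y with
  | some (δ, v', κ) =>
    if δ = 1 then some ((x.1, v'), κ)
    else if δ = 2 ∧ x.1 = false then some ((true, v'), κ)
    else if δ = 0 ∧ x.1 = true then some ((false, v'), κ) else none
  | none => none

/-- The heights of the dart are known: it is in the list, or its reverse, or it is in the previous
tile. -/
def known (p : ℕ × ℕ) (L : List ℕ) (x : Bool × ℕ) (y : Letter) : Bool :=
  match D.step2 p x y with
  | some (x', _) => (!x.1 && !x'.1) || L.elem (code x y) || L.elem (code x' (flip y))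
  | none => false

/-- The run along `k` darts of a face, all of which are known, to the vertex `s`; the sum of the
heights is `κ`. -/
def runKnown (p : ℕ × ℕ) (L : List ℕ) (s : Bool × ℕ) : ℕ → Bool × ℕ → Letter → ℤ → Bool
  | 0, x, _, κ => x == s && decide (κ = 0)
  | k + 1, x, y, κ => D.known p L x y && match D.step2 p x y with
    | some (x', κ') => runKnown p L s k x' (nxt y) (κ - κ')
    | none => false

/-- A deduction. -/
def deduce (p : ℕ × ℕ) (L : List ℕ) (x : Bool × ℕ) (y : Letter) : Bool :=
  match D.step2 p x y with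
  | some (x', κ) => D.runKnown p L x (fper D.l D.m D.n y - 1) x' (nxt y) (fht y - κ)
  | none => false

/-- All deductions, with the final list. -/
def deduceAll (p : ℕ × ℕ) : List ℕ → List (Bool × ℕ × Letter) → Option (List ℕ)
  | L, [] => some L
  | L, (b, v, y) :: ds =>
    if D.deduce p L (b, v) y then deduceAll p (code (b, v) y :: L) ds else none

/-- The darts of the tree of the tile. -/
def treeDarts (p : ℕ × ℕ) (root : Bool) : List ℕ :=
  ((List.range (D.tl p.2).nv).filter (fun v => !(v == (D.tl p.2).rt))).map (fun v =>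
    match (D.tl p.2).par.getD v (0, (0, true)) with
    | (v', y) => code (true, v') y) ++
  (if root then match (D.tl p.2).par.getD (D.tl p.2).rt (0, (0, true)) with
    | (v', y) => [code (false, v') y] else [])

/-- The heights of all darts of the tile, and of those between the tile and the previous one, follow
from those of the previous tile. For the tile `0` the window is `(0, 0)`, without a previous
tile. -/
def checkVal : Bool :=
  ([(0, 0), (0, 1), (1, 1), (1, 2), (2, 3), (3, 4), (4, 4)].all fun p =>
    match D.deduceAll p (D.treeDarts p (decide (p ≠ (0, 0)))) (D.tl p.2).ded with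
    | some L => allDarts (D.tl p.2) fun v y δ _ _ => decide (δ = 2) || D.known p L (true, v) y
    | none => false) &&
  (D.tl 0).ded.all fun d => d.1

/-- All checks. -/
def check : Bool :=
  D.checkSymm && D.checkClosed && D.checkLip && D.checkH && D.checkR && D.checkStart &&
    D.checkPaths && D.checkPar && D.checkVal

end TileData

end Pool.Agent.SLE
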