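import Pool.Agent.SLE.TileVal

/-!
# Divergence for periodic tables
-/

namespace Pool.Agent.SLE

open List G3

section general

variable {X : Type*} {mv : X → Letter → Option X}

/-- Splitting a tight run at a time. -/
theorem TightRun.split_at {F : X → ℤ} {x e : X} {w : List Letter} (h : TightRun mv F x w e)
    {i : ℕ} (hi : i ≤ w.length) : ∃ p, TightRun mv F x (w.take i) p ∧
      TightRun mv F p (w.drop i) e ∧ F p = F x + i := by
  rw [← List.take_append_drop i w, TightRun.append_iff] at h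
  obtain ⟨p, h1, h2⟩ := h
  refine ⟨p, h1, h2, ?_⟩
  have := h1.spec.2
  rwa [List.length_take, min_eq_left hi] at this

/-- A tight run starting in a region which the tight darts do not leave. -/
theorem TightRun.trap_le {F G : X → ℤ} {κ : X → Letter → ℤ} {R : X → Prop} {f : ℤ}
    (hR : ∀ p, R p → F p < f → ∀ y p', mv p y = some p' → F p' = F p + 1 →
      R p' ∧ G p' - G p ≤ κ p y) {x e : X} {w : List Letter} (h : TightRun mv F x w e)
    (hx : R x) (he : F e ≤ f) : R e ∧ G e - G x ≤ kap mv κ x w := by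
  induction w generalizing x with
  | nil =>
    rw [TightRun.nil_iff] at h
    subst h
    exact ⟨hx, by simp [kap_nil]⟩
  | cons y w ih =>
    have h0 := h.spec.2
    obtain ⟨x', h1, h2, h3⟩ := h
    rw [List.length_cons] at h0
    push_cast at h0
    have h4 : (0 : ℤ) ≤ w.length := Int.natCast_nonneg _
    obtain ⟨h5, h6⟩ := hR x hx (by linarith) y x' h1 h2
    obtain ⟨h7, h8⟩ := ih h3 h5
    refine ⟨h7, ?_⟩
    rw [kap_cons h1]
    linarith

/-- A run with its height, tight for the potential. -/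
def Leg (mv : X → Letter → Option X) (κ : X → Letter → ℤ) (F : X → ℤ) (x : X) (w : List Letter)
    (e : X) (k : ℤ) : Prop :=
  run mv x w = some e ∧ kap mv κ x w = k ∧ F e = F x + w.length

theorem Leg.append {κ : X → Letter → ℤ} {F : X → ℤ} {x d e : X} {w w' : List Letter} {k k' : ℤ}
    (h : Leg mv κ F x w d k) (h' : Leg mv κ F d w' e k') : Leg mv κ F x (w ++ w') e (k + k') := by
  obtain ⟨h1, h2, h3⟩ := h
  obtain ⟨h4, h5, h6⟩ := h'
  refine ⟨?_, ?_, ?_⟩
  · rw [run_append_some]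
    exact ⟨_, h1, h4⟩
  · rw [kap_append h1, h2, h5]
  · rw [h6, h3, List.length_append]
    push_cast
    ring

/-- Repeating a word. -/
theorem Leg.iter {κ : X → Letter → ℤ} {F : X → ℤ} {s : ℕ → X} {p : List Letter} {k : ℤ} {n : ℕ}
    (h : ∀ i < n, Leg mv κ F (s i) p (s (i + 1)) k) :
    Leg mv κ F (s 0) (List.replicate n p).flatten (s n) (n * k) := by
  induction n generalizing s with
  | zero => exact ⟨by simp, by simp [kap_nil], by simp⟩
  | succ n ih =>
    have h1 := h 0 (Nat.succ_pos _)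
    have h3 := ih (s := fun i => s (i + 1)) (fun i hi => h (i + 1) (by omega))
    rw [List.replicate_succ, List.flatten_cons]
    have h4 := h1.append h3
    rwa [show k + (n : ℤ) * k = ((n + 1 : ℕ) : ℤ) * k by push_cast; ring] at h4

/-- Bounds for finitely many values. -/
theorem scBound_of_forall_lt {P : ℕ → ℕ → Prop} (mono : ∀ v a b, a ≤ b → P v a → P v b)
    (n : ℕ) (h : ∀ v < n, ∃ b, P v b) : ∃ B, ∀ v < n, P v B := by
  induction n with
  | zero => exact ⟨0, fun v hv => absurd hv (Nat.not_lt_zero v)⟩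
  | succ n ih =>
    obtain ⟨B, hB⟩ := ih fun v hv => h v (by omega)
    obtain ⟨b, hb⟩ := h n (Nat.lt_succ_self n)
    refine ⟨max B b, fun v hv => ?_⟩
    rcases Nat.lt_succ_iff_lt_or_eq.1 hv with h1 | h1
    · exact mono _ _ _ (le_max_left _ _) (hB v h1)
    · subst h1
      exact mono _ _ _ (le_max_right _ _) hb

theorem scBound_getD (L : List ℤ) : ∃ B : ℕ, ∀ v, |L.getD v 0| ≤ B := by
  induction L with
  | nil => exact ⟨0, fun v => by simp⟩
  | cons a L ih =>
    obtain ⟨B, hB⟩ := ih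
    refine ⟨max B a.natAbs, fun v => ?_⟩
    cases v with
    | zero =>
      simp only [List.getD_cons_zero, Nat.cast_max, Int.natCast_natAbs]
      exact le_max_right _ _
    | succ v =>
      simp only [List.getD_cons_succ, Nat.cast_max, Int.natCast_natAbs]
      exact le_trans (hB v) (le_max_left _ _)

/-- The value of the inverse word. -/
theorem scEval_winv (l m n : ℕ) (w : List Letter) :
    eval l m n (winv w) = (eval l m n w)⁻¹ := by
  unfold eval winv
  rw [← map_inv, FreeGroup.inv_mk]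
  rfl

theorem scLength_winv (w : List Letter) : (winv w).length = w.length := by
  simp [winv]

end general

namespace TileData

variable {D : TileData}

/-- The elements given by words of length at most `R`. -/
def ballR (l m n R : ℕ) : Set (E l m n) :=
  {g | ∃ w : List Letter, w.length ≤ R ∧ g = eval l m n w}

theorem ballR_finite (l m n R : ℕ) : (ballR l m n R).Finite := by
  have h : (ballR l m n R) = eval l m n '' {w : List Letter | w.length ≤ R} := by
    ext g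
    constructor
    · rintro ⟨w, hw, rfl⟩
      exact ⟨w, hw, rfl⟩
    · rintro ⟨w, hw, rfl⟩
      exact ⟨w, hw, rfl⟩
  rw [h]
  exact (List.finite_length_le Letter R).image _

/-- The triple of the types of the tiles `k - 1, k, k + 1`. -/
def scTr (J k : ℕ) : ℕ × ℕ × ℕ := (ty J (k - 1), ty J k, ty J (k + 1))

theorem scTy_zero (J : ℕ) : ty J 0 = 0 := by simp [ty]

theorem scTy_one {J k : ℕ} (h1 : 1 ≤ k) (h2 : k ≤ J) : ty J k = 1 := by
  unfold ty
  rw [if_neg (by omega), if_pos h2]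

theorem scTy_two (J : ℕ) : ty J (J + 1) = 2 := by
  unfold ty
  rw [if_neg (by omega), if_neg (by omega), if_pos rfl]

theorem scTy_three (J : ℕ) : ty J (J + 2) = 3 := by
  unfold ty
  rw [if_neg (by omega), if_neg (by omega), if_neg (by omega), if_pos rfl]

theorem scTy_four {J k : ℕ} (h : J + 3 ≤ k) : ty J k = 4 := by
  unfold ty
  rw [if_neg (by omega), if_neg (by omega), if_neg (by omega), if_neg (by omega)]

theorem scTy_lt (J k : ℕ) : ty J k < 5 := by
  unfold ty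
  split_ifs <;> omega

theorem scTr_mem {J : ℕ} (hJ : 1 ≤ J) (k : ℕ) : scTr J k ∈ triples := by
  unfold scTr triples
  rcases Nat.eq_zero_or_pos k with rfl | hk
  · rw [scTy_zero, scTy_one (by omega) (by omega)]
    simp
  by_cases h1 : k ≤ J
  · rw [scTy_one hk h1]
    rcases Nat.eq_or_lt_of_le hk with h2 | h2
    · rw [← h2, show 1 - 1 = 0 from rfl, scTy_zero]
      rcases Nat.eq_or_lt_of_le hJ with h3 | h3
      · rw [← h3, scTy_two]
        simp
      · rw [scTy_one (by omega) (by omega)]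
        simp
    · rw [scTy_one (by omega) (by omega)]
      rcases Nat.eq_or_lt_of_le h1 with h3 | h3
      · rw [h3, scTy_two]
        simp
      · rw [scTy_one (by omega) (by omega)]
        simp
  by_cases h2 : k = J + 1
  · subst h2
    rw [show J + 1 - 1 = J by omega, scTy_one hJ le_rfl, scTy_two, scTy_three]
    simp
  by_cases h3 : k = J + 2
  · subst h3
    rw [show J + 2 - 1 = J + 1 by omega, scTy_two, scTy_three, scTy_four (by omega)]
    simp
  by_cases h4 : k = J + 3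
  · subst h4
    rw [show J + 3 - 1 = J + 2 by omega, scTy_three, scTy_four (by omega), scTy_four (by omega)]
    simp
  · rw [scTy_four (by omega), scTy_four (by omega), scTy_four (by omega)]
    simp

theorem scTgt {J k δ : ℕ} (h : δ ≤ 2) : tgt (scTr J k) δ = ty J (k + δ - 1) := by
  unfold tgt scTr
  rcases (by omega : δ = 0 ∨ δ = 1 ∨ δ = 2) with rfl | rfl | rfl
  · simp
  · simp
  · simp

theorem scLook_lt {T : Tile} {v : ℕ} {y : Letter} {r : ℕ × ℕ × ℤ} (h : T.look v y = some r) :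
    v < T.nv := by
  by_contra hc
  unfold Tile.look at h
  have h2 : T.tab.getD v [] = [] := List.getD_eq_default _ _ (by unfold Tile.nv at hc; omega)
  rw [h2] at h
  simp at h

theorem scMem_allLetters (y : Letter) : y ∈ allLetters := by
  obtain ⟨i, b⟩ := y
  fin_cases i <;> cases b <;> simp [allLetters]

theorem scAllDarts {T : Tile} {P : ℕ → Letter → ℕ → ℕ → ℤ → Bool} (h : allDarts T P = true)
    {v : ℕ} {y : Letter} {δ v' : ℕ} {κ : ℤ} (hl : T.look v y = some (δ, v', κ)) :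
    P v y δ v' κ = true := by
  unfold allDarts at h
  rw [List.all_eq_true] at h
  have h1 := h v (List.mem_range.2 (scLook_lt hl))
  rw [List.all_eq_true] at h1
  have h2 := h1 y (scMem_allLetters y)
  rw [hl] at h2
  exact h2

section checks

variable (hD : D.check = true)
include hD

theorem scCheck : D.checkSymm = true ∧ D.checkClosed = true ∧ D.checkLip = true ∧
    D.checkH = true ∧ D.checkR = true ∧ D.checkStart = true ∧ D.checkPaths = true ∧
    D.checkPar = true ∧ D.checkVal = true := by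
  unfold check at hD
  simp only [Bool.and_eq_true] at hD
  tauto

/-- Darts: the basic facts. -/
theorem scDart {J : ℕ} (hJ : 1 ≤ J) {k v : ℕ} {y : Letter} {δ v' : ℕ} {κ : ℤ}
    (hl : (D.tl (ty J k)).look v y = some (δ, v', κ)) :
    δ ≤ 2 ∧ 1 ≤ k + δ ∧ v < (D.tl (ty J k)).nv ∧ v' < (D.tl (ty J (k + δ - 1))).nv ∧
      D.step J (k, v) y = some (k + δ - 1, v') ∧ D.kp J (k, v) y = κ ∧
      D.F J (k + δ - 1, v') - D.F J (k, v) = D.df (scTr J k) v δ v' := by
  have h1 := (scCheck hD).1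
  unfold checkSymm at h1
  simp only [Bool.and_eq_true] at h1
  obtain ⟨⟨h2, h3⟩, -⟩ := h1
  rw [List.all_eq_true] at h2
  have h4 := scAllDarts (h2 _ (scTr_mem hJ k)) hl
  simp only [Bool.and_eq_true, decide_eq_true_eq] at h4
  obtain ⟨⟨h5, h6⟩, -⟩ := h4
  rw [scTgt h5] at h6
  have h7 : 1 ≤ k + δ := by
    rcases Nat.eq_zero_or_pos k with h0 | h0
    · rw [h0, scTy_zero] at hl
      have := scAllDarts h3 hl
      simp only [decide_eq_true_eq] at this
      omega
    · omega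
  refine ⟨h5, h7, scLook_lt hl, h6, ?_, ?_, ?_⟩
  · unfold step
    simp only
    rw [hl]
  · unfold kp
    simp only
    rw [hl]
  · unfold df F
    rw [scTgt h5]
    simp only
    have hb : D.base J (k + δ - 1) - D.base J k =
        (if δ = 0 then - D.ln (scTr J k).1 else if δ = 1 then 0 else D.ln (scTr J k).2.1) := by
      unfold scTr
      rcases (by omega : δ = 0 ∨ δ = 1 ∨ δ = 2) with rfl | rfl | rfl
      · obtain ⟨k', rfl⟩ : ∃ k', k = k' + 1 := ⟨k - 1, by omega⟩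
        simp [base]
      · simp
      · simp [base]
    rw [← hb]
    unfold scTr
    simp only
    ring

theorem scLen_pos (τ : ℕ) (hτ : τ < 5) : 0 < D.ln τ ∧ ∀ v < (D.tl τ).nv,
    0 ≤ (D.tl τ).f.getD v 0 ∧ (D.tl τ).f.getD v 0 < D.ln τ := by
  have h1 := (scCheck hD).2.2.1
  unfold checkLip at h1
  simp only [Bool.and_eq_true] at h1
  have h2 := h1.2
  rw [List.all_eq_true] at h2
  have h3 := h2 τ (List.mem_range.2 hτ)
  simp only [Bool.and_eq_true, decide_eq_true_eq] at h3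
  refine ⟨h3.1, fun v hv => ?_⟩
  have h4 := h3.2
  rw [List.all_eq_true] at h4
  have h5 := h4 v (List.mem_range.2 hv)
  simpa using h5

theorem scBase_lt {J k k' : ℕ} (h : k < k') : D.base J k < D.base J k' := by
  induction k' with
  | zero => omega
  | succ k' ih =>
    have h1 := (scLen_pos hD (ty J k') (scTy_lt J k')).1
    rcases Nat.lt_succ_iff_lt_or_eq.1 h with h2 | h2
    · have := ih h2
      rw [base]
      linarith
    · subst h2
      rw [base]
      linarith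

theorem scBase_le {J k k' : ℕ} (h : k ≤ k') : D.base J k ≤ D.base J k' := by
  rcases Nat.eq_or_lt_of_le h with h1 | h1
  · rw [h1]
  · exact (scBase_lt hD h1).le

/-- The slabs. -/
theorem scSlab {J k v : ℕ} (hv : v < (D.tl (ty J k)).nv) :
    D.base J k ≤ D.F J (k, v) ∧ D.F J (k, v) < D.base J (k + 1) := by
  have h := (scLen_pos hD (ty J k) (scTy_lt J k)).2 v hv
  unfold F
  rw [base]
  simp only
  constructor <;> linarith

end checks

section paths

variable (hD : D.check = true)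
include hD

/-- Windows. -/
theorem scWstep {J : ℕ} (hJ : 1 ≤ J) {k pos v : ℕ} {y : Letter} {x' : ℕ × ℕ} (hp : pos ≤ 2)
    (hk : 1 ≤ k + pos) (h : D.wstep (scTr J k) (pos, v) y = some x') :
    ∃ δ κ, (D.tl (tgt (scTr J k) pos)).look v y = some (δ, x'.2, κ) ∧ x'.1 ≤ 2 ∧ 1 ≤ k + x'.1 ∧
      D.step J (k + pos - 1, v) y = some (k + x'.1 - 1, x'.2) ∧
      D.kp J (k + pos - 1, v) y = κ := by
  unfold wstep at h
  simp only at h
  split at h
  · rename_i δ v' κ hl
    split_ifs at h with h1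
    simp only [Option.some.injEq] at h
    subst h
    refine ⟨δ, κ, hl, by simp only; omega, ?_⟩
    rw [scTgt hp] at hl
    obtain ⟨h2, h3, h4, h5, h6, h7, h8⟩ := scDart hD hJ hl
    simp only
    refine ⟨by omega, ?_, h7⟩
    rw [h6]
    congr 2
    omega
  · cases h

theorem scWrun {J : ℕ} (hJ : 1 ≤ J) {k : ℕ} {w : List Letter} {pos v : ℕ} {e : ℕ × ℕ} {κ : ℤ}
    (hp : pos ≤ 2) (hk : 1 ≤ k + pos) (h : D.wrun (scTr J k) (pos, v) w = some (e, κ)) :
    run (D.sys hD hJ).mv (k + pos - 1, v) w = some (k + e.1 - 1, e.2) ∧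
      kap (D.sys hD hJ).mv (D.kp J) (k + pos - 1, v) w = κ ∧ e.1 ≤ 2 ∧ 1 ≤ k + e.1 := by
  induction w generalizing pos v κ with
  | nil =>
    simp only [wrun, Option.some.injEq, Prod.mk.injEq] at h
    obtain ⟨rfl, rfl⟩ := h
    exact ⟨rfl, rfl, hp, hk⟩
  | cons y w ih =>
    unfold wrun at h
    simp only at h
    split at h
    · rename_i x' δ v' κ0 hs hl
      split at h
      · rename_i e' κ' hw
        simp only [Option.some.injEq, Prod.mk.injEq] at h
        obtain ⟨rfl, rfl⟩ := h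
        obtain ⟨δ1, κ1, h1, h2, h3, h4, h5⟩ := scWstep hD hJ hp hk hs
        rw [hl] at h1
        simp only [Option.some.injEq, Prod.mk.injEq] at h1
        obtain ⟨rfl, rfl, rfl⟩ := h1
        obtain ⟨h6, h7, h8, h9⟩ := ih h2 h3 hw
        have h10 : (D.sys hD hJ).mv (k + pos - 1, v) y = some (k + x'.1 - 1, x'.2) := by
          rw [mv_eq, h4]
        refine ⟨?_, ?_, h8, h9⟩
        · rw [run_cons_some]
          exact ⟨_, h10, h6⟩
        · rw [kap_cons h10, h7, h5]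
      · cases h
    · cases h

theorem scTight {J : ℕ} (hJ : 1 ≤ J) {x e : ℕ × ℕ} {w : List Letter}
    (h : run (D.sys hD hJ).mv x w = some e) (hF : D.F J x + w.length ≤ D.F J e) :
    TightRun (D.sys hD hJ).mv (D.F J) x w e :=
  tightRun_of_run (lip hD hJ) h hF

/-- Blocks. -/
theorem scBlock {J : ℕ} (hJ : 1 ≤ J) {k v v' : ℕ} {w : List Letter} {κ : ℤ}
    (h : D.block (scTr J k) v v' w κ = true) :
    Leg (D.sys hD hJ).mv (D.kp J) (D.F J) (k, v) w (k + 1, v') κ := by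
  unfold block at h
  simp only [Bool.and_eq_true, beq_iff_eq, decide_eq_true_eq] at h
  obtain ⟨h1, h2⟩ := h
  obtain ⟨h3, h4, -, -⟩ := scWrun hD hJ (by omega) (by omega) h1
  simp only [Nat.add_sub_cancel] at h3 h4
  refine ⟨h3, h4, ?_⟩
  unfold F
  unfold scTr at h2
  simp only at h2 ⊢
  rw [base]
  linarith

/-- The middle. -/
theorem scMid {J : ℕ} (hJ : 1 ≤ J) {v v' : ℕ} {w : List Letter} {κ : ℤ}
    (h : D.mid v v' w κ = true) :
    Leg (D.sys hD hJ).mv (D.kp J) (D.F J) (J + 1, v) w (J + 3, v') κ := by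
  unfold mid at h
  simp only [Bool.and_eq_true, beq_iff_eq, decide_eq_true_eq] at h
  obtain ⟨h1, h2⟩ := h
  have ht : ((2, 3, 4) : ℕ × ℕ × ℕ) = scTr J (J + 2) := by
    unfold scTr
    rw [show J + 2 - 1 = J + 1 by omega, scTy_two, scTy_three, scTy_four (by omega)]
  rw [ht] at h1
  obtain ⟨h3, h4, -, -⟩ := scWrun hD hJ (by omega) (by omega) h1
  simp only [Nat.add_zero, show J + 2 - 1 = J + 1 by omega, show J + 2 + 2 - 1 = J + 3 by omega]
    at h3 h4
  refine ⟨h3, h4, ?_⟩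
  unfold F
  simp only
  rw [base, base, scTy_four (by omega : J + 3 ≤ J + 3), scTy_two, scTy_three]
  linarith

/-- The conditions on the paths. -/
theorem scPaths : D.block (0, 0, 1) D.x0 D.r1 D.p0 D.k0 = true ∧
    (∀ t ∈ [(0, 1, 1), (0, 1, 2), (1, 1, 1), (1, 1, 2)],
      D.block t D.r1 D.r1 D.p1 D.k1 = true ∧ D.block t D.r2 D.r2 D.q1 D.j1 = true) ∧
    D.mid D.r1 D.e1 D.p2 D.k2 = true ∧
    D.block (4, 4, 4) D.e1 D.e1 D.p3 D.k3 = true ∧ D.block (3, 4, 4) D.e1 D.e1 D.p3 D.k3 = true ∧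
    D.block (0, 0, 1) D.x0 D.r2 D.q0 D.j0 = true ∧
    D.mid D.r2 D.d2 D.q2 D.j2 = true ∧
    D.block (3, 4, 4) D.d2 D.e2 D.qa D.ja = true ∧
    D.block (4, 4, 4) D.e2 D.e2 D.q3 D.j3 = true ∧
    D.wrun (4, 4, 4) (1, D.e1) D.c = some ((1, D.e2), D.kc) ∧
    2 ≤ D.α + D.K0 ∧ 1 ≤ D.α ∧
    D.k1 + D.α * D.k3 = D.j1 + D.α * D.j3 ∧
    D.k0 + D.k2 + D.K0 * D.k3 + D.kc = D.j0 + D.j2 + D.ja + (D.K0 - 1) * D.j3 ∧
    (D.tl 1).h.getD D.r1 0 - (D.tl 0).h.getD D.x0 0 = D.k0 ∧
    (D.tl 2).h.getD D.r1 0 = (D.tl 1).h.getD D.r1 0 ∧ D.k1 = 0 ∧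
    (D.tl 4).h.getD D.e1 0 - (D.tl 2).h.getD D.r1 0 = D.k2 ∧
    (D.tl 4).sl.getD D.e1 0 = D.k3 := by
  have h := (scCheck hD).2.2.2.2.2.2.1
  unfold checkPaths at h
  simp only [Bool.and_eq_true, decide_eq_true_eq, beq_iff_eq, List.all_eq_true] at h
  obtain ⟨⟨⟨⟨⟨⟨⟨⟨⟨⟨⟨⟨⟨⟨⟨⟨⟨⟨h1, h2⟩, h3⟩, h4⟩, h5⟩, h6⟩, h7⟩, h8⟩, h9⟩, h10⟩, h11⟩, h12⟩, h13⟩, h14⟩,
    h15⟩, h16⟩, h17⟩, h18⟩, h19⟩ := h
  exact ⟨h1, h2, h3, h4, h5, h6, h7, h8, h9, h10, h11, h12, h13, h14, h15, h16, h17, h18, h19⟩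

omit hD in
theorem scTr_zero {J : ℕ} (hJ : 1 ≤ J) : scTr J 0 = (0, 0, 1) := by
  unfold scTr
  rw [scTy_zero, scTy_one (by omega) (by omega)]

omit hD in
theorem scTr_one {J k : ℕ} (h1 : 1 ≤ k) (h2 : k ≤ J) :
    scTr J k ∈ [(0, 1, 1), (0, 1, 2), (1, 1, 1), (1, 1, 2)] := by
  unfold scTr
  rw [scTy_one h1 h2]
  rcases Nat.eq_or_lt_of_le h1 with h3 | h3
  · rw [← h3, show 1 - 1 = 0 from rfl, scTy_zero]
    rcases Nat.eq_or_lt_of_le h2 with h4 | h4
    · rw [show 1 + 1 = J + 1 by omega, scTy_two]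
      simp
    · rw [scTy_one (by omega) (by omega)]
      simp
  · rw [scTy_one (by omega) (by omega)]
    rcases Nat.eq_or_lt_of_le h2 with h4 | h4
    · rw [h4, scTy_two]
      simp
    · rw [scTy_one (by omega) (by omega)]
      simp

omit hD in
theorem scTr_first (J : ℕ) : scTr J (J + 3) = (3, 4, 4) := by
  unfold scTr
  rw [show J + 3 - 1 = J + 2 by omega, scTy_three, scTy_four (by omega), scTy_four (by omega)]

omit hD in
theorem scTr_four {J k : ℕ} (h : J + 4 ≤ k) : scTr J k = (4, 4, 4) := by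
  unfold scTr
  rw [scTy_four (by omega), scTy_four (by omega), scTy_four (by omega)]

/-- The first word. -/
def w1 (D : TileData) (J K : ℕ) : List Letter :=
  D.p0 ++ ((List.replicate J D.p1).flatten ++ (D.p2 ++ (List.replicate K D.p3).flatten))

/-- The second word. -/
def w2 (D : TileData) (J K : ℕ) : List Letter :=
  D.q0 ++ ((List.replicate J D.q1).flatten ++
    (D.q2 ++ (D.qa ++ (List.replicate (K - 1) D.q3).flatten)))

theorem scLeg1 {J K : ℕ} (hJ : 1 ≤ J) :
    Leg (D.sys hD hJ).mv (D.kp J) (D.F J) (0, D.x0) (w1 D J K) (J + 3 + K, D.e1)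
      (D.k0 + (J * D.k1 + (D.k2 + K * D.k3))) := by
  obtain ⟨h1, h2, h3, h4, h5, h6, h7, h8, h9, h10, h11, h12, h13, h14, -⟩ := scPaths hD
  rw [← scTr_zero hJ] at h1
  have l1 := scBlock hD hJ h1
  have l2 : Leg (D.sys hD hJ).mv (D.kp J) (D.F J) (1, D.r1) (List.replicate J D.p1).flatten
      (1 + J, D.r1) (J * D.k1) := by
    refine Leg.iter (s := fun i => (1 + i, D.r1)) fun i hi => ?_
    exact scBlock hD hJ (h2 _ (scTr_one (by omega) (by omega))).1
  rw [show 1 + J = J + 1 by omega] at l2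
  have l3 := scMid hD hJ h3
  have l4 : Leg (D.sys hD hJ).mv (D.kp J) (D.F J) (J + 3, D.e1) (List.replicate K D.p3).flatten
      (J + 3 + K, D.e1) (K * D.k3) := by
    refine Leg.iter (s := fun i => (J + 3 + i, D.e1)) fun i hi => ?_
    refine scBlock hD hJ ?_
    rcases Nat.eq_zero_or_pos i with rfl | h0
    · rw [Nat.add_zero, scTr_first]
      exact h5
    · rw [scTr_four (by omega)]
      exact h4
  exact l1.append (l2.append (l3.append l4))

theorem scLeg2 {J K : ℕ} (hJ : 1 ≤ J) (hK : 1 ≤ K) :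
    Leg (D.sys hD hJ).mv (D.kp J) (D.F J) (0, D.x0) (w2 D J K) (J + 3 + K, D.e2)
      (D.j0 + (J * D.j1 + (D.j2 + (D.ja + (K - 1 : ℤ) * D.j3)))) := by
  obtain ⟨h1, h2, h3, h4, h5, h6, h7, h8, h9, h10, h11, h12, h13, h14, -⟩ := scPaths hD
  rw [← scTr_zero hJ] at h6
  rw [← scTr_first J] at h8
  have l1 := scBlock hD hJ h6
  have l2 : Leg (D.sys hD hJ).mv (D.kp J) (D.F J) (1, D.r2) (List.replicate J D.q1).flatten
      (1 + J, D.r2) (J * D.j1) := by
    refine Leg.iter (s := fun i => (1 + i, D.r2)) fun i hi => ?_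
    exact scBlock hD hJ (h2 _ (scTr_one (by omega) (by omega))).2
  rw [show 1 + J = J + 1 by omega] at l2
  have l3 := scMid hD hJ h7
  have l5 := scBlock hD hJ h8
  have l4 : Leg (D.sys hD hJ).mv (D.kp J) (D.F J) (J + 3 + 1, D.e2)
      (List.replicate (K - 1) D.q3).flatten (J + 3 + 1 + (K - 1), D.e2)
      ((K - 1 : ℕ) * D.j3) := by
    refine Leg.iter (s := fun i => (J + 3 + 1 + i, D.e2)) fun i hi => ?_
    refine scBlock hD hJ ?_
    rw [scTr_four (by omega)]
    exact h9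
  rw [show J + 3 + 1 + (K - 1) = J + 3 + K by omega, Nat.cast_sub hK, Nat.cast_one] at l4
  exact l1.append (l2.append (l3.append (l5.append l4)))

theorem scLegc {J K : ℕ} (hJ : 1 ≤ J) (hK : 1 ≤ K) :
    run (D.sys hD hJ).mv (J + 3 + K, D.e1) D.c = some (J + 3 + K, D.e2) ∧
      kap (D.sys hD hJ).mv (D.kp J) (J + 3 + K, D.e1) D.c = D.kc := by
  obtain ⟨h1, h2, h3, h4, h5, h6, h7, h8, h9, h10, h11, h12, h13, h14, -⟩ := scPaths hD
  rw [← scTr_four (by omega : J + 4 ≤ J + 3 + K)] at h10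
  obtain ⟨h15, h16, -, -⟩ := scWrun hD hJ (by omega) (by omega) h10
  simpa using And.intro h15 h16

/-- The two words differ by `c`. -/
theorem scEval (hl : 2 ≤ D.l) (hm : 2 ≤ D.m) (hn : 2 ≤ D.n)
    {J K : ℕ} (hJ : 1 ≤ J) (hK : 1 ≤ K) (hK2 : (K : ℤ) = D.α * J + D.K0) :
    eval D.l D.m D.n (w1 D J K ++ D.c) = eval D.l D.m D.n (w2 D J K) := by
  obtain ⟨h1, h2, h3, h4, h5, h6, h7, h8, h9, h10, h11, h12, h13, h14, -⟩ := scPaths hD
  obtain ⟨val, V⟩ := exists_val hD hJ hl hm hn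
  obtain ⟨a1, a2, a3⟩ := scLeg1 hD (K := K) hJ
  obtain ⟨b1, b2, b3⟩ := scLeg2 hD hJ hK
  obtain ⟨c1, c2⟩ := scLegc hD hJ hK
  have d1 : run (D.sys hD hJ).mv (0, D.x0) (w1 D J K ++ D.c) = some (J + 3 + K, D.e2) := by
    rw [run_append_some]
    exact ⟨_, a1, c1⟩
  rw [V.eval_eq d1, V.eval_eq b1, kap_append a1, a2, b2, c2]
  congr 2
  rw [hK2]
  linear_combination (J : ℤ) * h13 + h14

/-- The first height potential. -/
def Hp (D : TileData) (J : ℕ) (x : ℕ × ℕ) : ℤ :=
  (D.tl (ty J x.1)).h.getD x.2 0 +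
    if ty J x.1 = 4 then ((x.1 : ℤ) - J - 3) * (D.tl 4).sl.getD x.2 0 else 0

/-- The second height potential. -/
def Gp (D : TileData) (J : ℕ) (x : ℕ × ℕ) : ℤ :=
  (D.tl (ty J x.1)).g.getD x.2 0 + D.a * ((x.1 - 1 : ℕ) : ℤ)

omit hD in
theorem scTy_four_iff {J k : ℕ} : ty J k = 4 ↔ J + 3 ≤ k := by
  constructor
  · intro h
    by_contra hc
    unfold ty at h
    split_ifs at h <;> omega
  · exact scTy_four

/-- Moves of the system. -/
theorem scMv {J : ℕ} (hJ : 1 ≤ J) {k v : ℕ} {y : Letter} {x' : ℕ × ℕ}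
    (h : (D.sys hD hJ).mv (k, v) y = some x') :
    ∃ δ κ, (D.tl (ty J k)).look v y = some (δ, x'.2, κ) ∧ x'.1 = k + δ - 1 ∧ δ ≤ 2 ∧ 1 ≤ k + δ ∧
      v < (D.tl (ty J k)).nv ∧ x'.2 < (D.tl (ty J x'.1)).nv ∧ D.kp J (k, v) y = κ ∧
      D.F J x' - D.F J (k, v) = D.df (scTr J k) v δ x'.2 := by
  rw [mv_eq] at h
  have h0 := h
  unfold step at h
  simp only at h
  split at h
  · rename_i δ v' κ hl
    simp only [Option.some.injEq] at h
    subst h
    obtain ⟨h2, h3, h4, h5, h6, h7, h8⟩ := scDart hD hJ hl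
    exact ⟨δ, κ, hl, rfl, h2, h3, h4, h5, h7, h8⟩
  · cases h

/-- The vertices on a run. -/
theorem scRun_nv {J : ℕ} (hJ : 1 ≤ J) {x e : ℕ × ℕ} {w : List Letter}
    (h : run (D.sys hD hJ).mv x w = some e) (hx : x.2 < (D.tl (ty J x.1)).nv) :
    e.2 < (D.tl (ty J e.1)).nv := by
  induction w generalizing x with
  | nil =>
    simp only [run_nil, Option.some.injEq] at h
    subst h
    exact hx
  | cons y w ih =>
    rw [run_cons_some] at h
    obtain ⟨d, hd, h2⟩ := h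
    obtain ⟨k, v⟩ := x
    obtain ⟨δ, κ, -, -, -, -, -, h3, -⟩ := scMv hD hJ hd
    exact ih h2 h3

theorem scHp_le {J : ℕ} (hJ : 1 ≤ J) (x : ℕ × ℕ) (y : Letter) (x' : ℕ × ℕ)
    (h : (D.sys hD hJ).mv x y = some x') (ht : D.F J x' = D.F J x + 1) :
    Hp D J x' - Hp D J x ≤ 1 * D.kp J x y := by
  obtain ⟨k, v⟩ := x
  obtain ⟨k', v'⟩ := x'
  obtain ⟨δ, κ, hl, h1, h2, h3, h4, h5, h6, h7⟩ := scMv hD hJ h
  simp only at hl h1 h5 h7
  subst h1
  have h8 := (scCheck hD).2.2.2.1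
  unfold checkH at h8
  rw [List.all_eq_true] at h8
  have h9 := scAllDarts (h8 _ (scTr_mem hJ k)) hl
  simp only [Bool.or_eq_true, Bool.and_eq_true, decide_eq_true_eq] at h9
  have h10 := (scCheck hD).2.2.1
  unfold checkLip at h10
  simp only [Bool.and_eq_true] at h10
  have h11 := h10.1
  rw [List.all_eq_true] at h11
  have h12 := scAllDarts (h11 _ (scTr_mem hJ k)) hl
  simp only [Bool.or_eq_true, Bool.and_eq_true, decide_eq_true_eq] at h12
  rcases h9 with h9 | ⟨h9, h9'⟩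
  · exfalso
    linarith
  rcases h12.2 with h12 | h12
  · exfalso
    linarith
  rw [h6, one_mul]
  rw [scTgt h2] at h9
  unfold Hp
  simp only
  have e21 : (scTr J k).2.1 = ty J k := rfl
  rw [e21] at h9 h9'
  by_cases hk : J + 3 ≤ k
  · have t1 : ty J k = 4 := scTy_four hk
    have t2 : ty J (k + δ - 1) = 4 := scTy_four (by omega)
    rw [t1, t2] at h9
    rw [t1, t2, if_pos rfl, if_pos rfl]
    rcases h9' with h9' | h9'
    · exact absurd t1 h9'
    have hk' : (0 : ℤ) ≤ (k : ℤ) - J - 3 := by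
      have : ((J + 3 : ℕ) : ℤ) ≤ k := by exact_mod_cast hk
      push_cast at this
      linarith
    have h13 := mul_le_mul_of_nonneg_left h9' hk'
    rcases (by omega : δ = 1 ∨ δ = 2) with rfl | rfl
    · rw [if_neg (by omega)] at h9
      simp only [Nat.add_sub_cancel]
      linarith
    · rw [if_pos ⟨rfl, rfl⟩] at h9
      rw [show k + 2 - 1 = k + 1 by omega]
      push_cast
      linarith
  · have t1 : ty J k ≠ 4 := fun h => hk (scTy_four_iff.1 h)
    rw [if_neg (by tauto)] at h9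
    rw [if_neg t1]
    by_cases hk2 : J + 3 ≤ k + δ - 1
    · have t2 : ty J (k + δ - 1) = 4 := scTy_four (by omega)
      have t3 : k + δ - 1 = J + 3 := by omega
      rw [if_pos t2, t3]
      rw [t3] at h9
      push_cast
      linarith
    · rw [if_neg (fun h => hk2 (scTy_four_iff.1 h))]
      linarith

theorem scHp_ends (J K : ℕ) :
    D.k0 + (J * D.k1 + (D.k2 + K * D.k3)) = Hp D J (J + 3 + K, D.e1) - Hp D J (0, D.x0) := by
  obtain ⟨-, -, -, -, -, -, -, -, -, -, -, -, -, -, h15, h16, h17, h18, h19⟩ := scPaths hD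
  unfold Hp
  simp only
  rw [scTy_four (by omega), scTy_zero, if_pos rfl, if_neg (by omega), h17, h19]
  push_cast
  linarith

theorem scStart : 0 < D.a ∧ (D.tl 0).f.getD D.x0 0 = 0 ∧ D.x0 < (D.tl 0).nv ∧
    (∃ q, D.q0 = lA' :: q) ∧ ∀ y δ v' κ, (D.tl 0).look D.x0 y = some (δ, v', κ) →
      1 ≤ D.df (0, 0, 1) D.x0 δ v' →
        y = lA ∨ (y = lA' ∧ δ = 1 ∧ (D.tl 0).r.getD v' false = true) := by
  have h := (scCheck hD).2.2.2.2.2.1
  have h' := (scCheck hD).1
  unfold checkStart at h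
  unfold checkSymm at h'
  simp only [Bool.and_eq_true, decide_eq_true_eq] at h h'
  obtain ⟨⟨⟨h1, h2⟩, h3⟩, h4⟩ := h
  refine ⟨h1, h2, h'.2, ?_, ?_⟩
  · cases hq : D.q0 with
    | nil => rw [hq] at h4; simp at h4
    | cons y q =>
      rw [hq] at h4
      simp only [beq_iff_eq] at h4
      exact ⟨q, by rw [h4]⟩
  · intro y δ v' κ hl hd
    rw [List.all_eq_true] at h3
    have h5 := h3 y (scMem_allLetters y)
    rw [hl] at h5
    simp only [Bool.or_eq_true, Bool.and_eq_true, decide_eq_true_eq, beq_iff_eq] at h5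
    rcases h5 with (h5 | h5) | ⟨⟨h5, h6⟩, h7⟩
    · omega
    · exact Or.inl h5
    · exact Or.inr ⟨h5, h6, h7⟩

theorem scGp_step {J : ℕ} (hJ : 1 ≤ J) (p : ℕ × ℕ)
    (hr : (D.tl (ty J p.1)).r.getD p.2 false = true) (hF : D.F J p < D.base J (J + 1))
    (y : Letter) (p' : ℕ × ℕ) (h : (D.sys hD hJ).mv p y = some p')
    (ht : D.F J p' = D.F J p + 1) :
    (D.tl (ty J p'.1)).r.getD p'.2 false = true ∧ Gp D J p' - Gp D J p ≤ D.kp J p y := by
  obtain ⟨k, v⟩ := p
  obtain ⟨k', v'⟩ := p'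
  obtain ⟨δ, κ, hl, h1, h2, h3, h4, h5, h6, h7⟩ := scMv hD hJ h
  simp only at hl h1 h5 h7 hr
  subst h1
  have hk : k ≤ J := by
    by_contra hc
    have := scBase_le hD (J := J) (show J + 1 ≤ k by omega)
    have := (scSlab hD h4).1
    linarith
  have h8 := (scCheck hD).2.2.2.2.1
  unfold checkR at h8
  rw [List.all_eq_true] at h8
  have h9 := h8 _ (scTr_mem hJ k)
  have e21 : (scTr J k).2.1 = ty J k := rfl
  rw [Bool.or_eq_true, decide_eq_true_eq, e21] at h9
  have hty : ty J k < 2 := by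
    rcases Nat.eq_zero_or_pos k with rfl | h0
    · rw [scTy_zero]; omega
    · rw [scTy_one h0 hk]; omega
  rcases h9 with h9 | h9
  · omega
  have h10 := scAllDarts h9 hl
  rw [hr] at h10
  simp only [Bool.or_eq_true, Bool.and_eq_true, decide_eq_true_eq, Bool.not_true,
    Bool.false_eq_true, false_or] at h10
  have h13 := (scCheck hD).2.2.1
  unfold checkLip at h13
  simp only [Bool.and_eq_true] at h13
  have h11 := h13.1
  rw [List.all_eq_true] at h11
  have h12 := scAllDarts (h11 _ (scTr_mem hJ k)) hl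
  simp only [Bool.or_eq_true, Bool.and_eq_true, decide_eq_true_eq] at h12
  rcases h10 with h10 | ⟨h10, h10'⟩
  · exfalso
    linarith
  rcases h12.2 with h12 | h12
  · exfalso
    linarith
  rw [scTgt h2] at h10 h10'
  refine ⟨h10, ?_⟩
  rw [h6]
  unfold Gp
  simp only
  rcases (by omega : δ = 1 ∨ δ = 2) with rfl | rfl
  · rw [if_neg (by omega)] at h10'
    simp only [Nat.add_sub_cancel] at h10' ⊢
    linarith
  · rw [show k + 2 - 1 = k + 1 by omega] at h10' ⊢
    rcases Nat.eq_zero_or_pos k with rfl | h0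
    · rw [if_neg (by rw [scTy_zero]; omega)] at h10'
      simp only [zero_add, Nat.sub_self, Nat.cast_zero, mul_zero, Nat.zero_sub] at h10' ⊢
      linarith
    · rw [if_pos ⟨scTy_one h0 hk, rfl⟩] at h10'
      rw [show k + 1 - 1 = k by omega, Nat.cast_sub h0]
      push_cast
      linarith

theorem scRoot : ∃ B : ℕ, ∀ v < (D.tl 2).nv, ∃ (w : List Letter) (κ : ℤ), w.length ≤ B ∧
    |κ| ≤ B ∧ ∀ J (hJ : 1 ≤ J),
      run (D.sys hD hJ).mv (J + 1, (D.tl 2).rt) w = some (J + 1, v) ∧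
      kap (D.sys hD hJ).mv (D.kp J) (J + 1, (D.tl 2).rt) w = κ := by
  refine scBound_of_forall_lt (P := fun v b => ∃ (w : List Letter) (κ : ℤ), w.length ≤ b ∧
    |κ| ≤ b ∧ ∀ J (hJ : 1 ≤ J),
      run (D.sys hD hJ).mv (J + 1, (D.tl 2).rt) w = some (J + 1, v) ∧
      kap (D.sys hD hJ).mv (D.kp J) (J + 1, (D.tl 2).rt) w = κ) ?_ _ ?_
  · rintro v a b hab ⟨w, κ, h1, h2, h3⟩
    refine ⟨w, κ, h1.trans hab, h2.trans ?_, h3⟩
    exact_mod_cast hab
  · intro v hv
    obtain ⟨w, κ, h1, h2⟩ := to_root hD 2 v (by omega) hv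
    refine ⟨max w.length κ.natAbs, w, κ, le_max_left _ _, ?_, fun J hJ => ?_⟩
    · rw [Nat.cast_max, Int.natCast_natAbs]
      exact le_max_right _ _
    · exact h2 J (J + 1) hJ (scTy_two J) hJ

omit hD in
theorem scDiff (x P1 P2 : E D.l D.m D.n) (k1 k2 : ℤ) :
    (x⁻¹ * P1 * (genB D.l D.m D.n ^ D.n) ^ k1)⁻¹ * (x⁻¹ * P2 * (genB D.l D.m D.n ^ D.n) ^ k2) =
      P1⁻¹ * P2 * (genB D.l D.m D.n ^ D.n) ^ (k2 - k1) := by
  set z := genB D.l D.m D.n ^ D.n
  have hc : ∀ (g : E D.l D.m D.n) (k : ℤ), z ^ k * g = g * z ^ k := fun g k => zpow_comm g k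
  calc (x⁻¹ * P1 * z ^ k1)⁻¹ * (x⁻¹ * P2 * z ^ k2)
      = z ^ (-k1) * (P1⁻¹ * P2) * z ^ k2 := by
        rw [zpow_neg]; group
    _ = P1⁻¹ * P2 * (z ^ k2 * (z ^ k1)⁻¹) := by
        rw [hc, zpow_neg, mul_assoc]
        congr 1
        rw [← zpow_neg, ← zpow_add, ← zpow_add, add_comm]
    _ = P1⁻¹ * P2 * z ^ (k2 - k1) := by rw [← zpow_sub]

end paths

/-- The two words diverge. -/
theorem diverge (hD : D.check = true) (hl : 2 ≤ D.l) (hm : 2 ≤ D.m) (hn : 2 ≤ D.n)
    (hyp : (1 / D.l + 1 / D.m + 1 / D.n : ℚ) < 1)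
    (lt : Letter → Letter → Prop) [IsStrictTotalOrder Letter lt] (hlt : lt lA' lA) :
    ∃ R, ∀ N : ℕ, Diverge D.l D.m D.n lt D.c.length (ballR D.l D.m D.n R) N := by
  obtain ⟨B, hB⟩ := scRoot hD
  obtain ⟨B0, hB0⟩ := scBound_getD (D.tl 0).g
  obtain ⟨B2, hB2⟩ := scBound_getD (D.tl 2).g
  obtain ⟨B3, hB3⟩ := scBound_getD (D.tl 2).h
  obtain ⟨ha, hf0, hx0, ⟨q, hq⟩, hst⟩ := scStart hD
  obtain ⟨h1, h2, h3, h4, h5, h6, h7, h8, h9, h10, h11, h12, h13, h14, -⟩ := scPaths hD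
  refine ⟨2 * B, fun N => ?_⟩
  -- the number of tiles
  set κA : ℤ := D.kp 1 (0, D.x0) lA' with hκA
  obtain ⟨J, hJN⟩ : ∃ J : ℕ, (N : ℤ) + 2 * B + B0 + B2 + B3 + |κA| +
      |(D.tl 0).h.getD D.x0 0| + 1 ≤ J := by
    refine ⟨((N : ℤ) + 2 * B + B0 + B2 + B3 + |κA| + |(D.tl 0).h.getD D.x0 0| + 1).toNat, ?_⟩
    exact Int.self_le_toNat _
  have hJ : 1 ≤ J := by
    have a1 := abs_nonneg κA
    have a2 := abs_nonneg ((D.tl 0).h.getD D.x0 0)
    have : (1 : ℤ) ≤ J := by
      have b0 : (0 : ℤ) ≤ N := Int.natCast_nonneg _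
      have b1 : (0 : ℤ) ≤ B := Int.natCast_nonneg _
      have b2 : (0 : ℤ) ≤ B0 := Int.natCast_nonneg _
      have b3 : (0 : ℤ) ≤ B2 := Int.natCast_nonneg _
      have b4 : (0 : ℤ) ≤ B3 := Int.natCast_nonneg _
      linarith
    exact_mod_cast this
  obtain ⟨K, hK2⟩ : ∃ K : ℕ, (K : ℤ) = D.α * J + D.K0 := by
    refine ⟨(D.α * J + D.K0 : ℤ).toNat, Int.toNat_of_nonneg ?_⟩
    have : (D.α : ℤ) * 1 ≤ D.α * J := by
      apply mul_le_mul_of_nonneg_left _ (by positivity)
      exact_mod_cast hJ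
    linarith
  have hK : 1 ≤ K := by
    have : (D.α : ℤ) * 1 ≤ D.α * J := by
      apply mul_le_mul_of_nonneg_left _ (by positivity)
      exact_mod_cast hJ
    have : (1 : ℤ) ≤ K := by rw [hK2]; linarith
    exact_mod_cast this
  obtain ⟨val, V⟩ := exists_val hD hJ hl hm hn
  have S := (closed hD hJ (by omega) (by omega) (by omega)).vsys hl (by omega) hn
  have hF := lip hD hJ
  have hHp := scHp_le hD hJ
  obtain ⟨a1, a2, a3⟩ := scLeg1 hD (K := K) hJ
  obtain ⟨b1, b2, b3⟩ := scLeg2 hD hJ hK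
  have t1 := scTight hD hJ a1 a3.ge
  have t2 := scTight hD hJ b1 b3.ge
  have hF0 : D.F J (0, D.x0) = 0 := by
    unfold F
    simp only [base, scTy_zero, hf0, add_zero]
  have hbase : 0 < D.base J (J + 1) := by
    have := scBase_lt hD (J := J) (show 0 < J + 1 by omega)
    simpa [base] using this
  set i := (D.base J (J + 1)).toNat with hi
  have hi' : (i : ℤ) = D.base J (J + 1) := Int.toNat_of_nonneg hbase.le
  have hend : ∀ e : ℕ × ℕ, e.2 < (D.tl (ty J e.1)).nv → J + 1 ≤ e.1 → (i : ℤ) ≤ D.F J e := by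
    rintro ⟨k, v⟩ he hk
    rw [hi']
    exact (scBase_le hD hk).trans (scSlab hD he).1
  have hx0' : D.x0 < (D.tl (ty J 0)).nv := by rw [scTy_zero]; exact hx0
  -- the position at the time `i`
  have hpos : ∀ p : ℕ × ℕ, p.2 < (D.tl (ty J p.1)).nv → D.F J p = i → p.1 = J + 1 := by
    rintro ⟨k, v⟩ hp hpi
    rw [hi'] at hpi
    obtain ⟨c1, c2⟩ := scSlab hD hp
    simp only
    by_contra hc
    rcases Nat.lt_or_gt_of_ne hc with h | h
    · have := scBase_le hD (J := J) (show k + 1 ≤ J + 1 by omega)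
      linarith
    · have := scBase_lt hD (J := J) h
      linarith
  refine ⟨w1 D J K, w2 D J K, D.c, i, le_rfl, scEval hD hl hm hn hJ hK hK2, ?_⟩
  intro u v hu hu' hv hv'
  obtain ⟨u1, u2, -⟩ := S.normalForm hl hm hn hF t1 hu hu'
  obtain ⟨v1, v2, v3⟩ := S.normalForm hl hm hn hF t2 hv hv'
  have ku : kap (D.sys hD hJ).mv (D.kp J) (0, D.x0) u =
      Hp D J (J + 3 + K, D.e1) - Hp D J (0, D.x0) := by
    rw [V.kap_eq hl hm hn hyp u1.spec.1 a1 hu', a2]
    exact scHp_ends hD J K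
  -- the first word
  have hiu : i ≤ u.length := by
    have c1 := u1.spec.2
    have c2 := hend _ (scRun_nv hD hJ a1 hx0') (by simp only; omega)
    rw [c1, hF0, zero_add] at c2
    exact_mod_cast c2
  obtain ⟨p1, u4, u5, u6⟩ := u1.split_at hiu
  rw [hF0, zero_add] at u6
  have hp1 : p1.2 < (D.tl (ty J p1.1)).nv := scRun_nv hD hJ u4.spec.1 hx0'
  have hp1' := hpos p1 hp1 u6
  have ku1 : kap (D.sys hD hJ).mv (D.kp J) (0, D.x0) (u.take i) =
      Hp D J p1 - Hp D J (0, D.x0) := by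
    have c1 := u4.height_le hHp
    have c2 := u5.height_le hHp
    have c3 : kap (D.sys hD hJ).mv (D.kp J) (0, D.x0) u =
        kap (D.sys hD hJ).mv (D.kp J) (0, D.x0) (u.take i) +
        kap (D.sys hD hJ).mv (D.kp J) p1 (u.drop i) := by
      rw [← kap_append u4.spec.1, List.take_append_drop]
    linarith
  -- the second word
  have hiv : i ≤ v.length := by
    have c1 := v1.spec.2
    have c2 := hend _ (scRun_nv hD hJ b1 hx0') (by simp only; omega)
    rw [c1, hF0, zero_add] at c2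
    exact_mod_cast c2
  obtain ⟨p2, v4, v5, v6⟩ := v1.split_at hiv
  rw [hF0, zero_add] at v6
  have hp2 : p2.2 < (D.tl (ty J p2.1)).nv := scRun_nv hD hJ v4.spec.1 hx0'
  have hp2' := hpos p2 hp2 v6
  -- it begins with `A`
  obtain ⟨w2', hw2'⟩ : ∃ w2', w2 D J K = lA' :: w2' := ⟨_, by rw [w2, hq]; rfl⟩
  have hi1 : 1 ≤ i := by
    have : (1 : ℤ) ≤ i := by rw [hi']; linarith
    exact_mod_cast this
  obtain ⟨y, v', rfl⟩ : ∃ y v', v = y :: v' := by
    cases v with
    | nil => simp at hiv; omega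
    | cons y v' => exact ⟨y, v', rfl⟩
  obtain ⟨x1, c1, c2, c3⟩ := id v1
  obtain ⟨δ, κ, d1, d2, d3, d4, d5, d6, d7, d8⟩ := scMv hD hJ c1
  rw [scTy_zero] at d1
  rw [scTr_zero hJ] at d8
  have hy := hst y δ x1.2 κ d1 (by rw [← d8, c2]; linarith)
  have hy' : y = lA' ∧ δ = 1 ∧ (D.tl 0).r.getD x1.2 false = true := by
    rcases hy with hy | hy
    · exfalso
      subst hy
      rw [hw2'] at v3
      rcases v3 with h | h
      · simp only [List.cons.injEq] at h
        exact absurd h.1 (by decide)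
      · cases h with
        | rel h => exact asymm_of lt h hlt
    · exact hy
  obtain ⟨rfl, rfl, hr⟩ := hy'
  obtain ⟨k1, x1'⟩ := x1
  simp only at d2 d6 hr
  obtain rfl : k1 = 0 := by omega
  -- the height of the second word
  obtain ⟨i', hi2⟩ : ∃ i', i = i' + 1 := ⟨i - 1, by omega⟩
  have hv4 := v4
  rw [hi2, List.take_succ_cons] at hv4
  obtain ⟨x1, e1, e2, e3⟩ := hv4
  rw [c1] at e1
  obtain rfl : (0, x1') = x1 := Option.some.inj e1
  obtain ⟨-, e4⟩ := e3.trap_le (G := Gp D J) (κ := D.kp J)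
    (R := fun p => (D.tl (ty J p.1)).r.getD p.2 false = true) (f := D.base J (J + 1))
    (fun p hp1 hp2 y p' hp3 hp4 => scGp_step hD hJ p hp1 hp2 y p' hp3 hp4)
    (by simp only; rw [scTy_zero]; exact hr) (by rw [v6, hi'])
  have kv : kap (D.sys hD hJ).mv (D.kp J) (0, D.x0) ((lA' :: v').take i) =
      κA + kap (D.sys hD hJ).mv (D.kp J) (0, x1') (v'.take i') := by
    rw [hi2, List.take_succ_cons, kap_cons c1]
    congr 1
  -- the vertices in the tile `J + 1`
  obtain ⟨n1, m1⟩ := p1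
  obtain ⟨n2, m2⟩ := p2
  simp only at hp1 hp2 hp1' hp2'
  subst hp1' hp2'
  rw [scTy_two] at hp1 hp2
  obtain ⟨z1, κ1, f1, f2, f3⟩ := hB m1 hp1
  obtain ⟨z2, κ2, g1, g2, g3⟩ := hB m2 hp2
  obtain ⟨f4, f5⟩ := f3 J hJ
  obtain ⟨g4, g5⟩ := g3 J hJ
  set ru := kap (D.sys hD hJ).mv (D.kp J) (0, D.x0) (u.take i) with hru
  set rv := kap (D.sys hD hJ).mv (D.kp J) (0, D.x0) ((lA' :: v').take i) with hrv
  refine ⟨eval D.l D.m D.n (winv z1 ++ z2), ⟨_, ?_, rfl⟩, rv - ru - (κ2 - κ1), ?_, ?_⟩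
  · rw [List.length_append, scLength_winv]
    omega
  · have j1 := hB0 x1'
    have j2 := hB2 m2
    have j3 := hB3 m1
    unfold Gp at e4
    unfold Hp at ku1
    simp only [scTy_two, scTy_zero, Nat.add_sub_cancel, if_neg (show ¬ (2 : ℕ) = 4 by omega),
      if_neg (show ¬ (0 : ℕ) = 4 by omega), Nat.zero_sub, Nat.cast_zero, mul_zero, add_zero]
      at e4 ku1
    have j4 : (J : ℤ) ≤ D.a * J := by
      have : (1 : ℤ) * J ≤ D.a * J := mul_le_mul_of_nonneg_right (by linarith) (by positivity)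
      linarith
    have j5 := abs_le.1 j1
    have j6 := abs_le.1 j2
    have j7 := abs_le.1 j3
    have j8 := abs_le.1 f2
    have j9 := abs_le.1 g2
    have j10 := neg_abs_le κA
    have j11 := neg_abs_le ((D.tl 0).h.getD D.x0 0)
    have j12 : (N : ℤ) < rv - ru - (κ2 - κ1) := by
      rw [kv, ku1]
      linarith
    exact j12.trans_le (le_abs_self _)
  · rw [V.eval_eq u4.spec.1, V.eval_eq v4.spec.1, scDiff, eval_append, scEval_winv,
      V.eval_eq f4, V.eval_eq g4, scDiff, f5, g5, ← hru, ← hrv]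
    rw [mul_assoc (_ * _) (_ ^ _) (_ ^ _), ← zpow_add]
    congr 2
    ring

/-- **The conclusion.** -/
theorem not_finiteDiff_of_lt (hD : D.check = true) (hl : 2 ≤ D.l) (hm : 2 ≤ D.m) (hn : 2 ≤ D.n)
    (hyp : (1 / D.l + 1 / D.m + 1 / D.n : ℚ) < 1)
    (lt : Letter → Letter → Prop) [IsStrictTotalOrder Letter lt] (hlt : lt lA' lA) :
    ¬ FiniteDiff D.l D.m D.n lt := by
  obtain ⟨R, hR⟩ := diverge hD hl hm hn hyp lt hlt
  exact not_finiteDiff_of_heights hl hm hn hyp lt D.c.length _ (ballR_finite _ _ _ R) hR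

theorem not_finiteDiff (hD : D.check = true) (hl : 2 ≤ D.l) (hm : 2 ≤ D.m) (hn : 2 ≤ D.n)
    (hyp : (1 / D.l + 1 / D.m + 1 / D.n : ℚ) < 1)
    (lt : Letter → Letter → Prop) [IsStrictTotalOrder Letter lt] :
    ¬ FiniteDiff D.l D.m D.n lt := by
  intro hf
  by_cases h1 : lt lA' lA
  · exact not_finiteDiff_of_lt hD hl hm hn hyp lt h1 hf
  · by_cases h2 : lt lA lA'
    · exact not_finiteDiff_of_lt hD hl hm hn hyp (flipLt lt) h2 (finiteDiff_flip _ _ _ lt hf)
    · have := Std.Trichotomous.trichotomous (r := lt) _ _ h1 h2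
      exact absurd this (by decide)

end TileData

end Pool.Agent.SLE
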