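import Pool.Agent.SLE.Tile

/-!
# The system of a periodic table
-/

namespace Pool.Agent.SLE

open List G3

/-- A run once around the face gives a complete face. -/
theorem DSys.inner_of_cyc {X : Type*} {S : DSys X} {l m n : ℕ} {x : X} {y : Letter}
    (hp : 1 ≤ fper l m n y) (h : run S.mv x (fw y (fper l m n y)) = some x) :
    S.Inner l m n x y := by
  classical
  have key : ∀ t ≤ fper l m n y, ∃ d, run S.mv x (fw y t) = some d := by
    intro t ht
    rw [← Nat.add_sub_cancel' ht, fw_add, run_append_some] at h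
    obtain ⟨d, hd, -⟩ := h
    exact ⟨d, hd⟩
  refine ⟨y, fun t => (run S.mv x (fw y t)).getD x, 0, ⟨?_, ?_⟩, hp, ?_, rfl⟩
  · intro t ht
    obtain ⟨d, hd⟩ := key t ht.le
    obtain ⟨e, he⟩ := key (t + 1) ht
    have he' := he
    rw [fw_add, run_append_some] at he'
    obtain ⟨d', hd', h2⟩ := he'
    rw [hd] at hd'
    cases hd'
    rw [fw, S.run_cons_iff] at h2
    obtain ⟨e', h3, h4⟩ := h2
    have h5 : e' = e := by simpa [fw] using h4
    subst h5
    simp only [hd, he, Option.getD_some]
    exact h3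
  · simp only [h, Option.getD_some, fw, run_nil]
  · simp [fw]

namespace Tile

theorem lt_of_look {T : Tile} {v : ℕ} {y : Letter} {e : ℕ × ℕ × ℤ} (h : T.look v y = some e) :
    v < T.nv := by
  by_contra hv
  have h1 : T.tab.getD v [] = [] := by
    rw [List.getD_eq_getElem?_getD, List.getElem?_eq_none (by simpa [nv] using hv)]
    rfl
  rw [look, h1] at h
  simp at h

end Tile

theorem mem_allLetters (y : Letter) : y ∈ allLetters := by
  obtain ⟨i, b⟩ := y
  fin_cases i <;> cases b <;> simp [allLetters]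

namespace TileData

variable (D : TileData)

theorem allDarts_look {T : Tile} {P : ℕ → Letter → ℕ → ℕ → ℤ → Bool} (h : allDarts T P = true)
    {v : ℕ} {y : Letter} {δ v' : ℕ} {κ : ℤ} (hl : T.look v y = some (δ, v', κ)) :
    P v y δ v' κ = true := by
  rw [allDarts, List.all_eq_true] at h
  have h1 := h v (List.mem_range.2 (Tile.lt_of_look hl))
  rw [List.all_eq_true] at h1
  have h2 := h1 y (mem_allLetters y)
  simpa only [hl] using h2

/-- The window with the middle tile `k`. -/
def win (J k : ℕ) : ℕ × ℕ × ℕ := (ty J (k - 1), ty J k, ty J (k + 1))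

theorem ty_zero (J : ℕ) : ty J 0 = 0 := by simp [ty]

theorem ty_one {J k : ℕ} (h1 : 1 ≤ k) (h2 : k ≤ J) : ty J k = 1 := by
  unfold ty
  rw [if_neg (by omega), if_pos h2]

theorem ty_two {J k : ℕ} (h : k = J + 1) : ty J k = 2 := by
  unfold ty
  rw [if_neg (by omega), if_neg (by omega), if_pos h]

theorem ty_three {J k : ℕ} (h : k = J + 2) : ty J k = 3 := by
  unfold ty
  rw [if_neg (by omega), if_neg (by omega), if_neg (by omega), if_pos h]

theorem ty_four {J k : ℕ} (h : J + 3 ≤ k) : ty J k = 4 := by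
  unfold ty
  rw [if_neg (by omega), if_neg (by omega), if_neg (by omega), if_neg (by omega)]

theorem win_mem {J : ℕ} (hJ : 1 ≤ J) (k : ℕ) : win J k ∈ triples := by
  have h : (k = 0) ∨ (k = 1 ∧ J = 1) ∨ (k = 1 ∧ 2 ≤ J) ∨ (2 ≤ k ∧ k + 1 ≤ J) ∨ (2 ≤ k ∧ k = J) ∨
      (k = J + 1) ∨ (k = J + 2) ∨ (k = J + 3) ∨ (J + 4 ≤ k) := by omega
  unfold win
  rcases h with h | ⟨h, h'⟩ | ⟨h, h'⟩ | ⟨h1, h2⟩ | ⟨h1, h⟩ | h | h | h | h
  · rw [show k - 1 = 0 by omega, show k = 0 from h, ty_zero, ty_one le_rfl (by omega)]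
    simp [triples]
  · rw [show k - 1 = 0 by omega, ty_zero, ty_one (J := J) (k := k) (by omega) (by omega),
      ty_two (J := J) (k := k + 1) (by omega)]
    simp [triples]
  · rw [show k - 1 = 0 by omega, ty_zero, ty_one (J := J) (k := k) (by omega) (by omega),
      ty_one (J := J) (k := k + 1) (by omega) (by omega)]
    simp [triples]
  · rw [ty_one (J := J) (k := k - 1) (by omega) (by omega),
      ty_one (J := J) (k := k) (by omega) (by omega),
      ty_one (J := J) (k := k + 1) (by omega) (by omega)]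
    simp [triples]
  · rw [ty_one (J := J) (k := k - 1) (by omega) (by omega),
      ty_one (J := J) (k := k) (by omega) (by omega),
      ty_two (J := J) (k := k + 1) (by omega)]
    simp [triples]
  · rw [ty_one (J := J) (k := k - 1) (by omega) (by omega),
      ty_two (J := J) (k := k) (by omega),
      ty_three (J := J) (k := k + 1) (by omega)]
    simp [triples]
  · rw [ty_two (J := J) (k := k - 1) (by omega),
      ty_three (J := J) (k := k) (by omega),
      ty_four (J := J) (k := k + 1) (by omega)]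
    simp [triples]
  · rw [ty_three (J := J) (k := k - 1) (by omega),
      ty_four (J := J) (k := k) (by omega),
      ty_four (J := J) (k := k + 1) (by omega)]
    simp [triples]
  · rw [ty_four (J := J) (k := k - 1) (by omega),
      ty_four (J := J) (k := k) (by omega),
      ty_four (J := J) (k := k + 1) (by omega)]
    simp [triples]

theorem tgt_win {J k δ : ℕ} (h : δ ≤ 2) : tgt (win J k) δ = ty J (k + δ - 1) := by
  have : δ = 0 ∨ δ = 1 ∨ δ = 2 := by omega
  rcases this with rfl | rfl | rfl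
  · simp [tgt, win]
  · simp [tgt, win]
  · simp [tgt, win]

theorem step_some {J : ℕ} {x x' : ℕ × ℕ} {y : Letter} :
    D.step J x y = some x' ↔ ∃ δ v' κ, (D.tl (ty J x.1)).look x.2 y = some (δ, v', κ) ∧
      x' = (x.1 + δ - 1, v') := by
  unfold step
  cases h : (D.tl (ty J x.1)).look x.2 y with
  | none => simp
  | some e =>
    obtain ⟨δ, v', κ⟩ := e
    simp only [Option.some.injEq]
    constructor
    · rintro rfl
      exact ⟨δ, v', κ, rfl, rfl⟩
    · rintro ⟨δ', v'', κ', h1, rfl⟩
      cases h1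
      rfl

theorem step_none {J : ℕ} {x : ℕ × ℕ} {y : Letter}
    (h : (D.tl (ty J x.1)).look x.2 y = none) : D.step J x y = none := by
  unfold step
  rw [h]

variable {D}

theorem check_parts (hD : D.check = true) : D.checkSymm = true ∧ D.checkClosed = true ∧
    D.checkLip = true ∧ D.checkH = true ∧ D.checkR = true ∧ D.checkStart = true ∧
    D.checkPaths = true ∧ D.checkPar = true ∧ D.checkVal = true := by
  simp only [check, Bool.and_eq_true] at hD
  obtain ⟨⟨⟨⟨⟨⟨⟨⟨h1, h2⟩, h3⟩, h4⟩, h5⟩, h6⟩, h7⟩, h8⟩, h9⟩ := hD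
  exact ⟨h1, h2, h3, h4, h5, h6, h7, h8, h9⟩

/-- The dart of a tile, with its reverse. -/
theorem look_spec (hD : D.check = true) {J : ℕ} (hJ : 1 ≤ J) {k v : ℕ} {y : Letter} {δ v' : ℕ}
    {κ : ℤ} (h : (D.tl (ty J k)).look v y = some (δ, v', κ)) :
    δ ≤ 2 ∧ 1 ≤ k + δ ∧ v < (D.tl (ty J k)).nv ∧ v' < (D.tl (ty J (k + δ - 1))).nv ∧
      (D.tl (ty J (k + δ - 1))).look v' (flip y) = some (2 - δ, v, -κ) := by
  have hs := (check_parts hD).1
  simp only [checkSymm, Bool.and_eq_true] at hs
  obtain ⟨⟨h1, h2⟩, h3⟩ := hs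
  rw [List.all_eq_true] at h1
  have h4 := h1 _ (win_mem hJ k)
  have h5 := allDarts_look h4 (v := v) (y := y) (by exact h)
  simp only [Bool.and_eq_true, decide_eq_true_eq, beq_iff_eq] at h5
  obtain ⟨⟨h6, h7⟩, h8⟩ := h5
  rw [tgt_win h6] at h7 h8
  refine ⟨h6, ?_, Tile.lt_of_look h, h7, h8⟩
  rcases Nat.eq_zero_or_pos k with rfl | hk
  · have h9 : (D.tl 0).look v y = some (δ, v', κ) := h
    have h10 := allDarts_look h2 h9
    simpa using h10
  · omega

theorem step_symm (hD : D.check = true) {J : ℕ} (hJ : 1 ≤ J) {x x' : ℕ × ℕ} {y : Letter}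
    (h : D.step J x y = some x') : D.step J x' (flip y) = some x := by
  obtain ⟨k, v⟩ := x
  rw [step_some] at h
  obtain ⟨δ, v', κ, h1, rfl⟩ := h
  obtain ⟨h2, h3, h4, h5, h6⟩ := look_spec hD hJ h1
  rw [step_some]
  refine ⟨2 - δ, v, -κ, h6, ?_⟩
  have h7 : k + δ - 1 + (2 - δ) - 1 = k := by omega
  simp only [h7]

variable (D)

/-- The system. -/
def sys (hD : D.check = true) {J : ℕ} (hJ : 1 ≤ J) : DSys (ℕ × ℕ) where
  Adj x y x' := D.step J x y = some x'
  symm := by
    intro x y x' h
    exact step_symm hD hJ h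
  det := by
    intro x y x1 x2 h1 h2
    rw [h1] at h2
    exact Option.some.inj h2

/-- The position of the tile `k`. -/
def base (J : ℕ) : ℕ → ℤ
  | 0 => 0
  | k + 1 => base J k + D.ln (ty J k)

/-- The potential. -/
def F (J : ℕ) (x : ℕ × ℕ) : ℤ := D.base J x.1 + (D.tl (ty J x.1)).f.getD x.2 0

variable {D} (hD : D.check = true) {J : ℕ} (hJ : 1 ≤ J)

theorem mv_eq (x : ℕ × ℕ) (y : Letter) : (D.sys hD hJ).mv x y = D.step J x y := by
  cases h : D.step J x y with
  | some x' => rw [DSys.mv_iff]; exact h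
  | none =>
    rw [DSys.mv_none]
    intro x' h'
    have h2 : D.step J x y = some x' := h'
    rw [h] at h2
    cases h2

/-- The position of a vertex of the window with the middle tile `k`. -/
def emb (k : ℕ) (x : ℕ × ℕ) : ℕ × ℕ := (k + x.1 - 1, x.2)

include hD hJ in
/-- A step in the window. -/
theorem wstep_spec {k : ℕ} {x x' : ℕ × ℕ} {y : Letter} (h1 : x.1 ≤ 2) (h2 : 1 ≤ k + x.1)
    (h : D.wstep (win J k) x y = some x') :
    D.step J (emb k x) y = some (emb k x') ∧ x'.1 ≤ 2 ∧ 1 ≤ k + x'.1 := by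
  unfold wstep at h
  rw [tgt_win h1] at h
  cases h3 : (D.tl (ty J (k + x.1 - 1))).look x.2 y with
  | none => rw [h3] at h; cases h
  | some e =>
    obtain ⟨δ, v', κ⟩ := e
    rw [h3] at h
    simp only at h
    split_ifs at h with h4
    simp only [Option.some.injEq] at h
    subst h
    obtain ⟨h5, h6, -, -, -⟩ := look_spec hD hJ h3
    refine ⟨?_, ?_, ?_⟩
    · rw [step_some]
      refine ⟨δ, v', κ, h3, ?_⟩
      have h7 : k + (x.1 + δ - 1) - 1 = k + x.1 - 1 + δ - 1 := by omega
      simp only [emb, h7]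
    · simp only; omega
    · simp only; omega

include hD hJ in
theorem complete_spec {k : ℕ} {s : ℕ × ℕ} {p : ℕ} {x : ℕ × ℕ} {y : Letter} (h1 : x.1 ≤ 2)
    (h2 : 1 ≤ k + x.1) (h : D.complete (win J k) s p x y = true) :
    run (D.sys hD hJ).mv (emb k x) (fw y p) = some (emb k s) := by
  induction p generalizing x y with
  | zero =>
    simp only [complete, beq_iff_eq] at h
    subst h
    rfl
  | succ p ih =>
    rw [complete] at h
    cases h3 : D.wstep (win J k) x y with
    | none => rw [h3] at h; cases h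
    | some x' =>
      rw [h3] at h
      obtain ⟨h4, h5, h6⟩ := wstep_spec hD hJ h1 h2 h3
      rw [fw, run_cons_some]
      exact ⟨_, by rw [mv_eq]; exact h4, ih h5 h6 h⟩

include hD hJ in
theorem short_spec {k : ℕ} {p : ℕ} {x : ℕ × ℕ} {y : Letter} (h1 : x.1 ≤ 2)
    (h2 : 1 ≤ k + x.1) (h : D.short (win J k) p x y = true) :
    run (D.sys hD hJ).mv (emb k x) (fw y p) = none := by
  induction p generalizing x y with
  | zero => simp [short] at h
  | succ p ih =>
    rw [short, Bool.or_eq_true] at h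
    rcases h with h | h
    · rw [wnone, tgt_win h1, Option.isNone_iff_eq_none] at h
      rw [fw, run_cons, mv_eq, D.step_none h]
      rfl
    · cases h3 : D.wstep (win J k) x y with
      | none => rw [h3] at h; cases h
      | some x' =>
        rw [h3] at h
        obtain ⟨h4, h5, h6⟩ := wstep_spec hD hJ h1 h2 h3
        rw [fw, run_cons, mv_eq, h4]
        exact ih h5 h6 h

theorem fper_pos {l m n : ℕ} (hl : 1 ≤ l) (hm : 1 ≤ m) (hn : 1 ≤ n) (y : Letter) :
    1 ≤ fper l m n y := by
  obtain ⟨i, b⟩ := y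
  fin_cases i <;> cases b <;> simp [fper] <;> omega

theorem closed (hl : 1 ≤ D.l) (hm : 1 ≤ D.m) (hn : 1 ≤ D.n) :
    (D.sys hD hJ).Closed D.l D.m D.n := by
  rintro ⟨k, v⟩ y x' h
  have h' : D.step J (k, v) y = some x' := h
  rw [step_some] at h'
  obtain ⟨δ, v', κ, h1, rfl⟩ := h'
  have hc := (check_parts hD).2.1
  rw [checkClosed, List.all_eq_true] at hc
  have h2 := allDarts_look (hc _ (win_mem hJ k)) (v := v) (y := y) (by exact h1)
  simp only [Bool.or_eq_true] at h2
  have h3 : emb k (1, v) = (k, v) := by simp [emb]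
  rcases h2 with h2 | h2
  · left
    have h4 := complete_spec hD hJ (by simp) (by simp) h2
    rw [h3] at h4
    exact DSys.inner_of_cyc (fper_pos hl hm hn y) h4
  · right
    have h4 := short_spec hD hJ (by simp) (by simp) h2
    rwa [h3] at h4

/-- The difference of the potential along a dart. -/
theorem df_eq (hD : D.check = true) {J : ℕ} (hJ : 1 ≤ J) {k v : ℕ} {y : Letter} {δ v' : ℕ}
    {κ : ℤ} (h : (D.tl (ty J k)).look v y = some (δ, v', κ)) :
    D.df (win J k) v δ v' = D.F J (k + δ - 1, v') - D.F J (k, v) := by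
  obtain ⟨h1, h2, -, -, -⟩ := look_spec hD hJ h
  have h3 : δ = 0 ∨ δ = 1 ∨ δ = 2 := by omega
  unfold df
  rw [tgt_win h1]
  rcases h3 with rfl | rfl | rfl
  · obtain ⟨k, rfl⟩ : ∃ j, k = j + 1 := ⟨k - 1, by omega⟩
    simp only [F, win, Nat.add_zero, Nat.add_sub_cancel, base, if_true]
    ring
  · simp only [F, win, Nat.add_sub_cancel, if_true]
    simp
  · have e1 : k + 2 - 1 = k + 1 := by omega
    simp only [F, win, e1, base]
    simp only [show ¬ (2 : ℕ) = 0 by omega, show ¬ (2 : ℕ) = 1 by omega, if_false]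
    ring

theorem lip (x : ℕ × ℕ) (y : Letter) (x' : ℕ × ℕ) (h : (D.sys hD hJ).mv x y = some x') :
    D.F J x' ≤ D.F J x + 1 := by
  obtain ⟨k, v⟩ := x
  rw [mv_eq, step_some] at h
  obtain ⟨δ, v', κ, h1, rfl⟩ := h
  have hc := (check_parts hD).2.2.1
  simp only [checkLip, Bool.and_eq_true] at hc
  have hc1 := hc.1
  rw [List.all_eq_true] at hc1
  have h2 := allDarts_look (hc1 _ (win_mem hJ k)) (v := v) (y := y) (by exact h1)
  simp only [Bool.and_eq_true, decide_eq_true_eq] at h2
  have h3 := h2.1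
  rw [df_eq hD hJ h1] at h3
  simp only
  linarith

/-- The vertices of a tile are joined to its root, by words the heights of which do not depend on
the tile. -/
theorem to_root (τ v : ℕ) (hτ : τ < 5) (hv : v < (D.tl τ).nv) :
    ∃ (w : List Letter) (κ : ℤ), w.length = (D.tl τ).rk.getD v 0 ∧ ∀ J k, 1 ≤ J → ty J k = τ →
      ∀ hJ : 1 ≤ J, run (D.sys hD hJ).mv (k, (D.tl τ).rt) w = some (k, v) ∧
        kap (D.sys hD hJ).mv (D.kp J) (k, (D.tl τ).rt) w = κ := by
  have hc := (check_parts hD).2.2.2.2.2.2.2.1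
  simp only [checkPar, Bool.and_eq_true] at hc
  have hc1 := hc.1
  rw [List.all_eq_true] at hc1
  have hc2 := hc1 τ (List.mem_range.2 hτ)
  simp only [Bool.and_eq_true, decide_eq_true_eq] at hc2
  obtain ⟨⟨h1, h2⟩, h3⟩ := hc2
  rw [List.all_eq_true] at h3
  generalize hN : (D.tl τ).rk.getD v 0 = N
  induction N using Nat.strong_induction_on generalizing v with
  | _ N ih =>
    by_cases hvr : v = (D.tl τ).rt
    · refine ⟨[], 0, ?_, ?_⟩
      · rw [← hN, hvr, h2]; rfl
      · intro J k _ _ hJ
        rw [hvr]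
        exact ⟨rfl, rfl⟩
    · have h4 := h3 v (List.mem_range.2 hv)
      rw [Bool.or_eq_true, decide_eq_true_eq] at h4
      rcases h4 with h4 | h4
      · exact absurd h4 hvr
      · generalize hpar : (D.tl τ).par.getD v (0, (0, true)) = pr at h4
        obtain ⟨v', y⟩ := pr
        simp only [Bool.and_eq_true, decide_eq_true_eq] at h4
        obtain ⟨⟨h5, h6⟩, h7⟩ := h4
        cases h8 : (D.tl τ).look v' y with
        | none => rw [h8] at h7; cases h7
        | some e =>
          obtain ⟨δ, v'', κ1⟩ := e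
          rw [h8] at h7
          simp only [Bool.and_eq_true, decide_eq_true_eq] at h7
          obtain ⟨rfl, rfl⟩ := h7
          obtain ⟨w, κ, hw1, hw2⟩ := ih ((D.tl τ).rk.getD v' 0) (by omega) v' h5 rfl
          refine ⟨w ++ [y], κ + κ1, ?_, ?_⟩
          · rw [List.length_append, hw1, ← hN, h6]; rfl
          · intro J k hJ1 hk hJ
            obtain ⟨a1, a2⟩ := hw2 J k hJ1 hk hJ
            have hst : (D.sys hD hJ).mv (k, v') y = some (k, v'') := by
              rw [mv_eq, step_some]
              refine ⟨1, v'', κ1, ?_, ?_⟩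
              · simp only [hk, h8]
              · simp
            refine ⟨?_, ?_⟩
            · rw [run_append_some]
              refine ⟨_, a1, ?_⟩
              rw [run_cons_some]
              exact ⟨_, hst, rfl⟩
            · rw [kap_append a1, a2, kap_cons hst]
              have : D.kp J (k, v') y = κ1 := by
                unfold kp
                simp only [hk, h8]
              rw [this]
              simp [kap]

end TileData

end Pool.Agent.SLE
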