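import Pool.Agent.SLE.TileSys

/-!
# The section of the group over a periodic table
-/

namespace Pool.Agent.SLE

open List G3

/-- The parent of a vertex, and the letter leading from it to the vertex. -/
def Tile.vpr (T : Tile) (v : ℕ) : ℕ × Letter := T.par.getD v (0, (0, true))

/-- The height of a dart of a tile. -/
def Tile.vhgt (T : Tile) (v : ℕ) (y : Letter) : ℤ :=
  match T.look v y with
  | some (_, _, κ) => κ
  | none => 0

theorem Tile.vhgt_eq {T : Tile} {v : ℕ} {y : Letter} {δ v' : ℕ} {κ : ℤ}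
    (h : T.look v y = some (δ, v', κ)) : T.vhgt v y = κ := by
  simp only [Tile.vhgt, h]

theorem Tile.tv_lt_of_look {T : Tile} {v : ℕ} {y : Letter} {e : ℕ × ℕ × ℤ}
    (h : T.look v y = some e) : v < T.nv := by
  by_contra hv
  have h1 : T.tab.getD v [] = [] := by
    rw [List.getD_eq_default]
    exact not_lt.mp hv
  rw [Tile.look, h1] at h
  simp at h

theorem tv_mem_allLetters (y : Letter) : y ∈ allLetters := by
  obtain ⟨i, b⟩ := y
  fin_cases i <;> cases b <;> simp [allLetters]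

theorem tv_li_inj {y y' : Letter} (h : li y = li y') : y = y' := by
  obtain ⟨i, b⟩ := y
  obtain ⟨i', b'⟩ := y'
  revert h
  fin_cases i <;> fin_cases i' <;> cases b <;> cases b' <;> simp [li]

theorem tv_li_lt (y : Letter) : li y < 4 := by
  obtain ⟨i, b⟩ := y
  fin_cases i <;> cases b <;> simp [li]

namespace TileData

variable (D : TileData)

theorem tv_allDarts {T : Tile} {P : ℕ → Letter → ℕ → ℕ → ℤ → Bool} (h : allDarts T P = true)
    {v : ℕ} {y : Letter} {δ v' : ℕ} {κ : ℤ} (h2 : T.look v y = some (δ, v', κ)) :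
    P v y δ v' κ = true := by
  unfold allDarts at h
  rw [List.all_eq_true] at h
  have h3 := h v (List.mem_range.2 (Tile.tv_lt_of_look h2))
  rw [List.all_eq_true] at h3
  have h4 := h3 y (tv_mem_allLetters y)
  rw [h2] at h4
  exact h4

theorem tv_code_inj {x x' : Bool × ℕ} {y y' : Letter} (h : code x y = code x' y') :
    x = x' ∧ y = y' := by
  obtain ⟨b, v⟩ := x
  obtain ⟨b', v'⟩ := x'
  have h1 := tv_li_lt y
  have h2 := tv_li_lt y'
  unfold code at h
  simp only at h
  have h3 : li y = li y' := by omega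
  refine ⟨?_, tv_li_inj h3⟩
  rw [h3] at h
  cases b <;> cases b' <;> simp at h ⊢ <;> omega

/-- The window of three tiles at the tile `k`. -/
def tvw (J k : ℕ) : ℕ × ℕ × ℕ := (if k = 0 then 0 else ty J (k - 1), ty J k, ty J (k + 1))

theorem tvw_mem {J : ℕ} (hJ : 1 ≤ J) (k : ℕ) : tvw J k ∈ triples := by
  unfold tvw ty triples
  rcases k with _ | k
  · simp [hJ]
  · simp only [Nat.succ_ne_zero, if_false, Nat.add_sub_cancel, List.mem_cons, Prod.mk.injEq,
      List.not_mem_nil, or_false]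
    split_ifs <;> simp <;> omega

/-- The pair of tiles at the tile `k`. -/
def tvp (J k : ℕ) : ℕ × ℕ := (if k = 0 then 0 else ty J (k - 1), ty J k)

theorem tvp_mem {J : ℕ} (hJ : 1 ≤ J) (k : ℕ) :
    tvp J k ∈ [(0, 0), (0, 1), (1, 1), (1, 2), (2, 3), (3, 4), (4, 4)] := by
  unfold tvp ty
  rcases k with _ | k
  · simp
  · simp only [Nat.succ_ne_zero, if_false, Nat.add_sub_cancel, List.mem_cons, Prod.mk.injEq,
      List.not_mem_nil, or_false]
    split_ifs <;> simp <;> omega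

theorem tvp_succ_mem {J : ℕ} (hJ : 1 ≤ J) (k : ℕ) : tvp J (k + 1) ∈ pairs := by
  unfold tvp ty pairs
  simp only [Nat.succ_ne_zero, if_false, Nat.add_sub_cancel, List.mem_cons, Prod.mk.injEq,
    List.not_mem_nil, or_false]
  split_ifs <;> simp <;> omega

theorem tvp_succ_ne (J k : ℕ) : tvp J (k + 1) ≠ (0, 0) := by
  unfold tvp ty
  simp only [Nat.succ_ne_zero, if_false, Nat.add_sub_cancel, ne_eq, Prod.mk.injEq]
  split_ifs <;> simp

/-- The facts about a dart. -/
theorem tv_dart (hD : D.check = true) {J : ℕ} (hJ : 1 ≤ J) {k v : ℕ} {y : Letter}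
    {δ v' : ℕ} {κ : ℤ} (h : (D.tl (ty J k)).look v y = some (δ, v', κ)) :
    δ ≤ 2 ∧ 1 ≤ k + δ ∧
      (D.tl (ty J (k + δ - 1))).look v' (flip y) = some (2 - δ, v, -κ) := by
  have hS : D.checkSymm = true := by
    simp only [check, Bool.and_eq_true] at hD
    tauto
  simp only [checkSymm, Bool.and_eq_true] at hS
  obtain ⟨⟨h1, h2⟩, -⟩ := hS
  rw [List.all_eq_true] at h1
  have h3 := tv_allDarts (h1 (tvw J k) (tvw_mem hJ k)) h
  simp only [Bool.and_eq_true, decide_eq_true_eq, beq_iff_eq] at h3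
  obtain ⟨⟨h4, -⟩, h6⟩ := h3
  have h7 : 1 ≤ k + δ := by
    rcases k with _ | k
    · have h8 : ty J 0 = 0 := by simp [ty]
      rw [h8] at h
      have := tv_allDarts h2 h
      simp only [decide_eq_true_eq] at this
      omega
    · omega
  refine ⟨h4, h7, ?_⟩
  have h8 : tgt (tvw J k) δ = ty J (k + δ - 1) := by
    unfold tgt tvw
    have : δ = 0 ∨ δ = 1 ∨ δ = 2 := by omega
    rcases this with rfl | rfl | rfl
    · simp only [if_true, Nat.add_zero]
      rw [if_neg (by omega)]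
    · simp
    · simp
  rw [h8] at h6
  exact h6

/-! ### The values -/

/-- The values at the vertices of a tile, along the tree. -/
noncomputable def valIn (τ : ℕ) (R : E D.l D.m D.n) : ℕ → ℕ → E D.l D.m D.n
  | 0, _ => R
  | f + 1, v => valIn τ R f ((D.tl τ).vpr v).1 * eval D.l D.m D.n [((D.tl τ).vpr v).2] *
      (genB D.l D.m D.n ^ D.n) ^ (-(D.tl τ).vhgt ((D.tl τ).vpr v).1 ((D.tl τ).vpr v).2)

/-- The values at the vertices of a tile. -/
noncomputable def valV (τ : ℕ) (R : E D.l D.m D.n) (v : ℕ) : E D.l D.m D.n :=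
  D.valIn τ R ((D.tl τ).rk.getD v 0) v

/-- The values at the roots. -/
noncomputable def rootv (J : ℕ) : ℕ → E D.l D.m D.n
  | 0 => 1
  | k + 1 => D.valV (ty J k) (rootv J k) ((D.tl (ty J (k + 1))).vpr (D.tl (ty J (k + 1))).rt).1 *
      eval D.l D.m D.n [((D.tl (ty J (k + 1))).vpr (D.tl (ty J (k + 1))).rt).2] *
      (genB D.l D.m D.n ^ D.n) ^ (-(D.tl (ty J k)).vhgt
        ((D.tl (ty J (k + 1))).vpr (D.tl (ty J (k + 1))).rt).1
        ((D.tl (ty J (k + 1))).vpr (D.tl (ty J (k + 1))).rt).2)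

/-- The section. -/
noncomputable def vl (J : ℕ) (x : ℕ × ℕ) : E D.l D.m D.n :=
  D.valV (ty J x.1) (D.rootv J x.1) x.2

theorem tv_ty_lt (J k : ℕ) : ty J k < 5 := by
  unfold ty
  split_ifs <;> omega

theorem tv_par (hD : D.check = true) {τ v : ℕ} (hτ : τ < 5) (hv : v < (D.tl τ).nv)
    (hr : v ≠ (D.tl τ).rt) :
    (D.tl τ).rk.getD v 0 = (D.tl τ).rk.getD ((D.tl τ).vpr v).1 0 + 1 ∧
    ∃ κ, (D.tl τ).look ((D.tl τ).vpr v).1 ((D.tl τ).vpr v).2 = some (1, v, κ) := by
  have hS : D.checkPar = true := by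
    simp only [check, Bool.and_eq_true] at hD
    tauto
  simp only [checkPar, Bool.and_eq_true] at hS
  obtain ⟨h1, -⟩ := hS
  rw [List.all_eq_true] at h1
  have h2 := h1 τ (List.mem_range.2 hτ)
  rw [Bool.and_eq_true, List.all_eq_true] at h2
  have h3 := h2.2 v (List.mem_range.2 hv)
  rw [Bool.or_eq_true] at h3
  rcases h3 with h3 | h3
  · simp only [decide_eq_true_eq] at h3
    exact absurd h3 hr
  · change (decide _ && decide _ && _) = true at h3
    rw [Bool.and_eq_true, Bool.and_eq_true] at h3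
    obtain ⟨⟨-, h4⟩, h5⟩ := h3
    refine ⟨of_decide_eq_true h4, ?_⟩
    change (match (D.tl τ).look ((D.tl τ).vpr v).1 ((D.tl τ).vpr v).2 with
      | some (δ, v'', _) => decide (δ = 1) && decide (v'' = v)
      | none => false) = true at h5
    split at h5
    · rename_i δ v'' κ heq
      simp only [Bool.and_eq_true, decide_eq_true_eq] at h5
      obtain ⟨rfl, rfl⟩ := h5
      exact ⟨κ, heq⟩
    · cases h5

theorem tv_root (hD : D.check = true) {τ : ℕ} (hτ : τ < 5) :
    (D.tl τ).rk.getD (D.tl τ).rt 0 = 0 := by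
  have hS : D.checkPar = true := by
    simp only [check, Bool.and_eq_true] at hD
    tauto
  simp only [checkPar, Bool.and_eq_true] at hS
  obtain ⟨h1, -⟩ := hS
  rw [List.all_eq_true] at h1
  have h2 := h1 τ (List.mem_range.2 hτ)
  rw [Bool.and_eq_true, Bool.and_eq_true] at h2
  exact of_decide_eq_true h2.1.2

theorem tv_rootpar (hD : D.check = true) {p : ℕ × ℕ} (hp : p ∈ pairs) :
    ∃ κ, (D.tl p.1).look ((D.tl p.2).vpr (D.tl p.2).rt).1 ((D.tl p.2).vpr (D.tl p.2).rt).2 =
      some (2, (D.tl p.2).rt, κ) := by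
  have hS : D.checkPar = true := by
    simp only [check, Bool.and_eq_true] at hD
    tauto
  simp only [checkPar, Bool.and_eq_true] at hS
  obtain ⟨-, h1⟩ := hS
  rw [List.all_eq_true] at h1
  have h2 := h1 p hp
  change (match (D.tl p.1).look ((D.tl p.2).vpr (D.tl p.2).rt).1
    ((D.tl p.2).vpr (D.tl p.2).rt).2 with
      | some (δ, v'', _) => decide (δ = 2) && decide (v'' = (D.tl p.2).rt)
      | none => false) = true at h2
  split at h2
  · rename_i δ v'' κ heq
    simp only [Bool.and_eq_true, decide_eq_true_eq] at h2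
    obtain ⟨h3, h4⟩ := h2
    rw [h3, h4] at heq
    exact ⟨κ, heq⟩
  · cases h2

theorem tv_mul_zpow_move {l m n : ℕ} {a b g : E l m n} {κ : ℤ}
    (h : b = a * g * (genB l m n ^ n) ^ (-κ)) : a * g = b * (genB l m n ^ n) ^ κ := by
  rw [h, mul_assoc (a * g), ← zpow_add, neg_add_cancel, zpow_zero, mul_one]

/-- The darts of the tree. -/
theorem tv_tree_good (hD : D.check = true) (J k : ℕ) {v : ℕ} (hv : v < (D.tl (ty J k)).nv)
    (hr : v ≠ (D.tl (ty J k)).rt) {κ : ℤ}
    (hκ : (D.tl (ty J k)).look ((D.tl (ty J k)).vpr v).1 ((D.tl (ty J k)).vpr v).2 =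
      some (1, v, κ)) :
    D.vl J (k, ((D.tl (ty J k)).vpr v).1) * eval D.l D.m D.n [((D.tl (ty J k)).vpr v).2] =
      D.vl J (k, v) * (genB D.l D.m D.n ^ D.n) ^ κ := by
  apply tv_mul_zpow_move
  obtain ⟨h1, -⟩ := D.tv_par hD (tv_ty_lt J k) hv hr
  change D.valIn _ _ _ _ = D.valIn _ _ _ _ * _ * _
  rw [h1, valIn, Tile.vhgt_eq hκ]

/-- The darts to the roots. -/
theorem tv_root_good (hD : D.check = true) (J k : ℕ) {κ : ℤ}
    (hκ : (D.tl (ty J k)).look ((D.tl (ty J (k + 1))).vpr (D.tl (ty J (k + 1))).rt).1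
      ((D.tl (ty J (k + 1))).vpr (D.tl (ty J (k + 1))).rt).2 =
      some (2, (D.tl (ty J (k + 1))).rt, κ)) :
    D.vl J (k, ((D.tl (ty J (k + 1))).vpr (D.tl (ty J (k + 1))).rt).1) *
      eval D.l D.m D.n [((D.tl (ty J (k + 1))).vpr (D.tl (ty J (k + 1))).rt).2] =
      D.vl J (k + 1, (D.tl (ty J (k + 1))).rt) * (genB D.l D.m D.n ^ D.n) ^ κ := by
  apply tv_mul_zpow_move
  have h1 := D.tv_root hD (tv_ty_lt J (k + 1))
  have h2 : D.vl J (k + 1, (D.tl (ty J (k + 1))).rt) = D.rootv J (k + 1) := by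
    change D.valIn _ _ _ _ = _
    rw [h1, valIn]
  rw [h2, rootv, Tile.vhgt_eq hκ]
  rfl

/-- The reverse of a good dart is good. -/
theorem tv_good_rev {J : ℕ} {k v : ℕ} {y : Letter} {x' : ℕ × ℕ} {κ : ℤ}
    (h2 : D.vl J x' * eval D.l D.m D.n [flip y] =
      D.vl J (k, v) * (genB D.l D.m D.n ^ D.n) ^ (-κ)) :
    D.vl J (k, v) * eval D.l D.m D.n [y] =
      D.vl J x' * (genB D.l D.m D.n ^ D.n) ^ κ := by
  have h3 : D.vl J (k, v) = D.vl J x' * eval D.l D.m D.n [flip y] *
      (genB D.l D.m D.n ^ D.n) ^ κ := by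
    rw [h2, mul_assoc, ← zpow_add, neg_add_cancel, zpow_zero, mul_one]
  rw [h3, eval_flip, mul_assoc _ (_ ^ κ), zpow_comm, ← mul_assoc, inv_mul_cancel_right]

/-! ### Windows of two tiles -/

/-- The vertices of the window. -/
def wemb (k : ℕ) (x : Bool × ℕ) : ℕ × ℕ := (if x.1 then k else k - 1, x.2)

/-- The vertices of the previous tile are there only for `k ≥ 1`. -/
def wok (k : ℕ) (x : Bool × ℕ) : Prop := x.1 = true ∨ 1 ≤ k

theorem tv_t2_eq {J k : ℕ} {x : Bool × ℕ} (hx : wok k x) :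
    D.t2 (tvp J k) x.1 = D.tl (ty J (wemb k x).1) := by
  obtain ⟨b, v⟩ := x
  unfold t2 tvp wemb
  cases b
  · rcases hx with hx | hx
    · cases hx
    · simp only [Bool.false_eq_true, if_false]
      rw [if_neg (by omega)]
  · rfl

theorem tv_step2_emb (hD : D.check = true) {J : ℕ} (hJ : 1 ≤ J) {k : ℕ} {x x' : Bool × ℕ}
    {y : Letter} {κ : ℤ} (hx : wok k x) (h : D.step2 (tvp J k) x y = some (x', κ)) :
    wok k x' ∧ ∃ δ, (D.tl (ty J (wemb k x).1)).look x.2 y = some (δ, x'.2, κ) ∧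
      (wemb k x').1 = (wemb k x).1 + δ - 1 ∧ (x.1 = false → x'.1 = false → δ = 1) ∧
      (x.1 = true → x'.1 = true → δ = 1) ∧ (x.1 = false → x'.1 = true → δ = 2) ∧
      (x.1 = true → x'.1 = false → δ = 0) := by
  unfold step2 at h
  rw [D.tv_t2_eq hx] at h
  split at h
  · rename_i δ v' κ' heq
    obtain ⟨b, v⟩ := x
    have hf := D.tv_dart hD hJ heq
    split_ifs at h with h1 h2 h3
    · simp only [Option.some.injEq, Prod.mk.injEq] at h
      obtain ⟨rfl, rfl⟩ := h
      refine ⟨hx, δ, heq, ?_, ?_⟩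
      · simp only [wemb, h1]; omega
      · subst h1
        cases b <;> simp
    · simp only [Option.some.injEq, Prod.mk.injEq] at h
      obtain ⟨rfl, rfl⟩ := h
      obtain ⟨h2, h3⟩ := h2
      simp only at h3
      subst h3
      refine ⟨Or.inl rfl, δ, heq, ?_, ?_⟩
      · rcases hx with hx | hx
        · cases hx
        · simp only [wemb, h2, Bool.false_eq_true, if_true, if_false]; omega
      · subst h2; simp
    · simp only [Option.some.injEq, Prod.mk.injEq] at h
      obtain ⟨rfl, rfl⟩ := h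
      obtain ⟨h3, h4⟩ := h3
      simp only at h4
      subst h4
      have h5 := hf.2.1
      simp only [wemb, if_true] at h5
      refine ⟨Or.inr (by omega), δ, heq, ?_, ?_⟩
      · simp only [wemb, h3, Bool.false_eq_true, if_true, if_false]; omega
      · subst h3; simp
  · cases h

/-- Steps in the window can be reversed. -/
theorem tv_step2_rev (hD : D.check = true) {J : ℕ} (hJ : 1 ≤ J) {k : ℕ} {x x' : Bool × ℕ}
    {y : Letter} {κ : ℤ} (hx : wok k x) (h : D.step2 (tvp J k) x y = some (x', κ)) :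
    D.step2 (tvp J k) x' (flip y) = some (x, -κ) := by
  obtain ⟨hx', δ, h1, h2, h3, h4, h5, h6⟩ := D.tv_step2_emb hD hJ hx h
  obtain ⟨h7, h8, h9⟩ := D.tv_dart hD hJ h1
  rw [← h2] at h9
  unfold step2
  rw [D.tv_t2_eq hx', h9]
  obtain ⟨b, v⟩ := x
  obtain ⟨b', v'⟩ := x'
  simp only at h3 h4 h5 h6
  cases b <;> cases b'
  · have := h3 rfl rfl
    subst this
    simp
  · have := h5 rfl rfl
    subst this
    simp
  · have := h6 rfl rfl
    subst this
    simp
  · have := h4 rfl rfl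
    subst this
    simp

/-- The darts in the list are good. -/
def TInv (J k : ℕ) (L : List ℕ) : Prop :=
  ∀ x y, wok k x → code x y ∈ L → ∀ x' κ, D.step2 (tvp J k) x y = some (x', κ) →
    D.vl J (wemb k x) * eval D.l D.m D.n [y] =
      D.vl J (wemb k x') * (genB D.l D.m D.n ^ D.n) ^ κ

/-- The darts in the tile `k`, and between it and the previous one, are good. -/
def GoodTile (J k : ℕ) : Prop :=
  ∀ v y δ v' κ, (D.tl (ty J k)).look v y = some (δ, v', κ) → δ ≠ 2 →
    D.vl J (k, v) * eval D.l D.m D.n [y] =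
      D.vl J (k + δ - 1, v') * (genB D.l D.m D.n ^ D.n) ^ κ

theorem tv_known (hD : D.check = true) {J : ℕ} (hJ : 1 ≤ J) {k : ℕ} {L : List ℕ}
    (hL : D.TInv J k L) (hk : 1 ≤ k → D.GoodTile J (k - 1)) {x : Bool × ℕ} {y : Letter}
    (hx : wok k x) (h : D.known (tvp J k) L x y = true) :
    ∃ x' κ, D.step2 (tvp J k) x y = some (x', κ) ∧
      D.vl J (wemb k x) * eval D.l D.m D.n [y] =
        D.vl J (wemb k x') * (genB D.l D.m D.n ^ D.n) ^ κ := by
  unfold known at h
  split at h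
  · rename_i x' κ heq
    refine ⟨x', κ, heq, ?_⟩
    simp only [Bool.or_eq_true, Bool.and_eq_true, Bool.not_eq_true', List.elem_eq_mem,
      decide_eq_true_eq] at h
    obtain ⟨hx', δ, h1, h2, h3, -⟩ := D.tv_step2_emb hD hJ hx heq
    rcases h with (⟨h4, h5⟩ | h4) | h4
    · have h6 := h3 h4 h5
      subst h6
      have hk1 : 1 ≤ k := by
        rcases hx with hx | hx
        · rw [h4] at hx; cases hx
        · exact hx
      obtain ⟨b, v⟩ := x
      obtain ⟨b', v'⟩ := x'
      simp only at h4 h5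
      subst h4 h5
      have := hk hk1 v y 1 v' κ h1 (by norm_num)
      exact this
    · exact hL x y hx h4 x' κ heq
    · have h5 := hL x' (flip y) hx' h4 x (-κ) (D.tv_step2_rev hD hJ hx heq)
      exact D.tv_good_rev (k := (wemb k x).1) (v := x.2) h5
  · cases h

theorem tv_runKnown (hD : D.check = true) {J : ℕ} (hJ : 1 ≤ J) {k : ℕ} {L : List ℕ}
    (hL : D.TInv J k L) (hk : 1 ≤ k → D.GoodTile J (k - 1)) {s : Bool × ℕ} (j : ℕ) :
    ∀ {x : Bool × ℕ} {y : Letter} {κ : ℤ}, wok k x →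
      D.runKnown (tvp J k) L s j x y κ = true →
      D.vl J (wemb k x) * eval D.l D.m D.n (fw y j) =
        D.vl J (wemb k s) * (genB D.l D.m D.n ^ D.n) ^ κ := by
  induction j with
  | zero =>
    intro x y κ hx h
    simp only [runKnown, Bool.and_eq_true, beq_iff_eq, decide_eq_true_eq] at h
    obtain ⟨rfl, rfl⟩ := h
    simp [fw, eval_nil]
  | succ j ih =>
    intro x y κ hx h
    rw [runKnown, Bool.and_eq_true] at h
    obtain ⟨h1, h2⟩ := h
    obtain ⟨x', κ', h3, h4⟩ := D.tv_known hD hJ hL hk hx h1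
    rw [h3] at h2
    have h5 := ih (D.tv_step2_emb hD hJ hx h3).1 h2
    rw [fw, eval_cons, ← mul_assoc, h4, mul_assoc, zpow_comm, ← mul_assoc, h5, mul_assoc,
      ← zpow_add, sub_add_cancel]

theorem tv_deduce (hD : D.check = true) {J : ℕ} (hJ : 1 ≤ J)
    (hl : 2 ≤ D.l) (hm : 2 ≤ D.m) (hn : 2 ≤ D.n) {k : ℕ} {L : List ℕ}
    (hL : D.TInv J k L) (hk : 1 ≤ k → D.GoodTile J (k - 1)) {x : Bool × ℕ} {y : Letter}
    (h : D.deduce (tvp J k) L x y = true) : D.TInv J k (code x y :: L) := by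
  intro x1 y1 hx1 hc
  rw [List.mem_cons] at hc
  rcases hc with hc | hc
  · obtain ⟨rfl, rfl⟩ := tv_code_inj hc
    intro x' κ hs
    unfold deduce at h
    rw [hs] at h
    simp only at h
    have h1 := D.tv_runKnown hD hJ hL hk _ (D.tv_step2_emb hD hJ hx1 hs).1 h
    have h2 : 1 ≤ fper D.l D.m D.n y1 := by
      obtain ⟨i, b⟩ := y1
      fin_cases i <;> cases b <;> simp [fper] <;> omega
    have h3 : eval D.l D.m D.n [y1] *
        eval D.l D.m D.n (fw (nxt y1) (fper D.l D.m D.n y1 - 1)) =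
        (genB D.l D.m D.n ^ D.n) ^ fht y1 := by
      rw [← eval_face D.l D.m D.n y1, ← eval_cons]
      conv_rhs => rw [← Nat.sub_add_cancel h2, fw]
    have h4 : eval D.l D.m D.n (fw (nxt y1) (fper D.l D.m D.n y1 - 1)) =
        (eval D.l D.m D.n [y1])⁻¹ * (genB D.l D.m D.n ^ D.n) ^ fht y1 := by
      rw [← h3, inv_mul_cancel_left]
    rw [h4] at h1
    have h6 : D.vl J (wemb k x') * ((eval D.l D.m D.n [y1])⁻¹ *
        (genB D.l D.m D.n ^ D.n) ^ fht y1) * (genB D.l D.m D.n ^ D.n) ^ (-fht y1) *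
        eval D.l D.m D.n [y1] = D.vl J (wemb k x') := by
      rw [← mul_assoc, mul_assoc _ (_ ^ fht y1), ← zpow_add, add_neg_cancel, zpow_zero, mul_one,
        inv_mul_cancel_right]
    have h5 : D.vl J (wemb k x') = D.vl J (wemb k x1) * eval D.l D.m D.n [y1] *
        (genB D.l D.m D.n ^ D.n) ^ (-κ) := by
      rw [← h6, h1, mul_assoc (D.vl J (wemb k x1)), ← zpow_add, mul_assoc, zpow_comm,
        ← mul_assoc]
      congr 2
      ring
    exact tv_mul_zpow_move h5
  · exact hL x1 y1 hx1 hc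

theorem tv_deduceAll (hD : D.check = true) {J : ℕ} (hJ : 1 ≤ J)
    (hl : 2 ≤ D.l) (hm : 2 ≤ D.m) (hn : 2 ≤ D.n) {k : ℕ} (hk : 1 ≤ k → D.GoodTile J (k - 1))
    (ds : List (Bool × ℕ × Letter)) : ∀ {L L' : List ℕ}, D.TInv J k L →
      D.deduceAll (tvp J k) L ds = some L' → D.TInv J k L' := by
  induction ds with
  | nil =>
    intro L L' hL h
    rw [deduceAll, Option.some.injEq] at h
    rw [← h]
    exact hL
  | cons d ds ih =>
    intro L L' hL h
    obtain ⟨b, v, y⟩ := d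
    rw [deduceAll] at h
    split_ifs at h with h1
    exact ih (D.tv_deduce hD hJ hl hm hn hL hk h1) h

theorem tv_treeDarts (hD : D.check = true) {J : ℕ} (hJ : 1 ≤ J) (k : ℕ) :
    D.TInv J k (D.treeDarts (tvp J k) (decide (tvp J k ≠ (0, 0)))) := by
  intro x y hx hc x' κ hs
  unfold treeDarts at hc
  rw [List.mem_append] at hc
  obtain ⟨-, δ, h1, h2, -⟩ := D.tv_step2_emb hD hJ hx hs
  rcases hc with hc | hc
  · rw [List.mem_map] at hc
    obtain ⟨v, hv, hc⟩ := hc
    rw [List.mem_filter, List.mem_range] at hv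
    obtain ⟨hv, hv2⟩ := hv
    simp only [Bool.not_eq_true', beq_eq_false_iff_ne, ne_eq] at hv2
    change code (true, ((D.tl (ty J k)).vpr v).1) ((D.tl (ty J k)).vpr v).2 = code x y at hc
    obtain ⟨rfl, rfl⟩ := tv_code_inj hc
    change v < (D.tl (ty J k)).nv at hv
    change v ≠ (D.tl (ty J k)).rt at hv2
    obtain ⟨-, κ', h3⟩ := D.tv_par hD (tv_ty_lt J k) hv hv2
    have h4 := D.tv_tree_good hD J k hv hv2 h3
    simp only [wemb, if_true] at h1 h2
    rw [h3] at h1
    simp only [Option.some.injEq, Prod.mk.injEq] at h1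
    obtain ⟨rfl, rfl, rfl⟩ := h1
    have h5 : wemb k x' = (k, x'.2) := by
      unfold wemb
      rw [h2]
      rfl
    rw [h5]
    exact h4
  · rcases k with _ | k
    · simp [tvp, ty] at hc
    · rw [if_pos (by simpa using tvp_succ_ne J k)] at hc
      change code x y ∈ [code (false, ((D.tl (ty J (k + 1))).vpr (D.tl (ty J (k + 1))).rt).1)
        ((D.tl (ty J (k + 1))).vpr (D.tl (ty J (k + 1))).rt).2] at hc
      rw [List.mem_singleton] at hc
      obtain ⟨rfl, rfl⟩ := tv_code_inj hc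
      obtain ⟨κ', h3⟩ := D.tv_rootpar hD (tvp_succ_mem hJ k)
      simp only [tvp, Nat.succ_ne_zero, if_false, Nat.add_sub_cancel] at h3
      have h4 := D.tv_root_good hD J k h3
      simp only [wemb, Bool.false_eq_true, if_false, Nat.add_sub_cancel] at h1 h2
      rw [h3] at h1
      simp only [Option.some.injEq, Prod.mk.injEq] at h1
      obtain ⟨rfl, h6, rfl⟩ := h1
      have h5 : wemb (k + 1) x' = (k + 1, (D.tl (ty J (k + 1))).rt) := by
        rw [h6]
        refine Prod.ext ?_ rfl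
        simp only [wemb, Nat.add_sub_cancel]
        exact h2
      rw [h5]
      exact h4

theorem goodTile_step (hD : D.check = true) {J : ℕ} (hJ : 1 ≤ J)
    (hl : 2 ≤ D.l) (hm : 2 ≤ D.m) (hn : 2 ≤ D.n) (k : ℕ)
    (hk : 1 ≤ k → D.GoodTile J (k - 1)) : D.GoodTile J k := by
  have hV : D.checkVal = true := by
    simp only [check, Bool.and_eq_true] at hD
    tauto
  rw [checkVal, Bool.and_eq_true] at hV
  obtain ⟨hV, -⟩ := hV
  rw [List.all_eq_true] at hV
  have h1 := hV (tvp J k) (tvp_mem hJ k)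
  split at h1
  · rename_i L heq
    have hL := D.tv_deduceAll hD hJ hl hm hn hk _ (D.tv_treeDarts hD hJ k) heq
    intro v y δ v' κ hv hδ
    have h2 := tv_allDarts h1 hv
    rw [Bool.or_eq_true] at h2
    rcases h2 with h2 | h2
    · exact absurd (of_decide_eq_true h2) hδ
    · have hx : wok k (true, v) := Or.inl rfl
      obtain ⟨x', κ', h3, h4⟩ := D.tv_known hD hJ hL hk hx h2
      obtain ⟨-, δ', h5, h6, -⟩ := D.tv_step2_emb hD hJ hx h3
      simp only [wemb, if_true] at h5 h6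
      rw [hv] at h5
      simp only [Option.some.injEq, Prod.mk.injEq] at h5
      obtain ⟨rfl, rfl, rfl⟩ := h5
      have h7 : wemb k x' = (k + δ - 1, x'.2) := Prod.ext h6 rfl
      rw [h7] at h4
      exact h4
  · cases h1

theorem goodTile (hD : D.check = true) {J : ℕ} (hJ : 1 ≤ J)
    (hl : 2 ≤ D.l) (hm : 2 ≤ D.m) (hn : 2 ≤ D.n) (k : ℕ) : D.GoodTile J k := by
  induction k with
  | zero => exact D.goodTile_step hD hJ hl hm hn 0 (by omega)
  | succ k ih => exact D.goodTile_step hD hJ hl hm hn (k + 1) (fun _ => ih)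

theorem good_all (hD : D.check = true) {J : ℕ} (hJ : 1 ≤ J)
    (hl : 2 ≤ D.l) (hm : 2 ≤ D.m) (hn : 2 ≤ D.n) {k v : ℕ} {y : Letter} {δ v' : ℕ} {κ : ℤ}
    (h : (D.tl (ty J k)).look v y = some (δ, v', κ)) :
    D.vl J (k, v) * eval D.l D.m D.n [y] =
      D.vl J (k + δ - 1, v') * (genB D.l D.m D.n ^ D.n) ^ κ := by
  by_cases hδ : δ = 2
  · subst hδ
    obtain ⟨-, -, h3⟩ := D.tv_dart hD hJ h
    apply D.tv_good_rev
    have h4 := D.goodTile hD hJ hl hm hn (k + 2 - 1) v' (flip y) (2 - 2) v (-κ) h3 (by norm_num)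
    exact h4
  · exact D.goodTile hD hJ hl hm hn k v y δ v' κ h hδ

variable {D} (hD : D.check = true) {J : ℕ} (hJ : 1 ≤ J)

theorem exists_val (hl : 2 ≤ D.l) (hm : 2 ≤ D.m) (hn : 2 ≤ D.n) :
    ∃ val : ℕ × ℕ → E D.l D.m D.n, VVal D.l D.m D.n (D.sys hD hJ).mv val (D.kp J) := by
  refine ⟨D.vl J, DSys.vval ?_⟩
  intro x y x' h
  change D.step J x y = some x' at h
  unfold step at h
  unfold kp
  split at h
  · rename_i δ v' κ heq
    rw [Option.some.injEq] at h
    rw [← h]
    exact D.good_all hD hJ hl hm hn (k := x.1) (v := x.2) heq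
  · cases h

end TileData

end Pool.Agent.SLE
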