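import Pool.Agent.SLE.CapClosed
import Pool.Agent.SLE.CapTight
import Pool.Agent.SLE.CapVal
import Pool.Agent.SLE.Diverge

/-!
# Scenario A: two zones, the first letter decides
-/

namespace Pool.Agent.SLE

open List G3

namespace VLad

variable {l m n : ℕ} (V : VLad l m n)

/-- The numerical conditions. The left line is one step ahead at the rung `0`. In the first zone
(rungs `0, …, K1`) one can only cross from right to left, in the second zone only from left to
right. -/
structure ScenA (K1 K2 k' B : ℕ) : Prop where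
  zone1 : ∀ k ≤ K1, V.off 1 k = 0 ∨ V.off 1 k = 1
  zone2 : ∀ k, K1 < k → V.off 1 k = 0 ∨ V.off 1 k = -1
  offK1 : V.off 1 K1 = 1
  offk' : V.off 1 k' = -1
  offB : V.off 1 B = 1
  B1 : 1 ≤ V.pos true B
  BK : B ≤ K1
  Kk : K1 < k'
  k2 : k' ≤ K2
  h1 : ∀ k ≤ K1, V.off 1 k = 1 → V.hgt k ≤ V.hgt K1
  h1s : ∀ k, V.pos true k < V.pos true B → V.off 1 k = 1 → V.hgt k < V.hgt K1
  h2 : ∃ d : ℤ, 0 ≤ d ∧ ∀ k, K1 < k → V.off 1 k = -1 → V.hgt K1 ≤ V.hgt k + d
  height : V.hgt k' = V.hgt K2 - V.hgt K1

/-- The word along the line `σ` from the vertex `i` up to the vertex `i + k`. -/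
def lw (σ : Bool) : ℕ → ℕ → List Letter
  | _, 0 => []
  | i, k + 1 => V.u σ i :: lw σ (i + 1) k

theorem length_lw (σ : Bool) (i k : ℕ) : (V.lw σ i k).length = k := by
  induction k generalizing i with
  | zero => rfl
  | succ k ih => rw [lw, List.length_cons, ih]

variable (hG : V.Good)

theorem cadj {x x' : Bool × ℕ} {y : Letter} (h : V.Adj x y x') :
    (V.csys hG).mv (Sum.inl x) y = some (Sum.inl x') :=
  (V.csys hG).mv_iff.2 (Att.Adj.old h)

theorem tight_lw (o0 : ℤ) (σ : Bool) (i k : ℕ) :
    TightRun (V.csys hG).mv (V.cF o0) (Sum.inl (σ, i)) (V.lw σ i k) (Sum.inl (σ, i + k)) := by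
  induction k generalizing i with
  | zero => rfl
  | succ k ih =>
    refine ⟨Sum.inl (σ, i + 1), V.cadj hG (Adj.up σ i), ?_, ?_⟩
    · change ((i + 1 : ℕ) : ℤ) + _ = (i : ℤ) + _ + 1
      push_cast
      ring
    · have h := ih (i + 1)
      rw [show i + 1 + k = i + (k + 1) by ring] at h
      exact h

theorem kap_lw {κ : V.CX → Letter → ℤ} (hκ : ∀ σ i, κ (Sum.inl (σ, i)) (V.u σ i) = 0)
    (σ : Bool) (i k : ℕ) : kap (V.csys hG).mv κ (Sum.inl (σ, i)) (V.lw σ i k) = 0 := by
  induction k generalizing i with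
  | zero => rfl
  | succ k ih =>
    rw [lw, kap_cons (V.cadj hG (Adj.up σ i)), hκ, ih, add_zero]

/-- The vertices of the line `σ` and the middle vertices of the even caps at this line. -/
def Reg (σ : Bool) : V.CX → Prop := fun x =>
  (∃ j, x = Sum.inl (σ, j)) ∨ ∃ (j : ℕ) (h : 0 < V.capR σ j), V.Even σ j ∧ V.capR σ j = 2 ∧
    x = Sum.inr (⟨(σ, j), h⟩, 3)

theorem cF_mid (o0 : ℤ) {σ : Bool} {j : ℕ} (h : 0 < V.capR σ j) (hE : V.Even σ j)
    (hr : V.capR σ j = 2) :
    V.cF o0 (Sum.inr (⟨(σ, j), h⟩, 3)) = j + 1 + (if σ then 0 else o0) := by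
  have h4 := hE.2
  rw [hr] at h4
  change (j : ℤ) + _ + (if σ then (3 : ℤ) - psz l n (V.u σ j) + V.capR σ j
        else 2 * V.capR σ j - 3) ⊔ 0 = _
  rw [hr, ← h4]
  cases σ
  · simp only [Bool.false_eq_true, if_false]
    norm_num
    ring
  · simp only [if_true]
    norm_num

/-- The numbers of the scenario. -/
theorem ScenA.num {K1 K2 k' B : ℕ} (hS : V.ScenA K1 K2 k' B) :
    (∀ k, |V.off 1 k| ≤ 1) ∧ V.pos false K1 = V.pos true K1 ∧ V.pos false B = V.pos true B ∧
    V.pos true B ≤ V.pos true K1 ∧ (∀ k, K1 < k → V.pos true K1 < V.pos true k) := by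
  refine ⟨fun k => ?_, ?_, ?_, V.pos_mono true hS.BK, fun k hk => ?_⟩
  · rcases le_or_gt k K1 with h | h
    · rcases hS.zone1 k h with h | h <;> rw [h] <;> decide
    · rcases hS.zone2 k h with h | h <;> rw [h] <;> decide
  · have := hS.offK1
    unfold off at this
    omega
  · have := hS.offB
    unfold off at this
    omega
  · have h1 := hS.offK1
    have h2 := hS.zone2 (K1 + 1) (Nat.lt_succ_self _)
    have h3 := V.pos_mono false (show K1 ≤ K1 + 1 by omega)
    have h4 := V.pos_mono true (show K1 + 1 ≤ k from hk)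
    unfold off at h1 h2
    rcases h2 with h2 | h2 <;> omega

/-- The height potential. -/
def ScenA.H (K1 : ℕ) (d : ℤ) : Bool → ℕ → ℤ := fun σ i =>
  if σ then (if i ≤ V.pos true K1 then 0 else -d) else -V.hgt K1

theorem ScenA.hcond {K1 K2 k' B : ℕ} (hS : V.ScenA K1 K2 k' B)
    (hE : ∀ σ i, V.Even σ i → (V.u σ i).1 = 0) {d : ℤ} (hd : 0 ≤ d)
    (h2 : ∀ k, K1 < k → V.off 1 k = -1 → V.hgt K1 ≤ V.hgt k + d) :
    V.HCond 1 1 (ScenA.H V K1 d) := by
  have hmono : ∀ σ i i', i ≤ i' → ScenA.H V K1 d σ i' ≤ ScenA.H V K1 d σ i := by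
    intro σ i i' hii
    unfold ScenA.H
    cases σ
    · simp
    · simp only [if_true]
      split_ifs <;> omega
  refine ⟨fun σ i => hmono σ i (i + 1) (Nat.le_succ i), fun σ i h => ?_, fun k hk => ?_,
    fun k hk => ?_⟩
  · have h3 : plt (V.u σ i) = (0, true) := Prod.ext (hE σ i h) rfl
    have h4 := hmono σ i (i + V.capR σ i) (Nat.le_add_right _ _)
    rw [h3]
    have h5 : fht ((0, true) : Letter) = 0 := rfl
    rw [h5, mul_zero]
    linarith
  · have hkK : k ≤ K1 := by
      by_contra hcon
      rcases hS.zone2 k (not_le.1 hcon) with h | h <;> rw [h] at hk <;> norm_num at hk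
    have h3 := hS.h1 k hkK hk
    have h4 := V.pos_mono true hkK
    unfold ScenA.H
    simp only [Bool.false_eq_true, if_false, if_true, h4]
    linarith
  · have hkK : K1 < k := by
      by_contra hcon
      rcases hS.zone1 k (not_lt.1 hcon) with h | h <;> rw [h] at hk <;> norm_num at hk
    have h3 := h2 k hkK hk
    have h4 := (ScenA.num V hS).2.2.2.2 k hkK
    unfold ScenA.H
    simp only [Bool.false_eq_true, if_false, if_true, not_le.2 h4]
    linarith

/-- **Scenario A.** The normal form of the first element follows the right line up to the rung `B`,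
the one of the second element crosses at once, and follows the left line. The even caps (if any)
are along edges with the letters `a^{±1}`. -/
theorem ScenA.diverge (hT : V.Tame) (hm : 2 ≤ m) (hyp : (1 / l + 1 / m + 1 / n : ℚ) < 1)
    {K1 K2 k' B : ℕ} (hS : V.ScenA K1 K2 k' B)
    (hE : ∀ σ i, V.Even σ i → (V.u σ i).1 = 0)
    (h0 : 0 < V.len 0 true)
    -- the vertices at the time `pos true B` are not inside an even cap
    (hB1 : ∀ i, i + 1 = V.pos true B → ¬ (V.Even true i ∧ V.capR true i = 2))
    (hB2 : ∀ i, i + 2 = V.pos false B → ¬ (V.Even false i ∧ V.capR false i = 2))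
    {lt : Letter → Letter → Prop} [IsStrictTotalOrder Letter lt]
    (hlt : lt (flip (V.c 0)) (V.u true 0))
    (hlt' : V.Even true 0 → lt (flip (V.c 0)) (flip (V.u true 0)))
    {N : ℕ} (hN : (N : ℤ) < |V.hgt B|) :
    Diverge l m n lt 1 (pairSet l m n) N := by
  obtain ⟨ho, eK1, eB, hBK, hpos⟩ := ScenA.num V hS
  obtain ⟨d, hd, h2d⟩ := hS.h2
  have hHc := ScenA.hcond V hS hE hd h2d
  set hG := hT.toGood with hGdef
  obtain ⟨val, κ, hV, hval, κup, κlr, κrl, κef, κef2, κet, κet2, hHH⟩ :=
    V.exists_cval hG hm hyp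
  have hH0 := hHH 1 1 (ScenA.H V K1 d) (by norm_num) hHc
  clear hHH
  have hfht : ∀ σ i, V.Even σ i → fht (plt (V.u σ i)) = 0 := by
    intro σ i h
    have h3 : plt (V.u σ i) = (0, true) := Prod.ext (hE σ i h) rfl
    rw [h3]
    rfl
  have hlip : ∀ x y x', (V.csys hG).mv x y = some x' → V.cF 1 x' ≤ V.cF 1 x + 1 :=
    fun x y x' h => V.cF_lip hG 1 ho x y x' ((V.csys hG).mv_iff.1 h)
  have hH : ∀ x y x', (V.csys hG).mv x y = some x' → V.cF 1 x' = V.cF 1 x + 1 →
      V.cH (ScenA.H V K1 d) x' - V.cH (ScenA.H V K1 d) x ≤ 1 * κ x y :=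
    fun x y x' h hf => hH0 x y x' ((V.csys hG).mv_iff.1 h) hf
  have hl := hT.hl
  have hn := hT.hn
  have VS : VSys l m n (V.csys hG).mv := hT.closed.vsys hl (by omega) hn
  have hgt0 : V.hgt 0 = 0 := rfl
  have hKK2 : K1 ≤ K2 := (hS.Kk.le).trans hS.k2
  -- the first word
  set w1 : List Letter := V.lw true 0 (V.pos true K1) ++
    (flip (V.c K1) :: V.lw false (V.pos false K1) (V.pos false K2 - V.pos false K1)) with hw1
  have t1a := V.tight_lw hG 1 true 0 (V.pos true K1)
  rw [Nat.zero_add] at t1a
  have t1b := V.tight_lw hG 1 false (V.pos false K1) (V.pos false K2 - V.pos false K1)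
  rw [Nat.add_sub_cancel' (V.pos_mono false hKK2)] at t1b
  have m1 : (V.csys hG).mv (Sum.inl (true, V.pos true K1)) (flip (V.c K1)) =
      some (Sum.inl (false, V.pos false K1)) := V.cadj hG (Adj.rl K1)
  have t1 : TightRun (V.csys hG).mv (V.cF 1) (Sum.inl (true, 0)) w1
      (Sum.inl (false, V.pos false K2)) := by
    rw [hw1, TightRun.append_iff]
    refine ⟨_, t1a, _, m1, ?_, t1b⟩
    change (V.pos false K1 : ℤ) + 1 = (V.pos true K1 : ℤ) + 0 + 1
    rw [eK1]
    ring
  have k1 : kap (V.csys hG).mv κ (Sum.inl (true, 0)) w1 = -V.hgt K1 := by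
    rw [hw1, kap_append t1a.spec.1, kap_cons m1, V.kap_lw hG κup, V.kap_lw hG κup, κrl]
    ring
  -- the second word
  set w2' : List Letter := V.lw false 0 (V.pos false k') ++
    (V.c k' :: V.lw true (V.pos true k') (V.pos true K2 - V.pos true k')) with hw2'
  have t2a := V.tight_lw hG 1 false 0 (V.pos false k')
  rw [Nat.zero_add] at t2a
  have t2b := V.tight_lw hG 1 true (V.pos true k') (V.pos true K2 - V.pos true k')
  rw [Nat.add_sub_cancel' (V.pos_mono true hS.k2)] at t2b
  have m2 : (V.csys hG).mv (Sum.inl (false, V.pos false k')) (V.c k') =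
      some (Sum.inl (true, V.pos true k')) := V.cadj hG (Adj.lr k')
  have m0 : (V.csys hG).mv (Sum.inl (true, 0)) (flip (V.c 0)) =
      some (Sum.inl (false, 0)) := V.cadj hG (Adj.rl 0)
  have t2' : TightRun (V.csys hG).mv (V.cF 1) (Sum.inl (false, 0)) w2'
      (Sum.inl (true, V.pos true K2)) := by
    rw [hw2', TightRun.append_iff]
    refine ⟨_, t2a, _, m2, ?_, t2b⟩
    have h3 := hS.offk'
    unfold off at h3
    change (V.pos true k' : ℤ) + 0 = (V.pos false k' : ℤ) + 1 + 1
    linarith
  have t2 : TightRun (V.csys hG).mv (V.cF 1) (Sum.inl (true, 0)) (flip (V.c 0) :: w2')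
      (Sum.inl (true, V.pos true K2)) := by
    refine ⟨_, m0, ?_, t2'⟩
    change ((0 : ℕ) : ℤ) + 1 = ((0 : ℕ) : ℤ) + 0 + 1
    norm_num
  have κ0 : κ (Sum.inl (true, 0)) (flip (V.c 0)) = 0 := by
    have h3 := κrl 0
    rw [hgt0, neg_zero] at h3
    exact h3
  have k2 : kap (V.csys hG).mv κ (Sum.inl (true, 0)) (flip (V.c 0) :: w2') = V.hgt k' := by
    rw [kap_cons m0, κ0, hw2', kap_append t2a.spec.1, kap_cons m2, V.kap_lw hG κup,
      V.kap_lw hG κup, κlr]
    ring
  refine ⟨w1, flip (V.c 0) :: w2', [V.c K2], V.pos true B, by simp, ?_,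
    fun u v hu hu' hv hv' => ?_⟩
  · have m3 : (V.csys hG).mv (Sum.inl (false, V.pos false K2)) (V.c K2) =
        some (Sum.inl (true, V.pos true K2)) := V.cadj hG (Adj.lr K2)
    have h1 : run (V.csys hG).mv (Sum.inl (true, 0)) (w1 ++ [V.c K2]) =
        some (Sum.inl (true, V.pos true K2)) := by
      rw [run_append_some]
      refine ⟨_, t1.spec.1, ?_⟩
      rw [run_cons_some]
      exact ⟨_, m3, rfl⟩
    rw [hV.eval_eq h1, hV.eval_eq t2.spec.1, kap_append t1.spec.1, kap_cons m3, k1, k2, κlr,
      hS.height, kap_nil]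
    congr 2
    ring
  · -- the first normal form
    obtain ⟨tu, lu, -⟩ := VS.normalForm hl hm hn hlip t1 hu hu'
    have ku : kap (V.csys hG).mv κ (Sum.inl (true, 0)) u = -V.hgt K1 := by
      rw [← k1]
      exact hV.kap_eq hl hm hn hyp tu.spec.1 t1.spec.1 hu'
    have au := tu.allowed hH (by
      rw [ku]
      change 1 * (-V.hgt K1) = ScenA.H V K1 d false (V.pos false K2) - ScenA.H V K1 d true 0
      unfold ScenA.H
      simp)
    have hul : V.pos true B ≤ u.length := by
      rw [lu, hw1, List.length_append, length_lw]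
      omega
    obtain ⟨p1, r1, R1, F1, kp1⟩ := au.trap (R := V.Reg true) (κ := κ) (g := fun _ => 0)
      (f := V.pos true B) (i := V.pos true B) (by
        rintro p hp hFp y p' hy hF hP
        have hy' := (V.csys hG).mv_iff.1 hy
        rcases hp with ⟨j, rfl⟩ | ⟨j, hj, hEj, hrj, rfl⟩
        · change (j : ℤ) + 0 < _ at hFp
          rcases V.tight_line hG 1 true j y p' hy' hF with ⟨rfl, rfl⟩ | ⟨hEj, rfl, ht⟩ |
            ⟨k, hk, hok, rfl, rfl⟩
          · exact ⟨Or.inl ⟨_, rfl⟩, by rw [κup]; ring⟩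
          · rcases ht with ⟨hc, rfl⟩ | ⟨hc, hc0, rfl⟩
            · exact ⟨Or.inl ⟨_, rfl⟩, by rw [κet j hEj hc, hfht true j hEj]; ring⟩
            · exact ⟨Or.inr ⟨j, hc0, hEj, hc, rfl⟩, by rw [(κet2 j hc0 hEj hc).1]; ring⟩
          · exfalso
            simp only [if_true] at hok hP
            have h3 := hS.h1s k (by rw [hk]; omega) hok
            rw [← hk, κrl] at hP
            have h4 : V.pos true k ≤ V.pos true K1 := by omega
            change ScenA.H V K1 d false (V.pos false k) - ScenA.H V K1 d true (V.pos true k) =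
              1 * (-V.hgt k) at hP
            unfold ScenA.H at hP
            simp only [Bool.false_eq_true, if_false, if_true, h4] at hP
            linarith
        · obtain ⟨rfl, rfl⟩ := V.tight_mid hG 1 true j hj hEj hrj y p' hy' hF
          exact ⟨Or.inl ⟨_, rfl⟩, by rw [(κet2 j hj hEj hrj).2, hfht true j hEj]; ring⟩)
      (Or.inl ⟨0, rfl⟩) (by
        change ((0 : ℕ) : ℤ) + 0 + _ = _
        push_cast
        ring) hul
    have hp1 : p1 = Sum.inl (true, V.pos true B) := by
      rcases R1 with ⟨j, rfl⟩ | ⟨j, hj, hEj, hrj, rfl⟩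
      · change (j : ℤ) + 0 = _ at F1
        have : j = V.pos true B := by omega
        rw [this]
      · exfalso
        rw [V.cF_mid 1 hj hEj hrj] at F1
        simp only [if_true] at F1
        exact hB1 j (by omega) ⟨hEj, hrj⟩
    subst hp1
    -- the second normal form
    obtain ⟨tv, lv, hlex⟩ := VS.normalForm hl hm hn hlip t2 hv hv'
    obtain ⟨i, hi⟩ : ∃ i, V.pos true B = i + 1 := ⟨V.pos true B - 1, by have := hS.B1; omega⟩
    cases v with
    | nil => simp at lv
    | cons y v' =>
      obtain ⟨x', hy, hF, tv'⟩ := tv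
      have hy' := (V.csys hG).mv_iff.1 hy
      have hyx : y = flip (V.c 0) ∧ x' = Sum.inl (false, 0) := by
        have hcon : ¬ lt (flip (V.c 0)) y := by
          intro hlty
          rcases hlex with h | h
          · simp only [List.cons.injEq] at h
            rw [h.1] at hlty
            exact irrefl_of lt _ hlty
          · cases h with
            | rel h => exact asymm_of lt h hlty
            | cons h => exact irrefl_of lt _ hlty
        rcases V.tight_line hG 1 true 0 y x' hy' hF with ⟨rfl, -⟩ | ⟨hE0, rfl, -⟩ |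
            ⟨k, hk, hok, rfl, rfl⟩
        · exact absurd hlt hcon
        · exact absurd (hlt' hE0) hcon
        · have hk0 : k = 0 := by
            by_contra hne
            have h3 := V.pos_mono true (show 1 ≤ k by omega)
            have h4 : V.pos true 1 = V.len 0 true := by
              change 0 + V.len 0 true = _
              omega
            omega
          subst hk0
          exact ⟨rfl, rfl⟩
      obtain ⟨rfl, rfl⟩ := hyx
      have hvl : i ≤ v'.length := by
        have h3 := V.pos_mono true (hS.BK.trans hS.Kk.le)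
        have h4 := hS.offk'
        unfold off at h4
        simp only [List.length_cons] at lv
        rw [hw2', List.length_append, length_lw, List.length_cons] at lv
        omega
      obtain ⟨p2, r2, R2, F2, kp2⟩ := tv'.allowed_true.trap (R := V.Reg false) (κ := κ)
        (g := fun _ => 0) (f := V.pos true B) (i := i) (by
          rintro p hp hFp y p' hy hF -
          have hy' := (V.csys hG).mv_iff.1 hy
          rcases hp with ⟨j, rfl⟩ | ⟨j, hj, hEj, hrj, rfl⟩
          · change (j : ℤ) + 1 < _ at hFp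
            rcases V.tight_line hG 1 false j y p' hy' hF with ⟨rfl, rfl⟩ | ⟨hEj, rfl, ht⟩ |
              ⟨k, hk, hok, rfl, rfl⟩
            · exact ⟨Or.inl ⟨_, rfl⟩, by rw [κup]; ring⟩
            · have hκ := κef j hEj
              rw [hfht false j hEj] at hκ
              rcases ht with ⟨hc, rfl⟩ | ⟨hc, hc0, rfl⟩
              · exact ⟨Or.inl ⟨_, rfl⟩, by rw [hκ]; ring⟩
              · exact ⟨Or.inr ⟨j, hc0, hEj, hc, rfl⟩, by rw [hκ]; ring⟩
            · exfalso
              simp only [Bool.false_eq_true, if_false] at hok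
              have hkK : K1 < k := by
                by_contra hcon
                rcases hS.zone1 k (not_lt.1 hcon) with h | h <;> rw [h] at hok <;>
                  norm_num at hok
              have h3 := V.pos_mono false hkK.le
              omega
          · obtain ⟨rfl, rfl⟩ := V.tight_mid hG 1 false j hj hEj hrj y p' hy' hF
            exact ⟨Or.inl ⟨_, rfl⟩, by rw [κef2 j hj hEj hrj]; ring⟩)
        (Or.inl ⟨0, rfl⟩) (by
          change ((0 : ℕ) : ℤ) + 1 + _ = _
          rw [hi]
          push_cast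
          ring) hvl
      have hp2 : p2 = Sum.inl (false, i) := by
        rcases R2 with ⟨j, rfl⟩ | ⟨j, hj, hEj, hrj, rfl⟩
        · change (j : ℤ) + 1 = _ at F2
          have : j = i := by omega
          rw [this]
        · exfalso
          rw [V.cF_mid 1 hj hEj hrj] at F2
          simp only [Bool.false_eq_true, if_false] at F2
          exact hB2 j (by omega) ⟨hEj, hrj⟩
      subst hp2
      have r2' : run (V.csys hG).mv (Sum.inl (true, 0)) ((flip (V.c 0) :: v').take (V.pos true B)) =
          some (Sum.inl (false, i)) := by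
        rw [hi, List.take_succ_cons, run_cons_some]
        exact ⟨_, m0, r2⟩
      have kp2' : kap (V.csys hG).mv κ (Sum.inl (true, 0))
          ((flip (V.c 0) :: v').take (V.pos true B)) = 0 := by
        rw [hi, List.take_succ_cons, kap_cons m0, kp2, κ0]
        ring
      refine ⟨_, mem_pairSet (flip (V.c B)) (V.u false i), V.hgt B, hN, ?_⟩
      rw [hV.eval_eq r1, hV.eval_eq r2', kp1, kp2', sub_zero, zpow_zero, mul_one, mul_one,
        hval, hval, hval]
      have e1 := V.val_up false i
      rw [← hi, ← eB] at e1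
      have e2 := V.val_lr B
      rw [← e1] at e2
      have e3 : V.val (false, i) = V.val (true, V.pos true B) * (genB l m n ^ n) ^ V.hgt B *
          (eval l m n [V.c B])⁻¹ * (eval l m n [V.u false i])⁻¹ := by
        rw [← e2]
        group
      rw [e3, eval_flip]
      have hc : ∀ (g : E l m n) (k : ℤ), (genB l m n ^ n) ^ k * g = g * (genB l m n ^ n) ^ k :=
        fun g k => Pool.Agent.SLE.zpow_comm g k
      calc ((V.val (true, 0))⁻¹ * V.val (true, V.pos true B))⁻¹ * ((V.val (true, 0))⁻¹ *
            (V.val (true, V.pos true B) * (genB l m n ^ n) ^ V.hgt B *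
              (eval l m n [V.c B])⁻¹ * (eval l m n [V.u false i])⁻¹))
          = (genB l m n ^ n) ^ V.hgt B * ((eval l m n [V.c B])⁻¹ * (eval l m n [V.u false i])⁻¹) := by
            group
        _ = (eval l m n [V.c B])⁻¹ * (eval l m n [V.u false i])⁻¹ * (genB l m n ^ n) ^ V.hgt B :=
            hc _ _

end VLad

end Pool.Agent.SLE
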