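import Pool.Agent.SLE.Delta
import Pool.Agent.SLE.Order

/-!
# The V-engine: geodesics in closed partial actions

A *closed system* is a set `X` with partial moves for the four letters, such that half relators
can be exchanged. If a word of minimal length can be followed in a closed system with a
1-Lipschitz potential, and it is as long as the potential difference, then every word of
the same length with the same value (even modulo the centre) can be followed, with the same end.
-/

namespace Pool.Agent.SLE

open List G3 CoxeterSystem

abbrev lA : Letter := (0, true)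
abbrev lA' : Letter := (0, false)
abbrev lB : Letter := (1, true)
abbrev lB' : Letter := (1, false)

/-- Closed partial actions of the triangle group. -/
structure VSys (l m n : ℕ) {X : Type*} (mv : X → Letter → Option X) : Prop where
  symm : ∀ x y x', mv x y = some x' → mv x' (flip y) = some x
  a1 : ∀ x e, run mv x (replicate (l / 2) lA) = some e ↔
    run mv x (replicate ((l + 1) / 2) lA') = some e
  a2 : ∀ x e, run mv x (replicate (l / 2) lA') = some e ↔
    run mv x (replicate ((l + 1) / 2) lA) = some e
  b1 : ∀ x e, run mv x (replicate (n / 2) lB) = some e ↔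
    run mv x (replicate ((n + 1) / 2) lB') = some e
  b2 : ∀ x e, run mv x (replicate (n / 2) lB') = some e ↔
    run mv x (replicate ((n + 1) / 2) lB) = some e
  p1 : ∀ x e, run mv x (alt lA lB m) = some e ↔ run mv x (alt lB' lA' m) = some e
  p2 : ∀ x e, run mv x (alt lB lA m) = some e ↔ run mv x (alt lA' lB' m) = some e

section

variable {l m n : ℕ} {X : Type*} {mv : X → Letter → Option X}

/-- The chamber system of a partial action. -/
def cmv (mv : X → Letter → Option X) (c : X × Bool) (s : G3) : Option (X × Bool) :=
  if s = s1 then some (c.1, !c.2) else (mv c.1 (crossLetter s c.2)).map fun x => (x, !c.2)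

theorem cmv_s1 (x : X) (p : Bool) : cmv mv (x, p) s1 = some (x, !p) := by simp [cmv]

theorem cmv_ne (x : X) (p : Bool) {s : G3} (h : s ≠ s1) :
    cmv mv (x, p) s = (mv x (crossLetter s p)).map fun x => (x, !p) := by simp [cmv, h]

theorem run_cmv (x : X) (p : Bool) (V : List G3) :
    run (cmv mv) (x, p) V = (run mv x (dec p V)).map fun x => (x, parAfter p V) := by
  induction V generalizing x p with
  | nil => rfl
  | cons s V ih =>
    rw [run_cons, parAfter_cons]
    by_cases hs : s = s1
    · subst hs
      rw [cmv_s1, Option.bind_some, ih]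
      rfl
    · rw [cmv_ne _ _ hs]
      have : dec p (s :: V) = crossLetter s p :: dec (!p) V := by
        cases s
        · rfl
        · exact absurd rfl hs
        · rfl
      rw [this, run_cons]
      cases h : mv x (crossLetter s p) with
      | none => rfl
      | some x' => simp only [Option.map_some, Option.bind_some]; rw [ih]

theorem dec_alt_01 (p : Bool) (k : ℕ) :
    dec p (alt s0 s1 k) = replicate ((k + 1) / 2) (0, p) ∧
      dec p (alt s1 s0 k) = replicate (k / 2) (0, !p) := by
  induction k generalizing p with
  | zero => simp [dec]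
  | succ k ih =>
    rw [alt_succ, alt_succ]
    constructor
    · change crossLetter s0 p :: dec (!p) (alt s1 s0 k) = _
      rw [(ih (!p)).2, Bool.not_not]
      rw [show (k + 1 + 1) / 2 = k / 2 + 1 by omega, replicate_succ]
      rfl
    · change dec (!p) (alt s0 s1 k) = _
      rw [(ih (!p)).1]

theorem dec_alt_12 (p : Bool) (k : ℕ) :
    dec p (alt s2 s1 k) = replicate ((k + 1) / 2) (1, !p) ∧
      dec p (alt s1 s2 k) = replicate (k / 2) (1, p) := by
  induction k generalizing p with
  | zero => simp [dec]
  | succ k ih =>
    rw [alt_succ, alt_succ]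
    constructor
    · change crossLetter s2 p :: dec (!p) (alt s1 s2 k) = _
      rw [(ih (!p)).2]
      rw [show (k + 1 + 1) / 2 = k / 2 + 1 by omega, replicate_succ]
      rfl
    · change dec (!p) (alt s2 s1 k) = _
      rw [(ih (!p)).1, Bool.not_not]

theorem dec_alt_02 (p : Bool) (k : ℕ) :
    dec p (alt s0 s2 k) = alt ((0, p) : Letter) (1, p) k ∧
      dec p (alt s2 s0 k) = alt ((1, !p) : Letter) (0, !p) k := by
  induction k generalizing p with
  | zero => simp [dec]
  | succ k ih =>
    rw [alt_succ, alt_succ]
    constructor
    · change crossLetter s0 p :: dec (!p) (alt s2 s0 k) = _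
      rw [(ih (!p)).2, Bool.not_not]
      rfl
    · change crossLetter s2 p :: dec (!p) (alt s0 s2 k) = _
      rw [(ih (!p)).1]
      rfl

theorem parAfter_alt (p : Bool) (i j i' j' : G3) (k : ℕ) :
    parAfter p (alt i j k) = parAfter p (alt i' j' k) := by
  induction k generalizing p i j i' j' with
  | zero => rfl
  | succ k ih => rw [alt_succ, alt_succ, parAfter_cons, parAfter_cons]; exact ih _ _ _ _ _

theorem parAfter_eq (p : Bool) (V V' : List G3) (h : V.length % 2 = V'.length % 2) :
    parAfter p V = parAfter p V' := by
  have key : ∀ (V : List G3) (p : Bool), parAfter p V = if V.length % 2 = 0 then p else !p := by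
    intro V
    induction V with
    | nil => intro p; rfl
    | cons s V ih =>
      intro p
      rw [parAfter_cons, ih, List.length_cons]
      rcases Nat.mod_two_eq_zero_or_one V.length with h | h
      · have h2 : (V.length + 1) % 2 = 1 := by omega
        simp [h, h2]
      · have h2 : (V.length + 1) % 2 = 0 := by omega
        simp [h, h2]
  rw [key, key, h]

theorem VSys.braidClosed (S : VSys l m n mv) (hl : 2 ≤ l) (hm : 2 ≤ m) (hn : 2 ≤ n) :
    BraidClosed (triMat l m n hl hm hn) (cmv mv) where
  symm := by
    rintro ⟨x, p⟩ s ⟨x', p'⟩ h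
    by_cases hs : s = s1
    · subst hs
      rw [cmv_s1] at h
      cases h
      rw [cmv_s1, Bool.not_not]
    · rw [cmv_ne _ _ hs] at h
      cases h1 : mv x (crossLetter s p) with
      | none => rw [h1] at h; cases h
      | some x1 =>
        rw [h1] at h
        simp only [Option.map_some, Option.some.injEq, Prod.mk.injEq] at h
        obtain ⟨rfl, rfl⟩ := h
        rw [cmv_ne _ _ hs]
        have h2 := S.symm _ _ _ h1
        have h3 : flip (crossLetter s p) = crossLetter s (!p) := by
          cases s
          · rfl
          · exact absurd rfl hs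
          · rfl
        rw [h3] at h2
        rw [h2, Bool.not_not]
        rfl
  braid := by
    rintro ⟨x, p⟩ s t ⟨e, q⟩ hst h
    have key : ∀ (w w' : List Letter) (q0 : Bool), (∀ e, run mv x w = some e → run mv x w' = some e) →
        ((run mv x w).map fun x => (x, q0)) = some (e, q) →
        ((run mv x w').map fun x => (x, q0)) = some (e, q) := by
      intro w w' q0 h1 h2
      cases h3 : run mv x w with
      | none => rw [h3] at h2; cases h2
      | some e1 =>
        rw [h3] at h2
        rw [h1 _ h3]
        exact h2
    rw [run_cmv] at h ⊢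
    rw [parAfter_alt p t s s t]
    cases s <;> cases t
    · exact absurd rfl hst
    · -- s0 s1
      change (run mv x (dec p (alt s0 s1 l))).map _ = _ at h
      change (run mv x (dec p (alt s1 s0 l))).map _ = _
      rw [(dec_alt_01 p l).1] at h
      rw [(dec_alt_01 p l).2]
      refine key _ _ _ (fun e he => ?_) h
      cases p
      · exact (S.a1 x e).2 he
      · exact (S.a2 x e).2 he
    · -- s0 s2
      change (run mv x (dec p (alt s0 s2 m))).map _ = _ at h
      change (run mv x (dec p (alt s2 s0 m))).map _ = _
      rw [(dec_alt_02 p m).1] at h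
      rw [(dec_alt_02 p m).2]
      refine key _ _ _ (fun e he => ?_) h
      cases p
      · exact (S.p2 x e).2 he
      · exact (S.p1 x e).1 he
    · -- s1 s0
      change (run mv x (dec p (alt s1 s0 l))).map _ = _ at h
      change (run mv x (dec p (alt s0 s1 l))).map _ = _
      rw [(dec_alt_01 p l).2] at h
      rw [(dec_alt_01 p l).1]
      refine key _ _ _ (fun e he => ?_) h
      cases p
      · exact (S.a1 x e).1 he
      · exact (S.a2 x e).1 he
    · exact absurd rfl hst
    · -- s1 s2
      change (run mv x (dec p (alt s1 s2 n))).map _ = _ at h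
      change (run mv x (dec p (alt s2 s1 n))).map _ = _
      rw [(dec_alt_12 p n).2] at h
      rw [(dec_alt_12 p n).1]
      refine key _ _ _ (fun e he => ?_) h
      cases p
      · exact (S.b2 x e).1 he
      · exact (S.b1 x e).1 he
    · -- s2 s0
      change (run mv x (dec p (alt s2 s0 m))).map _ = _ at h
      change (run mv x (dec p (alt s0 s2 m))).map _ = _
      rw [(dec_alt_02 p m).2] at h
      rw [(dec_alt_02 p m).1]
      refine key _ _ _ (fun e he => ?_) h
      cases p
      · exact (S.p2 x e).1 he
      · exact (S.p1 x e).2 he
    · -- s2 s1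
      change (run mv x (dec p (alt s2 s1 n))).map _ = _ at h
      change (run mv x (dec p (alt s1 s2 n))).map _ = _
      rw [(dec_alt_12 p n).1] at h
      rw [(dec_alt_12 p n).2]
      refine key _ _ _ (fun e he => ?_) h
      cases p
      · exact (S.b2 x e).2 he
      · exact (S.b1 x e).2 he
    · exact absurd rfl hst

theorem toCox_z (hl : 2 ≤ l) (hm : 2 ≤ m) (hn : 2 ≤ n) :
    toCox l m n hl hm hn (genB l m n ^ n) = 1 := by
  rw [map_pow, toCox_genB]
  exact (triMat l m n hl hm hn).toCoxeterSystem.simple_mul_simple_pow s1 s2

/-- **The V-engine.** -/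
theorem VSys.run_of_min (S : VSys l m n mv) (hl : 2 ≤ l) (hm : 2 ≤ m) (hn : 2 ≤ n)
    {F : X → ℤ} (hF : ∀ x y x', mv x y = some x' → F x' ≤ F x + 1) {x e : X}
    {w w' : List Letter} (hrun : run mv x w' = some e) (k : ℤ)
    (heval : eval l m n w = eval l m n w' * (genB l m n ^ n) ^ k)
    (hlen : F x + w.length ≤ F e) : run mv x w = some e := by
  set cs := (triMat l m n hl hm hn).toCoxeterSystem with hcs
  have hex : ExactOrders cs := triMat_exact l m n hl hm hn cs
  have hf := S.braidClosed hl hm hn
  have hpot : Potential s1 (cmv mv) (fun c => F c.1) := by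
    refine ⟨?_, ?_⟩
    · rintro ⟨x, p⟩ ⟨x', p'⟩ h
      rw [cmv_s1] at h
      cases h; rfl
    · rintro ⟨x, p⟩ s ⟨x', p'⟩ h
      by_cases hs : s = s1
      · subst hs
        rw [cmv_s1] at h
        cases h; simp
      · rw [cmv_ne _ _ hs] at h
        cases h1 : mv x (crossLetter s p) with
        | none => rw [h1] at h; cases h
        | some x1 =>
          rw [h1] at h
          simp only [Option.map_some, Option.some.injEq, Prod.mk.injEq] at h
          obtain ⟨rfl, rfl⟩ := h
          exact hF _ _ _ h1
  -- the words
  obtain ⟨V', hV', hpar⟩ : ∃ V', dec true V' = w' ∧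
      (enc true w).length % 2 = V'.length % 2 := by
    by_cases h : (enc true w).length % 2 = (enc true w').length % 2
    · exact ⟨enc true w', dec_enc _ _, h⟩
    · refine ⟨enc true w' ++ [s1], ?_, ?_⟩
      · rw [dec_append, dec_enc]; simp [dec]
      · rw [List.length_append, List.length_singleton]; omega
  have hrun' : run (cmv mv) (x, true) V' = some (e, parAfter true V') := by
    rw [run_cmv, hV', hrun]; rfl
  have hpow2 : (cs.simple s1) ^ (enc true w).length = (cs.simple s1) ^ V'.length := by
    have h2 : cs.simple s1 ^ 2 = 1 := by rw [pow_two]; simp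
    rw [← Nat.div_add_mod (enc true w).length 2, ← Nat.div_add_mod V'.length 2, hpar, pow_add,
      pow_add, pow_mul, pow_mul, h2, one_pow, one_pow]
  have hword : cs.wordProd (enc true w) = cs.wordProd V' := by
    rw [hcs, wordProd_eq_toCox l m n hl hm hn (enc true w), wordProd_eq_toCox l m n hl hm hn V',
      hV', dec_enc, heval, map_mul, map_zpow, toCox_z, one_zpow, mul_one, ← hcs, hpow2]
  have h1 := run_of_min_cost hex hf hpot (o := s1)
    (fun c t hc _ => by rw [cmv_s1] at hc; cases hc) (enc true w) (enc_chain _ _)
    (c := (x, true)) (e := (e, parAfter true V')) hrun' hword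
    (by rw [cost_enc]; exact hlen)
  rw [run_cmv, dec_enc] at h1
  cases h2 : run mv x w with
  | none => rw [h2] at h1; cases h1
  | some e1 =>
    rw [h2] at h1
    simp only [Option.map_some, Option.some.injEq, Prod.mk.injEq] at h1
    rw [h1.1]

/-- Lower bound for the length. -/
theorem VSys.le_length (S : VSys l m n mv) (hl : 2 ≤ l) (hm : 2 ≤ m) (hn : 2 ≤ n)
    {F : X → ℤ} (hF : ∀ x y x', mv x y = some x' → F x' ≤ F x + 1) {x e : X}
    {w w' : List Letter} (hrun : run mv x w' = some e) (k : ℤ)
    (heval : eval l m n w = eval l m n w' * (genB l m n ^ n) ^ k) :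
    F e ≤ F x + w.length := by
  by_contra hcon
  have hlt : F x + w.length < F e := not_le.1 hcon
  have h1 := S.run_of_min hl hm hn hF hrun k heval hlt.le
  have h2 : ∀ (w : List Letter) (x e : X), run mv x w = some e → F e ≤ F x + w.length := by
    intro w
    induction w with
    | nil => intro x e h; simp at h; subst h; simp
    | cons y w ih =>
      intro x e h
      rw [run_cons_some] at h
      obtain ⟨d, hd, h3⟩ := h
      have h4 := ih d e h3
      have h5 := hF _ _ _ hd
      rw [List.length_cons]; push_cast; linarith
  have := h2 w x e h1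
  linarith

end

end Pool.Agent.SLE
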