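import Pool.Agent.SLE.VEng

/-!
# Certificates for closed systems

A dart `(x, y)` has a face on its left: an `l`-gon for `a`, an `n`-gon for `b` and a `2m`-gon for
`a⁻¹` and `b⁻¹`. A system is closed if every dart has either a complete face in the system on its
left (`inner`), or the run along the face on its left has fewer than half of the edges.
-/

namespace Pool.Agent.SLE

open List G3

/-- The next letter around the face on the left. -/
def nxt : Letter → Letter
  | (0, true) => (0, true)
  | (1, true) => (1, true)
  | (0, false) => (1, false)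
  | (1, false) => (0, false)

/-- The word along the face on the left. -/
def fw : Letter → ℕ → List Letter
  | _, 0 => []
  | y, k + 1 => y :: fw (nxt y) k

theorem fw_add (y : Letter) (j k : ℕ) : fw y (j + k) = fw y j ++ fw (nxt^[j] y) k := by
  induction j generalizing y with
  | zero => simp [fw]
  | succ j ih =>
    rw [show j + 1 + k = (j + k) + 1 by omega, fw, ih, fw, Function.iterate_succ_apply]
    rfl

theorem fw_a (k : ℕ) : fw lA k = replicate k lA := by
  induction k with
  | zero => rfl
  | succ k ih =>
    rw [replicate_succ, ← ih]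
    rfl

theorem fw_b (k : ℕ) : fw lB k = replicate k lB := by
  induction k with
  | zero => rfl
  | succ k ih =>
    rw [replicate_succ, ← ih]
    rfl

theorem fw_p (k : ℕ) : fw lA' k = alt lA' lB' k ∧ fw lB' k = alt lB' lA' k := by
  induction k with
  | zero => exact ⟨rfl, rfl⟩
  | succ k ih =>
    rw [alt_succ, alt_succ, ← ih.1, ← ih.2]
    exact ⟨rfl, rfl⟩

theorem nxt_iter_a (k : ℕ) : nxt^[k] lA = lA := by
  induction k with
  | zero => rfl
  | succ k ih => rw [Function.iterate_succ_apply]; exact ih

theorem nxt_iter_b (k : ℕ) : nxt^[k] lB = lB := by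
  induction k with
  | zero => rfl
  | succ k ih => rw [Function.iterate_succ_apply]; exact ih

theorem nxt_iter_p (k : ℕ) : nxt^[k] lA' = (if k % 2 = 0 then lA' else lB') ∧
    nxt^[k] lB' = (if k % 2 = 0 then lB' else lA') := by
  induction k with
  | zero => exact ⟨rfl, rfl⟩
  | succ k ih =>
    rw [Function.iterate_succ_apply, Function.iterate_succ_apply]
    change nxt^[k] lB' = _ ∧ nxt^[k] lA' = _
    rw [ih.1, ih.2]
    rcases Nat.mod_two_eq_zero_or_one k with h | h
    · have h2 : (k + 1) % 2 = 1 := by omega
      simp [h, h2]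
    · have h2 : (k + 1) % 2 = 0 := by omega
      simp [h, h2]

/-- The inverse word. -/
def winv (w : List Letter) : List Letter := (w.map flip).reverse

theorem winv_replicate (k : ℕ) (y : Letter) : winv (replicate k y) = replicate k (flip y) := by
  simp [winv]

theorem alt_concat {B : Type*} (i j : B) (k : ℕ) :
    alt i j (k + 1) = alt i j k ++ [if k % 2 = 0 then i else j] := by
  induction k generalizing i j with
  | zero => rfl
  | succ k ih =>
    rw [alt_succ, ih j i, alt_succ, List.cons_append]
    rcases Nat.mod_two_eq_zero_or_one k with h | h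
    · have h2 : (k + 1) % 2 = 1 := by omega
      simp [h, h2]
    · have h2 : (k + 1) % 2 = 0 := by omega
      simp [h, h2]

theorem winv_alt (i j : Letter) (k : ℕ) : winv (alt i j k) =
    if k % 2 = 0 then alt (flip j) (flip i) k else alt (flip i) (flip j) k := by
  induction k generalizing i j with
  | zero => rfl
  | succ k ih =>
    have h0 : winv (alt i j (k + 1)) = winv (alt j i k) ++ [flip i] := by
      rw [alt_succ]; simp [winv]
    rw [h0, ih]
    rcases Nat.mod_two_eq_zero_or_one k with h | h
    · have h2 : (k + 1) % 2 = 1 := by omega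
      rw [if_pos h, if_neg (by omega), alt_concat, if_pos h]
    · have h2 : (k + 1) % 2 = 0 := by omega
      rw [if_neg (by omega), if_pos h2, alt_concat, if_neg (by omega)]

section

variable {l m n : ℕ} {X : Type*} {mv : X → Letter → Option X}

theorem run_winv (hs : ∀ x y x', mv x y = some x' → mv x' (flip y) = some x) {x e : X}
    {w : List Letter} (h : run mv x w = some e) : run mv e (winv w) = some x := by
  induction w generalizing x with
  | nil => simp at h; subst h; rfl
  | cons y w ih =>
    rw [run_cons_some] at h
    obtain ⟨d, hd, h2⟩ := h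
    have h3 : winv (y :: w) = winv w ++ [flip y] := by simp [winv]
    rw [h3, run_append_some]
    exact ⟨d, ih h2, by rw [run_cons_some]; exact ⟨x, hs _ _ _ hd, rfl⟩⟩

/-- The number of edges of the face on the left. -/
def fper (l m n : ℕ) : Letter → ℕ
  | (0, true) => l
  | (1, true) => n
  | _ => 2 * m

/-- Half of it. -/
def fhalf (l m n : ℕ) (y : Letter) : ℕ := fper l m n y / 2

/-- Certificate for a closed system. -/
structure FaceCert (l m n : ℕ) (mv : X → Letter → Option X) (inner : X → Letter → Prop)
    (rl : X → Letter → ℕ) : Prop where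
  symm : ∀ x y x', mv x y = some x' → mv x' (flip y) = some x
  cyc : ∀ x y, inner x y → run mv x (fw y (fper l m n y)) = some x
  back : ∀ x y x', mv x y = some x' → inner x' (nxt y) → inner x y
  rl_step : ∀ x y x' x'', ¬ inner x y → mv x y = some x' → mv x' (nxt y) = some x'' →
    rl x' (nxt y) + 1 ≤ rl x y
  rl_pos : ∀ x y x', ¬ inner x y → mv x y = some x' → 1 ≤ rl x y
  rl_lt : ∀ x y x', ¬ inner x y → mv x y = some x' → rl x y < fhalf l m n y

variable {inner : X → Letter → Prop} {rl : X → Letter → ℕ}

theorem FaceCert.le_rl (H : FaceCert l m n mv inner rl) {x e : X} {y : Letter} {k : ℕ}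
    (h : ¬ inner x y) (hk : 1 ≤ k) (hr : run mv x (fw y k) = some e) :
    k ≤ rl x y ∧ ∃ x', mv x y = some x' := by
  induction k generalizing x y with
  | zero => omega
  | succ k ih =>
    rw [fw, run_cons_some] at hr
    obtain ⟨x', hx', hr2⟩ := hr
    refine ⟨?_, x', hx'⟩
    rcases Nat.eq_zero_or_pos k with rfl | hk0
    · exact H.rl_pos _ _ _ h hx'
    · have h2 : ¬ inner x' (nxt y) := fun h3 => h (H.back _ _ _ hx' h3)
      obtain ⟨h3, x'', hx''⟩ := ih h2 hk0 hr2
      have := H.rl_step _ _ _ _ h hx' hx''
      omega

theorem FaceCert.inner_of_run (H : FaceCert l m n mv inner rl) {x e : X} {y : Letter} {k : ℕ}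
    (hk : 1 ≤ k) (hk2 : fhalf l m n y ≤ k) (hr : run mv x (fw y k) = some e) : inner x y := by
  by_contra h
  obtain ⟨h1, x', h2⟩ := H.le_rl h hk hr
  have := H.rl_lt _ _ _ h h2
  omega

theorem FaceCert.split (H : FaceCert l m n mv inner rl) {x e : X} {y : Letter} {k j : ℕ}
    (hk : 1 ≤ k) (hk2 : fhalf l m n y ≤ k) (hkj : k + j = fper l m n y)
    (hr : run mv x (fw y k) = some e) : run mv e (fw (nxt^[k] y) j) = some x := by
  have h1 := H.cyc x y (H.inner_of_run hk hk2 hr)
  rw [← hkj, fw_add, run_append_some] at h1
  obtain ⟨d, hd, h2⟩ := h1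
  rw [hr] at hd
  cases hd
  exact h2

theorem winv_winv (w : List Letter) : winv (winv w) = w := by
  simp only [winv, List.map_reverse, List.reverse_reverse, List.map_map]
  rw [show flip ∘ flip = id from funext flip_flip, List.map_id]

theorem FaceCert.vsys (H : FaceCert l m n mv inner rl) (hl : 2 ≤ l) (hm : 1 ≤ m) (hn : 2 ≤ n) :
    VSys l m n mv := by
  have inv := @run_winv X mv H.symm
  -- `a`
  have qa : ∀ (k j : ℕ), 1 ≤ k → l / 2 ≤ k → k + j = l → ∀ x e,
      run mv x (replicate k lA) = some e → run mv x (replicate j lA') = some e := by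
    intro k j hk hk2 hkj x e h
    have h1 := H.split (y := lA) hk hk2 hkj (by rw [fw_a]; exact h)
    rw [nxt_iter_a, fw_a] at h1
    have h2 := inv h1
    rwa [winv_replicate] at h2
  have qa' : ∀ (k j : ℕ), 1 ≤ k → l / 2 ≤ k → k + j = l → ∀ x e,
      run mv x (replicate k lA') = some e → run mv x (replicate j lA) = some e := by
    intro k j hk hk2 hkj x e h
    have h1 := inv h
    rw [winv_replicate] at h1
    have h2 := H.split (y := lA) hk hk2 hkj (by rw [fw_a]; exact h1)
    rwa [nxt_iter_a, fw_a] at h2
  have qb : ∀ (k j : ℕ), 1 ≤ k → n / 2 ≤ k → k + j = n → ∀ x e,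
      run mv x (replicate k lB) = some e → run mv x (replicate j lB') = some e := by
    intro k j hk hk2 hkj x e h
    have h1 := H.split (y := lB) hk hk2 hkj (by rw [fw_b]; exact h)
    rw [nxt_iter_b, fw_b] at h1
    have h2 := inv h1
    rwa [winv_replicate] at h2
  have qb' : ∀ (k j : ℕ), 1 ≤ k → n / 2 ≤ k → k + j = n → ∀ x e,
      run mv x (replicate k lB') = some e → run mv x (replicate j lB) = some e := by
    intro k j hk hk2 hkj x e h
    have h1 := inv h
    rw [winv_replicate] at h1
    have h2 := H.split (y := lB) hk hk2 hkj (by rw [fw_b]; exact h1)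
    rwa [nxt_iter_b, fw_b] at h2
  have hper : fhalf l m n lA' = m ∧ fhalf l m n lB' = m := by
    constructor <;> simp [fhalf, fper]
  -- `P`, positive to negative
  have pp : ∀ x e, (run mv x (alt lA' lB' m) = some e → run mv x (alt lB lA m) = some e) ∧
      (run mv x (alt lB' lA' m) = some e → run mv x (alt lA lB m) = some e) := by
    intro x e
    constructor
    · intro h
      have h1 := H.split (y := lA') (k := m) (j := m) hm hper.1.le (by simp [fper]; omega)
        (by rw [(fw_p m).1]; exact h)
      rw [(nxt_iter_p m).1] at h1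
      split_ifs at h1 with h2
      · rw [(fw_p m).1] at h1
        have h3 := inv h1
        rw [winv_alt, if_pos h2] at h3
        exact h3
      · rw [(fw_p m).2] at h1
        have h3 := inv h1
        rw [winv_alt, if_neg h2] at h3
        exact h3
    · intro h
      have h1 := H.split (y := lB') (k := m) (j := m) hm hper.2.le (by simp [fper]; omega)
        (by rw [(fw_p m).2]; exact h)
      rw [(nxt_iter_p m).2] at h1
      split_ifs at h1 with h2
      · rw [(fw_p m).2] at h1
        have h3 := inv h1
        rw [winv_alt, if_pos h2] at h3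
        exact h3
      · rw [(fw_p m).1] at h1
        have h3 := inv h1
        rw [winv_alt, if_neg h2] at h3
        exact h3
  have pn : ∀ x e, (run mv x (alt lA lB m) = some e → run mv x (alt lB' lA' m) = some e) ∧
      (run mv x (alt lB lA m) = some e → run mv x (alt lA' lB' m) = some e) := by
    intro x e
    constructor
    · intro h
      have h1 := inv h
      rw [winv_alt] at h1
      split_ifs at h1 with h2
      · have h3 := H.split (y := lB') (k := m) (j := m) hm hper.2.le (by simp [fper]; omega)
          (by rw [(fw_p m).2]; exact h1)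
        rw [(nxt_iter_p m).2, if_pos h2, (fw_p m).2] at h3
        exact h3
      · have h3 := H.split (y := lA') (k := m) (j := m) hm hper.1.le (by simp [fper]; omega)
          (by rw [(fw_p m).1]; exact h1)
        rw [(nxt_iter_p m).1, if_neg h2, (fw_p m).2] at h3
        exact h3
    · intro h
      have h1 := inv h
      rw [winv_alt] at h1
      split_ifs at h1 with h2
      · have h3 := H.split (y := lA') (k := m) (j := m) hm hper.1.le (by simp [fper]; omega)
          (by rw [(fw_p m).1]; exact h1)
        rw [(nxt_iter_p m).1, if_pos h2, (fw_p m).1] at h3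
        exact h3
      · have h3 := H.split (y := lB') (k := m) (j := m) hm hper.2.le (by simp [fper]; omega)
          (by rw [(fw_p m).2]; exact h1)
        rw [(nxt_iter_p m).2, if_neg h2, (fw_p m).1] at h3
        exact h3
  refine ⟨H.symm, ?_, ?_, ?_, ?_, ?_, ?_⟩
  · exact fun x e => ⟨qa _ _ (by omega) (by omega) (by omega) x e,
      qa' _ _ (by omega) (by omega) (by omega) x e⟩
  · exact fun x e => ⟨qa' _ _ (by omega) (by omega) (by omega) x e,
      qa _ _ (by omega) (by omega) (by omega) x e⟩
  · exact fun x e => ⟨qb _ _ (by omega) (by omega) (by omega) x e,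
      qb' _ _ (by omega) (by omega) (by omega) x e⟩
  · exact fun x e => ⟨qb' _ _ (by omega) (by omega) (by omega) x e,
      qb _ _ (by omega) (by omega) (by omega) x e⟩
  · exact fun x e => ⟨(pn x e).1, (pp x e).2⟩
  · exact fun x e => ⟨(pn x e).2, (pp x e).1⟩

end

end Pool.Agent.SLE
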