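import Pool.Agent.SLE.VFace
import Pool.Agent.SLE.Circle

/-!
# Heights in closed systems, normal forms of tight words, and the divergence criterion
-/

namespace Pool.Agent.SLE

open List G3

section

variable {l m n : ℕ} {X : Type*} {mv : X → Letter → Option X}

/-- A section of the group over the system, with heights of the edges. -/
structure VVal (l m n : ℕ) (mv : X → Letter → Option X) (val : X → E l m n)
    (κ : X → Letter → ℤ) : Prop where
  step : ∀ x y x', mv x y = some x' →
    val x * eval l m n [y] = val x' * (genB l m n ^ n) ^ κ x y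

/-- The height of a word. -/
def kap (mv : X → Letter → Option X) (κ : X → Letter → ℤ) : X → List Letter → ℤ
  | _, [] => 0
  | x, y :: w => κ x y + match mv x y with
    | some x' => kap mv κ x' w
    | none => 0

theorem kap_cons {κ : X → Letter → ℤ} {x x' : X} {y : Letter} (h : mv x y = some x')
    (w : List Letter) : kap mv κ x (y :: w) = κ x y + kap mv κ x' w := by
  simp only [kap, h]

theorem kap_append {κ : X → Letter → ℤ} {x e : X} {w w' : List Letter}
    (h : run mv x w = some e) : kap mv κ x (w ++ w') = kap mv κ x w + kap mv κ e w' := by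
  induction w generalizing x with
  | nil => simp at h; subst h; simp [kap]
  | cons y w ih =>
    rw [run_cons_some] at h
    obtain ⟨d, hd, h2⟩ := h
    rw [List.cons_append, kap_cons hd, kap_cons hd, ih h2, add_assoc]

theorem zpow_comm (g : E l m n) (k : ℤ) :
    (genB l m n ^ n) ^ k * g = g * (genB l m n ^ n) ^ k := by
  have h : Commute (genB l m n ^ n) g := z_comm l m n g
  exact (h.zpow_left k).eq

theorem VVal.mul_eval {val : X → E l m n} {κ : X → Letter → ℤ} (H : VVal l m n mv val κ) {x e : X}
    {w : List Letter} (h : run mv x w = some e) :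
    val x * eval l m n w = val e * (genB l m n ^ n) ^ kap mv κ x w := by
  induction w generalizing x with
  | nil => simp at h; subst h; simp [kap, eval_nil]
  | cons y w ih =>
    rw [run_cons_some] at h
    obtain ⟨d, hd, h2⟩ := h
    rw [kap_cons hd, eval_cons, ← mul_assoc, H.step _ _ _ hd, mul_assoc, zpow_comm, ← mul_assoc,
      ih h2, mul_assoc, ← zpow_add, add_comm (kap mv κ d w)]

theorem VVal.eval_eq {val : X → E l m n} {κ : X → Letter → ℤ} (H : VVal l m n mv val κ) {x e : X}
    {w : List Letter} (h : run mv x w = some e) :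
    eval l m n w = (val x)⁻¹ * val e * (genB l m n ^ n) ^ kap mv κ x w := by
  have := H.mul_eval h
  rw [mul_assoc, ← this]; simp

theorem z_zpow_inj (hl : 2 ≤ l) (hm : 2 ≤ m) (hn : 2 ≤ n)
    (hyp : (1 / l + 1 / m + 1 / n : ℚ) < 1) {a b : ℤ}
    (h : (genB l m n ^ n) ^ a = (genB l m n ^ n) ^ b) : a = b := by
  have h1 : (genB l m n ^ n) ^ (a - b) = 1 := by rw [zpow_sub, h, mul_inv_cancel]
  have := z_zpow_eq_one (l := l) (m := m) (n := n) (by omega) (by omega) (by omega) hyp _ h1
  omega

/-- Two words with the same ends have the same value iff they have the same height. -/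
theorem VVal.kap_eq {val : X → E l m n} {κ : X → Letter → ℤ} (H : VVal l m n mv val κ)
    (hl : 2 ≤ l) (hm : 2 ≤ m) (hn : 2 ≤ n) (hyp : (1 / l + 1 / m + 1 / n : ℚ) < 1) {x e : X}
    {w w' : List Letter} (h : run mv x w = some e) (h' : run mv x w' = some e)
    (heq : eval l m n w = eval l m n w') : kap mv κ x w = kap mv κ x w' := by
  rw [H.eval_eq h, H.eval_eq h'] at heq
  exact z_zpow_inj hl hm hn hyp (mul_left_cancel heq)

/-- A run along which the potential increases by one at each letter. -/
def TightRun (mv : X → Letter → Option X) (F : X → ℤ) : X → List Letter → X → Prop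
  | x, [], e => x = e
  | x, y :: w, e => ∃ x', mv x y = some x' ∧ F x' = F x + 1 ∧ TightRun mv F x' w e

theorem TightRun.spec {F : X → ℤ} {x e : X} {w : List Letter} (h : TightRun mv F x w e) :
    run mv x w = some e ∧ F e = F x + w.length := by
  induction w generalizing x with
  | nil =>
    change x = e at h
    subst h
    exact ⟨rfl, by simp⟩
  | cons y w ih =>
    obtain ⟨x', h1, h2, h3⟩ := h
    obtain ⟨h4, h5⟩ := ih h3
    refine ⟨?_, ?_⟩
    · rw [run_cons_some]; exact ⟨x', h1, h4⟩
    · rw [h5, h2, List.length_cons]; push_cast; ring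

theorem tightRun_of_run {F : X → ℤ} (hF : ∀ x y x', mv x y = some x' → F x' ≤ F x + 1)
    {x e : X} {w : List Letter} (h : run mv x w = some e) (hl : F x + w.length ≤ F e) :
    TightRun mv F x w e := by
  have key : ∀ (w : List Letter) (x e : X), run mv x w = some e → F e ≤ F x + w.length := by
    intro w
    induction w with
    | nil => intro x e h; simp at h; subst h; simp
    | cons y w ih =>
      intro x e h
      rw [run_cons_some] at h
      obtain ⟨d, hd, h3⟩ := h
      have h4 := ih d e h3
      have h5 := hF _ _ _ hd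
      rw [List.length_cons]; push_cast; linarith
  induction w generalizing x with
  | nil => simp at h; exact h
  | cons y w ih =>
    rw [run_cons_some] at h
    obtain ⟨d, hd, h2⟩ := h
    have h3 := key w d e h2
    have h4 := hF _ _ _ hd
    rw [List.length_cons] at hl
    push_cast at hl
    exact ⟨d, hd, by linarith, ih h2 (by linarith)⟩

theorem TightRun.append_iff {F : X → ℤ} {x e : X} {w w' : List Letter} :
    TightRun mv F x (w ++ w') e ↔ ∃ d, TightRun mv F x w d ∧ TightRun mv F d w' e := by
  induction w generalizing x with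
  | nil => simp [TightRun]
  | cons y w ih =>
    simp only [List.cons_append, TightRun, ih]
    constructor
    · rintro ⟨x', h1, h2, d, h3, h4⟩
      exact ⟨d, ⟨x', h1, h2, h3⟩, h4⟩
    · rintro ⟨d, ⟨x', h1, h2, h3⟩, h4⟩
      exact ⟨x', h1, h2, d, h3, h4⟩

/-- **Normal forms of tight words are tight.** -/
theorem VSys.normalForm (S : VSys l m n mv) (hl : 2 ≤ l) (hm : 2 ≤ m) (hn : 2 ≤ n)
    {F : X → ℤ} (hF : ∀ x y x', mv x y = some x' → F x' ≤ F x + 1)
    {lt : Letter → Letter → Prop} [IsStrictTotalOrder Letter lt] {x e : X} {u w : List Letter}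
    (hw : TightRun mv F x w e) (hu : u ∈ normalForms l m n lt)
    (heq : eval l m n u = eval l m n w) :
    TightRun mv F x u e ∧ u.length = w.length ∧ (u = w ∨ List.Lex lt u w) := by
  obtain ⟨h1, h2⟩ := hw.spec
  have hle := length_le_of_normalForm hu heq
  have h3 := S.le_length hl hm hn hF h1 0 (w := u) (by simp [heq])
  have hlen : u.length = w.length := by
    rw [h2] at h3
    have : (w.length : ℤ) ≤ u.length := by linarith
    have : w.length ≤ u.length := by exact_mod_cast this
    omega
  have h4 := S.run_of_min hl hm hn hF h1 0 (w := u) (by simp [heq]) (by rw [h2, hlen])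
  exact ⟨tightRun_of_run hF h4 (by rw [h2, hlen]), hlen, lex_of_normalForm hu heq hlen.symm⟩

end

/-- **Criterion with heights.** `G0` is a finite set of group elements independent of `N`. -/
theorem not_finiteDiff_of_heights {l m n : ℕ} (hl : 2 ≤ l) (hm : 2 ≤ m) (hn : 2 ≤ n)
    (hyp : (1 / l + 1 / m + 1 / n : ℚ) < 1) (lt : Letter → Letter → Prop)
    [IsStrictTotalOrder Letter lt] (C : ℕ) (G0 : Set (E l m n)) (hG0 : G0.Finite)
    (H : ∀ N : ℕ, ∃ (w1 w2 c : List Letter) (i : ℕ), c.length ≤ C ∧
      eval l m n (w1 ++ c) = eval l m n w2 ∧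
      ∀ u v, u ∈ normalForms l m n lt → eval l m n u = eval l m n w1 →
        v ∈ normalForms l m n lt → eval l m n v = eval l m n w2 →
        ∃ g ∈ G0, ∃ h : ℤ, (N : ℤ) < |h| ∧
          (eval l m n (u.take i))⁻¹ * eval l m n (v.take i) = g * (genB l m n ^ n) ^ h) :
    ¬ FiniteDiff l m n lt := by
  refine not_finiteDiff_of_words lt C fun D hD => ?_
  -- the exponents which may occur
  have hfin : {h : ℤ | ∃ g ∈ G0, g * (genB l m n ^ n) ^ h ∈ D}.Finite := by
    have : {h : ℤ | ∃ g ∈ G0, g * (genB l m n ^ n) ^ h ∈ D} =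
        ⋃ g ∈ G0, (fun h : ℤ => g * (genB l m n ^ n) ^ h) ⁻¹' D := by
      ext h; simp
    rw [this]
    refine hG0.biUnion fun g _ => hD.preimage ?_
    intro a _ b _ hab
    exact z_zpow_inj hl hm hn hyp (mul_left_cancel hab)
  obtain ⟨B, hB⟩ := (hfin.image fun h : ℤ => |h|).bddAbove
  obtain ⟨w1, w2, c, i, hc, hw, huv⟩ := H B.toNat
  refine ⟨w1, w2, c, i, hc, hw, fun u v hu hu' hv hv' hmem => ?_⟩
  obtain ⟨g, hg, h, hh, hval⟩ := huv u v hu hu' hv hv'
  rw [hval] at hmem
  have h1 : |h| ≤ B := hB ⟨h, ⟨g, hg, hmem⟩, rfl⟩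
  have h2 := Int.self_le_toNat B
  linarith

end Pool.Agent.SLE
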