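import Pool.Agent.SLE.FaceVal

/-!
# Ladders of faces

A ladder is a sequence of faces, the cells; the cells `k` and `k + 1` share an edge, the rung
`k + 1`. The vertices are on two lines, the right one (`true`) and the left one (`false`).
`c k` is the letter of the rung `k` read from left to right, so that the cell `k` lies on the left
of this dart, and `len k σ` is the number of edges of the cell `k` on the line `σ`.
-/

namespace Pool.Agent.SLE

open List G3

/-- A ladder. -/
structure VLad (l m n : ℕ) where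
  c : ℕ → Letter
  len : ℕ → Bool → ℕ
  cyc : ∀ k, len k true + len k false + 2 = fper l m n (c k)
  step : ∀ k, c (k + 1) = flip (nxt^[len k true + 1] (c k))
  nz : ∀ k σ, len k σ = 0 → 0 < len (k + 1) σ

namespace VLad

variable {l m n : ℕ} (V : VLad l m n)

/-- The position of the rung `k` on the line `σ`. -/
def pos (σ : Bool) : ℕ → ℕ
  | 0 => 0
  | k + 1 => pos σ k + V.len k σ

/-- The letter of the edge `j` of the cell `k` on the line `σ`, read upwards. -/
def ul (k : ℕ) (σ : Bool) (j : ℕ) : Letter :=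
  if σ then nxt^[j + 1] (V.c k) else flip (nxt^[j + 1] (V.c k))

theorem pos_succ (σ : Bool) (k : ℕ) : V.pos σ (k + 1) = V.pos σ k + V.len k σ := rfl

theorem pos_mono (σ : Bool) {k k' : ℕ} (h : k ≤ k') : V.pos σ k ≤ V.pos σ k' := by
  induction h with
  | refl => exact le_rfl
  | step _ ih => exact ih.trans (Nat.le_add_right _ _)

theorem le_pos_two_mul (σ : Bool) (i : ℕ) : i ≤ V.pos σ (2 * i) := by
  induction i with
  | zero => exact Nat.zero_le _
  | succ i ih =>
    rw [show 2 * (i + 1) = 2 * i + 1 + 1 by ring, pos_succ, pos_succ]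
    have h := V.nz (2 * i) σ
    by_cases h0 : V.len (2 * i) σ = 0
    · have := h h0
      omega
    · omega

theorem lt_pos_two_mul (σ : Bool) (i : ℕ) : i < V.pos σ (2 * (i + 1)) :=
  V.le_pos_two_mul σ (i + 1)

/-- The cell with the edge `i` of the line `σ`. -/
def cell (σ : Bool) (i : ℕ) : ℕ := Nat.find (p := fun k => i < V.pos σ (k + 1))
  ⟨2 * (i + 1), lt_of_lt_of_le (V.lt_pos_two_mul σ i) (Nat.le_add_right _ _)⟩

/-- The letter of the edge `i` of the line `σ`, read upwards. -/
def u (σ : Bool) (i : ℕ) : Letter :=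
  V.ul (V.cell σ i) σ (i - V.pos σ (V.cell σ i))

theorem cell_eq {σ : Bool} {k j : ℕ} (h : j < V.len k σ) : V.cell σ (V.pos σ k + j) = k := by
  unfold cell
  rw [Nat.find_eq_iff]
  refine ⟨?_, fun k' hk' h2 => ?_⟩
  · rw [pos_succ]
    omega
  · have := V.pos_mono σ (show k' + 1 ≤ k by omega)
    omega

theorem u_eq {σ : Bool} {k j : ℕ} (h : j < V.len k σ) : V.u σ (V.pos σ k + j) = V.ul k σ j := by
  unfold u
  rw [V.cell_eq h, Nat.add_sub_cancel_left]

theorem exists_cell (σ : Bool) (i : ℕ) : ∃ k j, j < V.len k σ ∧ i = V.pos σ k + j := by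
  have h1 : i < V.pos σ (V.cell σ i + 1) := Nat.find_spec (p := fun k => i < V.pos σ (k + 1))
    ⟨2 * (i + 1), lt_of_lt_of_le (V.lt_pos_two_mul σ i) (Nat.le_add_right _ _)⟩
  have h2 : V.pos σ (V.cell σ i) ≤ i := by
    rcases Nat.eq_zero_or_pos (V.cell σ i) with h | h
    · rw [h]
      exact Nat.zero_le _
    · obtain ⟨k, hk⟩ : ∃ k, V.cell σ i = k + 1 := ⟨V.cell σ i - 1, by omega⟩
      have h3 : ¬ i < V.pos σ (k + 1) := Nat.find_min (p := fun k => i < V.pos σ (k + 1))
        ⟨2 * (i + 1), lt_of_lt_of_le (V.lt_pos_two_mul σ i) (Nat.le_add_right _ _)⟩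
        (show k < V.cell σ i by omega)
      rw [hk]
      omega
  rw [pos_succ] at h1
  exact ⟨V.cell σ i, i - V.pos σ (V.cell σ i), by omega, by omega⟩

theorem nxt_nxt (y : Letter) : nxt (nxt y) = y := by
  revert y
  decide

theorem nxt_iter_nxt_iter (a : ℕ) (y : Letter) : nxt^[a] (nxt^[a] y) = y := by
  induction a generalizing y with
  | zero => rfl
  | succ a ih =>
    rw [Function.iterate_succ_apply nxt a (nxt^[a + 1] y), Function.iterate_succ_apply' nxt a y,
      nxt_nxt, ih]

/-- Going around the face from both sides. -/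
theorem nxt_iter_eq {a b : ℕ} {y : Letter} (h : a + b = fper l m n y) :
    nxt^[a] y = nxt^[b] y := by
  have h1 := DSys.nxt_iter_fper l m n y
  rw [← h, Function.iterate_add_apply] at h1
  have h2 := nxt_iter_nxt_iter a (nxt^[b] y)
  rw [h1] at h2
  exact h2

/-- The side `σ` of a cell determines the next rung. -/
theorem stepσ (σ : Bool) (k : ℕ) : V.c (k + 1) = flip (nxt^[V.len k σ + 1] (V.c k)) := by
  cases σ
  · rw [V.step k, nxt_iter_eq (l := l) (m := m) (n := n)]
    have := V.cyc k
    omega
  · exact V.step k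

/-- The left side of a cell determines the next rung as well. -/
theorem step' (k : ℕ) : V.c (k + 1) = flip (nxt^[V.len k false + 1] (V.c k)) := V.stepσ false k

theorem nxt_snd (y : Letter) : (nxt y).2 = y.2 := by
  revert y
  decide

theorem nxt_iter_snd (a : ℕ) (y : Letter) : (nxt^[a] y).2 = y.2 := by
  induction a generalizing y with
  | zero => rfl
  | succ a ih => rw [Function.iterate_succ_apply, ih, nxt_snd]

theorem flip_snd (y : Letter) : (flip y).2 = !y.2 := rfl

/-- P-cells (`2m`-gons) alternate with the other ones. -/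
theorem alternate (k : ℕ) : (V.c (k + 1)).2 = !(V.c k).2 := by
  rw [V.step k, flip_snd, nxt_iter_snd]

theorem ul_snd (k : ℕ) (σ : Bool) (j : ℕ) : (V.ul k σ j).2 = xor (V.c k).2 (!σ) := by
  unfold ul
  cases σ
  · simp only [Bool.false_eq_true, if_false, flip_snd, nxt_iter_snd]
    cases (V.c k).2 <;> rfl
  · simp only [if_true, nxt_iter_snd]
    cases (V.c k).2 <;> rfl

/-- The rung `k` seen from the line `σ`. -/
def rg (σ : Bool) (k : ℕ) : Letter := if σ then flip (V.c k) else V.c k

theorem rg_snd (σ : Bool) (k : ℕ) : (V.rg σ k).2 = xor (V.c k).2 σ := by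
  unfold rg
  cases σ
  · cases h : (V.c k).2 <;> simp [h]
  · simp only [if_true, flip_snd]
    cases (V.c k).2 <;> rfl

/-- two rungs at the same vertex are consecutive -/
theorem pos_eq {σ : Bool} {k k' : ℕ} (hk : k ≤ k') (h : V.pos σ k = V.pos σ k') :
    k' = k ∨ (k' = k + 1 ∧ V.len k σ = 0) := by
  rcases Nat.lt_or_ge k' (k + 2) with h1 | h1
  · rcases (show k' = k ∨ k' = k + 1 by omega) with rfl | rfl
    · exact Or.inl rfl
    · rw [pos_succ] at h
      exact Or.inr ⟨rfl, by omega⟩
  · exfalso
    have h2 := V.pos_mono σ h1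
    rw [pos_succ, pos_succ] at h2
    have h3 := V.nz k σ
    by_cases h0 : V.len k σ = 0
    · have := h3 h0
      omega
    · omega

theorem rg_inj {σ : Bool} {k k' : ℕ} (h : V.pos σ k = V.pos σ k') (h2 : V.rg σ k = V.rg σ k') :
    k = k' := by
  wlog hk : k ≤ k' generalizing k k'
  · exact (this h.symm h2.symm (by omega)).symm
  rcases V.pos_eq hk h with h3 | ⟨h3, -⟩
  · exact h3.symm
  · exfalso
    have h4 := congrArg Prod.snd h2
    rw [rg_snd, rg_snd, h3, V.alternate] at h4
    cases (V.c k).2 <;> cases σ <;> simp at h4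

/-- the cells above a vertex with a rung -/
theorem cell_above {σ : Bool} {k K j : ℕ} (hj : j < V.len K σ) (h : V.pos σ k = V.pos σ K + j) :
    j = 0 ∧ (K = k ∨ (K = k + 1 ∧ V.len k σ = 0)) := by
  have hkK : k ≤ K := by
    by_contra hcon
    have := V.pos_mono σ (show K + 1 ≤ k by omega)
    rw [pos_succ] at this
    omega
  have h1 := V.pos_mono σ hkK
  have hj0 : j = 0 := by omega
  subst hj0
  exact ⟨rfl, V.pos_eq hkK (by omega)⟩

/-- the cells below a vertex with a rung -/
theorem cell_below {σ : Bool} {k K j : ℕ} (hj : j < V.len K σ)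
    (h : V.pos σ k = V.pos σ K + j + 1) :
    j + 1 = V.len K σ ∧ (k = K + 1 ∨ (k = K + 2 ∧ V.len (K + 1) σ = 0)) := by
  have hkK : K + 1 ≤ k := by
    by_contra hcon
    have := V.pos_mono σ (show k ≤ K by omega)
    omega
  have h1 := V.pos_mono σ hkK
  rw [pos_succ] at h1
  have hj0 : j + 1 = V.len K σ := by omega
  refine ⟨hj0, ?_⟩
  exact V.pos_eq hkK (by rw [pos_succ]; omega)

theorem up_ne_rung {σ : Bool} {k i : ℕ} (h : V.pos σ k = i) : V.u σ i ≠ V.rg σ k := by
  obtain ⟨K, j, hj, rfl⟩ := V.exists_cell σ i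
  rw [V.u_eq hj]
  obtain ⟨rfl, rfl | ⟨rfl, h0⟩⟩ := V.cell_above hj h
  · intro h2
    have h3 := congrArg Prod.snd h2
    rw [ul_snd, rg_snd] at h3
    cases (V.c K).2 <;> cases σ <;> simp at h3
  · have h4 := V.stepσ σ k
    rw [h0] at h4
    unfold ul rg
    rw [h4]
    generalize V.c k = y
    revert y
    cases σ <;> decide

theorem down_ne_rung {σ : Bool} {k i : ℕ} (h : V.pos σ k = i + 1) :
    flip (V.u σ i) ≠ V.rg σ k := by
  obtain ⟨K, j, hj, rfl⟩ := V.exists_cell σ i
  rw [V.u_eq hj]
  obtain ⟨h1, rfl | ⟨rfl, h0⟩⟩ := V.cell_below hj h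
  · intro h2
    have h3 := congrArg Prod.snd h2
    rw [flip_snd, ul_snd, rg_snd, V.alternate] at h3
    cases (V.c K).2 <;> cases σ <;> simp at h3
  · have h4 := V.stepσ σ (K + 1)
    rw [h0, V.stepσ σ K, ← h1] at h4
    unfold ul rg
    rw [show K + 2 = K + 1 + 1 from rfl, h4, Function.iterate_succ_apply' nxt (j + 1)]
    generalize nxt^[j + 1] (V.c K) = y
    revert y
    cases σ <;> decide

theorem up_ne_down (σ : Bool) (i : ℕ) : V.u σ (i + 1) ≠ flip (V.u σ i) := by
  obtain ⟨K, j, hj, rfl⟩ := V.exists_cell σ i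
  rw [V.u_eq hj]
  by_cases hj2 : j + 1 < V.len K σ
  · rw [add_assoc, V.u_eq hj2]
    intro h2
    have h3 := congrArg Prod.snd h2
    rw [flip_snd, ul_snd, ul_snd] at h3
    cases (V.c K).2 <;> cases σ <;> simp at h3
  · have h1 : j + 1 = V.len K σ := by omega
    have h2 : V.pos σ K + j + 1 = V.pos σ (K + 1) + 0 := by rw [pos_succ]; omega
    have h3 := V.stepσ σ K
    by_cases h0 : V.len (K + 1) σ = 0
    · have h4 := V.nz _ _ h0
      have h5 : V.pos σ (K + 1) + 0 = V.pos σ (K + 1 + 1) + 0 := by
        rw [V.pos_succ σ (K + 1)]; omega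
      rw [h2, h5, V.u_eq h4]
      have h6 := V.stepσ σ (K + 1)
      rw [h0, h3, ← h1] at h6
      unfold ul
      rw [h6, Function.iterate_succ_apply' nxt (j + 1)]
      generalize nxt^[j + 1] (V.c K) = y
      revert y
      cases σ <;> decide
    · rw [h2, V.u_eq (by omega)]
      rw [← h1] at h3
      unfold ul
      rw [h3, Function.iterate_succ_apply' nxt (j + 1)]
      generalize nxt^[j + 1] (V.c K) = y
      revert y
      cases σ <;> decide

/-- The edges of the ladder. -/
inductive Adj : Bool × ℕ → Letter → Bool × ℕ → Prop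
  | up (σ : Bool) (i : ℕ) : Adj (σ, i) (V.u σ i) (σ, i + 1)
  | down (σ : Bool) (i : ℕ) : Adj (σ, i + 1) (flip (V.u σ i)) (σ, i)
  | lr (k : ℕ) : Adj (false, V.pos false k) (V.c k) (true, V.pos true k)
  | rl (k : ℕ) : Adj (true, V.pos true k) (flip (V.c k)) (false, V.pos false k)

variable {V} in
theorem adj_iff {σ : Bool} {i : ℕ} {y : Letter} {x' : Bool × ℕ} : V.Adj (σ, i) y x' ↔
    (y = V.u σ i ∧ x' = (σ, i + 1)) ∨
    (∃ j, i = j + 1 ∧ y = flip (V.u σ j) ∧ x' = (σ, j)) ∨
    (∃ k, V.pos σ k = i ∧ y = V.rg σ k ∧ x' = (!σ, V.pos (!σ) k)) := by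
  constructor
  · intro h
    generalize hx : (σ, i) = x at h
    cases h with
    | up σ' i' => cases hx; exact Or.inl ⟨rfl, rfl⟩
    | down σ' i' => cases hx; exact Or.inr (Or.inl ⟨i', rfl, rfl, rfl⟩)
    | lr k => cases hx; exact Or.inr (Or.inr ⟨k, rfl, rfl, rfl⟩)
    | rl k => cases hx; exact Or.inr (Or.inr ⟨k, rfl, rfl, rfl⟩)
  · rintro (⟨rfl, rfl⟩ | ⟨j, rfl, rfl, rfl⟩ | ⟨k, rfl, rfl, rfl⟩)
    · exact Adj.up _ _
    · exact Adj.down _ _
    · cases σ
      · exact Adj.lr k
      · exact Adj.rl k

theorem det {x y x1 x2} (h1 : V.Adj x y x1) (h2 : V.Adj x y x2) : x1 = x2 := by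
  obtain ⟨σ, i⟩ := x
  rw [adj_iff] at h1 h2
  rcases h1 with ⟨h1, h1'⟩ | ⟨j, h1, h1', h1''⟩ | ⟨k, h1, h1', h1''⟩ <;>
    rcases h2 with ⟨h2, h2'⟩ | ⟨j2, h2, h2', h2''⟩ | ⟨k2, h2, h2', h2''⟩
  · rw [h1', h2']
  · subst h2
    exact absurd (h1.symm.trans h2') (V.up_ne_down σ j2)
  · exact absurd (h1.symm.trans h2') (V.up_ne_rung h2)
  · subst h1
    exact absurd (h2.symm.trans h1') (V.up_ne_down σ j)
  · rw [h1'', h2'']
    have : j = j2 := by omega
    rw [this]
  · subst h1
    exact absurd (h1'.symm.trans h2') (V.down_ne_rung h2)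
  · exact absurd (h2.symm.trans h1') (V.up_ne_rung h1)
  · subst h2
    exact absurd (h2'.symm.trans h1') (V.down_ne_rung h1)
  · have := V.rg_inj (h1.trans h2.symm) (h1'.symm.trans h2')
    rw [h1'', h2'', this]

/-- The system of a ladder. -/
def sys : DSys (Bool × ℕ) where
  Adj := V.Adj
  symm := by
    intro x y x' h
    cases h with
    | up σ i => exact Adj.down σ i
    | down σ i => rw [flip_flip]; exact Adj.up σ i
    | lr k => exact Adj.rl k
    | rl k => rw [flip_flip]; exact Adj.lr k
  det := V.det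

/-- The boundary of the cell `k`, from the left end of the rung `k`. -/
def face (k : ℕ) (t : ℕ) : Bool × ℕ :=
  if t = 0 then (false, V.pos false k)
  else if t ≤ V.len k true + 1 then (true, V.pos true k + (t - 1))
  else (false, V.pos false (k + 1) - (t - (V.len k true + 2)))

theorem face_zero (k : ℕ) : V.face k 0 = (false, V.pos false k) := rfl

theorem face_right {k t : ℕ} (h : t ≤ V.len k true) :
    V.face k (t + 1) = (true, V.pos true k + t) := by
  unfold face
  rw [if_neg (by omega), if_pos (by omega), Nat.add_sub_cancel]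

theorem face_left {k t : ℕ} : V.face k (V.len k true + 2 + t) =
    (false, V.pos false (k + 1) - t) := by
  unfold face
  rw [if_neg (by omega), if_neg (by omega), Nat.add_sub_cancel_left]

theorem face_spec (k : ℕ) : V.sys.Face l m n (V.c k) (V.face k) := by
  have hcyc := V.cyc k
  constructor
  · intro t ht
    change V.Adj _ _ _
    rcases Nat.eq_zero_or_pos t with rfl | ht0
    · rw [face_zero, V.face_right (Nat.zero_le _)]
      exact Adj.lr k
    · obtain ⟨t, rfl⟩ : ∃ t', t = t' + 1 := ⟨t - 1, by omega⟩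
      rcases Nat.lt_trichotomy t (V.len k true) with h | h | h
      · rw [V.face_right h.le, V.face_right (show t + 1 ≤ V.len k true from h)]
        have h2 := V.u_eq h
        change V.u true (V.pos true k + t) = nxt^[t + 1] (V.c k) at h2
        rw [← h2]
        exact Adj.up true _
      · rw [V.face_right h.le, h, show V.len k true + 1 + 1 = V.len k true + 2 + 0 by ring,
          V.face_left, Nat.sub_zero, ← V.pos_succ]
        have h2 := congrArg flip (V.step k)
        rw [flip_flip] at h2
        rw [← h2]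
        exact Adj.rl (k + 1)
      · obtain ⟨j, rfl⟩ : ∃ j, t = V.len k true + 1 + j := ⟨t - V.len k true - 1, by omega⟩
        have hj : j < V.len k false := by omega
        rw [show V.len k true + 1 + j + 1 = V.len k true + 2 + j by ring, V.face_left,
          show V.len k true + 2 + j + 1 = V.len k true + 2 + (j + 1) by ring, V.face_left]
        have h1 : V.pos false (k + 1) - j =
            V.pos false k + (V.len k false - 1 - j) + 1 := by
          rw [pos_succ]; omega
        have h2 : V.pos false (k + 1) - (j + 1) =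
            V.pos false k + (V.len k false - 1 - j) := by
          rw [pos_succ]; omega
        rw [h1, h2]
        have h3 := V.u_eq (σ := false) (k := k) (j := V.len k false - 1 - j) (by omega)
        have h4 : flip (V.u false (V.pos false k + (V.len k false - 1 - j))) =
            nxt^[V.len k true + 2 + j] (V.c k) := by
          rw [h3]
          change flip (flip _) = _
          rw [flip_flip]
          apply nxt_iter_eq (l := l) (m := m) (n := n)
          omega
        rw [← h4]
        exact Adj.down false _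
  · rw [← hcyc, show V.len k true + V.len k false + 2 = V.len k true + 2 + V.len k false by ring,
      V.face_left, face_zero, pos_succ, Nat.add_sub_cancel]

theorem inner_lr (k : ℕ) : V.sys.Inner l m n (false, V.pos false k) (V.c k) :=
  ⟨V.c k, V.face k, 0, V.face_spec k, by have := V.cyc k; omega, rfl, rfl⟩

theorem inner_rl (k : ℕ) :
    V.sys.Inner l m n (true, V.pos true (k + 1)) (flip (V.c (k + 1))) := by
  refine ⟨V.c k, V.face k, V.len k true + 1, V.face_spec k, by have := V.cyc k; omega, ?_, ?_⟩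
  · rw [V.face_right le_rfl, pos_succ]
  · rw [V.step k, flip_flip]

theorem inner_up (i : ℕ) : V.sys.Inner l m n (true, i) (V.u true i) := by
  obtain ⟨k, j, hj, rfl⟩ := V.exists_cell true i
  refine ⟨V.c k, V.face k, j + 1, V.face_spec k, by have := V.cyc k; omega, ?_, ?_⟩
  · rw [V.face_right hj.le]
  · rw [V.u_eq hj]
    rfl

theorem inner_down (i : ℕ) : V.sys.Inner l m n (false, i + 1) (flip (V.u false i)) := by
  obtain ⟨k, j, hj, rfl⟩ := V.exists_cell false i
  have hcyc := V.cyc k
  refine ⟨V.c k, V.face k, V.len k true + 2 + (V.len k false - 1 - j), V.face_spec k, by omega,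
    ?_, ?_⟩
  · rw [V.face_left, pos_succ]
    congr 1
    omega
  · rw [V.u_eq hj]
    change flip (flip _) = _
    rw [flip_flip]
    apply nxt_iter_eq (l := l) (m := m) (n := n)
    omega

/-- The number of P-cells minus the number of N-cells below the rung `k`. -/
def hgt : ℕ → ℤ
  | 0 => 0
  | k + 1 => hgt k - fht (V.c k)

/-- The letters of the edges `0, …, i - 1` of the line `σ`. -/
def uword (σ : Bool) (i : ℕ) : List Letter := (List.range i).map (V.u σ)

/-- The section of the group over the ladder. -/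
noncomputable def val (x : Bool × ℕ) : E l m n :=
  (if x.1 then 1 else eval l m n [flip (V.c 0)]) * eval l m n (V.uword x.1 x.2)

theorem val_up (σ : Bool) (i : ℕ) :
    V.val (σ, i) * eval l m n [V.u σ i] = V.val (σ, i + 1) := by
  unfold val uword
  simp only [List.range_succ, List.map_append, List.map_cons, List.map_nil]
  rw [eval_append, mul_assoc]

theorem val_down (σ : Bool) (i : ℕ) :
    V.val (σ, i + 1) * eval l m n [flip (V.u σ i)] = V.val (σ, i) := by
  rw [← val_up, eval_flip, mul_inv_cancel_right]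

theorem fw_succ' (y : Letter) (j : ℕ) : fw y (j + 1) = fw y j ++ [nxt^[j] y] := by
  rw [fw_add]
  rfl

theorem val_right (k j : ℕ) (h : j ≤ V.len k true) :
    V.val (true, V.pos true k) * eval l m n (fw (nxt (V.c k)) j) =
      V.val (true, V.pos true k + j) := by
  induction j with
  | zero => rw [fw, eval_nil, mul_one, Nat.add_zero]
  | succ j ih =>
    rw [fw_succ', eval_append, ← mul_assoc, ih (by omega), ← Nat.add_assoc, ← val_up]
    congr 3
    rw [V.u_eq (show j < V.len k true by omega)]
    change _ = nxt^[j + 1] (V.c k)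
    rw [Function.iterate_succ_apply]

theorem val_left (k j : ℕ) (h : j ≤ V.len k false) :
    V.val (false, V.pos false (k + 1)) *
      eval l m n (fw (nxt^[V.len k true + 2] (V.c k)) j) =
      V.val (false, V.pos false (k + 1) - j) := by
  have hcyc := V.cyc k
  induction j with
  | zero => rw [fw, eval_nil, mul_one, Nat.sub_zero]
  | succ j ih =>
    rw [fw_succ', eval_append, ← mul_assoc, ih (by omega)]
    have h1 : V.pos false (k + 1) - j =
        V.pos false k + (V.len k false - 1 - j) + 1 := by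
      rw [pos_succ]; omega
    have h2 : V.pos false (k + 1) - (j + 1) =
        V.pos false k + (V.len k false - 1 - j) := by
      rw [pos_succ]; omega
    rw [h1, h2, ← V.val_down false (V.pos false k + (V.len k false - 1 - j))]
    congr 3
    rw [V.u_eq (show V.len k false - 1 - j < V.len k false by omega),
      ← Function.iterate_add_apply]
    change _ = flip (flip _)
    rw [flip_flip]
    apply nxt_iter_eq (l := l) (m := m) (n := n)
    omega

theorem zpow_comm (k : ℤ) (g : E l m n) :
    (genB l m n ^ n) ^ k * g = g * (genB l m n ^ n) ^ k := by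
  have h : Commute (genB l m n ^ n) g := z_comm l m n g
  exact (h.zpow_left k).eq

theorem val_lr (k : ℕ) : V.val (false, V.pos false k) * eval l m n [V.c k] =
    V.val (true, V.pos true k) * (genB l m n ^ n) ^ V.hgt k := by
  induction k with
  | zero =>
    change (eval l m n [flip (V.c 0)] * eval l m n []) * eval l m n [V.c 0] =
      (1 * eval l m n []) * (genB l m n ^ n) ^ (0 : ℤ)
    rw [eval_nil, eval_flip, mul_one, mul_one, inv_mul_cancel, zpow_zero, one_mul]
  | succ k ih =>
    have hcyc := V.cyc k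
    have h1 := eval_face l m n (V.c k)
    rw [← hcyc, show V.len k true + V.len k false + 2 =
      V.len k true + 1 + 1 + V.len k false by ring, fw_add, eval_append, fw_succ', eval_append,
      fw, eval_cons] at h1
    have h2 := V.val_right k _ le_rfl
    have h3 := V.val_left k _ le_rfl
    rw [← pos_succ] at h2
    rw [V.pos_succ false, Nat.add_sub_cancel, ← V.pos_succ false] at h3
    have h4 : nxt^[V.len k true + 1] (V.c k) = flip (V.c (k + 1)) := by
      rw [V.step k, flip_flip]
    rw [h4, eval_flip] at h1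
    change _ * eval l m n (fw (nxt^[V.len k true + 1 + 1] (V.c k)) (V.len k false)) = _ at h3
    set A := V.val (false, V.pos false k)
    set T := V.val (true, V.pos true k)
    set A' := V.val (false, V.pos false (k + 1))
    set T' := V.val (true, V.pos true (k + 1))
    set R := eval l m n (fw (nxt (V.c k)) (V.len k true))
    set Lf := eval l m n (fw (nxt^[V.len k true + 1 + 1] (V.c k)) (V.len k false))
    set e := eval l m n [V.c k]
    set e' := eval l m n [V.c (k + 1)]
    change A' * e' = T' * (genB l m n ^ n) ^ (V.hgt k - fht (V.c k))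
    have h5 : Lf⁻¹ * e' = (genB l m n ^ n) ^ (-fht (V.c k)) * (e * R) := by
      rw [zpow_neg, ← h1]
      group
    have h6 : A' = A * Lf⁻¹ := by rw [← h3, mul_inv_cancel_right]
    rw [h6, mul_assoc, h5, zpow_comm, ← mul_assoc A, ← mul_assoc A, ih, mul_assoc T,
      zpow_comm _ R, ← mul_assoc T, h2, mul_assoc, ← zpow_add, ← sub_eq_add_neg]

open Classical in
/-- The heights of the edges of the ladder. -/
noncomputable def κ (x : Bool × ℕ) (y : Letter) : ℤ :=
  if h : ∃ k, x = (false, V.pos false k) ∧ y = V.c k then V.hgt h.choose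
  else if h : ∃ k, x = (true, V.pos true k) ∧ y = flip (V.c k) then -V.hgt h.choose
  else 0

theorem κ_lr (k : ℕ) : V.κ (false, V.pos false k) (V.c k) = V.hgt k := by
  have h : ∃ k', ((false, V.pos false k) : Bool × ℕ) = (false, V.pos false k') ∧
      V.c k = V.c k' := ⟨k, rfl, rfl⟩
  unfold κ
  rw [dif_pos h]
  have h2 := h.choose_spec
  rw [← V.rg_inj (σ := false) (congrArg Prod.snd h2.1) h2.2]

theorem κ_rl (k : ℕ) : V.κ (true, V.pos true k) (flip (V.c k)) = -V.hgt k := by
  have h : ∃ k', ((true, V.pos true k) : Bool × ℕ) = (true, V.pos true k') ∧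
      flip (V.c k) = flip (V.c k') := ⟨k, rfl, rfl⟩
  unfold κ
  rw [dif_neg, dif_pos h]
  · have h2 := h.choose_spec
    rw [← V.rg_inj (σ := true) (congrArg Prod.snd h2.1) h2.2]
  · rintro ⟨k', h2, -⟩
    cases h2

theorem κ_eq_zero {σ : Bool} {i : ℕ} {y : Letter}
    (h : ∀ k, V.pos σ k = i → y ≠ V.rg σ k) : V.κ (σ, i) y = 0 := by
  unfold κ
  rw [dif_neg, dif_neg]
  · rintro ⟨k, h1, h2⟩
    cases h1
    exact h k rfl h2
  · rintro ⟨k, h1, h2⟩
    cases h1
    exact h k rfl h2

theorem κ_up (σ : Bool) (i : ℕ) : V.κ (σ, i) (V.u σ i) = 0 :=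
  V.κ_eq_zero fun _ h => V.up_ne_rung h

theorem κ_down (σ : Bool) (i : ℕ) : V.κ (σ, i + 1) (flip (V.u σ i)) = 0 :=
  V.κ_eq_zero fun _ h => V.down_ne_rung h

theorem vval (x : Bool × ℕ) (y : Letter) (x' : Bool × ℕ) (h : V.Adj x y x') :
    V.val x * eval l m n [y] = V.val x' * (genB l m n ^ n) ^ V.κ x y := by
  cases h with
  | up σ i => rw [κ_up, zpow_zero, mul_one, val_up]
  | down σ i => rw [κ_down, zpow_zero, mul_one, val_down]
  | lr k => rw [κ_lr, val_lr]
  | rl k =>
    rw [κ_rl, eval_flip, mul_inv_eq_iff_eq_mul, mul_assoc, zpow_comm, ← mul_assoc, val_lr,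
      mul_assoc, ← zpow_add, add_neg_cancel, zpow_zero, mul_one]

/-- The edge `i` of the line `σ` belongs to a P-cell. -/
def isP (σ : Bool) (i : ℕ) : Prop := (V.u σ i).2 = !σ

instance (σ : Bool) (i : ℕ) : Decidable (V.isP σ i) := inferInstanceAs (Decidable (_ = _))

theorem isP_iff {σ : Bool} {k j : ℕ} (h : j < V.len k σ) :
    V.isP σ (V.pos σ k + j) ↔ (V.c k).2 = false := by
  unfold isP
  rw [V.u_eq h, ul_snd]
  cases (V.c k).2 <;> cases σ <;> simp

theorem nxt_iter_pos {y : Letter} (h : y.2 = true) (a : ℕ) : nxt^[a] y = y := by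
  induction a with
  | zero => rfl
  | succ a ih => rw [Function.iterate_succ_apply', ih, DSys.nxt_pos h]

/-- The letter of the same sign for the other generator. -/
def oth (y : Letter) : Letter := (if y.1 = 0 then 1 else 0, y.2)

/-- The vertices of the lines, if all P-cells have edges on both lines. The five cases: inside the
side of a Q- or N-cell; below a P-cell; above a P-cell; inside the side of a P-cell; two rungs
(at a Q- or N-cell without edges on the line). -/
theorem vertex_cases (hP : ∀ k σ, (V.c k).2 = false → 0 < V.len k σ) (σ : Bool) (i : ℕ) :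
    (¬ V.isP σ i ∧ ¬ V.isP σ (i + 1) ∧ V.u σ (i + 1) = V.u σ i ∧ ∀ k, V.pos σ k ≠ i + 1) ∨
    (¬ V.isP σ i ∧ V.isP σ (i + 1) ∧ ∃ k, V.pos σ k = i + 1 ∧ (V.c k).2 = false ∧
      (∀ k', V.pos σ k' = i + 1 → k' = k) ∧
      V.u σ i = (if σ then flip (V.c k) else V.c k) ∧
      V.u σ (i + 1) = (if σ then oth (V.c k) else flip (oth (V.c k)))) ∨
    (V.isP σ i ∧ ¬ V.isP σ (i + 1) ∧ ∃ k, V.pos σ k = i + 1 ∧ (V.c k).2 = true ∧
      (∀ k', V.pos σ k' = i + 1 → k' = k) ∧
      V.u σ i = (if σ then flip (oth (V.c k)) else oth (V.c k)) ∧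
      V.u σ (i + 1) = (if σ then V.c k else flip (V.c k))) ∨
    (V.isP σ i ∧ V.isP σ (i + 1) ∧ V.u σ (i + 1) = oth (V.u σ i) ∧
      ∀ k, V.pos σ k ≠ i + 1) ∨
    (V.isP σ i ∧ V.isP σ (i + 1) ∧ V.u σ (i + 1) = V.u σ i ∧ ∃ k, V.pos σ k = i + 1 ∧
      V.pos σ (k + 1) = i + 1 ∧ (V.c k).2 = true ∧ V.c (k + 1) = flip (V.c k) ∧
      V.u σ i = (if σ then flip (oth (V.c k)) else oth (V.c k)) ∧
      (∀ k', V.pos σ k' = i + 1 → k' = k ∨ k' = k + 1)) := by
  obtain ⟨K, j, hj, rfl⟩ := V.exists_cell σ i
  have hns : ∀ z : Letter, z.2 = false → flip (nxt z) = oth (flip z) ∧ nxt z = oth z ∧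
      z = flip (oth (flip (nxt z))) ∧ nxt (flip (nxt (flip (nxt z)))) = z := by decide
  have hul : ∀ k σ j, V.ul k σ j = if σ then nxt^[j + 1] (V.c k) else flip (nxt^[j + 1] (V.c k)) :=
    fun _ _ _ => rfl
  by_cases hj2 : j + 1 < V.len K σ
  · have hno : ∀ k, V.pos σ k ≠ V.pos σ K + j + 1 := by
      intro k hk
      have := (V.cell_below hj hk).1
      omega
    have hu1 := V.u_eq hj
    have hu2 := V.u_eq hj2
    have hi1 := V.isP_iff hj
    have hi2 := V.isP_iff hj2
    rw [← Nat.add_assoc] at hu2 hi2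
    cases hc : (V.c K).2
    · right; right; right; left
      refine ⟨hi1.2 hc, hi2.2 hc, ?_, hno⟩
      rw [hu1, hu2, hul, hul, Function.iterate_succ_apply' nxt (j + 1)]
      have hz : (nxt^[j + 1] (V.c K)).2 = false := by rw [nxt_iter_snd, hc]
      generalize nxt^[j + 1] (V.c K) = z at hz
      cases σ
      · exact (hns z hz).1
      · exact (hns z hz).2.1
    · left
      refine ⟨?_, ?_, ?_, hno⟩
      · rw [hi1, hc]; decide
      · rw [hi2, hc]; decide
      · rw [hu1, hu2, hul, hul, nxt_iter_pos hc, nxt_iter_pos hc]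
  · have hj3 : j + 1 = V.len K σ := by omega
    have hpos : V.pos σ (K + 1) = V.pos σ K + j + 1 := by rw [pos_succ]; omega
    have hu1 := V.u_eq hj
    have hi1 := V.isP_iff hj
    have hst := V.stepσ σ K
    rw [← hj3, Function.iterate_succ_apply' nxt (j + 1)] at hst
    have halt := V.alternate K
    cases hc : (V.c K).2
    · have hc1 : (V.c (K + 1)).2 = true := by rw [halt, hc]; rfl
      have hz : (nxt^[j + 1] (V.c K)).2 = false := by rw [nxt_iter_snd, hc]
      have hui : V.u σ (V.pos σ K + j) =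
          if σ then flip (oth (V.c (K + 1))) else oth (V.c (K + 1)) := by
        rw [hu1, hul, hst]
        generalize nxt^[j + 1] (V.c K) = z at hz
        revert z
        cases σ <;> decide
      by_cases h0 : V.len (K + 1) σ = 0
      · have h2 := V.nz _ _ h0
        have hpos2 : V.pos σ (K + 1 + 1) = V.pos σ K + j + 1 := by
          rw [V.pos_succ σ (K + 1), hpos, h0]
        have hst2 := V.stepσ σ (K + 1)
        rw [h0] at hst2
        have hst3 : V.c (K + 1 + 1) = flip (V.c (K + 1)) := by
          rw [hst2, nxt_iter_pos hc1]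
        have hu2 := V.u_eq h2
        have hi2 := V.isP_iff h2
        rw [Nat.add_zero, hpos2] at hu2 hi2
        have hc2 : (V.c (K + 1 + 1)).2 = false := by rw [V.alternate, hc1]; rfl
        right; right; right; right
        refine ⟨hi1.2 hc, hi2.2 hc2, ?_, K + 1, hpos, hpos2, hc1, hst3, hui, ?_⟩
        · rw [hu2, hu1, hul, hul, hst2, hst]
          generalize nxt^[j + 1] (V.c K) = z at hz
          revert z
          cases σ <;> decide
        · intro k' hk'
          rcases (V.cell_below hj hk').2 with h | ⟨h, -⟩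
          · exact Or.inl h
          · exact Or.inr h
      · have h2 : 0 < V.len (K + 1) σ := by omega
        have hu2 := V.u_eq h2
        have hi2 := V.isP_iff h2
        rw [Nat.add_zero, hpos] at hu2 hi2
        right; right; left
        refine ⟨hi1.2 hc, ?_, K + 1, hpos, hc1, ?_, hui, ?_⟩
        · rw [hi2, hc1]; decide
        · intro k' hk'
          rcases (V.cell_below hj hk').2 with h | ⟨-, h⟩
          · exact h
          · exact absurd h h0
        · rw [hu2, hul, nxt_iter_pos hc1]
    · have hc1 : (V.c (K + 1)).2 = false := by rw [halt, hc]; rfl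
      have h2 := hP (K + 1) σ hc1
      have hu2 := V.u_eq h2
      have hi2 := V.isP_iff h2
      rw [Nat.add_zero, hpos] at hu2 hi2
      right; left
      refine ⟨?_, hi2.2 hc1, K + 1, hpos, hc1, ?_, ?_, ?_⟩
      · rw [hi1, hc]; decide
      · intro k' hk'
        rcases (V.cell_below hj hk').2 with h | ⟨-, h⟩
        · exact h
        · omega
      · rw [hu1, hul, hst, nxt_iter_pos hc, DSys.nxt_pos hc]
        cases σ
        · rfl
        · exact (flip_flip _).symm
      · rw [hu2, hul]
        have h3 : nxt^[0 + 1] (V.c (K + 1)) = oth (V.c (K + 1)) := (hns _ hc1).2.1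
        rw [h3]

/-- The lowest vertex of a line. -/
theorem bottom_cases (hP : ∀ k σ, (V.c k).2 = false → 0 < V.len k σ) (σ : Bool) :
    (0 < V.len 0 σ ∧ V.u σ 0 = (if σ then nxt (V.c 0) else flip (nxt (V.c 0))) ∧
      ∀ k, V.pos σ k = 0 → k = 0) ∨
    (V.len 0 σ = 0 ∧ (V.c 0).2 = true ∧ V.c 1 = flip (V.c 0) ∧
      V.u σ 0 = (if σ then flip (oth (V.c 0)) else oth (V.c 0)) ∧
      ∀ k, V.pos σ k = 0 → k = 0 ∨ k = 1) := by
  by_cases h0 : V.len 0 σ = 0
  · right
    have h1 := V.nz 0 σ h0
    have hc : (V.c 0).2 = true := by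
      cases hc : (V.c 0).2
      · have := hP 0 σ hc
        omega
      · rfl
    have hst := V.stepσ σ 0
    rw [h0, nxt_iter_pos hc] at hst
    have hu := V.u_eq (k := 0 + 1) h1
    have hp1 : V.pos σ (0 + 1) = 0 := by
      rw [pos_succ, h0]
      rfl
    rw [hp1] at hu
    refine ⟨h0, hc, hst, ?_, ?_⟩
    · rw [show (0 : ℕ) = 0 + 0 from rfl, hu]
      change (if σ then nxt^[0 + 1] (V.c (0 + 1)) else flip (nxt^[0 + 1] (V.c (0 + 1)))) = _
      rw [hst]
      generalize V.c 0 = z at hc
      revert z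
      cases σ <;> decide
    · intro k hk
      rcases V.pos_eq (k := 0) (k' := k) (σ := σ) (Nat.zero_le _) (by rw [hk]; rfl) with h | ⟨h, -⟩
      · exact Or.inl h
      · exact Or.inr h
  · left
    have h1 : 0 < V.len 0 σ := by omega
    have hu := V.u_eq (k := 0) h1
    refine ⟨h1, ?_, ?_⟩
    · change V.u σ (V.pos σ 0 + 0) = _
      rw [hu]
      rfl
    · intro k hk
      rcases V.pos_eq (k := 0) (k' := k) (σ := σ) (Nat.zero_le _) (by rw [hk]; rfl) with h | ⟨-, h⟩
      · exact h
      · exact absurd h h0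

end VLad

end Pool.Agent.SLE
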