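import Pool.Agent.SLE.Cycle

/-!
# Minimal cost words: the wall criterion
-/

namespace Pool.Agent.SLE

open CoxeterSystem List

variable {B W : Type*} [Group W] {M : CoxeterMatrix B} {cs : CoxeterSystem M W}

/-- `ω'` is `ω` with a letter removed; the removed letter is `o` if the cost is unchanged. -/
theorem eraseIdx_split {V : List B} {p : ℕ} (hp : p < V.length) :
    ∃ V1 V3 : List B, ∃ q : B, V = V1 ++ q :: V3 ∧ V.eraseIdx p = V1 ++ V3 ∧ V1.length = p :=
  ⟨V.take p, V.drop (p + 1), V[p], by simp, by rw [List.eraseIdx_eq_take_drop_succ],
    by simp; omega⟩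

/-- **Classification of minimal cost words, wall criterion.** -/
theorem run_of_min_cost_wall [DecidableEq B] (hex : ExactOrders cs) {C : Type*}
    {f : C → B → Option C} (hf : BraidClosed M f) {o : B} {F : C → ℤ} (hF : Potential o f F)
    (hW : ∀ c d U, f c o = none → f d o = none → run f c U = some d → cs.IsReduced U →
      U ≠ [] → cs.wordProd (o :: U) ≠ cs.wordProd (U ++ [o]))
    (V : List B) (hV : V.IsChain (fun a b => ¬ (a = o ∧ b = o)))
    {ω : List B} {c e : C} (hrun : run f c ω = some e)
    (heq : cs.wordProd V = cs.wordProd ω) (hcost : F c + cost o V ≤ F e) :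
    run f c V = some e := by
  induction hn : V.length using Nat.strong_induction_on generalizing V ω c with
  | _ n ih =>
  cases V with
  | nil =>
    exact run_of_reduced hex hf ω c e hrun [] (by simp [CoxeterSystem.IsReduced]) heq
  | cons s R =>
    have hR : R.IsChain (fun a b => ¬ (a = o ∧ b = o)) := hV.tail
    simp only [List.length_cons] at hn
    by_cases hs : s = o
    · subst hs
      rw [cost_cons_self] at hcost
      cases hc : f c s with
      | some c' =>
        rw [run_cons, hc, Option.bind_some]
        refine ih R.length (by omega) R hR (ω := s :: ω) (c := c') ?_ ?_ ?_ rfl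
        · rw [run_cons_some]; exact ⟨c, hf.symm _ _ _ hc, hrun⟩
        · rw [wordProd_cons, ← heq, wordProd_cons]; simp
        · rw [hF.free _ _ hc]; exact hcost
      | none =>
        exfalso
        have hnd : ¬ cs.IsLeftDescent (cs.wordProd ω) s := by
          intro hd
          obtain ⟨U, hU, -, hU2, -⟩ := exists_reduced_cons hd
          have := run_of_reduced hex hf ω c e hrun _ hU hU2
          rw [run_cons, hc] at this
          simp at this
        have hy : cs.wordProd R = cs.simple s * cs.wordProd ω := by
          rw [← heq, wordProd_cons cs s]; simp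
        have hds : cs.IsLeftDescent (cs.wordProd R) s := by
          rw [hy, cs.isLeftDescent_iff]
          have := cs.not_isLeftDescent_iff.1 hnd
          simp [this]
        obtain ⟨p, hp, hp2⟩ := exchange_left cs R s hds
        obtain ⟨R1, R3, q, hR1, hR2, hR3⟩ := eraseIdx_split hp
        have hRR : cs.wordProd (R1 ++ R3) = cs.wordProd ω := by
          rw [← hR2, hp2, hy]; simp
        have hle := le_cost_of_eq hex hf hF hrun hRR
        have hq : q = s := by
          by_contra hqs
          rw [hR1, cost_append, cost_cons_ne s hqs] at hcost
          rw [cost_append] at hle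
          push_cast at hcost hle
          linarith
        subst hq
        -- `R = R1 ++ q :: R3`
        have hcomm : cs.wordProd (q :: R1) = cs.wordProd (R1 ++ [q]) := by
          have h1 : cs.wordProd R = cs.wordProd (R1 ++ [q]) * cs.wordProd R3 := by
            rw [hR1, ← wordProd_append]; simp
          have h2 : cs.wordProd R = cs.wordProd (q :: R1) * cs.wordProd R3 := by
            rw [hy, ← hRR, wordProd_append, wordProd_cons]; simp [mul_assoc]
          exact mul_right_cancel (h2.symm.trans h1)
        have hR1ne : R1 ≠ [] := by
          intro h
          subst h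
          rw [hR1] at hV
          simp at hV
        have hchain : (R1 ++ R3).IsChain (fun a b => ¬ (a = q ∧ b = q)) := by
          rw [hR1] at hR
          rw [List.isChain_append] at hR ⊢
          refine ⟨hR.1, ?_, ?_⟩
          · exact hR.2.1.tail
          · intro x hx y hy
            have h1 := hR.2.2 x hx q (by simp)
            intro hxy
            exact h1 ⟨hxy.1, rfl⟩
        have hcR : cost q R = cost q (R1 ++ R3) := by
          rw [hR1, cost_append, cost_append, cost_cons_self]
        have hrun' : run f c (R1 ++ R3) = some e := by
          refine ih (R1 ++ R3).length ?_ _ hchain hrun hRR ?_ rfl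
          · rw [← hn, hR1]; simp
          · rw [← hcR]; exact hcost
        rw [run_append_some] at hrun'
        obtain ⟨d, hd, hd2⟩ := hrun'
        obtain ⟨U, hUs, hUr, hUp⟩ := exists_reduced_sublist cs R1
        have hUrun : run f c U = some d := run_of_reduced hex hf R1 c d hd U hUr hUp
        have hUne : U ≠ [] := by
          intro h
          subst h
          have h1 : cs.wordProd R1 = 1 := by rw [← hUp]; simp
          have h2 : cs.wordProd R3 = cs.wordProd ω := by
            rw [← hRR, wordProd_append, h1, one_mul]
          have h3 := le_cost_of_eq hex hf hF hrun h2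
          rw [hcR, cost_append] at hcost
          cases R1 with
          | nil => exact hR1ne rfl
          | cons t R1' =>
            have hts : t ≠ q := by
              rw [hR1] at hV
              have := List.isChain_cons_cons.1 hV
              intro h
              exact this.1 ⟨rfl, h⟩
            rw [cost_cons_ne q hts] at hcost
            push_cast at hcost
            linarith
        have hcommU : cs.wordProd (q :: U) = cs.wordProd (U ++ [q]) := by
          rw [wordProd_cons, wordProd_append, hUp, ← wordProd_cons, hcomm, wordProd_append]
        -- `d` lacks `q`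
        have hdq : f d q = none := by
          cases hdq : f d q with
          | none => rfl
          | some d' =>
            exfalso
            by_cases hdes : cs.IsLeftDescent (cs.wordProd U) q
            · obtain ⟨U', hU', -, hU2', -⟩ := exists_reduced_cons hdes
              have := run_of_reduced hex hf U c d hUrun _ hU' hU2'
              rw [run_cons, hc] at this
              simp at this
            · have h1 : cs.IsReduced (q :: U) := by
                have h2 := cs.not_isLeftDescent_iff.1 hdes
                rw [CoxeterSystem.IsReduced, wordProd_cons, h2, List.length_cons, hUr.eq]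
              have h2 : run f c (U ++ [q]) = some d' := by
                rw [run_append_some]
                exact ⟨d, hUrun, by rw [run_cons_some]; exact ⟨d', hdq, rfl⟩⟩
              have h3 := run_of_reduced hex hf _ c d' h2 _ h1 hcommU
              rw [run_cons, hc] at h3
              simp at h3
        exact hW c d U hc hdq hUrun hUr hUne hcommU
    · rw [cost_cons_ne o hs] at hcost
      by_cases hd : cs.IsLeftDescent (cs.wordProd (s :: R)) s
      · obtain ⟨U, hU, hUr, hU2, hU3⟩ := exists_reduced_cons hd
        have h1 := run_of_reduced hex hf ω c e hrun _ hU (hU2.trans heq)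
        rw [run_cons_some] at h1
        obtain ⟨c', hc', hc2⟩ := h1
        rw [run_cons_some]
        refine ⟨c', hc', ih R.length (by omega) R hR hc2 ?_ ?_ rfl⟩
        · rw [hU3, wordProd_cons]; simp
        · have := hF.step _ _ _ hc'
          push_cast at hcost
          linarith
      · exfalso
        have h1 : cs.IsLeftDescent (cs.wordProd R) s := by
          rw [cs.isLeftDescent_iff]
          have := cs.not_isLeftDescent_iff.1 hd
          rw [wordProd_cons] at this
          simp only [simple_mul_simple_cancel_left] at this
          omega
        obtain ⟨p, hp, hp2⟩ := exchange_left cs R s h1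
        have h2 : cs.wordProd (R.eraseIdx p) = cs.wordProd ω := by
          rw [hp2, ← wordProd_cons, heq]
        have h3 := le_cost_of_eq hex hf hF hrun h2
        have h4 : cost o (R.eraseIdx p) ≤ cost o R := cost_sublist o (List.eraseIdx_sublist _ _)
        have h5 : (cost o (R.eraseIdx p) : ℤ) ≤ cost o R := by exact_mod_cast h4
        push_cast at hcost
        linarith

theorem not_isReduced_cons_cons (s : B) (V : List B) : ¬ cs.IsReduced (s :: s :: V) := by
  intro h
  have h1 := h.eq
  have h2 : cs.wordProd (s :: s :: V) = cs.wordProd V := by simp [wordProd_cons]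
  rw [h2] at h1
  have h3 := cs.length_wordProd_le V
  simp at h1
  omega

theorem isReduced_of_suffix {V V' : List B} (h : cs.IsReduced (V ++ V')) : cs.IsReduced V' := by
  have := h.drop V.length
  simpa using this

theorem exists_run_of_alt (hex : ExactOrders cs) {C : Type*} {f : C → B → Option C}
    (hf : BraidClosed M f) {c d : C} {p t : B} {U : List B} (hrun : run f c U = some d)
    (hp : cs.IsLeftDescent (cs.wordProd (p :: U)) p)
    (ht : cs.IsLeftDescent (cs.wordProd (p :: U)) t) :
    ∃ Y c1, cs.IsReduced (alt p t (M t p) ++ Y) ∧
      cs.wordProd (alt t p (M t p - 1) ++ Y) = cs.wordProd U ∧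
      run f c (alt t p (M t p - 1)) = some c1 ∧ run f c1 Y = some d := by
  obtain ⟨Y, hY, hYr⟩ := two_descents cs (i := p) (j := t) (hex.ne_zero p t)
    (hex.exact p t) hp ht
  obtain ⟨r, hr⟩ : ∃ r, M t p = r + 1 := ⟨M t p - 1, by have := hex.ne_zero t p; omega⟩
  have hr' : M p t = r + 1 := by rw [M.symmetric p t] at *; exact hr
  rw [hr'] at hY hYr
  have hr1 : M t p - 1 = r := by omega
  rw [hr1]
  have hY2 : cs.wordProd (alt t p r ++ Y) = cs.wordProd U := by
    rw [alt_succ, List.cons_append, wordProd_cons, wordProd_cons] at hY
    exact mul_left_cancel hY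
  have hYr2 : cs.IsReduced (alt t p r ++ Y) := by
    rw [alt_succ, List.cons_append] at hYr
    simpa using hYr.drop 1
  have h1 := run_of_reduced hex hf U c d hrun _ hYr2 hY2
  rw [run_append_some] at h1
  obtain ⟨c1, hc1, hc2⟩ := h1
  exact ⟨Y, c1, by rw [hr]; exact hYr, hY2, hc1, hc2⟩

/-- The wall criterion from a condition on straight boundary angles. -/
theorem wall_of_arcs (hex : ExactOrders cs) {C : Type*} {f : C → B → Option C}
    (hf : BraidClosed M f) {o : B}
    (hS : ∀ c t c1, f c o = none → t ≠ o → run f c (alt t o (M t o - 1)) = some c1 →
      M t o % 2 = 1 ∧ ∀ u, u ≠ t → u ≠ o → run f c1 (alt u t (M u t - 1)) = none)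
    (c d : C) (U : List B) (hc : f c o = none) (hrun : run f c U = some d)
    (hred : cs.IsReduced U) (hne : U ≠ []) :
    cs.wordProd (o :: U) ≠ cs.wordProd (U ++ [o]) := by
  intro heq
  cases U with
  | nil => exact hne rfl
  | cons t U' =>
    have hto : t ≠ o := by
      intro h
      subst h
      rw [run_cons, hc] at hrun
      simp at hrun
    have hnd : ¬ cs.IsLeftDescent (cs.wordProd (t :: U')) o := by
      intro hd
      obtain ⟨U2, hU, -, hU2, -⟩ := exists_reduced_cons hd
      have := run_of_reduced hex hf _ c d hrun _ hU hU2
      rw [run_cons, hc] at this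
      simp at this
    have hlen : cs.length (cs.wordProd (o :: t :: U')) = (t :: U').length + 1 := by
      rw [wordProd_cons]
      have := cs.not_isLeftDescent_iff.1 hnd
      rw [this, hred.eq]
    have hod : cs.IsLeftDescent (cs.wordProd (o :: t :: U')) o := by
      apply isLeftDescent_of_isReduced_cons
      rw [CoxeterSystem.IsReduced, hlen]; simp
    have htd : cs.IsLeftDescent (cs.wordProd (o :: t :: U')) t := by
      rw [heq, List.cons_append]
      apply isLeftDescent_of_isReduced_cons
      rw [CoxeterSystem.IsReduced, ← List.cons_append, ← heq, hlen]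
      simp
    obtain ⟨Y, c1, hYr, hY, hc1, hc1d⟩ :=
      exists_run_of_alt hex hf hrun hod htd
    obtain ⟨hodd, hnone⟩ := hS c t c1 hc hto hc1
    obtain ⟨r, hr⟩ : ∃ r, M t o = r + 1 := ⟨M t o - 1, by have := hex.ne_zero t o; omega⟩
    have hr1 : M t o - 1 = r := by omega
    rw [hr1] at hY
    rw [hr] at hYr
    have hreven : r % 2 = 0 := by omega
    have hMo : M o t = r + 1 := by rw [← hr]; exact M.symmetric o t
    -- `t Y = Y o`
    have hcomm : cs.wordProd (t :: Y) = cs.wordProd (Y ++ [o]) := by
      have h1 : cs.wordProd (o :: t :: U') = cs.wordProd (alt t o r) * cs.wordProd (t :: Y) := by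
        rw [wordProd_cons, ← hY, ← wordProd_cons, ← List.cons_append, ← alt_succ,
          wordProd_append, ← hMo, wordProd_alt_comm, hMo, alt_add, if_pos hreven,
          wordProd_append, wordProd_cons cs t Y]
        simp [alt, mul_assoc]
      have h2 : cs.wordProd (o :: t :: U') = cs.wordProd (alt t o r) * cs.wordProd (Y ++ [o]) := by
        rw [heq, wordProd_append, ← hY, wordProd_append, wordProd_append, mul_assoc]
      exact mul_left_cancel (h1.symm.trans h2)
    have hred2 : cs.IsReduced (alt t o r ++ (t :: Y)) := by
      have h1 : cs.wordProd (alt t o r ++ (t :: Y)) = cs.wordProd (alt o t (r + 1) ++ Y) := by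
        rw [wordProd_append _ (alt o t (r + 1)), ← hMo, wordProd_alt_comm, hMo, alt_add,
          if_pos hreven, ← wordProd_append]
        simp [alt]
      rw [CoxeterSystem.IsReduced, h1, hYr.eq]
      simp; omega
    have htY : cs.IsReduced (t :: Y) := isReduced_of_suffix hred2
    cases Y with
    | nil =>
      simp only [List.nil_append] at hcomm
      have h1 : (cs.simple t * cs.simple o) ^ 1 = 1 := by
        rw [wordProd_singleton, wordProd_singleton] at hcomm
        rw [hcomm]; simp
      have h2 := hex.exact t o 1 h1
      have h3 : M t o = 1 := by simpa using h2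
      exact M.off_diagonal t o hto h3
    | cons u Y' =>
      have hut : u ≠ t := by
        intro h
        subst h
        exact not_isReduced_cons_cons _ _ htY
      have huo : u ≠ o := by
        intro h
        subst h
        have h1 : alt u t (r + 1) ++ u :: Y' = alt u t r ++ (u :: u :: Y') := by
          rw [alt_add, if_pos hreven]
          simp [alt]
        rw [h1] at hYr
        exact not_isReduced_cons_cons _ _ (isReduced_of_suffix hYr)
      have hlen2 : cs.length (cs.wordProd (t :: u :: Y')) = (u :: Y').length + 1 := by
        rw [htY.eq]; rfl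
      have h3 : cs.IsLeftDescent (cs.wordProd (t :: u :: Y')) t :=
        isLeftDescent_of_isReduced_cons htY
      have h4 : cs.IsLeftDescent (cs.wordProd (t :: u :: Y')) u := by
        rw [hcomm, List.cons_append]
        apply isLeftDescent_of_isReduced_cons
        rw [CoxeterSystem.IsReduced, ← List.cons_append, ← hcomm, hlen2]
        simp
      obtain ⟨Y2, c2, -, -, hc2, -⟩ :=
        exists_run_of_alt hex hf hc1d h3 h4
      rw [hnone u hut huo] at hc2
      simp at hc2

end Pool.Agent.SLE
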